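import Mathlib

open Finset

namespace Pool.Agent.P.MP_e59a69_co

variable {V E : Type} [Fintype E] [DecidableEq V]

/-- Degree of the vertex `v` in the edge set `H` of the multigraph whose edge `e` is oriented
from `src e` to `tgt e`; a loop counts twice. -/
def degIn (src tgt : E → V) (H : Finset E) (v : V) : ℕ :=
  #{e ∈ H | src e = v} + #{e ∈ H | tgt e = v}

/-- `φ` is a `k`-flow (zero values allowed). -/
def IsKFlow (src tgt : E → V) (k : ℤ) (φ : E → ℤ) : Prop :=
  (∀ e, |φ e| ≤ k - 1) ∧ ∀ v, ∑ e with src e = v, φ e = ∑ e with tgt e = v, φ e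

/-- The subgraph induced on `X` contains a cycle: a nonempty set of edges with both ends in `X`
in which every vertex has degree 0 or 2. -/
def HasCycleIn (src tgt : E → V) (X : Finset V) : Prop :=
  ∃ C : Finset E, C.Nonempty ∧ (∀ e ∈ C, src e ∈ X ∧ tgt e ∈ X) ∧
    ∀ v, degIn src tgt C v = 0 ∨ degIn src tgt C v = 2

/-- Number of connected components with an odd number of vertices of the spanning subgraph
with edge set `F`. -/
noncomputable def numOddComps (src tgt : E → V) (F : Finset E) : ℕ :=
  (SimpleGraph.fromRel fun u v => ∃ e ∈ F, src e = u ∧ tgt e = v).oddComponents.ncard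

end Pool.Agent.P.MP_e59a69_co
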