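import Pool.Agent.P.MP_e59a69_co.Defs

open Finset

namespace Pool.Agent.P.MP_e59a69_co

variable {V E : Type} [Fintype E] [DecidableEq V]

/-- Effective resistance between the two ends of the edge `e` when every edge is a unit resistor
(Thomson's principle): the infimum of the energies of the real unit flows from `src e` to `tgt e`. -/
noncomputable def effRes (src tgt : E → V) (e : E) : ℝ :=
  sInf {t : ℝ | ∃ f : E → ℝ,
    (∀ v, ∑ x with src x = v, f x - ∑ x with tgt x = v, f x =
      (if src e = v then 1 else 0) - (if tgt e = v then 1 else 0)) ∧ t = ∑ x, f x ^ 2}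

end Pool.Agent.P.MP_e59a69_co
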