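import Mathlib

/-! A laminar family approximating all cuts of a multigraph (hierarchical decomposition). -/

open Finset

namespace Pool.Agent.P.MP_e59a69_co

variable {V : Type} [Fintype V] [DecidableEq V]

/-- number of edges from `A` to `B` -/
def EB (a : V → V → ℕ) (A B : Finset V) : ℕ := ∑ u ∈ A, ∑ v ∈ B, a u v

omit [Fintype V] [DecidableEq V] in
lemma EB_comm {a : V → V → ℕ} (ha : ∀ u v, a u v = a v u) (A B : Finset V) :
    EB a A B = EB a B A := by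
  unfold EB
  rw [Finset.sum_comm]
  exact Finset.sum_congr rfl fun u _ => Finset.sum_congr rfl fun v _ => ha v u

lemma EB_split (a : V → V → ℕ) {Z S : Finset V} (h : Z ⊆ S) :
    EB a Z Zᶜ = EB a Z (S \ Z) + EB a Z Sᶜ := by
  unfold EB
  rw [← Finset.sum_add_distrib]
  refine Finset.sum_congr rfl fun u _ => ?_
  rw [← Finset.sum_union]
  · refine Finset.sum_congr ?_ fun _ _ => rfl
    ext v
    simp only [mem_compl, mem_union, mem_sdiff]
    have := @h v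
    tauto
  · exact Finset.disjoint_left.2 fun v h1 h2 => (mem_compl.1 h2) (mem_sdiff.1 h1).1

/-- small subsets of `S` are well attached to `S` -/
def Pre (a : V → V → ℕ) (R : Finset V) (h : ℕ) (S : Finset V) : Prop :=
  ∀ Z ⊆ S, 2 * #(Z ∩ R) ≤ #(S ∩ R) → EB a Z Sᶜ ≤ 4 * h * EB a Z (S \ Z)

/-- `cl` describes a partition of `S` -/
def IsPart (S : Finset V) (cl : V → Finset V) : Prop :=
  ∀ u ∈ S, u ∈ cl u ∧ cl u ⊆ S ∧ ∀ v ∈ cl u, cl v = cl u

lemma size_half {z x : ℕ} (h1 : 2 * z ≤ x) (h2 : 1 ≤ x) : z.size + 1 ≤ x.size := by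
  have h3 : x < 2 ^ x.size := Nat.lt_size_self x
  have h4 : 0 < x.size := Nat.size_pos.2 h2
  obtain ⟨k, hk⟩ : ∃ k, x.size = k + 1 := ⟨x.size - 1, by omega⟩
  rw [hk] at h3 ⊢
  have : z.size ≤ k := Nat.size_le.2 (by rw [pow_succ] at h3; omega)
  omega

lemma exists_part (a : V → V → ℕ) (ha : ∀ u v, a u v = a v u) (R : Finset V) (h : ℕ)
    (hR : #R < 2 ^ h) (S : Finset V) (hS : Pre a R h S) (h2 : 2 ≤ #(S ∩ R)) :
    ∃ cl : V → Finset V, IsPart S cl ∧ (∀ u ∈ S, 2 * #(cl u ∩ R) ≤ #(S ∩ R)) ∧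
      (∀ u ∈ S, 1 ≤ #(cl u ∩ R) → Pre a R h (cl u)) ∧
      ∀ Z ⊆ S, 2 * #(Z ∩ R) ≤ #(S ∩ R) →
        ∑ u ∈ Z, ∑ v ∈ (cl u)ᶜ, a u v ≤ (8 * h + 4) * EB a Z (S \ Z) := by
  classical
  let ρ : Finset V → ℕ := fun K => h + (#(K ∩ R)).size
  have hρ : ∀ K, ρ K ≤ 2 * h := fun K => by
    have : (#(K ∩ R)).size ≤ h :=
      Nat.size_le.2 (lt_of_le_of_lt (card_le_card inter_subset_right) hR)
    simp only [ρ]; omega
  have hρmono : ∀ K K', K ⊆ K' → ρ K ≤ ρ K' := fun K K' hK => by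
    have : (#(K ∩ R)).size ≤ (#(K' ∩ R)).size :=
      Nat.size_le_size (card_le_card (inter_subset_inter hK subset_rfl))
    simp only [ρ]; omega
  have hh : 1 ≤ h := by
    rcases h with _ | h
    · have := card_le_card (inter_subset_right : S ∩ R ⊆ R)
      simp at hR; rw [hR] at h2; simp at h2
    · omega
  let Ψ : (V → Finset V) → ℕ := fun cl => ∑ u ∈ S, (∑ v ∈ (cl u)ᶜ, a u v) * ρ (cl u)
  let good : (V → Finset V) → Prop := fun cl =>
    IsPart S cl ∧ ∀ u ∈ S, 2 * #(cl u ∩ R) ≤ #(S ∩ R)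
  have hex : ∃ n, ∃ cl, good cl ∧ Ψ cl = n := by
    refine ⟨_, fun u => {u}, ⟨fun u hu => ⟨mem_singleton_self u, singleton_subset_iff.2 hu,
      fun v hv => by rw [mem_singleton.1 hv]⟩, fun u _ => ?_⟩, rfl⟩
    have : #({u} ∩ R) ≤ 1 := (card_le_card inter_subset_left).trans (by simp)
    show 2 * #({u} ∩ R) ≤ _
    omega
  obtain ⟨cl, ⟨hp, hsz⟩, hcl⟩ := Nat.find_spec hex
  have hmin : ∀ cl', good cl' → Ψ cl ≤ Ψ cl' := fun cl' h' => by
    rw [hcl]; exact Nat.find_min' hex ⟨cl', h', rfl⟩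
  have star : ∀ Z ⊆ S, 2 * #(Z ∩ R) ≤ #(S ∩ R) →
      ∑ u ∈ Z, (∑ v ∈ (cl u)ᶜ, a u v) * ρ (cl u) ≤
        EB a Z Zᶜ * ρ Z + 2 * h * ∑ u ∈ S \ Z, ∑ v ∈ Z ∩ cl u, a u v := by
    intro Z hZ hZ2
    let cl' : V → Finset V := fun u => if u ∈ Z then Z else cl u \ Z
    have hg : good cl' := by
      refine ⟨fun u hu => ?_, fun u hu => ?_⟩
      · by_cases huZ : u ∈ Z
        · simp only [cl', huZ, if_true]
          exact ⟨trivial, hZ, fun v hv => by simp only [hv, if_true]⟩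
        · simp only [cl', huZ, if_false]
          obtain ⟨p1, p2, p3⟩ := hp u hu
          refine ⟨mem_sdiff.2 ⟨p1, huZ⟩, sdiff_subset.trans p2, fun v hv => ?_⟩
          rw [mem_sdiff] at hv
          simp only [hv.2, if_false, p3 v hv.1]
      · by_cases huZ : u ∈ Z
        · simp only [cl', huZ, if_true]; exact hZ2
        · simp only [cl', huZ, if_false]
          have := hsz u hu
          have h3 : #((cl u \ Z) ∩ R) ≤ #(cl u ∩ R) :=
            card_le_card (inter_subset_inter sdiff_subset subset_rfl)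
          omega
    have h1 := hmin cl' hg
    simp only [Ψ] at h1
    rw [← Finset.sum_sdiff hZ, ← Finset.sum_sdiff hZ] at h1
    have e1 : ∑ u ∈ Z, (∑ v ∈ (cl' u)ᶜ, a u v) * ρ (cl' u) = EB a Z Zᶜ * ρ Z := by
      unfold EB
      rw [Finset.sum_mul]
      refine Finset.sum_congr rfl fun u hu => ?_
      simp only [cl', hu, if_true]
    have e2 : ∑ u ∈ S \ Z, (∑ v ∈ (cl' u)ᶜ, a u v) * ρ (cl' u) ≤
        ∑ u ∈ S \ Z, (∑ v ∈ (cl u)ᶜ, a u v) * ρ (cl u) +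
          2 * h * ∑ u ∈ S \ Z, ∑ v ∈ Z ∩ cl u, a u v := by
      rw [Finset.mul_sum, ← Finset.sum_add_distrib]
      refine Finset.sum_le_sum fun u hu => ?_
      have huZ := (mem_sdiff.1 hu).2
      simp only [cl', huZ, if_false]
      have e3 : ∑ v ∈ (cl u \ Z)ᶜ, a u v = ∑ v ∈ (cl u)ᶜ, a u v + ∑ v ∈ Z ∩ cl u, a u v := by
        rw [← Finset.sum_union]
        · refine Finset.sum_congr ?_ fun _ _ => rfl
          ext v
          simp only [mem_compl, mem_union, mem_sdiff, mem_inter]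
          tauto
        · exact Finset.disjoint_left.2 fun v h1 h2 => (mem_compl.1 h1) (mem_inter.1 h2).2
      rw [e3, add_mul]
      have m1 := hρmono (cl u \ Z) (cl u) sdiff_subset
      have m2 := hρ (cl u \ Z)
      have m3 := Nat.mul_le_mul_left (∑ v ∈ (cl u)ᶜ, a u v) m1
      have m4 := Nat.mul_le_mul_left (∑ v ∈ Z ∩ cl u, a u v) m2
      nlinarith
    omega
  refine ⟨cl, hp, hsz, fun u hu h1 Z hZ hZ2 => ?_, fun Z hZ hZ2 => ?_⟩
  · obtain ⟨p1, p2, p3⟩ := hp u hu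
    have hs := star Z (hZ.trans p2) (by have := hsz u hu; omega)
    have e1 : ∑ x ∈ Z, (∑ v ∈ (cl x)ᶜ, a x v) * ρ (cl x) = EB a Z (cl u)ᶜ * ρ (cl u) := by
      unfold EB
      rw [Finset.sum_mul]
      refine Finset.sum_congr rfl fun x hx => ?_
      rw [p3 x (hZ hx)]
    have e2 : ∑ x ∈ S \ Z, ∑ v ∈ Z ∩ cl x, a x v ≤ EB a Z (cl u \ Z) := by
      rw [EB_comm ha]
      unfold EB
      rw [← Finset.sum_sdiff (sdiff_subset_sdiff p2 subset_rfl : cl u \ Z ⊆ S \ Z)]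
      have z : ∑ x ∈ (S \ Z) \ (cl u \ Z), ∑ v ∈ Z ∩ cl x, a x v = 0 := by
        refine Finset.sum_eq_zero fun x hx => Finset.sum_eq_zero fun v hv => ?_
        exfalso
        simp only [mem_sdiff, mem_inter] at hx hv
        obtain ⟨q1, -, q3⟩ := hp x hx.1.1
        apply hx.2
        refine ⟨?_, hx.1.2⟩
        rw [← p3 v (hZ hv.1), q3 v hv.2]
        exact q1
      rw [z, zero_add]
      exact Finset.sum_le_sum fun x _ =>
        Finset.sum_le_sum_of_subset inter_subset_left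
    have e3 := EB_split a hZ
    have e4 : ρ Z + 1 ≤ ρ (cl u) := by
      have := size_half hZ2 h1
      simp only [ρ]; omega
    have e5 := hρ Z
    rw [e1, e3] at hs
    have e6 := Nat.mul_le_mul_left (EB a Z (cl u)ᶜ) e4
    have e7 := Nat.mul_le_mul_left (EB a Z (cl u \ Z)) e5
    have e8 := Nat.mul_le_mul_left (2 * h) e2
    nlinarith
  · have hs := star Z hZ hZ2
    have e1 : (∑ u ∈ Z, ∑ v ∈ (cl u)ᶜ, a u v) * h ≤
        ∑ u ∈ Z, (∑ v ∈ (cl u)ᶜ, a u v) * ρ (cl u) := by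
      rw [Finset.sum_mul]
      exact Finset.sum_le_sum fun u _ => Nat.mul_le_mul_left _ (by simp only [ρ]; omega)
    have e2 : ∑ x ∈ S \ Z, ∑ v ∈ Z ∩ cl x, a x v ≤ EB a Z (S \ Z) := by
      rw [EB_comm ha]
      unfold EB
      exact Finset.sum_le_sum fun x _ =>
        Finset.sum_le_sum_of_subset inter_subset_left
    have e3 := EB_split a hZ
    have e4 := hS Z hZ hZ2
    have e5 := hρ Z
    have e6 : EB a Z Zᶜ ≤ (4 * h + 1) * EB a Z (S \ Z) := by rw [e3]; nlinarith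
    have e7 := Nat.mul_le_mul e6 e5
    have e8 := Nat.mul_le_mul_left (2 * h) e2
    have e9 : (∑ u ∈ Z, ∑ v ∈ (cl u)ᶜ, a u v) * h ≤ ((8 * h + 4) * EB a Z (S \ Z)) * h := by
      nlinarith
    exact Nat.le_of_mul_le_mul_right e9 (by omega)

omit [Fintype V] in
lemma sum_part {M : Type} [AddCommMonoid M] {S : Finset V} {cl : V → Finset V} (hp : IsPart S cl)
    {Z : Finset V} (hZ : Z ⊆ S) (g : V → M) :
    ∑ u ∈ Z, g u = ∑ K ∈ S.image cl, ∑ u ∈ Z ∩ K, g u := by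
  rw [← Finset.sum_fiberwise_of_maps_to (s := Z) (t := S.image cl) (g := cl)
    (fun u hu => mem_image_of_mem cl (hZ hu))]
  refine Finset.sum_congr rfl fun K hK => Finset.sum_congr ?_ fun _ _ => rfl
  obtain ⟨x, hx, rfl⟩ := mem_image.1 hK
  ext u
  simp only [mem_filter, mem_inter]
  constructor
  · rintro ⟨h1, h2⟩
    exact ⟨h1, h2 ▸ (hp u (hZ h1)).1⟩
  · rintro ⟨h1, h2⟩
    exact ⟨h1, (hp x hx).2.2 u h2⟩

/-- any two members are nested or disjoint -/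
def Laminar (L : Finset (Finset V)) : Prop :=
  ∀ K ∈ L, ∀ K' ∈ L, K ⊆ K' ∨ K' ⊆ K ∨ Disjoint K K'

theorem approx (a : V → V → ℕ) (ha : ∀ u v, a u v = a v u) (R : Finset V) (h : ℕ)
    (hR : #R < 2 ^ h) (hconn : ∀ Z, #(Z ∩ R) = 1 → 1 ≤ EB a Z Zᶜ) :
    ∀ k : ℕ, ∀ S : Finset V, #(S ∩ R) < 2 ^ k → (1 ≤ #(S ∩ R) → Pre a R h S) →
      ∃ L : Finset (Finset V), (∀ K ∈ L, K ⊆ S) ∧ Laminar L ∧ #L ≤ k * #(S ∩ R) ∧
        ∀ b : V → ℤ, (∀ v, v ∉ R → b v = 0) → (∀ v, |b v| ≤ 1) →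
          (∀ K ∈ L, |∑ v ∈ K, b v| ≤ EB a K Kᶜ) → ∀ Z ⊆ S,
            ∑ v ∈ Z, b v ≤ (1 + k * (16 * h + 8) : ℕ) * (EB a Z (S \ Z) : ℤ) + EB a Z Sᶜ := by
  classical
  have base : ∀ k : ℕ, ∀ S : Finset V, #(S ∩ R) ≤ 1 →
      ∃ L : Finset (Finset V), (∀ K ∈ L, K ⊆ S) ∧ Laminar L ∧ #L ≤ k * #(S ∩ R) ∧
        ∀ b : V → ℤ, (∀ v, v ∉ R → b v = 0) → (∀ v, |b v| ≤ 1) →
          (∀ K ∈ L, |∑ v ∈ K, b v| ≤ EB a K Kᶜ) → ∀ Z ⊆ S,
            ∑ v ∈ Z, b v ≤ (1 + k * (16 * h + 8) : ℕ) * (EB a Z (S \ Z) : ℤ) + EB a Z Sᶜ := by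
    intro k S hS
    refine ⟨∅, by simp, by simp [Laminar], by simp, fun b hb0 hb1 _ Z hZ => ?_⟩
    have e1 : ∑ v ∈ Z, b v ≤ #(Z ∩ R) := by
      have : (#(Z ∩ R) : ℤ) = ∑ v ∈ Z, if v ∈ R then 1 else 0 := by
        rw [Finset.sum_ite_mem]; simp
      rw [this]
      refine Finset.sum_le_sum fun v _ => ?_
      split_ifs with hv
      · exact (abs_le.1 (hb1 v)).2
      · rw [hb0 v hv]
    have e2 : #(Z ∩ R) ≤ #(S ∩ R) := card_le_card (inter_subset_inter hZ subset_rfl)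
    have e3 := EB_split a hZ
    have e4 : #(Z ∩ R) ≤ EB a Z Zᶜ := by
      by_cases h1 : #(Z ∩ R) = 1
      · rw [h1]; exact hconn Z h1
      · omega
    have e5 : EB a Z (S \ Z) ≤ (1 + k * (16 * h + 8)) * EB a Z (S \ Z) :=
      Nat.le_mul_of_pos_left _ (by omega)
    have e6 : #(Z ∩ R) ≤ (1 + k * (16 * h + 8)) * EB a Z (S \ Z) + EB a Z Sᶜ := by omega
    exact e1.trans (by exact_mod_cast e6)
  intro k
  induction k with
  | zero => intro S hS _; exact base 0 S (by simp at hS; simp [hS])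
  | succ k ih =>
    intro S hS hpre
    by_cases h2 : #(S ∩ R) ≤ 1
    · exact base _ S h2
    obtain ⟨cl, hp, hsz, hcp, hexp⟩ := exists_part a ha R h hR S (hpre (by omega)) (by omega)
    have ih' : ∀ K : Finset V, ∃ L : Finset (Finset V), K ∈ S.image cl →
        (∀ K' ∈ L, K' ⊆ K) ∧ Laminar L ∧ #L ≤ k * #(K ∩ R) ∧
        ∀ b : V → ℤ, (∀ v, v ∉ R → b v = 0) → (∀ v, |b v| ≤ 1) →
          (∀ K ∈ L, |∑ v ∈ K, b v| ≤ EB a K Kᶜ) → ∀ Z ⊆ K,
            ∑ v ∈ Z, b v ≤ (1 + k * (16 * h + 8) : ℕ) * (EB a Z (K \ Z) : ℤ) + EB a Z Kᶜ := by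
      intro K
      by_cases hK : K ∈ S.image cl
      · obtain ⟨u, hu, rfl⟩ := mem_image.1 hK
        obtain ⟨L, hL⟩ := ih (cl u) (by have := hsz u hu; rw [pow_succ] at hS; omega) (hcp u hu)
        exact ⟨L, fun _ => hL⟩
      · exact ⟨∅, fun h => absurd h hK⟩
    choose Lf hLf using ih'
    have hKS : ∀ K ∈ S.image cl, K ⊆ S := fun K hK => by
      obtain ⟨u, hu, rfl⟩ := mem_image.1 hK
      exact (hp u hu).2.1
    have hdisj : ∀ K ∈ S.image cl, ∀ K' ∈ S.image cl, K ≠ K' → Disjoint K K' := by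
      intro K hK K' hK' hne
      obtain ⟨u, hu, rfl⟩ := mem_image.1 hK
      obtain ⟨u', hu', rfl⟩ := mem_image.1 hK'
      exact Finset.disjoint_left.2 fun v h1 h2 =>
        hne (((hp u hu).2.2 v h1).symm.trans ((hp u' hu').2.2 v h2))
    have hmem : ∀ K' ∈ insert S ((S.image cl).biUnion Lf),
        K' = S ∨ ∃ K ∈ S.image cl, K' ∈ Lf K := fun K' hK' => by
      simpa only [mem_insert, mem_biUnion] using hK'
    have hsub : ∀ K' ∈ insert S ((S.image cl).biUnion Lf), K' ⊆ S := fun K' hK' => by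
      rcases hmem K' hK' with rfl | ⟨K, hK, h1⟩
      · exact subset_rfl
      · exact ((hLf K hK).1 K' h1).trans (hKS K hK)
    refine ⟨insert S ((S.image cl).biUnion Lf), hsub, fun K1 h1 K2 h2 => ?_, ?_,
      fun b hb0 hb1 hbL => ?_⟩
    · rcases hmem K1 h1 with rfl | ⟨K, hK, h3⟩
      · exact Or.inr (Or.inl (hsub K2 h2))
      rcases hmem K2 h2 with rfl | ⟨K', hK', h4⟩
      · exact Or.inl (hsub K1 h1)
      by_cases hKK : K = K'
      · subst hKK; exact (hLf K hK).2.1 K1 h3 K2 h4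
      · exact Or.inr (Or.inr (Finset.disjoint_of_subset_left ((hLf K hK).1 K1 h3)
          (Finset.disjoint_of_subset_right ((hLf K' hK').1 K2 h4) (hdisj K hK K' hK' hKK))))
    · have e1 := card_insert_le S ((S.image cl).biUnion Lf)
      have e2 : #((S.image cl).biUnion Lf) ≤ ∑ K ∈ S.image cl, #(Lf K) := card_biUnion_le
      have e3 : ∑ K ∈ S.image cl, #(Lf K) ≤ ∑ K ∈ S.image cl, k * #(K ∩ R) :=
        Finset.sum_le_sum fun K hK => (hLf K hK).2.2.1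
      have e4 : #(S ∩ R) = ∑ K ∈ S.image cl, #(K ∩ R) := by
        rw [card_eq_sum_ones, sum_part hp (inter_subset_left : S ∩ R ⊆ S)]
        refine Finset.sum_congr rfl fun K hK => ?_
        rw [← card_eq_sum_ones]
        congr 1
        ext v
        have := @hKS K hK v
        simp only [mem_inter]; tauto
      rw [← Finset.mul_sum, ← e4] at e3
      nlinarith
    · have key : ∀ b : V → ℤ, (∀ v, v ∉ R → b v = 0) → (∀ v, |b v| ≤ 1) →
          (∀ K ∈ insert S ((S.image cl).biUnion Lf), |∑ v ∈ K, b v| ≤ EB a K Kᶜ) → ∀ Z ⊆ S,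
          ∑ v ∈ Z, b v ≤ (1 + k * (16 * h + 8) : ℕ) * (EB a Z (S \ Z) : ℤ) +
            (∑ u ∈ Z, ∑ v ∈ (cl u)ᶜ, a u v : ℕ) := by
        intro b hb0 hb1 hbL Z hZ
        have e1 : ∑ K ∈ S.image cl, EB a (Z ∩ K) (K \ (Z ∩ K)) ≤ EB a Z (S \ Z) := by
          unfold EB
          rw [sum_part hp hZ]
          refine Finset.sum_le_sum fun K hK => Finset.sum_le_sum fun u _ =>
            Finset.sum_le_sum_of_subset fun v hv => ?_
          have := @hKS K hK v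
          simp only [mem_sdiff, mem_inter] at hv ⊢
          tauto
        have e2 : ∑ K ∈ S.image cl, EB a (Z ∩ K) Kᶜ = ∑ u ∈ Z, ∑ v ∈ (cl u)ᶜ, a u v := by
          unfold EB
          rw [sum_part hp hZ]
          refine Finset.sum_congr rfl fun K hK => Finset.sum_congr rfl fun u hu => ?_
          obtain ⟨x, hx, rfl⟩ := mem_image.1 hK
          rw [(hp x hx).2.2 u (mem_inter.1 hu).2]
        have e3 : ∑ v ∈ Z, b v ≤ ∑ K ∈ S.image cl,
            ((1 + k * (16 * h + 8) : ℕ) * (EB a (Z ∩ K) (K \ (Z ∩ K)) : ℤ) + EB a (Z ∩ K) Kᶜ) := by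
          rw [sum_part hp hZ]
          refine Finset.sum_le_sum fun K hK => (hLf K hK).2.2.2 b hb0 hb1 (fun K' hK' => ?_)
            (Z ∩ K) inter_subset_right
          exact hbL K' (mem_insert_of_mem (mem_biUnion.2 ⟨K, hK, hK'⟩))
        rw [Finset.sum_add_distrib, ← Finset.mul_sum, ← Nat.cast_sum, ← Nat.cast_sum, e2] at e3
        have e4 : ((1 + k * (16 * h + 8) : ℕ) : ℤ) *
            (∑ K ∈ S.image cl, EB a (Z ∩ K) (K \ (Z ∩ K)) : ℕ) ≤
            (1 + k * (16 * h + 8) : ℕ) * (EB a Z (S \ Z) : ℤ) :=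
          mul_le_mul_of_nonneg_left (by exact_mod_cast e1) (by positivity)
        linarith
      intro Z hZ
      have ecast : ((1 + (k + 1) * (16 * h + 8) : ℕ) : ℤ) =
          (1 + k * (16 * h + 8) : ℕ) + 2 * ((8 * h + 4 : ℕ) : ℤ) := by push_cast; ring
      rw [ecast]
      have hnn : (0 : ℤ) ≤ ((8 * h + 4 : ℕ) : ℤ) * (EB a Z (S \ Z) : ℤ) := by positivity
      by_cases hz : 2 * #(Z ∩ R) ≤ #(S ∩ R)
      · have e1 := key b hb0 hb1 hbL Z hZ
        have e2 : ((∑ u ∈ Z, ∑ v ∈ (cl u)ᶜ, a u v : ℕ) : ℤ) ≤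
            ((8 * h + 4 : ℕ) : ℤ) * (EB a Z (S \ Z) : ℤ) := by exact_mod_cast hexp Z hZ hz
        have e3 : (0 : ℤ) ≤ EB a Z Sᶜ := by positivity
        linarith
      · have c1 : #((S \ Z) ∩ R) + #(Z ∩ R) = #(S ∩ R) := by
          rw [← card_union_of_disjoint, ← union_inter_distrib_right, sdiff_union_of_subset hZ]
          exact Finset.disjoint_left.2 fun v h1 h2 =>
            (mem_sdiff.1 (mem_inter.1 h1).1).2 (mem_inter.1 h2).1
        have e0 : EB a (S \ Z) (S \ (S \ Z)) = EB a Z (S \ Z) := by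
          rw [Finset.sdiff_sdiff_eq_self hZ, EB_comm ha]
        have e1 := key (fun v => - b v) (fun v hv => by simp [hb0 v hv])
          (fun v => by simpa using hb1 v)
          (fun K hK => by simpa [Finset.sum_neg_distrib] using hbL K hK) (S \ Z) sdiff_subset
        have e2 : ((∑ u ∈ S \ Z, ∑ v ∈ (cl u)ᶜ, a u v : ℕ) : ℤ) ≤
            ((8 * h + 4 : ℕ) : ℤ) * (EB a Z (S \ Z) : ℤ) := by
          have := hexp (S \ Z) sdiff_subset (by omega)
          rw [e0] at this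
          exact_mod_cast this
        rw [e0, Finset.sum_neg_distrib] at e1
        have e3 := (abs_le.1 (hbL S (mem_insert_self _ _))).2
        have e4 : ∑ v ∈ S \ Z, b v + ∑ v ∈ Z, b v = ∑ v ∈ S, b v := Finset.sum_sdiff hZ
        have e5 : EB a S Sᶜ ≤ (∑ u ∈ S \ Z, ∑ v ∈ (cl u)ᶜ, a u v) + EB a Z Sᶜ := by
          unfold EB
          rw [← Finset.sum_sdiff hZ]
          refine Nat.add_le_add_right (Finset.sum_le_sum fun u hu =>
            Finset.sum_le_sum_of_subset ?_) _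
          exact compl_subset_compl.2 (hp u (mem_sdiff.1 hu).1).2.1
        have e6 : (EB a S Sᶜ : ℤ) ≤ (∑ u ∈ S \ Z, ∑ v ∈ (cl u)ᶜ, a u v : ℕ) + (EB a Z Sᶜ : ℤ) := by
          exact_mod_cast e5
        linarith

/-- the tree-like cut approximator -/
theorem approx_univ (a : V → V → ℕ) (ha : ∀ u v, a u v = a v u) (R : Finset V) (h : ℕ)
    (hR : #R < 2 ^ h) (hconn : ∀ Z, #(Z ∩ R) = 1 → 1 ≤ EB a Z Zᶜ) :
    ∃ L : Finset (Finset V), Laminar L ∧ #L ≤ h * 2 ^ h ∧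
      ∀ b : V → ℤ, (∀ v, v ∉ R → b v = 0) → (∀ v, |b v| ≤ 1) →
        (∀ K ∈ L, |∑ v ∈ K, b v| ≤ EB a K Kᶜ) → ∀ Z,
          ∑ v ∈ Z, b v ≤ (1 + h * (16 * h + 8) : ℕ) * (EB a Z Zᶜ : ℤ) := by
  obtain ⟨L, -, h2, h3, h4⟩ := approx a ha R h hR hconn h univ (by simpa using hR)
    (fun _ Z _ _ => by simp [EB])
  refine ⟨L, h2, h3.trans (Nat.mul_le_mul_left _ (by simpa using hR.le)), fun b h5 h6 h7 Z => ?_⟩
  have := h4 b h5 h6 h7 Z (subset_univ Z)
  simpa [EB, ← compl_eq_univ_sdiff] using this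

end Pool.Agent.P.MP_e59a69_co
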