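import Pool.Agent.P.MP_e59a69_co.Thin

/-! Counting lemmas for the systems of segments, and the bound on bad pairs. -/

open Finset

namespace Pool.Agent.P.MP_e59a69_co

variable {V : Type} [Fintype V] [DecidableEq V]

/-- adjacency multiplicities of the cubic graph -/
def adj (π μ : Equiv.Perm V) (u v : V) : ℕ :=
  (if π u = v then 1 else 0) + (if π v = u then 1 else 0) + (if μ u = v then 1 else 0)

variable {π μ : Equiv.Perm V} {c : ℕ}

omit [Fintype V] in
lemma adj_comm (hμ : ∀ v, μ (μ v) = v) (u v : V) : adj π μ u v = adj π μ v u := by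
  have : μ u = v ↔ μ v = u := ⟨fun h => by rw [← h, hμ], fun h => by rw [← h, hμ]⟩
  unfold adj
  simp only [this]; ring

lemma EB_adj (π μ : Equiv.Perm V) (X : Finset V) :
    EB (adj π μ) X Xᶜ = fc π X + mc μ X := by
  unfold EB adj
  simp only [Finset.sum_add_distrib]
  rw [Finset.sum_comm (s := X) (t := Xᶜ) (f := fun u v => if π v = u then 1 else 0)]
  simp only [Finset.sum_ite_eq, ← card_filter, mem_compl]
  congr 1
  unfold fc
  rw [← card_union_of_disjoint]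
  · congr 1
    ext v
    simp only [mem_filter, mem_univ, true_and, mem_union, mem_compl]; tauto
  · exact Finset.disjoint_left.2 fun v h1 h2 => (mem_compl.1 (mem_filter.1 h2).1) (mem_filter.1 h1).1

omit [Fintype V] in
lemma mem_Sys {L : ℕ} {s x : V} : x ∈ Sys π μ L s ↔
    ∃ j t : ℤ, -2 ≤ j ∧ j ≤ 3 ∧ -L ≤ t ∧ t ≤ L ∧ (π ^ t) (Cen π μ j s) = x := by
  simp only [Sys, mem_biUnion, mem_Icc, mem_Iv]
  constructor
  · rintro ⟨j, ⟨h1, h2⟩, t, h3, h4, h5⟩; exact ⟨j, t, h1, h2, h3, h4, h5⟩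
  · rintro ⟨j, t, h1, h2, h3, h4, h5⟩; exact ⟨j, ⟨h1, h2⟩, t, h3, h4, h5⟩

lemma card_J : #(Icc (-2 : ℤ) 3) = 6 := by simp

omit [Fintype V] in
lemma card_Sys {L : ℕ} (hL : 6 ≤ L) (s : V) : #(Sys π μ L s) ≤ 13 * L := by
  refine (card_biUnion_le_card_mul _ _ (2 * L + 1) fun j _ =>
    (card_Iv_le _ _ _ _).trans (by omega)).trans ?_
  rw [card_J]; omega

lemma card_Sys_inv {L : ℕ} (hL : 6 ≤ L) (x : V) : #{s | x ∈ Sys π μ L s} ≤ 13 * L := by
  refine le_trans (card_le_card (t := (Icc (-2 : ℤ) 3 ×ˢ Icc (-L : ℤ) L).image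
    fun p => (Cen π μ p.1).symm ((π ^ p.2) x)) fun s hs => ?_) (card_image_le.trans ?_)
  · obtain ⟨j, t, h1, h2, h3, h4, h5⟩ := mem_Sys.1 (mem_filter.1 hs).2
    refine mem_image.2 ⟨(j, -t), by simp only [mem_product, mem_Icc]; omega, ?_⟩
    rw [← h5, zp_add]; simp
  · simp only [card_product, card_J]
    simp only [Int.card_Icc]; omega

lemma card_Nb {L : ℕ} (hL : 36 ≤ L) (s : V) :
    #{s' | ¬ Disjoint (Sys π μ L s) (Sys π μ L s')} ≤ 145 * L := by
  refine le_trans (card_le_card (t := ((Icc (-2 : ℤ) 3 ×ˢ Icc (-2 : ℤ) 3) ×ˢ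
      Icc (-(2 * L) : ℤ) (2 * L)).image
    fun p => (Cen π μ p.1.2).symm ((π ^ p.2) (Cen π μ p.1.1 s))) fun s' hs => ?_)
    (card_image_le.trans ?_)
  · obtain ⟨x, x1, x2⟩ := Finset.not_disjoint_iff.1 (mem_filter.1 hs).2
    obtain ⟨j, t, h1, h2, h3, h4, h5⟩ := mem_Sys.1 x1
    obtain ⟨k, t', k1, k2, k3, k4, k5⟩ := mem_Sys.1 x2
    refine mem_image.2 ⟨((j, k), t - t'), by simp only [mem_product, mem_Icc]; omega, ?_⟩
    rw [Equiv.symm_apply_eq]
    apply (π ^ t').injective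
    rw [k5, ← h5, zp_add]; congr 2; ring
  · simp only [card_product, card_J]
    simp only [Int.card_Icc]; omega

omit [Fintype V] in
lemma Sys_conn {L : ℕ} (hL : 2 ≤ L) (s : V) (K : Finset V)
    (h : ∀ x ∈ Sys π μ L s, (x ∈ K ↔ π x ∈ K) ∧ (x ∈ K ↔ μ x ∈ K)) :
    ∀ y ∈ Sys π μ L s, (y ∈ K ↔ s ∈ K) := by
  have key : ∀ j t : ℤ, -2 ≤ j → j ≤ 3 → -L ≤ t → t ≤ L →
      ((π ^ t) (Cen π μ j s) ∈ K ↔ Cen π μ j s ∈ K) := by
    intro j t h1 h2 h3 h4
    by_contra hc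
    rcases le_total 0 t with ht | ht
    · obtain ⟨p, p1, p2, p3⟩ := ivt' π K (Cen π μ j s) ht (fun e => hc (by simpa using e.symm))
      exact p3 (h _ (mem_Sys.2 ⟨j, p, h1, h2, by omega, by omega, rfl⟩)).1
    · obtain ⟨p, p1, p2, p3⟩ := ivt' π K (Cen π μ j s) ht (fun e => hc (by simpa using e))
      exact p3 (h _ (mem_Sys.2 ⟨j, p, h1, h2, by omega, by omega, rfl⟩)).1
  intro y hy
  obtain ⟨j, t, h1, h2, h3, h4, rfl⟩ := mem_Sys.1 hy
  rw [key j t h1 h2 h3 h4]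
  by_cases h5 : j = 3
  · rw [h5, Cen_three]
  · have := key 3 j (by omega) le_rfl (by omega) (by omega)
    rw [Cen_three] at this
    rw [Cen_ne _ _ h5, ← this, ← (h _ (pow_mem_Sys s (by omega) (by omega))).2]

/-- special vertices whose system is split by `K` -/
noncomputable def Bad (π μ : Equiv.Perm V) (L : ℕ) (K : Finset V) : Finset V :=
  {s | ¬ ∀ y ∈ Sys π μ L s, (y ∈ K ↔ s ∈ K)}

lemma card_Bad (hμ : ∀ v, μ (μ v) = v) {L : ℕ} (hL : 6 ≤ L) (K : Finset V) :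
    #(Bad π μ L K) ≤ 26 * L * (fc π K + mc μ K) := by
  let D : Finset V := (univ.filter fun v => ¬ (v ∈ K ↔ π v ∈ K)) ∪
    univ.filter fun v => ¬ (v ∈ K ↔ μ v ∈ K)
  have h1 : #D ≤ fc π K + 2 * mc μ K := by
    rw [← card_mucut hμ]; exact card_union_le _ _
  have h2 : Bad π μ L K ⊆ D.biUnion fun x => {s | x ∈ Sys π μ L s} := by
    intro s hs
    by_contra hc
    refine (mem_filter.1 hs).2 (Sys_conn (by omega) s K fun x hx => ?_)
    have : x ∉ D := fun h => hc (mem_biUnion.2 ⟨x, h, mem_filter.2 ⟨mem_univ _, hx⟩⟩)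
    simpa only [D, mem_union, mem_filter, mem_univ, true_and, not_or, not_not] using this
  have h3 := (card_le_card h2).trans
    (card_biUnion_le_card_mul _ _ (13 * L) fun x _ => card_Sys_inv hL x)
  nlinarith

theorem bad_bound (H : Hyp π μ c) {L : ℕ} (hL : 4 * L ≤ c) (S : Finset V)
    (Q : V → V) (hQ : ∀ t ∈ S, Q t ∈ S ∧ Q (Q t) = t)
    (hdis : ∀ s ∈ S, ∀ s' ∈ S, s ≠ s' → Disjoint (Sys π μ L s) (Sys π μ L s'))
    (R : Finset V) (hR : ∀ s ∈ S, Sys π μ L s ⊆ R) (Lm : Finset (Finset V)) (α : ℕ)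
    (hα : 30 * α ≤ L) (hα0 : 0 < α)
    (happ : ∀ b : V → ℤ, (∀ v, v ∉ R → b v = 0) → (∀ v, |b v| ≤ 1) →
        (∀ K ∈ Lm, |∑ v ∈ K, b v| ≤ (fc π K + mc μ K : ℕ)) → ∀ Z,
          ∑ v ∈ Z, b v ≤ α * (fc π Z + mc μ Z : ℕ))
    (hpair : ∀ K ∈ Lm, #{t ∈ S | t ∈ K ∧ Q t ∉ K} ≤ 1)
    (hsel : ∀ K ∈ Lm, c ≤ fc π K + mc μ K →
      4 * L * #{s ∈ S | s ∈ Bad π μ L K} ≤ fc π K + mc μ K)
    (X B : Finset V) (A A' : V → Finset V) (hB : B ⊆ S)
    (hA : ∀ s ∈ B, s ∈ X ∧ Q s ∉ X ∧ (A s ⊆ Sys π μ L s ∧ #(A s) = L ∧ A s ⊆ X) ∧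
        (A' s ⊆ Sys π μ L (Q s) ∧ #(A' s) = L ∧ A' s ⊆ Xᶜ)) : 30 * #B ≤ fc π X + mc μ X := by
  classical
  let b : V → ℤ := fun v => ∑ s ∈ B, ((if v ∈ A s then 1 else 0) - (if v ∈ A' s then 1 else 0))
  have hsum : ∀ K : Finset V, ∑ v ∈ K, b v = ∑ s ∈ B, ((#(K ∩ A s) : ℤ) - #(K ∩ A' s)) := by
    intro K
    simp only [b]
    rw [Finset.sum_comm]
    refine Finset.sum_congr rfl fun s _ => ?_
    rw [Finset.sum_sub_distrib, Finset.sum_ite_mem, Finset.sum_ite_mem]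
    simp
  have hb1 : ∀ v, |b v| ≤ 1 := by
    intro v
    have e1 : #{s ∈ B | v ∈ A s} ≤ 1 := card_le_one.2 fun s hs s' hs' => by
      by_contra hne
      rw [mem_filter] at hs hs'
      exact Finset.disjoint_left.1 (hdis s (hB hs.1) s' (hB hs'.1) hne)
        ((hA s hs.1).2.2.1.1 hs.2) ((hA s' hs'.1).2.2.1.1 hs'.2)
    have e2 : #{s ∈ B | v ∈ A' s} ≤ 1 := card_le_one.2 fun s hs s' hs' => by
      by_contra hne
      rw [mem_filter] at hs hs'
      have hne' : Q s ≠ Q s' := fun e => hne (by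
        rw [← (hQ s (hB hs.1)).2, e, (hQ s' (hB hs'.1)).2])
      exact Finset.disjoint_left.1 (hdis _ (hQ s (hB hs.1)).1 _ (hQ s' (hB hs'.1)).1 hne')
        ((hA s hs.1).2.2.2.1 hs.2) ((hA s' hs'.1).2.2.2.1 hs'.2)
    have e3 : b v = (#{s ∈ B | v ∈ A s} : ℤ) - #{s ∈ B | v ∈ A' s} := by
      simp only [b, Finset.sum_sub_distrib, card_filter]
      push_cast; rfl
    rw [e3, abs_le]; omega
  have htot : ∑ v, b v = 0 := by
    rw [hsum]
    refine Finset.sum_eq_zero fun s hs => ?_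
    rw [univ_inter, univ_inter, (hA s hs).2.2.1.2.1, (hA s hs).2.2.2.2.1, sub_self]
  have habs : ∀ K : Finset V, |∑ v ∈ K, b v| ≤ #K := fun K =>
    (Finset.abs_sum_le_sum_abs _ _).trans
      ((Finset.sum_le_sum fun v _ => hb1 v).trans (by simp))
  have hX := happ b (fun v hv => Finset.sum_eq_zero fun s hs => by
      have e1 : v ∉ A s := fun h => hv (hR s (hB hs) ((hA s hs).2.2.1.1 h))
      have e2 : v ∉ A' s := fun h => hv (hR _ (hQ s (hB hs)).1 ((hA s hs).2.2.2.1 h))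
      simp [e1, e2]) hb1 (fun K hK => ?_) X
  · rw [hsum, Finset.sum_congr rfl (g := fun _ => (L : ℤ)) fun s hs => by
      rw [inter_eq_right.2 (hA s hs).2.2.1.2.2, (hA s hs).2.2.1.2.1,
        disjoint_iff_inter_eq_empty.1 (Finset.disjoint_left.2 fun v h1 h2 =>
          mem_compl.1 ((hA s hs).2.2.2.2.2 h2) h1)]
      simp] at hX
    rw [Finset.sum_const, nsmul_eq_mul] at hX
    have e1 : #B * L ≤ α * (fc π X + mc μ X) := by exact_mod_cast hX
    have e2 : α * (30 * #B) ≤ α * (fc π X + mc μ X) := by nlinarith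
    exact Nat.le_of_mul_le_mul_left e2 hα0
  · by_cases hbig : c ≤ fc π K + mc μ K
    · let P : V → Prop := fun s => s ∈ Bad π μ L K ∨ Q s ∈ Bad π μ L K ∨
        (s ∈ K ∧ Q s ∉ K) ∨ (s ∉ K ∧ Q s ∈ K)
      have e1 : |∑ v ∈ K, b v| ≤ ∑ s ∈ B, if P s then (L : ℤ) else 0 := by
        rw [hsum]
        refine (Finset.abs_sum_le_sum_abs _ _).trans (Finset.sum_le_sum fun s hs => ?_)
        obtain ⟨-, -, ⟨a1, a2, -⟩, a3, a4, -⟩ := hA s hs
        split_ifs with hp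
        · have f1 : #(K ∩ A s) ≤ #(A s) := card_le_card inter_subset_right
          have f2 : #(K ∩ A' s) ≤ #(A' s) := card_le_card inter_subset_right
          rw [abs_le]; omega
        · simp only [P, Bad, mem_filter, mem_univ, true_and, not_or, not_not] at hp
          obtain ⟨p1, p2, p3, p4⟩ := hp
          by_cases hsK : s ∈ K
          · have hqK : Q s ∈ K := by by_contra h; exact p3 ⟨hsK, h⟩
            rw [inter_eq_right.2 fun v hv => (p1 v (a1 hv)).2 hsK,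
              inter_eq_right.2 fun v hv => (p2 v (a3 hv)).2 hqK, a2, a4]
            simp
          · have hqK : Q s ∉ K := fun h => p4 ⟨hsK, h⟩
            rw [disjoint_iff_inter_eq_empty.1 (Finset.disjoint_left.2 fun v h1 h2 =>
                hsK ((p1 v (a1 h2)).1 h1)),
              disjoint_iff_inter_eq_empty.1 (Finset.disjoint_left.2 fun v h1 h2 =>
                hqK ((p2 v (a3 h2)).1 h1))]
            simp
      rw [← Finset.sum_filter, Finset.sum_const, nsmul_eq_mul] at e1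
      have e2 : #{s ∈ B | P s} ≤ #{s ∈ S | s ∈ Bad π μ L K} + (#{s ∈ S | Q s ∈ Bad π μ L K} +
          (#{s ∈ S | s ∈ K ∧ Q s ∉ K} + #{s ∈ S | s ∉ K ∧ Q s ∈ K})) := by
        refine (card_le_card (filter_subset_filter _ hB)).trans ?_
        simp only [P, filter_or]
        exact (card_union_le _ _).trans (Nat.add_le_add_left ((card_union_le _ _).trans
          (Nat.add_le_add_left (card_union_le _ _) _)) _)
      have e3 : #{s ∈ S | Q s ∈ Bad π μ L K} ≤ #{s ∈ S | s ∈ Bad π μ L K} :=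
        card_le_card_of_injOn Q (fun s hs => by
          simp only [coe_filter, Set.mem_ofPred_eq] at hs ⊢
          exact ⟨(hQ s hs.1).1, hs.2⟩) (fun s hs s' hs' e => by
          simp only [coe_filter, Set.mem_ofPred_eq] at hs hs'
          rw [← (hQ s hs.1).2, e, (hQ s' hs'.1).2])
      have e4 := invol_card Q S K hQ
      have e5 := hpair K hK
      have e6 := hsel K hK hbig
      have e7 : #{s ∈ B | P s} * L ≤ fc π K + mc μ K := by
        have : #{s ∈ B | P s} ≤ 2 * #{s ∈ S | s ∈ Bad π μ L K} + 2 := by omega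
        nlinarith
      exact e1.trans (by exact_mod_cast e7)
    · have e1 := habs K
      have e2 := habs Kᶜ
      have e3 : ∑ v ∈ Kᶜ, b v = - ∑ v ∈ K, b v := by
        rw [← Finset.sum_add_sum_compl K] at htot; linarith
      rw [e3, abs_neg] at e2
      rcases K.eq_empty_or_nonempty with h1 | h1
      · rw [h1] at e1 ⊢; exact e1.trans (by rw [card_empty]; exact_mod_cast Nat.zero_le _)
      rcases Kᶜ.eq_empty_or_nonempty with h2 | h2
      · rw [h2] at e2; exact e2.trans (by rw [card_empty]; exact_mod_cast Nat.zero_le _)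
      rcases H.cut K h1 h2 with h | h | h
      · exact absurd h hbig
      · exact e1.trans (by exact_mod_cast (by omega))
      · exact e2.trans (by exact_mod_cast (by omega))

end Pool.Agent.P.MP_e59a69_co
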