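import Pool.Agent.P.MP_e59a69_co.Hoffman

/-! Flow pairs supported on a given even subgraph. -/

open Finset

namespace Pool.Agent.P.MP_e59a69_co

variable {V E : Type} [Fintype V] [Fintype E] [DecidableEq V] [DecidableEq E]

/-- degree in an edge set, loops counted twice -/
def dg (src tgt : E → V) (H : Finset E) (v : V) : ℕ :=
  #{e ∈ H | src e = v} + #{e ∈ H | tgt e = v}

omit [Fintype V] in
lemma dg_eq (src tgt : E → V) (H : Finset E) (v : V) :
    (dg src tgt H v : ℤ) = ∑ e, ((if src e = v then (if e ∈ H then 1 else 0) else 0) +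
      (if tgt e = v then (if e ∈ H then 1 else 0) else 0)) := by
  unfold dg
  rw [Finset.sum_add_distrib]
  push_cast
  rw [Finset.card_filter, Finset.card_filter]
  push_cast
  rw [← Finset.sum_ite_mem_eq H, ← Finset.sum_ite_mem_eq H]
  congr 1 <;> refine Finset.sum_congr rfl fun e _ => ?_ <;> split_ifs <;> rfl

omit [Fintype V] in
/-- parity of the boundary of an integer edge function -/
lemma bdry_parity (src tgt : E → V) (H : Finset E) (J : E → ℤ) (hJ : ∀ e, Odd (J e) ↔ e ∈ H)
    (v : V) : Even (bdry src tgt J v - dg src tgt H v) := by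
  rw [dg_eq]
  unfold bdry
  rw [← Finset.sum_sub_distrib]
  refine Finset.even_sum _ fun e _ => ?_
  have := hJ e
  by_cases h1 : e ∈ H
  · obtain ⟨k, hk⟩ := this.2 h1
    rw [Int.even_iff]
    by_cases a1 : src e = v <;> by_cases a2 : tgt e = v <;>
      simp only [a1, a2, h1, hk, if_true, if_false] <;> omega
  · have h2 : Even (J e) := by
      rw [← Int.not_odd_iff_even]; exact fun h => h1 (this.1 h)
    by_cases a1 : src e = v <;> by_cases a2 : tgt e = v <;> simp [a1, a2, h1, h2]

omit [Fintype V] [DecidableEq E] in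
lemma bdry_add (src tgt : E → V) (φ ψ : E → ℤ) (v : V) :
    bdry src tgt (fun e => φ e + ψ e) v = bdry src tgt φ v + bdry src tgt ψ v := by
  unfold bdry
  rw [← Finset.sum_add_distrib]
  refine Finset.sum_congr rfl fun e _ => ?_
  split_ifs <;> ring

omit [Fintype V] [DecidableEq E] in
lemma bdry_mul (src tgt : E → V) (c : ℤ) (φ : E → ℤ) (v : V) :
    bdry src tgt (fun e => c * φ e) v = c * bdry src tgt φ v := by
  unfold bdry
  rw [Finset.mul_sum]
  refine Finset.sum_congr rfl fun e _ => ?_
  split_ifs <;> ring

omit [Fintype V] [DecidableEq E] in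
lemma bdry_sum {ι : Type} (src tgt : E → V) (s : Finset ι) (φ : ι → E → ℤ) (v : V) :
    bdry src tgt (fun e => ∑ i ∈ s, φ i e) v = ∑ i ∈ s, bdry src tgt (φ i) v := by
  unfold bdry
  rw [Finset.sum_comm]
  refine Finset.sum_congr rfl fun e _ => ?_
  split_ifs <;> simp

/-- balanced orientation of an edge set -/
lemma exists_orientation (src tgt : E → V) (H : Finset E) :
    ∃ ψ : E → ℤ, (∀ e ∈ H, ψ e = 1 ∨ ψ e = -1) ∧ (∀ e, e ∉ H → ψ e = 0) ∧
      ∀ v, |bdry src tgt ψ v| ≤ 1 ∧ (Even (dg src tgt H v) → bdry src tgt ψ v = 0) := by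
  let one : E → ℤ := fun e => if e ∈ H then 1 else 0
  obtain ⟨y, hy, hb⟩ := hoffman_bounds src tgt (fun v => bdry src tgt one v / 2)
    (fun v => (bdry src tgt one v + 1) / 2) (fun v => by omega) (fun _ => 0) one
    (fun e => by simp only [one]; split_ifs <;> omega)
    (fun X => by
      have h1 : 2 * ∑ v ∈ X, bdry src tgt one v / 2 ≤ ∑ v ∈ X, bdry src tgt one v := by
        rw [Finset.mul_sum]; exact Finset.sum_le_sum fun v _ => by omega
      have h2 : ∑ v ∈ X, bdry src tgt one v ≤ 2 * capOut src tgt (fun _ => 0) one X := by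
        rw [sum_bdry]; unfold capOut; rw [Finset.mul_sum]
        refine Finset.sum_le_sum fun e _ => ?_
        by_cases a1 : src e ∈ X <;> by_cases a2 : tgt e ∈ X <;> by_cases a3 : e ∈ H <;>
          simp [a1, a2, a3, one]
      omega)
    (fun X => by
      have h1 : ∑ v ∈ X, bdry src tgt one v ≤ 2 * ∑ v ∈ X, (bdry src tgt one v + 1) / 2 := by
        rw [Finset.mul_sum]; exact Finset.sum_le_sum fun v _ => by omega
      have h2 : - ∑ v ∈ X, bdry src tgt one v ≤ 2 * capOut src tgt (fun _ => 0) one Xᶜ := by
        rw [sum_bdry]; unfold capOut; rw [Finset.mul_sum, ← Finset.sum_neg_distrib]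
        refine Finset.sum_le_sum fun e _ => ?_
        by_cases a1 : src e ∈ X <;> by_cases a2 : tgt e ∈ X <;> by_cases a3 : e ∈ H <;>
          simp [a1, a2, a3, one]
      omega)
  have hψ : ∀ v, bdry src tgt (fun e => 2 * y e + (-1) * one e) v =
      2 * bdry src tgt y v - bdry src tgt one v := by
    intro v
    rw [bdry_add src tgt (fun e => 2 * y e) (fun e => (-1) * one e), bdry_mul, bdry_mul]; ring
  refine ⟨fun e => 2 * y e + (-1) * one e, fun e he => ?_, fun e he => ?_, fun v => ?_⟩
  · have := hy e
    simp only [one, he, if_true] at this ⊢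
    omega
  · have := hy e
    simp only [one, he, if_false] at this ⊢
    omega
  · rw [hψ]
    have h1 := hb v
    refine ⟨abs_le.2 ⟨by omega, by omega⟩, fun hev => ?_⟩
    have h2 := bdry_parity src tgt H one (fun e => by
      simp only [one]; split_ifs with h <;> simp [h]) v
    obtain ⟨a, ha⟩ := hev
    obtain ⟨b, hb⟩ := h2
    have : (dg src tgt H v : ℤ) = a + a := by exact_mod_cast ha
    omega

/-- the simple graph of adjacency along edges of `F` -/
def spanGr (src tgt : E → V) (F : Finset E) : SimpleGraph V :=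
  SimpleGraph.fromRel fun u v => ∃ e ∈ F, src e = u ∧ tgt e = v

omit [Fintype V] [Fintype E] [DecidableEq E] in
lemma comp_eq_of_mem (src tgt : E → V) (F : Finset E) {e : E} (he : e ∈ F) :
    (spanGr src tgt F).connectedComponentMk (src e) =
      (spanGr src tgt F).connectedComponentMk (tgt e) := by
  by_cases h : src e = tgt e
  · rw [h]
  · refine SimpleGraph.ConnectedComponent.connectedComponentMk_eq_of_adj ?_
    simp only [spanGr, SimpleGraph.fromRel_adj]
    exact ⟨h, Or.inl ⟨e, he, rfl, rfl⟩⟩

omit [Fintype V] in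
lemma exists_join (src tgt : E → V) (F : Finset E) {u v : V}
    (h : (spanGr src tgt F).Reachable u v) :
    ∃ J : E → ℤ, (∀ e, e ∉ F → J e = 0) ∧
      ∀ w, bdry src tgt J w = (if u = w then 1 else 0) - (if v = w then 1 else 0) := by
  obtain ⟨p⟩ := h
  induction p with
  | nil => exact ⟨fun _ => 0, fun _ _ => rfl, fun w => by simp [bdry]⟩
  | @cons a b c hab p ih =>
    obtain ⟨J, hJ, hb⟩ := ih
    simp only [spanGr, SimpleGraph.fromRel_adj] at hab
    obtain ⟨-, ⟨e0, he0, h1, h2⟩ | ⟨e0, he0, h1, h2⟩⟩ := hab
    · refine ⟨fun e => J e + (if e = e0 then 1 else 0), fun e he => ?_, fun w => ?_⟩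
      · have : e ≠ e0 := fun h => he (h ▸ he0)
        simp [hJ e he, this]
      · rw [bdry_add, hb]
        have : bdry src tgt (fun e => if e = e0 then 1 else 0) w =
            (if a = w then 1 else 0) - (if b = w then 1 else 0) := by
          unfold bdry
          rw [Finset.sum_eq_single e0]
          · simp [h1, h2]
          · intro e _ he; simp [he]
          · simp
        rw [this]; ring
    · refine ⟨fun e => J e + (if e = e0 then -1 else 0), fun e he => ?_, fun w => ?_⟩
      · have : e ≠ e0 := fun h => he (h ▸ he0)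
        simp [hJ e he, this]
      · rw [bdry_add, hb]
        have : bdry src tgt (fun e => if e = e0 then -1 else 0) w =
            (if a = w then 1 else 0) - (if b = w then 1 else 0) := by
          unfold bdry
          rw [Finset.sum_eq_single e0]
          · simp only [h1, h2, if_true]; split_ifs <;> ring
          · intro e _ he; simp [he]
          · simp
        rw [this]; ring

omit [Fintype V] [Fintype E] [DecidableEq E] in
lemma exists_cross (src tgt : E → V) (F : Finset E) (X : Finset V) {u v : V}
    (h : (spanGr src tgt F).Reachable u v) (hu : u ∈ X) (hv : v ∉ X) :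
    ∃ e ∈ F, ¬ (src e ∈ X ↔ tgt e ∈ X) ∧
      (spanGr src tgt F).connectedComponentMk (src e) =
        (spanGr src tgt F).connectedComponentMk u := by
  obtain ⟨p⟩ := h
  induction p with
  | nil => exact absurd hu hv
  | @cons a b c hab p ih =>
    have hcomp := SimpleGraph.ConnectedComponent.connectedComponentMk_eq_of_adj hab
    by_cases hb : b ∈ X
    · obtain ⟨e, he, h1, h2⟩ := ih hb hv
      exact ⟨e, he, h1, h2.trans hcomp.symm⟩
    · simp only [spanGr, SimpleGraph.fromRel_adj] at hab
      obtain ⟨-, ⟨e0, he0, h1, h2⟩ | ⟨e0, he0, h1, h2⟩⟩ := hab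
      · exact ⟨e0, he0, by simp [h1, h2, hu, hb], by rw [h1]⟩
      · exact ⟨e0, he0, by simp [h1, h2, hu, hb], by rw [h1]; exact hcomp.symm⟩

open Classical in
/-- a component of an even edge set crossing a cut does so at least twice -/
lemma two_le_cross (src tgt : E → V) (F : Finset E) (hF : ∀ v, Even (dg src tgt F v))
    (X : Finset V) {u v : V}
    (h : (spanGr src tgt F).Reachable u v) (hu : u ∈ X) (hv : v ∉ X) :
    2 ≤ #{e ∈ F | ¬ (src e ∈ X ↔ tgt e ∈ X) ∧
      (spanGr src tgt F).connectedComponentMk (src e) =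
        (spanGr src tgt F).connectedComponentMk u} := by
  obtain ⟨φ, h1, h0, hb⟩ := exists_orientation src tgt F
  set S := {e ∈ F | ¬ (src e ∈ X ↔ tgt e ∈ X) ∧
      (spanGr src tgt F).connectedComponentMk (src e) =
        (spanGr src tgt F).connectedComponentMk u} with hS
  obtain ⟨e0, he0, h2, h3⟩ := exists_cross src tgt F X h hu hv
  have hm : e0 ∈ S := by simp only [hS, mem_filter]; exact ⟨he0, h2, h3⟩
  by_contra hc
  have hsing : ∀ e ∈ S, e = e0 := fun e he =>
    Finset.card_le_one.1 (by omega) e he e0 hm
  let Y : Finset V := X.filter fun w => (spanGr src tgt F).connectedComponentMk w =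
        (spanGr src tgt F).connectedComponentMk u
  have hz : ∑ w ∈ Y, bdry src tgt φ w = 0 :=
    Finset.sum_eq_zero fun w _ => (hb w).2 (hF w)
  have hY : ∀ w, w ∈ Y ↔ w ∈ X ∧ (spanGr src tgt F).connectedComponentMk w =
        (spanGr src tgt F).connectedComponentMk u := fun w => by simp only [Y, mem_filter]
  rw [sum_bdry, Finset.sum_eq_single e0] at hz
  · have h4 := comp_eq_of_mem src tgt F he0
    have h5 := h1 e0 he0
    simp only [hY, ← h4, h3, and_true] at hz
    by_cases a1 : src e0 ∈ X <;> by_cases a2 : tgt e0 ∈ X <;>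
      simp only [a1, a2, if_true, if_false] at hz h2
    · simp at h2
    · omega
    · omega
    · simp at h2
  · intro e _ hne
    by_cases he : e ∈ F
    · have h4 := comp_eq_of_mem src tgt F he
      have h5 : e ∉ S := fun h => hne (hsing e h)
      simp only [hS, mem_filter, he, true_and, not_and] at h5
      simp only [hY, ← h4]
      by_cases a0 : (spanGr src tgt F).connectedComponentMk (src e) =
        (spanGr src tgt F).connectedComponentMk u
      · have h6 : src e ∈ X ↔ tgt e ∈ X := by
          by_contra h7; exact h5 h7 a0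
        simp only [h6, sub_self]
      · simp only [a0, and_false, if_false, sub_self]
    · simp [h0 e he]
  · simp

end Pool.Agent.P.MP_e59a69_co
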