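import Pool.Agent.P.MP_e59a69_co.Main
import Pool.Agent.P.MP_e59a69_co.Defs

open Finset

namespace Pool.Agent.P.MP_e59a69_co

variable {V E : Type} [Fintype V] [Fintype E] [DecidableEq V] [DecidableEq E]

omit [Fintype V] [DecidableEq E] in
lemma kflow_of_bdry (src tgt : E → V) (k : ℤ) (φ : E → ℤ) (h1 : ∀ e, |φ e| ≤ k - 1)
    (h2 : ∀ v, bdry src tgt φ v = 0) : IsKFlow src tgt k φ := by
  refine ⟨h1, fun v => ?_⟩
  have := h2 v
  unfold bdry at this
  rw [Finset.sum_sub_distrib, ← Finset.sum_filter, ← Finset.sum_filter] at this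
  omega

omit [Fintype V] in
lemma dg_compl (src tgt : E → V) (F : Finset E) (v : V) :
    dg src tgt F v + dg src tgt Fᶜ v = dg src tgt univ v := by
  have : (dg src tgt F v : ℤ) + dg src tgt Fᶜ v = dg src tgt univ v := by
    simp only [dg_eq]
    rw [← Finset.sum_add_distrib]
    refine Finset.sum_congr rfl fun e _ => ?_
    by_cases a1 : src e = v <;> by_cases a2 : tgt e = v <;> by_cases a3 : e ∈ F <;>
      simp [a1, a2, a3]
  exact_mod_cast this

omit [Fintype V] [DecidableEq E] in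
open Classical in
lemma hasCycle_of_comp (src tgt : E → V) (F : Finset E) (hF : ∀ v, dg src tgt F v = 2)
    (X : Finset V) (c : (spanGr src tgt F).ConnectedComponent)
    (hc : ∀ v, (spanGr src tgt F).connectedComponentMk v = c → v ∈ X) : HasCycleIn src tgt X := by
  let C : Finset E := F.filter fun e => (spanGr src tgt F).connectedComponentMk (src e) = c
  have hdeg : ∀ v, degIn src tgt C v =
      if (spanGr src tgt F).connectedComponentMk v = c then 2 else 0 := by
    intro v
    unfold degIn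
    split_ifs with h
    · rw [← hF v]
      unfold dg
      congr 2
      · ext e
        simp only [C, mem_filter]
        constructor
        · rintro ⟨⟨h1, -⟩, h2⟩; exact ⟨h1, h2⟩
        · rintro ⟨h1, h2⟩; exact ⟨⟨h1, by rw [h2, h]⟩, h2⟩
      · ext e
        simp only [C, mem_filter]
        constructor
        · rintro ⟨⟨h1, -⟩, h2⟩; exact ⟨h1, h2⟩
        · rintro ⟨h1, h2⟩; exact ⟨⟨h1, by rw [comp_eq_of_mem src tgt F h1, h2, h]⟩, h2⟩
    · have e1 : ({e ∈ C | src e = v} : Finset E) = ∅ := by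
        refine Finset.filter_eq_empty_iff.2 fun e he h2 => h ?_
        rw [← h2]; exact (mem_filter.1 he).2
      have e2 : ({e ∈ C | tgt e = v} : Finset E) = ∅ := by
        refine Finset.filter_eq_empty_iff.2 fun e he h2 => h ?_
        rw [← h2, ← comp_eq_of_mem src tgt F (mem_filter.1 he).1]; exact (mem_filter.1 he).2
      rw [e1, e2]; rfl
  refine ⟨C, ?_, fun e he => ?_, fun v => ?_⟩
  · obtain ⟨v, hv⟩ := c.exists_rep
    have h1 := hdeg v
    have hv' : (spanGr src tgt F).connectedComponentMk v = c := hv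
    rw [if_pos hv'] at h1
    rw [Finset.nonempty_iff_ne_empty]
    intro h
    rw [h] at h1
    simp [degIn] at h1
  · have h1 := mem_filter.1 he
    exact ⟨hc _ h1.2, hc _ (by rw [← comp_eq_of_mem src tgt F h1.1]; exact h1.2)⟩
  · rw [hdeg]; split_ifs <;> simp

theorem cubic_main (src tgt : E → V) (hcubic : ∀ v, degIn src tgt univ v = 3)
    (F : Finset E) (hF : ∀ v, degIn src tgt F v = 2)
    (hcut : ∀ X : Finset V, HasCycleIn src tgt X → HasCycleIn src tgt Xᶜ →
      5 * numOddComps src tgt F ≤ 2 * #{e | ¬ (src e ∈ X ↔ tgt e ∈ X)} + 2) :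
    ∃ φ₂ φ₄ : E → ℤ, IsKFlow src tgt 2 φ₂ ∧ IsKFlow src tgt 4 φ₄ ∧
      (∀ e, φ₂ e = 0 → 2 ≤ |φ₄ e|) ∧ ∀ e, φ₂ e ≠ 0 ↔ e ∈ F := by
  classical
  have hF' : ∀ v, dg src tgt F v = 2 := hF
  have hM : ∀ v, dg src tgt Fᶜ v = 1 := fun v => by
    have h1 := dg_compl src tgt F v
    have h2 : dg src tgt univ v = 3 := hcubic v
    have h3 := hF' v
    omega
  obtain ⟨φ₂, φ₄, a1, a0, ab, b1, b2, b3⟩ := core src tgt F (fun v => by rw [hF' v]; decide)
    (spanGr src tgt F).oddComponents
    (fun c hc => by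
      simp only [hM, Finset.sum_const, smul_eq_mul, mul_one] at hc
      show Odd c.supp.ncard
      have : c.supp = ↑(univ.filter fun v => (spanGr src tgt F).connectedComponentMk v = c) := by
        ext v; simp
      rw [this, Set.ncard_coe_finset]
      exact hc)
    (fun X ⟨c, _, hc⟩ ⟨c', _, hc'⟩ _ =>
      hcut X (hasCycle_of_comp src tgt F hF' X c hc) (hasCycle_of_comp src tgt F hF' Xᶜ c' hc'))
  have hs : ∀ e, φ₂ e ≠ 0 ↔ e ∈ F := fun e => by
    by_cases he : e ∈ F
    · have := a1 e he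
      simp only [he, iff_true]; omega
    · simp [he, a0 e he]
  refine ⟨φ₂, φ₄, kflow_of_bdry _ _ _ _ (fun e => ?_) ab, kflow_of_bdry _ _ _ _ (fun e => ?_) b3,
    fun e he => b2 e fun h => (hs e).2 h he, hs⟩
  · by_cases he : e ∈ F
    · rcases a1 e he with h | h <;> simp [h]
    · simp [a0 e he]
  · have := b1 e; omega

end Pool.Agent.P.MP_e59a69_co
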