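import Pool.Agent.P.MP_e59a69_co.KMain

/-! General multigraphs: cyclic sets, forests, tight sets. -/

open Finset Function

namespace Pool.Agent.P.MP_e59a69_co

variable {V E : Type} [Fintype V] [Fintype E] [DecidableEq V] [DecidableEq E]

def HasPair (s t : E → V) : Prop :=
  ∃ φ₂ φ₄ : E → ℤ, (∀ e, |φ₂ e| ≤ 1) ∧ (∀ e, |φ₄ e| ≤ 3) ∧ (∀ v, bdry s t φ₂ v = 0) ∧
    (∀ v, bdry s t φ₄ v = 0) ∧ ∀ e, φ₂ e = 0 → 2 ≤ |φ₄ e|

/-- at least as many edges as vertices -/
def Cyc (s t : E → V) (Z : Finset V) (C : Finset E) : Prop :=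
  Z.Nonempty ∧ (∀ e ∈ C, s e ∈ Z ∧ t e ∈ Z) ∧ #Z ≤ #C

def Cy (s t : E → V) (X : Finset V) : Prop := ∃ Z ⊆ X, ∃ C, Cyc s t Z C

def CycConn (s t : E → V) (k : ℕ) : Prop := ∀ X, Cy s t X → Cy s t Xᶜ → k ≤ ct s t univ X

def Atv (s t : E → V) (v : V) : Finset E := {e | s e = v ∨ t e = v}

def oth (s t : E → V) (v : V) (e : E) : V := if s e = v then t e else s e

def dsum (s t : E → V) (X : Finset V) : ℕ := ∑ v ∈ X, dg s t univ v

variable {s t : E → V}

omit [Fintype V] [Fintype E] [DecidableEq V] [DecidableEq E] in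
lemma Cy.mono {X Y : Finset V} (h : Cy s t X) (hXY : X ⊆ Y) : Cy s t Y :=
  let ⟨Z, a, b⟩ := h
  ⟨Z, a.trans hXY, b⟩

omit [Fintype V] [Fintype E] [DecidableEq E] in
lemma sum_dg (s t : E → V) (C : Finset E) (X : Finset V) :
    ∑ v ∈ X, dg s t C v = #{e ∈ C | s e ∈ X} + #{e ∈ C | t e ∈ X} := by
  unfold dg
  rw [sum_add_distrib, sum_card_fiberwise_eq_card_filter, sum_card_fiberwise_eq_card_filter]

omit [Fintype V] [DecidableEq E] in
lemma dsum_eq (s t : E → V) (X : Finset V) :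
    dsum s t X = ct s t univ X + 2 * #{e | s e ∈ X ∧ t e ∈ X} := by
  unfold dsum ct
  rw [sum_dg]
  simp only [card_filter]
  rw [mul_sum, ← sum_add_distrib, ← sum_add_distrib]
  refine sum_congr rfl fun e _ => ?_
  by_cases a : s e ∈ X <;> by_cases b : t e ∈ X <;> simp [a, b]

omit [Fintype V] [DecidableEq E] in
lemma forest_ds {X : Finset V} (h : ¬ Cy s t X) (hX : X.Nonempty) :
    dsum s t X + 2 ≤ ct s t univ X + 2 * #X := by
  have : ¬ #X ≤ #{e | s e ∈ X ∧ t e ∈ X} := fun q =>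
    h ⟨X, subset_rfl, _, hX, fun e he => (mem_filter.1 he).2, q⟩
  rw [dsum_eq]
  omega

omit [Fintype V] [DecidableEq E] in
lemma forest_ds' {X : Finset V} (h : ¬ Cy s t X) : dsum s t X ≤ ct s t univ X + 2 * #X := by
  rcases X.eq_empty_or_nonempty with rfl | hX
  · simp [dsum]
  · have := forest_ds h hX
    omega

omit [Fintype V] [DecidableEq E] in
lemma three_le_ds (h3 : ∀ v, 3 ≤ dg s t univ v) (X : Finset V) : 3 * #X ≤ dsum s t X := by
  rw [mul_comm, ← smul_eq_mul]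
  exact card_nsmul_le_sum _ _ _ fun v _ => h3 v

omit [Fintype V] [DecidableEq E] in
lemma hub_le_ds (h3 : ∀ v, 3 ≤ dg s t univ v) {X : Finset V} {u : V} (hu : u ∈ X) :
    3 * #X + dg s t univ u ≤ dsum s t X + 3 := by
  have a := three_le_ds h3 (X.erase u)
  have b : dg s t univ u + dsum s t (X.erase u) = dsum s t X := add_sum_erase X _ hu
  have c := card_erase_add_one hu
  omega

omit [DecidableEq E] in
lemma no_one (h3 : ∀ v, 3 ≤ dg s t univ v) (hc : CycConn s t 2) (X : Finset V) :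
    ct s t univ X ≠ 1 := fun h1 => by
  obtain ⟨e, he⟩ := card_pos.1 (show 0 < ct s t univ X by omega)
  have he' := (mem_filter.1 he).2
  have a1 : ∀ Y : Finset V, Y.Nonempty → ct s t univ Y = 1 → Cy s t Y := fun Y p q => by
    by_contra hn
    have := forest_ds hn p
    have := three_le_ds h3 Y
    omega
  have b1 : X.Nonempty := by
    by_cases h : s e ∈ X
    · exact ⟨_, h⟩
    · exact ⟨t e, by tauto⟩
  have b2 : Xᶜ.Nonempty := by
    by_cases h : s e ∈ X
    · exact ⟨t e, mem_compl.2 (by tauto)⟩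
    · exact ⟨_, mem_compl.2 h⟩
  have := hc X (a1 X b1 h1) (a1 _ b2 (by rw [ct_compl]; exact h1))
  omega

omit [Fintype V] [Fintype E] [DecidableEq E] in
lemma cy_of_cycle {X : Finset V} (h : HasCycleIn s t X) : Cy s t X := by
  obtain ⟨C, ⟨e0, h0⟩, h1, h2⟩ := h
  have p : ∀ e ∈ C, 0 < dg s t C (s e) ∧ 0 < dg s t C (t e) := fun e he =>
    ⟨Nat.add_pos_left (card_pos.2 ⟨e, by simp [he]⟩) _,
      Nat.add_pos_right _ (card_pos.2 ⟨e, by simp [he]⟩)⟩
  have q : ∀ e ∈ C, s e ∈ X.filter (fun v => 0 < dg s t C v) ∧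
      t e ∈ X.filter (fun v => 0 < dg s t C v) := fun e he =>
    ⟨mem_filter.2 ⟨(h1 e he).1, (p e he).1⟩, mem_filter.2 ⟨(h1 e he).2, (p e he).2⟩⟩
  refine ⟨_, filter_subset _ _, C, ⟨_, (q e0 h0).1⟩, q, ?_⟩
  have a := sum_dg s t C (X.filter fun v => 0 < dg s t C v)
  rw [filter_true_of_mem (s := C) fun e he => (q e he).1,
    filter_true_of_mem (s := C) fun e he => (q e he).2] at a
  have b := card_nsmul_le_sum (X.filter fun v => 0 < dg s t C v) (fun x => dg s t C x) 2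
    fun v hv => by
    have a : dg s t C v = 0 ∨ dg s t C v = 2 := h2 v
    have := (mem_filter.1 hv).2
    omega
  rw [smul_eq_mul] at b
  omega

omit [Fintype V] [Fintype E] [DecidableEq E] in
/-- removing a vertex of degree at most one -/
lemma Cyc.strip {Z : Finset V} {C : Finset E} (h : Cyc s t Z C) {v : V} (hv : v ∈ Z)
    (hd : dg s t C v ≤ 1) : Cyc s t (Z.erase v) {e ∈ C | s e ≠ v ∧ t e ≠ v} := by
  have a : #C ≤ #{e ∈ C | s e ≠ v ∧ t e ≠ v} + dg s t C v := by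
    unfold dg
    conv_lhs => rw [card_eq_sum_ones]
    simp only [card_filter]
    rw [← sum_add_distrib, ← sum_add_distrib]
    refine sum_le_sum fun e _ => ?_
    by_cases a : s e = v <;> by_cases b : t e = v <;> simp [a, b]
  have b := card_erase_add_one hv
  have c := h.2.2
  refine ⟨?_, fun e he => ?_, by omega⟩
  · rw [nonempty_iff_ne_empty]
    intro q
    have q1 : ∀ x ∈ Z, x = v := fun x hx => by
      by_contra hn
      exact notMem_empty x (q ▸ mem_erase.2 ⟨hn, hx⟩)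
    unfold dg at hd
    rw [filter_true_of_mem fun e he => q1 _ (h.2.1 e he).1,
      filter_true_of_mem fun e he => q1 _ (h.2.1 e he).2] at hd
    omega
  · obtain ⟨p, q, r⟩ := mem_filter.1 he
    exact ⟨mem_erase.2 ⟨q, (h.2.1 e p).1⟩, mem_erase.2 ⟨r, (h.2.1 e p).2⟩⟩

omit [Fintype V] [Fintype E] in
lemma cycle_of_cyc : ∀ (n : ℕ) (Z : Finset V) (C : Finset E), #Z + #C = n → Cyc s t Z C →
    HasCycleIn s t Z := by
  intro n
  induction n using Nat.strong_induction_on with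
  | _ n ih =>
  intro Z C hn h
  by_cases a : ∃ v ∈ Z, dg s t C v ≤ 1
  · obtain ⟨v, hv, hd⟩ := a
    have b := card_erase_add_one hv
    have c := card_filter_le C fun e => s e ≠ v ∧ t e ≠ v
    obtain ⟨D, d1, d2, d3⟩ := ih _ (by omega) _ _ rfl (h.strip hv hd)
    exact ⟨D, d1, fun e he => ⟨mem_of_mem_erase (d2 e he).1, mem_of_mem_erase (d2 e he).2⟩, d3⟩
  push Not at a
  have hZ := card_pos.2 h.1
  have hC := h.2.2
  obtain ⟨e0, h0⟩ := card_pos.1 (show 0 < #C by omega)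
  by_cases b : #Z < #C
  · have c := card_erase_add_one h0
    exact ih _ (by omega) Z (C.erase e0) rfl
      ⟨h.1, fun e he => h.2.1 e (mem_of_mem_erase he), by omega⟩
  refine ⟨C, ⟨e0, h0⟩, h.2.1, fun v => ?_⟩
  by_cases hv : v ∈ Z
  · have c := sum_dg s t C Z
    rw [filter_true_of_mem (s := C) fun e he => (h.2.1 e he).1,
      filter_true_of_mem (s := C) fun e he => (h.2.1 e he).2, ← add_sum_erase Z _ hv] at c
    have d := card_nsmul_le_sum (Z.erase v) (fun x => dg s t C x) 2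
      fun x hx => a x (mem_of_mem_erase hx)
    have e := card_erase_add_one hv
    have f := a v hv
    rw [smul_eq_mul] at d
    exact Or.inr (show dg s t C v = 2 by omega)
  · left
    unfold degIn
    rw [filter_eq_empty_iff.2 fun e he (q : s e = v) => hv (q ▸ (h.2.1 e he).1),
      filter_eq_empty_iff.2 fun e he (q : t e = v) => hv (q ▸ (h.2.1 e he).2)]
    rfl

omit [Fintype V] [Fintype E] in
lemma cycle_of_cy {X : Finset V} (h : Cy s t X) : HasCycleIn s t X := by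
  obtain ⟨Z, a, C, b⟩ := h
  obtain ⟨D, d1, d2, d3⟩ := cycle_of_cyc _ Z C rfl b
  exact ⟨D, d1, fun e he => ⟨a (d2 e he).1, a (d2 e he).2⟩, d3⟩

omit [Fintype V] [DecidableEq E] in
lemma card_Atv (hl : ∀ e, s e ≠ t e) (v : V) : #(Atv s t v) = dg s t univ v := by
  unfold Atv dg
  simp only [card_filter]
  rw [← sum_add_distrib]
  refine sum_congr rfl fun e _ => ?_
  have := hl e
  by_cases a : s e = v <;> by_cases b : t e = v <;> simp [a, b] at this ⊢

omit [Fintype V] [DecidableEq E] in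
lemma oth_spec (hl : ∀ e, s e ≠ t e) {v : V} {e : E} (he : e ∈ Atv s t v) :
    oth s t v e ≠ v ∧ ((s e = v ∧ t e = oth s t v e) ∨ (t e = v ∧ s e = oth s t v e)) := by
  have a := (mem_filter.1 he).2
  have b := hl e
  unfold oth
  split_ifs with h
  · exact ⟨fun q => b (h.trans q.symm), Or.inl ⟨h, rfl⟩⟩
  · exact ⟨h, Or.inr ⟨by tauto, rfl⟩⟩

omit [Fintype V] [DecidableEq E] in
lemma ct_submod (X Y : Finset V) :
    ct s t univ (X ∩ Y) + ct s t univ (X ∪ Y) ≤ ct s t univ X + ct s t univ Y := by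
  unfold ct
  simp only [card_filter]
  rw [← sum_add_distrib, ← sum_add_distrib]
  refine sum_le_sum fun e _ => ?_
  by_cases a : s e ∈ X <;> by_cases b : t e ∈ X <;> by_cases c : s e ∈ Y <;>
    by_cases d : t e ∈ Y <;> simp [a, b, c, d]

omit [Fintype V] in
lemma ct_posi {X Y : Finset V} {e : E} {v x : V} (he : (s e = v ∧ t e = x) ∨ (t e = v ∧ s e = x))
    (h1 : v ∉ X) (h2 : v ∉ Y) (h3 : x ∈ X) (h4 : x ∈ Y) :
    ct s t univ (X \ Y) + ct s t univ (Y \ X) + 2 ≤ ct s t univ X + ct s t univ Y := by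
  unfold ct
  simp only [card_filter]
  have key : 2 = ∑ a, if a = e then 2 else 0 := by simp
  rw [key, ← sum_add_distrib, ← sum_add_distrib, ← sum_add_distrib]
  refine sum_le_sum fun a _ => ?_
  by_cases q : a = e
  · subst q
    rcases he with ⟨p, q⟩ | ⟨p, q⟩ <;> simp [p, q, h1, h2, h3, h4]
  · by_cases a1 : s a ∈ X <;> by_cases b : t a ∈ X <;> by_cases c : s a ∈ Y <;>
      by_cases d : t a ∈ Y <;> simp [a1, b, c, d, q]

/-- a cyclic cut of minimum size that avoids `v` -/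
def Tgt (s t : E → V) (k : ℕ) (v : V) (X : Finset V) : Prop :=
  v ∉ X ∧ ct s t univ X ≤ k ∧ Cy s t X ∧ Cy s t Xᶜ

lemma Tgt.union {k : ℕ} (hc : CycConn s t k) (hw : ∀ X, Cy s t X → 2 * #X + 4 * k < dsum s t X)
    {X Y : Finset V} {e : E} {v x : V} (he : (s e = v ∧ t e = x) ∨ (t e = v ∧ s e = x))
    (hX : Tgt s t k v X) (hY : Tgt s t k v Y) (h3 : x ∈ X) (h4 : x ∈ Y) : Tgt s t k v (X ∪ Y) := by
  have a1 := ct_submod (s := s) (t := t) X Y
  have a2 := ct_posi he hX.1 hY.1 h3 h4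
  have a3 := hX.2.1
  have a4 := hY.2.1
  have a5 := ct_compl s t univ (X ∪ Y)
  have two : ∀ A B S : Finset V, Disjoint A B → S = A ∪ B → Cy s t S → ct s t univ A ≤ 2 * k →
      ct s t univ B ≤ 2 * k → Cy s t A ∨ Cy s t B := fun A B S d q c p1 p2 => by
    by_contra hn
    have b1 := forest_ds' (not_or.1 hn).1
    have b2 := forest_ds' (not_or.1 hn).2
    have b3 := hw S c
    have b4 : dsum s t S = dsum s t A + dsum s t B := by rw [q]; exact sum_union d
    have b5 : #S = #A + #B := by rw [q]; exact card_union_of_disjoint d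
    omega
  have c1 := two (X ∩ Y) (X \ Y) X (by simp +contextual [disjoint_left])
    (by ext; simp; tauto) hX.2.2.1 (by omega) (by omega)
  have c2 := two (X ∩ Y) (Y \ X) Y (by simp +contextual [disjoint_left])
    (by ext; simp; tauto) hY.2.2.1 (by omega) (by omega)
  have c3 := two (X ∪ Y)ᶜ (Y \ X) Xᶜ (by simp +contextual [disjoint_left])
    (by ext; simp; tauto) hX.2.2.2 (by omega) (by omega)
  have c4 := two (X ∪ Y)ᶜ (X \ Y) Yᶜ (by simp +contextual [disjoint_left])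
    (by ext; simp; tauto) hY.2.2.2 (by omega) (by omega)
  have d : ¬ (Cy s t (X \ Y) ∧ Cy s t (Y \ X)) := fun ⟨p, q⟩ => by
    have := hc _ p (q.mono fun z => by simp +contextual)
    have := hc _ q (p.mono fun z => by simp +contextual)
    omega
  have e1 : Cy s t (X ∩ Y) := by tauto
  have e2 : Cy s t (X ∪ Y)ᶜ := by tauto
  have := hc _ e1 (e2.mono fun z => by simp +contextual)
  exact ⟨by simp [hX.1, hY.1], by omega, hX.2.2.1.mono subset_union_left, e2⟩

lemma tight {k : ℕ} (hl : ∀ e, s e ≠ t e) (hc : CycConn s t k)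
    (hw : ∀ X, Cy s t X → 2 * #X + 4 * k < dsum s t X) {v : V} (hv : 2 ≤ dg s t univ v) {e : E}
    (he : e ∈ Atv s t v) : ∃ B : Finset E, e ∈ B ∧ #B ≤ k + 1 ∧ (∃ f ∈ Atv s t v, f ∉ B) ∧
      ∀ f ∈ Atv s t v, f ∉ B → ∀ X, Tgt s t k v X → oth s t v e ∈ X → oth s t v f ∉ X := by
  classical
  by_cases h0 : ∃ X, Tgt s t k v X ∧ oth s t v e ∈ X
  swap
  · refine ⟨{e}, mem_singleton_self e, by simp, ?_, fun f _ _ X a b => (h0 ⟨X, a, b⟩).elim⟩
    obtain ⟨f, a, b⟩ := exists_mem_ne (show 1 < #(Atv s t v) by rw [card_Atv hl]; omega) e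
    exact ⟨f, a, by simpa using b⟩
  obtain ⟨M, hM, hmax⟩ := exists_max_image {X | Tgt s t k v X ∧ oth s t v e ∈ X} card
    (let ⟨X, h⟩ := h0; ⟨X, by simpa using h⟩)
  obtain ⟨m1, m2⟩ := (mem_filter.1 hM).2
  have cut : ∀ f ∈ Atv s t v, oth s t v f ∈ M → ¬ (s f ∈ M ↔ t f ∈ M) := fun f a b => by
    have := m1.1
    rcases (oth_spec hl a).2 with ⟨p, q⟩ | ⟨p, q⟩ <;> rw [p, q] <;> tauto
  refine ⟨{f ∈ Atv s t v | oth s t v f ∈ M}, mem_filter.2 ⟨he, m2⟩, ?_, ?_, fun f a b X c d q => ?_⟩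
  · refine le_trans (card_le_card fun f hf => ?_) (m1.2.1.trans k.le_succ)
    exact mem_filter.2 ⟨mem_univ _, cut f (mem_filter.1 hf).1 (mem_filter.1 hf).2⟩
  · by_contra hn
    push Not at hn
    have all : ∀ f ∈ Atv s t v, oth s t v f ∈ M := fun f a => (mem_filter.1 (hn f a)).2
    have c1 : Cy s t (insert v M)ᶜ := by
      obtain ⟨Z, z1, C, z2⟩ := m1.2.2.2
      have z3 : ∀ a ∈ C, s a ≠ v ∧ t a ≠ v := fun a ha => by
        by_contra hn
        have b : a ∈ Atv s t v := mem_filter.2 ⟨mem_univ _, by tauto⟩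
        exact cut a b (all a b) (iff_of_false (mem_compl.1 (z1 (z2.2.1 a ha).1))
          (mem_compl.1 (z1 (z2.2.1 a ha).2)))
      obtain ⟨a, ha⟩ := card_pos.1 ((card_pos.2 z2.1).trans_le z2.2.2)
      have z4 : ∀ a ∈ C, s a ∈ Z.erase v ∧ t a ∈ Z.erase v := fun a ha =>
        ⟨mem_erase.2 ⟨(z3 a ha).1, (z2.2.1 a ha).1⟩, mem_erase.2 ⟨(z3 a ha).2, (z2.2.1 a ha).2⟩⟩
      refine ⟨Z.erase v, fun z hz => ?_, C, ⟨_, (z4 a ha).1⟩, z4, card_erase_le.trans z2.2.2⟩
      have := mem_compl.1 (z1 (mem_of_mem_erase hz))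
      simp [this, (mem_erase.1 hz).1]
    have c2 := hc _ (m1.2.2.1.mono (subset_insert v M)) c1
    have c3 : ct s t univ (insert v M) < ct s t univ M := by
      refine card_lt_card ⟨fun a ha => ?_, fun q => ?_⟩
      · have ha' := (mem_filter.1 ha).2
        refine mem_filter.2 ⟨mem_univ _, ?_⟩
        by_cases b : a ∈ Atv s t v
        · exact cut a b (all a b)
        · have b' : ¬ (s a = v ∨ t a = v) := fun q => b (mem_filter.2 ⟨mem_univ _, q⟩)
          simp only [mem_insert] at ha'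
          tauto
      · have := (mem_filter.1 (q (mem_filter.2 ⟨mem_univ _, cut e he m2⟩))).2
        rcases (oth_spec hl he).2 with ⟨p, q⟩ | ⟨p, q⟩ <;> simp [p, q, m2] at this
    have := m1.2.1
    omega
  · have u := Tgt.union hc hw (oth_spec hl he).2 m1 c m2 d
    have := hmax (M ∪ X) (mem_filter.2 ⟨mem_univ _, u, mem_union_left _ m2⟩)
    have r := eq_of_subset_of_card_le subset_union_left this
    exact b (mem_filter.2 ⟨a, r ▸ mem_union_right _ q⟩)

end Pool.Agent.P.MP_e59a69_co
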