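import Pool.Agent.P.MP_e59a69_co.GNear

/-! Expanding all vertices into cubic trees. -/

open Finset Function

namespace Pool.Agent.P.MP_e59a69_co

variable {V E : Type} [Fintype V] [Fintype E] [DecidableEq V] [DecidableEq E] {s t : E → V}

structure Bs (s t : E → V) (k D : ℕ) (U : Finset V) : Prop where
  lp : ∀ e, s e ≠ t e
  three : ∀ x, 3 ≤ dg s t univ x
  conn : CycConn s t k
  hub : ∀ u ∈ U, D ≤ dg s t univ u

def StA (s t : E → V) (k D : ℕ) (U : Finset V) : Prop :=
  Bs s t k D U ∧ ∀ Z C, Cyc s t Z C → #Z < 4 * k + 1 → ¬ Disjoint Z U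

def Rk (k : ℕ) : ℕ := k + 1 + 3 * 4 ^ (4 * k + 1)

def Dk (k : ℕ) : ℕ → ℕ
  | 0 => Rk k + 4 * k + 4
  | j + 1 => 2 * Dk k j + Rk k

lemma Dk_ge (k j : ℕ) : Rk k + 4 * k + 4 ≤ Dk k j := by
  induction j with
  | zero => rfl
  | succ j ih =>
    rw [Dk]
    omega

structure StB (s t : E → V) (k D l j : ℕ) (U : Finset V) (v : V) (O : Finset E) : Prop where
  bs : Bs s t k D U
  nv : v ∉ U
  cub : ∀ x, x ∉ U → x ≠ v → dg s t univ x ≤ 3
  sub : O ⊆ Atv s t v
  deg : #O + min #O (Rk k) + 2 * Dk k j ≤ 2 * dg s t univ v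
  short : ∀ Z C, Cyc s t Z C → #Z < 4 * k + 1 → Disjoint Z U →
    v ∈ Z ∧ l ≤ #Z ∧ (Disjoint C O → l + 1 ≤ #Z)

omit [Fintype V] [DecidableEq E] in
lemma weight (h3 : ∀ x, 3 ≤ dg s t univ x) {U : Finset V} {k : ℕ}
    (hU : ∀ u ∈ U, 4 * k + 3 ≤ dg s t univ u)
    (hs : ∀ Z C, Cyc s t Z C → #Z < 4 * k + 1 → ¬ Disjoint Z U) (X : Finset V) (h : Cy s t X) :
    2 * #X + 4 * k < dsum s t X := by
  obtain ⟨Z, a, C, b⟩ := h
  have c := card_le_card a
  by_cases d : #Z < 4 * k + 1
  · obtain ⟨u, p, q⟩ := not_disjoint_iff.1 (hs Z C b d)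
    have := hub_le_ds h3 (a p)
    have := hU u q
    have := card_pos.2 b.1
    omega
  · have := three_le_ds h3 X
    omega

omit [DecidableEq E] in
lemma ghand (h3 : ∀ x, 3 ≤ dg s t univ x) : 3 * Fintype.card V ≤ 2 * Fintype.card E := by
  have a := three_le_ds h3 univ
  unfold dsum at a
  rw [sum_dg] at a
  simp only [mem_univ, filter_true, card_univ] at a
  omega

lemma Bs.pull {k D : ℕ} {U : Finset V} (H : Bs s t k D U) {v : V} {P : Finset E} (hv : v ∉ U)
    (h4 : 4 ≤ dg s t univ v) (hP : PO s t v P) (hc : CycConn (ps s v P) (pt t v P) k) :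
    Bs (ps s v P) (pt t v P) k D (U.image some) := by
  refine ⟨hP.loop, hP.three H.three h4, hc, fun o ho => ?_⟩
  obtain ⟨u, p, rfl⟩ := mem_image.1 ho
  rw [dg_pull_ne' fun (q : u = v) => hv (q ▸ p)]
  exact H.hub u p

omit [Fintype V] in
lemma disj_some {Z : Finset (Option V)} {U : Finset V} (h : Disjoint Z (U.image some)) :
    Disjoint Z.eraseNone U :=
  disjoint_left.2 fun _ p q => disjoint_left.1 h (mem_eraseNone.1 p) (mem_image_of_mem _ q)

lemma StA.step {k D : ℕ} {U : Finset V} (H : StA s t k D U) (hD : 4 * k + 3 ≤ D) {v : V}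
    (hv : v ∉ U) (h4 : 4 ≤ dg s t univ v) :
    ∃ P, StA (ps s v P) (pt t v P) k D (U.image some) := by
  obtain ⟨H, hs⟩ := H
  obtain ⟨e, he⟩ := card_pos.1 (show 0 < #(Atv s t v) by rw [card_Atv H.lp]; omega)
  obtain ⟨B, b1, -, ⟨f, f1, f2⟩, b2⟩ := tight H.lp H.conn
    (weight H.three (fun u p => hD.trans (H.hub u p)) hs) (by omega) he
  have hP : PO s t v {e, f} := ⟨H.lp, by simp [insert_subset_iff, he, f1],
    card_pair fun q => f2 (q ▸ b1)⟩
  have tr : ∀ Z, v ∉ Z → Disjoint Z U → #Z + 1 < 4 * k + 1 → ¬ Tr s t v {e, f} Z :=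
    fun Z z1 z2 z3 z4 =>
      let ⟨C, c⟩ := hP.tree z1 z4
      hs _ C c (by rwa [card_insert_of_notMem z1]) (disjoint_insert_left.2 ⟨hv, z2⟩)
  refine ⟨{e, f}, H.pull hv h4 hP (hP.conn (g := 4 * k + 1) H.three H.conn
    (fun u p => by have := H.hub u p; omega) (by omega)
    (fun X a b => b2 f f1 f2 X a (b e (by simp)) (b f (by simp)))
    fun ⟨Z, z1, z2, z3, z4⟩ => tr Z z1 z2 z3 z4), fun Z C a b c => ?_⟩
  have d := disj_some c
  have i := card_eraseNone_le Z
  by_cases c1 : none ∈ Z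
  · by_cases c2 : some v ∈ Z
    · exact hs _ _ (hP.c2 a c1 c2) (by omega) d
    · rcases hP.c3 a c1 c2 with ⟨D, q⟩ | q
      · exact hs _ _ q (by omega) d
      · have := card_eraseNone_of_mem c1
        have := card_pos.2 a.1
        exact tr _ (fun r => c2 (mem_eraseNone.1 r)) d (by omega) q
  · exact hs _ _ (hP.c1 a c1).1 (by omega) d

lemma StB.step {k D l j : ℕ} {U : Finset V} {v : V} {O : Finset E} (H : StB s t k D l j U v O)
    (hD : 4 * k + 3 ≤ D) (hO : O.Nonempty) :
    ∃ P, StB (ps s v P) (pt t v P) k D l j (U.image some) (some v) ((O \ P).image some) := by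
  obtain ⟨e, he⟩ := hO
  have d1 := Dk_ge k j
  have d2 := H.deg
  have hU : ∀ u ∈ insert v U, 4 * k + 3 ≤ dg s t univ u := fun u p => by
    rcases mem_insert.1 p with rfl | p
    · omega
    · exact hD.trans (H.bs.hub u p)
  have hs : ∀ Z C, Cyc s t Z C → #Z < 4 * k + 1 → ¬ Disjoint Z (insert v U) := fun Z C a b c =>
    (disjoint_insert_right.1 c).1 (H.short Z C a b (disjoint_insert_right.1 c).2).1
  obtain ⟨B, b1, b2, -, b3⟩ := tight H.bs.lp H.bs.conn (weight H.bs.three hU hs) (by omega)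
    (H.sub he)
  obtain ⟨N, n1, n2⟩ := near_count H.bs.lp (U := insert v U)
    (fun x p => H.cub x (fun q => p (mem_insert_of_mem q)) fun q => p (q ▸ mem_insert_self _ _))
    hs v e
  have d3 : #(B ∪ N) ≤ Rk k := (card_union_le _ _).trans (add_le_add b2 n1)
  obtain ⟨f, f1, f2, f3⟩ : ∃ f ∈ Atv s t v, f ∉ B ∪ N ∧ (Rk k < #O → f ∈ O) := by
    by_cases q : Rk k < #O
    · obtain ⟨f, a, b⟩ := exists_mem_notMem_of_card_lt_card (d3.trans_lt q)
      exact ⟨f, H.sub a, b, fun _ => a⟩
    · obtain ⟨f, a, b⟩ := exists_mem_notMem_of_card_lt_card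
        (show #(B ∪ N) < #(Atv s t v) by rw [card_Atv H.bs.lp]; omega)
      exact ⟨f, a, b, fun r => (q r).elim⟩
  rw [mem_union, not_or] at f2
  have ef : e ≠ f := fun q => f2.1 (q ▸ b1)
  have hP : PO s t v {e, f} := ⟨H.bs.lp, by simp [insert_subset_iff, H.sub he, f1], card_pair ef⟩
  have hn := n2 f f1 f2.2
  refine ⟨{e, f}, H.bs.pull H.nv (by omega) hP (hP.conn H.bs.three H.bs.conn
    (fun u p => by have := hU u p; omega) (by omega)
    (fun X a b => b3 f f1 f2.1 X a (b e (by simp)) (b f (by simp))) hn), by simp [H.nv], ?_, ?_, ?_,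
    fun Z C a b c => ?_⟩
  · rintro (_ | x) p q
    · exact hP.dg_none.le
    · have q' : x ≠ v := fun r => q (congrArg some r)
      rw [dg_pull_ne' q']
      exact H.cub x (fun r => p (mem_image_of_mem _ r)) q'
  · intro o ho
    obtain ⟨a, p, rfl⟩ := mem_image.1 ho
    obtain ⟨p, q⟩ := mem_sdiff.1 p
    refine mem_filter.2 ⟨mem_univ _, ?_⟩
    simp only [ps, pt, Option.elim, mv_some (Or.inl q), Option.some.injEq]
    exact (mem_filter.1 (H.sub p)).2
  · rw [card_image_of_injective _ (Option.some_injective E)]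
    have a := hP.dg_v
    have b := card_sdiff_add_card_inter O {e, f}
    have c : 0 < #(O ∩ {e, f}) := card_pos.2 ⟨e, by simp [he]⟩
    by_cases q : Rk k < #O
    · rw [inter_eq_right.2 (by simp [insert_subset_iff, he, f3 q]), hP.two] at b
      omega
    · omega
  have d := disj_some c
  have i := card_eraseNone_le Z
  by_cases c1 : none ∈ Z
  · have i1 := card_eraseNone_of_mem c1
    have i2 := card_pos.2 a.1
    by_cases c2 : some v ∈ Z
    · have := (H.short _ _ (hP.c2 a c1 c2) (by omega) d).2.1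
      exact ⟨c2, by omega, fun _ => by omega⟩
    · have c3 : v ∉ Z.eraseNone := fun r => c2 (mem_eraseNone.1 r)
      rcases hP.c3 a c1 c2 with ⟨D, q⟩ | q
      · exact (c3 (H.short _ _ q (by omega) d).1).elim
      · exact (hn ⟨_, c3, disjoint_insert_right.2 ⟨c3, d⟩, by omega, q⟩).elim
  · obtain ⟨p, q⟩ := hP.c1 a c1
    obtain ⟨r1, r2, r3⟩ := H.short _ _ p (by omega) d
    refine ⟨mem_eraseNone.1 r1, by omega, fun r => (r3 (disjoint_left.2 fun x x1 x2 => ?_)).trans i⟩
    exact disjoint_left.1 r (mem_eraseNone.1 x1)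
      (mem_image_of_mem _ (mem_sdiff.2 ⟨x2, disjoint_left.1 q x1⟩))

theorem expand (k : ℕ) (hk : ∀ (V E : Type) [Fintype V] [Fintype E] [DecidableEq V]
    [DecidableEq E] (s t : E → V), (∀ x, dg s t univ x = 3) → CycConn s t k → HasPair s t)
    (n : ℕ) : ∀ (V E : Type) [Fintype V] [Fintype E] [DecidableEq V] [DecidableEq E]
    (s t : E → V), 2 * Fintype.card E < 3 * Fintype.card V + n →
    (∀ U, StA s t k (Dk k (4 * k + 1)) U → HasPair s t) ∧
      ∀ j l U v O, l + j = 4 * k + 1 → StB s t k (Dk k (4 * k + 1)) l j U v O → HasPair s t := by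
  have hD : 4 * k + 3 ≤ Dk k (4 * k + 1) := by have := Dk_ge k (4 * k + 1); omega
  induction n with
  | zero =>
    intro V E _ _ _ _ s t h
    exact ⟨fun U H => by have := ghand H.1.three; omega,
      fun j l U v O _ H => by have := ghand H.bs.three; omega⟩
  | succ n ih =>
  intro V E _ _ _ _ s t h
  have ih' := fun v P => ih (Option V) (Option E) (ps s v P) (pt t v P)
    (by simp only [Fintype.card_option]; omega)
  have a1 : ∀ U, StA s t k (Dk k (4 * k + 1)) U → ∀ v, v ∉ U → 4 ≤ dg s t univ v → HasPair s t :=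
    fun U H v p q =>
      let ⟨P, r⟩ := H.step hD p q
      pair_pull ((ih' v P).1 _ r)
  have a2 : ∀ j l U v O, l + j = 4 * k + 1 → StB s t k (Dk k (4 * k + 1)) l j U v O →
      HasPair s t := by
    intro j
    induction j with
    | zero =>
      intro l U v O p H
      have := H.deg
      have := Dk_ge k 0
      exact a1 U ⟨H.bs, fun Z C a b c => by have := (H.short Z C a b c).2.1; omega⟩ v H.nv
        (by omega)
    | succ j ij =>
      intro l U v O p H
      rcases O.eq_empty_or_nonempty with rfl | q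
      · refine ij (l + 1) U v (Atv s t v) (by omega) ⟨H.bs, H.nv, H.cub, subset_rfl, ?_,
          fun Z C a b c => ?_⟩
        · have := H.deg
          rw [Dk] at this
          rw [card_Atv H.bs.lp]
          omega
        · obtain ⟨r1, -, r3⟩ := H.short Z C a b c
          refine ⟨r1, r3 (disjoint_empty_right _), fun r => ?_⟩
          have z : dg s t C v = 0 := by
            unfold dg
            rw [filter_eq_empty_iff.2 fun e he (q : s e = v) =>
                disjoint_left.1 r he (mem_filter.2 ⟨mem_univ _, Or.inl q⟩),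
              filter_eq_empty_iff.2 fun e he (q : t e = v) =>
                disjoint_left.1 r he (mem_filter.2 ⟨mem_univ _, Or.inr q⟩)]
            rfl
          exact (notMem_erase v Z (H.short _ _ (a.strip r1 (by omega))
            (card_erase_le.trans_lt b) (c.mono_left (erase_subset _ _))).1).elim
      · obtain ⟨P, r⟩ := H.step hD q
        exact pair_pull ((ih' v P).2 _ _ _ _ _ p r)
  refine ⟨fun U H => ?_, a2⟩
  by_cases c : ∃ v, v ∉ U ∧ 4 ≤ dg s t univ v
  · obtain ⟨v, p, q⟩ := c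
    exact a1 U H v p q
  push Not at c
  rcases U.eq_empty_or_nonempty with rfl | ⟨v, hv⟩
  · exact hk V E s t (fun x => by have := c x (notMem_empty x); have := H.1.three x; omega) H.1.conn
  refine a2 (4 * k + 1) 0 (U.erase v) v ∅ (zero_add _) ⟨⟨H.1.lp, H.1.three, H.1.conn,
    fun u p => H.1.hub u (mem_of_mem_erase p)⟩, notMem_erase _ _,
    fun x p q => by have := c x fun r => p (mem_erase.2 ⟨q, r⟩); omega, empty_subset _,
    by have := H.1.hub v hv; simp only [card_empty, zero_le, inf_of_le_left]; omega,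
    fun Z C a b d => ⟨?_, Nat.zero_le _, fun _ => card_pos.2 a.1⟩⟩
  obtain ⟨u, p, q⟩ := not_disjoint_iff.1 (H.2 Z C a b)
  by_contra hn
  exact disjoint_left.1 d p (mem_erase.2 ⟨fun r => hn (r ▸ p), q⟩)

end Pool.Agent.P.MP_e59a69_co
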