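import Pool.Agent.P.MP_e59a69_co.GPull

/-! Few edges at a hub are near a given one. -/

open Finset Function

namespace Pool.Agent.P.MP_e59a69_co

variable {V E : Type} [Fintype V] [Fintype E] [DecidableEq V] [DecidableEq E] {s t : E → V}

omit [Fintype V] [Fintype E] [DecidableEq E] in
lemma card_kball' {A : Finset E} (h : ∀ v, dg s t A v ≤ 3) (X : Finset V) (r : ℕ) :
    #(kball s t A X r) ≤ 4 ^ r * #X := by
  induction r with
  | zero => simp [kball_zero]
  | succ r ih =>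
    rw [kball_succ, pow_succ', mul_assoc]
    refine le_trans ?_ (Nat.mul_le_mul_left 4 ih)
    generalize kball s t A X r = Y
    have h1 := sum_dg s t A Y
    have h2 := sum_le_card_nsmul Y (fun x => dg s t A x) 3 fun x _ => h x
    have h4 := card_union_le Y ({e ∈ A | s e ∈ Y}.image t ∪ {e ∈ A | t e ∈ Y}.image s)
    have h5 := card_union_le ({e ∈ A | s e ∈ Y}.image t) ({e ∈ A | t e ∈ Y}.image s)
    have h6 := card_image_le (s := {e ∈ A | s e ∈ Y}) (f := t)
    have h7 := card_image_le (s := {e ∈ A | t e ∈ Y}) (f := s)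
    rw [smul_eq_mul] at h2
    unfold nb
    omega

omit [Fintype V] [Fintype E] [DecidableEq E] in
lemma tree_ball {Z : Finset V} {C A : Finset E} (hA : C ⊆ A) (hC : ∀ e ∈ C, s e ∈ Z ∧ t e ∈ Z)
    (hZ : #Z ≤ #C + 1) (hf : ¬ Cy s t Z) {x : V} (hx : x ∈ Z) (i : ℕ) :
    Z ⊆ kball s t A {x} i ∨ i + 1 ≤ #(Z ∩ kball s t A {x} i) := by
  have h0 : ∀ i, x ∈ Z ∩ kball s t A {x} i := fun i =>
    mem_inter.2 ⟨hx, kball_mono A subset_rfl i.zero_le (mem_singleton_self x)⟩
  induction i with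
  | zero => exact Or.inr (card_pos.2 ⟨x, h0 0⟩)
  | succ i ih =>
    have m : kball s t A {x} i ⊆ kball s t A {x} (i + 1) := kball_mono A subset_rfl i.le_succ
    by_cases a : Z ⊆ kball s t A {x} i
    · exact Or.inl (a.trans m)
    refine Or.inr (Nat.succ_le_of_lt ((ih.resolve_left a).trans_lt
      (card_lt_card ⟨inter_subset_inter_left m, fun q => ?_⟩)))
    have h1 := h0 i
    rw [kball_succ] at q
    generalize kball s t A {x} i = B at a q h1
    have cl : ∀ e ∈ C, s e ∈ B ↔ t e ∈ B := fun e he =>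
      ⟨fun p => (mem_inter.1 (q (mem_inter.2 ⟨(hC e he).2,
        mem_nb.2 (Or.inr ⟨e, hA he, _, p, Or.inl ⟨rfl, rfl⟩⟩)⟩))).2,
      fun p => (mem_inter.1 (q (mem_inter.2 ⟨(hC e he).1,
        mem_nb.2 (Or.inr ⟨e, hA he, _, p, Or.inr ⟨rfl, rfl⟩⟩)⟩))).2⟩
    have b1 : ¬ #(Z ∩ B) ≤ #{e ∈ C | s e ∈ B} := fun p =>
      hf ⟨_, inter_subset_left, _, ⟨x, h1⟩, fun e he => by
        obtain ⟨p, q⟩ := mem_filter.1 he
        simp [hC e p, q, ← cl e p], p⟩
    have b2 : ¬ #(Z \ B) ≤ #{e ∈ C | ¬ s e ∈ B} := fun p =>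
      hf ⟨_, sdiff_subset, _, sdiff_nonempty.2 a, fun e he => by
        obtain ⟨p, q⟩ := mem_filter.1 he
        simp [hC e p, q, ← cl e p], p⟩
    have b3 := card_sdiff_add_card_inter Z B
    have b4 := card_filter_add_card_filter_not (s := C) fun e => s e ∈ B
    omega

omit [Fintype V] in
lemma near_count (hl : ∀ e, s e ≠ t e) {U : Finset V} {g : ℕ}
    (h3 : ∀ x, x ∉ U → dg s t univ x ≤ 3) (hs : ∀ Z C, Cyc s t Z C → #Z < g → ¬ Disjoint Z U)
    (v : V) (e : E) : ∃ N : Finset E, #N ≤ 3 * 4 ^ g ∧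
      ∀ f ∈ Atv s t v, f ∉ N → ¬ Near s t g U v {e, f} := by
  let A : Finset E := {a | s a ∉ U ∧ t a ∉ U}
  have hA : ∀ x, dg s t A x ≤ 3 := fun x => by
    by_cases hx : x ∈ U
    · unfold dg
      rw [filter_eq_empty_iff.2 fun a ha (q : s a = x) => (mem_filter.1 ha).2.1 (q ▸ hx),
        filter_eq_empty_iff.2 fun a ha (q : t a = x) => (mem_filter.1 ha).2.2 (q ▸ hx)]
      simp
    · have := dg_compl s t A x
      have := h3 x hx
      omega
  have b1 := card_kball' hA {oth s t v e} g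
  let B := kball s t A {oth s t v e} g \ U
  have b2 : #B ≤ #(kball s t A {oth s t v e} g) := card_le_card sdiff_subset
  have b3 := sum_dg s t univ B
  have b4 := sum_le_card_nsmul B (fun x => dg s t univ x) 3 fun x hx => h3 x (mem_sdiff.1 hx).2
  have b5 := card_union_le ({a | s a ∈ B} : Finset E) {a | t a ∈ B}
  rw [smul_eq_mul] at b4
  rw [card_singleton] at b1
  refine ⟨({a | s a ∈ B} : Finset E) ∪ ({a | t a ∈ B} : Finset E), by omega,
    fun f hf hn ⟨Z, _, z2, z3, z4, C, z5, z6⟩ => hn ?_⟩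
  have c := tree_ball (A := A) (fun a ha => mem_filter.2 ⟨mem_univ _,
    disjoint_left.1 z2 (z5 a ha).1, disjoint_left.1 z2 (z5 a ha).2⟩) z5 z6
    (fun ⟨Y, y1, D, y2⟩ => hs Y D y2 (by have := card_le_card y1; omega) (z2.mono_left y1))
    (z4 e (by simp)) g
  have d := card_le_card (inter_subset_left : Z ∩ kball s t A {oth s t v e} g ⊆ Z)
  have p := z4 f (by simp)
  have q : oth s t v f ∈ B := mem_sdiff.2 ⟨c.resolve_right (by omega) p, disjoint_left.1 z2 p⟩
  rcases (oth_spec hl hf).2 with ⟨-, r⟩ | ⟨-, r⟩ <;> simp [r, q]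

end Pool.Agent.P.MP_e59a69_co
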