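import Pool.Agent.P.MP_e59a69_co.GDefs

/-! Pulling two edges out of a vertex. -/

open Finset Function

namespace Pool.Agent.P.MP_e59a69_co

variable {V E : Type} [Fintype V] [Fintype E] [DecidableEq V] [DecidableEq E]

def mv (s : E → V) (v : V) (P : Finset E) (a : E) : Option V :=
  if a ∈ P ∧ s a = v then none else some (s a)

def ps (s : E → V) (v : V) (P : Finset E) (o : Option E) : Option V := o.elim none (mv s v P)

def pt (t : E → V) (v : V) (P : Finset E) (o : Option E) : Option V := o.elim (some v) (mv t v P)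

structure PO (s t : E → V) (v : V) (P : Finset E) : Prop where
  lp : ∀ e, s e ≠ t e
  sub : P ⊆ Atv s t v
  two : #P = 2

variable {s t : E → V} {v : V} {P : Finset E}

omit [Fintype V] [Fintype E] in
lemma mv_getD (s : E → V) (a : E) : (mv s v P a).getD v = s a := by
  unfold mv
  split_ifs with h
  · exact h.2.symm
  · rfl

omit [Fintype V] [Fintype E] in
lemma mv_some {a : E} (h : a ∉ P ∨ s a ≠ v) : mv s v P a = some (s a) := if_neg (by tauto)

omit [Fintype V] [Fintype E] in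
lemma mv_mem {a : E} {Z : Finset (Option V)} (h : a ∉ P ∨ s a ≠ v) (q : mv s v P a ∈ Z) :
    s a ∈ Z.eraseNone := mem_eraseNone.2 (mv_some h ▸ q)

omit [Fintype V] [Fintype E] in
lemma mv_none {a : E} (h : a ∈ P) (h' : s a = v) : mv s v P a = none := if_pos ⟨h, h'⟩

lemma pair_pull (h : HasPair (ps s v P) (pt t v P)) : HasPair s t := by
  have key : ∀ φ : Option E → ℤ, (∀ x, bdry (ps s v P) (pt t v P) φ x = 0) →
      ∀ x, bdry s t (fun e => φ (some e)) x = 0 := fun φ hφ x => by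
    have a := sum_bdry (ps s v P) (pt t v P) φ {o | o.getD v = x}
    rw [sum_eq_zero fun x _ => hφ x, Fintype.sum_option] at a
    simpa [ps, pt, mv_getD, bdry] using a.symm
  obtain ⟨φ, ψ, a, b, c, d, e⟩ := h
  exact ⟨fun e => φ (some e), fun e => ψ (some e), fun _ => a _, fun _ => b _, key φ c, key ψ d,
    fun _ => e _⟩

omit [Fintype V] in
lemma PO.loop (H : PO s t v P) : ∀ o, ps s v P o ≠ pt t v P o := by
  rintro (_ | a)
  · simp [ps, pt]
  · intro q
    have : (mv s v P a).getD v = (mv t v P a).getD v := congrArg (·.getD v) q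
    rw [mv_getD, mv_getD] at this
    exact H.lp a this

omit [Fintype V] in
lemma dg_sum (s t : E → V) (C : Finset E) (x : V) : dg s t C x =
    ∑ a, ((if a ∈ C ∧ s a = x then 1 else 0) + if a ∈ C ∧ t a = x then 1 else 0) := by
  unfold dg
  rw [sum_add_distrib, ← card_filter, ← card_filter]
  congr 2 <;> ext <;> simp

omit [Fintype V] in
lemma dg_pull_ne (F : Finset (Option E)) {x : V} (hx : x ≠ v) :
    dg (ps s v P) (pt t v P) F (some x) = dg s t F.eraseNone x := by
  rw [dg_sum, dg_sum, Fintype.sum_option]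
  have : ∀ (s : E → V) a, mv s v P a = some x ↔ s a = x := fun s a => by
    unfold mv
    split_ifs with h
    · simp [h.2, hx.symm]
    · simp
  simp [ps, pt, this, hx.symm]

omit [Fintype V] in
lemma dg_pull (F : Finset (Option E)) :
    dg (ps s v P) (pt t v P) F none + dg (ps s v P) (pt t v P) F (some v) =
      dg s t F.eraseNone v + if none ∈ F then 2 else 0 := by
  rw [dg_sum, dg_sum, dg_sum, ← sum_add_distrib, Fintype.sum_option, add_comm]
  congr 1
  · refine sum_congr rfl fun a _ => ?_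
    by_cases a1 : a ∈ P <;> by_cases a2 : s a = v <;> by_cases a3 : t a = v <;>
      by_cases a4 : some a ∈ F <;> simp [ps, pt, mv, a1, a2, a3, a4]
  · by_cases a4 : none ∈ F <;> simp [ps, pt, a4]

omit [Fintype V] in
lemma PO.dg_none (H : PO s t v P) : dg (ps s v P) (pt t v P) univ none = 3 := by
  have : 3 = 1 + ∑ a, if a ∈ P then 1 else 0 := by simp [H.two]
  rw [dg_sum, Fintype.sum_option, this]
  congr 1
  · simp [ps, pt]
  refine sum_congr rfl fun a _ => ?_
  by_cases a1 : a ∈ P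
  · have b := H.lp a
    have c := (mem_filter.1 (H.sub a1)).2
    by_cases a2 : s a = v <;> by_cases a3 : t a = v <;> simp [ps, pt, mv, a1, a2, a3] at b c ⊢
  · simp [ps, pt, mv, a1]

omit [DecidableEq E] in
lemma eraseNone_univ' : (univ : Finset (Option E)).eraseNone = univ := by ext; simp

omit [Fintype V] in
lemma PO.dg_v (H : PO s t v P) : dg (ps s v P) (pt t v P) univ (some v) + 1 = dg s t univ v := by
  have a := dg_pull (s := s) (t := t) (v := v) (P := P) univ
  rw [H.dg_none, eraseNone_univ', if_pos (mem_univ _)] at a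
  omega

omit [Fintype V] in
lemma dg_pull_ne' {x : V} (hx : x ≠ v) :
    dg (ps s v P) (pt t v P) univ (some x) = dg s t univ x := by
  rw [dg_pull_ne _ hx, eraseNone_univ']

omit [Fintype V] in
lemma PO.three (H : PO s t v P) (h3 : ∀ x, 3 ≤ dg s t univ x) (h4 : 4 ≤ dg s t univ v) :
    ∀ o, 3 ≤ dg (ps s v P) (pt t v P) univ o := by
  rintro (_ | x)
  · exact H.dg_none.ge
  · by_cases hx : x = v
    · have := H.dg_v
      rw [hx]
      omega
    · rw [dg_pull_ne' hx]
      exact h3 x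

omit [Fintype V] in
lemma ct_pull {X : Finset (Option V)} (h : none ∈ X ↔ some v ∈ X) :
    ct (ps s v P) (pt t v P) univ X = ct s t univ X.eraseNone := by
  have : ∀ (s : E → V) a, mv s v P a ∈ X ↔ some (s a) ∈ X := fun s a => by
    unfold mv
    split_ifs with q
    · rw [q.2, h]
    · rfl
  unfold ct
  simp only [card_filter]
  rw [Fintype.sum_option]
  simp [ps, pt, this, h]

omit [Fintype V] in
lemma PO.ct_sep (H : PO s t v P) {X : Finset (Option V)} (h : none ∈ X) (h' : some v ∉ X) :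
    ct (ps s v P) (pt t v P) univ X + 2 * #{a ∈ P | oth s t v a ∈ X.eraseNone} =
      ct s t univ X.eraseNone + 3 := by
  have a : 3 = 1 + ∑ a, if a ∈ P then 1 else 0 := by simp [H.two]
  have b : #{a ∈ P | oth s t v a ∈ X.eraseNone} =
      ∑ a, if a ∈ P ∧ oth s t v a ∈ X.eraseNone then 1 else 0 := by
    rw [← card_filter]
    congr 1
    ext
    simp
  rw [a, b]
  unfold ct
  simp only [card_filter]
  rw [Fintype.sum_option, mul_sum, add_assoc, ← sum_add_distrib, add_left_comm, ← sum_add_distrib]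
  congr 1
  · simp [ps, pt, h, h']
  refine sum_congr rfl fun a _ => ?_
  by_cases a1 : a ∈ P
  · obtain ⟨c, ⟨p, q⟩ | ⟨p, q⟩⟩ := oth_spec H.lp (H.sub a1) <;>
      by_cases a2 : some (oth s t v a) ∈ X <;> simp [ps, pt, mv, a1, p, q, c, a2, h, h']
  · simp [ps, pt, mv, a1]

omit [Fintype V] in
lemma PO.ne (H : PO s t v P) {Z : Finset (Option V)} {C : Finset (Option E)}
    (h : Cyc (ps s v P) (pt t v P) Z C) : Z.eraseNone.Nonempty := by
  obtain ⟨o, ho⟩ := card_pos.1 ((card_pos.2 h.1).trans_le h.2.2)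
  obtain ⟨a, b⟩ := h.2.1 o ho
  rcases o with _ | e
  · exact ⟨v, mem_eraseNone.2 b⟩
  · by_cases c : s e = v
    · exact ⟨t e, mv_mem (Or.inr fun q => H.lp e (c.trans q.symm)) b⟩
    · exact ⟨s e, mv_mem (Or.inr c) a⟩

omit [Fintype V] in
lemma PO.c1 (H : PO s t v P) {Z : Finset (Option V)} {C : Finset (Option E)}
    (h : Cyc (ps s v P) (pt t v P) Z C) (h1 : none ∉ Z) :
    Cyc s t Z.eraseNone C.eraseNone ∧ Disjoint C.eraseNone P := by
  have d : ∀ a ∈ C.eraseNone, a ∉ P := fun a ha q => by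
    obtain ⟨b, c⟩ := h.2.1 _ (mem_eraseNone.1 ha)
    rcases (mem_filter.1 (H.sub q)).2 with p | p
    · exact h1 (mv_none q p ▸ b)
    · exact h1 (mv_none q p ▸ c)
  refine ⟨⟨H.ne h, fun a ha => ?_, ?_⟩, disjoint_left.2 d⟩
  · obtain ⟨b, c⟩ := h.2.1 _ (mem_eraseNone.1 ha)
    exact ⟨mv_mem (Or.inl (d a ha)) b, mv_mem (Or.inl (d a ha)) c⟩
  · rw [card_eraseNone_of_not_mem h1, card_eraseNone_of_not_mem fun q => h1 (h.2.1 _ q).1]
    exact h.2.2

omit [Fintype V] in
lemma PO.c2 (H : PO s t v P) {Z : Finset (Option V)} {C : Finset (Option E)}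
    (h : Cyc (ps s v P) (pt t v P) Z C) (h1 : none ∈ Z) (h2 : some v ∈ Z) :
    Cyc s t Z.eraseNone C.eraseNone := by
  have key : ∀ (s : E → V) a, mv s v P a ∈ Z → s a ∈ Z.eraseNone := fun s a q => by
    unfold mv at q
    split_ifs at q with p
    · exact mem_eraseNone.2 (p.2 ▸ h2)
    · exact mem_eraseNone.2 q
  refine ⟨H.ne h, fun a ha => ?_, ?_⟩
  · obtain ⟨b, c⟩ := h.2.1 _ (mem_eraseNone.1 ha)
    exact ⟨key s a b, key t a c⟩
  · have a := h.2.2
    rw [card_eraseNone_of_mem h1]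
    by_cases q : none ∈ C
    · rw [card_eraseNone_of_mem q]
      omega
    · rw [card_eraseNone_of_not_mem q]
      omega

/-- a tree through the other ends of the edges of `P` -/
def Tr (s t : E → V) (v : V) (P : Finset E) (Z : Finset V) : Prop :=
  (∀ a ∈ P, oth s t v a ∈ Z) ∧ ∃ C : Finset E, (∀ e ∈ C, s e ∈ Z ∧ t e ∈ Z) ∧ #Z ≤ #C + 1

omit [Fintype V] in
lemma PO.c3 (H : PO s t v P) {Z : Finset (Option V)} {C : Finset (Option E)}
    (h : Cyc (ps s v P) (pt t v P) Z C) (h1 : none ∈ Z) (h2 : some v ∉ Z) :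
    (∃ D, Cyc s t Z.eraseNone D) ∨ Tr s t v P Z.eraseNone := by
  have a := h.2.2
  have b := card_eraseNone_of_mem h1
  have c := card_eraseNone_of_not_mem fun q => h2 (h.2.1 _ q).2
  have d := card_sdiff_add_card_inter C.eraseNone P
  have e := card_pos.2 h.1
  have f : ∀ a ∈ C.eraseNone \ P, s a ∈ Z.eraseNone ∧ t a ∈ Z.eraseNone := fun a ha => by
    obtain ⟨p, q⟩ := mem_sdiff.1 ha
    obtain ⟨b, c⟩ := h.2.1 _ (mem_eraseNone.1 p)
    exact ⟨mv_mem (Or.inl q) b, mv_mem (Or.inl q) c⟩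
  have g := H.two
  have i := card_le_card (inter_subset_right : C.eraseNone ∩ P ⊆ P)
  by_cases q : #P ≤ #(C.eraseNone ∩ P)
  · refine Or.inr ⟨fun a ha => ?_, _, f, by omega⟩
    rw [← eq_of_subset_of_card_le inter_subset_right q] at ha
    obtain ⟨b, c⟩ := h.2.1 _ (mem_eraseNone.1 (mem_inter.1 ha).1)
    obtain ⟨c', ⟨p, q⟩ | ⟨p, q⟩⟩ := oth_spec H.lp (H.sub (mem_inter.1 ha).2)
    · exact q ▸ mv_mem (Or.inr (q ▸ c')) c
    · exact q ▸ mv_mem (Or.inr (q ▸ c')) b
  · exact Or.inl ⟨_, H.ne h, f, by omega⟩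

omit [Fintype V] in
lemma PO.tree (H : PO s t v P) {Z : Finset V} (hv : v ∉ Z) (h : Tr s t v P Z) :
    ∃ D, Cyc s t (insert v Z) D := by
  obtain ⟨a, C, b, c⟩ := h
  refine ⟨C ∪ P, insert_nonempty _ _, fun e he => ?_, ?_⟩
  · rcases mem_union.1 he with q | q
    · exact ⟨mem_insert_of_mem (b e q).1, mem_insert_of_mem (b e q).2⟩
    · rcases (oth_spec H.lp (H.sub q)).2 with ⟨p, r⟩ | ⟨p, r⟩ <;> simp [p, r, a e q]
  · rw [card_union_of_disjoint, card_insert_of_notMem hv, H.two]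
    · omega
    · refine disjoint_left.2 fun e p q => ?_
      rcases (mem_filter.1 (H.sub q)).2 with r | r
      · exact hv (r ▸ (b e p).1)
      · exact hv (r ▸ (b e p).2)

def Near (s t : E → V) (g : ℕ) (U : Finset V) (v : V) (P : Finset E) : Prop :=
  ∃ Z, v ∉ Z ∧ Disjoint Z U ∧ #Z + 1 < g ∧ Tr s t v P Z

omit [Fintype V] [DecidableEq V] in
lemma eraseNone_sub {A B : Finset (Option V)} (h : A ⊆ B) : A.eraseNone ⊆ B.eraseNone :=
  fun _ q => mem_eraseNone.2 (h (mem_eraseNone.1 q))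

lemma PO.conn (H : PO s t v P) {k g : ℕ} {U : Finset V} (h3 : ∀ x, 3 ≤ dg s t univ x)
    (hc : CycConn s t k) (hU : ∀ u ∈ U, k + 1 ≤ dg s t univ u) (hg : k ≤ g)
    (hb : ∀ X, Tgt s t k v X → ¬ ∀ a ∈ P, oth s t v a ∈ X) (hn : ¬ Near s t g U v P) :
    CycConn (ps s v P) (pt t v P) k := by
  intro X a b
  wlog h : none ∈ X generalizing X
  · rw [← ct_compl]
    exact this Xᶜ b (by rwa [compl_compl]) (mem_compl.2 h)
  obtain ⟨Z, z1, C, z2⟩ := a
  have b' : Cy s t X.eraseNoneᶜ := by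
    obtain ⟨Y, y1, D, y2⟩ := b
    exact ⟨_, fun x q => mem_compl.2 fun r => mem_compl.1 (y1 (mem_eraseNone.1 q))
      (mem_eraseNone.1 r), _, (H.c1 y2 fun q => mem_compl.1 (y1 q) h).1⟩
  have z3 := eraseNone_sub z1
  have tri : Cy s t X.eraseNone ∨ (some v ∉ Z ∧ Tr s t v P Z.eraseNone) := by
    by_cases c1 : none ∈ Z
    · by_cases c2 : some v ∈ Z
      · exact Or.inl ⟨_, z3, _, H.c2 z2 c1 c2⟩
      · exact (H.c3 z2 c1 c2).imp (fun q => ⟨_, z3, q⟩) fun q => ⟨c2, q⟩
    · exact Or.inl ⟨_, z3, _, (H.c1 z2 c1).1⟩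
  by_cases h' : some v ∈ X
  · rw [ct_pull (iff_of_true h h')]
    refine hc _ (tri.elim id fun q => ?_) b'
    exact ⟨_, insert_subset (mem_eraseNone.2 h') z3, H.tree (fun r => q.1 (mem_eraseNone.1 r)) q.2⟩
  have c := H.ct_sep h h'
  have d := card_filter_le P fun a => oth s t v a ∈ X.eraseNone
  have e := H.two
  have hv : v ∉ X.eraseNone := fun r => h' (mem_eraseNone.1 r)
  by_contra hlt
  by_cases f : Cy s t X.eraseNone
  · have := hc _ f b'
    exact hb _ ⟨hv, by omega, f, b'⟩ (card_filter_eq_iff.1 (by omega))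
  obtain ⟨-, q⟩ := tri.resolve_left f
  have i := forest_ds f ((H.ne z2).mono z3)
  have j := three_le_ds h3 X.eraseNone
  have l := card_le_card z3
  refine hn ⟨_, fun r => hv (z3 r), disjoint_left.2 fun u p r => ?_, by omega, q⟩
  have := hub_le_ds h3 (z3 p)
  have := hU u r
  have := card_pos.2 ⟨u, p⟩
  omega

end Pool.Agent.P.MP_e59a69_co
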