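import Pool.Agent.P.MP_e59a69_co.GHub

/-! Graphs without two disjoint cycles; the loopless case with minimum degree three. -/

open Finset Function

namespace Pool.Agent.P.MP_e59a69_co

variable {V E : Type} [Fintype V] [Fintype E] [DecidableEq V] [DecidableEq E] {s t : E → V}

omit [Fintype V] [DecidableEq E] in
lemma cut_ge (hl : ∀ e, s e ≠ t e) {v : V} {X : Finset V} {Q : Finset E} (hv : v ∉ X)
    (h1 : Q ⊆ Atv s t v) (h2 : ∀ a ∈ Q, oth s t v a ∈ X) : #Q ≤ ct s t univ X := by
  refine card_le_card fun a ha => mem_filter.2 ⟨mem_univ _, ?_⟩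
  have := h2 a ha
  rcases (oth_spec hl (h1 ha)).2 with ⟨p, q⟩ | ⟨p, q⟩ <;> rw [p, q] <;> tauto

theorem even_sub (n : ℕ) : ∀ (V E : Type) [Fintype V] [Fintype E] [DecidableEq V] [DecidableEq E]
    (s t : E → V), 2 * Fintype.card E < 3 * Fintype.card V + n → (∀ e, s e ≠ t e) →
    (∀ x, 3 ≤ dg s t univ x) → (∀ X, ct s t univ X ≠ 1) →
    ∃ F : Finset E, ∀ x, Even (dg s t F x) ∧ 2 ≤ dg s t F x := by
  induction n with
  | zero =>
    intro V E _ _ _ _ s t h _ h3 _
    have := ghand h3
    omega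
  | succ n ih =>
  intro V E _ _ _ _ s t h hl h3 h1
  by_cases c : ∃ v, 4 ≤ dg s t univ v
  swap
  · push Not at c
    have d : ∀ x, dg s t univ x = 3 := fun x => by have := c x; have := h3 x; omega
    obtain ⟨M, -, hM⟩ := ktut s t (fun _ => 1) 3 (by omega) hl
      (fun v => by rw [← card_eq_sum_ones, ← card_eq_sum_ones]; exact d v)
      (fun X hX => by
        rw [← card_eq_sum_ones]
        have a := dsum_eq s t X
        have b : dsum s t X = #X * 3 := by simp [dsum, d]
        have := h1 X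
        rw [Nat.odd_iff] at hX
        show 3 ≤ ct s t univ X
        omega)
    refine ⟨Mᶜ, fun x => ?_⟩
    have a := dg_compl s t M x
    have b : dg s t M x = 1 := hM x
    have e := d x
    rw [show dg s t Mᶜ x = 2 by omega]
    decide
  obtain ⟨v, h4⟩ := c
  have c := card_Atv hl v
  obtain ⟨e, he⟩ := card_pos.1 (show 0 < #(Atv s t v) by omega)
  have c' := card_erase_add_one he
  obtain ⟨f, f1, f2, f3⟩ : ∃ f ∈ Atv s t v, e ≠ f ∧ ∀ X, v ∉ X → oth s t v e ∈ X →
      oth s t v f ∈ X → ct s t univ X ≠ 2 := by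
    by_contra hn
    push Not at hn
    obtain ⟨f, p, g, q, r⟩ := one_lt_card.1 (show 1 < #((Atv s t v).erase e) by omega)
    obtain ⟨p1, p2⟩ := mem_erase.1 p
    obtain ⟨q1, q2⟩ := mem_erase.1 q
    obtain ⟨X, x1, x2, x3, x4⟩ := hn f p2 p1.symm
    obtain ⟨Y, y1, y2, y3, y4⟩ := hn g q2 q1.symm
    have a1 := ct_submod (s := s) (t := t) X Y
    have a2 := cut_ge hl (X := X ∪ Y) (Q := {e, f, g}) (v := v) (by simp [x1, y1])
      (by simp [insert_subset_iff, he, p2, q2]) (by simp [x2, x3, y3])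
    have a3 := cut_ge hl (X := X ∩ Y) (Q := {e}) (v := v) (by simp [x1]) (by simp [he])
      (by simp [x2, y2])
    rw [card_eq_three.2 ⟨e, f, g, p1.symm, q1.symm, r, rfl⟩] at a2
    rw [card_singleton] at a3
    have := h1 (X ∩ Y)
    omega
  have hP : PO s t v {e, f} := ⟨hl, by simp [insert_subset_iff, he, f1], card_pair f2⟩
  obtain ⟨F, hF⟩ := ih (Option V) (Option E) (ps s v {e, f}) (pt t v {e, f})
    (by simp only [Fintype.card_option]; omega) hP.loop (hP.three h3 h4) (fun X => by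
      wlog q : none ∈ X generalizing X
      · rw [← ct_compl]
        exact this Xᶜ (mem_compl.2 q)
      by_cases q' : some v ∈ X
      · rw [ct_pull (iff_of_true q q')]
        exact h1 _
      have a := hP.ct_sep q q'
      have hv : v ∉ X.eraseNone := fun r => q' (mem_eraseNone.1 r)
      have b := cut_ge hl hv ((filter_subset (fun a => oth s t v a ∈ X.eraseNone) _).trans hP.sub)
        fun a ha => (mem_filter.1 ha).2
      have d := card_filter_le {e, f} fun a => oth s t v a ∈ X.eraseNone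
      have d' := hP.two
      intro r
      have i := card_filter_eq_iff.1 (show #{a ∈ ({e, f} : Finset E) | oth s t v a ∈ X.eraseNone} =
        #({e, f} : Finset E) by omega)
      exact f3 _ hv (i e (by simp)) (i f (by simp)) (by omega))
  refine ⟨F.eraseNone, fun x => ?_⟩
  by_cases hx : x = v
  · have a := dg_pull (s := s) (t := t) (v := v) (P := {e, f}) F
    have b := hF none
    have d := hF (some v)
    rw [hx]
    simp only [Nat.even_iff] at b d ⊢
    split_ifs at a <;> omega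
  · rw [← dg_pull_ne (P := {e, f}) F hx]
    exact hF _

lemma small_pair (hl : ∀ e, s e ≠ t e) (h3 : ∀ x, 3 ≤ dg s t univ x)
    (hc : ∀ X, Cy s t X → ¬ Cy s t Xᶜ) : HasPair s t := by
  classical
  obtain ⟨F, hF⟩ := even_sub (2 * Fintype.card E + 1) V E s t (by omega) hl h3
    (no_one h3 fun X a b => (hc X a b).elim)
  have key : ∀ (X : Finset V) (c : (spanGr s t F).ConnectedComponent),
      (∀ v, (spanGr s t F).connectedComponentMk v = c → v ∈ X) → Cy s t X := fun X c h => by
    let Z : Finset V := {v | (spanGr s t F).connectedComponentMk v = c}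
    have z : ∀ e ∈ F, s e ∈ Z ↔ t e ∈ Z := fun e he => by simp [Z, comp_eq_of_mem s t F he]
    obtain ⟨v, hv⟩ := c.exists_rep
    refine ⟨Z, fun v p => h v (mem_filter.1 p).2, {e ∈ F | s e ∈ Z},
      ⟨v, mem_filter.2 ⟨mem_univ _, hv⟩⟩, fun e he => ?_, ?_⟩
    · obtain ⟨p, q⟩ := mem_filter.1 he
      exact ⟨q, (z e p).1 q⟩
    · have a := sum_dg s t F Z
      have b := card_nsmul_le_sum Z (fun x => dg s t F x) 2 fun x _ => (hF x).2
      rw [← filter_congr z] at a
      rw [smul_eq_mul] at b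
      omega
  obtain ⟨φ, ψ, a1, a0, ab, b1, b2, b3⟩ := core s t F (fun v => (hF v).1) Set.univ
    (fun _ _ => Set.mem_univ _) fun X ⟨c, _, p⟩ ⟨c', _, q⟩ _ => (hc X (key _ c p) (key _ c' q)).elim
  refine ⟨φ, ψ, fun e => ?_, b1, ab, b3, fun e q => b2 e fun he => ?_⟩
  · by_cases he : e ∈ F
    · rcases a1 e he with h | h <;> simp [h]
    · simp [a0 e he]
  · have := a1 e he
    omega

omit [Fintype V] [DecidableEq E] in
lemma bdry_of_kflow {k : ℤ} {φ : E → ℤ} (h : IsKFlow s t k φ) (v : V) : bdry s t φ v = 0 := by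
  unfold bdry
  rw [sum_sub_distrib, ← sum_filter, ← sum_filter, h.2 v, sub_self]

theorem three_main : ∃ K : ℕ, ∀ (V E : Type) [Fintype V] [Fintype E] [DecidableEq V]
    [DecidableEq E] (s t : E → V), (∀ e, s e ≠ t e) → (∀ x, 3 ≤ dg s t univ x) →
    CycConn s t K → HasPair s t := by
  obtain ⟨k, hk⟩ := const_main
  have ex := expand (k + 2) fun V E _ _ _ _ s t h3 hc => by
    obtain ⟨φ, ψ, a, b, c⟩ := hk V E s t h3
      (no_one (fun x => (h3 x).ge) fun X p q => le_trans (by omega) (hc X p q))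
      fun X p q => le_trans (by omega) (hc X (cy_of_cycle p) (cy_of_cycle q))
    exact ⟨φ, ψ, a.1, b.1, bdry_of_kflow a, bdry_of_kflow b, c⟩
  generalize Dk (k + 2) (4 * (k + 2) + 1) = D at ex
  refine ⟨2 * ((4 * (k + 2) + 1) * D) + k + 3, fun V E _ _ _ _ s t hl h3 hc => ?_⟩
  by_cases a : ∀ Z C, Cyc s t Z C → #Z < 4 * (k + 2) + 1 →
      ¬ Disjoint Z (univ.filter fun u => D ≤ dg s t univ u)
  · exact (ex (2 * Fintype.card E + 1) V E s t (by omega)).1 _ ⟨⟨hl, h3,
      fun X p q => le_trans (by omega) (hc X p q), fun u p => (mem_filter.1 p).2⟩, a⟩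
  push Not at a
  obtain ⟨Z, C, z1, z2, z3⟩ := a
  have b1 := sum_le_card_nsmul Z (fun x => dg s t univ x) D fun x p => le_of_not_ge fun q =>
    disjoint_left.1 z3 p (mem_filter.2 ⟨mem_univ _, q⟩)
  have b2 : dsum s t Z ≤ (4 * (k + 2) + 1) * D := b1.trans (Nat.mul_le_mul_right D z2.le)
  have b3 := dsum_eq s t Z
  have b4 : ¬ Cy s t Zᶜ := fun q => by
    have := hc Z ⟨Z, subset_rfl, C, z1⟩ q
    omega
  have b5 := forest_ds' b4
  have b6 := three_le_ds h3 Zᶜ
  have b7 : dsum s t Z + dsum s t Zᶜ = dsum s t univ := sum_add_sum_compl Z _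
  have b8 : dsum s t univ = 2 * Fintype.card E := by
    unfold dsum
    rw [sum_dg]
    simp [two_mul]
  rw [ct_compl] at b5
  refine small_pair hl h3 fun X p q => ?_
  have := hc X p q
  have : ct s t univ X ≤ Fintype.card E := card_le_univ _
  omega

end Pool.Agent.P.MP_e59a69_co
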