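import Pool.Agent.P.MP_e59a69_co.GSmall

/-! Loops, isolated vertices, cuts with no edge and cuts with two edges. -/

open Finset Function

namespace Pool.Agent.P.MP_e59a69_co

variable {V E : Type} [Fintype V] [Fintype E] [DecidableEq V] [DecidableEq E] {s t : E → V}

/-- cyclic without the use of loops -/
def CyN (s t : E → V) (X : Finset V) : Prop := ∃ Z ⊆ X, ∃ C, Cyc s t Z C ∧ ∀ e ∈ C, s e ≠ t e

omit [Fintype V] [Fintype E] [DecidableEq V] [DecidableEq E] in
lemma CyN.mono {X Y : Finset V} (h : CyN s t X) (hXY : X ⊆ Y) : CyN s t Y :=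
  let ⟨Z, a, b⟩ := h
  ⟨Z, a.trans hXY, b⟩

lemma restrict {K : ℕ} (hK : ∀ (V E : Type) [Fintype V] [Fintype E] [DecidableEq V]
    [DecidableEq E] (s t : E → V), (∀ e, s e ≠ t e) → (∀ x, 3 ≤ dg s t univ x) →
    CycConn s t K → HasPair s t) (h1 : ∀ X, ct s t univ X ≠ 1) (h2 : ∀ X, ct s t univ X ≠ 2)
    (hc : ∀ X, CyN s t X → CyN s t Xᶜ → K ≤ ct s t univ X) : HasPair s t := by
  let s1 : {e // s e ≠ t e} → {v // ∃ e, s e ≠ t e ∧ (s e = v ∨ t e = v)} :=
    fun e => ⟨s e, e, e.2, Or.inl rfl⟩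
  let t1 : {e // s e ≠ t e} → {v // ∃ e, s e ≠ t e ∧ (s e = v ∨ t e = v)} :=
    fun e => ⟨t e, e, e.2, Or.inr rfl⟩
  have m : ∀ (Y : Finset {v // ∃ e, s e ≠ t e ∧ (s e = v ∨ t e = v)}) x,
      x.1 ∈ Y.image Subtype.val ↔ x ∈ Y := fun Y x => Subtype.val_injective.mem_finset_image
  have a1 : ∀ Y, ct s1 t1 univ Y = ct s t univ (Y.image Subtype.val) := fun Y => by
    refine card_bij (fun e _ => e.1) (fun e he => mem_filter.2 ⟨mem_univ _, ?_⟩)
      (fun _ _ _ _ q => Subtype.ext q) fun e he => ?_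
    · have := (mem_filter.1 he).2
      rwa [← m, ← m] at this
    · have := (mem_filter.1 he).2
      refine ⟨⟨e, fun q => this (by rw [q])⟩, mem_filter.2 ⟨mem_univ _, ?_⟩, rfl⟩
      rwa [← m, ← m]
  have a2 : ∀ Y, Cy s1 t1 Y → CyN s t (Y.image Subtype.val) := fun Y ⟨Z, z1, C, z2⟩ => by
    refine ⟨_, image_subset_image z1, C.image Subtype.val, ⟨z2.1.image _, fun e he => ?_, ?_⟩,
      fun e he => ?_⟩
    · obtain ⟨a, p, rfl⟩ := mem_image.1 he
      exact ⟨(m Z (s1 a)).2 (z2.2.1 a p).1, (m Z (t1 a)).2 (z2.2.1 a p).2⟩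
    · rw [card_image_of_injective _ Subtype.val_injective,
        card_image_of_injective _ Subtype.val_injective]
      exact z2.2.2
    · obtain ⟨a, -, rfl⟩ := mem_image.1 he
      exact a.2
  obtain ⟨φ, ψ, b1, b2, b3, b4, b5⟩ := hK _ _ s1 t1 (fun e q => e.2 (congrArg Subtype.val q))
    (fun x => by
      have c1 := dsum_eq s1 t1 {x}
      have c2 := a1 {x}
      have c3 : 0 < ct s t univ (image Subtype.val {x}) := by
        obtain ⟨e, p, q⟩ := x.2
        refine card_pos.2 ⟨e, mem_filter.2 ⟨mem_univ _, ?_⟩⟩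
        rcases q with q | q <;> simp [← q, p, p.symm]
      have c4 := h1 (image Subtype.val {x})
      have c5 := h2 (image Subtype.val {x})
      rw [dsum, sum_singleton] at c1
      omega)
    (fun Y p q => by
      rw [a1]
      refine hc _ (a2 Y p) ((a2 _ q).mono fun x hx => ?_)
      obtain ⟨y, r, rfl⟩ := mem_image.1 hx
      rw [mem_compl, m]
      exact mem_compl.1 r)
  have key : ∀ (φ : {e // s e ≠ t e} → ℤ) (c : ℤ), (∀ x, bdry s1 t1 φ x = 0) →
      ∀ x, bdry s t (fun e => if h : s e ≠ t e then φ ⟨e, h⟩ else c) x = 0 := fun φ c h x => by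
    have a := sum_bdry s1 t1 φ {w | w.1 = x}
    rw [sum_eq_zero fun x _ => h x] at a
    unfold bdry
    rw [← Fintype.sum_subtype_add_sum_subtype (fun e => s e ≠ t e),
      sum_eq_zero (s := (univ : Finset {e // ¬ s e ≠ t e})) fun e _ => by
        rw [not_not.1 e.2, sub_self], add_zero]
    exact (sum_congr rfl fun e _ => by simp [s1, t1, e.2]).trans a.symm
  refine ⟨_, _, fun e => ?_, fun e => ?_, key φ 1 b3, key ψ 0 b4, fun e => ?_⟩ <;>
    by_cases h : s e = t e <;> simp [h, b1, b2]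
  exact b5 _

/-- the edges outside `X` become loops -/
def kil (s t : E → V) (X : Finset V) (e : E) : V := if s e ∈ X then t e else s e

omit [DecidableEq E] in
lemma kil_pair {X : Finset V} (h1 : HasPair s (kil s t X)) (h2 : HasPair s (kil s t Xᶜ)) :
    HasPair s t := by
  have key : ∀ φ ψ : E → ℤ, (∀ x, bdry s (kil s t X) φ x = 0) → (∀ x, bdry s (kil s t Xᶜ) ψ x = 0) →
      ∀ x, bdry s t (fun e => if s e ∈ X then φ e else ψ e) x = 0 := fun φ ψ a b x => by
    have : bdry s t (fun e => if s e ∈ X then φ e else ψ e) x =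
        bdry s (kil s t X) φ x + bdry s (kil s t Xᶜ) ψ x := by
      unfold bdry
      rw [← sum_add_distrib]
      refine sum_congr rfl fun e _ => ?_
      by_cases q : s e ∈ X <;> simp [kil, q]
    rw [this, a, b, add_zero]
  obtain ⟨φ, ψ, a1, a2, a3, a4, a5⟩ := h1
  obtain ⟨φ', ψ', b1, b2, b3, b4, b5⟩ := h2
  refine ⟨_, _, fun e => ?_, fun e => ?_, key φ φ' a3 b3, key ψ ψ' a4 b4, fun e => ?_⟩ <;>
    by_cases h : s e ∈ X <;> simp only [h, if_true, if_false]
  exacts [a1 e, b1 e, a2 e, b2 e, a5 e, b5 e]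

omit [Fintype V] [DecidableEq E] in
lemma kil_ct {X : Finset V} (h : ∀ e, s e ∈ X ↔ t e ∈ X) (Y : Finset V) :
    ct s (kil s t X) univ Y = ct s t univ (Y ∩ X) := by
  refine congrArg card (filter_congr fun e _ => ?_)
  by_cases q : s e ∈ X <;> simp [kil, q, ← h e]

omit [Fintype V] [Fintype E] [DecidableEq E] in
lemma kil_cy {X : Finset V} (h : ∀ e, s e ∈ X ↔ t e ∈ X) {Y : Finset V}
    (c : CyN s (kil s t X) Y) : CyN s t (Y ∩ X) := by
  obtain ⟨Z, z1, C, z2, z3⟩ := c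
  have a : ∀ e ∈ C, s e ∈ X ∧ kil s t X e = t e := fun e he => by
    have := z3 e he
    by_cases q : s e ∈ X <;> simp [kil, q] at this ⊢
  have b : ∀ e ∈ C, s e ∈ Z ∩ X ∧ t e ∈ Z ∩ X := fun e he =>
    ⟨mem_inter.2 ⟨(z2.2.1 e he).1, (a e he).1⟩,
      mem_inter.2 ⟨(a e he).2 ▸ (z2.2.1 e he).2, (h e).1 (a e he).1⟩⟩
  obtain ⟨e, he⟩ := card_pos.1 ((card_pos.2 z2.1).trans_le z2.2.2)
  exact ⟨Z ∩ X, inter_subset_inter_right z1, C, ⟨⟨_, (b e he).1⟩, b,
    (card_le_card inter_subset_left).trans z2.2.2⟩, fun e he => (a e he).2 ▸ z3 e he⟩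

/-- identify `b` with `a` -/
def idf (a b x : V) : V := if x = b then a else x

lemma idf_pair {X : Finset V} {e f : E} (hef : e ≠ f)
    (hX : ∀ a, ¬ (s a ∈ X ↔ t a ∈ X) ↔ a = e ∨ a = f)
    (h : HasPair (idf (s e) (t e) ∘ s) (idf (s e) (t e) ∘ t)) : HasPair s t := by
  have he := (hX e).2 (Or.inl rfl)
  have hf := (hX f).2 (Or.inr rfl)
  have key : ∀ φ : E → ℤ, (∀ x, bdry (idf (s e) (t e) ∘ s) (idf (s e) (t e) ∘ t) φ x = 0) →
      ∀ x, bdry s t (update φ e (if s e ∈ X ↔ s f ∈ X then - φ f else φ f)) x = 0 := fun φ h => by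
    generalize hψ : update φ e (if s e ∈ X ↔ s f ∈ X then - φ f else φ f) = ψ
    have p1 : ∀ a, a ≠ e → ψ a = φ a := fun a q => by rw [← hψ, update_of_ne q]
    have p2 : ψ e = if s e ∈ X ↔ s f ∈ X then - φ f else φ f := by rw [← hψ, update_self]
    have a1 : ∀ x, x ≠ s e → x ≠ t e → bdry s t ψ x = 0 := fun x p q => by
      rw [← h x]
      have r : ∀ y, idf (s e) (t e) y = x ↔ y = x := fun y => by
        unfold idf
        split_ifs with c
        · simp [c, p.symm, q.symm]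
        · rfl
      refine sum_congr rfl fun a _ => ?_
      by_cases c : a = e
      · simp [c, r, p.symm, q.symm]
      · simp [r, p1 a c]
    have a2 : ∑ x ∈ X, bdry s t ψ x = 0 := by
      rw [sum_bdry, ← sum_subset (subset_univ {e, f}) (fun a _ q => by
        have : s a ∈ X ↔ t a ∈ X := by
          by_contra r
          exact q (by simpa using (hX a).1 r)
        simp [this]), sum_pair hef, p2, p1 f hef.symm]
      by_cases c1 : s e ∈ X <;> by_cases c2 : t e ∈ X <;> by_cases c3 : s f ∈ X <;>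
        by_cases c4 : t f ∈ X <;> simp [c1, c2, c3, c4] at he hf ⊢
    have a3 : ∑ x ∈ Xᶜ, bdry s t ψ x = 0 := by
      have := sum_add_sum_compl X (bdry s t ψ)
      rw [sum_bdry_univ, a2, zero_add] at this
      exact this
    have a4 : ∀ Y : Finset V, ∑ x ∈ Y, bdry s t ψ x = 0 → ¬ (s e ∈ Y ↔ t e ∈ Y) → ∀ x ∈ Y,
        bdry s t ψ x = 0 := fun Y p q x hx => by
      by_contra c
      rw [← add_sum_erase Y _ hx, sum_eq_zero fun y hy => ?_, add_zero] at p
      · exact c p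
      obtain ⟨y1, y2⟩ := mem_erase.1 hy
      have : x = s e ∨ x = t e := by
        by_contra r
        exact c (a1 x (not_or.1 r).1 (not_or.1 r).2)
      refine a1 y (fun r => ?_) fun r => ?_ <;> subst r <;> rcases this with rfl | rfl <;> tauto
    intro x
    by_cases c : x ∈ X
    · exact a4 X a2 he x c
    · exact a4 Xᶜ a3 (by simpa [not_iff_not] using he) x (mem_compl.2 c)
  obtain ⟨φ, ψ, a1, a2, a3, a4, a5⟩ := h
  refine ⟨_, _, fun a => ?_, fun a => ?_, key φ a3, key ψ a4, fun a => ?_⟩ <;> by_cases c : a = e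
  · rw [c, update_self]
    split_ifs <;> simp [a1]
  · rw [update_of_ne c]
    exact a1 a
  · rw [c, update_self]
    split_ifs <;> simp [a2]
  · rw [update_of_ne c]
    exact a2 a
  · rw [c, update_self, update_self]
    split_ifs
    · simpa using a5 f
    · exact a5 f
  · rw [update_of_ne c, update_of_ne c]
    exact a5 a

omit [Fintype E] in
lemma idf_cy {e : E} (he : s e ≠ t e) {Y : Finset V}
    (c : CyN (idf (s e) (t e) ∘ s) (idf (s e) (t e) ∘ t) Y) :
    CyN s t {x | idf (s e) (t e) x ∈ Y} := by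
  obtain ⟨Z, z1, C, z2, z3⟩ := c
  obtain ⟨a, ha⟩ := card_pos.1 ((card_pos.2 z2.1).trans_le z2.2.2)
  have b0 : e ∉ C := fun q => z3 e q (by simp [idf])
  have b1 : ∀ a ∈ C, s a ≠ t a := fun a p q => z3 a p (by simp [q])
  have b2 : ∀ a ∈ C, s a ∈ ({x | idf (s e) (t e) x ∈ Z} : Finset V) ∧
      t a ∈ ({x | idf (s e) (t e) x ∈ Z} : Finset V) := fun a p => by simpa using z2.2.1 a p
  have b3 := z2.2.2
  refine ⟨univ.filter fun x => idf (s e) (t e) x ∈ Z, 
    fun x p => mem_filter.2 ⟨mem_univ _, z1 (mem_filter.1 p).2⟩, ?_⟩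
  by_cases q : s e ∈ Z
  · refine ⟨insert e C, ⟨⟨_, (b2 a ha).1⟩, forall_mem_insert _ _ _ |>.2 ⟨by simp [idf, q], b2⟩, ?_⟩,
      forall_mem_insert _ _ _ |>.2 ⟨he, b1⟩⟩
    rw [card_insert_of_notMem b0]
    refine (card_le_card (t := insert (t e) Z) fun x p => ?_).trans
      ((card_insert_le _ _).trans (by omega))
    have := (mem_filter.1 p).2
    by_cases r : x = t e <;> simp [idf, r] at this ⊢
    exact this
  · refine ⟨C, ⟨⟨_, (b2 a ha).1⟩, b2, le_trans (card_le_card fun x p => ?_) b3⟩, b1⟩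
    have := (mem_filter.1 p).2
    by_cases r : x = t e <;> simp [idf, r, q] at this ⊢
    exact this

theorem all_main : ∃ K : ℕ, ∀ (V E : Type) [Fintype V] [Fintype E] [DecidableEq V]
    [DecidableEq E] (s t : E → V), (∀ X, ct s t univ X ≠ 1) →
    (∀ X, CyN s t X → CyN s t Xᶜ → ct s t univ X ≤ 2 ∨ K ≤ ct s t univ X) → HasPair s t := by
  obtain ⟨K, hK⟩ := three_main
  refine ⟨K, fun V E _ _ _ _ s t => ?_⟩
  induction hn : #{e | s e ≠ t e} using Nat.strong_induction_on generalizing s t with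
  | _ n ih =>
  intro h1 hc
  by_cases a : ∃ X, ct s t univ X = 2
  · obtain ⟨X, hX⟩ := a
    obtain ⟨e, f, p, q⟩ := card_eq_two.1 hX
    have r : ∀ a, ¬ (s a ∈ X ↔ t a ∈ X) ↔ a = e ∨ a = f := fun a => by
      simpa using Finset.ext_iff.1 q a
    have he : s e ≠ t e := fun c => (r e).2 (Or.inl rfl) (by rw [c])
    have c : ∀ Y, ct (idf (s e) (t e) ∘ s) (idf (s e) (t e) ∘ t) univ Y =
        ct s t univ {x | idf (s e) (t e) x ∈ Y} := fun Y => by simp [ct]
    refine idf_pair p r (ih _ (hn ▸ card_lt_card ⟨fun a ha => ?_, fun c => ?_⟩) _ _ rfl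
      (fun Y => c Y ▸ h1 _) fun Y y1 y2 => c Y ▸ hc _ (idf_cy he y1)
        ((idf_cy he y2).mono fun x => by simp))
    · exact mem_filter.2 ⟨mem_univ _, fun c => (mem_filter.1 ha).2 (by simp [c])⟩
    · exact (mem_filter.1 (c (mem_filter.2 ⟨mem_univ e, he⟩))).2 (by simp [idf])
  by_cases b : ∃ X, CyN s t X ∧ CyN s t Xᶜ ∧ ct s t univ X = 0
  · have key : ∀ X, CyN s t Xᶜ → ct s t univ X = 0 → HasPair s (kil s t X) := fun X p q => by
      have r : ∀ e, s e ∈ X ↔ t e ∈ X := fun e =>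
        not_not.1 (filter_eq_empty_iff.1 (card_eq_zero.1 q) (mem_univ e))
      refine ih _ (hn ▸ card_lt_card ⟨fun a ha => ?_, fun c => ?_⟩) _ _ rfl
        (fun Y => kil_ct r Y ▸ h1 _) fun Y y1 y2 => kil_ct r Y ▸ hc _ (kil_cy r y1)
          ((kil_cy r y2).mono fun x => by simp +contextual)
      · exact mem_filter.2 ⟨mem_univ _, fun c => (mem_filter.1 ha).2 (by simp [kil, c])⟩
      · obtain ⟨Z, z1, C, z2, z3⟩ := p
        obtain ⟨e, he⟩ := card_pos.1 ((card_pos.2 z2.1).trans_le z2.2.2)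
        exact (mem_filter.1 (c (mem_filter.2 ⟨mem_univ e, z3 e he⟩))).2
          (by simp [kil, mem_compl.1 (z1 (z2.2.1 e he).1)])
    obtain ⟨X, p, q, r⟩ := b
    exact kil_pair (key X q r) (key Xᶜ (by rwa [compl_compl]) (by rwa [ct_compl]))
  push Not at a b
  exact restrict hK h1 a fun X p q => by
    have := hc X p q
    have := b X p q
    have := a X
    have := h1 X
    omega

end Pool.Agent.P.MP_e59a69_co
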