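import Pool.Agent.P.MP_e59a69_co.KDefs

/-! Balls and the walk operator: elementary facts. -/

open Finset Function

namespace Pool.Agent.P.MP_e59a69_co

variable {V E : Type} [Fintype V] [Fintype E] [DecidableEq V] {s t : E → V}

omit [Fintype V] in
lemma kball_nb_card (h : ∀ v, dg s t univ v = 3) (A : Finset E) (X : Finset V) :
    #(nb s t A X) ≤ 4 * #X := by
  have h1 : #{e | s e ∈ X} + #{e | t e ∈ X} = 3 * #X := by
    rw [← sum_card_fiberwise_eq_card_filter, ← sum_card_fiberwise_eq_card_filter,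
      ← sum_add_distrib, mul_comm, ← smul_eq_mul, ← sum_const]
    exact sum_congr rfl fun v _ => h v
  have h2 : #{e ∈ A | s e ∈ X} ≤ #{e | s e ∈ X} :=
    card_le_card (filter_subset_filter _ (subset_univ A))
  have h3 : #{e ∈ A | t e ∈ X} ≤ #{e | t e ∈ X} :=
    card_le_card (filter_subset_filter _ (subset_univ A))
  have h4 := card_union_le X ({e ∈ A | s e ∈ X}.image t ∪ {e ∈ A | t e ∈ X}.image s)
  have h5 := card_union_le ({e ∈ A | s e ∈ X}.image t) ({e ∈ A | t e ∈ X}.image s)
  have h6 := card_image_le (s := {e ∈ A | s e ∈ X}) (f := t)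
  have h7 := card_image_le (s := {e ∈ A | t e ∈ X}) (f := s)
  unfold nb
  omega

theorem card_kball (h : ∀ v, dg s t univ v = 3) (A : Finset E) (X : Finset V) (r : ℕ) :
    #(kball s t A X r) ≤ 4 ^ r * #X := by
  induction r with
  | zero => simp [kball_zero]
  | succ r ih =>
    rw [kball_succ, pow_succ', mul_assoc]
    exact (kball_nb_card h A _).trans (Nat.mul_le_mul_left 4 ih)

omit [Fintype V] [Fintype E] in
theorem kball_mono (A : Finset E) {X X' : Finset V} (hX : X ⊆ X') {r r' : ℕ} (h : r ≤ r') :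
    kball s t A X r ⊆ kball s t A X' r' := by
  have h1 : ∀ r, kball s t A X r ⊆ kball s t A X' r := fun r => by
    induction r with
    | zero => exact hX
    | succ r ih =>
      rw [kball_succ, kball_succ]
      intro v hv
      rw [mem_nb] at hv ⊢
      exact hv.imp (fun h => ih h) fun ⟨e, he, u, hu, hj⟩ => ⟨e, he, u, ih hu, hj⟩
  induction r', h using Nat.le_induction with
  | base => exact h1 r
  | succ n _ ih =>
    rw [kball_succ]
    exact fun v hv => mem_nb.2 (Or.inl (ih hv))

omit [Fintype V] [Fintype E] in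
theorem kball_symm (A : Finset E) {u v : V} {r : ℕ} (h : u ∈ kball s t A {v} r) :
    v ∈ kball s t A {u} r := by
  induction r generalizing u with
  | zero =>
    rw [kball_zero, mem_singleton] at h ⊢
    exact h.symm
  | succ r ih =>
    rw [kball_succ, mem_nb] at h
    rcases h with h | ⟨e, he, w, hw, hj⟩
    · exact kball_mono A subset_rfl r.le_succ (ih h)
    · have h1 : ({w} : Finset V) ⊆ nb s t A {u} := singleton_subset_iff.2 (mem_nb.2 (Or.inr
        ⟨e, he, u, mem_singleton_self u, hj.symm.imp And.symm And.symm⟩))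
      exact kball_mono A h1 le_rfl (ih hw)

omit [Fintype V] in
theorem kball_energy {u v : V} {r : ℕ} (h : u ∈ kball s t univ {v} r) (y : V → ℝ) :
    (y v - y u) ^ 2 ≤ (r : ℝ) ^ 2 * En s t y := by
  have h0 := Real.sqrt_nonneg (En s t y)
  have h1 : ∀ e, |y (s e) - y (t e)| ≤ √(En s t y) := fun e => Real.abs_le_sqrt
    (single_le_sum (f := fun e => (y (s e) - y (t e)) ^ 2) (fun _ _ => sq_nonneg _) (mem_univ e))
  have h2 : |y v - y u| ≤ r * √(En s t y) := by
    induction r generalizing u with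
    | zero =>
      rw [kball_zero, mem_singleton] at h
      simp [h]
    | succ r ih =>
      rw [kball_succ, mem_nb] at h
      push_cast
      rcases h with h | ⟨e, -, w, hw, hj⟩
      · linarith [ih h]
      · have h3 : |y w - y u| ≤ √(En s t y) := by
          rcases hj with ⟨rfl, rfl⟩ | ⟨rfl, rfl⟩
          · exact h1 e
          · rw [abs_sub_comm]
            exact h1 e
        linarith [ih hw, abs_sub_le (y v) (y w) (y u)]
  have h3 := pow_le_pow_left₀ (abs_nonneg _) h2 2
  rwa [sq_abs, mul_pow, Real.sq_sqrt (En_nonneg s t y)] at h3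

lemma kball_fib (s : E → V) (F : E → V → ℝ) :
    ∑ v, ∑ e with s e = v, F e v = ∑ e, F e (s e) := by
  rw [← sum_fiberwise univ s fun e => F e (s e)]
  exact sum_congr rfl fun v _ => sum_congr rfl fun e he => by rw [(mem_filter.1 he).2]

/-- the length of the edges at a vertex -/
def kballB (s t : E → V) (l : V → V → ℝ) (x : V) : ℝ :=
  ∑ e with s e = x, l (s e) (t e) + ∑ e with t e = x, l (s e) (t e)

lemma kball_sumB (l : V → V → ℝ) : ∑ x, kballB s t l x = 2 * Pl s t l := by
  unfold kballB Pl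
  rw [sum_add_distrib, sum_fiberwise, sum_fiberwise, two_mul]

omit [Fintype V] in
lemma kball_B_nonneg {l : V → V → ℝ} (hl : Met l) (x : V) : 0 ≤ kballB s t l x :=
  add_nonneg (sum_nonneg fun _ _ => hl.nonneg _ _) (sum_nonneg fun _ _ => hl.nonneg _ _)

omit [Fintype V] in
lemma kball_le_B {l : V → V → ℝ} (hl : Met l) {e : E} {w u : V} (hj : Jn s t e w u) :
    l w u ≤ kballB s t l w := by
  have h0 : ∀ (S : Finset E), ∀ e ∈ S, 0 ≤ l (s e) (t e) := fun _ _ _ => hl.nonneg _ _
  rcases hj with ⟨rfl, rfl⟩ | ⟨rfl, rfl⟩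
  · exact le_add_of_le_of_nonneg (single_le_sum (h0 _) (mem_filter.2 ⟨mem_univ e, rfl⟩))
      (sum_nonneg (h0 _))
  · rw [hl.symm]
    exact le_add_of_nonneg_of_le (sum_nonneg (h0 _))
      (single_le_sum (h0 _) (mem_filter.2 ⟨mem_univ e, rfl⟩))

omit [Fintype V] in
lemma kball_dist {l : V → V → ℝ} (hl : Met l) {u v : V} {r : ℕ} (h : u ∈ kball s t univ {v} r) :
    l v u ≤ ∑ i ∈ range r, ∑ x ∈ kball s t univ {v} i, kballB s t l x := by
  induction r generalizing u with
  | zero =>
    rw [kball_zero, mem_singleton] at h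
    simp [h, hl.self]
  | succ r ih =>
    rw [kball_succ, mem_nb] at h
    rw [sum_range_succ]
    rcases h with h | ⟨e, -, w, hw, hj⟩
    · exact le_add_of_le_of_nonneg (ih h) (sum_nonneg fun x _ => kball_B_nonneg hl x)
    · exact (hl.tri v w u).trans (add_le_add (ih hw) ((kball_le_B hl hj).trans
        (single_le_sum (fun x _ => kball_B_nonneg hl x) hw)))

theorem kball_length (h : ∀ v, dg s t univ v = 3) {l : V → V → ℝ} (hl : Met l) (r : ℕ) :
    ∑ v, ∑ u ∈ kball s t univ {v} r, l v u ≤ 2 * 16 ^ r * Pl s t l := by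
  have hP := Pl_nonneg s t hl
  have hc : ∀ (i : ℕ) (v : V), (#(kball s t univ {v} i) : ℝ) ≤ 4 ^ i := fun i v => by
    have := card_kball h univ {v} i
    rw [card_singleton, mul_one] at this
    exact_mod_cast this
  have h1 : ∀ i : ℕ, ∑ v, ∑ x ∈ kball s t univ {v} i, kballB s t l x ≤ 4 ^ i * (2 * Pl s t l) :=
    fun i => by
      rw [sum_comm' (s' := fun x => kball s t univ {x} i) (t' := univ) fun v x =>
        ⟨fun hx => ⟨kball_symm _ hx.2, mem_univ _⟩, fun hx => ⟨mem_univ _, kball_symm _ hx.1⟩⟩,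
        ← kball_sumB, mul_sum]
      refine sum_le_sum fun x _ => ?_
      rw [sum_const, nsmul_eq_mul]
      exact mul_le_mul_of_nonneg_right (hc i x) (kball_B_nonneg hl x)
  have h2 : ∀ r : ℕ, ∑ i ∈ range r, (4 : ℝ) ^ i ≤ 4 ^ r := fun r => by
    induction r with
    | zero => simp
    | succ r ih =>
      rw [sum_range_succ, pow_succ]
      linarith [pow_pos (show (0 : ℝ) < 4 by norm_num) r]
  calc ∑ v, ∑ u ∈ kball s t univ {v} r, l v u
      ≤ ∑ v, 4 ^ r * ∑ i ∈ range r, ∑ x ∈ kball s t univ {v} i, kballB s t l x := by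
        refine sum_le_sum fun v _ => (sum_le_card_nsmul _ _ _ fun u hu => kball_dist hl hu).trans ?_
        rw [nsmul_eq_mul]
        exact mul_le_mul_of_nonneg_right (hc r v)
          (sum_nonneg fun i _ => sum_nonneg fun x _ => kball_B_nonneg hl x)
    _ ≤ 4 ^ r * ∑ i ∈ range r, 4 ^ i * (2 * Pl s t l) := by
        rw [← mul_sum, sum_comm]
        exact mul_le_mul_of_nonneg_left (sum_le_sum fun i _ => h1 i) (by positivity)
    _ ≤ 4 ^ r * (4 ^ r * (2 * Pl s t l)) := by
        rw [← sum_mul]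
        gcongr
        exact h2 r
    _ = _ := by
        rw [show (16 : ℝ) = 4 * 4 by norm_num, mul_pow]
        ring

lemma kball_evl (x y : V → ℝ) :
    3 * evl (Pw s t x) y = ∑ e, (x (t e) * y (s e) + x (s e) * y (t e)) := by
  rw [sum_add_distrib, ← kball_fib s fun e v => x (t e) * y v,
    ← kball_fib t fun e v => x (s e) * y v, ← sum_add_distrib, evl, mul_sum]
  refine sum_congr rfl fun v _ => ?_
  rw [← sum_mul, ← sum_mul, Pw]
  ring

theorem Pw_symm (n : ℕ) (x y : V → ℝ) : evl ((Pw s t)^[n] x) y = evl x ((Pw s t)^[n] y) := by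
  have h1 : ∀ x y : V → ℝ, evl (Pw s t x) y = evl x (Pw s t y) := fun x y => by
    have h2 : evl x (Pw s t y) = evl (Pw s t y) x := sum_congr rfl fun v _ => mul_comm _ _
    have h3 : 3 * evl (Pw s t x) y = 3 * evl (Pw s t y) x := by
      rw [kball_evl, kball_evl]
      exact sum_congr rfl fun e _ => by ring
    linarith
  induction n generalizing y with
  | zero => rfl
  | succ n ih => rw [iterate_succ_apply', h1, ih, iterate_succ_apply]

omit [Fintype V] in
theorem Pw_nonneg (n : ℕ) {x : V → ℝ} (hx : ∀ v, 0 ≤ x v) (v : V) : 0 ≤ (Pw s t)^[n] x v := by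
  induction n generalizing v with
  | zero => exact hx v
  | succ n ih =>
    rw [iterate_succ_apply']
    exact div_nonneg (add_nonneg (sum_nonneg fun e _ => ih _) (sum_nonneg fun e _ => ih _))
      (by norm_num)

omit [Fintype V] in
lemma kball_dg (h : ∀ v, dg s t univ v = 3) (v : V) (c : ℝ) :
    ∑ e with s e = v, c + ∑ e with t e = v, c = 3 * c := by
  rw [sum_const, sum_const, ← add_nsmul, show #{e | s e = v} + #{e | t e = v} = 3 from h v,
    nsmul_eq_mul, Nat.cast_ofNat]

lemma kball_deg (h : ∀ v, dg s t univ v = 3) (x : V → ℝ) :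
    ∑ e, (x (s e) + x (t e)) = 3 * ∑ v, x v := by
  rw [sum_add_distrib, ← kball_fib s fun _ v => x v, ← kball_fib t fun _ v => x v,
    ← sum_add_distrib, mul_sum]
  exact sum_congr rfl fun v _ => kball_dg h v (x v)

lemma kball_sum (h : ∀ v, dg s t univ v = 3) (x : V → ℝ) : ∑ v, Pw s t x v = ∑ v, x v := by
  have h1 := kball_evl (s := s) (t := t) x fun _ => 1
  have h2 := kball_deg h x
  simp only [evl, mul_one, sum_add_distrib] at h1 h2
  linarith

theorem Pw_sum (h : ∀ v, dg s t univ v = 3) (n : ℕ) (x : V → ℝ) :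
    ∑ v, (Pw s t)^[n] x v = ∑ v, x v := by
  induction n with
  | zero => rfl
  | succ n ih => rw [iterate_succ_apply', kball_sum h, ih]

theorem Pw_energy (h : ∀ v, dg s t univ v = 3) (n : ℕ) (y : V → ℝ) :
    En s t ((Pw s t)^[n] y) ≤ En s t y := by
  have h1 : ∀ y : V → ℝ, En s t (Pw s t y) ≤ En s t y := fun y => by
    obtain ⟨z, hz⟩ : ∃ z, z = Pw s t y := ⟨_, rfl⟩
    have f1 := kball_evl (s := s) (t := t) y z
    have f2 := kball_evl (s := s) (t := t) y y
    rw [← hz, evl, ← kball_deg h] at f1 f2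
    have f3 : 0 ≤ ∑ e, (y (s e) - z (s e) + (y (t e) - z (t e))) ^ 2 :=
      sum_nonneg fun _ _ => sq_nonneg _
    have f4 : En s t y = En s t z + ∑ e, (y (s e) - z (s e) + (y (t e) - z (t e))) ^ 2 +
        2 * (∑ e, (y (t e) * z (s e) + y (s e) * z (t e)) -
          ∑ e, (z (s e) * z (s e) + z (t e) * z (t e))) -
        2 * (∑ e, (y (t e) * y (s e) + y (s e) * y (t e)) -
          ∑ e, (z (s e) * y (s e) + z (t e) * y (t e))) := by
      simp only [En, mul_sum, ← sum_add_distrib, ← sum_sub_distrib]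
      exact sum_congr rfl fun e _ => by ring
    rw [← hz]
    linarith
  induction n with
  | zero => exact le_rfl
  | succ n ih =>
    rw [iterate_succ_apply']
    exact (h1 _).trans ih

theorem Pw_length (h : ∀ v, dg s t univ v = 3) {l : V → V → ℝ} (hl : Met l) (n : ℕ) :
    ∑ v, (Pw s t)^[n] (l v) v ≤ n * Pl s t l := by
  have hP := Pl_nonneg s t hl
  have h1 : ∃ g : V → ℝ, ∑ x, g x ≤ n * Pl s t l ∧
      ∀ v x, (Pw s t)^[n] (l v) x ≤ l v x + g x := by
    induction n with
    | zero => exact ⟨0, by simp, fun v x => by simp⟩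
    | succ n ih =>
      obtain ⟨g, h1, h2⟩ := ih
      refine ⟨fun x => kballB s t l x / 3 + Pw s t g x, ?_, fun v x => ?_⟩
      · rw [sum_add_distrib, ← sum_div, kball_sumB, kball_sum h]
        push_cast
        linarith
      · have a1 : ∑ e with s e = x, (Pw s t)^[n] (l v) (t e) ≤
            ∑ e with s e = x, (l v x + l (s e) (t e) + g (t e)) := sum_le_sum fun e he => by
          rw [← (mem_filter.1 he).2]
          linarith [h2 v (t e), hl.tri v (s e) (t e)]
        have a2 : ∑ e with t e = x, (Pw s t)^[n] (l v) (s e) ≤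
            ∑ e with t e = x, (l v x + l (s e) (t e) + g (s e)) := sum_le_sum fun e he => by
          rw [← (mem_filter.1 he).2]
          linarith [h2 v (s e), hl.tri v (t e) (s e), hl.symm (t e) (s e)]
        have a3 := kball_dg h x (l v x)
        rw [sum_add_distrib, sum_add_distrib] at a1 a2
        rw [iterate_succ_apply']
        unfold Pw kballB
        unfold Pw at a1 a2
        linarith
  obtain ⟨g, h1, h2⟩ := h1
  refine le_trans (sum_le_sum fun v _ => ?_) h1
  have := h2 v v
  rwa [hl.self, zero_add] at this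

end Pool.Agent.P.MP_e59a69_co
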