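import Pool.Agent.P.MP_e59a69_co.KDefs

/-! Classes of comparable mass that few edges leave. -/

open Finset Function

namespace Pool.Agent.P.MP_e59a69_co

lemma kbin_her (lam : ℕ) (hlam : 0 < lam) (x g : ℕ) :
    ∑ σ ∈ range lam, (x + g + σ) / lam = ∑ σ ∈ range lam, (x + σ) / lam + g := by
  induction g with
  | zero => rfl
  | succ g ih =>
    have h1 := sum_range_succ (fun σ => (x + g + σ) / lam) lam
    have h2 := sum_range_succ' (fun σ => (x + g + σ) / lam) lam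
    have h3 : ∑ σ ∈ range lam, (x + (g + 1) + σ) / lam =
        ∑ σ ∈ range lam, (x + g + (σ + 1)) / lam :=
      sum_congr rfl fun σ _ => by rw [show x + (g + 1) + σ = x + g + (σ + 1) by omega]
    rw [Nat.add_div_right _ hlam] at h1
    rw [add_zero] at h2
    omega

lemma kbin_cnt (lam : ℕ) (hlam : 0 < lam) (x g : ℕ) :
    #{σ ∈ range lam | (x + σ) / lam ≠ (x + g + σ) / lam} ≤ g := by
  have h1 := kbin_her lam hlam x g
  have h2 : ∑ σ ∈ range lam, ((x + σ) / lam +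
      if (x + σ) / lam ≠ (x + g + σ) / lam then 1 else 0) ≤ ∑ σ ∈ range lam, (x + g + σ) / lam :=
    sum_le_sum fun σ _ => by
      have : (x + σ) / lam ≤ (x + g + σ) / lam := Nat.div_le_div_right (by omega)
      split_ifs <;> omega
  rw [sum_add_distrib, ← card_filter] at h2
  omega

lemma kbin_edge (lam : ℕ) (hlam : 0 < lam) {x y : ℕ} (hxy : x ≤ y) {w p : ℝ}
    (h1 : w ≤ (1 / 2) ^ y) (h2 : (1 / 2) ^ (x + 1) < p) :
    w * #{σ ∈ range lam | (x + σ) / lam ≠ (y + σ) / lam} ≤ p := by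
  obtain ⟨g, rfl⟩ := Nat.exists_eq_add_of_le hxy
  have h3 : (#{σ ∈ range lam | (x + σ) / lam ≠ (x + g + σ) / lam} : ℝ) ≤ g := by
    exact_mod_cast kbin_cnt lam hlam x g
  have h4 : (2 : ℝ) * g ≤ 2 ^ g := by exact_mod_cast Nat.mul_le_pow (by norm_num : 2 ≠ 1) g
  have h5 : ((1 : ℝ) / 2) ^ g * 2 ^ g = 1 := by rw [← mul_pow]; norm_num
  have h6 : ((1 : ℝ) / 2) ^ g * g ≤ 1 / 2 := by
    have := mul_le_mul_of_nonneg_left h4 (by positivity : 0 ≤ ((1 : ℝ) / 2) ^ g)
    linarith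
  refine (mul_le_mul h1 h3 (Nat.cast_nonneg _) (by positivity)).trans (le_trans ?_ h2.le)
  rw [pow_add, pow_succ, mul_assoc]
  exact mul_le_mul_of_nonneg_left h6 (by positivity)

lemma kbin_ends {V E : Type} [Fintype V] [Fintype E] [DecidableEq V] (s : E → V) (a : V → ℝ) :
    ∑ e, a (s e) = ∑ v, (#{e | s e = v} : ℝ) * a v := by
  rw [← sum_fiberwise univ s]
  refine sum_congr rfl fun v _ => ?_
  rw [sum_congr rfl fun e he => congrArg a (mem_filter.1 he).2, sum_const, nsmul_eq_mul]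

theorem kbin {V E : Type} [Fintype V] [Fintype E] [DecidableEq V] (s t : E → V)
    (h : ∀ v, dg s t univ v = 3) (a : V → ℝ) (w : E → ℝ) (ha1 : ∑ v, a v ≤ 1)
    (ha : ∀ v, 0 ≤ a v) (hw : ∀ e, 0 ≤ w e ∧ w e ≤ a (s e) ∧ w e ≤ a (t e)) (lam : ℕ)
    (hlam : 0 < lam) :
    ∃ b : V → ℕ, (∀ u v, 0 < a u → 0 < a v → b u = b v → a u ≤ 2 ^ lam * a v) ∧
      ∑ e with b (s e) ≠ b (t e), w e ≤ 3 / lam := by
  have h0 : ∀ v, ∃ n : ℕ, 0 < a v → ((1 : ℝ) / 2) ^ (n + 1) < a v ∧ a v ≤ (1 / 2) ^ n := fun v => by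
    rcases (ha v).eq_or_lt with h1 | h1
    · exact ⟨0, fun h2 => absurd h1 h2.ne⟩
    · obtain ⟨n, hn⟩ := exists_nat_pow_near_of_lt_one h1
        ((single_le_sum (fun u _ => ha u) (mem_univ v)).trans ha1) (y := (1 : ℝ) / 2) (by norm_num)
        (by norm_num)
      exact ⟨n, fun _ => hn⟩
  choose lev hlev using h0
  have h1 : ∑ e, (a (s e) + a (t e)) ≤ 3 := by
    rw [sum_add_distrib, kbin_ends s, kbin_ends t, ← sum_add_distrib]
    refine le_trans (le_of_eq ?_) (show 3 * ∑ v, a v ≤ 3 by linarith)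
    rw [mul_sum]
    refine sum_congr rfl fun v _ => ?_
    rw [← add_mul, ← Nat.cast_add]
    exact congrArg (· * a v) (by exact_mod_cast h v)
  have h2 : ∀ e, w e * #{σ ∈ range lam | (lev (s e) + σ) / lam ≠ (lev (t e) + σ) / lam} ≤
      a (s e) + a (t e) := fun e => by
    obtain ⟨a0, a1, a2⟩ := hw e
    rcases a0.eq_or_lt with a3 | a3
    · rw [← a3, zero_mul]
      exact add_nonneg (ha _) (ha _)
    · have b1 := hlev _ (a3.trans_le a1)
      have b2 := hlev _ (a3.trans_le a2)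
      rcases le_total (lev (s e)) (lev (t e)) with b3 | b3
      · linarith [kbin_edge lam hlam b3 (a2.trans b2.2) b1.1, ha (t e)]
      · simp only [ne_comm (a := (lev (s e) + _) / lam)]
        linarith [kbin_edge lam hlam b3 (a1.trans b1.2) b2.1, ha (s e)]
  have hl : (0 : ℝ) < lam := by exact_mod_cast hlam
  obtain ⟨σ, -, hσ⟩ := exists_le_of_sum_le (nonempty_range_iff.2 hlam.ne')
    (f := fun σ => ∑ e with (lev (s e) + σ) / lam ≠ (lev (t e) + σ) / lam, w e)
    (g := fun _ => (3 : ℝ) / lam) (by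
      rw [sum_const, card_range, nsmul_eq_mul, mul_div_cancel₀ _ hl.ne']
      refine le_trans (le_of_eq ?_) ((sum_le_sum fun e _ => h2 e).trans h1)
      simp only [sum_filter]
      rw [sum_comm]
      refine sum_congr rfl fun e _ => ?_
      rw [← sum_filter, sum_const, nsmul_eq_mul, mul_comm])
  refine ⟨fun v => (lev v + σ) / lam, fun u v hu hv e => ?_, hσ⟩
  have c1 := Nat.lt_mul_div_succ (lev v + σ) hlam
  have c2 := Nat.mul_div_le (lev u + σ) lam
  rw [← show (lev u + σ) / lam = (lev v + σ) / lam from e, Nat.mul_succ] at c1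
  have c3 : ((1 : ℝ) / 2) ^ (lev u + lam) ≤ (1 / 2) ^ (lev v + 1) :=
    pow_le_pow_of_le_one (by norm_num) (by norm_num) (by omega)
  have c4 : (2 : ℝ) ^ lam * (1 / 2) ^ (lev u + lam) = (1 / 2) ^ lev u := by
    rw [pow_add, mul_left_comm, ← mul_pow]; norm_num
  refine (hlev u hu).2.trans (c4.symm.trans_le ?_)
  exact mul_le_mul_of_nonneg_left (c3.trans (hlev v hv).1.le) (by positivity)

end Pool.Agent.P.MP_e59a69_co
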