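import Pool.Agent.P.MP_e59a69_co.KBall

/-! Vertices with a small ball have small mass. -/

open Finset Function

namespace Pool.Agent.P.MP_e59a69_co

section
variable {V E : Type} [DecidableEq V] {s t : E → V}

lemma kcarve_fib (f : E → V) (B : Finset E) (Z : Finset V) :
    ∑ v ∈ Z, #{e ∈ B | f e = v} = #{e ∈ B | f e ∈ Z} := by
  rw [card_eq_sum_card_fiberwise (f := f) (s := {e ∈ B | f e ∈ Z}) (t := Z)
    fun e he => (mem_filter.1 (mem_coe.1 he)).2]
  refine sum_congr rfl fun v hv => ?_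
  rw [filter_filter]
  congr 1
  refine filter_congr fun e _ => ⟨fun h => ⟨h ▸ hv, h⟩, fun h => h.2⟩

lemma kcarve_nb_sub (B : Finset E) (X : Finset V) : X ⊆ nb s t B X := subset_union_left

lemma kcarve_edge_mono {A B : Finset E} (h : B ⊆ A) (X : Finset V) (r : ℕ) :
    kball s t B X r ⊆ kball s t A X r := by
  induction r with
  | zero => exact Subset.rfl
  | succ r ih =>
    intro v hv
    rw [kball_succ, mem_nb] at hv ⊢
    rcases hv with hv | ⟨e, he, u, hu, hj⟩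
    · exact Or.inl (ih hv)
    · exact Or.inr ⟨e, h he, u, ih hu, hj⟩

lemma kcarve_inside {B : Finset E} {R X : Finset V} (hB : ∀ e ∈ B, s e ∈ R ∧ t e ∈ R)
    (hX : X ⊆ R) (r : ℕ) : kball s t B X r ⊆ R := by
  induction r with
  | zero => exact hX
  | succ r ih =>
    intro v hv
    rw [kball_succ, mem_nb] at hv
    rcases hv with hv | ⟨e, he, u, -, ⟨-, h⟩ | ⟨-, h⟩⟩
    · exact ih hv
    · exact h ▸ (hB e he).2
    · exact h ▸ (hB e he).1

variable [Fintype E]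

lemma kcarve_deg (h : ∀ v, dg s t univ v = 3) (Z : Finset V) :
    #{e | s e ∈ Z} + #{e | t e ∈ Z} = 3 * #Z := by
  rw [← kcarve_fib, ← kcarve_fib, ← sum_add_distrib, mul_comm, ← smul_eq_mul, ← sum_const]
  exact sum_congr rfl fun v _ => h v

lemma kcarve_in (h : ∀ v, dg s t univ v = 3) (Z : Finset V) :
    2 * #{e | s e ∈ Z ∧ t e ∈ Z} + ct s t univ Z = 3 * #Z := by
  rw [← kcarve_deg h, ct, card_filter, card_filter, card_filter, card_filter, mul_sum,
    ← sum_add_distrib, ← sum_add_distrib]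
  refine sum_congr rfl fun e _ => ?_
  by_cases h1 : s e ∈ Z <;> by_cases h2 : t e ∈ Z <;> simp [h1, h2]

lemma kcarve_grow [DecidableEq E] (h : ∀ v, dg s t univ v = 3) (B : Finset E) (X : Finset V) :
    ct s t B X + 3 * #X ≤ 3 * #(nb s t B X) := by
  have h1 := kcarve_deg h (nb s t B X \ X)
  have h2 := card_sdiff_add_card_eq_card (kcarve_nb_sub (s := s) (t := t) B X)
  have h3 : ct s t B X ≤ #{e | s e ∈ nb s t B X \ X} + #{e | t e ∈ nb s t B X \ X} := by
    refine le_trans (card_le_card fun e he => ?_) (card_union_le _ _)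
    obtain ⟨he1, he2⟩ := mem_filter.1 he
    simp only [mem_union, mem_filter, mem_univ, true_and, mem_sdiff]
    by_cases k1 : s e ∈ X
    · exact Or.inr ⟨mem_nb.2 (Or.inr ⟨e, he1, _, k1, Or.inl ⟨rfl, rfl⟩⟩),
        fun k2 => he2 (iff_of_true k1 k2)⟩
    · have k2 : t e ∈ X := by
        by_contra k2
        exact he2 (iff_of_false k1 k2)
      exact Or.inl ⟨mem_nb.2 (Or.inr ⟨e, he1, _, k2, Or.inr ⟨rfl, rfl⟩⟩), k1⟩
  omega

lemma kcarve_radius [DecidableEq E] (h : ∀ v, dg s t univ v = 3) (B : Finset E) (v : V) {γ : ℝ}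
    (hγ : 0 ≤ γ) {ρ : ℕ} (hρ : (#(kball s t B {v} ρ) : ℝ) < (1 + γ / 3) ^ ρ) :
    ∃ i ≤ ρ, (ct s t B (kball s t B {v} i) : ℝ) ≤ γ * #(kball s t B {v} i) := by
  by_contra hc
  push Not at hc
  have key : ∀ i ≤ ρ, (1 + γ / 3) ^ i ≤ (#(kball s t B {v} i) : ℝ) := by
    intro i
    induction i with
    | zero => intro _; simp [kball_zero]
    | succ i ih =>
      intro hi
      have h1 := ih (by omega)
      have h2 := hc i (by omega)
      have h3 : (ct s t B (kball s t B {v} i) : ℝ) + 3 * #(kball s t B {v} i) ≤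
          3 * #(nb s t B (kball s t B {v} i)) := by exact_mod_cast kcarve_grow h B _
      rw [kball_succ, pow_succ]
      nlinarith [mul_le_mul_of_nonneg_right h1 (by positivity : 0 ≤ 1 + γ / 3)]
  exact absurd (key ρ le_rfl) (not_le.2 hρ)

lemma kcarve_forest [Fintype V] [DecidableEq E] {c : ℕ} (H : Cub s t c) {a : V → ℝ} {w : E → ℝ}
    (ha : ∀ v, 0 ≤ a v) (hw : ∀ e, 0 ≤ w e ∧ w e ≤ a (s e) ∧ w e ≤ a (t e)) (Q : Finset V)
    (hQ : #Q + 2 ≤ c) : ∑ e with s e ∈ Q ∧ t e ∈ Q, w e ≤ ∑ v ∈ Q, a v := by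
  induction Q using Finset.strongInduction with
  | H Q ih =>
    rcases Q.eq_empty_or_nonempty with rfl | hne
    · simp
    have h1 := kcarve_in H.deg Q
    have h2 := H.small Q hne hQ
    obtain ⟨B, hB⟩ : ∃ B : Finset E, B = univ.filter fun e => s e ∈ Q ∧ t e ∈ Q := ⟨_, rfl⟩
    have hB' : ∀ e, e ∈ B ↔ s e ∈ Q ∧ t e ∈ Q := fun e => by simp [hB]
    rw [← hB] at h1 ⊢
    obtain ⟨v, hv, hd⟩ : ∃ v ∈ Q, #{e ∈ B | s e = v} + #{e ∈ B | t e = v} < 2 := by
      refine exists_lt_of_sum_lt (f := fun v => #{e ∈ B | s e = v} + #{e ∈ B | t e = v})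
        (g := fun _ => 2) ?_
      rw [sum_add_distrib, kcarve_fib, kcarve_fib, sum_const, smul_eq_mul]
      have k1 := card_filter_le B fun e => s e ∈ Q
      have k2 := card_filter_le B fun e => t e ∈ Q
      omega
    have h3 := ih (Q.erase v) (erase_ssubset hv) (by
      have := card_erase_le (s := Q) (a := v)
      omega)
    have h4 : ∑ e ∈ B with s e = v ∨ t e = v, w e ≤ a v := by
      refine (sum_le_card_nsmul _ _ (a v) fun e he => ?_).trans ?_
      · rcases (mem_filter.1 he).2 with h | h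
        · exact h ▸ (hw e).2.1
        · exact h ▸ (hw e).2.2
      · have k : #{e ∈ B | s e = v ∨ t e = v} ≤ 1 := by
          rw [filter_or]
          have := card_union_le {e ∈ B | s e = v} {e ∈ B | t e = v}
          omega
        rw [nsmul_eq_mul]
        exact mul_le_of_le_one_left (ha v) (by exact_mod_cast k)
    rw [← sum_filter_add_sum_filter_not B fun e => s e = v ∨ t e = v, ← add_sum_erase Q a hv]
    refine add_le_add h4 (le_trans (le_of_eq (sum_congr ?_ fun _ _ => rfl)) h3)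
    ext e
    simp only [mem_filter, hB', mem_univ, true_and, mem_erase, not_or]
    tauto

lemma kcarve_piece [Fintype V] [DecidableEq E] {c : ℕ} (H : Cub s t c) {a : V → ℝ} {w : E → ℝ}
    {ε Λ : ℝ} (hΛ : 1 ≤ Λ) (ha : ∀ v, 0 ≤ a v)
    (hw : ∀ e, 0 ≤ w e ∧ w e ≤ a (s e) ∧ w e ≤ a (t e)) (B : Finset E) (Q : Finset V)
    (hne : Q.Nonempty) (hQ : #Q + 2 ≤ c) (hct : (ct s t B Q : ℝ) ≤ ε / (2 * Λ) * #Q)
    (hA : ∀ u ∈ Q, ∀ u' ∈ Q, a u ≤ Λ * a u') :
    ∑ e ∈ B with s e ∈ Q ∨ t e ∈ Q, w e ≤ (1 + ε / 2) * ∑ v ∈ Q, a v := by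
  have hΛ0 : 0 < Λ := by linarith
  have hq : (0 : ℝ) < #Q := by exact_mod_cast hne.card_pos
  have hS : 0 ≤ ∑ v ∈ Q, a v := sum_nonneg fun v _ => ha v
  have h1 : ∀ u ∈ Q, a u ≤ Λ * (∑ v ∈ Q, a v) / #Q := by
    intro u hu
    rw [le_div_iff₀ hq, mul_sum, mul_comm, ← nsmul_eq_mul]
    exact card_nsmul_le_sum _ _ _ (hA u hu)
  have h2 : ∑ e ∈ B with ¬ (s e ∈ Q ↔ t e ∈ Q), w e ≤ ε / 2 * ∑ v ∈ Q, a v := by
    refine (sum_le_card_nsmul _ _ (Λ * (∑ v ∈ Q, a v) / #Q) fun e he => ?_).trans ?_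
    · by_cases k1 : s e ∈ Q
      · exact (hw e).2.1.trans (h1 _ k1)
      · refine (hw e).2.2.trans (h1 _ ?_)
        by_contra k2
        exact (mem_filter.1 he).2 (iff_of_false k1 k2)
    · rw [nsmul_eq_mul]
      refine (mul_le_mul_of_nonneg_right hct (by positivity)).trans (le_of_eq ?_)
      field_simp
  have h3 := kcarve_forest H ha hw Q hQ
  have h4 : ∑ e ∈ B with s e ∈ Q ∨ t e ∈ Q, w e ≤
      ∑ e with s e ∈ Q ∧ t e ∈ Q, w e + ∑ e ∈ B with ¬ (s e ∈ Q ↔ t e ∈ Q), w e := by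
    rw [← sum_union]
    · refine sum_le_sum_of_subset_of_nonneg (fun e he => ?_) fun e _ _ => (hw e).1
      simp only [mem_filter, mem_union, mem_univ, true_and] at he ⊢
      tauto
    · rw [disjoint_left]
      intro e k1 k2
      simp only [mem_filter, mem_univ, true_and] at k1 k2
      tauto
  linarith

end

theorem kcarve {V E : Type} [Fintype V] [Fintype E] [DecidableEq V] [DecidableEq E]
    {s t : E → V} {c : ℕ}
    (H : Cub s t c) (a : V → ℝ) (w : E → ℝ) (ε Λ : ℝ) (hε : 0 < ε) (hΛ : 1 ≤ Λ)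
    (ha : ∀ v, 0 ≤ a v) (hw : ∀ e, 0 ≤ w e ∧ w e ≤ a (s e) ∧ w e ≤ a (t e))
    (hrich : ∀ S : Finset V, (1 + ε) * ∑ v ∈ S, a v ≤ ∑ e with s e ∈ S ∨ t e ∈ S, w e)
    (A : Finset E) (M ρ : ℕ) (hM : (M : ℝ) ≤ (1 + ε / (6 * Λ)) ^ ρ) (hc : M + 2 ≤ c)
    (hA : ∀ v, 0 < a v → ∀ u ∈ kball s t A {v} ρ, ∀ u' ∈ kball s t A {v} ρ, a u ≤ Λ * a u') :
    ∃ S : Finset V, ε / 2 * ∑ v ∈ S, a v ≤ ∑ e ∈ Aᶜ, w e ∧
      ∀ v, v ∉ S → 0 < a v → M ≤ #(kball s t A {v} ρ) := by
  have hΛ0 : 0 < Λ := by linarith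
  have key : ∀ R : Finset V, ∃ S ⊆ R, (∀ v ∈ R, 0 < a v → #(kball s t A {v} ρ) < M → v ∈ S) ∧
      ∑ e ∈ A with (s e ∈ R ∧ t e ∈ R) ∧ (s e ∈ S ∨ t e ∈ S), w e ≤
        (1 + ε / 2) * ∑ v ∈ S, a v := by
    intro R
    induction R using Finset.strongInduction with
    | H R ih =>
      by_cases hp : ∃ v ∈ R, 0 < a v ∧ #(kball s t A {v} ρ) < M
      swap
      · exact ⟨∅, empty_subset _, fun v h1 h2 h3 => absurd ⟨v, h1, h2, h3⟩ hp, by simp⟩
      obtain ⟨v, hv, hav, hb⟩ := hp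
      obtain ⟨B, hB⟩ : ∃ B : Finset E, B = {e ∈ A | s e ∈ R ∧ t e ∈ R} := ⟨_, rfl⟩
      have hB' : ∀ e, e ∈ B ↔ e ∈ A ∧ s e ∈ R ∧ t e ∈ R := fun e => by simp [hB]
      have hBA : B ⊆ A := fun e he => ((hB' e).1 he).1
      obtain ⟨i, hi, hct⟩ := kcarve_radius H.deg B v (γ := ε / (2 * Λ)) (ρ := ρ) (by positivity) (by
        have e : ε / (2 * Λ) / 3 = ε / (6 * Λ) := by
          field_simp
          norm_num
        rw [e]
        refine lt_of_lt_of_le ?_ hM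
        exact_mod_cast (card_le_card (kcarve_edge_mono hBA _ _)).trans_lt hb)
      obtain ⟨Q, hQ⟩ : ∃ Q, Q = kball s t B {v} i := ⟨_, rfl⟩
      rw [← hQ] at hct
      have hQA : Q ⊆ kball s t A {v} ρ :=
        hQ ▸ (kcarve_edge_mono hBA _ _).trans (kball_mono A Subset.rfl hi)
      have hQR : Q ⊆ R :=
        hQ ▸ kcarve_inside (fun e he => ((hB' e).1 he).2) (singleton_subset_iff.2 hv) i
      have hvQ : v ∈ Q :=
        hQ ▸ kball_mono B Subset.rfl (Nat.zero_le i) (mem_singleton_self v)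
      have h1 := kcarve_piece H hΛ ha hw B Q ⟨v, hvQ⟩ (by
        have := card_le_card hQA
        omega) hct fun u hu u' hu' => hA v hav u (hQA hu) u' (hQA hu')
      obtain ⟨S, hS, h2, h3⟩ := ih (R \ Q) (sdiff_ssubset hQR ⟨v, hvQ⟩)
      have hd : Disjoint Q S := disjoint_left.2 fun u k1 k2 => (mem_sdiff.1 (hS k2)).2 k1
      refine ⟨Q ∪ S, union_subset hQR (hS.trans sdiff_subset), fun u k1 k2 k3 => ?_, ?_⟩
      · by_cases k : u ∈ Q
        · exact mem_union_left _ k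
        · exact mem_union_right _ (h2 u (mem_sdiff.2 ⟨k1, k⟩) k2 k3)
      · rw [sum_union hd, mul_add]
        refine le_trans ?_ (add_le_add h1 h3)
        rw [← sum_union]
        · refine sum_le_sum_of_subset_of_nonneg (fun e he => ?_) fun e _ _ => (hw e).1
          simp only [mem_filter, mem_union, hB', mem_sdiff] at he ⊢
          tauto
        · rw [disjoint_left]
          intro e k1 k2
          simp only [mem_filter, mem_sdiff] at k1 k2
          tauto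
  obtain ⟨S, -, h1, h2⟩ := key univ
  refine ⟨S, ?_, fun v k1 k2 => not_lt.1 fun k3 => k1 (h1 v (mem_univ v) k2 k3)⟩
  have h3 : ∑ e with s e ∈ S ∨ t e ∈ S, w e ≤
      ∑ e ∈ A with (s e ∈ univ ∧ t e ∈ univ) ∧ (s e ∈ S ∨ t e ∈ S), w e + ∑ e ∈ Aᶜ, w e := by
    rw [← sum_union]
    · refine sum_le_sum_of_subset_of_nonneg (fun e he => ?_) fun e _ _ => (hw e).1
      simp only [mem_filter, mem_union, mem_univ, true_and, mem_compl] at he ⊢
      tauto
    · rw [disjoint_left]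
      intro e k1 k2
      exact mem_compl.1 k2 (mem_filter.1 k1).1
  linarith [hrich S]

end Pool.Agent.P.MP_e59a69_co
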