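import Pool.Agent.P.MP_e59a69_co.KFlat

/-! Many separated points at one scale. -/

open Finset Function

namespace Pool.Agent.P.MP_e59a69_co

section aux

variable {V Φ : Type} [Fintype Φ] {l : V → V → ℝ}

theorem kscale_one {z : Φ → V → ℝ} (hz : ∀ x x', ∑ f, (z f x - z f x') ^ 2 ≤ l x x') (f : Φ)
    (x x' : V) {b : ℝ} (hb : 0 ≤ b) (h : l x x' ≤ b ^ 2) (t : ℝ) :
    t * (z f x - z f x') ≤ |t| * b := by
  have h1 : (z f x - z f x') ^ 2 ≤ l x x' :=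
    (single_le_sum (f := fun f => (z f x - z f x') ^ 2) (fun _ _ => sq_nonneg _)
      (mem_univ f)).trans (hz x x')
  refine (le_abs_self _).trans ?_
  rw [abs_mul]
  exact mul_le_mul_of_nonneg_left (abs_le_of_sq_le_sq (h1.trans h) hb) (abs_nonneg _)

theorem kscale_light [Fintype V] {z : Φ → V → ℝ} (hz : ∀ x x', ∑ f, (z f x - z f x') ^ 2 ≤ l x x')
    (χ : Φ → V → ℝ) (n : V → V) (Ψ : Finset Φ) (T : Finset V) {ν B : ℝ}
    (h2 : ∀ f, ∑ x, χ f x ^ 2 ≤ ν) (hT : ∀ x ∈ T, l x (n x) ≤ B) :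
    (∑ f ∈ Ψ, ∑ x ∈ T, χ f x * (z f x - z f (n x))) ^ 2 ≤ (#Ψ * ν) * (#T * B) := by
  rw [← sum_product']
  refine (sum_mul_sq_le_sq_mul_sq _ _ _).trans (mul_le_mul ?_ ?_ (by positivity) ?_)
  · rw [sum_product' (f := fun f x => χ f x ^ 2), ← nsmul_eq_mul]
    exact sum_le_card_nsmul _ _ _ fun f _ =>
      (sum_le_sum_of_subset_of_nonneg (subset_univ _) fun _ _ _ => sq_nonneg _).trans (h2 f)
  · rw [sum_product' (f := fun f x => (z f x - z f (n x)) ^ 2), sum_comm, ← nsmul_eq_mul]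
    exact sum_le_card_nsmul _ _ _ fun x hx =>
      (sum_le_sum_of_subset_of_nonneg (subset_univ _) fun _ _ _ => sq_nonneg _).trans
        ((hz _ _).trans (hT x hx))
  · rw [← nsmul_eq_mul, ← sum_const]
    exact sum_nonneg fun f _ => (sum_nonneg fun _ _ => sq_nonneg _).trans (h2 f)

theorem kscale_trace [Fintype V] {z : Φ → V → ℝ} (hz : ∀ x x', ∑ f, (z f x - z f x') ^ 2 ≤ l x x')
    (χ : Φ → V → ℝ) (n : V → V) (c : Φ → V) (Ψ : Finset Φ) (S : Finset V) {B : ℝ} (hB : 0 ≤ B)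
    (h1 : ∀ f, ∑ x, |χ f x| ≤ 2) (hc : ∀ f ∈ Ψ, c f ∈ S)
    (hn : ∀ f ∈ Ψ, ∀ x, χ f x = 0 ∨ (n x ∈ S ∧ l (n x) (c f) ≤ B)) :
    (∑ f ∈ Ψ, ∑ x, χ f x * (z f (n x) - z f (c f))) ^ 2 ≤ #S * (#Ψ * (4 * B)) := by
  have h := ktrace Ψ S (fun y g => z g y)
    (fun f => ∑ x, χ f x • ((fun g => z g (n x)) - fun g => z g (c f))) fun f hf =>
      Submodule.sum_mem _ fun x _ => by
        rcases hn f hf x with h | h
        · rw [h, zero_smul]; exact zero_mem _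
        · exact Submodule.smul_mem _ _ (sub_mem (Submodule.subset_span ⟨n x, h.1, rfl⟩)
            (Submodule.subset_span ⟨c f, hc f hf, rfl⟩))
  simp only [Finset.sum_apply, Pi.smul_apply, Pi.sub_apply, smul_eq_mul] at h
  refine h.trans (mul_le_mul_of_nonneg_left ?_ (Nat.cast_nonneg _))
  rw [← nsmul_eq_mul]
  refine sum_le_card_nsmul _ _ _ fun f hf => ?_
  have e1 : ∀ g, (∑ x, χ f x * (z g (n x) - z g (c f))) ^ 2 ≤
      2 * ∑ x, |χ f x| * (z g (n x) - z g (c f)) ^ 2 := fun g =>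
    (sum_sq_le_sum_mul_sum_of_sq_le_mul univ (f := fun x => |χ f x|)
      (g := fun x => |χ f x| * (z g (n x) - z g (c f)) ^ 2) (fun _ _ => abs_nonneg _)
      (fun _ _ => by positivity) fun x _ => by
        rw [← mul_assoc, ← sq, sq_abs, mul_pow]).trans
      (mul_le_mul_of_nonneg_right (h1 f) (sum_nonneg fun _ _ => by positivity))
  refine (sum_le_sum fun g _ => e1 g).trans ?_
  rw [← mul_sum, sum_comm]
  have e2 : ∑ x, ∑ g, |χ f x| * (z g (n x) - z g (c f)) ^ 2 ≤ ∑ x, |χ f x| * B :=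
    sum_le_sum fun x _ => by
      rw [← mul_sum]
      rcases hn f hf x with h | h
      · rw [h, abs_zero, zero_mul, zero_mul]
      · exact mul_le_mul_of_nonneg_left ((hz _ _).trans h.2) (abs_nonneg _)
  rw [← sum_mul] at e2
  have e3 := mul_le_mul_of_nonneg_right (h1 f) hB
  linarith

theorem kscale_ineq [Fintype V] (hl : Met l) (χ : Φ → V → ℝ) (o : Φ → V) (z : Φ → V → ℝ)
    (hz : ∀ x x', ∑ f, (z f x - z f x') ^ 2 ≤ l x x') (ν θ R s Q : ℝ) (hθ : 0 < θ)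
    (hR : 1 ≤ R) (hs : 0 < s) (hQ : Q * θ ^ 2 = 64 * R ^ 2) (hRQ : 2 * R ≤ Q) (Ψ : Finset Φ)
    (h0 : ∀ f, ∑ x, χ f x = 0) (h1 : ∀ f, ∑ x, |χ f x| ≤ 2) (h2 : ∀ f, ∑ x, χ f x ^ 2 ≤ ν)
    (hg : ∀ f ∈ Ψ, 7 / 10 * θ * s ≤ evl (χ f) (z f))
    (hc : ∀ f ∈ Ψ, ∑ x, |χ f x| * l (o f) x ≤ R * s ^ 2) (c : Φ → V) (n : V → V)
    (S T : Finset V) (hcS : ∀ f ∈ Ψ, c f ∈ S ∧ l (o f) (c f) ≤ 2 * R * s ^ 2)
    (hn : ∀ f ∈ Ψ, ∀ x, l (o f) x ≤ Q * s ^ 2 → n x ∈ S ∧ l x (n x) ≤ 2 * Q * s ^ 2 ∧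
      (x ∉ T → l x (n x) ≤ (θ * s / 8) ^ 2))
    (hT : ∀ x ∈ T, l x (n x) ≤ 2 * Q * s ^ 2) (hν : 0 ≤ ν) :
    θ ^ 2 * #Ψ ≤ Q * (512 * #S + 64 * ν * #T) := by
  classical
  have hQ0 : 0 ≤ Q := by linarith
  have hs2 : 0 < s ^ 2 := by positivity
  have hRQ' : 2 * R * s ^ 2 ≤ Q * s ^ 2 := mul_le_mul_of_nonneg_right hRQ hs2.le
  obtain ⟨χ', hχ'⟩ : ∃ χ' : Φ → V → ℝ, ∀ f x,
      χ' f x = if l (o f) x ≤ Q * s ^ 2 then χ f x else 0 := ⟨_, fun _ _ => rfl⟩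
  have habs : ∀ f x, |χ' f x| ≤ |χ f x| := fun f x => by
    rw [hχ']
    split_ifs
    · exact le_rfl
    · rw [abs_zero]; exact abs_nonneg _
  obtain ⟨κ, hκ⟩ : ∃ κ : ℝ, κ = 9 / 50 * θ / (R * s) := ⟨_, rfl⟩
  have hκ0 : 0 ≤ κ := by rw [hκ]; positivity
  have hκ1 : κ * (R * s ^ 2) = 9 / 50 * θ * s := by rw [hκ]; field_simp
  have hκ2 : κ ^ 2 * (Q * s ^ 2) = 64 * (9 / 50) ^ 2 := by
    rw [hκ]
    field_simp
    linarith
  have hpt : ∀ f ∈ Ψ, ∀ x, χ f x * (z f x - z f (c f)) ≤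
      κ * (|χ f x| * l (o f) x) + θ * s / 8 * |χ f x| +
        (if x ∈ T then χ' f x * (z f x - z f (n x)) else 0) +
        χ' f x * (z f (n x) - z f (c f)) := by
    intro f hf x
    have hd := hl.nonneg (o f) x
    have a1 : 0 ≤ κ * (|χ f x| * l (o f) x) := by positivity
    have a2 : 0 ≤ θ * s / 8 * |χ f x| := by positivity
    rw [hχ']
    by_cases hx : l (o f) x ≤ Q * s ^ 2
    · rw [if_pos hx]
      by_cases hxT : x ∈ T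
      · rw [if_pos hxT]
        linarith
      · rw [if_neg hxT]
        have := kscale_one hz f x (n x) (by positivity) ((hn f hf x hx).2.2 hxT) (χ f x)
        linarith
    · rw [if_neg hx, zero_mul, zero_mul, ite_self]
      have b1 : l x (c f) ≤ 2 * l (o f) x := by
        have := hl.tri x (o f) (c f)
        rw [hl.symm x (o f)] at this
        linarith [(hcS f hf).2]
      have b2 : 2 ≤ κ ^ 2 * l (o f) x := by
        have := mul_le_mul_of_nonneg_left (not_le.1 hx).le (sq_nonneg κ)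
        rw [hκ2] at this
        linarith
      have b3 : l x (c f) ≤ (κ * l (o f) x) ^ 2 := by
        have := mul_le_mul_of_nonneg_right b2 hd
        linarith
      have := kscale_one hz f x (c f) (by positivity) b3 (χ f x)
      linarith
  have hsum : ∀ f ∈ Ψ, θ * s / 4 ≤ ∑ x ∈ T, χ' f x * (z f x - z f (n x)) +
      ∑ x, χ' f x * (z f (n x) - z f (c f)) := by
    intro f hf
    have e1 : evl (χ f) (z f) = ∑ x, χ f x * (z f x - z f (c f)) := by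
      simp only [mul_sub, sum_sub_distrib, ← sum_mul, h0, zero_mul, sub_zero, evl]
    have e2 := sum_le_sum fun x (_ : x ∈ univ) => hpt f hf x
    rw [← e1, sum_add_distrib, sum_add_distrib, sum_add_distrib, ← mul_sum, ← mul_sum,
      sum_ite_mem, univ_inter] at e2
    have e3 := mul_le_mul_of_nonneg_left (hc f hf) hκ0
    have e4 := mul_le_mul_of_nonneg_left (h1 f) (show 0 ≤ θ * s / 8 by positivity)
    have e5 := hg f hf
    have e6 : 0 ≤ θ * s := by positivity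
    linarith
  have hp := kscale_light hz χ' n Ψ T (ν := ν) (B := 2 * Q * s ^ 2)
    (fun f => (sum_le_sum fun x _ => sq_le_sq.2 (habs f x)).trans (h2 f)) hT
  have hq := kscale_trace hz χ' n c Ψ S (B := 4 * Q * s ^ 2) (by positivity)
    (fun f => (sum_le_sum fun x _ => habs f x).trans (h1 f)) (fun f hf => (hcS f hf).1)
    fun f hf x => by
      by_cases hx : l (o f) x ≤ Q * s ^ 2
      · obtain ⟨b1, b2, -⟩ := hn f hf x hx
        refine Or.inr ⟨b1, ?_⟩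
        have t1 := hl.tri (n x) x (c f)
        have t2 := hl.tri x (o f) (c f)
        rw [hl.symm (n x) x] at t1
        rw [hl.symm x (o f)] at t2
        linarith [(hcS f hf).2]
      · exact Or.inl (by rw [hχ', if_neg hx])
  have hm := card_nsmul_le_sum _ _ _ hsum
  rw [sum_add_distrib, nsmul_eq_mul] at hm
  generalize (∑ f ∈ Ψ, ∑ x ∈ T, χ' f x * (z f x - z f (n x))) = p at hp hm
  generalize (∑ f ∈ Ψ, ∑ x, χ' f x * (z f (n x) - z f (c f))) = q at hq hm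
  rcases (Nat.cast_nonneg (α := ℝ) #Ψ).eq_or_lt with h | h
  · rw [← h, mul_zero]
    positivity
  have k1 : (#Ψ * (θ * s / 4)) ^ 2 ≤ (p + q) ^ 2 := pow_le_pow_left₀ (by positivity) hm 2
  have k2 : (p + q) ^ 2 ≤ 2 * p ^ 2 + 2 * q ^ 2 := by nlinarith [sq_nonneg (p - q)]
  refine le_of_mul_le_mul_left ?_ (show 0 < #Ψ * s ^ 2 / 16 by positivity)
  linarith

end aux

open Classical in
theorem kscale {V Φ : Type} [Fintype V] [Fintype Φ] [DecidableEq V] {l : V → V → ℝ}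
    (hl : Met l) (χ : Φ → V → ℝ) (o : Φ → V) (z : Φ → V → ℝ)
    (hz : ∀ x x', ∑ f, (z f x - z f x') ^ 2 ≤ l x x') (ν θ R a : ℝ) (k0 : ℕ) (hθ : 0 < θ)
    (hθ1 : θ ≤ 1) (hR : 1 ≤ R) (ha : 0 < a) (hν : 0 ≤ ν) (Ψ : Finset Φ)
    (h0 : ∀ f, ∑ x, χ f x = 0) (h1 : ∀ f, ∑ x, |χ f x| ≤ 2) (h2 : ∀ f, ∑ x, χ f x ^ 2 ≤ ν)
    (hg : ∀ f ∈ Ψ, 7 / 10 * θ * √a ≤ evl (χ f) (z f))
    (hc : ∀ f ∈ Ψ, ∑ x, |χ f x| * l (o f) x ≤ R * a) :
    ∃ C H L : Finset V, C ⊆ Ψ.image o ∧ (∀ c ∈ C, ∀ c' ∈ C, c ≠ c' → 2 * R * a < l c c') ∧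
      (∀ x ∈ H, k0 < #{v | l x v ≤ θ ^ 2 / 256 * a}) ∧
      (∀ x ∈ H, ∀ y ∈ H, x ≠ y → 4 * (θ ^ 2 / 256 * a) < l x y) ∧
      (∀ x ∈ L, ∀ y ∈ L, x ≠ y → θ ^ 2 / 256 * a < l x y) ∧
      (∀ x ∈ H ∪ L, ∃ c ∈ C, l x c ≤ 128 * R ^ 2 / θ ^ 2 * a) ∧
      θ ^ 2 * #Ψ ≤ 64 * R ^ 2 / θ ^ 2 * (512 * (#H + #C) + 64 * ν * k0 * #L) := by
  obtain ⟨s, hs, rfl⟩ : ∃ s : ℝ, 0 < s ∧ a = s ^ 2 :=
    ⟨√a, Real.sqrt_pos.2 ha, (Real.sq_sqrt ha.le).symm⟩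
  rw [Real.sqrt_sq hs.le] at hg
  obtain ⟨Q, hQ⟩ : ∃ Q : ℝ, Q = 64 * R ^ 2 / θ ^ 2 := ⟨_, rfl⟩
  have hQ1 : Q * θ ^ 2 = 64 * R ^ 2 := by rw [hQ]; field_simp
  have hθ2 : θ ^ 2 ≤ 1 := pow_le_one₀ hθ.le hθ1
  have hQ0 : 0 ≤ Q := by rw [hQ]; positivity
  have hRQ : 64 * R ≤ Q := by
    have a1 := mul_le_of_le_one_right hQ0 hθ2
    have a2 : R * 1 ≤ R * R := mul_le_mul_of_nonneg_left hR (by linarith)
    linarith
  have hQ2 : 128 * R ^ 2 / θ ^ 2 = 2 * Q := by rw [hQ]; ring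
  rw [hQ2, ← hQ]
  obtain ⟨C, hC1, hC2, hC3⟩ := exists_net hl (Ψ.image o) (r := 2 * R * s ^ 2) (by positivity)
  obtain ⟨U, hU⟩ : ∃ U : Finset V, ∀ x, x ∈ U ↔ ∃ f ∈ Ψ, l (o f) x ≤ Q * s ^ 2 :=
    ⟨univ.filter fun x => ∃ f ∈ Ψ, l (o f) x ≤ Q * s ^ 2, fun x => by simp⟩
  have gen : ∀ p : V → Prop, ∃ T : Finset V, ∀ x, x ∈ T ↔ x ∈ U ∧ p x := fun p =>
    ⟨U.filter p, fun x => mem_filter⟩
  obtain ⟨T, hT⟩ := gen fun x => #{v | l x v ≤ θ ^ 2 / 256 * s ^ 2} ≤ k0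
  obtain ⟨H, hH1, hH2, hH3⟩ := exists_net hl (U \ T) (r := 4 * (θ ^ 2 / 256 * s ^ 2))
    (by positivity)
  obtain ⟨L, hL1, hL2, hL3⟩ := exists_net hl T (r := θ ^ 2 / 256 * s ^ 2) (by positivity)
  have hcf : ∀ f, ∃ y, f ∈ Ψ → y ∈ C ∧ l (o f) y ≤ 2 * R * s ^ 2 := fun f => by
    by_cases hf : f ∈ Ψ
    · obtain ⟨y, hy⟩ := hC3 _ (mem_image_of_mem o hf)
      exact ⟨y, fun _ => hy⟩
    · exact ⟨o f, fun h => absurd h hf⟩
  choose c hc' using hcf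
  have hRs : 64 * R * s ^ 2 ≤ Q * s ^ 2 := mul_le_mul_of_nonneg_right hRQ ha.le
  have hR1 : s ^ 2 ≤ R * s ^ 2 := le_mul_of_one_le_left ha.le hR
  have hθs : θ ^ 2 * s ^ 2 ≤ s ^ 2 := mul_le_of_le_one_left ha.le hθ2
  have hUC : ∀ x ∈ U, ∃ y ∈ C, l x y ≤ 2 * Q * s ^ 2 := fun x hx => by
    obtain ⟨f, hf, hx⟩ := (hU x).1 hx
    refine ⟨c f, (hc' f hf).1, ?_⟩
    have := hl.tri x (o f) (c f)
    rw [hl.symm x (o f)] at this
    linarith [(hc' f hf).2]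
  have hnx : ∀ x, ∃ y, x ∈ U → y ∈ H ∪ C ∧ l x y ≤ 2 * Q * s ^ 2 ∧
      (x ∉ T → l x y ≤ (θ * s / 8) ^ 2) := fun x => by
    by_cases hx : x ∈ U
    · by_cases hxT : x ∈ T
      · obtain ⟨y, hy, hy'⟩ := hUC x hx
        exact ⟨y, fun _ => ⟨mem_union_right _ hy, hy', fun h => absurd hxT h⟩⟩
      · obtain ⟨y, hy, hy'⟩ := hH3 x (mem_sdiff.2 ⟨hx, hxT⟩)
        exact ⟨y, fun _ => ⟨mem_union_left _ hy, by linarith, fun _ => by linarith⟩⟩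
    · exact ⟨x, fun h => absurd h hx⟩
  choose n hn using hnx
  have key := kscale_ineq hl χ o z hz ν θ R s Q hθ hR hs hQ1 (by linarith) Ψ h0 h1 h2 hg hc c n
    (H ∪ C) T (fun f hf => ⟨mem_union_right _ (hc' f hf).1, (hc' f hf).2⟩)
    (fun f hf x hx => hn x ((hU x).2 ⟨f, hf, hx⟩)) (fun x hx => (hn x ((hT x).1 hx).1).2.1) hν
  have hcard : #T ≤ #L * k0 := by
    refine le_trans (card_le_card fun u hu => ?_) (card_biUnion_le_card_mul L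
      (fun x => {v | l x v ≤ θ ^ 2 / 256 * s ^ 2}) k0 fun x hx => ((hT x).1 (hL1 hx)).2)
    obtain ⟨x, hx, hx'⟩ := hL3 u hu
    exact mem_biUnion.2 ⟨x, hx, mem_filter.2 ⟨mem_univ _, by rwa [hl.symm]⟩⟩
  refine ⟨C, H, L, hC1, hC2, fun x hx => ?_, hH2, hL2, fun x hx => hUC x ?_, key.trans ?_⟩
  · obtain ⟨a1, a2⟩ := mem_sdiff.1 (hH1 hx)
    exact not_le.1 fun h => a2 ((hT x).2 ⟨a1, h⟩)
  · rcases mem_union.1 hx with hx | hx
    · exact (mem_sdiff.1 (hH1 hx)).1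
    · exact ((hT x).1 (hL1 hx)).1
  · have c1 : (#(H ∪ C) : ℝ) ≤ #H + #C := by exact_mod_cast card_union_le H C
    have c2 : (#T : ℝ) ≤ #L * k0 := by exact_mod_cast hcard
    have c3 := mul_le_mul_of_nonneg_left c2 hν
    refine mul_le_mul_of_nonneg_left ?_ hQ0
    linarith

end Pool.Agent.P.MP_e59a69_co
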