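import Pool.Agent.P.MP_e59a69_co.KHull
import Pool.Agent.P.MP_e59a69_co.KScale

/-! The nice items with a large potential drop have small mass. -/

open Finset Function

namespace Pool.Agent.P.MP_e59a69_co

lemma kcore_split (J n : ℕ) (g : ℕ → ℝ) :
    ∑ j ∈ range (J * n), g j = ∑ i ∈ range J, ∑ k ∈ range n, g (i + J * k) := by
  induction n with
  | zero => simp
  | succ n ih =>
    rw [Nat.mul_succ, sum_range_add, ih, ← sum_add_distrib]
    exact sum_congr rfl fun i _ => by rw [sum_range_succ, add_comm (J * n)]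

lemma kcore_geo (x : ℝ) (n : ℕ) :
    ∑ j ∈ range n, (if (1 / 2 : ℝ) ^ j ≤ x then (1 / 2 : ℝ) ^ j else 0) ≤
      max 0 (2 * x - 2 * (1 / 2) ^ n) := by
  induction n with
  | zero => simp
  | succ n ih =>
    have hp : (0 : ℝ) < (1 / 2) ^ n := by positivity
    rw [sum_range_succ, pow_succ]
    split_ifs with h
    · rw [max_eq_right (by linarith)] at ih
      exact le_max_of_le_right (by linarith)
    · rw [max_eq_left (by linarith [not_le.1 h])] at ih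
      exact le_max_of_le_left (by linarith)

/-- the anchors of all scales together have small mass -/
lemma kcore_anchor {V Φ : Type} [Fintype V] [Fintype Φ] [DecidableEq V] {l : V → V → ℝ}
    (hl : Met l) (χ : Φ → V → ℝ) (o : Φ → V) (a : Φ → ℝ) (R Λ : ℝ) (M n : ℕ) (hR : 1 ≤ R)
    (hΛ : 1 ≤ Λ) (ha : ∀ f, 0 ≤ a f) (ha1 : ∑ f, a f ≤ 1) (C : ℕ → Finset V)
    (hC : ∀ j, ∀ c ∈ C j, ∃ f, o f = c ∧ (1 / 2) ^ (j + 1) < a f ∧ a f ≤ (1 / 2) ^ j ∧
      Nice χ o R Λ M a l f)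
    (hsep : ∀ j, ∀ c ∈ C j, ∀ c' ∈ C j, c ≠ c' → 2 * R * (1 / 2) ^ j < l c c') :
    M * ∑ j ∈ range n, (1 / 2 : ℝ) ^ j * #(C j) ≤ 4 * Λ := by
  classical
  have h1 : ∀ j, M * #(C j) ≤ #{g | (1 / 2 : ℝ) ^ j ≤ 2 * Λ * a g} := by
    intro j
    let S : V → Finset Φ := fun c =>
      {g | (1 / 2 : ℝ) ^ j ≤ 2 * Λ * a g ∧ l c (o g) ≤ R * (1 / 2) ^ j}
    have hd : ((C j : Finset V) : Set V).PairwiseDisjoint S := by
      intro c hc c' hc' hne
      refine disjoint_left.2 fun g hg hg' => ?_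
      have e1 := (mem_filter.1 hg).2.2
      have e2 := (mem_filter.1 hg').2.2
      have e3 := hsep j c hc c' hc' hne
      have e4 := hl.tri c (o g) c'
      rw [hl.symm (o g)] at e4
      linarith
    calc M * #(C j) = ∑ _c ∈ C j, M := by rw [sum_const, smul_eq_mul, mul_comm]
      _ ≤ ∑ c ∈ C j, #(S c) := by
        refine sum_le_sum fun c hc => ?_
        obtain ⟨f, rfl, e1, e2, e3⟩ := hC j c hc
        refine e3.2.trans (card_le_card fun g hg => ?_)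
        obtain ⟨g1, g2⟩ := (mem_filter.1 hg).2
        rw [pow_succ] at e1
        exact mem_filter.2 ⟨mem_univ _, by linarith,
          g2.trans (mul_le_mul_of_nonneg_left e2 (by linarith))⟩
      _ = #((C j).biUnion S) := (card_biUnion hd).symm
      _ ≤ _ := card_le_card fun g hg => by
        obtain ⟨c, _, hg⟩ := mem_biUnion.1 hg
        exact mem_filter.2 ⟨mem_univ _, (mem_filter.1 hg).2.1⟩
  calc _ = ∑ j ∈ range n, (1 / 2 : ℝ) ^ j * ((M * #(C j) : ℕ) : ℝ) := by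
        rw [mul_sum]
        exact sum_congr rfl fun j _ => by push_cast; ring
    _ ≤ ∑ j ∈ range n, ∑ g, (if (1 / 2 : ℝ) ^ j ≤ 2 * Λ * a g then (1 / 2 : ℝ) ^ j else 0) := by
        refine sum_le_sum fun j _ => ?_
        rw [← sum_filter, sum_const, nsmul_eq_mul, mul_comm]
        exact mul_le_mul_of_nonneg_right (Nat.cast_le.2 (h1 j)) (by positivity)
    _ ≤ ∑ g, 4 * Λ * a g := by
        rw [sum_comm]
        refine sum_le_sum fun g _ => (kcore_geo _ n).trans (max_le ?_ ?_)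
        · exact mul_nonneg (by linarith) (ha g)
        · have : (0 : ℝ) < (1 / 2) ^ n := by positivity
          linarith
    _ ≤ _ := by
        rw [← mul_sum]
        exact mul_le_of_le_one_right (by linarith) ha1

/-- the hull bound for all dyadic scales -/
lemma kcore_hull {V E : Type} [Fintype V] [Fintype E] [DecidableEq V] (s t : E → V)
    {l : V → V → ℝ} (hl : Met l) (J n : ℕ) (r1 r R0 κ : ℝ) (N C : ℕ → Finset V)
    (hr1 : 0 ≤ r1) (hr : r1 ≤ r) (hr0 : 0 < r) (hR : 0 ≤ R0) (hκ : 0 ≤ κ)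
    (hΘ : 4 * (R0 + 6 * r) ≤ 2 ^ J * r)
    (hsep : ∀ j, ∀ x ∈ N j, ∀ y ∈ N j, x ≠ y → 5 / 2 * r * (1 / 2) ^ j < l x y)
    (hcov : ∀ j, ∀ x ∈ N j, ∃ c ∈ C j, l x c ≤ R0 * (1 / 2) ^ j)
    (hcon : ∀ j, ∀ x ∈ N j, ∀ y ∈ N j, x ≠ y → ∀ X : Finset V,
      (∀ v, l x v ≤ r1 * (1 / 2) ^ j → v ∈ X) →
      (∀ v ∈ X, l x v < r * (1 / 2) ^ j) → κ ≤ (ct s t univ X : ℝ)) :
    κ * ((r - r1) * ∑ j ∈ range (J * n), (1 / 2 : ℝ) ^ j * #(N j) -
      (2 * (R0 + 6 * r) + (r - r1)) * ∑ j ∈ range (J * n), (1 / 2 : ℝ) ^ j * #(C j)) ≤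
      3 * J * Pl s t l := by
  let N2 : ℕ → Finset V := fun j => if 1 < #(N j) then N j else ∅
  have hsub : ∀ j, ∀ x ∈ N2 j, x ∈ N j ∧ ∃ y ∈ N j, x ≠ y := by
    intro j x hx
    by_cases h : 1 < #(N j)
    · simp only [N2, if_pos h] at hx
      obtain ⟨y, hy, hne⟩ := exists_mem_ne h x
      exact ⟨hx, y, hy, hne.symm⟩
    · simp [N2, if_neg h] at hx
  have hcard : ∀ j, (#(N j) : ℝ) ≤ #(N2 j) + #(C j) := by
    intro j
    have : #(N j) ≤ #(N2 j) + #(C j) := by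
      by_cases h : 1 < #(N j)
      · simp [N2, if_pos h]
      · rcases (N j).eq_empty_or_nonempty with h0 | ⟨x, hx⟩
        · simp [h0]
        · obtain ⟨c, hc, _⟩ := hcov j x hx
          have := card_pos.2 ⟨c, hc⟩
          omega
    exact_mod_cast this
  have he : ∀ i k : ℕ, (1 / 2 : ℝ) ^ i / (2 ^ J) ^ k = (1 / 2) ^ (i + J * k) := by
    intro i k
    rw [pow_add, ← pow_mul, div_eq_mul_inv, one_div, inv_pow, inv_pow]
  have h1 : ∀ i ∈ range J, κ * ∑ k ∈ range n, (1 / 2 : ℝ) ^ (i + J * k) *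
      ((r - r1) * #(N2 (i + J * k)) - 2 * (R0 + 6 * r) * #(C (i + J * k))) ≤ 3 * Pl s t l := by
    intro i _
    have := khull s t hl n ((1 / 2) ^ i) (2 ^ J) r1 r R0 κ (fun k => N2 (i + J * k))
      (fun k => C (i + J * k)) (by positivity) hr1 hr hr0 hR hκ hΘ
      (fun k x hx y hy hne => by
        rw [he]
        exact hsep _ x (hsub _ x hx).1 y (hsub _ y hy).1 hne)
      (fun k x hx => by
        rw [he]
        exact hcov _ x (hsub _ x hx).1)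
      (fun k x hx X => by
        rw [he]
        obtain ⟨hx1, y, hy, hne⟩ := hsub _ x hx
        exact hcon _ x hx1 y hy hne X)
    simpa only [he] using this
  have h2 := sum_le_sum h1
  rw [← mul_sum, ← kcore_split J n fun j => (1 / 2 : ℝ) ^ j *
    ((r - r1) * #(N2 j) - 2 * (R0 + 6 * r) * #(C j)), sum_const, card_range, nsmul_eq_mul] at h2
  refine le_trans (mul_le_mul_of_nonneg_left ?_ hκ) (h2.trans_eq (by ring))
  rw [mul_sum, mul_sum, ← sum_sub_distrib]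
  refine sum_le_sum fun j _ => ?_
  have h3 : (1 / 2 : ℝ) ^ j * ((r - r1) * #(N j)) ≤
      (1 / 2) ^ j * ((r - r1) * (#(N2 j) + #(C j))) :=
    mul_le_mul_of_nonneg_left (mul_le_mul_of_nonneg_left (hcard j) (by linarith)) (by positivity)
  linarith

lemma kcore_arith (δ Ξ J P Λ κ M w SH SL SC : ℝ) (hδ : 0 < δ) (hδ1 : δ ≤ 1) (hΞ : 20 ≤ Ξ)
    (hJ : J ≤ 22 * Ξ) (hP : 0 ≤ P) (hΛ : 1 ≤ Λ) (hκ : 0 < κ) (hM : 1 ≤ M) (hw : 0 ≤ w)
    (hSC : 0 ≤ SC) (hC : M * SC ≤ 4 * Λ)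
    (hH : κ * ((8 / 5 * δ - δ) * SH - (2 * (2 * (Ξ * δ) + 6 * (8 / 5 * δ)) + (8 / 5 * δ - δ)) * SC)
      ≤ 3 * J * P)
    (hL : 1 * ((2 / 5 * δ - 0) * SL - (2 * (2 * (Ξ * δ) + 6 * (2 / 5 * δ)) + (2 / 5 * δ - 0)) * SC)
      ≤ 3 * J * P) :
    Ξ * δ * (512 * (SH + SC) + 64 * w * SL) ≤ 2 ^ 16 * Ξ ^ 2 * (P / κ + Λ / M + w * (P + Λ)) := by
  have hp : 0 ≤ P / κ := by positivity
  have hq : 0 ≤ Λ / M := by positivity
  have c1 : SC ≤ 4 * (Λ / M) := by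
    rw [← mul_div_assoc, le_div_iff₀ (by linarith)]
    linarith
  have c2 : SC ≤ 4 * Λ := by nlinarith
  have d0 : 0 ≤ δ * SC := by positivity
  have d1 : δ * SC ≤ SC := mul_le_of_le_one_left hSC hδ1
  have d2 : 20 * (δ * SC) ≤ Ξ * (δ * SC) := mul_le_mul_of_nonneg_right hΞ d0
  have d3 : Ξ * (δ * SC) ≤ Ξ * (4 * (Λ / M)) :=
    mul_le_mul_of_nonneg_left (d1.trans c1) (by linarith)
  have d4 : Ξ * (δ * SC) ≤ Ξ * (4 * Λ) := mul_le_mul_of_nonneg_left (d1.trans c2) (by linarith)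
  have j1 : J * P ≤ 22 * Ξ * P := mul_le_mul_of_nonneg_right hJ hP
  have j2 : J * (P / κ) ≤ 22 * Ξ * (P / κ) := mul_le_mul_of_nonneg_right hJ hp
  have h1 := (le_div_iff₀' hκ).2 hH
  rw [mul_div_assoc] at h1
  have x1 : 0 ≤ Ξ * (P / κ) := by positivity
  have x2 : 0 ≤ Ξ * (Λ / M) := by positivity
  have x3 : 0 ≤ Ξ * Λ := by positivity
  have x4 : 0 ≤ Ξ * P := by positivity
  have h2 : δ * (SH + SC) ≤ 111 * Ξ * (P / κ + Λ / M) := by linarith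
  have h3 : δ * SL ≤ 165 * Ξ * (P + Λ) := by linarith
  have h4 := mul_le_mul_of_nonneg_left h2 (show 0 ≤ Ξ by linarith)
  have h5 := mul_le_mul_of_nonneg_left h3 (show 0 ≤ Ξ * w by positivity)
  have y1 : 0 ≤ Ξ ^ 2 * (P / κ + Λ / M) := by positivity
  have y2 : 0 ≤ Ξ ^ 2 * (w * (P + Λ)) := by positivity
  linarith

theorem kcore {V E Φ : Type} [Fintype V] [Fintype E] [Fintype Φ] [DecidableEq V] (s t : E → V)
    {l : V → V → ℝ} (hl : Met l) (χ : Φ → V → ℝ) (o : Φ → V) (z : Φ → V → ℝ) (a : Φ → ℝ)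
    (ν θ R Λ κ : ℝ) (k0 M : ℕ) (Ψ : Finset Φ)
    (hz : ∀ x x', ∑ f, (z f x - z f x') ^ 2 ≤ l x x') (hθ : 0 < θ) (hθ1 : θ ≤ 1) (hR : 1 ≤ R)
    (hΛ : 1 ≤ Λ) (hκ : 0 < κ) (hν : 0 ≤ ν) (hM : 0 < M) (ha : ∀ f, 0 ≤ a f)
    (ha1 : ∑ f, a f ≤ 1) (h0 : ∀ f, ∑ x, χ f x = 0) (h1 : ∀ f, ∑ x, |χ f x| ≤ 2)
    (h2 : ∀ f, ∑ x, χ f x ^ 2 ≤ ν)
    (c1 : ∀ X : Finset V, X.Nonempty → Xᶜ.Nonempty → 1 ≤ ct s t univ X)
    (c2 : ∀ X : Finset V, k0 < #X → k0 < #Xᶜ → κ ≤ (ct s t univ X : ℝ))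
    (hΨ : ∀ f ∈ Ψ, 0 < a f ∧ θ * √(a f) ≤ evl (χ f) (z f) ∧ Nice χ o R Λ M a l f) :
    ∑ f ∈ Ψ, a f ≤ 2 ^ 50 * R ^ 4 / θ ^ 10 *
      (Pl s t l / κ + Λ / M + ν * k0 * (Pl s t l + Λ)) := by
  classical
  have hlev : ∀ f, ∃ j : ℕ, f ∈ Ψ → (1 / 2 : ℝ) ^ (j + 1) < a f ∧ a f ≤ (1 / 2) ^ j := by
    intro f
    by_cases hf : f ∈ Ψ
    · obtain ⟨j, hj⟩ := exists_nat_pow_near_of_lt_one (hΨ f hf).1
        ((single_le_sum (fun g _ => ha g) (mem_univ f)).trans ha1)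
        (show (0 : ℝ) < 1 / 2 by norm_num) (by norm_num)
      exact ⟨j, fun _ => hj⟩
    · exact ⟨0, fun h => absurd h hf⟩
  choose lev hlev using hlev
  have hmem : ∀ j, ∀ f ∈ Ψ.filter fun f => lev f = j,
      f ∈ Ψ ∧ (1 / 2 : ℝ) ^ (j + 1) < a f ∧ a f ≤ (1 / 2) ^ j := fun j f hf => by
    obtain ⟨e1, rfl⟩ := mem_filter.1 hf
    exact ⟨e1, hlev f e1⟩
  choose C H L hC hCs hH hHs hLs hcov hm using fun j : ℕ =>
    kscale hl χ o z hz ν θ R ((1 / 2) ^ j) k0 hθ hθ1 hR (by positivity) hν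
      (Ψ.filter fun f => lev f = j) h0 h1 h2
      (fun f hf => by
        obtain ⟨e1, e2, _⟩ := hmem j f hf
        refine le_trans ?_ (hΨ f e1).2.1
        have e3 : 7 / 10 * √((1 / 2 : ℝ) ^ j) ≤ √(a f) := by
          refine Real.le_sqrt_of_sq_le ?_
          have e4 : (0 : ℝ) < (1 / 2) ^ j := by positivity
          rw [mul_pow, Real.sq_sqrt e4.le]
          rw [pow_succ] at e2
          linarith
        have := mul_le_mul_of_nonneg_left e3 hθ.le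
        linarith)
      (fun f hf => by
        obtain ⟨e1, _, e2⟩ := hmem j f hf
        exact (hΨ f e1).2.2.1.trans (mul_le_mul_of_nonneg_left e2 (by linarith)))
  obtain ⟨δ, hδ⟩ : ∃ δ, δ = θ ^ 2 / 256 := ⟨_, rfl⟩
  obtain ⟨Ξ, hΞ⟩ : ∃ Ξ, Ξ = 2 ^ 14 * R ^ 2 / θ ^ 4 := ⟨_, rfl⟩
  have hδ0 : 0 < δ := by rw [hδ]; positivity
  have hδ1 : δ ≤ 1 := by
    have := pow_le_one₀ (n := 2) hθ.le hθ1
    linarith
  have hΞ1 : 24 ≤ Ξ := by
    have e1 := pow_le_one₀ (n := 4) hθ.le hθ1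
    have e2 := one_le_pow₀ (n := 2) hR
    rw [hΞ, le_div_iff₀ (by positivity)]
    linarith
  have eR : 64 * R ^ 2 / θ ^ 2 = Ξ * δ := by rw [hΞ, hδ]; field_simp; norm_num
  have eR2 : 128 * R ^ 2 / θ ^ 2 = 2 * (Ξ * δ) := by rw [← eR]; ring
  rw [← hδ] at hH hHs hLs
  rw [eR2] at hcov
  rw [eR] at hm
  obtain ⟨J, hJ⟩ : ∃ J : ℕ, J = ⌈21 * Ξ⌉₊ := ⟨_, rfl⟩
  have hJ1 : 21 * Ξ ≤ J := hJ ▸ Nat.le_ceil _
  have hJ2 : (J : ℝ) ≤ 22 * Ξ := by
    have := Nat.ceil_lt_add_one (show 0 ≤ 21 * Ξ by linarith)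
    rw [← hJ] at this
    linarith
  have hJ3 : 21 * Ξ * δ ≤ 2 ^ J * δ := by
    have : (J : ℝ) ≤ 2 ^ J := by exact_mod_cast (Nat.lt_two_pow_self (n := J)).le
    exact mul_le_mul_of_nonneg_right (hJ1.trans this) hδ0.le
  have hJ0 : 0 < J := by
    have : (0 : ℝ) < J := by linarith
    exact_mod_cast this
  have hΞδ : 24 * δ ≤ Ξ * δ := mul_le_mul_of_nonneg_right hΞ1 hδ0.le
  obtain ⟨n, hn⟩ : ∃ n, ∀ f ∈ Ψ, lev f < J * n :=
    ⟨Ψ.sup lev + 1, fun f hf => lt_of_lt_of_le (Nat.lt_succ_of_le (le_sup hf))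
      (Nat.le_mul_of_pos_left _ hJ0)⟩
  have bC := kcore_anchor hl χ o a R Λ M (J * n) hR hΛ ha ha1 C
    (fun j c hc => by
      obtain ⟨f, hf, rfl⟩ := mem_image.1 (hC j hc)
      obtain ⟨e1, e2, e3⟩ := hmem j f hf
      exact ⟨f, rfl, e2, e3, (hΨ f e1).2.2⟩) hCs
  have bH := kcore_hull s t hl J n δ (8 / 5 * δ) (2 * (Ξ * δ)) κ H C hδ0.le (by linarith)
    (by linarith) (by linarith) hκ.le (by linarith)
    (fun j x hx y hy hne => by
      have := hHs j x hx y hy hne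
      linarith)
    (fun j x hx => hcov j x (mem_union_left _ hx))
    (fun j x hx y hy hne X g1 g2 => by
      refine c2 X ((hH j x hx).trans_le (card_le_card fun v hv => g1 v (mem_filter.1 hv).2))
        ((hH j y hy).trans_le (card_le_card fun v hv => mem_compl.2 fun hv' => ?_))
      have e1 := (mem_filter.1 hv).2
      have e2 := g2 v hv'
      have e3 := hHs j x hx y hy hne
      have e4 := hl.tri x v y
      have e5 : 0 < δ * (1 / 2) ^ j := by positivity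
      rw [hl.symm v] at e4
      linarith)
  have bL := kcore_hull s t hl J n 0 (2 / 5 * δ) (2 * (Ξ * δ)) 1 L C le_rfl (by linarith)
    (by linarith) (by linarith) zero_le_one (by linarith)
    (fun j x hx y hy hne => by
      have := hLs j x hx y hy hne
      linarith)
    (fun j x hx => hcov j x (mem_union_right _ hx))
    (fun j x hx y hy hne X g1 g2 => by
      refine Nat.one_le_cast.2 (c1 X ⟨x, g1 x (by rw [hl.self, zero_mul])⟩
        ⟨y, mem_compl.2 fun hv' => ?_⟩)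
      have e2 := g2 y hv'
      have e3 := hLs j x hx y hy hne
      have e5 : 0 < δ * (1 / 2) ^ j := by positivity
      linarith)
  have bA := kcore_arith δ Ξ J (Pl s t l) Λ κ M (ν * k0) _ _ _ hδ0 hδ1 (by linarith) hJ2
    (Pl_nonneg s t hl) hΛ hκ (Nat.one_le_cast.2 hM) (by positivity)
    (sum_nonneg fun j _ => by positivity) bC bH bL
  have bT : θ ^ 2 * ∑ f ∈ Ψ, a f ≤ Ξ * δ * (512 * (∑ j ∈ range (J * n), (1 / 2 : ℝ) ^ j * #(H j) +
      ∑ j ∈ range (J * n), (1 / 2 : ℝ) ^ j * #(C j)) +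
      64 * (ν * k0) * ∑ j ∈ range (J * n), (1 / 2 : ℝ) ^ j * #(L j)) := by
    rw [← sum_fiberwise_of_maps_to (g := lev) fun f hf => mem_range.2 (hn f hf),
      ← sum_add_distrib, mul_sum, mul_sum, mul_sum, ← sum_add_distrib, mul_sum]
    refine sum_le_sum fun j _ => ?_
    have e1 := sum_le_card_nsmul _ _ _ fun f hf => (hmem j f hf).2.2
    rw [nsmul_eq_mul] at e1
    have e2 := mul_le_mul_of_nonneg_left e1 (sq_nonneg θ)
    have e3 := mul_le_mul_of_nonneg_left (hm j) (show (0 : ℝ) ≤ (1 / 2) ^ j by positivity)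
    linarith
  have hP := Pl_nonneg s t hl
  have hW : 0 ≤ Pl s t l / κ + Λ / M + ν * k0 * (Pl s t l + Λ) := by positivity
  refine le_of_mul_le_mul_left ((bT.trans bA).trans ?_) (pow_pos hθ 2)
  rw [← mul_assoc]
  refine mul_le_mul_of_nonneg_right ?_ hW
  have e1 : 2 ^ 16 * Ξ ^ 2 = 2 ^ 44 * (R ^ 4 / θ ^ 8) := by rw [hΞ]; field_simp
  have e2 : θ ^ 2 * (2 ^ 50 * R ^ 4 / θ ^ 10) = 2 ^ 50 * (R ^ 4 / θ ^ 8) := by field_simp
  rw [e1, e2]
  gcongr <;> norm_num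

end Pool.Agent.P.MP_e59a69_co
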