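import Pool.Agent.P.MP_e59a69_co.SRHy

/-! Letters, words, Laplacian and segment averages. -/

open Finset

namespace Pool.Agent.P.MP_e59a69_co

variable {V : Type}

/-- the three neighbour maps -/
def Lt (π μ : Equiv.Perm V) : Fin 3 → Equiv.Perm V := ![π, π⁻¹, μ]

/-- index of the inverse letter -/
def iv : Fin 3 → Fin 3 := ![1, 0, 2]

/-- `w` is a product of at most `n` letters -/
def Wd (π μ : Equiv.Perm V) (n : ℕ) (w : Equiv.Perm V) : Prop :=
  ∃ l : List (Fin 3), l.length ≤ n ∧ w = (l.map (Lt π μ)).prod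

/-- the Laplacian -/
def Lap (π μ : Equiv.Perm V) (y : V → ℝ) (v : V) : ℝ := ∑ l, (y v - y (Lt π μ l v))

/-- average over the `n` vertices after `x` on its circuit -/
noncomputable def seg (π : Equiv.Perm V) (n : ℕ) (x : V) : (V → ℝ) →ₗ[ℝ] ℝ :=
  (n : ℝ)⁻¹ • ∑ t ∈ range n, LinearMap.proj ((π ^ (t + 1)) x)

/-- `G` is a gradient map: it represents the Dirichlet form -/
def IsGrad [Fintype V] {κ : Type} [Fintype κ] (π μ : Equiv.Perm V)
    (G : (V → ℝ) →ₗ[ℝ] κ → ℝ) : Prop :=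
  ∀ y y' : V → ℝ, ∑ k, G y k * G y' k = ∑ v, y v * Lap π μ y' v

/-- unit flows across the three edges at each vertex with total energy at most `2 + η` -/
def Short {κ : Type} [Fintype κ] (π μ : Equiv.Perm V) (G : (V → ℝ) →ₗ[ℝ] κ → ℝ) (η : ℝ) : Prop :=
  ∀ u, ∃ f : Fin 3 → κ → ℝ, (∀ l y, ∑ k, f l k * G y k = y u - y (Lt π μ l u)) ∧
    ∑ l, ∑ k, f l k ^ 2 ≤ 2 + η

variable {π μ : Equiv.Perm V}

lemma seg_apply (π : Equiv.Perm V) (n : ℕ) (x : V) (y : V → ℝ) :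
    seg π n x y = (n : ℝ)⁻¹ * ∑ t ∈ range n, y ((π ^ (t + 1)) x) := by
  simp [seg]

lemma Lt_zero : Lt π μ 0 = π := rfl
lemma Lt_one : Lt π μ 1 = π⁻¹ := rfl
lemma Lt_two : Lt π μ 2 = μ := rfl

lemma iv_iv (l : Fin 3) : iv (iv l) = l := by fin_cases l <;> rfl

lemma Lt_iv (hμ : ∀ v, μ (μ v) = v) (l : Fin 3) (v : V) : Lt π μ (iv l) (Lt π μ l v) = v := by
  fin_cases l <;> simp [Lt, iv, hμ]

lemma Lt_iv' (hμ : ∀ v, μ (μ v) = v) (l : Fin 3) (v : V) : Lt π μ l (Lt π μ (iv l) v) = v := by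
  simpa only [iv_iv] using Lt_iv (π := π) hμ (iv l) v

lemma Wd.mono {n m : ℕ} {w : Equiv.Perm V} (h : Wd π μ n w) (hn : n ≤ m) : Wd π μ m w := by
  obtain ⟨l, h1, h2⟩ := h
  exact ⟨l, h1.trans hn, h2⟩

lemma Wd.mul {n m : ℕ} {w w' : Equiv.Perm V} (h : Wd π μ n w) (h' : Wd π μ m w') :
    Wd π μ (n + m) (w * w') := by
  obtain ⟨l, h1, rfl⟩ := h
  obtain ⟨l', h1', rfl⟩ := h'
  exact ⟨l ++ l', by simp; omega, by simp⟩

lemma wd_one : Wd π μ 0 1 := ⟨[], le_rfl, rfl⟩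

lemma wd_letter (l : Fin 3) : Wd π μ 1 (Lt π μ l) := ⟨[l], le_rfl, by simp⟩

lemma wd_mu : Wd π μ 1 μ := wd_letter 2

lemma wd_zpow (t : ℤ) : Wd π μ t.natAbs (π ^ t) := by
  rcases Int.natAbs_eq t with h | h
  · exact ⟨List.replicate t.natAbs 0, by simp, by
      rw [List.map_replicate, List.prod_replicate, Lt_zero, ← zpow_natCast, ← h]⟩
  · exact ⟨List.replicate t.natAbs 1, by simp, by
      rw [List.map_replicate, List.prod_replicate, Lt_one, inv_pow, ← zpow_natCast, ← zpow_neg,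
        ← h]⟩

/-- induction along a word -/
lemma Wd.induct {P : ℕ → Equiv.Perm V → Prop} (h0 : P 0 1)
    (h1 : ∀ n w l, P n w → P (n + 1) (Lt π μ l * w)) (h2 : ∀ n w, P n w → P (n + 1) w)
    {n : ℕ} {w : Equiv.Perm V} (h : Wd π μ n w) : P n w := by
  obtain ⟨l, hl, rfl⟩ := h
  have a : P l.length (l.map (Lt π μ)).prod := by
    clear hl
    induction l with
    | nil => exact h0
    | cons x l ih => exact h1 _ _ x ih
  induction n, hl using Nat.le_induction with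
  | base => exact a
  | succ n _ ih => exact h2 _ _ ih

end Pool.Agent.P.MP_e59a69_co
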