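import Pool.Agent.P.MP_e59a69_co.LDefs
import Pool.Agent.P.MP_e59a69_co.SRBase

/-! Definitions for the constant connectivity bound. -/

open Finset Function

namespace Pool.Agent.P.MP_e59a69_co

variable {V E Φ Y : Type}

/-- Dirichlet energy -/
def En [Fintype E] (s t : E → V) (y : V → ℝ) : ℝ := ∑ e, (y (s e) - y (t e)) ^ 2

/-- energy of a weight on pairs of vertices -/
def ED [Fintype V] (D : V × V → ℝ) (y : V → ℝ) : ℝ := ∑ p, D p * (y p.1 - y p.2) ^ 2

/-- indicator function -/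
def ind1 [DecidableEq V] (X : Finset V) : V → ℝ := fun v => if v ∈ X then 1 else 0

/-- the weight `D` is dominated by the graph on every cut -/
def Dom [Fintype V] [Fintype E] [DecidableEq V] (s t : E → V) (D : V × V → ℝ) : Prop :=
  (∀ p, 0 ≤ D p) ∧ ∀ X : Finset V, ED D (ind1 X) ≤ (ct s t univ X : ℝ)

/-- a pseudo-metric -/
structure Met (l : V → V → ℝ) : Prop where
  self : ∀ x, l x x = 0
  symm : ∀ x y, l x y = l y x
  tri : ∀ x y z, l x z ≤ l x y + l y z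

/-- total length of the edges -/
def Pl [Fintype E] (s t : E → V) (l : V → V → ℝ) : ℝ := ∑ e, l (s e) (t e)

/-- pairing -/
def evl [Fintype V] (χ y : V → ℝ) : ℝ := ∑ x, χ x * y x

/-- mixture of mass vectors -/
def mix [Fintype Y] (lam : Y → ℝ) (a : Y → Φ → ℝ) (f : Φ) : ℝ := ∑ y, lam y * a y f

open Classical in
/-- the item `f` is cheap and not lonely -/
def Nice [Fintype V] [Fintype Φ] (χ : Φ → V → ℝ) (o : Φ → V) (R Λ : ℝ) (M : ℕ) (a : Φ → ℝ)
    (l : V → V → ℝ) (f : Φ) : Prop :=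
  ∑ x, |χ f x| * l (o f) x ≤ R * a f ∧ M ≤ #{g | a f ≤ Λ * a g ∧ l (o f) (o g) ≤ R * a f}

/-- hereditarily sparse set -/
def Fo [Fintype E] [DecidableEq V] (s t : E → V) (X : Finset V) : Prop :=
  ∀ Z ⊆ X, Z.Nonempty → #Z + 2 ≤ ct s t univ Z

/-- cubic, large girth, large cyclic connectivity -/
structure Cub [Fintype V] [Fintype E] [DecidableEq V] (s t : E → V) (c : ℕ) : Prop where
  deg : ∀ v, dg s t univ v = 3
  small : ∀ X : Finset V, X.Nonempty → #X + 2 ≤ c → #X + 2 ≤ ct s t univ X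
  cut : ∀ X : Finset V, c ≤ ct s t univ X ∨ Fo s t X ∨ Fo s t Xᶜ

/-- closed neighbourhood along the edges of `A` -/
def nb [DecidableEq V] (s t : E → V) (A : Finset E) (X : Finset V) : Finset V :=
  X ∪ ({e ∈ A | s e ∈ X}.image t ∪ {e ∈ A | t e ∈ X}.image s)

/-- ball of radius `r` -/
def kball [DecidableEq V] (s t : E → V) (A : Finset E) (X : Finset V) (r : ℕ) : Finset V :=
  (nb s t A)^[r] X

/-- the random walk operator of a cubic graph -/
noncomputable def Pw [Fintype E] [DecidableEq V] (s t : E → V) (y : V → ℝ) (v : V) : ℝ :=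
  (∑ e with s e = v, y (t e) + ∑ e with t e = v, y (s e)) / 3

/-- every part of `Z` meets many edges inside `Z` -/
def Rich [Fintype E] [DecidableEq V] (s t : E → V) (ε : ℝ) (Z : Finset V) : Prop :=
  ∀ S ⊆ Z, (1 + ε) * #S ≤ #{e | (s e ∈ Z ∧ t e ∈ Z) ∧ (s e ∈ S ∨ t e ∈ S)}

/-- the edge `e` joins `u` and `v` -/
def Jn (s t : E → V) (e : E) (u v : V) : Prop := (s e = u ∧ t e = v) ∨ (t e = u ∧ s e = v)

lemma Met.nonneg {l : V → V → ℝ} (h : Met l) (x y : V) : 0 ≤ l x y := by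
  have h1 := h.tri x y x
  rw [h.self, h.symm y x] at h1
  linarith

lemma En_nonneg [Fintype E] (s t : E → V) (y : V → ℝ) : 0 ≤ En s t y :=
  sum_nonneg fun _ _ => sq_nonneg _

lemma ED_nonneg [Fintype V] {D : V × V → ℝ} (h : ∀ p, 0 ≤ D p) (y : V → ℝ) : 0 ≤ ED D y :=
  sum_nonneg fun p _ => mul_nonneg (h p) (sq_nonneg _)

lemma En_ind1 [Fintype E] [DecidableEq V] (s t : E → V) (X : Finset V) :
    En s t (ind1 X) = (ct s t univ X : ℝ) := by
  unfold En ct ind1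
  rw [card_filter, Nat.cast_sum]
  refine sum_congr rfl fun e _ => ?_
  by_cases h1 : s e ∈ X <;> by_cases h2 : t e ∈ X <;> simp [h1, h2]

lemma Pl_nonneg [Fintype E] (s t : E → V) {l : V → V → ℝ} (h : Met l) : 0 ≤ Pl s t l :=
  sum_nonneg fun _ _ => h.nonneg _ _

lemma mem_nb [DecidableEq V] {s t : E → V} {A : Finset E} {X : Finset V} {v : V} :
    v ∈ nb s t A X ↔ v ∈ X ∨ ∃ e ∈ A, ∃ u ∈ X, Jn s t e u v := by
  simp only [nb, mem_union, mem_image, mem_filter, Jn]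
  constructor
  · rintro (h | ⟨e, ⟨h1, h2⟩, h3⟩ | ⟨e, ⟨h1, h2⟩, h3⟩)
    · exact Or.inl h
    · exact Or.inr ⟨e, h1, _, h2, Or.inl ⟨rfl, h3⟩⟩
    · exact Or.inr ⟨e, h1, _, h2, Or.inr ⟨rfl, h3⟩⟩
  · rintro (h | ⟨e, h1, u, h2, ⟨h3, h4⟩ | ⟨h3, h4⟩⟩)
    · exact Or.inl h
    · exact Or.inr (Or.inl ⟨e, ⟨h1, h3 ▸ h2⟩, h4⟩)
    · exact Or.inr (Or.inr ⟨e, ⟨h1, h3 ▸ h2⟩, h4⟩)

lemma kball_zero [DecidableEq V] (s t : E → V) (A : Finset E) (X : Finset V) :
    kball s t A X 0 = X := rfl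

lemma kball_succ [DecidableEq V] (s t : E → V) (A : Finset E) (X : Finset V) (r : ℕ) :
    kball s t A X (r + 1) = nb s t A (kball s t A X r) := iterate_succ_apply' _ _ _

lemma Cub.mono [Fintype V] [Fintype E] [DecidableEq V] {s t : E → V} {c c' : ℕ} (H : Cub s t c)
    (h : c' ≤ c) : Cub s t c' :=
  ⟨H.deg, fun X h1 h2 => H.small X h1 (by omega), fun X => (H.cut X).imp (by omega) id⟩

/-- a maximal separated subset -/
lemma exists_net [DecidableEq V] {l : V → V → ℝ} (hl : Met l) (U : Finset V) {r : ℝ}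
    (hr : 0 ≤ r) : ∃ N ⊆ U, (∀ x ∈ N, ∀ y ∈ N, x ≠ y → r < l x y) ∧
      ∀ u ∈ U, ∃ x ∈ N, l u x ≤ r := by
  classical
  obtain ⟨p, hp⟩ : ∃ p : Finset V → Prop, ∀ N, p N ↔ ∀ x ∈ N, ∀ y ∈ N, x ≠ y → r < l x y :=
    ⟨_, fun _ => Iff.rfl⟩
  obtain ⟨N, hN, hmax⟩ := exists_max_image (U.powerset.filter p) card
    ⟨∅, mem_filter.2 ⟨empty_mem_powerset _, by simp [hp]⟩⟩
  obtain ⟨h1, h2⟩ := mem_filter.1 hN
  rw [hp] at h2
  refine ⟨N, mem_powerset.1 h1, h2, fun u hu => ?_⟩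
  by_contra hc
  push Not at hc
  have hu' : u ∉ N := fun h => by
    have := hc u h
    rw [hl.self] at this
    linarith
  have := hmax (insert u N) (mem_filter.2 ⟨mem_powerset.2 (insert_subset hu (mem_powerset.1 h1)),
    (hp _).2 fun x hx y hy hxy => by
      rcases mem_insert.1 hx with rfl | hx' <;> rcases mem_insert.1 hy with rfl | hy'
      · exact absurd rfl hxy
      · exact hc y hy'
      · rw [hl.symm]; exact hc x hx'
      · exact h2 x hx' y hy' hxy⟩)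
  rw [card_insert_of_notMem hu'] at this
  omega

end Pool.Agent.P.MP_e59a69_co
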