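import Pool.Agent.P.MP_e59a69_co.KBall

/-! Decay of the walk in tree-like balls and the segment estimate. -/

open Finset Function

namespace Pool.Agent.P.MP_e59a69_co

variable {V E : Type} [Fintype V] [Fintype E] [DecidableEq V] {s t : E → V} {c : ℕ}

lemma kwalk_fib (s : E → V) (x : V → ℝ) (g : E → ℝ) :
    ∑ v, x v * ∑ e with s e = v, g e = ∑ e, x (s e) * g e := by
  rw [← sum_fiberwise univ s fun e => x (s e) * g e]
  refine sum_congr rfl fun v _ => ?_
  rw [mul_sum]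
  exact sum_congr rfl fun e he => by rw [(mem_filter.1 he).2]

lemma kwalk_edge (h : ∀ v, dg s t univ v = 3) (g : V → ℝ) :
    ∑ e, (g (s e) + g (t e)) = 3 * ∑ v, g v := by
  have h1 := kwalk_fib s g fun _ => 1
  have h2 := kwalk_fib t g fun _ => 1
  simp only [mul_one, sum_const, nsmul_eq_mul] at h1 h2
  rw [sum_add_distrib, ← h1, ← h2, ← sum_add_distrib, mul_sum]
  refine sum_congr rfl fun v _ => ?_
  have h3 := congrArg (Nat.cast : ℕ → ℝ) (h v)
  unfold dg at h3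
  push_cast at h3
  linear_combination g v * h3

lemma kwalk_evl (x y : V → ℝ) :
    3 * evl x (Pw s t y) = ∑ e, (x (s e) * y (t e) + x (t e) * y (s e)) := by
  rw [sum_add_distrib, ← kwalk_fib s x, ← kwalk_fib t x, ← sum_add_distrib, evl, mul_sum]
  refine sum_congr rfl fun v _ => ?_
  unfold Pw
  ring

lemma kwalk_grad (h : ∀ v, dg s t univ v = 3) (x y : V → ℝ) :
    ∑ e, (x (s e) - x (t e)) * (y (s e) - y (t e)) = 3 * (evl x y - evl x (Pw s t y)) := by
  rw [mul_sub, kwalk_evl, evl, ← kwalk_edge h fun v => x v * y v, ← sum_sub_distrib]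
  exact sum_congr rfl fun e _ => by ring

lemma kwalk_cake (S : Finset V) (hS : ∀ Z ⊆ S, Z.Nonempty → #Z ≤ ct s t univ Z) (n : ℕ) :
    ∀ g : V → ℝ, (∀ v, 0 ≤ g v) → (∀ v, v ∉ S → g v = 0) → #{v | 0 < g v} ≤ n →
      ∑ v, g v ≤ ∑ e, |g (s e) - g (t e)| := by
  classical
  induction n with
  | zero =>
    intro g h0 _ hn
    have h1 : ∀ v, g v = 0 := fun v => by
      by_contra hv
      have : v ∈ ({v | 0 < g v} : Finset V) := by simpa using (h0 v).lt_of_ne' hv
      have := card_pos.2 ⟨v, this⟩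
      omega
    simp [h1]
  | succ n ih =>
    intro g h0 h1 hn
    obtain ⟨Z, hZ⟩ : ∃ Z : Finset V, Z = univ.filter fun v => 0 < g v := ⟨_, rfl⟩
    have hm : ∀ v, v ∈ Z ↔ 0 < g v := fun v => by simp [hZ]
    rcases Z.eq_empty_or_nonempty with he | hne
    · exact ih g h0 h1 (by rw [← hZ, he]; simp)
    obtain ⟨u, hu, hmin⟩ := exists_min_image Z g hne
    have hz : ∀ v, v ∉ Z → g v = 0 := fun v hv => le_antisymm (not_lt.1 (mt (hm v).2 hv)) (h0 v)
    have hZS : Z ⊆ S := fun v hv => by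
      by_contra hc
      exact ((hm v).1 hv).ne' (h1 v hc)
    have hgu := (hm u).1 hu
    have h2 := ih (fun v => g v - g u * ind1 Z v) (fun v => ?_) (fun v hv => ?_) ?_
    · have h3 : ∑ v, ind1 Z v = (#Z : ℝ) := by simp [ind1]
      have h4 : (#Z : ℝ) ≤ En s t (ind1 Z) := by
        rw [En_ind1]
        exact_mod_cast hS Z hZS hne
      have h5 : ∑ e, |g (s e) - g (t e)| =
          ∑ e, |g (s e) - g u * ind1 Z (s e) - (g (t e) - g u * ind1 Z (t e))| +
            g u * En s t (ind1 Z) := by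
        rw [En, mul_sum, ← sum_add_distrib]
        refine sum_congr rfl fun e _ => ?_
        by_cases a : s e ∈ Z <;> by_cases b : t e ∈ Z
        · simp [ind1, a, b]
        · have := hmin _ a
          simp only [ind1, a, b, if_true, if_false, hz _ b]
          rw [abs_of_nonneg (by linarith), abs_of_nonneg (by linarith)]
          ring
        · have := hmin _ b
          simp only [ind1, a, b, if_true, if_false, hz _ a]
          rw [abs_of_nonpos (by linarith), abs_of_nonpos (by linarith)]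
          ring
        · simp [ind1, a, b]
      rw [sum_sub_distrib, ← mul_sum, h3] at h2
      rw [h5]
      nlinarith [mul_le_mul_of_nonneg_left h4 hgu.le]
    · by_cases a : v ∈ Z
      · have := hmin _ a
        simp only [ind1, a, if_true]
        linarith
      · simp [ind1, a, h0 v]
    · have a : v ∉ Z := fun a => hv (hZS a)
      simp [ind1, a, h1 v hv]
    · have h6 : ({v | 0 < g v - g u * ind1 Z v} : Finset V) ⊆ Z.erase u := by
        intro v hv
        have hv' := (mem_filter.1 hv).2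
        by_cases a : v ∈ Z
        · refine mem_erase.2 ⟨?_, a⟩
          rintro rfl
          simp [ind1, a] at hv'
        · simp [ind1, a, hz v a] at hv'
      have h7 := card_le_card h6
      rw [card_erase_of_mem hu] at h7
      rw [← hZ] at hn
      omega

lemma kwalk_quad (h : ∀ v, dg s t univ v = 3) (S : Finset V)
    (hS : ∀ Z ⊆ S, Z.Nonempty → #Z ≤ ct s t univ Z) (f : V → ℝ) (hf : ∀ v, v ∉ S → f v = 0) :
    |∑ e, 2 * (f (s e) * f (t e))| ≤ 3 * (19 / 20) * ∑ v, f v ^ 2 := by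
  have h1 := kwalk_cake S hS _ (fun v => f v ^ 2) (fun v => sq_nonneg _)
    (fun v hv => by simp [hf v hv]) le_rfl
  have h2 := kwalk_edge h fun v => f v ^ 2
  have hA : 0 ≤ ∑ v, f v ^ 2 := sum_nonneg fun _ _ => sq_nonneg _
  have h3 := sum_mul_sq_le_sq_mul_sq univ (fun e => |f (s e) - f (t e)|)
    fun e => |f (s e) + f (t e)|
  have h4 : ∑ e, |f (s e) - f (t e)| * |f (s e) + f (t e)| = ∑ e, |f (s e) ^ 2 - f (t e) ^ 2| :=
    sum_congr rfl fun e _ => by rw [← abs_mul]; exact congrArg abs (by ring)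
  have h5 : ∑ e, |f (s e) - f (t e)| ^ 2 = 3 * ∑ v, f v ^ 2 - ∑ e, 2 * (f (s e) * f (t e)) := by
    rw [← h2, ← sum_sub_distrib]
    exact sum_congr rfl fun e _ => by rw [sq_abs]; ring
  have h6 : ∑ e, |f (s e) + f (t e)| ^ 2 = 3 * ∑ v, f v ^ 2 + ∑ e, 2 * (f (s e) * f (t e)) := by
    rw [← h2, ← sum_add_distrib]
    exact sum_congr rfl fun e _ => by rw [sq_abs]; ring
  rw [h4, h5, h6] at h3
  have h7 := pow_le_pow_left₀ hA h1 2
  refine abs_le_of_sq_le_sq ?_ (by positivity)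
  nlinarith [sq_nonneg (∑ v, f v ^ 2)]

lemma kwalk_step (h : ∀ v, dg s t univ v = 3) (S : Finset V)
    (hS : ∀ Z ⊆ S, Z.Nonempty → #Z ≤ ct s t univ Z) (f : V → ℝ) (hf : ∀ v, v ∉ S → f v = 0)
    (hg : ∀ v, v ∉ S → Pw s t f v = 0) :
    ∑ v, Pw s t f v ^ 2 ≤ (19 / 20) ^ 2 * ∑ v, f v ^ 2 := by
  have h0 := kwalk_evl (s := s) (t := t) (Pw s t f) f
  have e0 : evl (Pw s t f) (Pw s t f) = ∑ v, Pw s t f v ^ 2 :=
    sum_congr rfl fun v _ => (sq _).symm
  rw [e0] at h0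
  generalize Pw s t f = g at hg h0 ⊢
  have h1 := kwalk_quad h S hS (fun v => 19 / 20 * f v + g v) fun v hv => by
    simp [hf v hv, hg v hv]
  have h2 := kwalk_quad h S hS (fun v => 19 / 20 * f v - g v) fun v hv => by
    simp [hf v hv, hg v hv]
  have h3 : ∑ e, 2 * ((19 / 20 * f (s e) + g (s e)) * (19 / 20 * f (t e) + g (t e))) -
      ∑ e, 2 * ((19 / 20 * f (s e) - g (s e)) * (19 / 20 * f (t e) - g (t e))) =
      4 * (19 / 20) * ∑ e, (g (s e) * f (t e) + g (t e) * f (s e)) := by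
    rw [← sum_sub_distrib, mul_sum]
    exact sum_congr rfl fun e _ => by ring
  have h4 : ∑ v, (19 / 20 * f v + g v) ^ 2 + ∑ v, (19 / 20 * f v - g v) ^ 2 =
      2 * (19 / 20) ^ 2 * ∑ v, f v ^ 2 + 2 * ∑ v, g v ^ 2 := by
    rw [← sum_add_distrib, mul_sum, mul_sum, ← sum_add_distrib]
    exact sum_congr rfl fun v _ => by ring
  have h5 := (abs_le.1 h1).2
  have h6 := (abs_le.1 h2).1
  rw [← h0] at h3
  linarith

omit [Fintype V] in
lemma kwalk_supp (X : Finset V) (x : V → ℝ) (hx : ∀ v, v ∉ X → x v = 0) (v : V)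
    (hv : v ∉ nb s t univ X) : Pw s t x v = 0 := by
  have h1 : ∑ e with s e = v, x (t e) = 0 := sum_eq_zero fun e he => hx _ fun hc =>
    hv (mem_nb.2 (Or.inr ⟨e, mem_univ _, _, hc, Or.inr ⟨rfl, (mem_filter.1 he).2⟩⟩))
  have h2 : ∑ e with t e = v, x (s e) = 0 := sum_eq_zero fun e he => hx _ fun hc =>
    hv (mem_nb.2 (Or.inr ⟨e, mem_univ _, _, hc, Or.inl ⟨rfl, (mem_filter.1 he).2⟩⟩))
  rw [Pw, h1, h2]
  simp

omit [Fintype V] in
lemma kwalk_supp_iter (T : Finset V) (x : V → ℝ) (hx : ∀ v, v ∉ T → x v = 0) (k : ℕ) :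
    ∀ v, v ∉ kball s t univ T k → (Pw s t)^[k] x v = 0 := by
  induction k with
  | zero => exact hx
  | succ k ih =>
    intro v hv
    rw [iterate_succ_apply']
    rw [kball_succ] at hv
    exact kwalk_supp _ _ ih v hv

lemma kwalk_decay (H : Cub s t c) (T : Finset V) (n : ℕ) (hc : 4 ^ n * #T + 2 ≤ c) (x : V → ℝ)
    (hx : ∀ v, v ∉ T → x v = 0) (k : ℕ) (hk : k ≤ n) :
    ∑ v, (Pw s t)^[k] x v ^ 2 ≤ (19 / 20) ^ (2 * k) * ∑ v, x v ^ 2 := by
  have hS : ∀ Z ⊆ kball s t univ T n, Z.Nonempty → #Z ≤ ct s t univ Z := fun Z hZ hne => by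
    have h1 := card_le_card hZ
    have h2 := card_kball H.deg univ T n
    have h3 := H.small Z hne (by omega)
    omega
  have hs : ∀ j ≤ n, ∀ v, v ∉ kball s t univ T n → (Pw s t)^[j] x v = 0 := fun j hj v hv =>
    kwalk_supp_iter T x hx j v fun h => hv (kball_mono univ Subset.rfl hj h)
  induction k with
  | zero => simp
  | succ k ih =>
    have h1 := kwalk_step H.deg _ hS ((Pw s t)^[k] x) (hs k (by omega)) (by
      have := hs (k + 1) hk
      rwa [iterate_succ_apply'] at this)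
    rw [iterate_succ_apply']
    refine h1.trans ?_
    rw [show 2 * (k + 1) = 2 + 2 * k by ring, pow_add, mul_assoc]
    exact mul_le_mul_of_nonneg_left (ih (by omega)) (by positivity)

theorem Pw_decay (H : Cub s t c) (T : Finset V) (n : ℕ) (hc : 4 ^ n * #T + 2 ≤ c) (x : V → ℝ)
    (hx : ∀ v, v ∉ T → x v = 0) :
    ∑ v, (Pw s t)^[n] x v ^ 2 ≤ (19 / 20) ^ (2 * n) * ∑ v, x v ^ 2 :=
  kwalk_decay H T n hc x hx n le_rfl

omit [DecidableEq V] in
lemma kwalk_cs (a b : V → ℝ) (N β : ℝ) (hN : 0 ≤ N) (hβ : 0 ≤ β) (ha : ∑ v, a v ^ 2 ≤ N)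
    (hb : ∑ v, b v ^ 2 ≤ β ^ 2 * N) : |evl a b| ≤ β * N := by
  refine abs_le_of_sq_le_sq ?_ (by positivity)
  refine (sum_mul_sq_le_sq_mul_sq univ a b).trans ?_
  calc (∑ v, a v ^ 2) * ∑ v, b v ^ 2 ≤ N * (β ^ 2 * N) :=
        mul_le_mul ha hb (sum_nonneg fun _ _ => sq_nonneg _) hN
    _ = (β * N) ^ 2 := by ring

lemma kwalk_geom (n : ℕ) : ∑ i ∈ range n, (19 / 20 : ℝ) ^ i = 20 - 20 * (19 / 20) ^ n := by
  induction n with
  | zero => simp
  | succ n ih => rw [sum_range_succ, ih, pow_succ]; ring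

omit [DecidableEq V] in
lemma kwalk_evl_sum (n : ℕ) (a : ℕ → V → ℝ) (y : V → ℝ) :
    evl (fun v => ∑ i ∈ range n, a i v) y = ∑ i ∈ range n, evl (a i) y := by
  simp only [evl, sum_mul]
  exact sum_comm

omit [DecidableEq V] in
lemma kwalk_evl_comm (a b : V → ℝ) : evl a b = evl b a :=
  sum_congr rfl fun _ _ => mul_comm _ _

lemma kwalk_tel (h : ∀ v, dg s t univ v = 3) (n : ℕ) (f y : V → ℝ) :
    ∑ e, ((∑ i ∈ range n, (Pw s t)^[i] f (s e)) - ∑ i ∈ range n, (Pw s t)^[i] f (t e)) *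
      (y (s e) - y (t e)) = 3 * (evl f y - evl ((Pw s t)^[n] f) y) := by
  rw [kwalk_grad h (fun v => ∑ i ∈ range n, (Pw s t)^[i] f v) y, kwalk_evl_sum, kwalk_evl_sum,
    ← sum_sub_distrib]
  have h1 : ∀ i, evl ((Pw s t)^[i] f) (Pw s t y) = evl ((Pw s t)^[i + 1] f) y := fun i => by
    rw [iterate_succ_apply']
    exact (Pw_symm 1 _ y).symm
  simp only [h1]
  rw [sum_range_sub' (fun i => evl ((Pw s t)^[i] f) y) n]
  rfl

theorem Pw_seg (H : Cub s t c) (T : Finset V) (hT : T.Nonempty) (n : ℕ)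
    (hc : 4 ^ n * #T + 2 ≤ c) (y : V → ℝ) :
    ((∑ v ∈ T, y v) / #T - (∑ v ∈ T, (Pw s t)^[n] y v) / #T) ^ 2 ≤ 14 / #T * En s t y := by
  have hT0 : (0 : ℝ) < #T := by exact_mod_cast card_pos.2 hT
  obtain ⟨f, hf⟩ : ∃ f : V → ℝ, ∀ v, f v = if v ∈ T then 1 / (#T : ℝ) else 0 := ⟨_, fun _ => rfl⟩
  have h1 : ∀ z : V → ℝ, evl f z = (∑ v ∈ T, z v) / #T := fun z => by
    simp only [evl, hf, ite_mul, zero_mul, sum_ite_mem, univ_inter, sum_div]
    exact sum_congr rfl fun v _ => by ring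
  have h2 : ∑ v, f v ^ 2 = 1 / #T := by
    have e : ∑ v, f v ^ 2 = evl f f := sum_congr rfl fun v _ => sq _
    rw [e, h1, sum_congr rfl fun v hv => (hf v).trans (if_pos hv), sum_const, nsmul_eq_mul]
    field_simp
  have hN : (0 : ℝ) ≤ 1 / #T := by positivity
  have h3 : ∀ k ≤ n, ∑ v, (Pw s t)^[k] f v ^ 2 ≤ ((19 / 20) ^ k) ^ 2 * (1 / #T) := fun k hk => by
    rw [← h2, ← pow_mul, mul_comm k 2]
    exact kwalk_decay H T n hc f (fun v hv => (hf v).trans (if_neg hv)) k hk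
  have h4 : ∑ v, (Pw s t)^[n] f v ^ 2 ≤ 1 / #T :=
    (h3 n le_rfl).trans (mul_le_of_le_one_left hN
      (pow_le_one₀ (by positivity) (pow_le_one₀ (by norm_num) (by norm_num))))
  have h5 : En s t (fun v => ∑ i ∈ range n, (Pw s t)^[i] f v) ≤ 120 * (1 / #T) := by
    have e := kwalk_tel H.deg n f fun v => ∑ i ∈ range n, (Pw s t)^[i] f v
    rw [kwalk_evl_comm f, kwalk_evl_comm ((Pw s t)^[n] f), kwalk_evl_sum, kwalk_evl_sum,
      ← sum_sub_distrib] at e
    have h6 : ∑ i ∈ range n, (evl ((Pw s t)^[i] f) f - evl ((Pw s t)^[i] f) ((Pw s t)^[n] f)) ≤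
        ∑ i ∈ range n, (19 / 20) ^ i * (2 * (1 / (#T : ℝ))) := by
      refine sum_le_sum fun i hi => ?_
      have hi' := h3 i (mem_range.1 hi).le
      have a := kwalk_cs f _ _ _ hN (by positivity) h2.le hi'
      have b := kwalk_cs _ _ _ _ hN (by positivity) h4 hi'
      rw [kwalk_evl_comm] at a b
      linarith [(abs_le.1 a).2, (abs_le.1 b).1]
    rw [← sum_mul, kwalk_geom] at h6
    have h7 : (0 : ℝ) ≤ (19 / 20) ^ n * (1 / #T) := by positivity
    unfold En
    simp only [sq]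
    rw [e]
    linarith
  have h8 := kwalk_tel H.deg n f y
  have h9 := sum_mul_sq_le_sq_mul_sq univ
    (fun e => (∑ i ∈ range n, (Pw s t)^[i] f (s e)) - ∑ i ∈ range n, (Pw s t)^[i] f (t e))
    fun e => y (s e) - y (t e)
  rw [h8, Pw_symm, h1, h1] at h9
  have h10 := En_nonneg s t y
  have h11 := mul_le_mul_of_nonneg_right h5 h10
  have h12 : 0 ≤ 1 / (#T : ℝ) * En s t y := by positivity
  have e : 14 / (#T : ℝ) * En s t y = 14 * (1 / (#T : ℝ) * En s t y) := by ring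
  rw [e]
  unfold En at h11 h12 ⊢
  linarith

end Pool.Agent.P.MP_e59a69_co
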