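import Pool.Agent.P.MP_e59a69_co.KGen
import Pool.Agent.P.MP_e59a69_co.KWalk
import Pool.Agent.P.MP_e59a69_co.KBin
import Pool.Agent.P.MP_e59a69_co.KCarve

/-! The bad vertices contain no rich set. -/

open Finset Function

namespace Pool.Agent.P.MP_e59a69_co

section
variable {V E : Type} [Fintype V] [Fintype E] [DecidableEq V] {s t : E → V}

/-- distribution of the walk started at `v` -/
noncomputable def wm (s t : E → V) (ρ : ℕ) (v : V) : V → ℝ :=
  (Pw s t)^[ρ] fun x => if x = v then 1 else 0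

lemma wm_evl (ρ : ℕ) (v : V) (y : V → ℝ) : evl (wm s t ρ v) y = (Pw s t)^[ρ] y v := by
  rw [wm, Pw_symm]
  simp [evl]

omit [Fintype V] in
lemma wm_nonneg (ρ : ℕ) (v x : V) : 0 ≤ wm s t ρ v x :=
  Pw_nonneg ρ (fun _ => by split_ifs <;> norm_num) x

lemma wm_sum (h : ∀ v, dg s t univ v = 3) (ρ : ℕ) (v : V) : ∑ x, wm s t ρ v x = 1 := by
  rw [wm, Pw_sum h]
  simp

lemma kdsl_sum (q : ℕ) (g : V → V → ℝ) :
    ∑ f : {p : V × V // p.2 ∈ kball s t univ {p.1} q}, g f.1.1 f.1.2 =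
      ∑ v, ∑ u ∈ kball s t univ {v} q, g v u := by
  rw [← sum_subtype (univ.filter fun p : V × V => p.2 ∈ kball s t univ {p.1} q) (by simp)
    fun p => g p.1 p.2, sum_filter, Fintype.sum_prod_type]
  exact sum_congr rfl fun v _ => by rw [← sum_filter]; simp

lemma kdsl_fst (h : ∀ v, dg s t univ v = 3) (q : ℕ) (g : V → ℝ) (hg : ∀ v, 0 ≤ g v) :
    ∑ v, ∑ _u ∈ kball s t univ {v} q, g v ≤ 4 ^ q * ∑ v, g v := by
  rw [mul_sum]
  refine sum_le_sum fun v _ => ?_
  rw [sum_const, nsmul_eq_mul]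
  have := card_kball h univ {v} q
  rw [card_singleton, mul_one] at this
  exact mul_le_mul_of_nonneg_right (by exact_mod_cast this) (hg v)

lemma kdsl_snd (h : ∀ v, dg s t univ v = 3) (q : ℕ) (g : V → ℝ) (hg : ∀ v, 0 ≤ g v) :
    ∑ v, ∑ u ∈ kball s t univ {v} q, g u ≤ 4 ^ q * ∑ v, g v := by
  rw [sum_comm' (t' := univ) (s' := fun u => kball s t univ {u} q) fun v u =>
    ⟨fun a => ⟨kball_symm univ a.2, mem_univ _⟩, fun a => ⟨mem_univ _, kball_symm univ a.1⟩⟩]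
  exact kdsl_fst h q g hg

lemma kdsl_cost (h : ∀ v, dg s t univ v = 3) {l : V → V → ℝ} (hl : Met l) (q ρ : ℕ)
    (hρ : 1 ≤ ρ) : ∑ v, ∑ u ∈ kball s t univ {v} q,
      ∑ x, |wm s t ρ v x - wm s t ρ u x| * l v x ≤ 4 * 16 ^ q * ρ * Pl s t l := by
  have m0 : ∀ v, 0 ≤ (Pw s t)^[ρ] (l v) v := fun v => Pw_nonneg ρ (hl.nonneg v) v
  have h1 : ∀ v u, ∑ x, |wm s t ρ v x - wm s t ρ u x| * l v x ≤
      (Pw s t)^[ρ] (l v) v + (l v u + (Pw s t)^[ρ] (l u) u) := fun v u => by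
    rw [← wm_evl, ← wm_evl, ← one_mul (l v u), ← wm_sum h ρ u, sum_mul, evl, evl,
      ← sum_add_distrib, ← sum_add_distrib]
    refine sum_le_sum fun x _ => ?_
    have a1 := wm_nonneg (s := s) (t := t) ρ v x
    have a2 := wm_nonneg (s := s) (t := t) ρ u x
    have a3 : |wm s t ρ v x - wm s t ρ u x| ≤ wm s t ρ v x + wm s t ρ u x := by
      rw [abs_le]; constructor <;> linarith
    nlinarith [mul_le_mul_of_nonneg_right a3 (hl.nonneg v x),
      mul_le_mul_of_nonneg_left (hl.tri v u x) a2]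
  refine le_trans (sum_le_sum fun v _ => sum_le_sum fun u _ => h1 v u) ?_
  simp only [sum_add_distrib]
  have a1 := kdsl_fst h q _ m0
  have a2 := kdsl_snd h q _ m0
  have a3 := kball_length h hl q
  have a4 := Pw_length h hl ρ
  have a5 := Pl_nonneg s t hl
  have a6 : (4 : ℝ) ^ q ≤ 16 ^ q := pow_le_pow_left₀ (by norm_num) (by norm_num) q
  have a7 : (1 : ℝ) ≤ ρ := by exact_mod_cast hρ
  have a8 : (4 : ℝ) ^ q * ∑ v, (Pw s t)^[ρ] (l v) v ≤ 16 ^ q * (ρ * Pl s t l) :=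
    mul_le_mul a6 a4 (sum_nonneg fun v _ => m0 v) (by positivity)
  have a9 : (16 : ℝ) ^ q * Pl s t l ≤ 16 ^ q * (ρ * Pl s t l) := by
    gcongr
    nlinarith
  nlinarith

/-- most of the mass sits at vertices with many near vertices of comparable mass -/
lemma kdsl_near [DecidableEq E] {c : ℕ} (H : Cub s t c) {l : V → V → ℝ} (hl : Met l)
    (a : V → ℝ) (w : E → ℝ) (ε C : ℝ) (hε : 0 < ε) (hC : 0 < C) (ha1 : ∑ v, a v ≤ 1)
    (ha : ∀ v, 0 ≤ a v) (hw : ∀ e, 0 ≤ w e ∧ w e ≤ a (s e) ∧ w e ≤ a (t e))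
    (hrich : ∀ S : Finset V, (1 + ε) * ∑ v ∈ S, a v ≤ ∑ e with s e ∈ S ∨ t e ∈ S, w e)
    (lam M ρ : ℕ) (hlam : 0 < lam) (hM : (M : ℝ) ≤ (1 + ε / (6 * 2 ^ lam)) ^ ρ)
    (hc : M + 2 ≤ c) :
    ∃ S : Finset V, ε / 2 * ∑ v ∈ S, a v ≤ 3 / lam + Pl s t l / C ∧
      ∀ v, v ∉ S → 0 < a v → ∃ Q : Finset V, M ≤ #Q ∧
        ∀ u ∈ Q, a v ≤ 2 ^ lam * a u ∧ l v u ≤ ρ * (C * 2 ^ lam * a v) := by
  classical
  obtain ⟨b, b1, b2⟩ := kbin s t H.deg a w ha1 ha hw lam hlam
  let A : Finset E := {e | 0 < w e ∧ b (s e) = b (t e) ∧ l (s e) (t e) ≤ C * w e}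
  have key : ∀ v, 0 < a v → ∀ r, ∀ u ∈ kball s t A {v} r,
      0 < a u ∧ b u = b v ∧ l v u ≤ r * (C * 2 ^ lam * a v) := by
    intro v hv r
    have p0 : 0 ≤ C * 2 ^ lam * a v := by positivity
    induction r with
    | zero =>
      intro u hu
      rw [kball_zero, mem_singleton] at hu
      subst hu
      exact ⟨hv, rfl, by simp [hl.self]⟩
    | succ r ih =>
      intro u hu
      rw [kball_succ, mem_nb] at hu
      push_cast
      rcases hu with hu | ⟨e, he, x, hx, hj⟩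
      · obtain ⟨a1, a2, a3⟩ := ih u hu
        exact ⟨a1, a2, by linarith⟩
      obtain ⟨a1, a2, a3⟩ := ih x hx
      obtain ⟨e1, e2, e3⟩ := (mem_filter.1 he).2
      obtain ⟨w1, w2, w3⟩ := hw e
      have a4 := b1 x v a1 hv a2
      have a5 := hl.tri v x u
      have a6 : 0 < a u ∧ b u = b x ∧ l x u ≤ C * a x := by
        rcases hj with ⟨rfl, rfl⟩ | ⟨rfl, rfl⟩
        · exact ⟨by linarith, e2.symm, by nlinarith⟩
        · exact ⟨by linarith, e2, by rw [hl.symm]; nlinarith⟩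
      exact ⟨a6.1, a6.2.1.trans a2, by nlinarith [a6.2.2]⟩
  obtain ⟨S, h1, h2⟩ := kcarve H a w ε (2 ^ lam) hε (one_le_pow₀ (by norm_num)) ha hw hrich A M ρ
    hM hc fun v hv u hu u' hu' => b1 u u' (key v hv ρ u hu).1 (key v hv ρ u' hu').1
      ((key v hv ρ u hu).2.1.trans (key v hv ρ u' hu').2.1.symm)
  refine ⟨S, h1.trans ?_, fun v hv hv' => ⟨_, h2 v hv hv', fun u hu =>
    ⟨b1 v u hv' (key v hv' ρ u hu).1 (key v hv' ρ u hu).2.1.symm, (key v hv' ρ u hu).2.2⟩⟩⟩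
  refine le_trans ?_ (add_le_add b2 le_rfl)
  rw [Pl, sum_div, sum_filter, ← sum_add_distrib, ← sum_ite_mem_eq Aᶜ]
  refine sum_le_sum fun e _ => ?_
  have w1 := (hw e).1
  have w2 : 0 ≤ l (s e) (t e) / C := div_nonneg (hl.nonneg _ _) hC.le
  by_cases e1 : e ∈ Aᶜ
  · rw [if_pos e1]
    by_cases e2 : b (s e) ≠ b (t e)
    · rw [if_pos e2]; linarith
    rw [if_neg e2, zero_add]
    rcases w1.eq_or_lt with e3 | e3
    · linarith
    rw [le_div_iff₀ hC, mul_comm]
    by_contra e4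
    exact mem_compl.1 e1 (mem_filter.2 ⟨mem_univ _, e3, not_not.1 e2, (not_le.1 e4).le⟩)
  · rw [if_neg e1]
    split_ifs <;> linarith

end

lemma kdsl_rho (K μ β : ℝ) (hμ : 0 < μ) (hβ : 1 < β) : ∃ ρ : ℕ, 1 ≤ ρ ∧
    K * (1 / ρ + 4 * (19 / 20) ^ (2 * ρ) * (ρ : ℝ) ^ 9) ≤ μ ∧ (ρ : ℝ) ^ 5 ≤ β ^ ρ := by
  have h1 : Filter.Tendsto (fun ρ : ℕ => K * (1 / ρ + 4 * (19 / 20) ^ (2 * ρ) * (ρ : ℝ) ^ 9))
      Filter.atTop (nhds (K * (0 + 4 * 0))) := by
    refine Filter.Tendsto.const_mul _ (tendsto_one_div_atTop_nhds_zero_nat.add ?_)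
    have := (tendsto_pow_const_mul_const_pow_of_abs_lt_one 9
      (r := (19 / 20) ^ 2) (by norm_num [abs_lt])).const_mul 4
    refine this.congr fun ρ => ?_
    rw [pow_mul]; ring
  have h2 := tendsto_pow_const_div_const_pow_of_one_lt 5 hβ
  have h3 := h1.eventually (ge_mem_nhds (show K * (0 + 4 * 0) < μ by simpa using hμ))
  have h4 := h2.eventually (ge_mem_nhds one_pos)
  obtain ⟨ρ, a1, a2, a3⟩ := ((Filter.eventually_ge_atTop 1).and (h3.and h4)).exists
  exact ⟨ρ, a1, a2, by rwa [div_le_one (by positivity)] at a3⟩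

theorem kdsl (ε η : ℝ) (hε : 0 < ε) (hη : 0 < η) (q : ℕ) : ∃ ρ c : ℕ,
    ∀ (V E : Type) [Fintype V] [Fintype E] [DecidableEq V] [DecidableEq E] (s t : E → V),
      Cub s t c → ∃ (D : V × V → ℝ) (Bad : Finset V), Dom s t D ∧
        (∀ Z ⊆ Bad, Z.Nonempty → ¬ Rich s t ε Z) ∧
        ∀ v, v ∉ Bad → ∀ u ∈ kball s t univ {v} q, ∀ y,
          ((Pw s t)^[ρ] y v - (Pw s t)^[ρ] y u) ^ 2 ≤ η * (En s t y + ED D y) := by
  obtain ⟨η', g1, g2, g3⟩ : ∃ η' : ℝ, 0 < η' ∧ η' ≤ 1 ∧ 4 ^ q * η' ≤ η := by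
    refine ⟨min (η / 4 ^ q) 1, lt_min (by positivity) one_pos, min_le_right _ _, ?_⟩
    rw [mul_comm, ← le_div_iff₀ (by positivity)]
    exact min_le_left _ _
  obtain ⟨B, hB⟩ : ∃ B : ℝ, B = (q + 1) ^ 2 := ⟨_, rfl⟩
  have hq0 : (0 : ℝ) ≤ q := Nat.cast_nonneg q
  have hB1 : 1 ≤ B := by nlinarith
  obtain ⟨μ0, hμ0⟩ : ∃ μ0 : ℝ, μ0 = (η' / (16 * B)) ^ 2 := ⟨_, rfl⟩
  have hμ : 0 < μ0 := by rw [hμ0]; positivity
  obtain ⟨lam, hlam⟩ := exists_nat_gt (24 / (ε * μ0))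
  have hlam0 : (0 : ℝ) < lam := lt_trans (by positivity) hlam
  obtain ⟨C1, hC1⟩ : ∃ C1 : ℝ, C1 = 16 * B / (ε * μ0) := ⟨_, rfl⟩
  have hC : 0 < C1 := by rw [hC1]; positivity
  obtain ⟨C2, hC2⟩ : ∃ C2 : ℝ, C2 = 16 * 16 ^ q * B / μ0 + C1 * 2 ^ lam * 4 ^ q + 1 := ⟨_, rfl⟩
  have c21 : 0 ≤ 16 * 16 ^ q * B / μ0 := by positivity
  have c22 : 0 ≤ C1 * 2 ^ lam * 4 ^ q := by positivity
  obtain ⟨ρ, r1, r2, r3⟩ := kdsl_rho (2 ^ 50 * C2 ^ 4 / (η' / 8) ^ 10 * (2 * B + 2 ^ lam)) μ0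
    (1 + ε / (6 * 2 ^ lam)) hμ (by simp; positivity)
  have r0 : (1 : ℝ) ≤ ρ := by exact_mod_cast r1
  obtain ⟨c, hc1, hc2⟩ : ∃ c : ℕ, 4 ^ ρ * 1 + 2 ≤ c ∧ ρ ^ 5 + 3 ≤ c :=
    ⟨4 ^ ρ * 1 + 2 + (ρ ^ 5 + 3), Nat.le_add_right _ _, Nat.le_add_left _ _⟩
  refine ⟨ρ, c, fun V E _ _ _ _ s t H => ?_⟩
  classical
  let χ : {p : V × V // p.2 ∈ kball s t univ {p.1} q} → V → ℝ := fun f x =>
    wm s t ρ f.1.1 x - wm s t ρ f.1.2 x
  have hev : ∀ f y, evl (χ f) y = (Pw s t)^[ρ] y f.1.1 - (Pw s t)^[ρ] y f.1.2 := fun f y => by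
    rw [← wm_evl, ← wm_evl]
    simp [evl, χ, sub_mul, sum_sub_distrib]
  let a : {Z : Finset V // Z.Nonempty ∧ Rich s t ε Z} →
      {p : V × V // p.2 ∈ kball s t univ {p.1} q} → ℝ := fun Z f =>
    (if f.1.1 ∈ Z.1 then 1 / (#Z.1 : ℝ) else 0) / 4 ^ q
  have hZ : ∀ Z : {Z : Finset V // Z.Nonempty ∧ Rich s t ε Z}, (0 : ℝ) < #Z.1 := fun Z => by
    exact_mod_cast card_pos.2 Z.2.1
  have hone : ∀ Z : {Z : Finset V // Z.Nonempty ∧ Rich s t ε Z},
      ∑ v, (if v ∈ Z.1 then 1 / (#Z.1 : ℝ) else 0) = 1 := fun Z => by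
    rw [sum_ite_mem_eq, sum_const, nsmul_eq_mul, mul_one_div_cancel (hZ Z).ne']
  have hdec : ∀ v, ∑ x, wm s t ρ v x ^ 2 ≤ (19 / 20) ^ (2 * ρ) := fun v => by
    have := Pw_decay H {v} ρ (by rw [card_singleton]; omega) (fun x => if x = v then 1 else 0)
      fun x hx => if_neg (by simpa using hx)
    simpa [wm] using this
  have hcut : ∀ X : Finset V, ∀ k, k ≤ ρ ^ 5 → k < #X → k < #Xᶜ → k + 1 ≤ ct s t univ X :=
    fun X k hk a1 a2 => by
      rcases H.cut X with h | h | h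
      · omega
      · have := h X Subset.rfl (card_pos.1 (by omega))
        omega
      · have := h Xᶜ Subset.rfl (card_pos.1 (by omega))
        rw [ct_compl] at this
        omega
  obtain ⟨D, r, d1, d2, d3, d4⟩ := kgen s t χ (fun f => f.1.1) a B η' (4 * (19 / 20) ^ (2 * ρ))
    (C2 * ρ) (2 ^ lam) ((ρ : ℝ) ^ 5) (ρ ^ 5) (ρ ^ 5) hB1 g1 g2 (by positivity) (by nlinarith)
    (one_le_pow₀ (by norm_num)) (by positivity) (by positivity)
    (fun f => by simp [χ, sum_sub_distrib, wm_sum H.deg])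
    (fun f => by
      refine le_trans (sum_le_sum (g := fun x => wm s t ρ f.1.1 x + wm s t ρ f.1.2 x)
        fun x _ => ?_) (by rw [sum_add_distrib, wm_sum H.deg, wm_sum H.deg]; norm_num)
      have a1 := wm_nonneg (s := s) (t := t) ρ f.1.1 x
      have a2 := wm_nonneg (s := s) (t := t) ρ f.1.2 x
      simp only [χ]
      rw [abs_le]; constructor <;> linarith)
    (fun f => by
      refine le_trans (sum_le_sum
        (g := fun x => 2 * wm s t ρ f.1.1 x ^ 2 + 2 * wm s t ρ f.1.2 x ^ 2) fun x _ => ?_) ?_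
      · simp only [χ]
        nlinarith [sq_nonneg (wm s t ρ f.1.1 x + wm s t ρ f.1.2 x)]
      · rw [sum_add_distrib, ← mul_sum, ← mul_sum]
        linarith [hdec f.1.1, hdec f.1.2])
    (fun f y => by
      rw [hev]
      refine (kball_energy f.2 _).trans ?_
      exact mul_le_mul (by nlinarith) (Pw_energy H.deg ρ y) (En_nonneg _ _ _) (by linarith))
    (fun Z f => by
      have := hZ Z
      simp only [a]
      split_ifs <;> positivity)
    (fun Z => by
      have := hZ Z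
      rw [kdsl_sum q fun v _ => (if v ∈ Z.1 then 1 / (#Z.1 : ℝ) else 0) / 4 ^ q]
      refine (kdsl_fst H.deg q _ fun v => by split_ifs <;> positivity).trans ?_
      rw [← sum_div, hone, mul_one_div_cancel (by positivity)])
    (fun X a1 a2 => hcut X 0 (Nat.zero_le _) (card_pos.2 a1) (card_pos.2 a2))
    (fun X a1 a2 => by exact_mod_cast (Nat.le_succ _).trans (hcut X _ le_rfl a1 a2))
    (fun la l l0 l1 hl hP => by
      let av : V → ℝ := fun v => ∑ Z, la Z * if v ∈ Z.1 then 1 / (#Z.1 : ℝ) else 0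
      let w : E → ℝ := fun e => ∑ Z, la Z * if s e ∈ Z.1 ∧ t e ∈ Z.1 then 1 / (#Z.1 : ℝ) else 0
      have hmix : ∀ f, mix la a f = av f.1.1 / 4 ^ q := fun f => by
        simp only [mix, a, av, sum_div, mul_div_assoc]
      have av0 : ∀ v, 0 ≤ av v := fun v => sum_nonneg fun Z _ => mul_nonneg (l0 Z) (by
        have := hZ Z
        split_ifs <;> positivity)
      have av1 : ∑ v, av v ≤ 1 := by
        simp only [av]
        rw [sum_comm]
        simpa only [← mul_sum, hone, mul_one] using l1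
      obtain ⟨S, s1, s2⟩ := kdsl_near H hl av w ε C1 hε hC av1 av0
        (fun e => by
          refine ⟨sum_nonneg fun Z _ => mul_nonneg (l0 Z) ?_,
            sum_le_sum fun Z _ => mul_le_mul_of_nonneg_left ?_ (l0 Z),
            sum_le_sum fun Z _ => mul_le_mul_of_nonneg_left ?_ (l0 Z)⟩ <;> have := hZ Z
          · split_ifs <;> positivity
          · by_cases b1 : s e ∈ Z.1 <;> by_cases b2 : t e ∈ Z.1 <;> simp [b1, b2]
          · by_cases b1 : s e ∈ Z.1 <;> by_cases b2 : t e ∈ Z.1 <;> simp [b1, b2])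
        (fun S => by
          simp only [av, w]
          rw [sum_comm, sum_comm (s := univ.filter _), mul_sum]
          refine sum_le_sum fun Z _ => ?_
          rw [← mul_sum, ← mul_sum, mul_left_comm]
          refine mul_le_mul_of_nonneg_left ?_ (l0 Z)
          rw [← sum_filter, ← sum_filter, sum_const, sum_const, nsmul_eq_mul, nsmul_eq_mul,
            ← mul_assoc]
          refine mul_le_mul_of_nonneg_right ((Z.2.2 _ fun v hv => (mem_filter.1 hv).2).trans ?_)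
            (by have := hZ Z; positivity)
          refine Nat.cast_le.2 (card_le_card fun e he => ?_)
          simp only [mem_filter, mem_univ, true_and] at he ⊢
          tauto)
        lam (ρ ^ 5) ρ (by exact_mod_cast hlam0) (by exact_mod_cast r3) (by omega)
      have hR : 0 < C2 * ρ := by nlinarith
      have m0 : ∀ f, 0 ≤ mix la a f := fun f => by rw [hmix]; exact div_nonneg (av0 _) (by positivity)
      refine ⟨(univ.filter fun f => f.1.1 ∈ S) ∪ univ.filter fun f =>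
        C2 * ρ * mix la a f < ∑ x, |χ f x| * l f.1.1 x, ?_, fun f hf hf0 => ?_⟩
      · have b0 := sum_union_inter (s₁ := univ.filter fun f => f.1.1 ∈ S)
          (s₂ := univ.filter fun f => C2 * ρ * mix la a f < ∑ x, |χ f x| * l f.1.1 x)
          (f := mix la a)
        have b1 : ∑ f with f.1.1 ∈ S, mix la a f ≤ μ0 / 2 := by
          rw [sum_filter]
          simp only [hmix]
          rw [kdsl_sum q fun v _ => if v ∈ S then av v / 4 ^ q else 0]
          refine (kdsl_fst H.deg q _ fun v => by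
            have := av0 v
            split_ifs <;> positivity).trans ?_
          rw [sum_ite_mem_eq, ← sum_div, mul_div_cancel₀ _ (by positivity)]
          have e1 : 3 / (lam : ℝ) ≤ ε * μ0 / 8 := by
            rw [div_lt_iff₀ (by positivity)] at hlam
            rw [div_le_iff₀ hlam0]
            linarith
          have e2 : Pl s t l / C1 ≤ ε * μ0 / 8 := by
            rw [div_le_iff₀ hC, hC1]
            refine hP.trans (le_of_eq ?_)
            field_simp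
            ring
          refine le_of_mul_le_mul_left ?_ (show 0 < ε / 2 by linarith)
          linarith
        have b2 : ∑ f with C2 * ρ * mix la a f < ∑ x, |χ f x| * l f.1.1 x, mix la a f ≤
            μ0 / 2 := by
          refine le_of_mul_le_mul_left ?_ hR
          rw [mul_sum]
          refine le_trans (sum_le_sum fun f hf => (mem_filter.1 hf).2.le) ?_
          refine le_trans (sum_le_sum_of_subset_of_nonneg (subset_univ _) fun f _ _ =>
            sum_nonneg fun x _ => mul_nonneg (abs_nonneg _) (hl.nonneg _ _)) ?_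
          rw [kdsl_sum q fun v u => ∑ x, |wm s t ρ v x - wm s t ρ u x| * l v x]
          refine (kdsl_cost H.deg hl q ρ r1).trans ?_
          have e1 : 16 * 16 ^ q * B ≤ C2 * μ0 := by
            rw [← div_le_iff₀ hμ]; linarith
          have e2 : 4 * 16 ^ q * ρ * Pl s t l ≤ 4 * 16 ^ q * ρ * (2 * B) := by gcongr
          nlinarith
        have b3 := sum_nonneg (s := (univ.filter fun f => f.1.1 ∈ S) ∩ univ.filter fun f =>
          C2 * ρ * mix la a f < ∑ x, |χ f x| * l f.1.1 x) fun f _ => m0 f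
        rw [← hμ0]
        linarith
      · rw [mem_union, not_or] at hf
        have b1 : 0 < av f.1.1 := by
          rw [hmix] at hf0
          exact (div_pos_iff_of_pos_right (by positivity)).1 hf0
        obtain ⟨Q, q1, q2⟩ := s2 f.1.1 (fun h => hf.1 (mem_filter.2 ⟨mem_univ _, h⟩)) b1
        refine ⟨not_lt.1 fun h => hf.2 (mem_filter.2 ⟨mem_univ _, h⟩), q1.trans ?_⟩
        refine card_le_card_of_injOn (fun u => ⟨(u, u), kball_mono univ Subset.rfl (Nat.zero_le q)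
          (mem_singleton_self u)⟩) (fun u hu => ?_) fun u _ u' _ h =>
            (Prod.ext_iff.1 (Subtype.ext_iff.1 h)).1
        obtain ⟨e1, e2⟩ := q2 u hu
        refine mem_coe.2 (mem_filter.2 ⟨mem_univ _, ?_, e2.trans ?_⟩)
        · rw [hmix, hmix, ← mul_div_assoc]
          exact div_le_div_of_nonneg_right e1 (by positivity)
        · rw [hmix, ← mul_div_assoc, le_div_iff₀ (by positivity)]
          have e3 : 0 ≤ ρ * av f.1.1 := by positivity
          nlinarith [mul_le_mul_of_nonneg_right (show C1 * 2 ^ lam * 4 ^ q ≤ C2 by linarith) e3])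
    (by
      rw [← hμ0]
      refine le_trans (le_of_eq ?_) r2
      push_cast
      field_simp)
  refine ⟨D, univ.filter fun v => ∃ f : {p : V × V // p.2 ∈ kball s t univ {p.1} q},
    f.1.1 = v ∧ η < r f, d1, fun Z hZ1 hZ2 hZ3 => ?_, fun v hv u hu y => ?_⟩
  · have b1 := d4 ⟨Z, hZ2, hZ3⟩
    have b0 := hZ ⟨Z, hZ2, hZ3⟩
    rw [← sum_fiberwise univ fun f => f.1.1] at b1
    have b2 : ∀ v ∈ Z, 1 / (#Z : ℝ) / 4 ^ q * η <
        ∑ f with f.1.1 = v, a ⟨Z, hZ2, hZ3⟩ f * r f := fun v hv => by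
      obtain ⟨f, f1, f2⟩ := (mem_filter.1 (hZ1 hv)).2
      refine lt_of_lt_of_le ?_ (single_le_sum (f := fun f => a ⟨Z, hZ2, hZ3⟩ f * r f)
        (fun g _ => mul_nonneg (by simp only [a]; split_ifs <;> positivity) (d2 g))
        (mem_filter.2 ⟨mem_univ f, f1⟩))
      simp only [a, f1, hv, if_true]
      exact mul_lt_mul_of_pos_left f2 (by positivity)
    have b3 := sum_lt_sum_of_nonempty hZ2 b2
    have b4 := sum_le_sum_of_subset_of_nonneg (subset_univ Z)
      (f := fun v => ∑ f with f.1.1 = v, a ⟨Z, hZ2, hZ3⟩ f * r f) fun v _ _ =>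
        sum_nonneg fun g _ => mul_nonneg (by simp only [a]; split_ifs <;> positivity) (d2 g)
    rw [sum_const, nsmul_eq_mul] at b3
    have b5 : (#Z : ℝ) * (1 / (#Z : ℝ) / 4 ^ q * η) = η / 4 ^ q := by
      simp only at b0
      field_simp
    have b6 : η' ≤ η / 4 ^ q := by rw [le_div_iff₀ (by positivity)]; linarith
    linarith
  · have b1 := d3 ⟨(v, u), hu⟩ y
    rw [hev] at b1
    refine b1.trans (mul_le_mul_of_nonneg_right (not_lt.1 fun h => hv ?_)
      (add_nonneg (En_nonneg _ _ _) (ED_nonneg d1.1 _)))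
    exact mem_filter.2 ⟨mem_univ _, _, rfl, h⟩

end Pool.Agent.P.MP_e59a69_co
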