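import Pool.Agent.P.MP_e59a69_co.KMM

/-! Shortcuts dominated on cuts, or a metric with potentials. -/

open Finset Function

namespace Pool.Agent.P.MP_e59a69_co

lemma kdual_cs {ι : Type} [Fintype ι] (b d : ι → ℝ) (hb : ∀ k, 0 ≤ b k) :
    ((∑ k, b k * d k) / √(∑ k, b k)) ^ 2 ≤ ∑ k, b k * d k ^ 2 := by
  have hM : 0 ≤ ∑ k, b k := sum_nonneg fun k _ => hb k
  have h2 : 0 ≤ ∑ k, b k * d k ^ 2 := sum_nonneg fun k _ => mul_nonneg (hb k) (sq_nonneg _)
  rw [div_pow, Real.sq_sqrt hM]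
  rcases hM.eq_or_lt with h | h
  · rw [← h, div_zero]; exact h2
  · rw [div_le_iff₀ h, mul_comm]
    exact sum_sq_le_sum_mul_sum_of_sq_le_mul _ (fun k _ => hb k)
      (fun k _ => mul_nonneg (hb k) (sq_nonneg _)) fun k _ => le_of_eq (by ring)

lemma kdual_sqrt {ι : Type} [Fintype ι] (b d : ι → ℝ) (hb : ∀ k, 0 ≤ b k) :
    √(∑ k, b k) * ((∑ k, b k * d k) / √(∑ k, b k)) = ∑ k, b k * d k := by
  have hM : 0 ≤ ∑ k, b k := sum_nonneg fun k _ => hb k
  rcases hM.eq_or_lt with h | h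
  · have h0 := (sum_eq_zero_iff_of_nonneg fun k _ => hb k).1 h.symm
    have : ∑ k, b k * d k = 0 := sum_eq_zero fun k hk => by rw [h0 k hk, zero_mul]
    rw [this, zero_div, mul_zero]
  · have := Real.sqrt_pos.2 h
    field_simp

lemma kdual_amgm {e B n : ℝ} (hB : 0 ≤ B) (hn : 0 ≤ n) (h : e ^ 2 ≤ B * n) : 2 * e ≤ B + n := by
  refine le_of_sq_le_sq ?_ (add_nonneg hB hn)
  nlinarith [sq_nonneg (B - n)]

lemma kdual_r {V E Φ : Type} [Fintype V] [Fintype E] (s t : E → V) (χ : Φ → V → ℝ) {B : ℝ}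
    (hB : 0 < B) (hχ : ∀ f y, evl (χ f) y ^ 2 ≤ B * En s t y) {D : V × V → ℝ}
    (hD : ∀ p, 0 ≤ D p) : ∃ r : Φ → ℝ, (∀ f, 0 ≤ r f) ∧
      (∀ f y, evl (χ f) y ^ 2 ≤ r f * (En s t y + ED D y)) ∧
      ∀ f ε, 0 < ε → ∃ w, r f - ε < 2 * evl (χ f) w - En s t w - ED D w := by
  have hb : ∀ f, BddAbove (Set.range fun w => 2 * evl (χ f) w - En s t w - ED D w) := by
    intro f
    refine ⟨B, ?_⟩
    rintro _ ⟨w, rfl⟩
    have h1 := kdual_amgm hB.le (En_nonneg s t w) (hχ f w)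
    have h2 := ED_nonneg hD w
    show 2 * evl (χ f) w - En s t w - ED D w ≤ B
    linarith
  have hs : ∀ f y (τ : ℝ), 2 * τ * evl (χ f) y - τ ^ 2 * (En s t y + ED D y) ≤
      ⨆ w, (2 * evl (χ f) w - En s t w - ED D w) := by
    intro f y τ
    refine le_trans (le_of_eq ?_) (le_ciSup (hb f) fun x => τ * y x)
    have e1 : evl (χ f) (fun x => τ * y x) = τ * evl (χ f) y := by
      simp only [evl, mul_sum]
      exact sum_congr rfl fun _ _ => by ring
    have e2 : En s t (fun x => τ * y x) = τ ^ 2 * En s t y := by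
      simp only [En, mul_sum]
      exact sum_congr rfl fun _ _ => by ring
    have e3 : ED D (fun x => τ * y x) = τ ^ 2 * ED D y := by
      simp only [ED, mul_sum]
      exact sum_congr rfl fun _ _ => by ring
    rw [e1, e2, e3]
    ring
  refine ⟨fun f => ⨆ w, (2 * evl (χ f) w - En s t w - ED D w), fun f => ?_, fun f y => ?_,
    fun f ε hε => exists_lt_of_lt_ciSup (by linarith)⟩
  · have := hs f 0 0
    simpa using this
  · have h1 := En_nonneg s t y
    have h2 := ED_nonneg hD y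
    rcases (add_nonneg h1 h2).eq_or_lt with h | h
    · have h3 : En s t y = 0 := by linarith
      have h4 := hχ f y
      rw [h3, mul_zero] at h4
      rw [← h, mul_zero]
      exact h4
    · have h3 := hs f y (evl (χ f) y / (En s t y + ED D y))
      rw [← div_le_iff₀ h]
      refine le_trans (le_of_eq ?_) h3
      field_simp
      ring

lemma kdual_merge {V E Φ ι : Type} [Fintype V] [Fintype E] [Fintype Φ] [Fintype ι] [DecidableEq V]
    (s t : E → V) (χ : Φ → V → ℝ) {B η : ℝ} (hB : 0 < B) (hη : 0 < η)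
    (hχ : ∀ f y, evl (χ f) y ^ 2 ≤ B * En s t y) (b : ι → Φ → ℝ) (hb : ∀ k f, 0 ≤ b k f)
    (hb1 : ∑ f, ∑ k, b k f ≤ 1) (W : ι → Φ → V → ℝ) (ν : ι → ℝ) (hν : ∀ k, 0 ≤ ν k)
    (S : ι → Finset V) {C : ℝ}
    (hC : C = ∑ k, (∑ f, b k f * (2 * evl (χ f) (W k f) - En s t (W k f)) -
      ν k * (ct s t univ (S k) : ℝ))) (h0 : η < C)
    (h1 : ∀ x x', η < C + ((Fintype.card E : ℝ) + 1) * ∑ k, (ν k * (ind1 (S k) x - ind1 (S k) x') ^ 2
      - ∑ f, b k f * (W k f x - W k f x') ^ 2)) :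
    ∃ (z : Φ → V → ℝ) (l : V → V → ℝ), Met l ∧ Pl s t l ≤ 2 * B ∧
      (∀ x x', ∑ f, (z f x - z f x') ^ 2 ≤ l x x') ∧ ∑ f, evl (χ f) (z f) ^ 2 ≤ 4 * B ^ 2 ∧
      η / 2 ≤ ∑ f, √(∑ k, b k f) * evl (χ f) (z f) := by
  obtain ⟨z, hz⟩ : ∃ z : Φ → V → ℝ, ∀ f x, z f x = (∑ k, b k f * W k f x) / √(∑ k, b k f) :=
    ⟨_, fun _ _ => rfl⟩
  obtain ⟨l0, hl0⟩ : ∃ l0 : V → V → ℝ, ∀ x x',
      l0 x x' = ∑ k, ν k * (ind1 (S k) x - ind1 (S k) x') ^ 2 := ⟨_, fun _ _ => rfl⟩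
  have hN : (0 : ℝ) < (Fintype.card E : ℝ) + 1 := by positivity
  have hcs : ∀ f x x', (z f x - z f x') ^ 2 ≤ ∑ k, b k f * (W k f x - W k f x') ^ 2 := by
    intro f x x'
    refine le_trans (le_of_eq ?_) (kdual_cs (fun k => b k f) _ fun k => hb k f)
    rw [hz, hz, ← sub_div, ← sum_sub_distrib]
    simp only [mul_sub]
  have hev : ∀ f, √(∑ k, b k f) * evl (χ f) (z f) = ∑ k, b k f * evl (χ f) (W k f) := by
    intro f
    rw [← kdual_sqrt (fun k => b k f) (fun k => evl (χ f) (W k f)) fun k => hb k f]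
    congr 1
    simp only [evl, hz, mul_sum, sum_div]
    rw [sum_comm]
    exact sum_congr rfl fun _ _ => sum_congr rfl fun _ _ => by ring
  have hEn : ∀ f, En s t (z f) ≤ ∑ k, b k f * En s t (W k f) := by
    intro f
    simp only [En, mul_sum]
    rw [sum_comm]
    exact sum_le_sum fun e _ => hcs f _ _
  have hP : Pl s t l0 = ∑ k, ν k * (ct s t univ (S k) : ℝ) := by
    simp only [Pl, hl0, ← En_ind1, En, mul_sum]
    rw [sum_comm]
  have hP0 : 0 ≤ Pl s t l0 := by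
    rw [hP]
    exact sum_nonneg fun k _ => mul_nonneg (hν k) (Nat.cast_nonneg _)
  obtain ⟨F, hF⟩ : ∃ F, F = ∑ f, √(∑ k, b k f) * evl (χ f) (z f) := ⟨_, rfl⟩
  obtain ⟨Ez, hEz⟩ : ∃ Ez, Ez = ∑ f, En s t (z f) := ⟨_, rfl⟩
  have hEz0 : 0 ≤ Ez := hEz ▸ sum_nonneg fun f _ => En_nonneg s t _
  have hCle : C ≤ 2 * F - Ez - Pl s t l0 := by
    rw [hC, sum_sub_distrib, hP, sum_comm, hF, hEz, mul_sum, ← sum_sub_distrib]
    refine sub_le_sub_right (sum_le_sum fun f _ => ?_) _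
    have e : ∑ k, b k f * (2 * evl (χ f) (W k f) - En s t (W k f)) =
        2 * ∑ k, b k f * evl (χ f) (W k f) - ∑ k, b k f * En s t (W k f) := by
      rw [mul_sum, ← sum_sub_distrib]
      exact sum_congr rfl fun _ _ => by ring
    rw [e, hev]
    linarith [hEn f]
  have hG : ∑ f, evl (χ f) (z f) ^ 2 ≤ B * Ez := by
    rw [hEz, mul_sum]
    exact sum_le_sum fun f _ => hχ f _
  have hF2 : F ^ 2 ≤ B * Ez := by
    have h2 : F ^ 2 ≤ (∑ f, ∑ k, b k f) * ∑ f, evl (χ f) (z f) ^ 2 := by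
      rw [hF]
      refine sum_sq_le_sum_mul_sum_of_sq_le_mul _ (fun f _ => sum_nonneg fun k _ => hb k f)
        (fun f _ => sq_nonneg _) fun f _ => le_of_eq ?_
      rw [mul_pow, Real.sq_sqrt (sum_nonneg fun k _ => hb k f)]
    have h3 : 0 ≤ ∑ f, evl (χ f) (z f) ^ 2 := sum_nonneg fun f _ => sq_nonneg _
    nlinarith
  have hFB := kdual_amgm hB.le hEz0 hF2
  have hE4 : Ez ≤ 4 * B := by
    by_contra hc
    push Not at hc
    have h2 : Ez < 2 * F := by linarith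
    nlinarith
  refine ⟨z, fun x x' => l0 x x' + if x = x' then 0 else B / ((Fintype.card E : ℝ) + 1),
    ⟨fun x => ?_, fun x y => ?_, fun x y u => ?_⟩, ?_, fun x x' => ?_, ?_, ?_⟩
  · simp [hl0]
  · have e : l0 x y = l0 y x := by
      rw [hl0, hl0]
      exact sum_congr rfl fun _ _ => by ring
    rw [e]
    simp only [eq_comm]
  · have e : l0 x u ≤ l0 x y + l0 y u := by
      rw [hl0, hl0, hl0, ← sum_add_distrib]
      refine sum_le_sum fun k _ => ?_
      rw [← mul_add]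
      refine mul_le_mul_of_nonneg_left ?_ (hν k)
      unfold ind1
      split_ifs <;> norm_num
    have hq : 0 ≤ B / ((Fintype.card E : ℝ) + 1) := by positivity
    split_ifs with h2 h3 h4 h5 h6 h7 h8 <;> first | linarith | exact absurd (h6.trans h7) h2
  · have e : Pl s t (fun x x' => l0 x x' + if x = x' then 0 else B / ((Fintype.card E : ℝ) + 1))
        ≤ Pl s t l0 + ∑ _e : E, B / ((Fintype.card E : ℝ) + 1) := by
      unfold Pl
      rw [← sum_add_distrib]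
      refine sum_le_sum fun e _ => add_le_add le_rfl ?_
      split_ifs
      · positivity
      · exact le_rfl
    have e2 : ∑ _e : E, B / ((Fintype.card E : ℝ) + 1) ≤ B := by
      rw [sum_const, card_univ, nsmul_eq_mul, ← mul_div_assoc, div_le_iff₀ hN]
      nlinarith
    linarith
  · show _ ≤ l0 x x' + _
    split_ifs with h2
    · subst h2
      simp [hl0]
    · have h3 := h1 x x'
      rw [sum_sub_distrib, ← hl0, sum_comm] at h3
      have h4 : ∑ f, (z f x - z f x') ^ 2 ≤ ∑ f, ∑ k, b k f * (W k f x - W k f x') ^ 2 :=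
        sum_le_sum fun f _ => hcs f x x'
      have h5 : ∑ f, ∑ k, b k f * (W k f x - W k f x') ^ 2 - l0 x x' ≤
          B / ((Fintype.card E : ℝ) + 1) := by
        rw [le_div_iff₀ hN]
        nlinarith
      linarith
  · nlinarith
  · rw [← hF]
    linarith

theorem kdual {V E Φ Y : Type} [Fintype V] [Fintype E] [Fintype Φ] [Fintype Y] [DecidableEq V]
    (s t : E → V) (χ : Φ → V → ℝ) (B η : ℝ) (hB : 0 < B) (hη : 0 < η)
    (hχ : ∀ f y, evl (χ f) y ^ 2 ≤ B * En s t y) (a : Y → Φ → ℝ) (ha : ∀ y f, 0 ≤ a y f)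
    (ha1 : ∀ y, ∑ f, a y f ≤ 1) :
    (∃ (D : V × V → ℝ) (r : Φ → ℝ), Dom s t D ∧ (∀ f, 0 ≤ r f) ∧
      (∀ f y, evl (χ f) y ^ 2 ≤ r f * (En s t y + ED D y)) ∧ ∀ y, ∑ f, a y f * r f ≤ η) ∨
    ∃ (lam : Y → ℝ) (z : Φ → V → ℝ) (l : V → V → ℝ), (∀ y, 0 ≤ lam y) ∧ ∑ y, lam y ≤ 1 ∧
      Met l ∧ Pl s t l ≤ 2 * B ∧ (∀ x x', ∑ f, (z f x - z f x') ^ 2 ≤ l x x') ∧
      ∑ f, evl (χ f) (z f) ^ 2 ≤ 4 * B ^ 2 ∧
      η / 2 ≤ ∑ f, √(mix lam a f) * evl (χ f) (z f) := by
  classical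
  refine or_iff_not_imp_left.2 fun hL => ?_
  push Not at hL
  obtain ⟨a', ha0, ha'⟩ : ∃ a' : Option Y → Φ → ℝ, (∀ f, a' none f = 0) ∧
      ∀ y f, a' (some y) f = a y f :=
    ⟨fun o f => o.elim 0 fun y => a y f, fun _ => rfl, fun _ _ => rfl⟩
  have hN : (0 : ℝ) ≤ (Fintype.card E : ℝ) + 1 := by positivity
  have hg : ∀ (μ : ℝ) (X : Finset V) (u : Φ → ℝ) (w : Φ → V → ℝ) (D : V × V → ℝ),
      ∑ p : V × V, (μ * (ind1 X p.1 - ind1 X p.2) ^ 2 - ∑ f, u f * (w f p.1 - w f p.2) ^ 2) * D p =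
        μ * ED D (ind1 X) - ∑ f, u f * ED D (w f) := by
    intro μ X u w D
    simp only [ED, sub_mul, sum_sub_distrib, mul_sum, sum_mul]
    rw [sum_comm (s := (univ : Finset Φ))]
    congr 1
    · exact sum_congr rfl fun _ _ => by ring
    · exact sum_congr rfl fun _ _ => sum_congr rfl fun _ _ => by ring
  obtain ⟨m, ξ, lam, hl0, hl1, hl⟩ := kmm (Ξ := (Option Y × (Φ → V → ℝ)) × (Finset V × ℝ))
    (Set.Icc (0 : V × V → ℝ) fun _ => (Fintype.card E : ℝ) + 1) ⟨0, le_rfl, fun _ => hN⟩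
    isCompact_Icc (convex_Icc _ _)
    (fun ξ => ∑ f, a' ξ.1.1 f * (2 * evl (χ f) (ξ.1.2 f) - En s t (ξ.1.2 f)) -
      |ξ.2.2| * (ct s t univ ξ.2.1 : ℝ))
    (fun ξ p => |ξ.2.2| * (ind1 ξ.2.1 p.1 - ind1 ξ.2.1 p.2) ^ 2 -
      ∑ f, a' ξ.1.1 f * (ξ.1.2 f p.1 - ξ.1.2 f p.2) ^ 2) η (by
      intro D hD
      have hD0 : ∀ p, 0 ≤ D p := hD.1
      simp only [hg]
      by_cases hd : Dom s t D
      · obtain ⟨r, h1, h2, h3⟩ := kdual_r s t χ hB hχ hD0
        obtain ⟨y, hy⟩ := hL D r hd h1 h2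
        have hε : 0 < (∑ f, a y f * r f - η) / 2 := by linarith
        choose w hw using fun f => h3 f _ hε
        refine ⟨((some y, w), (∅, 0)), ?_⟩
        simp only [abs_zero, zero_mul, sub_zero, zero_sub, ha']
        have h4 : ∑ f, a y f * (r f - (∑ f, a y f * r f - η) / 2) ≤
            ∑ f, a y f * (2 * evl (χ f) (w f) - En s t (w f)) + -∑ f, a y f * ED D (w f) := by
          rw [← sub_eq_add_neg, ← sum_sub_distrib]
          refine sum_le_sum fun f _ => ?_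
          rw [← mul_sub]
          exact mul_le_mul_of_nonneg_left (hw f).le (ha y f)
        simp only [mul_sub (a y _) (r _), sum_sub_distrib, ← sum_mul] at h4
        have h5 := mul_le_mul_of_nonneg_right (ha1 y) hε.le
        linarith
      · simp only [Dom, not_and, not_forall, not_le] at hd
        obtain ⟨X, hX⟩ := hd hD0
        have hδ : 0 < ED D (ind1 X) - (ct s t univ X : ℝ) := by linarith
        refine ⟨((none, 0), (X, (η + 1) / (ED D (ind1 X) - (ct s t univ X : ℝ)))), ?_⟩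
        simp only [ha0, zero_mul, sum_const_zero, zero_sub, sub_zero]
        rw [abs_of_pos (by positivity)]
        have e : (η + 1) / (ED D (ind1 X) - (ct s t univ X : ℝ)) *
            (ED D (ind1 X) - (ct s t univ X : ℝ)) = η + 1 := by field_simp
        rw [mul_sub] at e
        linarith)
  have ha0' : ∀ o f, 0 ≤ a' o f := by
    rintro (_ | y) f
    · exact (ha0 f).ge
    · rw [ha']; exact ha y f
  have ha1' : ∀ o, ∑ f, a' o f ≤ 1 := by
    rintro (_ | y)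
    · simp [ha0]
    · simpa only [ha'] using ha1 y
  have hmix : ∀ f, mix (fun y => ∑ k, if (ξ k).1.1 = some y then lam k else 0) a f =
      ∑ k, lam k * a' (ξ k).1.1 f := by
    intro f
    simp only [mix, sum_mul]
    rw [sum_comm]
    refine sum_congr rfl fun k _ => ?_
    rcases (ξ k).1.1 with _ | y
    · simp [ha0]
    · simp [ha']
  obtain ⟨z, l, h1, h2, h3, h4, h5⟩ := kdual_merge s t χ hB hη hχ
    (fun k f => lam k * a' (ξ k).1.1 f) (fun k f => mul_nonneg (hl0 k) (ha0' _ f)) (by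
      rw [sum_comm, ← hl1]
      refine sum_le_sum fun k _ => ?_
      rw [← mul_sum]
      exact mul_le_of_le_one_right (hl0 k) (ha1' _))
    (fun k => (ξ k).1.2) (fun k => lam k * |(ξ k).2.2|)
    (fun k => mul_nonneg (hl0 k) (abs_nonneg _)) (fun k => (ξ k).2.1) rfl (by
      refine (hl 0 ⟨le_rfl, fun _ => hN⟩).trans_le (le_of_eq (sum_congr rfl fun k _ => ?_))
      simp only [Pi.zero_apply, mul_zero, sum_const_zero, add_zero, mul_sub, mul_sum, mul_assoc])
    (by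
      intro x x'
      have h6 := hl (Pi.single (x, x') ((Fintype.card E : ℝ) + 1)) ⟨fun p => by
        by_cases hp : p = (x, x') <;> simp [hp, hN], fun p => by
        by_cases hp : p = (x, x') <;> simp [hp, hN]⟩
      refine h6.trans_le (le_of_eq ?_)
      rw [mul_sum, ← sum_add_distrib]
      refine sum_congr rfl fun k _ => ?_
      simp only [Pi.single_apply, mul_ite, mul_zero, sum_ite_eq', mem_univ, if_true, mul_assoc,
        ← mul_sum]
      ring)
  refine ⟨fun y => ∑ k, if (ξ k).1.1 = some y then lam k else 0, z, l, fun y => ?_, ?_, h1, h2,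
    h3, h4, ?_⟩
  · exact sum_nonneg fun k _ => by split_ifs; exacts [hl0 k, le_rfl]
  · rw [sum_comm, ← hl1]
    refine sum_le_sum fun k _ => ?_
    rcases (ξ k).1.1 with _ | y
    · simp [hl0]
    · simp
  · simpa only [hmix] using h5

end Pool.Agent.P.MP_e59a69_co
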