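import Pool.Agent.P.MP_e59a69_co.KDefs

/-! Collapsing intervals; the coarea inequality; a trace bound. -/

open Finset Function

namespace Pool.Agent.P.MP_e59a69_co

lemma KFlat_clamp (a b : ℝ) {u v : ℝ} (h : u ≤ v) :
    max a (min u b) ≤ max a (min v b) ∧ max a (min v b) - max a (min u b) ≤ v - u := by
  simp only [max_def, min_def]
  split_ifs <;> constructor <;> linarith

lemma KFlat_aux {ι : Type} (J : Finset ι) (α β : ι → ℝ) (h : ∀ i ∈ J, α i ≤ β i) (r1 r2 : ℝ)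
    (hr : r1 ≤ r2) :
    ∃ (ψ : ℝ → ℝ) (top : ℝ), (∀ x y, x ≤ y → ψ x ≤ ψ y ∧ ψ y - ψ x ≤ y - x) ∧
      (∀ x, x ≤ r1 → ψ x = 0) ∧ (∀ x, r2 ≤ x → ψ x = top) ∧ top ≤ r2 - r1 ∧
      r2 - r1 - ∑ i ∈ J, (β i - α i) ≤ top ∧ ∀ i ∈ J, ψ (α i) = ψ (β i) := by
  classical
  induction J using Finset.induction_on with
  | empty =>
    refine ⟨fun x => max r1 (min x r2) - r1, r2 - r1, fun x y hxy => ?_, fun x hx => ?_,
      fun x hx => ?_, le_rfl, by simp, by simp⟩
    · obtain ⟨h1, h2⟩ := KFlat_clamp r1 r2 hxy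
      constructor <;> linarith
    · beta_reduce
      rw [max_eq_left ((min_le_left _ _).trans hx), sub_self]
    · beta_reduce
      rw [min_eq_right hx, max_eq_right hr]
  | insert j J hj ih =>
    obtain ⟨ψ, top, h1, h2, h3, h4, h5, h6⟩ := ih fun i hi => h i (mem_insert_of_mem hi)
    obtain ⟨hab, hab'⟩ := h1 _ _ (h j (mem_insert_self j J))
    have ha : 0 ≤ ψ (α j) := (h2 _ (min_le_right (α j) r1)).ge.trans (h1 _ _ (min_le_left _ _)).1
    refine ⟨fun x => ψ x - (max (ψ (α j)) (min (ψ x) (ψ (β j))) - ψ (α j)),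
      top - (max (ψ (α j)) (min top (ψ (β j))) - ψ (α j)), fun x y hxy => ?_, fun x hx => ?_,
      fun x hx => by simp only [h3 x hx], ?_, ?_, fun i hi => ?_⟩
    · obtain ⟨a1, a2⟩ := h1 x y hxy
      obtain ⟨a3, a4⟩ := KFlat_clamp (ψ (α j)) (ψ (β j)) a1
      constructor <;> linarith
    · beta_reduce
      rw [h2 x hx, max_eq_left ((min_le_left _ _).trans ha), sub_self, sub_self]
    · linarith [le_max_left (ψ (α j)) (min top (ψ (β j)))]
    · rw [sum_insert hj]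
      linarith [max_le hab (min_le_right top (ψ (β j)))]
    · beta_reduce
      rcases mem_insert.1 hi with rfl | hi
      · rw [min_self, min_eq_left hab, max_self, max_eq_right hab]
        ring
      · rw [h6 i hi]

theorem kflat {ι : Type} (J : Finset ι) (α β : ι → ℝ) (h : ∀ i ∈ J, α i ≤ β i) (r1 r2 : ℝ)
    (hr : r1 ≤ r2) :
    ∃ (ψ : ℝ → ℝ) (top : ℝ), Monotone ψ ∧ (∀ x y, |ψ x - ψ y| ≤ |x - y|) ∧
      (∀ x, x ≤ r1 → ψ x = 0) ∧ (∀ x, r2 ≤ x → ψ x = top) ∧ top ≤ r2 - r1 ∧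
      r2 - r1 - ∑ i ∈ J, (β i - α i) ≤ top ∧ ∀ i ∈ J, ψ (α i) = ψ (β i) := by
  obtain ⟨ψ, top, h1, h2⟩ := KFlat_aux J α β h r1 r2 hr
  refine ⟨ψ, top, fun x y hxy => (h1 x y hxy).1, fun x y => ?_, h2⟩
  rcases le_total x y with hxy | hxy
  · obtain ⟨a1, a2⟩ := h1 x y hxy
    rw [abs_of_nonpos (by linarith), abs_of_nonpos (by linarith)]
    linarith
  · obtain ⟨a1, a2⟩ := h1 y x hxy
    rwa [abs_of_nonneg (by linarith), abs_of_nonneg (by linarith)]

open Classical in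
theorem kcoarea {V E : Type} [Fintype V] [DecidableEq V] (s t : E → V) (A : Finset E)
    (φ : V → ℝ) (top κ : ℝ) (h0 : 0 ≤ top) (h1 : ∀ v, 0 ≤ φ v ∧ φ v ≤ top)
    (h : ∀ τ, 0 ≤ τ → τ < top → κ ≤ (ct s t A {v | φ v ≤ τ} : ℝ)) :
    κ * top ≤ ∑ e ∈ A, |φ (s e) - φ (t e)| := by
  have hi : ∀ a b c : ℝ, MeasureTheory.Integrable ((Set.Ico a b).indicator fun _ : ℝ => c) :=
    fun a b c => (MeasureTheory.integrableOn_const (by simp)).integrable_indicator measurableSet_Ico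
  have hv : ∀ a b c : ℝ, a ≤ b → ∫ τ, (Set.Ico a b).indicator (fun _ : ℝ => c) τ = (b - a) * c :=
    fun a b c hab => by
      rw [MeasureTheory.integral_indicator_const c measurableSet_Ico,
        Real.volume_real_Ico_of_le hab, smul_eq_mul]
  have key := MeasureTheory.integral_mono (hi 0 top κ)
    (MeasureTheory.integrable_finsetSum A fun e _ =>
      hi (min (φ (s e)) (φ (t e))) (max (φ (s e)) (φ (t e))) 1) fun τ => by
      by_cases hτ : τ ∈ Set.Ico 0 top
      · rw [Set.indicator_of_mem hτ]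
        refine (h τ hτ.1 hτ.2).trans ?_
        rw [ct, card_filter, Nat.cast_sum]
        refine sum_le_sum fun e _ => ?_
        split_ifs with he
        · rw [Nat.cast_zero]
          exact Set.indicator_nonneg (fun _ _ => zero_le_one) _
        · rw [Set.indicator_of_mem, Nat.cast_one]
          simp only [mem_filter, mem_univ, true_and] at he
          rw [Set.mem_Ico, min_le_iff, lt_max_iff, ← not_le, ← not_le]
          tauto
      · rw [Set.indicator_of_notMem hτ]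
        exact sum_nonneg fun e _ => Set.indicator_nonneg (fun _ _ => zero_le_one) _
  rw [hv _ _ _ h0, MeasureTheory.integral_finsetSum _ fun e _ => hi _ _ _, sub_zero,
    mul_comm] at key
  refine key.trans (le_of_eq (sum_congr rfl fun e _ => ?_))
  rw [hv _ _ _ min_le_max, mul_one, max_sub_min_eq_abs']

theorem ktrace {Φ K : Type} [Fintype Φ] (Ψ : Finset Φ) (S : Finset K) (z : K → Φ → ℝ)
    (v : Φ → Φ → ℝ) (hv : ∀ f ∈ Ψ, v f ∈ Submodule.span ℝ (z '' (S : Set K))) :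
    (∑ f ∈ Ψ, v f f) ^ 2 ≤ #S * ∑ f ∈ Ψ, ∑ g, v f g ^ 2 := by
  classical
  let L : (Φ → ℝ) ≃ₗ[ℝ] EuclideanSpace ℝ Φ := (WithLp.linearEquiv 2 ℝ (Φ → ℝ)).symm
  let W := (Submodule.span ℝ (z '' (S : Set K))).map L.toLinearMap
  have hW : Module.finrank ℝ W ≤ #S := by
    rw [LinearEquiv.finrank_map_eq, ← coe_image]
    exact (finrank_span_finset_le_card _).trans card_image_le
  let b := stdOrthonormalBasis ℝ W
  let c : Φ → Fin (Module.finrank ℝ W) → ℝ := fun f k => inner ℝ (b k : EuclideanSpace ℝ Φ) (L (v f))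
  have h1 : ∀ f ∈ Ψ, v f f = ∑ k, c f k * (b k : EuclideanSpace ℝ Φ) f := fun f hf => by
    have e := congrArg (fun w : W => (w : EuclideanSpace ℝ Φ) f)
      (b.sum_repr' ⟨L (v f), Submodule.mem_map_of_mem (hv f hf)⟩)
    simp only [Submodule.coe_sum, Submodule.coe_smul, WithLp.ofLp_sum, WithLp.ofLp_smul,
      Finset.sum_apply, Pi.smul_apply, smul_eq_mul] at e
    exact e.symm
  have h2 : ∀ f ∈ Ψ, ∑ k, c f k ^ 2 = ∑ g, v f g ^ 2 := fun f hf =>
    (b.sum_sq_inner_right ⟨L (v f), Submodule.mem_map_of_mem (hv f hf)⟩).trans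
      (EuclideanSpace.real_norm_sq_eq (L (v f)))
  have h3 : ∀ k, ∑ f ∈ Ψ, (b k : EuclideanSpace ℝ Φ) f ^ 2 ≤ 1 := fun k => by
    refine (sum_le_univ_sum_of_nonneg fun f => sq_nonneg _).trans (le_of_eq ?_)
    rw [← EuclideanSpace.real_norm_sq_eq, ← Submodule.coe_norm, b.norm_eq_one, one_pow]
  have h4 := sum_mul_sq_le_sq_mul_sq (Ψ ×ˢ univ) (fun p => c p.1 p.2)
    fun p => (b p.2 : EuclideanSpace ℝ Φ) p.1
  rw [sum_product, sum_product, sum_product_right, ← sum_congr rfl h1, sum_congr rfl h2,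
    mul_comm] at h4
  refine h4.trans (mul_le_mul_of_nonneg_right ((sum_le_sum fun k _ => h3 k).trans ?_)
    (sum_nonneg fun f _ => sum_nonneg fun g _ => sq_nonneg _))
  simpa using hW

end Pool.Agent.P.MP_e59a69_co
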