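import Pool.Agent.P.MP_e59a69_co.KDual
import Pool.Agent.P.MP_e59a69_co.KCore

/-! The general star lemma. -/

open Finset Function

namespace Pool.Agent.P.MP_e59a69_co

lemma kgen_cs {Φ : Type} [Fintype Φ] (S : Finset Φ) (m g : Φ → ℝ) (hm : ∀ f, 0 ≤ m f) (B x : ℝ)
    (hx : 0 ≤ x) (hB : 0 ≤ B) (h1 : ∑ f ∈ S, m f ≤ x ^ 2) (h2 : ∑ f, g f ^ 2 ≤ 4 * B ^ 2) :
    ∑ f ∈ S, √(m f) * g f ≤ x * (2 * B) := by
  have h3 := sum_mul_sq_le_sq_mul_sq S (fun f => √(m f)) g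
  have h4 : ∑ f ∈ S, √(m f) ^ 2 = ∑ f ∈ S, m f := sum_congr rfl fun f _ => Real.sq_sqrt (hm f)
  have h5 : ∑ f ∈ S, g f ^ 2 ≤ ∑ f, g f ^ 2 :=
    sum_le_sum_of_subset_of_nonneg (subset_univ _) fun _ _ _ => sq_nonneg _
  have h6 : 0 ≤ ∑ f ∈ S, g f ^ 2 := sum_nonneg fun _ _ => sq_nonneg _
  rw [h4] at h3
  refine abs_le_of_sq_le_sq' ?_ (by positivity) |>.2
  calc (∑ f ∈ S, √(m f) * g f) ^ 2 ≤ (∑ f ∈ S, m f) * ∑ f ∈ S, g f ^ 2 := h3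
    _ ≤ x ^ 2 * (4 * B ^ 2) := mul_le_mul h1 (h5.trans h2) h6 (sq_nonneg _)
    _ = (x * (2 * B)) ^ 2 := by ring

theorem kgen {V E Φ Y : Type} [Fintype V] [Fintype E] [Fintype Φ] [Fintype Y] [DecidableEq V]
    (s t : E → V) (χ : Φ → V → ℝ) (o : Φ → V) (a : Y → Φ → ℝ) (B η ν R Λ κ : ℝ) (k0 M : ℕ)
    (hB : 1 ≤ B) (hη : 0 < η) (hη1 : η ≤ 1) (hν : 0 ≤ ν) (hR : 1 ≤ R) (hΛ : 1 ≤ Λ) (hκ : 0 < κ)
    (hM : 0 < M) (h0 : ∀ f, ∑ x, χ f x = 0) (h1 : ∀ f, ∑ x, |χ f x| ≤ 2)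
    (h2 : ∀ f, ∑ x, χ f x ^ 2 ≤ ν) (hχ : ∀ f y, evl (χ f) y ^ 2 ≤ B * En s t y)
    (ha : ∀ y f, 0 ≤ a y f) (ha1 : ∀ y, ∑ f, a y f ≤ 1)
    (c1 : ∀ X : Finset V, X.Nonempty → Xᶜ.Nonempty → 1 ≤ ct s t univ X)
    (c2 : ∀ X : Finset V, k0 < #X → k0 < #Xᶜ → κ ≤ (ct s t univ X : ℝ))
    (hn : ∀ (lam : Y → ℝ) (l : V → V → ℝ), (∀ y, 0 ≤ lam y) → ∑ y, lam y ≤ 1 → Met l →
      Pl s t l ≤ 2 * B → ∃ S : Finset Φ, ∑ f ∈ S, mix lam a f ≤ (η / (16 * B)) ^ 2 ∧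
        ∀ f, f ∉ S → 0 < mix lam a f → Nice χ o R Λ M (mix lam a) l f)
    (hc : 2 ^ 50 * R ^ 4 / (η / 8) ^ 10 * (2 * B / κ + Λ / M + ν * k0 * (2 * B + Λ)) ≤
      (η / (16 * B)) ^ 2) :
    ∃ (D : V × V → ℝ) (r : Φ → ℝ), Dom s t D ∧ (∀ f, 0 ≤ r f) ∧
      (∀ f y, evl (χ f) y ^ 2 ≤ r f * (En s t y + ED D y)) ∧ ∀ y, ∑ f, a y f * r f ≤ η := by
  classical
  rcases kdual s t χ B η (by linarith) hη hχ a ha ha1 with h | ⟨lam, z, l, l0, l1, hl, hP, hz, hg, hF⟩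
  · exact h
  exfalso
  obtain ⟨S, hS, hS'⟩ := hn lam l l0 l1 hl hP
  set m := mix lam a with hm
  have m0 : ∀ f, 0 ≤ m f := fun f => sum_nonneg fun y _ => mul_nonneg (l0 y) (ha y f)
  have m1 : ∑ f, m f ≤ 1 := by
    simp only [hm, mix]
    rw [sum_comm]
    refine le_trans (sum_le_sum fun y _ => ?_) l1
    rw [← mul_sum]
    exact mul_le_of_le_one_right (l0 y) (ha1 y)
  let Ψ : Finset Φ := {f | f ∉ S ∧ 0 < m f ∧ η / 8 * √(m f) ≤ evl (χ f) (z f)}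
  have hΨ := kcore s t hl χ o z m ν (η / 8) R Λ κ k0 M Ψ hz (by positivity) (by linarith) hR hΛ hκ
    hν hM m0 m1 h0 h1 h2 c1 c2 fun f hf => by
      obtain ⟨a1, a2, a3⟩ := (mem_filter.1 hf).2
      exact ⟨a2, a3, hS' f a1 a2⟩
  have hP0 := Pl_nonneg s t hl
  have hΨ' : ∑ f ∈ Ψ, m f ≤ (η / (16 * B)) ^ 2 := by
    refine hΨ.trans (le_trans ?_ hc)
    gcongr
  have hx : 0 ≤ η / (16 * B) := by positivity
  have e1 := kgen_cs S m (fun f => evl (χ f) (z f)) m0 B _ hx (by linarith) hS hg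
  have e2 := kgen_cs Ψ m (fun f => evl (χ f) (z f)) m0 B _ hx (by linarith) hΨ' hg
  have e3 : η / (16 * B) * (2 * B) = η / 8 := by field_simp; ring
  rw [e3] at e1 e2
  have e4 : ∑ f, √(m f) * evl (χ f) (z f) ≤ ∑ f ∈ S, √(m f) * evl (χ f) (z f) +
      ∑ f ∈ Ψ, √(m f) * evl (χ f) (z f) + ∑ f, η / 8 * m f := by
    rw [← sum_ite_mem_eq S, ← sum_ite_mem_eq Ψ, ← sum_add_distrib, ← sum_add_distrib]
    refine sum_le_sum fun f _ => ?_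
    have b0 : 0 ≤ η / 8 * m f := mul_nonneg (by positivity) (m0 f)
    by_cases f1 : f ∈ S
    · have f2 : f ∉ Ψ := fun h => (mem_filter.1 h).2.1 f1
      simp only [f1, f2, if_true, if_false]
      linarith
    by_cases f2 : f ∈ Ψ
    · simp only [f1, f2, if_true, if_false]
      linarith
    simp only [f1, f2, if_false, zero_add]
    rcases (m0 f).eq_or_lt with f3 | f3
    · rw [← f3]; simp
    have f4 : evl (χ f) (z f) < η / 8 * √(m f) := by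
      by_contra hc'
      exact f2 (mem_filter.2 ⟨mem_univ _, f1, f3, not_lt.1 hc'⟩)
    have f5 := Real.mul_self_sqrt (m0 f)
    have f6 := Real.sqrt_nonneg (m f)
    nlinarith [mul_le_mul_of_nonneg_left f4.le f6]
  rw [← mul_sum] at e4
  nlinarith

end Pool.Agent.P.MP_e59a69_co
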