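import Pool.Agent.P.MP_e59a69_co.KFlat

/-! Separated balls at many scales need a large total length. -/

open Finset Function

namespace Pool.Agent.P.MP_e59a69_co

lemma khull_geo (b : ℕ → ℝ) (T : ℝ) (hb : ∀ i, 2 * b (i + 1) ≤ b i) (n : ℕ) :
    ∑ i ∈ range n, (if b i ≤ T then b i else 0) + 2 * min (b n) T ≤ 2 * T := by
  induction n with
  | zero => simp
  | succ n ih =>
    rw [sum_range_succ]
    have h1 := min_le_left (b (n + 1)) T
    have h2 := min_le_right (b (n + 1)) T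
    have h3 := hb n
    split_ifs with h
    · rw [min_eq_left h] at ih; linarith
    · rw [min_eq_right (not_le.1 h).le] at ih; linarith

lemma khull_last (D : ℕ → ℝ) (L : ℝ) (hL : 0 ≤ L) (h2 : ∀ i, D i ≤ L) (n : ℕ)
    (h3 : ∀ i j, i < j → j < n → D j ≠ 0 → D i = 0) : ∑ i ∈ range n, D i ≤ L := by
  induction n with
  | zero => simpa using hL
  | succ n ih =>
    rw [sum_range_succ]
    by_cases h : D n = 0
    · rw [h, add_zero]
      exact ih fun i j a b => h3 i j a (by omega)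
    · rw [sum_eq_zero fun i hi => h3 i n (mem_range.1 hi) (by omega) h, zero_add]
      exact h2 n

lemma khull_sum (D b : ℕ → ℝ) (L : ℝ) (n : ℕ) (hL : 0 ≤ L) (hb0 : ∀ i, 0 ≤ b i)
    (hb : ∀ i, 2 * b (i + 1) ≤ b i) (h1 : ∀ i, D i ≤ b i) (h2 : ∀ i, D i ≤ L)
    (h3 : ∀ i j, i < j → j < n → L ≤ 4 * b j → D j ≠ 0 → D i = 0) :
    ∑ i ∈ range n, D i ≤ 3 / 2 * L := by
  have a1 := khull_geo b (L / 4) hb n
  have a2 : 0 ≤ min (b n) (L / 4) := le_min (hb0 n) (by linarith)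
  have a3 := khull_last (fun i => if b i ≤ L / 4 then 0 else D i) L hL
    (fun i => by split_ifs; exacts [hL, h2 i]) n fun i j hij hj h => by
      by_cases h4 : b j ≤ L / 4
      · exact absurd (if_pos h4) h
      · rw [if_neg h4] at h
        rw [h3 i j hij hj (by linarith [not_le.1 h4]) h, ite_self]
  have a4 : ∑ i ∈ range n, D i ≤ ∑ i ∈ range n, (if b i ≤ L / 4 then b i else 0) +
      ∑ i ∈ range n, (if b i ≤ L / 4 then 0 else D i) := by
    rw [← sum_add_distrib]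
    refine sum_le_sum fun i _ => ?_
    have := h1 i
    split_ifs <;> linarith
  linarith

lemma khull_one {α : Type} (S : Finset α) (p : α → Prop) [DecidablePred p] (d : α → ℝ) (B : ℝ)
    (hB : 0 ≤ B) (hd : ∀ x, d x ≤ B) (h : ∀ x ∈ S, ∀ y ∈ S, p x → p y → x = y) :
    ∑ x ∈ S, (if p x then d x else 0) ≤ B := by
  rw [← sum_filter]
  have h1 : #(S.filter p) ≤ 1 := card_le_one.2 fun x hx y hy =>
    h x (mem_filter.1 hx).1 y (mem_filter.1 hy).1 (mem_filter.1 hx).2 (mem_filter.1 hy).2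
  have h2 := sum_le_card_nsmul (S.filter p) d B fun x _ => hd x
  rw [nsmul_eq_mul] at h2
  exact h2.trans (mul_le_of_le_one_left hB (by exact_mod_cast h1))

/-- the hull `h` meets the ball `b` -/
def khullM {V : Type} (l : V → V → ℝ) (a : ℕ → ℝ) (Rh r : ℝ) (h b : Σ _ : ℕ, V) : Prop :=
  ∃ v, l h.2 v ≤ Rh * a h.1 ∧ l b.2 v ≤ r * a b.1

/-- `b` is the finest of the coarser balls met by the hull `h` -/
def khullA {V : Type} (l : V → V → ℝ) (a : ℕ → ℝ) (Rh r : ℝ) (N : ℕ → Finset V)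
    (b h : Σ _ : ℕ, V) : Prop :=
  b.1 < h.1 ∧ khullM l a Rh r h b ∧
    ∀ b' : Σ _ : ℕ, V, b.1 < b'.1 → b'.1 < h.1 → b'.2 ∈ N b'.1 → ¬ khullM l a Rh r h b'

section
variable {V : Type} {l : V → V → ℝ} {a : ℕ → ℝ} {r R0 : ℝ} {N C : ℕ → Finset V}

lemma khull_uniq (hl : Met l) (hF : ∀ i j, i < j → 4 * ((R0 + 6 * r) * a j) ≤ r * a i)
    (hsep : ∀ j, ∀ x ∈ N j, ∀ y ∈ N j, x ≠ y → 5 / 2 * r * a j < l x y) {h b b' : Σ _ : ℕ, V}
    (hb : b.2 ∈ N b.1) (hb' : b'.2 ∈ N b'.1) (h1 : khullA l a (R0 + 6 * r) r N b h)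
    (h2 : khullA l a (R0 + 6 * r) r N b' h) : b = b' := by
  obtain ⟨i, x⟩ := b
  obtain ⟨i', x'⟩ := b'
  rcases lt_trichotomy i i' with hi | rfl | hi
  · exact absurd h2.2.1 (h1.2.2 _ hi h2.1 hb')
  · by_contra hne
    have a0 := hsep i x hb x' hb' fun e => hne (e ▸ rfl)
    obtain ⟨v, a1, a2⟩ := h1.2.1
    obtain ⟨v', a3, a4⟩ := h2.2.1
    have a5 := hF i h.1 h1.1
    have a6 := hl.tri x v x'
    have a7 := hl.tri v h.2 x'
    have a8 := hl.tri h.2 v' x'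
    rw [hl.symm v h.2] at a7
    rw [hl.symm v' x'] at a8
    dsimp only at a2 a4
    linarith
  · exact absurd h1.2.1 (h2.2.2 _ hi h1.1 hb)

lemma khull_chain (hl : Met l) (ha : ∀ j, 0 ≤ r * a j)
    (hF : ∀ i j, i < j → 4 * ((R0 + 6 * r) * a j) ≤ r * a i)
    (hcov : ∀ j, ∀ x ∈ N j, ∃ c ∈ C j, l x c ≤ R0 * a j) (b : Σ _ : ℕ, V) (j : ℕ) :
    ∀ c ∈ C j, b.1 < j → khullM l a (R0 + 6 * r) r ⟨j, c⟩ b → ∃ h : Σ _ : ℕ, V, h.1 ≤ j ∧
      h.2 ∈ C h.1 ∧ khullA l a (R0 + 6 * r) r N b h ∧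
      ∀ w, l c w ≤ (R0 + 6 * r) * a j → l h.2 w ≤ (R0 + 6 * r) * a h.1 := by
  induction j using Nat.strong_induction_on with
  | _ j ih =>
    intro c hc hj hm
    by_cases hex : ∃ b' : Σ _ : ℕ, V, b.1 < b'.1 ∧ b'.1 < j ∧ b'.2 ∈ N b'.1 ∧
        khullM l a (R0 + 6 * r) r ⟨j, c⟩ b'
    · obtain ⟨⟨i, x⟩, h1, h2, h3, v, h4, h5⟩ := hex
      obtain ⟨c', h6, h7⟩ := hcov i x h3
      have hsub : ∀ w, l c w ≤ (R0 + 6 * r) * a j → l c' w ≤ (R0 + 6 * r) * a i := fun w hw => by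
        have a5 := hF i j h2
        have a6 := hl.tri c' x w
        have a7 := hl.tri x v w
        have a8 := hl.tri v c w
        have a9 := ha i
        rw [hl.symm c' x] at a6
        rw [hl.symm v c] at a8
        dsimp only at h4 h5
        linarith
      obtain ⟨w, h8, h9⟩ := hm
      obtain ⟨h, b1, b2, b3, b4⟩ := ih i h2 c' h6 h1 ⟨w, hsub w h8, h9⟩
      exact ⟨h, b1.trans (le_of_lt h2), b2, b3, fun w hw => b4 w (hsub w hw)⟩
    · exact ⟨⟨j, c⟩, le_rfl, hc, ⟨hj, hm, fun b' h1 h2 h3 h4 => hex ⟨b', h1, h2, h3, h4⟩⟩,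
        fun _ hw => hw⟩

open Classical in
lemma khull_half (hl : Met l) (n : ℕ) (ha : ∀ j, 0 ≤ r * a j) (hR : ∀ j, 0 ≤ R0 * a j)
    (hF : ∀ i j, i < j → 4 * ((R0 + 6 * r) * a j) ≤ r * a i)
    (hsep : ∀ j, ∀ x ∈ N j, ∀ y ∈ N j, x ≠ y → 5 / 2 * r * a j < l x y)
    (hcov : ∀ j, ∀ x ∈ N j, ∃ c ∈ C j, l x c ≤ R0 * a j) (u v : V) (d : (Σ _ : ℕ, V) → ℝ)
    (d1 : ∀ b, d b ≤ r * a b.1) (d2 : ∀ b, d b ≤ l u v)
    (d3 : ∀ b h, h.1 < n → h.2 ∈ C h.1 → khullA l a (R0 + 6 * r) r N b h →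
      l h.2 u ≤ (R0 + 6 * r) * a h.1 → l h.2 v ≤ (R0 + 6 * r) * a h.1 → d b = 0) :
    ∑ b ∈ (range n).sigma N, (if l b.2 u ≤ r * a b.1 then d b else 0) ≤ 3 / 2 * l u v := by
  rw [sum_sigma]
  have huniq : ∀ i, ∀ x ∈ N i, ∀ y ∈ N i, l x u ≤ r * a i → l y u ≤ r * a i → x = y := by
    intro i x hx y hy h1 h2
    by_contra hne
    have a0 := hsep i x hx y hy hne
    have a1 := hl.tri x u y
    have a2 := ha i
    rw [hl.symm u y] at a1
    linarith
  refine khull_sum _ (fun i => r * a i) _ n (hl.nonneg _ _) ha (fun i => ?_)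
    (fun i => khull_one (N i) _ (fun x => d ⟨i, x⟩) _ (ha i) (fun x => d1 _) (huniq i))
    (fun i => khull_one (N i) _ (fun x => d ⟨i, x⟩) _ (hl.nonneg _ _) (fun x => d2 _) (huniq i))
    fun i j hij hj hL hne => ?_
  · have := hF i (i + 1) (by omega)
    have := ha (i + 1)
    have := hR (i + 1)
    linarith
  · obtain ⟨y, hy, hy'⟩ := exists_ne_zero_of_sum_ne_zero hne
    have hyu : l y u ≤ r * a j := by
      by_contra h
      exact hy' (if_neg h)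
    obtain ⟨c, hc, hc'⟩ := hcov j y hy
    have a1 := hl.tri c y u
    have a2 := hl.tri c u v
    have a3 := ha j
    rw [hl.symm c y] at a1
    have hu : l c u ≤ (R0 + 6 * r) * a j := by linarith
    have hv : l c v ≤ (R0 + 6 * r) * a j := by linarith
    refine sum_eq_zero fun x hx => ite_eq_right_iff.2 fun hxu => ?_
    obtain ⟨h, b1, b2, b3, b4⟩ := khull_chain hl ha hF hcov ⟨i, x⟩ j c hc hij ⟨u, hu, hxu⟩
    exact d3 _ h (by omega) b2 b3 (b4 u hu) (b4 v hv)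

end

theorem khull {V E : Type} [Fintype V] [Fintype E] [DecidableEq V] (s t : E → V)
    {l : V → V → ℝ} (hl : Met l) (n : ℕ) (a0 Θ r1 r R0 κ : ℝ) (N C : ℕ → Finset V)
    (ha : 0 < a0) (hr1 : 0 ≤ r1) (hr : r1 ≤ r) (hr0 : 0 < r) (hR : 0 ≤ R0) (hκ : 0 ≤ κ)
    (hΘ : 4 * (R0 + 6 * r) ≤ Θ * r)
    (hsep : ∀ j, ∀ x ∈ N j, ∀ y ∈ N j, x ≠ y → 5 / 2 * r * (a0 / Θ ^ j) < l x y)
    (hcov : ∀ j, ∀ x ∈ N j, ∃ c ∈ C j, l x c ≤ R0 * (a0 / Θ ^ j))
    (hcon : ∀ j, ∀ x ∈ N j, ∀ X : Finset V, (∀ v, l x v ≤ r1 * (a0 / Θ ^ j) → v ∈ X) →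
      (∀ v ∈ X, l x v < r * (a0 / Θ ^ j)) → κ ≤ (ct s t univ X : ℝ)) :
    κ * ∑ j ∈ range n, a0 / Θ ^ j * ((r - r1) * #(N j) - 2 * (R0 + 6 * r) * #(C j)) ≤
      3 * Pl s t l := by
  classical
  have hΘ1 : 1 ≤ Θ := by nlinarith
  obtain ⟨a, hdef⟩ : ∃ a : ℕ → ℝ, ∀ j, a0 / Θ ^ j = a j := ⟨_, fun _ => rfl⟩
  have hpos : ∀ j, 0 < a j := fun j => by rw [← hdef]; positivity
  have hF : ∀ i j, i < j → 4 * ((R0 + 6 * r) * a j) ≤ r * a i := fun i j hij => by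
    have a1 : Θ * a j ≤ a i := by
      rw [← hdef, ← hdef, ← mul_div_assoc, div_le_div_iff₀ (by positivity) (by positivity)]
      have : Θ ^ (i + 1) ≤ Θ ^ j := pow_le_pow_right₀ hΘ1 hij
      calc _ = a0 * Θ ^ (i + 1) := by ring
        _ ≤ _ := by gcongr
    have a2 := mul_le_mul_of_nonneg_right hΘ (hpos j).le
    have a3 := mul_le_mul_of_nonneg_left a1 hr0.le
    linarith
  simp only [hdef] at hsep hcov hcon ⊢
  have hra : ∀ j, 0 ≤ r * a j := fun j => mul_nonneg hr0.le (hpos j).le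
  have hRa : ∀ j, 0 ≤ R0 * a j := fun j => mul_nonneg hR (hpos j).le
  have hh : ∀ j, 0 ≤ (R0 + 6 * r) * a j := fun j => by linarith [hra j, hRa j]
  have h12 : ∀ j, r1 * a j ≤ r * a j := fun j => mul_le_mul_of_nonneg_right hr (hpos j).le
  choose ψ top p1 p2 p3 p4 p5 p6 p7 using fun b : Σ _ : ℕ, V =>
    kflat (((range n).sigma C).filter (khullA l a (R0 + 6 * r) r N b))
      (fun h => l b.2 h.2 - (R0 + 6 * r) * a h.1) (fun h => l b.2 h.2 + (R0 + 6 * r) * a h.1)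
      (fun h _ => by linarith [hh h.1]) (r1 * a b.1) (r * a b.1) (h12 b.1)
  have q1 : ∀ b y, 0 ≤ ψ b y := fun b y =>
    (p3 b _ (min_le_right y _)).symm.le.trans (p1 b (min_le_left _ _))
  have q2 : ∀ b y, ψ b y ≤ top b := fun b y =>
    (p1 b (le_max_left _ _)).trans (p4 b _ (le_max_right y _)).le
  have co : ∀ b ∈ (range n).sigma N,
      κ * top b ≤ ∑ e, |ψ b (l b.2 (s e)) - ψ b (l b.2 (t e))| := fun b hb =>
    kcoarea s t univ (fun v => ψ b (l b.2 v)) (top b) κ ((q1 b 0).trans (q2 b 0))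
      (fun v => ⟨q1 b _, q2 b _⟩) fun τ h0 h1 => hcon b.1 b.2 (mem_sigma.1 hb).2 _
        (fun v hv => mem_filter.2 ⟨mem_univ _, (p3 b _ hv).le.trans h0⟩) fun v hv => by
          by_contra h
          have := (mem_filter.1 hv).2
          rw [p4 b _ (not_lt.1 h)] at this
          linarith
  have half : ∀ u v, ∑ b ∈ (range n).sigma N, (if l b.2 u ≤ r * a b.1 then
      |ψ b (l b.2 u) - ψ b (l b.2 v)| else 0) ≤ 3 / 2 * l u v := fun u v => by
    refine khull_half hl n hra hRa hF hsep hcov u v _ (fun b => ?_) (fun b => ?_)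
      fun b h h1 h2 h3 h4 h5 => ?_
    · have := mul_nonneg hr1 (hpos b.1).le
      rw [abs_le]
      constructor <;> linarith [q1 b (l b.2 u), q1 b (l b.2 v), q2 b (l b.2 u), q2 b (l b.2 v), p5 b]
    · refine (p2 b _ _).trans (abs_le.2 ⟨?_, ?_⟩)
      · linarith [hl.tri b.2 u v]
      · linarith [hl.tri b.2 v u, hl.symm v u]
    · have e := p7 b h (mem_filter.2 ⟨mem_sigma.2 ⟨mem_range.2 h1, h2⟩, h3⟩)
      have key : ∀ w, l h.2 w ≤ (R0 + 6 * r) * a h.1 →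
          ψ b (l b.2 w) = ψ b (l b.2 h.2 + (R0 + 6 * r) * a h.1) := fun w hw =>
        le_antisymm (p1 b (by linarith [hl.tri b.2 h.2 w]))
          (e.symm.le.trans (p1 b (by linarith [hl.tri b.2 w h.2, hl.symm w h.2])))
      rw [key u h4, key v h5, sub_self, abs_zero]
  have edge : ∀ u v, ∑ b ∈ (range n).sigma N, |ψ b (l b.2 u) - ψ b (l b.2 v)| ≤ 3 * l u v := by
    intro u v
    have a1 := half u v
    have a2 := half v u
    rw [hl.symm v u] at a2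
    refine le_trans (sum_le_sum fun b _ => ?_) ((sum_add_distrib.le.trans (add_le_add a1 a2)).trans
      (by linarith))
    rw [abs_sub_comm (ψ b (l b.2 v))]
    have := abs_nonneg (ψ b (l b.2 u) - ψ b (l b.2 v))
    split_ifs with h1 h2 h2
    · linarith
    · linarith
    · linarith
    · rw [p4 b _ (not_le.1 h1).le, p4 b _ (not_le.1 h2).le, sub_self, abs_zero, add_zero]
  have cnt : ∑ b ∈ (range n).sigma N, ∑ h ∈ ((range n).sigma C).filter
      (khullA l a (R0 + 6 * r) r N b), 2 * ((R0 + 6 * r) * a h.1) ≤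
      ∑ h ∈ (range n).sigma C, 2 * ((R0 + 6 * r) * a h.1) := by
    simp only [sum_filter]
    rw [sum_comm]
    exact sum_le_sum fun h _ => khull_one _ _ _ _ (by linarith [hh h.1]) (fun _ => le_rfl)
      fun b hb b' hb' => khull_uniq hl hF hsep (mem_sigma.1 hb).2 (mem_sigma.1 hb').2
  have low : ∑ j ∈ range n, a j * ((r - r1) * #(N j) - 2 * (R0 + 6 * r) * #(C j)) ≤
      ∑ b ∈ (range n).sigma N, top b := by
    have a1 : ∑ b ∈ (range n).sigma N, (r * a b.1 - r1 * a b.1 - ∑ h ∈ ((range n).sigma C).filter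
        (khullA l a (R0 + 6 * r) r N b), 2 * ((R0 + 6 * r) * a h.1)) ≤
        ∑ b ∈ (range n).sigma N, top b := sum_le_sum fun b _ => by
      refine le_trans (le_of_eq ?_) (p6 b)
      congr 1
      exact sum_congr rfl fun h _ => by ring
    have a2 : ∑ j ∈ range n, a j * ((r - r1) * #(N j) - 2 * (R0 + 6 * r) * #(C j)) =
        ∑ b ∈ (range n).sigma N, (r * a b.1 - r1 * a b.1) -
          ∑ h ∈ (range n).sigma C, 2 * ((R0 + 6 * r) * a h.1) := by
      rw [sum_sigma, sum_sigma, ← sum_sub_distrib]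
      refine sum_congr rfl fun j _ => ?_
      simp only [sum_const, nsmul_eq_mul]
      ring
    rw [sum_sub_distrib] at a1
    linarith
  calc _ ≤ κ * ∑ b ∈ (range n).sigma N, top b := mul_le_mul_of_nonneg_left low hκ
    _ ≤ ∑ b ∈ (range n).sigma N, ∑ e, |ψ b (l b.2 (s e)) - ψ b (l b.2 (t e))| := by
      rw [mul_sum]; exact sum_le_sum co
    _ ≤ ∑ e, 3 * l (s e) (t e) := by
      rw [sum_comm]; exact sum_le_sum fun e _ => edge _ _
    _ = _ := by rw [Pl, mul_sum]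

end Pool.Agent.P.MP_e59a69_co
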