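import Pool.Agent.P.MP_e59a69_co.SRBase

/-! The Dirichlet form of indicators and Bessel bounds for words. -/

open Finset

namespace Pool.Agent.P.MP_e59a69_co

variable {V κ : Type} [Fintype V] [DecidableEq V] [Fintype κ] {π μ : Equiv.Perm V}
  {G : (V → ℝ) →ₗ[ℝ] κ → ℝ}

omit [DecidableEq V] in
lemma dir_eq (hμ : ∀ v, μ (μ v) = v) (hG : IsGrad π μ G) (y : V → ℝ) :
    ∑ k, G y k ^ 2 = ∑ v, (y v - y (π v)) ^ 2 + (∑ v, (y v - y (μ v)) ^ 2) / 2 := by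
  have _ := hμ
  have h0 : ∑ k, G y k ^ 2 = ∑ v, y v * Lap π μ y v := by
    rw [← hG y y]; exact sum_congr rfl fun k _ => sq _
  have h1 : ∑ v, y (π v) ^ 2 = ∑ v, y v ^ 2 := Equiv.sum_comp π fun v => y v ^ 2
  have h2 : ∑ v, y (μ v) ^ 2 = ∑ v, y v ^ 2 := Equiv.sum_comp μ fun v => y v ^ 2
  have h3 : ∑ v, y v * y (π⁻¹ v) = ∑ v, y v * y (π v) := by
    rw [← Equiv.sum_comp π fun v => y v * y (π⁻¹ v)]
    refine sum_congr rfl fun v _ => ?_
    simp [mul_comm]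
  have h4 : ∑ v, y v * Lap π μ y v = 3 * ∑ v, y v ^ 2 - ∑ v, y v * y (π v) -
      ∑ v, y v * y (π⁻¹ v) - ∑ v, y v * y (μ v) := by
    rw [mul_sum, ← sum_sub_distrib, ← sum_sub_distrib, ← sum_sub_distrib]
    refine sum_congr rfl fun v _ => ?_
    simp only [Lap, Fin.sum_univ_three, Lt_zero, Lt_one, Lt_two]
    ring
  have h5 : ∀ σ : Equiv.Perm V, ∑ v, (y v - y (σ v)) ^ 2 =
      ∑ v, y v ^ 2 + ∑ v, y (σ v) ^ 2 - 2 * ∑ v, y v * y (σ v) := by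
    intro σ
    rw [mul_sum, ← sum_add_distrib, ← sum_sub_distrib]
    exact sum_congr rfl fun v _ => by ring
  rw [h0, h4, h5 π, h5 μ, h1, h2, h3]
  ring

lemma srxdir_ind (σ : Equiv.Perm V) (X : Finset V) :
    ∑ v, ((if v ∈ X then (1 : ℝ) else 0) - (if σ v ∈ X then 1 else 0)) ^ 2 =
      ((#{v | ¬ (v ∈ X ↔ σ v ∈ X)} : ℕ) : ℝ) := by
  rw [card_filter, Nat.cast_sum]
  refine sum_congr rfl fun v _ => ?_
  by_cases h1 : v ∈ X <;> by_cases h2 : σ v ∈ X <;> simp [h1, h2]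

lemma dir_ind (hμ : ∀ v, μ (μ v) = v) (hG : IsGrad π μ G) (X : Finset V) :
    ∑ k, G (fun v => if v ∈ X then 1 else 0) k ^ 2 = (fc π X + mc μ X : ℕ) := by
  rw [dir_eq hμ hG, srxdir_ind, srxdir_ind, card_mucut hμ, fc]
  push_cast
  ring

omit [DecidableEq V] in
lemma srxdir_letter (hμ : ∀ v, μ (μ v) = v) (hG : IsGrad π μ G) (l : Fin 3) (y : V → ℝ) :
    ∑ v, (y (Lt π μ l v) - y v) ^ 2 ≤ 2 * ∑ k, G y k ^ 2 := by
  have h1 : 0 ≤ ∑ v, (y v - y (π v)) ^ 2 := sum_nonneg fun _ _ => sq_nonneg _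
  have h2 : 0 ≤ ∑ v, (y v - y (μ v)) ^ 2 := sum_nonneg fun _ _ => sq_nonneg _
  have h3 : ∀ σ : Equiv.Perm V, ∑ v, (y (σ v) - y v) ^ 2 = ∑ v, (y v - y (σ v)) ^ 2 :=
    fun σ => sum_congr rfl fun v _ => by ring
  have h4 : ∑ v, (y (π⁻¹ v) - y v) ^ 2 = ∑ v, (y v - y (π v)) ^ 2 := by
    rw [← Equiv.sum_comp π fun v => (y (π⁻¹ v) - y v) ^ 2]
    refine sum_congr rfl fun v _ => ?_
    simp
  rw [dir_eq hμ hG]
  fin_cases l
  · change ∑ v, (y (π v) - y v) ^ 2 ≤ _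
    rw [h3]; linarith
  · change ∑ v, (y (π⁻¹ v) - y v) ^ 2 ≤ _
    rw [h4]; linarith
  · change ∑ v, (y (μ v) - y v) ^ 2 ≤ _
    rw [h3]; linarith

omit [DecidableEq V] in
lemma dir_word (hμ : ∀ v, μ (μ v) = v) (hG : IsGrad π μ G) {n : ℕ} {w : Equiv.Perm V}
    (hw : Wd π μ n w) (y : V → ℝ) :
    ∑ v, (y (w v) - y v) ^ 2 ≤ 2 * n ^ 2 * ∑ k, G y k ^ 2 := by
  have hD : 0 ≤ ∑ k, G y k ^ 2 := sum_nonneg fun _ _ => sq_nonneg _
  refine Wd.induct (P := fun n w => ∑ v, (y (w v) - y v) ^ 2 ≤ 2 * (n : ℝ) ^ 2 * ∑ k, G y k ^ 2)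
    ?_ ?_ ?_ hw
  · simp
  · intro n w l ih
    have ha : ∑ v, (y (Lt π μ l (w v)) - y (w v)) ^ 2 ≤ 2 * ∑ k, G y k ^ 2 := by
      rw [Equiv.sum_comp w fun v => (y (Lt π μ l v) - y v) ^ 2]
      exact srxdir_letter hμ hG l y
    have hn : (0 : ℝ) ≤ n := Nat.cast_nonneg n
    have hc := sum_mul_sq_le_sq_mul_sq univ (fun v => y (Lt π μ l (w v)) - y (w v))
      (fun v => y (w v) - y v)
    have hb : 0 ≤ ∑ v, (y (w v) - y v) ^ 2 := sum_nonneg fun _ _ => sq_nonneg _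
    have hd : (∑ v, (y (Lt π μ l (w v)) - y (w v)) * (y (w v) - y v)) ^ 2 ≤
        (2 * n * ∑ k, G y k ^ 2) ^ 2 := by
      refine hc.trans ((mul_le_mul ha ih hb (by positivity)).trans_eq ?_)
      ring
    have he := (abs_le_of_sq_le_sq' hd (by positivity)).2
    have hf : ∑ v, (y ((Lt π μ l * w) v) - y v) ^ 2 =
        ∑ v, (y (Lt π μ l (w v)) - y (w v)) ^ 2 +
        2 * ∑ v, (y (Lt π μ l (w v)) - y (w v)) * (y (w v) - y v) +
        ∑ v, (y (w v) - y v) ^ 2 := by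
      rw [mul_sum, ← sum_add_distrib, ← sum_add_distrib]
      refine sum_congr rfl fun v _ => ?_
      rw [Equiv.Perm.mul_apply]; ring
    rw [hf]
    push_cast
    nlinarith
  · intro n w ih
    refine ih.trans ?_
    have hn : (0 : ℝ) ≤ n := Nat.cast_nonneg n
    push_cast
    nlinarith

omit [DecidableEq V] in
lemma seg_bessel (hμ : ∀ v, μ (μ v) = v) (hG : IsGrad π μ G) {n : ℕ} {w : Equiv.Perm V}
    (hw : Wd π μ n w) (m : ℕ) (y : V → ℝ) :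
    ∑ v, (seg π m (w v) y - seg π m v y) ^ 2 ≤ 2 * (2 * m + n) ^ 2 * ∑ k, G y k ^ 2 := by
  have hD : 0 ≤ ∑ k, G y k ^ 2 := sum_nonneg fun _ _ => sq_nonneg _
  rcases Nat.eq_zero_or_pos m with rfl | hm
  · simp only [seg_apply, range_zero, sum_empty, mul_zero, sub_self]
    simp only [ne_eq, OfNat.ofNat_ne_zero, not_false_eq_true, zero_pow, sum_const_zero]
    positivity
  have hm' : (0 : ℝ) < m := by exact_mod_cast hm
  have h1 : ∀ v, (seg π m (w v) y - seg π m v y) ^ 2 ≤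
      (m : ℝ)⁻¹ * ∑ t ∈ range m, (y ((π ^ (t + 1)) (w v)) - y ((π ^ (t + 1)) v)) ^ 2 := by
    intro v
    have h := sq_sum_le_card_mul_sum_sq (s := range m)
      (f := fun t => y ((π ^ (t + 1)) (w v)) - y ((π ^ (t + 1)) v))
    rw [card_range] at h
    rw [seg_apply, seg_apply, ← mul_sub, ← sum_sub_distrib, mul_pow]
    refine (mul_le_mul_of_nonneg_left h (sq_nonneg _)).trans_eq ?_
    field_simp
  have h2 : ∀ t ∈ range m, ∑ v, (y ((π ^ (t + 1)) (w v)) - y ((π ^ (t + 1)) v)) ^ 2 ≤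
      2 * (2 * m + n) ^ 2 * ∑ k, G y k ^ 2 := by
    intro t ht
    have ht' := mem_range.1 ht
    have a1 : Wd π μ (t + 1) (π ^ (t + 1)) := by
      have := wd_zpow (π := π) (μ := μ) ((t + 1 : ℕ) : ℤ)
      rwa [Int.natAbs_natCast, zpow_natCast] at this
    have a2 : Wd π μ (t + 1) (π ^ (t + 1))⁻¹ := by
      have := wd_zpow (π := π) (μ := μ) (-((t + 1 : ℕ) : ℤ))
      rwa [Int.natAbs_neg, Int.natAbs_natCast, zpow_neg, zpow_natCast] at this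
    have a3 : Wd π μ (2 * m + n) (π ^ (t + 1) * w * (π ^ (t + 1))⁻¹) :=
      ((a1.mul hw).mul a2).mono (by omega)
    have a4 := dir_word hμ hG a3 y
    rw [Nat.cast_add, Nat.cast_mul, Nat.cast_ofNat, ← Equiv.sum_comp (π ^ (t + 1))] at a4
    refine le_of_eq_of_le (sum_congr rfl fun v _ => ?_) a4
    simp only [Equiv.Perm.mul_apply, Equiv.Perm.coe_inv, Equiv.symm_apply_apply]
  refine (sum_le_sum fun v _ => h1 v).trans ?_
  rw [← mul_sum, sum_comm]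
  refine (mul_le_mul_of_nonneg_left (sum_le_sum h2) (by positivity)).trans_eq ?_
  rw [sum_const, card_range, nsmul_eq_mul]
  field_simp

end Pool.Agent.P.MP_e59a69_co
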