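import Pool.Agent.P.MP_e59a69_co.SRSel

/-! Iterated pair selection: one element from each group. -/

open Finset

namespace Pool.Agent.P.MP_e59a69_co

theorem iter_sel {W κ ι : Type} [AddCommGroup W] [Module ℝ W] [Fintype κ] [Fintype ι]
    [DecidableEq ι] (γ : W →ₗ[ℝ] κ → ℝ) (τ : ℝ) (hτ : 0 < τ) (j : ℕ)
    (α : ι → (Fin j → Bool) → W →ₗ[ℝ] ℝ)
    (h1 : ∀ w, ∑ i, ∑ b, α i b w ^ 2 ≤ τ * (10 / 9) ^ j * ∑ k, γ w k ^ 2)
    (h2 : ∀ i b w, 100 * α i b w ^ 2 ≤ τ * ∑ k, γ w k ^ 2) :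
    ∃ β : ι → Fin j → Bool, ∀ w, ∑ i, α i (β i) w ^ 2 ≤ τ * ∑ k, γ w k ^ 2 := by
  induction j with
  | zero =>
    refine ⟨fun _ => Fin.elim0, fun w => ?_⟩
    have := h1 w
    rw [pow_zero, mul_one] at this
    refine le_trans (le_of_eq (Finset.sum_congr rfl fun i _ => ?_)) this
    rw [Fintype.sum_subsingleton _ Fin.elim0]
  | succ j ih =>
    have hB : 0 < τ * (10 / 9) ^ (j + 1) := by positivity
    have hB1 : τ ≤ τ * (10 / 9) ^ (j + 1) :=
      le_mul_of_one_le_right hτ.le (one_le_pow₀ (by norm_num))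
    have hγ : ∀ w, ∑ k, (√(τ * (10 / 9) ^ (j + 1)) • γ) w k ^ 2 =
        τ * (10 / 9) ^ (j + 1) * ∑ k, γ w k ^ 2 := fun w => by
      rw [Finset.mul_sum]
      refine Finset.sum_congr rfl fun k _ => ?_
      rw [LinearMap.smul_apply, Pi.smul_apply, smul_eq_mul, mul_pow, Real.sq_sqrt hB.le]
    have h0 : ∀ w, 0 ≤ ∑ k, γ w k ^ 2 := fun w => Finset.sum_nonneg fun _ _ => sq_nonneg _
    obtain ⟨σ, hσ⟩ := form_sel (ι := ι × (Fin j → Bool)) (√(τ * (10 / 9) ^ (j + 1)) • γ)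
      (fun p => α p.1.1 (Fin.cons p.2 p.1.2)) (fun w => by
        rw [hγ]
        refine le_trans (le_of_eq ?_) (h1 w)
        rw [Fintype.sum_prod_type, Fintype.sum_prod_type]
        refine Finset.sum_congr rfl fun i _ => ?_
        rw [← (Fin.consEquiv fun _ => Bool).sum_comp, Fintype.sum_prod_type, Finset.sum_comm]
        rfl) (fun l w => by
        rw [hγ]
        exact (h2 _ _ w).trans (mul_le_mul_of_nonneg_right hB1 (h0 w)))
    obtain ⟨β, hβ⟩ := ih (fun i b => α i (Fin.cons (σ (i, b)) b)) (fun w => by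
        have := hσ w
        rw [hγ, Fintype.sum_prod_type] at this
        refine this.trans (le_of_eq ?_)
        ring) (fun i b w => h2 _ _ w)
    exact ⟨fun i => Fin.cons (σ (i, β i)) (β i), hβ⟩

/-- the same for several tests at once -/
theorem iter_sel_tests {W κ ι J : Type} [AddCommGroup W] [Module ℝ W] [Fintype κ] [Fintype ι]
    [DecidableEq ι] [Fintype J] [DecidableEq J] (γ : W →ₗ[ℝ] κ → ℝ) (τ ε B : ℝ) (hτ : 0 < τ)
    (j : ℕ) (hε : 100 * Fintype.card J * ε ≤ τ) (hB : Fintype.card J * B ≤ τ * (10 / 9) ^ j)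
    (α : J → ι → (Fin j → Bool) → W →ₗ[ℝ] ℝ)
    (h1 : ∀ t w, ∑ i, ∑ b, α t i b w ^ 2 ≤ B * ∑ k, γ w k ^ 2)
    (h2 : ∀ t i b w, α t i b w ^ 2 ≤ ε * ∑ k, γ w k ^ 2) :
    ∃ β : ι → Fin j → Bool, ∀ t w, ∑ i, α t i (β i) w ^ 2 ≤ τ * ∑ k, γ w k ^ 2 := by
  let Γ : (J → W) →ₗ[ℝ] J × κ → ℝ :=
    LinearMap.pi fun p => LinearMap.proj p.2 ∘ₗ γ ∘ₗ LinearMap.proj p.1
  let a : ι → (Fin j → Bool) → (J → W) →ₗ[ℝ] ℝ := fun i b => ∑ t, α t i b ∘ₗ LinearMap.proj t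
  have hΓ : ∀ Y, ∑ k, Γ Y k ^ 2 = ∑ t, ∑ k, γ (Y t) k ^ 2 := fun Y => by
    rw [Fintype.sum_prod_type]; rfl
  have ha : ∀ i b Y, a i b Y = ∑ t, α t i b (Y t) := fun i b Y => by simp [a]
  have ha2 : ∀ i b Y, a i b Y ^ 2 ≤ Fintype.card J * ∑ t, α t i b (Y t) ^ 2 := fun i b Y => by
    rw [ha, ← card_univ]
    exact sq_sum_le_card_mul_sum_sq
  have h0 : ∀ Y : J → W, 0 ≤ ∑ t, ∑ k, γ (Y t) k ^ 2 := fun Y =>
    Finset.sum_nonneg fun _ _ => Finset.sum_nonneg fun _ _ => sq_nonneg _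
  have hJ : (0 : ℝ) ≤ Fintype.card J := Nat.cast_nonneg _
  obtain ⟨β, hβ⟩ := iter_sel Γ τ hτ j a (fun Y => by
      rw [hΓ]
      have e1 : ∑ i, ∑ b, a i b Y ^ 2 ≤
          Fintype.card J * ∑ t, ∑ i, ∑ b, α t i b (Y t) ^ 2 := by
        rw [Finset.sum_comm (s := (univ : Finset J)), Finset.mul_sum]
        refine Finset.sum_le_sum fun i _ => ?_
        rw [Finset.sum_comm (s := (univ : Finset J)), Finset.mul_sum]
        exact Finset.sum_le_sum fun b _ => ha2 i b Y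
      have e2 := Finset.sum_le_sum fun t (_ : t ∈ univ) => h1 t (Y t)
      rw [← Finset.mul_sum] at e2
      have e3 := mul_le_mul_of_nonneg_left e2 hJ
      have e4 := mul_le_mul_of_nonneg_right hB (h0 Y)
      linarith) (fun i b Y => by
      rw [hΓ]
      have e1 := ha2 i b Y
      have e2 := Finset.sum_le_sum fun t (_ : t ∈ univ) => h2 t i b (Y t)
      rw [← Finset.mul_sum] at e2
      have e3 := mul_le_mul_of_nonneg_left e2 hJ
      have e4 := mul_le_mul_of_nonneg_right hε (h0 Y)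
      linarith)
  refine ⟨β, fun t w => ?_⟩
  have := hβ (Pi.single t w)
  rw [hΓ, Finset.sum_eq_single t (fun i' _ h => by simp [Pi.single_eq_of_ne h]) (by simp),
    Pi.single_eq_same] at this
  refine le_trans (le_of_eq (Finset.sum_congr rfl fun i _ => ?_)) this
  rw [ha, Finset.sum_eq_single t (fun i' _ h => by simp [Pi.single_eq_of_ne h]) (by simp),
    Pi.single_eq_same]

end Pool.Agent.P.MP_e59a69_co
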