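import Pool.Agent.P.MP_e59a69_co.VPair
import Pool.Agent.P.MP_e59a69_co.VSel
import Pool.Agent.P.MP_e59a69_co.SRDir
import Pool.Agent.P.MP_e59a69_co.LSigma

/-! Level one: good vertices on all circuits give the orientation of the matching. -/

open Finset Function

namespace Pool.Agent.P.MP_e59a69_co

lemma TPst.succ {d K : ℕ} (h : TPst d K) : TPst d (K + 1) :=
  fun N E _ _ _ _ s t Z h1 h2 => h N E s t Z h1 fun X hX => (Nat.le_succ K).trans (h2 X hX)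

lemma exists_odd_reps {V : Type} [Fintype V] [DecidableEq V] (π : Equiv.Perm V) :
    ∃ Rp : Finset V, (∀ r ∈ Rp, ∀ r' ∈ Rp, π.SameCycle r r' → r = r') ∧
      (∀ r ∈ Rp, Odd (minimalPeriod π r)) ∧
      ∀ v, Odd (minimalPeriod π v) → ∃ r ∈ Rp, π.SameCycle r v := by
  classical
  let ρ : V → V := fun v => (Quotient.mk (Equiv.Perm.SameCycle.setoid π) v).out
  have h1 : ∀ v, π.SameCycle (ρ v) v := fun v =>
    Quotient.mk_out (s := Equiv.Perm.SameCycle.setoid π) v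
  refine ⟨(univ.filter fun v => Odd (minimalPeriod π v)).image ρ, fun r hr r' hr' e => ?_,
    fun r hr => ?_, fun v hv => ⟨ρ v, mem_image_of_mem _ (mem_filter.2 ⟨mem_univ _, hv⟩), h1 v⟩⟩
  · obtain ⟨v, -, rfl⟩ := mem_image.1 hr
    obtain ⟨v', -, rfl⟩ := mem_image.1 hr'
    have : Quotient.mk (Equiv.Perm.SameCycle.setoid π) v =
        Quotient.mk (Equiv.Perm.SameCycle.setoid π) v' :=
      Quotient.sound (((h1 v).symm.trans e).trans (h1 v'))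
    simp only [ρ, this]
  · obtain ⟨v, hv, rfl⟩ := mem_image.1 hr
    rw [← period_eq (h1 v)]
    exact (mem_filter.1 hv).2

theorem lv1_core {K : ℕ} (hTP : TPst 1000 K) : ∃ ε : ℝ, 0 < ε ∧ ∀ m : ℕ, 2 ≤ m → ∃ n c : ℕ,
    ∀ (V κ κ' : Type) [Fintype V] [DecidableEq V] [Fintype κ] [Fintype κ'] (π μ : Equiv.Perm V)
      (G : (V → ℝ) →ₗ[ℝ] κ' → ℝ) (Γ : (V → ℝ) →ₗ[ℝ] κ → ℝ), Hyp π μ c → IsGrad π μ G →
      (∀ y, ∑ k, G y k ^ 2 ≤ ∑ k, Γ y k ^ 2) →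
      (∀ X, ∑ k, Γ (ind X) k ^ 2 ≤ 2 * (fc π X + mc μ X : ℕ)) →
      (∀ v, Odd (minimalPeriod π v) → ∃ u, π.SameCycle v u ∧ ∀ w w', Wd π μ n w → Wd π μ n w' → ∀ y,
        (seg π m (w u) y - seg π m (w' u) y) ^ 2 ≤ ε * ∑ k, Γ y k ^ 2) →
      ∃ σ : V → ℤ, (∀ v, σ v = 1 ∨ σ v = -1) ∧ (∀ v, σ (μ v) = - σ v) ∧
        ∀ X : Finset V, 5 * ∑ v ∈ X, σ v ≤ (mc μ X + 6 * fc π X : ℕ) := by
  have hTP' := hTP.succ
  generalize hK : K + 1 = K' at hTP'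
  have hK1 : 1 ≤ K' := by omega
  clear hTP hK
  let J := Fin K' ⊕ Bool ⊕ Fin 6 × Bool
  have hJ : (Fintype.card J : ℝ) = K' + 14 := by simp [J]
  obtain ⟨τ, hτ⟩ : ∃ τ : ℝ, τ = 1 / (20000 * (K' + 12)) := ⟨_, rfl⟩
  have τ0 : 0 < τ := by rw [hτ]; positivity
  have τ1 : 10000 * (K' + 12) * (2 * τ) ≤ 1 := by
    rw [hτ]; apply le_of_eq; field_simp; norm_num
  refine ⟨τ / (100 * (K' + 14)), by positivity, fun m hm => ?_⟩
  obtain ⟨j, hj⟩ := pow_unbounded_of_one_lt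
    ((K' + 14) * (2 * (2 * (m : ℝ) + (K' + m + 5 : ℕ)) ^ 2) / τ) (show (1 : ℝ) < 10 / 9 by norm_num)
  rw [div_lt_iff₀ τ0] at hj
  obtain ⟨q, hq⟩ : ∃ q, q = 4 * 16 ^ (K' + m + 5) * 2 ^ j := ⟨_, rfl⟩
  refine ⟨q + (K' + m + 5), q + 2 * (K' + m) + 10, ?_⟩
  intro V κ κ' _ _ _ _ π μ G Γ H hG h1 h2 h3
  classical
  obtain ⟨Rp, r1, r2, r3⟩ := exists_odd_reps π
  refine exists_sigma2 H Rp r1 r2 r3 (by omega) fun hev => ?_
  choose u u1 u2 using fun r : Rp => h3 r (r2 r r.2)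
  have hΩ : Fintype.card (Fin j → Bool) = 2 ^ j := by simp
  obtain ⟨y, y1, y2⟩ := far_cand H (ι := Rp) (Ω := Fin j → Bool) u
    (fun r r' e => Subtype.ext (r1 _ r.2 _ r'.2 (((u1 r).trans e).trans (u1 r').symm)))
    (K' + m + 5) (by rw [hΩ]; omega) (by omega)
  rw [hΩ, ← hq] at y1
  let w : J → Equiv.Perm V := Sum.elim (fun a => μ * π ^ ((a : ℕ) : ℤ))
    (Sum.elim (fun b => if b then π ^ (K' : ℤ) else π ^ (-1 : ℤ)) (hbase π μ m))
  have hw : ∀ t, Wd π μ (K' + m + 5) (w t) := by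
    rintro (a | b | i)
    · exact (wd_mu.mul (wd_zpow _)).mono (by have := a.2; omega)
    · cases b
      · exact (wd_zpow (-1)).mono (by omega)
      · exact (wd_zpow K').mono (by omega)
    · exact (wd_hbase m i).mono (by omega)
  have yinj : Injective fun p : Rp × (Fin j → Bool) => y p.1 p.2 := by
    rintro ⟨i, a⟩ ⟨i', a'⟩ e
    by_contra hn
    exact y2 i i' a a' hn ⟨1, 1, wd_one.mono (by omega), wd_one.mono (by omega), e⟩
  have h0 : ∀ z, 0 ≤ ∑ k, Γ z k ^ 2 := fun z => Finset.sum_nonneg fun _ _ => sq_nonneg _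
  obtain ⟨β, hβ⟩ := iter_sel_tests Γ τ (τ / (100 * (K' + 14)))
    (2 * (2 * (m : ℝ) + (K' + m + 5 : ℕ)) ^ 2) τ0 j
    (by rw [hJ]; apply le_of_eq; field_simp) (by rw [hJ]; linarith)
    (fun t (i : Rp) b => seg π m (w t (y i b)) - seg π m (y i b)) (fun t z => by
      have a1 := seg_bessel H.inv hG (hw t) m z
      have a2 := mul_le_mul_of_nonneg_left (h1 z)
        (show 0 ≤ 2 * (2 * (m : ℝ) + (K' + m + 5 : ℕ)) ^ 2 by positivity)
      refine le_trans ?_ (a1.trans a2)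
      rw [← Fintype.sum_prod_type', ← Finset.sum_image (s := univ)
        (g := fun p : Rp × (Fin j → Bool) => y p.1 p.2)
        (f := fun v => (seg π m (w t v) - seg π m v) z ^ 2) fun a _ b _ e => yinj e]
      exact Finset.sum_le_sum_of_subset_of_nonneg (subset_univ _) fun _ _ _ => sq_nonneg _)
    (fun t i b z => by
      obtain ⟨a, a1, a2⟩ := y1 i b
      have := u2 i (w t * π ^ (a : ℤ)) (π ^ (a : ℤ)) (((hw t).mul (wd_zpow a)).mono (by omega))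
        ((wd_zpow a).mono (by omega)) z
      rw [a2]
      exact this)
  let s : V → V := fun r => if h : r ∈ Rp then y ⟨r, h⟩ (β ⟨r, h⟩) else r
  have hs : ∀ r : Rp, s r = y r (β r) := fun r => dif_pos r.2
  have sinj : Set.InjOn s Rp := fun r hr r' hr' e => by
    rw [hs ⟨r, hr⟩, hs ⟨r', hr'⟩] at e
    exact congrArg (fun p => p.1.1) (yinj (a₁ := (⟨r, hr⟩, β ⟨r, hr⟩)) (a₂ := (⟨r', hr'⟩, β ⟨r', hr'⟩)) e)
  obtain ⟨Q, hQ⟩ := sites_pair H hTP' hK1 hm (by omega) (Rp.image s)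
    (by rw [card_image_of_injOn sinj]; exact hev) (fun x hx x' hx' hn => by
      obtain ⟨r, hr, rfl⟩ := mem_image.1 hx
      obtain ⟨r', hr', rfl⟩ := mem_image.1 hx'
      rw [hs ⟨r, hr⟩, hs ⟨r', hr'⟩] at hn ⊢
      exact y2 _ _ _ _ fun e => hn (by rw [(Prod.mk.inj e).1])) (2 * τ) τ1 (by linarith)
    (fun w0 hw0 X => by
      obtain ⟨t, rfl⟩ : ∃ t, w0 = w t := by
        rcases hw0 with ⟨a, h⟩ | h | h | ⟨i, h⟩
        · exact ⟨Sum.inl a, h⟩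
        · exact ⟨Sum.inr (Sum.inl true), h⟩
        · exact ⟨Sum.inr (Sum.inl false), h⟩
        · exact ⟨Sum.inr (Sum.inr i), h⟩
      rw [Finset.sum_image sinj, ← Finset.sum_coe_sort]
      have a1 := hβ t (ind X)
      have a2 := mul_le_mul_of_nonneg_left (h2 X) τ0.le
      simp only [hs]
      refine a1.trans (a2.trans (le_of_eq ?_))
      ring)
  refine ⟨s, Q, fun r hr => ?_, hQ⟩
  obtain ⟨a, -, a2⟩ := y1 ⟨r, hr⟩ (β ⟨r, hr⟩)
  rw [hs ⟨r, hr⟩, a2]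
  exact (u1 ⟨r, hr⟩).trans ⟨a, rfl⟩

end Pool.Agent.P.MP_e59a69_co
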