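import Pool.Agent.P.MP_e59a69_co.KTP
import Pool.Agent.P.MP_e59a69_co.VLv1

/-! Orientation of the matching when every odd circuit has a good vertex. -/

open Finset Function

namespace Pool.Agent.P.MP_e59a69_co

theorem klv1 : ∃ ε0 : ℝ, 0 < ε0 ∧ ∀ m : ℕ, 2 ≤ m → ∃ n c : ℕ,
    ∀ (V κ κ' : Type) [Fintype V] [DecidableEq V] [Fintype κ] [Fintype κ'] (π μ : Equiv.Perm V)
      (G : (V → ℝ) →ₗ[ℝ] κ' → ℝ) (γ : (V → ℝ) →ₗ[ℝ] κ → ℝ), Hyp π μ c → IsGrad π μ G →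
      (∀ y, ∑ k, G y k ^ 2 ≤ ∑ k, γ y k ^ 2) →
      (∀ X : Finset V, ∑ k, γ (ind1 X) k ^ 2 ≤ 2 * (fc π X + mc μ X : ℕ)) →
      (∀ v, Odd (minimalPeriod π v) → ∃ u, π.SameCycle v u ∧ ∀ w, Wd π μ n w → ∀ y,
        (seg π m (w u) y - seg π m u y) ^ 2 ≤ ε0 * ∑ k, γ y k ^ 2) →
      ∃ σ : V → ℤ, (∀ v, σ v = 1 ∨ σ v = -1) ∧ (∀ v, σ (μ v) = - σ v) ∧
        ∀ X : Finset V, 5 * ∑ v ∈ X, σ v ≤ (mc μ X + 6 * fc π X : ℕ) := by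
  obtain ⟨K, hK⟩ := ktp (1 / 1000) (by norm_num)
  obtain ⟨ε, hε, h⟩ := lv1_core (K := K) fun N E _ _ _ _ s t Z h1 h2 => by
    obtain ⟨l, l1, l2, l3⟩ := hK N E s t Z h1 h2
    refine ⟨l, l1, l2, fun X => ?_⟩
    have := l3 X
    have : ((1000 * chg X l : ℕ) : ℝ) ≤ ct s t univ X := by push_cast; linarith
    exact_mod_cast this
  refine ⟨ε / 4, by linarith, fun m hm => ?_⟩
  obtain ⟨n, c, h⟩ := h m hm
  refine ⟨n, c, fun V κ κ' _ _ _ _ π μ G γ H hG h1 h2 h3 => h V κ κ' π μ G γ H hG h1 h2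
    fun v hv => ?_⟩
  obtain ⟨u, u1, u2⟩ := h3 v hv
  refine ⟨u, u1, fun w w' p p' y => ?_⟩
  have a1 := u2 w p y
  have a2 := u2 w' p' y
  nlinarith [sq_nonneg (seg π m (w u) y - seg π m u y + (seg π m (w' u) y - seg π m u y))]

end Pool.Agent.P.MP_e59a69_co
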