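import Pool.Agent.P.MP_e59a69_co.KDefs

/-! A mixed strategy against a compact convex set. -/

open Finset Function

namespace Pool.Agent.P.MP_e59a69_co

theorem kmm {n Ξ : Type} [Fintype n] (X : Set (n → ℝ)) (hne : X.Nonempty) (hc : IsCompact X)
    (hv : Convex ℝ X) (c : Ξ → ℝ) (g : Ξ → n → ℝ) (η : ℝ)
    (h : ∀ x ∈ X, ∃ ξ, η < c ξ + ∑ i, g ξ i * x i) :
    ∃ (m : ℕ) (ξ : Fin m → Ξ) (lam : Fin m → ℝ), (∀ k, 0 ≤ lam k) ∧ ∑ k, lam k = 1 ∧
      ∀ x ∈ X, η < ∑ k, lam k * (c (ξ k) + ∑ i, g (ξ k) i * x i) := by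
  classical
  have hcont : ∀ ξ, Continuous fun x : n → ℝ => c ξ + ∑ i, g ξ i * x i := fun ξ => by fun_prop
  obtain ⟨t, ht⟩ := hc.elim_finite_subcover (fun ξ => {x | η < c ξ + ∑ i, g ξ i * x i})
    (fun ξ => isOpen_lt continuous_const (hcont ξ))
    (fun x hx => Set.mem_iUnion.2 (h x hx))
  let ξ : Fin t.card → Ξ := fun k => (t.equivFin.symm k : Ξ)
  let p : Fin t.card → (n → ℝ) → ℝ := fun k x => c (ξ k) + ∑ i, g (ξ k) i * x i
  have hp : ∀ k (x y : n → ℝ) (a b : ℝ), a + b = 1 →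
      p k (a • x + b • y) = a * p k x + b * p k y := by
    intro k x y a b hab
    have e : ∑ i, g (ξ k) i * (a • x + b • y) i =
        a * ∑ i, g (ξ k) i * x i + b * ∑ i, g (ξ k) i * y i := by
      rw [Finset.mul_sum, Finset.mul_sum, ← Finset.sum_add_distrib]
      refine Finset.sum_congr rfl fun i _ => ?_
      simp only [Pi.add_apply, Pi.smul_apply, smul_eq_mul]
      ring
    show c (ξ k) + ∑ i, g (ξ k) i * (a • x + b • y) i =
      a * (c (ξ k) + ∑ i, g (ξ k) i * x i) + b * (c (ξ k) + ∑ i, g (ξ k) i * y i)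
    rw [e]
    linear_combination (-(c (ξ k))) * hab
  obtain ⟨lam, hlam, hx⟩ := Sion.exists_lt_iInf_of_lt_iInf_of_finite (X := X)
    (Y := stdSimplex ℝ (Fin t.card)) (f := fun x y => ∑ k, y k * p k x) hne hc
    (fun y _ => (Continuous.lowerSemicontinuous
      (continuous_finsetSum _ fun k _ => continuous_const.mul (hcont (ξ k)))).lowerSemicontinuousOn _)
    (fun y _ => ConvexOn.quasiconvexOn ⟨hv, fun x _ x' _ a b _ _ hab => le_of_eq (by
      simp only [smul_eq_mul]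
      rw [Finset.mul_sum, Finset.mul_sum, ← Finset.sum_add_distrib]
      exact Finset.sum_congr rfl fun k _ => by rw [hp k x x' a b hab]; ring)⟩)
    (convex_stdSimplex ℝ _)
    (fun x _ => (Continuous.upperSemicontinuous (by fun_prop)).upperSemicontinuousOn _)
    (fun x _ => ConcaveOn.quasiconcaveOn ⟨convex_stdSimplex ℝ _, fun y _ y' _ a b _ _ _ =>
      le_of_eq (by
        simp only [smul_eq_mul]
        rw [Finset.mul_sum, Finset.mul_sum, ← Finset.sum_add_distrib]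
        refine Finset.sum_congr rfl fun k _ => ?_
        simp only [Pi.add_apply, Pi.smul_apply, smul_eq_mul]
        ring)⟩)
    hv (s := Set.range fun k : Fin t.card => (Pi.single k 1 : Fin t.card → ℝ))
    (Set.finite_range _) (by rintro _ ⟨k, rfl⟩; exact single_mem_stdSimplex ℝ k) (t := η)
    (fun x hx => by
      obtain ⟨a, ha, hxa⟩ := Set.mem_iUnion₂.1 (ht hx)
      refine ⟨_, ⟨t.equivFin ⟨a, ha⟩, rfl⟩, ?_⟩
      beta_reduce
      rw [Finset.sum_eq_single (t.equivFin ⟨a, ha⟩) (fun b _ hb => by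
        rw [Pi.single_eq_of_ne hb, zero_mul]) (fun h0 => absurd (Finset.mem_univ _) h0),
        Pi.single_eq_same, one_mul]
      have e : ξ (t.equivFin ⟨a, ha⟩) = a := by simp only [ξ, Equiv.symm_apply_apply]
      show η < c (ξ _) + ∑ i, g (ξ _) i * x i
      rw [e]
      exact hxa)
  exact ⟨t.card, ξ, lam, hlam.1, hlam.2, hx⟩

end Pool.Agent.P.MP_e59a69_co
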