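import Pool.Agent.P.MP_e59a69_co.KBall

/-! A set without rich part is covered by threads. -/

open Finset Function

namespace Pool.Agent.P.MP_e59a69_co

section
variable {V E : Type} [Fintype V] [Fintype E] [DecidableEq V] [DecidableEq E] {s t : E → V}

omit [Fintype V] [Fintype E] [DecidableEq E] in
lemma kpeel_sum (A : Finset E) (p q : E → Prop) [DecidablePred p] [DecidablePred q]
    (S : Finset V) :
    ∑ v ∈ S, (#{e ∈ A | s e = v ∧ p e} + #{e ∈ A | t e = v ∧ q e}) =
      ∑ e ∈ A, ((if s e ∈ S ∧ p e then 1 else 0) + if t e ∈ S ∧ q e then 1 else 0) := by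
  simp only [card_filter]
  rw [Finset.sum_add_distrib, Finset.sum_add_distrib, Finset.sum_comm,
    Finset.sum_comm (s := S)]
  congr 1 <;> refine Finset.sum_congr rfl fun e _ => ?_
  · by_cases h : p e <;> simp [h]
  · by_cases h : q e <;> simp [h]

omit [DecidableEq E] in
lemma kpeel_in {c : ℕ} (H : Cub s t c) (X : Finset V) (h1 : X.Nonempty) (h2 : #X + 2 ≤ c) :
    #{e | s e ∈ X ∧ t e ∈ X} < #X := by
  have a1 := H.small X h1 h2
  have a2 := kpeel_sum (s := s) (t := t) univ (fun _ => True) (fun _ => True) X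
  simp only [and_true] at a2
  have a3 : ∑ v ∈ X, (#{e | s e = v} + #{e | t e = v}) = ∑ _v ∈ X, 3 :=
    Finset.sum_congr rfl fun v _ => H.deg v
  have a4 : ∑ e, ((if s e ∈ X then 1 else 0) + if t e ∈ X then 1 else 0) =
      2 * #{e | s e ∈ X ∧ t e ∈ X} + ct s t univ X := by
    unfold ct
    rw [card_filter, card_filter, Finset.mul_sum, ← Finset.sum_add_distrib]
    refine Finset.sum_congr rfl fun e _ => ?_
    by_cases a : s e ∈ X <;> by_cases b : t e ∈ X <;> simp [a, b]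
  rw [a3, a4, Finset.sum_const, smul_eq_mul] at a2
  omega

omit [Fintype V] [Fintype E] in
lemma kpeel_other (hl : ∀ e, s e ≠ t e) (A : Finset E) (v : V) (h : 2 ≤ dg s t A v) (e0 : E) :
    ∃ e ∈ A, e ≠ e0 ∧ ∃ u, Jn s t e v u := by
  by_contra hc
  push Not at hc
  have d : Disjoint {e ∈ A | s e = v} {e ∈ A | t e = v} := Finset.disjoint_left.2 fun e h1 h2 =>
    hl e ((mem_filter.1 h1).2.trans (mem_filter.1 h2).2.symm)
  have : {e ∈ A | s e = v} ∪ {e ∈ A | t e = v} ⊆ {e0} := fun e he => by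
    rw [mem_singleton]
    by_contra hn
    rcases mem_union.1 he with h1 | h1
    · exact hc e (mem_filter.1 h1).1 hn (t e) (Or.inl ⟨(mem_filter.1 h1).2, rfl⟩)
    · exact hc e (mem_filter.1 h1).1 hn (s e) (Or.inr ⟨(mem_filter.1 h1).2, rfl⟩)
  have := card_le_card this
  rw [card_union_of_disjoint d, card_singleton] at this
  unfold dg at h
  omega

lemma kpeel_walk {L : ℕ} (H : Cub s t (L + 3)) (A : Finset E) (S W : Finset V)
    (h1 : ∀ v ∈ S, 2 ≤ dg s t A v) (h2 : ∀ v ∈ S, v ∉ W → ∀ e ∈ A, ∀ u, Jn s t e v u → u ∈ S)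
    (v : V) (hv : v ∈ S) (hv' : v ∉ kball s t univ W L) (k : ℕ) (hk : k ≤ L) :
    ∃ (p : ℕ → V) (pe : ℕ → E), (∀ a b, a ≤ k → b ≤ k → p a = p b → a = b) ∧
      (∀ a, a < k → pe a ∈ A ∧ Jn s t (pe a) (p a) (p (a + 1))) ∧
      ∀ a, a ≤ k → p a ∈ S ∧ p a ∉ kball s t univ W (L - a) := by
  have hl : ∀ e, s e ≠ t e := fun e h => by
    have := kpeel_in H {s e} (singleton_nonempty _) (by simp)
    rw [card_singleton, Nat.lt_one_iff, card_eq_zero, filter_eq_empty_iff] at this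
    exact this (mem_univ e) ⟨mem_singleton_self _, mem_singleton.2 h.symm⟩
  induction k with
  | zero =>
    have : Nonempty E := by
      have := h1 v hv
      by_contra hc
      rw [not_nonempty_iff] at hc
      simp [dg, Finset.eq_empty_of_isEmpty A] at this
    exact ⟨fun _ => v, fun _ => Classical.arbitrary E, fun a b _ _ _ => by omega,
      fun a h => by omega, fun a h => ⟨hv, by rwa [Nat.le_zero.1 h]⟩⟩
  | succ k ih =>
    obtain ⟨p, pe, p1, p2, p3⟩ := ih (by omega)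
    obtain ⟨q1, q2⟩ := p3 k le_rfl
    obtain ⟨e, e1, e2, u, e3⟩ := kpeel_other hl A (p k) (h1 _ q1) (pe (k - 1))
    have hu : ∀ a, a ≤ k → p a ≠ u := fun a ha hu => by
      have c1 : #((range (k + 1)).image p) = k + 1 := by
        rw [card_image_of_injOn fun a ha b hb h => p1 a b (by simpa [Nat.lt_succ_iff] using ha)
          (by simpa [Nat.lt_succ_iff] using hb) h, card_range]
      have m : ∀ a, a ≤ k → p a ∈ (range (k + 1)).image p := fun a ha =>
        mem_image_of_mem _ (mem_range.2 (by omega))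
      have c2 := kpeel_in H ((range (k + 1)).image p) ⟨_, m 0 (by omega)⟩ (by omega)
      have c3 : insert e ((range k).image pe) ⊆
          ({e | s e ∈ (range (k + 1)).image p ∧ t e ∈ (range (k + 1)).image p} : Finset E) := by
        intro f hf
        refine mem_filter.2 ⟨mem_univ _, ?_⟩
        rcases mem_insert.1 hf with rfl | hf
        · rcases e3 with ⟨b1, b2⟩ | ⟨b1, b2⟩ <;> rw [b1, b2, ← hu]
          · exact ⟨m _ le_rfl, m _ ha⟩
          · exact ⟨m _ ha, m _ le_rfl⟩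
        · obtain ⟨b, hb, rfl⟩ := mem_image.1 hf
          rw [mem_range] at hb
          rcases (p2 b hb).2 with ⟨b1, b2⟩ | ⟨b1, b2⟩ <;> rw [b1, b2]
          · exact ⟨m _ hb.le, m _ hb⟩
          · exact ⟨m _ hb, m _ hb.le⟩
      have c4 := card_le_card c3
      rw [card_insert_of_notMem, card_image_of_injOn, card_range] at c4
      · omega
      · intro a ha b hb h
        rw [coe_range, Set.mem_Iio] at ha hb
        rcases (p2 a ha).2 with ⟨b1, b2⟩ | ⟨b1, b2⟩ <;>
          rcases (p2 b hb).2 with ⟨b3, b4⟩ | ⟨b3, b4⟩ <;> rw [h] at b1 b2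
        · exact p1 a b ha.le hb.le (b1.symm.trans b3)
        · have := p1 a (b + 1) ha.le hb (b1.symm.trans b4)
          have := p1 (a + 1) b ha hb.le (b2.symm.trans b3)
          omega
        · have := p1 a (b + 1) ha.le hb (b1.symm.trans b4)
          have := p1 (a + 1) b ha hb.le (b2.symm.trans b3)
          omega
        · exact p1 a b ha.le hb.le (b1.symm.trans b3)
      · intro hf
        obtain ⟨b, hb, rfl⟩ := mem_image.1 hf
        rw [mem_range] at hb
        apply e2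
        rcases (p2 b hb).2 with ⟨b1, b2⟩ | ⟨b1, b2⟩ <;> rcases e3 with ⟨b3, -⟩ | ⟨b3, -⟩
        · have := p1 b k hb.le le_rfl (b1.symm.trans b3)
          omega
        · rw [← p1 (b + 1) k hb le_rfl (b2.symm.trans b3), Nat.add_sub_cancel]
        · rw [← p1 (b + 1) k hb le_rfl (b2.symm.trans b3), Nat.add_sub_cancel]
        · have := p1 b k hb.le le_rfl (b1.symm.trans b3)
          omega
    refine ⟨update p (k + 1) u, update pe k e, fun a b ha hb h => ?_, fun a ha => ?_,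
      fun a ha => ?_⟩
    · by_cases c1 : a = k + 1 <;> by_cases c2 : b = k + 1
      · omega
      · rw [c1, update_self, update_of_ne c2] at h
        exact absurd h.symm (hu b (by omega))
      · rw [c2, update_self, update_of_ne c1] at h
        exact absurd h (hu a (by omega))
      · rw [update_of_ne c1, update_of_ne c2] at h
        exact p1 a b (by omega) (by omega) h
    · by_cases c1 : a = k
      · rw [c1, update_self, update_self, update_of_ne (by omega)]
        exact ⟨e1, e3⟩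
      · rw [update_of_ne c1, update_of_ne (by omega), update_of_ne (by omega)]
        exact p2 a (by omega)
    · by_cases c1 : a = k + 1
      · rw [c1, update_self]
        refine ⟨h2 _ q1 (fun h => q2 (kball_mono univ Subset.rfl (Nat.zero_le _) h)) e e1 u e3,
          fun h => q2 ?_⟩
        rw [show L - k = L - (k + 1) + 1 by omega, kball_succ]
        exact mem_nb.2 (Or.inr ⟨e, mem_univ _, u, h, e3.symm.imp And.symm And.symm⟩)
      · rw [update_of_ne c1]
        exact p3 a (by omega)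

lemma kpeel_step {L : ℕ} (H : Cub s t (L + 3)) (B : Finset V)
    (hB : ¬ Rich s t (1 / (2 * 4 ^ L)) B) :
    (∃ v ∈ B, dg s t {e | s e ∈ B ∧ t e ∈ B} v ≤ 1) ∨
    ∃ (p : ℕ → V) (pe : ℕ → E), (∀ a b, a < L → b < L → p a = p b → a = b) ∧
      (∀ a, a + 1 < L → Jn s t (pe a) (p a) (p (a + 1))) ∧
      ∀ a, a < L → p a ∈ B ∧ dg s t {e | s e ∈ B ∧ t e ∈ B} (p a) ≤ 2 := by
  classical
  by_contra hc
  rw [not_or] at hc
  obtain ⟨c1, c2⟩ := hc
  push Not at c1
  refine hB fun S hS => ?_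
  set A : Finset E := {e | s e ∈ B ∧ t e ∈ B} with hA
  let W : Finset V := {v ∈ S | 3 ≤ dg s t A v ∨ ∃ e ∈ A, ∃ u, Jn s t e v u ∧ u ∉ S}
  have a1 : S ⊆ kball s t univ W L := fun v hv => by
    by_contra hv'
    obtain ⟨p, pe, p1, p2, p3⟩ := kpeel_walk H A S W (fun v hv => c1 v (hS hv))
      (fun v hv hw e he u hu => by_contra fun h =>
        hw (mem_filter.2 ⟨hv, Or.inr ⟨e, he, u, hu, h⟩⟩)) v hv hv' L le_rfl
    refine c2 ⟨p, pe, fun a b ha hb => p1 a b ha.le hb.le, fun a ha => (p2 a (by omega)).2,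
      fun a ha => ⟨hS (p3 a ha.le).1, by_contra fun h => (p3 a ha.le).2 ?_⟩⟩
    exact kball_mono univ Subset.rfl (Nat.zero_le _)
      (show p a ∈ W from mem_filter.2 ⟨(p3 a ha.le).1, Or.inl (by omega)⟩)
  have a2 := (card_le_card a1).trans (card_kball H.deg univ W L)
  have a3 := kpeel_sum (s := s) (t := t) A (fun _ => True) (fun _ => True) S
  have a4 := kpeel_sum (s := s) (t := t) A (fun e => t e ∉ S) (fun e => s e ∉ S) S
  simp only [and_true] at a3
  have a5 : ∑ v ∈ S, (2 + if v ∈ W then 1 else 0) ≤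
      ∑ v ∈ S, (#{e ∈ A | s e = v} + #{e ∈ A | t e = v}) +
        ∑ v ∈ S, (#{e ∈ A | s e = v ∧ t e ∉ S} + #{e ∈ A | t e = v ∧ s e ∉ S}) := by
    rw [← Finset.sum_add_distrib]
    refine Finset.sum_le_sum fun v hv => ?_
    have b1 : 1 < #{e ∈ A | s e = v} + #{e ∈ A | t e = v} := c1 v (hS hv)
    split_ifs with h
    · rcases (mem_filter.1 h).2 with h | ⟨e, he, u, ⟨b2, b3⟩ | ⟨b2, b3⟩, b4⟩
      · unfold dg at h; omega
      · have : 0 < #{e ∈ A | s e = v ∧ t e ∉ S} :=
          card_pos.2 ⟨e, mem_filter.2 ⟨he, b2, b3 ▸ b4⟩⟩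
        omega
      · have : 0 < #{e ∈ A | t e = v ∧ s e ∉ S} :=
          card_pos.2 ⟨e, mem_filter.2 ⟨he, b2, b3 ▸ b4⟩⟩
        omega
    · omega
  have a6 : ∑ v ∈ S, (2 + if v ∈ W then 1 else 0) = 2 * #S + #W := by
    rw [Finset.sum_add_distrib, Finset.sum_const, smul_eq_mul, mul_comm, ← card_filter,
      filter_mem_eq_inter, inter_eq_right.2 (filter_subset _ _)]
  have a7 : ∑ e ∈ A, ((if s e ∈ S then 1 else 0) + if t e ∈ S then 1 else 0) +
      ∑ e ∈ A, ((if s e ∈ S ∧ t e ∉ S then 1 else 0) + if t e ∈ S ∧ s e ∉ S then 1 else 0) =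
      2 * #{e | (s e ∈ B ∧ t e ∈ B) ∧ (s e ∈ S ∨ t e ∈ S)} := by
    rw [← filter_filter, ← hA, card_filter, Finset.mul_sum, ← Finset.sum_add_distrib]
    refine Finset.sum_congr rfl fun e _ => ?_
    by_cases a : s e ∈ S <;> by_cases b : t e ∈ S <;> simp [a, b]
  rw [a3, a4, a6, a7] at a5
  have b1 : (2 * #S + #W : ℝ) ≤ 2 * #{e | (s e ∈ B ∧ t e ∈ B) ∧ (s e ∈ S ∨ t e ∈ S)} := by
    exact_mod_cast a5
  have b2 : (#S : ℝ) ≤ 4 ^ L * #W := by exact_mod_cast a2
  have b3 : 1 / (2 * 4 ^ L) * (#S : ℝ) ≤ #W / 2 := by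
    rw [div_mul_eq_mul_div, one_mul, div_le_div_iff₀ (by positivity) (by norm_num)]
    linarith
  linarith

omit [Fintype V] [DecidableEq E] in
lemma kpeel_full {B Z : Finset V} (hZ : Z ⊆ B) {F : Finset E} (hF : ∀ e ∈ F, s e ∈ Z ↔ t e ∈ Z)
    {v : V} (hv : v ∈ Z) : {e ∈ F | s e = v} ⊆ {e ∈ ({e | s e ∈ B ∧ t e ∈ B} : Finset E) | s e = v} ∧
      {e ∈ F | t e = v} ⊆ {e ∈ ({e | s e ∈ B ∧ t e ∈ B} : Finset E) | t e = v} := by
  constructor <;> intro e he <;> obtain ⟨h1, h2⟩ := mem_filter.1 he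
  · have : s e ∈ Z := h2 ▸ hv
    exact mem_filter.2 ⟨mem_filter.2 ⟨mem_univ _, hZ this, hZ ((hF e h1).1 this)⟩, h2⟩
  · have : t e ∈ Z := h2 ▸ hv
    exact mem_filter.2 ⟨mem_filter.2 ⟨mem_univ _, hZ ((hF e h1).2 this), hZ this⟩, h2⟩

end

theorem kpeel (L : ℕ) (hL : 2 ≤ L) : ∃ (ε : ℝ) (c : ℕ), 0 < ε ∧
    ∀ (V E : Type) [Fintype V] [Fintype E] [DecidableEq V] [DecidableEq E] (s t : E → V),
      Cub s t c → ∀ B : Finset V, (∀ Z ⊆ B, Z.Nonempty → ¬ Rich s t ε Z) →
      ∃ (n : ℕ) (p : Fin n → ℕ → V) (pe : Fin n → ℕ → E),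
        (∀ i a j b, a < L → b < L → p i a = p j b → i = j ∧ a = b) ∧
        (∀ i a, a + 1 < L → Jn s t (pe i a) (p i a) (p i (a + 1))) ∧
        ∀ F : Finset E, (∀ v, dg s t F v = 2) → (∀ i, ∃ a, a + 1 < L ∧ pe i a ∉ F) →
          ∀ Z ⊆ B, (∀ e ∈ F, s e ∈ Z ↔ t e ∈ Z) → Z = ∅ := by
  refine ⟨1 / (2 * 4 ^ L), L + 3, by positivity, fun V E _ _ _ _ s t H B hB => ?_⟩
  suffices h : ∃ (n : ℕ) (p : Fin n → ℕ → V) (pe : Fin n → ℕ → E),
      (∀ i a, a < L → p i a ∈ B) ∧
      (∀ i a j b, a < L → b < L → p i a = p j b → i = j ∧ a = b) ∧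
      (∀ i a, a + 1 < L → Jn s t (pe i a) (p i a) (p i (a + 1))) ∧
      ∀ F : Finset E, (∀ v, dg s t F v = 2) → (∀ i, ∃ a, a + 1 < L ∧ pe i a ∉ F) →
        ∀ Z ⊆ B, (∀ e ∈ F, s e ∈ Z ↔ t e ∈ Z) → Z = ∅ by
    obtain ⟨n, p, pe, -, h⟩ := h
    exact ⟨n, p, pe, h⟩
  induction B using Finset.strongInduction with
  | H B ih =>
  rcases B.eq_empty_or_nonempty with rfl | hne
  · exact ⟨0, Fin.elim0, Fin.elim0, fun i => i.elim0, fun i => i.elim0, fun i => i.elim0,
      fun F _ _ Z hZ _ => subset_empty.1 hZ⟩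
  rcases kpeel_step H B (hB B Subset.rfl hne) with ⟨v, v1, v2⟩ | ⟨q, qe, q1, q2, q3⟩
  · obtain ⟨n, p, pe, p0, p1, p2, p3⟩ := ih (B.erase v) (erase_ssubset v1)
      fun Z hZ => hB Z (hZ.trans (erase_subset _ _))
    refine ⟨n, p, pe, fun i a ha => mem_of_mem_erase (p0 i a ha), p1, p2,
      fun F f1 f2 Z z1 z2 => p3 F f1 f2 Z (fun x hx => mem_erase.2 ⟨?_, z1 hx⟩) z2⟩
    rintro rfl
    obtain ⟨a1, a2⟩ := kpeel_full z1 z2 hx
    have := card_le_card a1
    have := card_le_card a2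
    have := f1 x
    unfold dg at this v2
    omega
  · have m : ∀ a, a < L → q a ∈ (range L).image q := fun a ha =>
      mem_image_of_mem _ (mem_range.2 ha)
    obtain ⟨n, p, pe, p0, p1, p2, p3⟩ := ih (B \ (range L).image q)
      (sdiff_ssubset (fun x hx => by
        obtain ⟨a, ha, rfl⟩ := mem_image.1 hx
        exact (q3 a (mem_range.1 ha)).1) ⟨_, m 0 (by omega)⟩)
      fun Z hZ => hB Z (hZ.trans sdiff_subset)
    refine ⟨n + 1, Fin.cons q p, Fin.cons qe pe, fun i => ?_, fun i a j => ?_, fun i => ?_,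
      fun F f1 f2 Z z1 z2 => p3 F f1 (fun i => f2 i.succ) Z
        (fun x hx => mem_sdiff.2 ⟨z1 hx, fun hx' => ?_⟩) z2⟩
    · refine Fin.cases (fun a ha => (q3 a ha).1) (fun i a ha => (mem_sdiff.1 (p0 i a ha)).1) i
    · refine Fin.cases (Fin.cases (fun b ha hb h => ⟨rfl, q1 a b ha hb h⟩) (fun j b ha hb h => ?_) j)
        (fun i => Fin.cases (fun b ha hb h => ?_) (fun j b ha hb h => ?_) j) i
      · exact absurd (m a ha) (by
          have h' : q a = p j b := h
          rw [h']; exact (mem_sdiff.1 (p0 j b hb)).2)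
      · exact absurd (m b hb) (by
          have h' : p i a = q b := h
          rw [← h']; exact (mem_sdiff.1 (p0 i a ha)).2)
      · exact (p1 i a j b ha hb h).imp_left (congrArg Fin.succ)
    · exact Fin.cases q2 p2 i
    · have key : ∀ a, a < L → q a ∈ Z → ∀ e u, Jn s t e (q a) u → u ∈ B → e ∈ F := by
        intro a ha hq e u he hu
        obtain ⟨a1, a2⟩ := kpeel_full z1 z2 hq
        have b1 := card_le_card a1
        have b2 := card_le_card a2
        have b3 := f1 (q a)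
        have b4 := (q3 a ha).2
        unfold dg at b3 b4
        rcases he with ⟨e1, e2⟩ | ⟨e1, e2⟩
        · refine (mem_filter.1 ((eq_of_subset_of_card_le a1 (by omega)).ge ?_)).1
          exact mem_filter.2 ⟨mem_filter.2 ⟨mem_univ _, e1 ▸ z1 hq, e2 ▸ hu⟩, e1⟩
        · refine (mem_filter.1 ((eq_of_subset_of_card_le a2 (by omega)).ge ?_)).1
          exact mem_filter.2 ⟨mem_filter.2 ⟨mem_univ _, e2 ▸ hu, e1 ▸ z1 hq⟩, e1⟩
      have step : ∀ a, a + 1 < L → (q a ∈ Z ↔ q (a + 1) ∈ Z) := fun a ha => by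
        have j := q2 a ha
        have hf : q a ∈ Z ∨ q (a + 1) ∈ Z → qe a ∈ F := by
          rintro (h | h)
          · exact key a (by omega) h _ _ j (q3 _ ha).1
          · exact key _ ha h _ _ (j.symm.imp And.symm And.symm) (q3 a (by omega)).1
        have hz : qe a ∈ F → (q a ∈ Z ↔ q (a + 1) ∈ Z) := fun h => by
          have := z2 _ h
          rcases j with ⟨e1, e2⟩ | ⟨e1, e2⟩ <;> rw [e1, e2] at this
          · exact this
          · exact this.symm
        exact ⟨fun h => (hz (hf (Or.inl h))).1 h, fun h => (hz (hf (Or.inr h))).2 h⟩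
      have all : ∀ a, a < L → (q a ∈ Z ↔ q 0 ∈ Z) := fun a => by
        induction a with
        | zero => exact fun _ => Iff.rfl
        | succ a ih => exact fun ha => (step a ha).symm.trans (ih (by omega))
      obtain ⟨b, hb, rfl⟩ := mem_image.1 hx'
      obtain ⟨a, a1, a2⟩ := f2 0
      exact a2 (key a (by omega) ((all a (by omega)).2 ((all b (mem_range.1 hb)).1 hx)) _ _
        (q2 a a1) (q3 _ a1).1)

end Pool.Agent.P.MP_e59a69_co
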