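import Pool.Agent.P.MP_e59a69_co.QDefs

/-! Choosing disjoint small trees, and windows on a path. -/

open Finset

set_option linter.unusedSectionVars false

namespace Pool.Agent.P.MP_e59a69_co

variable {V E : Type} [Fintype V] [Fintype E] [DecidableEq V] [DecidableEq E]
variable {src tgt : E → V} {k : ℕ}

/-- a set with all its neighbours -/
def nbh (src tgt : E → V) (S : Finset V) : Finset V :=
  S ∪ (image tgt {e | src e ∈ S} ∪ image src {e | tgt e ∈ S})

lemma nbh_card (hc : ∀ v, degIn src tgt univ v = 3) (S : Finset V) :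
    #(nbh src tgt S) ≤ 4 * #S := by
  have h1 : ∑ v ∈ S, degIn src tgt univ v = #{e | src e ∈ S} + #{e | tgt e ∈ S} := by
    unfold degIn
    rw [sum_add_distrib, card_eq_sum_card_fiberwise (f := src) (s := {e | src e ∈ S}) (t := S)
      fun e he => (mem_filter.1 he).2, card_eq_sum_card_fiberwise (f := tgt)
      (s := {e | tgt e ∈ S}) (t := S) fun e he => (mem_filter.1 he).2]
    congr 1 <;> refine sum_congr rfl fun v hv => congrArg _ ?_ <;> ext e <;>
      simp only [mem_filter, mem_univ, true_and] <;>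
      exact ⟨fun h => ⟨h ▸ hv, h⟩, fun h => h.2⟩
  simp only [hc, sum_const, smul_eq_mul] at h1
  have h2 := card_union_le S (image tgt {e | src e ∈ S} ∪ image src {e | tgt e ∈ S})
  have h3 := card_union_le (image tgt {e | src e ∈ S}) (image src {e | tgt e ∈ S})
  have h4 := card_image_le (f := tgt) (s := {e | src e ∈ S})
  have h5 := card_image_le (f := src) (s := {e | tgt e ∈ S})
  unfold nbh
  omega

lemma ball_card (hc : ∀ v, degIn src tgt univ v = 3) (v : V) (t : ℕ) :
    #((nbh src tgt)^[t] {v}) ≤ 4 ^ t := by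
  induction t with
  | zero => simp
  | succ t ih =>
    rw [Function.iterate_succ_apply', pow_succ]
    have := nbh_card hc ((nbh src tgt)^[t] {v})
    omega

lemma QH.ball (H : QH src tgt k) {T : Finset V} (hT : Tight src tgt T) (hk : #T < k) {v : V}
    (hv : v ∈ T) (t : ℕ) : v ∈ (nbh src tgt)^[t] {v} ∧
      (T ⊆ (nbh src tgt)^[t] {v} ∨ t + 1 ≤ #(T ∩ (nbh src tgt)^[t] {v})) := by
  induction t with
  | zero => simp [hv]
  | succ t ih =>
    rw [Function.iterate_succ_apply']
    generalize (nbh src tgt)^[t] {v} = S at ih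
    have hs : S ⊆ nbh src tgt S := subset_union_left
    refine ⟨hs ih.1, ?_⟩
    by_cases a : T ⊆ S
    · exact Or.inl (a.trans hs)
    obtain ⟨w, w1, w2⟩ := not_subset.1 a
    obtain ⟨e, e1, e2⟩ := H.split hT hk hv w1 ih.1 w2
    obtain ⟨u, u1, u2, u3⟩ : ∃ u ∈ T, u ∈ nbh src tgt S ∧ u ∉ S := by
      by_cases b : src e ∈ S
      · exact ⟨tgt e, e1.2, mem_union_right _ (mem_union_left _
          (mem_image_of_mem _ (mem_filter.2 ⟨mem_univ _, b⟩))), by tauto⟩
      · exact ⟨src e, e1.1, mem_union_right _ (mem_union_right _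
          (mem_image_of_mem _ (mem_filter.2 ⟨mem_univ _, by tauto⟩))), b⟩
    have h1 : T ∩ S ⊂ T ∩ nbh src tgt S := (ssubset_iff_of_subset
      (inter_subset_inter_left hs)).2 ⟨u, mem_inter.2 ⟨u1, u2⟩, fun q => u3 (mem_inter.1 q).2⟩
    have := card_lt_card h1
    have := ih.2.resolve_left a
    omega

theorem QH.far (H : QH src tgt k) {M : ℕ} (hM : 0 < M) (hk : M < k) {κ : Type} [Fintype κ]
    [DecidableEq κ] (A : κ → Finset V) (hA : ∀ c d, c ≠ d → Disjoint (A c) (A d))
    (hc : ∀ c, 4 * (M * 4 ^ M) ≤ #(A c)) (B : V → Finset V)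
    (hB : ∀ c, ∀ a ∈ A c, a ∈ B a ∧ Tight src tgt (B a) ∧ #(B a) ≤ M) :
    ∃ s : κ → V, (∀ c, s c ∈ A c) ∧ ∀ c d, c ≠ d → Disjoint (B (s c)) (B (s d)) := by
  have hD : 0 < M * 4 ^ M := by positivity
  rcases isEmpty_or_nonempty κ with q | ⟨⟨c0⟩⟩
  · exact ⟨isEmptyElim, isEmptyElim, isEmptyElim⟩
  obtain ⟨v0, -⟩ := card_pos.1 (show 0 < #(A c0) by have := hc c0; omega)
  have : Nonempty V := ⟨v0⟩
  obtain ⟨s, h1, h2⟩ := exists_IT univ A (fun a b => ¬ Disjoint (B a) (B b))
    (fun a b h q => h q.symm) (M * 4 ^ M) hD (fun c _ => hc c) fun c _ a ha => by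
      rw [← card_biUnion fun i _ j _ hij =>
        (hA i j hij).mono (filter_subset _ _) (filter_subset _ _)]
      refine le_trans (card_le_card (t := (B a).biUnion fun v => (nbh src tgt)^[M] {v})
        fun b hb => ?_) (card_biUnion_le.trans ?_)
      · obtain ⟨j, -, hj⟩ := mem_biUnion.1 hb
        obtain ⟨b1, b2⟩ := mem_filter.1 hj
        obtain ⟨v, v1, v2⟩ := not_disjoint_iff.1 b2
        obtain ⟨x, y, z⟩ := hB j b b1
        refine mem_biUnion.2 ⟨v, v1, (H.ball y (by omega) v2 M).2.resolve_right (fun q => ?_) x⟩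
        have := card_le_card (inter_subset_left (s₁ := B b) (s₂ := (nbh src tgt)^[M] {v}))
        omega
      · exact (sum_le_card_nsmul _ _ _ fun v _ => ball_card H.cub v M).trans
          (Nat.mul_le_mul_right _ (hB c a ha).2.2)
  exact ⟨s, fun c => h1 c (mem_univ _), fun c d a => not_not.1 (h2 c (mem_univ _) d (mem_univ _) a)⟩

lemma QH.path_tight (H : QH src tgt k) (p : ℕ → V) (pe : ℕ → E) (n : ℕ)
    (hp : ∀ s ≤ n, ∀ t ≤ n, p s = p t → s = t)
    (he : ∀ t < n, Ends src tgt (pe t) (p t) (p (t + 1))) :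
    Tight src tgt (image p (range (n + 1))) := by
  induction n with
  | zero => simpa using H.single (p 0)
  | succ n ih =>
    rw [range_add_one, image_insert, insert_eq]
    have h1 : p n ∈ image p (range (n + 1)) := mem_image_of_mem _ (by simp)
    refine (H.single _).union (ih (fun s a t b => hp s (by omega) t (by omega))
      fun t a => he t (by omega)) (disjoint_singleton_left.2 fun q => ?_) (e := pe n) ?_
    · obtain ⟨t, a, b⟩ := mem_image.1 q
      have := mem_range.1 a
      have := hp t (by omega) _ le_rfl b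
      omega
    · rcases he n (by omega) with ⟨a, b⟩ | ⟨a, b⟩
      exacts [Or.inr ⟨a ▸ h1, b ▸ mem_singleton_self _⟩, Or.inl ⟨a ▸ mem_singleton_self _, b ▸ h1⟩]

lemma QH.at_card (H : QH src tgt k) (hk : 2 ≤ k) (v : V) : #{e | src e = v ∨ tgt e = v} = 3 := by
  rw [← H.cub v, filter_or, card_union_of_disjoint]
  · rfl
  · exact disjoint_filter.2 fun e _ a b => H.ne hk e (a.trans b.symm)

lemma path_inj {p : ℕ → V} {pe : ℕ → E} {n : ℕ} (hp : ∀ s ≤ n, ∀ t ≤ n, p s = p t → s = t)
    (he : ∀ t < n, Ends src tgt (pe t) (p t) (p (t + 1))) {s t : ℕ} (hs : s < n) (ht : t < n)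
    (h : pe s = pe t) : s = t := by
  have a := he s hs
  have b := he t ht
  rw [h] at a
  rcases a with ⟨a1, a2⟩ | ⟨a1, a2⟩ <;> rcases b with ⟨b1, b2⟩ | ⟨b1, b2⟩ <;>
    have h1 := hp _ (by omega) _ (by omega) (a1.symm.trans b1) <;>
    have h2 := hp _ (by omega) _ (by omega) (a2.symm.trans b2) <;> omega

/-- the third edge at an inner vertex of a short path leaves the path -/
theorem QH.leg (H : QH src tgt k) (p : ℕ → V) (pe : ℕ → E) (n : ℕ) (hk : n + 1 < k)
    (hp : ∀ s ≤ n, ∀ t ≤ n, p s = p t → s = t)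
    (he : ∀ t < n, Ends src tgt (pe t) (p t) (p (t + 1))) (t : ℕ) (ht : t + 1 < n) :
    ∃ (g : E) (o : V), Ends src tgt g (p (t + 1)) o ∧ o ∉ image p (range (n + 1)) ∧
      ∀ f, src f = p (t + 1) ∨ tgt f = p (t + 1) → f = pe t ∨ f = pe (t + 1) ∨ f = g := by
  have h1 := H.at_card (by omega) (p (t + 1))
  have h2 : ({pe t, pe (t + 1)} : Finset E) ⊆
      ({e | src e = p (t + 1) ∨ tgt e = p (t + 1)} : Finset E) := by
    intro e a
    have b := he t (by omega)
    have c := he (t + 1) ht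
    rcases mem_insert.1 a with a | a
    · exact mem_filter.2 ⟨mem_univ _, by rw [a]; tauto⟩
    · exact mem_filter.2 ⟨mem_univ _, by rw [mem_singleton.1 a]; tauto⟩
  have h3 : pe t ≠ pe (t + 1) := fun q => by
    have := path_inj hp he (by omega) ht q
    omega
  have h4 := card_sdiff_of_subset h2
  rw [h1, card_pair h3] at h4
  obtain ⟨g, hg⟩ := card_eq_one.1 h4
  have h5 : ∀ f, f = g ↔ (src f = p (t + 1) ∨ tgt f = p (t + 1)) ∧ ¬ (f = pe t ∨ f = pe (t + 1)) :=
    fun f => by rw [← mem_singleton, ← hg]; simp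
  obtain ⟨g1, g2⟩ := (h5 g).1 rfl
  have hW : #(image p (range (n + 1))) = n + 1 := by
    rw [card_image_of_injOn fun a x b y => hp a (by simpa [Nat.lt_succ_iff] using x) b
      (by simpa [Nat.lt_succ_iff] using y), card_range]
  have hm : ∀ s ≤ n, p s ∈ image p (range (n + 1)) := fun s a =>
    mem_image_of_mem _ (mem_range.2 (by omega))
  have hn : ¬ Ins src tgt (image p (range (n + 1))) g := fun q => by
    have a := hand H.cub (image p (range (n + 1)))
    have b := H.small (X := image p (range (n + 1))) ⟨_, hm 0 (by omega)⟩ (by omega)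
    have c : insert g (image pe (range n)) ⊆
        ({e | Ins src tgt (image p (range (n + 1))) e} : Finset E) := by
      intro e x
      refine mem_filter.2 ⟨mem_univ _, ?_⟩
      rcases mem_insert.1 x with x | x
      · exact x ▸ q
      · obtain ⟨s, s1, rfl⟩ := mem_image.1 x
        have s2 := mem_range.1 s1
        rcases he s s2 with ⟨y, z⟩ | ⟨y, z⟩
        exacts [⟨y ▸ hm _ (by omega), z ▸ hm _ (by omega)⟩, ⟨y ▸ hm _ (by omega), z ▸ hm _ (by omega)⟩]
    have d := card_le_card c
    rw [card_insert_of_notMem, card_image_of_injOn fun a x b y => path_inj hp he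
      (by simpa using x) (by simpa using y), card_range] at d
    · omega
    · intro x
      obtain ⟨s, s1, rfl⟩ := mem_image.1 x
      have s2 := mem_range.1 s1
      have : s = t + 1 ∨ s + 1 = t + 1 := by
        rcases he s s2 with ⟨y, z⟩ | ⟨y, z⟩ <;> rw [y, z] at g1 <;> rcases g1 with w | w <;>
          have := hp _ (by omega) _ (by omega) w <;> omega
      rcases this with w | w
      · exact g2 (Or.inr (by rw [w]))
      · exact g2 (Or.inl (by rw [Nat.add_right_cancel w]))
  have h6 : ∀ f, src f = p (t + 1) ∨ tgt f = p (t + 1) → f = pe t ∨ f = pe (t + 1) ∨ f = g :=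
    fun f a => by
      have := h5 f
      tauto
  rcases g1 with a | a
  · exact ⟨g, tgt g, Or.inl ⟨a, rfl⟩, fun q => hn ⟨a ▸ hm _ (by omega), q⟩, h6⟩
  · exact ⟨g, src g, Or.inr ⟨rfl, a⟩, fun q => hn ⟨q, a ▸ hm _ (by omega)⟩, h6⟩

end Pool.Agent.P.MP_e59a69_co
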