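import Pool.Agent.P.MP_e59a69_co.SRHaxell

/-! Many disjoint bases without conflicts. -/

open Finset Module

namespace Pool.Agent.P.MP_e59a69_co

lemma srxbases_card {ι : Type} [Fintype ι] [DecidableEq ι] {K : ℕ} (T : Finset (ι × Fin K)) :
    #T = ∑ k : Fin K, #{x : ι | (x, k) ∈ T} := by
  have h : #T = ∑ p : ι × Fin K, if p ∈ T then 1 else 0 := by
    rw [← Finset.card_filter]
    congr 1
    ext p
    simp
  rw [h, Fintype.sum_prod_type_right]
  refine Finset.sum_congr rfl fun k _ => ?_
  rw [Finset.card_filter]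

lemma srxbases_proj {ι W : Type} [Fintype ι] [DecidableEq ι] [AddCommGroup W] [Module ℝ W]
    (a : ι → W) {K : ℕ} (S : Finset (ι × Fin K)) (x : ι) (k : Fin K)
    (h : (Pi.single k (a x) : Fin K → W) ∈ Submodule.span ℝ
      ((fun p : ι × Fin K => (Pi.single p.2 (a p.1) : Fin K → W)) '' (S : Set (ι × Fin K)))) :
    a x ∈ Submodule.span ℝ (a '' (({y : ι | (y, k) ∈ S} : Finset ι) : Set ι)) := by
  have hle : Submodule.span ℝ
      ((fun p : ι × Fin K => (Pi.single p.2 (a p.1) : Fin K → W)) '' (S : Set (ι × Fin K))) ≤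
      (Submodule.span ℝ (a '' (({y : ι | (y, k) ∈ S} : Finset ι) : Set ι))).comap
        (LinearMap.proj (R := ℝ) (φ := fun _ : Fin K => W) k) := by
    rw [Submodule.span_le]
    rintro _ ⟨⟨y, j⟩, hy, rfl⟩
    simp only [SetLike.mem_coe, Submodule.mem_comap, LinearMap.proj_apply]
    by_cases hjk : j = k
    · subst hjk
      rw [Pi.single_eq_same]
      exact Submodule.subset_span ⟨y, by simpa using hy, rfl⟩
    · rw [Pi.single_eq_of_ne (Ne.symm hjk)]
      exact Submodule.zero_mem _
  have := hle h
  simpa only [Submodule.mem_comap, LinearMap.proj_apply, Pi.single_eq_same] using this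

lemma srxbases_rank {ι W : Type} [AddCommGroup W] [Module ℝ W]
    (a : ι → W) {T F : Finset ι} (hT : LinearIndepOn ℝ a (T : Set ι)) (hTF : T ⊆ F) :
    #T ≤ finrank ℝ (Submodule.span ℝ (a '' (F : Set ι))) := by
  have : Module.Finite ℝ (Submodule.span ℝ (a '' (F : Set ι))) :=
    Module.Finite.span_of_finite ℝ ((F.finite_toSet).image a)
  have h1 : finrank ℝ (Submodule.span ℝ (Set.range fun x : (T : Set ι) => a x)) =
      Fintype.card (T : Set ι) := finrank_span_eq_card hT
  have h2 : Submodule.span ℝ (Set.range fun x : (T : Set ι) => a x) ≤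
      Submodule.span ℝ (a '' (F : Set ι)) := by
    apply Submodule.span_mono
    rintro _ ⟨x, rfl⟩
    exact ⟨x, hTF x.2, rfl⟩
  have h3 := Submodule.finrank_mono h2
  rw [h1] at h3
  simpa using h3

lemma srxbases_class {ι W : Type} [AddCommGroup W] [Module ℝ W]
    (a : ι → W) {K : ℕ} {I : Finset (ι × Fin K)}
    (hI : LinearIndepOn ℝ (fun p : ι × Fin K => (Pi.single p.2 (a p.1) : Fin K → W))
      (I : Set (ι × Fin K))) (k : Fin K) {T : Finset ι} (hT : ∀ x ∈ T, (x, k) ∈ I) :
    LinearIndepOn ℝ a (T : Set ι) := by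
  have h1 : LinearIndependent ℝ
      ((fun p : (I : Set (ι × Fin K)) => (Pi.single p.1.2 (a p.1.1) : Fin K → W)) ∘
        fun x : (T : Set ι) => (⟨(x.1, k), hT x.1 x.2⟩ : (I : Set (ι × Fin K)))) := by
    refine LinearIndependent.comp hI _ ?_
    intro x y hxy
    have : (x.1, k) = (y.1, k) := congrArg Subtype.val hxy
    exact Subtype.ext (congrArg Prod.fst this)
  exact LinearIndependent.of_comp (LinearMap.single ℝ (fun _ : Fin K => W) k) h1

theorem exists_bases {ι W : Type} [Fintype ι] [DecidableEq ι] [AddCommGroup W] [Module ℝ W]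
    (a : ι → W) (R : ι → ι → Prop) [DecidableRel R] (hR : ∀ x y, R x y → R y x) (Δ K : ℕ)
    (hK : 0 < K) (hΔ : ∀ x, #{y | R x y} ≤ Δ)
    [∀ S : Finset ι, DecidablePred fun x => a x ∉ Submodule.span ℝ (a '' (S : Set ι))]
    (hflat : ∀ S : Finset ι, (2 * (K * (Δ + 1)) + 2) *
      (finrank ℝ (Submodule.span ℝ (Set.range a)) - #S) ≤
        #{x | a x ∉ Submodule.span ℝ (a '' (S : Set ι))}) :
    ∃ U : Finset ι, (∀ x ∈ U, ∀ y ∈ U, x ≠ y → ¬ R x y) ∧
      Submodule.span ℝ (a '' (U : Set ι)) = Submodule.span ℝ (Set.range a) ∧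
      #U = K * finrank ℝ (Submodule.span ℝ (a '' (U : Set ι))) ∧
      ∀ F ⊆ U, #F ≤ K * finrank ℝ (Submodule.span ℝ (a '' (F : Set ι))) := by
  classical
  set d := finrank ℝ (Submodule.span ℝ (Set.range a)) with hd
  obtain ⟨I, hcard, hind, hcf⟩ := haxell_span
    (fun p : ι × Fin K => (Pi.single p.2 (a p.1) : Fin K → W))
    (fun p q => p.1 = q.1 ∨ R p.1 q.1)
    (fun p q h => h.elim (fun e => Or.inl e.symm) (fun r => Or.inr (hR _ _ r)))
    (K * (Δ + 1)) (K * d)
    (by
      intro p
      calc #{q : ι × Fin K | p.1 = q.1 ∨ R p.1 q.1}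
          ≤ #((insert p.1 ({y | R p.1 y} : Finset ι)) ×ˢ (univ : Finset (Fin K))) := by
            apply Finset.card_le_card
            intro q hq
            simp only [Finset.mem_filter, Finset.mem_univ, true_and] at hq
            simp only [Finset.mem_product, Finset.mem_insert, Finset.mem_filter, Finset.mem_univ,
              true_and, and_true]
            exact hq.elim (fun e => Or.inl e.symm) Or.inr
        _ ≤ (Δ + 1) * K := by
            rw [Finset.card_product, Finset.card_univ, Fintype.card_fin]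
            exact Nat.mul_le_mul_right _
              ((Finset.card_insert_le _ _).trans (Nat.add_le_add_right (hΔ p.1) 1))
        _ = K * (Δ + 1) := Nat.mul_comm _ _)
    (by
      intro S
      rw [srxbases_card (K := K) (Finset.filter _ _)]
      have h1 : K * d - #S ≤ ∑ k : Fin K, (d - #{x : ι | (x, k) ∈ S}) := by
        have h2 : ∑ k : Fin K, d ≤ ∑ k : Fin K,
            ((d - #{x : ι | (x, k) ∈ S}) + #{x : ι | (x, k) ∈ S}) :=
          Finset.sum_le_sum fun k _ => by omega
        rw [Finset.sum_add_distrib, ← srxbases_card S] at h2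
        simp only [Finset.sum_const, Finset.card_univ, Fintype.card_fin, smul_eq_mul] at h2
        omega
      refine (Nat.mul_le_mul_left _ h1).trans ?_
      rw [Finset.mul_sum]
      refine Finset.sum_le_sum fun k _ => (hflat _).trans (Finset.card_le_card ?_)
      intro x hx
      simp only [Finset.mem_filter, Finset.mem_univ, true_and] at hx ⊢
      exact fun h => hx (srxbases_proj a S x k h))
  have hinj : Set.InjOn Prod.fst (I : Set (ι × Fin K)) := by
    intro p hp q hq hpq
    by_contra hne
    exact hcf p hp q hq hne (Or.inl hpq)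
  have hU : #(I.image Prod.fst) = K * d := by
    rw [Finset.card_image_of_injOn hinj, hcard]
  have hF : ∀ F ⊆ I.image Prod.fst,
      #F ≤ K * finrank ℝ (Submodule.span ℝ (a '' (F : Set ι))) := by
    intro F hFU
    calc #F ≤ #((univ : Finset (Fin K)).biUnion fun k => F.filter fun x => (x, k) ∈ I) := by
          apply Finset.card_le_card
          intro x hx
          obtain ⟨p, hp, rfl⟩ := Finset.mem_image.1 (hFU hx)
          exact Finset.mem_biUnion.2 ⟨p.2, Finset.mem_univ _, Finset.mem_filter.2 ⟨hx, hp⟩⟩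
      _ ≤ ∑ k : Fin K, #(F.filter fun x => (x, k) ∈ I) := Finset.card_biUnion_le
      _ ≤ ∑ _k : Fin K, finrank ℝ (Submodule.span ℝ (a '' (F : Set ι))) :=
          Finset.sum_le_sum fun k _ => srxbases_rank a
            (srxbases_class a hind k fun x hx => (Finset.mem_filter.1 hx).2)
            (Finset.filter_subset _ _)
      _ = K * finrank ℝ (Submodule.span ℝ (a '' (F : Set ι))) := by simp
  have hspan : Submodule.span ℝ (a '' ((I.image Prod.fst : Finset ι) : Set ι)) =
      Submodule.span ℝ (Set.range a) := by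
    have : Module.Finite ℝ (Submodule.span ℝ (Set.range a)) :=
      Module.Finite.span_of_finite ℝ (Set.finite_range a)
    apply Submodule.eq_of_le_of_finrank_le (Submodule.span_mono (Set.image_subset_range _ _))
    have := hF _ (Finset.Subset.refl _)
    rw [hU] at this
    exact Nat.le_of_mul_le_mul_left this hK
  refine ⟨I.image Prod.fst, ?_, hspan, by rw [hspan, hU], hF⟩
  intro x hx y hy hxy hr
  obtain ⟨p, hp, rfl⟩ := Finset.mem_image.1 hx
  obtain ⟨q, hq, rfl⟩ := Finset.mem_image.1 hy
  exact hcf p hp q hq (fun e => hxy (congrArg Prod.fst e)) (Or.inr hr)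

end Pool.Agent.P.MP_e59a69_co
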