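import Pool.Agent.P.MP_e59a69_co.QSplit
import Pool.Agent.P.MP_e59a69_co.SRBases

/-! All but one edge of every small group can be deleted from a highly connected graph. -/

open Finset Module

set_option linter.unusedSectionVars false

namespace Pool.Agent.P.MP_e59a69_co

variable {N E : Type} [Fintype N] [Fintype E] [DecidableEq N] [DecidableEq E]

lemma qflat {W : Type} [AddCommGroup W] [Module ℝ W] (s t : E → N) (Z : Finset N)
    (hZ : ∀ e, s e ∈ Z ∧ t e ∈ Z) (ev : N → W) (lam : ℕ)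
    (hlam : ∀ X, Sep Z X → 2 * lam ≤ ct s t univ X) (S : Finset E)
    [DecidablePred fun x => ev (s x) - ev (t x) ∉
      Submodule.span ℝ ((fun e => ev (s e) - ev (t e)) '' (S : Set E))] :
    lam * (finrank ℝ (Submodule.span ℝ (Set.range fun e => ev (s e) - ev (t e))) - #S) ≤
      #{x | ev (s x) - ev (t x) ∉
        Submodule.span ℝ ((fun e => ev (s e) - ev (t e)) '' (S : Set E))} := by
  classical
  set a : E → W := fun e => ev (s e) - ev (t e) with ha
  set Us : Submodule ℝ W := Submodule.span ℝ (a '' (S : Set E)) with hUs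
  let cls : N → W ⧸ Us := fun v => Us.mkQ (ev v)
  have hbad : ∀ e, ev (s e) - ev (t e) ∉ Us ↔ cls (s e) ≠ cls (t e) := by
    intro e
    simp only [cls, Submodule.mkQ_apply, ne_eq, Submodule.Quotient.eq]
  set Bad : Finset E := {x | cls (s x) ≠ cls (t x)} with hBad
  have hmem : ∀ e, e ∈ Bad ↔ cls (s e) ≠ cls (t e) := fun e => by simp [hBad]
  let T : Finset (W ⧸ Us) := Bad.image (fun e => cls (s e)) ∪ Bad.image (fun e => cls (t e))
  obtain ⟨sec, hsec⟩ : ∃ sec : W ⧸ Us → W, ∀ t, Us.mkQ (sec t) = t :=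
    ⟨fun t => (Us.mkQ_surjective t).choose, fun t => (Us.mkQ_surjective t).choose_spec⟩
  have hdiff : ∀ v, ev v - sec (cls v) ∈ Us := by
    intro v
    rw [← Submodule.Quotient.eq]
    exact (hsec (cls v)).symm
  let Y : Finset W := S.image a ∪ T.image sec
  have hUZ : Us ≤ Submodule.span ℝ (Y : Set W) := by
    apply Submodule.span_mono
    rintro _ ⟨v, hv, rfl⟩
    exact mem_coe.2 (mem_union_left _ (mem_image_of_mem _ (mem_coe.1 hv)))
  have hsecZ : ∀ c ∈ T, sec c ∈ Submodule.span ℝ (Y : Set W) := fun c hc =>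
    Submodule.subset_span (mem_coe.2 (mem_union_right _ (mem_image_of_mem _ hc)))
  have hA : Submodule.span ℝ (Set.range a) ≤ Submodule.span ℝ (Y : Set W) := by
    rw [Submodule.span_le]
    rintro _ ⟨e, rfl⟩
    by_cases hv : e ∈ Bad
    · have e1 : a e = (ev (s e) - sec (cls (s e))) - (ev (t e) - sec (cls (t e))) +
          (sec (cls (s e)) - sec (cls (t e))) := by
        simp only [ha]
        abel
      rw [SetLike.mem_coe, e1]
      exact add_mem (sub_mem (hUZ (hdiff _)) (hUZ (hdiff _)))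
        (sub_mem (hsecZ _ (mem_union_left _ (mem_image_of_mem (fun e => cls (s e)) hv)))
          (hsecZ _ (mem_union_right _ (mem_image_of_mem (fun e => cls (t e)) hv))))
    · apply hUZ
      by_contra h
      exact hv ((hmem e).2 ((hbad e).1 h))
  have hdim : finrank ℝ (Submodule.span ℝ (Set.range a)) ≤ #S + #T := by
    refine (Submodule.finrank_mono hA).trans ?_
    refine (finrank_span_finset_le_card Y).trans ?_
    exact (card_union_le _ _).trans (add_le_add card_image_le card_image_le)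
  have hfib : ∀ c ∈ T, 2 * lam ≤ #{e ∈ Bad | cls (s e) = c} + #{e ∈ Bad | cls (t e) = c} := by
    intro c hc
    have h1 : Sep Z {v | cls v = c} := by
      rcases mem_union.1 hc with h | h <;> obtain ⟨e, he, rfl⟩ := mem_image.1 h
      · exact ⟨⟨_, (hZ e).1, by simp⟩, _, (hZ e).2, by simpa using ((hmem e).1 he).symm⟩
      · exact ⟨⟨_, (hZ e).2, by simp⟩, _, (hZ e).1, by simpa using (hmem e).1 he⟩
    refine (hlam _ h1).trans (le_trans (card_le_card fun e he => ?_) (card_union_le _ _))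
    have := (mem_filter.1 he).2
    simp only [mem_filter, mem_univ, true_and, mem_union, hmem] at this ⊢
    by_cases a1 : cls (s e) = c
    · exact Or.inl ⟨fun h => this (by simp [a1, ← h]), a1⟩
    · have a2 : cls (t e) = c := by tauto
      exact Or.inr ⟨fun h => a1 (h.trans a2), a2⟩
  have hs1 : #Bad = ∑ c ∈ T, #{e ∈ Bad | cls (s e) = c} :=
    card_eq_sum_card_fiberwise fun e he =>
      mem_coe.2 (mem_union_left _ (mem_image_of_mem (fun e => cls (s e)) (mem_coe.1 he)))
  have hs2 : #Bad = ∑ c ∈ T, #{e ∈ Bad | cls (t e) = c} :=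
    card_eq_sum_card_fiberwise fun e he =>
      mem_coe.2 (mem_union_right _ (mem_image_of_mem (fun e => cls (t e)) (mem_coe.1 he)))
  have hs3 := sum_le_sum hfib
  rw [sum_add_distrib, ← hs1, ← hs2, sum_const, smul_eq_mul] at hs3
  refine le_trans ?_ (card_le_card (s := Bad) fun v hv => by
    simp only [mem_filter, mem_univ, true_and]
    exact (hbad v).2 ((hmem v).1 hv))
  have : lam * (finrank ℝ (Submodule.span ℝ (Set.range a)) - #S) ≤ lam * #T :=
    Nat.mul_le_mul_left _ (by omega)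
  nlinarith

/-- a conflict-free edge set that crosses every cut `K` times -/
lemma qfree (s t : E → N) (Z : Finset N) (hZ : ∀ e, s e ∈ Z ∧ t e ∈ Z) (R : E → E → Prop)
    [DecidableRel R] (hR : ∀ x y, R x y → R y x) (D K : ℕ) (hK : 0 < K)
    (hD : ∀ x, #{y | R x y} ≤ D)
    (h : ∀ X, Sep Z X → 2 * (2 * (K * (D + 1)) + 2) ≤ ct s t univ X) :
    ∃ U : Finset E, (∀ x ∈ U, ∀ y ∈ U, x ≠ y → ¬ R x y) ∧ ∀ X, Sep Z X → K ≤ ct s t U X := by
  classical
  let ev : N → N → ℝ := fun v => Pi.single v 1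
  obtain ⟨U, h1, h2, h3, h4⟩ := exists_bases (fun e => ev (s e) - ev (t e)) R hR D K hK hD
    fun S => qflat s t Z hZ ev _ h S
  refine ⟨U, h1, fun X hX => ?_⟩
  let φ : (N → ℝ) →ₗ[ℝ] ℝ := ∑ v ∈ X, LinearMap.proj v
  have hφ : ∀ v, φ (ev v) = if v ∈ X then 1 else 0 := fun v => by
    simp [φ, ev, Pi.single_apply]
  let F : Finset E := {e ∈ U | s e ∈ X ↔ t e ∈ X}
  have hF : F ⊆ U := filter_subset _ _
  have hk : Submodule.span ℝ ((fun e => ev (s e) - ev (t e)) '' (F : Set E)) ≤ LinearMap.ker φ := by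
    rw [Submodule.span_le]
    rintro _ ⟨e, he, rfl⟩
    have := (mem_filter.1 (mem_coe.1 he)).2
    simp only [SetLike.mem_coe, LinearMap.mem_ker, map_sub, hφ, this, sub_self]
  obtain ⟨e, he⟩ := card_pos.1 (show 0 < ct s t univ X by have := h X hX; omega)
  have he' := (mem_filter.1 he).2
  have hlt : Submodule.span ℝ ((fun e => ev (s e) - ev (t e)) '' (F : Set E)) <
      Submodule.span ℝ ((fun e => ev (s e) - ev (t e)) '' (U : Set E)) := by
    refine lt_of_le_of_ne (Submodule.span_mono (Set.image_mono (coe_subset.2 hF))) fun q => ?_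
    have : ev (s e) - ev (t e) ∈ LinearMap.ker φ := by
      apply hk
      rw [q, h2]
      exact Submodule.subset_span ⟨e, rfl⟩
    rw [LinearMap.mem_ker, map_sub, hφ, hφ] at this
    by_cases a : s e ∈ X <;> by_cases b : t e ∈ X <;> simp_all
  have h5 := Submodule.finrank_lt_finrank_of_lt hlt
  have h6 := h4 F hF
  have h7 : #F + ct s t U X = #U := card_filter_add_card_filter_not _
  have h8 := Nat.mul_le_mul_left K (Nat.succ_le_of_lt h5)
  rw [Nat.mul_succ] at h8
  omega

theorem level (s t : E → N) (Z : Finset N) {ι : Type} (G : ι → Finset E) (D : ℕ)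
    (hG : ∀ i j, i ≠ j → Disjoint (G i) (G j)) (hD : ∀ i, #(G i) ≤ D)
    (hZ : ∀ i, ∀ e ∈ G i, Ins s t Z e) (h : ∀ X, Sep Z X → 72 * D + 38 ≤ ct s t univ X) :
    ∃ A : Finset E, (∀ i, ∀ e ∈ A, ∀ f ∈ A, e ∈ G i → f ∈ G i → e = f) ∧
      ∀ X, Sep Z X → 9 ≤ ct s t A X := by
  classical
  rcases Z.eq_empty_or_nonempty with rfl | ⟨z0, hz⟩
  · exact ⟨∅, by simp, fun X hX => by simp [Sep] at hX⟩
  obtain ⟨s', t', own, h1, h2, h3, h4⟩ := double_split s t univ Z z0 hz _ h
  obtain ⟨U, u1, u2⟩ := qfree s' t' Z h1 (fun x y => ∃ i, x.1 ∈ G i ∧ y.1 ∈ G i)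
    (fun x y ⟨i, a, b⟩ => ⟨i, b, a⟩) (2 * D) 18 (by norm_num)
    (fun x => by
      by_cases hx : ∃ i, x.1 ∈ G i
      · obtain ⟨i, hi⟩ := hx
        refine le_trans (card_le_card (t := G i ×ˢ univ) fun y hy => ?_) ?_
        · obtain ⟨j, a, b⟩ := (mem_filter.1 hy).2
          by_cases c : i = j
          · exact mem_product.2 ⟨c ▸ b, mem_univ _⟩
          · exact absurd a (disjoint_left.1 (hG i j c) hi)
        · rw [card_product, card_univ, Fintype.card_bool]
          have := hD i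
          omega
      · rw [filter_eq_empty_iff.2 fun y _ ⟨i, a, _⟩ => hx ⟨i, a⟩]
        simp)
    (fun X hX => by have := h2 X hX; omega)
  refine ⟨({e | ∃ b, own (e, b) ∈ U} : Finset E), fun i e he f hf a b => ?_, fun X hX => ?_⟩
  · obtain ⟨b1, a1⟩ := (mem_filter.1 he).2
    obtain ⟨b2, a2⟩ := (mem_filter.1 hf).2
    rw [(h4 (e, b1) (hZ i e a) _).2 rfl] at a1
    rw [(h4 (f, b2) (hZ i f b) _).2 rfl] at a2
    by_contra c
    exact u1 _ a1 _ a2 (fun q => c (congrArg Prod.fst q)) ⟨i, a, b⟩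
  · have h5 := u2 X hX
    have h6 : ct s' t' U X ≤
        #(({e ∈ ({e | ∃ b, own (e, b) ∈ U} : Finset E) | ¬ (s e ∈ X ↔ t e ∈ X)} ×ˢ
          (univ : Finset Bool)).image own) := card_le_card fun e he => by
      obtain ⟨f, a, -, c⟩ := h3 e X (mem_filter.1 he).2
      exact mem_image.2 ⟨f, mem_product.2 ⟨mem_filter.2 ⟨mem_filter.2
        ⟨mem_univ _, f.2, a ▸ (mem_filter.1 he).1⟩, c⟩, mem_univ _⟩, a⟩
    have h7 := h6.trans card_image_le
    rw [card_product, card_univ, Fintype.card_bool] at h7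
    unfold ct at *
    omega

end Pool.Agent.P.MP_e59a69_co
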