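import Pool.Agent.P.MP_e59a69_co.QCon
import Pool.Agent.P.MP_e59a69_co.QLevel

/-! One level of trees spoils at most one of ten candidates of a thread. -/

open Finset

set_option linter.unusedSectionVars false

namespace Pool.Agent.P.MP_e59a69_co

variable {V E : Type} [Fintype V] [Fintype E] [DecidableEq V] [DecidableEq E]
variable {src tgt : E → V} {k : ℕ}

lemma cr_compl (X : Finset V) (e : E) : Cr src tgt Xᶜ e ↔ Cr src tgt X e := by
  simp only [Cr, mem_compl]
  tauto

lemma QH.nohub (H : QH src tgt k) {κ : Type} [Fintype κ] {h : ℕ} {I J : κ → Finset V}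
    {hub : κ → E → Finset V} (F : Fam src tgt k h I J hub) {X : Finset V}
    (hX : ∀ c e, ∀ v ∈ hub c e, v ∉ X) (h1 : HasCycleIn src tgt X) (h2 : HasCycleIn src tgt Xᶜ) :
    k ≤ #{e | Cr src tgt X e ∧ ∀ c, ¬ Ins src tgt (I c) e} := by
  have hn : ∀ c e, Ins src tgt X e → ¬ Cr src tgt (I c) e := fun c e a b => by
    rcases F.ends b with ⟨-, y⟩ | ⟨y, -⟩
    exacts [hX c e _ y a.2, hX c e _ y a.1]
  obtain ⟨v, hv⟩ := cyc_pick h1
  by_cases a : ∃ c, v ∈ I c
  · obtain ⟨c, a⟩ := a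
    have h3 := H.gir _ (hv (I c) a (hn c))
    have h4 := card_le_card ((inter_subset_right (s₁ := X)).trans (F.IJ c))
    have := F.sm c
    omega
  have h3 := hv {v | ∀ c, v ∉ I c} (mem_filter.2 ⟨mem_univ _, fun c q => a ⟨c, q⟩⟩)
    fun e he => by
      simp only [Cr, mem_filter, mem_univ, true_and, not_not]
      exact forall_congr' fun c => not_congr (not_not.1 (hn c e he))
  refine (H.cyc _ h3 (h2.mono (compl_subset_compl.2 inter_subset_left))).trans
    (card_le_card fun e he => ?_)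
  have h4 := (mem_filter.1 he).2
  simp only [mem_inter, mem_filter, mem_univ, true_and] at h4 ⊢
  refine ⟨fun q => ?_, fun c q => h4 (iff_of_false (fun r => r.2 c q.1) fun r => r.2 c q.2)⟩
  by_cases b : src e ∈ X
  · exact h4 (and_congr q (forall_congr' fun c =>
      not_congr (not_not.1 (hn c e ⟨b, q.1 b⟩))))
  · exact h4 (iff_of_false (fun r => b r.1) fun r => b (q.2 r.1))

theorem QH.one_level (H : QH src tgt k) {ι : Type} [Fintype ι] [DecidableEq ι] {n : ℕ}
    {I J : ι × Fin 10 → Finset V} {hub : ι × Fin 10 → E → Finset V}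
    (F : Fam src tgt k (hf n) I J hub) (hk : hf n ≤ k)
    (hI : ∀ c, ct src tgt univ (I c) ≤ n + 2) :
    ∃ bad : ι → Fin 10, ∀ sel : ι → Fin 10, (∀ i, sel i ≠ bad i) → ∀ X : Finset V,
      HasCycleIn src tgt X → HasCycleIn src tgt Xᶜ →
      (∀ c e, Cr src tgt X e → Ins src tgt (J c) e → src e ∈ I c ∨ tgt e ∈ I c) →
      9 ≤ #{e | Cr src tgt X e ∧ ∀ i, ¬ Ins src tgt (I (i, sel i)) e} := by
  obtain ⟨nd, Z, D⟩ := H.exists_nd F
  have hin : ∀ c e, Cr src tgt (I c) e → Ins src tgt (J c) e := fun c e a => F.ins (by tauto)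
  obtain ⟨A, hA1, hA2⟩ := level (fun e => nd (src e)) (fun e => nd (tgt e)) Z
    (fun i => ({e | ∃ a, Cr src tgt (I (i, a)) e} : Finset E)) (10 * (n + 2))
    (fun i j hij => disjoint_left.2 fun e a b => by
      obtain ⟨x, a⟩ := (mem_filter.1 a).2
      obtain ⟨y, b⟩ := (mem_filter.1 b).2
      exact hij (congrArg Prod.fst (F.uniq (hin _ e a).1 (hin _ e b).1)))
    (fun i => by
      refine le_trans (card_le_card (t := univ.biUnion fun a : Fin 10 =>
        ({e | Cr src tgt (I (i, a)) e} : Finset E)) fun e he => ?_) (card_biUnion_le.trans ?_)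
      · obtain ⟨x, a⟩ := (mem_filter.1 he).2
        exact mem_biUnion.2 ⟨x, mem_univ _, mem_filter.2 ⟨mem_univ _, a⟩⟩
      · exact (sum_le_card_nsmul _ _ (n + 2) fun a _ => hI (i, a)).trans (by simp))
    (fun i e he => by
      obtain ⟨x, a⟩ := (mem_filter.1 he).2
      exact ⟨(D.mem F (hin _ e a).1).1, (D.mem F (hin _ e a).2).1⟩)
    (fun X ⟨⟨z, z1, z2⟩, w, w1, w2⟩ => by
      rw [ct_nd, show 72 * (10 * (n + 2)) + 38 = hf n by unfold hf; ring]
      have key : ∀ P : Finset V, ¬ HasCycleIn src tgt P →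
          (∃ c e, #(hub c e) = hf n ∧ hub c e ⊆ P) → hf n ≤ ct src tgt univ P :=
        fun P a ⟨c, e, b, d⟩ => by
          have h1 := card_le_card d
          have h2 : 0 < hf n := by unfold hf; omega
          have := H.acyc (card_pos.1 (by omega)) a
          omega
      by_cases a : HasCycleIn src tgt ({v | nd v ∈ X} : Finset V)
      · by_cases b : HasCycleIn src tgt ({v | nd v ∈ X} : Finset V)ᶜ
        · exact hk.trans (H.cyc _ a b)
        · obtain ⟨c, e, x, y⟩ := D.side F w1 (mem_compl.2 w2)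
          rw [← ct_compl]
          exact key _ b ⟨c, e, x, fun v hv => by simpa using y v hv⟩
      · obtain ⟨c, e, x, y⟩ := D.side F z1 z2
        exact key _ a ⟨c, e, x, fun v hv => by simpa using y v hv⟩)
  have hb : ∀ i, ∃ b : Fin 10, ∀ a, ∀ e ∈ A, Cr src tgt (I (i, a)) e → a = b := fun i => by
    by_cases q : ∃ a, ∃ e ∈ A, Cr src tgt (I (i, a)) e
    · obtain ⟨b, f, f1, f2⟩ := q
      refine ⟨b, fun a e e1 e2 => ?_⟩
      obtain rfl := hA1 i e e1 f f1 (mem_filter.2 ⟨mem_univ _, a, e2⟩)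
        (mem_filter.2 ⟨mem_univ _, b, f2⟩)
      exact congrArg Prod.snd (F.uniq (hin _ e e2).1 (hin _ e f2).1)
    · exact ⟨0, fun a e e1 e2 => absurd ⟨a, e, e1, e2⟩ q⟩
  choose bad hbad using hb
  refine ⟨bad, fun sel hsel X h1 h2 hX => ?_⟩
  have hun := H.unsplit F (X := X) fun c f e a b => by
    rcases hX c e b ⟨F.hJ c f a.1, F.hJ c f a.2⟩ with q | q
    exacts [F.nI a.1 q, F.nI a.2 q]
  by_cases hs : Sep Z X
  · refine (hA2 X hs).trans (card_le_card_of_forall_subsingleton (fun e f =>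
      (e = f ∧ ∀ c, src f ∉ I c ∧ tgt f ∉ I c) ∨
        ∃ c, Cr src tgt (I c) e ∧ (src f ∈ I c ∨ tgt f ∈ I c)) (fun e he => ?_) fun f _ => ?_)
    · obtain ⟨eA, eX⟩ := mem_filter.1 he
      beta_reduce at eX
      by_cases a : ∀ c, src e ∉ I c ∧ tgt e ∉ I c
      · refine ⟨e, mem_filter.2 ⟨mem_univ _, ?_, fun i q => (a _).1 q.1⟩, Or.inl ⟨rfl, a⟩⟩
        rwa [D.same F hun fun c => (a c).1, D.same F hun fun c => (a c).2] at eX
      obtain ⟨c, hc⟩ := not_forall.1 a
      have hcr : Cr src tgt (I c) e := fun q => by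
        obtain ⟨g, z, -, r⟩ := D.core c
        rw [r (src e) (by tauto), r (tgt e) (by tauto)] at eX
        exact eX Iff.rfl
      obtain ⟨f, f1, f2⟩ : ∃ f, Ins src tgt (J c) f ∧ Cr src tgt X f := by
        have m1 := (D.mem F (hin c e hcr).1).2
        have m2 := (D.mem F (hin c e hcr).2).2
        by_cases b : nd (src e) ∈ X
        · exact H.split (F.tJ c) (F.sm c) m1 m2 b (by tauto)
        · exact H.split (F.tJ c) (F.sm c) m2 m1 (by tauto) b
      refine ⟨f, mem_filter.2 ⟨mem_univ _, f2, fun i q => ?_⟩, Or.inr ⟨c, hcr, hX c f f2 f1⟩⟩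
      obtain rfl := F.uniq f1.1 (F.IJ _ q.1)
      exact hsel i (hbad i _ e eA hcr)
    · rintro e ⟨e1, e2⟩ g ⟨g1, g2⟩
      rcases e2 with ⟨a, b⟩ | ⟨c, a, b⟩ <;> rcases g2 with ⟨x, y⟩ | ⟨d, x, y⟩
      · rw [a, x]
      · have := b d
        tauto
      · have := y c
        tauto
      · obtain rfl := F.uniq (F.ins b).1 (F.ins y).1
        exact hA1 c.1 e (mem_filter.1 e1).1 g (mem_filter.1 g1).1
          (mem_filter.2 ⟨mem_univ _, c.2, a⟩) (mem_filter.2 ⟨mem_univ _, c.2, x⟩)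
  have h9 : 9 ≤ k := le_trans (by unfold hf; omega) hk
  have hz : ∀ c e, ∀ v ∈ hub c e, nd v ∈ Z ∧ (nd v ∈ X ↔ v ∈ X) := fun c e v hv =>
    ⟨(D.hub_mem c e v hv).2.1, D.same F hun fun d => F.nI hv⟩
  rcases not_and_or.1 hs with a | a
  · refine h9.trans ((H.nohub F (fun c e v hv q => a ⟨_, (hz c e v hv).1, (hz c e v hv).2.2 q⟩)
      h1 h2).trans (card_le_card fun e he => ?_))
    obtain ⟨x, y⟩ := (mem_filter.1 he).2
    exact mem_filter.2 ⟨mem_univ _, x, fun i => y _⟩
  · refine h9.trans ((H.nohub F (X := Xᶜ) (fun c e v hv q => a ⟨_, (hz c e v hv).1,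
      fun r => mem_compl.1 q ((hz c e v hv).2.1 r)⟩) h2 (by rwa [compl_compl])).trans
      (card_le_card fun e he => ?_))
    obtain ⟨x, y⟩ := (mem_filter.1 he).2
    exact mem_filter.2 ⟨mem_univ _, (cr_compl X e).1 x, fun i => y _⟩

lemma Tower.fam {κ : Type} {m : ℕ → ℕ} (hm : Sz m) (hk : m 10 < k) {I : κ → ℕ → Finset V}
    {hub : κ → ℕ → E → Finset V} (T : ∀ c, Tower src tgt m (I c) (hub c))
    (hd : ∀ c d, c ≠ d → Disjoint (I c 10) (I d 10)) {j : ℕ} (hj : j < 10) :
    Fam src tgt k (hf (m j)) (fun c => I c j) (fun c => I c (j + 1)) (fun c => hub c j) :=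
  ⟨fun c => (T c).lay j hj, fun c => (T c).next j hj, fun c => ((T c).tight j hj.le).1,
    fun c => (T c).tight _ hj, fun c => lt_of_le_of_lt (((T c).card _ hj).trans (hm.mono hj)) hk,
    fun c d a => (hd c d a).mono ((T c).sub hj le_rfl) ((T d).sub hj le_rfl)⟩

/-- one candidate per thread such that cyclic cuts keep nine edges outside the chosen zones -/
theorem QH.cl (H : QH src tgt k) {m : ℕ → ℕ} (hm : Sz m) (hk : m 10 < k) {ι : Type} [Fintype ι]
    [DecidableEq ι] {I : ι × Fin 10 → ℕ → Finset V} {hub : ι × Fin 10 → ℕ → E → Finset V}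
    (T : ∀ c, Tower src tgt m (I c) (hub c))
    (hd : ∀ c d, c ≠ d → Disjoint (I c 10) (I d 10)) :
    ∃ sel : ι → Fin 10, ∀ X : Finset V, HasCycleIn src tgt X → HasCycleIn src tgt Xᶜ →
      9 ≤ #{e | Cr src tgt X e ∧ ∀ i, ¬ Ins src tgt (I (i, sel i) 1) e} := by
  have h1 := fun j : Fin 9 => H.one_level (Tower.fam hm hk T hd (j := j + 1) (by omega))
    (by
      have a := hm (j + 1)
      have b := hm.mono (show (j : ℕ) + 1 + 1 ≤ 10 by omega)
      nlinarith)
    (fun c => by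
      have a := ((T c).tight (j + 1) (by omega)).2
      have b := (T c).card (j + 1) (by omega)
      omega)
  choose bad hbad using h1
  have h2 : ∀ i, ∃ a : Fin 10, ∀ j, a ≠ bad j i := fun i => by
    obtain ⟨a, -, ha⟩ := exists_mem_notMem_of_card_lt_card
      (s := univ.image fun j => bad j i) (t := univ) (card_image_le.trans_lt (by simp))
    exact ⟨a, fun j q => ha (mem_image.2 ⟨j, mem_univ _, q.symm⟩)⟩
  choose sel hsel using h2
  refine ⟨sel, fun X x1 x2 => ?_⟩
  by_cases hj : ∃ j : Fin 9, ∀ c e, Cr src tgt X e → Ins src tgt (I c (j + 1 + 1)) e →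
      src e ∈ I c (j + 1) ∨ tgt e ∈ I c (j + 1)
  · obtain ⟨j, hj⟩ := hj
    refine (hbad j sel (fun i => hsel i j) X x1 x2 hj).trans (card_le_card fun e he => ?_)
    obtain ⟨x, y⟩ := (mem_filter.1 he).2
    have hs := fun c => (T c).sub (i := 1) (j := j + 1) (by omega) (by omega)
    exact mem_filter.2 ⟨mem_univ _, x, fun i q => y i ⟨hs _ q.1, hs _ q.2⟩⟩
  have h3 : ∀ j : Fin 9, ∃ c e, Cr src tgt X e ∧ src e ∈ I c (j + 1 + 1) ∧ src e ∉ I c (j + 1) :=
    fun j => by
      by_contra q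
      exact hj ⟨j, fun c e a b => Or.inl (not_not.1 fun r => q ⟨c, e, a, b.1, r⟩)⟩
  choose c f f1 f2 f3 using h3
  have hu : ∀ (j : Fin 9) d, src (f j) ∈ I d 10 → c j = d := fun j d a => by
    by_contra q
    exact disjoint_left.1 (hd _ _ q) ((T _).sub (by omega) le_rfl (f2 j)) a
  refine le_trans (by simp) (card_le_card_of_injOn (s := (univ : Finset (Fin 9))) f
    (fun j _ => mem_coe.2 (mem_filter.2 ⟨mem_univ _, f1 j, fun i q => ?_⟩)) fun i _ j _ q => ?_)
  · have := hu j _ ((T _).sub (by omega) le_rfl q.1)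
    exact f3 j ((T _).sub (by omega) (by omega) (this ▸ q.1))
  · have e1 := hu i (c j) (q ▸ (T _).sub (by omega) le_rfl (f2 j))
    by_contra r
    rcases lt_or_gt_of_ne (fun x => r (Fin.ext x)) with a | a
    · exact f3 j ((T _).sub (by omega) (by omega) (e1 ▸ q ▸ f2 i))
    · exact f3 i ((T _).sub (by omega) (by omega) (e1 ▸ q ▸ f2 j))

end Pool.Agent.P.MP_e59a69_co
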