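import Pool.Agent.P.MP_e59a69_co.QFlow

/-! Three rounds that lower one leg of every window to weight zero. -/

open Finset

set_option linter.unusedSectionVars false

namespace Pool.Agent.P.MP_e59a69_co

variable {V E ι : Type} [Fintype V] [Fintype E] [DecidableEq V] [DecidableEq E] [Fintype ι]
  [DecidableEq ι]

/-- windows of 55 vertices with legs at the odd places -/
structure Thr (src tgt : E → V) (p : ι → ℕ → V) (pe lg : ι → ℕ → E) (o : ι → ℕ → V) : Prop where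
  pe_ends : ∀ i, ∀ t < 54, Ends src tgt (pe i t) (p i t) (p i (t + 1))
  lg_ends : ∀ i, ∀ a < 27, Ends src tgt (lg i a) (p i (2 * a + 1)) (o i a)
  pe_inj : ∀ i j, ∀ t < 54, ∀ u < 54, pe i t = pe j u → i = j ∧ t = u
  lg_inj : ∀ i j, ∀ a < 27, ∀ b < 27, lg i a = lg j b → i = j ∧ a = b
  pe_lg : ∀ i j, ∀ t < 54, ∀ a < 27, pe i t ≠ lg j a

variable {src tgt : E → V} {p : ι → ℕ → V} {pe lg : ι → ℕ → E} {o : ι → ℕ → V}

lemma Thr.dipole (Th : Thr src tgt p pe lg o) (i : ι) {a b : ℕ} (hab : a < b) (hb : b < 27) :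
    ∃ D : E → ℤ, (∀ e, |D e| ≤ 1) ∧ D (lg i a) = -1 ∧ D (lg i b) = 1 ∧
      (∀ e, D e ≠ 0 → e = lg i a ∨ e = lg i b ∨ ∃ t, 2 * a + 1 ≤ t ∧ t < 2 * b + 1 ∧ e = pe i t) ∧
      ∀ v, vs src tgt D v = (if o i b = v then 1 else 0) - if o i a = v then 1 else 0 := by
  obtain ⟨A, a1, a2, a3⟩ := alt_path (src := src) (tgt := tgt) (p := p i) (pe := pe i) (2 * a + 1)
    (2 * (b - a)) (fun t q => Th.pe_ends i t (by omega))
    fun t q u r s => (Th.pe_inj i i t (by omega) u (by omega) s).2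
  have e1 : 2 * a + 1 + 2 * (b - a) = 2 * b + 1 := by omega
  rw [e1] at a2 a3
  have h0 : ∀ c < 27, A (lg i c) = 0 := fun c hc => by
    by_contra r
    obtain ⟨t, -, t2, t3⟩ := a2 _ r
    exact Th.pe_lg i i t (by omega) c hc t3.symm
  have hne : lg i a ≠ lg i b := fun q => by
    have := (Th.lg_inj i i a (by omega) b hb q).2
    omega
  refine ⟨fun e => (A e + if e = lg i a then -1 else 0) + if e = lg i b then 1 else 0,
    fun e => ?_, ?_, ?_, fun e q => ?_, fun v => ?_⟩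
  · by_cases x : e = lg i a
    · simp [x, hne, h0 a (by omega)]
    by_cases y : e = lg i b
    · simp [y, hne.symm, h0 b hb]
    · simpa [x, y] using a1 e
  · simp [hne, h0 a (by omega)]
  · simp [hne.symm, h0 b hb]
  · by_cases x : e = lg i a
    · exact Or.inl x
    by_cases y : e = lg i b
    · exact Or.inr (Or.inl y)
    · exact Or.inr (Or.inr (a2 e (by simpa [x, y] using q)))
  · rw [vs_add, vs_add, a3, vs_one (Th.lg_ends i a (by omega)), vs_one (Th.lg_ends i b hb),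
      pow_mul]
    ring

lemma two_of_three (S : Finset V) (f : ℕ → V) (a : ℕ) :
    ∃ r s, 3 * a ≤ r ∧ r < s ∧ s < 3 * a + 3 ∧ (f r ∈ S ↔ f s ∈ S) := by
  by_cases x : f (3 * a) ∈ S ↔ f (3 * a + 1) ∈ S
  · exact ⟨_, _, le_rfl, by omega, by omega, x⟩
  by_cases y : f (3 * a) ∈ S ↔ f (3 * a + 2) ∈ S
  · exact ⟨_, _, le_rfl, by omega, by omega, y⟩
  · exact ⟨3 * a + 1, 3 * a + 2, by omega, by omega, by omega, by tauto⟩

theorem Thr.step (Th : Thr src tgt p pe lg o) {H : Finset E} {T : Finset V}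
    (hH : Conn src tgt T H) (ho : ∀ i, ∀ a < 27, o i a ∈ T) (h1 : ∀ i, ∀ t < 54, pe i t ∉ H)
    (h2 : ∀ i, ∀ a < 27, lg i a ∉ H) (n : ℕ) (σ : ι → ℕ → ℕ)
    (hσ : ∀ i a b, a < b → b < 3 * n → σ i a < σ i b) (hlt : ∀ i, ∀ a < 3 * n, σ i a < 27) :
    ∃ (y : E → ℤ) (τ : ι → ℕ → ℕ), (∀ e, |y e| ≤ 1) ∧ (∀ v, vs src tgt y v = 0) ∧
      (∀ e, e ∉ H → (∀ i, ∀ t < 54, e ≠ pe i t) → (∀ i, ∀ a < 27, e ≠ lg i a) → y e = 0) ∧
      ∀ i, ∀ a < n, 3 * a ≤ τ i a ∧ τ i a < 3 * a + 3 ∧ y (lg i (σ i (τ i a))) = -1 := by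
  obtain ⟨S, hS⟩ := pair_flow hH
  choose r s r1 r2 r3 r4 using fun i a => two_of_three S (fun c => o i (σ i c)) a
  have b1 : ∀ x : ι × Fin n, σ x.1 (r x.1 x.2) < σ x.1 (s x.1 x.2) := fun x =>
    hσ _ _ _ (r2 _ _) (by have := r3 x.1 x.2; omega)
  have b2 : ∀ x : ι × Fin n, σ x.1 (s x.1 x.2) < 27 := fun x =>
    hlt _ _ (by have := r3 x.1 x.2; omega)
  have b3 : ∀ i (a b : Fin n), a < b → σ i (s i a) < σ i (r i b) := fun i a b q =>
    hσ _ _ _ (by have := r3 i a; have := r1 i b; omega)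
      (by have := r3 i b; have := r2 i b; omega)
  obtain ⟨y, δ, y1, y2, y3, y4⟩ := hS (ι × Fin n) (fun x => o x.1 (σ x.1 (r x.1 x.2)))
    (fun x => o x.1 (σ x.1 (s x.1 x.2))) (fun x => ho _ _ ((b1 x).trans (b2 x)))
    (fun x => ho _ _ (b2 x)) fun x => r4 _ _
  choose D d1 d2 d3 d4 d5 using fun x : ι × Fin n => Th.dipole x.1 (b1 x) (b2 x)
  have hs : ∀ x e, D x e ≠ 0 → (∃ c, σ x.1 (r x.1 x.2) ≤ c ∧ c ≤ σ x.1 (s x.1 x.2) ∧
      e = lg x.1 c) ∨ ∃ t, 2 * σ x.1 (r x.1 x.2) ≤ t ∧ t ≤ 2 * σ x.1 (s x.1 x.2) ∧ e = pe x.1 t := by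
    intro x e q
    rcases d4 x e q with a | a | ⟨t, a, b, c⟩
    exacts [Or.inl ⟨_, le_rfl, (b1 x).le, a⟩, Or.inl ⟨_, (b1 x).le, le_rfl, a⟩,
      Or.inr ⟨t, by omega, by omega, c⟩]
  have hu : ∀ x z e, D x e ≠ 0 → D z e ≠ 0 → x = z := by
    rintro ⟨i, a⟩ ⟨j, b⟩ e q1 q2
    have c1 := b2 (i, a)
    have c2 := b2 (j, b)
    have key : i = j ∧ σ i (r i a) ≤ σ j (s j b) ∧ σ j (r j b) ≤ σ i (s i a) := by
      rcases hs _ e q1 with ⟨c, x1, x2, x3⟩ | ⟨c, x1, x2, x3⟩ <;>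
        rcases hs _ e q2 with ⟨d, z1, z2, z3⟩ | ⟨d, z1, z2, z3⟩ <;> dsimp only at *
      · obtain ⟨u, w⟩ := Th.lg_inj i j c (by omega) d (by omega) (x3.symm.trans z3)
        exact ⟨u, by omega, by omega⟩
      · exact absurd (z3.symm.trans x3) (Th.pe_lg j i d (by omega) c (by omega))
      · exact absurd (x3.symm.trans z3) (Th.pe_lg i j c (by omega) d (by omega))
      · obtain ⟨u, w⟩ := Th.pe_inj i j c (by omega) d (by omega) (x3.symm.trans z3)
        exact ⟨u, by omega, by omega⟩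
    obtain ⟨rfl, u, w⟩ := key
    rcases lt_trichotomy a b with q | q | q
    · have := b3 i a b q
      omega
    · rw [q]
    · have := b3 i b a q
      omega
  have hH0 : ∀ x e, D x e ≠ 0 → e ∉ H := fun x e q => by
    have := b2 x
    rcases hs x e q with ⟨c, -, x2, rfl⟩ | ⟨c, -, x2, rfl⟩
    exacts [h2 _ _ (by omega), h1 _ _ (by omega)]
  have hval : ∀ x e, D x e ≠ 0 → y e + ∑ z, δ z * D z e = δ x * D x e := fun x e q => by
    rw [y2 e (hH0 x e q), zero_add]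
    exact sum_eq_single x (fun z _ a => mul_eq_zero_of_right _ (not_not.1 fun b =>
      a (hu z x e b q))) (by simp)
  refine ⟨fun e => y e + ∑ z, δ z * D z e,
    fun i a => if q : a < n then (if δ (i, ⟨a, q⟩) = 1 then r i a else s i a) else 0,
    fun e => ?_, fun v => ?_, fun e e1 e2 e3 => ?_, fun i a ha => ?_⟩
  · by_cases q : ∃ x, D x e ≠ 0
    · obtain ⟨x, q⟩ := q
      beta_reduce
      rw [hval x e q]
      rcases y3 x with a | a <;> simpa [a] using d1 x e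
    · have : ∀ x, D x e = 0 := fun x => not_not.1 fun a => q ⟨x, a⟩
      simpa [this] using y1 e
  · rw [vs_add, vs_sum, y4, ← sum_add_distrib]
    exact sum_eq_zero fun x _ => by rw [d5]; ring
  · have : ∀ x, D x e = 0 := fun x => not_not.1 fun q => by
      have := b2 x
      rcases hs x e q with ⟨c, -, x2, x3⟩ | ⟨c, -, x2, x3⟩
      exacts [e3 _ _ (by omega) x3, e2 _ _ (by omega) x3]
    simp [this, y2 e e1]
  · have c1 := r1 i a
    have c2 := r2 i a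
    have c3 := r3 i a
    have c4 := d2 (i, ⟨a, ha⟩)
    have c5 := d3 (i, ⟨a, ha⟩)
    simp only [dif_pos ha]
    split_ifs with q
    · exact ⟨c1, by omega, by rw [hval (i, ⟨a, ha⟩) _ (by rw [c4]; decide), c4, q]; rfl⟩
    · exact ⟨by omega, c3, by
        rw [hval (i, ⟨a, ha⟩) _ (by rw [c5]; decide), c5, (y3 _).resolve_left q]; rfl⟩

theorem Thr.three (Th : Thr src tgt p pe lg o) (hc : ∀ v, degIn src tgt univ v = 3)
    {H : ℕ → Finset E} {T : Finset V} (hH : ∀ s < 3, Conn src tgt T (H s))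
    (ho : ∀ i, ∀ a < 27, o i a ∈ T) (h1 : ∀ s i, ∀ t < 54, pe i t ∉ H s)
    (h2 : ∀ s i, ∀ a < 27, lg i a ∉ H s) :
    ∃ x : E → ℤ, (∀ e, 0 ≤ x e) ∧ (∀ v, vs src tgt x v = 9) ∧
      (∀ e, ¬ (e ∈ H 0 ∧ e ∈ H 1 ∧ e ∈ H 2) → (∀ i, ∀ t < 54, e ≠ pe i t) →
        (∀ i, ∀ a < 27, e ≠ lg i a) → 1 ≤ x e) ∧ ∀ i, ∃ a < 27, x (lg i a) = 0 := by
  obtain ⟨y0, τ0, a1, a2, a3, a4⟩ := Th.step (hH 0 (by norm_num)) ho (h1 0) (h2 0) 9
    (fun _ a => a) (fun _ _ _ q _ => q) fun _ _ q => q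
  obtain ⟨y1, τ1, b1, b2, b3, b4⟩ := Th.step (hH 1 (by norm_num)) ho (h1 1) (h2 1) 3 τ0
    (fun i a b q r => by
      have := a4 i a (by omega)
      have := a4 i b (by omega)
      omega)
    fun i a q => by
      have := a4 i a q
      omega
  obtain ⟨y2, τ2, c1, c2, c3, c4⟩ := Th.step (hH 2 (by norm_num)) ho (h1 2) (h2 2) 1
    (fun i a => τ0 i (τ1 i a))
    (fun i a b q r => by
      have := b4 i a (by omega)
      have := b4 i b (by omega)
      have := a4 i (τ1 i a) (by omega)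
      have := a4 i (τ1 i b) (by omega)
      omega)
    fun i a q => by
      have := b4 i a q
      have := a4 i (τ1 i a) (by omega)
      omega
  refine ⟨fun e => ((3 + y0 e) + y1 e) + y2 e, fun e => ?_, fun v => ?_, fun e q r s => ?_,
    fun i => ?_⟩
  · have := abs_le.1 (a1 e)
    have := abs_le.1 (b1 e)
    have := abs_le.1 (c1 e)
    beta_reduce
    omega
  · rw [vs_add, vs_add, vs_add, a2, b2, c2, vs_const hc]
    rfl
  · have := abs_le.1 (a1 e)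
    have := abs_le.1 (b1 e)
    have := abs_le.1 (c1 e)
    have : y0 e = 0 ∨ y1 e = 0 ∨ y2 e = 0 := by
      have := fun w => a3 e w r s
      have := fun w => b3 e w r s
      have := fun w => c3 e w r s
      tauto
    beta_reduce
    omega
  · have c := c4 i 0 (by norm_num)
    have b := b4 i (τ2 i 0) (by omega)
    have a := a4 i (τ1 i (τ2 i 0)) (by omega)
    exact ⟨τ0 i (τ1 i (τ2 i 0)), by omega, by
      beta_reduce at a c ⊢
      rw [a.2.2, b.2.2, c.2.2]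
      rfl⟩

end Pool.Agent.P.MP_e59a69_co
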