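import Pool.Agent.P.MP_e59a69_co.LDefs

/-! Disjoint connecting edge sets. -/

open Finset Function

namespace Pool.Agent.P.MP_e59a69_co

lemma many_LPack {N E : Type} [Fintype N] [Fintype E] [DecidableEq N] [DecidableEq E]
    (s t : E → N) (A : Finset E) (k : ℕ) (hk : 3 ≤ k)
    (h : ∀ X : Finset N, X.Nonempty → Xᶜ.Nonempty → 3 * k ≤ ct s t A X) :
    ∃ T : ℕ → Finset E, (∀ i j, i ≠ j → Disjoint (T i) (T j)) ∧
      ∀ i < k, ∀ X : Finset N, X.Nonempty → Xᶜ.Nonempty → 1 ≤ ct s t (T i) X := by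
  rcases isEmpty_or_nonempty N with hN | ⟨⟨r⟩⟩
  · exact ⟨fun _ => ∅, fun _ _ _ => disjoint_empty_left _, fun _ _ X ⟨v, _⟩ => hN.elim v⟩
  obtain ⟨s', t', hsw, h3⟩ := third s t A fun X hX hX' => le_trans (by omega) (h X hX hX')
  obtain ⟨T, -, hd, h1⟩ := edm_many s' t' r k A fun X hX hr => by
    have h4 := h X hX ⟨r, mem_compl.2 hr⟩
    have h5 := h3 X
    omega
  refine ⟨T, hd, fun i hi X hX hX' => ?_⟩
  rw [← ct_swap hsw, ct_eq]
  by_cases hr : r ∈ X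
  · have h4 := h1 i hi Xᶜ hX' fun h => mem_compl.1 h hr
    omega
  · have h4 := h1 i hi X hX hr
    omega

theorem pack {N E : Type} [Fintype N] [Fintype E] [DecidableEq N] [DecidableEq E]
    (s t : E → N) (Z : Finset N) (hZ : ∀ e, s e ∈ Z ∧ t e ∈ Z) (k : ℕ) (hk : 3 ≤ k)
    (h : ∀ X, Sep Z X → 3 * k ≤ ct s t univ X) :
    ∃ T : ℕ → Finset E, (∀ i j, i ≠ j → Disjoint (T i) (T j)) ∧ ∀ i < k, Conn s t Z (T i) := by
  let s0 : E → {v // v ∈ Z} := fun e => ⟨s e, (hZ e).1⟩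
  let t0 : E → {v // v ∈ Z} := fun e => ⟨t e, (hZ e).2⟩
  have hct : ∀ (A : Finset E) (X : Finset N),
      ct s0 t0 A (X.subtype (· ∈ Z)) = ct s t A X := fun A X => by
    unfold ct
    simp only [mem_subtype, s0, t0]
  obtain ⟨T, hd, h1⟩ := many_LPack s0 t0 univ k hk fun X0 hX hX' => by
    have e1 : (X0.map (Embedding.subtype _)).subtype (· ∈ Z) = X0 := by
      ext v
      simp only [mem_subtype, mem_map, Embedding.coe_subtype]
      constructor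
      · rintro ⟨w, hw, e⟩
        rwa [← Subtype.ext e]
      · exact fun hv => ⟨v, hv, rfl⟩
    rw [← e1, hct]
    obtain ⟨a, ha⟩ := hX
    obtain ⟨b, hb⟩ := hX'
    refine h _ ⟨⟨a.1, a.2, mem_map.2 ⟨a, ha, rfl⟩⟩, b.1, b.2, fun hm => ?_⟩
    obtain ⟨w, hw, e⟩ := mem_map.1 hm
    exact mem_compl.1 hb (by rwa [← Subtype.ext e])
  refine ⟨T, hd, fun i hi X ⟨⟨a, ha, ha'⟩, b, hb, hb'⟩ => ?_⟩
  rw [← hct]
  exact h1 i hi _ ⟨⟨a, ha⟩, mem_subtype.2 ha'⟩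
    ⟨⟨b, hb⟩, mem_compl.2 fun hm => hb' (mem_subtype.1 hm)⟩

end Pool.Agent.P.MP_e59a69_co
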