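import Pool.Agent.P.MP_e59a69_co.LDefs

/-! Complete splitting off at the non-terminals of a multigraph with even cuts. -/

open Finset Function

namespace Pool.Agent.P.MP_e59a69_co

variable {N E : Type} [Fintype N] [Fintype E] [DecidableEq N] [DecidableEq E]

omit [Fintype N] [DecidableEq E] in
lemma submod_LSplit (s t : E → N) (X Y : Finset N) :
    ct s t univ (X ∩ Y) + ct s t univ (X ∪ Y) ≤ ct s t univ X + ct s t univ Y := by
  unfold ct
  simp only [card_filter]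
  rw [← Finset.sum_add_distrib, ← Finset.sum_add_distrib]
  refine Finset.sum_le_sum fun e _ => ?_
  by_cases a : s e ∈ X <;> by_cases b : t e ∈ X <;> by_cases c : s e ∈ Y <;>
    by_cases d : t e ∈ Y <;> simp [a, b, c, d]

omit [Fintype N] [DecidableEq E] in
lemma posi_LSplit (s t : E → N) {X Y : Finset N} {e1 : E} (h1 : s e1 ∉ X) (h2 : s e1 ∉ Y)
    (h3 : t e1 ∈ X) (h4 : t e1 ∈ Y) :
    ct s t univ (X \ Y) + ct s t univ (Y \ X) < ct s t univ X + ct s t univ Y := by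
  unfold ct
  simp only [card_filter]
  rw [← Finset.sum_add_distrib, ← Finset.sum_add_distrib]
  refine Finset.sum_lt_sum (fun e _ => ?_) ⟨e1, mem_univ _, by simp [h1, h2, h3, h4]⟩
  by_cases a : s e ∈ X <;> by_cases b : t e ∈ X <;> by_cases c : s e ∈ Y <;>
    by_cases d : t e ∈ Y <;> simp [a, b, c, d]

omit [Fintype N] in
lemma sep_LSplit {Z X Y : Finset N} (hX : Sep Z X) (hY : Sep Z Y)
    (h : (∀ z ∈ Z, z ∈ X → z ∉ Y) ∨ ∀ z ∈ Z, z ∉ Y → z ∈ X) : Sep Z (X \ Y) := by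
  obtain ⟨⟨x, hx, hx'⟩, -⟩ := hX
  obtain ⟨⟨y, hy, hy'⟩, y', hz, hz'⟩ := hY
  refine ⟨?_, y, hy, fun h => (mem_sdiff.1 h).2 hy'⟩
  rcases h with h | h
  · exact ⟨x, hx, mem_sdiff.2 ⟨hx', h x hx hx'⟩⟩
  · exact ⟨y', hz, mem_sdiff.2 ⟨h y' hz hz', hz'⟩⟩

lemma union_LSplit {s t : E → N} {Z : Finset N} {k : ℕ}
    (h : ∀ X, Sep Z X → 2 * k ≤ ct s t univ X) {X Y : Finset N} {e1 : E} (h1 : s e1 ∉ X)
    (h2 : s e1 ∉ Y) (h3 : t e1 ∈ X) (h4 : t e1 ∈ Y) (hX : Sep Z X) (hY : Sep Z Y)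
    (cX : ct s t univ X = 2 * k) (cY : ct s t univ Y = 2 * k) :
    Sep Z (X ∪ Y) ∧ ct s t univ (X ∪ Y) = 2 * k := by
  by_cases hA : (∃ z ∈ Z, z ∈ X ∧ z ∈ Y) ∧ ∃ z ∈ Z, z ∉ X ∧ z ∉ Y
  · obtain ⟨⟨a, ha, aX, aY⟩, b, hb, bX, bY⟩ := hA
    have s1 : Sep Z (X ∩ Y) :=
      ⟨⟨a, ha, mem_inter.2 ⟨aX, aY⟩⟩, b, hb, fun h => bX (mem_inter.1 h).1⟩
    have s2 : Sep Z (X ∪ Y) :=
      ⟨⟨a, ha, mem_union_left _ aX⟩, b, hb, fun h => (mem_union.1 h).elim bX bY⟩
    have := submod_LSplit s t X Y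
    have := h _ s1
    have := h _ s2
    exact ⟨s2, by omega⟩
  · have s1 : Sep Z (X \ Y) := sep_LSplit hX hY (by grind)
    have s2 : Sep Z (Y \ X) := sep_LSplit hY hX (by grind)
    have := posi_LSplit s t h1 h2 h3 h4
    have := h _ s1
    have := h _ s2
    omega

lemma core_LSplit {s t : E → N} {Z : Finset N} {k : ℕ} (hev : ∀ X, Even (ct s t univ X))
    (h : ∀ X, Sep Z X → 2 * k ≤ ct s t univ X) {e1 : E} (hv : s e1 ∉ Z)
    (hor : ∀ e, t e = s e1 → s e = s e1) (hu : t e1 ≠ s e1) :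
    ∃ e2, e2 ≠ e1 ∧ s e2 = s e1 ∧ ∀ X, s e1 ∉ X → Sep Z X → t e1 ∈ X → t e2 ∈ X →
      ct s t univ X ≠ 2 * k := by
  classical
  by_cases hT : (univ.filter fun X : Finset N =>
      s e1 ∉ X ∧ t e1 ∈ X ∧ Sep Z X ∧ ct s t univ X = 2 * k).Nonempty
  · obtain ⟨M, hM, hmax⟩ := exists_max_image _ card hT
    obtain ⟨-, vM, uM, sM, cM⟩ := mem_filter.1 hM
    have hsub : ∀ X, s e1 ∉ X → Sep Z X → t e1 ∈ X → ct s t univ X = 2 * k → X ⊆ M :=
      fun X h1 h2 h3 h4 => by
        obtain ⟨a, b⟩ := union_LSplit h h1 vM h3 uM h2 sM h4 cM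
        have := hmax (X ∪ M) (mem_filter.2 ⟨mem_univ _, by simp [h1, vM], by simp [h3], a, b⟩)
        rw [eq_of_subset_of_card_le subset_union_right this]
        exact subset_union_left
    by_contra hc
    have hall : ∀ e, s e = s e1 → t e ∈ insert (s e1) M := fun e he => by
      by_contra hn
      rw [mem_insert, not_or] at hn
      exact hc ⟨e, fun e' => hn.2 (e' ▸ uM), he, fun X h1 h2 h3 h4 h5 =>
        hn.2 (hsub X h1 h2 h3 h5 h4)⟩
    have hs : Sep Z (insert (s e1) M) := by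
      obtain ⟨⟨a, ha, ha'⟩, b, hb, hb'⟩ := sM
      exact ⟨⟨a, ha, mem_insert_of_mem ha'⟩, b, hb, fun h =>
        (mem_insert.1 h).elim (fun e => hv (e ▸ hb)) hb'⟩
    have hlt : ct s t univ (insert (s e1) M) < ct s t univ M := by
      refine card_lt_card ⟨fun e he => ?_, fun hh => ?_⟩
      · simp only [mem_filter, mem_univ, true_and] at he ⊢
        by_cases a : s e = s e1
        · exact absurd (iff_of_true (a ▸ mem_insert_self _ _) (hall e a)) he
        · have b : t e ≠ s e1 := fun b => a (hor e b)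
          simpa [a, b] using he
      · have := hh (mem_filter.2 ⟨mem_univ e1, by simp [vM, uM]⟩)
        simp [uM] at this
    have := h _ hs
    omega
  · have h1 : e1 ∈ ({e ∈ univ | ¬ (s e ∈ ({s e1} : Finset N) ↔ t e ∈ ({s e1} : Finset N))} :
        Finset E) := by simp [hu]
    have h2 := card_pos.2 ⟨_, h1⟩
    obtain ⟨r, hr⟩ := hev {s e1}
    unfold ct at hr
    obtain ⟨e2, he2, hne⟩ := exists_mem_ne (lt_of_lt_of_eq (by omega) hr.symm) e1
    refine ⟨e2, hne, ?_, fun X a b c _ d => hT ⟨X, mem_filter.2 ⟨mem_univ _, a, c, b, d⟩⟩⟩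
    simp only [mem_filter, mem_univ, true_and, mem_singleton] at he2
    by_contra hn
    exact he2 (iff_of_false hn fun b => hn (hor e2 b))

lemma sum1_LSplit {f g : E → ℕ} (e1 : E) (h : ∀ e, e ≠ e1 → f e = g e) :
    ∑ e, f e + g e1 = ∑ e, g e + f e1 := by
  rw [← add_sum_erase _ f (mem_univ e1), ← add_sum_erase _ g (mem_univ e1),
    sum_congr rfl fun e he => h e (ne_of_mem_erase he)]
  ring

lemma sum2_LSplit {f g : E → ℕ} {e1 e2 : E} (hne : e2 ≠ e1)
    (h : ∀ e, e ≠ e1 → e ≠ e2 → f e = g e) :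
    ∑ e, f e + g e1 + g e2 = ∑ e, g e + f e1 + f e2 := by
  have h2 : e2 ∈ univ.erase e1 := mem_erase.2 ⟨hne, mem_univ _⟩
  rw [← add_sum_erase _ f (mem_univ e1), ← add_sum_erase _ g (mem_univ e1),
    ← add_sum_erase _ f h2, ← add_sum_erase _ g h2, sum_congr rfl fun e he =>
      h e (ne_of_mem_erase (mem_of_mem_erase he)) (ne_of_mem_erase he)]
  ring

/-- number of ends outside `Z` -/
def out_LSplit (Z : Finset N) (s t : E → N) : ℕ :=
  ∑ e, ((if s e ∈ Z then 0 else 1) + if t e ∈ Z then 0 else 1)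

lemma step0_LSplit {s t : E → N} {Z : Finset N} {z0 : N} (hz : z0 ∈ Z) {k : ℕ}
    (hev : ∀ X, Even (ct s t univ X)) (h : ∀ X, Sep Z X → 2 * k ≤ ct s t univ X) {e1 : E}
    (hv : s e1 ∉ Z) (hor : ∀ e, t e = s e1 → s e = s e1) :
    ∃ s' t' : E → N, out_LSplit Z s' t' < out_LSplit Z s t ∧ (∀ X, Even (ct s' t' univ X)) ∧
      (∀ X, ct s' t' univ X ≤ ct s t univ X) ∧ ∀ X, Sep Z X → 2 * k ≤ ct s' t' univ X := by
  by_cases hu : t e1 = s e1
  · have hc : ∀ X, ct (update s e1 z0) (update t e1 z0) univ X = ct s t univ X := fun X => by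
      unfold ct
      refine congrArg _ (filter_congr fun e _ => ?_)
      by_cases a : e = e1
      · simp [a, hu]
      · simp [a]
    refine ⟨update s e1 z0, update t e1 z0, ?_, fun X => hc X ▸ hev X, fun X => (hc X).le,
      fun X hX => hc X ▸ h X hX⟩
    unfold out_LSplit
    refine sum_lt_sum (fun e _ => ?_) ⟨e1, mem_univ _, by simp [hz, hv]⟩
    by_cases a : e = e1
    · simp [a, hz]
    · simp [a]
  obtain ⟨e2, hne, hs2, hgood⟩ := core_LSplit hev h hv hor hu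
  have hc : ∀ X, ct (update (update s e1 (t e2)) e2 z0) (update t e2 z0) univ X +
      (if ¬ (s e1 ∈ X ↔ t e1 ∈ X) then 1 else 0) + (if ¬ (s e1 ∈ X ↔ t e2 ∈ X) then 1 else 0) =
      ct s t univ X + if ¬ (t e2 ∈ X ↔ t e1 ∈ X) then 1 else 0 := fun X => by
    unfold ct
    simp only [card_filter]
    have := sum2_LSplit (f := fun e => if ¬ (update (update s e1 (t e2)) e2 z0 e ∈ X ↔
      update t e2 z0 e ∈ X) then 1 else 0) (g := fun e => if ¬ (s e ∈ X ↔ t e ∈ X) then 1 else 0)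
      hne fun e a b => by simp [a, b]
    simpa only [update_self, update_of_ne hne.symm, hs2, not_true, if_false, add_zero] using this
  have hd : ∀ X, ct (update (update s e1 (t e2)) e2 z0) (update t e2 z0) univ X = ct s t univ X ∨
      (ct (update (update s e1 (t e2)) e2 z0) (update t e2 z0) univ X + 2 = ct s t univ X ∧
        (Sep Z X → ct s t univ X ≠ 2 * k)) := fun X => by
    have h1 := hc X
    have h2 := hgood X
    have h3 := hgood Xᶜ
    rw [ct_compl] at h3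
    by_cases a : s e1 ∈ X <;> by_cases b : t e1 ∈ X <;> by_cases c : t e2 ∈ X <;>
      simp only [a, b, c, mem_compl, iff_true, iff_false, not_true, not_false_iff, if_true,
        if_false, add_zero, forall_true_left, add_left_inj] at h1 h2 h3
    all_goals first
      | exact Or.inl h1
      | exact Or.inr ⟨h1, h2⟩
      | exact Or.inr ⟨h1, fun hX => h3 hX.compl⟩
  refine ⟨update (update s e1 (t e2)) e2 z0, update t e2 z0, ?_, fun X => ?_, fun X => ?_,
    fun X hX => ?_⟩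
  · have := sum2_LSplit (f := fun e => (if update (update s e1 (t e2)) e2 z0 e ∈ Z then 0 else 1) +
      if update t e2 z0 e ∈ Z then 0 else 1)
      (g := fun e => (if s e ∈ Z then 0 else 1) + if t e ∈ Z then 0 else 1) hne
      fun e a b => by simp [a, b]
    simp only [update_self, update_of_ne hne.symm, hs2, hz, hv, if_true, if_false] at this
    unfold out_LSplit
    omega
  · obtain ⟨r, hr⟩ := hev X
    rcases hd X with a | ⟨a, -⟩
    · exact ⟨r, by omega⟩
    · exact ⟨r - 1, by omega⟩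
  · rcases hd X with a | ⟨a, -⟩ <;> omega
  · obtain ⟨r, hr⟩ := hev X
    have := h X hX
    rcases hd X with a | ⟨a, b⟩
    · omega
    · have := b hX
      omega

lemma step_LSplit {s t : E → N} {Z : Finset N} {z0 : N} (hz : z0 ∈ Z) {k : ℕ}
    (hev : ∀ X, Even (ct s t univ X)) (h : ∀ X, Sep Z X → 2 * k ≤ ct s t univ X) {e1 : E} {v : N}
    (hv : v ∉ Z) (he : s e1 = v ∨ t e1 = v) :
    ∃ s' t' : E → N, out_LSplit Z s' t' < out_LSplit Z s t ∧ (∀ X, Even (ct s' t' univ X)) ∧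
      (∀ X, ct s' t' univ X ≤ ct s t univ X) ∧ ∀ X, Sep Z X → 2 * k ≤ ct s' t' univ X := by
  have hc := ct_swap (s := s) (t := t) (s' := fun e => if t e = v then t e else s e)
    (t' := fun e => if t e = v then s e else t e) (fun e => by
      by_cases a : t e = v <;> simp [a]) univ
  have h1 : (if t e1 = v then t e1 else s e1) = v := by
    split_ifs with a
    exacts [a, he.resolve_right a]
  have ho : out_LSplit Z (fun e => if t e = v then t e else s e)
      (fun e => if t e = v then s e else t e) = out_LSplit Z s t :=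
    sum_congr rfl fun e _ => by by_cases a : t e = v <;> simp [a, add_comm]
  have := step0_LSplit (e1 := e1) hz (fun X => hc X ▸ hev X) (fun X hX => hc X ▸ h X hX)
    (by rwa [h1]) (fun e => by
      rw [h1]
      by_cases a : t e = v <;> simp [a])
  simpa only [ho, hc] using this

theorem split_off (s t : E → N) (Z : Finset N) (z0 : N) (hz : z0 ∈ Z) (k : ℕ)
    (hev : ∀ X, Even (ct s t univ X)) (h : ∀ X, Sep Z X → 2 * k ≤ ct s t univ X) :
    ∃ s' t' : E → N, (∀ e, s' e ∈ Z ∧ t' e ∈ Z) ∧ (∀ X, ct s' t' univ X ≤ ct s t univ X) ∧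
      ∀ X, Sep Z X → 2 * k ≤ ct s' t' univ X := by
  induction hm : out_LSplit Z s t using Nat.strong_induction_on generalizing s t with
  | _ m ih =>
    by_cases hall : ∀ e, s e ∈ Z ∧ t e ∈ Z
    · exact ⟨s, t, hall, fun _ => le_rfl, h⟩
    obtain ⟨e1, v, hv, he⟩ : ∃ e1 v, v ∉ Z ∧ (s e1 = v ∨ t e1 = v) := by
      obtain ⟨e, he⟩ := not_forall.1 hall
      rcases not_and_or.1 he with a | a
      exacts [⟨e, _, a, Or.inl rfl⟩, ⟨e, _, a, Or.inr rfl⟩]
    obtain ⟨s1, t1, a, b, c, d⟩ := step_LSplit hz hev h hv he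
    obtain ⟨s', t', h1, h2, h3⟩ := ih _ (hm ▸ a) s1 t1 b d rfl
    exact ⟨s', t', h1, fun X => (h2 X).trans (c X), h3⟩

end Pool.Agent.P.MP_e59a69_co
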