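import Pool.Agent.P.MP_e59a69_co.QDefs
import Pool.Agent.P.MP_e59a69_co.LSplit
import Pool.Agent.P.MP_e59a69_co.LPack

/-! Splitting off with a record of the old edges behind every new edge. -/

open Finset Function

set_option linter.unusedSectionVars false

namespace Pool.Agent.P.MP_e59a69_co

variable {N E : Type} [Fintype N] [Fintype E] [DecidableEq N] [DecidableEq E]

/-- every new edge is covered by the old edges it owns; edges inside `Z` are kept -/
def Trk (Z : Finset N) (s t s' t' : E → N) (own : E → E) : Prop :=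
  (∀ e X, Cr s' t' X e → ∃ f, own f = e ∧ Cr s t X f) ∧
    ∀ e, Ins s t Z e → Ins s' t' Z e ∧ ∀ f, own f = e ↔ f = e

lemma Trk.comp {Z : Finset N} {s t s1 t1 s2 t2 : E → N} {o1 o2 : E → E}
    (h1 : Trk Z s t s1 t1 o1) (h2 : Trk Z s1 t1 s2 t2 o2) : Trk Z s t s2 t2 (o2 ∘ o1) := by
  refine ⟨fun e X h => ?_, fun e he => ?_⟩
  · obtain ⟨f, a, b⟩ := h2.1 e X h
    obtain ⟨g, c, d⟩ := h1.1 f X b
    exact ⟨g, by simp [c, a], d⟩
  · obtain ⟨a, b⟩ := h1.2 e he
    obtain ⟨c, d⟩ := h2.2 e a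
    exact ⟨c, fun f => (d _).trans (b f)⟩

lemma qstep0 {s t : E → N} {Z : Finset N} {z0 : N} (hz : z0 ∈ Z) {k : ℕ}
    (hev : ∀ X, Even (ct s t univ X)) (h : ∀ X, Sep Z X → 2 * k ≤ ct s t univ X) {e1 : E}
    (hv : s e1 ∉ Z) (hor : ∀ e, t e = s e1 → s e = s e1) :
    ∃ (s' t' : E → N) (own : E → E), out_LSplit Z s' t' < out_LSplit Z s t ∧
      (∀ X, Even (ct s' t' univ X)) ∧ Trk Z s t s' t' own ∧
      ∀ X, Sep Z X → 2 * k ≤ ct s' t' univ X := by
  by_cases hu : t e1 = s e1
  · have hc : ∀ X, ct (update s e1 z0) (update t e1 z0) univ X = ct s t univ X := fun X => by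
      unfold ct
      refine congrArg _ (filter_congr fun e _ => ?_)
      by_cases a : e = e1
      · simp [a, hu]
      · simp [a]
    refine ⟨update s e1 z0, update t e1 z0, id, ?_, fun X => hc X ▸ hev X,
      ⟨fun e X he => ⟨e, rfl, ?_⟩, fun e he => ⟨?_, fun f => Iff.rfl⟩⟩, fun X hX => hc X ▸ h X hX⟩
    · unfold out_LSplit
      refine sum_lt_sum (fun e _ => ?_) ⟨e1, mem_univ _, by simp [hz, hv]⟩
      by_cases a : e = e1
      · simp [a, hz]
      · simp [a]
    · by_cases a : e = e1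
      · simp [Cr, a] at he
      · simpa [Cr, a] using he
    · have a : e ≠ e1 := fun a => hv (a ▸ he.1)
      simpa [Ins, a] using he
  obtain ⟨e2, hne, hs2, hgood⟩ := core_LSplit hev h hv hor hu
  have hc : ∀ X, ct (update (update s e1 (t e2)) e2 z0) (update t e2 z0) univ X +
      (if ¬ (s e1 ∈ X ↔ t e1 ∈ X) then 1 else 0) + (if ¬ (s e1 ∈ X ↔ t e2 ∈ X) then 1 else 0) =
      ct s t univ X + if ¬ (t e2 ∈ X ↔ t e1 ∈ X) then 1 else 0 := fun X => by
    unfold ct
    simp only [card_filter]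
    have := sum2_LSplit (f := fun e => if ¬ (update (update s e1 (t e2)) e2 z0 e ∈ X ↔
      update t e2 z0 e ∈ X) then 1 else 0) (g := fun e => if ¬ (s e ∈ X ↔ t e ∈ X) then 1 else 0)
      hne fun e a b => by simp [a, b]
    simpa only [update_self, update_of_ne hne.symm, hs2, not_true, if_false, add_zero] using this
  have hd : ∀ X, ct (update (update s e1 (t e2)) e2 z0) (update t e2 z0) univ X = ct s t univ X ∨
      (ct (update (update s e1 (t e2)) e2 z0) (update t e2 z0) univ X + 2 = ct s t univ X ∧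
        (Sep Z X → ct s t univ X ≠ 2 * k)) := fun X => by
    have h1 := hc X
    have h2 := hgood X
    have h3 := hgood Xᶜ
    rw [ct_compl] at h3
    by_cases a : s e1 ∈ X <;> by_cases b : t e1 ∈ X <;> by_cases c : t e2 ∈ X <;>
      simp only [a, b, c, mem_compl, iff_true, iff_false, not_true, not_false_iff, if_true,
        if_false, add_zero, forall_true_left, add_left_inj] at h1 h2 h3
    all_goals first
      | exact Or.inl h1
      | exact Or.inr ⟨h1, h2⟩
      | exact Or.inr ⟨h1, fun hX => h3 hX.compl⟩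
  refine ⟨update (update s e1 (t e2)) e2 z0, update t e2 z0, update id e2 e1, ?_, fun X => ?_,
    ⟨fun e X he => ?_, fun e he => ?_⟩, fun X hX => ?_⟩
  · have := sum2_LSplit (f := fun e => (if update (update s e1 (t e2)) e2 z0 e ∈ Z then 0 else 1) +
      if update t e2 z0 e ∈ Z then 0 else 1)
      (g := fun e => (if s e ∈ Z then 0 else 1) + if t e ∈ Z then 0 else 1) hne
      fun e a b => by simp [a, b]
    simp only [update_self, update_of_ne hne.symm, hs2, hz, hv, if_true, if_false] at this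
    unfold out_LSplit
    omega
  · obtain ⟨r, hr⟩ := hev X
    rcases hd X with a | ⟨a, -⟩
    · exact ⟨r, by omega⟩
    · exact ⟨r - 1, by omega⟩
  · by_cases b : e = e2
    · simp [Cr, b] at he
    by_cases a : e = e1
    · simp only [Cr, a, update_self, update_of_ne hne.symm] at he
      by_cases c : Cr s t X e1
      · exact ⟨e1, by simp [a, update_of_ne hne.symm], c⟩
      · refine ⟨e2, by simp [a], ?_⟩
        simp only [Cr, hs2] at c ⊢
        tauto
    · exact ⟨e, by simp [b], by simpa [Cr, a, b] using he⟩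
  · have a : e ≠ e1 := fun a => hv (a ▸ he.1)
    have b : e ≠ e2 := fun b => hv (hs2 ▸ b ▸ he.1)
    refine ⟨by simpa [Ins, a, b] using he, fun f => ?_⟩
    by_cases c : f = e2
    · simp [c, a.symm, b.symm]
    · simp [c]
  · obtain ⟨r, hr⟩ := hev X
    have := h X hX
    rcases hd X with a | ⟨a, b⟩
    · omega
    · have := b hX
      omega

lemma qstep {s t : E → N} {Z : Finset N} {z0 : N} (hz : z0 ∈ Z) {k : ℕ}
    (hev : ∀ X, Even (ct s t univ X)) (h : ∀ X, Sep Z X → 2 * k ≤ ct s t univ X) {e1 : E} {v : N}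
    (hv : v ∉ Z) (he : s e1 = v ∨ t e1 = v) :
    ∃ (s' t' : E → N) (own : E → E), out_LSplit Z s' t' < out_LSplit Z s t ∧
      (∀ X, Even (ct s' t' univ X)) ∧ Trk Z s t s' t' own ∧
      ∀ X, Sep Z X → 2 * k ≤ ct s' t' univ X := by
  have hc := ct_swap (s := s) (t := t) (s' := fun e => if t e = v then t e else s e)
    (t' := fun e => if t e = v then s e else t e) (fun e => by
      by_cases a : t e = v <;> simp [a]) univ
  have h1 : (if t e1 = v then t e1 else s e1) = v := by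
    split_ifs with a
    exacts [a, he.resolve_right a]
  have ho : out_LSplit Z (fun e => if t e = v then t e else s e)
      (fun e => if t e = v then s e else t e) = out_LSplit Z s t :=
    sum_congr rfl fun e _ => by by_cases a : t e = v <;> simp [a, add_comm]
  have h0 : Trk Z s t (fun e => if t e = v then t e else s e)
      (fun e => if t e = v then s e else t e) id := by
    refine ⟨fun e X he => ⟨e, rfl, ?_⟩, fun e he => ⟨?_, fun f => Iff.rfl⟩⟩
    · simp only [Cr] at he ⊢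
      split_ifs at he <;> tauto
    · simp only [Ins] at he ⊢
      split_ifs <;> tauto
  obtain ⟨s', t', own, a, b, c, d⟩ := qstep0 (e1 := e1) hz (fun X => hc X ▸ hev X)
    (fun X hX => hc X ▸ h X hX) (by rwa [h1]) (fun e => by
      rw [h1]
      by_cases a : t e = v <;> simp [a])
  exact ⟨s', t', _, ho ▸ a, b, h0.comp c, d⟩

theorem split_track (s t : E → N) (Z : Finset N) (z0 : N) (hz : z0 ∈ Z) (k : ℕ)
    (hev : ∀ X, Even (ct s t univ X)) (h : ∀ X, Sep Z X → 2 * k ≤ ct s t univ X) :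
    ∃ (s' t' : E → N) (own : E → E), (∀ e, s' e ∈ Z ∧ t' e ∈ Z) ∧ Trk Z s t s' t' own ∧
      ∀ X, Sep Z X → 2 * k ≤ ct s' t' univ X := by
  induction hm : out_LSplit Z s t using Nat.strong_induction_on generalizing s t with
  | _ m ih =>
    by_cases hall : ∀ e, s e ∈ Z ∧ t e ∈ Z
    · exact ⟨s, t, id, hall, ⟨fun e X he => ⟨e, rfl, he⟩, fun e he => ⟨he, fun f => Iff.rfl⟩⟩, h⟩
    obtain ⟨e1, v, hv, he⟩ : ∃ e1 v, v ∉ Z ∧ (s e1 = v ∨ t e1 = v) := by
      obtain ⟨e, he⟩ := not_forall.1 hall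
      rcases not_and_or.1 he with a | a
      exacts [⟨e, _, a, Or.inl rfl⟩, ⟨e, _, a, Or.inr rfl⟩]
    obtain ⟨s1, t1, o1, a, b, c, d⟩ := qstep hz hev h hv he
    obtain ⟨s', t', o2, h1, h2, h3⟩ := ih _ (hm ▸ a) s1 t1 b d rfl
    exact ⟨s', t', _, h1, c.comp h2, h3⟩

/-- double the edges of `A` and split off everything outside `Z` -/
theorem double_split (s t : E → N) (A : Finset E) (Z : Finset N) (z0 : N) (hz : z0 ∈ Z) (k : ℕ)
    (h : ∀ X, Sep Z X → k ≤ ct s t A X) :
    ∃ (s' t' : E × Bool → N) (own : E × Bool → E × Bool), (∀ e, s' e ∈ Z ∧ t' e ∈ Z) ∧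
      (∀ X, Sep Z X → 2 * k ≤ ct s' t' univ X) ∧
      (∀ e X, Cr s' t' X e → ∃ f, own f = e ∧ f.1 ∈ A ∧ Cr s t X f.1) ∧
      ∀ e, Ins s t Z e.1 → ∀ f, own f = e ↔ f = e := by
  have hc : ∀ X, ct (fun e : E × Bool => if e.1 ∈ A then s e.1 else z0)
      (fun e : E × Bool => if e.1 ∈ A then t e.1 else z0) univ X = 2 * ct s t A X := fun X => by
    unfold ct
    simp only [card_filter]
    rw [Fintype.sum_prod_type, mul_sum, ← sum_subset (subset_univ A)]
    · exact sum_congr rfl fun e he => by simp [he]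
    · intro e _ he
      simp [he]
  obtain ⟨s', t', own, h1, h2, h3⟩ := split_track _ _ Z z0 hz k
    (fun X => hc X ▸ even_two_mul _) (fun X hX => by rw [hc]; have := h X hX; omega)
  refine ⟨s', t', own, h1, h3, fun e X he => ?_, fun e he => (h2.2 e ?_).2⟩
  · obtain ⟨f, a, b⟩ := h2.1 e X he
    by_cases c : f.1 ∈ A
    · exact ⟨f, a, c, by simpa [Cr, c] using b⟩
    · simp [Cr, c] at b
  · simp only [Ins] at he ⊢
    split_ifs <;> tauto

/-- three connecting edge sets without a common edge -/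
theorem three_sets (s t : E → N) (A : Finset E) (Z : Finset N)
    (h : ∀ X, Sep Z X → 5 ≤ ct s t A X) :
    ∃ H : ℕ → Finset E, (∀ i, H i ⊆ A) ∧ (∀ i < 3, Conn s t Z (H i)) ∧
      ∀ e, ¬ (e ∈ H 0 ∧ e ∈ H 1 ∧ e ∈ H 2) := by
  rcases Z.eq_empty_or_nonempty with rfl | ⟨z0, hz⟩
  · exact ⟨fun _ => ∅, fun _ => empty_subset _, fun i _ X hX => by simp [Sep] at hX, by simp⟩
  obtain ⟨s', t', own, h1, h2, h3, -⟩ := double_split s t A Z z0 hz 5 h
  obtain ⟨T, hd, hT⟩ := pack s' t' Z h1 3 le_rfl fun X hX => by have := h2 X hX; omega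
  refine ⟨fun i => {e ∈ A | ∃ b, own (e, b) ∈ T i}, fun i => filter_subset _ _,
    fun i hi X hX => ?_, fun e ⟨a, b, c⟩ => ?_⟩
  · obtain ⟨e, he⟩ := card_pos.1 (hT i hi X hX)
    obtain ⟨f, a, b, c⟩ := h3 e X (mem_filter.1 he).2
    exact card_pos.2 ⟨f.1, mem_filter.2 ⟨mem_filter.2 ⟨b, f.2, a ▸ (mem_filter.1 he).1⟩, c⟩⟩
  · obtain ⟨b0, a0⟩ := (mem_filter.1 a).2
    obtain ⟨b1, a1⟩ := (mem_filter.1 b).2
    obtain ⟨b2, a2⟩ := (mem_filter.1 c).2
    have d01 := disjoint_left.1 (hd 0 1 (by norm_num)) a0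
    have d02 := disjoint_left.1 (hd 0 2 (by norm_num)) a0
    have d12 := disjoint_left.1 (hd 1 2 (by norm_num)) a1
    cases b0 <;> cases b1 <;> cases b2 <;> contradiction

end Pool.Agent.P.MP_e59a69_co
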