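import Pool.Agent.P.MP_e59a69_co.QCon
import Pool.Agent.P.MP_e59a69_co.QSplit

/-! Three edge sets that avoid the windows and connect all trees around them. -/

open Finset

set_option linter.unusedSectionVars false

namespace Pool.Agent.P.MP_e59a69_co

variable {V E ι : Type} [Fintype V] [Fintype E] [DecidableEq V] [DecidableEq E] [Fintype ι]
  [DecidableEq ι]
variable {src tgt : E → V} {k h : ℕ} {W J : ι → Finset V} {hub : ι → E → Finset V}

lemma QH.five (H : QH src tgt k) (F : Fam src tgt k h W J hub) (h4 : 4 ≤ h) {P : Finset V}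
    (hP : ¬ HasCycleIn src tgt P) (hun : ∀ c e, ∀ u ∈ hub c e, ∀ v ∈ hub c e, u ∈ P → v ∈ P)
    (hb : ∃ c e, #(hub c e) = h ∧ ∀ v ∈ hub c e, v ∈ P) :
    5 ≤ ct src tgt {e | ∀ i, src e ∉ W i ∧ tgt e ∉ W i} P := by
  set Q : Finset V := {v ∈ P | ∀ i, v ∉ W i} with hQ
  have hm : ∀ v, v ∈ Q ↔ v ∈ P ∧ ∀ i, v ∉ W i := fun v => mem_filter
  have hsub : ∀ c e, (∀ v ∈ hub c e, v ∈ P) → hub c e ⊆ Q := fun c e a v hv =>
    (hm v).2 ⟨a v hv, fun i => F.nI hv⟩
  obtain ⟨c, e, b1, b2⟩ := hb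
  have h1 := card_le_card (hsub c e b2)
  have h2 := H.acyc (X := Q) (card_pos.1 (by omega)) fun q => hP (q.mono (filter_subset _ _))
  set B : Finset (ι × E) := {x | Cr src tgt (W x.1) x.2 ∧ hub x.1 x.2 ⊆ Q} with hB
  have h3 : #B * h ≤ #Q := by
    have a : #(B.biUnion fun x => hub x.1 x.2) ≤ #Q :=
      card_le_card (biUnion_subset.2 fun x hx => (mem_filter.1 hx).2.2)
    rw [card_biUnion, sum_congr rfl fun x hx => ((F.lay x.1).out x.2 (mem_filter.1 hx).2.1).2.1,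
      sum_const, smul_eq_mul] at a
    · exact a
    · intro x _ y _ hxy
      refine disjoint_left.2 fun v p q => ?_
      have r := F.uniq (F.hJ _ _ p) (F.hJ _ _ q)
      beta_reduce at q
      rw [← r] at q
      exact disjoint_left.1 ((F.lay x.1).dj x.2 y.2 fun s => hxy (Prod.ext r s)) p q
  have h5 : ct src tgt univ Q ≤
      ct src tgt {e | ∀ i, src e ∉ W i ∧ tgt e ∉ W i} P + #(B.image Prod.snd) := by
    refine le_trans (card_le_card fun f hf => ?_) (card_union_le _ _)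
    have a := (mem_filter.1 hf).2
    rw [hm, hm] at a
    by_cases q : ∀ i, src f ∉ W i ∧ tgt f ∉ W i
    · refine mem_union_left _ (mem_filter.2 ⟨mem_filter.2 ⟨mem_univ _, q⟩, fun r => a ?_⟩)
      exact and_congr r (iff_of_true (fun i => (q i).1) fun i => (q i).2)
    obtain ⟨i, hi⟩ := not_forall.1 q
    have r : Cr src tgt (W i) f := fun r =>
      a (iff_of_false (fun x => x.2 i (by tauto)) fun x => x.2 i (by tauto))
    refine mem_union_right _ (mem_image.2 ⟨(i, f), mem_filter.2 ⟨mem_univ _, r,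
      hsub i f fun v hv => ?_⟩, rfl⟩)
    rcases F.ends r with ⟨x, y⟩ | ⟨x, y⟩
    · refine hun i f _ y v hv (not_not.1 fun z => a (iff_of_false (fun w => w.2 i x) fun w => z w.1))
    · refine hun i f _ x v hv (not_not.1 fun z => a (iff_of_false (fun w => z w.1) fun w => w.2 i y))
  have h6 := card_image_le (s := B) (f := Prod.snd)
  have h7 := Nat.mul_le_mul_left #B h4
  omega

theorem QH.three_conn (H : QH src tgt k) (F : Fam src tgt k h W J hub) (h4 : 4 ≤ h)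
    (hcl : ∀ X : Finset V, HasCycleIn src tgt X → HasCycleIn src tgt Xᶜ →
      9 ≤ #{e | Cr src tgt X e ∧ ∀ i, ¬ Ins src tgt (J i) e}) :
    ∃ Hs : ℕ → Finset E, (∀ s, ∀ e ∈ Hs s, ∀ i, src e ∉ W i ∧ tgt e ∉ W i) ∧
      (∀ s < 3, Conn src tgt {v | ∃ i e, v ∈ hub i e} (Hs s)) ∧
      ∀ e, (∀ i, ¬ Ins src tgt (J i) e) → ¬ (e ∈ Hs 0 ∧ e ∈ Hs 1 ∧ e ∈ Hs 2) := by
  obtain ⟨nd, Z, D⟩ := H.exists_nd F
  obtain ⟨T, t1, t2, t3⟩ := three_sets (fun e => nd (src e)) (fun e => nd (tgt e))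
    {e | ∀ i, src e ∉ W i ∧ tgt e ∉ W i} Z fun X ⟨⟨z, z1, z2⟩, w, w1, w2⟩ => by
      rw [ct_nd]
      by_cases a : HasCycleIn src tgt ({v | nd v ∈ X} : Finset V)
      · by_cases b : HasCycleIn src tgt ({v | nd v ∈ X} : Finset V)ᶜ
        · refine le_trans (by norm_num) ((hcl _ a b).trans (card_le_card fun e he => ?_))
          obtain ⟨x, y⟩ := (mem_filter.1 he).2
          exact mem_filter.2 ⟨mem_filter.2 ⟨mem_univ _, fun i =>
            ⟨fun q => y i (F.ins (Or.inl q)), fun q => y i (F.ins (Or.inr q))⟩⟩, x⟩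
        · obtain ⟨c, e, x, y⟩ := D.side F w1 (mem_compl.2 w2)
          rw [← ct_compl]
          refine H.five F h4 b (fun c e u hu v hv => ?_) ⟨c, e, x, fun v hv => by simpa using y v hv⟩
          simp [(D.hub_mem c e u hu).2.2 v hv]
      · obtain ⟨c, e, x, y⟩ := D.side F z1 z2
        refine H.five F h4 a (fun c e u hu v hv => ?_) ⟨c, e, x, fun v hv => by simpa using y v hv⟩
        simp [(D.hub_mem c e u hu).2.2 v hv]
  refine ⟨fun s => T s ∪ ({e | ∃ i f, Ins src tgt (hub i f) e} : Finset E), fun s e he i => ?_,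
    fun s hs X hX => ?_, fun e he ⟨a, b, c⟩ => ?_⟩
  · rcases mem_union.1 he with a | a
    · exact (mem_filter.1 (t1 s a)).2 i
    · obtain ⟨j, f, b⟩ := (mem_filter.1 a).2
      exact ⟨F.nI b.1, F.nI b.2⟩
  · by_cases q : ∃ c f e, Ins src tgt (hub c f) e ∧ Cr src tgt X e
    · obtain ⟨c, f, e, a, b⟩ := q
      exact card_pos.2 ⟨e, mem_filter.2
        ⟨mem_union_right _ (mem_filter.2 ⟨mem_univ _, c, f, a⟩), b⟩⟩
    have hun := H.unsplit F (X := X) fun c f e a b => q ⟨c, f, e, a, b⟩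
    obtain ⟨⟨u, u1, u2⟩, v, v1, v2⟩ := hX
    obtain ⟨c, f, u3⟩ := (mem_filter.1 u1).2
    obtain ⟨d, g, v3⟩ := (mem_filter.1 v1).2
    obtain ⟨e, he⟩ := card_pos.1 (t2 s hs X ⟨⟨_, (D.hub_mem c f u u3).2.1,
      (D.same F hun fun _ => F.nI u3).2 u2⟩, _, (D.hub_mem d g v v3).2.1,
      fun r => v2 ((D.same F hun fun _ => F.nI v3).1 r)⟩)
    obtain ⟨e1, e2⟩ := mem_filter.1 he
    have e3 := (mem_filter.1 (t1 s e1)).2
    rw [D.same F hun fun c => (e3 c).1, D.same F hun fun c => (e3 c).2] at e2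
    exact card_pos.2 ⟨e, mem_filter.2 ⟨mem_union_left _ e1, e2⟩⟩
  · have n : e ∉ ({e | ∃ i f, Ins src tgt (hub i f) e} : Finset E) := fun q => by
      obtain ⟨i, f, r⟩ := (mem_filter.1 q).2
      exact he i ⟨F.hJ i f r.1, F.hJ i f r.2⟩
    exact t3 e ⟨(mem_union.1 a).resolve_right n, (mem_union.1 b).resolve_right n,
      (mem_union.1 c).resolve_right n⟩

end Pool.Agent.P.MP_e59a69_co
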