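import Pool.Agent.P.MP_e59a69_co.QDefs

/-! A perfect matching inside the support of a weighting with large odd cuts. -/

open Finset

set_option linter.unusedSectionVars false

namespace Pool.Agent.P.MP_e59a69_co

variable {V E : Type} [Fintype V] [Fintype E] [DecidableEq V] [DecidableEq E]

lemma sum_vs (src tgt : E → V) (x : E → ℤ) (X : Finset V) :
    ∑ v ∈ X, vs src tgt x v =
      ∑ e, ((if src e ∈ X then x e else 0) + if tgt e ∈ X then x e else 0) := by
  unfold vs
  rw [sum_comm]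
  exact sum_congr rfl fun e _ => by simp [sum_add_distrib]

lemma qt_mate (src tgt : E → V) (A : Finset E) (μ : V → V) (h1 : ∀ v, μ (μ v) = v)
    (h2 : ∀ v, μ v ≠ v) (h3 : ∀ v, ∃ e ∈ A, Ends src tgt e v (μ v)) :
    ∃ M ⊆ A, ∀ v, degIn src tgt M v = 1 := by
  choose ed ha hb using h3
  let od : V → ℕ := fun v => (Fintype.equivFin V v : ℕ)
  have hod : ∀ u v, od u = od v → u = v := fun u v h =>
    (Fintype.equivFin V).injective (Fin.ext h)
  refine ⟨image ed {v | od v < od (μ v)}, fun e he => ?_, fun v => ?_⟩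
  · obtain ⟨v, -, rfl⟩ := mem_image.1 he
    exact ha v
  obtain ⟨w, w1, w2⟩ : ∃ w, od w < od (μ w) ∧ (w = v ∨ μ w = v) := by
    rcases lt_trichotomy (od v) (od (μ v)) with a | a | a
    · exact ⟨v, a, Or.inl rfl⟩
    · exact absurd (hod _ _ a).symm (h2 v)
    · exact ⟨μ v, by rwa [h1], Or.inr (h1 v)⟩
  have hw : ed w ∈ image ed {v | od v < od (μ v)} :=
    mem_image_of_mem _ (mem_filter.2 ⟨mem_univ _, w1⟩)
  have hu : ∀ e ∈ image ed {v | od v < od (μ v)}, src e = v ∨ tgt e = v → e = ed w := by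
    intro e he hv
    obtain ⟨u, hu, rfl⟩ := mem_image.1 he
    have u1 := (mem_filter.1 hu).2
    have u2 : u = v ∨ μ u = v := by
      rcases hb u with ⟨a, b⟩ | ⟨a, b⟩ <;> rw [a, b] at hv <;> tauto
    congr 1
    rcases u2 with a | a <;> rcases w2 with b | b
    · rw [a, b]
    · rw [a, ← b, h1] at u1
      omega
    · rw [b, ← a, h1] at w1
      omega
    · rw [← h1 u, a, ← b, h1]
  have hne : src (ed w) ≠ tgt (ed w) := by
    rcases hb w with ⟨a, b⟩ | ⟨a, b⟩ <;> rw [a, b]
    exacts [(h2 w).symm, h2 w]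
  have hv : src (ed w) = v ∨ tgt (ed w) = v := by
    rcases hb w with ⟨a, b⟩ | ⟨a, b⟩ <;> rw [a, b] <;> tauto
  unfold degIn
  rcases hv with a | a
  · rw [eq_singleton_iff_unique_mem.2 ⟨mem_filter.2 ⟨hw, a⟩, fun e he =>
      hu e (mem_filter.1 he).1 (Or.inl (mem_filter.1 he).2)⟩, filter_eq_empty_iff.2 fun e he b =>
      hne (a.trans (hu e he (Or.inr b) ▸ b).symm)]
    simp
  · rw [filter_eq_empty_iff.2 fun e he b => hne ((hu e he (Or.inl b) ▸ b).trans a.symm),
      eq_singleton_iff_unique_mem.2 ⟨mem_filter.2 ⟨hw, a⟩, fun e he =>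
      hu e (mem_filter.1 he).1 (Or.inr (mem_filter.1 he).2)⟩]
    simp

theorem tut (src tgt : E → V) (x : E → ℤ) (n : ℤ) (hn : 0 < n) (hx : ∀ e, 0 ≤ x e)
    (hv : ∀ v, vs src tgt x v ≤ n)
    (hodd : ∀ X : Finset V, Odd #X → n ≤ ∑ e with Cr src tgt X e, x e) :
    ∃ M : Finset E, (∀ v, degIn src tgt M v = 1) ∧ ∀ e ∈ M, x e ≠ 0 := by
  classical
  let A : Finset E := {e | x e ≠ 0}
  obtain ⟨M, hM⟩ : ∃ M : (spanGr src tgt A).Subgraph, M.IsPerfectMatching := by
    refine SimpleGraph.tutte.2 fun u hu => ?_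
    unfold SimpleGraph.IsTutteViolator at hu
    set G' := ((⊤ : (spanGr src tgt A).Subgraph).deleteVerts u).coe with hG
    have hmem : ∀ v, v ∉ u → v ∈ ((⊤ : (spanGr src tgt A).Subgraph).deleteVerts u).verts :=
      fun v h => by simpa using h
    let X : G'.ConnectedComponent → Finset V := fun c =>
      {v | ∃ h : v ∉ u, G'.connectedComponentMk ⟨v, hmem v h⟩ = c}
    have hX : ∀ c v, v ∈ X c ↔ ∃ h : v ∉ u, G'.connectedComponentMk ⟨v, hmem v h⟩ = c :=
      fun c v => by simp [X]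
    have hc : ∀ c, c.supp.ncard = #(X c) := fun c => by
      rw [← Set.ncard_image_of_injective _ Subtype.val_injective, ← Set.ncard_coe_finset]
      congr 1
      ext v
      rw [mem_coe, hX]
      constructor
      · rintro ⟨w, hw, rfl⟩
        exact ⟨(show w.1 ∈ Set.univ \ u from w.2).2, hw⟩
      · rintro ⟨h, hw⟩
        exact ⟨_, hw, rfl⟩
    let O : Finset G'.ConnectedComponent := G'.oddComponents.toFinset
    have h1 : ∑ _c ∈ O, n ≤ ∑ c ∈ O, ∑ e with Cr src tgt (X c) e, x e :=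
      sum_le_sum fun c hc' => hodd _ (by
        rw [← hc]
        exact (Set.mem_toFinset (s := G'.oddComponents)).1 hc')
    have h2 : ∑ c ∈ O, ∑ e with Cr src tgt (X c) e, x e ≤ ∑ v ∈ u.toFinset, vs src tgt x v := by
      rw [sum_vs]
      simp only [sum_filter]
      rw [sum_comm]
      refine sum_le_sum fun e _ => ?_
      have h0 := hx e
      have hone : ∀ w, (∀ c, Cr src tgt (X c) e → w ∈ X c) →
          ∑ c ∈ O, (if Cr src tgt (X c) e then x e else 0) ≤ x e := fun w hw => by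
        rw [← sum_filter, sum_const, nsmul_eq_mul]
        have : #{c ∈ O | Cr src tgt (X c) e} ≤ 1 := card_le_one.2 fun c a d b => by
          obtain ⟨_, p⟩ := (hX _ _).1 (hw c (mem_filter.1 a).2)
          obtain ⟨_, q⟩ := (hX _ _).1 (hw d (mem_filter.1 b).2)
          exact p.symm.trans q
        have : (#{c ∈ O | Cr src tgt (X c) e} : ℤ) ≤ 1 := by exact_mod_cast this
        nlinarith
      have hnot : ∀ c w, w ∈ u → w ∉ X c := fun c w a b => ((hX _ _).1 b).1 a
      simp only [Set.mem_toFinset]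
      by_cases a : src e ∈ u
      · refine (hone (tgt e) fun c q => ?_).trans (by rw [if_pos a]; split_ifs <;> omega)
        have := hnot c _ a
        tauto
      by_cases b : tgt e ∈ u
      · refine (hone (src e) fun c q => ?_).trans (by rw [if_neg a, if_pos b]; omega)
        have := hnot c _ b
        tauto
      rw [if_neg a, if_neg b]
      refine le_of_eq ((sum_eq_zero fun c _ => ?_).trans (add_zero _).symm)
      by_cases d : x e = 0
      · simp [d]
      have hq : G'.connectedComponentMk ⟨src e, hmem _ a⟩ =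
          G'.connectedComponentMk ⟨tgt e, hmem _ b⟩ := by
        by_cases q : src e = tgt e
        · congr 2
        · refine SimpleGraph.ConnectedComponent.connectedComponentMk_eq_of_adj ?_
          simp only [hG, SimpleGraph.Subgraph.coe_adj, SimpleGraph.Subgraph.deleteVerts_adj,
            SimpleGraph.Subgraph.verts_top, Set.mem_univ, SimpleGraph.Subgraph.top_adj, true_and]
          exact ⟨a, b, (SimpleGraph.fromRel_adj _ _ _).2
            ⟨q, Or.inl ⟨e, mem_filter.2 ⟨mem_univ _, d⟩, rfl, rfl⟩⟩⟩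
      refine if_neg (not_not.2 ?_)
      rw [hX, hX]
      exact ⟨fun ⟨_, q⟩ => ⟨b, hq ▸ q⟩, fun ⟨_, q⟩ => ⟨a, hq.symm ▸ q⟩⟩
    have h3 : ∑ v ∈ u.toFinset, vs src tgt x v ≤ ∑ _v ∈ u.toFinset, n := sum_le_sum fun v _ => hv v
    rw [Set.ncard_eq_toFinset_card', Set.ncard_eq_toFinset_card'] at hu
    have h4 : (#u.toFinset : ℤ) < #O := by exact_mod_cast hu
    rw [sum_const, nsmul_eq_mul] at h1 h3
    nlinarith
  rw [SimpleGraph.Subgraph.isPerfectMatching_iff] at hM
  choose μ h1 h2 using hM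
  obtain ⟨M', a, b⟩ := qt_mate src tgt A μ (fun v => (h2 _ _ (h1 v).symm).symm)
    (fun v => (h1 v).ne.symm) fun v => by
      obtain ⟨-, ⟨e, p, q⟩ | ⟨e, p, q⟩⟩ := (SimpleGraph.fromRel_adj _ _ _).1 (h1 v).adj_sub
      exacts [⟨e, p, Or.inl q⟩, ⟨e, p, Or.inr q⟩]
  exact ⟨M', b, fun e he => (mem_filter.1 (a he)).2⟩

/-- an acyclic set has a proper colouring -/
lemma forest_sign (src tgt : E → V) (hc : ∀ v, degIn src tgt univ v = 3) (X : Finset V)
    (hX : ∀ Y ⊆ X, Y.Nonempty → #Y + 2 ≤ ct src tgt univ Y) :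
    ∃ χ : V → ℤ, (∀ v, χ v = 1 ∨ χ v = -1) ∧
      ∀ e, Ins src tgt X e → χ (src e) + χ (tgt e) = 0 := by
  induction X using Finset.strongInduction with
  | H X ih =>
  rcases X.eq_empty_or_nonempty with rfl | hne
  · exact ⟨fun _ => 1, fun _ => Or.inl rfl, fun e he => absurd he.1 (notMem_empty _)⟩
  have h1 := hand hc X
  have h2 := hX X (Subset.refl _) hne
  have h3 : ∑ v ∈ X, degIn src tgt {e | Ins src tgt X e} v = 2 * #{e | Ins src tgt X e} := by
    unfold degIn
    rw [sum_add_distrib, ← card_eq_sum_card_fiberwise (f := src) fun e he => (mem_filter.1 he).2.1,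
      ← card_eq_sum_card_fiberwise (f := tgt) fun e he => (mem_filter.1 he).2.2, two_mul]
  obtain ⟨v, hv, h4⟩ := exists_lt_of_sum_lt (s := X)
    (f := fun v => degIn src tgt {e | Ins src tgt X e} v) (g := fun _ => 2) (by
      rw [h3, sum_const, smul_eq_mul]
      omega)
  obtain ⟨χ, c1, c2⟩ := ih (X.erase v) (erase_ssubset hv)
    fun Y hY => hX Y (hY.trans (erase_subset _ _))
  unfold degIn at h4
  have hs : ∀ e, Ins src tgt X e → src e = v →
      e ∈ ({e ∈ ({e | Ins src tgt X e} : Finset E) | src e = v} : Finset E) :=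
    fun e a b => mem_filter.2 ⟨mem_filter.2 ⟨mem_univ _, a⟩, b⟩
  have ht : ∀ e, Ins src tgt X e → tgt e = v →
      e ∈ ({e ∈ ({e | Ins src tgt X e} : Finset E) | tgt e = v} : Finset E) :=
    fun e a b => mem_filter.2 ⟨mem_filter.2 ⟨mem_univ _, a⟩, b⟩
  have hst : ∀ e f, Ins src tgt X e → Ins src tgt X f → src e = v → tgt f ≠ v := fun e f a b c d => by
    have := card_pos.2 ⟨_, hs e a c⟩
    have := card_pos.2 ⟨_, ht f b d⟩
    omega
  obtain ⟨w, hw⟩ : ∃ w, ∀ e, Ins src tgt X e →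
      (src e = v → tgt e = w) ∧ (tgt e = v → src e = w) := by
    by_cases a : ∃ e, Ins src tgt X e ∧ src e = v
    · obtain ⟨e, a, b⟩ := a
      exact ⟨tgt e, fun f c => ⟨fun d => congrArg tgt (card_le_one.1 (by omega) _ (hs f c d) _
        (hs e a b)), fun d => absurd d (hst e f a c b)⟩⟩
    by_cases b : ∃ e, Ins src tgt X e ∧ tgt e = v
    · obtain ⟨e, b, b'⟩ := b
      exact ⟨src e, fun f c => ⟨fun d => absurd ⟨f, c, d⟩ a, fun d => congrArg src
        (card_le_one.1 (by omega) _ (ht f c d) _ (ht e b b'))⟩⟩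
    · exact ⟨v, fun f c => ⟨fun d => absurd ⟨f, c, d⟩ a, fun d => absurd ⟨f, c, d⟩ b⟩⟩
  refine ⟨Function.update χ v (-χ w), fun u => ?_, fun e he => ?_⟩
  · by_cases a : u = v
    · rw [a, Function.update_self]
      have := c1 w
      omega
    · rw [Function.update_of_ne a]
      exact c1 u
  · by_cases a : src e = v
    · rw [Function.update_of_ne (hst e e he he a), a, Function.update_self, (hw e he).1 a]
      ring
    by_cases b : tgt e = v
    · rw [Function.update_of_ne a, b, Function.update_self, (hw e he).2 b]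
      ring
    · rw [Function.update_of_ne a, Function.update_of_ne b]
      exact c2 e ⟨mem_erase.2 ⟨a, he.1⟩, mem_erase.2 ⟨b, he.2⟩⟩

/-- the cut of an odd acyclic set has full weight -/
lemma forest_odd (src tgt : E → V) (hc : ∀ v, degIn src tgt univ v = 3) (X : Finset V)
    (hX : ∀ Y ⊆ X, Y.Nonempty → #Y + 2 ≤ ct src tgt univ Y) (x : E → ℤ) (n : ℤ) (hn : 0 ≤ n)
    (hx : ∀ e, 0 ≤ x e) (hv : ∀ v, vs src tgt x v = n) (ho : Odd #X) :
    n ≤ ∑ e with Cr src tgt X e, x e := by
  obtain ⟨χ, c1, c2⟩ := forest_sign src tgt hc X hX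
  have h1 : Odd (∑ v ∈ X, χ v) := by
    have e1 : Even (∑ v ∈ X, (χ v - 1)) := even_sum _ fun v _ => by
      rcases c1 v with a | a <;> rw [a] <;> decide
    rw [sum_sub_distrib, sum_const, nsmul_eq_mul, mul_one] at e1
    have := e1.add_odd (ho.natCast (R := ℤ))
    rwa [sub_add_cancel] at this
  have h2 : (∑ v ∈ X, χ v) * n = ∑ e, ((if src e ∈ X then χ (src e) * x e else 0) +
      if tgt e ∈ X then χ (tgt e) * x e else 0) := by
    rw [sum_mul, sum_congr rfl fun v _ => by rw [← hv v]]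
    unfold vs
    simp only [mul_sum]
    rw [sum_comm]
    refine sum_congr rfl fun e _ => ?_
    simp only [mul_add, mul_ite, mul_zero, sum_add_distrib, sum_ite_eq]
  have h3 : |(∑ v ∈ X, χ v) * n| ≤ ∑ e with Cr src tgt X e, x e := by
    rw [h2, sum_filter]
    refine (abs_sum_le_sum_abs _ _).trans (sum_le_sum fun e _ => ?_)
    have := hx e
    by_cases a : src e ∈ X <;> by_cases b : tgt e ∈ X
    · rw [if_pos a, if_pos b, ← add_mul, c2 e ⟨a, b⟩]
      simp [a, b]
    · rcases c1 (src e) with d | d <;> simp [a, b, d, abs_of_nonneg this]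
    · rcases c1 (tgt e) with d | d <;> simp [a, b, d, abs_of_nonneg this]
    · simp [a, b]
  rw [abs_mul, abs_of_nonneg hn] at h3
  have h4 : 1 ≤ |∑ v ∈ X, χ v| := Int.one_le_abs fun q => by
    rw [q] at h1
    exact absurd h1 (by decide)
  nlinarith

/-- it is enough to look at the cuts with a cycle on both sides -/
theorem tut_cyc (src tgt : E → V) (hc : ∀ v, degIn src tgt univ v = 3) (x : E → ℤ) (n : ℤ)
    (hn : 0 < n) (hx : ∀ e, 0 ≤ x e) (hv : ∀ v, vs src tgt x v = n)
    (hcyc : ∀ X : Finset V, Odd #X → HasCycleIn src tgt X → HasCycleIn src tgt Xᶜ →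
      n ≤ ∑ e with Cr src tgt X e, x e) :
    ∃ M : Finset E, (∀ v, degIn src tgt M v = 1) ∧ ∀ e ∈ M, x e ≠ 0 := by
  refine tut src tgt x n hn hx (fun v => (hv v).le) fun X ho => ?_
  have key : ∀ Y : Finset V, Odd #Y → ¬ HasCycleIn src tgt Y → n ≤ ∑ e with Cr src tgt Y e, x e :=
    fun Y a b => forest_odd src tgt hc Y
      (fun Z hZ hne => sparse src tgt hc Z hne fun q => b (q.mono hZ)) x n hn.le hx hv a
  by_cases a : HasCycleIn src tgt X
  · by_cases b : HasCycleIn src tgt Xᶜ
    · exact hcyc X ho a b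
    · have h1 := hand hc (univ : Finset V)
      have h2 : ct src tgt univ (univ : Finset V) = 0 := by simp [ct]
      have h3 := card_add_card_compl X
      rw [card_univ] at h1
      obtain ⟨r, hr⟩ := ho
      refine (key Xᶜ (Nat.odd_iff.2 (by omega)) b).trans (le_of_eq ?_)
      exact sum_congr (filter_congr fun e _ => by simp only [Cr, mem_compl]; tauto) fun _ _ => rfl
  · exact key X ho a

end Pool.Agent.P.MP_e59a69_co
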