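import Pool.Agent.P.MP_e59a69_co.QGrow
import Pool.Agent.P.MP_e59a69_co.QOne
import Pool.Agent.P.MP_e59a69_co.QFar
import Pool.Agent.P.MP_e59a69_co.QThree
import Pool.Agent.P.MP_e59a69_co.QStep
import Pool.Agent.P.MP_e59a69_co.QTutte

/-! A perfect matching that contains an edge of each of many disjoint long paths. -/

open Finset

set_option linter.unusedSectionVars false

namespace Pool.Agent.P.MP_e59a69_co

variable {V E ι : Type} [Fintype V] [Fintype E] [DecidableEq V] [DecidableEq E] [Fintype ι]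
  [DecidableEq ι]
variable {src tgt : E → V} {k h : ℕ}

theorem QH.windows0 (H : QH src tgt k) (p : ι → ℕ → V) (pe lg : ι → ℕ → E) (o : ι → ℕ → V)
    (hp : ∀ i, ∀ s ≤ 54, ∀ t ≤ 54, p i s = p i t → s = t)
    (he : ∀ i, ∀ t < 54, Ends src tgt (pe i t) (p i t) (p i (t + 1)))
    {W J : ι → Finset V} {hub : ι → E → Finset V} (hm : ∀ i, ∀ s ≤ 54, p i s ∈ W i)
    (hl : ∀ i, ∀ a < 27, Ends src tgt (lg i a) (p i (2 * a + 1)) (o i a) ∧
      o i a ∉ W i ∧ ∀ f, src f = p i (2 * a + 1) ∨ tgt f = p i (2 * a + 1) →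
        f = pe i (2 * a) ∨ f = pe i (2 * a + 1) ∨ f = lg i a)
    (F : Fam src tgt k h W J hub) (h4 : 4 ≤ h)
    (hcl : ∀ X : Finset V, HasCycleIn src tgt X → HasCycleIn src tgt Xᶜ →
      9 ≤ #{e | Cr src tgt X e ∧ ∀ i, ¬ Ins src tgt (J i) e}) :
    ∃ M : Finset E, (∀ v, degIn src tgt M v = 1) ∧ ∀ i, ∃ t < 54, pe i t ∈ M := by
  have p1 : ∀ i, ∀ t < 54, Ins src tgt (W i) (pe i t) := fun i t q => by
    rcases he i t q with ⟨y, z⟩ | ⟨y, z⟩
    exacts [⟨y ▸ hm _ _ (by omega), z ▸ hm _ _ (by omega)⟩,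
      ⟨y ▸ hm _ _ (by omega), z ▸ hm _ _ (by omega)⟩]
  have l1 : ∀ i, ∀ a < 27, Cr src tgt (W i) (lg i a) := fun i a q => by
    obtain ⟨x, y, -⟩ := hl i a q
    have z := hm i (2 * a + 1) (by omega)
    rcases x with ⟨u, w⟩ | ⟨u, w⟩ <;> simp only [Cr, u, w] <;> tauto
  have l2 : ∀ i, ∀ a < 27, Ins src tgt (J i) (lg i a) := fun i a q =>
    F.ins (by have := l1 i a q; tauto)
  have l3 : ∀ i, ∀ a < 27, o i a ∈ hub i (lg i a) := fun i a q => by
    obtain ⟨x, y, -⟩ := hl i a q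
    rcases F.ends (l1 i a q) with ⟨u, w⟩ | ⟨u, w⟩ <;> rcases x with ⟨r, s⟩ | ⟨r, s⟩
    exacts [s ▸ w, absurd (r ▸ u) y, absurd (s ▸ w) y, r ▸ u]
  have Th : Thr src tgt p pe lg o := by
    refine ⟨he, fun i a q => (hl i a q).1, fun i j t q u r s => ?_, fun i j a q b r s => ?_,
      fun i j t q a r s => ?_⟩
    · obtain rfl := F.uniq (F.IJ i (p1 i t q).1) (s ▸ F.IJ j (p1 j u r).1)
      exact ⟨rfl, path_inj (hp i) (he i) q r s⟩
    · obtain rfl := F.uniq (l2 i a q).1 (s ▸ (l2 j b r).1)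
      obtain ⟨x, y, -⟩ := hl i a q
      obtain ⟨z, w, -⟩ := hl i b r
      have c := hm i (2 * b + 1) (by omega)
      have d : p i (2 * a + 1) = p i (2 * b + 1) := by
        rw [s] at x
        rcases x with ⟨x1, x2⟩ | ⟨x1, x2⟩ <;> rcases z with ⟨z1, z2⟩ | ⟨z1, z2⟩
        exacts [x1.symm.trans z1, absurd (x2.symm.trans z2 ▸ c) y, absurd (x1.symm.trans z1 ▸ c) y,
          x2.symm.trans z2]
      have := hp i _ (by omega) _ (by omega) d
      exact ⟨rfl, by omega⟩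
    · obtain rfl := F.uniq (F.IJ i (p1 i t q).1) (s ▸ (l2 j a r).1)
      exact l1 i a r (s ▸ iff_of_true (p1 i t q).1 (p1 i t q).2)
  obtain ⟨Hs, s1, s2, s3⟩ := H.three_conn F h4 hcl
  obtain ⟨x, x1, x2, x3, x4⟩ := Th.three H.cub s2
    (fun i a q => mem_filter.2 ⟨mem_univ _, i, _, l3 i a q⟩)
    (fun s i t q r => (s1 s _ r i).1 (p1 i t q).1)
    fun s i a q r => l1 i a q (iff_of_false (s1 s _ r i).1 (s1 s _ r i).2)
  obtain ⟨M, m1, m2⟩ := tut_cyc src tgt H.cub x 9 (by norm_num) x1 x2 fun X _ a b => by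
    have c : (9 : ℤ) ≤ #{e | Cr src tgt X e ∧ ∀ i, ¬ Ins src tgt (J i) e} := by
      exact_mod_cast hcl X a b
    rw [card_eq_sum_ones, Nat.cast_sum] at c
    refine c.trans ((sum_le_sum fun e q => ?_).trans (sum_le_sum_of_subset_of_nonneg
      (fun e q => mem_filter.2 ⟨mem_univ _, (mem_filter.1 q).2.1⟩) fun e _ _ => x1 e))
    have r := (mem_filter.1 q).2.2
    exact x3 e (s3 e r) (fun i t u w => r i (w ▸ ⟨F.IJ i (p1 i t u).1, F.IJ i (p1 i t u).2⟩))
      fun i a u w => r i (w ▸ l2 i a u)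
  refine ⟨M, m1, fun i => ?_⟩
  obtain ⟨a, a1, a2⟩ := x4 i
  obtain ⟨f, f1, f2⟩ : ∃ f ∈ M, src f = p i (2 * a + 1) ∨ tgt f = p i (2 * a + 1) := by
    have := m1 (p i (2 * a + 1))
    unfold degIn at this
    by_cases q : 0 < #{e ∈ M | src e = p i (2 * a + 1)}
    · obtain ⟨f, r⟩ := card_pos.1 q
      exact ⟨f, (mem_filter.1 r).1, Or.inl (mem_filter.1 r).2⟩
    · obtain ⟨f, r⟩ := card_pos.1 (show 0 < #{e ∈ M | tgt e = p i (2 * a + 1)} by omega)
      exact ⟨f, (mem_filter.1 r).1, Or.inr (mem_filter.1 r).2⟩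
  rcases (hl i a a1).2.2 f f2 with q | q | q
  · exact ⟨_, by omega, q ▸ f1⟩
  · exact ⟨_, by omega, q ▸ f1⟩
  · exact absurd a2 (q ▸ m2 f f1)

theorem QH.windows (H : QH src tgt k) (hk : 55 < k) (p : ι → ℕ → V) (pe : ι → ℕ → E)
    (hp : ∀ i, ∀ s ≤ 54, ∀ t ≤ 54, p i s = p i t → s = t)
    (he : ∀ i, ∀ t < 54, Ends src tgt (pe i t) (p i t) (p i (t + 1)))
    {J : ι → Finset V} {hub : ι → E → Finset V}
    (F : Fam src tgt k h (fun i => image (p i) (range 55)) J hub) (h4 : 4 ≤ h)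
    (hcl : ∀ X : Finset V, HasCycleIn src tgt X → HasCycleIn src tgt Xᶜ →
      9 ≤ #{e | Cr src tgt X e ∧ ∀ i, ¬ Ins src tgt (J i) e}) :
    ∃ M : Finset E, (∀ v, degIn src tgt M v = 1) ∧ ∀ i, ∃ t < 54, pe i t ∈ M := by
  have hl : ∀ i a, ∃ (g : E) (o : V), a < 27 → Ends src tgt g (p i (2 * a + 1)) o ∧
      o ∉ image (p i) (range 55) ∧ ∀ f, src f = p i (2 * a + 1) ∨ tgt f = p i (2 * a + 1) →
        f = pe i (2 * a) ∨ f = pe i (2 * a + 1) ∨ f = g := fun i a => by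
    by_cases q : a < 27
    · obtain ⟨g, o, r⟩ := H.leg (p i) (pe i) 54 hk (hp i) (he i) (2 * a) (by omega)
      exact ⟨g, o, fun _ => r⟩
    · exact ⟨pe i 0, p i 0, fun r => absurd r q⟩
  choose lg o hl using hl
  exact H.windows0 p pe lg o hp he
    (fun i s a => mem_image_of_mem _ (mem_range.2 (by omega))) hl F h4 hcl

theorem pmt_core {m : ℕ → ℕ} (hm : Sz m) (h0 : m 0 = 55) {N : ℕ} (hN : 4 * (m 10 * 4 ^ m 10) ≤ N)
    (H : QH src tgt k) (hk : m 10 < k) (p : ι → ℕ → V) (pe : ι → ℕ → E)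
    (hp : ∀ i j, ∀ s < 10 * N + 55, ∀ t < 10 * N + 55, p i s = p j t → i = j ∧ s = t)
    (he : ∀ i t, t + 1 < 10 * N + 55 → Ends src tgt (pe i t) (p i t) (p i (t + 1))) :
    ∃ M : Finset E, (∀ v, degIn src tgt M v = 1) ∧
      ∀ i, ∃ t, t + 1 < 10 * N + 55 ∧ pe i t ∈ M := by
  have h55 : 55 ≤ m 10 := h0 ▸ hm.mono (Nat.zero_le 10)
  have hw : ∀ i b, ∃ (I : ℕ → Finset V) (hub : ℕ → E → Finset V), b < 10 * N →
      Tower src tgt m I hub ∧ I 0 = image (fun t => p i (b + t)) (range 55) := fun i b => by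
    by_cases q : b < 10 * N
    · obtain ⟨I, hub, r⟩ := H.exists_tower hm hk (H.path_tight (fun t => p i (b + t))
        (fun t => pe i (b + t)) 54 (fun s x t y z => by
          have := (hp i i _ (by omega) _ (by omega) z).2
          omega) fun t x => he i (b + t) (by omega))
        (card_image_le.trans (by rw [h0, card_range]))
      exact ⟨I, hub, fun _ => r⟩
    · exact ⟨fun _ => ∅, fun _ _ => ∅, fun r => absurd r q⟩
  choose I hub hI using hw
  have hB : ∀ v, ∃ B : Finset V, ∀ i, ∀ b < 10 * N, p i b = v → B = I i b 10 := fun v => by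
    by_cases q : ∃ i, ∃ b < 10 * N, p i b = v
    · obtain ⟨i, b, q, r⟩ := q
      refine ⟨I i b 10, fun j c x y => ?_⟩
      obtain ⟨rfl, rfl⟩ := hp i j b (by omega) c (by omega) (r.trans y.symm)
      rfl
    · exact ⟨∅, fun i b x y => absurd ⟨i, b, x, y⟩ q⟩
  choose B hB using hB
  have hr : ∀ (a : Fin 10) b, b ∈ Ico (a * N) (a * N + N) → b < 10 * N := fun a b q => by
    have := (mem_Ico.1 q).2
    have := Nat.mul_le_mul_right N (show (a : ℕ) + 1 ≤ 10 from a.2)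
    rw [add_mul] at this
    omega
  obtain ⟨s, s1, s2⟩ := H.far (M := m 10) (by omega) hk
    (fun c : ι × Fin 10 => image (p c.1) (Ico (c.2 * N) (c.2 * N + N)))
    (fun c d q => disjoint_left.2 fun v x y => by
      obtain ⟨b, b1, b2⟩ := mem_image.1 x
      obtain ⟨e, e1, e2⟩ := mem_image.1 y
      have u := hr _ _ b1
      have w := hr _ _ e1
      obtain ⟨r, rfl⟩ := hp _ _ b (by omega) e (by omega) (b2.trans e2.symm)
      rw [mem_Ico] at b1 e1
      refine q (Prod.ext r (Fin.ext (le_antisymm ?_ ?_))) <;> refine Nat.le_of_lt_succ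
        (Nat.lt_of_mul_lt_mul_right (a := N) ?_) <;> rw [Nat.succ_mul] <;> omega)
    (fun c => by
      rw [card_image_of_injOn fun b x e y z => (hp _ _ b (by have := hr _ _ x; omega) e
        (by have := hr _ _ y; omega) z).2, Nat.card_Ico]
      omega) B
    (fun c v x => by
      obtain ⟨b, b1, rfl⟩ := mem_image.1 x
      obtain ⟨T, e⟩ := hI c.1 b (hr _ _ b1)
      rw [hB _ c.1 b (hr _ _ b1) rfl]
      exact ⟨T.sub (Nat.zero_le _) le_rfl (e ▸ mem_image.2 ⟨0, by simp, rfl⟩),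
        T.tight _ le_rfl, T.card _ le_rfl⟩)
  choose b b1 b2 using fun c => mem_image.1 (s1 c)
  have b3 : ∀ c, b c < 10 * N := fun c => hr _ _ (b1 c)
  have hd : ∀ c d, c ≠ d → Disjoint (I c.1 (b c) 10) (I d.1 (b d) 10) := fun c d q => by
    rw [← hB _ c.1 _ (b3 c) (b2 c), ← hB _ d.1 _ (b3 d) (b2 d)]
    exact s2 c d q
  obtain ⟨sel, hsel⟩ := H.cl hm hk (fun c => (hI c.1 (b c) (b3 c)).1) hd
  have F := Tower.fam hm hk (fun i => (hI i (b (i, sel i)) (b3 _)).1)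
    (fun i j q => hd (i, sel i) (j, sel j) fun r => q (congrArg Prod.fst r)) (j := 0) (by norm_num)
  rw [funext fun i => (hI i (b (i, sel i)) (b3 _)).2] at F
  obtain ⟨M, m1, m2⟩ := H.windows (by omega) (fun i t => p i (b (i, sel i) + t))
    (fun i t => pe i (b (i, sel i) + t))
    (fun i s x t y z => by
      have := b3 (i, sel i)
      have := (hp i i _ (by omega) _ (by omega) z).2
      omega)
    (fun i t x => he i _ (by have := b3 (i, sel i); omega)) F (by unfold hf; omega) hsel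
  refine ⟨M, m1, fun i => ?_⟩
  obtain ⟨t, t1, t2⟩ := m2 i
  exact ⟨_, by have := b3 (i, sel i); omega, t2⟩

/-- a perfect matching with an edge on each of a family of disjoint long paths -/
theorem pmt : ∃ L k : ℕ, 2 ≤ L ∧ ∀ (V E ι : Type) [Fintype V] [Fintype E] [DecidableEq V]
    [DecidableEq E] [Fintype ι] (src tgt : E → V), QH src tgt k →
    ∀ (p : ι → ℕ → V) (pe : ι → ℕ → E),
    (∀ i j, ∀ s < L, ∀ t < L, p i s = p j t → i = j ∧ s = t) →
    (∀ i t, t + 1 < L → Ends src tgt (pe i t) (p i t) (p i (t + 1))) →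
    ∃ M : Finset E, (∀ v, degIn src tgt M v = 1) ∧ ∀ i, ∃ t, t + 1 < L ∧ pe i t ∈ M := by
  obtain ⟨m, hm, h0⟩ : ∃ m : ℕ → ℕ, Sz m ∧ m 0 = 55 :=
    ⟨fun j => Nat.rec 55 (fun _ x => x + (x + 2) * hf x) j, fun _ => le_rfl, rfl⟩
  refine ⟨10 * (4 * (m 10 * 4 ^ m 10)) + 55, m 10 + 1, by omega, fun V E ι _ _ _ _ _ src tgt H => ?_⟩
  classical
  exact pmt_core hm h0 le_rfl H (Nat.lt_succ_self _)

end Pool.Agent.P.MP_e59a69_co
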