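import Pool.Agent.P.MP_e59a69_co.KDefs
import Pool.Agent.P.MP_e59a69_co.QMain

/-! A perfect matching that meets given disjoint long paths. -/

open Finset Function

namespace Pool.Agent.P.MP_e59a69_co

theorem ktut {V E : Type} [Fintype V] [Fintype E] [DecidableEq V] [DecidableEq E]
    (s t : E → V) (x : E → ℕ) (n0 : ℕ) (hn : 0 < n0) (_hloop : ∀ e, s e ≠ t e)
    (hx : ∀ v, ∑ e with s e = v, x e + ∑ e with t e = v, x e = n0)
    (hodd : ∀ X : Finset V, Odd #X → n0 ≤ ∑ e with ¬ (s e ∈ X ↔ t e ∈ X), x e) :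
    ∃ M : Finset E, (∀ e ∈ M, 0 < x e) ∧ ∀ v, degIn s t M v = 1 := by
  obtain ⟨M, h1, h2⟩ := tut s t (fun e => x e) n0 (by exact_mod_cast hn)
    (fun e => Int.natCast_nonneg _)
    (fun v => by
      unfold vs
      rw [sum_add_distrib, ← sum_filter, ← sum_filter]
      exact_mod_cast (hx v).le)
    fun X hX => by exact_mod_cast hodd X hX
  exact ⟨M, fun e he => Nat.pos_of_ne_zero fun q => h2 e he (by simp [q]), h1⟩

theorem kpmt : ∃ L k : ℕ, ∀ (V E : Type) [Fintype V] [Fintype E] [DecidableEq V]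
    [DecidableEq E] (s t : E → V), (∀ v, degIn s t univ v = 3) →
    (∀ X : Finset V, HasCycleIn s t X → k ≤ #X) →
    (∀ X : Finset V, HasCycleIn s t X → HasCycleIn s t Xᶜ → k ≤ #{e | ¬ (s e ∈ X ↔ t e ∈ X)}) →
    ∀ (n : ℕ) (p : Fin n → ℕ → V) (pe : Fin n → ℕ → E),
      (∀ i a j b, a < L → b < L → p i a = p j b → i = j ∧ a = b) →
      (∀ i a, a + 1 < L → Jn s t (pe i a) (p i a) (p i (a + 1))) →
      ∃ M : Finset E, (∀ v, degIn s t M v = 1) ∧ ∀ i, ∃ a, a + 1 < L ∧ pe i a ∈ M := by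
  obtain ⟨L, k, -, h⟩ := pmt
  exact ⟨L, k, fun V E _ _ _ _ s t h1 h2 h3 n p pe h4 h5 => h V E (Fin n) s t ⟨h1, h2, h3⟩ p pe
    (fun i j a ha b hb => h4 i a j b ha hb) fun i a ha => (h5 i a ha).imp_right And.symm⟩

end Pool.Agent.P.MP_e59a69_co
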