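import Pool.Agent.P.MP_e59a69_co.KDefs

/-! The permutation model of a loopless cubic graph with a 2-factor. -/

open Finset Function

namespace Pool.Agent.P.MP_e59a69_co

/-- the gradient -/
def grad {V E : Type} (src tgt : E → V) : (V → ℝ) →ₗ[ℝ] E → ℝ := LinearMap.pi fun e =>
  (LinearMap.proj (src e) : (V → ℝ) →ₗ[ℝ] ℝ) - (LinearMap.proj (tgt e) : (V → ℝ) →ₗ[ℝ] ℝ)

theorem perm_model {V E : Type} [Fintype V] [Fintype E] [DecidableEq V] [DecidableEq E]
    (src tgt : E → V) (hcubic : ∀ v, degIn src tgt univ v = 3) (hloop : ∀ e, src e ≠ tgt e)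
    (F : Finset E) (hF : ∀ v, degIn src tgt F v = 2) :
    ∃ π μ : Equiv.Perm V, (∀ v, μ (μ v) = v) ∧ (∀ v, μ v ≠ v) ∧
      (∀ X, ct src tgt univ X = fc π X + mc μ X) ∧
      (∀ v l, ∃ e, Jn src tgt e v (Lt π μ l v)) ∧ (∀ e ∈ F, π.SameCycle (src e) (tgt e)) ∧
      IsGrad π μ (grad src tgt) ∧
      ∀ σ : V → ℤ, (∀ v, σ v = 1 ∨ σ v = -1) → (∀ v, σ (μ v) = - σ v) →
        (∀ X : Finset V, 5 * ∑ v ∈ X, σ v ≤ (mc μ X + 6 * fc π X : ℕ)) →
        ∃ φ₂ φ₄ : E → ℤ, IsKFlow src tgt 2 φ₂ ∧ IsKFlow src tgt 4 φ₄ ∧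
          (∀ e, φ₂ e = 0 → 2 ≤ |φ₄ e|) ∧ ∀ e, φ₂ e ≠ 0 ↔ e ∈ F := by
  classical
  have hF' : ∀ v, dg src tgt F v = 2 := hF
  have hM : ∀ v, dg src tgt Fᶜ v = 1 := fun v => by
    have h1 := dg_compl src tgt F v
    have h2 : dg src tgt univ v = 3 := hcubic v
    have h3 := hF' v
    omega
  obtain ⟨π, out, o1, o2, o3, o4⟩ := exists_succ src tgt F hF'
  obtain ⟨μ, mt, m1, m2, m3, m4, m5⟩ := exists_mate src tgt Fᶜ hM
  have hf : ∀ X : Finset V, #{e ∈ F | ¬ (src e ∈ X ↔ tgt e ∈ X)} = fc π X := fun X => by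
    symm
    refine card_bij (fun v _ => out v) (fun v hv => ?_) (fun u _ v _ e => o2 e) (fun e he => ?_)
    · have := (mem_filter.1 hv).2
      refine mem_filter.2 ⟨o1 v, ?_⟩
      rcases o4 v with ⟨a, b⟩ | ⟨a, b⟩ <;> rw [a, b]
      · exact this
      · exact fun e => this e.symm
    · obtain ⟨v, rfl⟩ := o3 e (mem_filter.1 he).1
      have := (mem_filter.1 he).2
      refine ⟨v, mem_filter.2 ⟨mem_univ _, ?_⟩, rfl⟩
      rcases o4 v with ⟨a, b⟩ | ⟨a, b⟩ <;> rw [a, b] at this
      · exact this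
      · exact fun e => this e.symm
  have hm : ∀ X : Finset V, #{e ∈ Fᶜ | ¬ (src e ∈ X ↔ tgt e ∈ X)} = mc μ X := fun X => by
    symm
    refine card_bij (fun v _ => mt v) (fun v hv => ?_) (fun u hu v hv e => ?_) (fun e he => ?_)
    · have := mem_filter.1 hv
      refine mem_filter.2 ⟨m3 v, ?_⟩
      rcases m5 v with ⟨a, b⟩ | ⟨a, b⟩ <;> rw [a, b]
      · exact fun e => this.2 (e.1 this.1)
      · exact fun e => this.2 (e.2 this.1)
    · have hu' := mem_filter.1 hu
      have hv' := mem_filter.1 hv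
      rcases m5 u with ⟨a, b⟩ | ⟨a, b⟩ <;> rcases m5 v with ⟨a', b'⟩ | ⟨a', b'⟩ <;>
        rw [e] at a b
      · rw [← a, a']
      · exact absurd (by rw [← b', a]; exact hu'.1) hv'.2
      · exact absurd (by rw [← b', a]; exact hu'.1) hv'.2
      · rw [← a, a']
    · obtain ⟨h1, h2⟩ := mem_filter.1 he
      obtain ⟨a, b, d⟩ := m4 e h1
      by_cases hs : src e ∈ X
      · exact ⟨src e, mem_filter.2 ⟨hs, by rw [d]; exact fun h => h2 (iff_of_true hs h)⟩, a⟩
      · exact ⟨tgt e, mem_filter.2 ⟨by_contra fun h => h2 (iff_of_false hs h),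
          by rw [← d, m1]; exact hs⟩, b⟩
  have hd : ∀ X : Finset V, #{e | ¬ (src e ∈ X ↔ tgt e ∈ X)} = fc π X + mc μ X := fun X => by
    rw [← hf, ← hm, ← card_union_of_disjoint, ← filter_union, union_compl]
    exact Finset.disjoint_left.2 fun e h1 h2 => mem_compl.1 (mem_filter.1 h2).1 (mem_filter.1 h1).1
  have hne : ∀ v, π v ≠ v := fun v h => by
    rcases o4 v with ⟨a, b⟩ | ⟨a, b⟩
    · exact hloop _ (a.trans (b.trans h).symm)
    · exact hloop _ ((b.trans h).trans a.symm)
  let ed : V → Fin 3 → E := fun v => ![out v, out (π.symm v), mt v]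
  have hed : ∀ v l, (src (ed v l) = v ∧ tgt (ed v l) = Lt π μ l v) ∨
      (tgt (ed v l) = v ∧ src (ed v l) = Lt π μ l v) := by
    intro v l
    fin_cases l
    · exact o4 v
    · have := o4 (π.symm v)
      rw [Equiv.apply_symm_apply] at this
      exact this.symm.imp And.symm And.symm
    · exact m5 v
  have hloc : ∀ v (φ : E → ℝ), ∑ e with src e = v, φ e + ∑ e with tgt e = v, φ e =
      ∑ l, φ (ed v l) := by
    intro v φ
    have d1 : Disjoint ({e | src e = v} : Finset E) ({e | tgt e = v} : Finset E) :=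
      Finset.disjoint_left.2 fun e h1 h2 =>
        hloop e ((mem_filter.1 h1).2.trans (mem_filter.1 h2).2.symm)
    have d2 : Injective (ed v) := by
      have n1 : out v ≠ out (π.symm v) := fun e =>
        hne v (by have := o2 e; rw [Equiv.eq_symm_apply] at this; exact this)
      have n2 : ∀ u, out u ≠ mt v := fun u e => mem_compl.1 (m3 v) (e ▸ o1 u)
      intro l l' e
      fin_cases l <;> fin_cases l' <;>
        simp only [ed, Fin.zero_eta, Fin.mk_one, Fin.reduceFinMk, Matrix.cons_val] at e ⊢ <;>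
        first | rfl | exact absurd e n1 | exact absurd e.symm n1 | exact absurd e (n2 _)
              | exact absurd e.symm (n2 _)
    have d3 : univ.image (ed v) =
        ({e | src e = v} : Finset E) ∪ ({e | tgt e = v} : Finset E) := by
      refine eq_of_subset_of_card_le (fun e he => ?_) ?_
      · obtain ⟨l, -, rfl⟩ := mem_image.1 he
        rcases hed v l with h | h
        · exact mem_union_left _ (mem_filter.2 ⟨mem_univ _, h.1⟩)
        · exact mem_union_right _ (mem_filter.2 ⟨mem_univ _, h.1⟩)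
      · rw [card_image_of_injective _ d2, card_union_of_disjoint d1]
        exact (hcubic v).le
    rw [← Finset.sum_union d1, ← d3, Finset.sum_image fun a _ b _ h => d2 h]
  let G := grad src tgt
  have hG : ∀ y e, G y e = y (src e) - y (tgt e) := fun y e => rfl
  have hgrad : IsGrad π μ G := by
    intro y y'
    have a : ∀ v, Lap π μ y' v = ∑ e with src e = v, (y' (src e) - y' (tgt e)) +
        ∑ e with tgt e = v, (y' (tgt e) - y' (src e)) := fun v => by
      have := hloc v fun e => 2 * y' v - y' (src e) - y' (tgt e)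
      rw [Finset.sum_congr rfl (g := fun e => y' (src e) - y' (tgt e)) fun e he => by
          rw [(mem_filter.1 he).2]; ring,
        Finset.sum_congr (s₂ := univ.filter fun e => tgt e = v) rfl (g := fun e => y' (tgt e) - y' (src e))
          fun e he => by rw [(mem_filter.1 he).2]; ring] at this
      rw [this]
      refine Finset.sum_congr rfl fun l _ => ?_
      rcases hed v l with ⟨p, q⟩ | ⟨p, q⟩ <;> rw [p, q] <;> ring
    have b : ∀ (g : E → V) (φ : E → ℝ), ∑ v, y v * ∑ x with g x = v, φ x = ∑ x, y (g x) * φ x :=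
      fun g φ => by
        rw [← Finset.sum_fiberwise univ g]
        refine Finset.sum_congr rfl fun v _ => ?_
        rw [Finset.mul_sum]
        exact Finset.sum_congr rfl fun x hx => by rw [(mem_filter.1 hx).2]
    simp only [a, mul_add, Finset.sum_add_distrib, b, hG]
    rw [← Finset.sum_add_distrib]
    exact Finset.sum_congr rfl fun e _ => by ring
  refine ⟨π, μ, m1, m2, hd, fun v l => ⟨_, hed v l⟩, fun e he => ?_, hgrad, fun σ s1 s2 s3 => ?_⟩
  · obtain ⟨v, rfl⟩ := o3 e he
    have q : π.SameCycle v (π v) := ⟨1, by simp⟩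
    rcases o4 v with ⟨a, b⟩ | ⟨a, b⟩ <;> rw [a, b]
    · exact q
    · exact q.symm
  obtain ⟨φ₂, a1, a0, ab⟩ := exists_orientation src tgt F
  let l : E → ℤ := fun e => if e ∈ F then -3 else if σ (tgt e) = 1 then 2 else -3
  let u : E → ℤ := fun e => if e ∈ F then 3 else if σ (tgt e) = 1 then 3 else -2
  have hσ : ∀ e, e ∉ F → σ (src e) = - σ (tgt e) := fun e he => by
    rw [← (m4 e (mem_compl.2 he)).2.2, s2, neg_neg]
  obtain ⟨φ₄, b1, b2⟩ := hoffman' src tgt (fun _ => 0) (by simp) l u
    (fun e => by simp only [l, u]; split_ifs <;> omega) (fun X => by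
      simp only [Finset.sum_const_zero]
      have e1 : ∑ v ∈ X, σ v = ∑ e, if e ∈ F then 0 else
          ((if src e ∈ X then σ (src e) else 0) + (if tgt e ∈ X then σ (tgt e) else 0)) := by
        have q : ∀ v, σ v = ∑ e, ((if src e = v then (if e ∈ Fᶜ then σ v else 0) else 0) +
            (if tgt e = v then (if e ∈ Fᶜ then σ v else 0) else 0)) := fun v => by
          have := dg_eq src tgt Fᶜ v
          rw [hM] at this
          rw [← mul_one (σ v)]
          nth_rewrite 1 [show (1 : ℤ) = ((1 : ℕ) : ℤ) from rfl, this]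
          rw [Finset.mul_sum]
          refine Finset.sum_congr rfl fun e _ => ?_
          split_ifs <;> ring
        rw [Finset.sum_congr rfl fun v _ => q v, Finset.sum_comm]
        refine Finset.sum_congr rfl fun e _ => ?_
        rw [Finset.sum_add_distrib, Finset.sum_ite_eq, Finset.sum_ite_eq]
        by_cases he : e ∈ F <;> simp [he]
      have e2 : 2 * capOut src tgt l u X + 5 * ∑ v ∈ X, σ v =
          (#{e ∈ Fᶜ | ¬ (src e ∈ X ↔ tgt e ∈ X)} : ℤ) +
            6 * #{e ∈ F | ¬ (src e ∈ X ↔ tgt e ∈ X)} := by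
        rw [e1, card_filter, card_filter]
        push_cast
        rw [← Finset.sum_ite_mem_eq F, ← Finset.sum_ite_mem_eq Fᶜ]
        unfold capOut
        rw [Finset.mul_sum, Finset.mul_sum, Finset.mul_sum, ← Finset.sum_add_distrib,
          ← Finset.sum_add_distrib]
        refine Finset.sum_congr rfl fun e _ => ?_
        by_cases c3 : e ∈ F
        · by_cases c1 : src e ∈ X <;> by_cases c2 : tgt e ∈ X <;> simp [l, u, c1, c2, c3]
        · have q1 := hσ e c3
          rcases s1 (tgt e) with c4 | c4 <;> by_cases c1 : src e ∈ X <;>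
            by_cases c2 : tgt e ∈ X <;> simp [l, u, c1, c2, c3, c4, q1]
      rw [hf, hm] at e2
      have e3 := s3 X
      push_cast at e3
      omega)
  have hs : ∀ e, φ₂ e ≠ 0 ↔ e ∈ F := fun e => by
    by_cases he : e ∈ F
    · have := a1 e he
      simp only [he, iff_true]; omega
    · simp [he, a0 e he]
  refine ⟨φ₂, φ₄, kflow_of_bdry _ _ _ _ (fun e => ?_) fun v => (ab v).2 (by rw [hF' v]; decide),
    kflow_of_bdry _ _ _ _ (fun e => ?_) b2, fun e he => ?_, hs⟩
  · by_cases he : e ∈ F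
    · rcases a1 e he with h | h <;> simp [h]
    · simp [a0 e he]
  · have := b1 e
    simp only [l, u] at this
    rw [abs_le]
    split_ifs at this <;> omega
  · have he' : e ∉ F := fun h => (hs e).2 h he
    have := b1 e
    simp only [l, u, he', if_false] at this
    rw [le_abs]
    split_ifs at this <;> omega
end Pool.Agent.P.MP_e59a69_co
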