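import Pool.Agent.P.MP_e59a69_co.KDsl
import Pool.Agent.P.MP_e59a69_co.KPeel
import Pool.Agent.P.MP_e59a69_co.KPmt
import Pool.Agent.P.MP_e59a69_co.KLv1
import Pool.Agent.P.MP_e59a69_co.Cubic
import Pool.Agent.P.MP_e59a69_co.VPerm

/-! Flow pairs at constant cyclic connectivity. -/

open Finset Function

namespace Pool.Agent.P.MP_e59a69_co

section
variable {V E : Type} [Fintype V] [Fintype E] [DecidableEq V] {s t : E → V}

omit [Fintype V] in
lemma kmain_count (h : ∀ v, degIn s t univ v = 3) (X : Finset V) :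
    2 * #{e | s e ∈ X ∧ t e ∈ X} + ct s t univ X = 3 * #X := by
  have a2 := kpeel_sum (s := s) (t := t) univ (fun _ => True) (fun _ => True) X
  simp only [and_true] at a2
  have a3 : ∑ v ∈ X, (#{e | s e = v} + #{e | t e = v}) = ∑ _v ∈ X, 3 :=
    Finset.sum_congr rfl fun v _ => h v
  have a4 : ∑ e, ((if s e ∈ X then 1 else 0) + if t e ∈ X then 1 else 0) =
      2 * #{e | s e ∈ X ∧ t e ∈ X} + ct s t univ X := by
    unfold ct
    rw [card_filter, card_filter, Finset.mul_sum, ← Finset.sum_add_distrib]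
    refine Finset.sum_congr rfl fun e _ => ?_
    by_cases a : s e ∈ X <;> by_cases b : t e ∈ X <;> simp [a, b]
  rw [a3, a4, Finset.sum_const, smul_eq_mul] at a2
  omega

omit [Fintype V] in
lemma kmain_word {π μ : Equiv.Perm V} (h : ∀ v l, ∃ e, Jn s t e v (Lt π μ l v)) {n : ℕ}
    {w : Equiv.Perm V} (hw : Wd π μ n w) (u : V) : w u ∈ kball s t univ {u} n := by
  refine Wd.induct (P := fun n w => w u ∈ kball s t univ {u} n) (mem_singleton_self _)
    (fun n w l ih => ?_) (fun n w ih => ?_) hw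
  · obtain ⟨e, he⟩ := h (w u) l
    rw [kball_succ]
    exact mem_nb.2 (Or.inr ⟨e, mem_univ _, _, ih, he⟩)
  · rw [kball_succ]
    exact mem_nb.2 (Or.inl ih)

lemma kmain_seg {π μ : Equiv.Perm V} {c c' m ρ : ℕ} (H : Cub s t c) (H' : Hyp π μ c')
    (hm : 1 ≤ m) (hc : 4 ^ ρ * m + 2 ≤ c) (hc' : m ≤ c') (x : V) (y : V → ℝ) (a β : ℝ)
    (h : ∀ i : ℕ, i < m → (a - (Pw s t)^[ρ] y ((π ^ (i + 1)) x)) ^ 2 ≤ β) :
    (seg π m x y - a) ^ 2 ≤ 2 * (14 / m * En s t y) + 2 * β := by
  have m0 : (0 : ℝ) < m := by exact_mod_cast hm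
  have inj : Set.InjOn (fun i : ℕ => (π ^ (i + 1)) x) (range m : Finset ℕ) := fun i hi j hj e => by
    rw [coe_range, Set.mem_Iio] at hi hj
    have := H'.inj x (s := ((i + 1 : ℕ) : ℤ)) (t := ((j + 1 : ℕ) : ℤ))
      (abs_lt.2 ⟨by omega, by omega⟩) (by rw [zpow_natCast, zpow_natCast]; exact e)
    omega
  have c1 : #((range m).image fun i : ℕ => (π ^ (i + 1)) x) = m := by
    rw [card_image_of_injOn inj, card_range]
  have a1 := Pw_seg H _ (card_pos.1 (by rw [c1]; omega)) ρ (by rw [c1]; exact hc) y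
  rw [c1, Finset.sum_image inj, Finset.sum_image inj] at a1
  have a2 : seg π m x y = (∑ i ∈ range m, y ((π ^ (i + 1)) x)) / m := by
    rw [seg_apply, inv_mul_eq_div]
  have a3 := sq_sum_le_card_mul_sum_sq (s := range m)
    (f := fun i => a - (Pw s t)^[ρ] y ((π ^ (i + 1)) x))
  have a4 := Finset.sum_le_sum fun i (hi : i ∈ range m) => h i (mem_range.1 hi)
  rw [Finset.sum_sub_distrib, Finset.sum_const, card_range, nsmul_eq_mul] at a3
  rw [Finset.sum_const, card_range, nsmul_eq_mul] at a4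
  rw [← a2] at a1
  generalize ∑ i ∈ range m, (Pw s t)^[ρ] y ((π ^ (i + 1)) x) = b at a1 a3
  have a5 : (a - b / m) ^ 2 ≤ β := by
    have e : a - b / m = (m * a - b) / m := by field_simp
    rw [e, div_pow, div_le_iff₀ (by positivity)]
    have := mul_le_mul_of_nonneg_left a4 m0.le
    nlinarith
  nlinarith [sq_nonneg (seg π m x y - b / m + (a - b / m))]

end

theorem const_main : ∃ k : ℕ, ∀ (V E : Type) [Fintype V] [Fintype E] [DecidableEq V]
    [DecidableEq E] (src tgt : E → V), (∀ v, degIn src tgt univ v = 3) →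
    (∀ X : Finset V, #{e | ¬ (src e ∈ X ↔ tgt e ∈ X)} ≠ 1) →
    (∀ X : Finset V, HasCycleIn src tgt X → HasCycleIn src tgt Xᶜ →
      k ≤ #{e | ¬ (src e ∈ X ↔ tgt e ∈ X)}) →
    ∃ φ₂ φ₄ : E → ℤ, IsKFlow src tgt 2 φ₂ ∧ IsKFlow src tgt 4 φ₄ ∧
      ∀ e, φ₂ e = 0 → 2 ≤ |φ₄ e| := by
  obtain ⟨ε0, e0, hlv⟩ := klv1
  obtain ⟨m, hm⟩ := exists_nat_ge (112 / (ε0 / 2) + 2)
  have hm1 : 0 < 112 / (ε0 / 2) := by positivity
  have hm2 : 2 ≤ m := by exact_mod_cast (by linarith : (2 : ℝ) ≤ m)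
  have m0 : (0 : ℝ) < m := by linarith
  have hm3 : 112 / (m : ℝ) ≤ ε0 / 2 := by
    rw [div_le_iff₀ m0, mul_comm, ← div_le_iff₀ (by linarith)]; linarith
  obtain ⟨n, c1, hlv⟩ := hlv m hm2
  obtain ⟨L, k2, hpm⟩ := kpmt
  obtain ⟨ε, c2, e1, hpe⟩ := kpeel (L + 2) (by omega)
  obtain ⟨ρ, c3, hds⟩ := kdsl ε (ε0 / 16) e1 (by linarith) (n + m)
  obtain ⟨c, hc⟩ : ∃ c, c = c1 + c2 + c3 + k2 + m + 4 ^ ρ * m + 2 := ⟨_, rfl⟩
  refine ⟨12 * c + 1, fun V E _ _ _ _ src tgt hcubic hbr hcut => ?_⟩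
  classical
  have hcount := kmain_count hcubic
  have hbr' : ∀ X, ct src tgt univ X ≠ 1 := hbr
  have hcut' : ∀ X, HasCycleIn src tgt X → HasCycleIn src tgt Xᶜ →
    12 * c + 1 ≤ ct src tgt univ X := hcut
  have hsp : ∀ X : Finset V, X.Nonempty → ¬ HasCycleIn src tgt X → #X + 2 ≤ ct src tgt univ X :=
    sparse src tgt hcubic
  have hloop : ∀ e, src e ≠ tgt e := fun e h => by
    have a1 := hcount {src e}
    have a2 : 0 < #{f | src f ∈ ({src e} : Finset V) ∧ tgt f ∈ ({src e} : Finset V)} :=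
      card_pos.2 ⟨e, mem_filter.2 ⟨mem_univ _, mem_singleton_self _, mem_singleton.2 h.symm⟩⟩
    have a3 := hbr' {src e}
    rw [card_singleton] at a1
    omega
  have hcm : ∀ M : Finset E, (∀ v, degIn src tgt M v = 1) → ∀ v, degIn src tgt Mᶜ v = 2 :=
    fun M hM v => by
      have h1 := dg_compl src tgt M v
      have h2 : dg src tgt univ v = 3 := hcubic v
      have h3 : dg src tgt M v = 1 := hM v
      change dg src tgt Mᶜ v = 2
      omega
  by_cases hbig : Fintype.card E ≤ 12 * c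
  · obtain ⟨M, -, hM⟩ := ktut src tgt (fun _ => 1) 3 (by omega) hloop
      (fun v => by rw [← card_eq_sum_ones, ← card_eq_sum_ones]; exact hcubic v) fun X hX => by
        rw [← card_eq_sum_ones]
        have a1 := hcount X
        have a2 := hbr' X
        obtain ⟨j, hj⟩ := hX
        change 3 ≤ ct src tgt univ X
        omega
    obtain ⟨φ₂, φ₄, p1, p2, p3, -⟩ := cubic_main src tgt hcubic Mᶜ (hcm M hM) fun X h1 h2 => by
      have a1 := hcut X h1 h2
      have a2 := card_le_univ ({e | ¬ (src e ∈ X ↔ tgt e ∈ X)} : Finset E)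
      omega
    exact ⟨φ₂, φ₄, p1, p2, p3⟩
  have hV : 8 * c < Fintype.card V := by
    have a1 := hcount univ
    have a2 : ct src tgt univ univ = 0 := by simp [ct]
    simp only [mem_univ, and_self, filter_true, card_univ] at a1
    omega
  have hg : ∀ X, HasCycleIn src tgt X → 2 * c ≤ #X := fun X hX => by
    by_contra hn
    have a1 := hcount X
    have a2 := card_add_card_compl X
    have a3 := hsp Xᶜ (card_pos.1 (by omega)) fun h => by have := hcut' X hX h; omega
    rw [ct_compl] at a3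
    omega
  have hfo : ∀ X, ¬ HasCycleIn src tgt X → Fo src tgt X := fun X hX Z hZ h =>
    hsp Z h fun ⟨C, q1, q2, q3⟩ => hX ⟨C, q1, fun e he => ⟨hZ (q2 e he).1, hZ (q2 e he).2⟩, q3⟩
  have HC : Cub src tgt c := ⟨hcubic, fun X h1 h2 => hsp X h1 fun h => by have := hg X h; omega,
    fun X => by
      by_cases a1 : HasCycleIn src tgt X
      · by_cases a2 : HasCycleIn src tgt Xᶜ
        · exact Or.inl (by have := hcut' X a1 a2; omega)
        · exact Or.inr (Or.inr (hfo _ a2))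
      · exact Or.inr (Or.inl (hfo _ a1))⟩
  obtain ⟨D, Bad, ⟨d0, d1⟩, d2, d3⟩ := hds V E src tgt (HC.mono (by omega))
  obtain ⟨N, p, pe, p1, p2, p3⟩ := hpe V E src tgt (HC.mono (by omega)) Bad d2
  obtain ⟨M, hM, hM'⟩ := hpm V E src tgt hcubic (fun X h => by have := hg X h; omega)
    (fun X h h' => by have := hcut X h h'; omega) N p pe
    (fun i a j b ha hb => p1 i a j b (by omega) (by omega)) fun i a ha => p2 i a (by omega)
  obtain ⟨π, μ, m1, m2, hd, hj, hs, hG, hfl⟩ := perm_model src tgt hcubic hloop Mᶜ (hcm M hM)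
  have hO : ∀ v, fc π {u | π.SameCycle v u} = 0 := fun v => by
    rw [fc, card_eq_zero, filter_eq_empty_iff]
    intro u _
    simp only [mem_filter, mem_univ, true_and, not_not, Equiv.Perm.sameCycle_apply_right]
  have H : Hyp π μ c := by
    refine ⟨m1, m2, fun v t ht htc e => ?_, by omega, fun X h1 h2 => ?_⟩
    · have a : IsPeriodicPt π t.natAbs v := by
        rw [IsPeriodicPt, IsFixedPt, ← Equiv.Perm.coe_pow, ← zpow_natCast]
        rcases Int.natAbs_eq t with h | h
        · rw [← h, e]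
        · apply (π ^ t).injective
          rw [zp_add, e, show t + (t.natAbs : ℤ) = 0 by omega]; rfl
      have b := a.minimalPeriod_le (by omega)
      let O : Finset V := {u | π.SameCycle v u}
      have d : #O ≤ minimalPeriod π v := by
        refine le_trans (card_le_card (t := (range (minimalPeriod π v)).image fun t => π^[t] v)
          fun u hu => ?_) (card_image_le.trans (card_range _).le)
        obtain ⟨t, h1, h2⟩ := exists_iter (mem_filter.1 hu).2
        exact mem_image.2 ⟨t, mem_range.2 h1, h2⟩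
      rw [Int.abs_eq_natAbs] at htc
      have a3 := hsp O ⟨v, mem_filter.2 ⟨mem_univ _, Equiv.Perm.SameCycle.refl _ _⟩⟩
        fun h => by have := hg O h; omega
      have a4 : fc π O = 0 := hO v
      have a5 : mc μ O ≤ #O := card_filter_le _ _
      rw [hd] at a3
      omega
    · rw [← hd]
      refine (HC.cut X).imp id (Or.imp (fun h => h X Subset.rfl h1) fun h => ?_)
      rw [← ct_compl]
      exact h _ Subset.rfl h2
  have H1 : Hyp π μ c1 := ⟨m1, m2, fun v t h1 h2 => H.len v t h1 (by omega), by omega,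
    fun X h1 h2 => (H.cut X h1 h2).imp_left (by omega)⟩
  let γ : (V → ℝ) →ₗ[ℝ] E ⊕ V × V → ℝ := LinearMap.pi (Sum.elim
    (fun e => LinearMap.proj e ∘ₗ grad src tgt) fun q => √(D q) •
      ((LinearMap.proj q.1 : (V → ℝ) →ₗ[ℝ] ℝ) - (LinearMap.proj q.2 : (V → ℝ) →ₗ[ℝ] ℝ)))
  have hG0 : ∀ y, ∑ k, grad src tgt y k ^ 2 = En src tgt y := fun y => rfl
  have hγ : ∀ y, ∑ k, γ y k ^ 2 = En src tgt y + ED D y := fun y => by
    rw [Fintype.sum_sum_type]
    congr 1
    refine Finset.sum_congr rfl fun q _ => ?_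
    change (√(D q) * (y q.1 - y q.2)) ^ 2 = _
    rw [mul_pow, Real.sq_sqrt (d0 q)]
  obtain ⟨σ, s1, s2, s3⟩ := hlv V _ _ π μ (grad src tgt) γ H1 hG
    (fun y => by rw [hG0, hγ]; linarith [ED_nonneg d0 y])
    (fun X => by rw [hγ, En_ind1, ← hd]; linarith [d1 X]) fun v _ => by
      obtain ⟨u, u1, u2⟩ : ∃ u, π.SameCycle v u ∧ u ∉ Bad := by
        by_contra hn
        push Not at hn
        have := p3 Mᶜ (hcm M hM) (fun i => by
            obtain ⟨a, a1, a2⟩ := hM' i
            exact ⟨a, by omega, fun h => mem_compl.1 h a2⟩) {u | π.SameCycle v u}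
          (fun u hu => hn u (mem_filter.1 hu).2) fun e he => by
            simp only [mem_filter, mem_univ, true_and]
            exact ⟨fun h => h.trans (hs e he), fun h => h.trans (hs e he).symm⟩
        exact notMem_empty v (this ▸ mem_filter.2 ⟨mem_univ _, Equiv.Perm.SameCycle.refl _ _⟩)
      refine ⟨u, u1, fun w hw y => ?_⟩
      have key : ∀ w, Wd π μ n w → (seg π m (w u) y - (Pw src tgt)^[ρ] y u) ^ 2 ≤
          2 * (14 / m * En src tgt y) + 2 * (ε0 / 16 * (En src tgt y + ED D y)) := fun w hw =>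
        kmain_seg (ρ := ρ) HC H (by omega) (by omega) (by omega) _ y _ _ fun i hi => by
          have := kmain_word hj ((wd_zpow ((i + 1 : ℕ) : ℤ)).mul hw) u
          rw [zpow_natCast] at this
          exact d3 u u2 _ (kball_mono univ Subset.rfl (by omega) this) y
      have k1 := key w hw
      have k2 := key 1 (wd_one.mono (by omega))
      rw [Equiv.Perm.one_apply] at k2
      have k3 := mul_le_mul_of_nonneg_right hm3 (En_nonneg src tgt y)
      have k4 := mul_nonneg e0.le (ED_nonneg d0 y)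
      have k5 : 112 / (m : ℝ) * En src tgt y = 8 * (14 / m * En src tgt y) := by ring
      rw [hγ]
      nlinarith [sq_nonneg (seg π m (w u) y - (Pw src tgt)^[ρ] y u +
        (seg π m u y - (Pw src tgt)^[ρ] y u))]
  obtain ⟨φ₂, φ₄, q1, q2, q3, -⟩ := hfl σ s1 s2 s3
  exact ⟨φ₂, φ₄, q1, q2, q3⟩

end Pool.Agent.P.MP_e59a69_co
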