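import Pool.Agent.P.MP_e59a69_co.KGen

/-! The star lemma. -/

open Finset Function

namespace Pool.Agent.P.MP_e59a69_co

theorem kstar (η : ℝ) (hη : 0 < η) : ∃ κ0 : ℕ, ∀ κ : ℕ, κ0 ≤ κ →
    ∀ (V E I : Type) [Fintype V] [Fintype E] [Fintype I] [DecidableEq V] (s t : E → V)
      (ed : I → Fin κ → E), Injective (fun p : I × Fin κ => ed p.1 p.2) →
      (∀ i j j', s (ed i j) = s (ed i j')) →
      (∀ X : Finset V, X.Nonempty → Xᶜ.Nonempty → κ ≤ ct s t univ X) →
      ∃ (D : V × V → ℝ) (r : I → Fin κ → ℝ), Dom s t D ∧ (∀ i j, 0 ≤ r i j) ∧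
        (∀ i j y, (y (s (ed i j)) - y (t (ed i j))) ^ 2 ≤ r i j * (En s t y + ED D y)) ∧
        ∀ i, ∑ j, r i j ≤ η * κ := by
  obtain ⟨η', h1, h2, h3⟩ : ∃ η' : ℝ, 0 < η' ∧ η' ≤ 1 ∧ η' ≤ η :=
    ⟨min η 1, lt_min hη one_pos, min_le_right _ _, min_le_left _ _⟩
  set μ0 : ℝ := (η' / (16 * 1)) ^ 2 with hμ0
  have hμ : 0 < μ0 := by positivity
  have hμ1 : μ0 ≤ 1 := pow_le_one₀ (by positivity) (by linarith)
  set R : ℝ := 2 / μ0 with hR
  have hR1 : 1 ≤ R := by rw [hR, le_div_iff₀ hμ]; linarith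
  obtain ⟨κ0, hκ0⟩ := exists_nat_ge (2 ^ 50 * R ^ 4 / (η' / 8) ^ 10 * 3 / μ0)
  refine ⟨κ0 + 1, fun κ hκ V E I _ _ _ _ s t ed hinj hs hcut => ?_⟩
  classical
  have hκp : (0 : ℝ) < κ := by exact_mod_cast (by omega : 0 < κ)
  let χ : I × Fin κ → V → ℝ := fun f x =>
    (if x = s (ed f.1 f.2) then 1 else 0) - (if x = t (ed f.1 f.2) then 1 else 0)
  have hev : ∀ f y, evl (χ f) y = y (s (ed f.1 f.2)) - y (t (ed f.1 f.2)) := fun f y => by
    simp [evl, χ, sub_mul, sum_sub_distrib]
  have habs : ∀ f x, |χ f x| ≤ (if x = s (ed f.1 f.2) then 1 else 0) +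
      (if x = t (ed f.1 f.2) then 1 else 0) := fun f x => by
    simp only [χ]
    split_ifs <;> norm_num
  let a : I → I × Fin κ → ℝ := fun i f => if f.1 = i then 1 / κ else 0
  have hmix : ∀ (lam : I → ℝ) f, mix lam a f = lam f.1 / κ := fun lam f => by
    simp [mix, a, div_eq_mul_inv]
  obtain ⟨D, r, d1, d2, d3, d4⟩ := kgen s t χ (fun f => s (ed f.1 f.2)) a 1 η' 2 R 1 κ 0 κ le_rfl
    h1 h2 (by norm_num) hR1 le_rfl hκp (by omega) (fun f => by simp [χ, sum_sub_distrib])
    (fun f => le_trans (sum_le_sum fun x _ => habs f x) (by simp [sum_add_distrib]; norm_num))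
    (fun f => le_trans (sum_le_sum (g := fun x => ((if x = s (ed f.1 f.2) then 1 else 0) +
      (if x = t (ed f.1 f.2) then 1 else 0) : ℝ)) fun x _ => by
        simp only [χ]
        split_ifs <;> norm_num) (by simp [sum_add_distrib]; norm_num))
    (fun f y => by
      rw [hev, one_mul]
      exact single_le_sum (f := fun e => (y (s e) - y (t e)) ^ 2) (fun _ _ => sq_nonneg _)
        (mem_univ (ed f.1 f.2)))
    (fun i f => by simp only [a]; split_ifs <;> positivity)
    (fun i => by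
      simp only [a, Fintype.sum_prod_type]
      rw [sum_eq_single i (fun j _ hj => by simp [hj]) (by simp)]
      simp [hκp.ne'])
    (fun X a1 a2 => le_trans (by omega) (hcut X a1 a2))
    (fun X a1 a2 => by exact_mod_cast hcut X (card_pos.1 a1) (card_pos.1 a2))
    (fun lam l l0 l1 hl hP => by
      refine ⟨univ.filter fun f => R * mix lam a f < l (s (ed f.1 f.2)) (t (ed f.1 f.2)), ?_,
        fun f hf hf0 => ?_⟩
      · have b1 : R * ∑ f with R * mix lam a f < l (s (ed f.1 f.2)) (t (ed f.1 f.2)), mix lam a f ≤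
            ∑ f : I × Fin κ, l (s (ed f.1 f.2)) (t (ed f.1 f.2)) := by
          rw [mul_sum]
          exact le_trans (sum_le_sum fun f hf => (mem_filter.1 hf).2.le)
            (sum_le_sum_of_subset_of_nonneg (subset_univ _) fun _ _ _ => hl.nonneg _ _)
        have b2 : ∑ f : I × Fin κ, l (s (ed f.1 f.2)) (t (ed f.1 f.2)) ≤ Pl s t l := by
          rw [← sum_image (s := univ) (g := fun p : I × Fin κ => ed p.1 p.2)
            (f := fun e => l (s e) (t e)) fun a _ b _ h => hinj h]
          exact sum_le_sum_of_subset_of_nonneg (subset_univ _) fun _ _ _ => hl.nonneg _ _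
        have b3 : R * μ0 = 2 := by rw [hR]; field_simp
        refine le_of_mul_le_mul_left ?_ (show 0 < R by linarith)
        rw [← hμ0]
        linarith
      · have b1 : l (s (ed f.1 f.2)) (t (ed f.1 f.2)) ≤ R * mix lam a f := by
          by_contra hc
          exact hf (mem_filter.2 ⟨mem_univ _, not_le.1 hc⟩)
        refine ⟨le_trans (sum_le_sum fun x _ =>
          mul_le_mul_of_nonneg_right (habs f x) (hl.nonneg _ _)) ?_, ?_⟩
        · simpa [add_mul, sum_add_distrib, hl.self] using b1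
        · refine le_trans ?_ (card_le_card (s := univ.image fun j : Fin κ => (f.1, j))
            fun g hg => ?_)
          · rw [card_image_of_injective _ fun a b h => (Prod.ext_iff.1 h).2]
            simp
          · obtain ⟨j, -, rfl⟩ := mem_image.1 hg
            refine mem_filter.2 ⟨mem_univ _, by simp [hmix], ?_⟩
            simp only [hs f.1 f.2 j, hl.self]
            positivity)
    (by
      have b1 : (κ0 : ℝ) ≤ κ := by exact_mod_cast (by omega : κ0 ≤ κ)
      have b2 := hκ0.trans b1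
      rw [div_le_iff₀ hμ] at b2
      have b3 : (2 * 1 / κ + 1 / κ + 2 * (0 : ℕ) * (2 * 1 + 1) : ℝ) = 3 / κ := by
        push_cast; ring
      rw [b3, ← mul_div_assoc, div_le_iff₀ hκp, ← hμ0, mul_comm μ0]
      exact b2)
  refine ⟨D, fun i j => r (i, j), d1, fun i j => d2 _, fun i j y => ?_, fun i => ?_⟩
  · have := d3 (i, j) y
    rwa [hev] at this
  · have := d4 i
    simp only [a, Fintype.sum_prod_type] at this
    rw [sum_eq_single i (fun j _ hj => by simp [hj]) (by simp)] at this
    simp only [if_true, ← mul_sum] at this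
    rw [one_div, inv_mul_le_iff₀ hκp] at this
    nlinarith

end Pool.Agent.P.MP_e59a69_co
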