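import Pool.Agent.P.MP_e59a69_co.UTop

/-! A thin order of a highly connected multigraph. -/

open Finset Function

namespace Pool.Agent.P.MP_e59a69_co

theorem ktp (ε : ℝ) (hε : 0 < ε) : ∃ k : ℕ, ∀ (N E : Type) [Fintype N] [Fintype E]
    [DecidableEq N] [DecidableEq E] (s t : E → N) (Z : Finset N), (∀ e, s e ∈ Z ∧ t e ∈ Z) →
    (∀ X, Sep Z X → k ≤ ct s t univ X) →
    ∃ l : List N, l.Nodup ∧ l.toFinset = Z ∧ ∀ X, (chg X l : ℝ) ≤ ε * ct s t univ X := by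
  obtain ⟨n, hn⟩ := exists_nat_ge (1 / ε)
  obtain ⟨k, hk⟩ := thin_order n
  refine ⟨k, fun N E _ _ _ _ s t Z h1 h2 => ?_⟩
  obtain ⟨l, l1, l2, l3⟩ := hk N E s t Z h1 h2
  refine ⟨l, l1, l2, fun X => ?_⟩
  have a1 : ((n * chg X l : ℕ) : ℝ) ≤ ct s t univ X := by exact_mod_cast l3 X
  rw [div_le_iff₀ hε] at hn
  push_cast at a1
  have a2 := mul_le_mul_of_nonneg_left a1 hε.le
  have a3 := mul_le_mul_of_nonneg_right hn (Nat.cast_nonneg (α := ℝ) (chg X l))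
  linarith

end Pool.Agent.P.MP_e59a69_co
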