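import Pool.Agent.P.MP_e59a69_co.LDefs

/-! Disjoint candidate systems. -/

open Finset Function

namespace Pool.Agent.P.MP_e59a69_co

variable {V : Type} [Fintype V] [DecidableEq V] {π μ : Equiv.Perm V} {c : ℕ}

theorem candidates (H : Hyp π μ c) (Rp : Finset V)
    (hRp : ∀ r ∈ Rp, ∀ r' ∈ Rp, π.SameCycle r r' → r = r') (L q : ℕ) (hL : 36 ≤ L) (hq : 0 < q)
    (hc : 580 * L * q ≤ c) :
    ∃ y : V → Fin q → V, (∀ r ∈ Rp, ∀ a, π.SameCycle r (y r a)) ∧
      ∀ r ∈ Rp, ∀ r' ∈ Rp, ∀ a a', (r, a) ≠ (r', a') →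
        Disjoint (Sys π μ L (y r a)) (Sys π μ L (y r' a')) := by
  classical
  have hc1 : 580 * L ≤ c := le_trans (Nat.le_mul_of_pos_right _ hq) hc
  have hne : Nonempty V := Fintype.card_pos_iff.1 (by have := H.card; omega)
  obtain ⟨n, hn⟩ : ∃ n : ℤ, n = 580 * L := ⟨_, rfl⟩
  have hn0 : 0 < n := by omega
  have hnc : n ≤ c := by omega
  have hnq : n * q ≤ c := by rw [hn]; exact_mod_cast hc
  let A : V × Fin q → Finset V := fun i => Iv π i.1 ((i.2 : ℕ) * n) (((i.2 : ℕ) + 1) * n - 1)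
  have hA : ∀ i, #(A i) = 580 * L := fun i => by
    have e : (((i.2 : ℕ) : ℤ) + 1) * n - 1 + 1 - (i.2 : ℕ) * n = n := by ring
    rw [H.card_Iv _ (by linarith), e]
    omega
  have hdis : ((Rp ×ˢ (univ : Finset (Fin q)) : Finset (V × Fin q)) : Set (V × Fin q)).PairwiseDisjoint
      A := by
    rintro ⟨r, a⟩ hi ⟨r', a'⟩ hj hne
    refine Finset.disjoint_left.2 fun v h1 h2 => hne ?_
    have e : r = r' := hRp r (mem_product.1 (mem_coe.1 hi)).1 r' (mem_product.1 (mem_coe.1 hj)).1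
      ((sameCycle_of_mem_Iv h1).trans (sameCycle_of_mem_Iv h2).symm)
    subst e
    obtain ⟨t, t1, t2, e1⟩ := mem_Iv.1 h1
    obtain ⟨t', t3, t4, e2⟩ := mem_Iv.1 h2
    simp only at t1 t2 t3 t4 e1 e2
    have b1 : (((a : ℕ) : ℤ) + 1) * n ≤ q * n :=
      mul_le_mul_of_nonneg_right (by have := a.2; omega) hn0.le
    have b2 : (((a' : ℕ) : ℤ) + 1) * n ≤ q * n :=
      mul_le_mul_of_nonneg_right (by have := a'.2; omega) hn0.le
    have b3 : 0 ≤ ((a : ℕ) : ℤ) * n := by positivity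
    have b4 : 0 ≤ ((a' : ℕ) : ℤ) * n := by positivity
    have e3 : t = t' := H.inj r (abs_lt.2 ⟨by linarith, by linarith⟩) (e1.trans e2.symm)
    subst e3
    have c1 : ((a : ℕ) : ℤ) < (a' : ℕ) + 1 := lt_of_mul_lt_mul_right (by linarith) hn0.le
    have c2 : ((a' : ℕ) : ℤ) < (a : ℕ) + 1 := lt_of_mul_lt_mul_right (by linarith) hn0.le
    exact Prod.ext rfl (Fin.ext (by simp only; omega))
  obtain ⟨s, hs1, hs2⟩ := exists_IT (Rp ×ˢ (univ : Finset (Fin q))) A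
    (fun x y => ¬ Disjoint (Sys π μ L x) (Sys π μ L y)) (fun a b h h' => h h'.symm) (145 * L)
    (by omega) (fun i _ => by rw [hA]; omega) (fun i _ x _ => by
      rw [← card_biUnion]
      · refine le_trans (card_le_card fun y hy => ?_) (card_Nb (π := π) (μ := μ) hL x)
        obtain ⟨j, -, hj⟩ := mem_biUnion.1 hy
        exact mem_filter.2 ⟨mem_univ _, (mem_filter.1 hj).2⟩
      · intro j hj k hk hjk
        exact (hdis (mem_coe.2 (mem_of_mem_erase hj)) (mem_coe.2 (mem_of_mem_erase hk)) hjk).mono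
          (filter_subset _ _) (filter_subset _ _))
  refine ⟨fun r a => s (r, a), fun r hr a => ?_, fun r hr r' hr' a a' hne => ?_⟩
  · exact sameCycle_of_mem_Iv (hs1 (r, a) (mem_product.2 ⟨hr, mem_univ _⟩))
  · exact not_not.1 (hs2 _ (mem_product.2 ⟨hr, mem_univ _⟩) _ (mem_product.2 ⟨hr', mem_univ _⟩) hne)

lemma cut_le_LCand (σ : Equiv.Perm V) (X Y D : Finset V) (h : ∀ v, v ∉ D → (v ∈ X ↔ v ∈ Y)) :
    #{v | ¬ (v ∈ Y ↔ σ v ∈ Y)} ≤ #{v | ¬ (v ∈ X ↔ σ v ∈ X)} + 2 * #D := by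
  have h1 : (univ.filter fun v => ¬ (v ∈ Y ↔ σ v ∈ Y)) ⊆
      (univ.filter fun v => ¬ (v ∈ X ↔ σ v ∈ X)) ∪ (D ∪ D.image σ.symm) := by
    intro v hv
    by_cases a : v ∈ D
    · exact mem_union_right _ (mem_union_left _ a)
    by_cases b : σ v ∈ D
    · exact mem_union_right _ (mem_union_right _ (mem_image.2 ⟨_, b, by simp⟩))
    refine mem_union_left _ (mem_filter.2 ⟨mem_univ _, ?_⟩)
    rw [h v a, h _ b]
    exact (mem_filter.1 hv).2
  have h2 := (card_le_card h1).trans (card_union_le _ _)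
  have h3 := card_union_le D (D.image σ.symm)
  have h4 : #(D.image σ.symm) ≤ #D := card_image_le
  omega

theorem dc_le_symmDiff (hμ : ∀ v, μ (μ v) = v) (X Y D : Finset V)
    (h : ∀ v, v ∉ D → (v ∈ X ↔ v ∈ Y)) : dc π μ Y ≤ dc π μ X + 4 * #D := by
  have h1 := cut_le_LCand π X Y D h
  have h2 := cut_le_LCand μ X Y D h
  rw [card_mucut hμ, card_mucut hμ] at h2
  unfold dc fc
  omega

end Pool.Agent.P.MP_e59a69_co
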