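import Pool.Agent.P.MP_e59a69_co.LDefs

/-! Shortcut orders of a connected edge set. -/

open Finset Function

namespace Pool.Agent.P.MP_e59a69_co

variable {N E : Type} [DecidableEq N] [DecidableEq E]

lemma ins_LList (X : Finset N) (u v : N) (l1 l2 : List N) :
    chg X (l1 ++ u :: v :: l2) ≤
      chg X (l1 ++ u :: l2) + 2 * (if (u ∈ X ↔ v ∈ X) then 0 else 1) := by
  induction l1 with
  | nil =>
    rcases l2 with _ | ⟨w, l2⟩
    · simp only [List.nil_append, chg_cons_cons, chg_single]; omega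
    · simp only [List.nil_append, chg_cons_cons]
      by_cases h1 : u ∈ X <;> by_cases h2 : v ∈ X <;> by_cases h3 : w ∈ X <;>
        simp [h1, h2, h3] <;> omega
  | cons a l1 ih =>
    rcases l1 with _ | ⟨b, l1⟩ <;>
      simp only [List.nil_append, List.cons_append, chg_cons_cons X a] at ih ⊢ <;> omega

lemma cons_LList (X : Finset N) (a : N) (l : List N) : chg X l ≤ chg X (a :: l) := by
  rcases l with _ | ⟨b, l⟩
  · exact le_rfl
  · exact Nat.le_add_left _ _

lemma tri_LList (X : Finset N) (a b : N) (l : List N) : chg X (a :: l) ≤ chg X (a :: b :: l) := by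
  rcases l with _ | ⟨c, l⟩
  · exact Nat.zero_le _
  · simp only [chg_cons_cons]
    by_cases h1 : a ∈ X <;> by_cases h2 : b ∈ X <;> by_cases h3 : c ∈ X <;>
      simp [h1, h2, h3] <;> omega

theorem exists_list (s t : E → N) (Z : Finset N) (T : Finset E)
    (hZ : ∀ e ∈ T, s e ∈ Z ∧ t e ∈ Z) (h : Conn s t Z T) :
    ∃ l : List N, l.Nodup ∧ l.toFinset = Z ∧ ∀ X, chg X l ≤ 2 * ct s t T X := by
  rcases Z.eq_empty_or_nonempty with rfl | ⟨z, hz⟩
  · exact ⟨[], List.nodup_nil, rfl, fun _ => Nat.zero_le _⟩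
  have key : ∀ n, n < #Z → ∃ (l : List N) (T' : Finset E), l.Nodup ∧ l.length = n + 1 ∧
      (∀ v ∈ l, v ∈ Z) ∧ T' ⊆ T ∧ (∀ e ∈ T', s e ∈ l ∧ t e ∈ l) ∧
      ∀ X, chg X l ≤ 2 * ct s t T' X := by
    intro n
    induction n with
    | zero => exact fun _ => ⟨[z], ∅, by simp, rfl, by simpa using hz, by simp, by simp,
        fun _ => Nat.zero_le _⟩
    | succ n ih =>
      intro hn
      obtain ⟨l, T', h1, h2, h3, h4, h5, h6⟩ := ih (by omega)
      have hs : Sep Z l.toFinset := by
        obtain ⟨a, ha⟩ := List.exists_mem_of_length_pos (l := l) (by omega)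
        refine ⟨⟨a, h3 a ha, List.mem_toFinset.2 ha⟩, ?_⟩
        by_contra hc
        push Not at hc
        have := card_le_card (show Z ⊆ l.toFinset from hc)
        have := List.toFinset_card_le l
        omega
      obtain ⟨e, he⟩ := card_pos.1 (h _ hs)
      obtain ⟨he1, he2⟩ := mem_filter.1 he
      simp only [List.mem_toFinset] at he2
      obtain ⟨u, v, hu, hv, huv⟩ : ∃ u v, u ∈ l ∧ v ∉ l ∧
          ((s e = u ∧ t e = v) ∨ (s e = v ∧ t e = u)) := by
        by_cases hs : s e ∈ l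
        · exact ⟨_, _, hs, fun ht => he2 (iff_of_true hs ht), Or.inl ⟨rfl, rfl⟩⟩
        · exact ⟨_, _, by_contra fun ht => he2 (iff_of_false hs ht), hs, Or.inr ⟨rfl, rfl⟩⟩
      have hvZ : v ∈ Z := by
        rcases huv with ⟨-, rfl⟩ | ⟨rfl, -⟩
        exacts [(hZ e he1).2, (hZ e he1).1]
      have heT : e ∉ T' := fun hh => he2 (iff_of_true (h5 e hh).1 (h5 e hh).2)
      obtain ⟨l1, l2, rfl⟩ := List.append_of_mem hu
      have hp : (l1 ++ u :: v :: l2).Perm (v :: (l1 ++ u :: l2)) :=
        ((List.Perm.swap v u l2).append_left l1).trans List.perm_middle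
      refine ⟨l1 ++ u :: v :: l2, insert e T', hp.nodup_iff.2 (List.nodup_cons.2 ⟨hv, h1⟩),
        by rw [hp.length_eq, List.length_cons, h2], fun w hw => ?_, insert_subset he1 h4,
        fun f hf => ?_, fun X => (ins_LList X u v l1 l2).trans ?_⟩
      · rcases List.mem_cons.1 (hp.mem_iff.1 hw) with rfl | hw
        exacts [hvZ, h3 w hw]
      · rw [hp.mem_iff, hp.mem_iff]
        rcases mem_insert.1 hf with rfl | hf
        · rcases huv with ⟨a, b⟩ | ⟨a, b⟩ <;> simp [a, b]
        · exact ⟨List.mem_cons_of_mem _ (h5 f hf).1, List.mem_cons_of_mem _ (h5 f hf).2⟩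
      · have h7 : ct s t (insert e T') X = (if (u ∈ X ↔ v ∈ X) then 0 else 1) + ct s t T' X := by
          rw [ct, ct, card_filter, card_filter, sum_insert heT]
          rcases huv with ⟨rfl, rfl⟩ | ⟨rfl, rfl⟩ <;> by_cases a : s e ∈ X <;>
            by_cases b : t e ∈ X <;> simp [a, b]
        have := h6 X
        omega
  have hc := card_pos.2 ⟨z, hz⟩
  obtain ⟨l, T', h1, h2, h3, h4, -, h6⟩ := key (#Z - 1) (by omega)
  refine ⟨l, h1, eq_of_subset_of_card_le (fun v hv => h3 v (List.mem_toFinset.1 hv)) ?_,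
    fun X => (h6 X).trans (Nat.mul_le_mul_left 2 (ct_mono s t h4 X))⟩
  rw [List.toFinset_card_of_nodup h1]
  omega

theorem chg_sublist (X : Finset N) {l l' : List N} (h : l'.Sublist l) : chg X l' ≤ chg X l := by
  have key : chg X l' ≤ chg X l ∧ ∀ a, chg X (a :: l') ≤ chg X (a :: l) := by
    induction h with
    | slnil => exact ⟨le_rfl, fun _ => le_rfl⟩
    | cons b _ ih =>
      exact ⟨ih.1.trans (cons_LList X b _), fun a => (ih.2 a).trans (tri_LList X a b _)⟩
    | cons_cons b _ ih => exact ⟨ih.2 b, fun a => Nat.add_le_add_left (ih.2 b) _⟩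
  exact key.1

theorem chg_congr {X Y : Finset N} (l : List N) (h : ∀ v ∈ l, (v ∈ X ↔ v ∈ Y)) :
    chg X l = chg Y l := by
  induction l with
  | nil => rfl
  | cons a l ih =>
    rcases l with _ | ⟨b, l⟩
    · rfl
    · rw [chg_cons_cons, chg_cons_cons, ih fun v hv => h v (List.mem_cons_of_mem _ hv)]
      simp only [h a (by simp), h b (by simp)]

end Pool.Agent.P.MP_e59a69_co
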