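import Pool.Agent.P.MP_e59a69_co.LDefs

/-! Counting and pairing along a list. -/

open Finset Function

namespace Pool.Agent.P.MP_e59a69_co

variable {N : Type} [DecidableEq N]

/-- side changes along a list with a given first side -/
def gch_LList2 (X : Finset N) : Bool → List N → ℕ
  | _, [] => 0
  | p, b :: l => (if p = decide (b ∈ X) then 0 else 1) + gch_LList2 X (decide (b ∈ X)) l

lemma chg_eq_LList2 (X : Finset N) (a : N) (l : List N) :
    chg X (a :: l) = gch_LList2 X (decide (a ∈ X)) l := by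
  induction l generalizing a with
  | nil => rfl
  | cons b l ih => simp only [chg_cons_cons, gch_LList2, ih, decide_eq_decide]

lemma gch_insert_LList2 (X : Finset N) {b : N} (p : Bool) {l : List N} (h : b ∉ l) :
    gch_LList2 (insert b X) p l = gch_LList2 X p l := by
  induction l generalizing p with
  | nil => rfl
  | cons c l ih =>
    have h1 : c ≠ b := fun e => h (e ▸ List.mem_cons_self)
    simp only [gch_LList2, mem_insert, h1, false_or, ih _ fun e => h (List.mem_cons_of_mem _ e)]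

lemma sum_split_LList2 {b : N} {l : List N} (h : b ∉ l) (f : Bool → ℕ) (x : ℝ) :
    ∑ Y ∈ (b :: l).toFinset.powerset, x ^ (f (decide (b ∈ Y)) + gch_LList2 Y (decide (b ∈ Y)) l) =
      x ^ f false * ∑ Y ∈ l.toFinset.powerset, x ^ gch_LList2 Y false l +
        x ^ f true * ∑ Y ∈ l.toFinset.powerset, x ^ gch_LList2 Y true l := by
  have h1 : b ∉ l.toFinset := fun e => h (List.mem_toFinset.1 e)
  rw [List.toFinset_cons, sum_powerset_insert h1, mul_sum, mul_sum]
  refine congrArg₂ _ (sum_congr rfl fun Y hY => ?_) (sum_congr rfl fun Y _ => ?_)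
  · rw [decide_eq_false fun e => h1 (mem_powerset.1 hY e), pow_add]
  · rw [decide_eq_true (mem_insert_self b Y), gch_insert_LList2 _ _ h, pow_add]

lemma sum_gch_LList2 (l : List N) (hl : l.Nodup) (x : ℝ) (p : Bool) :
    ∑ Y ∈ l.toFinset.powerset, x ^ gch_LList2 Y p l = (1 + x) ^ l.length := by
  induction l generalizing p with
  | nil => simp [gch_LList2]
  | cons b l ih =>
    obtain ⟨h1, h2⟩ := List.nodup_cons.1 hl
    refine (sum_split_LList2 h1 (fun r => if p = r then 0 else 1) x).trans ?_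
    rw [ih h2, ih h2, List.length_cons, pow_succ]
    cases p <;> simp <;> ring

theorem sum_chg (l : List N) (hl : l.Nodup) (x : ℝ) (hx : 0 ≤ x) :
    ∑ Y ∈ l.toFinset.powerset, x ^ chg Y l ≤ 2 * (1 + x) ^ l.length := by
  cases l with
  | nil => simp [chg_nil]
  | cons b l =>
    obtain ⟨h1, h2⟩ := List.nodup_cons.1 hl
    have h3 := sum_split_LList2 h1 (fun _ => 0) x
    simp only [zero_add, pow_zero, one_mul, sum_gch_LList2 l h2] at h3
    simp only [chg_eq_LList2]
    rw [h3, List.length_cons, pow_succ]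
    have h4 : 0 ≤ (1 + x) ^ l.length * x := by positivity
    linarith

lemma chg_le_cons_LList2 (X : Finset N) (b : N) (l : List N) : chg X l ≤ chg X (b :: l) := by
  cases l with
  | nil => exact le_rfl
  | cons c l => exact Nat.le_add_left _ _

theorem pair_of_list (l : List N) (hl : l.Nodup) (he : Even l.length) :
    ∃ Q : N → N, (∀ t ∈ l.toFinset, Q t ∈ l.toFinset ∧ Q t ≠ t ∧ Q (Q t) = t) ∧
      ∀ X, dQ l.toFinset Q X ≤ chg X l := by
  induction l using List.twoStepInduction with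
  | nil => exact ⟨id, by simp, fun X => by simp [dQ]⟩
  | singleton a => simp at he
  | cons_cons a b l ih _ =>
    obtain ⟨ha, hl'⟩ := List.nodup_cons.1 hl
    obtain ⟨hb, hl''⟩ := List.nodup_cons.1 hl'
    have hab : a ≠ b := fun e => ha (e ▸ List.mem_cons_self)
    have ha' : a ∉ l := fun e => ha (List.mem_cons_of_mem _ e)
    obtain ⟨Q, hQ, hd⟩ := ih hl'' (by
      rw [List.length_cons, List.length_cons, Nat.even_add_one, Nat.even_add_one, not_not] at he
      exact he)
    obtain ⟨R, Ra, Rb, Rl⟩ : ∃ R : N → N, R a = b ∧ R b = a ∧ ∀ t ∈ l.toFinset, R t = Q t := by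
      refine ⟨update (update Q a b) b a, ?_, update_self .., fun t ht => ?_⟩
      · rw [update_of_ne hab, update_self]
      · rw [update_of_ne fun e : t = b => hb (e ▸ List.mem_toFinset.1 ht),
          update_of_ne fun e : t = a => ha' (e ▸ List.mem_toFinset.1 ht)]
    refine ⟨R, fun t ht => ?_, fun X => ?_⟩
    · simp only [List.toFinset_cons, mem_insert] at ht ⊢
      rcases ht with rfl | rfl | ht
      · exact ⟨Or.inr (Or.inl Ra), Ra ▸ hab.symm, by rw [Ra, Rb]⟩
      · exact ⟨Or.inl Rb, Rb ▸ hab, by rw [Rb, Ra]⟩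
      · rw [Rl t ht, Rl _ (hQ t ht).1]
        exact ⟨Or.inr (Or.inr (hQ t ht).1), (hQ t ht).2⟩
    · have h1 := (hd X).trans (chg_le_cons_LList2 X b l)
      have h2 : ∑ t ∈ l.toFinset, (if t ∈ X ∧ R t ∉ X then 1 else 0) = dQ l.toFinset Q X := by
        rw [dQ, card_filter]
        exact sum_congr rfl fun t ht => by rw [Rl t ht]
      rw [dQ, card_filter, List.toFinset_cons, List.toFinset_cons, sum_insert (by simpa using ha),
        sum_insert (by simpa using hb), h2, Ra, Rb, chg_cons_cons]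
      by_cases h3 : a ∈ X <;> by_cases h4 : b ∈ X <;> simp [h3, h4, h1]

theorem exists_reps {α β : Type} [DecidableEq α] (C : Finset α) (tr : α → β) (D : α → ℕ) :
    ∃ F ⊆ C, (∀ X ∈ F, ∀ Y ∈ F, tr X = tr Y → X = Y) ∧
      ∀ X ∈ C, ∃ Y ∈ F, tr Y = tr X ∧ D Y ≤ D X := by
  classical
  have h : ∀ b : β, ∃ Y : Option α, ∀ X ∈ C, tr X = b →
      ∃ Z ∈ C, Y = some Z ∧ tr Z = b ∧ D Z ≤ D X := by
    intro b
    rcases (C.filter fun X => tr X = b).eq_empty_or_nonempty with h | h
    · exact ⟨none, fun X hX e => absurd (mem_filter.2 ⟨hX, e⟩) (h ▸ notMem_empty X)⟩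
    · obtain ⟨Z, hZ, hm⟩ := exists_min_image _ D h
      exact ⟨some Z, fun X hX e =>
        ⟨Z, (mem_filter.1 hZ).1, rfl, (mem_filter.1 hZ).2, hm X (mem_filter.2 ⟨hX, e⟩)⟩⟩
  choose m hm using h
  refine ⟨C.filter fun X => m (tr X) = some X, filter_subset _ _, fun X hX Y hY e => ?_,
    fun X hX => ?_⟩
  · have h1 := (mem_filter.1 hX).2
    rw [e, (mem_filter.1 hY).2] at h1
    exact (Option.some.inj h1).symm
  · obtain ⟨Z, hZ, h1, h2, h3⟩ := hm _ X hX rfl
    exact ⟨Z, mem_filter.2 ⟨hZ, h2 ▸ h1⟩, h2, h3⟩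

theorem avg_select {ι κ : Type} [DecidableEq ι] (I : Finset ι) (q : ℕ) (hq : 0 < q) (C : Finset κ)
    (ω : κ → ℝ) (hω : ∀ k, 0 ≤ ω k) (g : κ → ι → Fin q → ℝ) (hg : ∀ k i a, 0 ≤ g k i a) :
    ∃ j : ι → Fin q, ∑ k ∈ C, ω k * ∏ i ∈ I, g k i (j i) ≤
      ∑ k ∈ C, ω k * ∏ i ∈ I, ((∑ a, g k i a) / q) := by
  induction I using Finset.induction_on generalizing ω with
  | empty => exact ⟨fun _ => ⟨0, hq⟩, by simp⟩
  | insert i I hi ih =>
    have hq' : (0 : ℝ) < q := Nat.cast_pos.2 hq
    obtain ⟨j, hj⟩ := ih (fun k => ω k * ((∑ a, g k i a) / q)) fun k =>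
      mul_nonneg (hω k) (div_nonneg (sum_nonneg fun a _ => hg k i a) hq'.le)
    obtain ⟨a, -, ha⟩ := exists_min_image (univ : Finset (Fin q))
      (fun a => ∑ k ∈ C, ω k * (g k i a * ∏ i ∈ I, g k i (j i))) ⟨⟨0, hq⟩, mem_univ _⟩
    have h1 := card_nsmul_le_sum _ _ _ ha
    rw [card_univ, Fintype.card_fin, nsmul_eq_mul, sum_comm, mul_comm, ← le_div_iff₀ hq',
      sum_div] at h1
    refine ⟨update j i a, ?_⟩
    simp only [prod_insert hi, update_self, ← mul_assoc] at h1 ⊢
    have h2 : ∀ k, ∏ i' ∈ I, g k i' (update j i a i') = ∏ i' ∈ I, g k i' (j i') := fun k =>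
      prod_congr rfl fun i' hi' => by rw [update_of_ne fun e : i' = i => hi (e ▸ hi')]
    simp only [h2]
    refine h1.trans (le_trans (le_of_eq (sum_congr rfl fun k _ => ?_)) hj)
    rw [← sum_mul, ← mul_sum]
    ring

end Pool.Agent.P.MP_e59a69_co
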