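import Pool.Agent.P.MP_e59a69_co.LMerge
import Pool.Agent.P.MP_e59a69_co.LList
import Pool.Agent.P.MP_e59a69_co.LList2
import Pool.Agent.P.MP_e59a69_co.LPack

/-! Counting the traces of solid cuts. -/

open Finset Function

namespace Pool.Agent.P.MP_e59a69_co

variable {N E : Type} [Fintype N] [Fintype E] [DecidableEq N] [DecidableEq E]

omit [Fintype N] [DecidableEq E] in
lemma avg_LCount (s t : E → N) (T : ℕ → Finset E) (hT : ∀ i j, i ≠ j → Disjoint (T i) (T j))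
    {k : ℕ} (hk : 0 < k) (X : Finset N) : ∃ i < k, k * ct s t (T i) X ≤ ct s t univ X := by
  classical
  have h1 : ∑ i ∈ range k, ct s t (T i) X ≤ ct s t univ X := by
    unfold ct
    rw [← card_biUnion fun i _ j _ hij => disjoint_filter_filter (hT i j hij)]
    refine card_le_card fun e he => ?_
    obtain ⟨i, -, hi⟩ := mem_biUnion.1 he
    exact mem_filter.2 ⟨mem_univ _, (mem_filter.1 hi).2⟩
  obtain ⟨i, hi, hm⟩ := exists_min_image (range k) (fun i => ct s t (T i) X)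
    ⟨0, mem_range.2 hk⟩
  refine ⟨i, mem_range.1 hi, le_trans ?_ h1⟩
  have h2 := card_nsmul_le_sum (range k) _ _ hm
  rwa [card_range, smul_eq_mul] at h2

lemma num_LCount {c p m a : ℕ} (hc : 20 ≤ c) (hp : 1 ≤ p) (hm : c ≤ m) (ha : c * a ≤ 8 * m)
    {γ : ℝ} (hγ : 29 + 8 * Real.log p / c ≤ γ) :
    Real.exp (-(γ - 28) * m) ≤ Real.exp (-c) * (p : ℝ)⁻¹ ^ a := by
  have hp' : (1 : ℝ) ≤ p := by exact_mod_cast hp
  have hc' : (20 : ℝ) ≤ c := by exact_mod_cast hc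
  have hm' : (c : ℝ) ≤ m := by exact_mod_cast hm
  have ha' : (c : ℝ) * a ≤ 8 * m := by exact_mod_cast ha
  have hl := Real.log_nonneg hp'
  have e : (p : ℝ)⁻¹ ^ a = Real.exp (-(a * Real.log p)) := by
    rw [Real.exp_neg, Real.exp_nat_mul, Real.exp_log (by linarith), inv_pow]
  rw [e, ← Real.exp_add, Real.exp_le_exp]
  have h1 : a * Real.log p ≤ 8 * Real.log p / c * m := by
    rw [div_mul_eq_mul_div, le_div_iff₀ (by linarith)]
    nlinarith [mul_le_mul_of_nonneg_right ha' hl]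
  have h2 := mul_le_mul_of_nonneg_right hγ (show (0 : ℝ) ≤ m by linarith)
  nlinarith

lemma fin_LCount {c p k : ℕ} (hc : 20 ≤ c) (hp : 1 ≤ p) (hk : 3 * k ≤ c) :
    Real.exp (-c) * (k * (2 * (1 + (p : ℝ)⁻¹) ^ p)) < 1 := by
  have hp' : (1 : ℝ) ≤ p := by exact_mod_cast hp
  have hc' : (20 : ℝ) ≤ c := by exact_mod_cast hc
  have hk' : 3 * (k : ℝ) ≤ c := by exact_mod_cast hk
  have h1 : (1 + (p : ℝ)⁻¹) ^ p ≤ 3 := by
    calc (1 + (p : ℝ)⁻¹) ^ p ≤ Real.exp (p : ℝ)⁻¹ ^ p :=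
          pow_le_pow_left₀ (by positivity) (by linarith [Real.add_one_le_exp (p : ℝ)⁻¹]) _
      _ = Real.exp 1 := by rw [← Real.exp_nat_mul, mul_inv_cancel₀ (by linarith)]
      _ ≤ 3 := Real.exp_one_lt_three.le
  have h2 := Real.quadratic_le_exp_of_nonneg (show (0 : ℝ) ≤ c by linarith)
  rw [Real.exp_neg, inv_mul_lt_iff₀ (Real.exp_pos _), mul_one]
  have h3 : (k : ℝ) * (2 * (1 + (p : ℝ)⁻¹) ^ p) ≤ k * (2 * 3) := by gcongr
  nlinarith

theorem count_cuts (s t : E → N) (c : ℕ) (hc : 20 ≤ c) (hcard : 2 * c ≤ Fintype.card N)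
    (hcut : ∀ X : Finset N, X.Nonempty → Xᶜ.Nonempty →
      c ≤ ct s t univ X ∨ #X + 2 ≤ ct s t univ X ∨ #Xᶜ + 2 ≤ ct s t univ X)
    (W : Finset N) (p : ℕ) (hp : 1 ≤ p) (hW : #W ≤ p) (F : Finset (Finset N))
    (hF : ∀ X ∈ F, Solid s t (c - 2) X ∧ X.Nonempty ∧ Xᶜ.Nonempty)
    (hinj : ∀ X ∈ F, ∀ Y ∈ F, X ∩ W = Y ∩ W → X = Y)
    (γ : ℝ) (hγ : 29 + 8 * Real.log p / c ≤ γ) :
    ∑ X ∈ F, Real.exp (-γ * ct s t univ X) < 1 := by
  obtain ⟨f, hf, hsz, hsum⟩ := merge s t (c - 2) (fun Q hQ hq => by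
    have h1 := card_compl Q
    have h2 : Qᶜ.Nonempty := card_pos.1 (by omega)
    rcases hcut Q hQ h2 with h | h | h <;> omega) F (fun X hX => (hF X hX).1)
    (fun X => Real.exp (-(γ - 28) * ct s t univ X)) fun X => (Real.exp_pos _).le
  have hbig : ∀ X : Finset N, (∀ v, v ∈ X ↔ f v ∈ X) → X.Nonempty → c - 2 ≤ #X := by
    rintro X hX ⟨v, hv⟩
    refine (hsz v).trans (card_le_card fun u hu => ?_)
    rw [hX, (mem_filter.1 hu).2, ← hX]
    exact hv
  have hge : ∀ X : Finset N, (∀ v, v ∈ X ↔ f v ∈ X) → X.Nonempty → Xᶜ.Nonempty →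
      c ≤ ct s t univ X := fun X hX h1 h2 => by
    have h3 := hbig X hX h1
    have h4 := hbig Xᶜ (fun v => by rw [mem_compl, mem_compl, ← hX]) h2
    rcases hcut X h1 h2 with h | h | h <;> omega
  have hct : ∀ (A : Finset E) (X Y : Finset N), (∀ v, v ∈ Y ↔ f v ∈ X) →
      ct (f ∘ s) (f ∘ t) A X = ct s t A Y := fun A X Y h => by
    unfold ct
    simp only [h, comp_apply]
  obtain ⟨k, hk1, hk2, hk3⟩ : ∃ k, 3 * k ≤ c ∧ c ≤ 4 * k ∧ 3 ≤ k := ⟨c / 3, by omega⟩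
  have hZ : ∀ e, (f ∘ s) e ∈ image f univ ∧ (f ∘ t) e ∈ image f univ := fun e =>
    ⟨mem_image_of_mem f (mem_univ _), mem_image_of_mem f (mem_univ _)⟩
  obtain ⟨T, hT, hC⟩ := pack (f ∘ s) (f ∘ t) (image f univ) hZ k hk3 (by
    rintro X ⟨⟨a, ha, ha'⟩, b, hb, hb'⟩
    obtain ⟨a, -, rfl⟩ := mem_image.1 ha
    obtain ⟨b, -, rfl⟩ := mem_image.1 hb
    rw [hct univ X {v | f v ∈ X} (by simp)]
    exact hk1.trans (hge _ (by simp [hf]) ⟨a, by simpa using ha'⟩ ⟨b, by simpa using hb'⟩))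
  have hl : ∀ i, ∃ l : List N, i < k → l.Nodup ∧ l.toFinset = image f W ∧
      ∀ X, chg X l ≤ 2 * ct (f ∘ s) (f ∘ t) (T i) X := fun i => by
    by_cases hi : i < k
    · obtain ⟨l, h1, h2, h3⟩ := exists_list (f ∘ s) (f ∘ t) _ (T i) (fun e _ => hZ e) (hC i hi)
      refine ⟨l.filter (· ∈ image f W), fun _ => ⟨h1.filter _, ?_, fun X =>
        (chg_sublist X List.filter_sublist).trans (h3 X)⟩⟩
      ext v
      rw [List.mem_toFinset, List.mem_filter, ← List.mem_toFinset, h2, decide_eq_true_iff]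
      exact ⟨fun h => h.2, fun h => ⟨image_subset_image (subset_univ W) h, h⟩⟩
    · exact ⟨[], fun h => absurd h hi⟩
  choose l hl using hl
  have hx : (0 : ℝ) ≤ (p : ℝ)⁻¹ := by positivity
  have h1 : ∀ X ∈ F.filter fun X => ∀ v, v ∈ X ↔ f v ∈ X,
      Real.exp (-(γ - 28) * ct s t univ X) ≤
        Real.exp (-c) * ∑ i ∈ range k, (p : ℝ)⁻¹ ^ chg (X ∩ image f W) (l i) := fun X hX => by
    obtain ⟨hX1, hX2⟩ := mem_filter.1 hX
    obtain ⟨i, hi, hm⟩ := avg_LCount (f ∘ s) (f ∘ t) T hT (by omega : 0 < k) X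
    rw [hct univ X X hX2] at hm
    obtain ⟨-, g2, g3⟩ := hl i hi
    have g4 : chg (X ∩ image f W) (l i) = chg X (l i) := chg_congr _ fun v hv => by
      rw [mem_inter, ← g2, List.mem_toFinset]
      exact and_iff_left hv
    refine (num_LCount (a := chg (X ∩ image f W) (l i)) hc hp
      (hge X hX2 (hF X hX1).2.1 (hF X hX1).2.2) ?_ hγ).trans
      (mul_le_mul_of_nonneg_left ?_ (Real.exp_pos _).le)
    · rw [g4]
      calc c * chg X (l i) ≤ 4 * k * (2 * ct (f ∘ s) (f ∘ t) (T i) X) := Nat.mul_le_mul hk2 (g3 X)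
        _ = 8 * (k * ct (f ∘ s) (f ∘ t) (T i) X) := by ring
        _ ≤ _ := Nat.mul_le_mul_left 8 hm
    · exact single_le_sum (f := fun i => (p : ℝ)⁻¹ ^ chg (X ∩ image f W) (l i))
        (fun _ _ => pow_nonneg hx _) (mem_range.2 hi)
  have h2 : ∀ i ∈ range k, ∑ X ∈ F.filter fun X => ∀ v, v ∈ X ↔ f v ∈ X,
      (p : ℝ)⁻¹ ^ chg (X ∩ image f W) (l i) ≤ 2 * (1 + (p : ℝ)⁻¹) ^ p := fun i hi => by
    obtain ⟨g1, g2, -⟩ := hl i (mem_range.1 hi)
    have g3 : (l i).length ≤ p := by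
      rw [← List.toFinset_card_of_nodup g1, g2]
      exact card_image_le.trans hW
    rw [← sum_image (f := fun Y => (p : ℝ)⁻¹ ^ chg Y (l i)) (g := fun X => X ∩ image f W)]
    · refine le_trans (sum_le_sum_of_subset_of_nonneg ?_ fun _ _ _ => pow_nonneg hx _)
        ((sum_chg (l i) g1 _ hx).trans (mul_le_mul_of_nonneg_left
          (pow_le_pow_right₀ (by linarith) g3) (by norm_num)))
      intro Y hY
      obtain ⟨X, -, rfl⟩ := mem_image.1 hY
      rw [g2]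
      exact mem_powerset.2 inter_subset_right
    · intro X hX Y hY hXY
      obtain ⟨hX1, hX2⟩ := mem_filter.1 (mem_coe.1 hX)
      obtain ⟨hY1, hY2⟩ := mem_filter.1 (mem_coe.1 hY)
      refine hinj X hX1 Y hY1 (Finset.ext fun v => ?_)
      rw [mem_inter, mem_inter]
      refine and_congr_left fun hv => ?_
      have g4 : f v ∈ X ∩ image f W ↔ f v ∈ Y ∩ image f W := by rw [show X ∩ _ = _ from hXY]
      rw [mem_inter, mem_inter, and_iff_left (mem_image_of_mem f hv),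
        and_iff_left (mem_image_of_mem f hv)] at g4
      rw [hX2, hY2, g4]
  calc ∑ X ∈ F, Real.exp (-γ * ct s t univ X)
      = ∑ X ∈ F, Real.exp (-(γ - 28) * ct s t univ X) * Real.exp (-28 * ct s t univ X) :=
        sum_congr rfl fun X _ => by rw [← Real.exp_add]; congr 1; ring
    _ ≤ _ := hsum
    _ ≤ _ := sum_le_sum h1
    _ = Real.exp (-c) * ∑ i ∈ range k, ∑ X ∈ F.filter fun X => ∀ v, v ∈ X ↔ f v ∈ X,
          (p : ℝ)⁻¹ ^ chg (X ∩ image f W) (l i) := by rw [← mul_sum, sum_comm]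
    _ ≤ Real.exp (-c) * (k * (2 * (1 + (p : ℝ)⁻¹) ^ p)) := by
        refine mul_le_mul_of_nonneg_left ?_ (Real.exp_pos _).le
        have h3 := sum_le_card_nsmul _ _ _ h2
        rwa [card_range, nsmul_eq_mul] at h3
    _ < 1 := fin_LCount hc hp hk1

end Pool.Agent.P.MP_e59a69_co
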