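import Pool.Agent.P.MP_e59a69_co.TDefs

/-! Independent transversals by counting. -/

open Finset Function

namespace Pool.Agent.P.MP_e59a69_co

theorem tit_exists {ι Ω : Type} [DecidableEq ι] (A : ι → Finset Ω) (R : Ω → Ω → Prop) (d : Ω)
    (J : Finset ι) : ∃ G : Finset (ι → Ω), ∀ s, s ∈ G ↔ (∀ j ∈ J, s j ∈ A j) ∧
      (∀ j, j ∉ J → s j = d) ∧ ∀ j ∈ J, ∀ k ∈ J, j ≠ k → ¬ R (s j) (s k) := by
  classical
  refine ⟨((J.pi A).image fun f j => if h : j ∈ J then f j h else d).filter
    fun s => ∀ j ∈ J, ∀ k ∈ J, j ≠ k → ¬ R (s j) (s k), fun s => ?_⟩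
  rw [mem_filter, mem_image, ← and_assoc]
  refine and_congr_left fun _ => ⟨?_, fun h => ⟨fun j _ => s j, mem_pi.2 h.1, ?_⟩⟩
  · rintro ⟨f, hf, rfl⟩
    exact ⟨fun j hj => by simpa [hj] using mem_pi.1 hf j hj, fun j hj => by simp [hj]⟩
  · funext j
    by_cases hj : j ∈ J
    · simp [hj]
    · simp [hj, h.2 j hj]

theorem exists_IT {ι Ω : Type} [DecidableEq ι] [DecidableEq Ω] [Nonempty Ω] (I : Finset ι)
    (A : ι → Finset Ω) (R : Ω → Ω → Prop) [DecidableRel R] (hR : ∀ a b, R a b → R b a) (D : ℕ)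
    (hD : 0 < D) (hA : ∀ i ∈ I, 4 * D ≤ #(A i))
    (hdeg : ∀ i ∈ I, ∀ a ∈ A i, ∑ j ∈ I.erase i, #{b ∈ A j | R a b} ≤ D) :
    ∃ s : ι → Ω, (∀ i ∈ I, s i ∈ A i) ∧ ∀ i ∈ I, ∀ j ∈ I, i ≠ j → ¬ R (s i) (s j) := by
  classical
  obtain ⟨d⟩ := ‹Nonempty Ω›
  choose G hG using tit_exists A R d
  have h1 : ∀ (J : Finset ι) (j : ι) (b : Ω), #{s ∈ G J | s j = b} ≤ #(G (J.erase j)) := by
    intro J j b
    refine card_le_card_of_injOn (fun s => update s j d) (fun s hs => ?_) fun s hs t ht e => ?_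
    · obtain ⟨a1, a2, a3⟩ := (hG J s).1 (mem_filter.1 hs).1
      refine mem_coe.2 ((hG _ (update s j d)).2
        ⟨fun k hk => ?_, fun k hk => ?_, fun k hk l hl hkl => ?_⟩)
      · rw [update_of_ne (mem_erase.1 hk).1]
        exact a1 k (mem_erase.1 hk).2
      · by_cases e : k = j
        · rw [e, update_self]
        · rw [update_of_ne e]
          exact a2 k fun h => hk (mem_erase.2 ⟨e, h⟩)
      · rw [update_of_ne (mem_erase.1 hk).1, update_of_ne (mem_erase.1 hl).1]
        exact a3 k (mem_erase.1 hk).2 l (mem_erase.1 hl).2 hkl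
    · funext k
      by_cases e' : k = j
      · rw [e', (mem_filter.1 hs).2, (mem_filter.1 ht).2]
      · simpa [update_of_ne e'] using congrFun e k
  have h2 : ∀ (J : Finset ι) (i : ι), i ∉ J → ∀ a ∈ A i,
      #{s ∈ G J | ¬ ∃ j ∈ J, R a (s j)} ≤ #{t ∈ G (insert i J) | t i = a} := by
    intro J i hi a ha
    have hne : ∀ k ∈ J, k ≠ i := fun k hk e => hi (e ▸ hk)
    refine card_le_card_of_injOn (fun s => update s i a) (fun s hs => ?_) fun s hs t ht e => ?_
    · obtain ⟨a1, a2, a3⟩ := (hG J s).1 (mem_filter.1 hs).1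
      have a4 : ∀ j ∈ J, ¬ R a (s j) := fun j hj h => (mem_filter.1 hs).2 ⟨j, hj, h⟩
      refine mem_coe.2 (mem_filter.2 ⟨(hG _ (update s i a)).2 ⟨fun k hk => ?_, fun k hk => ?_,
        fun k hk l hl hkl => ?_⟩, update_self ..⟩)
      · rcases mem_insert.1 hk with rfl | hk
        · rwa [update_self]
        · rw [update_of_ne (hne k hk)]
          exact a1 k hk
      · rw [update_of_ne fun e => hk (mem_insert.2 (Or.inl e))]
        exact a2 k fun h => hk (mem_insert_of_mem h)
      · rcases mem_insert.1 hk with rfl | hk' <;> rcases mem_insert.1 hl with rfl | hl'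
        · exact absurd rfl hkl
        · rw [update_self, update_of_ne (hne l hl')]
          exact a4 l hl'
        · rw [update_self, update_of_ne (hne k hk')]
          exact fun h => a4 k hk' (hR _ _ h)
        · rw [update_of_ne (hne k hk'), update_of_ne (hne l hl')]
          exact a3 k hk' l hl' hkl
    · funext k
      by_cases e' : k = i
      · rw [e', ((hG J s).1 (mem_filter.1 hs).1).2.1 i hi, ((hG J t).1 (mem_filter.1 ht).1).2.1 i hi]
      · simpa [update_of_ne e'] using congrFun e k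
  have key : ∀ n, ∀ J ⊆ I, #J = n → ∀ i ∈ I, i ∉ J → 2 * D * #(G J) ≤ #(G (insert i J)) := by
    intro n
    induction n using Nat.strong_induction_on with
    | _ n ih =>
    intro J hJ hn i hi hiJ
    have h3 : ∀ j ∈ J, 2 * D * #(G (J.erase j)) ≤ #(G J) := fun j hj => by
      have := ih _ (hn ▸ card_erase_lt_of_mem hj) (J.erase j) ((erase_subset j J).trans hJ) rfl j
        (hJ hj) (notMem_erase j J)
      rwa [insert_erase hj] at this
    have h4 : ∀ a ∈ A i, #(G J) ≤ 2 * #{t ∈ G (insert i J) | t i = a} := by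
      intro a ha
      have b1 : #{s ∈ G J | ∃ j ∈ J, R a (s j)} ≤
          ∑ j ∈ J, ∑ b ∈ A j with R a b, #{s ∈ G J | s j = b} := by
        refine le_trans (card_le_card (t := J.biUnion fun j => ({b ∈ A j | R a b}).biUnion
          fun b => {s ∈ G J | s j = b}) fun s hs => ?_)
          (card_biUnion_le.trans (sum_le_sum fun j _ => card_biUnion_le))
        obtain ⟨hs, j, hj, h⟩ := mem_filter.1 hs
        exact mem_biUnion.2 ⟨j, hj, mem_biUnion.2 ⟨s j,
          mem_filter.2 ⟨((hG J s).1 hs).1 j hj, h⟩, mem_filter.2 ⟨hs, rfl⟩⟩⟩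
      have b2 : 2 * D * ∑ j ∈ J, ∑ b ∈ A j with R a b, #{s ∈ G J | s j = b} ≤ D * #(G J) := by
        calc 2 * D * ∑ j ∈ J, ∑ b ∈ A j with R a b, #{s ∈ G J | s j = b}
            ≤ ∑ j ∈ J, #{b ∈ A j | R a b} * #(G J) := by
              rw [mul_sum]
              refine sum_le_sum fun j hj => ?_
              rw [mul_sum, ← smul_eq_mul]
              exact sum_le_card_nsmul _ _ _ fun b _ =>
                (Nat.mul_le_mul_left _ (h1 J j b)).trans (h3 j hj)
          _ ≤ D * #(G J) := by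
              rw [← sum_mul]
              refine Nat.mul_le_mul_right _ (le_trans (sum_le_sum_of_subset fun j hj => ?_)
                (hdeg i hi a ha))
              exact mem_erase.2 ⟨fun e => hiJ (e ▸ hj), hJ hj⟩
      have b3 := card_filter_add_card_filter_not (s := G J) fun s => ∃ j ∈ J, R a (s j)
      have b4 := h2 J i hiJ a ha
      have b5 : D * (2 * #{s ∈ G J | ∃ j ∈ J, R a (s j)}) ≤ D * #(G J) := by
        refine le_trans ?_ b2
        rw [← mul_assoc, mul_comm D 2]
        exact Nat.mul_le_mul_left _ b1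
      have b6 := Nat.le_of_mul_le_mul_left b5 hD
      omega
    have h5 : #(G (insert i J)) = ∑ a ∈ A i, #{t ∈ G (insert i J) | t i = a} :=
      card_eq_sum_card_fiberwise fun t ht => ((hG _ t).1 ht).1 i (mem_insert_self i J)
    have h6 : #(A i) * #(G J) ≤ 2 * #(G (insert i J)) := by
      rw [h5, mul_sum, ← smul_eq_mul]
      exact card_nsmul_le_sum _ _ _ h4
    have h7 := Nat.mul_le_mul_right #(G J) (hA i hi)
    nlinarith
  have pos : ∀ J ⊆ I, 0 < #(G J) := by
    intro J
    induction J using Finset.induction_on with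
    | empty => exact fun _ => card_pos.2 ⟨fun _ => d, (hG _ _).2 (by simp)⟩
    | insert i J hi ih =>
      intro h
      have h8 := (subset_insert i J).trans h
      exact lt_of_lt_of_le (Nat.mul_pos (by omega) (ih h8))
        (key _ J h8 rfl i (h (mem_insert_self i J)) hi)
  obtain ⟨s, hs⟩ := card_pos.1 (pos I subset_rfl)
  exact ⟨s, ((hG I s).1 hs).1, ((hG I s).1 hs).2.2⟩

end Pool.Agent.P.MP_e59a69_co
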