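import Pool.Agent.P.MP_e59a69_co.TEdm
import Pool.Agent.P.MP_e59a69_co.TIT

/-! Definitions for the sublogarithmic connectivity bound. -/

open Finset Function

namespace Pool.Agent.P.MP_e59a69_co

section
variable {N E : Type} [DecidableEq N]

/-- `X` separates `Z` -/
def Sep (Z X : Finset N) : Prop := (∃ z ∈ Z, z ∈ X) ∧ ∃ z ∈ Z, z ∉ X

/-- the edge set `T` joins all vertices of `Z` -/
def Conn (s t : E → N) (Z : Finset N) (T : Finset E) : Prop := ∀ X, Sep Z X → 1 ≤ ct s t T X

/-- number of side changes along a list -/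
def chg (X : Finset N) : List N → ℕ
  | a :: b :: l => (if (a ∈ X ↔ b ∈ X) then 0 else 1) + chg X (b :: l)
  | _ => 0

/-- every small piece of one side of the cut has an edge to the rest of its side -/
def Solid (s t : E → N) (n : ℕ) (X : Finset N) : Prop :=
  ∀ Q : Finset N, Q.Nonempty → #Q < n → (Q ⊆ X ∨ Disjoint Q X) →
    ∃ e, ¬ (s e ∈ Q ↔ t e ∈ Q) ∧ (s e ∈ X ↔ t e ∈ X)

lemma chg_cons_cons (X : Finset N) (a b : N) (l : List N) :
    chg X (a :: b :: l) = (if (a ∈ X ↔ b ∈ X) then 0 else 1) + chg X (b :: l) := rfl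

lemma chg_nil (X : Finset N) : chg X [] = 0 := rfl

lemma chg_single (X : Finset N) (a : N) : chg X [a] = 0 := rfl

lemma ct_mono (s t : E → N) {A B : Finset E} (h : A ⊆ B) (X : Finset N) :
    ct s t A X ≤ ct s t B X := card_le_card (filter_subset_filter _ h)

lemma ct_compl [Fintype N] (s t : E → N) (A : Finset E) (X : Finset N) :
    ct s t A Xᶜ = ct s t A X := by
  unfold ct
  simp only [mem_compl, not_iff_not]

lemma Sep.compl [Fintype N] {Z X : Finset N} (h : Sep Z X) : Sep Z Xᶜ := by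
  obtain ⟨⟨a, ha, ha'⟩, b, hb, hb'⟩ := h
  exact ⟨⟨b, hb, mem_compl.2 hb'⟩, a, ha, fun h => mem_compl.1 h ha'⟩

end

variable {V : Type} [Fintype V] [DecidableEq V]

/-- tail of an edge of the graph with the matching edges doubled -/
def es (e : V × Bool) : V := e.1

/-- head of an edge of the graph with the matching edges doubled -/
def et (π μ : Equiv.Perm V) (e : V × Bool) : V := if e.2 = true then μ e.1 else π e.1

/-- size of a cut, matching edges counted twice -/
def dc (π μ : Equiv.Perm V) (X : Finset V) : ℕ := fc π X + 2 * mc μ X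

lemma ct_et (π : Equiv.Perm V) {μ : Equiv.Perm V} (hμ : ∀ v, μ (μ v) = v) (X : Finset V) :
    ct es (et π μ) univ X = dc π μ X := by
  rw [dc, ← card_mucut hμ, fc, ct, card_filter, card_filter, card_filter, Fintype.sum_prod_type,
    ← Finset.sum_add_distrib]
  refine Finset.sum_congr rfl fun v _ => ?_
  rw [Fintype.sum_bool, add_comm]
  rfl

lemma Hyp.cut' {π μ : Equiv.Perm V} {c : ℕ} (H : Hyp π μ c) (X : Finset V) (h1 : X.Nonempty)
    (h2 : Xᶜ.Nonempty) : c ≤ ct es (et π μ) univ X ∨ #X + 2 ≤ ct es (et π μ) univ X ∨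
      #Xᶜ + 2 ≤ ct es (et π μ) univ X := by
  rw [ct_et π H.inv, dc]
  rcases H.cut X h1 h2 with h | h | h <;> omega

end Pool.Agent.P.MP_e59a69_co
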