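import Pool.Agent.P.MP_e59a69_co.LDefs

/-! Symmetric exchange for connecting edge sets. -/

open Finset Function

namespace Pool.Agent.P.MP_e59a69_co

variable {N E : Type} [DecidableEq N] [DecidableEq E]

/-- the edge `g` has exactly one end in `X` -/
def cross_LExch (s t : E → N) (g : E) (X : Finset N) : Prop := ¬ (s g ∈ X ↔ t g ∈ X)

omit [DecidableEq E] in
lemma conn_iff_LExch (s t : E → N) (Z : Finset N) (T : Finset E) :
    Conn s t Z T ↔ ∀ X, Sep Z X → ∃ g ∈ T, cross_LExch s t g X := by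
  unfold Conn ct cross_LExch
  refine forall_congr' fun X => imp_congr_right fun _ => ?_
  rw [Nat.succ_le_iff, card_pos]
  constructor
  · rintro ⟨g, hg⟩
    rw [mem_filter] at hg
    exact ⟨g, hg.1, hg.2⟩
  · rintro ⟨g, hg, hc⟩
    exact ⟨g, mem_filter.2 ⟨hg, hc⟩⟩

omit [DecidableEq E] in
lemma cross_sd_LExch (s t : E → N) (g : E) (X Y : Finset N) :
    cross_LExch s t g (symmDiff X Y) ↔ ¬ (cross_LExch s t g X ↔ cross_LExch s t g Y) := by
  unfold cross_LExch
  simp only [mem_symmDiff]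
  by_cases a : s g ∈ X <;> by_cases b : t g ∈ X <;> by_cases c : s g ∈ Y <;>
    by_cases d : t g ∈ Y <;> simp [a, b, c, d]

omit [DecidableEq E] in
lemma agree_LExch (s t : E → N) (Z : Finset N) (hZ : ∀ e, s e ∈ Z ∧ t e ∈ Z) (T : Finset E)
    (hT : Conn s t Z T) (X Y : Finset N)
    (h : ∀ g ∈ T, cross_LExch s t g X ↔ cross_LExch s t g Y) (g : E) :
    cross_LExch s t g X ↔ cross_LExch s t g Y := by
  by_contra hc
  have hw : cross_LExch s t g (symmDiff X Y) := (cross_sd_LExch s t g X Y).2 hc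
  have hsep : Sep Z (symmDiff X Y) := by
    unfold cross_LExch at hw
    by_cases a : s g ∈ symmDiff X Y
    · exact ⟨⟨s g, (hZ g).1, a⟩, t g, (hZ g).2, fun b => hw ⟨fun _ => b, fun _ => a⟩⟩
    · refine ⟨⟨t g, (hZ g).2, ?_⟩, s g, (hZ g).1, a⟩
      by_contra b
      exact hw ⟨fun h => absurd h a, fun h => absurd h b⟩
  obtain ⟨g', hg', hc'⟩ := (conn_iff_LExch s t Z T).1 hT _ hsep
  exact (cross_sd_LExch s t g' X Y).1 hc' (h g' hg')

lemma nodrop_LExch (s t : E → N) (Z : Finset N) (A : Finset E) (hA : Conn s t Z A) (e : E)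
    (h : ¬ Conn s t Z (A.erase e)) :
    ∃ X, ∀ g ∈ A, cross_LExch s t g X ↔ g = e := by
  rw [conn_iff_LExch] at h
  push Not at h
  obtain ⟨X, hX, hno⟩ := h
  obtain ⟨g', hg', hc'⟩ := (conn_iff_LExch s t Z A).1 hA X hX
  have hge : g' = e := by
    by_contra hne
    exact hno g' (mem_erase.2 ⟨hne, hg'⟩) hc'
  refine ⟨X, fun g hg => ⟨fun hc => ?_, fun h => ?_⟩⟩
  · by_contra hne
    exact hno g (mem_erase.2 ⟨hne, hg⟩) hc
  · rw [h, ← hge]; exact hc'

lemma swap_LExch (s t : E → N) (Z : Finset N) (hZ : ∀ e, s e ∈ Z ∧ t e ∈ Z) (A : Finset E)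
    (hA : Conn s t Z A) (e f : E) (X : Finset N) (hX : ∀ g ∈ A, cross_LExch s t g X ↔ g = e)
    (hf : cross_LExch s t f X) : Conn s t Z (insert f (A.erase e)) := by
  rw [conn_iff_LExch]
  intro W hW
  by_contra hno
  push Not at hno
  obtain ⟨g', hg', hc'⟩ := (conn_iff_LExch s t Z A).1 hA W hW
  have hge : g' = e := by
    by_contra hne
    exact hno g' (mem_insert_of_mem (mem_erase.2 ⟨hne, hg'⟩)) hc'
  have hag : ∀ g ∈ A, cross_LExch s t g W ↔ cross_LExch s t g X := by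
    intro g hg
    rw [hX g hg]
    refine ⟨fun hc => ?_, fun h => ?_⟩
    · by_contra hne
      exact hno g (mem_insert_of_mem (mem_erase.2 ⟨hne, hg⟩)) hc
    · rw [h, ← hge]; exact hc'
  exact hno f (mem_insert_self _ _) ((agree_LExch s t Z hZ A hA W X hag f).2 hf)

lemma build_LExch (s t : E → N) (B : Finset E) (e : E) (Y : E → Finset N) (G : Finset E)
    (hY : ∀ f ∈ G, ∀ g ∈ B, cross_LExch s t g (Y f) ↔ g = f) :
    ∃ W, (∀ g ∈ B, cross_LExch s t g W ↔ g ∈ G) ∧
      (cross_LExch s t e W → ∃ f ∈ G, cross_LExch s t e (Y f)) := by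
  induction G using Finset.induction_on with
  | empty =>
    refine ⟨∅, fun g _ => ?_, fun h => ?_⟩
    · simp [cross_LExch]
    · simp [cross_LExch] at h
  | insert f G hf ih =>
    obtain ⟨W, hW1, hW2⟩ := ih fun f' hf' => hY f' (mem_insert_of_mem hf')
    refine ⟨symmDiff W (Y f), fun g hg => ?_, fun h => ?_⟩
    · rw [cross_sd_LExch, hW1 g hg, hY f (mem_insert_self _ _) g hg, mem_insert]
      by_cases a : g = f
      · subst a; simp [hf]
      · simp [a]
    · rw [cross_sd_LExch] at h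
      by_cases a : cross_LExch s t e (Y f)
      · exact ⟨f, mem_insert_self _ _, a⟩
      · have : cross_LExch s t e W := by
          by_contra b
          exact h ⟨fun h => absurd h b, fun h => absurd h a⟩
        obtain ⟨f', hf', hc⟩ := hW2 this
        exact ⟨f', mem_insert_of_mem hf', hc⟩

theorem exchange (s t : E → N) (Z : Finset N) (hZ : ∀ e, s e ∈ Z ∧ t e ∈ Z) (A B : Finset E)
    (hA : Conn s t Z A) (hB : Conn s t Z B) (hne : A ≠ B) :
    (∃ e ∈ A \ B, Conn s t Z (A.erase e)) ∨ (∃ f ∈ B \ A, Conn s t Z (B.erase f)) ∨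
      ∃ e ∈ A \ B, ∃ f ∈ B \ A,
        Conn s t Z (insert f (A.erase e)) ∧ Conn s t Z (insert e (B.erase f)) := by
  classical
  by_cases h1 : ∃ e ∈ A \ B, Conn s t Z (A.erase e)
  · exact Or.inl h1
  by_cases h2 : ∃ f ∈ B \ A, Conn s t Z (B.erase f)
  · exact Or.inr (Or.inl h2)
  refine Or.inr (Or.inr ?_)
  push Not at h1 h2
  have hAB : (A \ B).Nonempty := by
    by_contra hem
    rw [not_nonempty_iff_eq_empty, sdiff_eq_empty_iff_subset] at hem
    have : (B \ A).Nonempty := by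
      by_contra hem'
      rw [not_nonempty_iff_eq_empty, sdiff_eq_empty_iff_subset] at hem'
      exact hne (Subset.antisymm hem hem')
    obtain ⟨f, hf⟩ := this
    refine h2 f hf fun X hX => (hA X hX).trans (ct_mono s t ?_ X)
    intro g hg
    exact mem_erase.2 ⟨fun h => (mem_sdiff.1 hf).2 (h ▸ hg), hem hg⟩
  obtain ⟨e, he⟩ := hAB
  obtain ⟨heA, heB⟩ := mem_sdiff.1 he
  obtain ⟨X, hX⟩ := nodrop_LExch s t Z A hA e (h1 e he)
  have hY : ∀ f, ∃ Y, f ∈ B \ A → ∀ g ∈ B, cross_LExch s t g Y ↔ g = f := by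
    intro f
    by_cases hf : f ∈ B \ A
    · obtain ⟨Y, hY⟩ := nodrop_LExch s t Z B hB f (h2 f hf)
      exact ⟨Y, fun _ => hY⟩
    · exact ⟨∅, fun h => absurd h hf⟩
  choose Y hY using hY
  have hsub : ∀ f ∈ B.filter (fun f => cross_LExch s t f X), f ∈ B \ A := by
    intro f hf
    obtain ⟨hfB, hc⟩ := mem_filter.1 hf
    refine mem_sdiff.2 ⟨hfB, fun hfA => heB ?_⟩
    rw [← (hX f hfA).1 hc]; exact hfB
  obtain ⟨W, hW1, hW2⟩ := build_LExch s t B e Y (B.filter (fun f => cross_LExch s t f X))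
    fun f hf => hY f (hsub f hf)
  have hag : ∀ g ∈ B, cross_LExch s t g W ↔ cross_LExch s t g X := by
    intro g hg
    rw [hW1 g hg, mem_filter]
    exact ⟨fun h => h.2, fun h => ⟨hg, h⟩⟩
  obtain ⟨f, hf, hc⟩ := hW2 ((agree_LExch s t Z hZ B hB W X hag e).2 ((hX e heA).2 rfl))
  exact ⟨e, he, f, hsub f hf, swap_LExch s t Z hZ A hA e f X hX (mem_filter.1 hf).2,
    swap_LExch s t Z hZ B hB f e (Y f) (hY f (hsub f hf)) hc⟩

end Pool.Agent.P.MP_e59a69_co
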