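import Pool.Agent.P.MP_e59a69_co.LList2

/-! Random choice of the special vertices. -/

open Finset Function

namespace Pool.Agent.P.MP_e59a69_co

variable {V : Type} [Fintype V] [DecidableEq V] {π μ : Equiv.Perm V}

lemma bad_count_LLev1 (hμ : ∀ v, μ (μ v) = v) (Rp : Finset V) (L q : ℕ) (hL : 2 ≤ L)
    (y : V → Fin q → V)
    (hy : ∀ r ∈ Rp, ∀ r' ∈ Rp, ∀ a a', (r, a) ≠ (r', a') →
      Disjoint (Sys π μ L (y r a)) (Sys π μ L (y r' a'))) (K : Finset V) :
    ∑ r ∈ Rp, #{a | y r a ∈ Bad π μ L K} ≤ dc π μ K := by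
  let D : Finset V := (univ.filter fun v => ¬ (v ∈ K ↔ π v ∈ K)) ∪
    univ.filter fun v => ¬ (v ∈ K ↔ μ v ∈ K)
  have h1 : #D ≤ dc π μ K := by
    rw [dc, ← card_mucut hμ]; exact card_union_le _ _
  have h2 : ∀ s, ∃ x, s ∈ Bad π μ L K → x ∈ D ∧ x ∈ Sys π μ L s := by
    intro s
    by_contra hc
    push Not at hc
    refine (mem_filter.1 (hc s).1).2 (Sys_conn hL s K fun x hx => ?_)
    have : x ∉ D := fun h => (hc x).2 h hx
    simpa only [D, mem_union, mem_filter, mem_univ, true_and, not_or, not_not] using this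
  choose f hf using h2
  have h3 : ∑ r ∈ Rp, #{a | y r a ∈ Bad π μ L K} =
      #((Rp ×ˢ (univ : Finset (Fin q))).filter fun p => y p.1 p.2 ∈ Bad π μ L K) := by
    rw [card_filter, Finset.sum_product]
    exact Finset.sum_congr rfl fun r _ => card_filter _ _
  rw [h3]
  refine le_trans (card_le_card_of_injOn (fun p => f (y p.1 p.2)) (fun p hp => ?_)
    (fun p hp p' hp' e => ?_)) h1
  · exact (hf _ (mem_filter.1 hp).2).1
  · by_contra hne
    have a1 := mem_filter.1 hp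
    have a2 := mem_filter.1 hp'
    have e' : f (y p.1 p.2) = f (y p'.1 p'.2) := e
    exact Finset.disjoint_left.1 (hy p.1 (mem_product.1 a1.1).1 p'.1 (mem_product.1 a2.1).1
      p.2 p'.2 hne) (hf _ a1.2).2 (e' ▸ (hf _ a2.2).2)

theorem level_one (hμ : ∀ v, μ (μ v) = v) (Rp : Finset V) (L q : ℕ) (hL : 2 ≤ L) (hq : 2 ≤ q)
    (y : V → Fin q → V)
    (hy : ∀ r ∈ Rp, ∀ r' ∈ Rp, ∀ a a', (r, a) ≠ (r', a') →
      Disjoint (Sys π μ L (y r a)) (Sys π μ L (y r' a')))
    (F : Finset (Finset V)) (γ : ℝ) (hγ : 52 * L * (γ + 1) ≤ Real.log q)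
    (hsum : ∑ X ∈ F, Real.exp (-γ * dc π μ X) < 1) :
    ∃ j : V → Fin q, ∀ X ∈ F, 52 * L * #{r ∈ Rp | y r (j r) ∈ Bad π μ L X} ≤ dc π μ X := by
  have hq1 : (1 : ℝ) < q := by exact_mod_cast hq
  have hq0 : (0 : ℝ) < q := by linarith
  have hlog : 0 < Real.log q := Real.log_pos hq1
  have hL0 : (0 : ℝ) < 52 * L := by
    have : (0 : ℝ) < L := by exact_mod_cast (by omega : 0 < L)
    linarith
  set θ : ℝ := Real.log q / (52 * L) with hθ
  have hθ1 : γ + 1 ≤ θ := by rw [hθ, le_div_iff₀ hL0]; linarith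
  let g : Finset V → V → Fin q → ℝ := fun X r a => if y r a ∈ Bad π μ L X then q else 1
  have hg : ∀ X r a, 0 ≤ g X r a := fun X r a => by
    simp only [g]; split_ifs
    · exact hq0.le
    · exact zero_le_one
  obtain ⟨j, hj⟩ := avg_select Rp q (by omega) F (fun X => Real.exp (-(dc π μ X * θ)))
    (fun _ => (Real.exp_pos _).le) g hg
  have hlt : ∑ X ∈ F, Real.exp (-(dc π μ X * θ)) * ∏ r ∈ Rp, g X r (j r) < 1 := by
    refine lt_of_le_of_lt (hj.trans (Finset.sum_le_sum fun X _ => ?_)) hsum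
    have e1 : ∀ r, (∑ a, g X r a) / q ≤ Real.exp (#{a | y r a ∈ Bad π μ L X} : ℕ) := by
      intro r
      refine le_trans ?_ (Real.add_one_le_exp _)
      rw [div_le_iff₀ hq0]
      have : ∑ a, g X r a ≤ ∑ a : Fin q, ((if y r a ∈ Bad π μ L X then (q : ℝ) else 0) + 1) :=
        Finset.sum_le_sum fun a _ => by
          simp only [g]; split_ifs <;> linarith
      rw [Finset.sum_add_distrib, ← Finset.sum_filter, Finset.sum_const, Finset.sum_const,
        nsmul_eq_mul, nsmul_eq_mul, card_univ, Fintype.card_fin] at this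
      linarith
    have e2 : ∏ r ∈ Rp, ((∑ a, g X r a) / q) ≤ Real.exp (dc π μ X) := by
      refine (Finset.prod_le_prod (fun r _ => div_nonneg (Finset.sum_nonneg fun a _ => hg X r a)
        hq0.le) fun r _ => e1 r).trans ?_
      rw [← Real.exp_sum, Real.exp_le_exp, ← Nat.cast_sum]
      exact_mod_cast bad_count_LLev1 hμ Rp L q hL y hy X
    refine (mul_le_mul_of_nonneg_left e2 (Real.exp_pos _).le).trans ?_
    rw [← Real.exp_add, Real.exp_le_exp]
    have : (0 : ℝ) ≤ dc π μ X := Nat.cast_nonneg _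
    nlinarith
  refine ⟨j, fun X hX => ?_⟩
  have h1 := (Finset.single_le_sum (f := fun X => Real.exp (-(dc π μ X * θ)) *
    ∏ r ∈ Rp, g X r (j r)) (fun X _ => mul_nonneg (Real.exp_pos _).le
      (Finset.prod_nonneg fun r _ => hg X r _)) hX).trans_lt hlt
  have h2 : ∏ r ∈ Rp, g X r (j r) =
      Real.exp (#{r ∈ Rp | y r (j r) ∈ Bad π μ L X} * Real.log q) := by
    rw [Real.exp_nat_mul, Real.exp_log hq0]
    simp only [g]
    rw [← Finset.prod_filter, Finset.prod_const]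
  simp only [h2] at h1
  rw [← Real.exp_add, ← Real.exp_zero, Real.exp_lt_exp, hθ, ← mul_div_assoc, neg_add_lt_iff_lt_add,
    add_zero, lt_div_iff₀ hL0] at h1
  have h3 : (52 * L * #{r ∈ Rp | y r (j r) ∈ Bad π μ L X} : ℝ) < dc π μ X :=
    lt_of_mul_lt_mul_right (by linarith) hlog.le
  exact_mod_cast h3.le

end Pool.Agent.P.MP_e59a69_co
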