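import Pool.Agent.P.MP_e59a69_co.LExch

/-! Swap rounding with an exponential potential. -/

open Finset Function

namespace Pool.Agent.P.MP_e59a69_co

variable {N E : Type} [Fintype E] [DecidableEq N] [DecidableEq E]

/-- the potential -/
noncomputable def phi_LSwap (C : Finset (Finset N)) (ω : Finset N → ℝ) (p : Finset N → E → ℝ)
    (x : E → ℝ) : ℝ := ∑ X ∈ C, ω X * ∏ e, (1 + p X e * x e)

/-- indicator of an edge set -/
def ind_LSwap (A : Finset E) (e : E) : ℝ := if e ∈ A then 1 else 0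

omit [Fintype E] in
lemma ind_nonneg_LSwap (A : Finset E) (e : E) : 0 ≤ ind_LSwap A e := by
  unfold ind_LSwap
  split_ifs <;> norm_num

omit [Fintype E] in
lemma ind_mono_LSwap {A B : Finset E} (h : A ⊆ B) (e : E) : ind_LSwap A e ≤ ind_LSwap B e := by
  unfold ind_LSwap
  by_cases a : e ∈ A
  · simp [a, h a]
  · simp only [a, if_false]
    split_ifs <;> norm_num

section
variable {C : Finset (Finset N)} {ω : Finset N → ℝ} {p : Finset N → E → ℝ}

omit [DecidableEq N] [DecidableEq E] in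
lemma mono_LSwap (hω : ∀ X, 0 ≤ ω X) (hp : ∀ X e, 0 ≤ p X e) {x y : E → ℝ} (hx : ∀ e, 0 ≤ x e)
    (h : ∀ e, x e ≤ y e) : phi_LSwap C ω p x ≤ phi_LSwap C ω p y := by
  refine sum_le_sum fun X _ => mul_le_mul_of_nonneg_left ?_ (hω X)
  refine prod_le_prod (fun e _ => ?_) fun e _ => ?_
  · have := mul_nonneg (hp X e) (hx e)
    linarith
  · have := mul_le_mul_of_nonneg_left (h e) (hp X e)
    linarith

lemma prod_two_LSwap (g : E → ℝ) {e f : E} (h : e ≠ f) :
    ∏ a, g a = g e * (g f * ∏ a ∈ (univ.erase e).erase f, g a) := by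
  rw [mul_prod_erase _ _ (mem_erase.2 ⟨h.symm, mem_univ f⟩), mul_prod_erase _ _ (mem_univ e)]

omit [DecidableEq N] in
lemma conc_LSwap (hω : ∀ X, 0 ≤ ω X) (hp : ∀ X e, 0 ≤ p X e) {x x1 x2 : E → ℝ}
    (hx : ∀ e, 0 ≤ x e) {e f : E} (hef : e ≠ f) {b1 b2 : ℝ} (h1 : 0 < b1) (h2 : 0 < b2)
    (o1 : ∀ a, a ≠ e → a ≠ f → x1 a = x a) (o2 : ∀ a, a ≠ e → a ≠ f → x2 a = x a)
    (e1 : x1 e = x e - b1) (f1 : x1 f = x f + b1) (e2 : x2 e = x e + b2) (f2 : x2 f = x f - b2) :
    phi_LSwap C ω p x1 ≤ phi_LSwap C ω p x ∨ phi_LSwap C ω p x2 ≤ phi_LSwap C ω p x := by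
  have key : b2 * phi_LSwap C ω p x1 + b1 * phi_LSwap C ω p x2 ≤
      (b1 + b2) * phi_LSwap C ω p x := by
    unfold phi_LSwap
    rw [mul_sum, mul_sum, mul_sum, ← sum_add_distrib]
    refine sum_le_sum fun X _ => ?_
    have q1 : ∏ a ∈ (univ.erase e).erase f, (1 + p X a * x1 a) =
        ∏ a ∈ (univ.erase e).erase f, (1 + p X a * x a) :=
      prod_congr rfl fun a ha => by
        rw [o1 a (mem_erase.1 (mem_erase.1 ha).2).1 (mem_erase.1 ha).1]
    have q2 : ∏ a ∈ (univ.erase e).erase f, (1 + p X a * x2 a) =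
        ∏ a ∈ (univ.erase e).erase f, (1 + p X a * x a) :=
      prod_congr rfl fun a ha => by
        rw [o2 a (mem_erase.1 (mem_erase.1 ha).2).1 (mem_erase.1 ha).1]
    have hP : 0 ≤ ∏ a ∈ (univ.erase e).erase f, (1 + p X a * x a) :=
      prod_nonneg fun a _ => by
        have := mul_nonneg (hp X a) (hx a)
        linarith
    rw [prod_two_LSwap (fun a => 1 + p X a * x1 a) hef,
      prod_two_LSwap (fun a => 1 + p X a * x2 a) hef,
      prod_two_LSwap (fun a => 1 + p X a * x a) hef, q1, q2, e1, f1, e2, f2]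
    generalize (∏ a ∈ (univ.erase e).erase f, (1 + p X a * x a)) = P at hP
    have := mul_nonneg (mul_nonneg (mul_nonneg (hω X) hP) (mul_nonneg (hp X e) (hp X f)))
      (mul_pos (mul_pos h1 h2) (add_pos h1 h2)).le
    nlinarith [this]
  by_contra hc
  rw [not_or, not_le, not_le] at hc
  have a1 := mul_lt_mul_of_pos_left hc.1 h2
  have a2 := mul_lt_mul_of_pos_left hc.2 h1
  nlinarith

lemma merge_LSwap (s t : E → N) (Z : Finset N) (hZ : ∀ e, s e ∈ Z ∧ t e ∈ Z)
    (hω : ∀ X, 0 ≤ ω X) (hp : ∀ X e, 0 ≤ p X e) {y : E → ℝ} (hy : ∀ e, 0 ≤ y e) {b1 b2 : ℝ}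
    (h1 : 0 < b1) (h2 : 0 < b2) (n : ℕ) : ∀ A B : Finset E, #{a | ¬(a ∈ A ↔ a ∈ B)} ≤ n →
      Conn s t Z A → Conn s t Z B → ∃ T, Conn s t Z T ∧
        phi_LSwap C ω p (fun a => y a + (b1 + b2) * ind_LSwap T a) ≤
          phi_LSwap C ω p (fun a => y a + b1 * ind_LSwap A a + b2 * ind_LSwap B a) := by
  have hn : ∀ (A B : Finset E) a, 0 ≤ y a + b1 * ind_LSwap A a + b2 * ind_LSwap B a :=
    fun A B a => add_nonneg (add_nonneg (hy a) (mul_nonneg h1.le (ind_nonneg_LSwap A a)))
      (mul_nonneg h2.le (ind_nonneg_LSwap B a))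
  have same : ∀ A : Finset E, Conn s t Z A → ∃ T, Conn s t Z T ∧
      phi_LSwap C ω p (fun a => y a + (b1 + b2) * ind_LSwap T a) ≤
        phi_LSwap C ω p (fun a => y a + b1 * ind_LSwap A a + b2 * ind_LSwap A a) :=
    fun A hA => ⟨A, hA, le_of_eq (congrArg _ (funext fun a => by ring))⟩
  induction n with
  | zero =>
    intro A B h hA _
    have : A = B := by
      ext a
      by_contra ha
      have : 0 < #{a | ¬(a ∈ A ↔ a ∈ B)} := card_pos.2 ⟨a, mem_filter.2 ⟨mem_univ a, ha⟩⟩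
      omega
    subst this
    exact same A hA
  | succ n ih =>
    intro A B h hA hB
    by_cases hne : A = B
    · subst hne
      exact same A hA
    have dec : ∀ (A' B' : Finset E) (e : E), ¬(e ∈ A ↔ e ∈ B) → (e ∈ A' ↔ e ∈ B') →
        (∀ a, (a ∈ A ↔ a ∈ B) → (a ∈ A' ↔ a ∈ B')) → #{a | ¬(a ∈ A' ↔ a ∈ B')} ≤ n := by
      intro A' B' e he he' ha
      have : #{a | ¬(a ∈ A' ↔ a ∈ B')} < #{a | ¬(a ∈ A ↔ a ∈ B)} := by
        refine card_lt_card ⟨fun a h => ?_, fun h => ?_⟩
        · exact mem_filter.2 ⟨mem_univ a, fun h' => (mem_filter.1 h).2 (ha a h')⟩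
        · exact (mem_filter.1 (h (mem_filter.2 ⟨mem_univ e, he⟩))).2 he'
      omega
    rcases exchange s t Z hZ A B hA hB hne with ⟨e, he, hc⟩ | ⟨f, hf, hc⟩ | ⟨e, he, f, hf, c1, c2⟩
    · rw [mem_sdiff] at he
      obtain ⟨T, hT, hle⟩ := ih (A.erase e) B (dec _ _ e (by simp [he.1, he.2]) (by simp [he.2])
        fun a ha => by
          by_cases q : a = e
          · simp [q, he.2]
          · simp [q, ha]) hc hB
      refine ⟨T, hT, hle.trans (mono_LSwap hω hp (hn _ _) fun a => ?_)⟩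
      have := mul_le_mul_of_nonneg_left (ind_mono_LSwap (erase_subset e A) a) h1.le
      linarith
    · rw [mem_sdiff] at hf
      obtain ⟨T, hT, hle⟩ := ih A (B.erase f) (dec _ _ f (by simp [hf.1, hf.2]) (by simp [hf.2])
        fun a ha => by
          by_cases q : a = f
          · simp [q, hf.2]
          · simp [q, ha]) hA hc
      refine ⟨T, hT, hle.trans (mono_LSwap hω hp (hn _ _) fun a => ?_)⟩
      have := mul_le_mul_of_nonneg_left (ind_mono_LSwap (erase_subset f B) a) h2.le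
      linarith
    · rw [mem_sdiff] at he hf
      have hef : e ≠ f := fun q => hf.2 (q ▸ he.1)
      have := conc_LSwap (C := C) hω hp (hn A B) hef h1 h2
        (x1 := fun a => y a + b1 * ind_LSwap (insert f (A.erase e)) a + b2 * ind_LSwap B a)
        (x2 := fun a => y a + b1 * ind_LSwap A a + b2 * ind_LSwap (insert e (B.erase f)) a)
        (fun a q r => by simp [ind_LSwap, q, r]) (fun a q r => by simp [ind_LSwap, q, r])
        (by simp [ind_LSwap, hef, he.1, he.2]) (by simp [ind_LSwap, hf.1, hf.2]; ring)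
        (by simp [ind_LSwap, he.1, he.2]) (by simp [ind_LSwap, hef.symm, hf.1, hf.2])
      rcases this with hl | hl
      · obtain ⟨T, hT, hle⟩ := ih (insert f (A.erase e)) B
          (dec _ _ e (by simp [he.1, he.2]) (by simp [he.2, hef]) fun a ha => by
            by_cases q : a = e
            · simp [q, he.2, hef]
            · by_cases r : a = f
              · simp [r, hf.1]
              · simp [q, r, ha]) c1 hB
        exact ⟨T, hT, hle.trans hl⟩
      · obtain ⟨T, hT, hle⟩ := ih A (insert e (B.erase f))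
          (dec _ _ e (by simp [he.1, he.2]) (by simp [he.1]) fun a ha => by
            by_cases q : a = e
            · simp [q, he.1]
            · by_cases r : a = f
              · simp [r, hf.2, hef.symm]
              · simp [q, r, ha]) hA c2
        exact ⟨T, hT, hle.trans hl⟩

end

theorem swap_round (s t : E → N) (Z : Finset N) (hZ : ∀ e, s e ∈ Z ∧ t e ∈ Z) (T : ℕ → Finset E)
    (k : ℕ) (hk : 0 < k) (hd : ∀ i j, i ≠ j → Disjoint (T i) (T j))
    (hT : ∀ i < k, Conn s t Z (T i)) (C : Finset (Finset N)) (ω : Finset N → ℝ)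
    (hω : ∀ X, 0 ≤ ω X) (lam : ℝ) (hlam : 1 ≤ lam) :
    ∃ T', Conn s t Z T' ∧ ∑ X ∈ C, ω X * lam ^ ct s t T' X ≤
      ∑ X ∈ C, ω X * Real.exp ((lam - 1) * ct s t univ X / k) := by
  let p : Finset N → E → ℝ := fun X e => if ¬(s e ∈ X ↔ t e ∈ X) then lam - 1 else 0
  have hp : ∀ X e, 0 ≤ p X e := fun X e => by
    simp only [p]
    split_ifs <;> linarith
  have hk' : (0 : ℝ) < k := by exact_mod_cast hk
  have hb : (0 : ℝ) < 1 / k := by positivity
  have main : ∀ m, m < k → ∃ T', Conn s t Z T' ∧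
      phi_LSwap C ω p (fun a => ∑ i ∈ Ico (m + 1) k, 1 / k * ind_LSwap (T i) a +
        (m + 1 : ℝ) / k * ind_LSwap T' a) ≤
      phi_LSwap C ω p (fun a => ∑ i ∈ Ico 0 k, 1 / k * ind_LSwap (T i) a) := by
    intro m
    induction m with
    | zero =>
      intro _
      refine ⟨T 0, hT 0 hk, le_of_eq (congrArg _ (funext fun a => ?_))⟩
      rw [sum_eq_sum_Ico_succ_bot hk]
      push_cast
      ring
    | succ m ih =>
      intro hm
      obtain ⟨A, hA, hle⟩ := ih (by omega)
      obtain ⟨T', hT', h⟩ := merge_LSwap (C := C) s t Z hZ hω hp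
        (y := fun a => ∑ i ∈ Ico (m + 1 + 1) k, 1 / k * ind_LSwap (T i) a)
        (fun a => sum_nonneg fun i _ => mul_nonneg hb.le (ind_nonneg_LSwap _ _))
        (b1 := (m + 1 : ℝ) / k) (b2 := 1 / k) (by positivity) hb _ A (T (m + 1)) le_rfl hA
        (hT _ hm)
      refine ⟨T', hT', le_trans (le_of_eq (congrArg _ (funext fun a => ?_)))
        (h.trans (le_trans (le_of_eq (congrArg _ (funext fun a => ?_))) hle))⟩
      · push_cast
        ring
      · rw [sum_eq_sum_Ico_succ_bot hm]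
        ring
  obtain ⟨T', hT', h⟩ := main (k - 1) (by omega)
  refine ⟨T', hT', le_trans (le_of_eq ?_) (h.trans ?_)⟩
  · refine sum_congr rfl fun X _ => congrArg _ ?_
    have e1 : ((k - 1 : ℕ) + 1 : ℝ) = k := by exact_mod_cast Nat.sub_add_cancel hk
    rw [Nat.sub_add_cancel hk, e1, div_self hk'.ne', ct, ← prod_const, prod_filter,
      ← prod_subset (subset_univ T') fun a _ ha => by simp [ind_LSwap, ha]]
    refine prod_congr rfl fun a ha => ?_
    by_cases q : s a ∈ X ↔ t a ∈ X <;> simp [p, q, ind_LSwap, ha]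
  · refine sum_le_sum fun X _ => mul_le_mul_of_nonneg_left ?_ (hω X)
    have hx : ∀ a, ∑ i ∈ Ico 0 k, 1 / (k : ℝ) * ind_LSwap (T i) a ≤ 1 / k := fun a => by
      rw [← mul_sum]
      refine mul_le_of_le_one_right hb.le ?_
      unfold ind_LSwap
      rw [sum_boole]
      refine Nat.cast_le_one.2 (card_le_one.2 fun i hi j hj => ?_)
      by_contra hij
      exact disjoint_left.1 (hd i j hij) (mem_filter.1 hi).2 (mem_filter.1 hj).2
    have e : (lam - 1) * ct s t univ X / k = ∑ a, p X a * (1 / k) := by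
      rw [← sum_mul, ← sum_filter, sum_const, nsmul_eq_mul, ct]
      ring
    rw [e, Real.exp_sum]
    refine prod_le_prod (fun a _ => ?_) fun a _ => ?_
    · have := mul_nonneg (hp X a) (sum_nonneg (s := Ico 0 k) fun i _ =>
        mul_nonneg hb.le (ind_nonneg_LSwap (T i) a))
      linarith
    · have h1 := mul_le_mul_of_nonneg_left (hx a) (hp X a)
      have h2 := Real.add_one_le_exp (p X a * (1 / k))
      linarith

end Pool.Agent.P.MP_e59a69_co
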