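import Pool.Agent.P.MP_e59a69_co.LList
import Pool.Agent.P.MP_e59a69_co.LList2
import Pool.Agent.P.MP_e59a69_co.LPack
import Pool.Agent.P.MP_e59a69_co.LCand
import Pool.Agent.P.MP_e59a69_co.LSplit
import Pool.Agent.P.MP_e59a69_co.LSwap

/-! Random choice of the pairing. -/

open Finset Function

namespace Pool.Agent.P.MP_e59a69_co

variable {V : Type} [Fintype V] [DecidableEq V] {π μ : Equiv.Perm V} {c : ℕ}

lemma card_Sys_ge_LLev2 (H : Hyp π μ c) {L : ℕ} (hc : 2 * L + 10 ≤ c) (s : V) :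
    L ≤ #(Sys π μ L s) := by
  have h1 : Iv π s (-L) L ⊆ Sys π μ L s := by
    intro x hx
    obtain ⟨t, h1, h2, rfl⟩ := mem_Iv.1 hx
    exact pow_mem_Sys s h1 h2
  have h2 := H.card_Iv s (a := -L) (b := L) (by omega)
  have h3 := card_le_card h1
  omega

lemma ct_double_LLev2 (hμ : ∀ v, μ (μ v) = v) (g : V → V) (X : Finset V) :
    ct (fun e : (V × Bool) × Bool => g (es e.1)) (fun e => g (et π μ e.1)) univ X =
      2 * dc π μ {v | g v ∈ X} := by
  rw [← ct_et π hμ]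
  unfold ct
  rw [card_filter, card_filter, Fintype.sum_prod_type, Finset.mul_sum]
  refine Finset.sum_congr rfl fun e _ => ?_
  rw [Fintype.sum_bool]
  simp only [mem_filter, mem_univ, true_and]
  ring

omit [Fintype V] in
lemma exists_g_LLev2 (L : ℕ) (S : Finset V)
    (hdis : ∀ s ∈ S, ∀ s' ∈ S, s ≠ s' → Disjoint (Sys π μ L s) (Sys π μ L s')) :
    ∃ g : V → V, (∀ s ∈ S, ∀ v ∈ Sys π μ L s, g v = s) ∧
      ∀ v, g v = v ∨ (g v ∈ S ∧ v ∈ Sys π μ L (g v)) := by
  classical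
  refine ⟨fun v => if h : ∃ s ∈ S, v ∈ Sys π μ L s then h.choose else v, ?_, ?_⟩
  · intro s hs v hv
    have h : ∃ s ∈ S, v ∈ Sys π μ L s := ⟨s, hs, hv⟩
    simp only [dif_pos h]
    by_contra hne
    exact Finset.disjoint_left.1 (hdis _ h.choose_spec.1 s hs hne) h.choose_spec.2 hv
  · intro v
    by_cases h : ∃ s ∈ S, v ∈ Sys π μ L s
    · right
      simp only [dif_pos h]
      exact h.choose_spec
    · left
      simp only [dif_neg h]

theorem level_two (H : Hyp π μ c) (L : ℕ) (hL : 6 ≤ L) (hc : 2 * L + 10 ≤ c) (S : Finset V)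
    (hS : Even #S) (hdis : ∀ s ∈ S, ∀ s' ∈ S, s ≠ s' → Disjoint (Sys π μ L s) (Sys π μ L s'))
    (F : Finset (Finset V)) (γ : ℝ) (hγ : 240 * (γ + 8) ≤ Real.log L)
    (hsum : ∑ X ∈ F, Real.exp (-γ * dc π μ X) < 1)
    (hbad : ∀ X ∈ F, 52 * L * #{s ∈ S | s ∈ Bad π μ L X} ≤ dc π μ X) :
    ∃ Q : V → V, (∀ t ∈ S, Q t ∈ S ∧ Q t ≠ t ∧ Q (Q t) = t) ∧
      ∀ X ∈ F, 120 * dQ S Q X ≤ dc π μ X := by
  classical
  rcases S.eq_empty_or_nonempty with rfl | ⟨z0, hz0⟩
  · refine ⟨id, fun t ht => absurd ht (notMem_empty t), fun X _ => ?_⟩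
    simp [dQ]
  obtain ⟨g, hg1, hg2⟩ := exists_g_LLev2 (π := π) (μ := μ) L S hdis
  have hct := ct_double_LLev2 (π := π) H.inv g
  have hsep : ∀ X, Sep S X → 2 * L ≤
      ct (fun e : (V × Bool) × Bool => g (es e.1)) (fun e => g (et π μ e.1)) univ X := by
    rintro X ⟨⟨a, ha, haX⟩, b, hb, hbX⟩
    rw [hct]
    have h1 : Sys π μ L a ⊆ ({v | g v ∈ X} : Finset V) := fun v hv => by
      simp only [mem_filter, mem_univ, true_and]
      rw [hg1 a ha v hv]; exact haX
    have h2 : Sys π μ L b ⊆ ({v | g v ∈ X} : Finset V)ᶜ := fun v hv => by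
      simp only [mem_compl, mem_filter, mem_univ, true_and]
      rw [hg1 b hb v hv]; exact hbX
    have c1 := (card_Sys_ge_LLev2 H hc a).trans (card_le_card h1)
    have c2 := (card_Sys_ge_LLev2 H hc b).trans (card_le_card h2)
    have := H.cut _ (card_pos.1 (lt_of_lt_of_le (by omega) c1))
      (card_pos.1 (lt_of_lt_of_le (by omega) c2))
    unfold dc
    omega
  obtain ⟨s', t', hZ, hle, hge⟩ := split_off _ _ S z0 hz0 L
    (fun X => by rw [hct]; exact even_two_mul _) hsep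
  have hk3 : 3 ≤ 2 * L / 3 := by omega
  obtain ⟨T, hTd, hTc⟩ := pack s' t' S hZ (2 * L / 3) hk3
    (fun X hX => le_trans (by omega) (hge X hX))
  have hL1 : (1 : ℝ) < L := by exact_mod_cast (by omega : 1 < L)
  have hlog : 0 < Real.log L := Real.log_pos hL1
  obtain ⟨T', hT'c, hT'⟩ := swap_round s' t' S hZ T (2 * L / 3) (by omega) hTd hTc F
    (fun X => Real.exp (-(dc π μ X * Real.log L / 240))) (fun X => (Real.exp_pos _).le)
    (L : ℝ) hL1.le
  have h4 : ∀ X ∈ F, ct s' t' univ X ≤ 4 * dc π μ X := by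
    intro X hX
    have hD : #((S.filter fun s => s ∈ Bad π μ L X).biUnion fun s => Sys π μ L s) ≤
        #{s ∈ S | s ∈ Bad π μ L X} * (13 * L) :=
      card_biUnion_le_card_mul _ _ _ fun s _ => card_Sys hL s
    have h1 := dc_le_symmDiff (π := π) H.inv X {v | g v ∈ X}
      ((S.filter fun s => s ∈ Bad π μ L X).biUnion fun s => Sys π μ L s) (by
        intro v hv
        simp only [mem_filter, mem_univ, true_and]
        rcases hg2 v with h | ⟨h, h'⟩
        · rw [h]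
        · have hb : g v ∉ Bad π μ L X := fun hb =>
            hv (mem_biUnion.2 ⟨g v, mem_filter.2 ⟨h, hb⟩, h'⟩)
          simp only [Bad, mem_filter, mem_univ, true_and, not_not] at hb
          exact hb v h')
    have h2 := hbad X hX
    have h3 := hle X
    rw [hct] at h3
    have h5 : #{s ∈ S | s ∈ Bad π μ L X} * (13 * L) * 4 =
        52 * L * #{s ∈ S | s ∈ Bad π μ L X} := by ring
    omega
  have hk : (0 : ℝ) < ((2 * L / 3 : ℕ) : ℝ) := by exact_mod_cast (by omega : 0 < 2 * L / 3)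
  have hk2 : (L : ℝ) ≤ 2 * ((2 * L / 3 : ℕ) : ℝ) := by
    exact_mod_cast (by omega : L ≤ 2 * (2 * L / 3))
  have hlt : ∑ X ∈ F, Real.exp (-(dc π μ X * Real.log L / 240)) * (L : ℝ) ^ ct s' t' T' X < 1 := by
    refine lt_of_le_of_lt (hT'.trans (Finset.sum_le_sum fun X hX => ?_)) hsum
    rw [← Real.exp_add]
    refine Real.exp_le_exp.2 ?_
    have h1 : (ct s' t' univ X : ℝ) ≤ 4 * dc π μ X := by exact_mod_cast h4 X hX
    have h0 : (0 : ℝ) ≤ dc π μ X := Nat.cast_nonneg _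
    have h0' : (0 : ℝ) ≤ ct s' t' univ X := Nat.cast_nonneg _
    have h2 : ((L : ℝ) - 1) * ct s' t' univ X / ((2 * L / 3 : ℕ) : ℝ) ≤ 8 * dc π μ X := by
      rw [div_le_iff₀ hk]
      calc ((L : ℝ) - 1) * ct s' t' univ X
          ≤ (2 * ((2 * L / 3 : ℕ) : ℝ)) * (4 * dc π μ X) :=
            mul_le_mul (by linarith) h1 h0' (by positivity)
        _ = 8 * dc π μ X * ((2 * L / 3 : ℕ) : ℝ) := by ring
    have h3 := mul_le_mul_of_nonneg_left hγ h0
    linarith
  have hthin : ∀ X ∈ F, 240 * ct s' t' T' X ≤ dc π μ X := by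
    intro X hX
    have h1 := lt_of_le_of_lt (Finset.single_le_sum
      (f := fun X => Real.exp (-(dc π μ X * Real.log L / 240)) * (L : ℝ) ^ ct s' t' T' X)
      (fun X _ => by positivity) hX) hlt
    have h2 : (L : ℝ) ^ ct s' t' T' X = Real.exp (ct s' t' T' X * Real.log L) := by
      rw [Real.exp_nat_mul, Real.exp_log (by linarith)]
    rw [h2, ← Real.exp_add, Real.exp_lt_one_iff] at h1
    have h3 : (240 * ct s' t' T' X : ℝ) * Real.log L < dc π μ X * Real.log L := by linarith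
    have h5 := lt_of_mul_lt_mul_right h3 hlog.le
    exact_mod_cast h5.le
  obtain ⟨l, hl1, hl2, hl3⟩ := exists_list s' t' S T' (fun e _ => hZ e) hT'c
  have hlen : Even l.length := by rw [← List.toFinset_card_of_nodup hl1, hl2]; exact hS
  obtain ⟨Q, hQ1, hQ2⟩ := pair_of_list l hl1 hlen
  rw [hl2] at hQ1 hQ2
  refine ⟨Q, hQ1, fun X hX => ?_⟩
  have a1 := hQ2 X
  have a2 := hl3 X
  have a3 := hthin X hX
  omega

end Pool.Agent.P.MP_e59a69_co
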