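import Mathlib

/-! Choice of the parameters. -/

open Finset Function

namespace Pool.Agent.P.MP_e59a69_co

theorem params_LParams (K : ℝ) (hK : 22500 ≤ K) (c w : ℕ) (hc : Real.exp (Real.exp K) ≤ c)
    (hw : Real.exp (Real.exp K) * Real.log w ≤ c * Real.log (Real.log c)) :
    ∃ (L q : ℕ) (γ : ℝ), 60 ≤ L ∧ 2 ≤ q ∧
      580 * L * q ≤ c ∧ (∀ p : ℕ, 1 ≤ p → p ≤ w * c → 29 + 8 * Real.log p / c ≤ γ) ∧
      52 * L * (γ + 1) ≤ Real.log q ∧ 240 * (γ + 8) ≤ Real.log L := by
  have h1 : K + 1 ≤ Real.exp K := Real.add_one_le_exp K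
  have h2 : Real.exp K + 1 ≤ Real.exp (Real.exp K) := Real.add_one_le_exp _
  have hcpos : (0 : ℝ) < c := by linarith
  have hu : Real.exp K ≤ Real.log c := (Real.le_log_iff_exp_le hcpos).2 hc
  have hupos : 0 < Real.log c := by linarith
  have hv : K ≤ Real.log (Real.log c) := (Real.le_log_iff_exp_le hupos).2 hu
  have huc : Real.log c ≤ c := by
    have := Real.log_le_sub_one_of_pos hcpos
    linarith
  have hw0 : 0 ≤ Real.log w := Real.log_natCast_nonneg w
  obtain ⟨x, hx⟩ : ∃ x : ℝ, x = Real.log w / c := ⟨_, rfl⟩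
  have hx0 : 0 ≤ x := by rw [hx]; positivity
  have hxc : x * c = Real.log w := by rw [hx]; field_simp
  have hxv : 4000 * x ≤ Real.log (Real.log c) := by
    have h3 : 4000 * Real.log w ≤ c * Real.log (Real.log c) :=
      le_trans (mul_le_mul_of_nonneg_right (by linarith) hw0) hw
    rw [← hxc] at h3
    have h4 : (c : ℝ) * (4000 * x) ≤ c * Real.log (Real.log c) := by linarith
    exact le_of_mul_le_mul_left h4 hcpos
  obtain ⟨β, hβ⟩ : ∃ β : ℝ, β = 45 + 8 * x := ⟨_, rfl⟩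
  have hβ45 : 45 ≤ β := by linarith
  have hβv : 250 * β ≤ Real.log (Real.log c) := by linarith
  obtain ⟨E, hE⟩ : ∃ E : ℝ, E = Real.exp (240 * β) := ⟨_, rfl⟩
  obtain ⟨F, hF⟩ : ∃ F : ℝ, F = Real.exp (5 * β) := ⟨_, rfl⟩
  have hE1 : 240 * β + 1 ≤ E := by rw [hE]; exact Real.add_one_le_exp _
  have hF1 : 104 * β ≤ F := by
    have h5 := Real.quadratic_le_exp_of_nonneg (x := 5 * β) (by linarith)
    rw [← hF] at h5
    nlinarith
  have hEFF : E * F * F ≤ Real.log c := by
    have h6 : E * F * F = Real.exp (250 * β) := by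
      rw [hE, hF, ← Real.exp_add, ← Real.exp_add]
      congr 1
      ring
    rw [h6]
    exact (Real.le_log_iff_exp_le hupos).1 hβv
  have hE0 : 0 < E := by linarith
  have hF0 : 0 < F := by linarith
  have hEF : 2 * (E * F) ≤ Real.log c := by
    have h7 : 0 < E * F := mul_pos hE0 hF0
    have h8 : E * F * 2 ≤ E * F * F := mul_le_mul_of_nonneg_left (by linarith) h7.le
    linarith
  obtain ⟨L, hL⟩ : ∃ L : ℕ, L = ⌈E⌉₊ := ⟨_, rfl⟩
  have hL1 : E ≤ L := by rw [hL]; exact Nat.le_ceil E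
  have hL2 : (L : ℝ) ≤ 2 * E := by
    have := Nat.ceil_lt_add_one hE0.le
    rw [← hL] at this
    linarith
  have hL60 : 60 ≤ L := by
    have : (60 : ℝ) ≤ L := by linarith
    exact_mod_cast this
  have hLu : 2 * (1160 * (L : ℝ)) ≤ Real.log c := by
    have h9 : E * 2320 ≤ E * F := mul_le_mul_of_nonneg_left (by linarith) hE0.le
    linarith
  have hLc : 1160 * L ≤ c := by
    have hL0 : (0 : ℝ) ≤ L := Nat.cast_nonneg L
    have : (1160 : ℝ) * L ≤ c := by linarith
    exact_mod_cast this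
  have hLpos : 0 < 580 * L := by omega
  obtain ⟨q, hq⟩ : ∃ q : ℕ, q = c / (580 * L) := ⟨_, rfl⟩
  have hq2 : 2 ≤ q := by
    rw [hq, Nat.le_div_iff_mul_le hLpos]
    omega
  have hq3 : 580 * L * q ≤ c := by rw [hq]; exact Nat.mul_div_le c _
  have hq4 : c ≤ 1160 * L * q := by
    have h10 : c < 580 * L * (q + 1) := by rw [hq]; exact Nat.lt_mul_div_succ c hLpos
    have h11 : 580 * L * (q + 1) ≤ 580 * L * (2 * q) := Nat.mul_le_mul_left _ (by omega)
    calc c ≤ 580 * L * (2 * q) := by omega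
      _ = 1160 * L * q := by ring
  refine ⟨L, q, β - 8, hL60, hq2, hq3, ?_, ?_, ?_⟩
  · intro p hp1 hp2
    have hp0 : (0 : ℝ) < p := by exact_mod_cast hp1
    have hwpos : 0 < w := by
      rcases Nat.eq_zero_or_pos w with h | h
      · rw [h] at hp2; omega
      · exact h
    have hw1 : (0 : ℝ) < w := by exact_mod_cast hwpos
    have h12 : Real.log p ≤ Real.log w + Real.log c := by
      rw [← Real.log_mul hw1.ne' hcpos.ne']
      exact Real.log_le_log hp0 (by exact_mod_cast hp2)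
    have h13 : 8 * Real.log p / c ≤ 8 * x + 8 := by
      rw [div_le_iff₀ hcpos]
      nlinarith
    linarith
  · have hLr : (0 : ℝ) < 1160 * L := by
      have : (60 : ℝ) ≤ L := by exact_mod_cast hL60
      linarith
    have hqr : (0 : ℝ) < q := by
      have : (2 : ℝ) ≤ q := by exact_mod_cast hq2
      linarith
    have h14 : Real.log c ≤ Real.log (1160 * L) + Real.log q := by
      rw [← Real.log_mul hLr.ne' hqr.ne']
      exact Real.log_le_log hcpos (by exact_mod_cast hq4)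
    have h15 := Real.log_le_sub_one_of_pos hLr
    have h16 : (L : ℝ) * (β - 8 + 1) ≤ 2 * E * β :=
      mul_le_mul hL2 (by linarith) (by linarith) (by linarith)
    have h17 : E * (104 * β) ≤ E * F := mul_le_mul_of_nonneg_left hF1 hE0.le
    nlinarith
  · have h18 : 240 * β ≤ Real.log L := by
      rw [Real.le_log_iff_exp_le (by linarith), ← hE]
      exact hL1
    linarith

theorem params2 : ∃ C : ℝ, 20 ≤ C ∧ ∀ c w : ℕ, C ≤ c →
    C * Real.log w ≤ c * Real.log (Real.log c) → ∃ (L q : ℕ) (γ : ℝ), 60 ≤ L ∧ 2 ≤ q ∧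
      580 * L * q ≤ c ∧ (∀ p : ℕ, 1 ≤ p → p ≤ w * c → 29 + 8 * Real.log p / c ≤ γ) ∧
      52 * L * (γ + 1) ≤ Real.log q ∧ 240 * (γ + 8) ≤ Real.log L := by
  obtain ⟨K, hK⟩ : ∃ K : ℝ, 22500 ≤ K := ⟨22500, le_refl _⟩
  refine ⟨Real.exp (Real.exp K), ?_, fun c w hc hw => params_LParams K hK c w hc hw⟩
  have h1 : K + 1 ≤ Real.exp K := Real.add_one_le_exp K
  have h2 : Real.exp K + 1 ≤ Real.exp (Real.exp K) := Real.add_one_le_exp _
  linarith

end Pool.Agent.P.MP_e59a69_co
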