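import Pool.Agent.P.MP_e59a69_co.LDefs

/-! Contraction of the smallest cluster. -/

open Finset Function

namespace Pool.Agent.P.MP_e59a69_co

variable {N E : Type} [Fintype N] [Fintype E] [DecidableEq N] [DecidableEq E]

/-- size of the cluster of `v` -/
def sz_LMerge (f : N → N) (v : N) : ℕ := #{u | f u = f v}

/-- weight of a cluster size -/
noncomputable def hh_LMerge (q : ℕ) : ℝ := 14 / Real.sqrt q

/-- exponent of a cut -/
noncomputable def W_LMerge (s t : E → N) (f : N → N) (X : Finset N) : ℝ :=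
  ∑ e ∈ univ.filter (fun e => ¬ (s e ∈ X ↔ t e ∈ X)),
    (hh_LMerge (sz_LMerge f (s e)) + hh_LMerge (sz_LMerge f (t e)))

/-- the potential -/
noncomputable def Psi_LMerge (s t : E → N) (F : Finset (Finset N)) (ω : Finset N → ℝ)
    (f : N → N) : ℝ :=
  ∑ X ∈ F with (∀ v, v ∈ X ↔ f v ∈ X), ω X * Real.exp (-W_LMerge s t f X)

/-- the cluster of `v0` is glued to the cluster of `w` -/
def glue_LMerge (f : N → N) (v0 w : N) (u : N) : N := if f u = f v0 then f w else f u

lemma sz_pos_LMerge (f : N → N) (v : N) : 1 ≤ sz_LMerge f v :=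
  card_pos.2 ⟨v, by simp⟩

lemma hh_nonneg_LMerge (q : ℕ) : 0 ≤ hh_LMerge q :=
  div_nonneg (by norm_num) (Real.sqrt_nonneg _)

lemma hh_anti_LMerge {p q : ℕ} (hp : 1 ≤ p) (h : p ≤ q) : hh_LMerge q ≤ hh_LMerge p := by
  unfold hh_LMerge
  have h1 : (0 : ℝ) < Real.sqrt p := Real.sqrt_pos.2 (by exact_mod_cast hp)
  exact div_le_div_of_nonneg_left (by norm_num) h1 (Real.sqrt_le_sqrt (by exact_mod_cast h))

lemma hh_drop_LMerge {p q : ℕ} (hp : 1 ≤ p) (h : 2 * p ≤ q) :
    hh_LMerge q + 4 / Real.sqrt p ≤ hh_LMerge p := by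
  unfold hh_LMerge
  have hp' : (1 : ℝ) ≤ p := by exact_mod_cast hp
  have hq' : 2 * (p : ℝ) ≤ q := by exact_mod_cast h
  have h1 : (0 : ℝ) < Real.sqrt p := Real.sqrt_pos.2 (by linarith)
  have h2 : (0 : ℝ) < Real.sqrt q := Real.sqrt_pos.2 (by linarith)
  have h3 : 14 * Real.sqrt p ≤ 10 * Real.sqrt q := by
    have a1 : Real.sqrt p ^ 2 = p := Real.sq_sqrt (by linarith)
    have a2 : Real.sqrt q ^ 2 = q := Real.sq_sqrt (by linarith)
    by_contra hc
    push Not at hc
    nlinarith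
  have h4 : 14 / Real.sqrt q ≤ 10 / Real.sqrt p := by
    rw [div_le_div_iff₀ h2 h1]
    exact h3
  have h5 : (14 : ℝ) / Real.sqrt p = 10 / Real.sqrt p + 4 / Real.sqrt p := by ring
  linarith

lemma num_LMerge {a b q : ℕ} (hab : a + 1 ≤ b) (hq : 1 ≤ q) (hb : q + 2 ≤ b) :
    (b : ℝ) ≤ ((b : ℝ) - a) * Real.exp (a * (4 / Real.sqrt q)) := by
  have hab' : (a : ℝ) + 1 ≤ b := by exact_mod_cast hab
  have hq' : (1 : ℝ) ≤ q := by exact_mod_cast hq
  have hb' : (q : ℝ) + 2 ≤ b := by exact_mod_cast hb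
  have ha0 : (0 : ℝ) ≤ a := Nat.cast_nonneg a
  have hb0 : (0 : ℝ) < b := by linarith
  have h1 : (0 : ℝ) < Real.sqrt q := Real.sqrt_pos.2 (by linarith)
  have h2 : Real.sqrt q ≤ Real.sqrt b := Real.sqrt_le_sqrt (by linarith)
  have a2 : Real.sqrt b ^ 2 = b := Real.sq_sqrt hb0.le
  have h3 : (1 : ℝ) ≤ Real.sqrt b := Real.one_le_sqrt.2 (by linarith)
  by_cases h : 2 * (a : ℝ) ≤ b
  · have e1 : 2 / (b : ℝ) ≤ 4 / Real.sqrt q := by
      rw [div_le_div_iff₀ hb0 h1]
      nlinarith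
    have e2 : 1 + a * (2 / (b : ℝ)) ≤ Real.exp (a * (4 / Real.sqrt q)) := by
      have := Real.add_one_le_exp (a * (4 / Real.sqrt q))
      have := mul_le_mul_of_nonneg_left e1 ha0
      linarith
    have e3 : (b : ℝ) ≤ ((b : ℝ) - a) * (1 + a * (2 / (b : ℝ))) := by
      have : ((b : ℝ) - a) * (1 + a * (2 / (b : ℝ))) = b + a * ((b - 2 * a) / b) := by
        field_simp
        ring
      rw [this]
      have : 0 ≤ (a : ℝ) * ((b - 2 * a) / b) := mul_nonneg ha0 (div_nonneg (by linarith) hb0.le)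
      linarith
    exact e3.trans (mul_le_mul_of_nonneg_left e2 (by linarith))
  · push Not at h
    have e1 : Real.sqrt b + Real.sqrt b ≤ a * (4 / Real.sqrt q) := by
      rw [← mul_div_assoc, le_div_iff₀ h1]
      nlinarith
    have e2 : (b : ℝ) ≤ Real.exp (a * (4 / Real.sqrt q)) := by
      refine le_trans ?_ (Real.exp_le_exp.2 e1)
      rw [Real.exp_add]
      have := Real.add_one_le_exp (Real.sqrt b)
      nlinarith
    have e3 : (0 : ℝ) < Real.exp (a * (4 / Real.sqrt q)) := Real.exp_pos _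
    nlinarith

omit [Fintype N] in
lemma glue_ne_LMerge {f : N → N} {v0 w : N} (hw : f w ≠ f v0) (u : N) :
    glue_LMerge f v0 w u ≠ f v0 := by
  unfold glue_LMerge
  split_ifs with h
  · exact hw
  · exact h

omit [Fintype N] in
lemma glue_idem_LMerge {f : N → N} (hf : ∀ v, f (f v) = f v) {v0 w : N} (hw : f w ≠ f v0)
    (u : N) : glue_LMerge f v0 w (glue_LMerge f v0 w u) = glue_LMerge f v0 w u := by
  by_cases h : f u = f v0
  · simp [glue_LMerge, h, hf, hw]
  · simp [glue_LMerge, h, hf]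

lemma glue_card_LMerge {f : N → N} {v0 w : N} (hw : f w ≠ f v0) :
    #(univ.image (glue_LMerge f v0 w)) < #(univ.image f) := by
  have h1 : univ.image (glue_LMerge f v0 w) ⊆ (univ.image f).erase (f v0) := by
    intro x hx
    obtain ⟨u, -, rfl⟩ := mem_image.1 hx
    refine mem_erase.2 ⟨glue_ne_LMerge hw u, ?_⟩
    unfold glue_LMerge
    split_ifs
    · exact mem_image_of_mem _ (mem_univ _)
    · exact mem_image_of_mem _ (mem_univ _)
  exact lt_of_le_of_lt (card_le_card h1) (card_erase_lt_of_mem (mem_image_of_mem _ (mem_univ _)))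

lemma glue_sz_LMerge (f : N → N) (v0 w u : N) :
    sz_LMerge f u ≤ sz_LMerge (glue_LMerge f v0 w) u := by
  refine card_le_card fun x hx => ?_
  simp only [mem_filter, mem_univ, true_and] at hx ⊢
  simp only [glue_LMerge, hx]

lemma glue_sz2_LMerge {f : N → N} {v0 w : N} (hw : f w ≠ f v0)
    (hmin : ∀ v, sz_LMerge f v0 ≤ sz_LMerge f v) {u : N} (hu : f u = f v0) :
    2 * sz_LMerge f v0 ≤ sz_LMerge (glue_LMerge f v0 w) u := by
  have hd : Disjoint (univ.filter fun x => f x = f v0) (univ.filter fun x => f x = f w) := by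
    rw [disjoint_left]
    intro x h1 h2
    simp only [mem_filter, mem_univ, true_and] at h1 h2
    exact hw (h2.symm.trans h1)
  have hs : (univ.filter fun x => f x = f v0) ∪ (univ.filter fun x => f x = f w) ⊆
      univ.filter fun x => glue_LMerge f v0 w x = glue_LMerge f v0 w u := by
    intro x hx
    simp only [mem_union, mem_filter, mem_univ, true_and] at hx ⊢
    rcases hx with hx | hx
    · simp [glue_LMerge, hx, hu]
    · simp [glue_LMerge, hx, hu]
  have h1 := card_le_card hs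
  rw [card_union_of_disjoint hd] at h1
  have h2 := hmin w
  unfold sz_LMerge at *
  omega

omit [Fintype N] in
lemma glue_compat_LMerge {f : N → N} {v0 w : N} {X : Finset N} (hX : ∀ v, v ∈ X ↔ f v ∈ X)
    (h : f v0 ∈ X ↔ w ∈ X) (v : N) : v ∈ X ↔ glue_LMerge f v0 w v ∈ X := by
  unfold glue_LMerge
  split_ifs with hv
  · rw [hX v, hv, h, hX w]
  · exact hX v

omit [DecidableEq E] in
lemma glue_W_LMerge (s t : E → N) {f : N → N} {v0 w : N} (hw : f w ≠ f v0)
    (hmin : ∀ v, sz_LMerge f v0 ≤ sz_LMerge f v) (X : Finset N) :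
    W_LMerge s t (glue_LMerge f v0 w) X +
      (#{e ∈ univ.filter (fun e => ¬ (s e ∈ X ↔ t e ∈ X)) |
        ¬ (f (s e) = f v0 ↔ f (t e) = f v0)} : ℝ) * (4 / Real.sqrt (sz_LMerge f v0)) ≤
      W_LMerge s t f X := by
  unfold W_LMerge
  rw [card_filter, Nat.cast_sum, sum_mul, ← sum_add_distrib]
  refine sum_le_sum fun e _ => ?_
  have m1 := hh_anti_LMerge (sz_pos_LMerge f (s e)) (glue_sz_LMerge f v0 w (s e))
  have m2 := hh_anti_LMerge (sz_pos_LMerge f (t e)) (glue_sz_LMerge f v0 w (t e))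
  have key : ∀ u, f u = f v0 → hh_LMerge (sz_LMerge (glue_LMerge f v0 w) u) +
      4 / Real.sqrt (sz_LMerge f v0) ≤ hh_LMerge (sz_LMerge f u) := by
    intro u hu
    have : sz_LMerge f u = sz_LMerge f v0 := by simp only [sz_LMerge, hu]
    rw [this]
    exact hh_drop_LMerge (sz_pos_LMerge f v0) (glue_sz2_LMerge hw hmin hu)
  split_ifs with h
  · simp only [Nat.cast_zero, zero_mul, add_zero]
    linarith
  · simp only [Nat.cast_one, one_mul]
    by_cases a : f (s e) = f v0
    · have := key _ a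
      linarith
    · have b : f (t e) = f v0 := by
        by_contra b
        exact h (iff_of_false a b)
      have := key _ b
      linarith

lemma step_LMerge (s t : E → N) (n : ℕ)
    (hsmall : ∀ Q : Finset N, Q.Nonempty → #Q < n → #Q + 2 ≤ ct s t univ Q)
    (F : Finset (Finset N)) (hF : ∀ X ∈ F, Solid s t n X) (ω : Finset N → ℝ)
    (hω : ∀ X, 0 ≤ ω X) {f : N → N} (v0 : N)
    (hmin : ∀ v, sz_LMerge f v0 ≤ sz_LMerge f v) (hlt : sz_LMerge f v0 < n) :
    ∃ w, f w ≠ f v0 ∧ Psi_LMerge s t F ω f ≤ Psi_LMerge s t F ω (glue_LMerge f v0 w) := by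
  classical
  set Q : Finset N := univ.filter fun u => f u = f v0 with hQ
  have hQm : ∀ u, u ∈ Q ↔ f u = f v0 := fun u => by simp [hQ]
  have hQne : Q.Nonempty := ⟨v0, (hQm v0).2 rfl⟩
  have hQc : #Q = sz_LMerge f v0 := rfl
  set B : Finset E := univ.filter fun e => ¬ (f (s e) = f v0 ↔ f (t e) = f v0) with hB
  have hBm : ∀ e, e ∈ B ↔ ¬ (f (s e) = f v0 ↔ f (t e) = f v0) := fun e => by simp [hB]
  have hBc : sz_LMerge f v0 + 2 ≤ #B := by
    have h := hsmall Q hQne (hQc ▸ hlt)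
    have : ct s t univ Q = #B := by
      unfold ct
      refine congrArg _ (filter_congr fun e _ => ?_)
      rw [hQm, hQm]
    omega
  set o : E → N := fun e => if f (s e) = f v0 then t e else s e with ho
  have hone : ∀ e ∈ B, f (o e) ≠ f v0 := by
    intro e he
    have he' := (hBm e).1 he
    simp only [ho]
    split_ifs with h
    · exact fun h' => he' (iff_of_true h h')
    · exact h
  have hBne : B.Nonempty := card_pos.1 (by omega)
  suffices h : ∑ _e ∈ B, Psi_LMerge s t F ω f ≤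
      ∑ e ∈ B, Psi_LMerge s t F ω (glue_LMerge f v0 (o e)) by
    obtain ⟨e, he, h'⟩ := Finset.exists_le_of_sum_le hBne h
    exact ⟨o e, hone e he, h'⟩
  unfold Psi_LMerge
  simp only [sum_filter]
  rw [sum_comm, sum_comm (s := B)]
  refine sum_le_sum fun X hXF => ?_
  have hnn : ∀ e ∈ B, 0 ≤ (if (∀ v, v ∈ X ↔ glue_LMerge f v0 (o e) v ∈ X) then
      ω X * Real.exp (-W_LMerge s t (glue_LMerge f v0 (o e)) X) else 0) := by
    intro e _
    split_ifs
    · exact mul_nonneg (hω X) (Real.exp_pos _).le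
    · exact le_rfl
  by_cases hX : ∀ v, v ∈ X ↔ f v ∈ X
  swap
  · simp only [if_neg hX, sum_const_zero]
    exact sum_nonneg hnn
  simp only [if_pos hX, sum_const, nsmul_eq_mul]
  set a : ℕ := #{e ∈ univ.filter (fun e => ¬ (s e ∈ X ↔ t e ∈ X)) |
        ¬ (f (s e) = f v0 ↔ f (t e) = f v0)} with ha
  set G : Finset E := B.filter fun e => (s e ∈ X ↔ t e ∈ X) with hG
  have hsum : #G + a = #B := by
    have h1 := card_filter_add_card_filter_not (s := B) (fun e => (s e ∈ X ↔ t e ∈ X))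
    have h2 : a = #(B.filter fun e => ¬ (s e ∈ X ↔ t e ∈ X)) := by
      rw [ha, hB, filter_comm]
    rw [h2, hG]
    exact h1
  have hGne : G.Nonempty := by
    have hside : Q ⊆ X ∨ Disjoint Q X := by
      by_cases h0 : f v0 ∈ X
      · left
        intro u hu
        rw [hX u, (hQm u).1 hu]
        exact h0
      · right
        rw [disjoint_left]
        intro u hu hu'
        rw [hX u, (hQm u).1 hu] at hu'
        exact h0 hu'
    obtain ⟨e, h1, h2⟩ := hF X hXF Q hQne (hQc ▸ hlt) hside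
    rw [hQm, hQm] at h1
    exact ⟨e, mem_filter.2 ⟨(hBm e).2 h1, h2⟩⟩
  have hGpos : 1 ≤ #G := card_pos.2 hGne
  have hnum := num_LMerge (a := a) (b := #B) (q := sz_LMerge f v0) (by omega)
    (sz_pos_LMerge f v0) hBc
  have hGr : (#B : ℝ) - a = #G := by
    have : ((#G + a : ℕ) : ℝ) = #B := by rw [hsum]
    push_cast at this
    linarith
  rw [hGr] at hnum
  have hterm : ∀ e ∈ G, Real.exp (a * (4 / Real.sqrt (sz_LMerge f v0))) *
      (ω X * Real.exp (-W_LMerge s t f X)) ≤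
      (if (∀ v, v ∈ X ↔ glue_LMerge f v0 (o e) v ∈ X) then
        ω X * Real.exp (-W_LMerge s t (glue_LMerge f v0 (o e)) X) else 0) := by
    intro e he
    obtain ⟨heB, hex⟩ := mem_filter.1 he
    have he' := (hBm e).1 heB
    have hc : f v0 ∈ X ↔ o e ∈ X := by
      simp only [ho]
      split_ifs with h
      · rw [← h, ← hX, hex]
      · have b : f (t e) = f v0 := by
          by_contra b
          exact he' (iff_of_false h b)
        rw [← b, ← hX, hex]
    rw [if_pos (glue_compat_LMerge hX hc)]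
    have hW := glue_W_LMerge s t (hone e heB) hmin X
    rw [← ha] at hW
    rw [mul_left_comm, ← Real.exp_add]
    exact mul_le_mul_of_nonneg_left (Real.exp_le_exp.2 (by linarith)) (hω X)
  have hc0 : 0 ≤ ω X * Real.exp (-W_LMerge s t f X) := mul_nonneg (hω X) (Real.exp_pos _).le
  calc (#B : ℝ) * (ω X * Real.exp (-W_LMerge s t f X))
      ≤ (#G * Real.exp (a * (4 / Real.sqrt (sz_LMerge f v0)))) *
          (ω X * Real.exp (-W_LMerge s t f X)) := mul_le_mul_of_nonneg_right hnum hc0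
    _ = ∑ _e ∈ G, Real.exp (a * (4 / Real.sqrt (sz_LMerge f v0))) *
          (ω X * Real.exp (-W_LMerge s t f X)) := by
        rw [sum_const, nsmul_eq_mul, mul_assoc]
    _ ≤ _ := (sum_le_sum hterm).trans
        (sum_le_sum_of_subset_of_nonneg (filter_subset _ _) fun e he _ => hnn e he)

lemma main_LMerge (s t : E → N) (n : ℕ)
    (hsmall : ∀ Q : Finset N, Q.Nonempty → #Q < n → #Q + 2 ≤ ct s t univ Q)
    (F : Finset (Finset N)) (hF : ∀ X ∈ F, Solid s t n X) (ω : Finset N → ℝ)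
    (hω : ∀ X, 0 ≤ ω X) (m : ℕ) : ∀ f : N → N, #(univ.image f) = m → (∀ v, f (f v) = f v) →
    ∃ g : N → N, (∀ v, g (g v) = g v) ∧ (∀ v, n ≤ #{u | g u = g v}) ∧
      Psi_LMerge s t F ω f ≤ ∑ X ∈ F with (∀ v, v ∈ X ↔ g v ∈ X), ω X := by
  induction m using Nat.strong_induction_on with
  | _ m ih =>
    intro f hm hf
    by_cases h : ∀ v, n ≤ sz_LMerge f v
    · refine ⟨f, hf, h, ?_⟩
      unfold Psi_LMerge
      refine sum_le_sum fun X _ => ?_
      have hW : 0 ≤ W_LMerge s t f X :=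
        sum_nonneg fun e _ => add_nonneg (hh_nonneg_LMerge _) (hh_nonneg_LMerge _)
      exact mul_le_of_le_one_right (hω X) (Real.exp_le_one_iff.2 (by linarith))
    · push Not at h
      obtain ⟨v1, hv1⟩ := h
      obtain ⟨v0, -, hv0⟩ := exists_min_image univ (sz_LMerge f) ⟨v1, mem_univ _⟩
      have hmin : ∀ v, sz_LMerge f v0 ≤ sz_LMerge f v := fun v => hv0 v (mem_univ _)
      obtain ⟨w, hw, hle⟩ := step_LMerge s t n hsmall F hF ω hω v0 hmin
        (lt_of_le_of_lt (hmin v1) hv1)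
      obtain ⟨g, h1, h2, h3⟩ := ih _ (hm ▸ glue_card_LMerge hw) (glue_LMerge f v0 w) rfl
        (glue_idem_LMerge hf hw)
      exact ⟨g, h1, h2, hle.trans h3⟩

theorem merge (s t : E → N) (n : ℕ)
    (hsmall : ∀ Q : Finset N, Q.Nonempty → #Q < n → #Q + 2 ≤ ct s t univ Q)
    (F : Finset (Finset N)) (hF : ∀ X ∈ F, Solid s t n X) (ω : Finset N → ℝ)
    (hω : ∀ X, 0 ≤ ω X) :
    ∃ f : N → N, (∀ v, f (f v) = f v) ∧ (∀ v, n ≤ #{u | f u = f v}) ∧
      ∑ X ∈ F, ω X * Real.exp (-28 * ct s t univ X) ≤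
        ∑ X ∈ F with (∀ v, v ∈ X ↔ f v ∈ X), ω X := by
  obtain ⟨g, h1, h2, h3⟩ := main_LMerge s t n hsmall F hF ω hω _ id rfl (fun _ => rfl)
  refine ⟨g, h1, h2, le_trans (le_of_eq ?_) h3⟩
  unfold Psi_LMerge
  rw [filter_true_of_mem (fun X _ v => Iff.rfl)]
  refine sum_congr rfl fun X _ => ?_
  have hs : ∀ v : N, sz_LMerge id v = 1 := by
    intro v
    unfold sz_LMerge
    simp only [id]
    rw [filter_eq' univ v]
    simp
  have : W_LMerge s t id X = 28 * ct s t univ X := by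
    unfold W_LMerge ct
    simp only [hs, hh_LMerge, Nat.cast_one, Real.sqrt_one, sum_const, nsmul_eq_mul]
    ring
  rw [this]
  ring_nf

end Pool.Agent.P.MP_e59a69_co
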