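import Pool.Agent.P.MP_e59a69_co.LDefs

/-! Reduction to solid cuts. -/

open Finset Function

namespace Pool.Agent.P.MP_e59a69_co

variable {V : Type} [Fintype V] [DecidableEq V] {π μ : Equiv.Perm V} {c : ℕ}

omit [Fintype V] in
lemma sum_inter_LStrip (S : Finset V) (T : V → Finset V)
    (h : ∀ s ∈ S, ∀ s' ∈ S, s ≠ s' → Disjoint (T s) (T s')) (P : Finset V) :
    ∑ s ∈ S, #(T s ∩ P) ≤ #P := by
  rw [← card_biUnion fun s hs s' hs' hne =>
    (h s hs s' hs' hne).mono inter_subset_left inter_subset_left]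
  exact card_le_card (biUnion_subset.2 fun s _ => inter_subset_right)

lemma ct_add_LStrip {N E : Type} [DecidableEq N] (s t : E → N) (A : Finset E) (X P Y : Finset N)
    (hY : ∀ v, v ∈ Y ↔ ¬ (v ∈ X ↔ v ∈ P))
    (h : ∀ e, ¬ (s e ∈ P ↔ t e ∈ P) → ¬ (s e ∈ X ↔ t e ∈ X)) :
    ct s t A Y + ct s t A P = ct s t A X := by
  unfold ct
  simp only [card_filter]
  rw [← Finset.sum_add_distrib]
  refine Finset.sum_congr rfl fun e _ => ?_
  have h1 := h e
  by_cases a : s e ∈ X <;> by_cases b : t e ∈ X <;> by_cases a' : s e ∈ P <;>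
    by_cases b' : t e ∈ P <;> simp [hY, a, b, a', b'] at h1 ⊢

lemma key_LStrip (H : Hyp π μ c) (L : ℕ) (hL : 60 ≤ L) (S : Finset V) (T T' : V → Finset V)
    (hT : ∀ s ∈ S, ∀ s' ∈ S, s ≠ s' → Disjoint (T s) (T s'))
    (hT' : ∀ s ∈ S, ∀ s' ∈ S, s ≠ s' → Disjoint (T' s) (T' s'))
    (hsolid : ∀ X : Finset V, Solid es (et π μ) (c - 2) X → X.Nonempty → Xᶜ.Nonempty →
      60 * #{s ∈ S | (∃ v ∈ T s, v ∈ X) ∧ ∃ v ∈ T' s, v ∉ X} ≤ dc π μ X) (n : ℕ) :
    ∀ X : Finset V, dc π μ X = n →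
      60 * ∑ s ∈ S, min L (min #(T s ∩ X) #(T' s \ X)) ≤ L * dc π μ X := by
  induction n using Nat.strong_induction_on with
  | _ n ih =>
  intro X hX
  by_cases h1 : X.Nonempty
  swap
  · rw [not_nonempty_iff_eq_empty.1 h1]
    simp
  by_cases h2 : Xᶜ.Nonempty
  swap
  · rw [(compl_eq_empty_iff X).1 (not_nonempty_iff_eq_empty.1 h2)]
    simp [sdiff_eq_empty_iff_subset.2 (subset_univ _)]
  by_cases hs : Solid es (et π μ) (c - 2) X
  · refine le_trans ?_ (Nat.mul_le_mul_left L (hsolid X hs h1 h2))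
    rw [mul_left_comm L, card_filter, Finset.mul_sum _ _ L]
    refine Nat.mul_le_mul_left _ (Finset.sum_le_sum fun s _ => ?_)
    split_ifs with hc
    · omega
    · rcases not_and_or.1 hc with h | h
      · have : T s ∩ X = ∅ := eq_empty_of_forall_notMem fun v hv =>
          h ⟨v, (mem_inter.1 hv).1, (mem_inter.1 hv).2⟩
        simp [this]
      · have : T' s \ X = ∅ := eq_empty_of_forall_notMem fun v hv =>
          h ⟨v, (mem_sdiff.1 hv).1, (mem_sdiff.1 hv).2⟩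
        simp [this]
  unfold Solid at hs
  push Not at hs
  obtain ⟨P, hP, hPc, hPX, he⟩ := hs
  have he' : ∀ e, ¬ (es e ∈ P ↔ et π μ e ∈ P) → ¬ (es e ∈ X ↔ et π μ e ∈ X) := by
    intro e h
    have := he e (by tauto)
    tauto
  have hsm : #P + 2 ≤ dc π μ P := by
    have := H.small hP (by omega)
    unfold dc
    omega
  have fin : ∀ Y : Finset V, (∀ v, v ∈ Y ↔ ¬ (v ∈ X ↔ v ∈ P)) →
      ∑ s ∈ S, min L (min #(T s ∩ X) #(T' s \ X)) ≤
        ∑ s ∈ S, min L (min #(T s ∩ Y) #(T' s \ Y)) + #P →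
      60 * ∑ s ∈ S, min L (min #(T s ∩ X) #(T' s \ X)) ≤ L * dc π μ X := by
    intro Y hY hle
    have e1 := ct_add_LStrip es (et π μ) univ X P Y hY he'
    rw [ct_et π H.inv, ct_et π H.inv, ct_et π H.inv] at e1
    have e2 := ih (dc π μ Y) (by omega) Y rfl
    have e3 : 60 * #P ≤ L * dc π μ P := Nat.mul_le_mul hL (by omega)
    rw [← e1, mul_add]
    omega
  rcases hPX with hPX | hPX
  · refine fin (X \ P) (fun v => ?_) ?_
    · have := @hPX v
      rw [mem_sdiff]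
      tauto
    refine le_trans ?_ (Nat.add_le_add_left (sum_inter_LStrip S T hT P) _)
    rw [← Finset.sum_add_distrib]
    refine Finset.sum_le_sum fun s _ => ?_
    have a1 : #(T s ∩ X) ≤ #(T s ∩ (X \ P)) + #(T s ∩ P) :=
      le_trans (card_le_card fun v hv => by
        simp only [mem_inter, mem_union, mem_sdiff] at hv ⊢
        tauto) (card_union_le _ _)
    have a2 : #(T' s \ X) ≤ #(T' s \ (X \ P)) := card_le_card fun v hv => by
      simp only [mem_sdiff] at hv ⊢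
      tauto
    omega
  · refine fin (X ∪ P) (fun v => ?_) ?_
    · have := @disjoint_left.1 hPX v
      rw [mem_union]
      tauto
    refine le_trans ?_ (Nat.add_le_add_left (sum_inter_LStrip S T' hT' P) _)
    rw [← Finset.sum_add_distrib]
    refine Finset.sum_le_sum fun s _ => ?_
    have a1 : #(T' s \ X) ≤ #(T' s \ (X ∪ P)) + #(T' s ∩ P) :=
      le_trans (card_le_card fun v hv => by
        simp only [mem_inter, mem_union, mem_sdiff] at hv ⊢
        tauto) (card_union_le _ _)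
    have a2 : #(T s ∩ X) ≤ #(T s ∩ (X ∪ P)) := card_le_card fun v hv => by
      simp only [mem_inter, mem_union] at hv ⊢
      tauto
    omega

theorem strip (H : Hyp π μ c) (L : ℕ) (hL : 60 ≤ L) (S : Finset V) (Q : V → V)
    (hQ : ∀ t ∈ S, Q t ∈ S ∧ Q (Q t) = t)
    (hdis : ∀ s ∈ S, ∀ s' ∈ S, s ≠ s' → Disjoint (Sys π μ L s) (Sys π μ L s'))
    (hsolid : ∀ X : Finset V, Solid es (et π μ) (c - 2) X → X.Nonempty → Xᶜ.Nonempty →
      60 * #{s ∈ S | (∃ v ∈ Sys π μ L s, v ∈ X) ∧ ∃ v ∈ Sys π μ L (Q s), v ∉ X} ≤ dc π μ X)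
    (X B : Finset V) (A A' : V → Finset V) (hB : B ⊆ S)
    (hA : ∀ s ∈ B, s ∈ X ∧ Q s ∉ X ∧ (A s ⊆ Sys π μ L s ∧ #(A s) = L ∧ A s ⊆ X) ∧
        (A' s ⊆ Sys π μ L (Q s) ∧ #(A' s) = L ∧ A' s ⊆ Xᶜ)) : 30 * #B ≤ fc π X + mc μ X := by
  have hT' : ∀ s ∈ S, ∀ s' ∈ S, s ≠ s' → Disjoint (Sys π μ L (Q s)) (Sys π μ L (Q s')) :=
    fun s hs s' hs' hne => hdis _ (hQ s hs).1 _ (hQ s' hs').1 fun h =>
      hne (by rw [← (hQ s hs).2, h, (hQ s' hs').2])
  have h1 := key_LStrip H L hL S (Sys π μ L) (fun s => Sys π μ L (Q s)) hdis hT' hsolid _ X rfl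
  have h2 : #B * L ≤ ∑ s ∈ S, min L (min #(Sys π μ L s ∩ X) #(Sys π μ L (Q s) \ X)) := by
    refine le_trans ?_ (Finset.sum_le_sum_of_subset hB)
    rw [← smul_eq_mul, ← Finset.sum_const]
    refine Finset.sum_le_sum fun s hs => ?_
    obtain ⟨-, -, ⟨a1, a2, a3⟩, b1, b2, b3⟩ := hA s hs
    have c1 := card_le_card (subset_inter a1 a3)
    have c2 : #(A' s) ≤ #(Sys π μ L (Q s) \ X) :=
      card_le_card fun v hv => mem_sdiff.2 ⟨b1 hv, mem_compl.1 (b3 hv)⟩
    omega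
  have h3 : L * (60 * #B) ≤ L * dc π μ X := by
    refine le_trans (le_of_eq ?_) ((Nat.mul_le_mul_left 60 h2).trans h1)
    ring
  have h4 := Nat.le_of_mul_le_mul_left h3 (by omega)
  unfold dc at h4
  omega

end Pool.Agent.P.MP_e59a69_co
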