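import Pool.Agent.P.MP_e59a69_co.LCount
import Pool.Agent.P.MP_e59a69_co.LStrip
import Pool.Agent.P.MP_e59a69_co.LLev1
import Pool.Agent.P.MP_e59a69_co.LLev2

/-! The special vertices and their thin pairing. -/

open Finset Function

namespace Pool.Agent.P.MP_e59a69_co

variable {V : Type} [Fintype V] [DecidableEq V] {π μ : Equiv.Perm V} {c : ℕ}

theorem exists_special2 (H : Hyp π μ c) (Rp : Finset V)
    (hRp : ∀ r ∈ Rp, ∀ r' ∈ Rp, π.SameCycle r r' → r = r') (heven : Even #Rp)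
    (L q w : ℕ) (γ : ℝ) (hw : #Rp ≤ w) (hL : 60 ≤ L) (hq : 2 ≤ q) (hc : 580 * L * q ≤ c)
    (hγ : ∀ p : ℕ, 1 ≤ p → p ≤ w * c → 29 + 8 * Real.log p / c ≤ γ)
    (h1 : 52 * L * (γ + 1) ≤ Real.log q) (h2 : 240 * (γ + 8) ≤ Real.log L) :
    ∃ (s : V → V) (Q : V → V), (∀ r ∈ Rp, π.SameCycle r (s r)) ∧
      (∀ t ∈ Rp.image s, Q t ∈ Rp.image s ∧ Q t ≠ t ∧ Q (Q t) = t) ∧
      ∀ X, 5 * dQ (Rp.image s) Q X ≤ fc π X + mc μ X + 5 * lam π (Rp.image s) X := by
  classical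
  rcases Rp.eq_empty_or_nonempty with hE | hne
  · subst hE
    exact ⟨id, id, by simp, by simp, fun X => by simp [dQ]⟩
  have hcL : 1160 * L ≤ c := by nlinarith
  obtain ⟨y, hy1, hy2⟩ := candidates H Rp hRp L q (by omega) (by omega) hc
  let W : Finset V := Rp.biUnion fun r => univ.biUnion fun a : Fin q => Sys π μ L (y r a)
  have hW : #W ≤ #Rp * c := by
    refine card_biUnion_le_card_mul _ _ c fun r _ => ?_
    refine (card_biUnion_le_card_mul _ _ (13 * L) fun a _ => card_Sys (by omega) _).trans ?_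
    rw [card_univ, Fintype.card_fin]
    nlinarith
  have hp1 : 1 ≤ #Rp * c := Nat.mul_pos (card_pos.2 hne) (by omega)
  obtain ⟨F, hF1, hF2, hF3⟩ := exists_reps
    ((univ : Finset (Finset V)).filter fun X =>
      Solid es (et π μ) (c - 2) X ∧ X.Nonempty ∧ Xᶜ.Nonempty) (fun X => X ∩ W) (dc π μ)
  have hsum := count_cuts es (et π μ) c (by omega) H.card H.cut' W _ hp1 hW F
    (fun X hX => (mem_filter.1 (hF1 hX)).2) hF2 γ (hγ _ hp1 (Nat.mul_le_mul_right _ hw))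
  simp only [ct_et π H.inv] at hsum
  obtain ⟨j, hj⟩ := level_one H.inv Rp L q (by omega) hq y hy2 F γ h1 hsum
  let s : V → V := fun r => y r (j r)
  have hself : ∀ x : V, x ∈ Sys π μ L x := fun x => by
    simpa using pow_mem_Sys (π := π) (μ := μ) (L := L) x (t := 0) (by omega) (by omega)
  have hinj : Set.InjOn s Rp := fun r hr r' hr' e => by
    by_contra hn
    have := hy2 r hr r' hr' (j r) (j r') fun h => hn (congrArg Prod.fst h)
    exact Finset.disjoint_left.1 this (hself _) (by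
      have e' : y r (j r) = y r' (j r') := e
      rw [e']; exact hself _)
  have hdis : ∀ x ∈ Rp.image s, ∀ x' ∈ Rp.image s, x ≠ x' →
      Disjoint (Sys π μ L x) (Sys π μ L x') := by
    intro x hx x' hx' hn
    obtain ⟨r, hr, rfl⟩ := mem_image.1 hx
    obtain ⟨r', hr', rfl⟩ := mem_image.1 hx'
    exact hy2 r hr r' hr' (j r) (j r') fun h => hn (by rw [show r = r' from congrArg Prod.fst h])
  have hbad : ∀ X ∈ F, 52 * L * #{x ∈ Rp.image s | x ∈ Bad π μ L X} ≤ dc π μ X := fun X hX => by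
    refine le_trans (Nat.mul_le_mul_left _ ?_) (hj X hX)
    rw [filter_image]; exact card_image_le
  obtain ⟨Q, hQ, hQd⟩ := level_two H L (by omega) (by omega) (Rp.image s)
    (by rw [card_image_of_injOn hinj]; exact heven) hdis F γ h2 hsum hbad
  have hQ' : ∀ t ∈ Rp.image s, Q t ∈ Rp.image s ∧ Q (Q t) = t := fun t ht =>
    ⟨(hQ t ht).1, (hQ t ht).2.2⟩
  have hSW : ∀ x ∈ Rp.image s, Sys π μ L x ⊆ W := fun x hx v hv => by
    obtain ⟨r, hr, rfl⟩ := mem_image.1 hx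
    exact mem_biUnion.2 ⟨r, hr, mem_biUnion.2 ⟨j r, mem_univ _, hv⟩⟩
  refine ⟨s, Q, fun r hr => hy1 r hr _, hQ, thin H (by omega) (by omega) _ Q hQ' hdis ?_⟩
  refine strip H L hL _ Q hQ' hdis fun X x1 x2 x3 => ?_
  obtain ⟨Y, hY, hYX, hd⟩ := hF3 X (mem_filter.2 ⟨mem_univ _, x1, x2, x3⟩)
  have hmem : ∀ v ∈ W, (v ∈ X ↔ v ∈ Y) := fun v hv => by
    have : v ∈ Y ∩ W ↔ v ∈ X ∩ W := by rw [show Y ∩ W = X ∩ W from hYX]
    simp only [mem_inter, hv, and_true] at this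
    exact this.symm
  set S := Rp.image s with hS
  have e2 : #{x ∈ S | (∃ v ∈ Sys π μ L x, v ∈ X) ∧ ∃ v ∈ Sys π μ L (Q x), v ∉ X} ≤
      #{x ∈ S | x ∈ Bad π μ L Y} + (#{x ∈ S | Q x ∈ Bad π μ L Y} + dQ S Q Y) := by
    refine le_trans (card_le_card fun x hx => ?_)
      ((card_union_le _ _).trans (Nat.add_le_add_left (card_union_le _ _) _))
    obtain ⟨hx, ⟨v, v1, v2⟩, v', v3, v4⟩ := mem_filter.1 hx
    simp only [mem_union, mem_filter, hx, true_and, Bad, mem_univ]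
    by_contra hn
    simp only [not_or, not_not, not_and] at hn
    obtain ⟨n1, n2, n3⟩ := hn
    exact v4 ((hmem v' (hSW _ (hQ' x hx).1 v3)).2 ((n2 v' v3).2
      (n3 ((n1 v v1).1 ((hmem v (hSW _ hx v1)).1 v2)))))
  have e3 : #{x ∈ S | Q x ∈ Bad π μ L Y} ≤ #{x ∈ S | x ∈ Bad π μ L Y} :=
    card_le_card_of_injOn Q (fun x hx => by
      simp only [coe_filter, Set.mem_ofPred_eq] at hx ⊢
      exact ⟨(hQ' x hx.1).1, hx.2⟩) (fun x hx x' hx' e => by
      simp only [coe_filter, Set.mem_ofPred_eq] at hx hx'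
      rw [← (hQ' x hx.1).2, e, (hQ' x' hx'.1).2])
  have e4 := hbad Y hY
  have e5 := hQd Y hY
  have e6 : 240 * #{x ∈ S | x ∈ Bad π μ L Y} ≤ 52 * L * #{x ∈ S | x ∈ Bad π μ L Y} :=
    Nat.mul_le_mul_right _ (by omega)
  omega

end Pool.Agent.P.MP_e59a69_co
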