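import Pool.Agent.P.MP_e59a69_co.Select

/-! A cubic graph with a directed 2-factor as a pair of permutations: local structure. -/

open Finset

namespace Pool.Agent.P.MP_e59a69_co

variable {V : Type} [Fintype V] [DecidableEq V]

/-- edges of the 2-factor in the cut -/
def fc (π : Equiv.Perm V) (X : Finset V) : ℕ := #{v | ¬ (v ∈ X ↔ π v ∈ X)}

/-- matching edges in the cut -/
def mc (μ : Equiv.Perm V) (X : Finset V) : ℕ := #{v ∈ X | μ v ∉ X}

/-- a segment of a circuit -/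
noncomputable def Iv (π : Equiv.Perm V) (x : V) (a b : ℤ) : Finset V :=
  (Icc a b).image fun t => (π ^ t) x

structure Hyp (π μ : Equiv.Perm V) (c : ℕ) : Prop where
  inv : ∀ v, μ (μ v) = v
  ne : ∀ v, μ v ≠ v
  len : ∀ v (t : ℤ), t ≠ 0 → |t| < c → (π ^ t) v ≠ v
  card : 2 * c ≤ Fintype.card V
  cut : ∀ X : Finset V, X.Nonempty → Xᶜ.Nonempty →
    c ≤ fc π X + mc μ X ∨ #X + 2 ≤ fc π X + mc μ X ∨ #Xᶜ + 2 ≤ fc π X + mc μ X

omit [Fintype V] [DecidableEq V] in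
lemma zp_add (π : Equiv.Perm V) (s t : ℤ) (x : V) : (π ^ s) ((π ^ t) x) = (π ^ (s + t)) x := by
  rw [zpow_add]; rfl

omit [Fintype V] [DecidableEq V] in
lemma zp_succ (π : Equiv.Perm V) (t : ℤ) (x : V) : π ((π ^ t) x) = (π ^ (t + 1)) x := by
  rw [add_comm, ← zp_add, zpow_one]

omit [Fintype V] in
lemma mem_Iv {π : Equiv.Perm V} {x y : V} {a b : ℤ} :
    y ∈ Iv π x a b ↔ ∃ t, a ≤ t ∧ t ≤ b ∧ (π ^ t) x = y := by
  simp only [Iv, mem_image, mem_Icc, and_assoc]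

variable {π μ : Equiv.Perm V} {c : ℕ}

lemma Hyp.inj (H : Hyp π μ c) (x : V) {s t : ℤ} (h : |s - t| < c) (e : (π ^ s) x = (π ^ t) x) :
    s = t := by
  by_contra hne
  apply H.len ((π ^ t) x) (s - t) (sub_ne_zero.2 hne) h
  rw [zp_add, sub_add_cancel, e]

lemma Hyp.small (H : Hyp π μ c) {X : Finset V} (h1 : X.Nonempty) (h2 : #X + 2 ≤ c) :
    #X + 2 ≤ fc π X + mc μ X := by
  have h3 := H.card
  have h4 : #Xᶜ = Fintype.card V - #X := card_compl X
  rcases H.cut X h1 (card_pos.1 (by omega)) with h | h | h <;> omega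

lemma fc_Iv (π : Equiv.Perm V) (x : V) (a b : ℤ) : fc π (Iv π x a b) ≤ 2 := by
  refine le_trans (card_le_card (t := {(π ^ b) x, (π ^ (a - 1)) x}) fun v hv => ?_) card_le_two
  simp only [mem_filter, mem_univ, true_and, mem_insert, mem_singleton] at hv ⊢
  by_contra hc
  push Not at hc
  apply hv
  simp only [mem_Iv]
  constructor
  · rintro ⟨t, h1, h2, rfl⟩
    have : t ≠ b := fun h => hc.1 (by rw [h])
    exact ⟨t + 1, by omega, by omega, (zp_succ _ _ _).symm⟩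
  · rintro ⟨t, h1, h2, h3⟩
    have h4 : (π ^ (t - 1)) x = v := by
      apply π.injective
      rw [zp_succ, sub_add_cancel, h3]
    have : t ≠ a := fun h => hc.2 (by rw [← h, h4])
    exact ⟨t - 1, by omega, by omega, h4⟩

lemma fc_union (π : Equiv.Perm V) (A B : Finset V) : fc π (A ∪ B) ≤ fc π A + fc π B := by
  refine le_trans (card_le_card fun v hv => ?_) (card_union_le _ _)
  simp only [mem_filter, mem_univ, true_and, mem_union] at hv ⊢
  tauto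

omit [Fintype V] in
lemma card_Iv_le (π : Equiv.Perm V) (x : V) (a b : ℤ) : #(Iv π x a b) ≤ (b + 1 - a).toNat :=
  card_image_le.trans (by simp)

lemma Hyp.card_Iv (H : Hyp π μ c) (x : V) {a b : ℤ} (h : b - a < c) :
    #(Iv π x a b) = (b + 1 - a).toNat := by
  unfold Iv
  rw [card_image_of_injOn]
  · simp
  · intro s hs t ht e
    simp only [coe_Icc, Set.mem_Icc] at hs ht
    exact H.inj x (abs_lt.2 ⟨by omega, by omega⟩) e

omit [Fintype V] in
lemma mc_le (μ : Equiv.Perm V) {Z T : Finset V} (h1 : T ⊆ Z) (h2 : ∀ v ∈ T, μ v ∈ Z) :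
    mc μ Z + #T ≤ #Z := by
  unfold mc
  rw [← card_union_of_disjoint]
  · exact card_le_card (union_subset (filter_subset _ _) h1)
  · exact Finset.disjoint_left.2 fun v h3 h4 => (mem_filter.1 h3).2 (h2 v h4)

lemma Hyp.g1 (H : Hyp π μ c) (v : V) {t : ℤ} (h : |t| + 3 ≤ c) : μ v ≠ (π ^ t) v := by
  intro e
  have h0 := abs_nonneg t
  have h1 := le_abs_self t
  have h2 := neg_abs_le t
  let Z := Iv π v (min 0 t) (max 0 t)
  have hv : v ∈ Z := mem_Iv.2 ⟨0, by omega, by omega, by simp⟩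
  have hm : μ v ∈ Z := mem_Iv.2 ⟨t, by omega, by omega, e.symm⟩
  have c1 : #Z ≤ _ := card_Iv_le π v (min 0 t) (max 0 t)
  have c2 := H.small ⟨v, hv⟩ (by omega)
  have c3 : fc π Z ≤ 2 := fc_Iv _ _ _ _
  have c4 := mc_le μ (Z := Z) (T := {v, μ v}) (by simp [insert_subset_iff, hv, hm])
    (by simp [hv, hm, H.inv])
  rw [card_pair (H.ne v).symm] at c4
  omega

lemma Hyp.g2 (H : Hyp π μ c) (v : V) {k t : ℤ} (hk : k ≠ 0) (h : |k| + |t| + 4 ≤ c) :
    μ ((π ^ k) v) ≠ (π ^ t) (μ v) := by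
  intro e
  have h0 := abs_nonneg t
  have h1 := le_abs_self t
  have h2 := neg_abs_le t
  have k0 := abs_nonneg k
  have k1 := le_abs_self k
  have k2 := neg_abs_le k
  let Z := Iv π v (min 0 k) (max 0 k) ∪ Iv π (μ v) (min 0 t) (max 0 t)
  have m1 : v ∈ Z := mem_union_left _ (mem_Iv.2 ⟨0, by omega, by omega, by simp⟩)
  have m2 : (π ^ k) v ∈ Z := mem_union_left _ (mem_Iv.2 ⟨k, by omega, by omega, rfl⟩)
  have m3 : μ v ∈ Z := mem_union_right _ (mem_Iv.2 ⟨0, by omega, by omega, by simp⟩)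
  have m4 : μ ((π ^ k) v) ∈ Z := mem_union_right _ (mem_Iv.2 ⟨t, by omega, by omega, e.symm⟩)
  have c0 : #Z ≤ _ := card_union_le _ _
  have c1 := card_Iv_le π v (min 0 k) (max 0 k)
  have c1' := card_Iv_le π (μ v) (min 0 t) (max 0 t)
  have c2 := H.small ⟨v, m1⟩ (by omega)
  have c3 : fc π Z ≤ _ := fc_union _ _ _
  have c5 := fc_Iv π v (min 0 k) (max 0 k)
  have c6 := fc_Iv π (μ v) (min 0 t) (max 0 t)
  have c4 := mc_le μ (Z := Z) (T := {v, (π ^ k) v, μ v, μ ((π ^ k) v)})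
    (by simp [insert_subset_iff, m1, m2, m3, m4]) (by simp [m1, m2, m3, m4, H.inv])
  have d1 : v ≠ (π ^ k) v := (H.len v k hk (by omega)).symm
  have d2 : v ≠ μ v := (H.ne v).symm
  have d3 : v ≠ μ ((π ^ k) v) := by
    intro e2
    apply H.g1 ((π ^ k) v) (t := -k) (by rw [abs_neg]; omega)
    rw [← e2, zp_add]; simp
  have d4 : (π ^ k) v ≠ μ v := (H.g1 v (by omega)).symm
  have d5 : (π ^ k) v ≠ μ ((π ^ k) v) := (H.ne _).symm
  have d6 : μ v ≠ μ ((π ^ k) v) := fun e2 => d1 (μ.injective e2)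
  rw [card_insert_of_notMem (by simp [d1, d2, d3]), card_insert_of_notMem (by simp [d4, d5]),
    card_pair d6] at c4
  omega

omit [Fintype V] [DecidableEq V] in
lemma ivt (π : Equiv.Perm V) (X : Finset V) (x : V) (a : ℤ) (n : ℕ)
    (h : ¬ ((π ^ a) x ∈ X ↔ (π ^ (a + n)) x ∈ X)) :
    ∃ t, a ≤ t ∧ t < a + n ∧ ¬ ((π ^ t) x ∈ X ↔ π ((π ^ t) x) ∈ X) := by
  induction n with
  | zero => simp at h
  | succ n ih =>
    by_cases h1 : ((π ^ a) x ∈ X ↔ (π ^ (a + n)) x ∈ X)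
    · refine ⟨a + n, by omega, by push_cast; omega, ?_⟩
      rw [zp_succ, ← h1]
      push_cast at h
      rwa [← add_assoc] at h
    · obtain ⟨t, h2, h3, h4⟩ := ih h1
      exact ⟨t, h2, by push_cast; omega, h4⟩

omit [Fintype V] [DecidableEq V] in
lemma ivt' (π : Equiv.Perm V) (X : Finset V) (x : V) {a b : ℤ} (hab : a ≤ b)
    (h : ¬ ((π ^ a) x ∈ X ↔ (π ^ b) x ∈ X)) :
    ∃ t, a ≤ t ∧ t < b ∧ ¬ ((π ^ t) x ∈ X ↔ π ((π ^ t) x) ∈ X) := by
  obtain ⟨n, rfl⟩ := Int.le.dest hab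
  exact ivt π X x a n h

/-- centres of the six segments around a special vertex -/
def Cen (π μ : Equiv.Perm V) (j : ℤ) : Equiv.Perm V := if j = 3 then 1 else μ * π ^ j

/-- the six segments around a special vertex -/
noncomputable def Sys (π μ : Equiv.Perm V) (L : ℕ) (s : V) : Finset V :=
  (Icc (-2 : ℤ) 3).biUnion fun j => Iv π (Cen π μ j s) (-L) L

omit [Fintype V] [DecidableEq V] in
lemma Cen_three (π μ : Equiv.Perm V) (s : V) : Cen π μ 3 s = s := by simp [Cen]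

omit [Fintype V] [DecidableEq V] in
lemma Cen_ne (π μ : Equiv.Perm V) {j : ℤ} (hj : j ≠ 3) (s : V) :
    Cen π μ j s = μ ((π ^ j) s) := by simp [Cen, hj]

lemma Hyp.disj (H : Hyp π μ c) {L : ℕ} (hL : 2 * L + 10 ≤ c) (s : V) :
    ((Icc (-2 : ℤ) 3 : Finset ℤ) : Set ℤ).PairwiseDisjoint
      fun j => Iv π (Cen π μ j s) (-L) L := by
  have key : ∀ j k : ℤ, -2 ≤ j → j ≤ 3 → -2 ≤ k → k < 3 → j ≠ k → ∀ t t' : ℤ, -L ≤ t → t ≤ L →
      -L ≤ t' → t' ≤ L → (π ^ t) (Cen π μ j s) ≠ (π ^ t') (Cen π μ k s) := by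
    intro j k j1 j2 k1 k2 hjk t t' t1 t2 t3 t4 e
    rw [Cen_ne _ _ k2.ne] at e
    have e2 : μ ((π ^ k) s) = (π ^ (t - t')) (Cen π μ j s) := by
      apply (π ^ t').injective
      rw [← e, zp_add]; congr 2; ring
    by_cases h3 : j = 3
    · subst h3
      rw [Cen_three] at e2
      apply H.g1 ((π ^ k) s) (t := t - t' - k) (by
        have : |t - t' - k| ≤ 2 * L + 2 := abs_le.2 ⟨by omega, by omega⟩
        omega)
      rw [e2, zp_add]; congr 2; ring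
    · rw [Cen_ne _ _ h3] at e2
      apply H.g2 ((π ^ j) s) (k := k - j) (t := t - t') (by omega) (by
        have : |t - t'| ≤ 2 * L := abs_le.2 ⟨by omega, by omega⟩
        have : |k - j| ≤ 4 := abs_le.2 ⟨by omega, by omega⟩
        omega)
      rw [← e2, zp_add]; congr 3; ring
  intro j hj k hk hjk
  simp only [coe_Icc, Set.mem_Icc] at hj hk
  rw [Function.onFun, Finset.disjoint_left]
  intro v h1 h2
  obtain ⟨t, t1, t2, e1⟩ := mem_Iv.1 h1
  obtain ⟨t', t3, t4, e2⟩ := mem_Iv.1 h2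
  by_cases h3 : k = 3
  · exact key k j hk.1 hk.2 hj.1 (by omega) hjk.symm t' t t3 t4 t1 t2 (e2.trans e1.symm)
  · exact key j k hj.1 hj.2 hk.1 (by omega) hjk t t' t1 t2 t3 t4 (e1.trans e2.symm)

/-- weight of the cut edges at a vertex -/
def om (π μ : Equiv.Perm V) (X : Finset V) (v : V) : ℕ :=
  2 * (if ¬ (v ∈ X ↔ π v ∈ X) then 1 else 0) + (if ¬ (v ∈ X ↔ μ v ∈ X) then 1 else 0)

omit [Fintype V] in
lemma sum_om (π μ : Equiv.Perm V) (X A : Finset V) :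
    ∑ v ∈ A, om π μ X v =
      2 * #{v ∈ A | ¬ (v ∈ X ↔ π v ∈ X)} + #{v ∈ A | ¬ (v ∈ X ↔ μ v ∈ X)} := by
  unfold om
  rw [Finset.sum_add_distrib, ← Finset.mul_sum, card_filter, card_filter]

omit [Fintype V] in
lemma Iv_sub_Sys {L : ℕ} {s : V} {j : ℤ} (h1 : -2 ≤ j) (h2 : j ≤ 3) {a b : ℤ} (ha : -L ≤ a)
    (hb : b ≤ L) : Iv π (Cen π μ j s) a b ⊆ Sys π μ L s := by
  intro v hv
  obtain ⟨t, t1, t2, e⟩ := mem_Iv.1 hv
  exact mem_biUnion.2 ⟨j, mem_Icc.2 ⟨h1, h2⟩, mem_Iv.2 ⟨t, by omega, by omega, e⟩⟩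

theorem Hyp.loc (H : Hyp π μ c) {L : ℕ} (hL2 : 2 ≤ L) (hL : 2 * L + 10 ≤ c) (X : Finset V) (s : V)
    (h0 : s ∈ X) (h1 : (π ^ (1 : ℤ)) s ∈ X) (h1' : (π ^ (-1 : ℤ)) s ∈ X)
    (hiso : (π ^ (2 : ℤ)) s ∈ X ∨ (π ^ (-2 : ℤ)) s ∈ X ∨ μ ((π ^ (-1 : ℤ)) s) ∈ X ∨
      μ ((π ^ (0 : ℤ)) s) ∈ X ∨ μ ((π ^ (1 : ℤ)) s) ∈ X)
    (hom : ∑ v ∈ Sys π μ L s, om π μ X v < 12) :
    ∃ A ⊆ Sys π μ L s, #A = L ∧ A ⊆ X := by
  by_contra hc
  push Not at hc
  have hpi : ∀ j : ℤ, -2 ≤ j → j ≤ 3 → Cen π μ j s ∈ X →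
      2 ≤ #{v ∈ Iv π (Cen π μ j s) (-L) L | ¬ (v ∈ X ↔ π v ∈ X)} := by
    intro j j1 j2 hx
    have a1 := hc _ (Iv_sub_Sys (π := π) (μ := μ) (s := s) j1 j2 (a := 1) (b := L)
      (by omega) le_rfl) (by rw [H.card_Iv _ (by omega)]; omega)
    have a2 := hc _ (Iv_sub_Sys (π := π) (μ := μ) (s := s) j1 j2 (a := -L) (b := -1)
      le_rfl (by omega)) (by rw [H.card_Iv _ (by omega)]; omega)
    obtain ⟨y, y1, y2⟩ := Finset.not_subset.1 a1
    obtain ⟨z, z1, z2⟩ := Finset.not_subset.1 a2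
    obtain ⟨t, t1, t2, rfl⟩ := mem_Iv.1 y1
    obtain ⟨t', t3, t4, rfl⟩ := mem_Iv.1 z1
    obtain ⟨p, p1, p2, p3⟩ := ivt' π X (Cen π μ j s) (a := 0) (b := t) (by omega)
      (by simp [hx, y2])
    obtain ⟨r, r1, r2, r3⟩ := ivt' π X (Cen π μ j s) (a := t') (b := 0) (by omega)
      (by simp [hx, z2])
    refine Finset.one_lt_card.2 ⟨(π ^ p) (Cen π μ j s), ?_, (π ^ r) (Cen π μ j s), ?_, ?_⟩
    · exact mem_filter.2 ⟨mem_Iv.2 ⟨p, by omega, by omega, rfl⟩, p3⟩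
    · exact mem_filter.2 ⟨mem_Iv.2 ⟨r, by omega, by omega, rfl⟩, r3⟩
    · intro e
      have := H.inj _ (abs_lt.2 ⟨by omega, by omega⟩) e
      omega
  let tt : ℤ → ℕ := fun j => if (π ^ j) s ∈ X ∧ μ ((π ^ j) s) ∉ X then 1 else 0
  let rr : ℤ → ℕ := fun j => if μ ((π ^ j) s) ∈ X then 4 else 0
  have hP : ∀ j : ℤ, -2 ≤ j → j < 3 →
      rr j + tt j ≤ ∑ v ∈ Iv π (Cen π μ j s) (-L) L, om π μ X v := by
    intro j j1 j2
    rw [sum_om]
    simp only [rr, tt]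
    by_cases a : μ ((π ^ j) s) ∈ X
    · have := hpi j j1 j2.le (by rwa [Cen_ne _ _ j2.ne])
      simp only [a, if_true, not_true, and_false, if_false]
      omega
    · simp only [a, if_false, not_false_eq_true, and_true]
      split_ifs with b
      · have : 1 ≤ #{v ∈ Iv π (Cen π μ j s) (-L) L | ¬ (v ∈ X ↔ μ v ∈ X)} := by
          refine card_pos.2 ⟨μ ((π ^ j) s), mem_filter.2 ⟨mem_Iv.2 ⟨0, by omega, by omega, ?_⟩, ?_⟩⟩
          · rw [Cen_ne _ _ j2.ne]; simp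
          · rw [H.inv]; simp [a, b]
        omega
      · omega
  have hP3 : 4 + ∑ j ∈ Icc (-2 : ℤ) 2, tt j ≤
      ∑ v ∈ Iv π (Cen π μ 3 s) (-L) L, om π μ X v := by
    rw [sum_om]
    have a1 := hpi 3 (by omega) le_rfl (by rwa [Cen_three])
    have a2 : ∑ j ∈ Icc (-2 : ℤ) 2, tt j ≤
        #{v ∈ Iv π (Cen π μ 3 s) (-L) L | ¬ (v ∈ X ↔ μ v ∈ X)} := by
      simp only [tt]
      rw [← card_filter]
      refine card_le_card_of_injOn (fun j => (π ^ j) s) (fun j hj => ?_) (fun j hj k hk e => ?_)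
      · simp only [coe_filter, mem_Icc, Set.mem_ofPred_eq] at hj ⊢
        refine ⟨mem_Iv.2 ⟨j, by omega, by omega, by rw [Cen_three]⟩, ?_⟩
        simp [hj.2.1, hj.2.2]
      · simp only [coe_filter, mem_Icc, Set.mem_ofPred_eq] at hj hk
        exact H.inj s (abs_lt.2 ⟨by omega, by omega⟩) e
    omega
  unfold Sys at hom
  rw [Finset.sum_biUnion (H.disj hL s)] at hom
  have i1 : Icc (-2 : ℤ) 3 = {-2, -1, 0, 1, 2, 3} := by decide
  have i2 : Icc (-2 : ℤ) 2 = {-2, -1, 0, 1, 2} := by decide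
  rw [i1] at hom
  rw [i2] at hP3
  rw [sum_insert (by decide), sum_insert (by decide), sum_insert (by decide),
    sum_insert (by decide), sum_insert (by decide), sum_singleton] at hom
  rw [sum_insert (by decide), sum_insert (by decide), sum_insert (by decide),
    sum_insert (by decide), sum_singleton] at hP3
  have b1 := hP (-2) (by omega) (by omega)
  have b2 := hP (-1) (by omega) (by omega)
  have b3 := hP 0 (by omega) (by omega)
  have b4 := hP 1 (by omega) (by omega)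
  have b5 := hP 2 (by omega) (by omega)
  have q1 : ∀ j : ℤ, (π ^ j) s ∈ X → 2 ≤ rr j + 2 * tt j := by
    intro j hj
    simp only [rr, tt, hj, true_and]
    split_ifs <;> simp_all
  have q2 : ∀ j : ℤ, μ ((π ^ j) s) ∈ X → 4 ≤ rr j := by
    intro j hj
    simp only [rr, hj, if_true, le_refl]
  have c1 := q1 _ h1
  have c2 := q1 _ h1'
  have c3 := q1 0 (by simpa using h0)
  rcases hiso with h | h | h | h | h
  · have := q1 _ h; omega
  · have := q1 _ h; omega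
  · have := q2 _ h; omega
  · have := q2 _ h; omega
  · have := q2 _ h; omega

end Pool.Agent.P.MP_e59a69_co
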