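import Pool.Agent.P.MP_e59a69_co.Core

/-! The main existence theorem for flow pairs. -/

open Finset

namespace Pool.Agent.P.MP_e59a69_co

variable {V E : Type} [Fintype V] [Fintype E] [DecidableEq V] [DecidableEq E]

open Classical in
/-- a unit flow through all edges outside `F`, balanced except at one vertex of each odd component -/
lemma exists_psi (src tgt : E → V) (F : Finset E)
    (O : Set (spanGr src tgt F).ConnectedComponent)
    (hO : ∀ c, Odd (∑ v with (spanGr src tgt F).connectedComponentMk v = c, dg src tgt Fᶜ v) →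
      c ∈ O) :
    ∃ (ψ : E → ℤ) (Z : Finset V), (∀ e, e ∉ F → ψ e = 1 ∨ ψ e = -1) ∧ (∀ e, |ψ e| ≤ 1) ∧
      (∀ v, |bdry src tgt ψ v| ≤ 1) ∧ (∀ v, v ∉ Z → bdry src tgt ψ v = 0) ∧
      (∀ v ∈ Z, (spanGr src tgt F).connectedComponentMk v ∈ O) ∧
      (∀ v ∈ Z, ∀ w ∈ Z, (spanGr src tgt F).connectedComponentMk v =
        (spanGr src tgt F).connectedComponentMk w → v = w) := by
  let G := spanGr src tgt F
  let r : V → V := fun v => (G.connectedComponentMk v).out
  have hr : ∀ v, G.connectedComponentMk (r v) = G.connectedComponentMk v :=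
    fun v => Quot.out_eq _
  have hreach : ∀ v, G.Reachable v (r v) := fun v =>
    SimpleGraph.ConnectedComponent.exact (hr v).symm
  choose J hJ0 hJ using fun v => exists_join src tgt F (hreach v)
  let K : E → ℤ := fun e => ∑ v, (dg src tgt Fᶜ v : ℤ) * J v e
  have hK0 : ∀ e, e ∉ F → K e = 0 := fun e he =>
    Finset.sum_eq_zero fun v _ => by rw [hJ0 v e he, mul_zero]
  have hKb : ∀ w, bdry src tgt K w = dg src tgt Fᶜ w -
      ∑ v, (if r v = w then (dg src tgt Fᶜ v : ℤ) else 0) := by
    intro w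
    rw [bdry_sum src tgt univ (fun v e => (dg src tgt Fᶜ v : ℤ) * J v e)]
    simp only [bdry_mul, hJ, mul_sub, Finset.sum_sub_distrib, mul_ite, mul_one, mul_zero]
    simp
  let one : E → ℤ := fun e => if e ∈ Fᶜ then 1 else 0
  let H : Finset E := univ.filter fun e => Odd (K e + one e)
  have hp1 := bdry_parity src tgt H (fun e => K e + one e) (fun e => by simp [H])
  have hp2 := bdry_parity src tgt Fᶜ one (fun e => by
    simp only [one]; split_ifs with h <;> simp [h])
  obtain ⟨ψ, h1, h0, hb⟩ := exists_orientation src tgt H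
  let Z : Finset V := univ.filter fun w => r w = w ∧ G.connectedComponentMk w ∈ O
  refine ⟨ψ, Z, fun e he => h1 e ?_, fun e => ?_, fun v => (hb v).1, fun w hw => (hb w).2 ?_,
    fun v hv => ?_, fun v hv w hw h => ?_⟩
  · simp [H, hK0 e he, one, he]
  · by_cases he : e ∈ H
    · rcases h1 e he with h | h <;> simp [h]
    · simp [h0 e he]
  · have hev : Even (∑ v, (if r v = w then (dg src tgt Fᶜ v : ℤ) else 0)) := by
      by_cases hrw : r w = w
      · have hnO : G.connectedComponentMk w ∉ O := fun h => hw (by simp [Z, hrw, h])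
        have h2 : ¬ Odd (∑ v with G.connectedComponentMk v = G.connectedComponentMk w,
            dg src tgt Fᶜ v) := fun h => hnO (hO _ h)
        rw [Nat.not_odd_iff_even] at h2
        have h3 : (∑ v, (if r v = w then (dg src tgt Fᶜ v : ℤ) else 0)) =
            ((∑ v with G.connectedComponentMk v = G.connectedComponentMk w,
              dg src tgt Fᶜ v : ℕ) : ℤ) := by
          rw [Finset.sum_filter]
          push_cast
          refine Finset.sum_congr rfl fun v _ => ?_
          have : r v = w ↔ G.connectedComponentMk v = G.connectedComponentMk w := by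
            constructor
            · intro h; rw [← h, hr]
            · intro h; rw [← hrw]; simp only [r, h]
          simp only [this]
        rw [h3]
        exact_mod_cast h2
      · have : ∀ v, r v ≠ w := by
          intro v h
          apply hrw
          have h2 : G.connectedComponentMk w = G.connectedComponentMk v := by rw [← h, hr]
          rw [← h]; simp only [r, hr v]
        simp [this]
    have a1 := hp1 w
    have a2 := hp2 w
    rw [bdry_add, hKb] at a1
    rw [← Int.even_coe_nat]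
    rw [Int.even_iff] at *
    omega
  · simp only [Z, mem_filter] at hv; exact hv.2.2
  · simp only [Z, mem_filter] at hv hw
    rw [← hv.2.1, ← hw.2.1]
    simp only [r]
    exact congrArg _ h

open Classical in
lemma cross_bound (src tgt : E → V) (F : Finset E) (hF : ∀ v, Even (dg src tgt F v))
    (O : Set (spanGr src tgt F).ConnectedComponent) (Z X : Finset V)
    (hZ : ∀ v ∈ Z, (spanGr src tgt F).connectedComponentMk v ∈ O)
    (hinj : ∀ v ∈ Z, ∀ w ∈ Z, (spanGr src tgt F).connectedComponentMk v =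
        (spanGr src tgt F).connectedComponentMk w → v = w)
    (hX : ¬ ∃ c ∈ O, ∀ v, (spanGr src tgt F).connectedComponentMk v = c → v ∈ X) :
    2 * #(Z ∩ X) ≤ #{e ∈ F | ¬ (src e ∈ X ↔ tgt e ∈ X)} := by
  let S : V → Finset E := fun u => {e ∈ F | ¬ (src e ∈ X ↔ tgt e ∈ X) ∧
      (spanGr src tgt F).connectedComponentMk (src e) =
        (spanGr src tgt F).connectedComponentMk u}
  have h1 : ∀ u ∈ Z ∩ X, 2 ≤ #(S u) := by
    intro u hu
    rw [mem_inter] at hu
    have : ∃ v, (spanGr src tgt F).connectedComponentMk v =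
        (spanGr src tgt F).connectedComponentMk u ∧ v ∉ X := by
      by_contra hc
      push Not at hc
      exact hX ⟨_, hZ u hu.1, hc⟩
    obtain ⟨v, hv, hvX⟩ := this
    exact two_le_cross src tgt F hF X (SimpleGraph.ConnectedComponent.exact hv.symm) hu.2 hvX
  have h2 : #((Z ∩ X).biUnion S) = ∑ u ∈ Z ∩ X, #(S u) := by
    refine Finset.card_biUnion ?_
    intro u hu w hw hne
    rw [Function.onFun, Finset.disjoint_left]
    intro e he1 he2
    simp only [S, mem_filter] at he1 he2
    exact hne (hinj u (mem_inter.1 hu).1 w (mem_inter.1 hw).1 (he1.2.2.symm.trans he2.2.2))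
  have h3 : (Z ∩ X).biUnion S ⊆ {e ∈ F | ¬ (src e ∈ X ↔ tgt e ∈ X)} := by
    intro e he
    simp only [mem_biUnion, S, mem_filter] at he ⊢
    obtain ⟨u, -, h4, h5, -⟩ := he
    exact ⟨h4, h5⟩
  have h4 := Finset.card_le_card h3
  have h5 : ∑ u ∈ Z ∩ X, 2 ≤ ∑ u ∈ Z ∩ X, #(S u) := Finset.sum_le_sum h1
  rw [Finset.sum_const, smul_eq_mul] at h5
  omega

open Classical in
theorem core (src tgt : E → V) (F : Finset E) (hF : ∀ v, Even (dg src tgt F v))
    (O : Set (spanGr src tgt F).ConnectedComponent)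
    (hO : ∀ c, Odd (∑ v with (spanGr src tgt F).connectedComponentMk v = c, dg src tgt Fᶜ v) →
      c ∈ O)
    (hcut : ∀ X : Finset V,
      (∃ c ∈ O, ∀ v, (spanGr src tgt F).connectedComponentMk v = c → v ∈ X) →
      (∃ c ∈ O, ∀ v, (spanGr src tgt F).connectedComponentMk v = c → v ∈ Xᶜ) →
      #{e ∈ F | ¬ (src e ∈ X ↔ tgt e ∈ X)} < O.ncard →
      5 * O.ncard ≤ 2 * #{e | ¬ (src e ∈ X ↔ tgt e ∈ X)} + 2) :
    ∃ φ₂ φ₄ : E → ℤ, (∀ e ∈ F, φ₂ e = 1 ∨ φ₂ e = -1) ∧ (∀ e, e ∉ F → φ₂ e = 0) ∧
      (∀ v, bdry src tgt φ₂ v = 0) ∧ (∀ e, |φ₄ e| ≤ 3) ∧ (∀ e, e ∉ F → 2 ≤ |φ₄ e|) ∧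
      ∀ v, bdry src tgt φ₄ v = 0 := by
  obtain ⟨φ₂, a1, a0, ab⟩ := exists_orientation src tgt F
  obtain ⟨ψ, Z, p1, p2, p3, p4, p5, p6⟩ := exists_psi src tgt F O hO
  let l : E → ℤ := fun e => if e ∈ F then -3 else if ψ e = 1 then 2 else -3
  let u : E → ℤ := fun e => if e ∈ F then 3 else if ψ e = 1 then 3 else -2
  have hZw : #Z ≤ O.ncard := by
    rw [← Set.ncard_coe_finset]
    exact Set.ncard_le_ncard_of_injOn (fun v => (spanGr src tgt F).connectedComponentMk v)
      (fun v hv => p5 v hv) (fun v hv w hw h => p6 v hv w hw h) (Set.toFinite _)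
  have hle : ∀ X : Finset V, |∑ v ∈ X, bdry src tgt ψ v| ≤ #(Z ∩ X) := by
    intro X
    refine (Finset.abs_sum_le_sum_abs _ _).trans ?_
    have : (#(Z ∩ X) : ℤ) = ∑ v ∈ X, if v ∈ Z then 1 else 0 := by
      rw [Finset.sum_ite_mem, inter_comm]; simp
    rw [this]
    refine Finset.sum_le_sum fun v _ => ?_
    split_ifs with h
    · exact p3 v
    · simp [p4 v h]
  obtain ⟨φ₄, b1, b2⟩ := hoffman' src tgt (fun _ => 0) (by simp) l u
    (fun e => by simp only [l, u]; split_ifs <;> omega) (fun X => by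
      simp only [Finset.sum_const_zero]
      by_contra hneg
      have hk1 := hle X
      have hk2 := hle Xᶜ
      have hk3 : ∑ v ∈ X, bdry src tgt ψ v + ∑ v ∈ Xᶜ, bdry src tgt ψ v = 0 := by
        rw [Finset.sum_add_sum_compl, sum_bdry_univ]
      have hk4 : #(Z ∩ X) + #(Z ∩ Xᶜ) = #Z := by
        rw [← Finset.card_union_of_disjoint, ← inter_union_distrib_left, union_compl, inter_univ]
        exact Finset.disjoint_left.2 fun v h1 h2 =>
          (mem_compl.1 (mem_inter.1 h2).2) (mem_inter.1 h1).2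
      have hf : (#{e ∈ F | ¬ (src e ∈ X ↔ tgt e ∈ X)} : ℤ) ≤
          capOut src tgt l u X - 2 * ∑ v ∈ X, bdry src tgt ψ v := by
        rw [sum_bdry, Finset.card_filter]
        push_cast
        rw [← Finset.sum_ite_mem_eq F]
        unfold capOut
        rw [Finset.mul_sum, ← Finset.sum_sub_distrib]
        refine Finset.sum_le_sum fun e _ => ?_
        have q1 := p1 e
        have q2 := abs_le.1 (p2 e)
        by_cases c1 : src e ∈ X <;> by_cases c2 : tgt e ∈ X <;> by_cases c3 : e ∈ F <;>
          by_cases c4 : ψ e = 1 <;> simp [l, u, c1, c2, c3, c4] at q1 ⊢ <;> omega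
      have hd : (#{e | ¬ (src e ∈ X ↔ tgt e ∈ X)} : ℤ) ≤
          2 * capOut src tgt l u X - 5 * ∑ v ∈ X, bdry src tgt ψ v := by
        rw [sum_bdry, Finset.card_filter]
        push_cast
        unfold capOut
        rw [Finset.mul_sum, Finset.mul_sum, ← Finset.sum_sub_distrib]
        refine Finset.sum_le_sum fun e _ => ?_
        have q1 := p1 e
        have q2 := abs_le.1 (p2 e)
        by_cases c1 : src e ∈ X <;> by_cases c2 : tgt e ∈ X <;> by_cases c3 : e ∈ F <;>
          by_cases c4 : ψ e = 1 <;> simp [l, u, c1, c2, c3, c4] at q1 ⊢ <;> omega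
      have hk1' := abs_le.1 hk1
      have hk2' := abs_le.1 hk2
      by_cases hA : ∃ c ∈ O, ∀ v, (spanGr src tgt F).connectedComponentMk v = c → v ∈ X
      · by_cases hB : ∃ c ∈ O, ∀ v, (spanGr src tgt F).connectedComponentMk v = c → v ∈ Xᶜ
        · have := hcut X hA hB (by omega)
          omega
        · have := cross_bound src tgt F hF O Z Xᶜ p5 p6 hB
          have e1 : #{e ∈ F | ¬ (src e ∈ Xᶜ ↔ tgt e ∈ Xᶜ)} =
              #{e ∈ F | ¬ (src e ∈ X ↔ tgt e ∈ X)} := by
            congr 1
            refine Finset.filter_congr fun e _ => ?_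
            simp only [mem_compl]; tauto
          omega
      · have := cross_bound src tgt F hF O Z X p5 p6 hA
        omega)
  refine ⟨φ₂, φ₄, a1, a0, fun v => (ab v).2 (hF v), fun e => ?_, fun e he => ?_, b2⟩
  · have := b1 e
    simp only [l, u] at this
    rw [abs_le]
    split_ifs at this <;> omega
  · have := b1 e
    simp only [l, u, he, if_false] at this
    rw [le_abs]
    split_ifs at this <;> omega

end Pool.Agent.P.MP_e59a69_co
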