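import Mathlib

/-! Hoffman's circulation theorem for finite multigraphs with integer bounds (own copy). -/

open Finset

namespace Pool.Agent.P.MP_e59a69_co.OE

variable {V E : Type} [Fintype V] [Fintype E] [DecidableEq V]

/-- net outflow at a vertex -/
def bdry (src tgt : E → V) (φ : E → ℤ) (v : V) : ℤ :=
  ∑ e, ((if src e = v then φ e else 0) - (if tgt e = v then φ e else 0))

/-- largest possible net outflow of a vertex set -/
def capOut (src tgt : E → V) (l u : E → ℤ) (X : Finset V) : ℤ :=
  ∑ e, (if src e ∈ X ∧ tgt e ∉ X then u e else if tgt e ∈ X ∧ src e ∉ X then - l e else 0)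

omit [Fintype V] in
lemma sum_bdry (src tgt : E → V) (φ : E → ℤ) (X : Finset V) :
    ∑ v ∈ X, bdry src tgt φ v =
      ∑ e, ((if src e ∈ X then φ e else 0) - (if tgt e ∈ X then φ e else 0)) := by
  unfold bdry
  rw [Finset.sum_comm]
  refine Finset.sum_congr rfl fun e _ => ?_
  rw [Finset.sum_sub_distrib, Finset.sum_ite_eq, Finset.sum_ite_eq]

lemma sum_bdry_univ (src tgt : E → V) (φ : E → ℤ) :
    ∑ v, bdry src tgt φ v = 0 := by
  rw [sum_bdry]; simp

omit [Fintype V] in
lemma capOut_submod (src tgt : E → V) (l u : E → ℤ) (hlu : ∀ e, l e ≤ u e) (X Y : Finset V)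
    (e0 : E) (h1 : tgt e0 ∈ X) (h2 : src e0 ∉ X) (h3 : src e0 ∈ Y) (h4 : tgt e0 ∉ Y) :
    capOut src tgt l u (X ∩ Y) + capOut src tgt l u (X ∪ Y) + (u e0 - l e0) ≤
      capOut src tgt l u X + capOut src tgt l u Y := by
  classical
  unfold capOut
  have key : (u e0 - l e0) = ∑ e, (if e = e0 then u e - l e else 0) := by simp
  rw [key, ← Finset.sum_add_distrib, ← Finset.sum_add_distrib, ← Finset.sum_add_distrib]
  refine Finset.sum_le_sum fun e _ => ?_
  have := hlu e
  by_cases he : e = e0
  · subst he
    simp [h1, h2, h3, h4]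
  · by_cases a1 : src e ∈ X <;> by_cases a2 : tgt e ∈ X <;> by_cases a3 : src e ∈ Y <;>
      by_cases a4 : tgt e ∈ Y <;> simp [a1, a2, a3, a4, he] <;> omega

theorem hoffman (src tgt : E → V) (b : V → ℤ) (hb : ∑ v, b v = 0) :
    ∀ (n : ℕ) (l u : E → ℤ), (∀ e, l e ≤ u e) → ∑ e, (u e - l e) = n →
      (∀ X : Finset V, ∑ v ∈ X, b v ≤ capOut src tgt l u X) →
      ∃ φ : E → ℤ, (∀ e, l e ≤ φ e ∧ φ e ≤ u e) ∧ ∀ v, bdry src tgt φ v = b v := by
  classical
  intro n
  induction n with
  | zero =>
    intro l u hlu hs h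
    have heq : ∀ e, u e = l e := by
      intro e
      have := (Finset.sum_eq_zero_iff_of_nonneg (s := univ) (f := fun e => u e - l e)
        (fun e _ => by have := hlu e; omega)).1 (by simpa using hs) e (mem_univ e)
      omega
    refine ⟨l, fun e => ⟨le_rfl, hlu e⟩, ?_⟩
    have hle : ∀ v, b v ≤ bdry src tgt l v := by
      intro v
      have := h {v}
      rw [Finset.sum_singleton] at this
      refine this.trans (le_of_eq ?_)
      unfold capOut bdry
      refine Finset.sum_congr rfl fun e _ => ?_
      by_cases a1 : src e = v <;> by_cases a2 : tgt e = v <;> simp [a1, a2, heq e]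
    have hsum : ∑ v, (bdry src tgt l v - b v) = 0 := by
      rw [Finset.sum_sub_distrib, sum_bdry_univ, hb]; simp
    intro v
    have := (Finset.sum_eq_zero_iff_of_nonneg (s := univ) (f := fun v => bdry src tgt l v - b v)
        (fun v _ => by have := hle v; omega)).1 hsum v (mem_univ v)
    omega
  | succ n ih =>
    intro l u hlu hs h
    obtain ⟨e0, he0⟩ : ∃ e0, l e0 < u e0 := by
      by_contra hc
      push Not at hc
      have : ∑ e, (u e - l e) ≤ 0 := Finset.sum_nonpos fun e _ => by have := hc e; omega
      push_cast at hs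
      omega
    by_cases hA : ∀ X : Finset V, ∑ v ∈ X, b v ≤
        capOut src tgt (Function.update l e0 (l e0 + 1)) u X
    · obtain ⟨φ, h1, h2⟩ := ih (Function.update l e0 (l e0 + 1)) u
        (fun e => by
          by_cases he : e = e0
          · subst he; simp; omega
          · simp [he, hlu e])
        (by
          have : ∑ e, (u e - Function.update l e0 (l e0 + 1) e) =
              ∑ e, ((u e - l e) - if e = e0 then 1 else 0) := by
            refine Finset.sum_congr rfl fun e _ => ?_
            by_cases he : e = e0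
            · subst he; simp; ring
            · simp [he]
          rw [this, Finset.sum_sub_distrib, hs]; simp) hA
      refine ⟨φ, fun e => ⟨?_, (h1 e).2⟩, h2⟩
      have := (h1 e).1
      by_cases he : e = e0
      · subst he; simp at this; omega
      · simpa [he] using this
    by_cases hB : ∀ X : Finset V, ∑ v ∈ X, b v ≤
        capOut src tgt l (Function.update u e0 (u e0 - 1)) X
    · obtain ⟨φ, h1, h2⟩ := ih l (Function.update u e0 (u e0 - 1))
        (fun e => by
          by_cases he : e = e0
          · subst he; simp; omega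
          · simp [he, hlu e])
        (by
          have : ∑ e, (Function.update u e0 (u e0 - 1) e - l e) =
              ∑ e, ((u e - l e) - if e = e0 then 1 else 0) := by
            refine Finset.sum_congr rfl fun e _ => ?_
            by_cases he : e = e0
            · subst he; simp; ring
            · simp [he]
          rw [this, Finset.sum_sub_distrib, hs]; simp) hB
      refine ⟨φ, fun e => ⟨(h1 e).1, ?_⟩, h2⟩
      have := (h1 e).2
      by_cases he : e = e0
      · subst he; simp at this; omega
      · simpa [he] using this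
    exfalso
    push Not at hA hB
    obtain ⟨X, hX⟩ := hA
    obtain ⟨Y, hY⟩ := hB
    have eX : capOut src tgt (Function.update l e0 (l e0 + 1)) u X =
        capOut src tgt l u X - if tgt e0 ∈ X ∧ src e0 ∉ X then 1 else 0 := by
      unfold capOut
      have : (if tgt e0 ∈ X ∧ src e0 ∉ X then (1 : ℤ) else 0) =
          ∑ e, if e = e0 then (if tgt e0 ∈ X ∧ src e0 ∉ X then (1 : ℤ) else 0) else 0 := by simp
      rw [this, ← Finset.sum_sub_distrib]
      refine Finset.sum_congr rfl fun e _ => ?_
      by_cases he : e = e0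
      · subst he
        by_cases a1 : src e ∈ X <;> by_cases a2 : tgt e ∈ X <;> simp [a1, a2]
        ring
      · simp [he]
    have eY : capOut src tgt l (Function.update u e0 (u e0 - 1)) Y =
        capOut src tgt l u Y - if src e0 ∈ Y ∧ tgt e0 ∉ Y then 1 else 0 := by
      unfold capOut
      have : (if src e0 ∈ Y ∧ tgt e0 ∉ Y then (1 : ℤ) else 0) =
          ∑ e, if e = e0 then (if src e0 ∈ Y ∧ tgt e0 ∉ Y then (1 : ℤ) else 0) else 0 := by simp
      rw [this, ← Finset.sum_sub_distrib]
      refine Finset.sum_congr rfl fun e _ => ?_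
      by_cases he : e = e0
      · subst he
        by_cases a1 : src e ∈ Y <;> by_cases a2 : tgt e ∈ Y <;> simp [a1, a2]
      · simp [he]
    have hX0 := h X
    have hY0 := h Y
    have cX : tgt e0 ∈ X ∧ src e0 ∉ X := by
      by_contra hc; rw [eX, if_neg hc] at hX; omega
    have cY : src e0 ∈ Y ∧ tgt e0 ∉ Y := by
      by_contra hc; rw [eY, if_neg hc] at hY; omega
    rw [eX, if_pos cX] at hX
    rw [eY, if_pos cY] at hY
    have hsub := capOut_submod src tgt l u hlu X Y e0 cX.1 cX.2 cY.1 cY.2
    have h1 := h (X ∩ Y)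
    have h2 := h (X ∪ Y)
    have h3 := Finset.sum_union_inter (s₁ := X) (s₂ := Y) (f := b)
    omega

theorem hoffman' (src tgt : E → V) (b : V → ℤ) (hb : ∑ v, b v = 0) (l u : E → ℤ)
    (hlu : ∀ e, l e ≤ u e) (h : ∀ X : Finset V, ∑ v ∈ X, b v ≤ capOut src tgt l u X) :
    ∃ φ : E → ℤ, (∀ e, l e ≤ φ e ∧ φ e ≤ u e) ∧ ∀ v, bdry src tgt φ v = b v := by
  have hn : 0 ≤ ∑ e, (u e - l e) := Finset.sum_nonneg fun e _ => by have := hlu e; omega
  exact hoffman src tgt b hb (∑ e, (u e - l e)).toNat l u hlu (Int.toNat_of_nonneg hn).symm h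

end Pool.Agent.P.MP_e59a69_co.OE
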