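import Pool.Agent.P.MP_e59a69_co.Defs
import Pool.Agent.P.MP_e59a69_co.OeHoff

/-! Cuts, parity of flows on cuts, Eulerian orientations, and the circulation step. -/

open Finset

namespace Pool.Agent.P.MP_e59a69_co.OE

variable {V E : Type} [Fintype V] [Fintype E] [DecidableEq V] [DecidableEq E]

/-- the Klein four-group -/
abbrev K := ZMod 2 × ZMod 2

/-- edges with exactly one end in `X` -/
def cut (src tgt : E → V) (X : Finset V) : Finset E :=
  univ.filter fun e => ¬ (src e ∈ X ↔ tgt e ∈ X)

omit [Fintype V] [DecidableEq E] in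
lemma mem_cut {src tgt : E → V} {X : Finset V} {e : E} :
    e ∈ cut src tgt X ↔ ¬ (src e ∈ X ↔ tgt e ∈ X) := by simp [cut]

omit [Fintype V] [DecidableEq E] in
lemma bdry_iff (src tgt : E → V) (φ : E → ℤ) (v : V) :
    bdry src tgt φ v = 0 ↔ ∑ e with src e = v, φ e = ∑ e with tgt e = v, φ e := by
  unfold bdry
  rw [Finset.sum_sub_distrib, Finset.sum_filter, Finset.sum_filter, sub_eq_zero]

omit [Fintype V] [DecidableEq E] in
lemma cast_bdry (src tgt : E → V) (φ : E → ℤ) (X : Finset V) :
    ((∑ v ∈ X, bdry src tgt φ v : ℤ) : ZMod 2) = ∑ e ∈ cut src tgt X, (φ e : ZMod 2) := by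
  rw [sum_bdry, cut, Finset.sum_filter, Int.cast_sum]
  refine Finset.sum_congr rfl fun e _ => ?_
  by_cases a1 : src e ∈ X <;> by_cases a2 : tgt e ∈ X <;> simp [a1, a2]

omit [Fintype V] [DecidableEq E] in
lemma flow_cut (src tgt : E → V) (φ : E → ℤ) (h : ∀ v, bdry src tgt φ v = 0) (X : Finset V) :
    ∑ e ∈ cut src tgt X, (φ e : ZMod 2) = 0 := by
  rw [← cast_bdry]; simp [h]

omit [Fintype V] [DecidableEq E] in
lemma bdry_lin (src tgt : E → V) (φ ψ χ : E → ℤ) (p q r : ℤ)
    (h : ∀ e, r * χ e = p * φ e + q * ψ e) (v : V) :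
    r * bdry src tgt χ v = p * bdry src tgt φ v + q * bdry src tgt ψ v := by
  unfold bdry
  rw [Finset.mul_sum, Finset.mul_sum, Finset.mul_sum, ← Finset.sum_add_distrib]
  refine Finset.sum_congr rfl fun e _ => ?_
  have := h e
  by_cases a1 : src e = v <;> by_cases a2 : tgt e = v <;> simp [a1, a2] <;> linarith

omit [DecidableEq E] in
/-- an even edge set carries a flow with values `1`, `-1` -/
lemma eul (src tgt : E → V) (a : E → ZMod 2) (ha : ∀ X, ∑ e ∈ cut src tgt X, a e = 0) :
    ∃ x : E → ℤ, (∀ v, bdry src tgt x v = 0) ∧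
      ∀ e, (a e = 0 → x e = 0) ∧ (a e ≠ 0 → x e = 1 ∨ x e = -1) := by
  let s : E → ℤ := fun e => if a e = 0 then 0 else 1
  have hs : ∀ e, (s e : ZMod 2) = a e := by
    intro e
    have : ∀ z : ZMod 2, (((if z = 0 then 0 else 1 : ℤ)) : ZMod 2) = z := by decide
    exact this (a e)
  have hs0 : ∀ e, 0 ≤ s e := by
    intro e; simp only [s]; split_ifs <;> omega
  have hev : ∀ v, (2 : ℤ) ∣ bdry src tgt s v := by
    intro v
    have := cast_bdry src tgt s {v}
    rw [Finset.sum_singleton] at this
    simp only [hs, ha] at this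
    exact (ZMod.intCast_zmod_eq_zero_iff_dvd _ 2).1 this
  choose b hb using hev
  have hX : ∀ X : Finset V, 2 * ∑ v ∈ X, b v = ∑ v ∈ X, bdry src tgt s v := by
    intro X; rw [Finset.mul_sum]; exact Finset.sum_congr rfl fun v _ => (hb v).symm
  obtain ⟨g, hg, hgb⟩ := hoffman' src tgt b
    (by have := hX univ; rw [sum_bdry_univ] at this; omega) (fun _ => 0) s hs0 (by
      intro X
      have h1 := hX X
      rw [sum_bdry] at h1
      have h2 : ∑ e, ((if src e ∈ X then s e else 0) - (if tgt e ∈ X then s e else 0)) ≤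
          2 * capOut src tgt (fun _ => 0) s X := by
        unfold capOut
        rw [Finset.mul_sum]
        refine Finset.sum_le_sum fun e _ => ?_
        have := hs0 e
        by_cases a1 : src e ∈ X <;> by_cases a2 : tgt e ∈ X <;> simp [a1, a2] <;> omega
      omega)
  refine ⟨fun e => s e - 2 * g e, fun v => ?_, fun e => ?_⟩
  · have := bdry_lin src tgt s g (fun e => s e - 2 * g e) 1 (-2) 1 (fun e => by ring) v
    rw [hgb, hb] at this
    omega
  · have h1 := hg e
    beta_reduce
    constructor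
    · intro h0
      have : s e = 0 := by simp [s, h0]
      omega
    · intro h0
      have : s e = 1 := by simp [s, h0]
      omega

/-- valid colourings: Klein flows vanishing exactly on `e0` -/
structure Val (src tgt : E → V) (e0 : E) (c : E → K) : Prop where
  z : c e0 = 0
  nz : ∀ e, e ≠ e0 → c e ≠ 0
  cs : ∀ X, ∑ e ∈ cut src tgt X, c e = 0

/-- tight sets -/
def Ti (src tgt : E → V) (e0 : E) (X : Finset V) : Prop :=
  tgt e0 ∈ X ∧ src e0 ∉ X ∧ #(cut src tgt X) = 3

/-- all cut edges but `e0` have colour `k` -/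
def Col (src tgt : E → V) (e0 : E) (c : E → K) (X : Finset V) (k : K) : Prop :=
  ∀ e ∈ cut src tgt X, e ≠ e0 → c e = k

variable {src tgt : E → V} {e0 : E} {c : E → K}

omit [Fintype V] in
lemma Val.er (h : Val src tgt e0 c) (X : Finset V) :
    ∑ e ∈ (cut src tgt X).erase e0, c e = 0 := by
  rw [Finset.sum_erase _ h.z]; exact h.cs X

omit [Fintype V] in
lemma card_er {X : Finset V} (h1 : tgt e0 ∈ X) (h2 : src e0 ∉ X) :
    #((cut src tgt X).erase e0) + 1 = #(cut src tgt X) :=
  Finset.card_erase_add_one (mem_cut.2 (by simp [h1, h2]))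

omit [Fintype V] in
lemma Val.ge (h : Val src tgt e0 c) (hb : ∀ X, #(cut src tgt X) ≠ 1) {X : Finset V}
    (h1 : tgt e0 ∈ X) (h2 : src e0 ∉ X) : 3 ≤ #(cut src tgt X) := by
  have a := card_er h1 h2
  have b := hb X
  have d : #((cut src tgt X).erase e0) ≠ 1 := by
    intro hc
    obtain ⟨e, he⟩ := Finset.card_eq_one.1 hc
    have s := h.er X
    rw [he, Finset.sum_singleton] at s
    have : e ∈ (cut src tgt X).erase e0 := by rw [he]; simp
    exact h.nz e (Finset.mem_erase.1 this).1 s
  omega

/-- no tight set of colour `(0, 1)`: a pair exists -/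
lemma Val.pair (h : Val src tgt e0 c) (hb : ∀ X, #(cut src tgt X) ≠ 1)
    (hn : ∀ X, Ti src tgt e0 X → ¬ Col src tgt e0 c X (0, 1)) :
    ∃ φ₂ φ₄ : E → ℤ, IsKFlow src tgt 2 φ₂ ∧ IsKFlow src tgt 4 φ₄ ∧
      ∀ e, φ₂ e = 0 → 2 ≤ |φ₄ e| := by
  have c1 : ∀ X, ∑ e ∈ cut src tgt X, (c e).1 = 0 := fun X => by
    rw [← Prod.fst_sum, h.cs]; rfl
  have c2 : ∀ X, ∑ e ∈ cut src tgt X, (c e).2 = 0 := fun X => by
    rw [← Prod.snd_sum, h.cs]; rfl
  obtain ⟨p, hp, hp'⟩ := eul src tgt _ c1
  obtain ⟨x, hx, hx'⟩ := eul src tgt _ c2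
  have x0 : x e0 = 0 := (hx' e0).1 (by rw [h.z]; rfl)
  have z0 : (c e0).1 = 0 := by rw [h.z]; rfl
  have x1 : ∀ e, x e = 0 ∨ x e = 1 ∨ x e = -1 := fun e => by
    by_cases h0 : (c e).2 = 0
    · exact Or.inl ((hx' e).1 h0)
    · exact Or.inr ((hx' e).2 h0)
  have co : ∀ e, e ≠ e0 → (c e).1 = 0 → c e = (0, 1) := fun e he h0 => by
    have : ∀ k : K, k ≠ 0 → k.1 = 0 → k = (0, 1) := by decide
    exact this _ (h.nz e he) h0
  have x2 : ∀ e, e ≠ e0 → (c e).1 = 0 → x e = 1 ∨ x e = -1 := fun e he h0 =>
    (hx' e).2 (by rw [co e he h0]; decide)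
  let l : E → ℤ := fun e => if (c e).1 ≠ 0 then -3 else if x e = -1 then -3 else 2
  let u : E → ℤ := fun e => if (c e).1 ≠ 0 then 3 else if x e = -1 then -2 else 3
  obtain ⟨g, hg, hgb⟩ := hoffman' src tgt (fun _ => 0) (by simp) l u
    (fun e => by simp only [l, u]; split_ifs <;> omega) (by
      intro X
      have hw : ∑ e, ((if src e ∈ X then x e else 0) - (if tgt e ∈ X then x e else 0)) = 0 := by
        rw [← sum_bdry]; simp [hx]
      rw [Finset.sum_const_zero]
      have k1 : ∑ e, ((if e ∈ (cut src tgt X).filter (fun e => (c e).1 ≠ 0) then 1 else 0) -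
          (if e = e0 then (if tgt e0 ∈ X ∧ src e0 ∉ X then 2 else 0) else 0) +
          2 * ((if src e ∈ X then x e else 0) - (if tgt e ∈ X then x e else 0))) ≤
          capOut src tgt l u X := by
        unfold capOut
        refine Finset.sum_le_sum fun e _ => ?_
        by_cases he : e = e0
        · subst he
          by_cases a1 : src e ∈ X <;> by_cases a2 : tgt e ∈ X <;>
            simp [a1, a2, l, u, x0, z0]
        · by_cases h0 : (c e).1 = 0
          · rcases x2 e he h0 with h1 | h1 <;> by_cases a1 : src e ∈ X <;>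
              by_cases a2 : tgt e ∈ X <;> simp [a1, a2, l, u, h0, h1, he]
          · rcases x1 e with h1 | h1 | h1 <;> by_cases a1 : src e ∈ X <;>
              by_cases a2 : tgt e ∈ X <;> simp [a1, a2, l, u, h0, h1, he, mem_cut]
      rw [Finset.sum_add_distrib, Finset.sum_sub_distrib, ← Finset.mul_sum, hw] at k1
      simp only [Finset.sum_ite_mem_eq, Finset.sum_ite_eq', Finset.mem_univ, if_true,
        Finset.sum_const, nsmul_eq_mul, mul_one] at k1
      by_cases hX : tgt e0 ∈ X ∧ src e0 ∉ X
      swap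
      · rw [if_neg hX] at k1; omega
      rw [if_pos hX] at k1
      have n1 : #((cut src tgt X).filter (fun e => (c e).1 ≠ 0)) ≠ 1 := by
        intro hc
        obtain ⟨e, he⟩ := Finset.card_eq_one.1 hc
        have s := c1 X
        rw [← Finset.sum_filter_ne_zero, he, Finset.sum_singleton] at s
        have : e ∈ (cut src tgt X).filter (fun e => (c e).1 ≠ 0) := by rw [he]; simp
        exact (Finset.mem_filter.1 this).2 s
      by_cases n0 : #((cut src tgt X).filter (fun e => (c e).1 ≠ 0)) = 0
      swap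
      · omega
      have a0 : ∀ e ∈ cut src tgt X, (c e).1 = 0 := by
        intro e he
        by_contra hc
        have : e ∈ (cut src tgt X).filter (fun e => (c e).1 ≠ 0) := Finset.mem_filter.2 ⟨he, hc⟩
        rw [Finset.card_eq_zero.1 n0] at this
        simp at this
      have hcol : Col src tgt e0 c X (0, 1) := fun e he hne => co e hne (a0 e he)
      have g3 := h.ge hb hX.1 hX.2
      have n3 : #(cut src tgt X) ≠ 3 := fun hc => hn X ⟨hX.1, hX.2, hc⟩ hcol
      have ce := card_er hX.1 hX.2
      have n4 : #((cut src tgt X).erase e0) ≠ 3 := by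
        intro hc
        have s := h.er X
        rw [Finset.sum_congr rfl (fun e he =>
          hcol e (Finset.mem_erase.1 he).2 (Finset.mem_erase.1 he).1), Finset.sum_const, hc] at s
        revert s; decide
      have k2 : ∑ e, ((if e ∈ (cut src tgt X).erase e0 then 1 else 0) -
          (if e = e0 then 4 else 0) +
          5 * ((if src e ∈ X then x e else 0) - (if tgt e ∈ X then x e else 0))) ≤
          2 * capOut src tgt l u X := by
        unfold capOut
        rw [Finset.mul_sum]
        refine Finset.sum_le_sum fun e _ => ?_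
        by_cases he : e = e0
        · subst he
          simp [hX.1, hX.2, l, u, x0, z0]
        · by_cases hc : e ∈ cut src tgt X
          · have h0 := a0 e hc
            have hc' := mem_cut.1 hc
            rcases x2 e he h0 with h1 | h1 <;> by_cases a1 : src e ∈ X <;>
              by_cases a2 : tgt e ∈ X <;> simp [a1, a2, l, u, h0, h1, he, hc] at hc' ⊢
          · have hc' := mt mem_cut.2 hc
            by_cases a1 : src e ∈ X <;> by_cases a2 : tgt e ∈ X <;>
              simp [a1, a2, he, hc] at hc' ⊢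
      rw [Finset.sum_add_distrib, Finset.sum_sub_distrib, ← Finset.mul_sum, hw] at k2
      simp only [Finset.sum_ite_mem_eq, Finset.sum_ite_eq', Finset.mem_univ, if_true,
        Finset.sum_const, nsmul_eq_mul, mul_one] at k2
      omega)
  refine ⟨p, g, ⟨fun e => ?_, fun v => (bdry_iff _ _ _ v).1 (hp v)⟩,
    ⟨fun e => ?_, fun v => (bdry_iff _ _ _ v).1 (hgb v)⟩, fun e he => ?_⟩
  · by_cases h0 : (c e).1 = 0
    · rw [(hp' e).1 h0]; decide
    · rcases (hp' e).2 h0 with h1 | h1 <;> rw [h1] <;> decide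
  · have := hg e
    simp only [l, u] at this
    rw [abs_le]
    split_ifs at this <;> omega
  · have h0 : (c e).1 = 0 := by
      by_contra hc
      rcases (hp' e).2 hc with h1 | h1 <;> omega
    have := hg e
    simp only [l, u, h0, ne_eq, not_true_eq_false, if_false] at this
    rw [le_abs]
    split_ifs at this <;> omega

end Pool.Agent.P.MP_e59a69_co.OE
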