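import Pool.Agent.P.MP_e59a69_co.OeBase

/-! Recolouring across tight three-edge cuts. -/

open Finset

namespace Pool.Agent.P.MP_e59a69_co.OE

variable {V E : Type} [Fintype V] [Fintype E] [DecidableEq V] [DecidableEq E]
variable {src tgt : E → V} {e0 : E} {c : E → K}

omit [Fintype V] [DecidableEq E] in
lemma cut_submod (src tgt : E → V) (X Z : Finset V) :
    #(cut src tgt (X ∩ Z)) + #(cut src tgt (X ∪ Z)) ≤ #(cut src tgt X) + #(cut src tgt Z) := by
  simp only [cut, Finset.card_filter]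
  rw [← Finset.sum_add_distrib, ← Finset.sum_add_distrib]
  refine Finset.sum_le_sum fun e _ => ?_
  by_cases a1 : src e ∈ X <;> by_cases a2 : tgt e ∈ X <;> by_cases a3 : src e ∈ Z <;>
    by_cases a4 : tgt e ∈ Z <;> simp [a1, a2, a3, a4]

omit [Fintype V] [DecidableEq E] in
lemma cut_inter {X Z : Finset V} {e : E} (h : e ∈ cut src tgt (X ∩ Z)) :
    e ∈ cut src tgt X ∨ e ∈ cut src tgt Z := by
  simp only [mem_cut, Finset.mem_inter] at h ⊢
  tauto

omit [Fintype V] [DecidableEq E] in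
lemma cut_union {X Z : Finset V} {e : E} (h : e ∈ cut src tgt (X ∪ Z)) :
    e ∈ cut src tgt X ∨ e ∈ cut src tgt Z := by
  simp only [mem_cut, Finset.mem_union] at h ⊢
  tauto

omit [Fintype V] in
lemma Val.lat (h : Val src tgt e0 c) (hb : ∀ X, #(cut src tgt X) ≠ 1) {X Z : Finset V}
    (hX : Ti src tgt e0 X) (hZ : Ti src tgt e0 Z) :
    Ti src tgt e0 (X ∩ Z) ∧ Ti src tgt e0 (X ∪ Z) := by
  have a1 : tgt e0 ∈ X ∩ Z := Finset.mem_inter.2 ⟨hX.1, hZ.1⟩
  have a2 : src e0 ∉ X ∩ Z := fun hc => hX.2.1 (Finset.mem_inter.1 hc).1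
  have a3 : tgt e0 ∈ X ∪ Z := Finset.mem_union_left _ hX.1
  have a4 : src e0 ∉ X ∪ Z := fun hc => (Finset.mem_union.1 hc).elim hX.2.1 hZ.2.1
  have b1 := h.ge hb a1 a2
  have b2 := h.ge hb a3 a4
  have b3 := cut_submod src tgt X Z
  have b4 := hX.2.2
  have b5 := hZ.2.2
  exact ⟨⟨a1, a2, by omega⟩, ⟨a3, a4, by omega⟩⟩

omit [Fintype V] in
lemma Ti.ex {X : Finset V} (hX : Ti src tgt e0 X) : ∃ e ∈ cut src tgt X, e ≠ e0 := by
  have a := card_er hX.1 hX.2.1
  have b := hX.2.2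
  obtain ⟨e, he⟩ := Finset.card_pos.1 (show 0 < #((cut src tgt X).erase e0) by omega)
  exact ⟨e, (Finset.mem_erase.1 he).2, (Finset.mem_erase.1 he).1⟩

omit [Fintype V] in
lemma Val.col (h : Val src tgt e0 c) {X : Finset V} (hX : Ti src tgt e0 X) :
    ∃ k, k ≠ 0 ∧ Col src tgt e0 c X k := by
  have a := card_er hX.1 hX.2.1
  have b := hX.2.2
  obtain ⟨e1, e2, hne, he⟩ := Finset.card_eq_two.1 (show #((cut src tgt X).erase e0) = 2 by omega)
  have s := h.er X
  rw [he, Finset.sum_pair hne] at s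
  have t : c e2 = c e1 := by
    have : ∀ p q : K, p + q = 0 → q = p := by decide
    exact this _ _ s
  have m : e1 ∈ (cut src tgt X).erase e0 := by rw [he]; simp
  refine ⟨c e1, h.nz e1 (Finset.mem_erase.1 m).1, fun e h1 h2 => ?_⟩
  have : e ∈ (cut src tgt X).erase e0 := Finset.mem_erase.2 ⟨h2, h1⟩
  rw [he] at this
  rcases Finset.mem_insert.1 this with r | r
  · rw [r]
  · rw [Finset.mem_singleton.1 r, t]

omit [Fintype V] [DecidableEq E] in
lemma cut_split (d : E → K) (X Y : Finset V) :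
    ∑ e ∈ cut src tgt X, d e =
      ∑ e ∈ cut src tgt (X ∩ Y), d e + ∑ e ∈ cut src tgt (X \ Y), d e := by
  simp only [cut, Finset.sum_filter]
  rw [← Finset.sum_add_distrib]
  refine Finset.sum_congr rfl fun e _ => ?_
  have t : ∀ p : K, p + p = 0 := by decide
  by_cases a1 : src e ∈ X <;> by_cases a2 : tgt e ∈ X <;> by_cases a3 : src e ∈ Y <;>
    by_cases a4 : tgt e ∈ Y <;> simp [a1, a2, a3, a4, t]

lemma exists_aut (k : K) (h0 : k ≠ 0) (h1 : k ≠ (0, 1)) :
    ∃ π : K →+ K, (∀ a, a ≠ 0 → π a ≠ 0) ∧ π k = k ∧ π (0, 1) ≠ (0, 1) := by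
  have : ∀ k : K, k ≠ 0 → k ≠ (0, 1) → k = (1, 0) ∨ k = (1, 1) := by decide
  rcases this k h0 h1 with rfl | rfl
  · refine ⟨AddMonoidHom.mk' (fun p : K => (p.1 + p.2, p.2)) (by decide), ?_, ?_, ?_⟩ <;>
      simp only [AddMonoidHom.mk'_apply] <;> decide
  · refine ⟨AddMonoidHom.mk' (fun p : K => (p.2, p.1)) (by decide), ?_, ?_, ?_⟩ <;>
      simp only [AddMonoidHom.mk'_apply] <;> decide

omit [Fintype V] in
lemma Val.step (h : Val src tgt e0 c) (hb : ∀ X, #(cut src tgt X) ≠ 1) (n : ℕ)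
    (hn : ∀ X, Ti src tgt e0 X → Col src tgt e0 c X (0, 1) → n ≤ #X) :
    ∃ d, Val src tgt e0 d ∧ ∀ X, Ti src tgt e0 X → Col src tgt e0 d X (0, 1) → n + 1 ≤ #X := by
  classical
  by_cases hex : ∃ X, Ti src tgt e0 X ∧ Col src tgt e0 c X (0, 1) ∧ #X ≤ n
  swap
  · refine ⟨c, h, fun X h1 h2 => ?_⟩
    by_contra hc
    exact hex ⟨X, h1, h2, by omega⟩
  obtain ⟨X, hX, cX, nX⟩ := hex
  have hmin : ∀ Z, Ti src tgt e0 Z → Col src tgt e0 c Z (0, 1) → X ⊆ Z := by
    intro Z hZ cZ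
    have a := hn (X ∩ Z) (h.lat hb hX hZ).1 fun e he hne =>
      (cut_inter he).elim (fun r => cX e r hne) fun r => cZ e r hne
    have := Finset.eq_of_subset_of_card_le (Finset.inter_subset_left (s₁ := X) (s₂ := Z))
      (by omega)
    rw [← this]; exact Finset.inter_subset_right
  obtain ⟨Y, hY, hmax⟩ := Finset.exists_max_image
    (X.powerset.filter fun Y => Y = ∅ ∨ (Ti src tgt e0 Y ∧ ¬ Col src tgt e0 c Y (0, 1)))
    Finset.card ⟨∅, by simp⟩
  simp only [Finset.mem_filter, Finset.mem_powerset] at hY hmax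
  obtain ⟨k0, k1, k2, cY⟩ : ∃ k0 : K, k0 ≠ 0 ∧ k0 ≠ (0, 1) ∧ Col src tgt e0 c Y k0 := by
    rcases hY.2 with r | ⟨r1, r2⟩
    · refine ⟨(1, 0), by decide, by decide, fun e he => ?_⟩
      rw [r, mem_cut] at he
      simp at he
    · obtain ⟨k, a, b⟩ := h.col r1
      exact ⟨k, a, fun hc => r2 (hc ▸ b), b⟩
  obtain ⟨π, p1, p2, p3⟩ := exists_aut k0 k1 k2
  let d : E → K := fun e => if src e ∈ Y ∨ tgt e ∈ Y then c e else π (c e)
  have d1 : ∀ e, src e ∈ Y ∨ tgt e ∈ Y → d e = c e := fun e he => if_pos he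
  have d2 : ∀ e, ¬ (src e ∈ Y ∧ tgt e ∈ Y) → d e = π (c e) := by
    intro e he
    by_cases hm : src e ∈ Y ∨ tgt e ∈ Y
    · rw [d1 e hm]
      by_cases h0 : e = e0
      · rw [h0, h.z, map_zero]
      · rw [cY e (mem_cut.2 (by tauto)) h0, p2]
    · exact if_neg hm
  refine ⟨d, ⟨?_, fun e he => ?_, fun Z => ?_⟩, fun Z hZ dZ => ?_⟩
  · simp only [d, h.z, map_zero, ite_self]
  · simp only [d]
    split_ifs
    · exact h.nz e he
    · exact p1 _ (h.nz e he)
  · have s1 : ∑ e ∈ cut src tgt (Z ∩ Y), d e = ∑ e ∈ cut src tgt (Z ∩ Y), c e :=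
      Finset.sum_congr rfl fun e he => d1 e (by
        simp only [mem_cut, Finset.mem_inter] at he
        tauto)
    have s2 : ∑ e ∈ cut src tgt (Z \ Y), d e = ∑ e ∈ cut src tgt (Z \ Y), π (c e) :=
      Finset.sum_congr rfl fun e he => d2 e (by
        simp only [mem_cut, Finset.mem_sdiff] at he
        tauto)
    rw [cut_split d Z Y, s1, s2, ← map_sum, h.cs, h.cs, map_zero, add_zero]
  obtain ⟨k, -, cZ⟩ := h.col hZ
  by_cases hk : k = (0, 1)
  · exfalso
    subst hk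
    have sub : Y ⊆ Z := hY.1.trans (hmin Z hZ cZ)
    obtain ⟨e, he, hne⟩ := hZ.ex
    have a := d2 e fun hc => mem_cut.1 he (iff_of_true (sub hc.1) (sub hc.2))
    rw [dZ e he hne, cZ e he hne] at a
    exact p3 a.symm
  have far : ∀ e ∈ cut src tgt Z, e ≠ e0 → ¬ (src e ∈ Y ∨ tgt e ∈ Y) := by
    intro e he hne hm
    have a := d1 e hm
    rw [dZ e he hne, cZ e he hne] at a
    exact hk a.symm
  have hW := (h.lat hb hX hZ).1
  by_cases cW : Col src tgt e0 c (X ∩ Z) (0, 1)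
  · have sub : X ⊆ Z := (hmin _ hW cW).trans Finset.inter_subset_right
    have ne : X ≠ Z := by
      rintro rfl
      obtain ⟨e, he, hne⟩ := hX.ex
      exact hk ((cZ e he hne).symm.trans (cX e he hne))
    have a := Finset.card_lt_card (Finset.ssubset_iff_subset_ne.2 ⟨sub, ne⟩)
    have b := hn X hX cX
    omega
  exfalso
  obtain ⟨k', -, cW'⟩ := h.col hW
  have hk' : k' ≠ (0, 1) := fun hc => cW (hc ▸ cW')
  have sub : X ∩ Z ⊆ Y := by
    rcases hY.2 with r | ⟨r1, -⟩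
    · have a := hmax (X ∩ Z) ⟨Finset.inter_subset_left, Or.inr ⟨hW, cW⟩⟩
      rw [r, Finset.card_empty, Nat.le_zero, Finset.card_eq_zero] at a
      rw [a]; exact Finset.empty_subset _
    · have hU := (h.lat hb hW r1).2
      have a := hmax (X ∩ Z ∪ Y) ⟨Finset.union_subset Finset.inter_subset_left hY.1,
        Or.inr ⟨hU, fun hc => by
          obtain ⟨e, he, hne⟩ := hU.ex
          rcases cut_union he with r | r
          · exact hk' ((cW' e r hne).symm.trans (hc e he hne))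
          · exact k2 ((cY e r hne).symm.trans (hc e he hne))⟩⟩
      have b := Finset.eq_of_subset_of_card_le
        (Finset.subset_union_right (s₁ := X ∩ Z) (s₂ := Y)) a
      rw [b]; exact Finset.subset_union_left
  obtain ⟨e, he, hne⟩ := hW.ex
  rcases cut_inter he with r | r
  · exact hk' ((cW' e he hne).symm.trans (cX e r hne))
  · refine far e r hne ?_
    have a := mem_cut.1 he
    by_cases a1 : src e ∈ X ∩ Z
    · exact Or.inl (sub a1)
    · exact Or.inr (sub (by tauto))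

lemma Val.main (h : Val src tgt e0 c) (hb : ∀ X, #(cut src tgt X) ≠ 1) :
    ∃ φ₂ φ₄ : E → ℤ, IsKFlow src tgt 2 φ₂ ∧ IsKFlow src tgt 4 φ₄ ∧
      ∀ e, φ₂ e = 0 → 2 ≤ |φ₄ e| := by
  have key : ∀ n : ℕ, ∃ d, Val src tgt e0 d ∧
      ∀ X, Ti src tgt e0 X → Col src tgt e0 d X (0, 1) → n ≤ #X := by
    intro n
    induction n with
    | zero => exact ⟨c, h, fun _ _ _ => Nat.zero_le _⟩
    | succ n ih =>
      obtain ⟨d, h1, h2⟩ := ih
      exact h1.step hb n h2
  obtain ⟨d, h1, h2⟩ := key (Fintype.card V + 1)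
  refine h1.pair hb fun X a b => ?_
  have := h2 X a b
  have := Finset.card_le_univ X
  omega

theorem one_edge (src tgt : E → V) (hb : ∀ X, #(cut src tgt X) ≠ 1) (e0 : E) (f : E → ℤ)
    (hf : IsKFlow src tgt 4 f) (hz : ∀ e, e ≠ e0 → f e ≠ 0) :
    ∃ φ₂ φ₄ : E → ℤ, IsKFlow src tgt 2 φ₂ ∧ IsKFlow src tgt 4 φ₄ ∧
      ∀ e, φ₂ e = 0 → 2 ≤ |φ₄ e| := by
  have f0 : ∀ v, bdry src tgt f v = 0 := fun v => (bdry_iff _ _ _ v).2 (hf.2 v)
  obtain ⟨x, hx, hx'⟩ := eul src tgt _ (flow_cut src tgt f f0)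
  have ev : ∀ e, ((f e : ZMod 2) = 0) ↔ (2 : ℤ) ∣ f e := fun e =>
    ZMod.intCast_zmod_eq_zero_iff_dvd _ 2
  simp only [ev, ne_eq] at hx'
  have bd : ∀ e, -3 ≤ f e ∧ f e ≤ 3 := fun e => by
    have := abs_le.1 (hf.1 e)
    omega
  by_cases h0 : f e0 = 0
  swap
  · refine ⟨x, f, ⟨fun e => ?_, fun v => (bdry_iff _ _ _ v).1 (hx v)⟩, hf, fun e he => ?_⟩
    · have := hx' e
      rw [abs_le]
      omega
    · have := hx' e
      have : f e ≠ 0 := by
        by_cases hc : e = e0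
        · rw [hc]; exact h0
        · exact hz e hc
      rw [le_abs]
      omega
  let g : E → ℤ := fun e => (f e + x e) / 2
  have hg : ∀ e, 2 * g e = 1 * f e + 1 * x e := fun e => by
    have := hx' e
    simp only [g]
    omega
  have g0 : ∀ v, bdry src tgt g v = 0 := fun v => by
    have := bdry_lin src tgt f x g 1 1 2 hg v
    rw [f0, hx] at this
    omega
  refine Val.main (e0 := e0) (c := fun e => ((f e : ZMod 2), (g e : ZMod 2)))
    ⟨?_, fun e he hc => ?_, fun X => ?_⟩ hb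
  · have a := hx' e0
    have b := hg e0
    have : g e0 = 0 := by omega
    simp [h0, this]
  · have a1 := (ev e).1 (congrArg Prod.fst hc)
    have a2 : (2 : ℤ) ∣ g e := (ZMod.intCast_zmod_eq_zero_iff_dvd _ 2).1 (congrArg Prod.snd hc)
    have a := hx' e
    have b := hg e
    have d := bd e
    have := hz e he
    omega
  · refine Prod.ext ?_ ?_
    · rw [Prod.fst_sum]; exact flow_cut src tgt f f0 X
    · rw [Prod.snd_sum]; exact flow_cut src tgt g g0 X

end Pool.Agent.P.MP_e59a69_co.OE
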