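import Pool.Agent.P.MP_e59a69_co.Sigma
import Pool.Agent.P.MP_e59a69_co.Cubic

/-! From a cubic multigraph with a 2-factor to a pair of permutations. -/

open Finset Function

namespace Pool.Agent.P.MP_e59a69_co

variable {V E : Type} [Fintype V] [Fintype E] [DecidableEq V] [DecidableEq E]

lemma exists_succ (src tgt : E → V) (F : Finset E) (hF : ∀ v, dg src tgt F v = 2) :
    ∃ (π : Equiv.Perm V) (out : V → E), (∀ v, out v ∈ F) ∧ Injective out ∧
      (∀ e ∈ F, ∃ v, out v = e) ∧
      ∀ v, (src (out v) = v ∧ tgt (out v) = π v) ∨ (tgt (out v) = v ∧ src (out v) = π v) := by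
  obtain ⟨φ, a1, a0, ab⟩ := exists_orientation src tgt F
  let tl : E → V := fun e => if φ e = 1 then src e else tgt e
  let hd : E → V := fun e => if φ e = 1 then tgt e else src e
  have hcount : ∀ v, #{e ∈ F | tl e = v} = 1 ∧ #{e ∈ F | hd e = v} = 1 := by
    intro v
    have c0 : ∀ g : E → V, (#{e ∈ F | g e = v} : ℤ) =
        ∑ e, if e ∈ F ∧ g e = v then 1 else 0 := fun g => by
      rw [Finset.sum_boole]
      congr 2
      ext e; simp
    have c1 : (#{e ∈ F | tl e = v} : ℤ) + #{e ∈ F | hd e = v} = dg src tgt F v := by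
      rw [c0, c0, dg_eq, ← Finset.sum_add_distrib]
      refine Finset.sum_congr rfl fun e _ => ?_
      by_cases b1 : e ∈ F <;> by_cases b2 : φ e = 1 <;> by_cases b3 : src e = v <;>
        by_cases b4 : tgt e = v <;> simp [tl, hd, b1, b2, b3, b4]
    have c2 : (#{e ∈ F | tl e = v} : ℤ) - #{e ∈ F | hd e = v} = bdry src tgt φ v := by
      rw [c0, c0, bdry, ← Finset.sum_sub_distrib]
      refine Finset.sum_congr rfl fun e _ => ?_
      by_cases b1 : e ∈ F
      · rcases a1 e b1 with b2 | b2 <;> by_cases b3 : src e = v <;>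
          by_cases b4 : tgt e = v <;> simp [tl, hd, b1, b2, b3, b4]
      · simp [b1, a0 e b1]
    rw [(ab v).2 (by rw [hF v]; decide)] at c2
    rw [hF v] at c1
    omega
  have hu : ∀ g : E → V, (∀ v, #{e ∈ F | g e = v} = 1) →
      ∃ o : V → E, (∀ v, o v ∈ F ∧ g (o v) = v) ∧ ∀ e ∈ F, o (g e) = e := by
    intro g hg
    choose o ho using fun v => card_eq_one.1 (hg v)
    refine ⟨o, fun v => (mem_filter (p := fun e => g e = v)).1
      (by rw [ho]; exact mem_singleton_self _), fun e he => ?_⟩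
    symm
    rw [← mem_singleton, ← ho]
    exact mem_filter.2 ⟨he, rfl⟩
  obtain ⟨out, o1, o2⟩ := hu tl fun v => (hcount v).1
  obtain ⟨inn, i1, i2⟩ := hu hd fun v => (hcount v).2
  refine ⟨⟨fun v => hd (out v), fun v => tl (inn v), fun v => ?_, fun v => ?_⟩, out,
    fun v => (o1 v).1, fun u v h => ?_, fun e he => ⟨_, o2 e he⟩, fun v => ?_⟩
  · simp only [i2 _ (o1 v).1, (o1 v).2]
  · simp only [o2 _ (i1 v).1, (i1 v).2]
  · rw [← (o1 u).2, h, (o1 v).2]
  · have := (o1 v).2
    simp only [tl, hd, Equiv.coe_fn_mk] at this ⊢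
    split_ifs at this ⊢
    · exact Or.inl ⟨this, rfl⟩
    · exact Or.inr ⟨this, rfl⟩

omit [Fintype V] [Fintype E] [DecidableEq E] in
lemma exists_mate (src tgt : E → V) (M : Finset E) (hM : ∀ v, dg src tgt M v = 1) :
    ∃ (μ : Equiv.Perm V) (mt : V → E), (∀ v, μ (μ v) = v) ∧ (∀ v, μ v ≠ v) ∧ (∀ v, mt v ∈ M) ∧
      (∀ e ∈ M, mt (src e) = e ∧ mt (tgt e) = e ∧ μ (src e) = tgt e) ∧
      ∀ v, (src (mt v) = v ∧ tgt (mt v) = μ v) ∨ (tgt (mt v) = v ∧ src (mt v) = μ v) := by
  have hex : ∀ v, ∃ e ∈ M, src e = v ∨ tgt e = v := fun v => by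
    have := hM v
    unfold dg at this
    by_cases h : #{e ∈ M | src e = v} = 0
    · obtain ⟨e, he⟩ := card_pos.1 (by omega : 0 < #{e ∈ M | tgt e = v})
      exact ⟨e, (mem_filter.1 he).1, Or.inr (mem_filter.1 he).2⟩
    · obtain ⟨e, he⟩ := card_pos.1 (by omega : 0 < #{e ∈ M | src e = v})
      exact ⟨e, (mem_filter.1 he).1, Or.inl (mem_filter.1 he).2⟩
  have hboth : ∀ v, ∀ e ∈ M, ∀ e' ∈ M, src e = v → tgt e' = v → False := fun v e he e' he' h h' => by
    have := hM v
    unfold dg at this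
    have a : 0 < #{e ∈ M | src e = v} := card_pos.2 ⟨e, mem_filter.2 ⟨he, h⟩⟩
    have b : 0 < #{e ∈ M | tgt e = v} := card_pos.2 ⟨e', mem_filter.2 ⟨he', h'⟩⟩
    omega
  have huniq : ∀ v, ∀ e ∈ M, ∀ e' ∈ M, (src e = v ∨ tgt e = v) → (src e' = v ∨ tgt e' = v) →
      e = e' := by
    intro v e he e' he' h h'
    have := hM v
    unfold dg at this
    rcases h with h | h <;> rcases h' with h' | h'
    · exact card_le_one.1 (by omega : #{e ∈ M | src e = v} ≤ 1) e (mem_filter.2 ⟨he, h⟩) e'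
        (mem_filter.2 ⟨he', h'⟩)
    · exact (hboth v e he e' he' h h').elim
    · exact (hboth v e' he' e he h' h).elim
    · exact card_le_one.1 (by omega : #{e ∈ M | tgt e = v} ≤ 1) e (mem_filter.2 ⟨he, h⟩) e'
        (mem_filter.2 ⟨he', h'⟩)
  choose mt hm1 hm2 using hex
  let m : V → V := fun v => if src (mt v) = v then tgt (mt v) else src (mt v)
  have h1 : ∀ e ∈ M, mt (src e) = e := fun e he => huniq _ _ (hm1 _) e he (hm2 _) (Or.inl rfl)
  have h2 : ∀ e ∈ M, mt (tgt e) = e := fun e he => huniq _ _ (hm1 _) e he (hm2 _) (Or.inr rfl)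
  have h3 : ∀ e ∈ M, m (src e) = tgt e := fun e he => by simp only [m, h1 e he, if_true]
  have h4 : ∀ e ∈ M, m (tgt e) = src e := fun e he => by
    have : src e ≠ tgt e := fun h => hboth _ e he e he h rfl
    simp only [m, h2 e he, this, if_false]
  have h5 : ∀ v, (src (mt v) = v ∧ tgt (mt v) = m v) ∨ (tgt (mt v) = v ∧ src (mt v) = m v) := by
    intro v
    rcases hm2 v with h | h
    · exact Or.inl ⟨h, by rw [← h3 _ (hm1 v), h]⟩
    · exact Or.inr ⟨h, by rw [← h4 _ (hm1 v), h]⟩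
  have h6 : Involutive m := fun v => by
    rcases h5 v with ⟨a, b⟩ | ⟨a, b⟩
    · rw [← b, h4 _ (hm1 v), a]
    · rw [← b, h3 _ (hm1 v), a]
  refine ⟨h6.toPerm, mt, h6, fun v e => ?_, hm1, fun e he => ⟨h1 e he, h2 e he, h3 e he⟩, h5⟩
  have e' : m v = v := e
  rcases h5 v with ⟨a, b⟩ | ⟨a, b⟩
  · exact hboth v _ (hm1 v) _ (hm1 v) a (b.trans e')
  · exact hboth v _ (hm1 v) _ (hm1 v) (b.trans e') a

omit [Fintype V] in
lemma sparse (src tgt : E → V) (hcubic : ∀ v, degIn src tgt univ v = 3) (X : Finset V)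
    (hX : X.Nonempty) (hc : ¬ HasCycleIn src tgt X) :
    #X + 2 ≤ #{e | ¬ (src e ∈ X ↔ tgt e ∈ X)} := by
  obtain ⟨x0, hx0⟩ := hX
  let I : Finset E := {e | src e ∈ X ∧ tgt e ∈ X}
  have hsum : ∀ C : Finset E, ∑ v ∈ X, dg src tgt C v =
      #{e ∈ C | src e ∈ X} + #{e ∈ C | tgt e ∈ X} := by
    intro C
    unfold dg
    rw [Finset.sum_add_distrib, card_eq_sum_card_fiberwise (f := src) (s := {e ∈ C | src e ∈ X})
      (t := X) (fun e he => (mem_filter.1 he).2), card_eq_sum_card_fiberwise (f := tgt)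
      (s := {e ∈ C | tgt e ∈ X}) (t := X) (fun e he => (mem_filter.1 he).2)]
    congr 1 <;> refine Finset.sum_congr rfl fun v hv => ?_ <;> congr 1 <;> ext e <;>
      simp only [mem_filter, and_assoc] <;>
      exact ⟨fun h => ⟨h.1, h.2 ▸ hv, h.2⟩, fun h => ⟨h.1, h.2.2⟩⟩
  have e1 : 3 * #X = 2 * #I + #{e | ¬ (src e ∈ X ↔ tgt e ∈ X)} := by
    have a := hsum univ
    have hc' : ∀ v, dg src tgt univ v = 3 := hcubic
    simp only [hc', Finset.sum_const, smul_eq_mul] at a
    rw [mul_comm, a]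
    simp only [I, card_filter]
    rw [Finset.mul_sum, ← Finset.sum_add_distrib, ← Finset.sum_add_distrib]
    refine Finset.sum_congr rfl fun e _ => ?_
    by_cases a1 : src e ∈ X <;> by_cases a2 : tgt e ∈ X <;> simp [a1, a2]
  by_contra hlt
  have hpos : 0 < #X := card_pos.2 ⟨x0, hx0⟩
  obtain ⟨C1, h1, C2, h2, hne, heq⟩ := exists_ne_map_eq_of_card_lt_of_maps_to
    (s := I.powerset) (t := (X.erase x0).powerset)
    (f := fun C => {v ∈ X.erase x0 | Odd (dg src tgt C v)})
    (by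
      rw [card_powerset, card_powerset, card_erase_of_mem hx0]
      exact Nat.pow_lt_pow_right (by norm_num) (by omega))
    (fun C _ => mem_powerset.2 (filter_subset _ _))
  rw [mem_powerset] at h1 h2
  let C := symmDiff C1 C2
  have hCI : C ⊆ I := fun e he => by
    rcases mem_symmDiff.1 he with h | h
    · exact h1 h.1
    · exact h2 h.1
  have hCX : ∀ e ∈ C, src e ∈ X ∧ tgt e ∈ X := fun e he => (mem_filter.1 (hCI he)).2
  have hpar : ∀ v, dg src tgt C v + 2 * dg src tgt (C1 ∩ C2) v =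
      dg src tgt C1 v + dg src tgt C2 v := fun v => by
    have : (dg src tgt C v : ℤ) + 2 * dg src tgt (C1 ∩ C2) v =
        dg src tgt C1 v + dg src tgt C2 v := by
      simp only [dg_eq]
      rw [Finset.mul_sum, ← Finset.sum_add_distrib, ← Finset.sum_add_distrib]
      refine Finset.sum_congr rfl fun e _ => ?_
      by_cases a1 : src e = v <;> by_cases a2 : tgt e = v <;> by_cases a3 : e ∈ C1 <;>
        by_cases a4 : e ∈ C2 <;> simp [C, mem_symmDiff, a1, a2, a3, a4]
    exact_mod_cast this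
  have hev : ∀ v ∈ X.erase x0, Even (dg src tgt C v) := fun v hv => by
    have a : v ∈ ({v ∈ X.erase x0 | Odd (dg src tgt C1 v)} : Finset V) ↔
        v ∈ ({v ∈ X.erase x0 | Odd (dg src tgt C2 v)} : Finset V) := by rw [heq]
    simp only [mem_filter, hv, true_and, Nat.odd_iff] at a
    have := hpar v
    rw [Nat.even_iff]; omega
  have hev0 : Even (dg src tgt C x0) := by
    have a := hsum C
    rw [filter_true_of_mem fun e he => (hCX e he).1, filter_true_of_mem fun e he => (hCX e he).2,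
      ← Finset.add_sum_erase X _ hx0] at a
    have b := Finset.even_sum _ hev
    rw [Nat.even_iff] at b ⊢
    omega
  refine hc ⟨C, ?_, hCX, fun v => ?_⟩
  · rw [Finset.nonempty_iff_ne_empty]
    exact fun h => hne (symmDiff_eq_bot.1 h)
  · have a : Even (dg src tgt C v) := by
      by_cases hv : v ∈ X
      · by_cases h0 : v = x0
        · rwa [h0]
        · exact hev v (mem_erase.2 ⟨h0, hv⟩)
      · unfold dg
        rw [filter_eq_empty_iff.2 fun e he (h : src e = v) => hv (h ▸ (hCX e he).1),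
          filter_eq_empty_iff.2 fun e he (h : tgt e = v) => hv (h ▸ (hCX e he).2)]
        simp
    have b := dg_compl src tgt C v
    have c : dg src tgt univ v = 3 := hcubic v
    have d : degIn src tgt C v = dg src tgt C v := rfl
    rw [Nat.even_iff] at a
    omega

end Pool.Agent.P.MP_e59a69_co
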