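import Pool.Agent.P.MP_e59a69_co.Perms

/-! Flow pairs when the cyclic edge-connectivity is polylogarithmic in the number of odd cycles. -/

open Finset Function

namespace Pool.Agent.P.MP_e59a69_co

variable {V E : Type} [Fintype V] [Fintype E] [DecidableEq V] [DecidableEq E]

lemma params (w : ℕ) : ∃ h L : ℕ, 1 ≤ h ∧ L = 750 * h ^ 2 ∧
    832 * L ^ 2 ≤ 4 * 10 ^ 16 * (Nat.log 2 w + 1) ^ 4 ∧
    w * (832 * L ^ 2 * (13 * L)) < 2 ^ h := by
  obtain ⟨H, hH⟩ : ∃ H, H = Nat.log 2 w + 1 := ⟨_, rfl⟩
  have h1 : w < 2 ^ H := hH ▸ Nat.lt_pow_succ_log_self (by norm_num) w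
  rw [← hH]
  have h2 : 1 ≤ H := by omega
  refine ⟨7 * H + 85, _, by omega, rfl, ?_, ?_⟩
  · have a : (7 * H + 85) ^ 4 ≤ (92 * H) ^ 4 := Nat.pow_le_pow_left (by omega) 4
    calc 832 * (750 * (7 * H + 85) ^ 2) ^ 2 = 468000000 * (7 * H + 85) ^ 4 := by ring
      _ ≤ 468000000 * (92 * H) ^ 4 := Nat.mul_le_mul_left _ a
      _ = 33527190528000000 * H ^ 4 := by ring
      _ ≤ _ := Nat.mul_le_mul_right _ (by norm_num)
  · have a : H < 2 ^ H := Nat.lt_two_pow_self
    have b : (7 * H + 85) ^ 6 ≤ (128 * 2 ^ H) ^ 6 := Nat.pow_le_pow_left (by omega) 6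
    have c : 0 < (7 * H + 85) ^ 6 := by positivity
    calc w * (832 * (750 * (7 * H + 85) ^ 2) ^ 2 * (13 * (750 * (7 * H + 85) ^ 2)))
        = w * (4563000000000 * (7 * H + 85) ^ 6) := by ring
      _ < 2 ^ H * (4563000000000 * (7 * H + 85) ^ 6) :=
          Nat.mul_lt_mul_of_pos_right h1 (by omega)
      _ ≤ 2 ^ H * (2 ^ 43 * (128 * 2 ^ H) ^ 6) :=
          Nat.mul_le_mul_left _ (Nat.mul_le_mul (by norm_num) b)
      _ = 2 ^ (7 * H + 85) := by ring

theorem polylog_main (src tgt : E → V) (hcubic : ∀ v, degIn src tgt univ v = 3)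
    (F : Finset E) (hF : ∀ v, degIn src tgt F v = 2)
    (hcut : ∀ X : Finset V, HasCycleIn src tgt X → HasCycleIn src tgt Xᶜ →
      4 * 10 ^ 16 * (Nat.log 2 (numOddComps src tgt F) + 1) ^ 4 ≤
        #{e | ¬ (src e ∈ X ↔ tgt e ∈ X)}) :
    ∃ φ₂ φ₄ : E → ℤ, IsKFlow src tgt 2 φ₂ ∧ IsKFlow src tgt 4 φ₄ ∧
      (∀ e, φ₂ e = 0 → 2 ≤ |φ₄ e|) ∧ ∀ e, φ₂ e ≠ 0 ↔ e ∈ F := by
  classical
  by_cases hw : numOddComps src tgt F ≤ 1
  · refine cubic_main src tgt hcubic F hF fun X h1 h2 => ?_
    have := hcut X h1 h2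
    have a : 1 ≤ (Nat.log 2 (numOddComps src tgt F) + 1) ^ 4 := Nat.one_le_pow _ _ (by omega)
    omega
  obtain ⟨h, L, hh, hL, hc, hwL⟩ := params (numOddComps src tgt F)
  obtain ⟨c, hcdef⟩ : ∃ c, c = 4 * 10 ^ 16 * (Nat.log 2 (numOddComps src tgt F) + 1) ^ 4 :=
    ⟨_, rfl⟩
  rw [← hcdef] at hc hcut
  have hF' : ∀ v, dg src tgt F v = 2 := hF
  have hM : ∀ v, dg src tgt Fᶜ v = 1 := fun v => by
    have h1 := dg_compl src tgt F v
    have h2 : dg src tgt univ v = 3 := hcubic v
    have h3 := hF' v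
    omega
  obtain ⟨π, out, o1, o2, o3, o4⟩ := exists_succ src tgt F hF'
  obtain ⟨μ, mt, m1, m2, m3, m4, m5⟩ := exists_mate src tgt Fᶜ hM
  have hf : ∀ X : Finset V, #{e ∈ F | ¬ (src e ∈ X ↔ tgt e ∈ X)} = fc π X := fun X => by
    symm
    refine card_bij (fun v _ => out v) (fun v hv => ?_) (fun u _ v _ e => o2 e) (fun e he => ?_)
    · have := (mem_filter.1 hv).2
      refine mem_filter.2 ⟨o1 v, ?_⟩
      rcases o4 v with ⟨a, b⟩ | ⟨a, b⟩ <;> rw [a, b]
      · exact this
      · exact fun e => this e.symm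
    · obtain ⟨v, rfl⟩ := o3 e (mem_filter.1 he).1
      have := (mem_filter.1 he).2
      refine ⟨v, mem_filter.2 ⟨mem_univ _, ?_⟩, rfl⟩
      rcases o4 v with ⟨a, b⟩ | ⟨a, b⟩ <;> rw [a, b] at this
      · exact this
      · exact fun e => this e.symm
  have hm : ∀ X : Finset V, #{e ∈ Fᶜ | ¬ (src e ∈ X ↔ tgt e ∈ X)} = mc μ X := fun X => by
    symm
    refine card_bij (fun v _ => mt v) (fun v hv => ?_) (fun u hu v hv e => ?_) (fun e he => ?_)
    · have := mem_filter.1 hv
      refine mem_filter.2 ⟨m3 v, ?_⟩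
      rcases m5 v with ⟨a, b⟩ | ⟨a, b⟩ <;> rw [a, b]
      · exact fun e => this.2 (e.1 this.1)
      · exact fun e => this.2 (e.2 this.1)
    · have hu' := mem_filter.1 hu
      have hv' := mem_filter.1 hv
      rcases m5 u with ⟨a, b⟩ | ⟨a, b⟩ <;> rcases m5 v with ⟨a', b'⟩ | ⟨a', b'⟩ <;>
        rw [e] at a b
      · rw [← a, a']
      · exact absurd (by rw [← b', a]; exact hu'.1) hv'.2
      · exact absurd (by rw [← b', a]; exact hu'.1) hv'.2
      · rw [← a, a']
    · obtain ⟨h1, h2⟩ := mem_filter.1 he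
      obtain ⟨a, b, d⟩ := m4 e h1
      by_cases hs : src e ∈ X
      · exact ⟨src e, mem_filter.2 ⟨hs, by rw [d]; exact fun h => h2 (iff_of_true hs h)⟩, a⟩
      · exact ⟨tgt e, mem_filter.2 ⟨by_contra fun h => h2 (iff_of_false hs h),
          by rw [← d, m1]; exact hs⟩, b⟩
  have hd : ∀ X : Finset V, #{e | ¬ (src e ∈ X ↔ tgt e ∈ X)} = fc π X + mc μ X := fun X => by
    rw [← hf, ← hm, ← card_union_of_disjoint, ← filter_union, union_compl]
    exact Finset.disjoint_left.2 fun e h1 h2 => mem_compl.1 (mem_filter.1 h2).1 (mem_filter.1 h1).1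
  let G := spanGr src tgt F
  have hsc : ∀ u v, G.connectedComponentMk u = G.connectedComponentMk v ↔ π.SameCycle u v := by
    have step : ∀ v, G.connectedComponentMk (π v) = G.connectedComponentMk v := fun v => by
      have := comp_eq_of_mem src tgt F (o1 v)
      rcases o4 v with ⟨a, b⟩ | ⟨a, b⟩ <;> rw [a, b] at this
      · exact this.symm
      · exact this
    have edge : ∀ e ∈ F, π.SameCycle (src e) (tgt e) := fun e he => by
      obtain ⟨v, rfl⟩ := o3 e he
      have q : π.SameCycle v (π v) := ⟨1, by simp⟩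
      rcases o4 v with ⟨a, b⟩ | ⟨a, b⟩ <;> rw [a, b]
      · exact q
      · exact q.symm
    intro u v
    constructor
    · intro h
      obtain ⟨p⟩ := SimpleGraph.ConnectedComponent.exact h
      clear h
      induction p with
      | nil => exact Equiv.Perm.SameCycle.refl _ _
      | cons hab p ih =>
        refine Equiv.Perm.SameCycle.trans ?_ ih
        simp only [G, spanGr, SimpleGraph.fromRel_adj] at hab
        obtain ⟨-, ⟨e0, he0, rfl, rfl⟩ | ⟨e0, he0, rfl, rfl⟩⟩ := hab
        · exact edge e0 he0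
        · exact (edge e0 he0).symm
    · intro h
      obtain ⟨t, -, rfl⟩ := exists_iter h
      clear h
      induction t with
      | zero => rfl
      | succ t ih => rw [iterate_succ_apply', step, ih]
  let O : V → Finset V := fun v => {u | G.connectedComponentMk u = G.connectedComponentMk v}
  have hO : ∀ v, #(O v) = minimalPeriod π v := fun v => by
    have : O v = (range (minimalPeriod π v)).image fun t => π^[t] v := by
      ext u
      simp only [O, mem_filter, mem_univ, true_and, mem_image, mem_range, hsc]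
      constructor
      · exact fun h => exists_iter h.symm
      · rintro ⟨t, -, rfl⟩
        exact Equiv.Perm.SameCycle.symm ⟨t, by rw [zpow_natCast, Equiv.Perm.coe_pow]⟩
    rw [this, card_image_of_injOn, card_range]
    rw [coe_range]
    exact iterate_injOn_Iio_minimalPeriod
  obtain ⟨c1, -, c2, -, hc12⟩ := (Set.one_lt_ncard (s := G.oddComponents) (Set.toFinite _)).1
    (by change 1 < numOddComps src tgt F; omega)
  have hOc : ∀ v, c ≤ #(O v) := fun v => by
    have a1 : HasCycleIn src tgt (O v) := hasCycle_of_comp src tgt F hF' _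
      (G.connectedComponentMk v) fun u hu => mem_filter.2 ⟨mem_univ _, hu⟩
    obtain ⟨c', hc'⟩ : ∃ c', c' ≠ G.connectedComponentMk v := by
      by_cases h : c1 = G.connectedComponentMk v
      · exact ⟨c2, fun e => hc12 (h.trans e.symm)⟩
      · exact ⟨c1, h⟩
    have a2 : HasCycleIn src tgt (O v)ᶜ := hasCycle_of_comp src tgt F hF' _ c' fun u hu =>
      mem_compl.2 fun h => hc' (hu.symm.trans (mem_filter.1 h).2)
    have a3 := hcut _ a1 a2
    have a4 : fc π (O v) = 0 := by
      rw [fc, card_eq_zero, filter_eq_empty_iff]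
      intro u _
      have q : π.SameCycle u (π u) := ⟨1, by simp⟩
      simp only [O, mem_filter, mem_univ, true_and, not_not, (hsc _ _).2 q]
    have a5 : mc μ (O v) ≤ #(O v) := card_filter_le _ _
    rw [hd] at a3
    omega
  have H : Hyp π μ c := by
    refine ⟨m1, m2, fun v t ht htc e => ?_, ?_, fun X h1 h2 => ?_⟩
    · have a : IsPeriodicPt π t.natAbs v := by
        rw [IsPeriodicPt, IsFixedPt, ← Equiv.Perm.coe_pow, ← zpow_natCast]
        rcases Int.natAbs_eq t with h | h
        · rw [← h, e]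
        · apply (π ^ t).injective
          rw [zp_add, e, show t + (t.natAbs : ℤ) = 0 by omega]; rfl
      have b := a.minimalPeriod_le (by omega)
      have d := hOc v
      rw [hO] at d
      rw [Int.abs_eq_natAbs] at htc
      omega
    · obtain ⟨u, rfl⟩ := c1.exists_rep
      obtain ⟨v, rfl⟩ := c2.exists_rep
      have a : #(O u ∪ O v) = #(O u) + #(O v) := card_union_of_disjoint
        (Finset.disjoint_left.2 fun x h1 h2 =>
          hc12 ((mem_filter.1 h1).2.symm.trans (mem_filter.1 h2).2))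
      have b := card_le_univ (O u ∪ O v)
      have := hOc u
      have := hOc v
      omega
    · rw [← hd]
      by_cases a1 : HasCycleIn src tgt X
      · by_cases a2 : HasCycleIn src tgt Xᶜ
        · exact Or.inl (hcut X a1 a2)
        · have := sparse src tgt hcubic Xᶜ h2 a2
          simp only [mem_compl, not_iff_not] at this
          exact Or.inr (Or.inr this)
      · exact Or.inr (Or.inl (sparse src tgt hcubic X h1 a1))
  have hsupp : ∀ v, (G.connectedComponentMk v).supp.ncard = minimalPeriod π v := fun v => by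
    rw [← hO, ← Set.ncard_coe_finset]
    congr 1
    ext u; simp [O]
  have hout : ∀ k : G.ConnectedComponent, G.connectedComponentMk k.out = k := fun k =>
    Quot.out_eq k
  let Rp : Finset V := (Set.toFinite G.oddComponents).toFinset.image Quot.out
  have hRp : #Rp ≤ numOddComps src tgt F :=
    card_image_le.trans (le_of_eq (Set.ncard_eq_toFinset_card _ _).symm)
  obtain ⟨σ, s1, s2, s3⟩ := exists_sigma H Rp
    (fun r hr r' hr' e => by
      obtain ⟨k, -, rfl⟩ := mem_image.1 hr
      obtain ⟨k', -, rfl⟩ := mem_image.1 hr'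
      have := (hsc _ _).2 e
      rw [hout, hout] at this
      rw [this])
    (fun r hr => by
      obtain ⟨k, hk, rfl⟩ := mem_image.1 hr
      rw [← hsupp, hout]
      have := (Set.Finite.mem_toFinset (s := G.oddComponents) _).1 hk
      exact this)
    (fun v o => ⟨(G.connectedComponentMk v).out, mem_image_of_mem _
      ((Set.Finite.mem_toFinset _).2 (by rw [← hsupp] at o; exact o)), (hsc _ _).1 (hout _)⟩)
    h hh L hL hc (lt_of_le_of_lt (Nat.mul_le_mul_right _ hRp) hwL)
  obtain ⟨φ₂, a1, a0, ab⟩ := exists_orientation src tgt F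
  let l : E → ℤ := fun e => if e ∈ F then -3 else if σ (tgt e) = 1 then 2 else -3
  let u : E → ℤ := fun e => if e ∈ F then 3 else if σ (tgt e) = 1 then 3 else -2
  have hσ : ∀ e, e ∉ F → σ (src e) = - σ (tgt e) := fun e he => by
    rw [← (m4 e (mem_compl.2 he)).2.2, s2, neg_neg]
  obtain ⟨φ₄, b1, b2⟩ := hoffman' src tgt (fun _ => 0) (by simp) l u
    (fun e => by simp only [l, u]; split_ifs <;> omega) (fun X => by
      simp only [Finset.sum_const_zero]
      have e1 : ∑ v ∈ X, σ v = ∑ e, if e ∈ F then 0 else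
          ((if src e ∈ X then σ (src e) else 0) + (if tgt e ∈ X then σ (tgt e) else 0)) := by
        have q : ∀ v, σ v = ∑ e, ((if src e = v then (if e ∈ Fᶜ then σ v else 0) else 0) +
            (if tgt e = v then (if e ∈ Fᶜ then σ v else 0) else 0)) := fun v => by
          have := dg_eq src tgt Fᶜ v
          rw [hM] at this
          rw [← mul_one (σ v)]
          nth_rewrite 1 [show (1 : ℤ) = ((1 : ℕ) : ℤ) from rfl, this]
          rw [Finset.mul_sum]
          refine Finset.sum_congr rfl fun e _ => ?_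
          split_ifs <;> ring
        rw [Finset.sum_congr rfl fun v _ => q v, Finset.sum_comm]
        refine Finset.sum_congr rfl fun e _ => ?_
        rw [Finset.sum_add_distrib, Finset.sum_ite_eq, Finset.sum_ite_eq]
        by_cases he : e ∈ F <;> simp [he]
      have e2 : 2 * capOut src tgt l u X + 5 * ∑ v ∈ X, σ v =
          (#{e ∈ Fᶜ | ¬ (src e ∈ X ↔ tgt e ∈ X)} : ℤ) +
            6 * #{e ∈ F | ¬ (src e ∈ X ↔ tgt e ∈ X)} := by
        rw [e1, card_filter, card_filter]
        push_cast
        rw [← Finset.sum_ite_mem_eq F, ← Finset.sum_ite_mem_eq Fᶜ]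
        unfold capOut
        rw [Finset.mul_sum, Finset.mul_sum, Finset.mul_sum, ← Finset.sum_add_distrib,
          ← Finset.sum_add_distrib]
        refine Finset.sum_congr rfl fun e _ => ?_
        by_cases c3 : e ∈ F
        · by_cases c1 : src e ∈ X <;> by_cases c2 : tgt e ∈ X <;> simp [l, u, c1, c2, c3]
        · have q1 := hσ e c3
          rcases s1 (tgt e) with c4 | c4 <;> by_cases c1 : src e ∈ X <;>
            by_cases c2 : tgt e ∈ X <;> simp [l, u, c1, c2, c3, c4, q1]
      rw [hf, hm] at e2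
      have e3 := s3 X
      push_cast at e3
      omega)
  have hs : ∀ e, φ₂ e ≠ 0 ↔ e ∈ F := fun e => by
    by_cases he : e ∈ F
    · have := a1 e he
      simp only [he, iff_true]; omega
    · simp [he, a0 e he]
  refine ⟨φ₂, φ₄, kflow_of_bdry _ _ _ _ (fun e => ?_) fun v => (ab v).2 (by rw [hF' v]; decide),
    kflow_of_bdry _ _ _ _ (fun e => ?_) b2, fun e he => ?_, hs⟩
  · by_cases he : e ∈ F
    · rcases a1 e he with h | h <;> simp [h]
    · simp [a0 e he]
  · have := b1 e
    simp only [l, u] at this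
    rw [abs_le]
    split_ifs at this <;> omega
  · have he' : e ∉ F := fun h => (hs e).2 h he
    have := b1 e
    simp only [l, u, he', if_false] at this
    rw [le_abs]
    split_ifs at this <;> omega

end Pool.Agent.P.MP_e59a69_co
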