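import Pool.Agent.P.MP_e59a69_co.QDefs

/-! Contracting the trees of a family of layers. -/

open Finset

set_option linter.unusedSectionVars false

namespace Pool.Agent.P.MP_e59a69_co

variable {V E κ : Type} [Fintype V] [Fintype E] [DecidableEq V] [DecidableEq E]
variable {src tgt : E → V} {k : ℕ}

/-- disjoint small trees, each with a layer around it -/
structure Fam (src tgt : E → V) (k h : ℕ) (I J : κ → Finset V) (hub : κ → E → Finset V) :
    Prop where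
  lay : ∀ c, Layer src tgt (I c) h (hub c)
  eq : ∀ c, J c = I c ∪ univ.biUnion (hub c)
  ne : ∀ c, (I c).Nonempty
  tJ : ∀ c, Tight src tgt (J c)
  sm : ∀ c, #(J c) < k
  dj : ∀ c d, c ≠ d → Disjoint (J c) (J d)

/-- `nd` sends every tree to one of its vertices and every core to one of its trees -/
structure NdQ (I J : κ → Finset V) (hub : κ → E → Finset V) (nd : V → V) (Z : Finset V) :
    Prop where
  hub_mem : ∀ c e, ∀ v ∈ hub c e, nd v ∈ hub c e ∧ nd v ∈ Z ∧ ∀ w ∈ hub c e, nd w = nd v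
  core : ∀ c, ∃ e, ∃ z ∈ hub c e, ∀ v ∈ I c, nd v = nd z
  out : ∀ v, (∀ c, v ∉ J c) → nd v = v
  ter : ∀ z ∈ Z, nd z = z ∧ ∃ c e, z ∈ hub c e

variable {h : ℕ} {I J : κ → Finset V} {hub : κ → E → Finset V} {nd : V → V} {Z : Finset V}

lemma Fam.IJ (F : Fam src tgt k h I J hub) (c : κ) : I c ⊆ J c := F.eq c ▸ subset_union_left

lemma Fam.hJ (F : Fam src tgt k h I J hub) (c : κ) (e : E) : hub c e ⊆ J c :=
  F.eq c ▸ (subset_biUnion_of_mem _ (mem_univ e)).trans subset_union_right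

lemma Fam.uniq (F : Fam src tgt k h I J hub) {c d : κ} {v : V} (h1 : v ∈ J c) (h2 : v ∈ J d) :
    c = d := by
  by_contra a
  exact disjoint_left.1 (F.dj c d a) h1 h2

lemma Fam.nI (F : Fam src tgt k h I J hub) {c d : κ} {e : E} {v : V} (h1 : v ∈ hub c e) :
    v ∉ I d := fun h2 => by
  obtain rfl := F.uniq (F.hJ c e h1) (F.IJ d h2)
  exact disjoint_left.1 ((F.lay c).dI e) h2 h1

lemma Fam.cases (F : Fam src tgt k h I J hub) {c : κ} {v : V} (h1 : v ∈ J c) :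
    v ∈ I c ∨ ∃ e, v ∈ hub c e := by
  rw [F.eq c, mem_union, mem_biUnion] at h1
  exact h1.imp_right fun ⟨e, _, a⟩ => ⟨e, a⟩

lemma Fam.hub_cr (F : Fam src tgt k h I J hub) {c : κ} {e : E} {v : V} (h1 : v ∈ hub c e) :
    Cr src tgt (I c) e := fun a => by
  rw [(F.lay c).emp e (not_not.2 a)] at h1
  exact notMem_empty _ h1

/-- the ends of an edge that leaves a core -/
lemma Fam.ends (F : Fam src tgt k h I J hub) {c : κ} {e : E} (he : Cr src tgt (I c) e) :
    JnS src tgt (I c) (hub c e) e := by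
  rcases ((F.lay c).out e he).2.2 with a | a
  · have := F.nI (d := c) a
    tauto
  · have := F.nI (d := c) a
    tauto

lemma Fam.ins (F : Fam src tgt k h I J hub) {c : κ} {e : E} (he : src e ∈ I c ∨ tgt e ∈ I c) :
    Ins src tgt (J c) e := by
  by_cases a : Cr src tgt (I c) e
  · rcases F.ends a with ⟨x, y⟩ | ⟨x, y⟩
    exacts [⟨F.IJ c x, F.hJ c e y⟩, ⟨F.hJ c e x, F.IJ c y⟩]
  · have := not_not.1 a
    exact ⟨F.IJ c (by tauto), F.IJ c (by tauto)⟩

theorem QH.exists_nd (H : QH src tgt k) (F : Fam src tgt k h I J hub) :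
    ∃ (nd : V → V) (Z : Finset V), NdQ I J hub nd Z := by
  classical
  have h1 : ∀ c, ∃ e, ∃ z, z ∈ hub c e := fun c => by
    have := H.small (F.ne c) (lt_of_le_of_lt (card_le_card (F.IJ c)) (F.sm c))
    obtain ⟨e, he⟩ := card_pos.1 (show 0 < ct src tgt univ (I c) by omega)
    exact ⟨e, ((F.lay c).out e (mem_filter.1 he).2).1.1⟩
  choose rt z hz using h1
  let Hb : V → Finset V := fun v =>
    {w | ∃ c e, w ∈ hub c e ∧ (v ∈ hub c e ∨ (v ∈ I c ∧ e = rt c))}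
  have hb1 : ∀ c e, ∀ v ∈ hub c e, Hb v = hub c e := fun c e v hv => by
    ext w
    simp only [Hb, mem_filter, mem_univ, true_and]
    refine ⟨fun ⟨d, f, a, b⟩ => ?_, fun a => ⟨c, e, a, Or.inl hv⟩⟩
    rcases b with b | b
    · obtain rfl := F.uniq (F.hJ c e hv) (F.hJ d f b)
      by_cases q : e = f
      · exact q ▸ a
      · exact absurd b (disjoint_left.1 ((F.lay c).dj e f q) hv)
    · exact absurd b.1 (F.nI hv)
  have hb2 : ∀ c, ∀ v ∈ I c, Hb v = hub c (rt c) := fun c v hv => by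
    ext w
    simp only [Hb, mem_filter, mem_univ, true_and]
    refine ⟨fun ⟨d, f, a, b⟩ => ?_, fun a => ⟨c, _, a, Or.inr ⟨hv, rfl⟩⟩⟩
    rcases b with b | b
    · exact absurd hv (F.nI b)
    · obtain rfl := F.uniq (F.IJ c hv) (F.IJ d b.1)
      exact b.2 ▸ a
  have hb3 : ∀ v, (∀ c, v ∉ J c) → ¬ (Hb v).Nonempty := fun v hv ⟨w, hw⟩ => by
    obtain ⟨c, e, -, b | b⟩ := (mem_filter.1 hw).2
    exacts [hv c (F.hJ c e b), hv c (F.IJ c b.1)]
  let pk : Finset V → V → V := fun S v => if q : S.Nonempty then q.choose else v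
  have pk1 : ∀ S v, S.Nonempty → pk S v ∈ S ∧ ∀ w, pk S w = pk S v := fun S v q => by
    simp only [pk, dif_pos q]
    exact ⟨q.choose_spec, fun _ => trivial⟩
  refine ⟨fun v => pk (Hb v) v, ({y | pk (Hb y) y = y ∧ ∃ c e, y ∈ hub c e} : Finset V),
    fun c e v hv => ?_, fun c => ⟨rt c, z c, hz c, fun v hv => ?_⟩, fun v hv => dif_neg (hb3 v hv),
    fun y hy => (mem_filter.1 hy).2⟩
  · obtain ⟨a, b⟩ := pk1 (hub c e) v ⟨v, hv⟩
    rw [hb1 c e v hv]
    refine ⟨a, mem_filter.2 ⟨mem_univ _, ?_, c, e, a⟩, fun w hw => ?_⟩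
    · rw [hb1 c e _ a, b]
    · rw [hb1 c e w hw, b]
  · rw [hb2 c v hv, hb1 c _ _ (hz c)]
    exact (pk1 _ _ ⟨_, hz c⟩).2 v

lemma ct_nd (nd : V → V) (A : Finset E) (X : Finset V) :
    ct (fun e => nd (src e)) (fun e => nd (tgt e)) A X = ct src tgt A {v | nd v ∈ X} := by
  unfold ct
  simp

lemma NdQ.mem (D : NdQ I J hub nd Z) (F : Fam src tgt k h I J hub) {c : κ} {v : V} (hv : v ∈ J c) :
    nd v ∈ Z ∧ nd v ∈ J c := by
  rcases F.cases hv with a | ⟨e, a⟩
  · obtain ⟨e, z, hz, q⟩ := D.core c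
    rw [q v a]
    exact ⟨(D.hub_mem c e z hz).2.1, F.hJ c e (D.hub_mem c e z hz).1⟩
  · exact ⟨(D.hub_mem c e v a).2.1, F.hJ c e (D.hub_mem c e v a).1⟩

/-- a side that holds a terminal holds a whole tree -/
lemma NdQ.side (D : NdQ I J hub nd Z) (F : Fam src tgt k h I J hub) {X : Finset V} {z : V}
    (hz : z ∈ Z) (hX : z ∈ X) : ∃ c e, #(hub c e) = h ∧ ∀ v ∈ hub c e, nd v ∈ X := by
  obtain ⟨a, c, e, b⟩ := D.ter z hz
  exact ⟨c, e, ((F.lay c).out e (F.hub_cr b)).2.1, fun v hv => by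
    rw [(D.hub_mem c e z b).2.2 v hv, a]; exact hX⟩

/-- if no tree is split, contraction does not change sides outside the cores -/
lemma NdQ.same (D : NdQ I J hub nd Z) (F : Fam src tgt k h I J hub) {X : Finset V}
    (hX : ∀ c e, ∀ u ∈ hub c e, ∀ v ∈ hub c e, u ∈ X → v ∈ X) {v : V} (hv : ∀ c, v ∉ I c) :
    nd v ∈ X ↔ v ∈ X := by
  by_cases a : ∃ c, v ∈ J c
  · obtain ⟨c, a⟩ := a
    obtain ⟨e, b⟩ := (F.cases a).resolve_left (hv c)
    have := (D.hub_mem c e v b).1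
    exact ⟨hX c e _ this _ b, hX c e _ b _ this⟩
  · rw [D.out v fun c q => a ⟨c, q⟩]

lemma QH.unsplit (H : QH src tgt k) (F : Fam src tgt k h I J hub) {X : Finset V}
    (hX : ∀ c f e, Ins src tgt (hub c f) e → ¬ Cr src tgt X e) :
    ∀ c e, ∀ u ∈ hub c e, ∀ v ∈ hub c e, u ∈ X → v ∈ X := fun c e u hu v hv a => by
  by_contra b
  obtain ⟨g, g1, g2⟩ := H.split ((F.lay c).out e (F.hub_cr hu)).1
    (lt_of_le_of_lt (card_le_card (F.hJ c e)) (F.sm c)) hu hv a b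
  exact hX c e g g1 g2

end Pool.Agent.P.MP_e59a69_co
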