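import Pool.Agent.P.MP_e59a69_co.LDefs

/-! Small connected vertex sets of a cubic graph of large girth, described by counting. -/

open Finset

set_option linter.unusedSectionVars false

namespace Pool.Agent.P.MP_e59a69_co

variable {V E : Type} [Fintype V] [Fintype E] [DecidableEq V] [DecidableEq E]

/-- the edge `e` has exactly one end in `X` -/
abbrev Cr (src tgt : E → V) (X : Finset V) (e : E) : Prop := ¬ (src e ∈ X ↔ tgt e ∈ X)

/-- both ends of `e` lie in `X` -/
abbrev Ins (src tgt : E → V) (X : Finset V) (e : E) : Prop := src e ∈ X ∧ tgt e ∈ X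

/-- the ends of `e` are `u` and `v` -/
abbrev Ends (src tgt : E → V) (e : E) (u v : V) : Prop :=
  (src e = u ∧ tgt e = v) ∨ (src e = v ∧ tgt e = u)

/-- `e` joins `A` and `B` -/
abbrev JnS (src tgt : E → V) (A B : Finset V) (e : E) : Prop :=
  (src e ∈ A ∧ tgt e ∈ B) ∨ (src e ∈ B ∧ tgt e ∈ A)

/-- cubic, girth at least `k`, cyclic cuts of size at least `k` -/
structure QH (src tgt : E → V) (k : ℕ) : Prop where
  cub : ∀ v, degIn src tgt univ v = 3
  gir : ∀ X : Finset V, HasCycleIn src tgt X → k ≤ #X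
  cyc : ∀ X : Finset V, HasCycleIn src tgt X → HasCycleIn src tgt Xᶜ → k ≤ ct src tgt univ X

/-- as few leaving edges as a tree has -/
def Tight (src tgt : E → V) (S : Finset V) : Prop := S.Nonempty ∧ ct src tgt univ S ≤ #S + 2

/-- a tree with `h` vertices hangs on every edge that leaves `I` -/
structure Layer (src tgt : E → V) (I : Finset V) (h : ℕ) (hub : E → Finset V) : Prop where
  out : ∀ e, Cr src tgt I e →
    Tight src tgt (hub e) ∧ #(hub e) = h ∧ (src e ∈ hub e ∨ tgt e ∈ hub e)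
  emp : ∀ e, ¬ Cr src tgt I e → hub e = ∅
  dI : ∀ e, Disjoint I (hub e)
  dj : ∀ e f, e ≠ f → Disjoint (hub e) (hub f)

/-- size of the trees around a set with at most `m` vertices -/
def hf (m : ℕ) : ℕ := 720 * (m + 2) + 38

/-- ten layers -/
structure Tower (src tgt : E → V) (m : ℕ → ℕ) (I : ℕ → Finset V) (hub : ℕ → E → Finset V) :
    Prop where
  tight : ∀ j ≤ 10, Tight src tgt (I j)
  card : ∀ j ≤ 10, #(I j) ≤ m j
  lay : ∀ j < 10, Layer src tgt (I j) (hf (m j)) (hub j)
  next : ∀ j < 10, I (j + 1) = I j ∪ univ.biUnion (hub j)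

/-- the size bounds grow fast enough -/
def Sz (m : ℕ → ℕ) : Prop := ∀ j, m j + (m j + 2) * hf (m j) ≤ m (j + 1)

/-- sum of the values on the edges at `v` -/
def vs (src tgt : E → V) (y : E → ℤ) (v : V) : ℤ :=
  ∑ e, ((if src e = v then y e else 0) + if tgt e = v then y e else 0)

variable {src tgt : E → V} {k : ℕ}

lemma HasCycleIn.mono {X Y : Finset V} (h : HasCycleIn src tgt X) (hXY : X ⊆ Y) :
    HasCycleIn src tgt Y := by
  obtain ⟨C, h1, h2, h3⟩ := h
  exact ⟨C, h1, fun e he => ⟨hXY (h2 e he).1, hXY (h2 e he).2⟩, h3⟩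

lemma QH.acyc (H : QH src tgt k) {X : Finset V} (hX : X.Nonempty)
    (hc : ¬ HasCycleIn src tgt X) : #X + 2 ≤ ct src tgt univ X :=
  sparse src tgt H.cub X hX hc

lemma QH.small (H : QH src tgt k) {X : Finset V} (hX : X.Nonempty) (hk : #X < k) :
    #X + 2 ≤ ct src tgt univ X :=
  H.acyc hX fun h => absurd (H.gir X h) (by omega)

lemma QH.ne (H : QH src tgt k) (hk : 2 ≤ k) (e : E) : src e ≠ tgt e := by
  intro h
  have := H.gir {src e} ⟨{e}, singleton_nonempty _, by simp [h], fun v => by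
    unfold degIn
    by_cases a : tgt e = v <;> simp [filter_singleton, h, a]⟩
  simp at this
  omega

lemma ct_union {A B : Finset V} (hd : Disjoint A B) :
    ct src tgt univ (A ∪ B) + 2 * #{e | JnS src tgt A B e} =
      ct src tgt univ A + ct src tgt univ B := by
  unfold ct
  simp only [card_filter]
  rw [mul_sum, ← sum_add_distrib, ← sum_add_distrib]
  refine sum_congr rfl fun e _ => ?_
  have h1 : src e ∈ A → src e ∉ B := fun h => disjoint_left.1 hd h
  have h2 : tgt e ∈ A → tgt e ∉ B := fun h => disjoint_left.1 hd h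
  by_cases a : src e ∈ A <;> by_cases b : src e ∈ B <;> by_cases c : tgt e ∈ A <;>
    by_cases d : tgt e ∈ B <;> simp_all

lemma hand (hc : ∀ v, degIn src tgt univ v = 3) (X : Finset V) :
    3 * #X = 2 * #{e | Ins src tgt X e} + ct src tgt univ X := by
  have h1 : ∑ v ∈ X, degIn src tgt univ v =
      ∑ e, ((if src e ∈ X then 1 else 0) + if tgt e ∈ X then 1 else 0) := by
    unfold degIn
    simp only [card_filter]
    rw [sum_add_distrib, sum_comm, sum_add_distrib]
    congr 1
    · exact sum_congr rfl fun e _ => by simp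
    · rw [sum_comm]
      exact sum_congr rfl fun e _ => by simp
  simp only [hc, sum_const, smul_eq_mul] at h1
  rw [mul_comm, h1]
  unfold ct
  simp only [card_filter]
  rw [mul_sum, ← sum_add_distrib]
  refine sum_congr rfl fun e _ => ?_
  by_cases a : src e ∈ X <;> by_cases b : tgt e ∈ X <;> simp [a, b]

lemma QH.single (H : QH src tgt k) (v : V) : Tight src tgt {v} := by
  have := hand H.cub {v}
  exact ⟨singleton_nonempty _, by rw [card_singleton] at this ⊢; omega⟩

lemma Tight.union {A B : Finset V} (hA : Tight src tgt A) (hB : Tight src tgt B)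
    (hd : Disjoint A B) {e : E} (he : JnS src tgt A B e) : Tight src tgt (A ∪ B) := by
  have h1 := ct_union (src := src) (tgt := tgt) hd
  have h2 : 0 < #{e | JnS src tgt A B e} := card_pos.2 ⟨e, mem_filter.2 ⟨mem_univ _, he⟩⟩
  refine ⟨hA.1.mono subset_union_left, ?_⟩
  rw [card_union_of_disjoint hd]
  have := hA.2
  have := hB.2
  omega

/-- at most one edge joins two disjoint small trees -/
lemma QH.one (H : QH src tgt k) {A B : Finset V} (hA : Tight src tgt A) (hB : Tight src tgt B)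
    (hd : Disjoint A B) (hk : #A + #B < k) {e f : E} (he : JnS src tgt A B e)
    (hf : JnS src tgt A B f) : e = f := by
  have h1 := ct_union (src := src) (tgt := tgt) hd
  have h2 := H.small (X := A ∪ B) (hA.1.mono subset_union_left)
    (by rwa [card_union_of_disjoint hd])
  rw [card_union_of_disjoint hd] at h2
  have := hA.2
  have := hB.2
  exact card_le_one.1 (show #{e | JnS src tgt A B e} ≤ 1 by omega) e
    (mem_filter.2 ⟨mem_univ _, he⟩) f (mem_filter.2 ⟨mem_univ _, hf⟩)

/-- a small tree is connected -/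
lemma QH.split (H : QH src tgt k) {S X : Finset V} (hS : Tight src tgt S) (hk : #S < k) {u v : V}
    (hu : u ∈ S) (hv : v ∈ S) (huX : u ∈ X) (hvX : v ∉ X) :
    ∃ e, Ins src tgt S e ∧ Cr src tgt X e := by
  have hd : Disjoint (S ∩ X) (S \ X) := disjoint_left.2 fun a h1 h2 =>
    (mem_sdiff.1 h2).2 (mem_inter.1 h1).2
  have h1 := ct_union (src := src) (tgt := tgt) hd
  have e1 : S ∩ X ∪ S \ X = S := by
    ext a
    by_cases b : a ∈ X <;> simp [b]
  have h2 := card_union_of_disjoint hd
  rw [e1] at h1 h2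
  have h3 := H.small (X := S ∩ X) ⟨u, mem_inter.2 ⟨hu, huX⟩⟩ (by omega)
  have h4 := H.small (X := S \ X) ⟨v, mem_sdiff.2 ⟨hv, hvX⟩⟩ (by omega)
  have := hS.2
  obtain ⟨e, he⟩ := card_pos.1 (show 0 < #{e | JnS src tgt (S ∩ X) (S \ X) e} by omega)
  have := (mem_filter.1 he).2
  simp only [JnS, mem_inter, mem_sdiff] at this
  exact ⟨e, by tauto, by tauto⟩

/-- a cycle that meets `S` and does not cross its boundary gives a cycle inside `S` -/
lemma cyc_pick {X : Finset V} (h : HasCycleIn src tgt X) : ∃ v, ∀ S : Finset V, v ∈ S →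
    (∀ e, Ins src tgt X e → ¬ Cr src tgt S e) → HasCycleIn src tgt (X ∩ S) := by
  obtain ⟨C, ⟨e, he⟩, h2, h3⟩ := h
  refine ⟨src e, fun S hs hS => ?_⟩
  have hi : ∀ e ∈ C, src e ∈ S ↔ tgt e ∈ S := fun e he => not_not.1 (hS e (h2 e he))
  refine ⟨{e ∈ C | src e ∈ S}, ⟨e, mem_filter.2 ⟨he, hs⟩⟩, fun f hf => ?_, fun v => ?_⟩
  · obtain ⟨a, b⟩ := mem_filter.1 hf
    exact ⟨mem_inter.2 ⟨(h2 f a).1, b⟩, mem_inter.2 ⟨(h2 f a).2, (hi f a).1 b⟩⟩
  · by_cases hv : v ∈ S
    · have : degIn src tgt {e ∈ C | src e ∈ S} v = degIn src tgt C v := by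
        unfold degIn
        congr 2 <;> ext f <;> simp only [mem_filter]
        · exact ⟨fun a => ⟨a.1.1, a.2⟩, fun a => ⟨⟨a.1, a.2 ▸ hv⟩, a.2⟩⟩
        · exact ⟨fun a => ⟨a.1.1, a.2⟩, fun a => ⟨⟨a.1, (hi f a.1).2 (a.2 ▸ hv)⟩, a.2⟩⟩
      rw [this]
      exact h3 v
    · left
      unfold degIn
      rw [Nat.add_eq_zero_iff, card_eq_zero, card_eq_zero, filter_eq_empty_iff,
        filter_eq_empty_iff]
      exact ⟨fun f hf a => hv (a ▸ (mem_filter.1 hf).2),
        fun f hf a => hv (a ▸ (hi f (mem_filter.1 hf).1).1 (mem_filter.1 hf).2)⟩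

lemma Tower.sub {m : ℕ → ℕ} {I : ℕ → Finset V} {hub : ℕ → E → Finset V}
    (T : Tower src tgt m I hub) {i j : ℕ} (hij : i ≤ j) (hj : j ≤ 10) : I i ⊆ I j := by
  induction j, hij using Nat.le_induction with
  | base => exact Subset.refl _
  | succ j _ ih =>
    rw [T.next j (by omega)]
    exact (ih (by omega)).trans subset_union_left

lemma Tower.hub_sub {m : ℕ → ℕ} {I : ℕ → Finset V} {hub : ℕ → E → Finset V}
    (T : Tower src tgt m I hub) {j : ℕ} (hj : j < 10) (e : E) : hub j e ⊆ I (j + 1) := by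
  rw [T.next j hj]
  exact (subset_biUnion_of_mem _ (mem_univ e)).trans subset_union_right

/-- an edge with an end in one level has both ends in the next level -/
lemma Tower.ins {m : ℕ → ℕ} {I : ℕ → Finset V} {hub : ℕ → E → Finset V}
    (T : Tower src tgt m I hub) {j : ℕ} (hj : j < 10) {e : E}
    (he : src e ∈ I j ∨ tgt e ∈ I j) : Ins src tgt (I (j + 1)) e := by
  have hs := T.sub (Nat.le_succ j) hj
  by_cases hc : Cr src tgt (I j) e
  · obtain ⟨-, -, h⟩ := (T.lay j hj).out e hc
    have hd : ∀ v, v ∈ I j → v ∉ hub j e := fun v a => disjoint_left.1 ((T.lay j hj).dI e) a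
    have h1 := T.hub_sub hj e
    rcases h with h | h
    · exact ⟨h1 h, hs (he.resolve_left fun a => hd _ a h)⟩
    · exact ⟨hs (he.resolve_right fun a => hd _ a h), h1 h⟩
  · have := not_not.1 hc
    exact ⟨hs (by tauto), hs (by tauto)⟩

lemma Sz.mono {m : ℕ → ℕ} (h : Sz m) : Monotone m :=
  monotone_nat_of_le_succ fun j => le_trans (Nat.le_add_right _ _) (h j)

end Pool.Agent.P.MP_e59a69_co
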