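import Pool.Agent.P.MP_e59a69_co.QDefs

/-! Alternating weights that join pairs of equally coloured vertices. -/

open Finset

set_option linter.unusedSectionVars false

namespace Pool.Agent.P.MP_e59a69_co

variable {V E : Type} [Fintype V] [Fintype E] [DecidableEq V] [DecidableEq E]
variable {src tgt : E → V}

lemma maxcut (src tgt : E → V) (H : Finset E) :
    ∃ S : Finset V, ∀ X, 1 ≤ ct src tgt H X → 1 ≤ ct src tgt {e ∈ H | Cr src tgt S e} X := by
  obtain ⟨S, -, hS⟩ := exists_max_image (univ : Finset (Finset V)) (ct src tgt H) univ_nonempty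
  refine ⟨S, fun X hX => ?_⟩
  by_contra q
  have h1 : ∀ e ∈ H, Cr src tgt S e → ¬ Cr src tgt X e := fun e a b c =>
    q (card_pos.2 ⟨e, mem_filter.2 ⟨mem_filter.2 ⟨a, b⟩, c⟩⟩)
  obtain ⟨f, hf⟩ := card_pos.1 hX
  obtain ⟨f1, f2⟩ := mem_filter.1 hf
  refine absurd (hS (symmDiff S X) (mem_univ _)) (not_le.2 (card_lt_card
    ((ssubset_iff_of_subset fun e he => ?_).2 ⟨f, ?_, fun a => h1 f f1 (mem_filter.1 a).2 f2⟩)))
  · obtain ⟨a, b⟩ := mem_filter.1 he
    have := h1 e a b
    refine mem_filter.2 ⟨a, ?_⟩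
    simp only [mem_symmDiff]
    tauto
  · have := fun a => h1 f f1 a f2
    refine mem_filter.2 ⟨f1, ?_⟩
    simp only [mem_symmDiff]
    tauto

lemma Conn.reach {T : Finset V} {B : Finset E} (h : Conn src tgt T B) {a b : V} (ha : a ∈ T)
    (hb : b ∈ T) : (spanGr src tgt B).Reachable a b := by
  classical
  by_contra q
  obtain ⟨e, he⟩ := card_pos.1 (h {v | (spanGr src tgt B).Reachable a v}
    ⟨⟨a, ha, by simp⟩, b, hb, by simpa using q⟩)
  obtain ⟨e1, e2⟩ := mem_filter.1 he
  have := SimpleGraph.ConnectedComponent.exact (comp_eq_of_mem src tgt B e1)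
  simp only [mem_filter, mem_univ, true_and] at e2
  exact e2 ⟨fun r => r.trans this, fun r => r.trans this.symm⟩

lemma euler_join {κ : Type} [Fintype κ] [DecidableEq κ] {T : Finset V} {B : Finset E}
    (h : Conn src tgt T B) (a b : κ → V) (ha : ∀ x, a x ∈ T) (hb : ∀ x, b x ∈ T) :
    ∃ (φ : E → ℤ) (ε : κ → ℤ), (∀ e, |φ e| ≤ 1) ∧ (∀ e, e ∉ B → φ e = 0) ∧
      (∀ x, ε x = 1 ∨ ε x = -1) ∧ ∀ v, bdry src tgt φ v =
        ∑ x, ε x * ((if a x = v then 1 else 0) - if b x = v then 1 else 0) := by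
  choose J j1 j2 using fun x => exists_join src tgt B (h.reach (ha x) (hb x))
  have hs : ∀ (ψ : E ⊕ κ → ℤ) v, bdry (Sum.elim src b) (Sum.elim tgt a) ψ v =
      bdry src tgt (fun e => ψ (Sum.inl e)) v -
        ∑ x, ψ (Sum.inr x) * ((if a x = v then 1 else 0) - if b x = v then 1 else 0) := by
    intro ψ v
    unfold bdry
    rw [Fintype.sum_sum_type, sub_eq_add_neg, ← sum_neg_distrib]
    congr 1
    refine sum_congr rfl fun x _ => ?_
    simp only [Sum.elim_inr]
    split_ifs <;> ring
  let J' : E ⊕ κ → ℤ := Sum.elim (fun e => ∑ x, J x e) fun _ => 1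
  obtain ⟨ψ, p1, p2, p3⟩ := exists_orientation (Sum.elim src b) (Sum.elim tgt a) {e | Odd (J' e)}
  refine ⟨fun e => ψ (Sum.inl e), fun x => ψ (Sum.inr x), fun e => ?_, fun e he => p2 _ ?_,
    fun x => p1 _ (by simp [J']), fun v => ?_⟩
  · by_cases q : Sum.inl e ∈ ({e | Odd (J' e)} : Finset (E ⊕ κ))
    · rcases p1 _ q with r | r <;> simp [r]
    · simp [p2 _ q]
  · simp [J', j1 _ e he]
  · have h1 := bdry_parity (Sum.elim src b) (Sum.elim tgt a) {e | Odd (J' e)} J' (by simp) v
    have h2 : bdry (Sum.elim src b) (Sum.elim tgt a) J' v = 0 := by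
      rw [hs]
      simp only [J', Sum.elim_inl, Sum.elim_inr, bdry_sum, j2, one_mul, sub_self]
    rw [h2, zero_sub, even_neg, Int.even_coe_nat] at h1
    have h3 := (p3 v).2 h1
    rw [hs] at h3
    exact sub_eq_zero.1 h3

theorem pair_flow {T : Finset V} {H : Finset E} (h : Conn src tgt T H) :
    ∃ S : Finset V, ∀ (κ : Type) [Fintype κ] [DecidableEq κ] (a b : κ → V), (∀ x, a x ∈ T) →
      (∀ x, b x ∈ T) → (∀ x, a x ∈ S ↔ b x ∈ S) →
      ∃ (y : E → ℤ) (δ : κ → ℤ), (∀ e, |y e| ≤ 1) ∧ (∀ e, e ∉ H → y e = 0) ∧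
        (∀ x, δ x = 1 ∨ δ x = -1) ∧ ∀ v, vs src tgt y v =
          ∑ x, δ x * ((if a x = v then 1 else 0) - if b x = v then 1 else 0) := by
  obtain ⟨S, hS⟩ := maxcut src tgt H
  refine ⟨S, fun κ _ _ a b ha hb hab => ?_⟩
  obtain ⟨φ, ε, p1, p2, p3, p4⟩ := euler_join (B := {e ∈ H | Cr src tgt S e})
    (fun X hX => hS X (h X hX)) a b ha hb
  let χ : V → ℤ := fun v => if v ∈ S then 1 else -1
  refine ⟨fun e => χ (src e) * φ e, fun x => χ (a x) * ε x, fun e => ?_, fun e he => ?_,
    fun x => ?_, fun v => ?_⟩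
  · have := p1 e
    simp only [χ]
    split_ifs <;> simpa using this
  · exact mul_eq_zero_of_right _ (p2 e fun q => he (mem_filter.1 q).1)
  · simp only [χ]
    rcases p3 x with r | r <;> split_ifs <;> simp [r]
  · have h1 : vs src tgt (fun e => χ (src e) * φ e) v = χ v * bdry src tgt φ v := by
      unfold vs bdry
      rw [mul_sum]
      refine sum_congr rfl fun e _ => ?_
      by_cases q : e ∈ ({e ∈ H | Cr src tgt S e} : Finset E)
      · have r := (mem_filter.1 q).2
        have r' : χ (src e) = - χ (tgt e) := by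
          simp only [χ]
          by_cases x : src e ∈ S <;> by_cases y : tgt e ∈ S <;> simp_all [Cr]
        by_cases x : src e = v <;> by_cases y : tgt e = v
        · exact absurd (by rw [x, y]) r
        · simp [x, y]
        · simp [x, y, r']
        · simp [x, y]
      · simp [p2 e q]
    rw [h1, p4, mul_sum]
    refine sum_congr rfl fun x _ => ?_
    have r : χ (a x) = χ (b x) := by simp only [χ, hab x]
    by_cases p : a x = v <;> by_cases q : b x = v
    · simp [p, q]
    · simp [p, q]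
    · simp [p, q, r]
    · simp [p, q]

lemma vs_add (y z : E → ℤ) (v : V) :
    vs src tgt (fun e => y e + z e) v = vs src tgt y v + vs src tgt z v := by
  unfold vs
  rw [← sum_add_distrib]
  exact sum_congr rfl fun e _ => by split_ifs <;> ring

lemma vs_sum {κ : Type} (s : Finset κ) (c : κ → ℤ) (y : κ → E → ℤ) (v : V) :
    vs src tgt (fun e => ∑ x ∈ s, c x * y x e) v = ∑ x ∈ s, c x * vs src tgt (y x) v := by
  unfold vs
  simp only [mul_sum]
  rw [sum_comm]
  refine sum_congr rfl fun e _ => ?_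
  split_ifs <;> simp [mul_add, sum_add_distrib]

lemma vs_one {g : E} {u w : V} (h : Ends src tgt g u w) (c : ℤ) (v : V) :
    vs src tgt (fun e => if e = g then c else 0) v =
      c * ((if u = v then 1 else 0) + if w = v then 1 else 0) := by
  unfold vs
  rw [sum_eq_single g (fun e _ a => by simp [a]) (by simp)]
  rcases h with ⟨a, b⟩ | ⟨a, b⟩ <;> rw [a, b] <;> split_ifs <;> simp_all <;> ring

lemma vs_const (hc : ∀ v, degIn src tgt univ v = 3) (c : ℤ) (v : V) :
    vs src tgt (fun _ => c) v = 3 * c := by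
  have := hc v
  unfold degIn at this
  unfold vs
  rw [sum_add_distrib, ← sum_filter, ← sum_filter, sum_const, sum_const, ← add_nsmul, this]
  simp

/-- alternating signs along a path -/
lemma alt_path {p : ℕ → V} {pe : ℕ → E} (s l : ℕ)
    (he : ∀ t < s + l, Ends src tgt (pe t) (p t) (p (t + 1)))
    (hi : ∀ t < s + l, ∀ u < s + l, pe t = pe u → t = u) :
    ∃ A : E → ℤ, (∀ e, |A e| ≤ 1) ∧ (∀ e, A e ≠ 0 → ∃ t, s ≤ t ∧ t < s + l ∧ e = pe t) ∧
      ∀ v, vs src tgt A v =
        (if p s = v then 1 else 0) - (-1) ^ l * if p (s + l) = v then 1 else 0 := by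
  induction l with
  | zero => exact ⟨fun _ => 0, by simp, by simp, fun v => by simp [vs]⟩
  | succ l ih =>
    obtain ⟨A, a1, a2, a3⟩ := ih (fun t a => he t (by omega))
      fun t a u b => hi t (by omega) u (by omega)
    refine ⟨fun e => A e + if e = pe (s + l) then (-1) ^ l else 0, fun e => ?_, fun e q => ?_,
      fun v => ?_⟩
    · by_cases q : e = pe (s + l)
      · have : A e = 0 := by
          by_contra r
          obtain ⟨t, -, t2, t3⟩ := a2 e r
          have := hi t (by omega) (s + l) (by omega) (t3.symm.trans q)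
          omega
        simp [this, if_pos q]
      · simpa [q] using a1 e
    · by_cases r : e = pe (s + l)
      · exact ⟨s + l, by omega, by omega, r⟩
      · obtain ⟨t, t1, t2, t3⟩ := a2 e (by simpa [r] using q)
        exact ⟨t, t1, by omega, t3⟩
    · rw [vs_add, a3, vs_one (he (s + l) (by omega)), pow_succ, ← add_assoc]
      ring

end Pool.Agent.P.MP_e59a69_co
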