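import Pool.Agent.P.MP_e59a69_co.QDefs

/-! Growing trees on the edges that leave a small tree. -/

open Finset Function

set_option linter.unusedSectionVars false

namespace Pool.Agent.P.MP_e59a69_co

variable {V E : Type} [Fintype V] [Fintype E] [DecidableEq V] [DecidableEq E]
variable {src tgt : E → V} {k : ℕ}

/-- an unfinished layer -/
structure PreL (src tgt : E → V) (I : Finset V) (h : ℕ) (hub : E → Finset V) : Prop where
  out : ∀ e, hub e = ∅ ∨ (Tight src tgt (hub e) ∧ JnS src tgt I (hub e) e)
  le : ∀ e, #(hub e) ≤ h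
  dI : ∀ e, Disjoint I (hub e)
  dj : ∀ e f, e ≠ f → Disjoint (hub e) (hub f)

lemma PreL.cr {I : Finset V} {h : ℕ} {hub : E → Finset V} (P : PreL src tgt I h hub) {e : E}
    (he : ¬ Cr src tgt I e) : hub e = ∅ := by
  refine (P.out e).resolve_right fun ⟨_, a⟩ => he ?_
  have hd : ∀ v, v ∈ I → v ∉ hub e := fun v b => disjoint_left.1 (P.dI e) b
  have h1 := hd (src e)
  have h2 := hd (tgt e)
  tauto

lemma PreL.tight {I : Finset V} {h : ℕ} {hub : E → Finset V} (P : PreL src tgt I h hub)
    (hI : Tight src tgt I) (A : Finset E) : Tight src tgt (I ∪ A.biUnion hub) := by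
  induction A using Finset.induction_on with
  | empty => simpa using hI
  | insert e A he ih =>
    rw [biUnion_insert, union_comm (hub e), ← union_assoc]
    rcases P.out e with a | ⟨a, b⟩
    · simpa [a] using ih
    · refine ih.union a ?_ (e := e) ?_
      · rw [disjoint_union_left, disjoint_biUnion_left]
        exact ⟨P.dI e, fun f hf => P.dj f e fun c => he (c ▸ hf)⟩
      · simp only [JnS, mem_union] at b ⊢
        tauto

lemma PreL.card {I : Finset V} {h : ℕ} {hub : E → Finset V} (P : PreL src tgt I h hub)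
    (hI : Tight src tgt I) : #(I ∪ univ.biUnion hub) ≤ #I + (#I + 2) * h := by
  refine (card_union_le _ _).trans (Nat.add_le_add_left (card_biUnion_le.trans ?_) _)
  rw [← sum_subset (filter_subset (Cr src tgt I) univ)
    fun e _ he => by rw [P.cr fun a => he (mem_filter.2 ⟨mem_univ _, a⟩), card_empty]]
  refine (sum_le_card_nsmul _ _ h fun e _ => P.le e).trans ?_
  exact Nat.mul_le_mul_right _ hI.2

lemma QH.grow (H : QH src tgt k) {I : Finset V} (hI : Tight src tgt I) {h : ℕ}
    (hk : #I + (#I + 2) * h < k) {hub : E → Finset V} (P : PreL src tgt I h hub) {e : E}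
    (he : Cr src tgt I e) : ∃ w, w ∉ I ∪ univ.biUnion hub ∧ Tight src tgt (insert w (hub e)) ∧
      JnS src tgt I (insert w (hub e)) e := by
  have hc := P.card hI
  rcases P.out e with a | ⟨a, b⟩
  · obtain ⟨w, h1, h2⟩ : ∃ w, w ∉ I ∧ JnS src tgt I {w} e := by
      by_cases c : src e ∈ I
      · exact ⟨tgt e, by tauto, Or.inl ⟨c, mem_singleton_self _⟩⟩
      · exact ⟨src e, c, Or.inr ⟨mem_singleton_self _, by tauto⟩⟩
    refine ⟨w, fun hw => ?_, by simpa [a] using H.single w, by simpa [a] using h2⟩
    obtain ⟨f, -, hf⟩ := mem_biUnion.1 ((mem_union.1 hw).resolve_left h1)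
    obtain ⟨c, d⟩ := (P.out f).resolve_left (ne_empty_of_mem hf)
    have h3 : #I + #(hub f) < k := by
      rw [← card_union_of_disjoint (P.dI f)]
      exact lt_of_le_of_lt ((card_le_card (union_subset_union_right
        (subset_biUnion_of_mem _ (mem_univ f)))).trans hc) hk
    have h4 : JnS src tgt I (hub f) e := by
      simp only [JnS, mem_singleton] at h2 ⊢
      rcases h2 with ⟨x, y⟩ | ⟨x, y⟩
      exacts [Or.inl ⟨x, y ▸ hf⟩, Or.inr ⟨x ▸ hf, y⟩]
    rw [← H.one hI c (P.dI f) h3 h4 d, a] at hf
    exact notMem_empty _ hf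
  · have hR := P.tight hI (univ.erase e)
    have hd : Disjoint (I ∪ (univ.erase e).biUnion hub) (hub e) := by
      rw [disjoint_union_left, disjoint_biUnion_left]
      exact ⟨P.dI e, fun f hf => P.dj f e (ne_of_mem_erase hf)⟩
    have e1 : I ∪ univ.biUnion hub = (I ∪ (univ.erase e).biUnion hub) ∪ hub e := by
      rw [union_assoc, union_comm _ (hub e), ← biUnion_insert, insert_erase (mem_univ e)]
    rw [e1, card_union_of_disjoint hd] at hc
    have h1 := H.small a.1 (by omega)
    obtain ⟨g, hg, g', hg', hne⟩ := one_lt_card.1 (show 1 < ct src tgt univ (hub e) by omega)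
    obtain ⟨f, f1, f2⟩ : ∃ f, Cr src tgt (hub e) f ∧
        ¬ JnS src tgt (I ∪ (univ.erase e).biUnion hub) (hub e) f := by
      by_contra q
      have q' := fun f x => not_not.1 (not_and.1 (not_exists.1 q f) x)
      exact hne (H.one hR a hd (by omega) (q' g (mem_filter.1 hg).2) (q' g' (mem_filter.1 hg').2))
    obtain ⟨w, h2, h3, h4⟩ : ∃ w, w ∉ I ∪ (univ.erase e).biUnion hub ∧ w ∉ hub e ∧
        JnS src tgt {w} (hub e) f := by
      by_cases c : src f ∈ hub e
      · exact ⟨tgt f, by tauto, by tauto, Or.inr ⟨c, mem_singleton_self _⟩⟩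
      · exact ⟨src f, by tauto, c, Or.inl ⟨mem_singleton_self _, by tauto⟩⟩
    refine ⟨w, by rw [e1, mem_union]; tauto, ?_, ?_⟩
    · rw [insert_eq]
      exact (H.single w).union a (disjoint_singleton_left.2 h3) h4
    · simp only [JnS, mem_insert] at b ⊢
      tauto

theorem QH.exists_layer (H : QH src tgt k) {I : Finset V} (hI : Tight src tgt I) {h : ℕ}
    (hh : 1 ≤ h) (hk : #I + (#I + 2) * h < k) :
    ∃ hub : E → Finset V, Layer src tgt I h hub ∧ Tight src tgt (I ∪ univ.biUnion hub) ∧
      #(I ∪ univ.biUnion hub) ≤ #I + (#I + 2) * h := by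
  classical
  obtain ⟨hub, h1, h2⟩ := exists_max_image (univ.filter (PreL src tgt I h))
    (fun hub => ∑ e, #(hub e)) ⟨fun _ => ∅, mem_filter.2 ⟨mem_univ _,
      ⟨fun _ => Or.inl rfl, by simp, by simp, by simp⟩⟩⟩
  have P := (mem_filter.1 h1).2
  have hfull : ∀ e, Cr src tgt I e → #(hub e) = h := fun e he => by
    by_contra hne
    obtain ⟨w, w1, w2, w3⟩ := H.grow hI hk P he
    have w4 : ∀ f, w ∉ hub f := fun f a =>
      w1 (mem_union_right _ (mem_biUnion.2 ⟨f, mem_univ _, a⟩))
    have w5 : w ∉ I := fun a => w1 (mem_union_left _ a)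
    have Q : PreL src tgt I h (update hub e (insert w (hub e))) := by
      refine ⟨fun f => ?_, fun f => ?_, fun f => ?_, fun f g hfg => ?_⟩
      · by_cases c : f = e
        · subst c
          rw [update_self]
          exact Or.inr ⟨w2, w3⟩
        · rw [update_of_ne c]
          exact P.out f
      · by_cases c : f = e
        · subst c
          rw [update_self, card_insert_of_notMem (w4 f)]
          have := P.le f
          omega
        · rw [update_of_ne c]
          exact P.le f
      · by_cases c : f = e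
        · subst c
          rw [update_self, disjoint_insert_right]
          exact ⟨w5, P.dI f⟩
        · rw [update_of_ne c]
          exact P.dI f
      · by_cases c : f = e
        · subst c
          rw [update_self, update_of_ne hfg.symm, disjoint_insert_left]
          exact ⟨w4 g, P.dj f g hfg⟩
        · by_cases d : g = e
          · subst d
            rw [update_self, update_of_ne c, disjoint_insert_right]
            exact ⟨w4 f, P.dj f g hfg⟩
          · rw [update_of_ne c, update_of_ne d]
            exact P.dj f g hfg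
    refine absurd (h2 _ (mem_filter.2 ⟨mem_univ _, Q⟩)) (not_le.2 ?_)
    refine sum_lt_sum (fun f _ => ?_) ⟨e, mem_univ _, ?_⟩
    · by_cases c : f = e
      · subst c
        rw [update_self]
        exact card_le_card (subset_insert _ _)
      · rw [update_of_ne c]
    · rw [update_self, card_insert_of_notMem (w4 e)]
      omega
  refine ⟨hub, ⟨fun e he => ?_, fun e he => P.cr he, P.dI, P.dj⟩, P.tight hI _, P.card hI⟩
  have a := hfull e he
  obtain ⟨b, c⟩ := (P.out e).resolve_left fun q => by
    rw [q, card_empty] at a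
    omega
  exact ⟨b, a, by tauto⟩

theorem QH.exists_tower (H : QH src tgt k) {m : ℕ → ℕ} (hm : Sz m) (hk : m 10 < k) {W : Finset V}
    (hW : Tight src tgt W) (h0 : #W ≤ m 0) :
    ∃ (I : ℕ → Finset V) (hub : ℕ → E → Finset V), Tower src tgt m I hub ∧ I 0 = W := by
  have key : ∀ (j : ℕ) (S : Finset V), ∃ hub : E → Finset V, j < 10 → Tight src tgt S →
      #S ≤ m j → Layer src tgt S (hf (m j)) hub ∧ Tight src tgt (S ∪ univ.biUnion hub) ∧
        #(S ∪ univ.biUnion hub) ≤ m (j + 1) := fun j S => by
    by_cases c : j < 10 ∧ Tight src tgt S ∧ #S ≤ m j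
    · obtain ⟨c1, c2, c3⟩ := c
      have h1 : #S + (#S + 2) * hf (m j) ≤ m (j + 1) :=
        le_trans (add_le_add c3 (Nat.mul_le_mul_right _ (by omega))) (hm j)
      have h2 := hm.mono (show j + 1 ≤ 10 from c1)
      obtain ⟨hub, a, b, d⟩ := H.exists_layer c2 (h := hf (m j)) (by unfold hf; omega) (by omega)
      exact ⟨hub, fun _ _ _ => ⟨a, b, d.trans h1⟩⟩
    · exact ⟨fun _ => ∅, fun a b d => absurd ⟨a, b, d⟩ c⟩
  choose g hg using key
  let I : ℕ → Finset V := fun j => Nat.rec W (fun i S => S ∪ univ.biUnion (g i S)) j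
  have hI : ∀ j ≤ 10, Tight src tgt (I j) ∧ #(I j) ≤ m j := fun j hj => by
    induction j with
    | zero => exact ⟨hW, h0⟩
    | succ j ih =>
      obtain ⟨a, b⟩ := ih (by omega)
      exact (hg j (I j) hj a b).2
  exact ⟨I, fun j => g j (I j), ⟨fun j hj => (hI j hj).1, fun j hj => (hI j hj).2,
    fun j hj => (hg j (I j) hj (hI j hj.le).1 (hI j hj.le).2).1, fun j _ => rfl⟩, rfl⟩

end Pool.Agent.P.MP_e59a69_co
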