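import Pool.Agent.P.MP_e59a69_co.SRGreen

/-! Segment averages at nearby places are close in energy. -/

open Finset

namespace Pool.Agent.P.MP_e59a69_co

lemma srxen_geo (m t : ℕ) : ∑ s ∈ range m, (1 / 2 : ℝ) ^ ((t : ℤ) - s).natAbs ≤ 4 := by
  have h1 : ∑ s ∈ range m, (1 / 2 : ℝ) ^ ((t : ℤ) - s).natAbs ≤
      ∑ s ∈ range (t + 1 + m), (1 / 2 : ℝ) ^ ((t : ℤ) - s).natAbs :=
    sum_le_sum_of_subset_of_nonneg (range_subset_range.2 (by omega))
      (fun _ _ _ => by positivity)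
  rw [sum_range_add, ← sum_range_reflect _ (t + 1)] at h1
  have h2 : ∑ j ∈ range (t + 1), (1 / 2 : ℝ) ^ ((t : ℤ) - (t + 1 - 1 - j : ℕ)).natAbs =
      ∑ j ∈ range (t + 1), (1 / 2 : ℝ) ^ j := by
    refine sum_congr rfl fun j hj => ?_
    have := mem_range.1 hj
    congr 1
    omega
  have h3 : ∑ j ∈ range m, (1 / 2 : ℝ) ^ ((t : ℤ) - (t + 1 + j : ℕ)).natAbs ≤
      ∑ j ∈ range m, (1 / 2 : ℝ) ^ j := by
    refine sum_le_sum fun j _ => pow_le_pow_of_le_one (by norm_num) (by norm_num) ?_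
    omega
  have h4 := sum_geometric_two_le (t + 1)
  have h5 := sum_geometric_two_le m
  linarith

section
variable {V κ : Type} [Fintype V] [DecidableEq V] [Fintype κ] {π μ : Equiv.Perm V}
  {G : (V → ℝ) →ₗ[ℝ] κ → ℝ} {r : ℕ} {d : V → V → ℕ}

omit [Fintype V] [DecidableEq V] in
lemma srxen_grn_nonneg (D : IsDist π μ r d) (x y : V) : 0 ≤ grn r d x y := by
  have : (1 / 2 : ℝ) ^ r ≤ (1 / 2) ^ d x y :=
    pow_le_pow_of_le_one (by norm_num) (by norm_num) (D.le x y)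
  unfold grn
  linarith

lemma srxen_pair (hG : IsGrad π μ G) {ι : Type} (T : Finset ι) (p : ι → V) (y : V → ℝ) :
    ∑ k, G y k * G (fun z => ∑ t ∈ T, grn r d (p t) z) k =
      ∑ t ∈ T, (y (p t) - ∑ z, rho π μ r d (p t) z * y z) := by
  rw [hG]
  have h1 : ∀ v, Lap π μ (fun z => ∑ t ∈ T, grn r d (p t) z) v =
      ∑ t ∈ T, ((if v = p t then 1 else 0) - rho π μ r d (p t) v) := by
    intro v
    simp only [rho, sub_sub_cancel, Lap, ← sum_sub_distrib]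
    exact sum_comm
  simp only [h1, mul_sum]
  rw [sum_comm]
  refine sum_congr rfl fun t _ => ?_
  simp only [mul_sub, sum_sub_distrib, mul_ite, mul_one, mul_zero, sum_ite_eq', mem_univ, if_true]
  congr 1
  exact sum_congr rfl fun z _ => mul_comm _ _

lemma seg_rho (hμ : ∀ v, μ (μ v) = v) (hG : IsGrad π μ G) (D : IsDist π μ r d) {m : ℕ}
    (hm : 1 ≤ m) (hr : m ≤ r) (x : V) (y : V → ℝ) :
    (seg π m x y - (m : ℝ)⁻¹ * ∑ t ∈ range m, ∑ z, rho π μ r d ((π ^ (t + 1)) x) z * y z) ^ 2 ≤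
      3 / m * ∑ k, G y k ^ 2 := by
  set gs : V → ℝ := fun z => ∑ t ∈ range m, grn r d ((π ^ (t + 1)) x) z with hgs
  have h1 := srxen_pair (r := r) (d := d) hG (range m) (fun t => (π ^ (t + 1)) x) y
  have h2 := srxen_pair (r := r) (d := d) hG (range m) (fun t => (π ^ (t + 1)) x) gs
  rw [← hgs] at h1 h2
  have h3 : ∑ k, G gs k ^ 2 ≤ 3 * m := by
    simp only [sq]
    rw [h2]
    have : ∀ t ∈ range m, gs ((π ^ (t + 1)) x) - ∑ z, rho π μ r d ((π ^ (t + 1)) x) z * gs z ≤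
        3 := by
      intro t ht
      have a1 : 0 ≤ ∑ z, rho π μ r d ((π ^ (t + 1)) x) z * gs z :=
        sum_nonneg fun z _ => mul_nonneg (rho_nonneg D _ _)
          (sum_nonneg fun s _ => srxen_grn_nonneg D _ _)
      have a2 : gs ((π ^ (t + 1)) x) ≤
          ∑ s ∈ range m, 2 / 3 * (1 / 2 : ℝ) ^ ((t : ℤ) - s).natAbs := by
        refine sum_le_sum fun s hs => ?_
        have b1 := mem_range.1 hs
        have b2 := mem_range.1 ht
        have b3 := IsDist.zpow hμ D ((π ^ (s + 1)) x) ((t : ℤ) - s) (by omega)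
        have b4 : (π ^ ((t : ℤ) - s)) ((π ^ (s + 1)) x) = (π ^ (t + 1)) x := by
          rw [← zpow_natCast π (s + 1), ← zpow_natCast π (t + 1), zp_add]
          congr 2
          push_cast
          ring
        rw [b4] at b3
        unfold grn
        rw [b3]
        have : (0 : ℝ) ≤ (1 / 2) ^ r := by positivity
        linarith
      rw [← mul_sum] at a2
      have a3 := srxen_geo m t
      linarith
    have h := sum_le_sum this
    rw [sum_const, card_range, nsmul_eq_mul] at h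
    linarith
  have h4 := sum_mul_sq_le_sq_mul_sq univ (fun k => G y k) (fun k => G gs k)
  have hD : 0 ≤ ∑ k, G y k ^ 2 := sum_nonneg fun _ _ => sq_nonneg _
  have hm' : (0 : ℝ) < m := by exact_mod_cast hm
  rw [seg_apply, ← mul_sub, ← sum_sub_distrib, ← h1, mul_pow]
  calc _ ≤ (m : ℝ)⁻¹ ^ 2 * ((∑ k, G y k ^ 2) * (3 * m)) :=
        mul_le_mul_of_nonneg_left (h4.trans (mul_le_mul_of_nonneg_left h3 hD)) (by positivity)
    _ = _ := by field_simp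

lemma srxen_word (hμ : ∀ v, μ (μ v) = v) (hG : IsGrad π μ G) (D : IsDist π μ r d) {η : ℝ}
    (hS : Short π μ G η) {n : ℕ} {w : Equiv.Perm V} (hw : Wd π μ n w) (y : V → ℝ) (u : V) :
    |∑ z, rho π μ r d (w u) z * y z - ∑ z, rho π μ r d u z * y z| ≤
      n * √((η + 4 * (1 / 2) ^ r) * ∑ k, G y k ^ 2) := by
  have h0 := Real.sqrt_nonneg ((η + 4 * (1 / 2) ^ r) * ∑ k, G y k ^ 2)
  refine Wd.induct (P := fun n w => |∑ z, rho π μ r d (w u) z * y z -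
    ∑ z, rho π μ r d u z * y z| ≤ n * √((η + 4 * (1 / 2) ^ r) * ∑ k, G y k ^ 2)) ?_ ?_ ?_ hw
  · simp
  · intro n w l h
    have h1 := Real.abs_le_sqrt (rho_step hμ hG D hS (w u) l y)
    rw [Equiv.Perm.mul_apply]
    rw [abs_le] at h h1 ⊢
    push_cast
    constructor <;> linarith [h.1, h.2, h1.1, h1.2]
  · intro n w h
    push_cast
    linarith

lemma seg_close (hμ : ∀ v, μ (μ v) = v) (hG : IsGrad π μ G) (D : IsDist π μ r d) {η : ℝ}
    (hη : 0 ≤ η) (hS : Short π μ G η) {m : ℕ} (hm : 1 ≤ m) (hr : m ≤ r) {n : ℕ}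
    {w : Equiv.Perm V} (hw : Wd π μ n w) (x : V) (y : V → ℝ) :
    (seg π m (w x) y - seg π m x y) ^ 2 ≤
      (18 / m + 3 * (2 * m + n) ^ 2 * (η + 4 * (1 / 2) ^ r)) * ∑ k, G y k ^ 2 := by
  have h1 := seg_rho hμ hG D hm hr (w x) y
  have h2 := seg_rho hμ hG D hm hr x y
  have hD : 0 ≤ ∑ k, G y k ^ 2 := sum_nonneg fun _ _ => sq_nonneg _
  have hm' : (0 : ℝ) < m := by exact_mod_cast hm
  have hE : 0 ≤ (η + 4 * (1 / 2) ^ r) * ∑ k, G y k ^ 2 := by positivity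
  set θ := √((η + 4 * (1 / 2) ^ r) * ∑ k, G y k ^ 2) with hθ
  have hθ2 : θ ^ 2 = (η + 4 * (1 / 2) ^ r) * ∑ k, G y k ^ 2 := Real.sq_sqrt hE
  have h3 : ∀ t ∈ range m, |∑ z, rho π μ r d ((π ^ (t + 1)) (w x)) z * y z -
      ∑ z, rho π μ r d ((π ^ (t + 1)) x) z * y z| ≤ (2 * m + n) * θ := by
    intro t ht
    have b1 := mem_range.1 ht
    have b2 : Wd π μ (2 * m + n) (π ^ ((t + 1 : ℕ) : ℤ) * w * π ^ (-((t + 1 : ℕ) : ℤ))) :=
      (((wd_zpow _).mul hw).mul (wd_zpow _)).mono (by omega)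
    have b3 := srxen_word hμ hG D hS b2 y ((π ^ (t + 1)) x)
    have b4 : (π ^ ((t + 1 : ℕ) : ℤ) * w * π ^ (-((t + 1 : ℕ) : ℤ))) ((π ^ (t + 1)) x) =
        (π ^ (t + 1)) (w x) := by
      rw [Equiv.Perm.mul_apply, Equiv.Perm.mul_apply, ← zpow_natCast π (t + 1), zp_add,
        neg_add_cancel, zpow_zero, Equiv.Perm.one_apply]
    rw [b4] at b3
    push_cast at b3
    exact b3
  have h4 : |(m : ℝ)⁻¹ * ∑ t ∈ range m, ∑ z, rho π μ r d ((π ^ (t + 1)) (w x)) z * y z -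
      (m : ℝ)⁻¹ * ∑ t ∈ range m, ∑ z, rho π μ r d ((π ^ (t + 1)) x) z * y z| ≤
      (2 * m + n) * θ := by
    rw [← mul_sub, ← sum_sub_distrib, abs_mul, abs_of_pos (inv_pos.2 hm'),
      inv_mul_le_iff₀ hm']
    refine (abs_sum_le_sum_abs _ _).trans ((sum_le_sum h3).trans (le_of_eq ?_))
    rw [sum_const, card_range, nsmul_eq_mul]
  have h5 := sq_le_sq' (abs_le.1 h4).1 (abs_le.1 h4).2
  rw [mul_pow, hθ2] at h5
  generalize (m : ℝ)⁻¹ * ∑ t ∈ range m, ∑ z, rho π μ r d ((π ^ (t + 1)) (w x)) z * y z = A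
    at h1 h5
  generalize (m : ℝ)⁻¹ * ∑ t ∈ range m, ∑ z, rho π μ r d ((π ^ (t + 1)) x) z * y z = B
    at h2 h5
  generalize seg π m (w x) y = P at h1 ⊢
  generalize seg π m x y = Q at h2 ⊢
  have e : (18 / m + 3 * (2 * m + n) ^ 2 * (η + 4 * (1 / 2) ^ r)) * ∑ k, G y k ^ 2 =
      3 * (3 / m * ∑ k, G y k ^ 2) + 3 * (3 / m * ∑ k, G y k ^ 2) +
      3 * ((2 * m + n) ^ 2 * ((η + 4 * (1 / 2) ^ r) * ∑ k, G y k ^ 2)) := by ring
  rw [e]
  nlinarith [sq_nonneg ((P - A) + (Q - B)), sq_nonneg ((P - A) - (A - B)),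
    sq_nonneg ((Q - B) + (A - B))]

end

theorem energy (ε : ℝ) (hε : 0 < ε) (m : ℕ) (hm : 36 ≤ ε * m) (n : ℕ) :
    ∃ (c : ℕ) (η : ℝ), 0 < η ∧ ∀ (V κ : Type) [Fintype V] [DecidableEq V] [Fintype κ]
      (π μ : Equiv.Perm V) (G : (V → ℝ) →ₗ[ℝ] κ → ℝ), Hy π μ c → IsGrad π μ G → Short π μ G η →
      ∀ w, Wd π μ n w → ∀ x y, (seg π m (w x) y - seg π m x y) ^ 2 ≤ ε * ∑ k, G y k ^ 2 := by
  have hm1 : 1 ≤ m := by
    rcases Nat.eq_zero_or_pos m with h | h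
    · subst h
      norm_num at hm
    · exact h
  have hm' : (0 : ℝ) < m := by exact_mod_cast hm1
  have hQ : (0 : ℝ) < (2 * m + n) ^ 2 := by positivity
  have hη : 0 < ε / (12 * (2 * m + n) ^ 2) := by positivity
  obtain ⟨r0, hr0⟩ := exists_pow_lt_of_lt_one (x := ε / (12 * (2 * m + n) ^ 2) / 4)
    (y := (1 / 2 : ℝ)) (by positivity) (by norm_num)
  refine ⟨2 * (r0 + m) + 4, ε / (12 * (2 * m + n) ^ 2), hη, ?_⟩
  intro V κ _ _ _ π μ G H hG hS w hw x y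
  obtain ⟨d, D⟩ := H.exists_dist (r0 + m) (by omega) le_rfl
  refine (seg_close H.inv hG D hη.le hS hm1 (by omega) hw x y).trans ?_
  refine mul_le_mul_of_nonneg_right ?_ (sum_nonneg fun _ _ => sq_nonneg _)
  have h1 : (1 / 2 : ℝ) ^ (r0 + m) ≤ (1 / 2) ^ r0 :=
    pow_le_pow_of_le_one (by norm_num) (by norm_num) (by omega)
  have h2 : (18 : ℝ) / m ≤ ε / 2 := by
    rw [div_le_iff₀ hm']
    linarith
  have h3 : 3 * (2 * m + n : ℝ) ^ 2 * (2 * (ε / (12 * (2 * m + n) ^ 2))) = ε / 2 := by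
    field_simp
    ring
  have h4 : 3 * (2 * m + n : ℝ) ^ 2 * (ε / (12 * (2 * m + n) ^ 2) + 4 * (1 / 2) ^ (r0 + m)) ≤
      3 * (2 * m + n : ℝ) ^ 2 * (2 * (ε / (12 * (2 * m + n) ^ 2))) :=
    mul_le_mul_of_nonneg_left (by linarith) (by positivity)
  linarith

end Pool.Agent.P.MP_e59a69_co
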