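import Pool.Agent.P.MP_da739a_co.Cover

/-! Weights with small leverage for a uniformly dense family. -/

open Finset Module

namespace Pool.Agent.P.MP_e59a69_co

open Matrix Pool.Agent.P.MP_da739a_co in
theorem srxweights_cs {ι : Type} [Fintype ι] [DecidableEq ι] (G : Matrix ι ι ℝ) (hG : G.PosDef)
    (v x : ι → ℝ) : (v ⬝ᵥ x) ^ 2 ≤ (v ⬝ᵥ G⁻¹ *ᵥ v) * (x ⬝ᵥ G *ᵥ x) := by
  have hs : ∀ u w : ι → ℝ, u ⬝ᵥ G *ᵥ w = w ⬝ᵥ G *ᵥ u := by
    intro u w
    have h : Gᵀ = G := by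
      have := hG.isHermitian
      rwa [IsHermitian, conjTranspose_eq_transpose_of_trivial] at this
    rw [dotProduct_mulVec, ← mulVec_transpose, h, dotProduct_comm]
  have hK : G *ᵥ (G⁻¹ *ᵥ v) = v := by
    rw [mulVec_mulVec, Matrix.mul_nonsing_inv _ hG.det_pos.ne'.isUnit, one_mulVec]
  have key : ∀ t : ℝ, 0 ≤ (v ⬝ᵥ G⁻¹ *ᵥ v) * (t * t) + (-(2 * (v ⬝ᵥ x))) * t + x ⬝ᵥ G *ᵥ x := by
    intro t
    have h := hG.posSemidef.dotProduct_mulVec_nonneg (x - t • G⁻¹ *ᵥ v)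
    rw [star_trivial, mulVec_sub, mulVec_smul, sub_dotProduct, dotProduct_sub, dotProduct_sub,
      smul_dotProduct, smul_dotProduct, dotProduct_smul, dotProduct_smul, hs (G⁻¹ *ᵥ v) x, hK,
      dotProduct_comm x v, dotProduct_comm (G⁻¹ *ᵥ v) v] at h
    simp only [smul_eq_mul] at h
    linarith
  have := discrim_le_zero key
  unfold discrim at this
  nlinarith

open Matrix Pool.Agent.P.MP_da739a_co in
theorem dense_weights {U E : Type} [AddCommGroup U] [Module ℝ U] [DecidableEq E] (χ : E → U)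
    (F0 : Finset E) (m : ℕ)
    (hcard : #F0 = (m + 1) * finrank ℝ (Submodule.span ℝ (χ '' (F0 : Set E))))
    (hr : ∀ F ⊆ F0, #F ≤ (m + 1) * finrank ℝ (Submodule.span ℝ (χ '' (F : Set E)))) :
    ∃ γ : E → ℝ, (∀ e, 0 < γ e) ∧ ∀ φ : U →ₗ[ℝ] ℝ, ∀ e ∈ F0,
      m * (γ e * φ (χ e) ^ 2) ≤ ∑ f ∈ F0, γ f * φ (χ f) ^ 2 := by
  rcases Nat.eq_zero_or_pos m with hm | hm
  · refine ⟨fun _ => 1, fun _ => one_pos, fun φ e _ => ?_⟩
    rw [hm, Nat.cast_zero, zero_mul]
    exact Finset.sum_nonneg fun f _ => by positivity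
  rcases F0.eq_empty_or_nonempty with h0 | h0
  · exact ⟨fun _ => 1, fun _ => one_pos, fun φ e he => by simp [h0] at he⟩
  set W := Submodule.span ℝ (χ '' (F0 : Set E)) with hW
  have hd : 0 < finrank ℝ W := by
    rcases Nat.eq_zero_or_pos (finrank ℝ W) with h | h
    · rw [h, mul_zero] at hcard
      exact absurd hcard h0.card_pos.ne'
    · exact h
  have : FiniteDimensional ℝ W := FiniteDimensional.span_of_finite ℝ (F0.finite_toSet.image χ)
  let T : W ≃ₗ[ℝ] (Fin (finrank ℝ W) → ℝ) := (Module.finBasis ℝ W).equivFun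
  let L : (Fin (finrank ℝ W) → ℝ) →ₗ[ℝ] U := W.subtype ∘ₗ T.symm.toLinearMap
  let a : F0 → Fin (finrank ℝ W) → ℝ := fun e => T ⟨χ e, Submodule.subset_span ⟨e, e.2, rfl⟩⟩
  have hLa : ∀ e : F0, L (a e) = χ e := fun e => by simp [L, a]
  have hLinj : Function.Injective L := W.injective_subtype.comp T.symm.injective
  have hspan : Submodule.span ℝ (Set.range a) = ⊤ := by
    apply Submodule.map_injective_of_injective hLinj
    rw [Submodule.map_span, Submodule.map_top]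
    have h1 : L '' Set.range a = χ '' (F0 : Set E) := by
      ext u
      constructor
      · rintro ⟨_, ⟨e, rfl⟩, rfl⟩
        exact ⟨e, e.2, (hLa e).symm⟩
      · rintro ⟨e, he, rfl⟩
        exact ⟨_, ⟨⟨e, he⟩, rfl⟩, hLa _⟩
    rw [h1, ← hW]
    simp [L, LinearMap.range_comp]
  obtain ⟨γ, hγ, hw⟩ := exists_weights a hspan (fun F => by
      have h1 := hr (F.map (Function.Embedding.subtype _)) (by
        intro x hx
        obtain ⟨z, -, rfl⟩ := Finset.mem_map.1 hx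
        exact z.2)
      rw [Finset.card_map] at h1
      rw [Fintype.card_fin, Fintype.card_coe]
      have h2 : χ '' ((F.map (Function.Embedding.subtype _) : Finset E) : Set E) =
          L '' (a '' (F : Set F0)) := by
        rw [Finset.coe_map, Set.image_image, Set.image_image]
        exact Set.image_congr fun z _ => (hLa z).symm
      rw [h2, ← Submodule.map_span] at h1
      have h3 := h1.trans (Nat.mul_le_mul_left _ (Submodule.finrank_map_le L _))
      rw [hcard, mul_comm (m + 1), mul_assoc]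
      exact Nat.mul_le_mul_left _ h3) m hm (by
      rw [Fintype.card_fin, Fintype.card_coe, hcard]
      nlinarith)
  have hsp : Submodule.span ℝ (a '' ((univ : Finset F0) : Set F0)) = ⊤ := by simpa using hspan
  have hP : (gram a γ).PosDef := posDef_sum_of_span a γ univ hsp hγ
  refine ⟨fun e => if h : e ∈ F0 then γ ⟨e, h⟩ else 1, fun e => ?_, fun φ e he => ?_⟩
  · by_cases h : e ∈ F0
    · simpa [h] using hγ ⟨e, h⟩
    · simp [h]
  let x : Fin (finrank ℝ W) → ℝ := fun j => φ (L (Pi.single j 1))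
  have hx : ∀ f : F0, φ (χ f) = a f ⬝ᵥ x := by
    intro f
    rw [← hLa f]
    conv_lhs => rw [pi_eq_sum_univ' (a f)]
    simp only [map_sum, map_smul, smul_eq_mul, dotProduct, x]
  have hq : x ⬝ᵥ gram a γ *ᵥ x = ∑ f : F0, γ f * (a f ⬝ᵥ x) ^ 2 := by
    unfold MP_da739a_co.gram
    rw [sum_mulVec', dotProduct_sum]
    refine Finset.sum_congr rfl fun f _ => ?_
    rw [dotProduct_smul, smul_eq_mul, dotProduct_comm x]
    ring
  have hsum : ∑ f ∈ F0, (if h : f ∈ F0 then γ ⟨f, h⟩ else 1) * φ (χ f) ^ 2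
      = ∑ f : F0, γ f * (a f ⬝ᵥ x) ^ 2 := by
    rw [← Finset.sum_coe_sort F0]
    refine Finset.sum_congr rfl fun f _ => ?_
    rw [dif_pos f.2, hx f]
  have hQ : 0 ≤ ∑ f : F0, γ f * (a f ⬝ᵥ x) ^ 2 :=
    Finset.sum_nonneg fun f _ => mul_nonneg (hγ f).le (sq_nonneg _)
  have hcs := srxweights_cs _ hP (a ⟨e, he⟩) x
  have h1 := hw ⟨e, he⟩
  rw [hq] at hcs
  beta_reduce
  rw [hsum, dif_pos he, hx ⟨e, he⟩]
  have h2 : (0 : ℝ) ≤ m * γ ⟨e, he⟩ := mul_nonneg (Nat.cast_nonneg _) (hγ _).le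
  have h3 := mul_le_mul_of_nonneg_left hcs h2
  nlinarith [mul_le_mul_of_nonneg_right h1.le hQ]

end Pool.Agent.P.MP_e59a69_co
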