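import Pool.Agent.P.MP_e59a69_co.SRBases
import Pool.Agent.P.MP_e59a69_co.SRWeights
import Pool.Agent.P.MP_e59a69_co.Local

/-! Large cuts give many edges outside every flat, hence a dense conflict-free set of sites. -/

open Finset Module

namespace Pool.Agent.P.MP_e59a69_co

variable {V : Type} [Fintype V] [DecidableEq V]

lemma flat_count {W : Type} [AddCommGroup W] [Module ℝ W] (π q : Equiv.Perm V)
    (hq : ∀ v, q (q v) = v) (ev : V → W) (hev : ∀ v, ev (π v) = ev v) (lam : ℕ)
    (hlam : ∀ X : Finset V, (∀ v, v ∈ X ↔ π v ∈ X) → 0 < mc q X → lam ≤ mc q X) (S : Finset V)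
    [DecidablePred fun x => ev x - ev (q x) ∉
      Submodule.span ℝ ((fun v => ev v - ev (q v)) '' (S : Set V))] :
    lam * (finrank ℝ (Submodule.span ℝ (Set.range fun v => ev v - ev (q v))) - #S) ≤
      #{x | ev x - ev (q x) ∉ Submodule.span ℝ ((fun v => ev v - ev (q v)) '' (S : Set V))} := by
  classical
  set a : V → W := fun v => ev v - ev (q v) with ha
  set Us : Submodule ℝ W := Submodule.span ℝ (a '' (S : Set V)) with hUs
  let cls : V → W ⧸ Us := fun v => Us.mkQ (ev v)
  have hbad : ∀ v, ev v - ev (q v) ∉ Us ↔ cls v ≠ cls (q v) := by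
    intro v
    simp only [cls, Submodule.mkQ_apply, ne_eq, Submodule.Quotient.eq]
  set Bad : Finset V := {x | ev x - ev (q x) ∉ Us} with hBad
  have hmem : ∀ v, v ∈ Bad ↔ cls v ≠ cls (q v) := by
    intro v
    rw [hBad, mem_filter, hbad]
    simp
  let T : Finset (W ⧸ Us) := Bad.image cls
  obtain ⟨sec, hsec⟩ : ∃ sec : W ⧸ Us → W, ∀ t, Us.mkQ (sec t) = t :=
    ⟨fun t => (Us.mkQ_surjective t).choose, fun t => (Us.mkQ_surjective t).choose_spec⟩
  have hdiff : ∀ v, ev v - sec (cls v) ∈ Us := by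
    intro v
    rw [← Submodule.Quotient.eq]
    exact (hsec (cls v)).symm
  let Z : Finset W := S.image a ∪ T.image sec
  have hUZ : Us ≤ Submodule.span ℝ (Z : Set W) := by
    apply Submodule.span_mono
    rintro _ ⟨v, hv, rfl⟩
    exact mem_coe.2 (mem_union_left _ (mem_image_of_mem _ (mem_coe.1 hv)))
  have hsecZ : ∀ v ∈ Bad, sec (cls v) ∈ Submodule.span ℝ (Z : Set W) := by
    intro v hv
    exact Submodule.subset_span
      (mem_coe.2 (mem_union_right _ (mem_image_of_mem _ (mem_image_of_mem _ hv))))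
  have hA : Submodule.span ℝ (Set.range a) ≤ Submodule.span ℝ (Z : Set W) := by
    rw [Submodule.span_le]
    rintro _ ⟨v, rfl⟩
    by_cases hv : v ∈ Bad
    · have hv' : q v ∈ Bad := by
        rw [hmem] at hv ⊢
        rw [hq]
        exact hv.symm
      have e : a v = (ev v - sec (cls v)) - (ev (q v) - sec (cls (q v))) +
          (sec (cls v) - sec (cls (q v))) := by
        simp only [ha]
        abel
      rw [SetLike.mem_coe, e]
      exact add_mem (sub_mem (hUZ (hdiff v)) (hUZ (hdiff (q v))))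
        (sub_mem (hsecZ v hv) (hsecZ _ hv'))
    · apply hUZ
      rw [hBad, mem_filter] at hv
      by_contra h
      exact hv ⟨mem_univ _, h⟩
  have hdim : finrank ℝ (Submodule.span ℝ (Set.range a)) ≤ #S + #T := by
    refine (Submodule.finrank_mono hA).trans ?_
    refine (finrank_span_finset_le_card Z).trans ?_
    exact (card_union_le _ _).trans (add_le_add card_image_le card_image_le)
  have hfib : ∀ t ∈ T, lam ≤ #{v ∈ Bad | cls v = t} := by
    intro t ht
    have e : mc q {v | cls v = t} = #{v ∈ Bad | cls v = t} := by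
      unfold mc
      congr 1
      ext v
      simp only [mem_filter, mem_univ, true_and, hmem]
      constructor
      · rintro ⟨h1, h2⟩
        exact ⟨fun h => h2 (h ▸ h1), h1⟩
      · rintro ⟨h1, h2⟩
        exact ⟨h2, fun h => h1 (h2.trans h.symm)⟩
    rw [← e]
    apply hlam
    · intro v
      simp only [mem_filter, mem_univ, true_and, cls, hev]
    · rw [e, card_pos]
      obtain ⟨v, hv, rfl⟩ := mem_image.1 ht
      exact ⟨v, mem_filter.2 ⟨hv, rfl⟩⟩
  have hsum : #Bad = ∑ t ∈ T, #{v ∈ Bad | cls v = t} :=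
    card_eq_sum_card_fiberwise fun v hv => mem_coe.2 (mem_image_of_mem _ (mem_coe.1 hv))
  refine le_trans ?_ (card_le_card (s := Bad) fun v hv => by
    simp only [mem_filter, mem_univ, true_and]
    exact (hbad v).2 ((hmem v).1 hv))
  calc lam * (finrank ℝ (Submodule.span ℝ (Set.range a)) - #S) ≤ lam * #T :=
        Nat.mul_le_mul_left _ (by omega)
    _ = ∑ _t ∈ T, lam := by rw [sum_const, smul_eq_mul, mul_comm]
    _ ≤ ∑ t ∈ T, #{v ∈ Bad | cls v = t} := sum_le_sum hfib
    _ = #Bad := hsum.symm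

theorem exists_dense (π q : Equiv.Perm V) (hq : ∀ v, q (q v) = v) (R : V → V → Prop)
    [DecidableRel R] (hR : ∀ x y, R x y → R y x) (Δ m : ℕ) (hΔ : ∀ x, #{y | R x y} ≤ Δ)
    (hlam : ∀ X : Finset V, (∀ v, v ∈ X ↔ π v ∈ X) → 0 < mc q X →
      2 * ((m + 1) * (Δ + 1)) + 2 ≤ mc q X) :
    ∃ (U : Finset V) (γ : V → ℝ), (∀ x ∈ U, ∀ y ∈ U, x ≠ y → ¬ R x y) ∧ (∀ v, 0 < γ v) ∧
      ∀ x : V → ℝ, (∀ v, x (π v) = x v) →
        (∀ e ∈ U, m * (γ e * (x e - x (q e)) ^ 2) ≤ ∑ f ∈ U, γ f * (x f - x (q f)) ^ 2) ∧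
        ((∀ e ∈ U, x e = x (q e)) → ∀ v, x v = x (q v)) := by
  classical
  let N : Submodule ℝ (V → ℝ) :=
    { carrier := {x | ∀ v, x (π v) = x v}
      add_mem' := fun {x y} hx hy v => by simp only [Pi.add_apply, hx v, hy v]
      zero_mem' := fun v => rfl
      smul_mem' := fun c x hx v => by simp only [Pi.smul_apply, hx v] }
  let ev : V → Module.Dual ℝ N := fun v => (LinearMap.proj v) ∘ₗ N.subtype
  have hev : ∀ v, ev (π v) = ev v := by
    intro v
    ext x
    exact x.2 v
  let a : V → Module.Dual ℝ N := fun v => ev v - ev (q v)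
  obtain ⟨U, hU1, hU2, hU3, hU4⟩ := exists_bases a R hR Δ (m + 1) (Nat.succ_pos m) hΔ
    (fun S => flat_count π q hq ev hev _ hlam S)
  obtain ⟨γ, hγ, hw⟩ := dense_weights a U m hU3 hU4
  refine ⟨U, γ, hU1, hγ, fun x hx => ?_⟩
  let φ : Module.Dual ℝ N →ₗ[ℝ] ℝ := Module.Dual.eval ℝ N ⟨x, hx⟩
  have hφ : ∀ v, φ (a v) = x v - x (q v) := fun v => rfl
  refine ⟨fun e he => ?_, fun h v => ?_⟩
  · simpa only [hφ] using hw φ e he
  · have hker : Submodule.span ℝ (a '' (U : Set V)) ≤ LinearMap.ker φ := by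
      rw [Submodule.span_le]
      rintro _ ⟨e, he, rfl⟩
      rw [SetLike.mem_coe, LinearMap.mem_ker, hφ, h e (mem_coe.1 he), sub_self]
    rw [hU2] at hker
    have := hker (Submodule.subset_span ⟨v, rfl⟩)
    rw [LinearMap.mem_ker, hφ] at this
    exact sub_eq_zero.1 this

end Pool.Agent.P.MP_e59a69_co
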