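import Pool.Agent.P.MP_e59a69_co.SRSel

/-! A subfamily that is thin in one block and still spanning in the other. -/

open Finset

namespace Pool.Agent.P.MP_e59a69_co

theorem srxiter_step {W₁ W₂ κ ι : Type} [AddCommGroup W₁] [Module ℝ W₁] [AddCommGroup W₂]
    [Module ℝ W₂] [Fintype κ] [DecidableEq ι] (γ : W₁ →ₗ[ℝ] κ → ℝ) (a : ι → W₁ →ₗ[ℝ] ℝ)
    (b : ι → W₂ →ₗ[ℝ] ℝ) (B : ℝ) (hB : 0 ≤ B) (U : Finset ι)
    (ha : ∀ i w, 100 * a i w ^ 2 ≤ B * ∑ k, γ w k ^ 2)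
    (h1 : ∀ w, ∑ i ∈ U, a i w ^ 2 ≤ B * ∑ k, γ w k ^ 2)
    (h2 : ∀ i ∈ U, ∀ x, 100 * b i x ^ 2 ≤ ∑ f ∈ U, b f x ^ 2) :
    ∃ K ⊆ U, (∀ w, ∑ i ∈ K, a i w ^ 2 ≤ 9 / 10 * (B * ∑ k, γ w k ^ 2)) ∧
      ∀ x, ∑ f ∈ U, b f x ^ 2 ≤ 10 * ∑ f ∈ K, b f x ^ 2 := by
  classical
  let γ' : (W₁ × W₂) →ₗ[ℝ] (κ ⊕ U) → ℝ := LinearMap.pi (fun k => match k with
    | Sum.inl k => Real.sqrt B • ((LinearMap.proj k).comp (γ.comp (LinearMap.fst ℝ W₁ W₂)))
    | Sum.inr i => (b i.1).comp (LinearMap.snd ℝ W₁ W₂))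
  let α : U × Bool → (W₁ × W₂) →ₗ[ℝ] ℝ := fun l => match l.2 with
    | true => (a l.1.1).comp (LinearMap.fst ℝ W₁ W₂)
    | false => (b l.1.1).comp (LinearMap.snd ℝ W₁ W₂)
  have hγ : ∀ p : W₁ × W₂, ∑ k, γ' p k ^ 2 = B * ∑ k, γ p.1 k ^ 2 + ∑ f ∈ U, b f p.2 ^ 2 := by
    intro p
    rw [Fintype.sum_sum_type, Finset.mul_sum, ← Finset.sum_coe_sort U]
    congr 1
    refine Finset.sum_congr rfl (fun k _ => ?_)
    have : γ' p (Sum.inl k) = Real.sqrt B * γ p.1 k := rfl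
    rw [this, mul_pow, Real.sq_sqrt hB]
  have hn1 : ∀ w, 0 ≤ B * ∑ k, γ w k ^ 2 := fun w =>
    mul_nonneg hB (Finset.sum_nonneg fun _ _ => sq_nonneg _)
  have hn2 : ∀ x, 0 ≤ ∑ f ∈ U, b f x ^ 2 := fun x => Finset.sum_nonneg fun _ _ => sq_nonneg _
  obtain ⟨t, ht⟩ := form_sel γ' α (by
      intro p
      rw [hγ, Fintype.sum_prod_type]
      have e : ∀ i : U, ∑ c : Bool, α (i, c) p ^ 2 = a i.1 p.1 ^ 2 + b i.1 p.2 ^ 2 := by
        intro i
        rw [Fintype.sum_bool]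
        rfl
      rw [Finset.sum_congr rfl (fun i _ => e i), Finset.sum_add_distrib,
        Finset.sum_coe_sort U (fun i => a i p.1 ^ 2), Finset.sum_coe_sort U (fun i => b i p.2 ^ 2)]
      linarith [h1 p.1]) (by
      rintro ⟨i, c⟩ p
      rw [hγ]
      cases c
      · have : α (i, false) p = b i.1 p.2 := rfl
        rw [this]
        linarith [h2 i.1 i.2 p.2, hn1 p.1]
      · have : α (i, true) p = a i.1 p.1 := rfl
        rw [this]
        linarith [ha i.1 p.1, hn2 p.2])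
  let K : Finset ι := (Finset.univ.filter (fun i : U => t i = true)).map
    (Function.Embedding.subtype _)
  have hK : ∀ f : ι → ℝ, ∑ i ∈ K, f i = ∑ i : U, if t i = true then f i.1 else 0 := by
    intro f
    rw [Finset.sum_map, Finset.sum_filter]
    rfl
  refine ⟨K, ?_, ?_, ?_⟩
  · intro i hi
    obtain ⟨i', _, rfl⟩ := Finset.mem_map.1 hi
    exact i'.2
  · intro w
    have h := ht (w, 0)
    rw [hγ] at h
    have e : ∀ i : U, α (i, t i) (w, 0) ^ 2 = if t i = true then a i.1 w ^ 2 else 0 := by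
      intro i
      cases t i
      · have : α (i, false) (w, 0) = b i.1 0 := rfl
        rw [this]; simp
      · have : α (i, true) (w, 0) = a i.1 w := rfl
        rw [this]; simp
    rw [Finset.sum_congr rfl (fun i _ => e i)] at h
    rw [hK]
    simpa using h
  · intro x
    have h := ht (0, x)
    rw [hγ] at h
    have e : ∀ i : U, α (i, t i) (0, x) ^ 2 =
        b i.1 x ^ 2 - if t i = true then b i.1 x ^ 2 else 0 := by
      intro i
      cases t i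
      · have : α (i, false) (0, x) = b i.1 x := rfl
        rw [this]; simp
      · have : α (i, true) (0, x) = a i.1 0 := rfl
        rw [this]; simp
    rw [Finset.sum_congr rfl (fun i _ => e i), Finset.sum_sub_distrib,
      Finset.sum_coe_sort U (fun i => b i x ^ 2), ← hK (fun i => b i x ^ 2)] at h
    have z : ∑ k, γ (0 : W₁) k ^ 2 = 0 := by simp
    simp only [z] at h
    linarith

theorem thin_span {W₁ W₂ κ ι : Type} [AddCommGroup W₁] [Module ℝ W₁] [AddCommGroup W₂]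
    [Module ℝ W₂] [Fintype κ] [DecidableEq ι] (γ : W₁ →ₗ[ℝ] κ → ℝ) (a : ι → W₁ →ₗ[ℝ] ℝ)
    (b : ι → W₂ →ₗ[ℝ] ℝ) (τ : ℝ) (hτ : 0 < τ)
    (ha : ∀ i w, 100 * a i w ^ 2 ≤ τ * ∑ k, γ w k ^ 2) (j : ℕ) (U : Finset ι)
    (h1 : ∀ w, ∑ i ∈ U, a i w ^ 2 ≤ τ * (10 / 9) ^ j * ∑ k, γ w k ^ 2)
    (h2 : ∀ i ∈ U, ∀ x, 100 * 10 ^ j * b i x ^ 2 ≤ ∑ f ∈ U, b f x ^ 2) :
    ∃ K ⊆ U, (∀ w, ∑ i ∈ K, a i w ^ 2 ≤ τ * ∑ k, γ w k ^ 2) ∧
      ∀ x, (∀ i ∈ K, b i x = 0) → ∀ i ∈ U, b i x = 0 := by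
  induction j generalizing U with
  | zero => exact ⟨U, Finset.Subset.refl _, by simpa using h1, fun x hx => hx⟩
  | succ j ih =>
    have hp : (1 : ℝ) ≤ (10 / 9) ^ (j + 1) := one_le_pow₀ (by norm_num)
    have hq : (1 : ℝ) ≤ 10 ^ (j + 1) := one_le_pow₀ (by norm_num)
    obtain ⟨K', hK'U, hA, hB⟩ := srxiter_step γ a b (τ * (10 / 9) ^ (j + 1)) (by positivity) U
      (fun i w => by
        have hs : 0 ≤ τ * ∑ k, γ w k ^ 2 :=
          mul_nonneg hτ.le (Finset.sum_nonneg fun _ _ => sq_nonneg _)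
        have := mul_le_mul_of_nonneg_left hp hs
        nlinarith [ha i w]) h1
      (fun i hi x => by
        have := mul_le_mul_of_nonneg_left hq (sq_nonneg (b i x))
        nlinarith [h2 i hi x])
    obtain ⟨K, hKK', hC, hD⟩ := ih K' (fun w => by
        have h := hA w
        have e : 9 / 10 * (τ * (10 / 9) ^ (j + 1) * ∑ k, γ w k ^ 2) =
            τ * (10 / 9) ^ j * ∑ k, γ w k ^ 2 := by ring
        rwa [e] at h)
      (fun i hi x => by
        have h := h2 i (hK'U hi) x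
        have h' := hB x
        have e : (100 : ℝ) * 10 ^ (j + 1) * b i x ^ 2 = 10 * (100 * 10 ^ j * b i x ^ 2) := by ring
        rw [e] at h
        linarith)
    refine ⟨K, hKK'.trans hK'U, hC, fun x hx i hi => ?_⟩
    have h0 : ∑ f ∈ K', b f x ^ 2 = 0 :=
      Finset.sum_eq_zero fun f hf => by rw [hD x hx f hf]; simp
    have h3 := hB x
    rw [h0, mul_zero] at h3
    have h4 : b i x ^ 2 ≤ ∑ f ∈ U, b f x ^ 2 :=
      Finset.single_le_sum (f := fun f => b f x ^ 2) (fun _ _ => sq_nonneg _) hi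
    have h5 : b i x ^ 2 = 0 := le_antisymm (h4.trans h3) (sq_nonneg _)
    exact pow_eq_zero_iff (two_ne_zero) |>.1 h5

end Pool.Agent.P.MP_e59a69_co
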