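import Pool.Agent.P.MP_e59a69_co.SRSites
import Pool.Agent.P.MP_e59a69_co.SRDir
import Pool.Agent.P.MP_e59a69_co.SREnergy
import Pool.Agent.P.MP_e59a69_co.SRIter
import Pool.Agent.P.MP_e59a69_co.SRFlat

/-! Choice of the constants and assembly at the level of the two permutations. -/

open Finset

namespace Pool.Agent.P.MP_e59a69_co

section
variable {V κ : Type} [Fintype V] [DecidableEq V] [Fintype κ] {π μ : Equiv.Perm V}
  {G : (V → ℝ) →ₗ[ℝ] κ → ℝ}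

omit [Fintype V] [DecidableEq V] in
lemma Short.mono {η η' : ℝ} (h : Short π μ G η) (hη : η ≤ η') : Short π μ G η' := fun u => by
  obtain ⟨f, h1, h2⟩ := h u
  exact ⟨f, h1, by linarith⟩

omit [Fintype V] [DecidableEq V] in
lemma closed_zpow {X : Finset V} (hX : ∀ v, v ∈ X ↔ π v ∈ X) (t : ℤ) (v : V) :
    (π ^ t) v ∈ X ↔ v ∈ X := by
  induction t with
  | zero => simp
  | succ t ih => rw [← zp_succ, ← hX, ih]
  | pred t ih => rw [hX, zp_succ, sub_add_cancel, ih]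

lemma big_cut (hμ : ∀ v, μ (μ v) = v) (hG : IsGrad π μ G) {m lam : ℕ} (hm : 1 ≤ m)
    (hlam : 0 < lam)
    (hE : ∀ x y, (seg π m (μ x) y - seg π m x y) ^ 2 ≤ (lam : ℝ)⁻¹ * ∑ k, G y k ^ 2)
    (X : Finset V) (hX : ∀ v, v ∈ X ↔ π v ∈ X) (h : 0 < mc (qq π μ) X) : lam ≤ mc (qq π μ) X := by
  have e : mc (qq π μ) X = mc μ X := by
    unfold mc
    refine card_equiv (π ^ (-3 : ℤ)) fun v => ?_
    simp only [mem_filter, qq, Equiv.Perm.mul_apply, closed_zpow hX]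
  rw [e] at h ⊢
  obtain ⟨v, hv⟩ := card_pos.1 h
  obtain ⟨v1, v2⟩ := mem_filter.1 hv
  have a := hE v fun v => if v ∈ X then 1 else 0
  rw [seg_half hm X v fun t _ => by rw [← zpow_natCast, closed_zpow hX]; exact v1,
    seg_half' X (μ v) fun t _ => by rw [mem_compl, ← zpow_natCast, closed_zpow hX]; exact v2,
    dir_ind hμ hG] at a
  have f0 : fc π X = 0 := by
    rw [fc, card_eq_zero, filter_eq_empty_iff]
    exact fun v _ h => h (hX v)
  rw [f0, zero_add] at a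
  have l0 : (0 : ℝ) < lam := by exact_mod_cast hlam
  rw [inv_mul_eq_div, le_div_iff₀ l0] at a
  have : (lam : ℝ) ≤ mc μ X := by linarith
  exact_mod_cast this

lemma sr_select (hμ : ∀ v, μ (μ v) = v) (hG : IsGrad π μ G) (L j : ℕ)
    (hj : 96 * (2 * (L : ℝ) + (L + 13 : ℕ)) ^ 2 ≤ 1 / 2880 * (10 / 9) ^ j)
    (hE : ∀ w, Wd π μ (L + 13) w → ∀ x y,
      (seg π L (w x) y - seg π L x y) ^ 2 ≤ 1 / 13824000 * ∑ k, G y k ^ 2)
    (q : Equiv.Perm V) (U : Finset V) (γ : V → ℝ) (hγ : ∀ v, 0 < γ v)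
    (hU : ∀ x : V → ℝ, (∀ v, x (π v) = x v) → ∀ e ∈ U, (100 * 10 ^ j : ℕ) *
      (γ e * (x e - x (q e)) ^ 2) ≤ ∑ f ∈ U, γ f * (x f - x (q f)) ^ 2) :
    ∃ K ⊆ U, (∀ x : V → ℝ, (∀ v, x (π v) = x v) → (∀ e ∈ K, x e = x (q e)) →
        ∀ e ∈ U, x e = x (q e)) ∧
      ∀ y, 60 * ∑ k ∈ K, ∑ i, (seg π L (tw π μ L i k) y - seg π L k y) ^ 2 ≤ ∑ k, G y k ^ 2 := by
  let J := (Bool × Bool) × Fin 6 × Bool
  have hJ : (Fintype.card J : ℝ) = 48 := by simp [J]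
  let N : Submodule ℝ (V → ℝ) :=
    { carrier := {x | ∀ v, x (π v) = x v}
      add_mem' := fun ha hb v => by simp only [Pi.add_apply, ha v, hb v]
      zero_mem' := fun _ => rfl
      smul_mem' := fun c x ha v => by simp only [Pi.smul_apply, ha v] }
  let Γ : (J → V → ℝ) →ₗ[ℝ] J × κ → ℝ :=
    LinearMap.pi fun p => LinearMap.proj p.2 ∘ₗ G ∘ₗ LinearMap.proj p.1
  let a : V → (J → V → ℝ) →ₗ[ℝ] ℝ := fun p =>
    ∑ i, (seg π L (tw π μ L i p) - seg π L p) ∘ₗ LinearMap.proj i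
  let b : V → N →ₗ[ℝ] ℝ := fun p =>
    √(γ p) • ((LinearMap.proj p : (V → ℝ) →ₗ[ℝ] ℝ) -
      (LinearMap.proj (q p) : (V → ℝ) →ₗ[ℝ] ℝ)) ∘ₗ N.subtype
  have hΓ : ∀ Y, ∑ k, Γ Y k ^ 2 = ∑ i, ∑ k, G (Y i) k ^ 2 := fun Y => by
    rw [Fintype.sum_prod_type]; rfl
  have ha : ∀ p Y, a p Y = ∑ i, (seg π L (tw π μ L i p) (Y i) - seg π L p (Y i)) := fun p Y => by
    simp [a]
  have ha2 : ∀ p Y, a p Y ^ 2 ≤
      48 * ∑ i, (seg π L (tw π μ L i p) (Y i) - seg π L p (Y i)) ^ 2 := fun p Y => by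
    rw [ha, ← hJ, ← card_univ]
    exact sq_sum_le_card_mul_sum_sq
  have hb : ∀ p (x : N), b p x = √(γ p) * (x.1 p - x.1 (q p)) := fun p x => by simp [b]
  have hb2 : ∀ p (x : N), b p x ^ 2 = γ p * (x.1 p - x.1 (q p)) ^ 2 := fun p x => by
    rw [hb, mul_pow, Real.sq_sqrt (hγ p).le]
  have hD : ∀ y, 0 ≤ ∑ k, G y k ^ 2 := fun y => Finset.sum_nonneg fun _ _ => sq_nonneg _
  obtain ⟨K, k1, k2, k3⟩ := thin_span Γ a b (1 / 2880) (by norm_num) (fun p Y => by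
      have h1 := ha2 p Y
      have h2 := Finset.sum_le_sum fun i (_ : i ∈ univ) => hE _ (wd_tw L i) p (Y i)
      rw [← Finset.mul_sum] at h2
      rw [hΓ]
      linarith) j U (fun Y => by
      have h1 : ∑ p ∈ U, a p Y ^ 2 ≤ ∑ p, a p Y ^ 2 :=
        Finset.sum_le_sum_of_subset_of_nonneg (subset_univ _) fun _ _ _ => sq_nonneg _
      have h2 := Finset.sum_le_sum fun p (_ : p ∈ univ) => ha2 p Y
      rw [← Finset.mul_sum, Finset.sum_comm] at h2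
      have h3 := Finset.sum_le_sum fun i (_ : i ∈ univ) => seg_bessel hμ hG (wd_tw L i) L (Y i)
      rw [← Finset.mul_sum] at h3
      have h4 := mul_le_mul_of_nonneg_right hj
        (Finset.sum_nonneg fun i (_ : i ∈ univ) => hD (Y i))
      rw [hΓ]
      linarith) (fun e he x => by
      have := hU x.1 x.2 e he
      simp only [hb2]
      push_cast at this
      exact this)
  refine ⟨K, k1, fun x hx h e he => ?_, fun y => ?_⟩
  · have := k3 ⟨x, hx⟩ (fun i hi => by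
      rw [hb]; exact mul_eq_zero_of_right _ (sub_eq_zero.2 (h i hi))) e he
    rw [hb] at this
    exact sub_eq_zero.1 ((mul_eq_zero.1 this).resolve_left (Real.sqrt_pos.2 (hγ e)).ne')
  · have h1 : ∀ i : J, ∑ k ∈ K, (seg π L (tw π μ L i k) y - seg π L k y) ^ 2 ≤
        1 / 2880 * ∑ k, G y k ^ 2 := fun i => by
      have := k2 (Pi.single i y)
      rw [hΓ, Finset.sum_eq_single i (fun i' _ h => by simp [Pi.single_eq_of_ne h]) (by simp),
        Pi.single_eq_same] at this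
      refine le_trans (le_of_eq (Finset.sum_congr rfl fun k _ => ?_)) this
      rw [ha, Finset.sum_eq_single i (fun i' _ h => by simp [Pi.single_eq_of_ne h]) (by simp),
        Pi.single_eq_same]
    have h2 := Finset.sum_le_sum fun i (_ : i ∈ univ) => h1 i
    rw [Finset.sum_const, card_univ, nsmul_eq_mul, hJ, Finset.sum_comm] at h2
    linarith

end

theorem sr_core : ∃ (c : ℕ) (η : ℝ), 0 < η ∧ ∀ (V κ : Type) [Fintype V] [DecidableEq V]
    [Fintype κ] (π μ : Equiv.Perm V) (G : (V → ℝ) →ₗ[ℝ] κ → ℝ), Hy π μ c → IsGrad π μ G →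
    Short π μ G η → ∃ σ : V → ℤ, (∀ v, σ v = 1 ∨ σ v = -1) ∧ (∀ v, σ (μ v) = - σ v) ∧
      ∀ X : Finset V, 5 * ∑ v ∈ X, σ v ≤ (mc μ X + 6 * fc π X : ℕ) := by
  obtain ⟨L, hL2, hL⟩ : ∃ L : ℕ, 2 ≤ L ∧ (36 : ℝ) ≤ 1 / 13824000 * L :=
    ⟨497664000, by norm_num, by norm_num⟩
  obtain ⟨j, hj⟩ := pow_unbounded_of_one_lt
    (2880 * (96 * (2 * (L : ℝ) + (L + 13 : ℕ)) ^ 2)) (show (1 : ℝ) < 10 / 9 by norm_num)
  obtain ⟨lam, hlam⟩ : ∃ lam, lam = 2 * ((100 * 10 ^ j + 1) * ((24 * (2 * L + 1)) ^ 2 + 1)) + 2 :=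
    ⟨_, rfl⟩
  have l0 : 0 < lam := by omega
  have l1 : (0 : ℝ) < lam := by exact_mod_cast l0
  obtain ⟨c1, η1, p1, E1⟩ := energy (1 / 13824000) (by norm_num) L hL (L + 13)
  obtain ⟨c2, η2, p2, E2⟩ := energy (lam : ℝ)⁻¹ (by positivity) (36 * lam)
    (by push_cast; rw [mul_comm (36 : ℝ), ← mul_assoc, inv_mul_cancel₀ l1.ne', one_mul]) 1
  refine ⟨max (max c1 c2) (4 * L + 40), min η1 η2, lt_min p1 p2, ?_⟩
  intro V κ _ _ _ π μ G H hG hS
  classical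
  have e1 := E1 V κ π μ G (H.mono (by omega)) hG (hS.mono (min_le_left _ _))
  have e2 := E2 V κ π μ G (H.mono (by omega)) hG (hS.mono (min_le_right _ _)) μ wd_mu
  obtain ⟨U, γ, u1, u2, u3⟩ := exists_dense π (qq π μ) (qq_qq H.inv) (Conf π μ L)
    (fun x y ⟨a, a', h⟩ => ⟨a', a, fun h' => h h'.symm⟩) _ (100 * 10 ^ j) (fun x => conf_card L x)
    (fun X h1 h2 => hlam ▸ big_cut H.inv hG (by omega) l0 e2 X h1 h2)
  obtain ⟨K, k1, k2, k3⟩ := sr_select H.inv hG L j (by linarith) e1 (qq π μ) U γ u2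
    fun x hx => (u3 x hx).1
  exact sr_sites H hL2 (by omega) K (fun k hk k' hk' => u1 k (k1 hk) k' (k1 hk'))
    (fun x hx h => (u3 x hx).2 (k2 x hx h)) fun X => by rw [← dir_ind H.inv hG]; exact k3 _

end Pool.Agent.P.MP_e59a69_co
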