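import Pool.Agent.P.MP_e59a69_co.SRWalk

/-! Truncated Green functions and the spheres of neighbouring vertices. -/

open Finset

namespace Pool.Agent.P.MP_e59a69_co

variable {V κ : Type} [Fintype V] [DecidableEq V] [Fintype κ] {π μ : Equiv.Perm V}
  {G : (V → ℝ) →ₗ[ℝ] κ → ℝ} {r : ℕ} {d : V → V → ℕ}

/-- truncated Green function -/
noncomputable def grn (r : ℕ) (d : V → V → ℕ) (x y : V) : ℝ :=
  2 / 3 * ((1 / 2) ^ d x y - (1 / 2) ^ r)

/-- the measure on the sphere -/
noncomputable def rho (π μ : Equiv.Perm V) (r : ℕ) (d : V → V → ℕ) (x y : V) : ℝ :=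
  (if y = x then 1 else 0) - Lap π μ (grn r d x) y

omit [Fintype V] [DecidableEq V] in
lemma srxgreen_nonneg (D : IsDist π μ r d) (x y : V) : 0 ≤ grn r d x y := by
  have h : ((1 : ℝ) / 2) ^ r ≤ (1 / 2) ^ d x y :=
    pow_le_pow_of_le_one (by norm_num) (by norm_num) (D.le x y)
  unfold grn
  linarith

omit [Fintype V] [DecidableEq V] in
lemma srxgreen_self (D : IsDist π μ r d) (x : V) : Lap π μ (grn r d x) x = 1 := by
  simp only [Lap, grn, D.self, D.root, Fin.sum_univ_three]
  ring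

omit [Fintype V] [DecidableEq V] in
lemma srxgreen_mid (D : IsDist π μ r d) (x y : V) (h0 : 0 < d x y) (h1 : d x y < r) :
    Lap π μ (grn r d x) y = 0 := by
  obtain ⟨l0, a, b⟩ := D.tree x y h0 h1
  have e : ((1 : ℝ) / 2) ^ d x (Lt π μ l0 y) = 2 * (1 / 2) ^ d x y := by
    rw [← a, pow_succ]; ring
  have e' : ∀ l, l ≠ l0 → ((1 : ℝ) / 2) ^ d x (Lt π μ l y) = (1 / 2) ^ d x y / 2 := fun l hl => by
    rw [b l hl, pow_succ]; ring
  unfold Lap
  rw [← add_sum_erase _ _ (mem_univ l0), sum_congr rfl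
    (g := fun _ => (1 / 3 : ℝ) * (1 / 2) ^ d x y) (fun l hl => by
      simp only [grn]; rw [e' l (ne_of_mem_erase hl)]; ring), sum_const,
    card_erase_of_mem (mem_univ _), card_univ, Fintype.card_fin]
  simp only [grn]
  rw [e, nsmul_eq_mul]
  push_cast
  ring

omit [Fintype V] [DecidableEq V] in
lemma srxgreen_top (D : IsDist π μ r d) (x y : V) (h : d x y = r) :
    Lap π μ (grn r d x) y ≤ 0 := by
  refine sum_nonpos fun l _ => ?_
  have a := srxgreen_nonneg D x (Lt π μ l y)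
  have b : grn r d x y = 0 := by simp only [grn, h]; ring
  linarith

omit [Fintype V] in
lemma rho_nonneg (D : IsDist π μ r d) (x y : V) : 0 ≤ rho π μ r d x y := by
  unfold rho
  split_ifs with h
  · rw [h, srxgreen_self D]; norm_num
  · have h0 : 0 < d x y := Nat.pos_of_ne_zero fun e => h (D.zero x y e)
    rcases (D.le x y).eq_or_lt with e | e
    · linarith [srxgreen_top D x y e]
    · rw [srxgreen_mid D x y h0 e]; norm_num

omit [Fintype V] in
lemma rho_supp (D : IsDist π μ r d) (x y : V) (h : d x y ≠ r) : rho π μ r d x y = 0 := by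
  unfold rho
  split_ifs with h'
  · rw [h', srxgreen_self D]; norm_num
  · have h0 : 0 < d x y := Nat.pos_of_ne_zero fun e => h' (D.zero x y e)
    rw [srxgreen_mid D x y h0 (lt_of_le_of_ne (D.le x y) h)]; norm_num

lemma rho_sum (x : V) : ∑ y, rho π μ r d x y = 1 := by
  have a : ∑ y, Lap π μ (grn r d x) y = 0 := by
    unfold Lap
    rw [sum_comm]
    refine sum_eq_zero fun l _ => ?_
    rw [sum_sub_distrib, Equiv.sum_comp (Lt π μ l) (grn r d x), sub_self]
  simp only [rho]
  rw [sum_sub_distrib, a]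
  simp

lemma srxgreen_pair (x : V) (y : V → ℝ) :
    ∑ z, y z * Lap π μ (grn r d x) z = y x - ∑ z, rho π μ r d x z * y z := by
  have a : ∀ z, y z * Lap π μ (grn r d x) z =
      (if z = x then y z else 0) - rho π μ r d x z * y z := fun z => by
    unfold rho
    split_ifs <;> ring
  simp only [a]
  rw [sum_sub_distrib]
  simp

lemma srxgreen_diff (hG : IsGrad π μ G) (u v : V) (y : V → ℝ) :
    ∑ k, G y k * G (grn r d u - grn r d v) k =
      y u - y v - (∑ z, rho π μ r d u z * y z - ∑ z, rho π μ r d v z * y z) := by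
  have a := hG y (grn r d u)
  have b := hG y (grn r d v)
  rw [srxgreen_pair] at a b
  simp only [map_sub, Pi.sub_apply, mul_sub]
  rw [sum_sub_distrib, a, b]
  ring

lemma srxgreen_far (D : IsDist π μ r d) (u : V) (l : Fin 3) :
    ∑ z, rho π μ r d u z * grn r d (Lt π μ l u) z ≤ 2 / 3 * (1 / 2) ^ r := by
  have a : ∀ z, rho π μ r d u z * grn r d (Lt π μ l u) z ≤
      rho π μ r d u z * (2 / 3 * (1 / 2) ^ r) := fun z => by
    by_cases h : d u z = r
    · refine mul_le_mul_of_nonneg_left ?_ (rho_nonneg D u z)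
      have h1 : r ≤ d (Lt π μ l u) z + 1 := h ▸ D.base u z l
      have h2 : ((1 : ℝ) / 2) ^ (d (Lt π μ l u) z + 1) ≤ (1 / 2) ^ r :=
        pow_le_pow_of_le_one (by norm_num) (by norm_num) h1
      rw [pow_succ] at h2
      unfold grn
      linarith
    · rw [rho_supp D u z h, zero_mul, zero_mul]
  refine (sum_le_sum fun z _ => a z).trans ?_
  rw [← sum_mul, rho_sum, one_mul]

lemma srxgreen_energy (hμ : ∀ v, μ (μ v) = v) (hG : IsGrad π μ G) (D : IsDist π μ r d) (u : V)
    (l : Fin 3) (f : κ → ℝ) (hf : ∀ y, ∑ k, f k * G y k = y u - y (Lt π μ l u)) :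
    ∑ k, (f k - G (grn r d u - grn r d (Lt π μ l u)) k) ^ 2 ≤
      ∑ k, f k ^ 2 - 2 / 3 + 4 / 3 * (1 / 2) ^ r := by
  have f1 := srxgreen_far D u l
  have f2 := srxgreen_far D (Lt π μ l u) (iv l)
  have d1 := D.root u l
  have d2 := D.root (Lt π μ l u) (iv l)
  rw [Lt_iv hμ] at f2 d2
  generalize Lt π μ l u = v at *
  have n : ∀ x, 0 ≤ ∑ z, rho π μ r d x z * grn r d x z := fun x =>
    sum_nonneg fun z _ => mul_nonneg (rho_nonneg D x z) (srxgreen_nonneg D x z)
  have a := hf (grn r d u - grn r d v)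
  have b := srxgreen_diff (r := r) (d := d) hG u v (grn r d u - grn r d v)
  have c : (grn r d u - grn r d v) u - (grn r d u - grn r d v) v = 2 / 3 := by
    simp only [Pi.sub_apply, grn, D.self, d1, d2]
    ring
  have s : ∀ x, ∑ z, rho π μ r d x z * (grn r d u - grn r d v) z =
      ∑ z, rho π μ r d x z * grn r d u z - ∑ z, rho π μ r d x z * grn r d v z := fun x => by
    simp only [Pi.sub_apply, mul_sub]
    rw [sum_sub_distrib]
  rw [c] at a b
  rw [s, s] at b
  generalize G (grn r d u - grn r d v) = g at *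
  have e : ∑ k, (f k - g k) ^ 2 = ∑ k, f k ^ 2 - 2 * ∑ k, f k * g k + ∑ k, g k * g k := by
    rw [mul_sum, ← sum_sub_distrib, ← sum_add_distrib]
    exact sum_congr rfl fun k _ => by ring
  rw [e, a, b]
  linarith [n u, n v]

/-- spheres of neighbours are close in energy -/
lemma rho_step (hμ : ∀ v, μ (μ v) = v) (hG : IsGrad π μ G) (D : IsDist π μ r d) {η : ℝ}
    (hS : Short π μ G η) (u : V) (l : Fin 3) (y : V → ℝ) :
    (∑ z, rho π μ r d u z * y z - ∑ z, rho π μ r d (Lt π μ l u) z * y z) ^ 2 ≤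
      (η + 4 * (1 / 2) ^ r) * ∑ k, G y k ^ 2 := by
  obtain ⟨f, hf, hs⟩ := hS u
  have a : ∑ l', ∑ k, (f l' k - G (grn r d u - grn r d (Lt π μ l' u)) k) ^ 2 ≤
      η + 4 * (1 / 2) ^ r := by
    have h0 := srxgreen_energy hμ hG D u 0 (f 0) (hf 0)
    have h1 := srxgreen_energy hμ hG D u 1 (f 1) (hf 1)
    have h2 := srxgreen_energy hμ hG D u 2 (f 2) (hf 2)
    rw [Fin.sum_univ_three] at hs ⊢
    linarith
  have b : ∑ k, (f l k - G (grn r d u - grn r d (Lt π μ l u)) k) ^ 2 ≤ η + 4 * (1 / 2) ^ r :=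
    (single_le_sum (f := fun l' => ∑ k, (f l' k - G (grn r d u - grn r d (Lt π μ l' u)) k) ^ 2)
      (fun _ _ => sum_nonneg fun _ _ => sq_nonneg _) (mem_univ l)).trans a
  have c : ∑ z, rho π μ r d u z * y z - ∑ z, rho π μ r d (Lt π μ l u) z * y z =
      ∑ k, (f l k - G (grn r d u - grn r d (Lt π μ l u)) k) * G y k := by
    have e := srxgreen_diff (r := r) (d := d) hG u (Lt π μ l u) y
    simp only [sub_mul]
    rw [sum_sub_distrib, hf l y, sum_congr rfl fun k _ => mul_comm _ (G y k), e]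
    ring
  rw [c]
  exact (sum_mul_sq_le_sq_mul_sq _ _ _).trans
    (mul_le_mul_of_nonneg_right b (sum_nonneg fun _ _ => sq_nonneg _))

end Pool.Agent.P.MP_e59a69_co
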