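import Mathlib

/-! Independent sets of vectors without conflicts (Haxell's argument for a linear matroid). -/

open Finset

namespace Pool.Agent.P.MP_e59a69_co

lemma span_exchange {ι W : Type} [DecidableEq ι] [AddCommGroup W] [Module ℝ W] (a : ι → W)
    {I S S' : Finset ι} (hI : LinearIndepOn ℝ a (I : Set ι)) (h1 : S ⊆ S') (h2 : S' ⊆ I) {z : W}
    (h3 : z ∈ Submodule.span ℝ (a '' (S' : Set ι))) (h4 : z ∉ Submodule.span ℝ (a '' (S : Set ι))) :
    ∃ y ∈ S', y ∉ S ∧ z ∉ Submodule.span ℝ (a '' (I.erase y : Set ι)) := by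
  obtain ⟨c, hc⟩ := (Submodule.mem_span_image_finset_iff_exists_fun' ℝ).1 h3
  by_contra hn
  push Not at hn
  refine h4 ?_
  have h0 : ∀ y ∈ S', y ∉ S → c y = 0 := by
    intro y hy hyS
    by_contra hcy
    have hz := hn y hy hyS
    rw [coe_erase] at hz
    refine hI.notMem_span (mem_coe.2 (h2 hy)) ?_
    have e : c y • a y = z - ∑ i ∈ S'.erase y, c i • a i := by
      rw [← hc, ← add_sum_erase _ _ hy, add_sub_cancel_right]
    have hm : c y • a y ∈ Submodule.span ℝ (a '' ((I : Set ι) \ {y})) := by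
      rw [e]
      refine sub_mem hz (sum_mem fun i hi => Submodule.smul_mem _ _ (Submodule.subset_span ?_))
      exact ⟨i, ⟨mem_coe.2 (h2 (mem_of_mem_erase hi)), ne_of_mem_erase hi⟩, rfl⟩
    exact (Submodule.smul_mem_iff _ hcy).1 hm
  rw [← hc, ← sum_subset h1 fun y hy hyS => by rw [h0 y hy hyS, zero_smul]]
  exact sum_mem fun i hi => Submodule.smul_mem _ _ (Submodule.subset_span ⟨i, hi, rfl⟩)

section
variable {ι W : Type} [DecidableEq ι] [AddCommGroup W] [Module ℝ W]

/-- the span of a finite subfamily -/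
def srxSp (a : ι → W) (S : Finset ι) : Submodule ℝ W := Submodule.span ℝ (a '' (S : Set ι))

/-- independent and free of conflicts -/
def srxGood (a : ι → W) (R : ι → ι → Prop) (I : Finset ι) : Prop :=
  LinearIndepOn ℝ a (I : Set ι) ∧ ∀ x ∈ I, ∀ y ∈ I, x ≠ y → ¬ R x y

/-- a modification outside `B` -/
def srxMod (a : ι → W) (R : ι → ι → Prop) (I B Xs I' : Finset ι) : Prop :=
  srxGood a R I' ∧ #I' = #I ∧ B ⊆ I' ∧ srxSp a (I' \ B) = srxSp a (I \ B) ∧
    ∀ y ∈ I', y ∉ I → ∀ x ∈ Xs, ¬ R x y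

omit [DecidableEq ι] in
lemma srxhax_mem (a : ι → W) {S : Finset ι} {x : ι} (h : x ∈ S) : a x ∈ srxSp a S :=
  Submodule.subset_span ⟨x, h, rfl⟩

omit [DecidableEq ι] in
lemma srxhax_mono (a : ι → W) {S T : Finset ι} (h : S ⊆ T) : srxSp a S ≤ srxSp a T :=
  Submodule.span_mono (Set.image_mono (coe_subset.2 h))

omit [DecidableEq ι] in
lemma srxhax_le (a : ι → W) {S : Finset ι} {U : Submodule ℝ W} (h : ∀ x ∈ S, a x ∈ U) :
    srxSp a S ≤ U :=
  Submodule.span_le.2 (by rintro _ ⟨x, hx, rfl⟩; exact h x hx)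

lemma srxhax_union (a : ι → W) (S T : Finset ι) : srxSp a (S ∪ T) = srxSp a S ⊔ srxSp a T := by
  unfold srxSp
  rw [coe_union, Set.image_union, Submodule.span_union]

lemma srxhax_insert {a : ι → W} {R : ι → ι → Prop} (hR : ∀ x y, R x y → R y x) {I : Finset ι}
    (h : srxGood a R I) {z : ι} (hz : a z ∉ srxSp a I) (hr : ∀ y ∈ I, ¬ R z y) :
    srxGood a R (insert z I) ∧ #(insert z I) = #I + 1 := by
  refine ⟨⟨?_, fun x hx y hy hne => ?_⟩, card_insert_of_notMem fun hm => hz (srxhax_mem a hm)⟩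
  · rw [coe_insert]
    exact h.1.insert hz
  · rcases mem_insert.1 hx with rfl | hx'
    · rcases mem_insert.1 hy with rfl | hy'
      · exact absurd rfl hne
      · exact hr y hy'
    · rcases mem_insert.1 hy with rfl | hy'
      · exact fun e => hr x hx' (hR _ _ e)
      · exact h.2 x hx' y hy' hne

lemma srxhax_claim (a : ι → W) (R : ι → ι → Prop) [DecidableRel R] (hR : ∀ x y, R x y → R y x)
    (n : ℕ) (hex : ∀ I B Xs : Finset ι, #I < n → B ⊆ I → #Xs ≤ #B →
      ∃ x, a x ∉ srxSp a (I \ B) ∧ x ∉ B ∧ (∀ w ∈ Xs, ¬ R w x) ∧ ∀ w ∈ B, ¬ R w x) (k : ℕ) :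
    ∀ I B Xs : Finset ι, #I - #B = k → #I < n → srxGood a R I → B ⊆ I → #Xs ≤ #B →
      ∃ I' x, srxMod a R I B Xs I' ∧ a x ∉ srxSp a (I \ B) ∧ x ∉ B ∧ (∀ w ∈ Xs, ¬ R w x) ∧
        ∀ y ∈ I', ¬ R x y := by
  induction k using Nat.strong_induction_on with
  | _ k ih =>
  intro I B Xs hk hn hI hB hX
  obtain ⟨x, x1, x2, x3, x4⟩ := hex I B Xs hn hB hX
  suffices H : ∀ t I', srxMod a R I B Xs I' → #{y ∈ I' | R x y} ≤ t →
      ∃ I' x, srxMod a R I B Xs I' ∧ a x ∉ srxSp a (I \ B) ∧ x ∉ B ∧ (∀ w ∈ Xs, ¬ R w x) ∧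
        ∀ y ∈ I', ¬ R x y from
    H _ I ⟨hI, rfl, hB, rfl, fun y h h' => absurd h h'⟩ le_rfl
  intro t
  induction t with
  | zero =>
    intro I' hM ht
    refine ⟨I', x, hM, x1, x2, x3, fun y hy hr => ?_⟩
    exact absurd (card_pos.2 ⟨y, mem_filter.2 ⟨hy, hr⟩⟩) (not_lt.2 ht)
  | succ t iht =>
    intro I' hM ht
    set N := {y ∈ I' | R x y} with hN
    rcases N.eq_empty_or_nonempty with h0 | h0
    · exact iht I' hM (by rw [← hN, h0]; simp)
    obtain ⟨m1, m2, m3, m4, m5⟩ := hM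
    have hd : Disjoint B N := disjoint_left.2 fun w hw hw' => x4 w hw (hR _ _ (mem_filter.1 hw').2)
    have hc : #(B ∪ N) = #B + #N := card_union_of_disjoint hd
    have hpos := card_pos.2 h0
    have hsub : B ∪ N ⊆ I' := union_subset m3 (filter_subset _ _)
    have hle := card_le_card hsub
    obtain ⟨J, z, ⟨j1, j2, j3, j4, j5⟩, z1, z2, z3, z4⟩ := ih (#I' - #(B ∪ N)) (by omega) I' (B ∪ N)
      (insert x Xs) rfl (by omega) m1 hsub ((card_insert_le _ _).trans (by omega))
    have split : ∀ T : Finset ι, B ∪ N ⊆ T → T \ B = T \ (B ∪ N) ∪ N := by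
      intro T hT
      ext w
      simp only [mem_sdiff, mem_union]
      constructor
      · tauto
      · rintro (h | h)
        · tauto
        · exact ⟨hT (mem_union_right _ h), fun hb => disjoint_left.1 hd hb h⟩
    have hsp : srxSp a (J \ B) = srxSp a (I \ B) := by
      rw [← m4, split J j3, split I' hsub, srxhax_union, srxhax_union, j4]
    have hnew : ∀ y ∈ J, y ∉ I → ∀ w ∈ Xs, ¬ R w y := fun y hy hyI w hw => by
      by_cases h : y ∈ I'
      · exact m5 y h hyI w hw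
      · exact j5 y hy h w (mem_insert_of_mem hw)
    have hBJ : B ⊆ J := subset_union_left.trans j3
    have zB : z ∉ B := fun h => z2 (mem_union_left _ h)
    by_cases hz : a z ∈ srxSp a (I \ B)
    swap
    · exact ⟨J, z, ⟨j1, j2.trans m2, hBJ, hsp, hnew⟩, hz, zB,
        fun w hw => z3 w (mem_insert_of_mem hw), z4⟩
    rw [← hsp] at hz
    rw [← j4] at z1
    obtain ⟨y, y1, y2, y3⟩ := span_exchange a j1.1
      (sdiff_subset_sdiff Subset.rfl subset_union_left) sdiff_subset hz z1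
    have yJ := (mem_sdiff.1 y1).1
    have yB := (mem_sdiff.1 y1).2
    have yN : y ∈ N := by
      by_contra h
      exact y2 (mem_sdiff.2 ⟨yJ, fun h' => (mem_union.1 h').elim yB h⟩)
    have g0 : srxGood a R (J.erase y) :=
      ⟨j1.1.mono (coe_subset.2 (erase_subset _ _)), fun u hu v hv =>
        j1.2 u (mem_of_mem_erase hu) v (mem_of_mem_erase hv)⟩
    obtain ⟨g1, g2⟩ := srxhax_insert hR g0 y3 fun w hw => z4 w (mem_of_mem_erase hw)
    have hJpos := card_pos.2 ⟨y, yJ⟩
    rw [card_erase_of_mem yJ] at g2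
    refine iht (insert z (J.erase y)) ⟨g1, by omega,
      fun b hb => mem_insert_of_mem (mem_erase.2 ⟨fun e => yB (e ▸ hb), hBJ hb⟩), ?_,
      fun w hw hwI u hu => ?_⟩ ?_
    · rw [← hsp]
      refine le_antisymm (srxhax_le a fun w hw => ?_) (srxhax_le a fun w hw => ?_)
      · obtain ⟨w1, w2⟩ := mem_sdiff.1 hw
        rcases mem_insert.1 w1 with rfl | w3
        · exact hz
        · exact srxhax_mem a (mem_sdiff.2 ⟨mem_of_mem_erase w3, w2⟩)
      · by_cases e : w = y
        · subst e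
          have e1 : a z ∈ Submodule.span ℝ (insert (a w) (a '' ((J \ B).erase w : Set ι))) := by
            rw [← Set.image_insert_eq, ← coe_insert, insert_erase hw]
            exact hz
          have e2 := mem_span_insert_exchange e1 fun h =>
            y3 (srxhax_mono a (erase_subset_erase _ sdiff_subset) h)
          rw [← Set.image_insert_eq, ← coe_insert] at e2
          refine srxhax_mono a (fun u hu => ?_) e2
          rcases mem_insert.1 hu with rfl | hu'
          · exact mem_sdiff.2 ⟨mem_insert_self _ _, zB⟩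
          · obtain ⟨u1, u2⟩ := mem_erase.1 hu'
            exact mem_sdiff.2 ⟨mem_insert_of_mem (mem_erase.2 ⟨u1, (mem_sdiff.1 u2).1⟩),
              (mem_sdiff.1 u2).2⟩
        · exact srxhax_mem a (mem_sdiff.2 ⟨mem_insert_of_mem (mem_erase.2 ⟨e, (mem_sdiff.1 hw).1⟩),
            (mem_sdiff.1 hw).2⟩)
    · rcases mem_insert.1 hw with rfl | hw'
      · exact z3 u (mem_insert_of_mem hu)
      · exact hnew w (mem_of_mem_erase hw') hwI u hu
    · have : {w ∈ insert z (J.erase y) | R x w} ⊆ N.erase y := by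
        intro w hw
        obtain ⟨w1, w2⟩ := mem_filter.1 hw
        rcases mem_insert.1 w1 with rfl | w3
        · exact absurd w2 (z3 x (mem_insert_self _ _))
        · refine mem_erase.2 ⟨ne_of_mem_erase w3, mem_filter.2 ⟨?_, w2⟩⟩
          by_contra h
          exact j5 w (mem_of_mem_erase w3) h x (mem_insert_self _ _) w2
      have h1 := card_le_card this
      rw [card_erase_of_mem yN] at h1
      omega

end

theorem haxell_span {ι W : Type} [Fintype ι] [DecidableEq ι] [AddCommGroup W] [Module ℝ W]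
    (a : ι → W) (R : ι → ι → Prop) [DecidableRel R] (hR : ∀ x y, R x y → R y x) (Δ n : ℕ)
    (hΔ : ∀ x, #{y | R x y} ≤ Δ)
    [∀ S : Finset ι, DecidablePred fun x => a x ∉ Submodule.span ℝ (a '' (S : Set ι))]
    (hflat : ∀ S : Finset ι,
      (2 * Δ + 2) * (n - #S) ≤ #{x | a x ∉ Submodule.span ℝ (a '' (S : Set ι))}) :
    ∃ I : Finset ι, #I = n ∧ LinearIndepOn ℝ a (I : Set ι) ∧
      ∀ x ∈ I, ∀ y ∈ I, x ≠ y → ¬ R x y := by
  have hex : ∀ I B Xs : Finset ι, #I < n → B ⊆ I → #Xs ≤ #B →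
      ∃ x, a x ∉ srxSp a (I \ B) ∧ x ∉ B ∧ (∀ w ∈ Xs, ¬ R w x) ∧ ∀ w ∈ B, ¬ R w x := by
    intro I B Xs hn hB hX
    have h1 := hflat (I \ B)
    have h2 : #(B ∪ (Xs ∪ B).biUnion fun w => {y | R w y}) ≤ #B + (#B + #B) * Δ := by
      refine (card_union_le _ _).trans (Nat.add_le_add_left ?_ _)
      refine (card_biUnion_le_card_mul _ _ Δ fun w _ => hΔ w).trans (Nat.mul_le_mul_right _ ?_)
      exact (card_union_le _ _).trans (by omega)
    have h3 : #B + 1 ≤ n - #(I \ B) := by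
      rw [card_sdiff_of_subset hB]
      have := card_le_card hB
      omega
    have h4 := (Nat.mul_le_mul_left (2 * Δ + 2) h3).trans h1
    obtain ⟨x, x1, x2⟩ := exists_mem_notMem_of_card_lt_card (h2.trans_lt (lt_of_lt_of_le
      (by nlinarith) h4))
    refine ⟨x, (mem_filter.1 x1).2, fun h => x2 (mem_union_left _ h), fun w hw hr => ?_,
      fun w hw hr => ?_⟩
    · exact x2 (mem_union_right _ (mem_biUnion.2 ⟨w, mem_union_left _ hw, by simpa using hr⟩))
    · exact x2 (mem_union_right _ (mem_biUnion.2 ⟨w, mem_union_right _ hw, by simpa using hr⟩))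
  have key : ∀ m, m ≤ n → ∃ I : Finset ι, #I = m ∧ srxGood a R I := by
    intro m
    induction m with
    | zero => exact fun _ => ⟨∅, rfl, by simp, by simp⟩
    | succ m ih =>
      intro hm
      obtain ⟨I, h1, h2⟩ := ih (by omega)
      obtain ⟨I', x, ⟨m1, m2, -, m4, -⟩, x1, -, -, x4⟩ :=
        srxhax_claim a R hR n hex _ I ∅ ∅ rfl (by omega) h2 (empty_subset _) le_rfl
      rw [← m4, sdiff_empty] at x1
      obtain ⟨g1, g2⟩ := srxhax_insert hR m1 x1 x4
      exact ⟨_, by omega, g1⟩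
  exact key n le_rfl

end Pool.Agent.P.MP_e59a69_co
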