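import Pool.Agent.P.MP_e59a69_co.Perms

/-! Local analysis under a girth hypothesis only. -/

open Finset

namespace Pool.Agent.P.MP_e59a69_co

variable {V : Type} [Fintype V] [DecidableEq V]

/-- girth hypothesis for the pair (successor on the 2-factor, mate) -/
structure Hy (π μ : Equiv.Perm V) (c : ℕ) : Prop where
  inv : ∀ v, μ (μ v) = v
  ne : ∀ v, μ v ≠ v
  len : ∀ v (t : ℤ), t ≠ 0 → |t| < c → (π ^ t) v ≠ v
  small : ∀ {X : Finset V}, X.Nonempty → #X + 2 ≤ c → #X + 2 ≤ fc π X + mc μ X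

/-- base point of one of the twelve half segments -/
def hbase (π μ : Equiv.Perm V) (L : ℕ) (i : Fin 6 × Bool) : Equiv.Perm V :=
  π ^ (if i.2 then (0 : ℤ) else -(L + 1)) * Cen π μ ((i.1 : ℕ) - 2)

/-- one of the twelve half segments at `s` lies in `X` -/
def Half (π μ : Equiv.Perm V) (L : ℕ) (X : Finset V) (s : V) : Prop :=
  ∃ i : Fin 6 × Bool, ∀ t : ℕ, t < L → (π ^ (t + 1)) (hbase π μ L i s) ∈ X

variable {π μ : Equiv.Perm V} {c : ℕ}

lemma Hy.mono (H : Hy π μ c) {c' : ℕ} (h : c' ≤ c) : Hy π μ c' :=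
  ⟨H.inv, H.ne, fun v t h1 h2 => H.len v t h1 (by omega), fun h1 h2 => H.small h1 (by omega)⟩

lemma Hy.inj (H : Hy π μ c) (x : V) {s t : ℤ} (h : |s - t| < c) (e : (π ^ s) x = (π ^ t) x) :
    s = t := by
  by_contra hne
  apply H.len ((π ^ t) x) (s - t) (sub_ne_zero.2 hne) h
  rw [zp_add, sub_add_cancel, e]

lemma Hy.card_Iv (H : Hy π μ c) (x : V) {a b : ℤ} (h : b - a < c) :
    #(Iv π x a b) = (b + 1 - a).toNat := by
  unfold Iv
  rw [card_image_of_injOn]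
  · simp
  · intro s hs t ht e
    simp only [coe_Icc, Set.mem_Icc] at hs ht
    exact H.inj x (abs_lt.2 ⟨by omega, by omega⟩) e

lemma Hy.g1 (H : Hy π μ c) (v : V) {t : ℤ} (h : |t| + 3 ≤ c) : μ v ≠ (π ^ t) v := by
  intro e
  have h0 := abs_nonneg t
  have h1 := le_abs_self t
  have h2 := neg_abs_le t
  let Z := Iv π v (min 0 t) (max 0 t)
  have hv : v ∈ Z := mem_Iv.2 ⟨0, by omega, by omega, by simp⟩
  have hm : μ v ∈ Z := mem_Iv.2 ⟨t, by omega, by omega, e.symm⟩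
  have c1 : #Z ≤ _ := card_Iv_le π v (min 0 t) (max 0 t)
  have c2 := H.small ⟨v, hv⟩ (by omega)
  have c3 : fc π Z ≤ 2 := fc_Iv _ _ _ _
  have c4 := mc_le μ (Z := Z) (T := {v, μ v}) (by simp [insert_subset_iff, hv, hm])
    (by simp [hv, hm, H.inv])
  rw [card_pair (H.ne v).symm] at c4
  omega

lemma Hy.g2 (H : Hy π μ c) (v : V) {k t : ℤ} (hk : k ≠ 0) (h : |k| + |t| + 4 ≤ c) :
    μ ((π ^ k) v) ≠ (π ^ t) (μ v) := by
  intro e
  have h0 := abs_nonneg t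
  have h1 := le_abs_self t
  have h2 := neg_abs_le t
  have k0 := abs_nonneg k
  have k1 := le_abs_self k
  have k2 := neg_abs_le k
  let Z := Iv π v (min 0 k) (max 0 k) ∪ Iv π (μ v) (min 0 t) (max 0 t)
  have m1 : v ∈ Z := mem_union_left _ (mem_Iv.2 ⟨0, by omega, by omega, by simp⟩)
  have m2 : (π ^ k) v ∈ Z := mem_union_left _ (mem_Iv.2 ⟨k, by omega, by omega, rfl⟩)
  have m3 : μ v ∈ Z := mem_union_right _ (mem_Iv.2 ⟨0, by omega, by omega, by simp⟩)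
  have m4 : μ ((π ^ k) v) ∈ Z := mem_union_right _ (mem_Iv.2 ⟨t, by omega, by omega, e.symm⟩)
  have c0 : #Z ≤ _ := card_union_le _ _
  have c1 := card_Iv_le π v (min 0 k) (max 0 k)
  have c1' := card_Iv_le π (μ v) (min 0 t) (max 0 t)
  have c2 := H.small ⟨v, m1⟩ (by omega)
  have c3 : fc π Z ≤ _ := fc_union _ _ _
  have c5 := fc_Iv π v (min 0 k) (max 0 k)
  have c6 := fc_Iv π (μ v) (min 0 t) (max 0 t)
  have c4 := mc_le μ (Z := Z) (T := {v, (π ^ k) v, μ v, μ ((π ^ k) v)})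
    (by simp [insert_subset_iff, m1, m2, m3, m4]) (by simp [m1, m2, m3, m4, H.inv])
  have d1 : v ≠ (π ^ k) v := (H.len v k hk (by omega)).symm
  have d2 : v ≠ μ v := (H.ne v).symm
  have d3 : v ≠ μ ((π ^ k) v) := by
    intro e2
    apply H.g1 ((π ^ k) v) (t := -k) (by rw [abs_neg]; omega)
    rw [← e2, zp_add]; simp
  have d4 : (π ^ k) v ≠ μ v := (H.g1 v (by omega)).symm
  have d5 : (π ^ k) v ≠ μ ((π ^ k) v) := (H.ne _).symm
  have d6 : μ v ≠ μ ((π ^ k) v) := fun e2 => d1 (μ.injective e2)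
  rw [card_insert_of_notMem (by simp [d1, d2, d3]), card_insert_of_notMem (by simp [d4, d5]),
    card_pair d6] at c4
  omega

lemma Hy.disj (H : Hy π μ c) {L : ℕ} (hL : 2 * L + 10 ≤ c) (s : V) :
    ((Icc (-2 : ℤ) 3 : Finset ℤ) : Set ℤ).PairwiseDisjoint
      fun j => Iv π (Cen π μ j s) (-L) L := by
  have key : ∀ j k : ℤ, -2 ≤ j → j ≤ 3 → -2 ≤ k → k < 3 → j ≠ k → ∀ t t' : ℤ, -L ≤ t → t ≤ L →
      -L ≤ t' → t' ≤ L → (π ^ t) (Cen π μ j s) ≠ (π ^ t') (Cen π μ k s) := by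
    intro j k j1 j2 k1 k2 hjk t t' t1 t2 t3 t4 e
    rw [Cen_ne _ _ k2.ne] at e
    have e2 : μ ((π ^ k) s) = (π ^ (t - t')) (Cen π μ j s) := by
      apply (π ^ t').injective
      rw [← e, zp_add]; congr 2; ring
    by_cases h3 : j = 3
    · subst h3
      rw [Cen_three] at e2
      apply H.g1 ((π ^ k) s) (t := t - t' - k) (by
        have : |t - t' - k| ≤ 2 * L + 2 := abs_le.2 ⟨by omega, by omega⟩
        omega)
      rw [e2, zp_add]; congr 2; ring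
    · rw [Cen_ne _ _ h3] at e2
      apply H.g2 ((π ^ j) s) (k := k - j) (t := t - t') (by omega) (by
        have : |t - t'| ≤ 2 * L := abs_le.2 ⟨by omega, by omega⟩
        have : |k - j| ≤ 4 := abs_le.2 ⟨by omega, by omega⟩
        omega)
      rw [← e2, zp_add]; congr 3; ring
  intro j hj k hk hjk
  simp only [coe_Icc, Set.mem_Icc] at hj hk
  rw [Function.onFun, Finset.disjoint_left]
  intro v h1 h2
  obtain ⟨t, t1, t2, e1⟩ := mem_Iv.1 h1
  obtain ⟨t', t3, t4, e2⟩ := mem_Iv.1 h2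
  by_cases h3 : k = 3
  · exact key k j hk.1 hk.2 hj.1 (by omega) hjk.symm t' t t3 t4 t1 t2 (e2.trans e1.symm)
  · exact key j k hj.1 hj.2 hk.1 (by omega) hjk t t' t1 t2 t3 t4 (e1.trans e2.symm)

theorem Hy.loc (H : Hy π μ c) {L : ℕ} (hL2 : 2 ≤ L) (hL : 2 * L + 10 ≤ c) (X : Finset V) (s : V)
    (h0 : s ∈ X) (h1 : (π ^ (1 : ℤ)) s ∈ X) (h1' : (π ^ (-1 : ℤ)) s ∈ X)
    (hiso : (π ^ (2 : ℤ)) s ∈ X ∨ (π ^ (-2 : ℤ)) s ∈ X ∨ μ ((π ^ (-1 : ℤ)) s) ∈ X ∨
      μ ((π ^ (0 : ℤ)) s) ∈ X ∨ μ ((π ^ (1 : ℤ)) s) ∈ X)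
    (hom : ∑ v ∈ Sys π μ L s, om π μ X v < 12) :
    Half π μ L X s := by
  by_contra hc
  unfold Half at hc
  push Not at hc
  have hpi : ∀ j : ℤ, -2 ≤ j → j ≤ 3 → Cen π μ j s ∈ X →
      2 ≤ #{v ∈ Iv π (Cen π μ j s) (-L) L | ¬ (v ∈ X ↔ π v ∈ X)} := by
    intro j j1 j2 hx
    have hj : (((j + 2).toNat : ℕ) : ℤ) - 2 = j := by omega
    obtain ⟨t, t1, t2, y2⟩ : ∃ t : ℤ, 1 ≤ t ∧ t ≤ L ∧ (π ^ t) (Cen π μ j s) ∉ X := by
      obtain ⟨t, t1, t2⟩ := hc (⟨(j + 2).toNat, by omega⟩, true)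
      refine ⟨t + 1, by omega, by omega, ?_⟩
      simp only [hbase, hj, if_true, zpow_zero, one_mul] at t2
      rwa [← zpow_natCast] at t2
    obtain ⟨t', t3, t4, z2⟩ : ∃ t : ℤ, -L ≤ t ∧ t ≤ -1 ∧ (π ^ t) (Cen π μ j s) ∉ X := by
      obtain ⟨t, t1, t2⟩ := hc (⟨(j + 2).toNat, by omega⟩, false)
      refine ⟨t + 1 + -(L + 1), by omega, by omega, ?_⟩
      simp only [hbase, hj, Bool.false_eq_true, if_false, Equiv.Perm.mul_apply] at t2
      rwa [← zpow_natCast, zp_add] at t2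
    obtain ⟨p, p1, p2, p3⟩ := ivt' π X (Cen π μ j s) (a := 0) (b := t) (by omega)
      (by simp [hx, y2])
    obtain ⟨r, r1, r2, r3⟩ := ivt' π X (Cen π μ j s) (a := t') (b := 0) (by omega)
      (by simp [hx, z2])
    refine Finset.one_lt_card.2 ⟨(π ^ p) (Cen π μ j s), ?_, (π ^ r) (Cen π μ j s), ?_, ?_⟩
    · exact mem_filter.2 ⟨mem_Iv.2 ⟨p, by omega, by omega, rfl⟩, p3⟩
    · exact mem_filter.2 ⟨mem_Iv.2 ⟨r, by omega, by omega, rfl⟩, r3⟩
    · intro e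
      have := H.inj _ (abs_lt.2 ⟨by omega, by omega⟩) e
      omega
  let tt : ℤ → ℕ := fun j => if (π ^ j) s ∈ X ∧ μ ((π ^ j) s) ∉ X then 1 else 0
  let rr : ℤ → ℕ := fun j => if μ ((π ^ j) s) ∈ X then 4 else 0
  have hP : ∀ j : ℤ, -2 ≤ j → j < 3 →
      rr j + tt j ≤ ∑ v ∈ Iv π (Cen π μ j s) (-L) L, om π μ X v := by
    intro j j1 j2
    rw [sum_om]
    simp only [rr, tt]
    by_cases a : μ ((π ^ j) s) ∈ X
    · have := hpi j j1 j2.le (by rwa [Cen_ne _ _ j2.ne])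
      simp only [a, if_true, not_true, and_false, if_false]
      omega
    · simp only [a, if_false, not_false_eq_true, and_true]
      split_ifs with b
      · have : 1 ≤ #{v ∈ Iv π (Cen π μ j s) (-L) L | ¬ (v ∈ X ↔ μ v ∈ X)} := by
          refine card_pos.2 ⟨μ ((π ^ j) s), mem_filter.2 ⟨mem_Iv.2 ⟨0, by omega, by omega, ?_⟩, ?_⟩⟩
          · rw [Cen_ne _ _ j2.ne]; simp
          · rw [H.inv]; simp [a, b]
        omega
      · omega
  have hP3 : 4 + ∑ j ∈ Icc (-2 : ℤ) 2, tt j ≤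
      ∑ v ∈ Iv π (Cen π μ 3 s) (-L) L, om π μ X v := by
    rw [sum_om]
    have a1 := hpi 3 (by omega) le_rfl (by rwa [Cen_three])
    have a2 : ∑ j ∈ Icc (-2 : ℤ) 2, tt j ≤
        #{v ∈ Iv π (Cen π μ 3 s) (-L) L | ¬ (v ∈ X ↔ μ v ∈ X)} := by
      simp only [tt]
      rw [← card_filter]
      refine card_le_card_of_injOn (fun j => (π ^ j) s) (fun j hj => ?_) (fun j hj k hk e => ?_)
      · simp only [coe_filter, mem_Icc, Set.mem_ofPred_eq] at hj ⊢
        refine ⟨mem_Iv.2 ⟨j, by omega, by omega, by rw [Cen_three]⟩, ?_⟩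
        simp [hj.2.1, hj.2.2]
      · simp only [coe_filter, mem_Icc, Set.mem_ofPred_eq] at hj hk
        exact H.inj s (abs_lt.2 ⟨by omega, by omega⟩) e
    omega
  unfold Sys at hom
  rw [Finset.sum_biUnion (H.disj hL s)] at hom
  have i1 : Icc (-2 : ℤ) 3 = {-2, -1, 0, 1, 2, 3} := by decide
  have i2 : Icc (-2 : ℤ) 2 = {-2, -1, 0, 1, 2} := by decide
  rw [i1] at hom
  rw [i2] at hP3
  rw [sum_insert (by decide), sum_insert (by decide), sum_insert (by decide),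
    sum_insert (by decide), sum_insert (by decide), sum_singleton] at hom
  rw [sum_insert (by decide), sum_insert (by decide), sum_insert (by decide),
    sum_insert (by decide), sum_singleton] at hP3
  have b1 := hP (-2) (by omega) (by omega)
  have b2 := hP (-1) (by omega) (by omega)
  have b3 := hP 0 (by omega) (by omega)
  have b4 := hP 1 (by omega) (by omega)
  have b5 := hP 2 (by omega) (by omega)
  have q1 : ∀ j : ℤ, (π ^ j) s ∈ X → 2 ≤ rr j + 2 * tt j := by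
    intro j hj
    simp only [rr, tt, hj, true_and]
    split_ifs <;> simp_all
  have q2 : ∀ j : ℤ, μ ((π ^ j) s) ∈ X → 4 ≤ rr j := by
    intro j hj
    simp only [rr, hj, if_true, le_refl]
  have c1 := q1 _ h1
  have c2 := q1 _ h1'
  have c3 := q1 0 (by simpa using h0)
  rcases hiso with h | h | h | h | h
  · have := q1 _ h; omega
  · have := q1 _ h; omega
  · have := q2 _ h; omega
  · have := q2 _ h; omega
  · have := q2 _ h; omega


end Pool.Agent.P.MP_e59a69_co
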