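import Mathlib

/-! The parity step: a T-join inside the chosen sites and the positions of the singles. -/

open Finset

namespace Pool.Agent.P.MP_e59a69_co

variable {V : Type} [Fintype V] [DecidableEq V]

lemma exists_parity (π q : Equiv.Perm V) (hq : ∀ v, q (q v) = v) (hq' : ∀ v, q v ≠ v)
    (K : Finset V)
    (hK : ∀ x : V → ℝ, (∀ v, x (π v) = x v) → (∀ e ∈ K, x e = x (q e)) → ∀ v, x v = x (q v)) :
    ∃ (x : V → ZMod 2) (P : Finset V), (∀ p ∈ P, q p ∈ P) ∧ (∀ p ∈ P, p ∈ K ∨ q p ∈ K) ∧
      ∀ z, x z + x (π.symm z) + (if z ∈ P then 1 else 0) = 1 := by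
  classical
  have z2 : ∀ a : ZMod 2, a = 0 ∨ a = 1 := by decide
  let T : ((V → ZMod 2) × (V → ZMod 2)) →ₗ[ZMod 2] (V → ZMod 2) :=
    { toFun := fun w z => w.1 z + w.1 (π.symm z) +
        ((if z ∈ K then w.2 z else 0) + (if q z ∈ K then w.2 (q z) else 0))
      map_add' := by
        intro u w
        funext z
        simp only [Prod.fst_add, Prod.snd_add, Pi.add_apply]
        split_ifs <;> ring
      map_smul' := by
        intro c w
        funext z
        simp only [Prod.smul_fst, Prod.smul_snd, Pi.smul_apply, smul_eq_mul, RingHom.id_apply]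
        split_ifs <;> ring }
  have hT : ∀ w z, T w z = w.1 z + w.1 (π.symm z) +
        ((if z ∈ K then w.2 z else 0) + (if q z ∈ K then w.2 (q z) else 0)) := fun _ _ => rfl
  by_cases h1 : (1 : V → ZMod 2) ∈ LinearMap.range T
  · obtain ⟨⟨x, j⟩, hw⟩ := h1
    refine ⟨x, univ.filter (fun z =>
      (if z ∈ K then j z else 0) + (if q z ∈ K then j (q z) else 0) = 1), ?_, ?_, ?_⟩
    · intro p hp
      rw [mem_filter] at hp ⊢
      refine ⟨mem_univ _, ?_⟩
      rw [hq, add_comm]
      exact hp.2
    · intro p hp
      rw [mem_filter] at hp
      by_contra hc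
      push Not at hc
      have := hp.2
      rw [if_neg hc.1, if_neg hc.2] at this
      exact absurd this (by decide)
    · intro z
      have hz := congrFun hw z
      rw [hT] at hz
      simp only [Pi.one_apply] at hz
      simp only [mem_filter, mem_univ, true_and]
      rcases z2 ((if z ∈ K then j z else 0) + (if q z ∈ K then j (q z) else 0)) with h | h
      · rw [h] at hz
        rw [if_neg (by rw [h]; decide)]
        exact hz
      · rw [h] at hz
        rw [if_pos h]
        exact hz
  · exfalso
    obtain ⟨φ, hφ1, hφ⟩ := Submodule.exists_dual_map_eq_bot_of_notMem h1 inferInstance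
    have hφ0 : ∀ w, φ (T w) = 0 := by
      intro w
      have : φ (T w) ∈ (LinearMap.range T).map φ :=
        Submodule.mem_map_of_mem (LinearMap.mem_range_self T w)
      rw [hφ] at this
      exact (Submodule.mem_bot _).1 this
    let y : V → ZMod 2 := fun v => φ (Pi.single v 1)
    have eq2 : ∀ a b : ZMod 2, a + b = 0 → a = b := by decide
    have hπ : ∀ v, y (π v) = y v := by
      intro v
      have e : T (Pi.single v 1, 0) = Pi.single v 1 + Pi.single (π v) 1 := by
        funext z
        rw [hT]
        simp only [Pi.add_apply, Pi.zero_apply, ite_self, add_zero, Pi.single_apply,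
          Equiv.symm_apply_eq]
      have := hφ0 (Pi.single v 1, 0)
      rw [e, map_add] at this
      exact (eq2 _ _ this).symm
    have hKy : ∀ e ∈ K, y e = y (q e) := by
      intro v hv
      have e : T (0, Pi.single v 1) = Pi.single v 1 + Pi.single (q v) 1 := by
        funext z
        rw [hT]
        simp only [Pi.add_apply, Pi.zero_apply, add_zero, zero_add, Pi.single_apply]
        have a1 : (if z ∈ K then (if z = v then (1 : ZMod 2) else 0) else 0) =
            if z = v then 1 else 0 := by
          by_cases hz : z = v
          · subst hz; simp [hv]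
          · simp [hz]
        have a2 : (if q z ∈ K then (if q z = v then (1 : ZMod 2) else 0) else 0) =
            if z = q v then 1 else 0 := by
          by_cases hz : z = q v
          · subst hz; simp [hq, hv]
          · have : q z ≠ v := fun h => hz (by rw [← h, hq])
            simp [hz, this]
        rw [a1, a2]
      have := hφ0 (0, Pi.single v 1)
      rw [e, map_add] at this
      exact eq2 _ _ this
    have hall : ∀ v, y v = y (q v) := by
      intro v
      have := hK (fun v => if y v = 0 then 0 else 1) (fun v => by simp only [hπ])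
        (fun e he => by simp only [← hKy e he]) v
      rcases z2 (y v) with h | h <;> rcases z2 (y (q v)) with h' | h'
      · rw [h, h']
      · rw [h, h', if_pos rfl, if_neg (by decide)] at this
        exact absurd this (by norm_num)
      · rw [h, h', if_pos rfl, if_neg (by decide)] at this
        exact absurd this (by norm_num)
      · rw [h, h']
    apply hφ1
    have e1 : (1 : V → ZMod 2) = ∑ v, Pi.single v 1 := by
      funext z
      simp [Finset.sum_apply, Pi.single_apply]
    rw [e1, map_sum]
    have self2 : ∀ a : ZMod 2, a + a = 0 := by decide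
    refine Finset.sum_involution (f := y) (fun a _ => q a) ?_ ?_ (fun _ _ => mem_univ _) ?_
    · intro a _
      rw [← hall a]
      exact self2 _
    · intro a _ _
      exact hq' a
    · intro a _
      exact hq a

omit [Fintype V] in
lemma exists_singles (π : Equiv.Perm V) (x : V → ZMod 2) (P : Finset V)
    (hP : ∀ p ∈ P, π p ∉ P)
    (hx : ∀ z, x z + x (π.symm z) + (if z ∈ P then 1 else 0) = 1) :
    ∃ (s : V → V) (hv : V → Prop), (∀ p, s p = p ∨ s p = π p) ∧
      (∀ v, v ∉ P.image s → (hv v ↔ ¬ hv (π.symm v))) ∧
      ∀ t ∈ P.image s, ¬ hv t ∧ ¬ hv (π.symm t) := by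
  classical
  have z2 : ∀ a : ZMod 2, a = 0 ∨ a = 1 := by decide
  refine ⟨fun p => if x p = 0 then p else π p, fun v => x v = 1 ∧ v ∉ P, ?_, ?_, ?_⟩
  · intro p
    by_cases h : x p = 0
    · left; simp [h]
    · right; simp [h]
  · intro v hv
    have hz := hx v
    have hn : ∀ p ∈ P, (if x p = 0 then p else π p) ≠ v := fun p hp h =>
      hv (mem_image.2 ⟨p, hp, h⟩)
    have hA : v ∈ P → x v = 1 := by
      intro h
      rcases z2 (x v) with h0 | h0
      · exact absurd (by simp [h0]) (hn v h)
      · exact h0
    have hB : π.symm v ∈ P → x (π.symm v) = 0 := by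
      intro h
      by_contra h0
      exact absurd (by simp [h0]) (hn _ h)
    have hC : π.symm v ∈ P → v ∉ P := fun h => by simpa using hP _ h
    by_cases h1 : v ∈ P
    · have h2 : π.symm v ∉ P := fun h => hC h h1
      rw [if_pos h1, hA h1] at hz
      have h3 : x (π.symm v) = 1 := by
        rcases z2 (x (π.symm v)) with h0 | h0
        · rw [h0] at hz
          exact absurd hz (by decide)
        · exact h0
      simp [h1, h2, h3]
    · rw [if_neg h1] at hz
      by_cases h2 : π.symm v ∈ P
      · rw [hB h2] at hz
        have h3 : x v = 1 := by simpa using hz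
        simp [h1, h2, h3]
      · rcases z2 (x v) with h0 | h0 <;> rcases z2 (x (π.symm v)) with h3 | h3
        · rw [h0, h3] at hz
          exact absurd hz (by decide)
        · simp [h0, h3, h1, h2]
        · simp [h0, h3, h1, h2]
        · rw [h0, h3] at hz
          exact absurd hz (by decide)
  · intro t ht
    obtain ⟨p, hp, rfl⟩ := mem_image.1 ht
    by_cases h : x p = 0
    · simp only [h, if_true]
      have hz := hx p
      rw [if_pos hp, h] at hz
      have h3 : x (π.symm p) = 0 := by
        rcases z2 (x (π.symm p)) with h0 | h0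
        · exact h0
        · rw [h0] at hz
          exact absurd hz (by decide)
      refine ⟨fun hh => hh.2 hp, fun hh => ?_⟩
      rw [h3] at hh
      exact absurd hh.1 (by decide)
    · simp only [h, if_false, Equiv.symm_apply_apply]
      have h1 : x p = 1 := (z2 _).resolve_left h
      have hz := hx (π p)
      rw [if_neg (hP p hp), Equiv.symm_apply_apply, h1] at hz
      refine ⟨fun hh => ?_, fun hh => hh.2 hp⟩
      rw [hh.1] at hz
      exact absurd hz (by decide)

end Pool.Agent.P.MP_e59a69_co
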