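import Pool.Agent.Lib.Selector.Det

/-! The selector theorem for real linear functionals dominated by a sum of squares. -/

open Finset

namespace Pool.Agent.P.MP_e59a69_co

theorem srxsel_rep {W κ : Type} [AddCommGroup W] [Module ℝ W] [Fintype κ]
    (γ : W →ₗ[ℝ] κ → ℝ) (α : W →ₗ[ℝ] ℝ) (h : ∀ w, γ w = 0 → α w = 0) :
    ∃ w0, ∀ w, α w = ∑ k, γ w0 k * γ w k := by
  let Γ : W →ₗ[ℝ] EuclideanSpace ℝ κ :=
    (WithLp.linearEquiv 2 ℝ (κ → ℝ)).symm.toLinearMap ∘ₗ γ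
  have hΓ : ∀ w k, Γ w k = γ w k := fun w k => rfl
  have hk : LinearMap.ker Γ ≤ LinearMap.ker α := by
    intro w hw
    rw [LinearMap.mem_ker] at hw ⊢
    apply h
    funext k
    rw [← hΓ, hw]
    rfl
  let β : LinearMap.range Γ →ₗ[ℝ] ℝ :=
    (LinearMap.ker Γ).liftQ α hk ∘ₗ Γ.quotKerEquivRange.symm.toLinearMap
  have hβ : ∀ w, β ⟨Γ w, LinearMap.mem_range_self Γ w⟩ = α w := by
    intro w
    simp only [β, LinearMap.comp_apply, LinearEquiv.coe_coe]
    rw [LinearMap.quotKerEquivRange_symm_apply_image]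
    simp
  let r : LinearMap.range Γ :=
    (InnerProductSpace.toDual ℝ (LinearMap.range Γ)).symm (LinearMap.toContinuousLinearMap β)
  obtain ⟨w0, hw0⟩ := r.2
  refine ⟨w0, fun w => ?_⟩
  have h1 : inner ℝ r (⟨Γ w, LinearMap.mem_range_self Γ w⟩ : LinearMap.range Γ) = α w := by
    rw [← hβ]
    simp only [r]
    rw [InnerProductSpace.toDual_symm_apply]
    simp
  rw [← h1, Submodule.coe_inner, ← hw0, PiLp.inner_apply]
  refine Finset.sum_congr rfl fun k _ => ?_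
  simp only [hΓ]
  simp [mul_comm]

theorem srxsel_norm {κ V : Type} [Fintype κ] [Fintype V] (z : V → κ → ℝ) (x : V → ℂ) :
    ‖∑ l, x l • (WithLp.toLp 2 (fun k => (z l k : ℂ)) : EuclideanSpace ℂ κ)‖ ^ 2
      = ∑ k, (∑ l, (x l).re * z l k) ^ 2 + ∑ k, (∑ l, (x l).im * z l k) ^ 2 := by
  rw [EuclideanSpace.norm_sq_eq, ← Finset.sum_add_distrib]
  refine Finset.sum_congr rfl fun k _ => ?_
  rw [Complex.sq_norm, Complex.normSq_apply]
  simp [Complex.re_sum, Complex.im_sum, sq]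

theorem srxsel_le {s A : ℝ} (hA : 0 ≤ A) (h : s ^ 2 ≤ A * s) : s ≤ A := by
  by_contra hc
  push Not at hc
  nlinarith

theorem form_sel {W κ ι : Type} [AddCommGroup W] [Module ℝ W] [Fintype κ] [Fintype ι]
    [DecidableEq ι] (γ : W →ₗ[ℝ] κ → ℝ) (α : ι × Bool → W →ₗ[ℝ] ℝ)
    (h1 : ∀ w, ∑ l, α l w ^ 2 ≤ ∑ k, γ w k ^ 2) (h2 : ∀ l w, 100 * α l w ^ 2 ≤ ∑ k, γ w k ^ 2) :
    ∃ τ : ι → Bool, ∀ w, ∑ i, α (i, τ i) w ^ 2 ≤ 9 / 10 * ∑ k, γ w k ^ 2 := by
  have hrep : ∀ l, ∃ w0, ∀ w, α l w = ∑ k, γ w0 k * γ w k := by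
    intro l
    apply srxsel_rep
    intro w hw
    have := h2 l w
    rw [hw] at this
    simp only [Pi.zero_apply, ne_eq, OfNat.ofNat_ne_zero, not_false_eq_true, zero_pow,
      sum_const_zero] at this
    have h0 : α l w ^ 2 = 0 := le_antisymm (by linarith) (sq_nonneg _)
    exact pow_eq_zero_iff (two_ne_zero) |>.1 h0
  choose w0 hw0 using hrep
  have hsyn : ∀ a : ι × Bool → ℝ, ∑ k, (∑ l, a l * γ (w0 l) k) ^ 2 ≤ ∑ l, a l ^ 2 := by
    intro a
    have e1 : ∀ k, γ (∑ l, a l • w0 l) k = ∑ l, a l * γ (w0 l) k := by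
      intro k
      simp [map_sum, Finset.sum_apply]
    have e2 : ∑ k, (∑ l, a l * γ (w0 l) k) ^ 2 = ∑ l, a l * α l (∑ l, a l • w0 l) := by
      simp only [hw0, Finset.mul_sum]
      rw [Finset.sum_comm]
      refine Finset.sum_congr rfl fun k _ => ?_
      rw [e1, sq, Finset.sum_mul]
      refine Finset.sum_congr rfl fun l _ => ?_
      ring
    have e3 := h1 (∑ l, a l • w0 l)
    simp only [e1] at e3
    have e4 := Finset.sum_mul_sq_le_sq_mul_sq univ a (fun l => α l (∑ l, a l • w0 l))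
    rw [← e2] at e4
    have hA : 0 ≤ ∑ l, a l ^ 2 := Finset.sum_nonneg fun l _ => sq_nonneg _
    exact srxsel_le hA (e4.trans (mul_le_mul_of_nonneg_left e3 hA))
  obtain ⟨τ, hτ⟩ := Pool.Agent.Lib.Selector.selector_finite (ι := ι)
    (fun l => (WithLp.toLp 2 (fun k => (γ (w0 l) k : ℂ)) : EuclideanSpace ℂ κ))
    (by
      intro x
      rw [srxsel_norm (fun l => γ (w0 l)) x]
      have a1 := hsyn (fun l => (x l).re)
      have a2 := hsyn (fun l => (x l).im)
      have a3 : ∑ l, ‖x l‖ ^ 2 = ∑ l, (x l).re ^ 2 + ∑ l, (x l).im ^ 2 := by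
        rw [← Finset.sum_add_distrib]
        refine Finset.sum_congr rfl fun l _ => ?_
        rw [Complex.sq_norm, Complex.normSq_apply]
        ring
      linarith)
    (by
      intro l
      have b1 := h2 l (w0 l)
      have b2 : α l (w0 l) = ∑ k, γ (w0 l) k ^ 2 := by
        rw [hw0]
        exact Finset.sum_congr rfl fun k _ => (sq _).symm
      rw [b2] at b1
      have b3 : ∑ k, γ (w0 l) k ^ 2 ≤ 1 / 100 := srxsel_le (by norm_num) (by linarith)
      have b4 : ‖(WithLp.toLp 2 (fun k => (γ (w0 l) k : ℂ)) : EuclideanSpace ℂ κ)‖ ^ 2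
          = ∑ k, γ (w0 l) k ^ 2 := by
        rw [EuclideanSpace.norm_sq_eq]
        refine Finset.sum_congr rfl fun k _ => ?_
        simp
      apply le_of_sq_le_sq _ (by norm_num)
      rw [b4]
      linarith)
  refine ⟨τ, fun w => ?_⟩
  have c1 := hτ (fun i => (α (i, τ i) w : ℂ))
  rw [srxsel_norm (fun i => γ (w0 (i, τ i)))] at c1
  simp only [Complex.ofReal_re, Complex.ofReal_im, zero_mul, sum_const_zero, ne_eq,
    OfNat.ofNat_ne_zero, not_false_eq_true, zero_pow, add_zero, Complex.norm_real,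
    Real.norm_eq_abs, sq_abs] at c1
  have c2 : ∑ i, α (i, τ i) w ^ 2
      = ∑ k, (∑ i, α (i, τ i) w * γ (w0 (i, τ i)) k) * γ w k := by
    simp only [Finset.sum_mul]
    rw [Finset.sum_comm]
    refine Finset.sum_congr rfl fun i _ => ?_
    rw [sq]
    nth_rewrite 2 [hw0]
    rw [Finset.mul_sum]
    refine Finset.sum_congr rfl fun k _ => ?_
    ring
  have c3 := Finset.sum_mul_sq_le_sq_mul_sq univ
    (fun k => ∑ i, α (i, τ i) w * γ (w0 (i, τ i)) k) (fun k => γ w k)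
  rw [← c2] at c3
  have hD : 0 ≤ ∑ k, γ w k ^ 2 := Finset.sum_nonneg fun k _ => sq_nonneg _
  apply srxsel_le (by positivity)
  have c4 := mul_le_mul_of_nonneg_right c1 hD
  nlinarith

end Pool.Agent.P.MP_e59a69_co
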