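import Pool.Agent.P.MP_e59a69_co.SRThin

/-! The orientation of the perfect matching from a thin pairing of arbitrary singles. -/

open Finset Function

namespace Pool.Agent.P.MP_e59a69_co

variable {V : Type} [Fintype V] [DecidableEq V] {π μ : Equiv.Perm V} {c : ℕ}

theorem sr_sigma (H : Hy π μ c) (hc3 : 3 ≤ c) (S : Finset V) (Q : V → V) (hv : V → Prop)
    (hQ : ∀ t ∈ S, Q t ∈ S ∧ Q t ≠ t ∧ Q (Q t) = t)
    (h1 : ∀ v, v ∉ S → (hv v ↔ ¬ hv (π.symm v))) (h2 : ∀ s ∈ S, ¬ hv s ∧ ¬ hv (π.symm s))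
    (hSd : ∀ x ∈ S, π.symm x ∉ S)
    (hthin : ∀ X, 5 * dQ S Q X ≤ fc π X + mc μ X + 5 * lam π S X) :
    ∃ σ : V → ℤ, (∀ v, σ v = 1 ∨ σ v = -1) ∧ (∀ v, σ (μ v) = - σ v) ∧
      ∀ X : Finset V, 5 * ∑ v ∈ X, σ v ≤ (mc μ X + 6 * fc π X : ℕ) := by
  classical
  have hne : ∀ v, π v ≠ v := fun v => by
    simpa using H.len v 1 one_ne_zero (by simp; omega)
  let n : V → V := fun v => if hv v then π v else π.symm v
  have hn := heavy_invol S hne hv h1 h2 n (fun v => rfl)
  let ν : V → V := fun v => if v ∈ S then Q v else n v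
  obtain ⟨σ, s1, s2, s3⟩ := two_colouring μ ν H.inv
    (fun v => by
      by_cases h : v ∈ S
      · simp only [ν, h, if_true, (hQ v h).1, (hQ v h).2.2]
      · simp only [ν, h, if_false, (hn v h).1, (hn v h).2.2]) H.ne
    (fun v => by
      by_cases h : v ∈ S
      · simp only [ν, h, if_true]; exact (hQ v h).2.1
      · simp only [ν, h, if_false]; exact (hn v h).2.1)
  have hνν : ∀ v, ν (ν v) = v := fun v => by
    by_cases h : v ∈ S
    · simp only [ν, h, if_true, (hQ v h).1, (hQ v h).2.2]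
    · simp only [ν, h, if_false, (hn v h).1, (hn v h).2.2]
  refine ⟨σ, s1, s2, fun X => ?_⟩
  have e1 : ∑ v ∈ X, σ v ≤ #{v ∈ X | ν v ∉ X} := by
    rw [← Finset.sum_filter_add_sum_filter_not X (fun v => ν v ∈ X)]
    have z : ∑ v ∈ X with ν v ∈ X, σ v = 0 :=
      Finset.sum_involution (fun v _ => ν v) (fun v _ => by rw [s3]; ring)
        (fun v _ _ e => by
          have := s3 v
          rw [e] at this
          rcases s1 v with h | h <;> omega)
        (fun v hv => mem_filter.2 ⟨(mem_filter.1 hv).2, by rw [hνν]; exact (mem_filter.1 hv).1⟩)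
        (fun v _ => hνν v)
    rw [z, zero_add, card_eq_sum_ones]
    push_cast
    exact Finset.sum_le_sum fun v _ => by rcases s1 v with h | h <;> omega
  let cut : V → Prop := fun v => ¬ (v ∈ X ↔ π v ∈ X)
  have e2 : #{v ∈ X | ν v ∉ X} ≤ dQ S Q X + #{v ∈ X | v ∉ S ∧ n v ∉ X} := by
    refine le_trans (card_le_card fun v hv => ?_) (card_union_le _ _)
    rw [mem_filter] at hv
    by_cases h : v ∈ S
    · exact mem_union_left _ (mem_filter.2 ⟨h, hv.1, by simpa only [ν, h, if_true] using hv.2⟩)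
    · exact mem_union_right _ (mem_filter.2 ⟨hv.1, h, by simpa only [ν, h, if_false] using hv.2⟩)
  have e3 : #{v ∈ X | v ∉ S ∧ n v ∉ X} ≤ #{v | cut v ∧ hv v} := by
    refine card_le_card_of_injOn (fun v => if hv v then v else π.symm v) (fun v h => ?_)
      (fun v h v' h' e => ?_)
    · simp only [coe_filter, Set.mem_ofPred_eq, mem_univ, true_and, n, cut] at h ⊢
      split_ifs at h ⊢ with a
      · exact ⟨fun e => h.2.2 (e.1 h.1), a⟩
      · rw [Equiv.apply_symm_apply]
        exact ⟨fun e => h.2.2 (e.2 h.1), by_contra fun b => a ((h1 v h.2.1).2 b)⟩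
    · simp only [coe_filter, Set.mem_ofPred_eq, n] at h h' e
      split_ifs at e h h'
      · exact e
      · exact absurd (e ▸ h.1) h'.2.2
      · exact absurd (e ▸ h'.1) h.2.2
      · exact π.symm.injective e
  have e4 : lam π S X ≤ #{v | cut v ∧ ¬ hv v} := by
    refine card_le_card_of_injOn (fun v => if cut v then v else π.symm v) (fun v h => ?_)
      (fun v h v' h' e => ?_)
    · simp only [coe_filter, Set.mem_ofPred_eq, mem_univ, true_and, zpow_one, zpow_neg] at h ⊢
      split_ifs with a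
      · exact ⟨a, (h2 v h.1).1⟩
      · refine ⟨?_, (h2 v h.1).2⟩
        simp only [cut, Equiv.apply_symm_apply]
        exact fun e => (h.2.resolve_left a) e.symm
    · simp only [coe_filter, Set.mem_ofPred_eq] at h h' e
      split_ifs at e
      · exact e
      · exact absurd (e ▸ h.1) (hSd v' h'.1)
      · exact absurd (e ▸ h'.1) (hSd v h.1)
      · exact π.symm.injective e
  have e5 : #{v | cut v ∧ hv v} + #{v | cut v ∧ ¬ hv v} = fc π X := by
    unfold fc
    rw [← card_filter_add_card_filter_not (s := univ.filter fun v => ¬ (v ∈ X ↔ π v ∈ X)) hv,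
      filter_filter, filter_filter]
  have e6 := hthin X
  have e7 : 5 * #{v ∈ X | ν v ∉ X} ≤ mc μ X + 6 * fc π X := by omega
  have e8 : (5 : ℤ) * #{v ∈ X | ν v ∉ X} ≤ (mc μ X + 6 * fc π X : ℕ) := by exact_mod_cast e7
  linarith

end Pool.Agent.P.MP_e59a69_co
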