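import Pool.Agent.P.MP_e59a69_co.SRTree

/-! Distances along reduced words; the two systems of a site are disjoint. -/

open Finset

namespace Pool.Agent.P.MP_e59a69_co

variable {V : Type} [Fintype V] [DecidableEq V] {π μ : Equiv.Perm V} {c : ℕ}

/-- at distance `j`, arrived by the letter `l` -/
def srxwalkSt (π μ : Equiv.Perm V) (d : V → V → ℕ) (x : V) (l : Fin 3) (j : ℕ) (y : V) : Prop :=
  d x y = j ∧ (j = 0 ∨ d x (Lt π μ (iv l) y) + 1 = j)

omit [Fintype V] [DecidableEq V] in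
lemma srxwalk_step {r : ℕ} {d : V → V → ℕ} (hμ : ∀ v, μ (μ v) = v) (D : IsDist π μ r d) {x y : V}
    {l l' : Fin 3} {j : ℕ} (h : srxwalkSt π μ d x l j y) (hj : j < r) (hl : l' ≠ iv l) :
    srxwalkSt π μ d x l' (j + 1) (Lt π μ l' y) := by
  obtain ⟨h1, h2⟩ := h
  refine ⟨?_, Or.inr (by rw [Lt_iv hμ, h1])⟩
  rcases Nat.eq_zero_or_pos j with h0 | h0
  · subst h0
    rw [D.zero x y h1, D.root]
  · obtain ⟨l0, -, h4⟩ := D.tree x y (by omega) (by omega)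
    have e : iv l = l0 := by
      by_contra hne
      have := h4 _ hne
      omega
    rw [h4 l' (e ▸ hl), h1]

omit [Fintype V] [DecidableEq V] in
lemma srxwalk_pow {r : ℕ} {d : V → V → ℕ} (hμ : ∀ v, μ (μ v) = v) (D : IsDist π μ r d) {x y : V}
    {l : Fin 3} (hl : l ≠ 2) {j : ℕ} (h : srxwalkSt π μ d x 2 j y) (n : ℕ) (hn : j + n < r) :
    srxwalkSt π μ d x l (j + n + 1) ((Lt π μ l ^ (n + 1)) y) := by
  induction n with
  | zero => simpa using srxwalk_step hμ D h hn (l' := l) hl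
  | succ n ih =>
    rw [pow_succ', Equiv.Perm.mul_apply]
    exact srxwalk_step hμ D (ih (by omega)) hn ((by decide : ∀ l : Fin 3, l ≠ 2 → l ≠ iv l) l hl)

omit [Fintype V] [DecidableEq V] in
lemma srxwalk_run {r : ℕ} {d : V → V → ℕ} (hμ : ∀ v, μ (μ v) = v) (D : IsDist π μ r d) {x y : V}
    {j : ℕ} (h : srxwalkSt π μ d x 2 j y) {a : ℤ} (ha : a ≠ 0) (hn : j + a.natAbs ≤ r) :
    ∃ l, l ≠ 2 ∧ srxwalkSt π μ d x l (j + a.natAbs) ((π ^ a) y) := by
  obtain ⟨n, hn'⟩ : ∃ n, a.natAbs = n + 1 := ⟨a.natAbs - 1, by omega⟩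
  rcases Int.natAbs_eq a with e | e
  · refine ⟨0, by decide, ?_⟩
    have := srxwalk_pow hμ D (l := 0) (by decide) h n (by omega)
    rw [Lt_zero, ← zpow_natCast, ← hn', ← e] at this
    rwa [hn']
  · refine ⟨1, by decide, ?_⟩
    have := srxwalk_pow hμ D (l := 1) (by decide) h n (by omega)
    rw [Lt_one, inv_pow, ← zpow_natCast, ← zpow_neg, ← hn', ← e] at this
    rwa [hn']

omit [Fintype V] [DecidableEq V] in
lemma srxwalk_run2 {r : ℕ} {d : V → V → ℕ} (hμ : ∀ v, μ (μ v) = v) (D : IsDist π μ r d) {x y : V}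
    {j : ℕ} (h : srxwalkSt π μ d x 2 j y) {a : ℤ} (ha : a ≠ 0) (hn : j + a.natAbs < r) :
    srxwalkSt π μ d x 2 (j + a.natAbs + 1) (μ ((π ^ a) y)) := by
  obtain ⟨l, hl, h2⟩ := srxwalk_run hμ D h ha hn.le
  exact srxwalk_step hμ D h2 hn (l' := 2) ((by decide : ∀ l : Fin 3, l ≠ 2 → 2 ≠ iv l) l hl)

omit [Fintype V] [DecidableEq V] in
lemma IsDist.zpow {r : ℕ} {d : V → V → ℕ} (hμ : ∀ v, μ (μ v) = v) (D : IsDist π μ r d) (x : V)
    (t : ℤ) (ht : t.natAbs ≤ r) : d x ((π ^ t) x) = t.natAbs := by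
  by_cases h0 : t = 0
  · subst h0
    simpa using D.self x
  · obtain ⟨l, -, h, -⟩ := srxwalk_run hμ D (x := x) (y := x) (j := 0) ⟨D.self x, Or.inl rfl⟩ h0
      (by omega)
    simpa using h

lemma Hy.g3 (H : Hy π μ c) (v : V) {a b e : ℤ} (ha : a ≠ 0) (hb : b ≠ 0) (he : e ≠ 0)
    (h : 2 * (|a| + |b| + |e|) + 10 ≤ c) :
    μ ((π ^ a) (μ ((π ^ b) (μ ((π ^ e) v))))) ≠ v := by
  intro heq
  rw [Int.abs_eq_natAbs, Int.abs_eq_natAbs, Int.abs_eq_natAbs] at h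
  obtain ⟨d, D⟩ := H.exists_dist (a.natAbs + b.natAbs + e.natAbs + 3) (by omega) (by omega)
  have h1 := srxwalk_run2 H.inv D (x := v) (y := v) (j := 0) ⟨D.self v, Or.inl rfl⟩ he (by omega)
  have h2 := srxwalk_run2 H.inv D h1 hb (by omega)
  have h3 := (srxwalk_run2 H.inv D h2 ha (by omega)).1
  rw [heq, D.self] at h3
  omega

/-- the partner of a site -/
def qq (π μ : Equiv.Perm V) : Equiv.Perm V := π ^ (3 : ℤ) * μ * π ^ (-3 : ℤ)

lemma Hy.site_disj (H : Hy π μ c) {L : ℕ} (hL : 4 * L + 40 ≤ c) (p : V) {a b : ℤ}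
    (ha : a = 0 ∨ a = 1) (hb : b = 0 ∨ b = 1) :
    Disjoint (Sys π μ L ((π ^ a) p)) (Sys π μ L ((π ^ b) (qq π μ p))) := by
  obtain ⟨v, rfl⟩ : ∃ v, p = (π ^ (3 : ℤ)) v := ⟨(π ^ (-3 : ℤ)) p, by rw [zp_add]; simp⟩
  have hq : qq π μ ((π ^ (3 : ℤ)) v) = (π ^ (3 : ℤ)) (μ v) := by
    simp only [qq, Equiv.Perm.mul_apply, zp_add]
    simp
  have mv : ∀ {s t : ℤ} {x y : V}, (π ^ s) x = (π ^ t) y → x = (π ^ (t - s)) y := by
    intro s t x y e
    apply (π ^ s).injective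
    rw [e, zp_add]; congr 2; ring
  rw [hq, zp_add, zp_add, Finset.disjoint_left]
  intro z h1 h2
  unfold Sys at h1 h2
  obtain ⟨j, hj, h1⟩ := mem_biUnion.1 h1
  obtain ⟨k, hk, h2⟩ := mem_biUnion.1 h2
  obtain ⟨t, t1, t2, e1⟩ := mem_Iv.1 h1
  obtain ⟨u, u1, u2, e2⟩ := mem_Iv.1 h2
  rw [mem_Icc] at hj hk
  have e := e1.trans e2.symm
  by_cases j3 : j = 3 <;> by_cases k3 : k = 3
  · subst j3 k3
    rw [Cen_three, Cen_three, zp_add, zp_add] at e
    refine H.g1 v ?_ (mv e.symm)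
    have : |t + (a + 3) - (u + (b + 3))| ≤ 2 * L + 1 := abs_le.2 ⟨by omega, by omega⟩
    omega
  · subst j3
    rw [Cen_three, Cen_ne _ _ k3, zp_add, zp_add] at e
    refine H.g2 (μ v) (k := k + (b + 3)) (t := t + (a + 3) - u) (by omega) ?_ ?_
    · have : |t + (a + 3) - u| ≤ 2 * L + 4 := abs_le.2 ⟨by omega, by omega⟩
      have : |k + (b + 3)| ≤ 6 := abs_le.2 ⟨by omega, by omega⟩
      omega
    · rw [H.inv]; exact mv e.symm
  · subst k3
    rw [Cen_three, Cen_ne _ _ j3, zp_add, zp_add] at e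
    refine H.g2 v (k := j + (a + 3)) (t := u + (b + 3) - t) (by omega) ?_ (mv e)
    have : |u + (b + 3) - t| ≤ 2 * L + 4 := abs_le.2 ⟨by omega, by omega⟩
    have : |j + (a + 3)| ≤ 6 := abs_le.2 ⟨by omega, by omega⟩
    omega
  · rw [Cen_ne _ _ j3, Cen_ne _ _ k3, zp_add, zp_add] at e
    by_cases htu : t = u
    · subst htu
      refine H.g1 v ?_ (mv (μ.injective ((π ^ t).injective e)).symm)
      have : |j + (a + 3) - (k + (b + 3))| ≤ 6 := abs_le.2 ⟨by omega, by omega⟩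
      omega
    · refine H.g3 ((π ^ (j + (a + 3))) v) (a := u - t) (b := k + (b + 3)) (e := -(j + (a + 3)))
        (by omega) (by omega) (by omega) ?_ ?_
      · have : |u - t| ≤ 2 * L := abs_le.2 ⟨by omega, by omega⟩
        have : |k + (b + 3)| ≤ 6 := abs_le.2 ⟨by omega, by omega⟩
        have : |-(j + (a + 3))| ≤ 6 := abs_le.2 ⟨by omega, by omega⟩
        omega
      · rw [zp_add, neg_add_cancel, zpow_zero, Equiv.Perm.one_apply, ← mv e, H.inv]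

end Pool.Agent.P.MP_e59a69_co
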