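import Pool.Agent.P.MP_e59a69_co.SRSigma
import Pool.Agent.P.MP_e59a69_co.SRWalk
import Pool.Agent.P.MP_e59a69_co.SRJoin

/-! From a thin, spanning, conflict-free set of sites to the orientation of the matching. -/

open Finset

namespace Pool.Agent.P.MP_e59a69_co

variable {V : Type} [Fintype V] [DecidableEq V] {π μ : Equiv.Perm V} {c : ℕ}

/-- the four candidate positions of a single at a site -/
def pos (π μ : Equiv.Perm V) (a : Bool × Bool) : Equiv.Perm V :=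
  π ^ (if a.1 then (1 : ℤ) else 0) * (if a.2 then qq π μ else 1)

/-- the test words of a site -/
def tw (π μ : Equiv.Perm V) (L : ℕ) (i : (Bool × Bool) × Fin 6 × Bool) : Equiv.Perm V :=
  hbase π μ L i.2 * pos π μ i.1

/-- two sites are in conflict -/
def Conf (π μ : Equiv.Perm V) (L : ℕ) (k k' : V) : Prop :=
  ∃ a a' : Bool × Bool, ¬ Disjoint (Sys π μ L (pos π μ a k)) (Sys π μ L (pos π μ a' k'))

omit [Fintype V] [DecidableEq V] in
lemma qq_qq (hμ : ∀ v, μ (μ v) = v) (v : V) : qq π μ (qq π μ v) = v := by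
  simp only [qq, Equiv.Perm.mul_apply, zp_add, neg_add_cancel, zpow_zero, Equiv.Perm.one_apply, hμ,
    add_neg_cancel]

omit [Fintype V] [DecidableEq V] in
lemma qq_ne (hμ : ∀ v, μ v ≠ v) (v : V) : qq π μ v ≠ v := by
  intro e
  apply hμ ((π ^ (-3 : ℤ)) v)
  apply (π ^ (3 : ℤ)).injective
  rw [zp_add]
  simpa [qq] using e

omit [Fintype V] [DecidableEq V] in
lemma wd_tw (L : ℕ) (i : (Bool × Bool) × Fin 6 × Bool) : Wd π μ (L + 13) (tw π μ L i) := by
  have h1 : Wd π μ (L + 1) (π ^ (if i.2.2 then (0 : ℤ) else -(L + 1))) :=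
    (wd_zpow _).mono (by split_ifs <;> omega)
  have h2 : Wd π μ 4 (Cen π μ ((i.2.1 : ℕ) - 2)) := by
    unfold Cen
    split_ifs
    · exact wd_one.mono (by omega)
    · exact (wd_mu.mul (wd_zpow _)).mono (by have := i.2.1.2; omega)
  have h3 : Wd π μ 1 (π ^ (if i.1.1 then (1 : ℤ) else 0)) :=
    (wd_zpow _).mono (by split_ifs <;> omega)
  have h4 : Wd π μ 7 (if i.1.2 then qq π μ else 1) := by
    split_ifs
    · exact ((wd_zpow 3).mul wd_mu).mul (wd_zpow (-3))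
    · exact wd_one.mono (by omega)
  exact ((h1.mul h2).mul (h3.mul h4)).mono (by omega)

lemma conf_card (L : ℕ) (k : V) [DecidablePred (Conf π μ L k)] :
    #{y | Conf π μ L k y} ≤ (24 * (2 * L + 1)) ^ 2 := by
  let T : Finset ((Bool × Bool) × ℤ × ℤ) := univ ×ˢ Icc (-2 : ℤ) 3 ×ˢ Icc (-L : ℤ) L
  let u : (Bool × Bool) × ℤ × ℤ → Equiv.Perm V := fun τ =>
    π ^ τ.2.2 * Cen π μ τ.2.1 * pos π μ τ.1
  have hT : #T = 24 * (2 * L + 1) := by
    simp only [T, card_product, card_univ, Fintype.card_prod, Fintype.card_bool, Int.card_Icc]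
    have : ((L : ℤ) + 1 - -L).toNat = 2 * L + 1 := by omega
    have h6 : ((3 : ℤ) + 1 - -2).toNat = 6 := rfl
    rw [this, h6]
    ring
  have hm : ∀ a x z, z ∈ Sys π μ L (pos π μ a x) → ∃ τ ∈ T, u τ x = z := by
    intro a x z hz
    obtain ⟨j, hj, hz⟩ := mem_biUnion.1 hz
    obtain ⟨t, t1, t2, e⟩ := mem_Iv.1 hz
    exact ⟨(a, j, t), by simp only [T, mem_product, mem_univ, true_and]; exact ⟨hj, mem_Icc.2 ⟨t1, t2⟩⟩,
      e⟩
  rw [← hT, sq, ← card_product]
  refine le_trans (card_le_card fun y hy => ?_)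
    (card_image_le (f := fun p : _ × _ => (u p.2).symm (u p.1 k)))
  obtain ⟨a, a', h⟩ := (mem_filter.1 hy).2
  obtain ⟨z, z1, z2⟩ := not_disjoint_iff.1 h
  obtain ⟨τ, hτ, e⟩ := hm _ _ _ z1
  obtain ⟨τ', hτ', e'⟩ := hm _ _ _ z2
  exact mem_image.2 ⟨(τ, τ'), mem_product.2 ⟨hτ, hτ'⟩, by
    rw [Equiv.symm_apply_eq, e, e']⟩

omit [Fintype V] in
lemma seg_half {L : ℕ} (hL : 1 ≤ L) (X : Finset V) (x : V)
    (h : ∀ t : ℕ, t < L → (π ^ (t + 1)) x ∈ X) :
    seg π L x (fun v => if v ∈ X then 1 else 0) = 1 := by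
  rw [seg_apply, Finset.sum_congr rfl fun t ht => if_pos (h t (mem_range.1 ht))]
  have : (L : ℝ) ≠ 0 := by positivity
  simp [this]

lemma seg_half' {L : ℕ} (X : Finset V) (x : V)
    (h : ∀ t : ℕ, t < L → (π ^ (t + 1)) x ∈ Xᶜ) :
    seg π L x (fun v => if v ∈ X then 1 else 0) = 0 := by
  rw [seg_apply, Finset.sum_congr rfl fun t ht => if_neg (mem_compl.1 (h t (mem_range.1 ht)))]
  simp

theorem sr_sites (H : Hy π μ c) {L : ℕ} (hL2 : 2 ≤ L) (hL : 4 * L + 40 ≤ c) (K : Finset V)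
    (hconf : ∀ k ∈ K, ∀ k' ∈ K, k ≠ k' → ¬ Conf π μ L k k')
    (hspan : ∀ x : V → ℝ, (∀ v, x (π v) = x v) → (∀ e ∈ K, x e = x (qq π μ e)) →
      ∀ v, x v = x (qq π μ v))
    (hthin : ∀ X : Finset V, 60 * ∑ k ∈ K, ∑ i, (seg π L (tw π μ L i k)
      (fun v => if v ∈ X then 1 else 0) - seg π L k (fun v => if v ∈ X then 1 else 0)) ^ 2 ≤
        (fc π X + mc μ X : ℕ)) :
    ∃ σ : V → ℤ, (∀ v, σ v = 1 ∨ σ v = -1) ∧ (∀ v, σ (μ v) = - σ v) ∧
      ∀ X : Finset V, 5 * ∑ v ∈ X, σ v ≤ (mc μ X + 6 * fc π X : ℕ) := by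
  classical
  set q := qq π μ with hq
  have hqq : ∀ v, q (q v) = v := qq_qq H.inv
  have hqn : ∀ v, q v ≠ v := qq_ne H.ne
  obtain ⟨x, P, p1, p2, p3⟩ := exists_parity π q hqq hqn K hspan
  let k : V → V := fun p => if p ∈ K then p else q p
  have hk : ∀ p ∈ P, k p ∈ K := fun p hp => by
    simp only [k]
    split_ifs with h
    · exact h
    · exact (p2 p hp).resolve_left h
  have hpos : ∀ p (a : ℤ), a = 0 ∨ a = 1 → ∃ b, pos π μ b (k p) = (π ^ a) p := by
    intro p a ha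
    refine ⟨(decide (a = 1), decide (p ∉ K)), ?_⟩
    by_cases h : p ∈ K <;> rcases ha with rfl | rfl <;> simp [pos, k, h, ← hq, hqq]
  have hpos' : ∀ p (a : ℤ), a = 0 ∨ a = 1 → ∃ b, pos π μ b (k p) = (π ^ a) (q p) := by
    intro p a ha
    refine ⟨(decide (a = 1), decide (p ∈ K)), ?_⟩
    by_cases h : p ∈ K <;> rcases ha with rfl | rfl <;> simp [pos, k, h, ← hq]
  have hkk : ∀ p p', k p = k p' → p' = p ∨ p' = q p := by
    intro p p' e
    simp only [k] at e
    split_ifs at e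
    · exact Or.inl e.symm
    · exact Or.inr (by rw [e, hqq])
    · exact Or.inr e.symm
    · exact Or.inl (q.injective e).symm
  have hP : ∀ p ∈ P, ∀ p' ∈ P, p ≠ p' → ∀ a b : ℤ, a = 0 ∨ a = 1 → b = 0 ∨ b = 1 →
      Disjoint (Sys π μ L ((π ^ a) p)) (Sys π μ L ((π ^ b) p')) := by
    intro p hp p' hp' hne a b ha hb
    by_cases e : k p = k p'
    · rcases hkk p p' e with h | h
      · exact absurd h.symm hne
      · rw [h]; exact H.site_disj hL p ha hb
    · obtain ⟨u, hu⟩ := hpos p a ha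
      obtain ⟨u', hu'⟩ := hpos p' b hb
      by_contra hc
      exact hconf _ (hk p hp) _ (hk p' hp') e ⟨u, u', by rwa [hu, hu']⟩
  have hself : ∀ v (t : ℤ), -2 ≤ t → t ≤ 2 → (π ^ t) v ∈ Sys π μ L v := fun v t h1 h2 =>
    pow_mem_Sys v (by omega) (by omega)
  have hne : ∀ v, π v ≠ v := fun v => by
    simpa using H.len v 1 one_ne_zero (by simp; omega)
  have hPπ : ∀ p ∈ P, π p ∉ P := fun p hp h => by
    have := hP p hp (π p) h (hne p).symm 1 0 (Or.inr rfl) (Or.inl rfl)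
    simp only [zpow_one, zpow_zero, Equiv.Perm.one_apply] at this
    exact Finset.disjoint_left.1 this (by simpa using hself (π p) 0 (by omega) (by omega))
      (by simpa using hself (π p) 0 (by omega) (by omega))
  obtain ⟨s, hv, s1, s2, s3⟩ := exists_singles π x P hPπ p3
  have hs : ∀ p, ∃ a : ℤ, (a = 0 ∨ a = 1) ∧ s p = (π ^ a) p := fun p => by
    rcases s1 p with h | h
    · exact ⟨0, Or.inl rfl, by simpa using h⟩
    · exact ⟨1, Or.inr rfl, by simpa using h⟩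
  let b : V → V := fun z => if z ∈ P then z else π.symm z
  have hb : ∀ p ∈ P, b (s p) = p := fun p hp => by
    rcases s1 p with h | h <;> rw [h]
    · simp [b, hp]
    · simp [b, hPπ p hp]
  let Q : V → V := fun z => s (q (b z))
  have hQ : ∀ p ∈ P, Q (s p) = s (q p) := fun p hp => by simp only [Q, hb p hp]
  have hdis : ∀ t ∈ P.image s, ∀ t' ∈ P.image s, t ≠ t' →
      Disjoint (Sys π μ L t) (Sys π μ L t') := by
    intro t ht t' ht' hne
    obtain ⟨p, hp, rfl⟩ := mem_image.1 ht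
    obtain ⟨p', hp', rfl⟩ := mem_image.1 ht'
    obtain ⟨a, ha, e⟩ := hs p
    obtain ⟨a', ha', e'⟩ := hs p'
    rw [e, e']
    exact hP p hp p' hp' (fun h => hne (by rw [h])) a a' ha ha'
  have hQS : ∀ t ∈ P.image s, Q t ∈ P.image s ∧ Q t ≠ t ∧ Q (Q t) = t := by
    intro t ht
    obtain ⟨p, hp, rfl⟩ := mem_image.1 ht
    rw [hQ p hp, hQ _ (p1 p hp), hqq]
    refine ⟨mem_image_of_mem s (p1 p hp), fun e => hqn p ?_, rfl⟩
    rw [← hb _ (p1 p hp), e, hb p hp]
  refine sr_sigma H (by omega) (P.image s) Q hv hQS s2 s3 (fun t ht h => ?_) fun X => ?_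
  · have a1 : π.symm t ≠ t := fun e => hne t (by rw [Equiv.symm_apply_eq] at e; exact e.symm)
    exact Finset.disjoint_left.1 (hdis _ h _ ht a1)
      (by simpa using hself (π.symm t) 0 (by omega) (by omega))
      (by simpa using hself t (-1) (by omega) (by omega))
  refine sr_thin H hL2 (by omega) _ Q (fun t ht => ⟨(hQS t ht).1, (hQS t ht).2.2⟩) hdis
    (fun X B hB h => ?_) X
  let y : V → ℝ := fun v => if v ∈ X then 1 else 0
  let g : V → ℝ := fun z => ∑ i, (seg π L (tw π μ L i z) y - seg π L z y) ^ 2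
  have hg0 : ∀ z, 0 ≤ g z := fun z => Finset.sum_nonneg fun i _ => sq_nonneg _
  have hg : ∀ t ∈ B, 1 / 2 ≤ g (k (b t)) := by
    intro t ht
    obtain ⟨p, hp, rfl⟩ := mem_image.1 (hB ht)
    obtain ⟨-, -, ⟨i, hi⟩, ⟨i', hi'⟩⟩ := h _ ht
    rw [hQ p hp] at hi'
    rw [hb p hp]
    obtain ⟨a, ha, e⟩ := hs p
    obtain ⟨a', ha', e'⟩ := hs (q p)
    obtain ⟨u, hu⟩ := hpos p a ha
    obtain ⟨u', hu'⟩ := hpos' p a' ha'
    have v1 : seg π L (tw π μ L (u, i) (k p)) y = 1 :=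
      seg_half (by omega) X _ (by simpa only [tw, Equiv.Perm.mul_apply, hu, ← e] using hi)
    have v2 : seg π L (tw π μ L (u', i') (k p)) y = 0 :=
      seg_half' X _ (by simpa only [tw, Equiv.Perm.mul_apply, hu', ← e'] using hi')
    have hne : (u, i) ≠ (u', i') := fun e => by rw [e, v2] at v1; exact zero_ne_one v1
    have := Finset.sum_le_sum_of_subset_of_nonneg (subset_univ {(u, i), (u', i')})
      (f := fun i => (seg π L (tw π μ L i (k p)) y - seg π L (k p) y) ^ 2)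
      fun i _ _ => sq_nonneg _
    rw [Finset.sum_pair hne, v1, v2] at this
    refine le_trans ?_ this
    nlinarith [sq_nonneg (seg π L (k p) y - 1 / 2)]
  have hinj : Set.InjOn (fun t => k (b t)) B := by
    intro t ht t' ht' e
    obtain ⟨p, hp, rfl⟩ := mem_image.1 (hB ht)
    obtain ⟨p', hp', rfl⟩ := mem_image.1 (hB ht')
    simp only [hb p hp, hb p' hp'] at e
    rcases hkk p p' e with h1 | h1
    · rw [h1]
    · exact absurd (h _ ht').1 (by rw [h1, ← hQ p hp]; exact (h _ ht).2.1)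
  have e1 : (#B : ℝ) * (1 / 2) ≤ ∑ z ∈ K, g z := by
    calc (#B : ℝ) * (1 / 2) = ∑ _t ∈ B, (1 / 2 : ℝ) := by simp
      _ ≤ ∑ t ∈ B, g (k (b t)) := Finset.sum_le_sum hg
      _ = ∑ z ∈ B.image fun t => k (b t), g z := (Finset.sum_image hinj).symm
      _ ≤ _ := Finset.sum_le_sum_of_subset_of_nonneg (fun z hz => by
          obtain ⟨t, ht, rfl⟩ := mem_image.1 hz
          obtain ⟨p, hp, rfl⟩ := mem_image.1 (hB ht)
          rw [hb p hp]; exact hk p hp) fun z _ _ => hg0 z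
  have e2 := hthin X
  have e3 : ((30 * #B : ℕ) : ℝ) ≤ (fc π X + mc μ X : ℕ) := by
    refine le_trans ?_ e2
    push_cast
    linarith
  exact_mod_cast e3

end Pool.Agent.P.MP_e59a69_co
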