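import Pool.Agent.P.MP_e59a69_co.SRBase

/-! Truncated distance: balls of small radius are trees. -/

open Finset

namespace Pool.Agent.P.MP_e59a69_co

variable {V : Type} [Fintype V] [DecidableEq V] {π μ : Equiv.Perm V} {c : ℕ}

/-- properties of the distance truncated at `r` -/
structure IsDist (π μ : Equiv.Perm V) (r : ℕ) (d : V → V → ℕ) : Prop where
  self : ∀ x, d x x = 0
  le : ∀ x y, d x y ≤ r
  zero : ∀ x y, d x y = 0 → y = x
  base : ∀ x y l, d x y ≤ d (Lt π μ l x) y + 1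
  root : ∀ x l, d x (Lt π μ l x) = 1
  tree : ∀ x y, 0 < d x y → d x y < r → ∃ l0, d x (Lt π μ l0 y) + 1 = d x y ∧
    ∀ l, l ≠ l0 → d x (Lt π μ l y) = d x y + 1

lemma srxtree_count (π μ : Equiv.Perm V) (X : Finset V) :
    #{p ∈ X ×ˢ (univ : Finset (Fin 3)) | Lt π μ p.2 p.1 ∈ X} + (fc π X + mc μ X) ≤ 3 * #X := by
  have h1 : #{p ∈ X ×ˢ (univ : Finset (Fin 3)) | Lt π μ p.2 p.1 ∈ X} =
      #{z ∈ X | π z ∈ X} + #{z ∈ X | π⁻¹ z ∈ X} + #{z ∈ X | μ z ∈ X} := by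
    simp only [card_filter]
    rw [sum_product_right, Fin.sum_univ_three]
    rfl
  have h2 : fc π X ≤ #{z ∈ X | π z ∉ X} + #{z ∈ X | π⁻¹ z ∉ X} := by
    refine (card_le_card (t := {z ∈ X | π z ∉ X} ∪
      ({z ∈ X | π⁻¹ z ∉ X} : Finset V).image (fun z => π⁻¹ z)) fun v hv => ?_).trans
      ((card_union_le _ _).trans (Nat.add_le_add_left card_image_le _))
    have hv' := (mem_filter.1 hv).2
    by_cases h : v ∈ X
    · exact mem_union_left _ (mem_filter.2 ⟨h, fun h' => hv' (iff_of_true h h')⟩)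
    · refine mem_union_right _ (mem_image.2 ⟨π v, mem_filter.2 ⟨?_, ?_⟩, by simp⟩)
      · by_contra h'
        exact hv' (iff_of_false h h')
      · simpa using h
  have h3 := card_filter_add_card_filter_not (s := X) (fun z => π z ∈ X)
  have h4 := card_filter_add_card_filter_not (s := X) (fun z => π⁻¹ z ∈ X)
  have h5 := card_filter_add_card_filter_not (s := X) (fun z => μ z ∈ X)
  unfold mc
  omega

lemma srxtree_path {r : ℕ} {x : V} {e : V → ℕ} {pl : V → Fin 3}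
    (hp : ∀ z, z ≠ x → e z < r → e (Lt π μ (pl z) z) + 1 = e z) (n : ℕ) :
    ∀ z, e z ≤ n → e z < r → ∃ X : Finset V, z ∈ X ∧ x ∈ X ∧ #X ≤ n + 1 ∧
      ∀ u ∈ X, u ≠ x → e u < r ∧ Lt π μ (pl u) u ∈ X := by
  have h0 : ∃ X : Finset V, x ∈ X ∧ x ∈ X ∧ #X ≤ 1 ∧
      ∀ u ∈ X, u ≠ x → e u < r ∧ Lt π μ (pl u) u ∈ X :=
    ⟨{x}, mem_singleton_self x, mem_singleton_self x, (card_singleton x).le,
      fun u hu h => absurd (mem_singleton.1 hu) h⟩
  induction n with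
  | zero =>
    intro z h1 h2
    by_cases h : z = x
    · exact h ▸ h0
    · have := hp z h h2
      omega
  | succ n ih =>
    intro z h1 h2
    by_cases h : z = x
    · obtain ⟨X, a1, a2, a3, a4⟩ := h0
      exact ⟨X, h ▸ a1, a2, by omega, a4⟩
    · have h3 := hp z h h2
      obtain ⟨X, a1, a2, a3, a4⟩ := ih (Lt π μ (pl z) z) (by omega) (by omega)
      refine ⟨insert z X, mem_insert_self _ _, mem_insert_of_mem a2,
        (card_insert_le _ _).trans (by omega), fun u hu hx => ?_⟩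
      rcases mem_insert.1 hu with rfl | hu
      · exact ⟨h2, mem_insert_of_mem a1⟩
      · exact ⟨(a4 u hu hx).1, mem_insert_of_mem (a4 u hu hx).2⟩

lemma srxtree_up (H : Hy π μ c) {r : ℕ} (hc : 2 * r + 4 ≤ c) {x : V} {e : V → ℕ}
    {pl : V → Fin 3} (hp : ∀ z, z ≠ x → e z < r → e (Lt π μ (pl z) z) + 1 = e z) {y : V}
    (hy : e y < r) {l : Fin 3} (hl : l ≠ pl y) : e y < e (Lt π μ l y) := by
  by_contra hle
  rw [not_lt] at hle
  obtain ⟨X₁, a1, a2, a3, a4⟩ := srxtree_path hp (e y) y le_rfl hy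
  obtain ⟨X₂, b1, -, b3, b4⟩ := srxtree_path hp (e y) (Lt π μ l y) hle (by omega)
  have c0 := card_union_le X₁ X₂
  have c1 : y ∈ X₁ ∪ X₂ := mem_union_left _ a1
  have c2 : Lt π μ l y ∈ X₁ ∪ X₂ := mem_union_right _ b1
  have c3 : x ∈ X₁ ∪ X₂ := mem_union_left _ a2
  have c4 : ∀ u ∈ X₁ ∪ X₂, u ≠ x → e u < r ∧ Lt π μ (pl u) u ∈ X₁ ∪ X₂ := fun u hu hx => by
    rcases mem_union.1 hu with h | h
    · exact ⟨(a4 u h hx).1, mem_union_left _ (a4 u h hx).2⟩
    · exact ⟨(b4 u h hx).1, mem_union_right _ (b4 u h hx).2⟩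
  have c5 := H.small ⟨y, c1⟩ (by omega)
  have c6 := srxtree_count π μ (X₁ ∪ X₂)
  generalize X₁ ∪ X₂ = X at c1 c2 c3 c4 c5 c6
  let σ : V × Fin 3 → V × Fin 3 := fun p => (Lt π μ p.2 p.1, iv p.2)
  have hσ : Function.Involutive σ := fun p => Prod.ext (Lt_iv H.inv p.2 p.1) (iv_iv p.2)
  let S : Finset (V × Fin 3) := insert (y, l) ((X.erase x).image fun z => (z, pl z))
  have hS : ∀ p ∈ S, p.1 ∈ X ∧ Lt π μ p.2 p.1 ∈ X ∧ e (Lt π μ p.2 p.1) ≤ e p.1 ∧
      (p = (y, l) ∨ e (Lt π μ p.2 p.1) < e p.1) := fun p hp' => by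
    rcases mem_insert.1 hp' with rfl | h
    · exact ⟨c1, c2, hle, Or.inl rfl⟩
    · obtain ⟨z, hz, rfl⟩ := mem_image.1 h
      obtain ⟨z1, z2⟩ := mem_erase.1 hz
      have h1 := hp z z1 (c4 z z2 z1).1
      exact ⟨z2, (c4 z z2 z1).2, h1 ▸ Nat.le_succ _, Or.inr (h1 ▸ Nat.lt_succ_self _)⟩
  have d1 : #S = #X := by
    rw [card_insert_of_notMem, card_image_of_injective _ fun a b h => (Prod.ext_iff.1 h).1,
      card_erase_add_one c3]
    intro h
    obtain ⟨z, -, hz⟩ := mem_image.1 h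
    obtain ⟨rfl, h2⟩ := Prod.ext_iff.1 hz
    exact hl h2.symm
  have d2 : Disjoint S (S.image σ) := by
    refine disjoint_left.2 fun p h1 h2 => ?_
    obtain ⟨q, hq, rfl⟩ := mem_image.1 h2
    obtain ⟨-, -, e1, e2⟩ := hS _ h1
    obtain ⟨-, -, e3, e4⟩ := hS _ hq
    have e5 : Lt π μ (σ q).2 (σ q).1 = q.1 := Lt_iv H.inv q.2 q.1
    have e6 : (σ q).1 = Lt π μ q.2 q.1 := rfl
    rw [e5, e6] at e1 e2
    have e7 : q = (y, l) := e4.resolve_right (by omega)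
    have e8 : σ q = (y, l) := e2.resolve_right (by omega)
    rw [e7] at e8
    obtain ⟨e9, e10⟩ := Prod.ext_iff.1 e8
    have e11 : l = 2 := by
      revert e10
      fin_cases l <;> simp [σ, iv]
    subst e11
    exact H.ne y e9
  have d3 : S ∪ S.image σ ⊆ {p ∈ X ×ˢ (univ : Finset (Fin 3)) | Lt π μ p.2 p.1 ∈ X} := by
    intro p hp'
    rcases mem_union.1 hp' with h | h
    · exact mem_filter.2 ⟨mem_product.2 ⟨(hS p h).1, mem_univ _⟩, (hS p h).2.1⟩
    · obtain ⟨q, hq, rfl⟩ := mem_image.1 h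
      refine mem_filter.2 ⟨mem_product.2 ⟨(hS q hq).2.1, mem_univ _⟩, ?_⟩
      have e5 : Lt π μ (σ q).2 (σ q).1 = q.1 := Lt_iv H.inv q.2 q.1
      rw [e5]
      exact (hS q hq).1
  have d4 := card_le_card d3
  rw [card_union_of_disjoint d2, card_image_of_injective _ hσ.injective, d1] at d4
  omega

theorem Hy.exists_dist (H : Hy π μ c) (r : ℕ) (hr : 1 ≤ r) (hc : 2 * r + 4 ≤ c) :
    ∃ d : V → V → ℕ, IsDist π μ r d := by
  classical
  have hex : ∀ x y : V, ∃ n, (∃ w, Wd π μ n w ∧ w x = y) ∨ r ≤ n := fun x y => ⟨r, Or.inr le_rfl⟩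
  obtain ⟨d, hd1, hd2⟩ : ∃ d : V → V → ℕ,
      (∀ x y, (∃ w, Wd π μ (d x y) w ∧ w x = y) ∨ r ≤ d x y) ∧
      ∀ x y n, ((∃ w, Wd π μ n w ∧ w x = y) ∨ r ≤ n) → d x y ≤ n :=
    ⟨fun x y => Nat.find (hex x y), fun x y => Nat.find_spec (hex x y),
      fun x y n h => Nat.find_min' (hex x y) h⟩
  have h0 : ∀ x y, d x y = 0 → y = x := fun x y h => by
    obtain ⟨w, ⟨l, h1, rfl⟩, h2⟩ := (hd1 x y).resolve_right (by omega)
    rw [h, Nat.le_zero, List.length_eq_zero_iff] at h1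
    subst h1
    exact h2.symm
  have h1 : ∀ x y l, d x (Lt π μ l y) ≤ d x y + 1 := fun x y l => by
    refine hd2 _ _ _ ((hd1 x y).imp (fun ⟨w, a, b⟩ => ⟨Lt π μ l * w, ?_, ?_⟩) fun h => by omega)
    · exact ((wd_letter l).mul a).mono (by omega)
    · rw [Equiv.Perm.mul_apply, b]
  have h2 : ∀ x, d x x = 0 := fun x => Nat.le_zero.1 (hd2 x x 0 (Or.inl ⟨1, wd_one, rfl⟩))
  have h3 : ∀ x z, ∃ l, z ≠ x → d x z < r → d x (Lt π μ l z) + 1 = d x z := fun x z => by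
    by_cases hz : z ≠ x ∧ d x z < r
    · obtain ⟨w, ⟨L, a, rfl⟩, b⟩ := (hd1 x z).resolve_right (by omega)
      cases L with
      | nil => exact absurd b.symm hz.1
      | cons k L =>
        refine ⟨iv k, fun _ _ => le_antisymm ?_ ?_⟩
        · have h4 := hd2 x (Lt π μ (iv k) z) L.length (Or.inl ⟨_, ⟨L, le_rfl, rfl⟩, ?_⟩)
          · rw [List.length_cons] at a
            omega
          · rw [← b, List.map_cons, List.prod_cons, Equiv.Perm.mul_apply, Lt_iv H.inv]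
        · have h4 := h1 x (Lt π μ (iv k) z) k
          rwa [Lt_iv' H.inv] at h4
    · exact ⟨0, fun a b => absurd ⟨a, b⟩ hz⟩
  refine ⟨d, h2, fun x y => hd2 x y r (Or.inr le_rfl), h0, fun x y l => ?_, fun x l => ?_,
    fun x y a b => ?_⟩
  · refine hd2 _ _ _ ((hd1 (Lt π μ l x) y).imp
      (fun ⟨w, a, b⟩ => ⟨w * Lt π μ l, a.mul (wd_letter l), b⟩) fun h => by omega)
  · have h4 := h1 x x l
    have h5 : Lt π μ l x ≠ x := by
      fin_cases l
      · simpa [Lt] using H.len x 1 one_ne_zero (by rw [abs_one]; omega)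
      · simpa [Lt] using H.len x (-1) (by norm_num) (by rw [abs_neg, abs_one]; omega)
      · exact H.ne x
    have h6 := mt (h0 x _) h5
    rw [h2] at h4
    omega
  · choose pl hpl using h3 x
    have hy : y ≠ x := fun h => by
      rw [h, h2] at a
      exact lt_irrefl _ a
    refine ⟨pl y, hpl y hy b, fun l hl => le_antisymm (h1 x y l) ?_⟩
    exact srxtree_up H hc hpl b hl

end Pool.Agent.P.MP_e59a69_co
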