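import Pool.Agent.P.MP_e59a69_co.Approx

/-! Sequential selection with multiplicative weights, laminar pairings and two-colourings. -/

open Finset

namespace Pool.Agent.P.MP_e59a69_co

theorem select {V ι κ : Type} [Fintype V] [DecidableEq V] [DecidableEq ι] [Inhabited V]
    (I : Finset ι) (A : ι → Finset V) (q : ℕ) (hq : 0 < q) (hA : ∀ i ∈ I, #(A i) = q)
    (Nb : V → Finset V) (hsym : ∀ u v, u ∈ Nb v → v ∈ Nb u)
    (C : Finset κ) (w : κ → V → ℝ) (hw0 : ∀ k v, 0 ≤ w k v) (hw1 : ∀ k v, w k v ≤ 1)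
    (B : κ → ℝ) (Δ : ℝ) (hΔ : 0 < Δ)
    (hblock : ∀ i ∈ I, ∃ k ∈ C, (∀ v, (#(Nb v ∩ A i) : ℝ) ≤ Δ * w k v) ∧ Δ * B k ≤ q / 2)
    (h0 : ∑ k ∈ C, Real.exp (4 / q * ∑ i ∈ I, ∑ v ∈ A i, w k v - B k) < 1) :
    ∃ s : ι → V, (∀ i ∈ I, s i ∈ A i) ∧ (∀ i ∈ I, ∀ j ∈ I, i ≠ j → s j ∉ Nb (s i)) ∧
      ∀ k ∈ C, ∑ i ∈ I, w k (s i) ≤ B k := by
  classical
  have hqR : (0 : ℝ) < q := by exact_mod_cast hq
  have hneg : ∀ (x : κ → ℝ), ∑ k ∈ C, Real.exp (x k) < 1 → ∀ k ∈ C, x k < 0 := by
    intro x hx k hk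
    have := Finset.single_le_sum (f := fun k => Real.exp (x k))
      (fun k _ => (Real.exp_pos _).le) hk
    exact Real.exp_lt_one_iff.1 (lt_of_le_of_lt this hx)
  have key : ∀ J : Finset ι, J ⊆ I → ∃ s : ι → V, (∀ i ∈ J, s i ∈ A i) ∧
      (∀ i ∈ J, ∀ j ∈ J, i ≠ j → s j ∉ Nb (s i)) ∧
      ∑ k ∈ C, Real.exp (∑ i ∈ J, w k (s i) + 4 / q * ∑ i ∈ I \ J, ∑ v ∈ A i, w k v - B k) < 1 := by
    intro J
    induction J using Finset.induction_on with
    | empty => intro _; exact ⟨fun _ => default, by simp, by simp, by simpa using h0⟩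
    | insert i J hi ih =>
      intro hsub
      have hiI : i ∈ I := hsub (mem_insert_self _ _)
      obtain ⟨s, h1, h2, h3⟩ := ih ((subset_insert _ _).trans hsub)
      obtain ⟨k0, hk0, hb1, hb2⟩ := hblock i hiI
      have h4 := hneg _ h3 k0 hk0
      have h5 : 0 ≤ 4 / (q : ℝ) * ∑ i ∈ I \ J, ∑ v ∈ A i, w k0 v :=
        mul_nonneg (by positivity) (Finset.sum_nonneg fun i _ =>
          Finset.sum_nonneg fun v _ => hw0 _ _)
      let U : Finset V := A i \ J.biUnion fun j => Nb (s j) ∩ A i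
      have hU : (q : ℝ) / 2 < #U := by
        have e1 : #(A i) ≤ #U + #(J.biUnion fun j => Nb (s j) ∩ A i) := by
          simp only [U]; exact card_le_card_sdiff_add_card
        have e2 : #(J.biUnion fun j => Nb (s j) ∩ A i) ≤ ∑ j ∈ J, #(Nb (s j) ∩ A i) :=
          card_biUnion_le
        have e3 : ∑ j ∈ J, (#(Nb (s j) ∩ A i) : ℝ) ≤ Δ * ∑ j ∈ J, w k0 (s j) := by
          rw [Finset.mul_sum]; exact Finset.sum_le_sum fun j _ => hb1 _
        have e4 : Δ * ∑ j ∈ J, w k0 (s j) < Δ * B k0 :=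
          mul_lt_mul_of_pos_left (by linarith) hΔ
        have e5 : (q : ℝ) ≤ #U + ∑ j ∈ J, (#(Nb (s j) ∩ A i) : ℝ) := by
          rw [← hA i hiI]
          exact_mod_cast e1.trans (Nat.add_le_add_left e2 _)
        linarith
      have hUpos : (0 : ℝ) < #U := by linarith
      have hUne : U.Nonempty := by
        rw [← card_pos]; exact_mod_cast hUpos
      let y : κ → ℝ := fun k =>
        ∑ j ∈ J, w k (s j) + 4 / q * ∑ j ∈ I \ insert i J, ∑ v ∈ A j, w k v - B k
      have hy : ∀ k, ∑ j ∈ J, w k (s j) + 4 / q * ∑ j ∈ I \ J, ∑ v ∈ A j, w k v - B k =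
          y k + 4 / q * ∑ v ∈ A i, w k v := by
        intro k
        have : I \ J = insert i (I \ insert i J) := by
          ext x
          simp only [mem_sdiff, mem_insert]
          constructor
          · rintro ⟨p1, p2⟩
            by_cases hx : x = i
            · exact Or.inl hx
            · exact Or.inr ⟨p1, by tauto⟩
          · rintro (rfl | ⟨p1, p2⟩)
            · exact ⟨hiI, hi⟩
            · exact ⟨p1, fun h => p2 (Or.inr h)⟩
        rw [this, Finset.sum_insert (by simp)]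
        simp only [y]; ring
      have havg : ∑ v ∈ U, ∑ k ∈ C, Real.exp (y k + w k v) ≤
          ∑ _v ∈ U, ∑ k ∈ C, Real.exp (y k + 4 / q * ∑ v ∈ A i, w k v) := by
        rw [Finset.sum_comm, Finset.sum_comm (s := U)]
        refine Finset.sum_le_sum fun k _ => ?_
        simp only [Real.exp_add]
        rw [← Finset.mul_sum, ← Finset.mul_sum]
        refine mul_le_mul_of_nonneg_left ?_ (Real.exp_pos _).le
        have m0 : 0 ≤ ∑ v ∈ A i, w k v := Finset.sum_nonneg fun v _ => hw0 _ _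
        have e1 : ∑ v ∈ U, Real.exp (w k v) ≤ ∑ v ∈ U, (1 + 2 * w k v) := by
          refine Finset.sum_le_sum fun v _ => ?_
          have := Real.abs_exp_sub_one_le (x := w k v)
            (by rw [abs_of_nonneg (hw0 k v)]; exact hw1 k v)
          rw [abs_of_nonneg (hw0 k v)] at this
          linarith [(abs_le.1 this).2]
        have e2 : ∑ v ∈ U, w k v ≤ ∑ v ∈ A i, w k v :=
          Finset.sum_le_sum_of_subset_of_nonneg sdiff_subset fun v _ _ => hw0 _ _
        rw [Finset.sum_add_distrib, ← Finset.mul_sum] at e1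
        simp only [Finset.sum_const, nsmul_eq_mul, mul_one] at e1 ⊢
        have e3 := Real.add_one_le_exp (4 / q * ∑ v ∈ A i, w k v)
        have e4 : 2 * ∑ v ∈ A i, w k v ≤ #U * (4 / q * ∑ v ∈ A i, w k v) := by
          rw [← mul_assoc]
          refine mul_le_mul_of_nonneg_right ?_ m0
          rw [← mul_div_assoc, le_div_iff₀ hqR]
          linarith
        have e5 := mul_le_mul_of_nonneg_left e3 hUpos.le
        linarith
      obtain ⟨v, hvU, hv⟩ := Finset.exists_le_of_sum_le hUne havg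
      have hvA : v ∈ A i := (mem_sdiff.1 hvU).1
      have hvN : ∀ j ∈ J, v ∉ Nb (s j) := fun j hj h =>
        (mem_sdiff.1 hvU).2 (mem_biUnion.2 ⟨j, hj, mem_inter.2 ⟨h, hvA⟩⟩)
      have hup : ∀ j ∈ J, Function.update s i v j = s j := fun j hj =>
        Function.update_of_ne (fun h : j = i => hi (h ▸ hj)) _ _
      refine ⟨Function.update s i v, fun j hj => ?_, fun j hj j' hj' hne => ?_, ?_⟩
      · rcases mem_insert.1 hj with rfl | hj
        · simpa using hvA
        · rw [hup j hj]; exact h1 j hj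
      · rcases mem_insert.1 hj with e1 | hj1 <;> rcases mem_insert.1 hj' with e2 | hj2
        · exact absurd (e1.trans e2.symm) hne
        · rw [hup j' hj2, e1, Function.update_self]
          exact fun h => hvN j' hj2 (hsym _ _ h)
        · rw [hup j hj1, e2, Function.update_self]
          exact hvN j hj1
        · rw [hup j hj1, hup j' hj2]; exact h2 j hj1 j' hj2 hne
      · simp only [hy] at h3
        refine lt_of_le_of_lt (le_of_eq ?_) (lt_of_le_of_lt hv h3)
        refine Finset.sum_congr rfl fun k _ => ?_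
        rw [Finset.sum_insert hi, Function.update_self,
          Finset.sum_congr rfl fun j hj => by rw [hup j hj]]
        simp only [y]
        congr 1; ring
  obtain ⟨s, h1, h2, h3⟩ := key I subset_rfl
  refine ⟨s, h1, h2, fun k hk => ?_⟩
  have := hneg _ h3 k hk
  simp only [sdiff_self, bot_eq_empty, sum_empty, mul_zero, add_zero] at this
  linarith

theorem exists_pairing {V : Type} [Fintype V] [DecidableEq V] (L : Finset (Finset V))
    (hL : Laminar L) : ∀ n : ℕ, ∀ T : Finset V, #T = 2 * n →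
      ∃ Q : V → V, (∀ t ∈ T, Q t ∈ T ∧ Q t ≠ t ∧ Q (Q t) = t) ∧
        ∀ K ∈ L, #{t ∈ T | t ∈ K ∧ Q t ∉ K} ≤ 1 := by
  classical
  intro n
  induction n with
  | zero =>
    intro T hT
    have : T = ∅ := by simpa using hT
    subst this
    exact ⟨id, by simp, by simp⟩
  | succ n ih =>
    intro T hT
    obtain ⟨K0, hK0, hmin⟩ := Finset.exists_min_image
      ((insert univ L).filter fun K => 2 ≤ #(T ∩ K)) card
      ⟨univ, by simp only [mem_filter, mem_insert, true_or, inter_univ, true_and]; omega⟩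
    rw [mem_filter] at hK0
    obtain ⟨x, hx, y, hy, hxy⟩ := Finset.one_lt_card.1 (by omega : 1 < #(T ∩ K0))
    rw [mem_inter] at hx hy
    obtain ⟨Q, hQ, hQL⟩ := ih ((T.erase x).erase y) (by
      rw [card_erase_of_mem (mem_erase.2 ⟨hxy.symm, hy.1⟩), card_erase_of_mem hx.1]; omega)
    let Q' : V → V := fun t => if t = x then y else if t = y then x else Q t
    have hQx : Q' x = y := by simp [Q']
    have hQy : Q' y = x := by simp [Q', hxy.symm]
    have hQt : ∀ t, t ≠ x → t ≠ y → Q' t = Q t := fun t h1 h2 => by simp [Q', h1, h2]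
    refine ⟨Q', fun t ht => ?_, fun K hK => ?_⟩
    · by_cases h1 : t = x
      · subst h1; rw [hQx, hQy]; exact ⟨hy.1, hxy.symm, rfl⟩
      by_cases h2 : t = y
      · subst h2; rw [hQy, hQx]; exact ⟨hx.1, hxy, rfl⟩
      obtain ⟨p1, p2, p3⟩ := hQ t (by simp [h1, h2, ht])
      simp only [mem_erase] at p1
      rw [hQt t h1 h2, hQt _ p1.2.1 p1.1]
      exact ⟨p1.2.2, p2, p3⟩
    · have hsame : (x ∈ K ↔ y ∈ K) → #{t ∈ T | t ∈ K ∧ Q' t ∉ K} ≤ 1 := by
        intro hs
        refine le_trans (card_le_card fun t ht => ?_) (hQL K hK)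
        simp only [mem_filter, mem_erase] at ht ⊢
        have h1 : t ≠ x := by rintro rfl; rw [hQx] at ht; tauto
        have h2 : t ≠ y := by rintro rfl; rw [hQy] at ht; tauto
        rw [hQt t h1 h2] at ht
        tauto
      have hcase : K ⊆ K0 ∨ K0 ⊆ K ∨ Disjoint K K0 := by
        rcases mem_insert.1 hK0.1 with rfl | h
        · exact Or.inl (subset_univ _)
        · exact hL K hK K0 h
      rcases hcase with h | h | h
      · by_cases h2 : 2 ≤ #(T ∩ K)
        · have h3 := hmin K (mem_filter.2 ⟨mem_insert_of_mem hK, h2⟩)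
          have h4 := Finset.eq_of_subset_of_card_le h h3
          exact hsame (by rw [h4]; exact iff_of_true hx.2 hy.2)
        · refine le_trans (card_le_card fun t ht => ?_) (by omega : #(T ∩ K) ≤ 1)
          simp only [mem_filter, mem_inter] at ht ⊢
          tauto
      · exact hsame (iff_of_true (h hx.2) (h hy.2))
      · exact hsame (iff_of_false (fun h1 => Finset.disjoint_left.1 h h1 hx.2)
          (fun h1 => Finset.disjoint_left.1 h h1 hy.2))

theorem two_colouring {V : Type} [Fintype V] [DecidableEq V] (μ ν : V → V)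
    (hμ : ∀ v, μ (μ v) = v) (hν : ∀ v, ν (ν v) = v) (hμ' : ∀ v, μ v ≠ v) (hν' : ∀ v, ν v ≠ v) :
    ∃ σ : V → ℤ, (∀ v, σ v = 1 ∨ σ v = -1) ∧ (∀ v, σ (μ v) = - σ v) ∧ ∀ v, σ (ν v) = - σ v := by
  classical
  let m : Equiv.Perm V := Function.Involutive.toPerm μ hμ
  let n : Equiv.Perm V := Function.Involutive.toPerm ν hν
  have hmm : m * m = 1 := Equiv.ext fun v => hμ v
  have hnn : n * n = 1 := Equiv.ext fun v => hν v
  let ρ : Equiv.Perm V := m * n
  have hconj : ∀ k : ℤ, m * ρ ^ k = ρ ^ (-k) * m := by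
    intro k
    have h1 : m * ρ * m⁻¹ = ρ⁻¹ := by
      have a1 : m⁻¹ = m := inv_eq_of_mul_eq_one_right hmm
      have a2 : n⁻¹ = n := inv_eq_of_mul_eq_one_right hnn
      simp only [ρ, mul_inv_rev, a1, a2, ← mul_assoc, hmm, one_mul]
    have h2 : m * ρ ^ k * m⁻¹ = ρ ^ (-k) := by
      rw [← conj_zpow, h1, inv_zpow']
    rw [← h2]; group
  have hn : n = m * ρ := by simp only [ρ, ← mul_assoc, hmm, one_mul]
  have hns : ∀ v, ¬ ρ.SameCycle v (μ v) := by
    rintro v ⟨k, hk⟩
    rcases Int.even_or_odd' k with ⟨j, rfl | rfl⟩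
    · apply hμ' ((ρ ^ j) v)
      have e1 : μ ((ρ ^ j) v) = (m * ρ ^ j) v := rfl
      rw [e1, hconj, Equiv.Perm.mul_apply]
      have e2 : m v = μ v := rfl
      rw [e2, ← hk, ← Equiv.Perm.mul_apply, ← zpow_add]
      congr 2; ring
    · apply hν' ((ρ ^ j) v)
      have e1 : ν ((ρ ^ j) v) = (n * ρ ^ j) v := rfl
      rw [e1, hn, mul_assoc, ← zpow_one_add, hconj, Equiv.Perm.mul_apply]
      have e2 : m v = μ v := rfl
      rw [e2, ← hk, ← Equiv.Perm.mul_apply, ← zpow_add]
      congr 2; ring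
  let idx : V → ℕ := fun v =>
    (Fintype.equivFin V (Quotient.out (Quotient.mk (Equiv.Perm.SameCycle.setoid ρ) v)) : ℕ)
  have hidx : ∀ u v, idx u = idx v ↔ ρ.SameCycle u v := by
    intro u v
    constructor
    · intro h
      have h1 := (Fintype.equivFin V).injective (Fin.ext h)
      have h2 := Quotient.out_injective h1
      exact Quotient.exact h2
    · intro h
      simp only [idx]
      rw [Quotient.sound (s := Equiv.Perm.SameCycle.setoid ρ) h]
  have h1 : ∀ v, idx (μ (ν v)) = idx v := fun v =>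
    (hidx _ _).2 (Equiv.Perm.SameCycle.symm ⟨1, by rw [zpow_one]; rfl⟩)
  have h2 : ∀ v, idx (ν v) = idx (μ v) := fun v => by
    have := h1 (ν v); rw [hν] at this; exact this.symm
  have h3 : ∀ v, idx v ≠ idx (μ v) := fun v h => hns v ((hidx _ _).1 h)
  refine ⟨fun v => if idx v < idx (μ v) then 1 else -1, fun v => ?_, fun v => ?_, fun v => ?_⟩
  · dsimp only; split_ifs <;> simp
  · have := h3 v
    simp only [hμ]
    split_ifs <;> omega
  · have := h3 v
    simp only [h1, h2]
    split_ifs <;> omega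

end Pool.Agent.P.MP_e59a69_co
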