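import Pool.Agent.P.MP_e59a69_co.Special

/-! The orientation of the perfect matching. -/

open Finset Function

namespace Pool.Agent.P.MP_e59a69_co

variable {V : Type} [Fintype V] [DecidableEq V] {π μ : Equiv.Perm V} {c : ℕ}

omit [Fintype V] [DecidableEq V] in
lemma even_card_of_invol (T : Finset V) (g : V → V)
    (hg : ∀ t ∈ T, g t ∈ T ∧ g t ≠ t ∧ g (g t) = t) : Even #T := by
  have h : ∑ _t ∈ T, (1 : ZMod 2) = 0 :=
    Finset.sum_involution (fun t _ => g t) (fun _ _ => by decide)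
      (fun t ht _ => (hg t ht).2.1) (fun t ht => (hg t ht).1) (fun t ht => (hg t ht).2.2)
  rw [Finset.sum_const, nsmul_eq_mul, mul_one] at h
  exact (ZMod.natCast_eq_zero_iff_even).1 h

omit [DecidableEq V] in
lemma exists_iter {b v : V} (h : π.SameCycle b v) :
    ∃ t < minimalPeriod π b, π^[t] b = v := by
  obtain ⟨i, hi⟩ := h.exists_nat_pow_eq
  refine ⟨i % minimalPeriod π b, Nat.mod_lt _ (minimalPeriod_pos_of_mem_periodicPts
    (π.injective.mem_periodicPts b)), ?_⟩
  rw [iterate_mod_minimalPeriod_eq, ← hi, Equiv.Perm.coe_pow]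

omit [DecidableEq V] in
lemma period_eq {b v : V} (h : π.SameCycle b v) : minimalPeriod π v = minimalPeriod π b := by
  obtain ⟨t, -, rfl⟩ := exists_iter h
  exact minimalPeriod_apply_iterate (π.injective.mem_periodicPts b) t

omit [DecidableEq V] in
lemma exists_heavy (S : Finset V) (h1 : ∀ s ∈ S, Odd (minimalPeriod π s))
    (h2 : ∀ s ∈ S, ∀ s' ∈ S, π.SameCycle s s' → s = s')
    (h3 : ∀ v, Odd (minimalPeriod π v) → ∃ s ∈ S, π.SameCycle s v) :
    ∃ hv : V → Prop, (∀ v, v ∉ S → (hv v ↔ ¬ hv (π.symm v))) ∧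
      ∀ s ∈ S, ¬ hv s ∧ ¬ hv (π.symm s) := by
  classical
  have hb : ∀ cl : Quotient (Equiv.Perm.SameCycle.setoid π), ∃ b, Quotient.mk _ b = cl ∧
      ∀ s ∈ S, Quotient.mk _ s = cl → b = s := by
    intro cl
    by_cases h : ∃ s ∈ S, Quotient.mk _ s = cl
    · obtain ⟨s, hs, e⟩ := h
      exact ⟨s, e, fun s' hs' e' => h2 s hs s' hs' (Quotient.exact (e.trans e'.symm))⟩
    · exact ⟨cl.out, Quotient.out_eq _, fun s hs e => absurd ⟨s, hs, e⟩ h⟩
  choose bq hq1 hq2 using hb
  let β : V → V := fun v => bq (Quotient.mk _ v)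
  have hβ : ∀ v, π.SameCycle (β v) v := fun v => Quotient.exact (hq1 (Quotient.mk _ v))
  have hβS : ∀ v, ∀ s ∈ S, π.SameCycle s v → β v = s := fun v s hs h =>
    hq2 _ s hs (Quotient.sound h)
  have hβp : ∀ v, β (π.symm v) = β v := fun v => by
    have : π.SameCycle (π.symm v) v := ⟨1, by simp⟩
    simp only [β]
    rw [Quotient.sound (s := Equiv.Perm.SameCycle.setoid π) this]
  let hv : V → Prop := fun v => ∃ t, Odd t ∧ t < minimalPeriod π (β v) ∧ π^[t] (β v) = v
  have hvt : ∀ v t, t < minimalPeriod π (β v) → π^[t] (β v) = v → (hv v ↔ Odd t) := by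
    intro v t ht e
    constructor
    · rintro ⟨t', o, ht', e'⟩
      rwa [(iterate_eq_iterate_iff_of_lt_minimalPeriod ht ht').1 (e.trans e'.symm)]
    · exact fun o => ⟨t, o, ht, e⟩
  have hzero : ∀ v, β v = v → ¬ hv v ∧ (hv (π.symm v) ↔ Even (minimalPeriod π v)) := by
    intro v e
    have hp : 0 < minimalPeriod π v :=
      minimalPeriod_pos_of_mem_periodicPts (π.injective.mem_periodicPts v)
    constructor
    · rw [hvt v 0 (by rwa [e]) e]; decide
    · obtain ⟨k, hk⟩ : ∃ k, minimalPeriod π v = k + 1 := ⟨_, (Nat.succ_pred_eq_of_pos hp).symm⟩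
      rw [hvt _ k (by rw [hβp, e]; omega) (by
        rw [hβp, e, Equiv.eq_symm_apply, ← iterate_succ_apply' π k v]
        have := iterate_minimalPeriod (f := π) (x := v)
        rwa [hk] at this), hk, Nat.even_add_one, Nat.not_even_iff_odd]
  refine ⟨hv, fun v hS => ?_, fun s hs => ?_⟩
  · obtain ⟨t, ht, e⟩ := exists_iter (hβ v)
    rcases t with _ | t
    · obtain ⟨a1, a2⟩ := hzero v e
      refine iff_of_false a1 (not_not.2 (a2.2 ?_))
      rw [← Nat.not_odd_iff_even]
      intro o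
      obtain ⟨s, hs, h⟩ := h3 v o
      have e1 : β v = v := e
      exact hS (by rw [← e1, hβS v s hs h]; exact hs)
    · rw [hvt v _ ht e, hvt _ t (by rw [hβp]; omega) (by
        rw [hβp, Equiv.eq_symm_apply, ← iterate_succ_apply' π t]; exact e), Nat.odd_add_one]
  · obtain ⟨a1, a2⟩ := hzero s (hβS s s hs (Equiv.Perm.SameCycle.refl _ _))
    exact ⟨a1, fun h => (Nat.not_even_iff_odd.2 (h1 s hs)) (a2.1 h)⟩

omit [Fintype V] [DecidableEq V] in
lemma heavy_invol (S : Finset V) (hne : ∀ v, π v ≠ v) (hv : V → Prop) [DecidablePred hv]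
    (h1 : ∀ v, v ∉ S → (hv v ↔ ¬ hv (π.symm v))) (h2 : ∀ s ∈ S, ¬ hv s ∧ ¬ hv (π.symm s))
    (n : V → V) (hn : ∀ v, n v = if hv v then π v else π.symm v) :
    ∀ v, v ∉ S → n v ∉ S ∧ n v ≠ v ∧ n (n v) = v := by
  intro v hS
  by_cases h : hv v
  · have e : n v = π v := by rw [hn, if_pos h]
    have a : π v ∉ S := fun h3 => (h2 _ h3).2 (by simpa using h)
    have b : ¬ hv (π v) := fun h3 => (h1 _ a).1 h3 (by simpa using h)
    rw [e, hn, if_neg b]
    exact ⟨a, hne v, by simp⟩
  · have e : n v = π.symm v := by rw [hn, if_neg h]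
    have b : hv (π.symm v) := by_contra fun h3 => h ((h1 v hS).2 h3)
    rw [e, hn, if_pos b]
    exact ⟨fun h3 => (h2 _ h3).1 b, fun h3 => hne v (by rw [Equiv.symm_apply_eq] at h3; exact h3.symm),
      by simp⟩

theorem exists_sigma (H : Hyp π μ c) (Rp : Finset V)
    (hRp : ∀ r ∈ Rp, ∀ r' ∈ Rp, π.SameCycle r r' → r = r')
    (hodd : ∀ r ∈ Rp, Odd (minimalPeriod π r))
    (hall : ∀ v, Odd (minimalPeriod π v) → ∃ r ∈ Rp, π.SameCycle r v)
    (h : ℕ) (hh : 1 ≤ h) (L : ℕ) (hL : L = 750 * h ^ 2) (hc : 832 * L ^ 2 ≤ c)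
    (hw : #Rp * (832 * L ^ 2 * (13 * L)) < 2 ^ h) :
    ∃ σ : V → ℤ, (∀ v, σ v = 1 ∨ σ v = -1) ∧ (∀ v, σ (μ v) = - σ v) ∧
      ∀ X : Finset V, 5 * ∑ v ∈ X, σ v ≤ (mc μ X + 6 * fc π X : ℕ) := by
  classical
  have hc3 : 3 ≤ c := by
    have : 1 ≤ L := by rw [hL]; nlinarith
    nlinarith
  have hne : ∀ v, π v ≠ v := fun v => by
    simpa using H.len v 1 one_ne_zero (by simp; omega)
  have heven : Even #Rp := by
    obtain ⟨hv, h1, h2⟩ := exists_heavy Rp hodd hRp hall
    have e1 := even_card_of_invol Rpᶜ (fun v => if hv v then π v else π.symm v) fun t ht => by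
      have := heavy_invol Rp hne hv h1 h2 _ (fun _ => rfl) t (mem_compl.1 ht)
      rwa [mem_compl]
    have e2 := even_card_of_invol univ μ fun t _ => ⟨mem_univ _, H.ne t, H.inv t⟩
    have e3 := card_add_card_compl Rp
    rw [card_univ, ← e3, Nat.even_add] at e2
    exact e2.2 e1
  obtain ⟨s, Q, hs, hQ, hthin⟩ := exists_special H Rp hRp heven h hh L hL hc hw
  set S := Rp.image s with hS
  have hSd : ∀ x ∈ S, ∀ y ∈ S, π.SameCycle x y → x = y := by
    intro x hx y hy e
    obtain ⟨r, hr, rfl⟩ := mem_image.1 hx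
    obtain ⟨r', hr', rfl⟩ := mem_image.1 hy
    rw [hRp r hr r' hr' (((hs r hr).trans e).trans (hs r' hr').symm)]
  obtain ⟨hv, h1, h2⟩ := exists_heavy (π := π) S
    (fun x hx => by
      obtain ⟨r, hr, rfl⟩ := mem_image.1 hx
      rw [period_eq (hs r hr)]; exact hodd r hr) hSd
    (fun v o => by
      obtain ⟨r, hr, e⟩ := hall v o
      exact ⟨s r, mem_image_of_mem s hr, (hs r hr).symm.trans e⟩)
  let n : V → V := fun v => if hv v then π v else π.symm v
  have hn := heavy_invol S hne hv h1 h2 n (fun v => rfl)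
  let ν : V → V := fun v => if v ∈ S then Q v else n v
  obtain ⟨σ, s1, s2, s3⟩ := two_colouring μ ν H.inv
    (fun v => by
      by_cases h : v ∈ S
      · simp only [ν, h, if_true, (hQ v h).1, (hQ v h).2.2]
      · simp only [ν, h, if_false, (hn v h).1, (hn v h).2.2]) H.ne
    (fun v => by
      by_cases h : v ∈ S
      · simp only [ν, h, if_true]; exact (hQ v h).2.1
      · simp only [ν, h, if_false]; exact (hn v h).2.1)
  have hνν : ∀ v, ν (ν v) = v := fun v => by
    by_cases h : v ∈ S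
    · simp only [ν, h, if_true, (hQ v h).1, (hQ v h).2.2]
    · simp only [ν, h, if_false, (hn v h).1, (hn v h).2.2]
  refine ⟨σ, s1, s2, fun X => ?_⟩
  have e1 : ∑ v ∈ X, σ v ≤ #{v ∈ X | ν v ∉ X} := by
    rw [← Finset.sum_filter_add_sum_filter_not X (fun v => ν v ∈ X)]
    have z : ∑ v ∈ X with ν v ∈ X, σ v = 0 :=
      Finset.sum_involution (fun v _ => ν v) (fun v _ => by rw [s3]; ring)
        (fun v _ _ e => by
          have := s3 v
          rw [e] at this
          rcases s1 v with h | h <;> omega)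
        (fun v hv => mem_filter.2 ⟨(mem_filter.1 hv).2, by rw [hνν]; exact (mem_filter.1 hv).1⟩)
        (fun v _ => hνν v)
    rw [z, zero_add, card_eq_sum_ones]
    push_cast
    exact Finset.sum_le_sum fun v _ => by rcases s1 v with h | h <;> omega
  let cut : V → Prop := fun v => ¬ (v ∈ X ↔ π v ∈ X)
  have e2 : #{v ∈ X | ν v ∉ X} ≤ dQ S Q X + #{v ∈ X | v ∉ S ∧ n v ∉ X} := by
    refine le_trans (card_le_card fun v hv => ?_) (card_union_le _ _)
    rw [mem_filter] at hv
    by_cases h : v ∈ S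
    · exact mem_union_left _ (mem_filter.2 ⟨h, hv.1, by simpa only [ν, h, if_true] using hv.2⟩)
    · exact mem_union_right _ (mem_filter.2 ⟨hv.1, h, by simpa only [ν, h, if_false] using hv.2⟩)
  have e3 : #{v ∈ X | v ∉ S ∧ n v ∉ X} ≤ #{v | cut v ∧ hv v} := by
    refine card_le_card_of_injOn (fun v => if hv v then v else π.symm v) (fun v h => ?_)
      (fun v h v' h' e => ?_)
    · simp only [coe_filter, Set.mem_ofPred_eq, mem_univ, true_and, n, cut] at h ⊢
      split_ifs at h ⊢ with a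
      · exact ⟨fun e => h.2.2 (e.1 h.1), a⟩
      · rw [Equiv.apply_symm_apply]
        exact ⟨fun e => h.2.2 (e.2 h.1), by_contra fun b => a ((h1 v h.2.1).2 b)⟩
    · simp only [coe_filter, Set.mem_ofPred_eq, n] at h h' e
      split_ifs at e h h'
      · exact e
      · exact absurd (e ▸ h.1) h'.2.2
      · exact absurd (e ▸ h'.1) h.2.2
      · exact π.symm.injective e
  have e4 : lam π S X ≤ #{v | cut v ∧ ¬ hv v} := by
    refine card_le_card_of_injOn (fun v => if cut v then v else π.symm v) (fun v h => ?_)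
      (fun v h v' h' e => ?_)
    · simp only [coe_filter, Set.mem_ofPred_eq, mem_univ, true_and, zpow_one, zpow_neg] at h ⊢
      split_ifs with a
      · exact ⟨a, (h2 v h.1).1⟩
      · refine ⟨?_, (h2 v h.1).2⟩
        simp only [cut, Equiv.apply_symm_apply]
        exact fun e => (h.2.resolve_left a) e.symm
    · simp only [coe_filter, Set.mem_ofPred_eq] at h h' e
      have q1 : ∀ x, π.SameCycle (π.symm x) x := fun x => ⟨1, by simp⟩
      split_ifs at e
      · exact e
      · exact hSd v h.1 v' h'.1 (e ▸ q1 v')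
      · exact hSd v h.1 v' h'.1 (e ▸ (q1 v).symm)
      · exact π.symm.injective e
  have e5 : #{v | cut v ∧ hv v} + #{v | cut v ∧ ¬ hv v} = fc π X := by
    unfold fc
    rw [← card_filter_add_card_filter_not (s := univ.filter fun v => ¬ (v ∈ X ↔ π v ∈ X)) hv,
      filter_filter, filter_filter]
  have e6 := hthin X
  have e7 : 5 * #{v ∈ X | ν v ∉ X} ≤ mc μ X + 6 * fc π X := by omega
  have e8 : (5 : ℤ) * #{v ∈ X | ν v ∉ X} ≤ (mc μ X + 6 * fc π X : ℕ) := by exact_mod_cast e7
  linarith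

end Pool.Agent.P.MP_e59a69_co
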