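import Pool.Agent.P.MP_e59a69_co.Bad

/-! Choice of the special vertices and of a thin pairing. -/

open Finset

namespace Pool.Agent.P.MP_e59a69_co

variable {V : Type} [Fintype V] [DecidableEq V] {π μ : Equiv.Perm V} {c : ℕ}

omit [Fintype V] in
lemma sameCycle_of_mem_Iv {r x : V} {a b : ℤ} (h : x ∈ Iv π r a b) : π.SameCycle r x := by
  obtain ⟨t, -, -, e⟩ := mem_Iv.1 h
  exact ⟨t, e⟩

lemma two_pow_le_exp (h : ℕ) : ((2 ^ h : ℕ) : ℝ) ≤ Real.exp h := by
  have h1 : (2 : ℝ) ≤ Real.exp 1 := by have := Real.add_one_le_exp 1; linarith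
  rw [← Real.exp_one_pow]
  push_cast
  exact pow_le_pow_left₀ (by norm_num) h1 h

theorem exists_special (H : Hyp π μ c) (Rp : Finset V)
    (hRp : ∀ r ∈ Rp, ∀ r' ∈ Rp, π.SameCycle r r' → r = r') (heven : Even #Rp)
    (h : ℕ) (hh : 1 ≤ h) (L : ℕ) (hL : L = 750 * h ^ 2) (hc : 832 * L ^ 2 ≤ c)
    (hw : #Rp * (832 * L ^ 2 * (13 * L)) < 2 ^ h) :
    ∃ (s : V → V) (Q : V → V), (∀ r ∈ Rp, π.SameCycle r (s r)) ∧
      (∀ t ∈ Rp.image s, Q t ∈ Rp.image s ∧ Q t ≠ t ∧ Q (Q t) = t) ∧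
      ∀ X, 5 * dQ (Rp.image s) Q X ≤ fc π X + mc μ X + 5 * lam π (Rp.image s) X := by
  classical
  have hLh : 750 * h ≤ L := by rw [hL]; nlinarith
  have hL1 : 750 ≤ L := by omega
  obtain ⟨q, hq⟩ : ∃ q, q = 832 * L ^ 2 := ⟨_, rfl⟩
  rw [← hq] at hc hw
  have hqL : 832 * L ≤ q := by rw [hq]; nlinarith
  have : Inhabited V := by
    have := H.card
    exact Classical.inhabited_of_nonempty (Fintype.card_pos_iff.1 (by omega))
  let A : V → Finset V := fun r => Iv π r 0 (q - 1)
  have hA : ∀ r, #(A r) = q := fun r => by rw [H.card_Iv _ (by omega)]; omega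
  have hAd : (Rp : Set V).PairwiseDisjoint A := fun r hr r' hr' hne =>
    Finset.disjoint_left.2 fun v h1 h2 => hne (hRp r hr r' hr'
      ((sameCycle_of_mem_Iv h1).trans (sameCycle_of_mem_Iv h2).symm))
  have hAs : ∀ g : V → ℝ, (∀ v, 0 ≤ g v) → ∑ r ∈ Rp, ∑ v ∈ A r, g v ≤ ∑ v, g v := fun g hg => by
    rw [← Finset.sum_biUnion hAd]
    exact Finset.sum_le_sum_of_subset_of_nonneg (subset_univ _) fun v _ _ => hg v
  let R : Finset V := Rp.biUnion fun r => (A r).biUnion (Sys π μ L)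
  have hR : #R < 2 ^ h := lt_of_le_of_lt (card_biUnion_le_card_mul _ _ (q * (13 * L)) fun r _ =>
    (card_biUnion_le_card_mul _ _ (13 * L) fun x _ => card_Sys (by omega) x).trans
      (by rw [hA])) hw
  have hw' : #Rp ≤ 2 ^ h := by
    have : #Rp ≤ #Rp * (q * (13 * L)) := Nat.le_mul_of_pos_right _ (Nat.mul_pos (by omega) (by omega))
    omega
  obtain ⟨Lm, hlam, hcard, happ⟩ := approx_univ (adj π μ) (adj_comm H.inv) R h hR (fun Z hZ => by
    rw [EB_adj]
    obtain ⟨x, hx⟩ := card_eq_one.1 hZ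
    have hx1 : x ∈ Z ∩ R := by rw [hx]; exact mem_singleton_self x
    rcases Zᶜ.eq_empty_or_nonempty with h2 | h2
    · exfalso
      have hZu : ∀ v, v ∈ Z := fun v => by
        by_contra hv
        exact Finset.notMem_empty v (h2 ▸ mem_compl.2 hv)
      obtain ⟨r, hr, h3⟩ := mem_biUnion.1 (mem_inter.1 hx1).2
      obtain ⟨y, hy, -⟩ := mem_biUnion.1 h3
      have m : ∀ t : ℤ, 0 ≤ t → t ≤ 1 → (π ^ t) y = x := fun t t1 t2 => by
        rw [← mem_singleton, ← hx]
        exact mem_inter.2 ⟨hZu _, mem_biUnion.2 ⟨r, hr, mem_biUnion.2 ⟨y, hy,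
          pow_mem_Sys y (by omega) (by omega)⟩⟩⟩
      have := H.inj y (s := 0) (t := 1) (by simp; omega)
        ((m 0 le_rfl (by omega)).trans (m 1 (by omega) le_rfl).symm)
      omega
    · rcases H.cut Z ⟨x, (mem_inter.1 hx1).1⟩ h2 with h | h | h <;> omega)
  simp only [EB_adj] at happ
  let Nb : V → Finset V := fun s => {s' | ¬ Disjoint (Sys π μ L s) (Sys π μ L s')}
  have hsym : ∀ u v, u ∈ Nb v → v ∈ Nb u := fun u v huv =>
    mem_filter.2 ⟨mem_univ _, fun h => (mem_filter.1 huv).2 h.symm⟩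
  have hNb : ∀ v, #(Nb v) ≤ 145 * L := fun v => card_Nb (by omega) v
  let Lb : Finset (Finset V) := Lm.filter fun K => c ≤ fc π K + mc μ K
  let w : V ⊕ Finset V → V → ℝ := fun k v =>
    Sum.elim (fun r => (#(Nb v ∩ A r) : ℝ) / (145 * L))
      (fun K => if v ∈ Bad π μ L K then 1 else 0) k
  let B : V ⊕ Finset V → ℝ :=
    Sum.elim (fun _ => (q : ℝ) / (2 * (145 * L))) fun K => (fc π K + mc μ K : ℕ) / (4 * L)
  have hLR : (750 : ℝ) ≤ L := by exact_mod_cast hL1
  have hLhR : 750 * (h : ℝ) ≤ L := by exact_mod_cast hLh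
  have hhR : (1 : ℝ) ≤ h := by exact_mod_cast hh
  have hqR : (q : ℝ) = 832 * L ^ 2 := by exact_mod_cast hq
  have hcR : (q : ℝ) ≤ c := by exact_mod_cast hc
  have hw0 : ∀ k v, 0 ≤ w k v := by
    rintro (r | K) v
    · simp only [w, Sum.elim_inl]; positivity
    · simp only [w, Sum.elim_inr]; split_ifs <;> norm_num
  obtain ⟨s, hs1, hs2, hs3⟩ := select Rp A q (by omega) (fun r _ => hA r) Nb hsym
    (Rp.disjSum Lb) w hw0
    (by
      rintro (r | K) v
      · simp only [w, Sum.elim_inl]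
        rw [div_le_one (by positivity)]
        exact_mod_cast (card_le_card inter_subset_left).trans (hNb v)
      · simp only [w, Sum.elim_inr]; split_ifs <;> norm_num)
    B (145 * L) (by positivity)
    (fun r hr => ⟨Sum.inl r, by simpa using hr, fun v => by
      simp only [w, Sum.elim_inl]; exact le_of_eq (by field_simp), by
      simp only [B, Sum.elim_inl]; exact le_of_eq (by field_simp)⟩)
    (by
      rw [Finset.sum_disjSum]
      have t1 : ∀ r ∈ Rp, Real.exp (4 / q * ∑ i ∈ Rp, ∑ v ∈ A i, w (Sum.inl r) v - B (Sum.inl r)) ≤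
          Real.exp (-1 - h) := by
        intro r _
        rw [Real.exp_le_exp]
        have e1 := hAs _ (hw0 (Sum.inl r))
        have e2 : ∑ v, #(Nb v ∩ A r) ≤ q * (145 * L) := by
          have : ∀ v, #(Nb v ∩ A r) = ∑ u ∈ A r, if v ∈ Nb u then 1 else 0 := fun v => by
            rw [← card_filter]
            congr 1
            ext u
            simp only [mem_inter, mem_filter (s := A r)]
            exact ⟨fun h => ⟨h.2, hsym _ _ h.1⟩, fun h => ⟨hsym _ _ h.2, h.1⟩⟩
          simp only [this]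
          rw [Finset.sum_comm, ← hA r, ← smul_eq_mul]
          refine Finset.sum_le_card_nsmul _ _ _ fun u _ => ?_
          rw [Finset.sum_ite_mem, univ_inter, ← card_eq_sum_ones]
          exact hNb u
        have e3 : ∑ v, w (Sum.inl r) v ≤ q := by
          simp only [w, Sum.elim_inl]
          rw [← Finset.sum_div, div_le_iff₀ (by positivity)]
          exact_mod_cast e2
        have e4 : 4 / (q : ℝ) * ∑ i ∈ Rp, ∑ v ∈ A i, w (Sum.inl r) v ≤ 4 := by
          rw [div_mul_eq_mul_div, div_le_iff₀ (by rw [hqR]; positivity)]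
          linarith
        have e5 : 2 * (L : ℝ) ≤ B (Sum.inl r) := by
          simp only [B, Sum.elim_inl]
          rw [le_div_iff₀ (by positivity), hqR]
          nlinarith
        linarith
      have t2 : ∀ K ∈ Lb, Real.exp (4 / q * ∑ i ∈ Rp, ∑ v ∈ A i, w (Sum.inr K) v - B (Sum.inr K)) ≤
          Real.exp (-1 - h - h) := by
        intro K hK
        rw [Real.exp_le_exp]
        have e1 := hAs _ (hw0 (Sum.inr K))
        obtain ⟨d, hd⟩ : ∃ d, d = fc π K + mc μ K := ⟨_, rfl⟩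
        have e0 : (c : ℝ) ≤ d := by rw [hd]; exact_mod_cast (mem_filter.1 hK).2
        have e3 : ∑ v, w (Sum.inr K) v ≤ 26 * L * d := by
          simp only [w, Sum.elim_inr]
          rw [Finset.sum_ite_mem, univ_inter, Finset.sum_const, nsmul_eq_mul, mul_one, hd]
          exact_mod_cast card_Bad H.inv (by omega) K
        have e4 : 4 / (q : ℝ) * ∑ i ∈ Rp, ∑ v ∈ A i, w (Sum.inr K) v ≤ d / (8 * L) := by
          rw [div_mul_eq_mul_div, div_le_iff₀ (by rw [hqR]; positivity), hqR]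
          have : (d : ℝ) / (8 * L) * (832 * L ^ 2) = 4 * (26 * L * d) := by field_simp; ring
          linarith
        have e5 : B (Sum.inr K) = 2 * (d / (8 * L)) := by
          simp only [B, Sum.elim_inr]
          rw [← hd]; field_simp; ring
        have e6 : 104 * (L : ℝ) ≤ d / (8 * L) := by
          rw [le_div_iff₀ (by positivity)]
          nlinarith
        linarith
      have u1 := Finset.sum_le_card_nsmul _ _ _ t1
      have u2 := Finset.sum_le_card_nsmul _ _ _ t2
      rw [nsmul_eq_mul] at u1 u2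
      have v0 := two_pow_le_exp h
      have v1 : (#Rp : ℝ) ≤ Real.exp h := le_trans (by exact_mod_cast hw') v0
      have v2 : (#Lb : ℝ) ≤ Real.exp h * Real.exp h := by
        have a1 : #Lb ≤ 2 ^ h * 2 ^ h := (card_filter_le _ _).trans
          (hcard.trans (Nat.mul_le_mul_right _ Nat.lt_two_pow_self.le))
        have a2 : (#Lb : ℝ) ≤ ((2 ^ h : ℕ) : ℝ) * ((2 ^ h : ℕ) : ℝ) := by exact_mod_cast a1
        exact a2.trans (mul_le_mul v0 v0 (by positivity) (by positivity))
      have x1 : (#Rp : ℝ) * Real.exp (-1 - h) ≤ Real.exp (-1) := by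
        refine (mul_le_mul_of_nonneg_right v1 (Real.exp_pos _).le).trans (le_of_eq ?_)
        rw [← Real.exp_add]; congr 1; ring
      have x2 : (#Lb : ℝ) * Real.exp (-1 - h - h) ≤ Real.exp (-1) := by
        refine (mul_le_mul_of_nonneg_right v2 (Real.exp_pos _).le).trans (le_of_eq ?_)
        rw [← Real.exp_add, ← Real.exp_add]; congr 1; ring
      have := Real.exp_neg_one_lt_d9
      linarith)
  have hinj : Set.InjOn s Rp := fun r hr r' hr' e => by
    by_contra hne
    exact Finset.disjoint_left.1 (hAd hr hr' hne) (hs1 r hr) (e ▸ hs1 r' hr')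
  obtain ⟨n, hn⟩ := heven
  obtain ⟨Q, hQ, hpair⟩ := exists_pairing Lm hlam n (Rp.image s)
    (by rw [card_image_of_injOn hinj]; omega)
  have hQ' : ∀ t ∈ Rp.image s, Q t ∈ Rp.image s ∧ Q (Q t) = t := fun t ht =>
    ⟨(hQ t ht).1, (hQ t ht).2.2⟩
  have hdis : ∀ x ∈ Rp.image s, ∀ y ∈ Rp.image s, x ≠ y →
      Disjoint (Sys π μ L x) (Sys π μ L y) := by
    intro x hx y hy hne
    obtain ⟨r, hr, rfl⟩ := mem_image.1 hx
    obtain ⟨r', hr', rfl⟩ := mem_image.1 hy
    by_contra hc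
    exact hs2 r hr r' hr' (fun e => hne (by rw [e])) (mem_filter.2 ⟨mem_univ _, hc⟩)
  refine ⟨s, Q, fun r hr => sameCycle_of_mem_Iv (hs1 r hr), hQ,
    thin H (by omega) (by omega) _ Q hQ' hdis ?_⟩
  refine bad_bound H (by omega) _ Q hQ' hdis R (fun x hx => ?_) Lm (1 + h * (16 * h + 8))
    (by rw [hL]; nlinarith) (by omega) happ hpair (fun K hK hbig => ?_)
  · obtain ⟨r, hr, rfl⟩ := mem_image.1 hx
    exact fun v hv => mem_biUnion.2 ⟨r, hr, mem_biUnion.2 ⟨s r, hs1 r hr, hv⟩⟩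
  · have e0 : K ∈ Lb := mem_filter.2 ⟨hK, hbig⟩
    have e1 := hs3 (Sum.inr K) (by simpa using e0)
    simp only [w, B, Sum.elim_inr] at e1
    rw [← Finset.sum_filter, Finset.sum_const, nsmul_eq_mul, mul_one,
      le_div_iff₀ (by positivity)] at e1
    have e2 : #{r ∈ Rp | s r ∈ Bad π μ L K} * (4 * L) ≤ fc π K + mc μ K := by exact_mod_cast e1
    have e3 : #{x ∈ Rp.image s | x ∈ Bad π μ L K} ≤ #{r ∈ Rp | s r ∈ Bad π μ L K} := by
      rw [filter_image]; exact card_image_le
    nlinarith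

end Pool.Agent.P.MP_e59a69_co
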