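import Pool.Agent.P.MP_e59a69_co.TDefs

/-! Clean levels of a walk. -/

open Finset Function

namespace Pool.Agent.P.MP_e59a69_co

/-- a flat stretch `[a, a+5]` of the walk `Q` at a clean level `l`, with guards `lo`, `hi` -/
structure Place (Q : ℕ → ℤ) (L : ℕ) (m : ℤ) (a lo hi : ℕ) (l : ℤ) : Prop where
  lo_le : lo ≤ a
  le_hi : a + 5 ≤ hi
  hi_le : hi ≤ L
  l_ge : 61 ≤ l
  l_le : l + 61 ≤ m
  left : ∀ i ≤ a + 5, Q i ≤ l
  right : ∀ i ≤ L, a ≤ i → l ≤ Q i
  glob : ∀ i ≤ L, l + 60 - m ≤ Q i ∧ Q i ≤ l + m - 60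
  far_left : ∀ i < lo, Q i + 60 ≤ l
  far_right : ∀ i ≤ L, hi < i → l + 60 ≤ Q i

/-- no down step lands on a level congruent to `g` -/
def PlGood (Q : ℕ → ℤ) (L : ℕ) (m g : ℤ) : Prop :=
  ∀ i < L, Q (i + 1) - Q i = -1 → ¬ m ∣ Q (i + 1) - g

/-- last index with value at most `g` -/
def plLast (Q : ℕ → ℤ) (L : ℕ) (g : ℤ) : ℕ := Nat.findGreatest (fun i => Q i ≤ g) L

theorem pl_stay (Q : ℕ → ℤ) (L : ℕ) (hs : ∀ i < L, |Q (i + 1) - Q i| ≤ 1) (G : ℤ)
    (hG : ∀ i < L, Q (i + 1) - Q i = -1 → Q (i + 1) ≠ G) (i : ℕ) (hi : G < Q i) :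
    ∀ j, i ≤ j → j ≤ L → G < Q j := by
  intro j hij
  induction j, hij using Nat.le_induction with
  | base => intro _; exact hi
  | succ j _ ih =>
    intro hj
    have h1 := ih (by omega)
    have h2 := abs_le.mp (hs j (by omega))
    have h3 := hG j (by omega)
    by_contra h4
    have h5 : Q (j + 1) - Q j = -1 := by omega
    exact h3 h5 (by omega)

theorem pl_up (Q : ℕ → ℤ) (L : ℕ) (hs : ∀ i < L, |Q (i + 1) - Q i| ≤ 1) (i : ℕ) :
    ∀ j, i ≤ j → j ≤ L → Q i < Q j → ∃ k, i ≤ k ∧ k < j ∧ Q (k + 1) - Q k = 1 := by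
  intro j hij
  induction j, hij using Nat.le_induction with
  | base => intro _ h; exact absurd h (lt_irrefl _)
  | succ j hij ih =>
    intro hj h
    by_cases h1 : Q i < Q j
    · obtain ⟨k, hk1, hk2, hk3⟩ := ih (by omega) h1
      exact ⟨k, hk1, by omega, hk3⟩
    · have h2 := abs_le.mp (hs j (by omega))
      exact ⟨j, hij, by omega, by omega⟩

theorem pl_speed (Q : ℕ → ℤ) (L : ℕ) (hs : ∀ i < L, |Q (i + 1) - Q i| ≤ 1) (i : ℕ) :
    ∀ j, i ≤ j → j ≤ L → Q j + i ≤ Q i + j := by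
  intro j hij
  induction j, hij using Nat.le_induction with
  | base => intro _; exact le_rfl
  | succ j hij ih =>
    intro hj
    have h1 := ih (by omega)
    have h2 := abs_le.mp (hs j (by omega))
    push_cast
    omega

theorem pl_good_ne {Q : ℕ → ℤ} {L : ℕ} {m g : ℤ} (h : PlGood Q L m g) (t : ℤ) :
    ∀ i < L, Q (i + 1) - Q i = -1 → Q (i + 1) ≠ g + t * m := by
  intro i hi h1 h2
  apply h i hi h1
  rw [h2]
  exact ⟨t, by ring⟩

theorem pl_last_le (Q : ℕ → ℤ) (L : ℕ) (g : ℤ) : plLast Q L g ≤ L := Nat.findGreatest_le _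

theorem pl_le_last {Q : ℕ → ℤ} {L : ℕ} {g : ℤ} {i : ℕ} (hi : i ≤ L) (h : Q i ≤ g) :
    i ≤ plLast Q L g := Nat.le_findGreatest (P := fun i => Q i ≤ g) hi h

theorem pl_gt_last {Q : ℕ → ℤ} {L : ℕ} {g : ℤ} {i : ℕ} (hi : i ≤ L) (h : plLast Q L g < i) :
    g + 1 ≤ Q i := by
  by_contra h1
  have := pl_le_last (Q := Q) (g := g) hi (by omega)
  omega

theorem pl_last_val {Q : ℕ → ℤ} {L : ℕ} {g : ℤ} (h : Q 0 ≤ g) : Q (plLast Q L g) ≤ g :=
  Nat.findGreatest_spec (P := fun i => Q i ≤ g) (Nat.zero_le L) h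

theorem pl_below {Q : ℕ → ℤ} {L : ℕ} {m g : ℤ} (hs : ∀ i < L, |Q (i + 1) - Q i| ≤ 1)
    (hg : PlGood Q L m g) (h : Q 0 ≤ g) {i : ℕ} (hi : i ≤ plLast Q L g) : Q i ≤ g := by
  by_contra h1
  have h2 := pl_stay Q L hs (g + 0 * m) (pl_good_ne hg 0) i (by omega) _ hi (pl_last_le Q L g)
  have h3 := pl_last_val (L := L) h
  omega

theorem pl_place (Q : ℕ → ℤ) (L : ℕ) (m : ℤ) (h0 : |Q 0| ≤ 1) (hL : |Q L - m| ≤ 1)
    (hs : ∀ i < L, |Q (i + 1) - Q i| ≤ 1)
    (hsp : ∀ i j k, 1 ≤ i → i < j → j < k → k < L → Q (i + 1) - Q i = 1 →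
      Q (j + 1) - Q j = 1 → Q (k + 1) - Q k = 1 → i + 11 ≤ k)
    (g0 c g2 : ℤ) (b0 : 1 ≤ g0) (b1 : g0 + 60 ≤ c) (b2 : c + 60 ≤ g2) (b3 : g2 + 2 ≤ m)
    (G0 : PlGood Q L m g0) (Gc : PlGood Q L m c) (G2 : PlGood Q L m g2) :
    ∃ a l, Place Q L m a (plLast Q L g0 + 1) (plLast Q L g2) l := by
  obtain ⟨h0a, h0b⟩ := abs_le.mp h0
  obtain ⟨hLa, hLb⟩ := abs_le.mp hL
  obtain ⟨p, hp⟩ : ∃ p, p = plLast Q L c := ⟨_, rfl⟩
  have hpL : p ≤ L := hp ▸ pl_last_le Q L c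
  have hbelow : ∀ i ≤ p, Q i ≤ c := fun i hi => pl_below hs Gc (by omega) (hp ▸ hi)
  have habove : ∀ i ≤ L, p < i → c + 1 ≤ Q i := fun i hi h => pl_gt_last hi (hp ▸ h)
  have hpL' : p < L := by
    rcases hpL.lt_or_eq with h | h
    · exact h
    · have := hbelow L h.ge
      omega
  have hstep := abs_le.mp (hs p hpL')
  have hQp : Q p = c := by
    have h1 := hbelow p le_rfl
    have h2 := habove (p + 1) hpL' (by omega)
    omega
  have hQp1 : Q (p + 1) = c + 1 := by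
    have h2 := habove (p + 1) hpL' (by omega)
    omega
  have hp60 : 60 ≤ p := by
    have := pl_speed Q L hs 0 p (Nat.zero_le _) hpL
    omega
  have hp6 : p + 6 ≤ L := by
    have := pl_speed Q L hs (p + 1) L hpL' le_rfl
    push_cast at this
    omega
  have hlow : ∀ i ≤ L, c + 61 - m ≤ Q i := by
    intro i hi
    have := pl_stay Q L hs (g2 + (-1) * m) (pl_good_ne G2 (-1)) 0 (by omega) i (Nat.zero_le _) hi
    omega
  have hhigh : ∀ i ≤ L, Q i ≤ c + m - 60 := by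
    intro i hi
    by_contra h
    have := pl_stay Q L hs (g0 + 1 * m) (pl_good_ne G0 1) i (by omega) L hi le_rfl
    omega
  have hfl : ∀ i < plLast Q L g0 + 1, Q i + 60 ≤ c := by
    intro i hi
    have := pl_below (i := i) hs G0 (by omega) (by omega)
    omega
  have hfr : ∀ i ≤ L, plLast Q L g2 < i → c + 61 ≤ Q i := by
    intro i hi h
    have := pl_gt_last hi h
    omega
  have hlo : ∀ a, c ≤ Q a → plLast Q L g0 + 1 ≤ a := by
    intro a ha
    by_contra h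
    have := hfl a (by omega)
    omega
  have hhi : ∀ a ≤ L, Q a ≤ c + 1 → a ≤ plLast Q L g2 := fun a ha h => pl_le_last ha (by omega)
  by_cases hA : ∀ i ≤ p, p - 5 ≤ i → c ≤ Q i
  · refine ⟨p - 5, c, ⟨hlo _ (hA _ (by omega) le_rfl), hhi _ (by omega) ?_, pl_last_le _ _ _,
      by omega, by omega, fun i hi => hbelow i (by omega), fun i hi h => ?_,
      fun i hi => ⟨?_, hhigh i hi⟩, hfl, fun i hi h => ?_⟩⟩
    · have := hbelow (p - 5 + 5) (by omega)
      omega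
    · by_cases h1 : i ≤ p
      · exact hA i h1 h
      · have := habove i hi (by omega)
        omega
    · have := hlow i hi
      omega
    · have := hfr i hi h
      omega
  · have hB : ∀ i ≤ p + 6, Q i ≤ c + 1 := by
      intro i hi
      by_contra h
      have hi1 : p + 1 ≤ i := by
        by_contra h1
        have := hbelow i (by omega)
        omega
      obtain ⟨k, hk1, hk2, hk3⟩ := pl_up Q L hs (p + 1) i hi1 (by omega) (by omega)
      apply hA
      intro i' hi' hi''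
      by_contra h2
      obtain ⟨k', hk1', hk2', hk3'⟩ := pl_up Q L hs i' p hi' hpL (by omega)
      have := hsp k' p k (by omega) hk2' (by omega) (by omega) hk3' (by omega) hk3
      omega
    refine ⟨p + 1, c + 1, ⟨hlo _ (by omega), hhi _ (by omega) (hB _ (by omega)), pl_last_le _ _ _,
      by omega, by omega, fun i hi => hB i (by omega), fun i hi h => habove i hi (by omega),
      fun i hi => ⟨?_, ?_⟩, fun i hi => ?_, fun i hi h => ?_⟩⟩
    · have := hlow i hi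
      omega
    · have := hhigh i hi
      omega
    · have := hfl i hi
      omega
    · have := hfr i hi h
      omega

theorem pl_levels (Q : ℕ → ℤ) (L : ℕ) (m : ℤ)
    (hd : (#{i ∈ range L | Q (i + 1) - Q i = -1} : ℤ) + 3843 ≤ m) :
    ∃ h : ℕ → ℤ, (∀ n ≤ 64, 1 ≤ h n ∧ h n + 2 ≤ m ∧ PlGood Q L m (h n)) ∧
      ∀ n < 64, h n + 60 ≤ h (n + 1) := by
  classical
  obtain ⟨S, hS⟩ : ∃ S : Finset ℤ, S = {g ∈ Icc 1 (m - 2) | PlGood Q L m g} := ⟨_, rfl⟩
  have hm : 3843 ≤ m := by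
    have : (0 : ℤ) ≤ (#{i ∈ range L | Q (i + 1) - Q i = -1} : ℤ) := Int.natCast_nonneg _
    omega
  have hsub : Icc 1 (m - 2) ⊆
      S ∪ {i ∈ range L | Q (i + 1) - Q i = -1}.image (fun i => Q (i + 1) % m) := by
    intro g hg
    by_cases h : PlGood Q L m g
    · exact mem_union_left _ (hS ▸ mem_filter.mpr ⟨hg, h⟩)
    · apply mem_union_right
      unfold PlGood at h
      push Not at h
      obtain ⟨i, hi, h1, t, ht⟩ := h
      refine mem_image.mpr ⟨i, mem_filter.mpr ⟨mem_range.mpr hi, h1⟩, ?_⟩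
      have h2 : Q (i + 1) = g + m * t := by omega
      obtain ⟨h3, h4⟩ := mem_Icc.mp hg
      rw [h2, Int.add_mul_emod_self_left]
      exact Int.emod_eq_of_lt (by omega) (by omega)
  have hcard : 3841 ≤ #S := by
    have h1 := card_le_card hsub
    have h2 := card_union_le S ({i ∈ range L | Q (i + 1) - Q i = -1}.image (fun i => Q (i + 1) % m))
    have h3 := card_image_le (s := {i ∈ range L | Q (i + 1) - Q i = -1})
      (f := fun i => Q (i + 1) % m)
    have h4 : (#(Icc (1 : ℤ) (m - 2)) : ℤ) = m - 2 := by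
      rw [Int.card_Icc]
      omega
    omega
  obtain ⟨F, hF⟩ : ∃ F : ℕ → ℤ, ∀ n (h : n < #S), F n = S.orderEmbOfFin rfl ⟨n, h⟩ :=
    ⟨fun n => if h : n < #S then S.orderEmbOfFin rfl ⟨n, h⟩ else 0, fun n h => dif_pos h⟩
  have hmem : ∀ n < #S, F n ∈ S := fun n h => hF n h ▸ S.orderEmbOfFin_mem rfl _
  have hgrow : ∀ k n, n + k < #S → F n + k ≤ F (n + k) := by
    intro k n
    induction k with
    | zero => intro _; simp
    | succ k ih =>
      intro h
      have h1 := ih (by omega)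
      have h2 : F (n + k) < F (n + (k + 1)) := by
        rw [hF _ (by omega : n + k < #S), hF _ h]
        exact (S.orderEmbOfFin rfl).strictMono (Fin.mk_lt_mk.mpr (by omega))
      push_cast
      omega
  refine ⟨fun n => F (60 * n), fun n hn => ?_, fun n hn => ?_⟩
  · have h1 := hmem (60 * n) (by omega)
    rw [hS] at h1
    obtain ⟨h2, h3⟩ := mem_filter.mp h1
    obtain ⟨h4, h5⟩ := mem_Icc.mp h2
    have h6 : F (60 * n) + 2 ≤ m := by omega
    exact ⟨h4, h6, h3⟩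
  · have h1 := hgrow 60 (60 * n) (by omega)
    have h2 : 60 * (n + 1) = 60 * n + 60 := by ring
    show F (60 * n) + 60 ≤ F (60 * (n + 1))
    rw [h2]
    exact_mod_cast h1

theorem exists_places (Q : ℕ → ℤ) (L : ℕ) (m : ℤ) (h0 : |Q 0| ≤ 1) (hL : |Q L - m| ≤ 1)
    (hs : ∀ i < L, |Q (i + 1) - Q i| ≤ 1)
    (hd : (#{i ∈ range L | Q (i + 1) - Q i = -1} : ℤ) + 3843 ≤ m)
    (hsp : ∀ i j k, 1 ≤ i → i < j → j < k → k < L → Q (i + 1) - Q i = 1 →
      Q (j + 1) - Q j = 1 → Q (k + 1) - Q k = 1 → i + 11 ≤ k) :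
    ∃ (a lo hi : ℕ → ℕ) (l : ℕ → ℤ), ∀ j < 32, Place Q L m (a j) (lo j) (hi j) (l j) ∧
      (j + 1 < 32 → hi j ≤ lo (j + 1)) := by
  obtain ⟨h, hh, hg⟩ := pl_levels Q L m hd
  have key : ∀ j, ∃ (a : ℕ) (l : ℤ), j < 32 →
      Place Q L m a (plLast Q L (h (2 * j)) + 1) (plLast Q L (h (2 * j + 2))) l := by
    intro j
    by_cases hj : j < 32
    · obtain ⟨a, l, hal⟩ := pl_place Q L m h0 hL hs hsp (h (2 * j)) (h (2 * j + 1)) (h (2 * j + 2))
        (hh _ (by omega)).1 (hg _ (by omega)) (hg (2 * j + 1) (by omega)) (hh _ (by omega)).2.1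
        (hh _ (by omega)).2.2 (hh _ (by omega)).2.2 (hh _ (by omega)).2.2
      exact ⟨a, l, fun _ => hal⟩
    · exact ⟨0, 0, fun h => absurd h hj⟩
  choose a l hal using key
  refine ⟨a, fun j => plLast Q L (h (2 * j)) + 1, fun j => plLast Q L (h (2 * j + 2)), l,
    fun j hj => ⟨hal j hj, fun _ => ?_⟩⟩
  have h2 : 2 * (j + 1) = 2 * j + 2 := by ring
  show plLast Q L (h (2 * j + 2)) ≤ plLast Q L (h (2 * (j + 1))) + 1
  rw [h2]
  omega

end Pool.Agent.P.MP_e59a69_co
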