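import Pool.Agent.P.MP_e59a69_co.TLift
import Pool.Agent.P.MP_e59a69_co.TPlaces

/-! Lifting the parity flow and adding the circulations. -/

open Finset Function

namespace Pool.Agent.P.MP_e59a69_co

variable {V : Type} [Fintype V] [DecidableEq V] {π μ : Equiv.Perm V} {bs : V → V} {ix : V → ℕ}

/-- the walk along the window of `r`: `i` is the arc entering the `i`-th vertex -/
def walk (π : Equiv.Perm V) (y b : V → ℤ) (m : ℤ) (r : V) (i : ℕ) : ℤ :=
  if i = 0 then - (b r * y (π.symm r)) else m - b r * y (π^[i - 1] r)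

lemma arith (m A Z Y : ℤ) (hm : 100 ≤ m) (hY : |Y| < 2 * m) (hd : m ∣ Y - A)
    (h : (0 ≤ A ∧ A ≤ m ∧ 15 ≤ A + Z ∧ A + Z ≤ m - 15) ∨ (A = 0 ∧ |Z| ≤ 45)) :
    |Y + Z| ≤ 2 * m - 15 := by
  obtain ⟨q, hq⟩ := hd
  have hY' := abs_lt.1 hY
  have e : Y = A + m * q := by linarith
  rcases h with ⟨a1, a2, a3, a4⟩ | ⟨a1, a2⟩
  · have q1 : q ≤ 1 := by
      by_contra hc
      have : m * 2 ≤ m * q := mul_le_mul_of_nonneg_left (by omega) (by omega)
      linarith [hY'.2]
    have q2 : -2 ≤ q := by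
      by_contra hc
      have : m * q ≤ m * (-3) := mul_le_mul_of_nonneg_left (by omega) (by omega)
      linarith [hY'.1]
    have q3 : m * q ≤ m * 1 := mul_le_mul_of_nonneg_left q1 (by omega)
    have q4 : m * (-2) ≤ m * q := mul_le_mul_of_nonneg_left q2 (by omega)
    exact abs_le.2 ⟨by linarith, by linarith⟩
  · have a3 := abs_le.1 a2
    have q1 : q ≤ 1 := by
      by_contra hc
      have : m * 2 ≤ m * q := mul_le_mul_of_nonneg_left (by omega) (by omega)
      linarith [hY'.2]
    have q2 : -1 ≤ q := by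
      by_contra hc
      have : m * q ≤ m * (-2) := mul_le_mul_of_nonneg_left (by omega) (by omega)
      linarith [hY'.1]
    have q3 : m * q ≤ m * 1 := mul_le_mul_of_nonneg_left q1 (by omega)
    have q4 : m * (-1) ≤ m * q := mul_le_mul_of_nonneg_left q2 (by omega)
    exact abs_le.2 ⟨by linarith [a3.1], by linarith [a3.2]⟩

omit [Fintype V] [DecidableEq V] in
lemma asm_pre_const (π : Equiv.Perm V) (f : V → ℤ) (r : V) (i : ℕ) :
    ∀ d, (∀ j, i ≤ j → j < i + d → f (π^[j] r) = 0) → pre π f r (i + d) = pre π f r i := by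
  intro d
  induction d with
  | zero => exact fun _ => rfl
  | succ d ih =>
    intro h
    rw [← add_assoc, pre_succ, ih fun j h1 h2 => h j h1 (by omega), h (i + d) (by omega) (by omega),
      add_zero]

omit [Fintype V] [DecidableEq V] in
lemma asm_pre_eq (π : Equiv.Perm V) (f : V → ℤ) (r : V) {i k : ℕ} (hik : i ≤ k)
    (h : ∀ j, i ≤ j → j < k → f (π^[j] r) = 0) : pre π f r k = pre π f r i := by
  obtain ⟨d, rfl⟩ := Nat.exists_eq_add_of_le hik
  exact asm_pre_const π f r i d h

lemma asm_match (m o x x' t : ℤ) (hm : 200 ≤ m) (ho : o = 1 ∨ o = -1) (hx : |x| ≤ 1)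
    (hd : 2 * m ∣ x' - (m * o + x)) (hl : |x'| < 2 * m) (ht : |t| ≤ 1) :
    m - 7 ≤ |x' + 6 * t| ∧ |x' + 6 * t| ≤ m + 7 := by
  obtain ⟨q, hq⟩ := hd
  have h1 := abs_le.1 hx
  have h2 := abs_lt.1 hl
  have h3 := abs_le.1 ht
  have key : x' = m + x ∨ x' = - m + x := by
    have q1 : q ≤ 1 := by
      by_contra hc
      have : m * 2 ≤ m * q := mul_le_mul_of_nonneg_left (by omega) (by omega)
      rcases ho with rfl | rfl <;> linarith [h2.2, h1.1]
    have q2 : -1 ≤ q := by
      by_contra hc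
      have : m * q ≤ m * (-2) := mul_le_mul_of_nonneg_left (by omega) (by omega)
      rcases ho with rfl | rfl <;> linarith [h2.1, h1.2]
    have q3 : q = 1 ∨ q = 0 ∨ q = -1 := by omega
    rcases ho with rfl | rfl <;> rcases q3 with rfl | rfl | rfl <;> omega
  rcases key with rfl | rfl
  · rw [abs_of_nonneg (by omega)]
    omega
  · rw [abs_of_nonpos (by omega)]
    omega

/-- the estimate on an odd circuit, in terms of the walk -/
lemma asm_odd {Q : ℕ → ℤ} {L : ℕ} {m : ℤ} {a lo hi : ℕ} {l : ℤ} (P : Place Q L m a lo hi l)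
    (hm : 200 ≤ m) (p : ℕ → ℤ) (i : ℕ) (Y : ℤ) (hY : |Y| < 2 * m) (hd : m ∣ Y - (l - Q i))
    (hout : L < i → |m - Q i| ≤ 1) (hi5 : |p i| ≤ 5) (ha : |p a| ≤ 5) (ha5 : |p (a + 5)| ≤ 5)
    (hj : p (a + 5) = p a + 5) (hleft : lo ≤ i → i ≤ a → p a = p i)
    (hright : a + 5 ≤ i → i ≤ hi → p i = p (a + 5)) :
    |Y + (15 - 6 * (p i - p a))| ≤ 2 * m - 15 := by
  have b1 := abs_le.1 hi5
  have b2 := abs_le.1 ha
  have b3 := abs_le.1 ha5
  have l1 := P.l_ge
  have l2 := P.l_le
  have hd' : m ∣ Y - (l + m - Q i) := by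
    have e : Y - (l + m - Q i) = Y - (l - Q i) - m := by ring
    rw [e]
    exact dvd_sub hd dvd_rfl
  have c1 := P.lo_le
  have c2 := P.le_hi
  have c3 := P.hi_le
  by_cases k1 : L < i
  · have := abs_le.1 (hout k1)
    exact arith m _ _ Y (by omega) hY hd' (Or.inl ⟨by omega, by omega, by omega, by omega⟩)
  have g := P.glob i (by omega)
  by_cases k2 : i < lo
  · have := P.far_left i k2
    exact arith m _ _ Y (by omega) hY hd (Or.inl ⟨by omega, by omega, by omega, by omega⟩)
  by_cases k3 : i ≤ a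
  · have := P.left i (by omega)
    have := hleft (by omega) k3
    exact arith m _ _ Y (by omega) hY hd (Or.inl ⟨by omega, by omega, by omega, by omega⟩)
  by_cases k4 : i ≤ a + 5
  · have := P.left i k4
    have := P.right i (by omega) (by omega)
    exact arith m _ _ Y (by omega) hY hd (Or.inr ⟨by omega, abs_le.2 ⟨by omega, by omega⟩⟩)
  by_cases k5 : i ≤ hi
  · have := P.right i (by omega) (by omega)
    have := hright (by omega) k5
    exact arith m _ _ Y (by omega) hY hd' (Or.inl ⟨by omega, by omega, by omega, by omega⟩)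
  · have := P.far_right i (by omega) (by omega)
    exact arith m _ _ Y (by omega) hY hd' (Or.inl ⟨by omega, by omega, by omega, by omega⟩)

theorem assemble (C : Co π bs ix) (h1 : ∀ v, μ (μ v) = v) (h2 : ∀ v, μ v ≠ v) (L : ℕ) (m : ℤ)
    (hm : 200 ≤ m) (hL : 2 ≤ L) (hper : ∀ v, L < minimalPeriod π v) (y x b τ : V → ℤ)
    (hx : ∀ v, x (μ v) = - x v) (hx1 : ∀ v, |x v| ≤ 1)
    (hy1 : ∀ v, ¬ Win π ix (L - 1) v → |y v| ≤ 1)
    (h0 : ∀ v, ¬ (bs v = v ∧ Odd (minimalPeriod π v)) → bd π y x v = 0)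
    (hb : ∀ r, bs r = r → Odd (minimalPeriod π r) → (b r = 1 ∨ b r = -1) ∧ bd π y x r = b r * m)
    (hτ : ∀ v, τ (μ v) = - τ v) (hτ1 : ∀ v, |τ v| ≤ 1)
    (hτ2 : ∀ r, bs r = r → pre π τ r (minimalPeriod π r) = 0 ∧
      ∀ i ≤ minimalPeriod π r, |pre π τ r i| ≤ 5)
    (a lo hi : V → ℕ) (l : V → ℤ)
    (hpl : ∀ r, bs r = r → Odd (minimalPeriod π r) →
      Place (walk π y b m r) L m (a r) (lo r) (hi r) (l r) ∧
      (∀ i < 5, τ (π^[a r + i] r) = b r) ∧
      ∀ i, lo r ≤ i → i < hi r → i < a r ∨ a r + 5 ≤ i → τ (π^[i] r) = 0) :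
    ∃ Y X : V → ℤ, (∀ v, X (μ v) = - X v) ∧ (∀ v, bd π Y X v = 0) ∧
      ∀ v, |Y v| ≤ 2 * m - 15 ∧ m - 7 ≤ |X v| ∧ |X v| ≤ m + 7 := by
  classical
  obtain ⟨O, hO⟩ := exists_half μ h1 h2
  obtain ⟨o, ho1, ho2⟩ : ∃ o : V → ℤ, (∀ v, o v = 1 ∨ o v = -1) ∧ ∀ v, o (μ v) = - o v := by
    refine ⟨fun v => if v ∈ O then 1 else -1, fun v => ?_, fun v => ?_⟩
    · by_cases h : v ∈ O <;> simp [h]
    · by_cases h : v ∈ O <;> simp [h, hO]
  obtain ⟨s, hs1, hs2⟩ : ∃ s : V → ℤ, (∀ r, Odd (minimalPeriod π r) → s r = b r * l r) ∧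
      ∀ r, ¬ Odd (minimalPeriod π r) → s r = 100 :=
    ⟨fun r => if Odd (minimalPeriod π r) then b r * l r else 100, fun r h => if_pos h,
      fun r h => if_neg h⟩
  obtain ⟨c0, hc1, hc2⟩ : ∃ c0 : V → ℤ,
      (∀ r, Odd (minimalPeriod π r) → c0 r = 15 * b r + 6 * pre π τ r (a r)) ∧
      ∀ r, ¬ Odd (minimalPeriod π r) → c0 r = 0 :=
    ⟨fun r => if Odd (minimalPeriod π r) then 15 * b r + 6 * pre π τ r (a r) else 0,
      fun r h => if_pos h, fun r h => if_neg h⟩
  obtain ⟨y', x', g1, g2, g3⟩ := glift h1 h2 id π id (2 * m) (by omega)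
    (fun v => m * ix v + s (bs v) + y v) (fun v => m * o v + x v)
    (fun v => by rw [ho2, hx]; ring) fun v => by
      rw [gb_id]
      have e : bd π (fun v => m * ix v + s (bs v) + y v) (fun v => m * o v + x v) v =
          m * ((ix v : ℤ) - ix (π.symm v) + o v) + bd π y x v := by
        unfold bd
        simp only [C.bs_symm]
        ring
      rw [e]
      by_cases k : ix v = 0
      · have k1 := C.ix_symm_zero k
        have k2 := C.eq_bs k
        by_cases k3 : Odd (minimalPeriod π v)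
        · obtain ⟨k4, k5⟩ := hb v k2 k3
          obtain ⟨n, hn⟩ := k3
          have k6 : (ix (π.symm v) : ℤ) = 2 * n := by omega
          rw [k5, k6, k]
          rcases ho1 v with k7 | k7 <;> rcases k4 with k8 | k8 <;> rw [k7, k8]
          · exact ⟨1 - n, by push_cast; ring⟩
          · exact ⟨- n, by push_cast; ring⟩
          · exact ⟨- n, by push_cast; ring⟩
          · exact ⟨- 1 - n, by push_cast; ring⟩
        · rw [h0 v fun h => k3 h.2]
          obtain ⟨n, hn⟩ := Nat.not_odd_iff_even.1 k3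
          have k6 : (ix (π.symm v) : ℤ) = 2 * n - 1 := by omega
          rw [k6, k]
          rcases ho1 v with k7 | k7 <;> rw [k7]
          · exact ⟨1 - n, by push_cast; ring⟩
          · exact ⟨- n, by push_cast; ring⟩
      · have k1 := C.ix_symm k
        have k2 : bs v ≠ v := fun h => k (by rw [← h]; exact C.ix_bs v)
        rw [h0 v fun h => k2 h.1]
        have k6 : (ix v : ℤ) = ix (π.symm v) + 1 := by omega
        rw [k6]
        rcases ho1 v with k7 | k7 <;> rw [k7]
        · exact ⟨1, by ring⟩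
        · exact ⟨0, by ring⟩
  refine ⟨fun v => y' v + c0 (bs v) - 6 * pre π τ (bs v) (ix v + 1), fun v => x' v + 6 * τ v,
    fun v => by simp only [g1, hτ]; ring, fun v => ?_, fun v => ⟨?_, ?_⟩⟩
  · have e : bd π (fun v => y' v + c0 (bs v) - 6 * pre π τ (bs v) (ix v + 1))
        (fun v => x' v + 6 * τ v) v = bd π y' x' v +
          6 * (pre π τ (bs v) (ix (π.symm v) + 1) + τ v - pre π τ (bs v) (ix v + 1)) := by
      unfold bd
      simp only [C.bs_symm]
      ring
    rw [e, ← gb_id, g2, pre_succ π τ (bs v) (ix v), C.pw]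
    by_cases k : ix v = 0
    · rw [C.ix_symm_zero k, ← C.per_bs, (hτ2 _ (C.bs_bs v)).1, k]
      simp [pre]
    · rw [C.ix_symm k]
      ring
  · obtain ⟨⟨d1, d2⟩, -⟩ := g3 v
    beta_reduce
    have hlt := C.lt v
    have hp := (hτ2 _ (C.bs_bs v)).2
    rw [C.per_bs] at hp
    have d3 : m ∣ y' v - (s (bs v) + y v) := by
      have e : y' v - (s (bs v) + y v) = y' v - (m * ix v + s (bs v) + y v) + m * ix v := by ring
      rw [e]
      exact dvd_add ((dvd_mul_left m 2).trans d1) (dvd_mul_right _ _)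
    by_cases k : Odd (minimalPeriod π v)
    · have k' : Odd (minimalPeriod π (bs v)) := by rwa [C.per_bs]
      obtain ⟨P, t1, t2⟩ := hpl _ (C.bs_bs v) k'
      obtain ⟨hb1, -⟩ := hb _ (C.bs_bs v) k'
      have bb : b (bs v) * b (bs v) = 1 := by rcases hb1 with h | h <;> rw [h] <;> norm_num
      have ba : ∀ z : ℤ, |b (bs v) * z| = |z| := fun z => by
        rcases hb1 with h | h <;> rw [h] <;> simp
      have hQ : walk π y b m (bs v) (ix v + 1) = m - b (bs v) * y v := by
        unfold walk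
        rw [if_neg (by omega), Nat.add_sub_cancel, C.pw]
      have c1 := P.lo_le
      have c2 := P.le_hi
      have c3 := P.hi_le
      have c4 := hper v
      have key := asm_odd P hm (fun i => b (bs v) * pre π τ (bs v) i) (ix v + 1)
        (b (bs v) * y' v) (by rw [ba]; exact d2)
        (by
          rw [hQ]
          have e : b (bs v) * y' v - (l (bs v) - (m - b (bs v) * y v)) =
              b (bs v) * (y' v - (s (bs v) + y v)) + m := by
            rw [hs1 _ k']
            linear_combination (l (bs v)) * bb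
          rw [e]
          exact dvd_add (d3.mul_left _) dvd_rfl)
        (fun h => by
          rw [hQ, sub_sub_cancel, ba]
          exact hy1 v fun w => by have := w.2; omega)
        (by rw [ba]; exact hp _ (by omega)) (by rw [ba]; exact hp _ (by omega))
        (by rw [ba]; exact hp _ (by omega))
        (by
          have u0 := t1 0 (by omega)
          have u1 := t1 1 (by omega)
          have u2 := t1 2 (by omega)
          have u3 := t1 3 (by omega)
          have u4 := t1 4 (by omega)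
          rw [add_zero] at u0
          rw [pre_succ π τ _ (a (bs v) + 4), pre_succ π τ _ (a (bs v) + 3),
            pre_succ π τ _ (a (bs v) + 2), pre_succ π τ _ (a (bs v) + 1),
            pre_succ π τ _ (a (bs v)), u0, u1, u2, u3, u4]
          linear_combination 5 * bb)
        (fun i1 i2 => by
          rw [asm_pre_eq π τ (bs v) i2 fun j j1 j2 =>
            t2 j (by omega) (by omega) (Or.inl j2)])
        (fun i1 i2 => by
          rw [asm_pre_eq π τ (bs v) i1 fun j j1 j2 =>
            t2 j (by omega) (by omega) (Or.inr j1)])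
      rw [← ba]
      have e : b (bs v) * (y' v + c0 (bs v) - 6 * pre π τ (bs v) (ix v + 1)) =
          b (bs v) * y' v + (15 - 6 * (b (bs v) * pre π τ (bs v) (ix v + 1) -
            b (bs v) * pre π τ (bs v) (a (bs v)))) := by
        rw [hc1 _ k']
        linear_combination 15 * bb
      rw [e]
      exact key
    · have k' : ¬ Odd (minimalPeriod π (bs v)) := by rwa [C.per_bs]
      rw [hs2 _ k'] at d3
      have u1 := abs_le.1 (hy1 v fun w => k w.1)
      have u2 := abs_le.1 (hp (ix v + 1) (by omega))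
      have key := arith m _ (- (6 * pre π τ (bs v) (ix v + 1))) _ (by omega) d2 d3
        (Or.inl ⟨by omega, by omega, by omega, by omega⟩)
      rw [hc2 _ k', add_zero, sub_eq_add_neg]
      exact key
  · obtain ⟨-, d1, d2⟩ := g3 v
    exact asm_match m (o v) (x v) (x' v) (τ v) hm (ho1 v) (hx1 v) d1 d2 (hτ1 v)

end Pool.Agent.P.MP_e59a69_co
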