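import Pool.Agent.P.MP_e59a69_co.TLift

/-! Rounding the fine flow to a coarse grid with sparse steps. -/

open Finset Function

namespace Pool.Agent.P.MP_e59a69_co

variable {V : Type} [Fintype V] [DecidableEq V] {π μ : Equiv.Perm V} {bs : V → V} {ix : V → ℕ}

open Classical in
/-- tail of an arc after re-attaching -/
noncomputable def tcR1 (π : Equiv.Perm V) (bs : V → V) (ix : V → ℕ) (L : ℕ) (v : V) : V :=
  if Win π ix L v ∧ ix v = L - 1 then bs v else v

open Classical in
/-- end of a matching edge after re-attaching -/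
noncomputable def tcR3 (π : Equiv.Perm V) (bs : V → V) (ix : V → ℕ) (L : ℕ) (up : V → Prop)
    (v : V) : V :=
  if Win π ix L v ∧ ¬ up v then bs v else v

open Classical in
/-- the part of `x` on the vertices in `up` -/
noncomputable def tcU (up : V → Prop) (x : V → ℤ) (v : V) : ℤ := if up v then x v else 0

lemma tc_split (r1 r3 : V → V) (y x : V → ℤ) (n : V) :
    gb r1 π r3 y x n = (∑ v, if r1 v = n then y v else 0) - y (π.symm n) +
      ∑ v, if r3 v = n then x v else 0 := by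
  unfold gb
  rw [Finset.sum_add_distrib, Finset.sum_sub_distrib]
  have : ∀ u, π u = n ↔ u = π.symm n := fun u => by rw [Equiv.eq_symm_apply]
  simp [this]

omit [DecidableEq V] in
lemma tc_win_bs (C : Co π bs ix) {L : ℕ} {v : V} (h : Win π ix L v) : Win π ix L (bs v) :=
  ⟨by rw [C.per_bs]; exact h.1, by rw [C.ix_bs]; exact lt_of_le_of_lt (Nat.zero_le _) h.2⟩

omit [DecidableEq V] in
lemma tc_win_iter (C : Co π bs ix) {L : ℕ} {r : V} (hr : bs r = r) (ho : Odd (minimalPeriod π r))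
    {i : ℕ} (hi : i < minimalPeriod π r) : Win π ix L (π^[i] r) ↔ i < L := by
  unfold Win
  rw [per_iter, C.ix_iter hr hi]
  exact and_iff_right ho

lemma tc_gbA (C : Co π bs ix) (L : ℕ) (up : V → Prop) (y x : V → ℤ) {n : V}
    (hn : ¬ Win π ix L n) :
    gb (tcR1 π bs ix L) π (tcR3 π bs ix L up) y x n = bd π y x n := by
  have e1 : ∀ v, tcR1 π bs ix L v = n ↔ v = n := fun v => by
    unfold tcR1
    split_ifs with h
    · exact ⟨fun e => absurd (e ▸ tc_win_bs C h.1) hn, fun e => absurd (e ▸ h.1) hn⟩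
    · rfl
  have e3 : ∀ v, tcR3 π bs ix L up v = n ↔ v = n := fun v => by
    unfold tcR3
    split_ifs with h
    · exact ⟨fun e => absurd (e ▸ tc_win_bs C h.1) hn, fun e => absurd (e ▸ h.1) hn⟩
    · rfl
  rw [tc_split]
  simp [e1, e3, bd]

lemma tc_gbB (C : Co π bs ix) (L : ℕ) (up : V → Prop) (y x : V → ℤ) {n : V}
    (hn : Win π ix L n) (h0 : ix n ≠ 0) :
    gb (tcR1 π bs ix L) π (tcR3 π bs ix L up) y x n =
      (if ix n = L - 1 then 0 else y n) - y (π.symm n) + tcU up x n := by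
  have e0 : ∀ v, bs v ≠ n := fun v e => h0 (e ▸ C.ix_bs v)
  have e1 : ∀ v, tcR1 π bs ix L v = n ↔ (v = n ∧ ix n ≠ L - 1) := fun v => by
    unfold tcR1
    split_ifs with h
    · exact ⟨fun e => absurd e (e0 v), fun e => absurd (e.1 ▸ h.2) e.2⟩
    · exact ⟨fun e => ⟨e, fun e' => h ⟨e ▸ hn, e ▸ e'⟩⟩, fun e => e.1⟩
  have e3 : ∀ v, tcR3 π bs ix L up v = n ↔ (v = n ∧ up n) := fun v => by
    unfold tcR3
    split_ifs with h
    · exact ⟨fun e => absurd e (e0 v), fun e => absurd (e.1 ▸ e.2) h.2⟩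
    · exact ⟨fun e => ⟨e, by_contra fun e' => h ⟨e ▸ hn, e ▸ e'⟩⟩, fun e => e.1⟩
  rw [tc_split]
  unfold tcU
  by_cases a : ix n = L - 1 <;> by_cases b : up n <;> simp [e1, e3, a, b]

lemma tc_gbC (C : Co π bs ix) {L : ℕ} (hL : 2 ≤ L) (up : V → Prop) (y x : V → ℤ) {r : V}
    (hr : bs r = r) (ho : Odd (minimalPeriod π r)) (hp : L < minimalPeriod π r) :
    gb (tcR1 π bs ix L) π (tcR3 π bs ix L up) y x r =
      y r + y (π^[L - 1] r) - y (π.symm r) + pre π x r L -
        (pre π (tcU up x) r L - pre π (tcU up x) r 1) := by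
  classical
  have i0 : ix r = 0 := hr ▸ C.ix_bs r
  have iL : ix (π^[L - 1] r) = L - 1 := C.ix_iter hr (by omega)
  have ne : r ≠ π^[L - 1] r := fun e => by rw [← e] at iL; omega
  have e1 : ∀ v, tcR1 π bs ix L v = r ↔ (v = r ∨ v = π^[L - 1] r) := fun v => by
    unfold tcR1
    split_ifs with h
    · refine ⟨fun e => Or.inr ?_, fun e => ?_⟩
      · rw [← e, ← h.2, C.pw]
      · rcases e with e | e
        · rw [e, hr]
        · rw [e, C.bs_iter, hr]
    · refine ⟨Or.inl, fun e => e.resolve_right fun e => h ?_⟩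
      rw [e]
      exact ⟨(tc_win_iter C hr ho (by omega)).2 (by omega), iL⟩
  have e3 : ∀ v, (if tcR3 π bs ix L up v = r then x v else 0) =
      (if bs v = r ∧ ix v < L then x v else 0) - (if bs v = r ∧ ix v < L then tcU up x v else 0) +
        (if bs v = r ∧ ix v < 1 then tcU up x v else 0) := fun v => by
    unfold tcR3 tcU
    by_cases a : bs v = r
    · have ov : Odd (minimalPeriod π v) := by rw [← C.per_bs, a]; exact ho
      by_cases a1 : ix v < 1
      · have ev : v = r := by rw [← a, C.eq_bs (by omega)]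
        have a2 : ix v < L := by omega
        by_cases u : up v <;> simp [Win, a, a1, a2, u, ov] <;> simp [ev]
      · have ev : v ≠ r := fun e => by rw [e] at a1; omega
        by_cases a2 : ix v < L <;> by_cases u : up v <;> simp [Win, a, a1, a2, u, ov, ev]
    · have ev : v ≠ r := fun e => a (e ▸ hr)
      split_ifs <;> simp_all
  have s1 : (∑ v, if tcR1 π bs ix L v = r then y v else 0) = y r + y (π^[L - 1] r) := by
    have : ∀ v, (if tcR1 π bs ix L v = r then y v else 0) =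
        (if v = r then y v else 0) + (if v = π^[L - 1] r then y v else 0) := fun v => by
      by_cases a : v = r
      · have : v ≠ π^[L - 1] r := fun e => ne (a ▸ e)
        simp [e1, a, ne]
      · by_cases b : v = π^[L - 1] r
        · rw [if_pos ((e1 v).2 (Or.inr b)), if_neg a, if_pos b, zero_add]
        · simp [e1, a, b]
    rw [Finset.sum_congr rfl fun v _ => this v, Finset.sum_add_distrib]
    simp
  rw [tc_split, s1, Finset.sum_congr rfl fun v _ => e3 v, Finset.sum_add_distrib,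
    Finset.sum_sub_distrib, ← Finset.sum_filter, ← Finset.sum_filter, ← Finset.sum_filter,
    C.sum_cycle hr x L hp.le, C.sum_cycle hr _ L hp.le, C.sum_cycle hr _ 1 (by omega)]
  ring

lemma tc_gb_lin (r1 r2 r3 : V → V) (M m : ℤ) (y x y1 x1 y2 x2 : V → ℤ)
    (hy : ∀ v, M * y2 v = m * y v - y1 v) (hx : ∀ v, M * x2 v = m * x v - x1 v) (n : V) :
    M * gb r1 r2 r3 y2 x2 n = m * gb r1 r2 r3 y x n - gb r1 r2 r3 y1 x1 n := by
  unfold gb
  rw [Finset.mul_sum, Finset.mul_sum, ← Finset.sum_sub_distrib]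
  refine Finset.sum_congr rfl fun v _ => ?_
  have := hy v
  have := hx v
  split_ifs <;> linarith

omit [DecidableEq V] in
lemma tc_win_symm (C : Co π bs ix) {L : ℕ} {v : V} (hp : L < minimalPeriod π v)
    (hn : ¬ Win π ix L v) : ¬ Win π ix (L - 1) (π.symm v) := fun h => by
  have e : minimalPeriod π (π.symm v) = minimalPeriod π v := by
    rw [← per_pi π (π.symm v)]; simp
  by_cases a : ix v = 0
  · have := C.ix_symm_zero a
    have := h.2
    omega
  · have := C.ix_symm a
    have := h.2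
    exact hn ⟨e ▸ h.1, by omega⟩

lemma tc_D (C : Co π bs ix) {L : ℕ} (up : V → Prop) (y x : V → ℤ) {r : V}
    (hr : bs r = r) (ho : Odd (minimalPeriod π r)) (hp : L < minimalPeriod π r)
    (h : ∀ n, ix n ≠ 0 → gb (tcR1 π bs ix L) π (tcR3 π bs ix L up) y x n = 0) (d : ℕ) :
    ∀ i, i + d + 2 = L → y (π^[i] r) = pre π (tcU up x) r L - pre π (tcU up x) r (i + 1) := by
  have key : ∀ i, i + 1 < L → (if i + 1 = L - 1 then 0 else y (π^[i + 1] r)) - y (π^[i] r) +
      tcU up x (π^[i + 1] r) = 0 := fun i hi => by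
    have e : ix (π^[i + 1] r) = i + 1 := C.ix_iter hr (by omega)
    have := h (π^[i + 1] r) (by omega)
    rwa [tc_gbB C L up y x ((tc_win_iter C hr ho (by omega)).2 hi) (by omega), e, symm_iter] at this
  induction d with
  | zero =>
    intro i hi
    have := key i (by omega)
    rw [if_pos (by omega)] at this
    rw [← hi, Nat.add_zero, pre_succ π _ r (i + 1)]
    linarith
  | succ d ih =>
    intro i hi
    have := key i (by omega)
    rw [if_neg (by omega), ih (i + 1) (by omega), pre_succ π _ r (i + 1)] at this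
    linarith

lemma tc_sparse (a a' : ℕ → ℤ) (L : ℕ) (m M : ℤ) (hm0 : 0 < m) (hm : 132 * m ≤ M)
    (ha : ∀ j, a j ≤ 11) (ha' : ∀ j, 0 ≤ a' j)
    (H : ∀ i, 1 ≤ i → i ≤ L → |M * (∑ j ∈ range L, a' j - ∑ j ∈ range i, a' j) -
      m * (∑ j ∈ range L, a j - ∑ j ∈ range i, a j)| < M)
    (i j k : ℕ) (h1 : 1 ≤ i) (hij : i < j) (hjk : j < k) (hk : k < L) (e1 : a' i = 1)
    (e2 : a' j = 1) (e3 : a' k = 1) : i + 11 ≤ k := by
  have mono : ∀ s t, s ≤ t → ∑ j ∈ range s, a' j ≤ ∑ j ∈ range t, a' j := fun s t h =>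
    Finset.sum_le_sum_of_subset_of_nonneg (range_mono h) fun j _ _ => ha' j
  have up : ∀ d : ℕ, ∑ j ∈ range (i + d), a j ≤ ∑ j ∈ range i, a j + 11 * d := fun d => by
    induction d with
    | zero => simp
    | succ d ih =>
      rw [← Nat.add_assoc, Finset.sum_range_succ]
      have := ha (i + d)
      push_cast
      linarith
  have b1 := mono (i + 1) j hij
  have b2 := mono (j + 1) k hjk
  have b3 := Finset.sum_range_succ a' k
  rw [Finset.sum_range_succ] at b1 b2
  obtain ⟨d, hd⟩ : ∃ d, k + 1 = i + d := ⟨k + 1 - i, by omega⟩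
  have b4 := up d
  rw [← hd] at b4
  have c1 := abs_lt.1 (H i h1 (by omega))
  have c2 := abs_lt.1 (H (k + 1) (by omega) hk)
  by_contra hc
  have hd' : (d : ℤ) ≤ 12 := by omega
  generalize ∑ j ∈ range L, a' j = p at *
  generalize ∑ j ∈ range L, a j = q at *
  generalize ∑ j ∈ range i, a' j = p1 at *
  generalize ∑ j ∈ range i, a j = q1 at *
  generalize ∑ j ∈ range (k + 1), a' j = p2 at *
  generalize ∑ j ∈ range (k + 1), a j = q2 at *
  have t1 : 3 ≤ p2 - p1 := by linarith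
  have t2 : q2 - q1 ≤ 132 := by linarith
  have t3 : M * 3 ≤ M * (p2 - p1) := mul_le_mul_of_nonneg_left t1 (by linarith)
  have t4 : m * (q2 - q1) ≤ m * 132 := mul_le_mul_of_nonneg_left t2 hm0.le
  linarith [c1.2, c2.1]

lemma tc_down (c c' a a' : ℕ → ℤ) (L : ℕ) (m M : ℤ) (hL : 1 ≤ L) (hm0 : 0 < m) (hm : 132 * m ≤ M)
    (hM : M + 1 = 5 * (L + 2)) (ha : ∀ j, 0 ≤ a j ∧ 2 * a j ≤ c j + 11)
    (ha' : ∀ j, a' j ≤ 1 ∧ c' j = a' j - if c' j = -1 then 1 else 0)
    (H : |M * (∑ j ∈ range L, a' j - ∑ j ∈ range 1, a' j) -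
      m * (∑ j ∈ range L, a j - ∑ j ∈ range 1, a j)| < M)
    (h1 : ∑ j ∈ range L, c j ≤ M + 22) (h2 : m - 2 ≤ ∑ j ∈ range L, c' j) :
    5 * (#{i ∈ range L | c' i = -1} : ℤ) ≤ 3 * m + 30 := by
  have e1 : ∑ j ∈ range L, c' j = ∑ j ∈ range L, a' j - (#{i ∈ range L | c' i = -1} : ℤ) := by
    rw [Finset.sum_congr rfl fun j _ => (ha' j).2, Finset.sum_sub_distrib, Finset.sum_boole]
  have e2 : 2 * ∑ j ∈ range L, a j ≤ ∑ j ∈ range L, c j + 11 * L := by
    rw [Finset.mul_sum]
    refine (Finset.sum_le_sum fun j _ => (ha j).2).trans ?_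
    rw [Finset.sum_add_distrib]
    simp [mul_comm]
  rw [Finset.sum_range_one, Finset.sum_range_one] at H
  have b1 := (ha 0).1
  have b2 := (ha' 0).1
  have c1 := (abs_lt.1 H).2
  generalize ∑ j ∈ range L, a' j = p at *
  generalize ∑ j ∈ range L, a j = q at *
  have t1 : 10 * (q - a 0) ≤ 16 * M + 11 := by linarith
  have t2 : m * (10 * (q - a 0)) ≤ m * (16 * M + 11) := mul_le_mul_of_nonneg_left t1 hm0.le
  have t3 : M * (10 * (p - a' 0)) < M * (16 * m + 11) := by linarith
  have t4 := lt_of_mul_lt_mul_left t3 (by linarith)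
  linarith

lemma tc_round {M m a q z : ℤ} (hm0 : 0 < m) (hm : 132 * m ≤ M) (ha : |a| ≤ 11)
    (e : M * q = m * a - z) (hz : |z| < M) :
    |q| ≤ 1 ∧ (a ≤ 0 → q ≤ 0) ∧ (0 ≤ a → 0 ≤ q) := by
  rw [abs_le] at ha
  rw [abs_lt] at hz
  have hM : 0 < M := by linarith
  have t1 : m * a ≤ m * 11 := mul_le_mul_of_nonneg_left ha.2 hm0.le
  have t2 : m * (-11) ≤ m * a := mul_le_mul_of_nonneg_left ha.1 hm0.le
  have u1 : q < 2 := lt_of_mul_lt_mul_left (a := M) (by linarith) hM.le
  have u2 : -2 < q := lt_of_mul_lt_mul_left (a := M) (by linarith) hM.le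
  refine ⟨abs_le.2 ⟨by omega, by omega⟩, fun h => ?_, fun h => ?_⟩
  · have := mul_nonpos_of_nonneg_of_nonpos hm0.le h
    have : q < 1 := lt_of_mul_lt_mul_left (a := M) (by linarith) hM.le
    omega
  · have := mul_nonneg hm0.le h
    have : -1 < q := lt_of_mul_lt_mul_left (a := M) (by linarith) hM.le
    omega

theorem exists_coarse (C : Co π bs ix) (h1 : ∀ v, μ (μ v) = v) (h2 : ∀ v, μ v ≠ v) (L : ℕ)
    (m M : ℤ) (hL : 2 ≤ L) (hper : ∀ v, L < minimalPeriod π v) (hm0 : 0 < m) (hm : 132 * m ≤ M)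
    (hM : M + 1 = 5 * (L + 2)) (y x b : V → ℤ) (hx : ∀ v, x (μ v) = - x v)
    (hb : ∀ v, |y v| ≤ 11 ∧ |x v| ≤ 11) (h0 : ∀ v, ¬ Win π ix L v → bd π y x v = 0)
    (hw : ∀ r, bs r = r → Odd (minimalPeriod π r) → (b r = 1 ∨ b r = -1) ∧
      pre π x r L + y (π^[L - 1] r) - y (π.symm r) = b r * M) :
    ∃ y' x' : V → ℤ, (∀ v, x' (μ v) = - x' v) ∧ (∀ v, |x' v| ≤ 1) ∧
      (∀ v, ¬ Win π ix (L - 1) v → |y' v| ≤ 1) ∧
      (∀ v, ¬ (bs v = v ∧ Odd (minimalPeriod π v)) → bd π y' x' v = 0) ∧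
      ∀ r, bs r = r → Odd (minimalPeriod π r) → bd π y' x' r = b r * m ∧
        5 * (#{i ∈ range L | b r * x' (π^[i] r) = -1} : ℤ) ≤ 3 * m + 30 ∧
        ∀ i j k, 1 ≤ i → i < j → j < k → k < L → b r * x' (π^[i] r) = 1 →
          b r * x' (π^[j] r) = 1 → b r * x' (π^[k] r) = 1 → i + 11 ≤ k := by
  classical
  have hM0 : 0 < M := by linarith
  let up : V → Prop := fun v => 0 < b (bs v) * x v
  let Y : V → ℤ := fun v => if Win π ix (L - 1) v then
    pre π (tcU up x) (bs v) L - pre π (tcU up x) (bs v) (ix v + 1) else y v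
  have wm : ∀ v, ¬ Win π ix L v → ¬ Win π ix (L - 1) v := fun v h h' =>
    h ⟨h'.1, lt_of_lt_of_le h'.2 (Nat.sub_le _ _)⟩
  have ws : ∀ v, Win π ix L v → ix v ≠ 0 → Win π ix (L - 1) (π.symm v) := fun v h a => by
    have e : minimalPeriod π (π.symm v) = minimalPeriod π v := by
      rw [← per_pi π (π.symm v)]; simp
    have := C.ix_symm a
    have := h.2
    exact ⟨e ▸ h.1, by omega⟩
  have w0 : ∀ r, bs r = r → ¬ Win π ix (L - 1) (π.symm r) := fun r hr h => by
    have := C.ix_symm_zero (hr ▸ C.ix_bs r : ix r = 0)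
    have := h.2
    have := hper r
    omega
  have wL : ∀ r, bs r = r → ¬ Win π ix (L - 1) (π^[L - 1] r) := fun r hr h => by
    have := hper r
    have := h.2
    rw [C.ix_iter hr (by omega)] at this
    omega
  have wr : ∀ r, bs r = r → Odd (minimalPeriod π r) → Win π ix (L - 1) r := fun r hr ho =>
    ⟨ho, by rw [(hr ▸ C.ix_bs r : ix r = 0)]; omega⟩
  have G0 : ∀ n, ¬ (bs n = n ∧ Odd (minimalPeriod π n)) →
      gb (tcR1 π bs ix L) π (tcR3 π bs ix L up) Y x n = 0 := fun n hn => by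
    by_cases w : Win π ix L n
    · have a : ix n ≠ 0 := fun a => hn ⟨C.eq_bs a, w.1⟩
      have e := pre_succ π (tcU up x) (bs n) (ix n)
      rw [C.pw] at e
      rw [tc_gbB C L up Y x w a]
      simp only [Y, if_pos (ws n w a), C.bs_symm, C.ix_symm a]
      by_cases a1 : ix n = L - 1
      · rw [if_pos a1]
        have : ix n + 1 = L := by omega
        rw [this] at e
        linarith
      · have := w.2
        rw [if_neg a1, if_pos (show Win π ix (L - 1) n from ⟨w.1, by omega⟩)]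
        linarith
    · rw [tc_gbA C L up Y x w, ← h0 n w]
      simp only [bd, Y, if_neg (wm n w), if_neg (tc_win_symm C (hper n) w)]
  have G1 : ∀ r, bs r = r → Odd (minimalPeriod π r) →
      gb (tcR1 π bs ix L) π (tcR3 π bs ix L up) Y x r = b r * M := fun r hr ho => by
    rw [tc_gbC C hL up Y x hr ho (hper r), ← (hw r hr ho).2]
    simp only [Y, if_pos (wr r hr ho), if_neg (w0 r hr), if_neg (wL r hr), hr,
      (hr ▸ C.ix_bs r : ix r = 0)]
    ring
  have lin : ∀ n, gb (tcR1 π bs ix L) π (tcR3 π bs ix L up) (fun v => m * Y v) (fun v => m * x v) n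
      = m * gb (tcR1 π bs ix L) π (tcR3 π bs ix L up) Y x n := fun n => by
    have := tc_gb_lin (tcR1 π bs ix L) π (tcR3 π bs ix L up) 1 m Y x 0 0 (fun v => m * Y v)
      (fun v => m * x v) (fun v => by simp) (fun v => by simp) n
    simpa [gb] using this
  obtain ⟨Y1, x1, a1, a2, a3⟩ := glift h1 h2 (tcR1 π bs ix L) π (tcR3 π bs ix L up) M hM0
    (fun v => m * Y v) (fun v => m * x v) (fun v => by simp only [hx]; ring) fun n => by
      rw [lin]
      by_cases h : bs n = n ∧ Odd (minimalPeriod π n)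
      · rw [G1 n h.1 h.2]; exact ⟨m * b n, by ring⟩
      · rw [G0 n h]; simp
  have a4 : ∀ v, ∃ q, M * q = m * Y v - Y1 v := fun v => by
    obtain ⟨q, hq⟩ := (a3 v).1.1
    exact ⟨-q, by linarith⟩
  have a5 : ∀ v, ∃ q, M * q = m * x v - x1 v := fun v => by
    obtain ⟨q, hq⟩ := (a3 v).2.1
    exact ⟨-q, by linarith⟩
  choose y2 hy2 using a4
  choose x' hx' using a5
  have lin2 := tc_gb_lin (tcR1 π bs ix L) π (tcR3 π bs ix L up) M m Y x Y1 x1 y2 x' hy2 hx'
  have H0 : ∀ n, ¬ (bs n = n ∧ Odd (minimalPeriod π n)) →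
      gb (tcR1 π bs ix L) π (tcR3 π bs ix L up) y2 x' n = 0 := fun n hn => by
    have := lin2 n
    rw [G0 n hn, a2] at this
    exact (mul_eq_zero.1 (by simpa using this)).resolve_left hM0.ne'
  have H1 : ∀ r, bs r = r → Odd (minimalPeriod π r) →
      gb (tcR1 π bs ix L) π (tcR3 π bs ix L up) y2 x' r = b r * m := fun r hr ho => by
    have := lin2 r
    rw [G1 r hr ho, a2] at this
    exact mul_left_cancel₀ hM0.ne' (by linarith)
  have rx := fun v => tc_round hm0 hm (hb v).2 (hx' v) (a3 v).2.2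
  have ry : ∀ v, ¬ Win π ix (L - 1) v → |y2 v| ≤ 1 := fun v h =>
    (tc_round hm0 hm (a := Y v) (by simp only [Y, if_neg h]; exact (hb v).1) (hy2 v) (a3 v).1.2).1
  have D : ∀ r, bs r = r → Odd (minimalPeriod π r) → ∀ i, i + 2 ≤ L →
      y2 (π^[i] r) = pre π (tcU up x') r L - pre π (tcU up x') r (i + 1) := fun r hr ho i hi =>
    tc_D C up y2 x' hr ho (hper r) (fun n hn => H0 n fun h => hn (h.1 ▸ C.ix_bs n)) (L - 2 - i) i
      (by omega)
  let y' : V → ℤ := fun v => if Win π ix (L - 1) v then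
    y2 (π^[L - 1] (bs v)) + (pre π x' (bs v) L - pre π x' (bs v) (ix v + 1)) else y2 v
  refine ⟨y', x', fun v => mul_left_cancel₀ hM0.ne' ?_, fun v => (rx v).1, fun v h => ?_,
    fun n hn => ?_, fun r hr ho => ?_⟩
  · rw [mul_neg, hx', hx', hx, a1]; ring
  · simp only [y', if_neg h]; exact ry v h
  · by_cases w : Win π ix L n
    · have a : ix n ≠ 0 := fun a => hn ⟨C.eq_bs a, w.1⟩
      have e := pre_succ π x' (bs n) (ix n)
      rw [C.pw] at e
      simp only [bd, y', if_pos (ws n w a), C.bs_symm, C.ix_symm a]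
      by_cases a1 : ix n = L - 1
      · rw [if_neg (show ¬ Win π ix (L - 1) n from fun h => by have := h.2; omega), ← a1, C.pw]
        have : ix n + 1 = L := by omega
        rw [this] at e
        linarith
      · have := w.2
        rw [if_pos (show Win π ix (L - 1) n from ⟨w.1, by omega⟩)]
        linarith
    · rw [← H0 n hn, tc_gbA C L up y2 x' w]
      simp only [bd, y', if_neg (wm n w), if_neg (tc_win_symm C (hper n) w)]
  · have k1 := H1 r hr ho
    have k2 := D r hr ho 0 (by omega)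
    rw [tc_gbC C hL up y2 x' hr ho (hper r)] at k1
    simp only [iterate_zero, id, zero_add] at k2
    have k3 : pre π x' r L + y2 (π^[L - 1] r) - y2 (π.symm r) = b r * m := by linarith
    obtain ⟨hbr, k4⟩ := hw r hr ho
    have k5 : ∀ f : V → ℤ, ∀ n, ∑ j ∈ range n, b r * f (π^[j] r) = b r * pre π f r n :=
      fun f n => by rw [pre, Finset.mul_sum]
    have H : ∀ i, 1 ≤ i → i ≤ L →
        |M * (∑ j ∈ range L, b r * tcU up x' (π^[j] r) - ∑ j ∈ range i, b r * tcU up x' (π^[j] r)) -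
          m * (∑ j ∈ range L, b r * tcU up x (π^[j] r) -
            ∑ j ∈ range i, b r * tcU up x (π^[j] r))| < M := fun i hi1 hi2 => by
      rw [k5, k5, k5, k5]
      rcases hi2.eq_or_lt with e | e
      · simpa [e] using hM0
      · obtain ⟨i, rfl⟩ : ∃ j, i = j + 1 := ⟨i - 1, by omega⟩
        have p := hper r
        have t1 := D r hr ho i e
        have t2 := hy2 (π^[i] r)
        have t3 := abs_lt.1 (a3 (π^[i] r)).1.2
        simp only [Y, if_pos ((tc_win_iter C (L := L - 1) hr ho (i := i) (by omega)).2 (by omega)),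
          C.bs_iter, hr, C.ix_iter hr (show i < _ by omega)] at t2
        rw [t1] at t2
        rw [abs_lt]
        rcases hbr with q | q <;> rw [q] <;> constructor <;> linarith [t3.1, t3.2]
    have A : ∀ j, 0 ≤ b r * tcU up x (π^[j] r) ∧
        2 * (b r * tcU up x (π^[j] r)) ≤ b r * x (π^[j] r) + 11 ∧
        b r * tcU up x (π^[j] r) ≤ 11 := fun j => by
      have t := abs_le.1 (hb (π^[j] r)).2
      simp only [tcU, up, C.bs_iter, hr]
      rcases hbr with q | q <;> rw [q] <;> split_ifs <;> omega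
    have A' : ∀ j, 0 ≤ b r * tcU up x' (π^[j] r) ∧ b r * tcU up x' (π^[j] r) ≤ 1 ∧
        (b r * x' (π^[j] r) = b r * tcU up x' (π^[j] r) -
          if b r * x' (π^[j] r) = -1 then 1 else 0) ∧
        (b r * x' (π^[j] r) = 1 → b r * tcU up x' (π^[j] r) = 1) := fun j => by
      obtain ⟨t1, t2, t3⟩ := rx (π^[j] r)
      rw [abs_le] at t1
      simp only [tcU, up, C.bs_iter, hr]
      rcases hbr with q | q <;> rw [q] <;> split_ifs <;> omega
    refine ⟨?_, ?_, fun i j k u1 u2 u3 u4 u5 u6 u7 => ?_⟩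
    · have e := pre_succ π x' r 0
      simp only [pre, range_zero, sum_empty, iterate_zero, id] at e
      simp only [bd, y', if_pos (wr r hr ho), if_neg (w0 r hr), hr, (hr ▸ C.ix_bs r : ix r = 0)]
      unfold pre at k3 ⊢
      linarith
    · refine tc_down (fun j => b r * x (π^[j] r)) (fun j => b r * x' (π^[j] r))
        (fun j => b r * tcU up x (π^[j] r)) (fun j => b r * tcU up x' (π^[j] r)) L m M (by omega)
        hm0 hm hM (fun j => ⟨(A j).1, (A j).2.1⟩) (fun j => ⟨(A' j).2.1, (A' j).2.2.1⟩)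
        (H 1 le_rfl (by omega)) ?_ ?_
      · rw [k5]
        have t1 := abs_le.1 (hb (π^[L - 1] r)).1
        have t2 := abs_le.1 (hb (π.symm r)).1
        rcases hbr with q | q <;> rw [q] at k4 ⊢ <;> linarith [t1.1, t1.2, t2.1, t2.2]
      · rw [k5]
        have t1 := abs_le.1 (ry _ (wL r hr))
        have t2 := abs_le.1 (ry _ (w0 r hr))
        rcases hbr with q | q <;> rw [q] at k3 ⊢ <;> linarith [t1.1, t1.2, t2.1, t2.2]
    · exact tc_sparse (fun j => b r * tcU up x (π^[j] r)) (fun j => b r * tcU up x' (π^[j] r)) L m M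
        hm0 hm (fun j => (A j).2.2) (fun j => (A' j).1) H i j k u1 u2 u3 u4 ((A' i).2.2.2 u5)
        ((A' j).2.2.2 u6) ((A' k).2.2.2 u7)

end Pool.Agent.P.MP_e59a69_co
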