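import Pool.Agent.P.MP_e59a69_co.TLift

/-! Cuts of an edge set of a multigraph. -/

open Finset Function

namespace Pool.Agent.P.MP_e59a69_co

variable {N E : Type} [DecidableEq N]

/-- number of edges of `A` in the cut of `X` -/
def ct (s t : E → N) (A : Finset E) (X : Finset N) : ℕ := #{e ∈ A | ¬ (s e ∈ X ↔ t e ∈ X)}

/-- number of arcs of `A` entering `X` -/
def ent (s t : E → N) (A : Finset E) (X : Finset N) : ℕ := #{e ∈ A | t e ∈ X ∧ s e ∉ X}

lemma ct_eq [Fintype N] (s t : E → N) (A : Finset E) (X : Finset N) :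
    ct s t A X = ent s t A X + ent s t A Xᶜ := by
  unfold ct ent
  simp only [card_filter]
  rw [← Finset.sum_add_distrib]
  refine Finset.sum_congr rfl fun e _ => ?_
  by_cases a : s e ∈ X <;> by_cases b : t e ∈ X <;> simp [a, b]

lemma ent_submod (s t : E → N) (A : Finset E) (X Y : Finset N) :
    ent s t A (X ∩ Y) + ent s t A (X ∪ Y) ≤ ent s t A X + ent s t A Y := by
  unfold ent
  simp only [card_filter]
  rw [← Finset.sum_add_distrib, ← Finset.sum_add_distrib]
  refine Finset.sum_le_sum fun e _ => ?_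
  by_cases a : s e ∈ X <;> by_cases b : t e ∈ X <;> by_cases c : s e ∈ Y <;>
    by_cases d : t e ∈ Y <;> simp [a, b, c, d]

lemma ct_swap {s t s' t' : E → N}
    (h : ∀ e, (s' e = s e ∧ t' e = t e) ∨ (s' e = t e ∧ t' e = s e)) (A : Finset E)
    (X : Finset N) : ct s' t' A X = ct s t A X := by
  unfold ct
  refine congrArg _ (filter_congr fun e _ => ?_)
  rcases h e with ⟨a, b⟩ | ⟨a, b⟩ <;> rw [a, b]
  exact not_congr iff_comm

end Pool.Agent.P.MP_e59a69_co
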