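import Pool.Agent.P.MP_e59a69_co.Perms

/-! Coordinates along the circuits of a 2-factor, and flows in the permutation model. -/

open Finset Function

namespace Pool.Agent.P.MP_e59a69_co

variable {V : Type} [Fintype V] [DecidableEq V]

/-- net outflow at `v`: `y u` is the value on the arc from `u` to `π u`, `x u` the value leaving
`u` along its matching edge -/
def bd (π : Equiv.Perm V) (y x : V → ℤ) (v : V) : ℤ := y v - y (π.symm v) + x v

/-- the same with re-attached ends: the arc of `u` goes from `r1 u` to `r2 u`, the matching edge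
of `u` has its end at `r3 u` -/
def gb {N : Type} [DecidableEq N] (r1 r2 r3 : V → N) (y x : V → ℤ) (n : N) : ℤ :=
  ∑ v, ((if r1 v = n then y v else 0) - (if r2 v = n then y v else 0) +
    (if r3 v = n then x v else 0))

/-- base point and index on every circuit -/
structure Co (π : Equiv.Perm V) (bs : V → V) (ix : V → ℕ) : Prop where
  pw : ∀ v, π^[ix v] (bs v) = v
  bs_pi : ∀ v, bs (π v) = bs v
  lt : ∀ v, ix v < minimalPeriod π v

/-- the window: the first `L` vertices of an odd circuit -/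
def Win (π : Equiv.Perm V) (ix : V → ℕ) (L : ℕ) (v : V) : Prop :=
  Odd (minimalPeriod π v) ∧ ix v < L

/-- every nontrivial union of circuits is left by a matching edge with an end in `T` -/
def Con (π μ : Equiv.Perm V) (T : Finset V) : Prop :=
  ∀ X : Finset V, (∀ v, π v ∈ X ↔ v ∈ X) → X.Nonempty → Xᶜ.Nonempty →
    ∃ v ∈ T, v ∈ X ∧ μ v ∉ X

/-- initial sum along a circuit -/
def pre (π : Equiv.Perm V) (f : V → ℤ) (x : V) (i : ℕ) : ℤ := ∑ j ∈ range i, f (π^[j] x)

lemma gb_id (π : Equiv.Perm V) (y x : V → ℤ) (v : V) : gb id π id y x v = bd π y x v := by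
  unfold gb bd
  rw [Finset.sum_add_distrib, Finset.sum_sub_distrib]
  have : ∀ u, π u = v ↔ u = π.symm v := fun u => by rw [Equiv.eq_symm_apply]
  simp [this]

omit [DecidableEq V] in
lemma per_pos (π : Equiv.Perm V) (v : V) : 0 < minimalPeriod π v :=
  minimalPeriod_pos_of_mem_periodicPts (π.injective.mem_periodicPts v)

omit [DecidableEq V] in
lemma per_iter (π : Equiv.Perm V) (v : V) (i : ℕ) :
    minimalPeriod π (π^[i] v) = minimalPeriod π v :=
  minimalPeriod_apply_iterate (π.injective.mem_periodicPts v) i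

omit [DecidableEq V] in
lemma per_pi (π : Equiv.Perm V) (v : V) : minimalPeriod π (π v) = minimalPeriod π v :=
  per_iter π v 1

omit [Fintype V] [DecidableEq V] in
lemma symm_iter (π : Equiv.Perm V) (v : V) (i : ℕ) : π.symm (π^[i + 1] v) = π^[i] v := by
  rw [iterate_succ_apply']; simp

omit [Fintype V] [DecidableEq V] in
lemma pre_succ (π : Equiv.Perm V) (f : V → ℤ) (x : V) (i : ℕ) :
    pre π f x (i + 1) = pre π f x i + f (π^[i] x) := Finset.sum_range_succ _ _

variable {π : Equiv.Perm V} {bs : V → V} {ix : V → ℕ}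

omit [Fintype V] [DecidableEq V] in
lemma Co.bs_iter (C : Co π bs ix) (v : V) (i : ℕ) : bs (π^[i] v) = bs v := by
  induction i with
  | zero => rfl
  | succ i ih => rw [iterate_succ_apply', C.bs_pi, ih]

omit [Fintype V] [DecidableEq V] in
lemma Co.bs_bs (C : Co π bs ix) (v : V) : bs (bs v) = bs v := by
  conv_rhs => rw [← C.pw v, C.bs_iter]

omit [DecidableEq V] in
lemma Co.per_bs (C : Co π bs ix) (v : V) : minimalPeriod π (bs v) = minimalPeriod π v := by
  conv_rhs => rw [← C.pw v, per_iter]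

omit [DecidableEq V] in
lemma Co.ix_iter (C : Co π bs ix) {x : V} (hx : bs x = x) {i : ℕ} (hi : i < minimalPeriod π x) :
    ix (π^[i] x) = i := by
  have h1 := C.pw (π^[i] x)
  rw [C.bs_iter, hx] at h1
  have h2 := C.lt (π^[i] x)
  rw [per_iter] at h2
  exact iterate_injOn_Iio_minimalPeriod h2 hi h1

omit [DecidableEq V] in
lemma Co.ix_bs (C : Co π bs ix) (v : V) : ix (bs v) = 0 :=
  C.ix_iter (C.bs_bs v) (i := 0) (per_pos π _)

omit [Fintype V] [DecidableEq V] in
lemma Co.eq_bs (C : Co π bs ix) {v : V} (h : ix v = 0) : bs v = v := by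
  have := C.pw v
  rwa [h] at this

omit [Fintype V] [DecidableEq V] in
lemma Co.ext (C : Co π bs ix) {u v : V} (h1 : bs u = bs v) (h2 : ix u = ix v) : u = v := by
  rw [← C.pw u, ← C.pw v, h1, h2]

omit [Fintype V] [DecidableEq V] in
lemma Co.bs_symm (C : Co π bs ix) (v : V) : bs (π.symm v) = bs v := by
  rw [← C.bs_pi (π.symm v)]; simp

omit [DecidableEq V] in
lemma Co.ix_symm (C : Co π bs ix) {v : V} (h : ix v ≠ 0) : ix (π.symm v) + 1 = ix v := by
  obtain ⟨i, hi⟩ := Nat.exists_eq_succ_of_ne_zero h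
  have h1 := C.pw v
  have h2 := C.lt v
  rw [hi] at h1 h2
  rw [← C.per_bs] at h2
  rw [hi, ← h1, symm_iter, C.ix_iter (C.bs_bs v) (by omega)]

omit [DecidableEq V] in
lemma symm_eq_iter (π : Equiv.Perm V) (x : V) : π.symm x = π^[minimalPeriod π x - 1] x := by
  have h := per_pos π x
  rw [← symm_iter π x, Nat.sub_add_cancel h, iterate_minimalPeriod]

omit [DecidableEq V] in
lemma Co.ix_symm_zero (C : Co π bs ix) {v : V} (h : ix v = 0) :
    ix (π.symm v) + 1 = minimalPeriod π v := by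
  have h1 := per_pos π v
  rw [symm_eq_iter, C.ix_iter (C.eq_bs h) (by omega)]
  omega

/-- sums over a circuit -/
lemma Co.sum_cycle (C : Co π bs ix) {x : V} (hx : bs x = x) (f : V → ℤ) (n : ℕ)
    (hn : n ≤ minimalPeriod π x) :
    ∑ v with bs v = x ∧ ix v < n, f v = pre π f x n := by
  unfold pre
  symm
  refine Finset.sum_bij (fun j _ => π^[j] x) (fun j hj => ?_) (fun i hi j hj e => ?_)
    (fun v hv => ?_) fun _ _ => rfl
  · have := mem_range.1 hj
    exact mem_filter.2 ⟨mem_univ _, by rw [C.bs_iter, hx], by rw [C.ix_iter hx (by omega)]; exact this⟩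
  · have := mem_range.1 hi
    have := mem_range.1 hj
    exact iterate_injOn_Iio_minimalPeriod (show i < _ by omega) (show j < _ by omega) e
  · obtain ⟨-, h1, h2⟩ := mem_filter.1 hv
    exact ⟨ix v, mem_range.2 h2, by rw [← h1, C.pw]⟩

omit [DecidableEq V] in
/-- coordinates from a choice of base points -/
lemma exists_co (π : Equiv.Perm V) (bs : V → V) (h1 : ∀ v, π.SameCycle (bs v) v)
    (h2 : ∀ v, bs (π v) = bs v) : ∃ ix, Co π bs ix := by
  choose ix h3 h4 using fun v => exists_iter (h1 v)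
  exact ⟨ix, h4, h2, fun v => by rw [period_eq (h1 v)]; exact h3 v⟩

omit [DecidableEq V] in
lemma exists_co' (π : Equiv.Perm V) : ∃ bs ix, Co π bs ix := by
  let q := Equiv.Perm.SameCycle.setoid π
  refine ⟨fun v => (Quotient.mk q v).out, exists_co π _ (fun v => Quotient.mk_out (s := q) v)
    fun v => ?_⟩
  have : Quotient.mk q (π v) = Quotient.mk q v :=
    Quotient.sound (Equiv.Perm.SameCycle.symm ⟨1, by simp⟩)
  rw [this]

/-- one end of every matching edge -/
lemma exists_half (μ : Equiv.Perm V) (h1 : ∀ v, μ (μ v) = v) (h2 : ∀ v, μ v ≠ v) :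
    ∃ O : Finset V, ∀ v, μ v ∈ O ↔ v ∉ O := by
  let e := Fintype.equivFin V
  refine ⟨univ.filter fun v => e v < e (μ v), fun v => ?_⟩
  have : e (μ v) ≠ e v := fun h => h2 v (e.injective h)
  simp only [mem_filter, mem_univ, true_and, h1]
  omega

/-- the multigraph behind `gb`: edges `inl v` are the arcs, edges `inr v` with `v ∈ O` the
matching edges, the other edges are loops -/
def sE {N : Type} (r1 r3 : V → N) : V ⊕ V → N := Sum.elim r1 r3

def tE {N : Type} (μ : Equiv.Perm V) (O : Finset V) (r2 r3 : V → N) : V ⊕ V → N :=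
  Sum.elim r2 fun v => if v ∈ O then r3 (μ v) else r3 v

/-- matching part of an edge function -/
def xE (μ : Equiv.Perm V) (O : Finset V) (φ : V ⊕ V → ℤ) (v : V) : ℤ :=
  if v ∈ O then φ (Sum.inr v) else - φ (Sum.inr (μ v))

omit [Fintype V] in
lemma xE_anti {μ : Equiv.Perm V} (h1 : ∀ v, μ (μ v) = v) {O : Finset V}
    (hO : ∀ v, μ v ∈ O ↔ v ∉ O) (φ : V ⊕ V → ℤ) (v : V) : xE μ O φ (μ v) = - xE μ O φ v := by
  unfold xE
  by_cases h : v ∈ O <;> simp [hO, h, h1]

omit [Fintype V] in
lemma xE_elim {μ : Equiv.Perm V} (O : Finset V) (y x : V → ℤ) (hx : ∀ v, x (μ v) = - x v) :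
    xE μ O (Sum.elim y x) = x := by
  funext v
  unfold xE
  by_cases h : v ∈ O <;> simp [h, hx]

lemma bdry_gb {N : Type} [DecidableEq N] {μ : Equiv.Perm V} (h1 : ∀ v, μ (μ v) = v)
    {O : Finset V} (hO : ∀ v, μ v ∈ O ↔ v ∉ O) (r1 r2 r3 : V → N) (φ : V ⊕ V → ℤ) (n : N) :
    bdry (sE r1 r3) (tE μ O r2 r3) φ n =
      gb r1 r2 r3 (fun v => φ (Sum.inl v)) (xE μ O φ) n := by
  unfold bdry gb
  rw [Fintype.sum_sum_type, Finset.sum_add_distrib]
  congr 1
  have e1 : ∀ v, (if r3 v = n then xE μ O φ v else 0) =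
      (if v ∈ O ∧ r3 v = n then φ (Sum.inr v) else 0) -
        (if μ v ∈ O ∧ r3 (μ (μ v)) = n then φ (Sum.inr (μ v)) else 0) := fun v => by
    unfold xE
    by_cases a : v ∈ O <;> by_cases b : r3 v = n <;> simp [a, b, hO, h1]
  rw [Finset.sum_congr rfl fun v _ => e1 v, Finset.sum_sub_distrib, Finset.sum_sub_distrib,
    Equiv.sum_comp μ fun v => if v ∈ O ∧ r3 (μ v) = n then φ (Sum.inr v) else 0,
    ← Finset.sum_sub_distrib, ← Finset.sum_sub_distrib]
  refine Finset.sum_congr rfl fun v _ => ?_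
  by_cases a : v ∈ O <;> by_cases b : r3 v = n <;> by_cases b' : r3 (μ v) = n <;>
    simp [sE, tE, a, b, b']

end Pool.Agent.P.MP_e59a69_co
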