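import Pool.Agent.P.MP_e59a69_co.TThird

/-! Disjoint spanning arborescences. -/

open Finset Function

namespace Pool.Agent.P.MP_e59a69_co

variable {N E : Type} [Fintype N] [Fintype E] [DecidableEq N] [DecidableEq E]

/-- The invariant of the growing arborescence. -/
structure EdmInv (s t : E → N) (A : Finset E) (r : N) (k : ℕ) (S : Finset N) (T : Finset E) :
    Prop where
  root : r ∈ S
  sub : T ⊆ A
  head : ∀ e ∈ T, t e ∈ S
  reach : ∀ X : Finset N, r ∉ X → (∃ v ∈ X, v ∈ S) → 1 ≤ ent s t T X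
  rest : ∀ X : Finset N, X.Nonempty → r ∉ X → k ≤ ent s t (A \ T) X

omit [Fintype N] [Fintype E] [DecidableEq E] in
lemma edm_mono (s t : E → N) {A B : Finset E} (h : A ⊆ B) (X : Finset N) :
    ent s t A X ≤ ent s t B X :=
  card_le_card (filter_subset_filter _ h)

omit [Fintype N] [Fintype E] in
lemma edm_erase (s t : E → N) (A T : Finset E) (e : E) (X : Finset N) :
    ent s t (A \ T) X ≤ ent s t (A \ insert e T) X + if t e ∈ X ∧ s e ∉ X then 1 else 0 := by
  unfold ent
  by_cases he : t e ∈ X ∧ s e ∉ X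
  · rw [if_pos he]
    refine le_trans (card_le_card (t := insert e {f ∈ A \ insert e T | t f ∈ X ∧ s f ∉ X})
      fun f hf => ?_) (card_insert_le _ _)
    rw [mem_filter, mem_sdiff] at hf
    by_cases hfe : f = e
    · exact mem_insert.2 (Or.inl hfe)
    · refine mem_insert.2 (Or.inr (mem_filter.2 ⟨mem_sdiff.2 ⟨hf.1.1, fun h => ?_⟩, hf.2⟩))
      exact (mem_insert.1 h).elim hfe hf.1.2
  · rw [if_neg he, add_zero]
    refine card_le_card fun f hf => ?_
    rw [mem_filter, mem_sdiff] at hf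
    refine mem_filter.2 ⟨mem_sdiff.2 ⟨hf.1.1, fun h => ?_⟩, hf.2⟩
    rcases mem_insert.1 h with h | h
    · exact he (h ▸ hf.2)
    · exact hf.1.2 h

omit [Fintype E] in
lemma edm_grow {s t : E → N} {A : Finset E} {r : N} {k : ℕ}
    (h : ∀ X : Finset N, X.Nonempty → r ∉ X → k + 1 ≤ ent s t A X) {S : Finset N} {T : Finset E}
    (I : EdmInv s t A r k S T) (hS : S ≠ univ) :
    ∃ e, t e ∉ S ∧ EdmInv s t A r k (insert (t e) S) (insert e T) := by
  obtain ⟨X, hX, hmin⟩ := exists_min_image ((univ : Finset (Finset N)).filter fun X =>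
      (X = univ ∨ (X.Nonempty ∧ r ∉ X ∧ ent s t (A \ T) X = k)) ∧ ¬ X ⊆ S) card
    ⟨univ, mem_filter.2 ⟨mem_univ _, Or.inl rfl, fun h => hS (univ_subset_iff.1 h)⟩⟩
  obtain ⟨hcrit, hXS⟩ := (mem_filter.1 hX).2
  have hne : (X \ S).Nonempty := sdiff_nonempty.2 hXS
  have hk := h (X \ S) hne fun hr => (mem_sdiff.1 hr).2 I.root
  obtain ⟨e, heA, htX, htS, hsX, hsS⟩ :
      ∃ e ∈ A, t e ∈ X ∧ t e ∉ S ∧ s e ∈ X ∧ s e ∈ S := by
    by_contra hno
    have h1 : ∀ e ∈ A, t e ∈ X \ S → s e ∉ X \ S → s e ∉ X := by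
      intro e he ht hs hsX
      refine hno ⟨e, he, (mem_sdiff.1 ht).1, (mem_sdiff.1 ht).2, hsX, ?_⟩
      by_contra hsS
      exact hs (mem_sdiff.2 ⟨hsX, hsS⟩)
    rcases hcrit with rfl | ⟨-, -, hc⟩
    · have h2 : 0 < ent s t A (univ \ S) := by omega
      obtain ⟨e, he⟩ := card_pos.1 h2
      rw [mem_filter] at he
      exact h1 e he.1 he.2.1 he.2.2 (mem_univ _)
    · have h2 : ent s t A (X \ S) ≤ ent s t (A \ T) X := by
        refine card_le_card fun e he => ?_
        rw [mem_filter] at he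
        exact mem_filter.2 ⟨mem_sdiff.2 ⟨he.1, fun hT => (mem_sdiff.1 he.2.1).2 (I.head e hT)⟩,
          (mem_sdiff.1 he.2.1).1, h1 e he.1 he.2.1 he.2.2⟩
      omega
  refine ⟨e, htS, mem_insert_of_mem I.root, insert_subset heA I.sub, fun f hf => ?_,
    fun Y hr hY => ?_, fun Y hY hr => ?_⟩
  · rcases mem_insert.1 hf with rfl | hf
    · exact mem_insert_self _ _
    · exact mem_insert_of_mem (I.head f hf)
  · by_cases hm : ∃ v ∈ Y, v ∈ S
    · exact (I.reach Y hr hm).trans (edm_mono s t (subset_insert _ _) Y)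
    · obtain ⟨v, hvY, hv⟩ := hY
      rcases mem_insert.1 hv with rfl | hv
      · exact card_pos.2 ⟨e, mem_filter.2 ⟨mem_insert_self _ _, hvY, fun hs => hm ⟨_, hs, hsS⟩⟩⟩
      · exact absurd ⟨v, hvY, hv⟩ hm
  · have h1 := edm_erase s t A T e Y
    have h2 := I.rest Y hY hr
    by_cases he : t e ∈ Y ∧ s e ∉ Y
    · rw [if_pos he] at h1
      by_contra hlt
      have h3 : ent s t (A \ T) Y = k := by omega
      have htm : t e ∈ X ∩ Y := mem_inter.2 ⟨htX, he.1⟩
      have hrm : r ∉ X ∩ Y := fun h => hr (mem_inter.1 h).2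
      have h4 : ent s t (A \ T) (X ∩ Y) = k := by
        rcases hcrit with rfl | ⟨hXne, hrX, hc⟩
        · rw [univ_inter]; exact h3
        · have h5 := ent_submod s t (A \ T) X Y
          have h6 := I.rest (X ∩ Y) ⟨_, htm⟩ hrm
          have h7 := I.rest (X ∪ Y) (hY.mono subset_union_right)
            fun h => (mem_union.1 h).elim hrX hr
          omega
      have h5 := hmin (X ∩ Y) (mem_filter.2 ⟨mem_univ _, Or.inr ⟨⟨_, htm⟩, hrm, h4⟩,
        fun h => htS (h htm)⟩)
      have h6 : #(X ∩ Y) < #X := card_lt_card ⟨inter_subset_left,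
        fun h => he.2 (mem_inter.1 (h hsX)).2⟩
      omega
    · rw [if_neg he] at h1
      omega

omit [Fintype E] in
lemma edm_full {s t : E → N} {A : Finset E} {r : N} {k : ℕ}
    (h : ∀ X : Finset N, X.Nonempty → r ∉ X → k + 1 ≤ ent s t A X) (n : ℕ) :
    ∀ (S : Finset N) (T : Finset E), EdmInv s t A r k S T → Fintype.card N ≤ #S + n →
      ∃ T', EdmInv s t A r k univ T' := by
  induction n with
  | zero =>
    intro S T I hn
    have hS : S = univ := eq_univ_of_card S (le_antisymm (card_le_univ S) hn)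
    exact ⟨T, hS ▸ I⟩
  | succ n ih =>
    intro S T I hn
    by_cases hS : S = univ
    · exact ⟨T, hS ▸ I⟩
    · obtain ⟨e, he, I'⟩ := edm_grow h I hS
      refine ih _ _ I' ?_
      rw [card_insert_of_notMem he]
      omega

theorem edmonds_step (s t : E → N) (A : Finset E) (r : N) (k : ℕ)
    (h : ∀ X : Finset N, X.Nonempty → r ∉ X → k + 1 ≤ ent s t A X) :
    ∃ T ⊆ A, (∀ X : Finset N, X.Nonempty → r ∉ X → 1 ≤ ent s t T X) ∧
      ∀ X : Finset N, X.Nonempty → r ∉ X → k ≤ ent s t (A \ T) X := by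
  have I : EdmInv s t A r k {r} ∅ := by
    refine ⟨mem_singleton_self r, empty_subset _, fun e he => absurd he (notMem_empty e),
      fun X hr ⟨v, hv, hv'⟩ => absurd (mem_singleton.1 hv' ▸ hv) hr, fun X hX hr => ?_⟩
    rw [sdiff_empty]
    exact (Nat.le_succ k).trans (h X hX hr)
  obtain ⟨T, I'⟩ := edm_full h (Fintype.card N) _ _ I (Nat.le_add_left _ _)
  exact ⟨T, I'.sub, fun X ⟨v, hv⟩ hr => I'.reach X hr ⟨v, hv, mem_univ v⟩, I'.rest⟩

lemma edm_many (s t : E → N) (r : N) (n : ℕ) : ∀ A : Finset E,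
    (∀ X : Finset N, X.Nonempty → r ∉ X → n ≤ ent s t A X) →
    ∃ T : ℕ → Finset E, (∀ i, T i ⊆ A) ∧ (∀ i j, i ≠ j → Disjoint (T i) (T j)) ∧
      ∀ i < n, ∀ X : Finset N, X.Nonempty → r ∉ X → 1 ≤ ent s t (T i) X := by
  induction n with
  | zero =>
    intro A _
    exact ⟨fun _ => ∅, fun _ => empty_subset _, fun _ _ _ => disjoint_empty_left _,
      fun i hi => absurd hi (Nat.not_lt_zero i)⟩
  | succ n ih =>
    intro A h
    obtain ⟨T₀, hs, h1, h2⟩ := edmonds_step s t A r n h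
    obtain ⟨T, hT, hd, h3⟩ := ih (A \ T₀) h2
    have hd0 : ∀ i, Disjoint T₀ (T i) := fun i => disjoint_sdiff.mono_right (hT i)
    refine ⟨fun i => Nat.casesOn i T₀ T, fun i => ?_, fun i j hij => ?_, fun i hi => ?_⟩
    · cases i with
      | zero => exact hs
      | succ i => exact (hT i).trans sdiff_subset
    · cases i with
      | zero =>
        cases j with
        | zero => exact absurd rfl hij
        | succ j => exact hd0 j
      | succ i =>
        cases j with
        | zero => exact (hd0 i).symm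
        | succ j => exact hd i j fun h => hij (congrArg Nat.succ h)
    · cases i with
      | zero => exact h1
      | succ i => exact h3 i (Nat.lt_of_succ_lt_succ hi)

theorem five (s t : E → N) (A : Finset E)
    (h : ∀ X : Finset N, X.Nonempty → Xᶜ.Nonempty → 15 ≤ ct s t A X) :
    ∃ T : ℕ → Finset E, (∀ i, T i ⊆ A) ∧ (∀ i j, i ≠ j → Disjoint (T i) (T j)) ∧
      ∀ i < 5, ∀ X : Finset N, X.Nonempty → Xᶜ.Nonempty → 1 ≤ ct s t (T i) X := by
  rcases isEmpty_or_nonempty N with hN | ⟨⟨r⟩⟩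
  · exact ⟨fun _ => ∅, fun _ => empty_subset _, fun _ _ _ => disjoint_empty_left _,
      fun _ _ X ⟨v, _⟩ => hN.elim v⟩
  obtain ⟨s', t', hsw, h3⟩ := third s t A fun X hX hX' => le_trans (by norm_num) (h X hX hX')
  obtain ⟨T, hT, hd, h1⟩ := edm_many s' t' r 5 A fun X hX hr => by
    have h4 := h X hX ⟨r, mem_compl.2 hr⟩
    have h5 := h3 X
    omega
  refine ⟨T, hT, hd, fun i hi X hX hX' => ?_⟩
  rw [← ct_swap hsw, ct_eq]
  by_cases hr : r ∈ X
  · have h4 := h1 i hi Xᶜ hX' fun h => mem_compl.1 h hr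
    omega
  · have h4 := h1 i hi X hX hr
    omega

end Pool.Agent.P.MP_e59a69_co
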