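import Pool.Agent.P.MP_e59a69_co.TDefs
import Pool.Agent.P.MP_da739a_co.Orient

/-! A finely spread flow whose sources and sinks are the windows. -/

open Finset Function

namespace Pool.Agent.P.MP_e59a69_co

/-- weighted cut -/
def tf_cw {N E : Type} [Fintype E] [DecidableEq N] (s t : E → N) (w : E → ℕ) (A : Finset N) : ℤ :=
  ∑ e, if (s e ∈ A ↔ t e ∈ A) then 0 else (w e : ℤ)

lemma tf_count (n : ℕ) (hn : n ≤ 11) :
    ∑ j : Fin 11, (if (j : ℕ) < n then (1 : ℤ) else 0) = n := by
  interval_cases n <;> decide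

lemma tf_multi {N E : Type} [Fintype N] [Fintype E] [DecidableEq N] [DecidableEq E] (k : ℕ)
    (s t : E → N) (w : E → ℕ) (hw : ∀ e, w e ≤ 11)
    (hc : ∀ A : Finset N, Odd (tf_cw s t w A) → 4 * k + 3 ≤ tf_cw s t w A) :
    ∃ Z : E → ℤ, (∀ e, |Z e| ≤ 11 ∧ Even (Z e - w e)) ∧
      ∀ n, ((2 * k + 1 : ℕ) : ℤ) ∣ bdry s t Z n := by
  let S : E × Fin 11 → N := fun p => s p.1
  let T : E × Fin 11 → N := fun p => if (p.2 : ℕ) < w p.1 then t p.1 else s p.1
  have h1 : ∀ A, MP_da739a_co.cz S T A = tf_cw s t w A := by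
    intro A
    unfold MP_da739a_co.cz tf_cw
    rw [Fintype.sum_prod_type]
    refine Finset.sum_congr rfl fun e _ => ?_
    by_cases a : (s e ∈ A ↔ t e ∈ A)
    · rw [if_pos a]
      refine Finset.sum_eq_zero fun j _ => ?_
      by_cases b : (j : ℕ) < w e
      · simp only [S, T, b, if_true, a]
      · simp only [S, T, b, if_false, if_true]
    · rw [if_neg a, ← tf_count _ (hw e)]
      refine Finset.sum_congr rfl fun j _ => ?_
      by_cases b : (j : ℕ) < w e
      · simp only [S, T, b, if_true, a, if_false]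
      · simp only [S, T, b, if_false, if_true]
  obtain ⟨z, hz, hd⟩ := MP_da739a_co.orient k _ S T rfl (fun A => by rw [h1]; exact hc A)
  refine ⟨fun e => ∑ j : Fin 11, if (j : ℕ) < w e then z (e, j) else 0, fun e => ⟨?_, ?_⟩,
    fun n => ?_⟩
  · refine (Finset.abs_sum_le_sum_abs _ _).trans ?_
    refine (Finset.sum_le_sum (g := fun _ => (1 : ℤ)) fun j _ => ?_).trans (by simp)
    rcases hz (e, j) with h | h <;> split_ifs <;> simp [h]
  · rw [← tf_count _ (hw e), ← Finset.sum_sub_distrib]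
    refine Finset.even_sum _ fun j _ => ?_
    rcases hz (e, j) with h | h <;> split_ifs <;> simp [h]
  · have h2 : MP_da739a_co.bdry S T z n =
        bdry s t (fun e => ∑ j : Fin 11, if (j : ℕ) < w e then z (e, j) else 0) n := by
      unfold MP_da739a_co.bdry bdry
      rw [Fintype.sum_prod_type]
      refine Finset.sum_congr rfl fun e _ => ?_
      have h3 : ∀ j : Fin 11, ((if S (e, j) = n then z (e, j) else 0) -
          (if T (e, j) = n then z (e, j) else 0)) =
          ((if s e = n then (1 : ℤ) else 0) - (if t e = n then 1 else 0)) *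
            (if (j : ℕ) < w e then z (e, j) else 0) := by
        intro j
        by_cases b : (j : ℕ) < w e
        · simp only [S, T, b, if_true]
          split_ifs <;> ring
        · simp only [S, T, b, if_false]
          ring
      rw [Finset.sum_congr rfl fun j _ => h3 j, ← Finset.mul_sum]
      split_ifs <;> ring
    rw [← h2]
    exact hd n

lemma tf_cw_par {N E : Type} [Fintype E] [DecidableEq N] (s t : E → N) (w : E → ℕ)
    (A : Finset N) : Even (∑ n ∈ A, bdry s t (fun e => (w e : ℤ)) n - tf_cw s t w A) := by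
  rw [sum_bdry]
  unfold tf_cw
  rw [← Finset.sum_sub_distrib]
  refine Finset.even_sum _ fun e _ => ?_
  by_cases a : s e ∈ A <;> by_cases b : t e ∈ A <;> simp [a, b]
  exact ⟨-(w e : ℤ), by ring⟩

lemma tf_cw_compl {N E : Type} [Fintype N] [Fintype E] [DecidableEq N] (s t : E → N) (w : E → ℕ)
    (A : Finset N) : tf_cw s t w Aᶜ = tf_cw s t w A := by
  unfold tf_cw
  refine Finset.sum_congr rfl fun e _ => ?_
  by_cases a : s e ∈ A <;> by_cases b : t e ∈ A <;> simp [a, b]

variable {V : Type} [Fintype V] [DecidableEq V] {π μ : Equiv.Perm V} {c : ℕ} {bs : V → V}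
  {ix : V → ℕ}

lemma tf_gb (π : Equiv.Perm V) (kap : V → V) (y x : V → ℤ) (n : V) :
    gb kap (fun v => kap (π v)) kap y x n = ∑ v with kap v = n, bd π y x v := by
  unfold gb bd
  rw [Finset.sum_filter, Finset.sum_add_distrib, Finset.sum_sub_distrib,
    ← Equiv.sum_comp π.symm fun v => if kap (π v) = n then y v else 0,
    ← Finset.sum_sub_distrib, ← Finset.sum_add_distrib]
  refine Finset.sum_congr rfl fun v _ => ?_
  rw [Equiv.apply_symm_apply]
  split_ifs <;> ring

omit [DecidableEq V] in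
lemma tf_bd_par (C : Co π bs ix) (y x : V → ℤ) (hy : ∀ v, Even (y v - ix v))
    (hx : ∀ v, Odd (x v)) (v : V) :
    Odd (bd π y x v) ↔ ix v = 0 ∧ Odd (minimalPeriod π v) := by
  unfold bd
  obtain ⟨a, ha⟩ := hy v
  obtain ⟨b, hb⟩ := hy (π.symm v)
  obtain ⟨d, hd⟩ := hx v
  rw [Int.odd_iff, Nat.odd_iff]
  by_cases h : ix v = 0
  · have := C.ix_symm_zero h
    omega
  · have := C.ix_symm h
    omega

lemma tf_cw_ge (h1 : ∀ v, μ (μ v) = v) {O : Finset V} (hO : ∀ v, μ v ∈ O ↔ v ∉ O)
    (kap : V → V) (w : V ⊕ V → ℕ) (hw : ∀ e, 10 ≤ w e) (A : Finset V) :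
    10 * ((fc π (univ.filter fun v => kap v ∈ A) : ℤ) + mc μ (univ.filter fun v => kap v ∈ A)) ≤
      tf_cw (sE kap kap) (tE μ O (fun v => kap (π v)) kap) w A := by
  unfold tf_cw fc mc
  rw [Fintype.sum_sum_type, mul_add]
  refine add_le_add ?_ ?_
  · rw [card_filter]
    push_cast
    rw [Finset.mul_sum]
    refine Finset.sum_le_sum fun v _ => ?_
    have := hw (Sum.inl v)
    by_cases a : kap v ∈ A <;> by_cases b : kap (π v) ∈ A <;> simp [sE, tE, a, b, this]
  · rw [filter_filter, card_filter]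
    push_cast
    have e1 : ∀ v, (if kap v ∈ A ∧ μ v ∉ univ.filter (fun v => kap v ∈ A) then (1 : ℤ) else 0) =
        (if v ∈ O ∧ kap v ∈ A ∧ kap (μ v) ∉ A then 1 else 0) +
          (if μ v ∈ O ∧ kap (μ (μ v)) ∈ A ∧ kap (μ v) ∉ A then 1 else 0) := fun v => by
      by_cases a : v ∈ O <;> by_cases b : kap v ∈ A <;> by_cases b' : kap (μ v) ∈ A <;>
        simp [a, b, b', hO, h1]
    rw [Finset.sum_congr rfl fun v _ => e1 v, Finset.sum_add_distrib,
      Equiv.sum_comp μ fun v => if v ∈ O ∧ kap (μ v) ∈ A ∧ kap v ∉ A then (1 : ℤ) else 0,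
      ← Finset.sum_add_distrib, Finset.mul_sum]
    refine Finset.sum_le_sum fun v _ => ?_
    have := hw (Sum.inr v)
    by_cases a : v ∈ O <;> by_cases b : kap v ∈ A <;> by_cases b' : kap (μ v) ∈ A <;>
      simp [sE, tE, a, b, b', this]

omit [Fintype V] [DecidableEq V] in
lemma tf_tele (π : Equiv.Perm V) (y x : V → ℤ) (r : V) (i : ℕ) :
    pre π (bd π y x) r (i + 1) = pre π x r (i + 1) + y (π^[i] r) - y (π.symm r) := by
  induction i with
  | zero => simp [pre, bd]; ring
  | succ i ih =>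
    rw [pre_succ, ih, pre_succ π x r (i + 1)]
    unfold bd
    rw [symm_iter]
    ring

omit [Fintype V] [DecidableEq V] in
lemma tf_pre_le (π : Equiv.Perm V) (x : V → ℤ) (hx : ∀ v, |x v| ≤ 11) (r : V) (i : ℕ) :
    |pre π x r i| ≤ 11 * i := by
  induction i with
  | zero => simp [pre]
  | succ i ih =>
    rw [pre_succ]
    have := abs_add_le (pre π x r i) (x (π^[i] r))
    have := hx (π^[i] r)
    push_cast
    omega

omit [Fintype V] in
lemma tf_xE (O : Finset V) (Z : V ⊕ V → ℤ) (h : ∀ v, Odd (Z (Sum.inr v))) (v : V) :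
    Odd (xE μ O Z v) := by
  unfold xE
  split_ifs
  · exact h v
  · exact (h _).neg

theorem exists_fine (H : Hyp π μ c) (C : Co π bs ix) (L k : ℕ) (hL : 10 ≤ L) (hc : L + 2 ≤ c)
    (hper : ∀ v, L < minimalPeriod π v) (hk : 2 * k + 2 = 5 * (L + 2)) :
    ∃ y x b : V → ℤ, (∀ v, x (μ v) = - x v) ∧ (∀ v, |y v| ≤ 11 ∧ |x v| ≤ 11) ∧
      (∀ v, ¬ Win π ix L v → bd π y x v = 0) ∧
      ∀ r, bs r = r → Odd (minimalPeriod π r) → (b r = 1 ∨ b r = -1) ∧
        pre π x r L + y (π^[L - 1] r) - y (π.symm r) = b r * (2 * k + 1) := by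
  classical
  obtain ⟨O, hO⟩ := exists_half μ H.inv H.ne
  obtain ⟨kap, hkap⟩ : ∃ kap : V → V, ∀ v, kap v = if Win π ix L v then bs v else v :=
    ⟨_, fun _ => rfl⟩
  let w : V ⊕ V → ℕ := Sum.elim (fun v => 10 + ix v % 2) fun _ => 11
  have hw1 : ∀ e, w e ≤ 11 := by
    rintro (v | v) <;> simp only [w, Sum.elim_inl, Sum.elim_inr] <;> omega
  have hw2 : ∀ e, 10 ≤ w e := by
    rintro (v | v) <;> simp only [w, Sum.elim_inl, Sum.elim_inr] <;> omega
  have hpar : ∀ Z : V ⊕ V → ℤ, (∀ e, Even (Z e - w e)) → ∀ v,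
      Odd (bd π (fun v => Z (Sum.inl v)) (xE μ O Z) v) ↔
        ix v = 0 ∧ Odd (minimalPeriod π v) := by
    intro Z hZ v
    refine tf_bd_par C _ _ (fun u => ?_) (tf_xE O Z fun u => ?_) v
    · have := hZ (Sum.inl u)
      simp only [w, Sum.elim_inl] at this
      rw [Int.even_iff] at this ⊢
      push_cast at this
      omega
    · have := hZ (Sum.inr u)
      simp only [w, Sum.elim_inr] at this
      rw [Int.even_iff] at this
      rw [Int.odd_iff]
      push_cast at this
      omega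
  have hwin : ∀ r, bs r = r → Odd (minimalPeriod π r) → ∀ u,
      kap u = r ↔ bs u = r ∧ ix u < L := by
    intro r h1 h2 u
    have h3 : ix r = 0 := by rw [← h1]; exact C.ix_bs r
    rw [hkap]
    by_cases a : Win π ix L u
    · rw [if_pos a]
      exact ⟨fun h => ⟨h, a.2⟩, fun h => h.1⟩
    · rw [if_neg a]
      constructor
      · rintro rfl
        exact ⟨h1, by omega⟩
      · rintro ⟨h4, h5⟩
        exact absurd ⟨by rw [← C.per_bs, h4]; exact h2, h5⟩ a
  have hbig : ∀ A : Finset V,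
      Odd (tf_cw (sE kap kap) (tE μ O (fun v => kap (π v)) kap) w A) →
        L ≤ #(univ.filter fun v => kap v ∈ A) := by
    intro A hA
    have h1 := tf_cw_par (sE kap kap) (tE μ O (fun v => kap (π v)) kap) w A
    have h2 : ∃ r, kap r ∈ A ∧ ix r = 0 ∧ Odd (minimalPeriod π r) := by
      by_contra hn
      have h3 : Even (∑ n ∈ A, bdry (sE kap kap) (tE μ O (fun v => kap (π v)) kap)
          (fun e => (w e : ℤ)) n) := by
        refine Finset.even_sum _ fun n hn' => ?_
        rw [bdry_gb H.inv hO, tf_gb]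
        refine Finset.even_sum _ fun v hv => ?_
        rw [← Int.not_odd_iff_even, hpar (fun e => (w e : ℤ)) (fun e => by simp)]
        intro h4
        exact hn ⟨v, by rw [(mem_filter.1 hv).2]; exact hn', h4⟩
      rw [Int.even_iff] at h1 h3
      rw [Int.odd_iff] at hA
      omega
    obtain ⟨r, h3, h4, h5⟩ := h2
    have h6 := C.eq_bs h4
    have h7 : kap r = r := (hwin r h6 h5 r).2 ⟨h6, by omega⟩
    have h8 := hper r
    rw [← card_range L]
    refine card_le_card_of_injOn (fun j => π^[j] r) (fun j hj => ?_) fun i hi j hj e => ?_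
    · have h9 : j < L := mem_range.1 (mem_coe.1 hj)
      have : kap (π^[j] r) = r :=
        (hwin r h6 h5 _).2 ⟨by rw [C.bs_iter, h6], by rw [C.ix_iter h6 (by omega)]; exact h9⟩
      refine mem_coe.2 (mem_filter.2 ⟨mem_univ _, ?_⟩)
      rw [this, ← h7]
      exact h3
    · have : i < L := mem_range.1 (mem_coe.1 hi)
      have : j < L := mem_range.1 (mem_coe.1 hj)
      exact iterate_injOn_Iio_minimalPeriod (show i < _ by omega) (show j < _ by omega) e
  obtain ⟨Z, hZ, hd⟩ := tf_multi k (sE kap kap) (tE μ O (fun v => kap (π v)) kap) w hw1 (by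
    intro A hA
    have h1 := hbig A hA
    have h2 := hbig Aᶜ (by rw [tf_cw_compl]; exact hA)
    have h3 : (univ.filter fun v => kap v ∈ Aᶜ) = (univ.filter fun v => kap v ∈ A)ᶜ := by
      ext v; simp
    rw [h3] at h2
    have h4 := tf_cw_ge (π := π) H.inv hO kap w hw2 A
    have h5 := H.cut _ (card_pos.1 (by omega : 0 < #(univ.filter fun v => kap v ∈ A)))
      (card_pos.1 (by omega))
    omega)
  have hx : ∀ v, |xE μ O Z v| ≤ 11 := by
    intro v
    unfold xE
    split_ifs
    · exact (hZ _).1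
    · rw [abs_neg]; exact (hZ _).1
  have hp := hpar Z fun e => (hZ e).2
  have hd' : ∀ n, (2 * (k : ℤ) + 1) ∣
      ∑ v with kap v = n, bd π (fun v => Z (Sum.inl v)) (xE μ O Z) v := by
    intro n
    have := hd n
    rw [bdry_gb H.inv hO, tf_gb] at this
    exact_mod_cast this
  refine ⟨fun v => Z (Sum.inl v), xE μ O Z, fun r =>
    (pre π (xE μ O Z) r L + Z (Sum.inl (π^[L - 1] r)) - Z (Sum.inl (π.symm r))) / (2 * k + 1),
    xE_anti H.inv hO Z, fun v => ⟨(hZ _).1, hx v⟩, fun v hv => ?_, fun r h1 h2 => ?_⟩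
  · have h1 : (univ.filter fun u => kap u = v) = {v} := by
      ext u
      simp only [mem_filter, mem_univ, true_and, mem_singleton]
      rw [hkap]
      by_cases a : Win π ix L u
      · rw [if_pos a]
        constructor
        · rintro rfl
          exact absurd ⟨by rw [C.per_bs]; exact a.1, by rw [C.ix_bs]; omega⟩ hv
        · rintro rfl
          exact absurd a hv
      · rw [if_neg a]
    have h2 := hd' v
    rw [h1, sum_singleton] at h2
    refine Int.eq_zero_of_abs_lt_dvd h2 ?_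
    simp only [bd]
    have a1 := abs_le.1 (hZ (Sum.inl v)).1
    have a2 := abs_le.1 (hZ (Sum.inl (π.symm v))).1
    have a3 := abs_le.1 (hx v)
    rw [abs_lt]
    omega
  · have h3 := hd' r
    have h4 := hper r
    rw [filter_congr fun u _ => hwin r h1 h2 u, C.sum_cycle h1 _ L h4.le] at h3
    have h5 : ∀ i, i < L → Odd (pre π (bd π (fun v => Z (Sum.inl v)) (xE μ O Z)) r (i + 1)) := by
      intro i
      induction i with
      | zero =>
        intro _
        have : ix r = 0 := by rw [← h1]; exact C.ix_bs r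
        simpa [pre] using (hp r).2 ⟨this, h2⟩
      | succ i ih =>
        intro hi
        rw [pre_succ]
        refine (ih (by omega)).add_even ?_
        rw [← Int.not_odd_iff_even, hp, C.ix_iter h1 (by omega)]
        omega
    have h6 := h5 (L - 1) (by omega)
    have h7 := tf_tele π (fun v => Z (Sum.inl v)) (xE μ O Z) r (L - 1)
    rw [Nat.sub_add_cancel (by omega)] at h6 h7
    rw [h7] at h3 h6
    have a1 := abs_le.1 (hZ (Sum.inl (π^[L - 1] r))).1
    have a2 := abs_le.1 (hZ (Sum.inl (π.symm r))).1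
    have a3 := abs_le.1 (tf_pre_le π _ hx r L)
    obtain ⟨q, hq⟩ := h3
    have h8 : (2 * (k : ℤ) + 1) ≠ 0 := by omega
    simp only []
    rw [hq, Int.mul_ediv_cancel_left _ h8]
    refine ⟨?_, mul_comm _ _⟩
    rw [hq] at h6
    have h9 : Odd q := (Int.odd_mul.1 h6).2
    have hk' : 2 * (k : ℤ) + 2 = 5 * (L + 2) := by exact_mod_cast hk
    have b1 : q < 3 := by
      by_contra hq3
      have : (2 * (k : ℤ) + 1) * 3 ≤ (2 * (k : ℤ) + 1) * q :=
        mul_le_mul_of_nonneg_left (by omega) (by omega)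
      omega
    have b2 : -3 < q := by
      by_contra hq3
      have : (2 * (k : ℤ) + 1) * q ≤ (2 * (k : ℤ) + 1) * (-3) :=
        mul_le_mul_of_nonneg_left (by omega) (by omega)
      omega
    rw [Int.odd_iff] at h9
    omega

end Pool.Agent.P.MP_e59a69_co
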