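import Pool.Agent.P.MP_e59a69_co.TJoin

/-! Five rounds: one of 32 places is left by all five circulations. -/

open Finset Function

namespace Pool.Agent.P.MP_e59a69_co

variable {V : Type} [Fintype V] [DecidableEq V] {π μ : Equiv.Perm V} {bs : V → V} {ix : V → ℕ}

/-- the vertex number `n` of one of the 32 places of its circuit -/
def gmQ (π : Equiv.Perm V) (bs : V → V) (ix : V → ℕ) (L : ℕ) (a : V → ℕ → ℕ) (n : ℕ) (v : V) :
    Prop :=
  Win π ix L v ∧ ∃ j < 32, ix v = a (bs v) j + n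

/-- the possible support of the circulation of round `n` -/
def gmS (π μ : Equiv.Perm V) (bs : V → V) (ix : V → ℕ) (L : ℕ) (T : ℕ → Finset V)
    (a : V → ℕ → ℕ) (n : ℕ) (v : V) : Prop :=
  v ∈ T n ∨ gmQ π bs ix L a n v ∨ gmQ π bs ix L a n (μ v)

lemma gm_mono {L : ℕ} {f : ℕ → ℕ}
    (h : ∀ j < 32, f j + 5 ≤ L ∧ (j + 1 < 32 → f j + 5 ≤ f (j + 1))) {j j' : ℕ}
    (h1 : j < j') (h2 : j' < 32) : f j + 5 ≤ f j' := by
  induction j', h1 using Nat.le_induction with
  | base => exact (h j (by omega)).2 h2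
  | succ k hk ih =>
    have := ih (by omega)
    have := (h k (by omega)).2 h2
    omega

lemma gm_count {S : ℕ → Prop} [DecidablePred S] {p : ℕ → ℕ} {M L k t : ℕ}
    (hp : ∀ j j', j < j' → j' < M → p j < p j') (hS : ∀ i < L, S i ↔ ∃ j < M, i = p j)
    (hk : k ≤ M) (ht : t ≤ L) (h : ∀ j < M, p j < t ↔ j < k) :
    #{i ∈ range t | S i} = k := by
  have e : ({i ∈ range t | S i} : Finset ℕ) = (range k).image p := by
    ext i
    simp only [mem_filter, mem_range, mem_image]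
    constructor
    · rintro ⟨h1, h2⟩
      obtain ⟨j, hj, rfl⟩ := (hS i (by omega)).1 h2
      exact ⟨j, (h j hj).1 h1, rfl⟩
    · rintro ⟨j, hj, rfl⟩
      have h1 := (h j (by omega)).2 hj
      exact ⟨h1, (hS _ (by omega)).2 ⟨j, by omega, rfl⟩⟩
  rw [e, card_image_of_injOn, card_range]
  intro i hi j hj e'
  have hi' : i < k := by simpa using hi
  have hj' : j < k := by simpa using hj
  rcases lt_trichotomy i j with c | c | c
  · have := hp i j c (by omega); omega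
  · exact c
  · have := hp j i c (by omega); omega

omit [Fintype V] [DecidableEq V] in
lemma gm_pre_const (f : V → ℤ) (r : V) {s t : ℕ} (hst : s ≤ t)
    (h : ∀ i, s ≤ i → i < t → f (π^[i] r) = 0) : pre π f r t = pre π f r s := by
  induction t, hst using Nat.le_induction with
  | base => rfl
  | succ k hk ih => rw [pre_succ, ih fun i a b => h i a (by omega), h k hk (by omega), add_zero]

omit [Fintype V] [DecidableEq V] in
lemma gm_pre_add (f g : V → ℤ) (r : V) (i : ℕ) :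
    pre π (fun v => f v + g v) r i = pre π f r i + pre π g r i := Finset.sum_add_distrib

omit [DecidableEq V] in
lemma gm_win (C : Co π bs ix) {L : ℕ} (hper : ∀ v, L < minimalPeriod π v) {r : V}
    (hr : bs r = r) (ho : Odd (minimalPeriod π r)) {i : ℕ} (hi : i < L) :
    Win π ix L (π^[i] r) ∧ ix (π^[i] r) = i ∧ bs (π^[i] r) = r := by
  have h := C.ix_iter hr (i := i) (hi.trans (hper r))
  exact ⟨⟨by rw [per_iter]; exact ho, by rw [h]; exact hi⟩, h, by rw [C.bs_iter, hr]⟩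

/-- one round -/
lemma gm_round (C : Co π bs ix) (h1 : ∀ v, μ (μ v) = v) (h2 : ∀ v, μ v ≠ v) (L : ℕ)
    (hper : ∀ v, L < minimalPeriod π v) (hind : ∀ v, Win π ix L v → ¬ Win π ix L (μ v))
    (T : ℕ → Finset V) (hT : ∀ i v, μ v ∈ T i ↔ v ∈ T i) (n : ℕ) (hn : n < 5)
    (hcon : Con π μ (T n)) (hTW : ∀ i v, Win π ix L v → v ∉ T i) (a : V → ℕ → ℕ) (b : V → ℤ)
    (ha : ∀ r, bs r = r → Odd (minimalPeriod π r) → (b r = 1 ∨ b r = -1) ∧
      ∀ j < 32, a r j + 5 ≤ L ∧ (j + 1 < 32 → a r j + 5 ≤ a r (j + 1)))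
    (m : ℕ) (win : V → ℕ → ℕ)
    (hw : ∀ r, bs r = r → Odd (minimalPeriod π r) → (∀ j < 2 * m, win r j < 32) ∧
      ∀ j j', j < j' → j' < 2 * m → win r j < win r j') :
    ∃ (σ : V → ℤ) (sel : V → ℕ → ℕ), (∀ v, σ (μ v) = - σ v) ∧ (∀ v, |σ v| ≤ 1) ∧
      (∀ v, σ v ≠ 0 → gmS π μ bs ix L T a n v) ∧
      ∀ r, bs r = r → pre π σ r (minimalPeriod π r) = 0 ∧
        (∀ i ≤ minimalPeriod π r, |pre π σ r i| ≤ 1) ∧
        (Odd (minimalPeriod π r) → ∀ j < m, (sel r j = 2 * j ∨ sel r j = 2 * j + 1) ∧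
          σ (π^[a r (win r (sel r j)) + n] r) = b r) := by
  classical
  let P : Finset V := univ.filter fun v =>
    Odd (minimalPeriod π v) ∧ ∃ j < 2 * m, ix v = a (bs v) (win (bs v) j) + n
  have hPQ : ∀ v ∈ P, gmQ π bs ix L a n v := fun v hv => by
    obtain ⟨-, ho, j, hj, e⟩ := mem_filter.1 hv
    have ho' : Odd (minimalPeriod π (bs v)) := by rw [C.per_bs]; exact ho
    have h3 := (hw _ (C.bs_bs v) ho').1 j hj
    have h4 := ((ha _ (C.bs_bs v) ho').2 _ h3).1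
    exact ⟨⟨ho, by omega⟩, _, h3, e⟩
  obtain ⟨Z, z1, z2, z3, z4⟩ := exists_even C h1 h2 (T n) P (hT n) hcon
    fun v hv => hTW n v (hPQ v hv).1
  obtain ⟨σ, s1, s2, s3, s4⟩ := exists_alt C h1 h2 Z z1 z4
  refine ⟨σ, fun r j => if σ (π^[a r (win r (2 * j)) + n] r) = b r then 2 * j else 2 * j + 1,
    s1, s2, fun v hv => ?_, fun r hr => ⟨(s4 r hr).1, fun i hi => ((s4 r hr).2 i hi).1,
      fun ho j hj => ?_⟩⟩
  · rcases z3 v ((s3 v).1 hv) with h | h | h
    · exact Or.inr (Or.inl (hPQ v h))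
    · exact Or.inr (Or.inr (hPQ _ h))
    · exact Or.inl h
  · obtain ⟨w1, w2⟩ := hw r hr ho
    obtain ⟨hb, ha'⟩ := ha r hr ho
    set p : ℕ → ℕ := fun j => a r (win r j) + n with hpd
    have hp : ∀ j j', j < j' → j' < 2 * m → p j < p j' := fun j j' c c' => by
      have := gm_mono ha' (w2 j j' c c') (w1 j' c')
      simp only [hpd]; omega
    have hpL : ∀ j < 2 * m, p j < L := fun j c => by
      have := (ha' _ (w1 j c)).1
      simp only [hpd]; omega
    have hS : ∀ i < L, π^[i] r ∈ Z ↔ ∃ j < 2 * m, i = p j := fun i hi => by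
      obtain ⟨g1, g2, g3⟩ := gm_win C hper hr ho hi
      constructor
      · intro hz
        rcases z3 _ hz with h | h | h
        · obtain ⟨-, -, j, hj, e⟩ := mem_filter.1 h
          rw [g2, g3] at e
          exact ⟨j, hj, e⟩
        · exact absurd (hPQ _ h).1 (hind _ g1)
        · exact absurd h (hTW n _ g1)
      · rintro ⟨j, hj, e⟩
        exact z2 (mem_filter.2 ⟨mem_univ _, g1.1, j, hj, by rw [g2, g3]; exact e⟩)
    have hL := hper r
    have l0 := hpL (2 * j) (by omega)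
    have l1 := hpL (2 * j + 1) (by omega)
    have l2 := hp (2 * j) (2 * j + 1) (by omega) (by omega)
    have c0 : #{i ∈ range (p (2 * j)) | π^[i] r ∈ Z} = 2 * j :=
      gm_count hp hS (by omega) l0.le fun i hi => by
        rcases lt_trichotomy i (2 * j) with c | c | c
        · have := hp i (2 * j) c (by omega); omega
        · subst c; omega
        · have := hp (2 * j) i c hi; omega
    have c1 : #{i ∈ range (p (2 * j + 1) + 1) | π^[i] r ∈ Z} = 2 * j + 2 :=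
      gm_count hp hS (by omega) l1 fun i hi => by
        rcases lt_trichotomy i (2 * j + 1) with c | c | c
        · have := hp i (2 * j + 1) c (by omega); omega
        · subst c; omega
        · have := hp (2 * j + 1) i c hi; omega
    have e0 := ((s4 r hr).2 (p (2 * j)) (by omega)).2 (by rw [c0]; exact ⟨j, by omega⟩)
    have e1 := ((s4 r hr).2 (p (2 * j + 1) + 1) (by omega)).2 (by rw [c1]; exact ⟨j + 1, by omega⟩)
    have e2 : pre π σ r (p (2 * j + 1)) = pre π σ r (p (2 * j) + 1) :=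
      gm_pre_const σ r l2 fun i c c' => by
        by_contra hne
        obtain ⟨k, hk, e⟩ := (hS i (by omega)).1 ((s3 _).1 hne)
        rcases lt_trichotomy k (2 * j) with d | d | d
        · have := hp k (2 * j) d (by omega); omega
        · subst d; omega
        · rcases (show 2 * j + 1 ≤ k from d).eq_or_lt with d' | d'
          · subst d'; omega
          · have := hp (2 * j + 1) k d' hk; omega
    rw [pre_succ, e2, pre_succ, e0] at e1
    have n0 : σ (π^[p (2 * j)] r) ≠ 0 := (s3 _).2 ((hS _ l0).2 ⟨_, by omega, rfl⟩)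
    have n1 := abs_le.1 (s2 (π^[p (2 * j)] r))
    by_cases hc : σ (π^[a r (win r (2 * j)) + n] r) = b r
    · simp only [if_pos hc]
      exact ⟨Or.inl trivial, hc⟩
    · simp only [if_neg hc]
      refine ⟨Or.inr trivial, ?_⟩
      change σ (π^[p (2 * j)] r) ≠ b r at hc
      change σ (π^[p (2 * j + 1)] r) = b r
      omega

omit [DecidableEq V] in
lemma gm_disj (C : Co π bs ix) {L : ℕ}
    (hind : ∀ v, Win π ix L v → ¬ Win π ix L (μ v))
    {T : ℕ → Finset V} (hT : ∀ i v, μ v ∈ T i ↔ v ∈ T i)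
    (hdis : ∀ i j, i ≠ j → Disjoint (T i) (T j))
    (hTW : ∀ i v, Win π ix L v → v ∉ T i) {a : V → ℕ → ℕ} {b : V → ℤ}
    (ha : ∀ r, bs r = r → Odd (minimalPeriod π r) → (b r = 1 ∨ b r = -1) ∧
      ∀ j < 32, a r j + 5 ≤ L ∧ (j + 1 < 32 → a r j + 5 ≤ a r (j + 1)))
    {i n : ℕ} (hi : i < n) (hn : n < 5) {v : V} (s1 : gmS π μ bs ix L T a i v)
    (s2 : gmS π μ bs ix L T a n v) : False := by
  have key : ∀ u, gmQ π bs ix L a i u → gmQ π bs ix L a n u → False := fun u q1 q2 => by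
    obtain ⟨w, j, hj, e⟩ := q1
    obtain ⟨-, j', hj', e'⟩ := q2
    have ha' := (ha _ (C.bs_bs u) (by rw [C.per_bs]; exact w.1)).2
    rcases lt_trichotomy j j' with c | c | c
    · have := gm_mono ha' c hj'; omega
    · subst c; omega
    · have := gm_mono ha' c hj; omega
  rcases s1 with s1 | s1 | s1 <;> rcases s2 with s2 | s2 | s2
  · exact Finset.disjoint_left.1 (hdis i n hi.ne) s1 s2
  · exact hTW i v s2.1 s1
  · exact hTW i _ s2.1 ((hT i v).2 s1)
  · exact hTW n v s1.1 s2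
  · exact key v s1 s2
  · exact hind v s1.1 s2.1
  · exact hTW n _ s1.1 ((hT n v).2 s2)
  · exact hind v s2.1 s1.1
  · exact key _ s1 s2

lemma gm_ind (C : Co π bs ix) (h1 : ∀ v, μ (μ v) = v) (h2 : ∀ v, μ v ≠ v) (L : ℕ)
    (hper : ∀ v, L < minimalPeriod π v) (hind : ∀ v, Win π ix L v → ¬ Win π ix L (μ v))
    (T : ℕ → Finset V) (hT : ∀ i v, μ v ∈ T i ↔ v ∈ T i)
    (hdis : ∀ i j, i ≠ j → Disjoint (T i) (T j)) (hcon : ∀ i < 5, Con π μ (T i))
    (hTW : ∀ i v, Win π ix L v → v ∉ T i) (a : V → ℕ → ℕ) (b : V → ℤ)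
    (ha : ∀ r, bs r = r → Odd (minimalPeriod π r) → (b r = 1 ∨ b r = -1) ∧
      ∀ j < 32, a r j + 5 ≤ L ∧ (j + 1 < 32 → a r j + 5 ≤ a r (j + 1))) (n : ℕ) (hn : n ≤ 5) :
    ∃ (τ : V → ℤ) (win : V → ℕ → ℕ), (∀ v, τ (μ v) = - τ v) ∧ (∀ v, |τ v| ≤ 1) ∧
      (∀ v, τ v ≠ 0 → ∃ i < n, gmS π μ bs ix L T a i v) ∧
      ∀ r, bs r = r → pre π τ r (minimalPeriod π r) = 0 ∧
        (∀ i ≤ minimalPeriod π r, |pre π τ r i| ≤ n) ∧
        (Odd (minimalPeriod π r) → (∀ j < 2 ^ (5 - n), win r j < 32 ∧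
          ∀ i < n, τ (π^[a r (win r j) + i] r) = b r) ∧
          ∀ j j', j < j' → j' < 2 ^ (5 - n) → win r j < win r j') := by
  induction n with
  | zero =>
    refine ⟨fun _ => 0, fun _ j => j, by simp, by simp, by simp, fun r _ =>
      ⟨by simp [pre], fun i _ => by simp [pre], fun _ => ⟨fun j hj => ⟨by simpa using hj, by simp⟩,
        fun j j' c _ => c⟩⟩⟩
  | succ n ih =>
    obtain ⟨τ, win, t1, t2, t3, t4⟩ := ih (by omega)
    have e2 : 2 ^ (5 - n) = 2 * 2 ^ (5 - (n + 1)) := by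
      rw [← pow_succ']; congr 1; omega
    rw [e2] at t4
    obtain ⟨σ, sel, s1, s2, s3, s4⟩ := gm_round C h1 h2 L hper hind T hT n (by omega)
      (hcon n (by omega)) hTW a b ha (2 ^ (5 - (n + 1))) win fun r hr ho =>
        ⟨fun j hj => (((t4 r hr).2.2 ho).1 j hj).1, ((t4 r hr).2.2 ho).2⟩
    have hd : ∀ v, τ v = 0 ∨ σ v = 0 := fun v => by
      by_contra hc
      obtain ⟨c1, c2⟩ := not_or.1 hc
      obtain ⟨i, hi, si⟩ := t3 v c1
      exact gm_disj C hind hT hdis hTW ha hi (by omega) si (s3 v c2)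
    refine ⟨fun v => τ v + σ v, fun r j => win r (sel r j), fun v => ?_, fun v => ?_,
      fun v hv => ?_, fun r hr => ⟨?_, fun i hi => ?_, fun ho => ⟨fun j hj => ?_,
        fun j j' c c' => ?_⟩⟩⟩
    · show τ (μ v) + σ (μ v) = -(τ v + σ v)
      rw [t1, s1]; ring
    · show |τ v + σ v| ≤ 1
      rcases hd v with h | h
      · rw [h, zero_add]; exact s2 v
      · rw [h, add_zero]; exact t2 v
    · by_cases h : τ v = 0
      · exact ⟨n, by omega, s3 v fun h' => hv (by show τ v + σ v = 0; rw [h, h', add_zero])⟩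
      · obtain ⟨i, hi, si⟩ := t3 v h
        exact ⟨i, by omega, si⟩
    · rw [gm_pre_add, (t4 r hr).1, (s4 r hr).1, add_zero]
    · rw [gm_pre_add]
      have a1 := abs_le.1 ((t4 r hr).2.1 i hi)
      have a2 := abs_le.1 ((s4 r hr).2.1 i hi)
      rw [abs_le]; push_cast; omega
    · obtain ⟨u1, u2⟩ := (s4 r hr).2.2 ho j hj
      obtain ⟨u3, u4⟩ := ((t4 r hr).2.2 ho).1 (sel r j) (by omega)
      have hb := (ha r hr ho).1
      refine ⟨u3, fun i hi => ?_⟩
      show τ (π^[a r (win r (sel r j)) + i] r) + σ (π^[a r (win r (sel r j)) + i] r) = b r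
      have hd' := hd (π^[a r (win r (sel r j)) + i] r)
      rcases (Nat.lt_succ_iff.1 hi).eq_or_lt with c | c
      · subst c; omega
      · have := u4 i c; omega
    · have u1 := ((s4 r hr).2.2 ho j (by omega)).1
      have u2 := ((s4 r hr).2.2 ho j' c').1
      exact ((t4 r hr).2.2 ho).2 _ _ (by omega) (by omega)

theorem game (C : Co π bs ix) (h1 : ∀ v, μ (μ v) = v) (h2 : ∀ v, μ v ≠ v) (L : ℕ)
    (hper : ∀ v, L < minimalPeriod π v) (hind : ∀ v, Win π ix L v → ¬ Win π ix L (μ v))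
    (T : ℕ → Finset V) (hT : ∀ i v, μ v ∈ T i ↔ v ∈ T i)
    (hdis : ∀ i j, i ≠ j → Disjoint (T i) (T j)) (hcon : ∀ i < 5, Con π μ (T i))
    (hTW : ∀ i v, Win π ix L v → v ∉ T i) (a : V → ℕ → ℕ) (b : V → ℤ)
    (ha : ∀ r, bs r = r → Odd (minimalPeriod π r) → (b r = 1 ∨ b r = -1) ∧
      ∀ j < 32, a r j + 5 ≤ L ∧ (j + 1 < 32 → a r j + 5 ≤ a r (j + 1))) :
    ∃ (τ : V → ℤ) (w : V → ℕ), (∀ v, τ (μ v) = - τ v) ∧ (∀ v, |τ v| ≤ 1) ∧
      ∀ r, bs r = r → pre π τ r (minimalPeriod π r) = 0 ∧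
        (∀ i ≤ minimalPeriod π r, |pre π τ r i| ≤ 5) ∧
        (Odd (minimalPeriod π r) → w r < 32 ∧ (∀ i < 5, τ (π^[a r (w r) + i] r) = b r) ∧
          ∀ i < L, τ (π^[i] r) ≠ 0 → ∃ j < 32, a r j ≤ i ∧ i < a r j + 5) := by
  obtain ⟨τ, win, t1, t2, t3, t4⟩ := gm_ind C h1 h2 L hper hind T hT hdis hcon hTW a b ha 5 le_rfl
  refine ⟨τ, fun r => win r 0, t1, t2, fun r hr => ⟨(t4 r hr).1, fun i hi => ?_, fun ho => ?_⟩⟩
  · simpa using (t4 r hr).2.1 i hi
  · obtain ⟨u1, u2⟩ := ((t4 r hr).2.2 ho).1 0 (by norm_num)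
    refine ⟨u1, u2, fun i hi hne => ?_⟩
    obtain ⟨g1, g2, g3⟩ := gm_win C hper hr ho hi
    obtain ⟨k, hk, s | s | s⟩ := t3 _ hne
    · exact absurd s (hTW k _ g1)
    · obtain ⟨-, j, hj, e⟩ := s
      rw [g2, g3] at e
      exact ⟨j, hj, by omega, by omega⟩
    · exact absurd s.1 (hind _ g1)

end Pool.Agent.P.MP_e59a69_co
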