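import Pool.Agent.P.MP_e59a69_co.TDefs

/-! A parity circulation through prescribed matching edges. -/

open Finset Function

namespace Pool.Agent.P.MP_e59a69_co

variable {V : Type} [Fintype V] [DecidableEq V] {π μ : Equiv.Perm V} {bs : V → V} {ix : V → ℕ}

omit [Fintype V] in
lemma tj_dg {N : Type} [DecidableEq N] (h1 : ∀ v, μ (μ v) = v) {O : Finset V}
    (hO : ∀ v, μ v ∈ O ↔ v ∉ O) (Z : Finset V) (hZ : ∀ v, μ v ∈ Z ↔ v ∈ Z) (nd : V → N) (n : N) :
    dg nd (fun v => nd (μ v)) (Z ∩ O) n = #{v ∈ Z | nd v = n} := by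
  unfold dg
  rw [← card_filter_add_card_filter_not (s := {v ∈ Z | nd v = n}) (fun v => v ∈ O)]
  have e1 : #{e ∈ Z ∩ O | nd e = n} = #{v ∈ {v ∈ Z | nd v = n} | v ∈ O} := by
    refine congrArg card (Finset.ext fun v => ?_)
    simp only [mem_filter, mem_inter]; tauto
  have e2 : #{e ∈ Z ∩ O | nd (μ e) = n} = #{v ∈ {v ∈ Z | nd v = n} | ¬ v ∈ O} := by
    refine card_bij (fun v _ => μ v) (fun v hv => ?_) (fun a _ b _ e => μ.injective e)
      fun v hv => ⟨μ v, ?_, h1 v⟩
    · simp only [mem_filter, mem_inter] at hv ⊢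
      exact ⟨⟨(hZ v).2 hv.1.1, hv.2⟩, fun h => (hO v).1 h hv.1.2⟩
    · simp only [mem_filter, mem_inter, h1] at hv ⊢
      exact ⟨⟨(hZ v).2 hv.1.1, (hO v).2 hv.2⟩, hv.1.2⟩
  rw [e1, e2]

lemma tj_reach (C : Co π bs ix) (h1 : ∀ v, μ (μ v) = v) {O : Finset V}
    (hO : ∀ v, μ v ∈ O ↔ v ∉ O) (T : Finset V) (hT : ∀ v, μ v ∈ T ↔ v ∈ T) (hcon : Con π μ T)
    (v0 v : V) : (spanGr bs (fun v => bs (μ v)) (T ∩ O)).Reachable (bs v) (bs v0) := by
  classical
  by_contra hn
  obtain ⟨u, hu, h3, h4⟩ := hcon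
    {u | (spanGr bs (fun v => bs (μ v)) (T ∩ O)).Reachable (bs u) (bs v0)}
    (fun u => by simp [C.bs_pi]) ⟨v0, by simp⟩ ⟨v, by simpa using hn⟩
  simp only [mem_filter, mem_univ, true_and] at h3 h4
  refine h4 (SimpleGraph.Reachable.trans ?_ h3)
  by_cases a : u ∈ O
  · exact (SimpleGraph.ConnectedComponent.exact
      (comp_eq_of_mem bs (fun v => bs (μ v)) (T ∩ O) (mem_inter.2 ⟨hu, a⟩))).symm
  · have := SimpleGraph.ConnectedComponent.exact
      (comp_eq_of_mem bs (fun v => bs (μ v)) (T ∩ O) (mem_inter.2 ⟨(hT u).2 hu, (hO u).2 a⟩))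
    simpa only [h1] using this

/-- a join that makes the number of used matching edges even on every circuit -/
lemma exists_even (C : Co π bs ix) (h1 : ∀ v, μ (μ v) = v) (h2 : ∀ v, μ v ≠ v) (T P : Finset V)
    (hT : ∀ v, μ v ∈ T ↔ v ∈ T) (hcon : Con π μ T) (hP : ∀ v ∈ P, v ∉ T) :
    ∃ Z : Finset V, (∀ v, μ v ∈ Z ↔ v ∈ Z) ∧ P ⊆ Z ∧ (∀ v ∈ Z, v ∈ P ∨ μ v ∈ P ∨ v ∈ T) ∧
      ∀ r, Even #{v ∈ Z | bs v = r} := by
  rcases isEmpty_or_nonempty V with hV | ⟨⟨v0⟩⟩
  · exact ⟨∅, fun v => hV.elim v, fun v => hV.elim v, fun v => hV.elim v, fun v => hV.elim v⟩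
  obtain ⟨O, hO⟩ := exists_half μ h1 h2
  let Z0 : Finset V := {v | v ∈ P ∨ μ v ∈ P}
  have hZ0 : ∀ v, μ v ∈ Z0 ↔ v ∈ Z0 := fun v => by simp [Z0, h1, or_comm]
  let S : Finset V := {r | Odd #{v ∈ Z0 | bs v = r}}
  have hS : Even #S := by
    have := even_card_of_invol Z0 μ fun t ht => ⟨(hZ0 t).2 ht, h2 t, h1 t⟩
    rw [card_eq_sum_card_fiberwise (f := bs) (t := univ) (fun _ _ => mem_univ _),
      even_sum_iff_even_card_odd] at this
    exact this
  have hb : ∀ r ∈ S, bs r = r := fun r hr => by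
    obtain ⟨v, hv⟩ := card_pos.1 (mem_filter.1 hr).2.pos
    rw [← (mem_filter.1 hv).2, C.bs_bs]
  choose J hJ0 hJ using fun r =>
    exists_join bs (fun v => bs (μ v)) (T ∩ O) (tj_reach C h1 hO T hT hcon v0 r)
  let H : Finset V := {e | Odd (∑ r ∈ S, J r e)}
  have hH : ∀ e ∈ H, e ∈ T ∧ e ∈ O := fun e he => by
    by_contra hn
    have := (mem_filter.1 he).2
    rw [sum_eq_zero fun r _ => hJ0 r e (fun h => hn (mem_inter.1 h))] at this
    exact absurd this (by decide)
  let Z1 : Finset V := {v | v ∈ H ∨ μ v ∈ H}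
  have hZ1 : ∀ v, μ v ∈ Z1 ↔ v ∈ Z1 := fun v => by
    simp only [Z1, mem_filter, mem_univ, true_and, h1, or_comm]
  have hT1 : ∀ v ∈ Z1, v ∈ T := fun v hv =>
    (mem_filter.1 hv).2.elim (fun h => (hH v h).1) fun h => (hT v).1 (hH _ h).1
  have eH : Z1 ∩ O = H := by
    ext v
    rw [mem_inter]
    exact ⟨fun h => (mem_filter.1 h.1).2.elim id fun h' => absurd h.2 ((hO v).1 (hH _ h').2),
      fun h => ⟨mem_filter.2 ⟨mem_univ _, Or.inl h⟩, (hH v h).2⟩⟩
  refine ⟨Z0 ∪ Z1, fun v => by rw [mem_union, mem_union, hZ0, hZ1],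
    fun v hv => mem_union_left _ (mem_filter.2 ⟨mem_univ _, Or.inl hv⟩), fun v hv => ?_, fun r => ?_⟩
  · rcases mem_union.1 hv with h | h
    · exact (mem_filter.1 h).2.elim Or.inl fun h => Or.inr (Or.inl h)
    · exact Or.inr (Or.inr (hT1 v h))
  have hd : Disjoint Z0 Z1 := disjoint_left.2 fun v h h' =>
    (mem_filter.1 h).2.elim (fun a => hP v a (hT1 v h')) fun a => hP _ a ((hT v).2 (hT1 v h'))
  rw [filter_union, card_union_of_disjoint (disjoint_filter_filter hd), ← tj_dg h1 hO Z1 hZ1 bs r, eH]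
  have hp := bdry_parity bs (fun v => bs (μ v)) H (fun e => ∑ r ∈ S, J r e) (fun e => by simp [H]) r
  rw [bdry_sum, sum_congr rfl fun r' hr' => hJ r' r, sum_sub_distrib,
    sum_congr rfl fun r' hr' => show (if bs r' = r then (1 : ℤ) else 0) = if r' = r then 1 else 0 by
      rw [hb r' hr'], sum_ite_eq', sum_const, nsmul_eq_mul] at hp
  have hS' : Even ((#S : ℤ) * if bs v0 = r then 1 else 0) := (Int.even_coe_nat _ |>.2 hS).mul_right _
  have hr : r ∈ S ↔ Odd #{v ∈ Z0 | bs v = r} := by simp [S]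
  rw [← Int.even_coe_nat, Nat.cast_add]
  rw [← Int.odd_coe_nat] at hr
  by_cases a : r ∈ S
  · have := hr.1 a
    rw [if_pos a] at hp
    rw [Int.even_iff] at hp hS' ⊢
    rw [Int.odd_iff] at this
    omega
  · have := mt hr.2 a
    rw [if_neg a] at hp
    rw [Int.even_iff] at hp hS' ⊢
    rw [Int.odd_iff] at this
    omega

omit [Fintype V] [DecidableEq V] in
lemma tj_pair (A : Finset V) (f : V → ℕ) (hinj : Set.InjOn f A) (hlt : ∀ v ∈ A, f v < #A)
    (hev : Even #A) (q : ℕ) : Even #{v ∈ A | f v / 2 = q} := by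
  have e : A.image f = range #A := by
    refine eq_of_subset_of_card_le (fun k hk => ?_) (by rw [card_image_of_injOn hinj, card_range])
    obtain ⟨v, hv, rfl⟩ := mem_image.1 hk
    exact mem_range.2 (hlt v hv)
  have e2 : #{v ∈ A | f v / 2 = q} = #{k ∈ range #A | k / 2 = q} := by
    rw [← e, filter_image, card_image_of_injOn (hinj.mono (coe_subset.2 (filter_subset _ _)))]
  obtain ⟨m, hm⟩ := hev
  rw [e2, hm]
  by_cases a : q < m
  · have : {k ∈ range (m + m) | k / 2 = q} = {2 * q, 2 * q + 1} := by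
      ext k
      simp only [mem_filter, mem_range, mem_insert, mem_singleton]
      omega
    rw [this, card_pair (by omega)]
    exact even_two
  · have : {k ∈ range (m + m) | k / 2 = q} = ∅ := by
      ext k
      simp only [mem_filter, mem_range, notMem_empty]
      exact ⟨fun h => by omega, False.elim⟩
    rw [this]
    exact Even.zero

/-- orientation in which the first and second, third and fourth, ... used vertices of every
circuit have opposite signs -/
lemma exists_alt (C : Co π bs ix) (h1 : ∀ v, μ (μ v) = v) (h2 : ∀ v, μ v ≠ v) (Z : Finset V)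
    (hZ : ∀ v, μ v ∈ Z ↔ v ∈ Z) (hev : ∀ r, Even #{v ∈ Z | bs v = r}) :
    ∃ σ : V → ℤ, (∀ v, σ (μ v) = - σ v) ∧ (∀ v, |σ v| ≤ 1) ∧ (∀ v, σ v ≠ 0 ↔ v ∈ Z) ∧
      ∀ r, bs r = r → pre π σ r (minimalPeriod π r) = 0 ∧ ∀ i ≤ minimalPeriod π r,
        |pre π σ r i| ≤ 1 ∧ (Even #{j ∈ range i | π^[j] r ∈ Z} → pre π σ r i = 0) := by
  obtain ⟨O, hO⟩ := exists_half μ h1 h2
  let B : V → ℕ → Finset V := fun r i => {u ∈ Z | bs u = r ∧ ix u < i}
  let rk : V → ℕ := fun v => #(B (bs v) (ix v))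
  have hlt : ∀ v ∈ Z, ∀ i, ix v < i → rk v < #(B (bs v) i) := fun v hv i hi =>
    card_lt_card ⟨fun u hu => by
      simp only [B, mem_filter] at hu ⊢
      exact ⟨hu.1, hu.2.1, by omega⟩, fun h => by
      have := h (mem_filter.2 ⟨hv, rfl, hi⟩)
      simp [B] at this⟩
  have hge : ∀ v i, i ≤ ix v → #(B (bs v) i) ≤ rk v := fun v i hi =>
    card_le_card fun u hu => by
      simp only [B, mem_filter] at hu ⊢
      exact ⟨hu.1, hu.2.1, by omega⟩
  have hrk : ∀ v, rk v / 2 < Fintype.card V + 1 := fun v => by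
    have : rk v ≤ Fintype.card V := card_le_univ _
    omega
  let nd : V → V × Fin (Fintype.card V + 1) := fun v => (bs v, ⟨rk v / 2, hrk v⟩)
  obtain ⟨ψ, hψ, hψ0, hb⟩ := exists_orientation nd (fun v => nd (μ v)) (Z ∩ O)
  let σ : V → ℤ := fun v => if v ∈ O then ψ v else - ψ (μ v)
  have hs : ∀ v, (v ∈ Z → σ v = 1 ∨ σ v = -1) ∧ (v ∉ Z → σ v = 0) := fun v => by
    by_cases a : v ∈ O
    · simp only [σ, if_pos a]
      exact ⟨fun h => hψ v (mem_inter.2 ⟨h, a⟩), fun h => hψ0 v fun h' => h (mem_inter.1 h').1⟩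
    · simp only [σ, if_neg a]
      refine ⟨fun h => ?_, fun h => ?_⟩
      · have := hψ _ (mem_inter.2 ⟨(hZ v).2 h, (hO v).2 a⟩)
        omega
      · rw [hψ0 _ fun h' => h ((hZ v).1 (mem_inter.1 h').1), neg_zero]
  have habs : ∀ v, |σ v| ≤ 1 := fun v => by
    by_cases a : v ∈ Z
    · rcases (hs v).1 a with h | h <;> simp [h]
    · simp [(hs v).2 a]
  have hnode : ∀ r q, ∑ v ∈ Z with bs v = r ∧ rk v / 2 = q, σ v = 0 := fun r q => by
    by_cases hq : q < Fintype.card V + 1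
    swap
    · exact sum_eq_zero fun v hv => absurd ((mem_filter.1 hv).2.2 ▸ hrk v) hq
    have en : ∀ v, nd v = (r, ⟨q, hq⟩) ↔ bs v = r ∧ rk v / 2 = q := fun v => by
      simp [nd, Fin.ext_iff]
    have h0 := (hb (r, ⟨q, hq⟩)).2 (by
      rw [tj_dg h1 hO Z hZ nd]
      simp only [en]
      rw [← filter_filter]
      refine tj_pair _ rk (fun u hu v hv e => ?_) (fun v hv => ?_) (hev r) q
      · obtain ⟨u1, u2⟩ := mem_filter.1 (mem_coe.1 hu)
        obtain ⟨v1, v2⟩ := mem_filter.1 (mem_coe.1 hv)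
        refine C.ext (u2.trans v2.symm) ?_
        rcases lt_trichotomy (ix u) (ix v) with h | h | h
        · have := hlt u u1 _ h
          rw [u2, ← v2] at this
          exact absurd e (ne_of_lt this)
        · exact h
        · have := hlt v v1 _ h
          rw [v2, ← u2] at this
          exact absurd e.symm (ne_of_lt this)
      · obtain ⟨v1, v2⟩ := mem_filter.1 hv
        refine (hlt v v1 _ (Nat.lt_succ_self _)).trans_le (card_le_card fun u hu => ?_)
        simp only [B, mem_filter] at hu ⊢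
        exact ⟨hu.1, hu.2.1.trans v2⟩)
    unfold bdry at h0
    rw [sum_sub_distrib, ← Equiv.sum_comp μ fun e => if nd (μ e) = _ then ψ e else 0,
      ← sum_sub_distrib] at h0
    rw [← h0, sum_filter, ← sum_subset (subset_univ Z) fun v _ hv => ?_]
    · refine sum_congr rfl fun v _ => ?_
      simp only [h1, en, σ]
      by_cases a : v ∈ O
      · rw [if_pos a, hψ0 (μ v) fun h => (hO v).1 (mem_inter.1 h).2 a]
        split_ifs <;> simp
      · rw [if_neg a, hψ0 v fun h => a (mem_inter.1 h).2]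
        split_ifs <;> simp
    · rw [hψ0 v fun h => hv (mem_inter.1 h).1, hψ0 (μ v) fun h => hv ((hZ v).1 (mem_inter.1 h).1)]
      simp
  refine ⟨σ, fun v => ?_, habs, fun v => ⟨fun h => by_contra fun a => h ((hs v).2 a), fun h => ?_⟩,
    fun r hr => ?_⟩
  · by_cases a : v ∈ O <;> simp [σ, a, hO, h1]
  · have := (hs v).1 h
    omega
  have hc : ∀ i ≤ minimalPeriod π r, #{j ∈ range i | π^[j] r ∈ Z} = #(B r i) := fun i hi => by
    refine card_bij (fun j _ => π^[j] r) (fun j hj => ?_) (fun a ha b hb e => ?_) fun v hv => ?_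
    · obtain ⟨a, b⟩ := mem_filter.1 hj
      have := mem_range.1 a
      exact mem_filter.2 ⟨b, by rw [C.bs_iter, hr], by rw [C.ix_iter hr (by omega)]; exact this⟩
    · have := mem_range.1 (mem_filter.1 ha).1
      have := mem_range.1 (mem_filter.1 hb).1
      exact iterate_injOn_Iio_minimalPeriod (show a < _ by omega) (show b < _ by omega) e
    · obtain ⟨a, b, c⟩ := mem_filter.1 hv
      have e : π^[ix v] r = v := by rw [← b, C.pw]
      exact ⟨ix v, mem_filter.2 ⟨mem_range.2 c, by rw [e]; exact a⟩, e⟩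
  have hz : ∀ i ≤ minimalPeriod π r, Even #{j ∈ range i | π^[j] r ∈ Z} → pre π σ r i = 0 :=
    fun i hi he => by
    rw [hc i hi] at he
    obtain ⟨q, hq⟩ := he
    have e1 : pre π σ r i = ∑ v ∈ B r i, σ v := by
      rw [← C.sum_cycle hr σ i hi]
      refine (sum_subset (fun v hv => mem_filter.2 ⟨mem_univ _, (mem_filter.1 hv).2⟩)
        fun v hv hv' => (hs v).2 fun a => hv' (mem_filter.2 ⟨a, (mem_filter.1 hv).2⟩)).symm
    have hm : ∀ v ∈ Z, bs v = r → (ix v < i ↔ rk v / 2 < q) := fun v a b => by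
      have := hlt v a i
      have := hge v i
      rw [b] at *
      omega
    rw [e1, ← sum_fiberwise_of_maps_to (g := fun v => rk v / 2) (t := range q) fun v hv => by
      obtain ⟨a, b, c⟩ := mem_filter.1 hv
      exact mem_range.2 ((hm v a b).1 c)]
    refine sum_eq_zero fun k hk => ?_
    rw [← hnode r k]
    refine sum_congr (Finset.ext fun v => ?_) fun _ _ => rfl
    have := mem_range.1 hk
    simp only [B, mem_filter]
    exact ⟨fun h => ⟨h.1.1, h.1.2.1, h.2⟩, fun h =>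
      ⟨⟨h.1, h.2.1, (hm v h.1 h.2.1).2 (by omega)⟩, h.2.2⟩⟩
  refine ⟨hz _ le_rfl ?_, fun i hi => ⟨?_, hz i hi⟩⟩
  · rw [hc _ le_rfl]
    have : B r (minimalPeriod π r) = {v ∈ Z | bs v = r} :=
      filter_congr fun v _ => ⟨fun h => h.1, fun h => ⟨h, by rw [← h, C.per_bs]; exact C.lt v⟩⟩
    rw [this]
    exact hev r
  · induction i with
    | zero => simp [pre]
    | succ i ih =>
      by_cases a : π^[i] r ∈ Z
      · by_cases b : Even #{j ∈ range i | π^[j] r ∈ Z}
        · rw [pre_succ, hz i (by omega) b, zero_add]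
          exact habs _
        · rw [hz _ hi (by
            rw [range_add_one, filter_insert, if_pos a, card_insert_of_notMem (by simp)]
            exact (Nat.not_even_iff_odd.1 b).add_one)]
          simp
      · rw [pre_succ, (hs _).2 a, add_zero]
        exact ih (by omega)

end Pool.Agent.P.MP_e59a69_co
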