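import Pool.Agent.P.MP_e59a69_co.TDefs

/-! Lifting modular flows to integer flows. -/

open Finset Function

namespace Pool.Agent.P.MP_e59a69_co

theorem lift {N E : Type} [Fintype N] [Fintype E] [DecidableEq N] (s t : E → N) (K : ℤ)
    (hK : 0 < K) (a : E → ℤ) (h : ∀ v, K ∣ bdry s t a v) :
    ∃ φ : E → ℤ, (∀ v, bdry s t φ v = 0) ∧ ∀ e, K ∣ φ e - a e ∧ |φ e| < K := by
  classical
  let a' : E → ℤ := fun e => a e % K
  have ha : ∀ e, 0 ≤ a' e ∧ a' e < K := fun e =>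
    ⟨Int.emod_nonneg _ hK.ne', Int.emod_lt_of_pos _ hK⟩
  have hd : ∀ v, K ∣ bdry s t a' v := fun v => by
    have e1 : a = fun e => a' e + K * (a e / K) := funext fun e => (Int.emod_add_mul_ediv _ _).symm
    have e2 := h v
    rw [e1, bdry_add, bdry_mul] at e2
    exact (Int.dvd_add_left (Dvd.intro _ rfl)).1 e2
  choose g hg using hd
  have hs : ∀ X : Finset N, K * ∑ v ∈ X, g v = ∑ v ∈ X, bdry s t a' v := fun X => by
    rw [Finset.mul_sum]; exact Finset.sum_congr rfl fun v _ => (hg v).symm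
  obtain ⟨y, hy, hb⟩ := hoffman' s t g (by
      have := hs univ
      rw [sum_bdry_univ] at this
      exact (mul_eq_zero.1 this).resolve_left hK.ne')
    (fun _ => 0) (fun e => if a' e = 0 then 0 else 1) (fun e => by split_ifs <;> omega)
    (fun X => by
      refine le_of_mul_le_mul_left ?_ hK
      rw [hs, sum_bdry]
      unfold capOut
      rw [Finset.mul_sum]
      refine Finset.sum_le_sum fun e _ => ?_
      have := ha e
      by_cases a0 : a' e = 0 <;> by_cases a1 : s e ∈ X <;> by_cases a2 : t e ∈ X <;>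
        simp [a0, a1, a2] <;> omega)
  refine ⟨fun e => a' e + (-K) * y e, fun v => ?_, fun e => ⟨?_, ?_⟩⟩
  · rw [bdry_add, bdry_mul, hb, hg]; ring
  · exact ⟨-(y e) - a e / K, by
      have := Int.emod_add_mul_ediv (a e) K
      simp only [a']; linarith⟩
  · have h1 := ha e
    have h2 := hy e
    rw [abs_lt]
    by_cases a0 : a' e = 0
    · have : y e = 0 := by simp only [a0, if_true] at h2; omega
      simp only [a0, this]; omega
    · simp only [a0, if_false] at h2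
      rcases (by omega : y e = 0 ∨ y e = 1) with h3 | h3 <;> simp only [h3] <;> omega

variable {V : Type} [Fintype V] [DecidableEq V]

theorem glift {N : Type} [Fintype N] [DecidableEq N] {μ : Equiv.Perm V}
    (h1 : ∀ v, μ (μ v) = v) (h2 : ∀ v, μ v ≠ v) (r1 r2 r3 : V → N) (K : ℤ) (hK : 0 < K)
    (y x : V → ℤ) (hx : ∀ v, x (μ v) = - x v) (h : ∀ n, K ∣ gb r1 r2 r3 y x n) :
    ∃ y' x' : V → ℤ, (∀ v, x' (μ v) = - x' v) ∧ (∀ n, gb r1 r2 r3 y' x' n = 0) ∧
      ∀ v, (K ∣ y' v - y v ∧ |y' v| < K) ∧ (K ∣ x' v - x v ∧ |x' v| < K) := by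
  obtain ⟨O, hO⟩ := exists_half μ h1 h2
  obtain ⟨φ, a1, a2⟩ := lift (sE r1 r3) (tE μ O r2 r3) K hK (Sum.elim y x) fun n => by
    rw [bdry_gb h1 hO, xE_elim O y x hx]; exact h n
  refine ⟨fun v => φ (Sum.inl v), xE μ O φ, xE_anti h1 hO φ, fun n => ?_, fun v =>
    ⟨a2 (Sum.inl v), ?_⟩⟩
  · rw [← bdry_gb h1 hO, a1]
  · unfold xE
    split_ifs
    · exact a2 (Sum.inr v)
    · obtain ⟨b1, b2⟩ := a2 (Sum.inr (μ v))
      rw [Sum.elim_inr, hx] at b1
      exact ⟨by rw [show -φ (Sum.inr (μ v)) - x v = -(φ (Sum.inr (μ v)) - -x v) by ring]; exact dvd_neg.2 b1, by rwa [abs_neg]⟩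

end Pool.Agent.P.MP_e59a69_co
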