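import Pool.Agent.P.MP_e59a69_co.TThird

/-! Well connected edge sets that use a small part of the edges at every vertex. -/

open Finset Function

namespace Pool.Agent.P.MP_e59a69_co

section
variable {N E : Type} [Fintype N] [Fintype E] [DecidableEq N] [DecidableEq E]

omit [Fintype N] [Fintype E] in
lemma tlow_ent_erase (s t : E → N) (B : Finset E) (e : E) (he : e ∈ B) (X : Finset N) :
    ent s t B X = ent s t (B.erase e) X + if (t e ∈ X ∧ s e ∉ X) then 1 else 0 := by
  unfold ent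
  simp only [card_filter]
  rw [← Finset.add_sum_erase B _ he, add_comm]

omit [Fintype N] [Fintype E] [DecidableEq E] in
lemma tlow_ent_mono (s t : E → N) {B A : Finset E} (h : B ⊆ A) (X : Finset N) :
    ent s t B X ≤ ent s t A X :=
  card_le_card (filter_subset_filter _ h)

omit [Fintype N] [Fintype E] [DecidableEq E] in
lemma tlow_ct_le_dg (s t : E → N) (A : Finset E) (v : N) : ct s t A {v} ≤ dg s t A v := by
  unfold ct dg
  simp only [card_filter]
  rw [← Finset.sum_add_distrib]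
  refine Finset.sum_le_sum fun e _ => ?_
  by_cases a : s e = v <;> by_cases b : t e = v <;> simp [a, b]

omit [Fintype N] [Fintype E] [DecidableEq E] in
lemma tlow_dg_eq_ct (s t : E → N) (A : Finset E) (h : ∀ e ∈ A, s e ≠ t e) (v : N) :
    dg s t A v = ct s t A {v} := by
  unfold ct dg
  simp only [card_filter]
  rw [← Finset.sum_add_distrib]
  refine Finset.sum_congr rfl fun e he => ?_
  have := h e he
  by_cases a : s e = v <;> by_cases b : t e = v
  · exact absurd (a.trans b.symm) this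
  · simp [a, b]
  · simp [a, b]
  · simp [a, b]

lemma minimal_rooted (s t : E → N) (A : Finset E) (r : N) (k : ℕ)
    (h : ∀ X : Finset N, X.Nonempty → r ∉ X → k ≤ ent s t A X) :
    ∃ B ⊆ A, (∀ X : Finset N, X.Nonempty → r ∉ X → k ≤ ent s t B X) ∧ (∀ e ∈ B, s e ≠ t e) ∧
      ∀ v, ent s t B {v} ≤ k := by
  classical
  obtain ⟨B, hB, hmin⟩ := exists_min_image
    (A.powerset.filter fun B => ∀ X : Finset N, X.Nonempty → r ∉ X → k ≤ ent s t B X)
    (fun B => #B) ⟨A, mem_filter.2 ⟨mem_powerset.2 (Subset.refl _), h⟩⟩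
  obtain ⟨hBA, hP⟩ := mem_filter.1 hB
  have hBA := mem_powerset.1 hBA
  have tight : ∀ e ∈ B, ∃ X : Finset N, r ∉ X ∧ ent s t B X ≤ k ∧ t e ∈ X ∧ s e ∉ X := by
    intro e he
    by_contra hc
    have : B.erase e ∈ A.powerset.filter
        fun B => ∀ X : Finset N, X.Nonempty → r ∉ X → k ≤ ent s t B X := by
      refine mem_filter.2 ⟨mem_powerset.2 ((erase_subset _ _).trans hBA), fun X hX hr => ?_⟩
      have e1 := tlow_ent_erase s t B e he X
      have e2 := hP X hX hr
      by_cases a : t e ∈ X ∧ s e ∉ X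
      · rw [if_pos a] at e1
        by_contra hlt
        exact hc ⟨X, hr, by omega, a.1, a.2⟩
      · rw [if_neg a] at e1
        omega
    have h1 := hmin _ this
    have h2 := card_erase_lt_of_mem he
    omega
  refine ⟨B, hBA, hP, fun e he heq => ?_, fun v => ?_⟩
  · obtain ⟨X, -, -, h1, h2⟩ := tight e he
    exact h2 (heq ▸ h1)
  · by_cases hex : ∃ X : Finset N, r ∉ X ∧ ent s t B X ≤ k ∧ v ∈ X
    · obtain ⟨X0, hX0⟩ := hex
      obtain ⟨X, hX, hXmin⟩ := exists_min_image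
        (univ.filter fun X : Finset N => r ∉ X ∧ ent s t B X ≤ k ∧ v ∈ X)
        (fun X => #X) ⟨X0, mem_filter.2 ⟨mem_univ _, hX0⟩⟩
      obtain ⟨-, hr, hk, hv⟩ := mem_filter.1 hX
      refine le_trans (card_le_card fun e he => ?_) hk
      obtain ⟨heB, h1, h2⟩ := mem_filter.1 he
      have h1 : t e = v := mem_singleton.1 h1
      obtain ⟨Y, hrY, hkY, htY, hsY⟩ := tight e heB
      have hsub := ent_submod s t B X Y
      have hU := hP (X ∪ Y) ⟨v, mem_union_left _ hv⟩ (by simp [hr, hrY])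
      have hI : X ∩ Y ∈ univ.filter fun X : Finset N => r ∉ X ∧ ent s t B X ≤ k ∧ v ∈ X :=
        mem_filter.2 ⟨mem_univ _, by simp [hr], by omega, mem_inter.2 ⟨hv, h1 ▸ htY⟩⟩
      have hcard := hXmin _ hI
      have hEq : X ∩ Y = X := eq_of_subset_of_card_le inter_subset_left hcard
      refine mem_filter.2 ⟨heB, h1 ▸ hv, fun hs => hsY ?_⟩
      rw [← hEq] at hs
      exact (mem_inter.1 hs).2
    · have : ent s t B {v} = 0 := by
        unfold ent
        rw [card_eq_zero, filter_eq_empty_iff]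
        rintro e he ⟨h1, -⟩
        obtain ⟨Y, hrY, hkY, htY, -⟩ := tight e he
        exact hex ⟨Y, hrY, hkY, (mem_singleton.1 h1) ▸ htY⟩
      omega

lemma halve (s t : E → N) (A : Finset E) (k : ℕ)
    (h : ∀ X : Finset N, X.Nonempty → Xᶜ.Nonempty → 3 * k + 7 ≤ ct s t A X) :
    ∃ B ⊆ A, (∀ X : Finset N, X.Nonempty → Xᶜ.Nonempty → k ≤ ct s t B X) ∧
      ∀ v, 3 * dg s t B v ≤ 2 * dg s t A v + 3 * k := by
  rcases isEmpty_or_nonempty N with hN | ⟨⟨r⟩⟩
  · exact ⟨A, Subset.refl _, fun X ⟨x, _⟩ _ => isEmptyElim x, fun v => isEmptyElim v⟩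
  obtain ⟨s', t', hst, h3⟩ := third s t A fun X a b => le_trans (by omega) (h X a b)
  obtain ⟨B, hBA, hB, hloop, hent⟩ := minimal_rooted s' t' A r k fun X hX hr => by
    have a := h X hX ⟨r, mem_compl.2 hr⟩
    have b := h3 X
    omega
  refine ⟨B, hBA, fun X hX hXc => ?_, fun v => ?_⟩
  · rw [← ct_swap hst, ct_eq]
    by_cases hr : r ∈ X
    · have := hB Xᶜ hXc (by simpa using hr)
      omega
    · have := hB X hX hr
      omega
  · have hloop' : ∀ e ∈ B, s e ≠ t e := fun e he heq => by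
      rcases hst e with ⟨a, b⟩ | ⟨a, b⟩
      · exact hloop e he (by rw [a, b, heq])
      · exact hloop e he (by rw [a, b, heq])
    have e1 : dg s t B v = ent s' t' B {v} + ent s' t' B {v}ᶜ := by
      rw [tlow_dg_eq_ct s t B hloop', ← ct_swap hst, ct_eq]
    have e2 : ct s t A {v} = ent s' t' A {v} + ent s' t' A {v}ᶜ := by
      rw [← ct_swap hst, ct_eq]
    have e3 := h3 {v}
    have e4 := tlow_ct_le_dg s t A v
    have e5 := hent v
    have e6 := tlow_ent_mono s' t' hBA {v}ᶜ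
    omega

end

theorem tlow_iter (k j : ℕ) : ∃ lam Cn : ℕ, ∀ (N E : Type) [Fintype N] [Fintype E]
    [DecidableEq N] [DecidableEq E] (s t : E → N) (A : Finset E),
    (∀ X : Finset N, X.Nonempty → Xᶜ.Nonempty → lam ≤ ct s t A X) →
    ∃ B ⊆ A, (∀ X : Finset N, X.Nonempty → Xᶜ.Nonempty → k ≤ ct s t B X) ∧
      ∀ v, 3 ^ j * dg s t B v ≤ 2 ^ j * dg s t A v + 3 ^ j * Cn := by
  induction j with
  | zero => exact ⟨k, 0, fun N E _ _ _ _ s t A h => ⟨A, Subset.refl _, h, fun v => by simp⟩⟩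
  | succ j ih =>
    obtain ⟨lam, Cn, ih⟩ := ih
    refine ⟨3 * lam + 7, Cn + lam, fun N E _ _ _ _ s t A h => ?_⟩
    obtain ⟨A', hA', h1, h2⟩ := halve s t A lam h
    obtain ⟨B, hB, h3, h4⟩ := ih N E s t A' h1
    refine ⟨B, hB.trans hA', h3, fun v => ?_⟩
    have a := h2 v
    have b := h4 v
    have c : 2 ^ j ≤ 3 ^ j := Nat.pow_le_pow_left (by norm_num) j
    have d : 2 ^ j * (3 * dg s t A' v) ≤ 2 ^ j * (2 * dg s t A v + 3 * lam) :=
      Nat.mul_le_mul_left _ a
    have e : 2 ^ j * lam ≤ 3 ^ j * lam := Nat.mul_le_mul_right _ c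
    rw [pow_succ, pow_succ]
    nlinarith

theorem tlow_pow (G : ℕ) : ∃ j : ℕ, 2 * G * 2 ^ j ≤ 3 ^ j := by
  have key : ∀ j : ℕ, (j + 2) * 2 ^ j ≤ 2 * 3 ^ j := by
    intro j
    induction j with
    | zero => norm_num
    | succ j ih =>
      have c : 2 ^ j ≤ 3 ^ j := Nat.pow_le_pow_left (by norm_num) j
      rw [pow_succ, pow_succ]
      nlinarith
  refine ⟨4 * G, ?_⟩
  have := key (4 * G)
  have c : 0 ≤ 2 ^ (4 * G) := Nat.zero_le _
  nlinarith

theorem lowdeg (G k : ℕ) : ∃ lam : ℕ, ∀ (N E : Type) [Fintype N] [Fintype E] [DecidableEq N]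
    [DecidableEq E] (s t : E → N) (A : Finset E),
    (∀ X : Finset N, X.Nonempty → Xᶜ.Nonempty → lam ≤ ct s t A X) →
    ∃ B ⊆ A, (∀ X : Finset N, X.Nonempty → Xᶜ.Nonempty → k ≤ ct s t B X) ∧
      ∀ v, G * dg s t B v ≤ dg s t A v := by
  obtain ⟨j, hj⟩ := tlow_pow G
  obtain ⟨lam, Cn, H⟩ := tlow_iter k j
  refine ⟨lam + 2 * G * Cn, fun N E _ _ _ _ s t A h => ?_⟩
  by_cases h2 : ∀ v : N, (({v} : Finset N)ᶜ).Nonempty
  · obtain ⟨B, hB, h3, h4⟩ := H N E s t A fun X a b => le_trans (by omega) (h X a b)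
    refine ⟨B, hB, h3, fun v => ?_⟩
    have a := h {v} (singleton_nonempty v) (h2 v)
    have b := tlow_ct_le_dg s t A v
    have c := h4 v
    have hC : 2 * G * Cn ≤ dg s t A v := by omega
    have hpos : 0 < 3 ^ j := by positivity
    have d : 2 * G * (3 ^ j * dg s t B v) ≤ 2 * G * (2 ^ j * dg s t A v + 3 ^ j * Cn) :=
      Nat.mul_le_mul_left _ c
    have e : 2 * G * 2 ^ j * dg s t A v ≤ 3 ^ j * dg s t A v := Nat.mul_le_mul_right _ hj
    have f : 3 ^ j * (2 * G * Cn) ≤ 3 ^ j * dg s t A v := Nat.mul_le_mul_left _ hC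
    have g : 3 ^ j * (2 * (G * dg s t B v)) ≤ 3 ^ j * (2 * dg s t A v) := by nlinarith
    have := Nat.le_of_mul_le_mul_left g hpos
    omega
  · push Not at h2
    obtain ⟨v, hv⟩ := h2
    have hall : ∀ w : N, w = v := fun w => by
      by_contra hw
      have : w ∈ (({v} : Finset N)ᶜ) := by simpa using hw
      rw [hv] at this
      simp at this
    refine ⟨∅, empty_subset _, fun X ⟨x, hx⟩ ⟨y, hy⟩ => ?_, fun w => by simp [dg]⟩
    rw [hall x] at hx
    rw [hall y] at hy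
    exact absurd hx (mem_compl.1 hy)

end Pool.Agent.P.MP_e59a69_co
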