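import Pool.Agent.P.MP_e59a69_co.TPerm

/-! A flow pair with ratio below one at constant cyclic edge-connectivity. -/

open Finset Function

namespace Pool.Agent.P.MP_e59a69_co

theorem tpair_main : ∃ k : ℕ, ∀ (V E : Type) [Fintype V] [Fintype E] [DecidableEq V]
    [DecidableEq E] (src tgt : E → V), (∀ v, degIn src tgt univ v = 3) →
    ∀ F : Finset E, (∀ v, degIn src tgt F v = 2) →
    (∀ X : Finset V, HasCycleIn src tgt X → HasCycleIn src tgt Xᶜ →
      k ≤ #{e | ¬ (src e ∈ X ↔ tgt e ∈ X)}) →
    ∃ φ ψ : E → ℤ, IsKFlow src tgt 2 φ ∧ IsKFlow src tgt 20000 ψ ∧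
      (∀ e, φ e = 0 → 10000 ≤ |ψ e|) ∧ ∀ e, φ e ≠ 0 ↔ e ∈ F := by
  classical
  obtain ⟨c0, hc0⟩ := perm_main
  refine ⟨c0 + 2, fun V E _ _ _ _ src tgt hcubic F hF hcut => ?_⟩
  by_cases hw : numOddComps src tgt F ≤ 1
  · obtain ⟨φ, ψ, a1, a2, a3, a4⟩ := cubic_main src tgt hcubic F hF fun X h1 h2 => by
      have := hcut X h1 h2
      omega
    refine ⟨φ, fun e => 5000 * ψ e, a1, ⟨fun e => ?_, fun v => ?_⟩, fun e he => ?_, a4⟩
    · have := a2.1 e
      rw [abs_le] at this ⊢
      beta_reduce
      omega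
    · rw [← Finset.mul_sum, ← Finset.mul_sum, a2.2 v]
    · have := a3 e he
      rw [le_abs] at this ⊢
      beta_reduce
      omega
  obtain ⟨c, hcdef⟩ : ∃ c, c = c0 + 2 := ⟨_, rfl⟩
  rw [← hcdef] at hcut
  have hF' : ∀ v, dg src tgt F v = 2 := hF
  have hM : ∀ v, dg src tgt Fᶜ v = 1 := fun v => by
    have h1 := dg_compl src tgt F v
    have h2 : dg src tgt univ v = 3 := hcubic v
    have h3 := hF' v
    omega
  obtain ⟨π, out, o1, o2, o3, o4⟩ := exists_succ src tgt F hF'
  obtain ⟨μ, mt, m1, m2, m3, m4, m5⟩ := exists_mate src tgt Fᶜ hM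
  have hf : ∀ X : Finset V, #{e ∈ F | ¬ (src e ∈ X ↔ tgt e ∈ X)} = fc π X := fun X => by
    symm
    refine card_bij (fun v _ => out v) (fun v hv => ?_) (fun u _ v _ e => o2 e) (fun e he => ?_)
    · have := (mem_filter.1 hv).2
      refine mem_filter.2 ⟨o1 v, ?_⟩
      rcases o4 v with ⟨a, b⟩ | ⟨a, b⟩ <;> rw [a, b]
      · exact this
      · exact fun e => this e.symm
    · obtain ⟨v, rfl⟩ := o3 e (mem_filter.1 he).1
      have := (mem_filter.1 he).2
      refine ⟨v, mem_filter.2 ⟨mem_univ _, ?_⟩, rfl⟩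
      rcases o4 v with ⟨a, b⟩ | ⟨a, b⟩ <;> rw [a, b] at this
      · exact this
      · exact fun e => this e.symm
  have hm : ∀ X : Finset V, #{e ∈ Fᶜ | ¬ (src e ∈ X ↔ tgt e ∈ X)} = mc μ X := fun X => by
    symm
    refine card_bij (fun v _ => mt v) (fun v hv => ?_) (fun u hu v hv e => ?_) (fun e he => ?_)
    · have := mem_filter.1 hv
      refine mem_filter.2 ⟨m3 v, ?_⟩
      rcases m5 v with ⟨a, b⟩ | ⟨a, b⟩ <;> rw [a, b]
      · exact fun e => this.2 (e.1 this.1)
      · exact fun e => this.2 (e.2 this.1)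
    · have hu' := mem_filter.1 hu
      have hv' := mem_filter.1 hv
      rcases m5 u with ⟨a, b⟩ | ⟨a, b⟩ <;> rcases m5 v with ⟨a', b'⟩ | ⟨a', b'⟩ <;>
        rw [e] at a b
      · rw [← a, a']
      · exact absurd (by rw [← b', a]; exact hu'.1) hv'.2
      · exact absurd (by rw [← b', a]; exact hu'.1) hv'.2
      · rw [← a, a']
    · obtain ⟨h1, h2⟩ := mem_filter.1 he
      obtain ⟨a, b, d⟩ := m4 e h1
      by_cases hs : src e ∈ X
      · exact ⟨src e, mem_filter.2 ⟨hs, by rw [d]; exact fun h => h2 (iff_of_true hs h)⟩, a⟩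
      · exact ⟨tgt e, mem_filter.2 ⟨by_contra fun h => h2 (iff_of_false hs h),
          by rw [← d, m1]; exact hs⟩, b⟩
  have hd : ∀ X : Finset V, #{e | ¬ (src e ∈ X ↔ tgt e ∈ X)} = fc π X + mc μ X := fun X => by
    rw [← hf, ← hm, ← card_union_of_disjoint, ← filter_union, union_compl]
    exact Finset.disjoint_left.2 fun e h1 h2 => mem_compl.1 (mem_filter.1 h2).1 (mem_filter.1 h1).1
  let G := spanGr src tgt F
  have hsc : ∀ u v, G.connectedComponentMk u = G.connectedComponentMk v ↔ π.SameCycle u v := by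
    have step : ∀ v, G.connectedComponentMk (π v) = G.connectedComponentMk v := fun v => by
      have := comp_eq_of_mem src tgt F (o1 v)
      rcases o4 v with ⟨a, b⟩ | ⟨a, b⟩ <;> rw [a, b] at this
      · exact this.symm
      · exact this
    have edge : ∀ e ∈ F, π.SameCycle (src e) (tgt e) := fun e he => by
      obtain ⟨v, rfl⟩ := o3 e he
      have q : π.SameCycle v (π v) := ⟨1, by simp⟩
      rcases o4 v with ⟨a, b⟩ | ⟨a, b⟩ <;> rw [a, b]
      · exact q
      · exact q.symm
    intro u v
    constructor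
    · intro h
      obtain ⟨p⟩ := SimpleGraph.ConnectedComponent.exact h
      clear h
      induction p with
      | nil => exact Equiv.Perm.SameCycle.refl _ _
      | cons hab p ih =>
        refine Equiv.Perm.SameCycle.trans ?_ ih
        simp only [G, spanGr, SimpleGraph.fromRel_adj] at hab
        obtain ⟨-, ⟨e0, he0, rfl, rfl⟩ | ⟨e0, he0, rfl, rfl⟩⟩ := hab
        · exact edge e0 he0
        · exact (edge e0 he0).symm
    · intro h
      obtain ⟨t, -, rfl⟩ := exists_iter h
      clear h
      induction t with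
      | zero => rfl
      | succ t ih => rw [iterate_succ_apply', step, ih]
  let O : V → Finset V := fun v => {u | G.connectedComponentMk u = G.connectedComponentMk v}
  have hO : ∀ v, #(O v) = minimalPeriod π v := fun v => by
    have : O v = (range (minimalPeriod π v)).image fun t => π^[t] v := by
      ext u
      simp only [O, mem_filter, mem_univ, true_and, mem_image, mem_range, hsc]
      constructor
      · exact fun h => exists_iter h.symm
      · rintro ⟨t, -, rfl⟩
        exact Equiv.Perm.SameCycle.symm ⟨t, by rw [zpow_natCast, Equiv.Perm.coe_pow]⟩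
    rw [this, card_image_of_injOn, card_range]
    rw [coe_range]
    exact iterate_injOn_Iio_minimalPeriod
  obtain ⟨c1, -, c2, -, hc12⟩ := (Set.one_lt_ncard (s := G.oddComponents) (Set.toFinite _)).1
    (by change 1 < numOddComps src tgt F; omega)
  have hOc : ∀ v, c ≤ #(O v) := fun v => by
    have a1 : HasCycleIn src tgt (O v) := hasCycle_of_comp src tgt F hF' _
      (G.connectedComponentMk v) fun u hu => mem_filter.2 ⟨mem_univ _, hu⟩
    obtain ⟨c', hc'⟩ : ∃ c', c' ≠ G.connectedComponentMk v := by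
      by_cases h : c1 = G.connectedComponentMk v
      · exact ⟨c2, fun e => hc12 (h.trans e.symm)⟩
      · exact ⟨c1, h⟩
    have a2 : HasCycleIn src tgt (O v)ᶜ := hasCycle_of_comp src tgt F hF' _ c' fun u hu =>
      mem_compl.2 fun h => hc' (hu.symm.trans (mem_filter.1 h).2)
    have a3 := hcut _ a1 a2
    have a4 : fc π (O v) = 0 := by
      rw [fc, card_eq_zero, filter_eq_empty_iff]
      intro u _
      have q : π.SameCycle u (π u) := ⟨1, by simp⟩
      simp only [O, mem_filter, mem_univ, true_and, not_not, (hsc _ _).2 q]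
    have a5 : mc μ (O v) ≤ #(O v) := card_filter_le _ _
    rw [hd] at a3
    omega
  have H : Hyp π μ c := by
    refine ⟨m1, m2, fun v t ht htc e => ?_, ?_, fun X h1 h2 => ?_⟩
    · have a : IsPeriodicPt π t.natAbs v := by
        rw [IsPeriodicPt, IsFixedPt, ← Equiv.Perm.coe_pow, ← zpow_natCast]
        rcases Int.natAbs_eq t with h | h
        · rw [← h, e]
        · apply (π ^ t).injective
          rw [zp_add, e, show t + (t.natAbs : ℤ) = 0 by omega]; rfl
      have b := a.minimalPeriod_le (by omega)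
      have d := hOc v
      rw [hO] at d
      rw [Int.abs_eq_natAbs] at htc
      omega
    · obtain ⟨u, rfl⟩ := c1.exists_rep
      obtain ⟨v, rfl⟩ := c2.exists_rep
      have a : #(O u ∪ O v) = #(O u) + #(O v) := card_union_of_disjoint
        (Finset.disjoint_left.2 fun x h1 h2 =>
          hc12 ((mem_filter.1 h1).2.symm.trans (mem_filter.1 h2).2))
      have b := card_le_univ (O u ∪ O v)
      have := hOc u
      have := hOc v
      omega
    · rw [← hd]
      by_cases a1 : HasCycleIn src tgt X
      · by_cases a2 : HasCycleIn src tgt Xᶜ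
        · exact Or.inl (hcut X a1 a2)
        · have := sparse src tgt hcubic Xᶜ h2 a2
          simp only [mem_compl, not_iff_not] at this
          exact Or.inr (Or.inr this)
      · exact Or.inr (Or.inl (sparse src tgt hcubic X h1 a1))
  obtain ⟨Y, Xm, s2, s3, s4⟩ := hc0 V π μ c H (by omega)
  let σ : V → ℤ := fun v => if 0 < Xm v then 1 else -1
  have s1 : ∀ v, σ v = 1 ∨ σ v = -1 := fun v => by simp only [σ]; split_ifs <;> simp
  have s2' : ∀ v, σ (μ v) = - σ v := fun v => by
    have a := (s4 v).2.1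
    rw [le_abs] at a
    simp only [σ, s2]
    split_ifs <;> omega
  have s5 : ∀ X : Finset V, 29999 * ∑ v ∈ X, σ v ≤ 9999 * (mc μ X : ℤ) + 39998 * fc π X := by
    intro X
    have q1 : ∀ f : V → ℤ, (∀ v, f (μ v) = - f v) →
        ∑ v ∈ X, f v = ∑ v ∈ X with μ v ∉ X, f v := fun f hf => by
      rw [← Finset.sum_filter_add_sum_filter_not X (fun v => μ v ∈ X),
        Finset.sum_involution (fun v _ => μ v) (fun v _ => by rw [hf]; ring)
          (fun v _ _ => m2 v)
          (fun v hv => mem_filter.2 ⟨(mem_filter.1 hv).2, by rw [m1]; exact (mem_filter.1 hv).1⟩)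
          (fun v _ => m1 v), zero_add]
    have q2 : ∑ v ∈ X, Xm v ≤ 19999 * (fc π X : ℤ) := by
      have a : ∑ v ∈ X, Xm v = ∑ v, ((if π v ∈ X then Y v else 0) - if v ∈ X then Y v else 0) := by
        rw [Finset.sum_sub_distrib, ← Equiv.sum_comp π.symm fun v => if π v ∈ X then Y v else 0]
        simp only [Equiv.apply_symm_apply]
        rw [Finset.sum_ite_mem_eq, Finset.sum_ite_mem_eq, ← Finset.sum_sub_distrib]
        refine Finset.sum_congr rfl fun v _ => ?_
        have := s3 v
        unfold bd at this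
        omega
      rw [a, fc, card_filter]
      push_cast
      rw [Finset.mul_sum]
      refine Finset.sum_le_sum fun v _ => ?_
      have := (s4 v).1
      rw [abs_le] at this
      by_cases b1 : v ∈ X <;> by_cases b2 : π v ∈ X <;> simp [b1, b2] <;> omega
    have q3 : 29999 * ∑ v ∈ X with μ v ∉ X, σ v ≤
        9999 * (mc μ X : ℤ) + 2 * ∑ v ∈ X with μ v ∉ X, Xm v := by
      rw [mc, card_eq_sum_ones]
      push_cast
      rw [Finset.mul_sum, Finset.mul_sum, Finset.mul_sum, ← Finset.sum_add_distrib]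
      refine Finset.sum_le_sum fun v _ => ?_
      obtain ⟨-, b1, b2⟩ := s4 v
      rw [le_abs] at b1
      rw [abs_le] at b2
      simp only [σ]
      split_ifs <;> omega
    rw [← q1 σ s2', ← q1 Xm s2] at q3
    omega
  obtain ⟨φ₂, a1, a0, ab⟩ := exists_orientation src tgt F
  let l : E → ℤ := fun e => if e ∈ F then -19999 else if σ (tgt e) = 1 then 10000 else -19999
  let u : E → ℤ := fun e => if e ∈ F then 19999 else if σ (tgt e) = 1 then 19999 else -10000
  have hσ : ∀ e, e ∉ F → σ (src e) = - σ (tgt e) := fun e he => by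
    rw [← (m4 e (mem_compl.2 he)).2.2, s2', neg_neg]
  obtain ⟨φ₄, b1, b2⟩ := hoffman' src tgt (fun _ => 0) (by simp) l u
    (fun e => by simp only [l, u]; split_ifs <;> omega) (fun X => by
      simp only [Finset.sum_const_zero]
      have e1 : ∑ v ∈ X, σ v = ∑ e, if e ∈ F then 0 else
          ((if src e ∈ X then σ (src e) else 0) + (if tgt e ∈ X then σ (tgt e) else 0)) := by
        have q : ∀ v, σ v = ∑ e, ((if src e = v then (if e ∈ Fᶜ then σ v else 0) else 0) +
            (if tgt e = v then (if e ∈ Fᶜ then σ v else 0) else 0)) := fun v => by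
          have := dg_eq src tgt Fᶜ v
          rw [hM] at this
          rw [← mul_one (σ v)]
          nth_rewrite 1 [show (1 : ℤ) = ((1 : ℕ) : ℤ) from rfl, this]
          rw [Finset.mul_sum]
          refine Finset.sum_congr rfl fun e _ => ?_
          split_ifs <;> ring
        rw [Finset.sum_congr rfl fun v _ => q v, Finset.sum_comm]
        refine Finset.sum_congr rfl fun e _ => ?_
        rw [Finset.sum_add_distrib, Finset.sum_ite_eq, Finset.sum_ite_eq]
        by_cases he : e ∈ F <;> simp [he]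
      have e2 : 2 * capOut src tgt l u X + 29999 * ∑ v ∈ X, σ v =
          9999 * (#{e ∈ Fᶜ | ¬ (src e ∈ X ↔ tgt e ∈ X)} : ℤ) +
            39998 * #{e ∈ F | ¬ (src e ∈ X ↔ tgt e ∈ X)} := by
        rw [e1, card_filter, card_filter]
        push_cast
        rw [← Finset.sum_ite_mem_eq F, ← Finset.sum_ite_mem_eq Fᶜ]
        unfold capOut
        rw [Finset.mul_sum, Finset.mul_sum, Finset.mul_sum, Finset.mul_sum, ← Finset.sum_add_distrib,
          ← Finset.sum_add_distrib]
        refine Finset.sum_congr rfl fun e _ => ?_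
        by_cases c3 : e ∈ F
        · by_cases c1 : src e ∈ X <;> by_cases c2 : tgt e ∈ X <;> simp [l, u, c1, c2, c3]
        · have q1 := hσ e c3
          rcases s1 (tgt e) with c4 | c4 <;> by_cases c1 : src e ∈ X <;>
            by_cases c2 : tgt e ∈ X <;> simp [l, u, c1, c2, c3, c4, q1]
      rw [hf, hm] at e2
      have e3 := s5 X
      omega)
  have hs : ∀ e, φ₂ e ≠ 0 ↔ e ∈ F := fun e => by
    by_cases he : e ∈ F
    · have := a1 e he
      simp only [he, iff_true]; omega
    · simp [he, a0 e he]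
  refine ⟨φ₂, φ₄, kflow_of_bdry _ _ _ _ (fun e => ?_) fun v => (ab v).2 (by rw [hF' v]; decide),
    kflow_of_bdry _ _ _ _ (fun e => ?_) b2, fun e he => ?_, hs⟩
  · by_cases he : e ∈ F
    · rcases a1 e he with h | h <;> simp [h]
    · simp [a0 e he]
  · have := b1 e
    simp only [l, u] at this
    rw [abs_le]
    split_ifs at this <;> omega
  · have he' : e ∉ F := fun h => (hs e).2 h he
    have := b1 e
    simp only [l, u, he', if_false] at this
    rw [le_abs]
    split_ifs at this <;> omega

end Pool.Agent.P.MP_e59a69_co
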