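import Pool.Agent.P.MP_e59a69_co.TIT

/-! Choice of the windows. -/

open Finset Function

namespace Pool.Agent.P.MP_e59a69_co

variable {V : Type} [Fintype V] [DecidableEq V] {π μ : Equiv.Perm V} {c : ℕ}

omit [DecidableEq V] in
lemma Hyp.le_per [DecidableEq V] (H : Hyp π μ c) (v : V) : c ≤ minimalPeriod π v := by
  by_contra hlt
  have h0 := per_pos π v
  refine H.len v (minimalPeriod π v) (by omega) (by rw [Nat.abs_cast]; omega) ?_
  rw [zpow_natCast, Equiv.Perm.coe_pow, iterate_minimalPeriod]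

omit [DecidableEq V] in
lemma twin_ix_add {bs : V → V} {ix : V → ℕ} (C : Co π bs ix) (b : V) {i : ℕ}
    (h : ix b + i < minimalPeriod π b) : ix (π^[i] b) = ix b + i := by
  have h1 : π^[i] b = π^[i + ix b] (bs b) := by rw [iterate_add_apply, C.pw]
  rw [h1, C.ix_iter (C.bs_bs b) (by rw [C.per_bs]; omega), add_comm]

omit [Fintype V] [DecidableEq V] in
lemma twin_same {bs : V → V} {ix : V → ℕ} (C : Co π bs ix) (v : V) : π.SameCycle (bs v) v :=
  ⟨(ix v : ℤ), by rw [zpow_natCast, Equiv.Perm.coe_pow, C.pw]⟩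

/-- candidate starts of windows on the circuit with base point `r` -/
noncomputable def twinA (π : Equiv.Perm V) (bs : V → V) (ix : V → ℕ) (L : ℕ) (U : Finset V)
    (r : V) : Finset V :=
  {a | bs a = r ∧ L ∣ ix a ∧ ix a + L ≤ minimalPeriod π a ∧ ∀ i ∈ range L, π^[i] a ∉ U}

lemma twin_card {bs : V → V} {ix : V → ℕ} (C : Co π bs ix) {L : ℕ} (hL : 0 < L) (U : Finset V)
    {r : V} (hr : bs r = r) (h1 : 20 * L ^ 2 ≤ minimalPeriod π r)
    (h2 : 2 * L * #{j ∈ range (minimalPeriod π r) | π^[j] r ∈ U} ≤ minimalPeriod π r) :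
    4 * L ≤ #(twinA π bs ix L U r) := by
  set P := minimalPeriod π r with hP
  set W : Finset ℕ := {j ∈ range P | π^[j] r ∈ U} with hW
  have hq : ∀ j ∈ range (P / L), j * L + L ≤ P := by
    intro j hj
    have h3 : (j + 1) * L ≤ P / L * L := Nat.mul_le_mul_right _ (mem_range.1 hj)
    have h4 := Nat.div_mul_le_self P L
    rw [add_mul, one_mul] at h3
    omega
  have hsub : range (P / L) ⊆ (twinA π bs ix L U r).image (fun a => ix a / L) ∪
      W.image (fun t => t / L) := by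
    intro j hj
    have h3 := hq j hj
    have h4 : ix (π^[j * L] r) = j * L := C.ix_iter hr (by omega)
    by_cases hg : ∀ i ∈ range L, π^[i] (π^[j * L] r) ∉ U
    · refine mem_union_left _ (mem_image.2 ⟨π^[j * L] r, ?_, ?_⟩)
      · refine mem_filter.2 ⟨mem_univ _, by rw [C.bs_iter, hr], by rw [h4]; exact Dvd.intro_left j rfl,
          by rw [h4, per_iter]; exact h3, hg⟩
      · rw [h4, Nat.mul_div_cancel _ hL]
    · push Not at hg
      obtain ⟨i, hi, hiU⟩ := hg
      have hi' := mem_range.1 hi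
      refine mem_union_right _ (mem_image.2 ⟨i + j * L, ?_, ?_⟩)
      · exact mem_filter.2 ⟨mem_range.2 (by omega), by rwa [iterate_add_apply]⟩
      · rw [Nat.add_mul_div_right _ _ hL, Nat.div_eq_of_lt hi', zero_add]
  have h5 : P / L ≤ #(twinA π bs ix L U r) + #W := by
    have := (card_le_card hsub).trans (card_union_le _ _)
    rw [card_range] at this
    exact this.trans (add_le_add card_image_le card_image_le)
  have h6 : P < L * (P / L + 1) := Nat.lt_mul_div_succ P hL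
  by_contra hlt
  have h7 : P / L + 1 ≤ 4 * L + #W := by omega
  have h8 := Nat.mul_le_mul_left L h7
  nlinarith

lemma twin_deg {bs : V → V} {ix : V → ℕ} (C : Co π bs ix) {L : ℕ} (hL : 0 < L) (U : Finset V)
    (J : Finset V) (a : V) :
    ∑ j ∈ J, #{b ∈ twinA π bs ix L U j |
      ∃ i ∈ range L, ∃ i' ∈ range L, μ (π^[i] a) = π^[i'] b} ≤ L := by
  rw [← card_biUnion]
  · refine le_trans (card_le_card (t := (range L).image fun i =>
      π^[L * (ix (μ (π^[i] a)) / L)] (bs (μ (π^[i] a)))) fun b hb => ?_)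
      (card_image_le.trans (card_range L).le)
    obtain ⟨j, -, hb⟩ := mem_biUnion.1 hb
    obtain ⟨hb, i, hi, i', hi', e⟩ := mem_filter.1 hb
    obtain ⟨-, -, ⟨d, hd⟩, h3, -⟩ := mem_filter.1 hb
    have h4 := mem_range.1 hi'
    refine mem_image.2 ⟨i, hi, ?_⟩
    rw [e, twin_ix_add C b (by omega), C.bs_iter, hd, Nat.mul_add_div hL, Nat.div_eq_of_lt h4,
      add_zero, ← hd, C.pw]
  · intro j _ j' _ hne
    refine disjoint_left.2 fun b h1 h2 => hne ?_
    rw [← (mem_filter.1 (mem_filter.1 h1).1).2.1, (mem_filter.1 (mem_filter.1 h2).1).2.1]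

theorem exists_win (H : Hyp π μ c) (L : ℕ) (hL : 0 < L) (hc : 20 * L ^ 2 ≤ c) (U : Finset V)
    (hU : ∀ x, 2 * L * #{j ∈ range (minimalPeriod π x) | π^[j] x ∈ U} ≤ minimalPeriod π x) :
    ∃ bs ix, Co π bs ix ∧ (∀ v, Win π ix L v → ¬ Win π ix L (μ v)) ∧
      ∀ v, Win π ix L v → v ∉ U := by
  rcases isEmpty_or_nonempty V with hV | hV
  · obtain ⟨bs, ix, C⟩ := exists_co' π
    exact ⟨bs, ix, C, fun v => isEmptyElim v, fun v => isEmptyElim v⟩
  obtain ⟨b0, i0, C0⟩ := exists_co' π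
  obtain ⟨s, hs, hR⟩ := exists_IT ({r | b0 r = r ∧ Odd (minimalPeriod π r)} : Finset V)
    (twinA π b0 i0 L U) (fun a b => ∃ i ∈ range L, ∃ i' ∈ range L, μ (π^[i] a) = π^[i'] b)
    (by
      rintro a b ⟨i, hi, i', hi', e⟩
      exact ⟨i', hi', i, hi, by rw [← e, H.inv]⟩) L hL
    (fun r hr => twin_card C0 hL U (mem_filter.1 hr).2.1 (hc.trans (H.le_per r)) (hU r))
    (fun r _ a _ => twin_deg C0 hL U _ a)
  have hI : ∀ v, Odd (minimalPeriod π v) →
      b0 v ∈ ({r | b0 r = r ∧ Odd (minimalPeriod π r)} : Finset V) := fun v hv =>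
    mem_filter.2 ⟨mem_univ _, C0.bs_bs v, by rwa [C0.per_bs]⟩
  obtain ⟨ix, C⟩ := exists_co π (fun v => if Odd (minimalPeriod π v) then s (b0 v) else b0 v)
    (fun v => by
      split_ifs with hv
      · have h1 := twin_same C0 (s (b0 v))
        rw [(mem_filter.1 (hs _ (hI v hv))).2.1] at h1
        exact h1.symm.trans (twin_same C0 v)
      · exact twin_same C0 v)
    (fun v => by rw [per_pi, C0.bs_pi])
  have hw : ∀ v, Win π ix L v → π^[ix v] (s (b0 v)) = v := by
    intro v hv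
    have := C.pw v
    rwa [if_pos hv.1] at this
  refine ⟨_, ix, C, fun v h1 h2 => ?_, fun v hv => ?_⟩
  · have e1 := hw v h1
    have e2 := hw _ h2
    by_cases hb : b0 v = b0 (μ v)
    · have l1 := h1.2
      have l2 := h2.2
      refine H.g1 v (t := (ix (μ v) : ℤ) - ix v) ?_ ?_
      · have h3 : L + 2 ≤ c := by nlinarith
        have h4 : |(ix (μ v) : ℤ) - ix v| ≤ L - 1 := abs_le.2 ⟨by omega, by omega⟩
        omega
      · have e3 : (π ^ (ix v : ℤ)) (s (b0 v)) = v := by
          rw [zpow_natCast, Equiv.Perm.coe_pow, e1]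
        have e4 : (π ^ (ix (μ v) : ℤ)) (s (b0 v)) = μ v := by
          rw [zpow_natCast, Equiv.Perm.coe_pow, hb, e2]
        have e5 := zp_add π ((ix (μ v) : ℤ) - ix v) (ix v) (s (b0 v))
        rw [e3, sub_add_cancel, e4] at e5
        exact e5.symm
    · exact hR _ (hI v h1.1) _ (hI _ h2.1) hb
        ⟨ix v, mem_range.2 h1.2, ix (μ v), mem_range.2 h2.2, by rw [e1, e2]⟩
  · have := (mem_filter.1 (hs _ (hI v hv.1))).2.2.2.2 (ix v) (mem_range.2 hv.2)
    rwa [hw v hv] at this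

end Pool.Agent.P.MP_e59a69_co
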