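import Pool.Agent.P.MP_e59a69_co.TTrees
import Pool.Agent.P.MP_e59a69_co.TWin
import Pool.Agent.P.MP_e59a69_co.TFine
import Pool.Agent.P.MP_e59a69_co.TCoarse
import Pool.Agent.P.MP_e59a69_co.TGame
import Pool.Agent.P.MP_e59a69_co.TAsm

/-! The flow in the permutation model. -/

open Finset Function

namespace Pool.Agent.P.MP_e59a69_co

theorem perm_main : ∃ c0 : ℕ, ∀ (V : Type) [Fintype V] [DecidableEq V] (π μ : Equiv.Perm V)
    (c : ℕ), Hyp π μ c → c0 ≤ c →
    ∃ Y X : V → ℤ, (∀ v, X (μ v) = - X v) ∧ (∀ v, bd π Y X v = 0) ∧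
      ∀ v, |Y v| ≤ 19999 ∧ 10000 ≤ |X v| ∧ |X v| ≤ 19999 := by
  obtain ⟨L, hL⟩ : ∃ L : ℕ, L = 300000 := ⟨_, rfl⟩
  obtain ⟨c1, hc1⟩ := exists_trees (2 * L)
  refine ⟨c1 + 20 * L ^ 2, fun V _ _ π μ c H hc => ?_⟩
  have hLc : L + 2 ≤ c := by subst hL; omega
  have hper : ∀ v, L < minimalPeriod π v := fun v => by have := H.le_per v; omega
  obtain ⟨T, U, t1, t2, t3, t4, t5⟩ := hc1 V π μ c H (by omega)
  obtain ⟨bs, ix, C, w1, w2⟩ := exists_win H L (by omega) (by omega) U t5
  obtain ⟨y0, x0, b, f1, f2, f3, f4⟩ := exists_fine H C L 750004 (by omega) hLc hper (by omega)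
  obtain ⟨y, x, g1, g2, g3, g4, g5⟩ := exists_coarse C H.inv H.ne L 10007 1500009 (by omega) hper
    (by norm_num) (by norm_num) (by rw [hL]; norm_num) y0 x0 b f1 f2 f3
    (fun r h1 h2 => by have := f4 r h1 h2; norm_num at this ⊢; exact this)
  have step : ∀ r, bs r = r → Odd (minimalPeriod π r) → ∀ i < L,
      walk π y b 10007 r (i + 1) - walk π y b 10007 r i = b r * x (π^[i] r) := by
    intro r h1 h2 i hi
    have hb := (f4 r h1 h2).1
    rcases i with _ | i
    · have := (g5 r h1 h2).1
      unfold bd at this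
      simp only [walk, zero_add, one_ne_zero, if_false, if_true, Nat.sub_self, iterate_zero, id]
      rcases hb with hb | hb <;> rw [hb] at this ⊢ <;> linarith
    · have e := g4 (π^[i + 1] r) fun h => by
        have a := C.ix_bs (π^[i + 1] r)
        rw [h.1, C.ix_iter h1 (by have := hper r; omega)] at a
        omega
      unfold bd at e
      rw [symm_iter] at e
      simp only [walk, Nat.add_eq_zero_iff, one_ne_zero, and_false, if_false, Nat.add_sub_cancel]
      rcases hb with hb | hb <;> rw [hb] <;> linarith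
  have hpl : ∀ r, ∃ (a lo hi : ℕ → ℕ) (l : ℕ → ℤ), bs r = r → Odd (minimalPeriod π r) →
      ∀ j < 32, Place (walk π y b 10007 r) L 10007 (a j) (lo j) (hi j) (l j) ∧
        (j + 1 < 32 → hi j ≤ lo (j + 1)) := by
    intro r
    by_cases h : bs r = r ∧ Odd (minimalPeriod π r)
    swap
    · exact ⟨0, 0, 0, 0, fun h1 h2 => absurd ⟨h1, h2⟩ h⟩
    obtain ⟨h1, h2⟩ := h
    have hb := (f4 r h1 h2).1
    obtain ⟨-, k2, k3⟩ := g5 r h1 h2
    have hr0 : ix r = 0 := by rw [← h1]; exact C.ix_bs r
    obtain ⟨a, lo, hi, l, h⟩ := exists_places (walk π y b 10007 r) L 10007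
      (by
        have := g3 (π.symm r) fun h => by
          have := C.ix_symm_zero hr0
          have := hper r
          have := h.2
          omega
        simp only [walk, if_true]
        rw [abs_le] at this ⊢
        rcases hb with hb | hb <;> rw [hb] <;> omega)
      (by
        have := g3 (π^[L - 1] r) fun h => by
          have a := h.2
          rw [C.ix_iter h1 (by have := hper r; omega)] at a
          omega
        simp only [walk, show L ≠ 0 by omega, if_false]
        rw [abs_le] at this ⊢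
        rcases hb with hb | hb <;> rw [hb] <;> omega)
      (fun i hi => by
        rw [step r h1 h2 i hi]
        have := g2 (π^[i] r)
        rw [abs_le] at this ⊢
        rcases hb with hb | hb <;> rw [hb] <;> omega)
      (by
        rw [filter_congr (q := fun i => b r * x (π^[i] r) = -1) fun i hi => by
          rw [step r h1 h2 i (mem_range.1 hi)]]
        omega)
      (fun i j k a1 a2 a3 a4 => by
        rw [step r h1 h2 i (by omega), step r h1 h2 j (by omega), step r h1 h2 k a4]
        exact k3 i j k a1 a2 a3 a4)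
    exact ⟨a, lo, hi, l, fun _ _ => h⟩
  choose a lo hi l hpl using hpl
  obtain ⟨τ, w, s1, s2, s3⟩ := game C H.inv H.ne L hper w1 T t1 t2 t3
    (fun i v hv h => w2 v hv (t4 i h)) a b fun r h1 h2 => ⟨(f4 r h1 h2).1, fun j hj => by
      obtain ⟨p, q⟩ := hpl r h1 h2 j hj
      refine ⟨p.le_hi.trans p.hi_le, fun hj' => ?_⟩
      exact (p.le_hi.trans (q hj')).trans (hpl r h1 h2 _ hj').1.lo_le⟩
  obtain ⟨Y, X, z1, z2, z3⟩ := assemble C H.inv H.ne L 10007 (by norm_num) (by omega) hper y x b τ
    g1 g2 g3 g4 (fun r h1 h2 => ⟨(f4 r h1 h2).1, (g5 r h1 h2).1⟩) s1 s2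
    (fun r h => ⟨(s3 r h).1, (s3 r h).2.1⟩) (fun r => a r (w r)) (fun r => lo r (w r))
    (fun r => hi r (w r)) (fun r => l r (w r)) fun r h1 h2 => by
      obtain ⟨u1, u2, u3⟩ := (s3 r h1).2.2 h2
      have mono : ∀ d j, j + d + 1 < 32 → hi r j ≤ lo r (j + d + 1) := by
        intro d
        induction d with
        | zero => exact fun j hj => (hpl r h1 h2 j (by omega)).2 hj
        | succ d ih =>
          intro j hj
          obtain ⟨p, q⟩ := hpl r h1 h2 (j + d + 1) (by omega)
          have := ih j (by omega)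
          have := p.lo_le
          have := p.le_hi
          have := q hj
          change _ ≤ lo r (j + d + 1 + 1)
          omega
      have pw := (hpl r h1 h2 _ u1).1
      refine ⟨pw, u2, fun i i1 i2 i3 => by_contra fun hne => ?_⟩
      obtain ⟨j, j1, j2, j3⟩ := u3 i (lt_of_lt_of_le i2 pw.hi_le) hne
      have pj := (hpl r h1 h2 _ j1).1
      have := pj.lo_le
      have := pj.le_hi
      rcases lt_trichotomy j (w r) with h | h | h
      · obtain ⟨d, hd⟩ := Nat.exists_eq_add_of_lt h
        have := mono d j (by omega)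
        rw [← hd] at this
        omega
      · subst h; omega
      · obtain ⟨d, hd⟩ := Nat.exists_eq_add_of_lt h
        have := mono d (w r) (by omega)
        rw [← hd] at this
        omega
  exact ⟨Y, X, z1, z2, fun v => by have := z3 v; omega⟩

end Pool.Agent.P.MP_e59a69_co
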