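import Pool.Agent.P.MP_e59a69_co.TCut
import Pool.Agent.P.MP_da739a_co.Orient

/-! A balanced orientation of a 7-edge-connected multigraph. -/

open Finset Function

namespace Pool.Agent.P.MP_e59a69_co

variable {N E : Type} [Fintype N] [Fintype E] [DecidableEq N] [DecidableEq E]

theorem third (s t : E → N) (A : Finset E)
    (h : ∀ X : Finset N, X.Nonempty → Xᶜ.Nonempty → 7 ≤ ct s t A X) :
    ∃ s' t' : E → N, (∀ e, (s' e = s e ∧ t' e = t e) ∨ (s' e = t e ∧ t' e = s e)) ∧
      ∀ X, ct s t A X ≤ 3 * ent s' t' A X := by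
  let t1 : E → N := fun e => if e ∈ A then t e else s e
  have hcz : ∀ X, MP_da739a_co.cz s t1 X = ct s t A X := fun X => by
    unfold MP_da739a_co.cz ct
    rw [card_filter]
    push_cast
    rw [← Finset.sum_ite_mem_eq A]
    refine Finset.sum_congr rfl fun e _ => ?_
    by_cases a : e ∈ A <;> by_cases b : s e ∈ X <;> by_cases c : t e ∈ X <;> simp [t1, a, b, c]
  obtain ⟨x, hx, hd⟩ := MP_da739a_co.orient 1 _ s t1 rfl fun X hX => by
    rw [hcz] at hX ⊢
    have h0 : 0 < ct s t A X := by
      rcases hX with ⟨k, hk⟩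
      omega
    obtain ⟨e, he⟩ := card_pos.1 h0
    have he' := (mem_filter.1 he).2
    have := h X (by
        by_cases b : s e ∈ X
        · exact ⟨_, b⟩
        · exact ⟨t e, by_contra fun c => he' (iff_of_false b c)⟩) (by
        by_cases b : s e ∈ X
        · exact ⟨t e, mem_compl.2 fun c => he' (iff_of_true b c)⟩
        · exact ⟨_, mem_compl.2 b⟩)
    push_cast
    omega
  obtain ⟨φ, p1, p2⟩ := lift s t1 3 (by norm_num) x hd
  have hφ : ∀ e, φ e = 1 ∨ φ e = 2 ∨ φ e = -1 ∨ φ e = -2 := fun e => by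
    have a := hx e
    obtain ⟨b, c⟩ := p2 e
    rw [abs_lt] at c
    omega
  refine ⟨fun e => if 0 < φ e then s e else t e, fun e => if 0 < φ e then t e else s e,
    fun e => by by_cases a : 0 < φ e <;> simp [a], fun X => ?_⟩
  have e0 : ∑ v ∈ X, bdry s t1 φ v = 0 := Finset.sum_eq_zero fun v _ => p1 v
  rw [sum_bdry] at e0
  have : (ct s t A X : ℤ) ≤ 3 * (ent (fun e => if 0 < φ e then s e else t e)
      (fun e => if 0 < φ e then t e else s e) A X : ℤ) + ∑ e, ((if s e ∈ X then φ e else 0) -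
        (if t1 e ∈ X then φ e else 0)) := by
    unfold ct ent
    rw [card_filter, card_filter]
    push_cast
    rw [← Finset.sum_ite_mem_eq A, ← Finset.sum_ite_mem_eq A, Finset.mul_sum,
      ← Finset.sum_add_distrib]
    refine Finset.sum_le_sum fun e _ => ?_
    by_cases a : e ∈ A <;> by_cases b : s e ∈ X <;> by_cases c : t e ∈ X <;>
      rcases hφ e with d | d | d | d <;> simp [t1, a, b, c, d]
  rw [e0] at this
  omega

end Pool.Agent.P.MP_e59a69_co
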