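import Pool.Agent.P.MP_e59a69_co.TLow
import Pool.Agent.P.MP_e59a69_co.TEdm

/-! Five disjoint sets of matching edges, each connecting all circuits, sparse on every circuit. -/

open Finset Function

namespace Pool.Agent.P.MP_e59a69_co

section
variable {V : Type} [Fintype V] [DecidableEq V]

lemma tr_mu {μ : Equiv.Perm V} (h1 : ∀ v, μ (μ v) = v) (B : Finset V) (Q : V → Prop)
    [DecidablePred Q] : #{v | μ v ∈ B ∧ Q v} = #{e ∈ B | Q (μ e)} := by
  refine Finset.card_bij (fun v _ => μ v) (fun v hv => ?_) (fun a _ b _ e => μ.injective e)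
    fun e he => ?_
  · obtain ⟨-, a, b⟩ := mem_filter.1 hv
    exact mem_filter.2 ⟨a, by rw [h1]; exact b⟩
  · obtain ⟨a, b⟩ := mem_filter.1 he
    exact ⟨μ e, mem_filter.2 ⟨mem_univ _, by rw [h1]; exact a, b⟩, h1 e⟩

lemma tr_le {μ : Equiv.Perm V} (h1 : ∀ v, μ (μ v) = v) (B : Finset V) (Q : V → Prop)
    [DecidablePred Q] :
    #{v | (v ∈ B ∨ μ v ∈ B) ∧ Q v} ≤ #{e ∈ B | Q e} + #{e ∈ B | Q (μ e)} := by
  rw [← tr_mu h1 B Q]
  refine le_trans (card_le_card fun v hv => ?_) (card_union_le _ _)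
  obtain ⟨-, a | a, b⟩ := mem_filter.1 hv
  · exact mem_union_left _ (mem_filter.2 ⟨a, b⟩)
  · exact mem_union_right _ (mem_filter.2 ⟨mem_univ _, a, b⟩)

lemma tr_eq {μ : Equiv.Perm V} (h1 : ∀ v, μ (μ v) = v) {O : Finset V}
    (hO : ∀ v, μ v ∈ O ↔ v ∉ O) (Q : V → Prop) [DecidablePred Q] :
    #{e ∈ O | Q e} + #{e ∈ O | Q (μ e)} = #{v | Q v} := by
  rw [← tr_mu h1 O Q, ← card_union_of_disjoint]
  · refine congrArg _ (Finset.ext fun v => ?_)
    by_cases a : v ∈ O <;> simp [a, hO]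
  · rw [Finset.disjoint_left]
    intro v a b
    exact (hO v).1 (mem_filter.1 b).2.1 (mem_filter.1 a).1

lemma tr_mc {μ : Equiv.Perm V} (h1 : ∀ v, μ (μ v) = v) {O : Finset V}
    (hO : ∀ v, μ v ∈ O ↔ v ∉ O) (X : Finset V) :
    #{e ∈ O | ¬ (e ∈ X ↔ μ e ∈ X)} = mc μ X := by
  have e1 : mc μ X = #{v | v ∈ X ∧ μ v ∉ X} := by
    unfold mc
    exact congrArg _ (Finset.ext fun v => by simp)
  rw [e1, ← tr_eq h1 hO fun v => v ∈ X ∧ μ v ∉ X]
  simp only [card_filter]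
  rw [← Finset.sum_add_distrib]
  refine Finset.sum_congr rfl fun e _ => ?_
  by_cases a : e ∈ X <;> by_cases b : μ e ∈ X <;> simp [a, b, h1]

lemma tr_cut {π μ : Equiv.Perm V} {c : ℕ} (H : Hyp π μ c) {O : Finset V}
    (hO : ∀ v, μ v ∈ O ↔ v ∉ O) (X : Finset V) (hX : ∀ v, π v ∈ X ↔ v ∈ X) (h1 : X.Nonempty)
    (h2 : Xᶜ.Nonempty) : c ≤ mc μ X := by
  have f0 : fc π X = 0 := by
    unfold fc
    rw [card_eq_zero, filter_eq_empty_iff]
    intro v _
    simp [hX]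
  have a1 : mc μ X ≤ #X := card_filter_le _ _
  have a2 : mc μ Xᶜ ≤ #Xᶜ := card_filter_le _ _
  have a3 : mc μ Xᶜ = mc μ X := by
    rw [← tr_mc H.inv hO, ← tr_mc H.inv hO]
    refine congrArg _ (filter_congr fun e _ => ?_)
    by_cases a : e ∈ X <;> by_cases b : μ e ∈ X <;> simp [a, b]
  have := H.cut X h1 h2
  omega

lemma tr_count {π : Equiv.Perm V} {bs : V → V} {ix : V → ℕ} (C : Co π bs ix) (x : V)
    (U : Finset V) :
    #{j ∈ range (minimalPeriod π x) | π^[j] x ∈ U} ≤ #{v | v ∈ U ∧ bs v = bs x} := by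
  refine card_le_card_of_injOn (fun j => π^[j] x) (fun j hj => ?_) fun i hi j hj e => ?_
  · have := mem_filter.1 (mem_coe.1 hj)
    exact mem_coe.2 (mem_filter.2 ⟨mem_univ _, this.2, C.bs_iter x j⟩)
  · have a := mem_range.1 (mem_filter.1 (mem_coe.1 hi)).1
    have b := mem_range.1 (mem_filter.1 (mem_coe.1 hj)).1
    exact iterate_injOn_Iio_minimalPeriod a b e

lemma tr_per {π : Equiv.Perm V} {bs : V → V} {ix : V → ℕ} (C : Co π bs ix) (x : V) :
    #{v | bs v = bs x} ≤ minimalPeriod π x := by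
  rw [← card_range (minimalPeriod π x)]
  refine card_le_card_of_injOn ix (fun v hv => ?_) fun u hu v hv e => ?_
  · have a := (mem_filter.1 (mem_coe.1 hv)).2
    have b := C.lt v
    rw [← C.per_bs, a, C.per_bs] at b
    exact mem_coe.2 (mem_range.2 b)
  · have a := (mem_filter.1 (mem_coe.1 hu)).2
    have b := (mem_filter.1 (mem_coe.1 hv)).2
    exact C.ext (a.trans b.symm) e

omit [Fintype V] [DecidableEq V] in
lemma tr_bs {π : Equiv.Perm V} {bs : V → V} {ix : V → ℕ} (C : Co π bs ix) {X : Finset V}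
    (hX : ∀ v, π v ∈ X ↔ v ∈ X) (v : V) : bs v ∈ X ↔ v ∈ X := by
  have : ∀ i u, π^[i] u ∈ X ↔ u ∈ X := fun i u => by
    induction i with
    | zero => rfl
    | succ i ih => rw [iterate_succ_apply', hX, ih]
  conv_rhs => rw [← C.pw v, this]

end

theorem exists_trees (G : ℕ) : ∃ c0 : ℕ, ∀ (V : Type) [Fintype V] [DecidableEq V]
    (π μ : Equiv.Perm V) (c : ℕ), Hyp π μ c → c0 ≤ c →
    ∃ (T : ℕ → Finset V) (U : Finset V), (∀ i v, μ v ∈ T i ↔ v ∈ T i) ∧
      (∀ i j, i ≠ j → Disjoint (T i) (T j)) ∧ (∀ i < 5, Con π μ (T i)) ∧ (∀ i, T i ⊆ U) ∧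
      ∀ x, G * #{j ∈ range (minimalPeriod π x) | π^[j] x ∈ U} ≤ minimalPeriod π x := by
  obtain ⟨lam, hl⟩ := lowdeg G 15
  refine ⟨lam, fun V _ _ π μ c H hc => ?_⟩
  obtain ⟨bs, ix, C⟩ := exists_co' π
  obtain ⟨O, hO⟩ := exists_half μ H.inv H.ne
  let N := {x // bs x = x}
  let nd : V → N := fun v => ⟨bs v, C.bs_bs v⟩
  have hnd : ∀ u v, nd u = nd v ↔ bs u = bs v := fun u v => Subtype.ext_iff
  have hsur : ∀ n : N, nd n.1 = n := fun n => Subtype.ext n.2
  obtain ⟨B, hBO, hB, hdeg⟩ := hl N V nd (fun v => nd (μ v)) O fun X h1 h2 => by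
    have e : ct nd (fun v => nd (μ v)) O X = mc μ {v | nd v ∈ X} := by
      rw [← tr_mc H.inv hO]
      unfold ct
      exact congrArg _ (filter_congr fun e _ => by simp)
    rw [e]
    refine hc.trans (tr_cut H hO _ (fun v => ?_) ?_ ?_)
    · have : nd (π v) = nd v := (hnd _ _).2 (C.bs_pi v)
      simp [this]
    · obtain ⟨n, hn⟩ := h1
      exact ⟨n.1, by simpa [hsur] using hn⟩
    · obtain ⟨n, hn⟩ := h2
      exact ⟨n.1, by simpa [hsur] using hn⟩
  obtain ⟨T, hTB, hTd, hT⟩ := five nd (fun v => nd (μ v)) B hB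
  refine ⟨fun i => univ.filter fun v => v ∈ T i ∨ μ v ∈ T i,
    univ.filter fun v => v ∈ B ∨ μ v ∈ B, fun i v => ?_,
    fun i j hij => ?_, fun i hi X hX h1 h2 => ?_, fun i v hv => ?_, fun x => ?_⟩
  · simp [H.inv, or_comm]
  · rw [Finset.disjoint_left]
    intro v a b
    have d := Finset.disjoint_left.1 (hTd i j hij)
    rcases (mem_filter.1 a).2 with a | a <;> rcases (mem_filter.1 b).2 with b | b
    · exact d a b
    · exact (hO v).1 (hBO (hTB j b)) (hBO (hTB i a))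
    · exact (hO v).1 (hBO (hTB i a)) (hBO (hTB j b))
    · exact d a b
  · have hb := tr_bs C hX
    have hm : ∀ v, nd v ∈ ({n | n.1 ∈ X} : Finset N) ↔ v ∈ X := fun v => by
      rw [mem_filter, ← hb v]
      exact and_iff_right (mem_univ _)
    have := hT i hi {n | n.1 ∈ X} (by obtain ⟨v, hv⟩ := h1; exact ⟨nd v, (hm v).2 hv⟩)
      (by obtain ⟨v, hv⟩ := h2; exact ⟨nd v, mem_compl.2 fun h => mem_compl.1 hv ((hm v).1 h)⟩)
    obtain ⟨e, he⟩ := card_pos.1 this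
    obtain ⟨a, b⟩ := mem_filter.1 he
    rw [hm, hm] at b
    by_cases h : e ∈ X
    · exact ⟨e, mem_filter.2 ⟨mem_univ _, Or.inl a⟩, h, fun h' => b ⟨fun _ => h', fun _ => h⟩⟩
    · refine ⟨μ e, mem_filter.2 ⟨mem_univ _, Or.inr (by rw [H.inv]; exact a)⟩, ?_, ?_⟩
      · by_contra h'
        exact b ⟨fun k => absurd k h, fun k => absurd k h'⟩
      · rw [H.inv]; exact h
  · exact mem_filter.2 ⟨mem_univ _, (mem_filter.1 hv).2.imp (@hTB i _) (@hTB i _)⟩
  · have e : ∀ A : Finset V, dg nd (fun v => nd (μ v)) A (nd x) =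
        #{w ∈ A | bs w = bs x} + #{w ∈ A | bs (μ w) = bs x} := fun A => by
      unfold dg
      simp only [hnd]
    have a1 := tr_count C x (univ.filter fun v => v ∈ B ∨ μ v ∈ B)
    have a2 := tr_le H.inv B fun v => bs v = bs x
    have a3 := tr_eq H.inv hO fun v => bs v = bs x
    have a4 := tr_per C x
    have a5 := hdeg (nd x)
    have a6 : #{v | v ∈ (univ.filter fun w => w ∈ B ∨ μ w ∈ B) ∧ bs v = bs x} =
        #{v | (v ∈ B ∨ μ v ∈ B) ∧ bs v = bs x} := congrArg _ (Finset.ext fun v => by simp)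
    rw [e, e, a3] at a5
    rw [a6] at a1
    exact (Nat.mul_le_mul_left G (a1.trans a2)).trans (a5.trans a4)

end Pool.Agent.P.MP_e59a69_co
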