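import Pool.Agent.K.MP_e59a69_co.C3

/-! Controls for the theorem on graphs without small cyclic cuts. -/

open Finset Function

namespace Pool.Agent.P.MP_e59a69_co.Tf

open Pool.Agent.P.MP_e59a69_co

variable {V E : Type} [Fintype V] [Fintype E] [DecidableEq V] [DecidableEq E] {s t : E → V}

omit [Fintype V] [DecidableEq E] in
theorem cut_sum {k : ℤ} {φ : E → ℤ} (h : IsKFlow s t k φ) (X : Finset V) :
    ∑ e, ((if s e ∈ X then φ e else 0) - (if t e ∈ X then φ e else 0)) = 0 := by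
  rw [← sum_bdry]
  exact sum_eq_zero fun v _ => bdry_of_kflow h v

omit [DecidableEq E] in
theorem five {φ₂ φ₄ : E → ℤ} (h2 : IsKFlow s t 2 φ₂) (h4 : IsKFlow s t 4 φ₄)
    (h : ∀ e, φ₂ e = 0 → 2 ≤ |φ₄ e|) : ∃ φ : E → ℤ, IsKFlow s t 5 φ ∧ ∀ e, φ e ≠ 0 := by
  have hb : ∀ e, (2 ≤ 5 * φ₂ e + φ₄ e ∧ 5 * φ₂ e + φ₄ e ≤ 8) ∨
      (-8 ≤ 5 * φ₂ e + φ₄ e ∧ 5 * φ₂ e + φ₄ e ≤ -2) := fun e => by
    have a := abs_le.1 (h2.1 e)
    have b := abs_le.1 (h4.1 e)
    by_cases c : φ₂ e = 0
    · have d := le_abs.1 (h e c)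
      omega
    · omega
  obtain ⟨φ, a, b⟩ := hoffman' s t (fun _ => 0) (by simp)
    (fun e => if 0 < 5 * φ₂ e + φ₄ e then 1 else -4) (fun e => if 0 < 5 * φ₂ e + φ₄ e then 4 else -1)
    (fun e => by split_ifs <;> omega) fun X => by
      have c2 := cut_sum h2 X
      have c4 := cut_sum h4 X
      have c : 5 * ∑ e, ((if s e ∈ X then φ₂ e else 0) - (if t e ∈ X then φ₂ e else 0)) +
          ∑ e, ((if s e ∈ X then φ₄ e else 0) - (if t e ∈ X then φ₄ e else 0)) ≤
          2 * ∑ e, (if s e ∈ X ∧ t e ∉ X then (if 0 < 5 * φ₂ e + φ₄ e then (4 : ℤ) else -1) else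
            if t e ∈ X ∧ s e ∉ X then -(if 0 < 5 * φ₂ e + φ₄ e then (1 : ℤ) else -4) else 0) := by
        rw [mul_sum, mul_sum, ← sum_add_distrib]
        refine sum_le_sum fun e _ => ?_
        have := hb e
        by_cases p : s e ∈ X <;> by_cases q : t e ∈ X <;> simp only [p, q, if_true, if_false,
          not_true, not_false_iff, and_self, and_true, and_false] <;> (try split_ifs) <;> omega
      rw [c2, c4] at c
      rw [sum_const_zero]
      change 0 ≤ ∑ e, (if s e ∈ X ∧ t e ∉ X then (if 0 < 5 * φ₂ e + φ₄ e then (4 : ℤ) else -1) else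
        if t e ∈ X ∧ s e ∉ X then -(if 0 < 5 * φ₂ e + φ₄ e then (1 : ℤ) else -4) else 0)
      omega
  refine ⟨φ, kflow_of_bdry _ _ _ _ (fun e => abs_le.2 ?_) b, fun e => ?_⟩ <;>
    have := a e <;> split_ifs at this <;> omega

omit [Fintype V] [DecidableEq E] in
theorem bridge {X : Finset V} (h1 : #{e | ¬ (s e ∈ X ↔ t e ∈ X)} = 1) {φ₂ φ₄ : E → ℤ}
    (h2 : IsKFlow s t 2 φ₂) (h4 : IsKFlow s t 4 φ₄) : ∃ e, φ₂ e = 0 ∧ φ₄ e = 0 := by
  obtain ⟨e, he⟩ := card_eq_one.1 h1
  have r : ∀ a, ¬ (s a ∈ X ↔ t a ∈ X) ↔ a = e := fun a => by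
    simpa using Finset.ext_iff.1 he a
  have key : ∀ (k : ℤ) (φ : E → ℤ), IsKFlow s t k φ → φ e = 0 := fun k φ h => by
    have c := cut_sum h X
    rw [sum_eq_single e (fun a _ ha => by
      have := not_not.1 (mt (r a).1 ha)
      by_cases p : s a ∈ X
      · simp [p, this.1 p]
      · simp [p, mt this.2 p]) (by simp)] at c
    have := (r e).2 rfl
    by_cases p : s e ∈ X <;> by_cases q : t e ∈ X <;> simp_all
  exact ⟨e, key _ _ h2, key _ _ h4⟩

theorem walk_iff : (∀ X : Finset V, #{e | ¬ (s e ∈ X ↔ t e ∈ X)} ≠ 1) ↔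
    ∀ e, ∃ (n : ℕ) (p : ℕ → V), p 0 = s e ∧ p n = t e ∧ ∀ i, i < n → ∃ f, f ≠ e ∧
      ((s f = p i ∧ t f = p (i + 1)) ∨ (t f = p i ∧ s f = p (i + 1))) := by
  classical
  constructor
  · intro h e
    by_contra hn
    set X : Finset V := {x | ∃ (n : ℕ) (p : ℕ → V), p 0 = s e ∧ p n = x ∧ ∀ i, i < n → ∃ f, f ≠ e ∧
      ((s f = p i ∧ t f = p (i + 1)) ∨ (t f = p i ∧ s f = p (i + 1)))} with hX
    have step : ∀ f x y, f ≠ e → ((s f = x ∧ t f = y) ∨ (t f = x ∧ s f = y)) → x ∈ X → y ∈ X := by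
      intro f x y hf hxy hx
      obtain ⟨n, p, p0, pn, hp⟩ := (mem_filter.1 hx).2
      refine mem_filter.2 ⟨mem_univ _, n + 1, fun i => if i ≤ n then p i else y, by simpa using p0,
        by simp, fun i hi => ?_⟩
      by_cases c : i < n
      · simpa [c.le, Nat.succ_le_of_lt c] using hp i c
      · obtain rfl : i = n := by omega
        exact ⟨f, hf, by simpa [pn] using hxy⟩
    have a : s e ∈ X := mem_filter.2 ⟨mem_univ _, 0, fun _ => s e, rfl, rfl, fun i hi => by omega⟩
    have b : t e ∉ X := fun c => hn (mem_filter.1 c).2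
    refine h X (card_eq_one.2 ⟨e, Finset.ext fun f => ?_⟩)
    rw [mem_filter, mem_singleton]
    refine ⟨fun c => by_contra fun d => c.2 ⟨step f _ _ d (Or.inl ⟨rfl, rfl⟩),
      step f _ _ d (Or.inr ⟨rfl, rfl⟩)⟩, ?_⟩
    rintro rfl
    exact ⟨mem_univ _, fun c => b (c.1 a)⟩
  · intro h X h1
    obtain ⟨e, he⟩ := card_eq_one.1 h1
    have r : ∀ a, ¬ (s a ∈ X ↔ t a ∈ X) ↔ a = e := fun a => by
      simpa using Finset.ext_iff.1 he a
    obtain ⟨n, p, p0, pn, hp⟩ := h e
    have key : ∀ i, i ≤ n → (p 0 ∈ X ↔ p i ∈ X) := fun i => by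
      induction i with
      | zero => exact fun _ => Iff.rfl
      | succ i ih =>
        intro hi
        obtain ⟨f, hf, c⟩ := hp i hi
        have d := not_not.1 (mt (r f).1 hf)
        refine (ih (by omega)).trans ?_
        rcases c with ⟨c1, c2⟩ | ⟨c1, c2⟩
        · rw [← c1, ← c2]
          exact d
        · rw [← c1, ← c2]
          exact d.symm
    exact (r e).2 rfl (by rw [← p0, ← pn]; exact key n le_rfl)

/-- There are no two disjoint cycles. -/
def No2 (s t : E → V) : Prop := ∀ X : Finset V, Cy s t X → ¬ Cy s t Xᶜ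

omit [Fintype E] in
theorem cy_lift {v : V} {P : Finset E} {X : Finset V} (h : Cy s t X) :
    Cy (ps s v P) (pt t v P) {o | o.getD v ∈ X} := by
  obtain ⟨Z, a, C, ⟨x, hx⟩, b, c⟩ := h
  have inj := Option.some_injective
  have m : ∀ o : Option V, o ∈ ({o | o.getD v ∈ Z} : Finset (Option V)) ↔ o.getD v ∈ Z :=
    fun o => by simp
  have e1 : ∀ e ∈ C, ps s v P (some e) ∈ ({o | o.getD v ∈ Z} : Finset (Option V)) ∧
      pt t v P (some e) ∈ ({o | o.getD v ∈ Z} : Finset (Option V)) := fun e he =>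
    ⟨(m _).2 ((mv_getD (v := v) (P := P) s e).symm ▸ (b e he).1),
      (m _).2 ((mv_getD (v := v) (P := P) t e).symm ▸ (b e he).2)⟩
  refine ⟨({o | o.getD v ∈ Z} : Finset (Option V)), fun o ho => mem_filter.2 ⟨mem_univ _, a ((m o).1 ho)⟩, ?_⟩
  by_cases q : v ∈ Z
  · refine ⟨insert none (C.image some), ⟨some x, (m _).2 hx⟩, fun o ho => ?_, ?_⟩
    · rcases mem_insert.1 ho with rfl | ho
      · exact ⟨(m none).2 q, (m (some v)).2 q⟩
      · obtain ⟨e, he, rfl⟩ := mem_image.1 ho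
        exact e1 e he
    · rw [card_insert_of_notMem (by simp), card_image_of_injective _ (inj E)]
      refine (card_le_card (t := insert none (Z.image some)) ?_).trans
        ((card_insert_le _ _).trans (by rw [card_image_of_injective _ (inj V)]; omega))
      rintro (_ | y) hy
      · exact mem_insert_self _ _
      · exact mem_insert_of_mem (mem_image_of_mem _ ((m _).1 hy))
  · refine ⟨C.image some, ⟨some x, (m _).2 hx⟩, fun o ho => ?_, ?_⟩
    · obtain ⟨e, he, rfl⟩ := mem_image.1 ho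
      exact e1 e he
    · rw [card_image_of_injective _ (inj E)]
      refine (card_le_card (t := Z.image some) ?_).trans
        (by rw [card_image_of_injective _ (inj V)]; omega)
      rintro (_ | y) hy
      · exact (q ((m _).1 hy)).elim
      · exact mem_image_of_mem _ ((m _).1 hy)

omit [Fintype E] in
theorem no2_pull {v : V} {P : Finset E} (h : No2 (ps s v P) (pt t v P)) : No2 s t :=
  fun X p q => h _ (cy_lift p) ((cy_lift q).mono fun o ho => by simpa using ho)

theorem expand2 (k : ℕ) (hk : ∀ (V E : Type) [Fintype V] [Fintype E] [DecidableEq V]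
    [DecidableEq E] (s t : E → V), (∀ x, dg s t univ x = 3) → CycConn s t k → No2 s t)
    (n : ℕ) : ∀ (V E : Type) [Fintype V] [Fintype E] [DecidableEq V] [DecidableEq E]
    (s t : E → V), 2 * Fintype.card E < 3 * Fintype.card V + n →
    (∀ U, StA s t k (Dk k (4 * k + 1)) U → No2 s t) ∧
      ∀ j l U v O, l + j = 4 * k + 1 → StB s t k (Dk k (4 * k + 1)) l j U v O → No2 s t := by
  have hD : 4 * k + 3 ≤ Dk k (4 * k + 1) := by have := Dk_ge k (4 * k + 1); omega
  induction n with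
  | zero =>
    intro V E _ _ _ _ s t h
    exact ⟨fun U H => by have := ghand H.1.three; omega,
      fun j l U v O _ H => by have := ghand H.bs.three; omega⟩
  | succ n ih =>
  intro V E _ _ _ _ s t h
  have ih' := fun v P => ih (Option V) (Option E) (ps s v P) (pt t v P)
    (by simp only [Fintype.card_option]; omega)
  have a1 : ∀ U, StA s t k (Dk k (4 * k + 1)) U → ∀ v, v ∉ U → 4 ≤ dg s t univ v → No2 s t :=
    fun U H v p q =>
      let ⟨P, r⟩ := H.step hD p q
      no2_pull ((ih' v P).1 _ r)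
  have a2 : ∀ j l U v O, l + j = 4 * k + 1 → StB s t k (Dk k (4 * k + 1)) l j U v O →
      No2 s t := by
    intro j
    induction j with
    | zero =>
      intro l U v O p H
      have := H.deg
      have := Dk_ge k 0
      exact a1 U ⟨H.bs, fun Z C a b c => by have := (H.short Z C a b c).2.1; omega⟩ v H.nv
        (by omega)
    | succ j ij =>
      intro l U v O p H
      rcases O.eq_empty_or_nonempty with rfl | q
      · refine ij (l + 1) U v (Atv s t v) (by omega) ⟨H.bs, H.nv, H.cub, subset_rfl, ?_,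
          fun Z C a b c => ?_⟩
        · have := H.deg
          rw [Dk] at this
          rw [card_Atv H.bs.lp]
          omega
        · obtain ⟨r1, -, r3⟩ := H.short Z C a b c
          refine ⟨r1, r3 (disjoint_empty_right _), fun r => ?_⟩
          have z : dg s t C v = 0 := by
            unfold dg
            rw [filter_eq_empty_iff.2 fun e he (q : s e = v) =>
                disjoint_left.1 r he (mem_filter.2 ⟨mem_univ _, Or.inl q⟩),
              filter_eq_empty_iff.2 fun e he (q : t e = v) =>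
                disjoint_left.1 r he (mem_filter.2 ⟨mem_univ _, Or.inr q⟩)]
            rfl
          exact (notMem_erase v Z (H.short _ _ (a.strip r1 (by omega))
            (card_erase_le.trans_lt b) (c.mono_left (erase_subset _ _))).1).elim
      · obtain ⟨P, r⟩ := H.step hD q
        exact no2_pull ((ih' v P).2 _ _ _ _ _ p r)
  refine ⟨fun U H => ?_, a2⟩
  by_cases c : ∃ v, v ∉ U ∧ 4 ≤ dg s t univ v
  · obtain ⟨v, p, q⟩ := c
    exact a1 U H v p q
  push Not at c
  rcases U.eq_empty_or_nonempty with rfl | ⟨v, hv⟩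
  · exact hk V E s t (fun x => by have := c x (notMem_empty x); have := H.1.three x; omega) H.1.conn
  refine a2 (4 * k + 1) 0 (U.erase v) v ∅ (zero_add _) ⟨⟨H.1.lp, H.1.three, H.1.conn,
    fun u p => H.1.hub u (mem_of_mem_erase p)⟩, notMem_erase _ _,
    fun x p q => by have := c x fun r => p (mem_erase.2 ⟨q, r⟩); omega, empty_subset _,
    by have := H.1.hub v hv; simp only [card_empty, zero_le, inf_of_le_left]; omega,
    fun Z C a b d => ⟨?_, Nat.zero_le _, fun _ => card_pos.2 a.1⟩⟩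
  obtain ⟨u, p, q⟩ := not_disjoint_iff.1 (H.2 Z C a b)
  by_contra hn
  exact disjoint_left.1 d p (mem_erase.2 ⟨fun r => hn (r ▸ p), q⟩)

theorem cubic (k : ℕ) : ∃ (V E : Type) (_ : Fintype V) (_ : Fintype E) (_ : DecidableEq V)
    (_ : DecidableEq E) (s t : E → V), (∀ v, degIn s t univ v = 3) ∧
      (∀ X : Finset V, #{e | ¬ (s e ∈ X ↔ t e ∈ X)} ≠ 1) ∧
      (∀ X : Finset V, HasCycleIn s t X → HasCycleIn s t Xᶜ → k ≤ #{e | ¬ (s e ∈ X ↔ t e ∈ X)}) ∧
      ∃ X : Finset V, HasCycleIn s t X ∧ HasCycleIn s t Xᶜ := by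
  by_contra hn
  have ex := expand2 (k + 2) fun V E _ _ _ _ s t h3 hc X p q => hn ⟨V, E, inferInstance,
    inferInstance, inferInstance, inferInstance, s, t, h3,
    no_one (fun x => (h3 x).ge) fun X p q => le_trans (by omega) (hc X p q),
    fun X p q => le_trans (by omega) (hc X (cy_of_cycle p) (cy_of_cycle q)),
    X, cycle_of_cy p, cycle_of_cy q⟩
  have hD := Dk_ge (k + 2) (4 * (k + 2) + 1)
  generalize Dk (k + 2) (4 * (k + 2) + 1) = D at ex hD
  set s : {p : Fin 4 × Fin 4 // p.1 ≠ p.2} × Fin D → Fin 4 := fun e => e.1.1.1 with hs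
  set t : {p : Fin 4 × Fin 4 // p.1 ≠ p.2} × Fin D → Fin 4 := fun e => e.1.1.2 with ht
  have key : ∀ (a b : Fin 4), a ≠ b → ∀ A : Finset ({p : Fin 4 × Fin 4 // p.1 ≠ p.2} × Fin D),
      (∀ e, s e = a → t e = b → e ∈ A) → D ≤ #A := fun a b hab A hA => by
    have := card_le_card_of_injOn (s := (univ : Finset (Fin D))) (t := A)
      (fun j => (⟨(a, b), hab⟩, j)) (fun j _ => hA _ rfl rfl) fun i _ j _ h => congrArg Prod.snd h
    simpa using this
  have deg : ∀ x, D ≤ dg s t univ x := fun x =>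
    (key x (x + 1) (by revert x; decide) {e | s e = x}
      fun e p _ => mem_filter.2 ⟨mem_univ _, p⟩).trans (Nat.le_add_right _ _)
  have cy : ∀ a b : Fin 4, a ≠ b → Cy s t {a, b} := fun a b hab =>
    ⟨_, subset_rfl, univ.filter fun e => s e = a ∧ t e = b, ⟨a, mem_insert_self _ _⟩, fun e he => by
      simp [(mem_filter.1 he).2.1, (mem_filter.1 he).2.2],
      card_le_two.trans (le_trans (by omega)
        (key a b hab _ fun e p q => mem_filter.2 ⟨mem_univ _, p, q⟩))⟩
  refine (ex (2 * Fintype.card ({p : Fin 4 × Fin 4 // p.1 ≠ p.2} × Fin D) + 1) _ _ s t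
    (by omega)).1 univ ⟨⟨fun e => e.1.2, fun x => le_trans (by omega) (deg x), ?_,
      fun u _ => deg u⟩, fun Z C a _ c => ?_⟩ {0, 1} (cy 0 1 (by decide))
    ((cy 2 3 (by decide)).mono (by decide))
  · rintro X ⟨Z, z1, C, ⟨a, ha⟩, -⟩ ⟨Z', z2, C', ⟨b, hb⟩, -⟩
    have p := z1 ha
    have q := mem_compl.1 (z2 hb)
    exact le_trans (by omega) (key a b (fun c => q (c ▸ p)) _ fun e c d =>
      mem_filter.2 ⟨mem_univ _, fun r => q (d ▸ r.1 (c ▸ p))⟩)
  · obtain ⟨a, ha⟩ := a.1
    exact disjoint_left.1 c ha (mem_univ _)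

end Pool.Agent.P.MP_e59a69_co.Tf
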