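import Pool.Agent.P.MP_e59a69_co.Local

/-! From few bad pairs to a thin pairing of the special vertices. -/

open Finset

namespace Pool.Agent.P.MP_e59a69_co

variable {V : Type} [Fintype V] [DecidableEq V]

omit [Fintype V] in
lemma invol_card (g : V → V) (T X : Finset V) (hg : ∀ t ∈ T, g t ∈ T ∧ g (g t) = t) :
    #{t ∈ T | t ∉ X ∧ g t ∈ X} = #{t ∈ T | t ∈ X ∧ g t ∉ X} := by
  refine card_bij' (fun t _ => g t) (fun t _ => g t) (fun t ht => ?_) (fun t ht => ?_)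
    (fun t ht => (hg t (mem_filter.1 ht).1).2) (fun t ht => (hg t (mem_filter.1 ht).1).2)
  · simp only [mem_filter] at ht ⊢
    rw [(hg t ht.1).2]
    exact ⟨(hg t ht.1).1, ht.2.2, ht.2.1⟩
  · simp only [mem_filter] at ht ⊢
    rw [(hg t ht.1).2]
    exact ⟨(hg t ht.1).1, ht.2.2, ht.2.1⟩

lemma fc_compl (π : Equiv.Perm V) (X : Finset V) : fc π Xᶜ = fc π X := by
  unfold fc
  congr 1
  refine filter_congr fun v _ => ?_
  simp only [mem_compl]; tauto

lemma mc_eq (μ : Equiv.Perm V) (X : Finset V) : mc μ X = #{v | v ∈ X ∧ μ v ∉ X} := by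
  unfold mc
  congr 1
  ext v; simp

lemma mc_compl {μ : Equiv.Perm V} (hμ : ∀ v, μ (μ v) = v) (X : Finset V) : mc μ Xᶜ = mc μ X := by
  rw [mc_eq, mc_eq, ← invol_card μ univ X fun t _ => ⟨mem_univ _, hμ t⟩]
  congr 1
  refine filter_congr fun v _ => ?_
  simp only [mem_compl, not_not]

lemma om_compl (π μ : Equiv.Perm V) (X : Finset V) (v : V) : om π μ Xᶜ v = om π μ X v := by
  unfold om
  simp only [mem_compl, not_iff_not]

lemma card_mucut {μ : Equiv.Perm V} (hμ : ∀ v, μ (μ v) = v) (X : Finset V) :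
    #{v | ¬ (v ∈ X ↔ μ v ∈ X)} = 2 * mc μ X := by
  have h := invol_card μ univ X fun t _ => ⟨mem_univ _, hμ t⟩
  rw [mc_eq, two_mul]
  nth_rewrite 1 [← h]
  rw [← card_union_of_disjoint]
  · congr 1
    ext v
    simp only [mem_filter, mem_univ, true_and, mem_union]; tauto
  · exact Finset.disjoint_left.2 fun v h1 h2 => (mem_filter.1 h1).2.1 (mem_filter.1 h2).2.1

lemma sum_om_univ (π : Equiv.Perm V) {μ : Equiv.Perm V} (hμ : ∀ v, μ (μ v) = v) (X : Finset V) :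
    ∑ v, om π μ X v = 2 * (fc π X + mc μ X) := by
  rw [sum_om, card_mucut hμ, fc]; ring

/-- pairs split by a cut -/
def dQ (S : Finset V) (Q : V → V) (X : Finset V) : ℕ := #{s ∈ S | s ∈ X ∧ Q s ∉ X}

/-- special vertices with a light edge in the cut -/
def lam (π : Equiv.Perm V) (S X : Finset V) : ℕ :=
  #{s ∈ S | ¬ (s ∈ X ↔ (π ^ (1 : ℤ)) s ∈ X) ∨ ¬ (s ∈ X ↔ (π ^ (-1 : ℤ)) s ∈ X)}

variable {π μ : Equiv.Perm V} {c : ℕ}

omit [Fintype V] in
lemma pow_mem_Sys {L : ℕ} (s : V) {t : ℤ} (h1 : -L ≤ t) (h2 : t ≤ L) :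
    (π ^ t) s ∈ Sys π μ L s :=
  Iv_sub_Sys (j := 3) (by omega) le_rfl le_rfl le_rfl (mem_Iv.2 ⟨t, h1, h2, by rw [Cen_three]⟩)

lemma toggle (H : Hyp π μ c) {L : ℕ} (hL2 : 2 ≤ L) (hL : 2 * L + 10 ≤ c) (S : Finset V) (Q : V → V)
    (hdis : ∀ s ∈ S, ∀ s' ∈ S, s ≠ s' → Disjoint (Sys π μ L s) (Sys π μ L s'))
    (X : Finset V) (s : V) (hs : s ∈ S)
    (h0 : s ∈ X) (h1 : (π ^ (1 : ℤ)) s ∈ X) (h1' : (π ^ (-1 : ℤ)) s ∈ X)
    (hiso : ¬ ((π ^ (2 : ℤ)) s ∈ X ∨ (π ^ (-2 : ℤ)) s ∈ X ∨ μ ((π ^ (-1 : ℤ)) s) ∈ X ∨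
      μ ((π ^ (0 : ℤ)) s) ∈ X ∨ μ ((π ^ (1 : ℤ)) s) ∈ X)) :
    ∃ Y : Finset V, fc π Y + mc μ Y + 5 ≤ fc π X + mc μ X ∧ lam π S Y ≤ lam π S X ∧
      dQ S Q X ≤ dQ S Q Y + 1 := by
  push Not at hiso
  obtain ⟨i1, i2, i3, i4, i5⟩ := hiso
  let T := Iv π s (-1) 1
  have hT : ∀ v, v ∈ T ↔ v = (π ^ (-1 : ℤ)) s ∨ v = (π ^ (0 : ℤ)) s ∨ v = (π ^ (1 : ℤ)) s := by
    intro v
    rw [mem_Iv]
    constructor
    · rintro ⟨t, t1, t2, rfl⟩
      have : t = -1 ∨ t = 0 ∨ t = 1 := by omega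
      rcases this with rfl | rfl | rfl <;> simp
    · rintro (rfl | rfl | rfl)
      · exact ⟨-1, by omega, by omega, rfl⟩
      · exact ⟨0, by omega, by omega, rfl⟩
      · exact ⟨1, by omega, by omega, rfl⟩
  have hTc : #T = 3 := by rw [H.card_Iv _ (by omega)]; rfl
  have hTX : ∀ v ∈ T, v ∈ X ∧ μ v ∉ X := by
    intro v hv
    rcases (hT v).1 hv with rfl | rfl | rfl
    · exact ⟨h1', i3⟩
    · exact ⟨by simpa using h0, i4⟩
    · exact ⟨h1, i5⟩
  have hTS : T ⊆ Sys π μ L s := fun v hv => by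
    obtain ⟨t, t1, t2, rfl⟩ := mem_Iv.1 hv
    exact pow_mem_Sys s (by omega) (by omega)
  have hoth : ∀ s' ∈ S, s' ≠ s → ∀ t : ℤ, -1 ≤ t → t ≤ 1 → (π ^ t) s' ∉ T :=
    fun s' hs' hne t t1 t2 h => Finset.disjoint_left.1 (hdis s' hs' s hs hne)
      (pow_mem_Sys s' (by omega) (by omega)) (hTS h)
  refine ⟨X \ T, ?_, ?_, ?_⟩
  · have a1 : fc π (X \ T) + 2 ≤ fc π X := by
      have hne : (π ^ (1 : ℤ)) s ≠ (π ^ (-2 : ℤ)) s := fun e => i2 (e ▸ h1)
      have e1 : π ((π ^ (1 : ℤ)) s) = (π ^ (2 : ℤ)) s := zp_succ _ _ _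
      have e2 : π ((π ^ (-2 : ℤ)) s) = (π ^ (-1 : ℤ)) s := zp_succ _ _ _
      have hin : ∀ v, v ∈ T → π v ∉ X \ T := by
        intro v hv h
        rw [mem_sdiff] at h
        obtain ⟨t, t1, t2, rfl⟩ := mem_Iv.1 hv
        rw [zp_succ] at h
        by_cases ht : t = 1
        · subst ht; exact i1 h.1
        · exact h.2 (mem_Iv.2 ⟨t + 1, by omega, by omega, rfl⟩)
      have hin' : ∀ v, π v ∈ T → v ∉ X \ T := by
        intro v hv h
        rw [mem_sdiff] at h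
        obtain ⟨t, t1, t2, e⟩ := mem_Iv.1 hv
        have e3 : (π ^ (t - 1)) s = v := by
          apply π.injective
          rw [zp_succ, sub_add_cancel, e]
        by_cases ht : t = -1
        · subst ht; exact i2 (by rw [← e3] at h; exact h.1)
        · exact h.2 (mem_Iv.2 ⟨t - 1, by omega, by omega, e3⟩)
      rw [← card_pair hne]
      unfold fc
      rw [← card_union_of_disjoint]
      · refine card_le_card fun v hv => ?_
        simp only [mem_union, mem_filter, mem_univ, true_and, mem_insert, mem_singleton] at hv ⊢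
        rcases hv with hv | rfl | rfl
        · have p1 : v ∉ T := fun h => hv (iff_of_false (fun h2 => (mem_sdiff.1 h2).2 h) (hin v h))
          have p2 : π v ∉ T := fun h =>
            hv (iff_of_false (hin' v h) (fun h2 => (mem_sdiff.1 h2).2 h))
          simpa only [mem_sdiff, p1, p2, not_false_eq_true, and_true] using hv
        · rw [e1]; exact fun h => i1 (h.1 h1)
        · rw [e2]; exact fun h => i2 (h.2 h1')
      · refine Finset.disjoint_left.2 fun v p1 p2 => ?_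
        simp only [mem_filter, mem_univ, true_and, mem_insert, mem_singleton] at p1 p2
        apply p1
        rcases p2 with rfl | rfl
        · have := (hT _).2 (Or.inr (Or.inr rfl))
          exact iff_of_false (fun h2 => (mem_sdiff.1 h2).2 this) (hin _ this)
        · have := (hT _).2 (Or.inl rfl)
          rw [← e2] at this
          exact iff_of_false (hin' _ this) (fun h2 => (mem_sdiff.1 h2).2 this)
    have a2 : mc μ (X \ T) + 3 ≤ mc μ X := by
      rw [← hTc]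
      unfold mc
      rw [← card_union_of_disjoint]
      · refine card_le_card fun v hv => ?_
        simp only [mem_union, mem_filter, mem_sdiff] at hv ⊢
        rcases hv with hv | hv
        · refine ⟨hv.1.1, fun h => hv.2 ⟨h, fun h2 => ?_⟩⟩
          have := (hTX _ h2).2
          rw [H.inv] at this
          exact this hv.1.1
        · exact hTX v hv
      · exact Finset.disjoint_left.2 fun v p1 p2 => (mem_sdiff.1 (mem_filter.1 p1).1).2 p2
    omega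
  · refine card_le_card fun s' hs' => ?_
    simp only [mem_filter, mem_sdiff] at hs' ⊢
    refine ⟨hs'.1, ?_⟩
    by_cases hne : s' = s
    · exfalso
      subst hne
      have p1 := (hT _).2 (Or.inl rfl)
      have p2 := (hT _).2 (Or.inr (Or.inl rfl))
      have p3 := (hT _).2 (Or.inr (Or.inr rfl))
      rw [zpow_zero, Equiv.Perm.one_apply] at p2
      have := hs'.2
      simp only [p1, p2, p3, not_true, and_false, or_self] at this
    · have p1 := hoth s' hs'.1 hne (-1) (by omega) (by omega)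
      have p2 := hoth s' hs'.1 hne 0 (by omega) (by omega)
      have p3 := hoth s' hs'.1 hne 1 (by omega) (by omega)
      rw [zpow_zero, Equiv.Perm.one_apply] at p2
      have := hs'.2
      simpa only [p1, p2, p3, not_false_eq_true, and_true] using this
  · refine le_trans (card_le_card (t := insert s _) fun s' hs' => ?_) (card_insert_le _ _)
    simp only [mem_filter, mem_sdiff, mem_insert] at hs' ⊢
    by_cases hne : s' = s
    · exact Or.inl hne
    · have p2 := hoth s' hs'.1 hne 0 (by omega) (by omega)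
      rw [zpow_zero, Equiv.Perm.one_apply] at p2
      exact Or.inr ⟨hs'.1, ⟨hs'.2.1, p2⟩, fun h => hs'.2.2 h.1⟩

theorem thin (H : Hyp π μ c) {L : ℕ} (hL2 : 2 ≤ L) (hL : 2 * L + 10 ≤ c) (S : Finset V)
    (Q : V → V) (hQ : ∀ t ∈ S, Q t ∈ S ∧ Q (Q t) = t)
    (hdis : ∀ s ∈ S, ∀ s' ∈ S, s ≠ s' → Disjoint (Sys π μ L s) (Sys π μ L s'))
    (hbad : ∀ (X B : Finset V) (A A' : V → Finset V), B ⊆ S →
      (∀ s ∈ B, s ∈ X ∧ Q s ∉ X ∧ (A s ⊆ Sys π μ L s ∧ #(A s) = L ∧ A s ⊆ X) ∧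
        (A' s ⊆ Sys π μ L (Q s) ∧ #(A' s) = L ∧ A' s ⊆ Xᶜ)) → 30 * #B ≤ fc π X + mc μ X)
    (X : Finset V) : 5 * dQ S Q X ≤ fc π X + mc μ X + 5 * lam π S X := by
  classical
  have hlamc : ∀ X, lam π S Xᶜ = lam π S X := fun X => by
    unfold lam
    simp only [mem_compl, not_iff_not]
  have hdQc : ∀ X, dQ S Q Xᶜ = dQ S Q X := fun X => by
    unfold dQ
    rw [← invol_card Q S X hQ]
    simp only [mem_compl, not_not]
  induction h : fc π X + mc μ X using Nat.strong_induction_on generalizing X with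
  | _ n ih =>
  let iso : Finset V → V → Prop := fun X s => s ∈ X ∧ (π ^ (1 : ℤ)) s ∈ X ∧ (π ^ (-1 : ℤ)) s ∈ X ∧
    ¬ ((π ^ (2 : ℤ)) s ∈ X ∨ (π ^ (-2 : ℤ)) s ∈ X ∨ μ ((π ^ (-1 : ℤ)) s) ∈ X ∨
      μ ((π ^ (0 : ℤ)) s) ∈ X ∨ μ ((π ^ (1 : ℤ)) s) ∈ X)
  by_cases c1 : ∃ s ∈ S, iso X s
  · obtain ⟨s, hs, p1, p2, p3, p4⟩ := c1
    obtain ⟨Y, y1, y2, y3⟩ := toggle H hL2 hL S Q hdis X s hs p1 p2 p3 p4
    have := ih _ (by omega) Y rfl
    omega
  by_cases c2 : ∃ s ∈ S, iso Xᶜ s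
  · obtain ⟨s, hs, p1, p2, p3, p4⟩ := c2
    obtain ⟨Y, y1, y2, y3⟩ := toggle H hL2 hL S Q hdis Xᶜ s hs p1 p2 p3 p4
    rw [fc_compl, mc_compl H.inv] at y1
    rw [hlamc] at y2
    rw [hdQc] at y3
    have := ih _ (by omega) Y rfl
    omega
  let lt : V → Prop := fun s =>
    ¬ (s ∈ X ↔ (π ^ (1 : ℤ)) s ∈ X) ∨ ¬ (s ∈ X ↔ (π ^ (-1 : ℤ)) s ∈ X)
  let big : V → Prop := fun s => 12 ≤ ∑ v ∈ Sys π μ L s, om π μ X v
  let B : Finset V := {s ∈ S | s ∈ X ∧ Q s ∉ X ∧ ¬ (lt s ∨ big s) ∧ ¬ (lt (Q s) ∨ big (Q s))}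
  have hA : ∀ s, ∃ A, s ∈ B → A ⊆ Sys π μ L s ∧ #A = L ∧ A ⊆ X := by
    intro s
    by_cases hs : s ∈ B
    · simp only [B, mem_filter, lt, big] at hs
      obtain ⟨p0, p1, -, p2, -⟩ := hs
      push Not at p2
      obtain ⟨A, hA⟩ := H.loc hL2 hL X s p1 (p2.1.1.1 p1) (p2.1.2.1 p1)
        (by
          by_contra hc
          exact c1 ⟨s, p0, p1, p2.1.1.1 p1, p2.1.2.1 p1, hc⟩) p2.2
      exact ⟨A, fun _ => hA⟩
    · exact ⟨∅, fun h => absurd h hs⟩
  have hA' : ∀ s, ∃ A, s ∈ B → A ⊆ Sys π μ L (Q s) ∧ #A = L ∧ A ⊆ Xᶜ := by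
    intro s
    by_cases hs : s ∈ B
    · simp only [B, mem_filter, lt, big] at hs
      obtain ⟨p0, -, p1, -, p2⟩ := hs
      push Not at p2
      have q1 : Q s ∈ Xᶜ := mem_compl.2 p1
      have q2 : (π ^ (1 : ℤ)) (Q s) ∈ Xᶜ := mem_compl.2 fun h => p1 (p2.1.1.2 h)
      have q3 : (π ^ (-1 : ℤ)) (Q s) ∈ Xᶜ := mem_compl.2 fun h => p1 (p2.1.2.2 h)
      obtain ⟨A, hA⟩ := H.loc hL2 hL Xᶜ (Q s) q1 q2 q3
        (by
          by_contra hc
          exact c2 ⟨Q s, (hQ s p0).1, q1, q2, q3, hc⟩) (by simp only [om_compl]; exact p2.2)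
      exact ⟨A, fun _ => hA⟩
    · exact ⟨∅, fun h => absurd h hs⟩
  choose A hA using hA
  choose A' hA' using hA'
  have e1 := hbad X B A A' (filter_subset _ _) fun s hs =>
    ⟨(mem_filter.1 hs).2.1, (mem_filter.1 hs).2.2.1, hA s hs, hA' s hs⟩
  have e2 : 12 * #{s ∈ S | big s} ≤ 2 * (fc π X + mc μ X) := by
    rw [← sum_om_univ π H.inv]
    have f1 : ∑ s ∈ S with big s, 12 ≤ ∑ s ∈ S with big s, ∑ v ∈ Sys π μ L s, om π μ X v :=
      Finset.sum_le_sum fun s hs => (mem_filter.1 hs).2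
    rw [← Finset.sum_biUnion] at f1
    · rw [Finset.sum_const, smul_eq_mul, mul_comm] at f1
      exact f1.trans (Finset.sum_le_sum_of_subset (subset_univ _))
    · intro s hs s' hs' hne
      exact hdis s (mem_filter.1 hs).1 s' (mem_filter.1 hs').1 hne
  have e3 : dQ S Q X ≤ #B + #{s ∈ S | lt s ∨ big s} := by
    let P : V → Prop := fun s => lt s ∨ big s
    have f1 : dQ S Q X ≤ #B + #{s ∈ S | s ∈ X ∧ Q s ∉ X ∧ (P s ∨ P (Q s))} := by
      refine le_trans (card_le_card fun s hs => ?_) (card_union_le _ _)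
      rw [mem_filter] at hs
      by_cases hp : P s ∨ P (Q s)
      · exact mem_union_right _ (mem_filter.2 ⟨hs.1, hs.2.1, hs.2.2, hp⟩)
      · exact mem_union_left _ (mem_filter.2 ⟨hs.1, hs.2.1, hs.2.2, fun h => hp (Or.inl h),
          fun h => hp (Or.inr h)⟩)
    have f2 : #{s ∈ S | s ∈ X ∧ Q s ∉ X ∧ (P s ∨ P (Q s))} ≤ #{s ∈ S | P s} := by
      refine card_le_card_of_injOn (fun s => if P s then s else Q s) (fun s hs => ?_)
        (fun s hs s' hs' e => ?_)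
      · simp only [coe_filter, Set.mem_ofPred_eq] at hs ⊢
        split_ifs with hp
        · exact ⟨hs.1, hp⟩
        · exact ⟨(hQ s hs.1).1, hs.2.2.2.resolve_left hp⟩
      · simp only [coe_filter, Set.mem_ofPred_eq] at hs hs' e
        split_ifs at e
        · exact e
        · exact absurd (e ▸ hs.2.1) hs'.2.2.1
        · exact absurd (e ▸ hs'.2.1) hs.2.2.1
        · rw [← (hQ s hs.1).2, e, (hQ s' hs'.1).2]
    exact f1.trans (Nat.add_le_add_left f2 _)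
  have e4 : #{s ∈ S | lt s ∨ big s} ≤ lam π S X + #{s ∈ S | big s} := by
    rw [filter_or]; exact card_union_le _ _
  omega

end Pool.Agent.P.MP_e59a69_co
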