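import Pool.Agent.P.MP_e59a69_co.UDefs
import Pool.Agent.P.MP_e59a69_co.LList

open Finset

namespace Pool.Agent.P.MP_e59a69_co

variable {N ι E : Type} [DecidableEq N] [DecidableEq ι] [DecidableEq E]

omit [DecidableEq ι] [DecidableEq E] in
lemma rep_UBlock (X : Finset N) (v : N) (r s : List N) (h : ∀ w ∈ r, w = v) :
    chg X (v :: (r ++ s)) = chg X (v :: s) := by
  induction r with
  | nil => rfl
  | cons w r ih =>
    obtain rfl : w = v := h w List.mem_cons_self
    rw [List.cons_append, chg_cons_cons, if_pos Iff.rfl, zero_add]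
    exact ih fun u hu => h u (List.mem_cons_of_mem _ hu)

omit [DecidableEq ι] [DecidableEq E] in
lemma flat_UBlock (X : Finset N) (f : N → List N) (h : ∀ v, ∀ w ∈ f v, w = v) (l : List N) (a : N) :
    chg X (a :: l.flatMap f) ≤ chg X (a :: l) := by
  induction l generalizing a with
  | nil => exact le_rfl
  | cons v l ih =>
    rw [List.flatMap_cons]
    refine (tri_LList X a v _).trans ?_
    rw [chg_cons_cons, chg_cons_cons, rep_UBlock X v _ _ (h v)]
    exact Nat.add_le_add_left (ih v) _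

omit [DecidableEq ι] [DecidableEq E] in
lemma flat'_UBlock (X : Finset N) (f : N → List N) (h : ∀ v, ∀ w ∈ f v, w = v) (l : List N) :
    chg X (l.flatMap f) ≤ chg X l := by
  cases l with
  | nil => exact le_rfl
  | cons v l =>
    rw [List.flatMap_cons]
    refine (cons_LList X v _).trans ?_
    rw [rep_UBlock X v _ _ (h v)]
    exact flat_UBlock X f h l v

omit [DecidableEq ι] in
lemma pc_union_UBlock (en : E → N) (F F' : Finset (E × E)) (X : Finset N) :
    pc en (F ∪ F') X ≤ pc en F X + pc en F' X := by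
  unfold pc
  rw [filter_union]
  exact card_union_le _ _

omit [DecidableEq ι] in
lemma union_UBlock {B B₁ B₂ : Finset E} {col : E → ι} {F F' : Finset (E × E)} (h : Prs B₁ col F)
    (h' : Prs B₂ col F') (h₁ : B₁ ⊆ B) (h₂ : B₂ ⊆ B)
    (hd : ∀ p ∈ F, p.1 ∉ B₂ ∧ p.2 ∉ B₂) : Prs B col (F ∪ F') ∧ #(F ∪ F') = #F + #F' := by
  refine ⟨⟨fun p hp => ?_, fun p hp p' hp' => ?_⟩, card_union_of_disjoint ?_⟩
  · rcases mem_union.1 hp with hp | hp
    · exact ⟨h₁ (h.mem p hp).1, h₁ (h.mem p hp).2.1, (h.mem p hp).2.2⟩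
    · exact ⟨h₂ (h'.mem p hp).1, h₂ (h'.mem p hp).2.1, (h'.mem p hp).2.2⟩
  · rcases mem_union.1 hp with hp | hp <;> rcases mem_union.1 hp' with hp' | hp'
    · exact h.dis p hp p' hp'
    · exact ⟨fun e => (hd p hp).1 (e ▸ (h'.mem p' hp').2.1),
        fun e => ((hd p hp).1 (e ▸ (h'.mem p' hp').1)).elim,
        fun e => ((hd p hp).2 (e ▸ (h'.mem p' hp').2.1)).elim⟩
    · exact ⟨fun e => (hd p' hp').2 (e ▸ (h'.mem p hp).1),
        fun e => ((hd p' hp').1 (e ▸ (h'.mem p hp).1)).elim,
        fun e => ((hd p' hp').2 (e ▸ (h'.mem p hp).2.1)).elim⟩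
    · exact h'.dis p hp p' hp'
  · exact disjoint_left.2 fun p hp hp' => (hd p hp).1 (h'.mem p hp').1

lemma list_UBlock (B : Finset E) (en : E → N) (col : E → ι) (κ : ℕ) (hκ : 1 ≤ κ)
    (hcol : ∀ c, #{e ∈ B | col e = c} < κ) (n : ℕ) (m : List E) (hm : m.Nodup)
    (hB : ∀ e ∈ m, e ∈ B) (hn : n * κ ≤ m.length) :
    ∃ F : Finset (E × E), Prs m.toFinset col F ∧ #F = n ∧ ∀ X, pc en F X ≤ chg X (m.map en) := by
  induction n generalizing m with
  | zero => exact ⟨∅, ⟨by simp, by simp⟩, rfl, fun X => Nat.zero_le _⟩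
  | succ n ih =>
    rw [Nat.succ_mul] at hn
    have hlen : (m.take κ).length = κ := by rw [List.length_take]; omega
    obtain ⟨a, r, har⟩ : ∃ a r, m.take κ = a :: r :=
      List.exists_cons_of_length_pos (by omega)
    have hsub : (a :: r).Sublist m := har ▸ List.take_sublist κ m
    obtain ⟨b, hb, hab⟩ : ∃ b ∈ r, col a ≠ col b := by
      by_contra hno
      push Not at hno
      have h1 : (a :: r).toFinset ⊆ {e ∈ B | col e = col a} := by
        intro e he
        rw [List.mem_toFinset] at he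
        refine mem_filter.2 ⟨hB e (hsub.subset he), ?_⟩
        rcases List.mem_cons.1 he with rfl | he
        · rfl
        · exact (hno e he).symm
      have h2 := card_le_card h1
      rw [List.toFinset_card_of_nodup (hm.sublist hsub), ← har, hlen] at h2
      exact absurd (hcol (col a)) (not_lt.2 h2)
    have hs : (a :: b :: m.drop κ).Sublist m := by
      conv_rhs => rw [← List.take_append_drop κ m, har]
      exact List.Sublist.cons_cons a
        (List.Sublist.append_right (List.singleton_sublist.2 hb) (m.drop κ))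
    have hnd := hm.sublist hs
    rw [List.nodup_cons, List.nodup_cons, List.mem_cons, not_or] at hnd
    obtain ⟨F, hF, hc, hp⟩ := ih (m.drop κ) hnd.2.2
      (fun e he => hB e (List.mem_of_mem_drop he)) (by rw [List.length_drop]; omega)
    have h1 : Prs m.toFinset col {(a, b)} := by
      refine ⟨fun p hp => ?_, fun p hp p' hp' => ?_⟩
      · obtain rfl := mem_singleton.1 hp
        exact ⟨List.mem_toFinset.2 (hs.subset List.mem_cons_self),
          List.mem_toFinset.2 (hs.subset (List.mem_cons_of_mem _ List.mem_cons_self)), hab⟩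
      · obtain rfl := mem_singleton.1 hp
        obtain rfl := mem_singleton.1 hp'
        exact ⟨hnd.1.1, fun _ => rfl, fun _ => rfl⟩
    obtain ⟨h2, h3⟩ := union_UBlock h1 hF (Subset.refl _)
      (fun e he => List.mem_toFinset.2 (List.mem_of_mem_drop (List.mem_toFinset.1 he))) (by
        intro p hp
        obtain rfl := mem_singleton.1 hp
        exact ⟨fun h => hnd.1.2 (List.mem_toFinset.1 h), fun h => hnd.2.1 (List.mem_toFinset.1 h)⟩)
    refine ⟨_, h2, by rw [h3, hc, card_singleton, add_comm], fun X => ?_⟩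
    refine (pc_union_UBlock en _ _ X).trans (le_trans ?_ (chg_sublist X (hs.map en)))
    rw [List.map_cons, List.map_cons, chg_cons_cons]
    refine Nat.add_le_add ?_ ((hp X).trans (cons_LList X _ _))
    unfold pc
    rw [filter_singleton]
    by_cases h : (en a ∈ X ↔ en b ∈ X)
    · rw [if_neg (not_not.2 h), card_empty]
      exact Nat.zero_le _
    · rw [if_pos h, if_neg h, card_singleton]

/-- one round: pairs in consecutive blocks of an order -/
theorem block_pairs (l : List N) (hl : l.Nodup) (B : Finset E) (en : E → N) (col : E → ι)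
    (hen : ∀ e ∈ B, en e ∈ l) (κ n : ℕ) (hκ : 1 ≤ κ) (hcol : ∀ c, #{e ∈ B | col e = c} < κ)
    (hB : n * κ ≤ #B) :
    ∃ F : Finset (E × E), Prs B col F ∧ #F = n ∧ ∀ X, pc en F X ≤ chg X l := by
  obtain ⟨m, hm⟩ : ∃ m, m = l.flatMap fun v => ({e ∈ B | en e = v} : Finset E).toList := ⟨_, rfl⟩
  have hmem : ∀ e, e ∈ m ↔ e ∈ B := by
    intro e
    rw [hm, List.mem_flatMap]
    constructor
    · rintro ⟨v, -, he⟩
      exact (mem_filter.1 (mem_toList.1 he)).1
    · exact fun he => ⟨en e, hen e he, mem_toList.2 (mem_filter.2 ⟨he, rfl⟩)⟩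
  have hfin : m.dedup.toFinset = B := by
    ext e
    rw [List.mem_toFinset, List.mem_dedup, hmem]
  obtain ⟨F, hF, hc, hp⟩ := list_UBlock B en col κ hκ hcol n m.dedup m.nodup_dedup
    (fun e he => (hmem e).1 (List.mem_dedup.1 he))
    (by rwa [← List.toFinset_card_of_nodup m.nodup_dedup, hfin])
  refine ⟨F, hfin ▸ hF, hc, fun X => (hp X).trans
    ((chg_sublist X (m.dedup_sublist.map en)).trans ?_)⟩
  rw [hm, List.map_flatMap]
  refine flat'_UBlock X _ (fun v w hw => ?_) l
  obtain ⟨e, he, rfl⟩ := List.mem_map.1 hw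
  exact (mem_filter.1 (mem_toList.1 he)).2

/-- many rounds -/
theorem round_pairs (l : ℕ → List N) (B : Finset E) (en : E → N) (col : E → ι) (κ n m : ℕ)
    (hl : ∀ i < m, (l i).Nodup ∧ ∀ e ∈ B, en e ∈ l i) (hκ : 1 ≤ κ)
    (hcol : ∀ c, #{e ∈ B | col e = c} < κ) (hB : n * κ + 2 * (n * m) ≤ #B) :
    ∃ F : Finset (E × E), Prs B col F ∧ #F = n * m ∧
      ∀ X, pc en F X ≤ ∑ i ∈ range m, chg X (l i) := by
  induction m with
  | zero => exact ⟨∅, ⟨by simp, by simp⟩, rfl, fun X => Nat.zero_le _⟩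
  | succ m ih =>
    rw [Nat.mul_succ] at hB
    obtain ⟨F, hF, hc, hp⟩ := ih (fun i hi => hl i (by omega)) (by omega)
    have h1 : #(F.image Prod.fst ∪ F.image Prod.snd) ≤ 2 * (n * m) := by
      have a1 := card_union_le (F.image Prod.fst) (F.image Prod.snd)
      have a2 : #(F.image Prod.fst) ≤ #F := card_image_le
      have a3 : #(F.image Prod.snd) ≤ #F := card_image_le
      omega
    have h2 := le_card_sdiff (F.image Prod.fst ∪ F.image Prod.snd) B
    obtain ⟨F', hF', hc', hp'⟩ := block_pairs (l m) (hl m (by omega)).1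
      (B \ (F.image Prod.fst ∪ F.image Prod.snd)) en col
      (fun e he => (hl m (by omega)).2 e (mem_sdiff.1 he).1) κ n hκ
      (fun c => (card_le_card (filter_subset_filter _ sdiff_subset)).trans_lt (hcol c)) (by omega)
    obtain ⟨h3, h4⟩ := union_UBlock hF hF' (Subset.refl _) sdiff_subset fun p hp =>
      ⟨fun h => (mem_sdiff.1 h).2 (mem_union_left _ (mem_image_of_mem _ hp)),
        fun h => (mem_sdiff.1 h).2 (mem_union_right _ (mem_image_of_mem _ hp))⟩
    refine ⟨_, h3, by rw [h4, hc, hc', Nat.mul_succ], fun X => ?_⟩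
    rw [sum_range_succ]
    exact (pc_union_UBlock en _ _ X).trans (Nat.add_le_add (hp X) (hp' X))

end Pool.Agent.P.MP_e59a69_co
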