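import Pool.Agent.P.MP_e59a69_co.UDefs

open Finset

namespace Pool.Agent.P.MP_e59a69_co

variable {N ι E : Type} [DecidableEq N] [DecidableEq ι] [DecidableEq E]

lemma ct_union_ULift (s t : E → N) {A B : Finset E} (h : Disjoint A B) (X : Finset N) :
    ct s t (A ∪ B) X = ct s t A X + ct s t B X := by
  unfold ct
  rw [filter_union, card_union_of_disjoint (disjoint_filter_filter h)]

omit [DecidableEq E] in
lemma ct_mono_ULift (s t : E → N) {A B : Finset E} (h : A ⊆ B) (X : Finset N) :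
    ct s t A X ≤ ct s t B X := card_le_card (filter_subset_filter _ h)

omit [DecidableEq E] in
lemma ins_erase_ULift {K b : ℕ} {s t : E → ι} {A : Finset E} {U : Finset ι} (h : St K b s t A U)
    {a : ι} (hout : ∀ e ∈ A, t e ≠ a) : ins s t A (U.erase a) = {e ∈ A | s e ≠ a} :=
  filter_congr fun e he => by
    simp [mem_erase, (h.ends e he).1, (h.ends e he).2, hout e he]

omit [DecidableEq E] in
lemma count_ULift {K b : ℕ} {s t : E → ι} {A : Finset E} {U : Finset ι} (h : St K b s t A U)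
    {a : ι} (ha : a ∈ U) :
    K * #(U.erase a) ≤ #{e ∈ A | s e = a} + #{e ∈ A | s e ≠ a} + b := by
  have h1 := h.two
  have h2 : #{e ∈ A | s e = a} + #{e ∈ A | s e ≠ a} = #A := card_filter_add_card_filter_not _
  rw [← card_erase_add_one ha, Nat.mul_succ] at h1
  omega

lemma ct_image_ULift (s t : E → N) (Q : Finset (E × E)) (g : E × E → E)
    (hg : ∀ p ∈ Q, ∀ p' ∈ Q, g p = g p' → p = p') (X : Finset N) :
    ct s t (Q.image g) X = #{p ∈ Q | ¬ (s (g p) ∈ X ↔ t (g p) ∈ X)} := by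
  unfold ct
  rw [filter_image, card_image_of_injOn fun p hp p' hp' e =>
    hg p (mem_filter.1 hp).1 p' (mem_filter.1 hp').1 e]

/-- the lifting step; all edges at the unit `a` leave it -/
theorem lift_state {K b κ : ℕ} (hK : 2 * b + κ ≤ K) (f : N → ι) (s t : E → N) (A : Finset E)
    (U : Finset ι) (h : St K b (fun e => f (s e)) (fun e => f (t e)) A U) {a : ι} (ha : a ∈ U)
    (hout : ∀ e ∈ A, f (t e) ≠ a) (hlo : #{e ∈ A | f (s e) = a} ≤ K + b)
    (hnt : ∀ S ⊆ U.erase a, 2 ≤ #S →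
      #(ins (fun e => f (s e)) (fun e => f (t e)) A S) + b + K < K * #S)
    (h3 : 3 ≤ #U) (Q : Finset (E × E)) (hQ : Prs {e ∈ A | f (s e) = a} (fun e => f (t e)) Q)
    (hc : #Q = b) :
    ∃ (s' : E → N) (A' Γ : Finset E), St K b (fun e => f (s' e)) (fun e => f (t e)) A' (U.erase a) ∧
      Γ ⊆ {e ∈ A | f (s e) = a} ∧ #Γ = κ ∧ ∀ X : Finset N, ∃ z ≤ pc s Q X,
        ct s' t A' X + ct s t Γ X ≤ ct s t A X + z ∧
        (z = 0 ∨ ∃ v w, f v ∈ U.erase a ∧ f w ∈ U.erase a ∧ v ∈ X ∧ w ∉ X) := by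
  classical
  have hE := ins_erase_ULift h hout
  have c1 := count_ULift h ha
  have c2 := hnt _ Subset.rfl (by rw [card_erase_of_mem ha]; omega)
  rw [hE] at c2
  obtain ⟨B, hB⟩ : ∃ B : Finset E, B = {e ∈ A | f (s e) = a} := ⟨_, rfl⟩
  obtain ⟨A0, hA0⟩ : ∃ A0 : Finset E, A0 = {e ∈ A | f (s e) ≠ a} := ⟨_, rfl⟩
  rw [← hB] at hlo hQ c1 ⊢
  rw [← hA0] at c1 c2 hE
  have mB : ∀ e, e ∈ B ↔ e ∈ A ∧ f (s e) = a := fun e => by rw [hB, mem_filter]
  have mA : ∀ e, e ∈ A0 ↔ e ∈ A ∧ f (s e) ≠ a := fun e => by rw [hA0, mem_filter]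
  obtain ⟨y, hy⟩ : ∃ y, K * #(U.erase a) = #A0 + b + K + y := ⟨_, (Nat.add_sub_of_le c2.le).symm⟩
  obtain ⟨Q', hQ', hy'⟩ := exists_subset_card_eq (s := Q) (n := y) (by omega)
  have i1 : ∀ p ∈ Q', ∀ p' ∈ Q', p.1 = p'.1 → p = p' := fun p hp p' hp' =>
    (hQ.dis p (hQ' hp) p' (hQ' hp')).2.1
  have i2 : ∀ p ∈ Q', ∀ p' ∈ Q', p.2 = p'.2 → p = p' := fun p hp p' hp' =>
    (hQ.dis p (hQ' hp) p' (hQ' hp')).2.2
  obtain ⟨s', hs1, hs2⟩ : ∃ s' : E → N, (∀ p ∈ Q', s' p.1 = t p.2) ∧ ∀ e ∈ A0, s' e = s e := by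
    refine ⟨fun e => if h : ∃ p ∈ Q', p.1 = e then t h.choose.2 else s e, fun p hp => ?_,
      fun e he => dif_neg ?_⟩
    · have h0 : ∃ p' ∈ Q', p'.1 = p.1 := ⟨p, hp, rfl⟩
      simp only [dif_pos h0]
      rw [i1 _ h0.choose_spec.1 p hp h0.choose_spec.2]
    · rintro ⟨p, hp, rfl⟩
      exact ((mA _).1 he).2 ((mB _).1 (hQ.mem p (hQ' hp)).1).2
  have s1 : Q'.image Prod.fst ⊆ B := image_subset_iff.2 fun p hp => (hQ.mem p (hQ' hp)).1
  have s2 : Q'.image Prod.snd ⊆ B := image_subset_iff.2 fun p hp => (hQ.mem p (hQ' hp)).2.1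
  have k1 : #(Q'.image Prod.fst) = y := hy' ▸ card_image_of_injOn i1
  have k2 : #(Q'.image Prod.snd) = y := hy' ▸ card_image_of_injOn i2
  have d0 : Disjoint A0 B := disjoint_left.2 fun e h1 h2 => ((mA _).1 h1).2 ((mB _).1 h2).2
  have d1 : Disjoint (Q'.image Prod.fst) (Q'.image Prod.snd) := disjoint_left.2 fun e h1 h2 => by
    obtain ⟨p, hp, rfl⟩ := mem_image.1 h1
    obtain ⟨p', hp', e⟩ := mem_image.1 h2
    exact (hQ.dis p (hQ' hp) p' (hQ' hp')).1 e.symm
  obtain ⟨Γ, hΓ, hκ⟩ := exists_subset_card_eq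
    (s := B \ (Q'.image Prod.fst ∪ Q'.image Prod.snd)) (n := κ) (by
      rw [card_sdiff_of_subset (union_subset s1 s2), card_union_of_disjoint d1]
      omega)
  have tU : ∀ e ∈ B, f (t e) ∈ U.erase a := fun e he =>
    mem_erase.2 ⟨hout e ((mB _).1 he).1, (h.ends e ((mB _).1 he).1).2⟩
  refine ⟨s', A0 ∪ Q'.image Prod.fst, Γ, ⟨fun e he => ?_, fun S hS hne => ?_, ?_⟩,
    hΓ.trans sdiff_subset, hκ, fun X => ?_⟩
  · rcases mem_union.1 he with he | he
    · rw [hs2 e he]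
      rw [← hE] at he
      exact (mem_filter.1 he).2
    · obtain ⟨p, hp, rfl⟩ := mem_image.1 he
      rw [hs1 p hp]
      exact ⟨tU _ (hQ.mem p (hQ' hp)).2.1, tU _ (hQ.mem p (hQ' hp)).1⟩
  · have u1 : ∀ e ∈ ins (fun e => f (s' e)) (fun e => f (t e)) (A0 ∪ Q'.image Prod.fst) S,
        e ∈ A0 → e ∈ ins (fun e => f (s e)) (fun e => f (t e)) A S := fun e he h0 => by
      have := (mem_filter.1 he).2
      simp only [hs2 e h0] at this
      exact mem_filter.2 ⟨((mA _).1 h0).1, this⟩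
    by_cases h2 : 2 ≤ #S
    · have u2 := hnt S hS h2
      have u3 := (card_le_card (show ins (fun e => f (s' e)) (fun e => f (t e))
          (A0 ∪ Q'.image Prod.fst) S ⊆ ins (fun e => f (s e)) (fun e => f (t e)) A S ∪
          Q'.image Prod.fst from fun e he => mem_union.2
          ((mem_union.1 (mem_filter.1 he).1).imp_left (u1 e he)))).trans (card_union_le _ _)
      omega
    · refine le_trans (Nat.add_le_add_right (card_le_card fun e he => u1 e he ?_) K)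
        (h.one S (hS.trans (erase_subset _ _)) hne)
      obtain ⟨he1, he2⟩ := mem_filter.1 he
      refine (mem_union.1 he1).resolve_right fun h0 => ?_
      obtain ⟨p, hp, rfl⟩ := mem_image.1 h0
      simp only [hs1 p hp] at he2
      exact (hQ.mem p (hQ' hp)).2.2 (card_le_one.1 (by omega) _ he2.2 _ he2.1)
  · rw [card_union_of_disjoint (d0.mono_right s1)]
    omega
  · refine ⟨#{p ∈ Q' | ¬ (s p.1 ∈ X ↔ s p.2 ∈ X) ∧ ¬ (t p.2 ∈ X ↔ t p.1 ∈ X)},
      card_le_card fun p hp => mem_filter.2 ⟨hQ' (mem_filter.1 hp).1, (mem_filter.1 hp).2.1⟩,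
      ?_, ?_⟩
    · have e1 : ct s' t A0 X = ct s t A0 X :=
        congrArg card (filter_congr fun e he => by rw [hs2 e he])
      have e2 : ct s' t (Q'.image Prod.fst) X ≤
          #{p ∈ Q' | ¬ (s p.1 ∈ X ↔ s p.2 ∈ X) ∧ ¬ (t p.2 ∈ X ↔ t p.1 ∈ X)} +
          (ct s t (Q'.image Prod.fst) X + ct s t (Q'.image Prod.snd) X) := by
        rw [ct_image_ULift _ _ _ _ i1, ct_image_ULift _ _ _ _ i1, ct_image_ULift _ _ _ _ i2]
        refine le_trans (card_le_card fun p hp => ?_)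
          ((card_union_le _ _).trans (Nat.add_le_add_left (card_union_le _ _) _))
        obtain ⟨hp1, hp2⟩ := mem_filter.1 hp
        rw [hs1 p hp1] at hp2
        simp only [mem_union, mem_filter, hp1, true_and]
        tauto
      have e3 := ct_mono_ULift s t (show A0 ∪ ((Q'.image Prod.fst ∪ Q'.image Prod.snd) ∪ Γ) ⊆ A
        from union_subset (fun e he => ((mA _).1 he).1) fun e he =>
          ((mB _).1 (union_subset (union_subset s1 s2) (hΓ.trans sdiff_subset) he)).1) X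
      rw [ct_union_ULift _ _ (d0.mono_right (union_subset (union_subset s1 s2)
          (hΓ.trans sdiff_subset))), ct_union_ULift _ _ (disjoint_sdiff.mono_right hΓ),
        ct_union_ULift _ _ d1] at e3
      rw [ct_union_ULift _ _ (d0.mono_right s1), e1]
      omega
    · rcases Nat.eq_zero_or_pos #{p ∈ Q' | ¬ (s p.1 ∈ X ↔ s p.2 ∈ X) ∧ ¬ (t p.2 ∈ X ↔ t p.1 ∈ X)}
        with h0 | h0
      · exact Or.inl h0
      · obtain ⟨p, hp⟩ := card_pos.1 h0
        obtain ⟨hp1, _, hp2⟩ := mem_filter.1 hp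
        have v1 := tU _ (hQ.mem p (hQ' hp1)).1
        have v2 := tU _ (hQ.mem p (hQ' hp1)).2.1
        by_cases hx : t p.1 ∈ X
        · exact Or.inr ⟨_, _, v1, v2, hx, by tauto⟩
        · exact Or.inr ⟨_, _, v2, v1, by tauto, hx⟩

/-- a unit of low degree has more than `K` edges -/
theorem low_deg {K b : ℕ} {s t : E → ι} {A : Finset E} {U : Finset ι} (h : St K b s t A U) {a : ι}
    (ha : a ∈ U) (hout : ∀ e ∈ A, t e ≠ a)
    (hnt : #(ins s t A (U.erase a)) + b + K < K * #(U.erase a)) : K < #{e ∈ A | s e = a} := by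
  have c1 := count_ULift h ha
  rw [ins_erase_ULift h hout] at hnt
  omega

/-- two sides of the other units are joined by many edges -/
theorem two_sides {K b : ℕ} {s t : E → ι} {A : Finset E} {U : Finset ι} (h : St K b s t A U)
    {a : ι} (ha : a ∈ U) (hout : ∀ e ∈ A, t e ≠ a) (hlo : #{e ∈ A | s e = a} ≤ K + b)
    (Y : Finset ι) (hY : Sep (U.erase a) Y) : K ≤ ct s t {e ∈ A | s e ≠ a} Y + 2 * b := by
  have c1 := count_ULift h ha
  obtain ⟨⟨u, hu, hu'⟩, v, hv, hv'⟩ := hY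
  have c2 := h.one {x ∈ U.erase a | x ∈ Y} ((filter_subset _ _).trans (erase_subset _ _))
    ⟨u, mem_filter.2 ⟨hu, hu'⟩⟩
  have c3 := h.one {x ∈ U.erase a | x ∉ Y} ((filter_subset _ _).trans (erase_subset _ _))
    ⟨v, mem_filter.2 ⟨hv, hv'⟩⟩
  have c4 : #{x ∈ U.erase a | x ∈ Y} + #{x ∈ U.erase a | x ∉ Y} = #(U.erase a) :=
    card_filter_add_card_filter_not _
  have c5 : #{e ∈ A | s e ≠ a} ≤ ct s t {e ∈ A | s e ≠ a} Y +
      (#(ins s t A {x ∈ U.erase a | x ∈ Y}) + #(ins s t A {x ∈ U.erase a | x ∉ Y})) := by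
    refine le_trans (card_le_card fun e he => ?_)
      ((card_union_le _ _).trans (Nat.add_le_add_left (card_union_le _ _) _))
    obtain ⟨h1, h2⟩ := mem_filter.1 he
    simp only [ins, mem_union, mem_filter, mem_erase, h1, h2, (h.ends e h1).1, (h.ends e h1).2,
      hout e h1, ne_eq, not_false_eq_true, true_and, and_self]
    tauto
  rw [← c4, Nat.mul_add] at c1
  omega

end Pool.Agent.P.MP_e59a69_co
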