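import Pool.Agent.P.MP_e59a69_co.UDefs
import Pool.Agent.P.MP_e59a69_co.SRIter

open Finset

namespace Pool.Agent.P.MP_e59a69_co

lemma ind_UThin {ι E : Type} [DecidableEq ι] (s t : E → ι) (A : Finset E) (Y : Finset ι) :
    ∑ e ∈ A, ((if s e ∈ Y then (1 : ℝ) else 0) - if t e ∈ Y then 1 else 0) ^ 2 =
      (ct s t A Y : ℝ) := by
  unfold ct
  rw [card_filter, Nat.cast_sum]
  refine sum_congr rfl fun e _ => ?_
  by_cases h1 : s e ∈ Y <;> by_cases h2 : t e ∈ Y <;> simp [h1, h2]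

lemma pair_UThin {ι E : Type} [DecidableEq ι] {s t : E → ι} {A : Finset E} {u v : ι}
    (hE : ∀ e ∈ A, (s e = u ∧ t e = v) ∨ (s e = v ∧ t e = u)) (Y : Finset ι) :
    ct s t A Y = if (u ∈ Y ↔ v ∈ Y) then 0 else #A := by
  unfold ct
  split_ifs with h
  · rw [card_eq_zero, filter_eq_empty_iff]
    intro e he
    rcases hE e he with ⟨a, b⟩ | ⟨a, b⟩ <;> rw [a, b] <;> tauto
  · rw [filter_true_of_mem]
    intro e he
    rcases hE e he with ⟨a, b⟩ | ⟨a, b⟩ <;> rw [a, b] <;> tauto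

lemma sep_UThin {ι : Type} [DecidableEq ι] {u v : ι} {Y : Finset ι} (h : Sep {u, v} Y) :
    ¬ (u ∈ Y ↔ v ∈ Y) := by
  obtain ⟨⟨a, ha, h1⟩, b, hb, h2⟩ := h
  rw [mem_insert, mem_singleton] at ha hb
  rcases ha with rfl | rfl <;> rcases hb with rfl | rfl <;> tauto

/-- small resistances give a thin connected part -/
theorem thin_join (T : ℕ) : ∃ Λ : ℕ, ∀ (ι E : Type) [DecidableEq ι] [DecidableEq E]
    (s t : E → ι) (Γ : Finset E) (S : Finset ι), Conn s t S Γ →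
    (∀ x : ι → ℝ, ∀ e ∈ Γ, Λ * (x (s e) - x (t e)) ^ 2 ≤ ∑ f ∈ Γ, (x (s f) - x (t f)) ^ 2) →
    ∃ J ⊆ Γ, Conn s t S J ∧ ∀ Y, T * ct s t J Y ≤ ct s t Γ Y := by
  rcases Nat.eq_zero_or_pos T with rfl | hT
  · exact ⟨0, fun ι E _ _ s t Γ S hc _ => ⟨Γ, Subset.rfl, hc, fun Y => by simp⟩⟩
  have hT' : (1 : ℝ) ≤ T := by exact_mod_cast hT
  obtain ⟨j, hj⟩ := pow_unbounded_of_one_lt (T : ℝ) (show (1 : ℝ) < 10 / 9 by norm_num)
  refine ⟨100 * 10 ^ j * T, fun ι E _ _ s t Γ S hc h => ?_⟩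
  push_cast at h
  let a : Γ → (ι → ℝ) →ₗ[ℝ] ℝ := fun e =>
    (LinearMap.proj (s e.1) : (ι → ℝ) →ₗ[ℝ] ℝ) - (LinearMap.proj (t e.1) : (ι → ℝ) →ₗ[ℝ] ℝ)
  have e1 : ∀ x, ∑ k : Γ, a k x ^ 2 = ∑ f ∈ Γ, (x (s f) - x (t f)) ^ 2 := fun x =>
    sum_coe_sort Γ fun f => (x (s f) - x (t f)) ^ 2
  have h' : ∀ (i : Γ) x, 100 * 10 ^ j * (T : ℝ) * a i x ^ 2 ≤ ∑ k : Γ, a k x ^ 2 := fun i x =>
    (h x i.1 i.2).trans_eq (e1 x).symm
  have hq : (1 : ℝ) ≤ 10 ^ j := one_le_pow₀ (by norm_num)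
  obtain ⟨K, -, h1, h2⟩ := thin_span (LinearMap.pi a) a a (1 / T) (by positivity)
    (fun i w => by
      rw [one_div, ← div_eq_inv_mul, le_div_iff₀ (by positivity)]
      refine le_trans ?_ (h' i w)
      have : 0 ≤ (T : ℝ) * a i w ^ 2 := by positivity
      nlinarith) j univ
    (fun w => le_mul_of_one_le_left (sum_nonneg fun _ _ => sq_nonneg _) (by
      rw [one_div, ← div_eq_inv_mul, le_div_iff₀ (by positivity), one_mul]
      exact hj.le))
    (fun i _ x => by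
      refine le_trans ?_ (h' i x)
      have : 0 ≤ (10 : ℝ) ^ j * a i x ^ 2 := by positivity
      nlinarith)
  have e2 : ∀ Y : Finset ι, ∑ k ∈ K, a k (fun v => if v ∈ Y then 1 else 0) ^ 2 =
      ct s t (K.map (Function.Embedding.subtype _)) Y := fun Y => by
    rw [← ind_UThin, sum_map]
    rfl
  have e3 : ∀ Y : Finset ι, ∑ k : Γ, a k (fun v => if v ∈ Y then 1 else 0) ^ 2 = ct s t Γ Y :=
    fun Y => (e1 _).trans (ind_UThin s t Γ Y)
  refine ⟨K.map (Function.Embedding.subtype _), fun e he => ?_, fun X hX => ?_, fun Y => ?_⟩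
  · obtain ⟨i, -, rfl⟩ := mem_map.1 he
    exact i.2
  · by_contra h0
    have h3 := e2 X
    rw [show ct s t (K.map (Function.Embedding.subtype _)) X = 0 by omega, Nat.cast_zero,
      sum_eq_zero_iff_of_nonneg fun _ _ => sq_nonneg _] at h3
    have h4 := e3 X
    rw [sum_eq_zero fun i hi => by
      rw [h2 _ (fun k hk => (pow_eq_zero_iff two_ne_zero).1 (h3 k hk)) i hi]; norm_num] at h4
    have h5 := hc X hX
    have h6 : ct s t Γ X = 0 := by exact_mod_cast h4.symm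
    omega
  · have h3 := (e2 Y).symm.trans_le ((h1 _).trans_eq (congrArg (1 / (T : ℝ) * ·) (e3 Y)))
    rw [one_div, ← div_eq_inv_mul, le_div_iff₀ (by positivity), mul_comm] at h3
    exact_mod_cast h3

/-- a bundle of parallel edges -/
theorem gam_pair {ι E : Type} [DecidableEq ι] [DecidableEq E] {κ Δ T : ℕ} (hκ : 1 ≤ κ)
    (hΔ : κ ≤ Δ) (hT : T ≤ κ) (s t : E → ι) (Γ : Finset E) {u v : ι} (huv : u ≠ v) (hc : #Γ = κ)
    (hE : ∀ e ∈ Γ, (s e = u ∧ t e = v) ∨ (s e = v ∧ t e = u)) : Gam κ Δ T s t Γ {u, v} := by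
  obtain ⟨e₀, he₀⟩ := card_pos.1 (show 0 < #Γ by omega)
  have hE' : ∀ e ∈ ({e₀} : Finset E), (s e = u ∧ t e = v) ∨ (s e = v ∧ t e = u) := fun e he =>
    hE e (mem_singleton.1 he ▸ he₀)
  refine ⟨(card_pair huv).ge, fun e he => ?_, fun Y hY => ?_, fun w hw Y hY => ?_, fun w _ => ?_,
    {e₀}, singleton_subset_iff.2 he₀, fun Y hY => ?_, fun Y => ?_⟩
  · rcases hE e he with ⟨a, b⟩ | ⟨a, b⟩ <;> rw [a, b] <;> simp [huv, huv.symm]
  · rw [pair_UThin hE, if_neg (sep_UThin hY), hc]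
  · obtain ⟨⟨a, ha, h1⟩, b, hb, h2⟩ := hY
    rw [mem_erase, mem_insert, mem_singleton] at ha hb
    rw [mem_insert, mem_singleton] at hw
    have : a = b := by grind
    exact absurd (this ▸ h1) h2
  · exact (card_filter_le _ _).trans (hc.trans_le hΔ)
  · rw [pair_UThin hE', if_neg (sep_UThin hY), card_singleton]
  · rw [pair_UThin hE', pair_UThin hE, card_singleton]
    split_ifs <;> omega

/-- iterated pair selector -/
theorem sel_iter {W κ ι : Type} [AddCommGroup W] [Module ℝ W] [Fintype κ] [Fintype ι]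
    [DecidableEq ι] (γ : W →ₗ[ℝ] κ → ℝ) (j : ℕ) (α : ι → ℕ → W →ₗ[ℝ] ℝ) (B : ℝ) (hB : 0 ≤ B)
    (h1 : ∀ w, ∑ i, ∑ a ∈ range (2 ^ j), α i a w ^ 2 ≤ B * ∑ k, γ w k ^ 2)
    (h2 : ∀ i a w, 100 * α i a w ^ 2 ≤ (9 / 10) ^ j * B * ∑ k, γ w k ^ 2) :
    ∃ σ : ι → ℕ, (∀ i, σ i < 2 ^ j) ∧
      ∀ w, ∑ i, α i (σ i) w ^ 2 ≤ (9 / 10) ^ j * B * ∑ k, γ w k ^ 2 := by
  induction j generalizing α B with
  | zero => exact ⟨fun _ => 0, fun _ => by simp, fun w => by simpa using h1 w⟩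
  | succ j ih =>
    have hγ : ∀ w, ∑ k, (√B • γ) w k ^ 2 = B * ∑ k, γ w k ^ 2 := fun w => by
      rw [mul_sum]
      refine sum_congr rfl fun k _ => ?_
      rw [LinearMap.smul_apply, Pi.smul_apply, smul_eq_mul, mul_pow, Real.sq_sqrt hB]
    obtain ⟨τ, hτ⟩ := form_sel (ι := ι × Fin (2 ^ j)) (√B • γ)
      (fun l => α l.1.1 ((if l.2 then 2 ^ j else 0) + l.1.2)) (fun w => by
        rw [hγ, Fintype.sum_prod_type, Fintype.sum_prod_type]
        refine le_trans (le_of_eq (sum_congr rfl fun i _ => ?_)) (h1 w)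
        rw [pow_succ, mul_two, sum_range_add, ← sum_add_distrib, sum_range]
        refine sum_congr rfl fun a _ => ?_
        rw [Fintype.sum_bool, if_pos rfl, if_neg Bool.false_ne_true, zero_add, add_comm])
      fun l w => by
        rw [hγ]
        refine (h2 _ _ w).trans ?_
        rw [mul_assoc]
        exact mul_le_of_le_one_left (mul_nonneg hB (sum_nonneg fun _ _ => sq_nonneg _))
          (pow_le_one₀ (by norm_num) (by norm_num))
    let c : ι → ℕ → ℕ := fun i a => if h : a < 2 ^ j then if τ (i, ⟨a, h⟩) then 2 ^ j else 0 else 0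
    obtain ⟨σ, hσ, h3⟩ := ih (fun i a => α i (c i a + a)) (9 / 10 * B) (by positivity) (fun w => by
      have h4 := hτ w
      rw [hγ, Fintype.sum_prod_type, ← mul_assoc] at h4
      refine le_trans (le_of_eq (sum_congr rfl fun i _ => ?_)) h4
      rw [sum_range]
      exact sum_congr rfl fun a _ => by simp only [c, dif_pos a.2])
      fun i a w => (h2 _ _ w).trans_eq (by ring)
    refine ⟨fun i => c i (σ i) + σ i, fun i => ?_, fun w => (h3 w).trans_eq (by ring)⟩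
    have h5 := hσ i
    have h6 : c i (σ i) ≤ 2 ^ j := by
      simp only [c]
      split_ifs <;> simp
    change c i (σ i) + σ i < _
    rw [pow_succ]
    omega

end Pool.Agent.P.MP_e59a69_co
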