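import Pool.Agent.P.MP_e59a69_co.UFin
import Pool.Agent.P.MP_e59a69_co.ULift
import Pool.Agent.P.MP_e59a69_co.UThin

open Finset

namespace Pool.Agent.P.MP_e59a69_co

/-- thin families of pairs exist -/
def PairOk (N ι E : Type) [DecidableEq N] [DecidableEq ι] (q κ K : ℕ) : Prop :=
  ∀ (Z : Finset N) (W : Multiset (N × N)) (B : Finset E) (en : E → N) (col : E → ι),
    (∀ p ∈ W, p.1 ∈ Z ∧ p.2 ∈ Z) → (∀ X, Sep Z X → κ ≤ mcut W X) → (∀ e ∈ B, en e ∈ Z) →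
    (∀ c, #{e ∈ B | col e = c} < κ) → K ≤ #B →
    ∃ Q : Finset (E × E), Prs B col Q ∧ #Q = q * κ ∧ ∀ X, 7 * q * pc en Q X ≤ mcut W X

variable {N ι E : Type} [DecidableEq N] [DecidableEq ι] [DecidableEq E]
  {q κ K b Δ T c₁ c₂ Λ : ℕ} {f : N → ι} {d : ι → Nd N κ} {U : Finset ι} {s t : E → N}
  {A : Finset E}

/-- the other units pay when both sides of the cut meet them -/
lemma pay_UCaseC (P : Par q κ K b Δ T c₁ c₂ Λ)
    (h : St K b (fun e => f (s e)) (fun e => f (t e)) A U) (hU : Units c₁ c₂ T f d U) {a : ι}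
    (ha : a ∈ U) (hout : ∀ e ∈ A, f (t e) ≠ a) (hlo : #{e ∈ A | f (s e) = a} ≤ K + b)
    (X : Finset N) {v w : N} (hv : f v ∈ U.erase a) (hw : f w ∈ U.erase a) (hv' : v ∈ X)
    (hw' : w ∉ X) : 7 * q * κ ≤
      3 * (∑ x ∈ U.erase a, Th q κ (mcut (d x).W X) + 7 * q * ct s t A X) := by
  classical
  by_cases hs : ∃ u ∈ U.erase a, Sep (d u).vs X
  · obtain ⟨u, hu, hs⟩ := hs
    have h1 := Th_big P.q1 ((hU u (mem_of_mem_erase hu)).1.wconn X hs)
    have h2 := single_le_sum (f := fun x => Th q κ (mcut (d x).W X)) (fun _ _ => Nat.zero_le _) hu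
    omega
  have key : ∀ x, f x ∈ U.erase a → (f x ∈ ({u ∈ U.erase a | (d u).vs ⊆ X} : Finset ι) ↔ x ∈ X) := by
    intro x hx
    have hx' : x ∈ (d (f x)).vs := ((hU _ (mem_of_mem_erase hx)).2 x).2 rfl
    refine ⟨fun e => (mem_filter.1 e).2 hx', fun e => mem_filter.2 ⟨hx, fun y hy => ?_⟩⟩
    by_contra c
    exact hs ⟨_, hx, ⟨x, hx', e⟩, y, hy, c⟩
  have h1 := two_sides h ha hout hlo {u ∈ U.erase a | (d u).vs ⊆ X}
    ⟨⟨_, hv, (key v hv).2 hv'⟩, _, hw, fun e => hw' ((key w hw).1 e)⟩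
  have h2 : ct (fun e => f (s e)) (fun e => f (t e)) {e ∈ A | f (s e) ≠ a}
      {u ∈ U.erase a | (d u).vs ⊆ X} ≤ ct s t A X := by
    refine card_le_card fun e he => ?_
    obtain ⟨e1, e2⟩ := mem_filter.1 he
    obtain ⟨e3, e4⟩ := mem_filter.1 e1
    refine mem_filter.2 ⟨e3, ?_⟩
    rwa [key _ (mem_erase.2 ⟨e4, (h.ends e e3).1⟩),
      key _ (mem_erase.2 ⟨hout e e3, (h.ends e e3).2⟩)] at e2
  have h3 := P.hK
  have h4 : κ ≤ ct s t A X := by omega
  have h5 := Nat.mul_le_mul_left (7 * q) h4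
  omega

/-- a unit of low degree, all its edges leave it -/
theorem case_low (P : Par q κ K b Δ T c₁ c₂ Λ) (hP : PairOk N ι E q κ K)
    (ih : Ih N ι E q κ K b c₁ c₂ T #U)
    (h : St K b (fun e => f (s e)) (fun e => f (t e)) A U) (hU : Units c₁ c₂ T f d U) {a : ι}
    (ha : a ∈ U) (hout : ∀ e ∈ A, f (t e) ≠ a) (hlo : #{e ∈ A | f (s e) = a} ≤ K + b)
    (hnt : ∀ S ⊆ U.erase a, 2 ≤ #S →
      #(ins (fun e => f (s e)) (fun e => f (t e)) A S) + b + K < K * #S)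
    (hm : ∀ u ∈ U, ∀ v ∈ U, u ≠ v → #(btw (fun e => f (s e)) (fun e => f (t e)) A u v) < κ)
    (h3 : 3 ≤ #U) : Out q c₁ c₂ T f d U s t A := by
  have hce := card_erase_add_one ha
  have hB := low_deg h ha hout (hnt _ Subset.rfl (by omega))
  obtain ⟨ga, va⟩ := hU a ha
  obtain ⟨Q, q1, q2, q3⟩ := hP (d a).vs (d a).W {e ∈ A | f (s e) = a} s (fun e => f (t e))
    ga.wend ga.wconn (fun e he => (va _).2 (mem_filter.1 he).2) (fun c => by
      by_cases hc : c ∈ U ∧ a ≠ c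
      · refine lt_of_le_of_lt (card_le_card fun e he => ?_) (hm a ha c hc.1 hc.2)
        obtain ⟨e1, e2⟩ := mem_filter.1 he
        exact mem_filter.2 ⟨(mem_filter.1 e1).1, Or.inl ⟨(mem_filter.1 e1).2, e2⟩⟩
      · rw [card_eq_zero.2 (filter_eq_empty_iff.2 fun e he e2 => hc ?_)]
        · exact P.k1
        · have e1 := (mem_filter.1 he).1
          exact ⟨e2 ▸ (h.ends e e1).2, fun e3 => hout e e1 (e2.trans e3.symm)⟩) hB.le
  obtain ⟨s', A', Γ, l1, l2, l3, l4⟩ := lift_state P.hK f s t A U h ha hout hlo hnt h3 Q q1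
    (q2.trans P.hb.symm)
  obtain ⟨r, hr⟩ : (U.erase a).Nonempty := card_pos.1 (by omega)
  obtain ⟨n, gn, vn, cn⟩ := ih (U.erase a) f d s' t A' (by omega) ⟨r, hr⟩ l1
    (hU.mono (erase_subset _ _))
  have hra : r ≠ a := (mem_erase.1 hr).1
  have hU' := (hU.mono (singleton_subset_iff.2 ha)).ctr
    (disjoint_singleton_left.2 (notMem_erase a U)) hr gn vn
  have hG : Gam κ Δ T (fun e => ctr (U.erase a) r (f (s e))) (fun e => ctr (U.erase a) r (f (t e)))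
      Γ {r, a} := gam_pair P.k1 P.hΔ P.hT _ _ Γ hra l3 fun e he => by
    obtain ⟨e1, e2⟩ := mem_filter.1 (l2 he)
    exact Or.inr ⟨(ctr_eq_iff' hr (notMem_erase a U) _).2 e2,
      (ctr_eq_iff hr _).2 (mem_erase.2 ⟨hout e e1, (h.ends e e1).2⟩)⟩
  obtain ⟨m, gm, vm, cm⟩ := exists_node P.k1 hU' hG P.h2 P.h1
  refine ⟨m, gm, fun v => ?_, fun X => ?_⟩
  · rw [vm, mem_insert, mem_singleton, ctr_eq_iff hr, ctr_eq_iff' hr (notMem_erase a U), mem_erase]
    by_cases e : f v = a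
    · simp [e, ha]
    · simp [e]
  obtain ⟨z, z1, z2, z3⟩ := l4 X
  rw [cm, sum_pair hra, Function.update_self, Function.update_of_ne hra.symm,
    ← add_sum_erase U (fun x => Th q κ (mcut (d x).W X)) ha, add_comm (mcut n.W X), add_assoc,
    add_assoc]
  have z4 := (Nat.mul_le_mul_left (7 * q) z1).trans (q3 X)
  refine Th_lift P.q1 (z := z) ?_ (z1.trans ((card_filter_le _ _).trans q2.le)) z4 ?_
  · have a1 := Th_add (q := q) (κ := κ) (mcut n.W X) (ct s t Γ X)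
    have a2 := Th_le (κ := κ) P.q1 (ct s t Γ X)
    have a3 := cn X
    have a4 := Nat.mul_le_mul_left (7 * q) z2
    rw [mul_add, mul_add] at a4
    omega
  · rcases Nat.eq_zero_or_pos z with z0 | z0
    · exact Or.inl z0
    obtain ⟨v, w, hv, hw, hv', hw'⟩ := z3.resolve_left z0.ne'
    have a1 : 0 < 7 * q * z := Nat.mul_pos (by have := P.q1; omega) z0
    refine Or.inr ⟨ga.wconn X (ga.sep_of_pos (by omega)), ?_,
      pay_UCaseC P h hU ha hout hlo X hv hw hv' hw'⟩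
    exact (gn.wconn X ⟨⟨v, (vn v).2 hv, hv'⟩, w, (vn w).2 hw, hw'⟩).trans (Nat.le_add_right _ _)

end Pool.Agent.P.MP_e59a69_co
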