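import Pool.Agent.P.MP_e59a69_co.UCaseB
import Pool.Agent.P.MP_e59a69_co.UCaseC

open Finset

namespace Pool.Agent.P.MP_e59a69_co

section swap
variable {ι E : Type} [DecidableEq ι] {K b : ℕ} {s t s' t' : E → ι} {A : Finset E} {U : Finset ι}

lemma ins_swap (h : ∀ e, (s' e = s e ∧ t' e = t e) ∨ (s' e = t e ∧ t' e = s e)) (A : Finset E)
    (S : Finset ι) : ins s' t' A S = ins s t A S := by
  refine filter_congr fun e _ => ?_
  rcases h e with ⟨a, b⟩ | ⟨a, b⟩ <;> rw [a, b]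
  exact and_comm

lemma btw_swap (h : ∀ e, (s' e = s e ∧ t' e = t e) ∨ (s' e = t e ∧ t' e = s e)) (A : Finset E)
    (u v : ι) : btw s' t' A u v = btw s t A u v := by
  refine filter_congr fun e _ => ?_
  rcases h e with ⟨a, b⟩ | ⟨a, b⟩ <;> rw [a, b]
  tauto

lemma St.swap (h : ∀ e, (s' e = s e ∧ t' e = t e) ∨ (s' e = t e ∧ t' e = s e))
    (H : St K b s t A U) : St K b s' t' A U := by
  refine ⟨fun e he => ?_, fun S h1 h2 => ins_swap h A S ▸ H.one S h1 h2, H.two⟩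
  rcases h e with ⟨a, b⟩ | ⟨a, b⟩ <;> rw [a, b]
  · exact H.ends e he
  · exact (H.ends e he).symm

end swap

variable {N ι E : Type} [DecidableEq N] [DecidableEq ι] [DecidableEq E]
  {q κ K b Δ T c₁ c₂ Λ : ℕ} {f : N → ι} {d : ι → Nd N κ} {U : Finset ι} {s t : E → N}
  {A : Finset E}

/-- a unit of low degree -/
theorem case_low' (P : Par q κ K b Δ T c₁ c₂ Λ) (hP : PairOk N ι E q κ K)
    (ih : Ih N ι E q κ K b c₁ c₂ T #U)
    (h : St K b (fun e => f (s e)) (fun e => f (t e)) A U) (hU : Units c₁ c₂ T f d U) {a : ι}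
    (ha : a ∈ U) (hlo : ct (fun e => f (s e)) (fun e => f (t e)) A {a} ≤ K + b)
    (hnt : ∀ S ⊆ U.erase a, 2 ≤ #S →
      #(ins (fun e => f (s e)) (fun e => f (t e)) A S) + b + K < K * #S)
    (hm : ∀ u ∈ U, ∀ v ∈ U, u ≠ v → #(btw (fun e => f (s e)) (fun e => f (t e)) A u v) < κ)
    (h3 : 3 ≤ #U) : Out q c₁ c₂ T f d U s t A := by
  obtain ⟨s', hs⟩ : ∃ s' : E → N, ∀ e, s' e = if f (t e) = a then t e else s e := ⟨_, fun _ => rfl⟩
  obtain ⟨t', ht⟩ : ∃ t' : E → N, ∀ e, t' e = if f (t e) = a then s e else t e := ⟨_, fun _ => rfl⟩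
  have h1 : ∀ e, (s' e = s e ∧ t' e = t e) ∨ (s' e = t e ∧ t' e = s e) := fun e => by
    rw [hs, ht]
    split_ifs
    · exact Or.inr ⟨rfl, rfl⟩
    · exact Or.inl ⟨rfl, rfl⟩
  have h2 : ∀ e, (f (s' e) = f (s e) ∧ f (t' e) = f (t e)) ∨
      (f (s' e) = f (t e) ∧ f (t' e) = f (s e)) := fun e =>
    (h1 e).imp (fun x => ⟨by rw [x.1], by rw [x.2]⟩) fun x => ⟨by rw [x.1], by rw [x.2]⟩
  have hout : ∀ e ∈ A, f (t' e) ≠ a := fun e he => by
    rw [ht]
    split_ifs with c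
    · exact c ▸ h.noloop he
    · exact c
  obtain ⟨m, g1, g2, g3⟩ := case_low (s := s') (t := t') P hP ih (h.swap h2) hU ha hout (by
      rw [← ct_swap h2] at hlo
      refine le_trans (card_le_card fun e he => ?_) hlo
      obtain ⟨e1, e2⟩ := mem_filter.1 he
      exact mem_filter.2 ⟨e1, by simp [e2, hout e e1]⟩)
    (fun S a1 a2 => by rw [ins_swap h2]; exact hnt S a1 a2)
    (fun u a1 v a2 a3 => by rw [btw_swap h2]; exact hm u a1 v a2 a3) h3
  exact ⟨m, g1, g2, fun X => by rw [← ct_swap h1]; exact g3 X⟩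

/-- the hierarchy -/
theorem build (P : Par q κ K b Δ T c₁ c₂ Λ) (hP : PairOk N ι E q κ K) (hJ : JoinOk ι E Λ T)
    (n : ℕ) : Ih N ι E q κ K b c₁ c₂ T n := by
  induction n with
  | zero => exact fun U f d s t A h => absurd h (Nat.not_lt_zero _)
  | succ n ih =>
  intro U f d s t A hn hne h hU
  rcases (Nat.lt_succ_iff.1 hn).lt_or_eq with hlt | heq
  · exact ih U f d s t A hlt hne h hU
  subst heq
  by_cases h1 : #U = 1
  · obtain ⟨u, rfl⟩ := card_eq_one.1 h1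
    obtain ⟨g, v⟩ := hU u (mem_singleton_self _)
    exact ⟨d u, g, fun x => by rw [v, mem_singleton], fun X => by rw [sum_singleton]; omega⟩
  by_cases hA : ∃ u ∈ U, ∃ v ∈ U, u ≠ v ∧
      κ ≤ #(btw (fun e => f (s e)) (fun e => f (t e)) A u v)
  · obtain ⟨u, hu, v, hv, huv, hm⟩ := hA
    obtain ⟨Γ, g1, g2⟩ := case_pair P huv hm
    have hS : ({u, v} : Finset ι) ⊆ U := insert_subset hu (singleton_subset_iff.2 hv)
    exact finish ih h hU hS g2.card (out_of_gam P (hU.mono hS) g2 g1)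
  have hm : ∀ u ∈ U, ∀ v ∈ U, u ≠ v →
      #(btw (fun e => f (s e)) (fun e => f (t e)) A u v) < κ := fun u hu v hv huv =>
    lt_of_not_ge fun c => hA ⟨u, hu, v, hv, huv, c⟩
  have h2 : #U ≠ 2 := fun c => hA (two_units P h c)
  have h0 := card_pos.2 hne
  by_cases hN : ∃ S ⊆ U, 2 ≤ #S ∧ #S < #U ∧
      K * #S ≤ #(ins (fun e => f (s e)) (fun e => f (t e)) A S) + b + K
  · obtain ⟨S, hS, a1, a2, a3⟩ := hN
    exact finish ih h hU hS a1
      (ih S f d s t _ a2 (card_pos.1 (by omega)) (h.sub hS a3) (hU.mono hS))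
  by_cases hC : ∃ a ∈ U, ct (fun e => f (s e)) (fun e => f (t e)) A {a} ≤ K + b
  · obtain ⟨a, ha, hlo⟩ := hC
    refine case_low' P hP ih h hU ha hlo (fun S a1 a2 => lt_of_not_ge fun c => hN
      ⟨S, a1.trans (erase_subset _ _), a2, ?_, c⟩) hm (by omega)
    exact (card_le_card a1).trans_lt (card_erase_lt_of_mem ha)
  · obtain ⟨S, hS, g⟩ := case_dense P hJ h hne hm fun u hu => lt_of_not_ge fun c => hC ⟨u, hu, c⟩
    exact finish ih h hU hS g.card (out_of_gam P (hU.mono hS) g Subset.rfl)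

end Pool.Agent.P.MP_e59a69_co
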