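import Pool.Agent.P.MP_e59a69_co.UDefs

open Finset

namespace Pool.Agent.P.MP_e59a69_co

variable {ι E : Type} [DecidableEq ι] [DecidableEq E] {K b : ℕ} {s t : E → ι} {A : Finset E}
  {U : Finset ι}

omit [DecidableEq E] in
theorem deg_sum_UDense (s t : E → ι) (A : Finset E) (L : Finset ι) :
    ∑ u ∈ L, ct s t A {u} ≤ #(ins s t A L) + #A := by
  simp only [ct, ins, card_filter]
  rw [sum_comm, card_eq_sum_ones A, ← sum_add_distrib]
  refine sum_le_sum fun e _ => ?_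
  rw [← card_filter]
  by_cases h1 : s e ∈ L
  · by_cases h2 : t e ∈ L
    · rw [if_pos ⟨h1, h2⟩]
      refine (card_le_card (t := {s e, t e}) fun u hu => ?_).trans card_le_two
      have h3 := (mem_filter.1 hu).2
      simp only [mem_insert, mem_singleton] at h3 ⊢
      by_contra h4
      exact h3 ⟨fun h => (h4 (Or.inl h.symm)).elim, fun h => (h4 (Or.inr h.symm)).elim⟩
    · refine le_add_left ((card_le_card (t := {s e}) fun u hu => ?_).trans (card_singleton _).le)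
      obtain ⟨h5, h3⟩ := mem_filter.1 hu
      simp only [mem_singleton] at h3 ⊢
      by_contra h4
      exact h3 ⟨fun h => (h4 h.symm).elim, fun h => (h2 (h ▸ h5)).elim⟩
  · refine le_add_left ((card_le_card (t := {t e}) fun u hu => ?_).trans (card_singleton _).le)
    obtain ⟨h5, h3⟩ := mem_filter.1 hu
    simp only [mem_singleton] at h3 ⊢
    by_contra h4
    exact h3 ⟨fun h => (h1 (h ▸ h5)).elim, fun h => (h4 h.symm).elim⟩

theorem hh_UDense {n : ℕ} (hn : 1 ≤ n) : 0 < hh n ∧ hh n ≤ n := by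
  have h1 : (1 : ℝ) ≤ n := by exact_mod_cast hn
  have h2 := Real.rpow_le_rpow_of_exponent_le h1 (by norm_num : (3 / 4 : ℝ) ≤ 1)
  have h3 := Real.rpow_nonneg (zero_le_one.trans h1) (3 / 4 : ℝ)
  rw [Real.rpow_one] at h2
  rw [hh]
  constructor <;> linarith

omit [DecidableEq E] in
theorem low_UDense (h : St K b s t A U) (hU : U.Nonempty) {Δ : ℕ}
    (hΔ : 4 * (K + b) * K ≤ Δ * b) (hdeg : ∀ u ∈ U, K + b < ct s t A {u}) :
    b * #U ≤ 2 * #(ins s t A {u ∈ U | ct s t A {u} ≤ Δ}) := by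
  have h1 := h.one U Subset.rfl hU
  have h2 : ins s t A U = A := filter_true_of_mem h.ends
  rw [h2] at h1
  have h3 := card_filter_add_card_filter_not (s := U) fun u => ct s t A {u} ≤ Δ
  have h4 : #{u ∈ U | ¬ ct s t A {u} ≤ Δ} * Δ ≤ 2 * #A := by
    refine le_trans ?_ ((deg_sum_UDense s t A {u ∈ U | ¬ ct s t A {u} ≤ Δ}).trans
      (by rw [two_mul]; exact Nat.add_le_add_right (card_filter_le _ _) _))
    exact card_nsmul_le_sum _ _ _ fun u hu => (not_le.1 (mem_filter.1 hu).2).le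
  have h5 : #{u ∈ U | ct s t A {u} ≤ Δ} * (K + b) ≤
      #(ins s t A {u ∈ U | ct s t A {u} ≤ Δ}) + #A :=
    le_trans (card_nsmul_le_sum _ _ _ fun u hu => (hdeg u (mem_filter.1 hu).1).le)
      (deg_sum_UDense s t A _)
  have h6 : 0 < K := by
    obtain ⟨u, hu⟩ := hU
    have h7 : ct s t A {u} ≤ #A := card_filter_le _ _
    have h8 := hdeg u hu
    rcases Nat.eq_zero_or_pos K with rfl | hK
    · omega
    · exact hK
  generalize #{u ∈ U | ¬ ct s t A {u} ≤ Δ} = x at h3 h4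
  generalize #(ins s t A {u ∈ U | ct s t A {u} ≤ Δ}) = y at h5 ⊢
  generalize #{u ∈ U | ct s t A {u} ≤ Δ} = l at h3 h5
  rw [← h3] at h1 ⊢
  have h9 : 2 * K * (2 * (K + b) * x) ≤ 2 * K * (b * (l + x)) := by
    calc _ = 4 * (K + b) * K * x := by ring
      _ ≤ Δ * b * x := Nat.mul_le_mul_right _ hΔ
      _ = x * Δ * b := by ring
      _ ≤ 2 * (K * (l + x)) * b := Nat.mul_le_mul_right _ (by omega)
      _ = _ := by ring
  have h10 := Nat.le_of_mul_le_mul_left h9 (by omega)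
  nlinarith

/-- a densest set of units of bounded degree -/
theorem exists_densest (h : St K b s t A U) (hU : U.Nonempty) (hb : 0 < b) {Δ : ℕ}
    (hΔ : 4 * (K + b) * K ≤ Δ * b) (hdeg : ∀ u ∈ U, K + b < ct s t A {u}) :
    ∃ S ⊆ U, ∃ ρ : ℝ, (b : ℝ) ≤ 2 * ρ ∧ 2 ≤ #S ∧ (∀ u ∈ S, ct s t A {u} ≤ Δ) ∧
      (#(ins s t A S) : ℝ) = ρ * hh #S ∧ ∀ Y ⊆ S, (#(ins s t A Y) : ℝ) ≤ ρ * hh #Y := by
  have h1 := low_UDense h hU hΔ hdeg
  obtain ⟨L, hL⟩ : ∃ L, L = {u ∈ U | ct s t A {u} ≤ Δ} := ⟨_, rfl⟩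
  rw [← hL] at h1
  have h2 : L ⊆ U := hL ▸ filter_subset _ _
  have h2' : ∀ u ∈ L, ct s t A {u} ≤ Δ := fun u hu => by
    rw [hL] at hu
    exact (mem_filter.1 hu).2
  have h3 : L.Nonempty := by
    have h4 : 0 < #(ins s t A L) := by
      have := Nat.mul_pos hb hU.card_pos
      omega
    obtain ⟨e, he⟩ := card_pos.1 h4
    exact ⟨_, (mem_filter.1 he).2.1⟩
  obtain ⟨S, hS, hm⟩ := exists_max_image {Y ∈ L.powerset | Y.Nonempty}
    (fun Y => (#(ins s t A Y) : ℝ) / hh #Y) ⟨L, mem_filter.2 ⟨mem_powerset_self _, h3⟩⟩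
  obtain ⟨hS1, hS2⟩ := mem_filter.1 hS
  rw [mem_powerset] at hS1
  have h5 : (b : ℝ) ≤ 2 * ((#(ins s t A S) : ℝ) / hh #S) := by
    have h6 := hm L (mem_filter.2 ⟨mem_powerset_self _, h3⟩)
    obtain ⟨h7, h8⟩ := hh_UDense h3.card_pos
    have h9 : (b : ℝ) * #U ≤ 2 * #(ins s t A L) := by exact_mod_cast h1
    have h10 : (#L : ℝ) ≤ #U := by exact_mod_cast card_le_card h2
    have h11 : (b : ℝ) / 2 ≤ (#(ins s t A L) : ℝ) / hh #L := by
      rw [le_div_iff₀ h7]
      have := mul_le_mul_of_nonneg_left (h8.trans h10) (Nat.cast_nonneg (α := ℝ) b)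
      linarith
    linarith
  refine ⟨S, hS1.trans h2, _, h5, ?_, fun u hu => h2' u (hS1 hu),
    (div_mul_cancel₀ _ (hh_UDense hS2.card_pos).1.ne').symm, fun Y hY => ?_⟩
  · by_contra h6
    have h7 : #S = 1 := by
      have := hS2.card_pos
      omega
    have h8 := h.one S (hS1.trans h2) hS2
    have h9 : #(ins s t A S) = 0 := by
      rw [h7] at h8
      omega
    have h10 : (0 : ℝ) < b := by exact_mod_cast hb
    rw [h9, Nat.cast_zero, zero_div] at h5
    linarith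
  · rcases Y.eq_empty_or_nonempty with rfl | hY0
    · simp [ins, hh]
    · exact (div_le_iff₀ (hh_UDense hY0.card_pos).1).1
        (hm Y (mem_filter.2 ⟨mem_powerset.2 (hY.trans hS1), hY0⟩))

end Pool.Agent.P.MP_e59a69_co
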