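import Pool.Agent.P.MP_e59a69_co.UDefs

open Finset

namespace Pool.Agent.P.MP_e59a69_co

variable {ι E : Type} [DecidableEq ι] [DecidableEq E] {s t : E → ι} {A : Finset E}
  {S : Finset ι} {ρ : ℝ}

lemma key_UIso {y z : ℝ} (hy : 0 ≤ y) (hyz : y ≤ z) :
    (y + z) ^ (3 / 4 : ℝ) ≤ z ^ (3 / 4 : ℝ) + 3 / 4 * y ^ (3 / 4 : ℝ) := by
  rcases (hy.trans hyz).eq_or_lt with rfl | hz
  · obtain rfl : y = 0 := le_antisymm hyz hy
    norm_num
  · obtain ⟨r, rfl⟩ : ∃ r, y = z * r := ⟨y / z, by field_simp⟩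
    have h0 : 0 ≤ r := nonneg_of_mul_nonneg_right hy hz
    have h1 : r ≤ 1 := by nlinarith
    have h2 : (1 + r) ^ (3 / 4 : ℝ) ≤ 1 + 3 / 4 * r :=
      rpow_one_add_le_one_add_mul_self (by linarith) (by norm_num) (by norm_num)
    have h3 : r ≤ r ^ (3 / 4 : ℝ) := Real.self_le_rpow_of_le_one h0 h1 (by norm_num)
    have h4 : 0 ≤ z ^ (3 / 4 : ℝ) := Real.rpow_nonneg hz.le _
    rw [show z * r + z = z * (1 + r) by ring, Real.mul_rpow hz.le (by linarith),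
      Real.mul_rpow hz.le h0]
    nlinarith

lemma sixteen_UIso {y : ℝ} (hy : 41 ≤ y) : 16 ≤ y ^ (3 / 4 : ℝ) := by
  refine le_trans ?_ (Real.rpow_le_rpow (by norm_num) hy (by norm_num))
  refine le_of_pow_le_pow_left₀ (n := 4) (by norm_num) (by positivity) ?_
  rw [← Real.rpow_natCast ((41 : ℝ) ^ (3 / 4 : ℝ)), ← Real.rpow_mul (by norm_num)]
  norm_num

omit [DecidableEq E] in
lemma ct_congr_UIso {Γ : Finset E} {X Y : Finset ι}
    (h : ∀ e ∈ Γ, (s e ∈ X ↔ t e ∈ X) ↔ (s e ∈ Y ↔ t e ∈ Y)) : ct s t Γ X = ct s t Γ Y :=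
  congrArg card (filter_congr fun e he => not_congr (h e he))

omit [DecidableEq E] in
/-- the smaller side of a cut -/
lemma small_UIso {Γ : Finset E} {U Y : Finset ι} (hΓ : ∀ e ∈ Γ, s e ∈ U ∧ t e ∈ U)
    (h : Sep U Y) : ∃ Z ⊆ U, Z.Nonempty ∧ 2 * #Z ≤ #U ∧ ct s t Γ Z = ct s t Γ Y := by
  obtain ⟨⟨a, ha, ha'⟩, b, hb, hb'⟩ := h
  have hc := card_sdiff_add_card_inter U Y
  rcases le_total #(U ∩ Y) #(U \ Y) with h | h
  · refine ⟨U ∩ Y, inter_subset_left, ⟨a, mem_inter.2 ⟨ha, ha'⟩⟩, by omega,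
      ct_congr_UIso fun e he => ?_⟩
    simp only [mem_inter, hΓ e he, true_and]
  · refine ⟨U \ Y, sdiff_subset, ⟨b, mem_sdiff.2 ⟨hb, hb'⟩⟩, by omega,
      ct_congr_UIso fun e he => ?_⟩
    simp only [mem_sdiff, hΓ e he, true_and, not_iff_not]

lemma three_UIso {B B₁ B₂ B₃ : Finset E} (h : ∀ e ∈ B, e ∈ B₁ ∨ e ∈ B₂ ∨ e ∈ B₃) :
    (#B : ℝ) ≤ #B₁ + #B₂ + #B₃ := by
  have h1 : #B ≤ #(B₁ ∪ (B₂ ∪ B₃)) := card_le_card fun e he => by
    simpa only [mem_union] using h e he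
  have h2 := card_union_le B₁ (B₂ ∪ B₃)
  have h3 := card_union_le B₂ B₃
  exact_mod_cast (by omega : #B ≤ #B₁ + #B₂ + #B₃)

/-- isoperimetry in a densest set -/
theorem iso_of_densest (hρ : 0 ≤ ρ) (h1 : (#(ins s t A S) : ℝ) = ρ * hh #S)
    (h2 : ∀ Y ⊆ S, (#(ins s t A Y) : ℝ) ≤ ρ * hh #Y) :
    ∀ Y ⊆ S, 2 * #Y ≤ #S → ρ * (#Y : ℝ) ^ (3 / 4 : ℝ) ≤ 8 * ct s t (ins s t A S) Y := by
  intro Y hY hc
  have h3 : (#(ins s t A S) : ℝ) ≤
      #(ins s t A Y) + #(ins s t A (S \ Y)) + ct s t (ins s t A S) Y :=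
    three_UIso fun e he => by
      simp only [ins, mem_filter, mem_sdiff] at he ⊢
      tauto
  have h4 : #S = #Y + #(S \ Y) := by
    rw [add_comm, card_sdiff_add_card_eq_card hY]
  have h5 : (#Y : ℝ) ≤ #(S \ Y) := by exact_mod_cast (by omega : #Y ≤ #(S \ Y))
  have h6 := mul_le_mul_of_nonneg_left (key_UIso (Nat.cast_nonneg _) h5) hρ
  have h7 := h2 Y hY
  have h8 := h2 (S \ Y) sdiff_subset
  rw [h4] at h1
  unfold hh at h1 h7 h8
  push_cast at h1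
  linarith

lemma forty_UIso {κ : ℕ} (hρ : 320 * (κ : ℝ) ≤ ρ) (h1 : (#(ins s t A S) : ℝ) = ρ * hh #S)
    (h2 : ∀ Y ⊆ S, (#(ins s t A Y) : ℝ) ≤ ρ * hh #Y) {Y : Finset ι} (hY : Y ⊆ S)
    (hn : Y.Nonempty) (hc : 2 * #Y ≤ #S) : 40 * κ ≤ ct s t (ins s t A S) Y := by
  have h0 : 0 ≤ ρ := le_trans (by positivity) hρ
  have h3 := iso_of_densest h0 h1 h2 Y hY hc
  have h4 : (1 : ℝ) ≤ (#Y : ℝ) ^ (3 / 4 : ℝ) :=
    Real.one_le_rpow (by exact_mod_cast hn.card_pos) (by norm_num)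
  have h5 := mul_le_mul_of_nonneg_left h4 h0
  have : 40 * (κ : ℝ) ≤ ct s t (ins s t A S) Y := by linarith
  exact_mod_cast this

theorem conn_of_densest {κ : ℕ} (hρ : 320 * (κ : ℝ) ≤ ρ) (h1 : (#(ins s t A S) : ℝ) = ρ * hh #S)
    (h2 : ∀ Y ⊆ S, (#(ins s t A Y) : ℝ) ≤ ρ * hh #Y) :
    ∀ Y, Sep S Y → κ ≤ ct s t (ins s t A S) Y := by
  intro Y hY
  obtain ⟨Z, hZ, hn, hc, e⟩ := small_UIso (s := s) (t := t) (Γ := ins s t A S)
    (fun e he => (mem_filter.1 he).2) hY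
  have := forty_UIso hρ h1 h2 hZ hn hc
  omega

theorem rob_of_densest {κ : ℕ} (hρ : 320 * (κ : ℝ) ≤ ρ) (h1 : (#(ins s t A S) : ℝ) = ρ * hh #S)
    (h2 : ∀ Y ⊆ S, (#(ins s t A Y) : ℝ) ≤ ρ * hh #Y)
    (hm : ∀ u ∈ S, ∀ v ∈ S, u ≠ v → #(btw s t A u v) < κ) :
    ∀ u ∈ S, ∀ Y, Sep (S.erase u) Y →
      κ ≤ ct s t {e ∈ ins s t A S | s e ≠ u ∧ t e ≠ u} Y := by
  intro u hu Y hY
  obtain ⟨Z, hZ, hn, hc, e⟩ := small_UIso (s := s) (t := t)
    (Γ := {e ∈ ins s t A S | s e ≠ u ∧ t e ≠ u}) (U := S.erase u) (fun e he => by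
      simp only [ins, mem_filter, mem_erase] at he ⊢
      tauto) hY
  rw [← e]
  have hZS : Z ⊆ S := hZ.trans (erase_subset _ _)
  have huZ : u ∉ Z := fun h => notMem_erase u S (hZ h)
  have hS := card_erase_add_one hu
  rcases le_or_gt #Z 39 with h39 | h39
  · have h3 := forty_UIso hρ h1 h2 hZS hn (by omega)
    have h4 : ct s t (ins s t A S) Z ≤ #({e ∈ {e ∈ ins s t A S | s e ≠ u ∧ t e ≠ u} |
        ¬ (s e ∈ Z ↔ t e ∈ Z)} ∪ Z.biUnion fun v => btw s t A u v) := card_le_card fun e he => by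
      obtain ⟨a1, a2⟩ := mem_filter.1 he
      have a3 : e ∈ A := (mem_filter.1 a1).1
      rw [mem_union]
      by_cases b1 : s e = u
      · refine Or.inr (mem_biUnion.2 ⟨t e, ?_, mem_filter.2 ⟨a3, Or.inl ⟨b1, rfl⟩⟩⟩)
        rw [b1] at a2
        tauto
      · by_cases b2 : t e = u
        · refine Or.inr (mem_biUnion.2 ⟨s e, ?_, mem_filter.2 ⟨a3, Or.inr ⟨rfl, b2⟩⟩⟩)
          rw [b2] at a2
          tauto
        · exact Or.inl (mem_filter.2 ⟨mem_filter.2 ⟨a1, b1, b2⟩, a2⟩)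
    have h5 : #(Z.biUnion fun v => btw s t A u v) ≤ #Z * κ :=
      card_biUnion_le_card_mul _ _ _ fun v hv =>
        (hm u hu v (hZS hv) fun h => huZ (h ▸ hv)).le
    have h6 := h4.trans (card_union_le _ _)
    have h7 : #Z * κ ≤ 39 * κ := Nat.mul_le_mul_right _ h39
    unfold ct at h3 h6 ⊢
    omega
  · have h0 : 0 ≤ ρ := le_trans (by positivity) hρ
    have h3 : (#(ins s t A S) : ℝ) ≤ #(ins s t A (insert u Z)) + #(ins s t A (S \ Z)) +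
        ct s t {e ∈ ins s t A S | s e ≠ u ∧ t e ≠ u} Z :=
      three_UIso fun e he => by
        simp only [ins, mem_filter, mem_sdiff, mem_insert] at he ⊢
        by_cases b1 : s e = u <;> by_cases b2 : t e = u <;> simp only [b1, b2] at he ⊢ <;> tauto
    have h4 : #S = #Z + #(S \ Z) := by
      rw [add_comm, card_sdiff_add_card_eq_card hZS]
    have h5 : (#Z : ℝ) + 1 ≤ #(S \ Z) := by exact_mod_cast (by omega : #Z + 1 ≤ #(S \ Z))
    have h6 := key_UIso (by positivity) h5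
    have h7 := h2 (insert u Z) (insert_subset hu hZS)
    have h8 := h2 (S \ Z) sdiff_subset
    have h9 : ((#Z : ℝ) + #(S \ Z)) ^ (3 / 4 : ℝ) ≤ ((#Z : ℝ) + 1 + #(S \ Z)) ^ (3 / 4 : ℝ) :=
      Real.rpow_le_rpow (by positivity) (by linarith) (by norm_num)
    have h10 : 16 ≤ ((#Z : ℝ) + 1) ^ (3 / 4 : ℝ) :=
      sixteen_UIso (by exact_mod_cast (by omega : 41 ≤ #Z + 1))
    have h11 := mul_le_mul_of_nonneg_left (h9.trans h6) h0
    have h12 := mul_le_mul_of_nonneg_left h10 h0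
    rw [h4] at h1
    rw [card_insert_of_notMem huZ] at h7
    unfold hh at h1 h7 h8
    push_cast at h1 h7
    have h13 : (0 : ℝ) ≤ κ := Nat.cast_nonneg _
    have : (κ : ℝ) ≤ ct s t {e ∈ ins s t A S | s e ≠ u ∧ t e ≠ u} Z := by linarith
    exact_mod_cast this

end Pool.Agent.P.MP_e59a69_co
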