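import Pool.Agent.P.MP_e59a69_co.UCoarea

open Finset

namespace Pool.Agent.P.MP_e59a69_co

variable {ι E : Type} [DecidableEq ι] [DecidableEq E]

omit [DecidableEq E] in
lemma ends_URes (s t : E → ι) (Γ : Finset E) (S : Finset ι)
    (hE : ∀ e ∈ Γ, s e ∈ S ∧ t e ∈ S ∧ s e ≠ t e) (f : ι → ℝ) :
    ∑ e ∈ Γ, (f (s e) + f (t e)) = ∑ v ∈ S, f v * ct s t Γ {v} := by
  have h1 : ∀ v ∈ S, f v * (ct s t Γ {v} : ℝ) =
      ∑ e ∈ Γ, ((if s e = v then f v else 0) + if t e = v then f v else 0) := by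
    intro v _
    unfold ct
    rw [card_filter, Nat.cast_sum, mul_sum]
    refine sum_congr rfl fun e he => ?_
    have h3 := (hE e he).2.2
    by_cases a : s e = v <;> by_cases b : t e = v
    · exact absurd (a.trans b.symm) h3
    · simp [a, b]
    · simp [a, b]
    · simp [a, b]
  rw [sum_congr rfl h1, sum_comm]
  refine sum_congr rfl fun e he => ?_
  rw [sum_add_distrib, sum_ite_eq, sum_ite_eq, if_pos (hE e he).1, if_pos (hE e he).2.1]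

lemma one_URes (s t : E → ι) (Γ : Finset E) (S : Finset ι)
    (hE : ∀ e ∈ Γ, s e ∈ S ∧ t e ∈ S ∧ s e ≠ t e) (Δ : ℕ) (hΔ : ∀ u ∈ S, ct s t Γ {u} ≤ Δ)
    (ρ : ℝ) (hρ : 0 < ρ)
    (h : ∀ Y ⊆ S, 2 * #Y ≤ #S → ρ * (#Y : ℝ) ^ (3 / 4 : ℝ) ≤ 8 * ct s t Γ Y) (x : ι → ℝ)
    (m : ℝ) (hm : 2 * #{v ∈ S | m < x v} ≤ #S) (u : ι) (hu : u ∈ S) (hx : m ≤ x u) :
    ρ ^ 2 * (x u - m) ^ 2 ≤ 384 * Δ * ∑ e ∈ Γ, (x (s e) - x (t e)) ^ 2 := by
  obtain ⟨P, hP⟩ : ∃ P : Finset ι, P = {v ∈ S | m < x v} := ⟨_, rfl⟩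
  obtain ⟨r, hr⟩ : ∃ r : ι → ℕ, ∀ v, r v = #{y ∈ P | x v ≤ x y} := ⟨_, fun _ => rfl⟩
  obtain ⟨w, hw⟩ : ∃ w : ι → ℝ, ∀ v,
      w v = if v ∈ P then 8 * (r v : ℝ) ^ (-(3 / 4) : ℝ) else 0 := ⟨_, fun _ => rfl⟩
  obtain ⟨g, hg⟩ : ∃ g : ι → ℝ, ∀ v, g v = max (x v - m) 0 := ⟨_, fun _ => rfl⟩
  have hw0 : ∀ v, 0 ≤ w v := fun v => by
    rw [hw]
    split_ifs
    · positivity
    · exact le_rfl
  have hg0 : ∀ v, 0 ≤ g v := fun v => by rw [hg]; exact le_max_right _ _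
  have hgP : ∀ τ : ℝ, 0 ≤ τ → ∀ v, τ < g v → m < x v := fun τ hτ v hv => by
    rw [hg] at hv
    rcases lt_max_iff.1 hv with a | a <;> linarith
  have key := wcoarea s t Γ S (fun e he => ⟨(hE e he).1, (hE e he).2.1⟩) w hw0 ρ g hg0
    (fun τ hτ v hv hlt => by
      have hvP : v ∈ P := by rw [hP]; exact mem_filter.2 ⟨hv, hgP τ hτ v hlt⟩
      have hYP : {y ∈ S | τ < g y} ⊆ {v ∈ S | m < x v} := fun y hy =>
        mem_filter.2 ⟨(mem_filter.1 hy).1, hgP τ hτ y (mem_filter.1 hy).2⟩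
      have h1 := h {y ∈ S | τ < g y} (filter_subset _ _) (by
        have := card_le_card hYP
        omega)
      have h2 : r v ≤ #{y ∈ S | τ < g y} := by
        rw [hr]
        refine card_le_card fun y hy => ?_
        obtain ⟨a, b⟩ := mem_filter.1 hy
        rw [hP] at a
        refine mem_filter.2 ⟨(mem_filter.1 a).1, hlt.trans_le ?_⟩
        rw [hg, hg]
        exact max_le_max (by linarith) le_rfl
      have h3 : 0 < r v := by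
        rw [hr]
        exact card_pos.2 ⟨v, mem_filter.2 ⟨hvP, le_rfl⟩⟩
      have h4 : (0 : ℝ) < r v := Nat.cast_pos.2 h3
      have h5 : (r v : ℝ) ^ (3 / 4 : ℝ) ≤ (#{y ∈ S | τ < g y} : ℝ) ^ (3 / 4 : ℝ) :=
        Real.rpow_le_rpow h4.le (Nat.cast_le.2 h2) (by norm_num)
      have h6 : 0 < (r v : ℝ) ^ (3 / 4 : ℝ) := Real.rpow_pos_of_pos h4 _
      rw [hw, if_pos hvP, Real.rpow_neg h4.le, mul_right_comm, ← div_eq_mul_inv, le_div_iff₀ h6]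
      exact (mul_le_mul_of_nonneg_left h5 hρ.le).trans h1) u hu
  have hgu : g u = x u - m := by rw [hg]; exact max_eq_left (by linarith)
  rw [hgu] at key
  have c1 := sum_mul_sq_le_sq_mul_sq Γ (fun e => w (s e) + w (t e))
    (fun e => |g (s e) - g (t e)|)
  have c2 : ∑ e ∈ Γ, |g (s e) - g (t e)| ^ 2 ≤ ∑ e ∈ Γ, (x (s e) - x (t e)) ^ 2 := by
    refine sum_le_sum fun e _ => ?_
    rw [sq_abs, sq_le_sq, hg, hg]
    have := abs_max_sub_max_le_abs (x (s e) - m) (x (t e) - m) 0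
    rwa [sub_sub_sub_cancel_right] at this
  have c3 : ∑ v ∈ S, w v ^ 2 ≤ 192 := by
    have a1 : ∑ v ∈ S, w v ^ 2 = ∑ v ∈ P, w v ^ 2 := by
      refine (sum_subset (by rw [hP]; exact filter_subset _ _) fun v _ hv => ?_).symm
      rw [hw, if_neg hv]
      ring
    have a2 : ∑ v ∈ P, w v ^ 2 =
        64 * ∑ v ∈ P, ((#{y ∈ P | x v ≤ x y} : ℕ) : ℝ) ^ (-(3 / 2) : ℝ) := by
      rw [mul_sum]
      refine sum_congr rfl fun v hv => ?_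
      rw [hw, if_pos hv, mul_pow, ← hr, ← Real.rpow_natCast ((r v : ℝ) ^ _),
        ← Real.rpow_mul (Nat.cast_nonneg _)]
      norm_num
    have a3 := sum_rank P x
    linarith
  have c4 : ∑ e ∈ Γ, (w (s e) + w (t e)) ^ 2 ≤ 384 * Δ := by
    have a1 : ∑ e ∈ Γ, (w (s e) + w (t e)) ^ 2 ≤
        2 * ∑ e ∈ Γ, (w (s e) ^ 2 + w (t e) ^ 2) := by
      rw [mul_sum]
      exact sum_le_sum fun e _ => by nlinarith [sq_nonneg (w (s e) - w (t e))]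
    have a2 := ends_URes s t Γ S hE fun v => w v ^ 2
    have a3 : ∑ v ∈ S, w v ^ 2 * ct s t Γ {v} ≤ (∑ v ∈ S, w v ^ 2) * Δ := by
      rw [sum_mul]
      exact sum_le_sum fun v hv =>
        mul_le_mul_of_nonneg_left (Nat.cast_le.2 (hΔ v hv)) (sq_nonneg _)
    have a4 := mul_le_mul_of_nonneg_right c3 (Nat.cast_nonneg (α := ℝ) Δ)
    linarith
  have c5 := mul_le_mul c4 c2 (sum_nonneg fun _ _ => sq_nonneg _) (by positivity)
  have c6 := pow_le_pow_left₀ (mul_nonneg hρ.le (by linarith)) key 2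
  rw [mul_pow] at c6
  linarith

/-- isoperimetry and bounded degree give small resistances -/
theorem res_of_iso (s t : E → ι) (Γ : Finset E) (S : Finset ι)
    (hE : ∀ e ∈ Γ, s e ∈ S ∧ t e ∈ S ∧ s e ≠ t e) (Δ : ℕ) (hΔ : ∀ u ∈ S, ct s t Γ {u} ≤ Δ)
    (ρ : ℝ) (hρ : 0 < ρ)
    (h : ∀ Y ⊆ S, 2 * #Y ≤ #S → ρ * (#Y : ℝ) ^ (3 / 4 : ℝ) ≤ 8 * ct s t Γ Y) (x : ι → ℝ) :
    ∀ u ∈ S, ∀ v ∈ S,
      ρ ^ 2 * (x u - x v) ^ 2 ≤ 1536 * Δ * ∑ e ∈ Γ, (x (s e) - x (t e)) ^ 2 := by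
  intro u hu v hv
  obtain ⟨m, h1, h2⟩ := exists_median S ⟨u, hu⟩ x
  have all : ∀ y ∈ S, ρ ^ 2 * (x y - m) ^ 2 ≤ 384 * Δ * ∑ e ∈ Γ, (x (s e) - x (t e)) ^ 2 := by
    intro y hy
    rcases le_total m (x y) with a | a
    · exact one_URes s t Γ S hE Δ hΔ ρ hρ h x m h1 y hy a
    · have := one_URes s t Γ S hE Δ hΔ ρ hρ h (fun z => - x z) (-m)
        (by simpa only [neg_lt_neg_iff] using h2) y hy (neg_le_neg a)
      have e1 : ∑ e ∈ Γ, (- x (s e) - - x (t e)) ^ 2 = ∑ e ∈ Γ, (x (s e) - x (t e)) ^ 2 :=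
        sum_congr rfl fun e _ => by ring
      have e2 : (- x y - - m) ^ 2 = (x y - m) ^ 2 := by ring
      rwa [e1, e2] at this
  have a1 := all u hu
  have a2 := all v hv
  have a3 : (x u - x v) ^ 2 ≤ 2 * (x u - m) ^ 2 + 2 * (x v - m) ^ 2 := by
    nlinarith [sq_nonneg (x u + x v - 2 * m)]
  have a4 := mul_le_mul_of_nonneg_left a3 (sq_nonneg ρ)
  linarith

end Pool.Agent.P.MP_e59a69_co
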