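import Pool.Agent.P.MP_e59a69_co.UFin
import Pool.Agent.P.MP_e59a69_co.UDense
import Pool.Agent.P.MP_e59a69_co.UIso
import Pool.Agent.P.MP_e59a69_co.URes
import Pool.Agent.P.MP_e59a69_co.UThin

open Finset

namespace Pool.Agent.P.MP_e59a69_co

/-- small resistances give thin connected parts -/
def JoinOk (ι E : Type) [DecidableEq ι] (Λ T : ℕ) : Prop :=
  ∀ (s t : E → ι) (Γ : Finset E) (S : Finset ι), Conn s t S Γ →
    (∀ x : ι → ℝ, ∀ e ∈ Γ, Λ * (x (s e) - x (t e)) ^ 2 ≤ ∑ f ∈ Γ, (x (s f) - x (t f)) ^ 2) →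
    ∃ J ⊆ Γ, Conn s t S J ∧ ∀ Y, T * ct s t J Y ≤ ct s t Γ Y

variable {ι E : Type} [DecidableEq ι] [DecidableEq E] {q κ K b Δ T c₁ c₂ Λ : ℕ}
  {U : Finset ι} {s t : E → ι} {A : Finset E}

/-- all degrees are large -/
theorem case_dense (P : Par q κ K b Δ T c₁ c₂ Λ) (hJ : JoinOk ι E Λ T) (h : St K b s t A U)
    (hU : U.Nonempty) (hm : ∀ u ∈ U, ∀ v ∈ U, u ≠ v → #(btw s t A u v) < κ)
    (hdeg : ∀ u ∈ U, K + b < ct s t A {u}) :
    ∃ S ⊆ U, Gam κ Δ T s t (ins s t A S) S := by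
  have k1 := P.k1
  have hρ' := P.hρ
  obtain ⟨S, hS, ρ, r1, r2, r3, r4, r5⟩ := exists_densest h hU (by omega) P.hd hdeg
  have k2 : (1 : ℝ) ≤ κ := by exact_mod_cast k1
  have hρ : 320 * (κ : ℝ) ≤ ρ := by
    have : ((640 * κ : ℕ) : ℝ) ≤ b := by exact_mod_cast hρ'
    push_cast at this
    linarith
  have hρ0 : 0 < ρ := by linarith
  have hE : ∀ e ∈ ins s t A S, s e ∈ S ∧ t e ∈ S ∧ s e ≠ t e := fun e he => by
    obtain ⟨a, b, c⟩ := mem_filter.1 he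
    exact ⟨b, c, h.noloop a⟩
  have hD : ∀ u ∈ S, ct s t (ins s t A S) {u} ≤ Δ := fun u hu =>
    (ct_mono s t (filter_subset _ _) _).trans (r3 u hu)
  have hc := conn_of_densest hρ r4 r5
  refine ⟨S, hS, r2, hE, hc, rob_of_densest hρ r4 r5 fun u hu v hv => hm u (hS hu) v (hS hv), hD,
    hJ s t _ S (fun X hX => k1.trans (hc X hX)) fun x e he => ?_⟩
  have h1 := res_of_iso s t _ S hE Δ hD ρ hρ0 (iso_of_densest hρ0.le r4 r5) x _ (hE e he).1 _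
    (hE e he).2.1
  have h2 : ((1536 * Δ * Λ : ℕ) : ℝ) ≤ ((320 * κ) ^ 2 : ℕ) := by exact_mod_cast P.hΛ
  push_cast at h2
  have h3 : (320 * (κ : ℝ)) ^ 2 ≤ ρ ^ 2 := pow_le_pow_left₀ (by positivity) hρ 2
  have h4 : (0 : ℝ) < 1536 * Δ := by
    have : (κ : ℝ) ≤ Δ := by exact_mod_cast P.hΔ
    linarith
  refine le_of_mul_le_mul_left ?_ h4
  have h5 := mul_le_mul_of_nonneg_right (h2.trans h3) (sq_nonneg (x (s e) - x (t e)))
  linarith

/-- two units joined by many edges -/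
theorem case_pair (P : Par q κ K b Δ T c₁ c₂ Λ) {u v : ι} (huv : u ≠ v)
    (hm : κ ≤ #(btw s t A u v)) : ∃ Γ ⊆ ins s t A {u, v}, Gam κ Δ T s t Γ {u, v} := by
  obtain ⟨Γ, h1, h2⟩ := exists_subset_card_eq hm
  refine ⟨Γ, fun e he => ?_, gam_pair P.k1 P.hΔ P.hT s t Γ huv h2 fun e he =>
    (mem_filter.1 (h1 he)).2⟩
  obtain ⟨a, ⟨b, c⟩ | ⟨b, c⟩⟩ := mem_filter.1 (h1 he) <;> simp [ins, a, b, c]

omit [DecidableEq E] in
/-- a state with two units -/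
theorem two_units (P : Par q κ K b Δ T c₁ c₂ Λ) (h : St K b s t A U) (h2 : #U = 2) :
    ∃ u ∈ U, ∃ v ∈ U, u ≠ v ∧ κ ≤ #(btw s t A u v) := by
  obtain ⟨u, v, huv, rfl⟩ := card_eq_two.1 h2
  refine ⟨u, by simp, v, by simp, huv, ?_⟩
  have h3 : A ⊆ btw s t A u v := fun e he => by
    have a := h.noloop he
    obtain ⟨b, c⟩ := h.ends e he
    simp only [mem_insert, mem_singleton] at b c
    refine mem_filter.2 ⟨he, ?_⟩
    rcases b with b | b <;> rcases c with c | c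
    · exact (a (b.trans c.symm)).elim
    · exact Or.inl ⟨b, c⟩
    · exact Or.inr ⟨b, c⟩
    · exact (a (b.trans c.symm)).elim
  have h4 := card_le_card h3
  have h5 := h.two
  have h6 := P.hK
  rw [h2] at h5
  omega

end Pool.Agent.P.MP_e59a69_co
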