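import Pool.Agent.P.MP_e59a69_co.UDefs

open Finset

namespace Pool.Agent.P.MP_e59a69_co

variable {ι E : Type} [DecidableEq ι] [DecidableEq E]

omit [DecidableEq E] in
lemma level_UCoarea (s t : E → ι) (Γ : Finset E) (Y : Finset ι) (w : ι → ℝ) (hw : ∀ v, 0 ≤ w v)
    {ρ : ℝ} (hρ : 0 < ρ) (hY : Y.Nonempty) (h : ∀ v ∈ Y, ρ ≤ w v * ct s t Γ Y) :
    ρ ≤ ∑ e ∈ Γ, (w (s e) + w (t e)) * if (s e ∈ Y ↔ t e ∈ Y) then 0 else 1 := by
  obtain ⟨v, hv⟩ := hY
  have hc : (0 : ℝ) < ct s t Γ Y := by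
    rcases (Nat.cast_nonneg (α := ℝ) (ct s t Γ Y)).eq_or_lt with h0 | h0
    · have := h v hv
      rw [← h0, mul_zero] at this
      linarith
    · exact h0
  refine le_of_mul_le_mul_right ?_ hc
  have h1 : (ct s t Γ Y : ℝ) = ∑ e ∈ Γ, if (s e ∈ Y ↔ t e ∈ Y) then (0 : ℝ) else 1 := by
    rw [ct, card_filter]
    push_cast
    exact sum_congr rfl fun e _ => by split_ifs <;> rfl
  rw [sum_mul]
  calc ρ * ct s t Γ Y = ∑ e ∈ Γ, ρ * if (s e ∈ Y ↔ t e ∈ Y) then (0 : ℝ) else 1 := by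
        rw [← mul_sum, ← h1]
    _ ≤ _ := by
      refine sum_le_sum fun e _ => ?_
      split_ifs with he
      · simp
      · rw [mul_one, mul_one, add_mul]
        have a := mul_nonneg (hw (s e)) hc.le
        have b := mul_nonneg (hw (t e)) hc.le
        by_cases hs : s e ∈ Y
        · linarith [h _ hs]
        · have ht : t e ∈ Y := by
            by_contra ht
            exact he ⟨fun x => (hs x).elim, fun x => (ht x).elim⟩
          linarith [h _ ht]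

omit [DecidableEq E] in
lemma aux_UCoarea (s t : E → ι) (Γ : Finset E) (S : Finset ι) (hE : ∀ e ∈ Γ, s e ∈ S ∧ t e ∈ S)
    (w : ι → ℝ) (hw : ∀ v, 0 ≤ w v) {ρ : ℝ} (hρ : 0 < ρ) (n : ℕ) : ∀ (g : ι → ℝ), (∀ v, 0 ≤ g v) →
    #{x ∈ S | 0 < g x} ≤ n →
    (∀ τ : ℝ, 0 ≤ τ → ∀ v ∈ S, τ < g v → ρ ≤ w v * ct s t Γ {x ∈ S | τ < g x}) →
    ∀ v ∈ S, ρ * g v ≤ ∑ e ∈ Γ, (w (s e) + w (t e)) * |g (s e) - g (t e)| := by
  induction n with
  | zero =>
    intro g hg hn _ v hv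
    have h0 : g v = 0 := by
      by_contra h0
      have : v ∈ ({x ∈ S | 0 < g x} : Finset ι) :=
        mem_filter.2 ⟨hv, lt_of_le_of_ne (hg v) (Ne.symm h0)⟩
      have := card_pos.2 ⟨v, this⟩
      omega
    rw [h0, mul_zero]
    exact sum_nonneg fun e _ => mul_nonneg (add_nonneg (hw _) (hw _)) (abs_nonneg _)
  | succ n ih =>
    intro g hg hn h v hv
    rcases (hg v).eq_or_lt with h0 | h0
    · rw [← h0, mul_zero]
      exact sum_nonneg fun e _ => mul_nonneg (add_nonneg (hw _) (hw _)) (abs_nonneg _)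
    set Y : Finset ι := {x ∈ S | 0 < g x} with hY
    have hvY : v ∈ Y := mem_filter.2 ⟨hv, h0⟩
    obtain ⟨a, ha, hmin⟩ := exists_min_image Y g ⟨v, hvY⟩
    have hm : 0 < g a := (mem_filter.1 ha).2
    have hin : ∀ x ∈ Y, max (g x - g a) 0 = g x - g a := fun x hx =>
      max_eq_left (sub_nonneg.2 (hmin x hx))
    have hout : ∀ x ∈ S, x ∉ Y → g x = 0 ∧ max (g x - g a) 0 = 0 := fun x hx hx' => by
      have : g x = 0 := le_antisymm (not_lt.1 fun c => hx' (mem_filter.2 ⟨hx, c⟩)) (hg x)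
      exact ⟨this, max_eq_right (by linarith)⟩
    have h1 := ih (fun x => max (g x - g a) 0) (fun x => le_max_right _ _) (by
      have : ({x ∈ S | 0 < max (g x - g a) 0} : Finset ι) ⊆ Y.erase a := fun x hx => by
        obtain ⟨x1, x2⟩ := mem_filter.1 hx
        have x3 : g a < g x := by
          rcases lt_max_iff.1 x2 with c | c
          · linarith
          · exact (lt_irrefl _ c).elim
        exact mem_erase.2 ⟨fun c => by rw [c] at x3; exact lt_irrefl _ x3,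
          mem_filter.2 ⟨x1, hm.trans x3⟩⟩
      have h2 := card_le_card this
      rw [card_erase_of_mem ha] at h2
      omega) (fun τ hτ x hx hlt => by
      have e : ∀ y, τ < max (g y - g a) 0 ↔ τ + g a < g y := fun y => by
        rw [lt_max_iff]
        exact ⟨fun c => c.elim (fun c => by linarith) fun c => by linarith,
          fun c => Or.inl (by linarith)⟩
      simp only [e]
      exact h _ (by linarith) x hx ((e x).1 hlt)) v hv
    have h2 := level_UCoarea s t Γ Y w hw hρ ⟨v, hvY⟩ fun x hx =>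
      h 0 le_rfl x (mem_filter.1 hx).1 (mem_filter.1 hx).2
    have h3 := mul_le_mul_of_nonneg_right h2 hm.le
    rw [sum_mul] at h3
    rw [hin v hvY] at h1
    refine le_trans (b := _ + _) (by linarith) ((add_le_add h1 h3).trans ?_)
    rw [← sum_add_distrib]
    refine sum_le_sum fun e he => ?_
    rw [mul_assoc, ← mul_add]
    refine mul_le_mul_of_nonneg_left ?_ (add_nonneg (hw _) (hw _))
    obtain ⟨e1, e2⟩ := hE e he
    by_cases hs : s e ∈ Y <;> by_cases ht : t e ∈ Y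
    · rw [hin _ hs, hin _ ht, if_pos (iff_of_true hs ht)]
      simp
    · rw [hin _ hs, (hout _ e2 ht).2, (hout _ e2 ht).1, if_neg fun c => ht (c.1 hs), sub_zero,
        sub_zero, abs_of_nonneg (sub_nonneg.2 (hmin _ hs)), abs_of_nonneg (hg _)]
      linarith
    · rw [hin _ ht, (hout _ e1 hs).2, (hout _ e1 hs).1, if_neg fun c => hs (c.2 ht), zero_sub,
        zero_sub, abs_neg, abs_neg, abs_of_nonneg (sub_nonneg.2 (hmin _ ht)),
        abs_of_nonneg (hg _)]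
      linarith
    · rw [(hout _ e1 hs).2, (hout _ e2 ht).2, if_pos (iff_of_false hs ht)]
      simp

/-- weighted coarea inequality -/
theorem wcoarea (s t : E → ι) (Γ : Finset E) (S : Finset ι) (hE : ∀ e ∈ Γ, s e ∈ S ∧ t e ∈ S)
    (w : ι → ℝ) (hw : ∀ v, 0 ≤ w v) (ρ : ℝ) (g : ι → ℝ) (hg : ∀ v, 0 ≤ g v)
    (h : ∀ τ : ℝ, 0 ≤ τ → ∀ v ∈ S, τ < g v → ρ ≤ w v * ct s t Γ {x ∈ S | τ < g x}) :
    ∀ v ∈ S, ρ * g v ≤ ∑ e ∈ Γ, (w (s e) + w (t e)) * |g (s e) - g (t e)| := by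
  rcases le_or_gt ρ 0 with hρ | hρ
  · intro v _
    exact (mul_nonpos_of_nonpos_of_nonneg hρ (hg v)).trans
      (sum_nonneg fun e _ => mul_nonneg (add_nonneg (hw _) (hw _)) (abs_nonneg _))
  · exact aux_UCoarea s t Γ S hE w hw hρ _ g hg le_rfl h

lemma pow_UCoarea {x : ℝ} (hx : 0 ≤ x) : x ^ (-(3 / 2) : ℝ) = 1 / √x ^ 3 := by
  rw [Real.sqrt_eq_rpow, ← Real.rpow_natCast, ← Real.rpow_mul hx, Real.rpow_neg hx, one_div]
  norm_num

lemma step_UCoarea {x : ℝ} (hx : 0 < x) : 1 / √(x + 1) ^ 3 ≤ 2 / √x - 2 / √(x + 1) := by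
  have ha : 0 < √x := Real.sqrt_pos.2 hx
  have hb : 0 < √(x + 1) := Real.sqrt_pos.2 (by linarith)
  have hab : √x ≤ √(x + 1) := Real.sqrt_le_sqrt (by linarith)
  have h1 : √(x + 1) ^ 2 = √x ^ 2 + 1 := by
    rw [Real.sq_sqrt hx.le, Real.sq_sqrt (by linarith)]
  generalize √x = a at *
  generalize √(x + 1) = b at *
  rw [div_sub_div _ _ ha.ne' hb.ne', div_le_div_iff₀ (by positivity) (by positivity)]
  have h2 : (b - a) * (a + b) = 1 := by linarith
  have h3 : a * b * (a + b) ≤ 2 * b ^ 3 := by nlinarith [mul_pos ha hb, mul_pos hb hb]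
  have h4 := mul_le_mul_of_nonneg_left h3 (sub_nonneg.2 hab)
  have h5 : (b - a) * (a * b * (a + b)) = a * b := by
    rw [show (b - a) * (a * b * (a + b)) = a * b * ((b - a) * (a + b)) by ring, h2, mul_one]
  linarith

lemma rank_UCoarea (g : ι → ℝ) (n : ℕ) : ∀ P : Finset ι, #P = n + 1 →
    ∑ v ∈ P, ((#{x ∈ P | g v ≤ g x} : ℕ) : ℝ) ^ (-(3 / 2) : ℝ) ≤ 3 - 2 / √(n + 1 : ℝ) := by
  induction n with
  | zero =>
    intro P hP
    obtain ⟨a, rfl⟩ := card_eq_one.1 hP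
    rw [sum_singleton, filter_singleton, if_pos le_rfl]
    norm_num
  | succ n ih =>
    intro P hP
    obtain ⟨a, ha, hmin⟩ := exists_min_image P g (card_pos.1 (by omega))
    have h1 := ih (P.erase a) (by rw [card_erase_of_mem ha]; omega)
    rw [← add_sum_erase _ _ ha, filter_true_of_mem hmin, hP, pow_UCoarea (Nat.cast_nonneg _)]
    have h2 : ∑ v ∈ P.erase a, ((#{x ∈ P | g v ≤ g x} : ℕ) : ℝ) ^ (-(3 / 2) : ℝ) ≤
        ∑ v ∈ P.erase a, ((#{x ∈ P.erase a | g v ≤ g x} : ℕ) : ℝ) ^ (-(3 / 2) : ℝ) :=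
      sum_le_sum fun v hv => Real.rpow_le_rpow_of_nonpos
        (Nat.cast_pos.2 (card_pos.2 ⟨v, mem_filter.2 ⟨hv, le_rfl⟩⟩))
        (Nat.cast_le.2 (card_le_card (filter_subset_filter _ (erase_subset _ _)))) (by norm_num)
    have h3 := step_UCoarea (x := (n + 1 : ℝ)) (by positivity)
    push_cast
    linarith

theorem sum_rank (P : Finset ι) (g : ι → ℝ) :
    ∑ v ∈ P, ((#{x ∈ P | g v ≤ g x} : ℕ) : ℝ) ^ (-(3 / 2) : ℝ) ≤ 3 := by
  rcases P.eq_empty_or_nonempty with rfl | hP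
  · simp
  · have := card_pos.2 hP
    refine (rank_UCoarea g (#P - 1) P (by omega)).trans ?_
    exact sub_le_self _ (by positivity)

theorem exists_median (S : Finset ι) (hS : S.Nonempty) (x : ι → ℝ) :
    ∃ m : ℝ, 2 * #{v ∈ S | m < x v} ≤ #S ∧ 2 * #{v ∈ S | x v < m} ≤ #S := by
  obtain ⟨c, hc, hmax⟩ := exists_max_image S x hS
  obtain ⟨a, ha, hmin⟩ := exists_min_image {a ∈ S | 2 * #{v ∈ S | x a < x v} ≤ #S} x
    ⟨c, mem_filter.2 ⟨hc, by
      rw [filter_false_of_mem fun v hv => not_lt.2 (hmax v hv)]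
      simp⟩⟩
  refine ⟨x a, (mem_filter.1 ha).2, ?_⟩
  rcases ({v ∈ S | x v < x a} : Finset ι).eq_empty_or_nonempty with h | h
  · rw [h]
    simp
  obtain ⟨b, hb, hbm⟩ := exists_max_image _ x h
  obtain ⟨b1, b2⟩ := mem_filter.1 hb
  have h1 : #S < 2 * #{v ∈ S | x b < x v} :=
    not_le.1 fun c => not_le.2 b2 (hmin b (mem_filter.2 ⟨b1, c⟩))
  have h2 : #{v ∈ S | x v < x a} + #{v ∈ S | x b < x v} ≤ #S := by
    rw [← card_union_of_disjoint (disjoint_left.2 fun v hv hv' =>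
      not_le.2 (mem_filter.1 hv').2 (hbm v hv))]
    exact card_le_card (union_subset (filter_subset _ _) (filter_subset _ _))
  omega

end Pool.Agent.P.MP_e59a69_co
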