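import Pool.Agent.P.MP_e59a69_co.UDefs

open Finset

namespace Pool.Agent.P.MP_e59a69_co

variable {ι E : Type} [DecidableEq ι] [DecidableEq E] {K b : ℕ} {s t : E → ι} {A : Finset E}
  {U : Finset ι}

omit [DecidableEq E] in
lemma mem_ins_UContr {S : Finset ι} {e : E} : e ∈ ins s t A S ↔ e ∈ A ∧ s e ∈ S ∧ t e ∈ S :=
  mem_filter

omit [DecidableEq E] in
lemma ins_mono_UContr {B : Finset E} (h : B ⊆ A) (S : Finset ι) : ins s t B S ⊆ ins s t A S :=
  filter_subset_filter _ h

/-- a near-tight set carries a state -/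
lemma St.sub (h : St K b s t A U) {S : Finset ι} (hS : S ⊆ U)
    (ht : K * #S ≤ #(ins s t A S) + b + K) : St K b s t (ins s t A S) S := by
  refine ⟨fun e he => (mem_ins_UContr.1 he).2, fun T hT hne => ?_, ht⟩
  have h1 := h.one T (hT.trans hS) hne
  have h2 : #(ins s t (ins s t A S) T) ≤ #(ins s t A T) :=
    card_le_card (ins_mono_UContr (filter_subset _ _) T)
  omega

lemma ct_ins_add {N : Type} [DecidableEq N] (s' t' : E → N) {A' : Finset E} {S : Finset ι}
    (h : A' ⊆ A \ ins s t A S) (X : Finset N) :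
    ct s' t' A' X + ct s' t' (ins s t A S) X ≤ ct s' t' A X := by
  unfold ct
  rw [← card_union_of_disjoint, ← filter_union]
  · refine card_le_card (filter_subset_filter _ (union_subset (h.trans sdiff_subset) ?_))
    exact filter_subset _ _
  · exact disjoint_filter_filter (disjoint_left.2 fun e he => (mem_sdiff.1 (h he)).2)

omit [DecidableEq E] in
lemma image_ctr_UContr {S : Finset ι} (hS : S ⊆ U) {r : ι} (hr : r ∈ S) :
    U.image (ctr S r) = insert r (U \ S) := by
  ext x
  simp only [mem_image, mem_insert, mem_sdiff, ctr]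
  constructor
  · rintro ⟨y, hy, rfl⟩
    by_cases k : y ∈ S
    · exact Or.inl (if_pos k)
    · rw [if_neg k]
      exact Or.inr ⟨hy, k⟩
  · rintro (rfl | ⟨h1, h2⟩)
    · exact ⟨x, hS hr, if_pos hr⟩
    · exact ⟨x, h1, if_neg h2⟩

lemma card_ctr {S : Finset ι} (hS : S ⊆ U) {r : ι} (hr : r ∈ S) :
    #(U.image (ctr S r)) + #S = #U + 1 := by
  rw [image_ctr_UContr hS hr, card_insert_of_notMem fun h => (mem_sdiff.1 h).2 hr]
  have := card_sdiff_add_card_eq_card hS
  omega

lemma image_ctr {S : Finset ι} (hS : S ⊆ U) {r : ι} (hr : r ∈ S) :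
    U.image (ctr S r) = insert r (U \ S) := image_ctr_UContr hS hr

omit [DecidableEq E] in
lemma ins_super_UContr (B : Finset E) (X Y : Finset ι) :
    #(ins s t B X) + #(ins s t B Y) ≤ #(ins s t B (X ∩ Y)) + #(ins s t B (X ∪ Y)) := by
  unfold ins
  simp only [card_filter]
  rw [← Finset.sum_add_distrib, ← Finset.sum_add_distrib]
  refine Finset.sum_le_sum fun e _ => ?_
  by_cases a : s e ∈ X <;> by_cases b : t e ∈ X <;> by_cases c : s e ∈ Y <;>
    by_cases d : t e ∈ Y <;> simp [a, b, c, d]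

lemma trim_UContr (r : ι) (m : ℕ) (B : Finset E)
    (h1 : ∀ T ⊆ U, T.Nonempty → r ∉ T → #(ins s t B T) + K ≤ K * #T)
    (h2 : ∀ T ⊆ U, r ∈ T → #(ins s t B T) + K ≤ K * #T + m) :
    ∃ B' ⊆ B, (∀ T ⊆ U, T.Nonempty → #(ins s t B' T) + K ≤ K * #T) ∧ #B ≤ #B' + m := by
  induction m generalizing B with
  | zero =>
    refine ⟨B, Subset.rfl, fun T hT hne => ?_, le_rfl⟩
    by_cases k : r ∈ T
    · exact h2 T hT k
    · exact h1 T hT hne k
  | succ m ih =>
    obtain ⟨F, hF⟩ : ∃ F : Finset (Finset ι), ∀ T, T ∈ F ↔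
        T ⊆ U ∧ r ∈ T ∧ #(ins s t B T) + K = K * #T + (m + 1) :=
      ⟨U.powerset.filter fun T => r ∈ T ∧ #(ins s t B T) + K = K * #T + (m + 1), fun T => by
        rw [mem_filter, mem_powerset]⟩
    have hn : ∀ T ⊆ U, r ∈ T → T ∉ F → #(ins s t B T) + K ≤ K * #T + m := by
      intro T hT k hc
      have k1 := h2 T hT k
      have k2 : #(ins s t B T) + K ≠ K * #T + (m + 1) := fun e => hc ((hF T).2 ⟨hT, k, e⟩)
      omega
    rcases F.eq_empty_or_nonempty with rfl | hne
    · obtain ⟨B', k1, k2, k3⟩ := ih B h1 fun T hT k => hn T hT k (notMem_empty T)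
      exact ⟨B', k1, k2, by omega⟩
    obtain ⟨T₀, hT₀, hmin⟩ := exists_min_image F card hne
    obtain ⟨a1, a2, a3⟩ := (hF T₀).1 hT₀
    have hsub : ∀ T ∈ F, T₀ ⊆ T := by
      intro T hT
      obtain ⟨b1, b2, b3⟩ := (hF T).1 hT
      have c1 := ins_super_UContr (s := s) (t := t) B T₀ T
      have c2 := h2 (T₀ ∩ T) (inter_subset_left.trans a1) (mem_inter.2 ⟨a2, b2⟩)
      have c3 := h2 (T₀ ∪ T) (union_subset a1 b1) (mem_union_left _ a2)
      have c4 : K * #(T₀ ∩ T) + K * #(T₀ ∪ T) = K * #T₀ + K * #T := by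
        rw [← mul_add, ← mul_add, card_inter_add_card_union]
      have c5 := hmin (T₀ ∩ T) ((hF _).2 ⟨inter_subset_left.trans a1, mem_inter.2 ⟨a2, b2⟩,
        by omega⟩)
      exact inter_eq_left.1 (eq_of_subset_of_card_le inter_subset_left c5)
    obtain ⟨e, he⟩ : (ins s t B T₀).Nonempty := by
      have c1 : K * 1 ≤ K * #T₀ := Nat.mul_le_mul_left K (card_pos.2 ⟨r, a2⟩)
      rw [← card_pos]
      omega
    obtain ⟨e1, e2, e3⟩ := mem_ins_UContr.1 he
    have hle : ∀ T, #(ins s t (B.erase e) T) ≤ #(ins s t B T) :=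
      fun T => card_le_card (ins_mono_UContr (erase_subset _ _) T)
    obtain ⟨B', k1, k2, k3⟩ := ih (B.erase e) (fun T hT hne k => by
      have c1 := h1 T hT hne k
      have c2 := hle T
      omega) fun T hT k => by
        by_cases hc : T ∈ F
        · have c1 := h2 T hT k
          have c2 : #(ins s t (B.erase e) T) < #(ins s t B T) :=
            card_lt_card ⟨ins_mono_UContr (erase_subset _ _) T, fun hs =>
              notMem_erase e B (mem_ins_UContr.1 (hs (mem_ins_UContr.2
                ⟨e1, hsub T hc e2, hsub T hc e3⟩))).1⟩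
          omega
        · have c1 := hn T hT k hc
          have c2 := hle T
          omega
    refine ⟨B', k1.trans (erase_subset _ _), k2, ?_⟩
    have := card_erase_add_one e1
    omega

/-- contraction -/
theorem St.contract (h : St K b s t A U) {S : Finset ι} (hS : S ⊆ U) {r : ι} (hr : r ∈ S) :
    ∃ A' ⊆ A \ ins s t A S,
      St K b (fun e => ctr S r (s e)) (fun e => ctr S r (t e)) A' (U.image (ctr S r)) := by
  obtain ⟨m, hm⟩ := Nat.exists_eq_add_of_le (h.one S hS ⟨r, hr⟩)
  have hU : U.image (ctr S r) ⊆ U := by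
    rw [image_ctr hS hr]
    exact insert_subset (hS hr) sdiff_subset
  have hc : ∀ {T : Finset ι} {x : ι}, ctr S r x ∈ T → x ∈ T.erase r ∪ S := by
    intro T x hx
    by_cases k : x ∈ S
    · exact mem_union_right _ k
    · rw [ctr, if_neg k] at hx
      exact mem_union_left _ (mem_erase.2 ⟨fun e => k (e ▸ hr), hx⟩)
  have hc' : ∀ {T : Finset ι} {x : ι}, r ∉ T → ctr S r x ∈ T → x ∈ T := by
    intro T x k hx
    by_cases k' : x ∈ S
    · rw [ctr, if_pos k'] at hx
      exact absurd hx k
    · rwa [ctr, if_neg k'] at hx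
  obtain ⟨A', k1, k2, k3⟩ := trim_UContr (K := K) (s := fun e => ctr S r (s e))
    (t := fun e => ctr S r (t e)) (U := U.image (ctr S r)) r m (A \ ins s t A S)
    (fun T hT hne k => by
      refine le_trans (Nat.add_le_add_right (card_le_card fun e he => ?_) K)
        (h.one T (hT.trans hU) hne)
      obtain ⟨e1, e2, e3⟩ := mem_ins_UContr.1 he
      exact mem_ins_UContr.2 ⟨(mem_sdiff.1 e1).1, hc' k e2, hc' k e3⟩)
    fun T hT k => by
      have c1 := h.one (T.erase r ∪ S) (union_subset ((erase_subset _ _).trans (hT.trans hU)) hS)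
        ⟨r, mem_union_right _ hr⟩
      have c2 : #(ins (fun e => ctr S r (s e)) (fun e => ctr S r (t e)) (A \ ins s t A S) T) +
          #(ins s t A S) ≤ #(ins s t A (T.erase r ∪ S)) := by
        rw [← card_union_of_disjoint]
        · refine card_le_card (union_subset (fun e he => ?_) fun e he => ?_)
          · obtain ⟨e1, e2, e3⟩ := mem_ins_UContr.1 he
            exact mem_ins_UContr.2 ⟨(mem_sdiff.1 e1).1, hc e2, hc e3⟩
          · obtain ⟨e1, e2, e3⟩ := mem_ins_UContr.1 he
            exact mem_ins_UContr.2 ⟨e1, mem_union_right _ e2, mem_union_right _ e3⟩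
        · exact disjoint_left.2 fun e he => (mem_sdiff.1 (mem_ins_UContr.1 he).1).2
      have c3 : K * #(T.erase r ∪ S) + K ≤ K * #T + K * #S := by
        rw [← mul_add_one, ← mul_add]
        refine Nat.mul_le_mul_left K ?_
        have d1 := card_union_le (T.erase r) S
        have d2 := card_erase_add_one k
        omega
      omega
  refine ⟨A', k1, fun e he => ?_, k2, ?_⟩
  · have := h.ends e (mem_sdiff.1 (k1 he)).1
    exact ⟨mem_image_of_mem _ this.1, mem_image_of_mem _ this.2⟩
  · have c1 : K * #(U.image (ctr S r)) + K * #S = K * #U + K := by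
      rw [← mul_add, card_ctr hS hr, mul_add_one]
    have c2 : #(A \ ins s t A S) + #(ins s t A S) = #A :=
      card_sdiff_add_card_eq_card (filter_subset _ _)
    have c3 := h.two
    omega

end Pool.Agent.P.MP_e59a69_co
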