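import Pool.Agent.P.MP_e59a69_co.LDefs

/-! Definitions for the virtual order theorem. -/

open Finset

namespace Pool.Agent.P.MP_e59a69_co

section graph
variable {ι E : Type} [DecidableEq ι]

/-- the edges of `A` with both ends in `S` -/
def ins (s t : E → ι) (A : Finset E) (S : Finset ι) : Finset E := {e ∈ A | s e ∈ S ∧ t e ∈ S}

/-- the edges of `A` between `u` and `v` -/
def btw (s t : E → ι) (A : Finset E) (u v : ι) : Finset E :=
  {e ∈ A | (s e = u ∧ t e = v) ∨ (s e = v ∧ t e = u)}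

/-- a state: sparse everywhere and almost tight -/
structure St (K b : ℕ) (s t : E → ι) (A : Finset E) (U : Finset ι) : Prop where
  ends : ∀ e ∈ A, s e ∈ U ∧ t e ∈ U
  one : ∀ S ⊆ U, S.Nonempty → #(ins s t A S) + K ≤ K * #S
  two : K * #U ≤ #A + b + K

/-- the edge set of one node of the hierarchy -/
structure Gam (κ Δ T : ℕ) (s t : E → ι) (Γ : Finset E) (S : Finset ι) : Prop where
  card : 2 ≤ #S
  ends : ∀ e ∈ Γ, s e ∈ S ∧ t e ∈ S ∧ s e ≠ t e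
  conn : ∀ Y, Sep S Y → κ ≤ ct s t Γ Y
  rob : ∀ u ∈ S, ∀ Y, Sep (S.erase u) Y → κ ≤ ct s t {e ∈ Γ | s e ≠ u ∧ t e ≠ u} Y
  deg : ∀ u ∈ S, ct s t Γ {u} ≤ Δ
  thin : ∃ J ⊆ Γ, Conn s t S J ∧ ∀ Y, T * ct s t J Y ≤ ct s t Γ Y

/-- contraction of `S` to `r` -/
def ctr (S : Finset ι) (r : ι) (x : ι) : ι := if x ∈ S then r else x

/-- disjoint pairs of edges of `B` with different colours -/
structure Prs (B : Finset E) (col : E → ι) (F : Finset (E × E)) : Prop where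
  mem : ∀ p ∈ F, p.1 ∈ B ∧ p.2 ∈ B ∧ col p.1 ≠ col p.2
  dis : ∀ p ∈ F, ∀ p' ∈ F, p.1 ≠ p'.2 ∧ (p.1 = p'.1 → p = p') ∧ (p.2 = p'.2 → p = p')

/-- the number of pairs separated by `X` -/
def pc (en : E → ι) (F : Finset (E × E)) (X : Finset ι) : ℕ :=
  #{p ∈ F | ¬ (en p.1 ∈ X ↔ en p.2 ∈ X)}

/-- the concave size function -/
noncomputable def hh (n : ℕ) : ℝ := n - (n : ℝ) ^ (3 / 4 : ℝ) / 2

end graph

section node
variable {N : Type} [DecidableEq N] {κ : ℕ}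

/-- cut function of a multiset of pairs -/
def mcut (W : Multiset (N × N)) (X : Finset N) : ℕ :=
  W.countP fun p => ¬ (p.1 ∈ X ↔ p.2 ∈ X)

/-- a centre: the unit it serves and the leaves of its star -/
abbrev Ce (N : Type) (κ : ℕ) : Type := Finset N × (Fin κ → N)

/-- a unit with its inner edges, centres and joining edges -/
structure Nd (N : Type) (κ : ℕ) where
  vs : Finset N
  W : Multiset (N × N)
  C : Finset (Ce N κ)
  J : Finset (Ce N κ × Ce N κ)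

/-- star edges crossing the extension `Y` of `X` -/
def stc (C : Finset (Ce N κ)) (X : Finset N) (Y : Finset (Ce N κ)) : ℕ :=
  ∑ c ∈ C, #{i : Fin κ | ¬ (c ∈ Y ↔ c.2 i ∈ X)}

/-- joining edges crossing `Y` -/
def jc (J : Finset (Ce N κ × Ce N κ)) (Y : Finset (Ce N κ)) : ℕ :=
  #{p ∈ J | ¬ (p.1 ∈ Y ↔ p.2 ∈ Y)}

structure Good (c₁ c₂ T : ℕ) (u : Nd N κ) : Prop where
  ne : u.vs.Nonempty
  wend : ∀ p ∈ u.W, p.1 ∈ u.vs ∧ p.2 ∈ u.vs
  wconn : ∀ X, Sep u.vs X → κ ≤ mcut u.W X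
  csub : ∀ c ∈ u.C, c.1.Nonempty ∧ c.1 ⊂ u.vs ∧ ∀ i, c.2 i ∈ u.vs
  jend : ∀ p ∈ u.J, p.1 ∈ u.C ∧ p.2 ∈ u.C
  conn : ∀ (σ : Ce N κ → Fin κ) (X : Finset N) (Y : Finset (Ce N κ)),
    (∀ c ∈ u.C, c ∈ Y ↔ c.2 (σ c) ∈ X) → (∀ p ∈ u.J, p.1 ∈ Y ↔ p.2 ∈ Y) → ¬ Sep u.vs X
  cost : ∀ X, ∃ Y, stc u.C X Y + T * jc u.J Y ≤ c₁ * mcut u.W X ∧
    (Sep u.vs X → stc u.C X Y + T * jc u.J Y + c₂ ≤ c₁ * mcut u.W X)

/-- the units with labels in `U` are the fibres of `f` -/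
def Units {ι : Type} (c₁ c₂ T : ℕ) (f : N → ι) (d : ι → Nd N κ) (U : Finset ι) : Prop :=
  ∀ u ∈ U, Good c₁ c₂ T (d u) ∧ ∀ v, v ∈ (d u).vs ↔ f v = u

/-- the potential -/
def Th (q κ x : ℕ) : ℕ := x + 3 * q * min x κ + 3 * q * min x (3 * q * κ)

lemma mcut_add (W W' : Multiset (N × N)) (X : Finset N) :
    mcut (W + W') X = mcut W X + mcut W' X := Multiset.countP_add _ _ _

lemma mcut_zero (X : Finset N) : mcut (0 : Multiset (N × N)) X = 0 := rfl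

lemma mcut_sum {ι : Type} (S : Finset ι) (W : ι → Multiset (N × N)) (X : Finset N) :
    mcut (∑ u ∈ S, W u) X = ∑ u ∈ S, mcut (W u) X := by
  classical
  induction S using Finset.induction_on with
  | empty => rfl
  | insert a S ha ih => rw [sum_insert ha, sum_insert ha, mcut_add, ih]

lemma mcut_map {E : Type} (s t : E → N) (A : Finset E) (X : Finset N) :
    mcut (A.val.map fun e => (s e, t e)) X = ct s t A X := by
  rw [mcut, Multiset.countP_map]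
  rfl

lemma Good.sep_of_pos {c₁ c₂ T : ℕ} {u : Nd N κ} (h : Good c₁ c₂ T u) {X : Finset N}
    (hX : 0 < mcut u.W X) : Sep u.vs X := by
  obtain ⟨p, hp, hc⟩ := Multiset.countP_pos.1 hX
  obtain ⟨h1, h2⟩ := h.wend p hp
  by_cases a : p.1 ∈ X
  · exact ⟨⟨_, h1, a⟩, _, h2, fun b => hc ⟨fun _ => b, fun _ => a⟩⟩
  · exact ⟨⟨_, h2, by by_contra b; exact hc ⟨fun c => (a c).elim, fun c => (b c).elim⟩⟩, _, h1, a⟩

end node

end Pool.Agent.P.MP_e59a69_co
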