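import Pool.Agent.P.MP_e59a69_co.UDefs

open Finset

namespace Pool.Agent.P.MP_e59a69_co

variable {q κ : ℕ}

lemma le_Th (x : ℕ) : x ≤ Th q κ x := by
  unfold Th
  omega

lemma Th_zero : Th q κ 0 = 0 := by simp [Th]

lemma Th_mono {x y : ℕ} (h : x ≤ y) : Th q κ x ≤ Th q κ y := by
  unfold Th
  gcongr

lemma Th_le (hq : 1 ≤ q) (x : ℕ) : Th q κ x ≤ 7 * q * x := by
  unfold Th
  have h1 := Nat.mul_le_mul_left (3 * q) (min_le_left x κ)
  have h2 := Nat.mul_le_mul_left (3 * q) (min_le_left x (3 * q * κ))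
  have h3 := Nat.mul_le_mul_right x hq
  linarith

lemma min_add_UTh (c x y m : ℕ) : c * min (x + y) m ≤ c * min x m + c * min y m := by
  rw [← mul_add]
  exact Nat.mul_le_mul_left _ (by omega)

lemma Th_add (x y : ℕ) : Th q κ (x + y) ≤ Th q κ x + Th q κ y := by
  unfold Th
  have h1 := min_add_UTh (3 * q) x y κ
  have h2 := min_add_UTh (3 * q) x y (3 * q * κ)
  omega

lemma Th_sum {ι : Type} (S : Finset ι) (x : ι → ℕ) :
    Th q κ (∑ u ∈ S, x u) ≤ ∑ u ∈ S, Th q κ (x u) :=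
  le_sum_of_subadditive (Th q κ) Th_zero.le Th_add S x

lemma Th_big (hq : 1 ≤ q) {x : ℕ} (h : κ ≤ x) : 7 * q * κ ≤ 3 * Th q κ x := by
  have _ := hq
  unfold Th
  rw [min_eq_right h]
  have h1 : 7 * q * κ ≤ 3 * (3 * q * κ) := by nlinarith [Nat.zero_le (q * κ)]
  omega

/-- the accounting of the lifting step -/
lemma Th_lift (hq : 1 ≤ q) {x y p z : ℕ} (h1 : Th q κ y ≤ p + 7 * q * z) (h2 : z ≤ q * κ)
    (h3 : 7 * q * z ≤ x) (h4 : z = 0 ∨ (κ ≤ x ∧ κ ≤ y ∧ 7 * q * κ ≤ 3 * p)) :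
    Th q κ (x + y) ≤ Th q κ x + p := by
  have _ := hq
  rcases h4 with rfl | ⟨a1, a2, a3⟩
  · have := Th_add (q := q) (κ := κ) x y
    omega
  unfold Th at h1 ⊢
  rw [min_eq_right a2] at h1
  rw [min_eq_right a1, min_eq_right (show κ ≤ x + y by omega)]
  rcases Nat.le_total x (3 * q * κ) with h | h
  · have := min_add_UTh (3 * q) x y (3 * q * κ)
    omega
  · rw [min_eq_right h, min_eq_right (show 3 * q * κ ≤ x + y by omega)]
    rw [mul_assoc 7 q κ] at a3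
    rcases Nat.le_total (7 * (q * κ)) (3 * y) with h5 | h5
    · have h6 : 7 * z ≤ 3 * min y (3 * q * κ) := by rw [mul_assoc 3 q κ]; omega
      have h7 := Nat.mul_le_mul_left q h6
      have h8 : 7 * q * z ≤ 3 * q * min y (3 * q * κ) := by linarith
      omega
    · omega

end Pool.Agent.P.MP_e59a69_co
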