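import Pool.Agent.P.MP_e59a69_co.UNode
import Pool.Agent.P.MP_e59a69_co.UContr
import Pool.Agent.P.MP_e59a69_co.UTh

open Finset

namespace Pool.Agent.P.MP_e59a69_co

/-- the constants -/
structure Par (q κ K b Δ T c₁ c₂ Λ : ℕ) : Prop where
  q1 : 1 ≤ q
  k1 : 1 ≤ κ
  hb : b = q * κ
  hK : 2 * b + κ ≤ K
  hΔ : κ ≤ Δ
  hT : T ≤ κ
  h2 : c₂ = 2 * (Δ + κ)
  h1 : c₂ + κ ≤ c₁ * κ
  hd : 4 * (K + b) * K ≤ Δ * b
  hρ : 640 * κ ≤ b
  hΛ : 1536 * Δ * Λ ≤ (320 * κ) ^ 2

variable {N ι E : Type} [DecidableEq N] [DecidableEq ι] [DecidableEq E]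
  {q κ K b Δ T c₁ c₂ Λ : ℕ}

/-- a node over all units of `U` with a controlled potential -/
def Out (q c₁ c₂ T : ℕ) (f : N → ι) (d : ι → Nd N κ) (U : Finset ι) (s t : E → N)
    (A : Finset E) : Prop :=
  ∃ u : Nd N κ, Good c₁ c₂ T u ∧ (∀ v, v ∈ u.vs ↔ f v ∈ U) ∧
    ∀ X, Th q κ (mcut u.W X) ≤ ∑ x ∈ U, Th q κ (mcut (d x).W X) + 7 * q * ct s t A X

/-- the induction hypothesis for fewer than `n` units -/
def Ih (N ι E : Type) [DecidableEq N] [DecidableEq ι] (q κ K b c₁ c₂ T n : ℕ) : Prop :=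
  ∀ (U : Finset ι) (f : N → ι) (d : ι → Nd N κ) (s t : E → N) (A : Finset E), #U < n →
    U.Nonempty → St K b (fun e => f (s e)) (fun e => f (t e)) A U → Units c₁ c₂ T f d U →
    Out q c₁ c₂ T f d U s t A

variable {f : N → ι} {d : ι → Nd N κ} {U S : Finset ι} {s t : E → N} {A : Finset E}

lemma ctr_eq_iff {r : ι} (hr : r ∈ S) (x : ι) : ctr S r x = r ↔ x ∈ S := by
  unfold ctr
  split_ifs with h
  · simp [h]
  · exact ⟨fun e => (h (e ▸ hr)).elim, fun e => (h e).elim⟩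

lemma ctr_eq_iff' {r u : ι} (hr : r ∈ S) (hu : u ∉ S) (x : ι) : ctr S r x = u ↔ x = u := by
  unfold ctr
  split_ifs with h
  · exact ⟨fun e => (hu (e ▸ hr)).elim, fun e => (hu (e ▸ h)).elim⟩
  · rfl

omit [DecidableEq ι] in
lemma Units.mono (h : Units c₁ c₂ T f d U) (hS : S ⊆ U) : Units c₁ c₂ T f d S :=
  fun u hu => h u (hS hu)

/-- the units after a contraction -/
lemma Units.ctr {V : Finset ι} (h : Units c₁ c₂ T f d V) (hV : Disjoint V S) {r : ι} (hr : r ∈ S)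
    {n : Nd N κ} (hn : Good c₁ c₂ T n) (hv : ∀ v, v ∈ n.vs ↔ f v ∈ S) :
    Units c₁ c₂ T (fun v => ctr S r (f v)) (Function.update d r n) (insert r V) := by
  intro u hu
  by_cases e : u = r
  · subst e
    rw [Function.update_self]
    exact ⟨hn, fun v => by rw [hv, ctr_eq_iff hr]⟩
  · have hu' : u ∈ V := (mem_insert.1 hu).resolve_left e
    rw [Function.update_of_ne e]
    exact ⟨(h u hu').1, fun v => by
      rw [(h u hu').2, ctr_eq_iff' hr (disjoint_left.1 hV hu')]⟩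

/-- contract a finished part and go on -/
theorem finish (ih : Ih N ι E q κ K b c₁ c₂ T #U)
    (h : St K b (fun e => f (s e)) (fun e => f (t e)) A U) (hU : Units c₁ c₂ T f d U)
    (hS : S ⊆ U) (h2 : 2 ≤ #S)
    (ho : Out q c₁ c₂ T f d S s t (ins (fun e => f (s e)) (fun e => f (t e)) A S)) :
    Out q c₁ c₂ T f d U s t A := by
  obtain ⟨r, hr⟩ : S.Nonempty := card_pos.1 (by omega)
  obtain ⟨n, hn, hv, hc⟩ := ho
  obtain ⟨A', hA, hs⟩ := h.contract hS hr
  have hcard := card_ctr hS hr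
  rw [image_ctr hS hr] at hs hcard
  have hU' := (hU.mono (sdiff_subset (t := S))).ctr sdiff_disjoint hr hn hv
  obtain ⟨m, hm, hw, he⟩ := ih (insert r (U \ S)) (fun v => ctr S r (f v))
    (Function.update d r n) s t A' (by omega) (insert_nonempty _ _) hs hU'
  refine ⟨m, hm, fun v => ?_, fun X => ?_⟩
  · rw [hw, mem_insert, ctr_eq_iff hr]
    by_cases a : f v ∈ S
    · simp [a, hS a]
    · simp [ctr, a]
  · have hr' : r ∉ U \ S := fun a => (mem_sdiff.1 a).2 hr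
    have h3 := he X
    have h4 : ∑ x ∈ U \ S, Th q κ (mcut (Function.update d r n x).W X) =
        ∑ x ∈ U \ S, Th q κ (mcut (d x).W X) :=
      sum_congr rfl fun x hx => by rw [Function.update_of_ne (ne_of_mem_of_not_mem hx hr')]
    rw [sum_insert hr', Function.update_self, h4] at h3
    have h5 := hc X
    have h6 := Nat.mul_le_mul_left (7 * q) (ct_ins_add s t hA X)
    have h7 := sum_sdiff (f := fun x => Th q κ (mcut (d x).W X)) hS
    rw [mul_add] at h6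
    omega

/-- a node from an edge set -/
theorem out_of_gam (P : Par q κ K b Δ T c₁ c₂ Λ) (hU : Units c₁ c₂ T f d S) {Γ : Finset E}
    (hG : Gam κ Δ T (fun e => f (s e)) (fun e => f (t e)) Γ S) (hΓ : Γ ⊆ A) :
    Out q c₁ c₂ T f d S s t A := by
  obtain ⟨n, hn, hv, hc⟩ := exists_node P.k1 hU hG P.h2 P.h1
  refine ⟨n, hn, hv, fun X => ?_⟩
  rw [hc]
  refine (Th_add _ _).trans (add_le_add (Th_sum _ _) ((Th_le P.q1 _).trans ?_))
  exact Nat.mul_le_mul_left _ (ct_mono s t hΓ X)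

omit [DecidableEq E] in
lemma St.noloop {s t : E → ι} (h : St K b s t A U) {e : E} (he : e ∈ A) : s e ≠ t e := by
  intro a
  have h1 := h.one {s e} (singleton_subset_iff.2 (h.ends e he).1) (singleton_nonempty _)
  have h2 : 0 < #(ins s t A {s e}) := card_pos.2 ⟨e, by simp [ins, he, a]⟩
  rw [card_singleton] at h1
  omega

end Pool.Agent.P.MP_e59a69_co
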