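import Pool.Agent.P.MP_e59a69_co.UMk

open Finset

namespace Pool.Agent.P.MP_e59a69_co

variable {N ι E : Type} [DecidableEq N] [DecidableEq ι] [DecidableEq E] {κ Δ T c₁ c₂ : ℕ}
  {f : N → ι} {d : ι → Nd N κ} {S : Finset ι} {s t : E → N} {Γ J : Finset E} {σ : ι → Fin κ → N}

lemma sum_union_UGlue {α : Type} [DecidableEq α] (A B : Finset α) (g : α → ℕ) :
    ∑ x ∈ A ∪ B, g x ≤ ∑ x ∈ A, g x + ∑ x ∈ B, g x := by
  rw [← sum_union_inter]
  exact Nat.le_add_right _ _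

lemma sum_biUnion_UGlue {α β : Type} [DecidableEq α] (S : Finset β) (A : β → Finset α)
    (g : α → ℕ) : ∑ x ∈ S.biUnion A, g x ≤ ∑ u ∈ S, ∑ x ∈ A u, g x := by
  classical
  induction S using Finset.induction_on with
  | empty => simp
  | insert a S ha ih =>
    rw [biUnion_insert, sum_insert ha]
    exact (sum_union_UGlue _ _ g).trans (Nat.add_le_add_left ih _)

lemma sum_image_UGlue {α β : Type} [DecidableEq α] (S : Finset β) (h : β → α) (g : α → ℕ) :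
    ∑ x ∈ S.image h, g x ≤ ∑ u ∈ S, g (h u) := by
  rw [← biUnion_singleton]
  exact (sum_biUnion_UGlue S _ g).trans (le_of_eq (sum_congr rfl fun u _ => sum_singleton _ _))

omit [DecidableEq ι] in
lemma old_UGlue (hU : Units c₁ c₂ T f d S) {u u' : ι} (hu : u ∈ S) (hu' : u' ∈ S) {c : Ce N κ}
    (hc : c ∈ (d u).C) (h : c.1 ⊆ (d u').vs) : u = u' := by
  obtain ⟨⟨v, hv⟩, h1, -⟩ := (hU u hu).1.csub c hc
  exact (((hU u hu).2 v).1 (h1.1 hv)).symm.trans (((hU u' hu').2 v).1 (h hv))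

omit [DecidableEq ι] in
lemma ne_UGlue (hU : Units c₁ c₂ T f d S) {u u' : ι} (hu : u ∈ S) (hu' : u' ∈ S) {c : Ce N κ}
    (hc : c ∈ (d u).C) : ((d u').vs, σ u') ≠ c := by
  rintro rfl
  obtain rfl := old_UGlue hU hu hu' hc subset_rfl
  exact ((hU u hu).1.csub _ hc).2.1.2 subset_rfl

omit [DecidableEq ι] in
lemma new_UGlue (hU : Units c₁ c₂ T f d S) {u u' : ι} (hu : u ∈ S) (hu' : u' ∈ S)
    (h : (d u).vs = (d u').vs) : u = u' := by
  obtain ⟨v, hv⟩ := (hU u hu).1.ne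
  exact (((hU u hu).2 v).1 hv).symm.trans (((hU u' hu').2 v).1 (h ▸ hv))

/-- extensions of the children and sides `P` of the new centres glue to one extension -/
theorem mk_glue (hU : Units c₁ c₂ T f d S) (hJ : ∀ e ∈ J, f (s e) ∈ S ∧ f (t e) ∈ S)
    (X : Finset N) (y : ι → Finset (Ce N κ)) (P : Finset ι) :
    ∃ Y, stc (mkNd d S s t f Γ J σ).C X Y ≤
        ∑ u ∈ S, stc (d u).C X (y u) + ∑ u ∈ S, #{i : Fin κ | ¬ (u ∈ P ↔ σ u i ∈ X)} ∧
      jc (mkNd d S s t f Γ J σ).J Y ≤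
        ∑ u ∈ S, jc (d u).J (y u) + ct (fun e => f (s e)) (fun e => f (t e)) J P := by
  obtain ⟨Y, hY⟩ : ∃ Y : Finset (Ce N κ), ∀ c, c ∈ Y ↔ (∃ u ∈ S, c ∈ y u ∧ c ∈ (d u).C) ∨
      ∃ u, (u ∈ P ∧ u ∈ S) ∧ ((d u).vs, σ u) = c :=
    ⟨(S.biUnion fun u => y u ∩ (d u).C) ∪ (P ∩ S).image fun u => ((d u).vs, σ u), fun c => by
      simp only [mem_union, mem_biUnion, mem_inter, mem_image]⟩
  have h1 : ∀ u ∈ S, ∀ c ∈ (d u).C, c ∈ Y ↔ c ∈ y u := fun u hu c hc => by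
    rw [hY]
    refine ⟨?_, fun h => Or.inl ⟨u, hu, h, hc⟩⟩
    rintro (⟨u', hu', h, hc'⟩ | ⟨u', ⟨-, hu'⟩, h⟩)
    · rwa [old_UGlue hU hu hu' hc ((hU u' hu').1.csub c hc').2.1.1]
    · exact (ne_UGlue hU hu hu' hc h).elim
  have h2 : ∀ u ∈ S, ((d u).vs, σ u) ∈ Y ↔ u ∈ P := fun u hu => by
    rw [hY]
    refine ⟨?_, fun h => Or.inr ⟨u, ⟨h, hu⟩, rfl⟩⟩
    rintro (⟨u', hu', -, hc'⟩ | ⟨u', ⟨h, hu'⟩, e⟩)
    · exact (ne_UGlue hU hu' hu hc' rfl).elim
    · rwa [← new_UGlue hU hu' hu (congrArg Prod.fst e)]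
  refine ⟨Y, (sum_union_UGlue _ _ _).trans (Nat.add_le_add
    ((sum_biUnion_UGlue _ _ _).trans (le_of_eq ?_)) ((sum_image_UGlue _ _ _).trans (le_of_eq ?_))),
    ?_⟩
  · exact sum_congr rfl fun u hu => sum_congr rfl fun c hc => by simp only [h1 u hu c hc]
  · exact sum_congr rfl fun u hu => by simp only [h2 u hu]
  · simp only [jc, ct, mkNd, filter_union, filter_biUnion, filter_image]
    refine (card_union_le _ _).trans (Nat.add_le_add (card_biUnion_le.trans (le_of_eq ?_))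
      (card_image_le.trans (le_of_eq ?_)))
    · refine sum_congr rfl fun u hu => congrArg card (filter_congr fun p hp => ?_)
      rw [h1 u hu _ ((hU u hu).1.jend p hp).1, h1 u hu _ ((hU u hu).1.jend p hp).2]
    · refine congrArg card (filter_congr fun e he => ?_)
      rw [h2 _ (hJ e he).1, h2 _ (hJ e he).2]

end Pool.Agent.P.MP_e59a69_co
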