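import Pool.Agent.P.MP_e59a69_co.UDefs

open Finset

namespace Pool.Agent.P.MP_e59a69_co

variable {N ι E : Type} [DecidableEq N] [DecidableEq ι] [DecidableEq E] {κ Δ T c₁ c₂ : ℕ}

/-- the node over the children `S` with stars `σ` and joining edges `J` -/
noncomputable def mkNd (d : ι → Nd N κ) (S : Finset ι) (s t : E → N) (f : N → ι) (Γ J : Finset E)
    (σ : ι → Fin κ → N) : Nd N κ where
  vs := S.biUnion fun u => (d u).vs
  W := ∑ u ∈ S, (d u).W + Γ.val.map fun e => (s e, t e)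
  C := (S.biUnion fun u => (d u).C) ∪ S.image fun u => ((d u).vs, σ u)
  J := (S.biUnion fun u => (d u).J) ∪ J.image fun e =>
    (((d (f (s e))).vs, σ (f (s e))), ((d (f (t e))).vs, σ (f (t e))))

/-- the leaves of the star of `u` are the ends in `u` of different edges of `Γ` -/
def Stars (f : N → ι) (s t : E → N) (Γ : Finset E) (S : Finset ι) (σ : ι → Fin κ → N) : Prop :=
  ∀ u ∈ S, ∃ g : Fin κ → E, Function.Injective g ∧ ∀ i, g i ∈ Γ ∧ f (σ u i) = u ∧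
    (σ u i = s (g i) ∨ σ u i = t (g i))

variable {f : N → ι} {d : ι → Nd N κ} {S : Finset ι} {s t : E → N} {Γ J : Finset E}
  {σ : ι → Fin κ → N}

theorem exists_stars (hG : Gam κ Δ T (fun e => f (s e)) (fun e => f (t e)) Γ S) :
    ∃ σ : ι → Fin κ → N, Stars f s t Γ S σ := by
  have key : ∀ u ∈ S, ∃ a : Fin κ → N, ∃ g : Fin κ → E, Function.Injective g ∧
      ∀ i, g i ∈ Γ ∧ f (a i) = u ∧ (a i = s (g i) ∨ a i = t (g i)) := by
    intro u hu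
    obtain ⟨w, hw, hwu⟩ := exists_mem_ne (s := S) (by have := hG.card; omega) u
    have h1 := hG.conn {u} ⟨⟨u, hu, mem_singleton_self u⟩, w, hw, fun h => hwu (mem_singleton.1 h)⟩
    obtain ⟨F, hF, hc⟩ := exists_subset_card_eq h1
    let g : Fin κ → E := fun i => ((equivFinOfCardEq hc).symm i).1
    refine ⟨fun i => if f (s (g i)) = u then s (g i) else t (g i), g,
      Subtype.val_injective.comp (equivFinOfCardEq hc).symm.injective, fun i => ?_⟩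
    have h2 := mem_filter.1 (hF ((equivFinOfCardEq hc).symm i).2)
    have h3 : ¬ (f (s (g i)) = u ↔ f (t (g i)) = u) := by
      have h4 := h2.2
      rwa [mem_singleton, mem_singleton] at h4
    refine ⟨h2.1, ?_, ?_⟩
    · by_cases h : f (s (g i)) = u
      · simp only [if_pos h]; exact h
      · simp only [if_neg h]
        by_contra h'
        exact h3 ⟨fun c => (h c).elim, fun c => (h' c).elim⟩
    · by_cases h : f (s (g i)) = u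
      · exact Or.inl (if_pos h)
      · exact Or.inr (if_neg h)
  obtain ⟨u₀, hu₀⟩ : S.Nonempty := card_pos.1 (by have := hG.card; omega)
  have key2 : ∀ u, ∃ a : Fin κ → N, u ∈ S → ∃ g : Fin κ → E, Function.Injective g ∧
      ∀ i, g i ∈ Γ ∧ f (a i) = u ∧ (a i = s (g i) ∨ a i = t (g i)) := by
    intro u
    by_cases hu : u ∈ S
    · obtain ⟨a, ha⟩ := key u hu
      exact ⟨a, fun _ => ha⟩
    · obtain ⟨a, -⟩ := key u₀ hu₀
      exact ⟨a, fun h => (hu h).elim⟩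
  choose σ hσ using key2
  exact ⟨σ, hσ⟩

lemma mk_vs (hU : Units c₁ c₂ T f d S) (v : N) : v ∈ (mkNd d S s t f Γ J σ).vs ↔ f v ∈ S := by
  change v ∈ S.biUnion (fun u => (d u).vs) ↔ _
  rw [mem_biUnion]
  constructor
  · rintro ⟨u, hu, hv⟩
    rw [((hU u hu).2 v).1 hv]
    exact hu
  · intro h
    exact ⟨f v, h, ((hU _ h).2 v).2 rfl⟩

lemma mk_mcut (X : Finset N) :
    mcut (mkNd d S s t f Γ J σ).W X = ∑ u ∈ S, mcut (d u).W X + ct s t Γ X := by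
  change mcut (∑ u ∈ S, (d u).W + Γ.val.map fun e => (s e, t e)) X = _
  rw [mcut_add, mcut_sum, mcut_map]

lemma mk_wend (hU : Units c₁ c₂ T f d S) (hG : Gam κ Δ T (fun e => f (s e)) (fun e => f (t e)) Γ S) :
    ∀ p ∈ (mkNd d S s t f Γ J σ).W,
      p.1 ∈ (mkNd d S s t f Γ J σ).vs ∧ p.2 ∈ (mkNd d S s t f Γ J σ).vs := by
  intro p hp
  rw [mk_vs hU, mk_vs hU]
  have hp' : p ∈ ∑ u ∈ S, (d u).W + Γ.val.map fun e => (s e, t e) := hp
  rcases Multiset.mem_add.1 hp' with h | h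
  · obtain ⟨u, hu, h⟩ := Multiset.mem_sum.1 h
    obtain ⟨h1, h2⟩ := (hU u hu).1.wend p h
    rw [((hU u hu).2 _).1 h1, ((hU u hu).2 _).1 h2]
    exact ⟨hu, hu⟩
  · obtain ⟨e, he, rfl⟩ := Multiset.mem_map.1 h
    exact ⟨(hG.ends e he).1, (hG.ends e he).2.1⟩

lemma side_UMk (hU : Units c₁ c₂ T f d S) {X : Finset N} (h : ∀ u ∈ S, ¬ Sep (d u).vs X) {v : N}
    (hv : f v ∈ S) : v ∈ X ↔ f v ∈ S.filter fun u => (d u).vs ⊆ X := by
  have h1 : v ∈ (d (f v)).vs := ((hU _ hv).2 v).2 rfl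
  rw [mem_filter]
  refine ⟨fun hX => ⟨hv, fun w hw => ?_⟩, fun hX => hX.2 h1⟩
  by_contra hw'
  exact h _ hv ⟨⟨v, h1, hX⟩, w, hw, hw'⟩

lemma sep_UMk (hU : Units c₁ c₂ T f d S) {X : Finset N} (h : ∀ u ∈ S, ¬ Sep (d u).vs X)
    (hX : Sep (mkNd d S s t f Γ J σ).vs X) : Sep S (S.filter fun u => (d u).vs ⊆ X) := by
  obtain ⟨⟨a, ha, ha'⟩, b, hb, hb'⟩ := hX
  rw [mk_vs hU] at ha hb
  exact ⟨⟨f a, ha, (side_UMk hU h ha).1 ha'⟩, f b, hb, fun c => hb' ((side_UMk hU h hb).2 c)⟩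

lemma mk_wconn (hU : Units c₁ c₂ T f d S)
    (hG : Gam κ Δ T (fun e => f (s e)) (fun e => f (t e)) Γ S) :
    ∀ X, Sep (mkNd d S s t f Γ J σ).vs X → κ ≤ mcut (mkNd d S s t f Γ J σ).W X := by
  intro X hX
  rw [mk_mcut]
  by_cases h : ∃ u ∈ S, Sep (d u).vs X
  · obtain ⟨u, hu, h⟩ := h
    exact ((hU u hu).1.wconn X h).trans ((single_le_sum (f := fun u => mcut (d u).W X)
      (fun _ _ => Nat.zero_le _) hu).trans (Nat.le_add_right _ _))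
  · have h' : ∀ u ∈ S, ¬ Sep (d u).vs X := fun u hu c => h ⟨u, hu, c⟩
    refine (hG.conn _ (sep_UMk hU h' hX)).trans (le_trans (le_of_eq ?_) (Nat.le_add_left _ _))
    unfold ct
    refine congrArg _ (filter_congr fun e he => ?_)
    rw [side_UMk hU h' (hG.ends e he).1, side_UMk hU h' (hG.ends e he).2.1]

lemma memC_UMk {c : Ce N κ} : c ∈ (mkNd d S s t f Γ J σ).C ↔
    (∃ u ∈ S, c ∈ (d u).C) ∨ ∃ u ∈ S, ((d u).vs, σ u) = c := by
  change c ∈ (S.biUnion fun u => (d u).C) ∪ S.image (fun u => ((d u).vs, σ u)) ↔ _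
  rw [mem_union, mem_biUnion, mem_image]

lemma memJ_UMk {p : Ce N κ × Ce N κ} : p ∈ (mkNd d S s t f Γ J σ).J ↔
    (∃ u ∈ S, p ∈ (d u).J) ∨ ∃ e ∈ J,
      (((d (f (s e))).vs, σ (f (s e))), ((d (f (t e))).vs, σ (f (t e)))) = p := by
  change p ∈ (S.biUnion fun u => (d u).J) ∪ J.image (fun e =>
    (((d (f (s e))).vs, σ (f (s e))), ((d (f (t e))).vs, σ (f (t e))))) ↔ _
  rw [mem_union, mem_biUnion, mem_image]

lemma mk_csub (hU : Units c₁ c₂ T f d S) (h2 : 2 ≤ #S) (hσ : Stars f s t Γ S σ) :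
    ∀ c ∈ (mkNd d S s t f Γ J σ).C, c.1.Nonempty ∧ c.1 ⊂ (mkNd d S s t f Γ J σ).vs ∧
      ∀ i, c.2 i ∈ (mkNd d S s t f Γ J σ).vs := by
  have hsub : ∀ u ∈ S, (d u).vs ⊆ (mkNd d S s t f Γ J σ).vs := fun u hu v hv => by
    rw [mk_vs hU, ((hU u hu).2 v).1 hv]
    exact hu
  intro c hc
  rcases memC_UMk.1 hc with ⟨u, hu, h⟩ | ⟨u, hu, rfl⟩
  · obtain ⟨h1, h3, h4⟩ := (hU u hu).1.csub c h
    exact ⟨h1, h3.trans_subset (hsub u hu), fun i => hsub u hu (h4 i)⟩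
  · refine ⟨(hU u hu).1.ne, ⟨hsub u hu, fun hs => ?_⟩, fun i => ?_⟩
    · obtain ⟨w, hw, hwu⟩ := exists_mem_ne (s := S) (by omega) u
      obtain ⟨v, hv⟩ := (hU w hw).1.ne
      exact hwu ((((hU w hw).2 v).1 hv).symm.trans (((hU u hu).2 v).1 (hs (hsub w hw hv))))
    · obtain ⟨g, -, hg⟩ := hσ u hu
      rw [mk_vs hU]
      change f (σ u i) ∈ S
      rw [(hg i).2.1]
      exact hu

lemma mk_jend (hU : Units c₁ c₂ T f d S) (hJ : ∀ e ∈ J, f (s e) ∈ S ∧ f (t e) ∈ S) :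
    ∀ p ∈ (mkNd d S s t f Γ J σ).J,
      p.1 ∈ (mkNd d S s t f Γ J σ).C ∧ p.2 ∈ (mkNd d S s t f Γ J σ).C := by
  intro p hp
  rcases memJ_UMk.1 hp with ⟨u, hu, h⟩ | ⟨e, he, rfl⟩
  · obtain ⟨h1, h2⟩ := (hU u hu).1.jend p h
    exact ⟨memC_UMk.2 (Or.inl ⟨u, hu, h1⟩), memC_UMk.2 (Or.inl ⟨u, hu, h2⟩)⟩
  · exact ⟨memC_UMk.2 (Or.inr ⟨_, (hJ e he).1, rfl⟩), memC_UMk.2 (Or.inr ⟨_, (hJ e he).2, rfl⟩)⟩

lemma mk_conn (hU : Units c₁ c₂ T f d S) (hσ : Stars f s t Γ S σ)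
    (hJ : ∀ e ∈ J, f (s e) ∈ S ∧ f (t e) ∈ S)
    (hc : Conn (fun e => f (s e)) (fun e => f (t e)) S J) (τ : Ce N κ → Fin κ) (X : Finset N)
    (Y : Finset (Ce N κ)) (h1 : ∀ c ∈ (mkNd d S s t f Γ J σ).C, c ∈ Y ↔ c.2 (τ c) ∈ X)
    (h2 : ∀ p ∈ (mkNd d S s t f Γ J σ).J, p.1 ∈ Y ↔ p.2 ∈ Y) :
    ¬ Sep (mkNd d S s t f Γ J σ).vs X := by
  intro hX
  have h' : ∀ u ∈ S, ¬ Sep (d u).vs X := fun u hu => (hU u hu).1.conn τ X Y
    (fun c hc => h1 c (memC_UMk.2 (Or.inl ⟨u, hu, hc⟩)))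
    fun p hp => h2 p (memJ_UMk.2 (Or.inl ⟨u, hu, hp⟩))
  have h3 : ∀ u ∈ S, (((d u).vs, σ u) ∈ Y ↔ u ∈ S.filter fun u => (d u).vs ⊆ X) := by
    intro u hu
    obtain ⟨g, -, hg⟩ := hσ u hu
    have h4 := (hg (τ ((d u).vs, σ u))).2.1
    have h5 := side_UMk hU h' (v := σ u (τ ((d u).vs, σ u))) (by rw [h4]; exact hu)
    rw [h4] at h5
    exact (h1 _ (memC_UMk.2 (Or.inr ⟨u, hu, rfl⟩))).trans h5
  obtain ⟨e, he⟩ := card_pos.1 (hc _ (sep_UMk hU h' hX))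
  obtain ⟨he, hne⟩ := mem_filter.1 he
  exact hne (((h3 _ (hJ e he).1).symm.trans (h2 _ (memJ_UMk.2 (Or.inr ⟨e, he, rfl⟩)))).trans
    (h3 _ (hJ e he).2))

end Pool.Agent.P.MP_e59a69_co
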