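import Pool.Agent.P.MP_e59a69_co.UMk

open Finset

namespace Pool.Agent.P.MP_e59a69_co

variable {N ι E : Type} [DecidableEq N] [DecidableEq ι] [DecidableEq E] {κ Δ T c₁ c₂ : ℕ}
  {f : N → ι} {d : ι → Nd N κ} {S : Finset ι} {s t : E → N} {Γ : Finset E} {σ : ι → Fin κ → N}

/-- `P` gives the side of every vertex whose label is not in `Sp` -/
def Ok_USides (f : N → ι) (S Sp : Finset ι) (X : Finset N) (P : Finset ι) : Prop :=
  ∀ v, f v ∈ S → f v ∉ Sp → (f v ∈ P ↔ v ∈ X)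

lemma star_USides (hσ : Stars f s t Γ S σ) {X : Finset N} {Sp P : Finset ι} (hSp : Sp ⊆ S)
    (h : Ok_USides f S Sp X P) : ∑ u ∈ S, #{i : Fin κ | ¬ (u ∈ P ↔ σ u i ∈ X)} =
      ∑ u ∈ Sp, #{i : Fin κ | ¬ (u ∈ P ↔ σ u i ∈ X)} := by
  refine (sum_subset hSp fun u hu hu' => ?_).symm
  obtain ⟨g, -, hg⟩ := hσ u hu
  rw [card_eq_zero, filter_eq_empty_iff]
  intro i _ hi
  have e := (hg i).2.1
  exact hi (by simpa only [e] using h (σ u i) (e.symm ▸ hu) (e.symm ▸ hu'))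

lemma cut_USides (hG : Gam κ Δ T (fun e => f (s e)) (fun e => f (t e)) Γ S) {X : Finset N}
    {Sp P : Finset ι} (hSp : Sp ⊆ S) (h : Ok_USides f S Sp X P) :
    ct (fun e => f (s e)) (fun e => f (t e)) Γ P ≤ ct s t Γ X + #Sp * Δ := by
  have h1 : ∑ u ∈ Sp, ct (fun e => f (s e)) (fun e => f (t e)) Γ {u} ≤ #Sp * Δ :=
    sum_le_card_nsmul _ _ _ fun u hu => hG.deg u (hSp hu)
  refine le_trans ?_ (Nat.add_le_add_left h1 _)
  unfold ct
  refine le_trans (card_le_card ?_)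
    ((card_union_le _ _).trans (Nat.add_le_add_left card_biUnion_le _))
  intro e he
  obtain ⟨h2, h3⟩ := mem_filter.1 he
  obtain ⟨h4, h5, h6⟩ := hG.ends e h2
  rw [mem_union, mem_biUnion]
  by_cases a : f (s e) ∈ Sp
  · refine Or.inr ⟨_, a, mem_filter.2 ⟨h2, fun b => h6 ?_⟩⟩
    exact (mem_singleton.1 (b.1 (mem_singleton_self _))).symm
  · by_cases b : f (t e) ∈ Sp
    · refine Or.inr ⟨_, b, mem_filter.2 ⟨h2, fun c => h6 ?_⟩⟩
      exact mem_singleton.1 (c.2 (mem_singleton_self _))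
    · refine Or.inl (mem_filter.2 ⟨h2, ?_⟩)
      rwa [← h _ h4 a, ← h _ h5 b]

lemma rob_USides (hG : Gam κ Δ T (fun e => f (s e)) (fun e => f (t e)) Γ S) {X : Finset N}
    {u : ι} {P : Finset ι} (hu : u ∈ S) (h : Ok_USides f S {u} X P) (hs : Sep (S.erase u) P) :
    κ ≤ ct s t Γ X := by
  refine (hG.rob u hu P hs).trans (card_le_card fun e he => ?_)
  obtain ⟨h1, h3⟩ := mem_filter.1 he
  obtain ⟨h2, a, b⟩ := mem_filter.1 h1
  obtain ⟨h4, h5, -⟩ := hG.ends e h2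
  refine mem_filter.2 ⟨h2, ?_⟩
  rwa [← h _ h4 (notMem_singleton.2 a), ← h _ h5 (notMem_singleton.2 b)]

lemma const_USides (hG : Gam κ Δ T (fun e => f (s e)) (fun e => f (t e)) Γ S)
    (hσ : Stars f s t Γ S σ) {X : Finset N} {u : ι} {P : Finset ι} (hu : u ∈ S)
    (h : Ok_USides f S {u} X P) (hc : ∀ a ∈ S, ∀ b ∈ S, a ∈ P ↔ b ∈ P) :
    ∑ u ∈ S, #{i : Fin κ | ¬ (u ∈ P ↔ σ u i ∈ X)} +
      ct (fun e => f (s e)) (fun e => f (t e)) Γ P ≤ ct s t Γ X := by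
  have h0 : ct (fun e => f (s e)) (fun e => f (t e)) Γ P = 0 := by
    rw [ct, card_eq_zero, filter_eq_empty_iff]
    intro e he hn
    exact hn (hc _ (hG.ends e he).1 _ (hG.ends e he).2.1)
  rw [h0, add_zero, star_USides hσ (singleton_subset_iff.2 hu) h, sum_singleton]
  obtain ⟨g, hg, hg'⟩ := hσ u hu
  refine card_le_card_of_injOn g (fun i hi => ?_) hg.injOn
  have h1 := (mem_filter.1 (mem_coe.1 hi)).2
  obtain ⟨h2, h3, h4⟩ := hg' i
  obtain ⟨h5, h6, h7⟩ := hG.ends _ h2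
  refine mem_coe.2 (mem_filter.2 ⟨h2, fun hn => h1 ?_⟩)
  rcases h4 with h4 | h4
  · rw [h4] at h3 ⊢
    rw [hn, ← h _ h6 (notMem_singleton.2 fun a => h7 (h3.trans a.symm))]
    exact hc _ hu _ h6
  · rw [h4] at h3 ⊢
    rw [← hn, ← h _ h5 (notMem_singleton.2 fun a => h7 (a.trans h3.symm))]
    exact hc _ hu _ h5

/-- sides of the new centres; `Sp` is the set of split children -/
theorem exists_sides (hκ : 1 ≤ κ) (hU : Units c₁ c₂ T f d S)
    (hG : Gam κ Δ T (fun e => f (s e)) (fun e => f (t e)) Γ S) (hσ : Stars f s t Γ S σ)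
    (h2 : c₂ = 2 * (Δ + κ)) (h1 : c₂ + κ ≤ c₁ * κ) (X : Finset N) (Sp : Finset ι) (hSp : Sp ⊆ S)
    (hS : ∀ u ∈ S, u ∈ Sp ↔ Sep (d u).vs X) :
    ∃ P : Finset ι, ∑ u ∈ S, #{i : Fin κ | ¬ (u ∈ P ↔ σ u i ∈ X)} +
        ct (fun e => f (s e)) (fun e => f (t e)) Γ P ≤ c₁ * ct s t Γ X + c₂ * #Sp ∧
      (Sep (S.biUnion fun u => (d u).vs) X → ∑ u ∈ S, #{i : Fin κ | ¬ (u ∈ P ↔ σ u i ∈ X)} +
        ct (fun e => f (s e)) (fun e => f (t e)) Γ P + c₂ ≤ c₁ * ct s t Γ X + c₂ * #Sp) := by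
  obtain ⟨P, hP⟩ : ∃ P : Finset ι, P = {u ∈ S | (d u).vs ⊆ X} := ⟨_, rfl⟩
  have hok : Ok_USides f S Sp X P := by
    intro v hv hv'
    have hm : v ∈ (d (f v)).vs := ((hU _ hv).2 v).2 rfl
    rw [hP, mem_filter]
    refine ⟨fun a => a.2 hm, fun a => ⟨hv, fun z hz => ?_⟩⟩
    by_contra hn
    exact hv' ((hS _ hv).2 ⟨⟨v, hm, a⟩, z, hz, hn⟩)
  obtain ⟨k, rfl⟩ : ∃ k, c₁ = k + 1 := by
    refine ⟨c₁ - 1, ?_⟩
    rcases c₁ with _ | k
    · omega
    · rfl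
  have h3 : c₂ ≤ k * κ := by
    rw [add_mul, one_mul] at h1
    omega
  have h4 : ∑ u ∈ S, #{i : Fin κ | ¬ (u ∈ P ↔ σ u i ∈ X)} ≤ #Sp * κ := by
    rw [star_USides hσ hSp hok]
    exact sum_le_card_nsmul _ _ _ fun u _ => (card_le_univ _).trans (Fintype.card_fin κ).le
  have h5 := cut_USides hG hSp hok
  have h6 : c₂ * #Sp = 2 * (#Sp * Δ + #Sp * κ) := by
    rw [h2]
    ring
  have h7 : κ ≤ ct s t Γ X → c₂ ≤ k * ct s t Γ X := fun a => h3.trans (Nat.mul_le_mul_left k a)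
  rw [add_mul, one_mul]
  by_cases hone : #Sp = 1
  · obtain ⟨u, rfl⟩ := card_eq_one.1 hone
    have hu : u ∈ S := hSp (mem_singleton_self u)
    rw [card_singleton, mul_one]
    rw [card_singleton, one_mul] at h4 h5
    by_cases hs : Sep (S.erase u) P
    · have := h7 (rob_USides hG hu hok hs)
      exact ⟨P, by omega, fun _ => by omega⟩
    · by_cases ha : ∃ z ∈ S.erase u, z ∈ P
      · have hall : ∀ z ∈ S.erase u, z ∈ P := fun z hz => by_contra fun hn => hs ⟨ha, z, hz, hn⟩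
        have := const_USides hG hσ (X := X) (P := S) hu (fun v hv hv' => by
          rw [← hok v hv hv']
          exact iff_of_true hv (hall _ (mem_erase.2 ⟨notMem_singleton.1 hv', hv⟩)))
          fun a ha b hb => iff_of_true ha hb
        exact ⟨S, by omega, fun _ => by omega⟩
      · have := const_USides hG hσ (X := X) (P := ∅) hu (fun v hv hv' => by
          rw [← hok v hv hv']
          exact iff_of_false (notMem_empty _) fun a =>
            ha ⟨_, mem_erase.2 ⟨notMem_singleton.1 hv', hv⟩, a⟩)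
          fun a _ b _ => iff_of_false (notMem_empty _) (notMem_empty _)
        exact ⟨∅, by omega, fun _ => by omega⟩
  · refine ⟨P, by omega, fun hs => ?_⟩
    by_cases hz : #Sp = 0
    · obtain rfl := card_eq_zero.1 hz
      obtain ⟨⟨z, hz, hzX⟩, z', hz', hzX'⟩ := hs
      obtain ⟨u, hu, hzu⟩ := mem_biUnion.1 hz
      obtain ⟨u', hu', hzu'⟩ := mem_biUnion.1 hz'
      obtain rfl := ((hU u hu).2 z).1 hzu
      obtain rfl := ((hU u' hu').2 z').1 hzu'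
      have h8 := hG.conn P ⟨⟨_, hu, (hok z hu (notMem_empty _)).2 hzX⟩,
        _, hu', fun a => hzX' ((hok z' hu' (notMem_empty _)).1 a)⟩
      rw [card_empty, zero_mul] at h4 h5
      have := h7 (h8.trans h5)
      omega
    · have h8 : 2 * Δ ≤ #Sp * Δ := Nat.mul_le_mul_right _ (by omega)
      have h9 : 2 * κ ≤ #Sp * κ := Nat.mul_le_mul_right _ (by omega)
      omega

end Pool.Agent.P.MP_e59a69_co
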