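import Pool.Agent.P.MP_e59a69_co.UGlue
import Pool.Agent.P.MP_e59a69_co.USides

open Finset

namespace Pool.Agent.P.MP_e59a69_co

variable {N ι E : Type} [DecidableEq N] [DecidableEq ι] [DecidableEq E] {κ Δ T c₁ c₂ : ℕ}
  {f : N → ι} {d : ι → Nd N κ} {S : Finset ι} {s t : E → N} {Γ : Finset E}

/-- a node over the units `S` -/
theorem exists_node (hκ : 1 ≤ κ) (hU : Units c₁ c₂ T f d S)
    (hG : Gam κ Δ T (fun e => f (s e)) (fun e => f (t e)) Γ S)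
    (h2 : c₂ = 2 * (Δ + κ)) (h1 : c₂ + κ ≤ c₁ * κ) :
    ∃ u : Nd N κ, Good c₁ c₂ T u ∧ (∀ v, v ∈ u.vs ↔ f v ∈ S) ∧
      ∀ X, mcut u.W X = ∑ x ∈ S, mcut (d x).W X + ct s t Γ X := by
  classical
  obtain ⟨σ, hσ⟩ := exists_stars hG
  obtain ⟨J, hJ, hc, ht⟩ := hG.thin
  have hJ' : ∀ e ∈ J, f (s e) ∈ S ∧ f (t e) ∈ S := fun e he =>
    ⟨(hG.ends e (hJ he)).1, (hG.ends e (hJ he)).2.1⟩
  refine ⟨mkNd d S s t f Γ J σ, ⟨?_, mk_wend hU hG, mk_wconn hU hG, mk_csub hU hG.card hσ,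
    mk_jend hU hJ', mk_conn hU hσ hJ' hc, fun X => ?_⟩, mk_vs hU, mk_mcut⟩
  · obtain ⟨u, hu⟩ : S.Nonempty := card_pos.1 (by have := hG.card; omega)
    obtain ⟨v, hv⟩ := (hU u hu).1.ne
    exact ⟨v, (mk_vs hU v).2 (by rw [((hU u hu).2 v).1 hv]; exact hu)⟩
  have hy : ∀ u, ∃ Y, u ∈ S → stc (d u).C X Y + T * jc (d u).J Y +
      (if Sep (d u).vs X then c₂ else 0) ≤ c₁ * mcut (d u).W X := by
    intro u
    by_cases hu : u ∈ S
    · obtain ⟨Y, a, b⟩ := (hU u hu).1.cost X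
      refine ⟨Y, fun _ => ?_⟩
      split_ifs with h
      · exact b h
      · exact a
    · exact ⟨∅, fun h => (hu h).elim⟩
  choose y hy using hy
  obtain ⟨P, p1, p2⟩ := exists_sides hκ hU hG hσ h2 h1 X {u ∈ S | Sep (d u).vs X}
    (filter_subset _ _) (fun u hu => by simp [hu])
  obtain ⟨Y, y1, y2⟩ := mk_glue (Γ := Γ) (σ := σ) hU hJ' X y P
  have hs := sum_le_sum fun u (hu : u ∈ S) => hy u hu
  rw [sum_add_distrib, sum_add_distrib, ← mul_sum, ← mul_sum, ← sum_filter, sum_const,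
    smul_eq_mul, mul_comm _ c₂] at hs
  have h3 := Nat.mul_le_mul_left T y2
  have h4 := ht P
  rw [mul_add] at h3
  refine ⟨Y, ?_, fun h => ?_⟩
  · rw [mk_mcut, mul_add]
    omega
  · have := p2 h
    rw [mk_mcut, mul_add]
    omega

end Pool.Agent.P.MP_e59a69_co
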