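import Pool.Agent.P.MP_e59a69_co.UDefs
import Pool.Agent.P.MP_e59a69_co.LList
import Pool.Agent.P.MP_e59a69_co.LList2

open Finset

namespace Pool.Agent.P.MP_e59a69_co

lemma log_UPick {A R k : ℕ} (hA : 1 ≤ A) (hR : 1 ≤ R) (hk : 1 ≤ k) (h : 4096 * R ^ 2 * A ≤ k) :
    32 * R * Real.log ((A * k : ℕ) : ℝ) ≤ k := by
  have hA' : (1 : ℝ) ≤ A := by exact_mod_cast hA
  have hR' : (1 : ℝ) ≤ R := by exact_mod_cast hR
  have hk' : (1 : ℝ) ≤ k := by exact_mod_cast hk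
  have h' : 4096 * (R : ℝ) ^ 2 * A ≤ k := by exact_mod_cast h
  have hp : (0 : ℝ) < ((A * k : ℕ) : ℝ) := by push_cast; positivity
  have h1 : Real.log ((A * k : ℕ) : ℝ) ≤ 2 * Real.sqrt ((A * k : ℕ) : ℝ) := by
    have h2 := Real.log_le_sub_one_of_pos (Real.sqrt_pos.2 hp)
    rw [Real.log_sqrt hp.le] at h2
    linarith
  have h3 : Real.sqrt ((A * k : ℕ) : ℝ) ≤ k / (64 * R) := by
    refine Real.sqrt_le_iff.2 ⟨by positivity, ?_⟩
    rw [div_pow, le_div_iff₀ (by positivity)]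
    push_cast
    nlinarith [mul_le_mul_of_nonneg_right h' (show (0 : ℝ) ≤ k by linarith)]
  rw [le_div_iff₀ (by positivity)] at h3
  nlinarith [mul_le_mul_of_nonneg_left h1 (show (0 : ℝ) ≤ 32 * R by linarith)]

lemma num_UPick {R k p w a : ℕ} (hR : 1 ≤ R) (hk : 1 ≤ k) (hp : 1 ≤ p) (hw : k ≤ w)
    (ha : k * a ≤ 8 * w) (hl : 32 * R * Real.log p ≤ k) :
    Real.exp (-(w / (2 * R))) ≤ Real.exp (-(k / (4 * R))) * (p : ℝ)⁻¹ ^ a := by
  have hp' : (1 : ℝ) ≤ p := by exact_mod_cast hp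
  have hR' : (1 : ℝ) ≤ R := by exact_mod_cast hR
  have hk' : (1 : ℝ) ≤ k := by exact_mod_cast hk
  have hw' : (k : ℝ) ≤ w := by exact_mod_cast hw
  have ha' : (k : ℝ) * a ≤ 8 * w := by exact_mod_cast ha
  have h0 := Real.log_nonneg hp'
  have e : (p : ℝ)⁻¹ ^ a = Real.exp (-(a * Real.log p)) := by
    rw [Real.exp_neg, Real.exp_nat_mul, Real.exp_log (by linarith), inv_pow]
  rw [e, ← Real.exp_add, Real.exp_le_exp]
  have ha0 : (0 : ℝ) ≤ a := Nat.cast_nonneg a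
  have h1 : a * Real.log p ≤ w / (4 * R) := by
    rw [le_div_iff₀ (by positivity)]
    nlinarith [mul_le_mul_of_nonneg_left hl ha0]
  have h2 : (k : ℝ) / (4 * R) ≤ w / (4 * R) := by gcongr
  have h3 : (w : ℝ) / (2 * R) = w / (4 * R) + w / (4 * R) := by field_simp; ring
  linarith

lemma fin_UPick {R k m p : ℕ} (hR : 1 ≤ R) (hk : 192 * R ^ 2 ≤ k) (hm : m ≤ k) (hp : 1 ≤ p) :
    Real.exp (-(k / (4 * R))) * (m * (2 * (1 + (p : ℝ)⁻¹) ^ p)) < 1 := by
  have hp' : (1 : ℝ) ≤ p := by exact_mod_cast hp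
  have hR' : (1 : ℝ) ≤ R := by exact_mod_cast hR
  have hk' : 192 * (R : ℝ) ^ 2 ≤ k := by exact_mod_cast hk
  have hm' : (m : ℝ) ≤ k := by exact_mod_cast hm
  have h1 : (1 + (p : ℝ)⁻¹) ^ p ≤ 3 := by
    calc (1 + (p : ℝ)⁻¹) ^ p ≤ Real.exp (p : ℝ)⁻¹ ^ p :=
          pow_le_pow_left₀ (by positivity) (by linarith [Real.add_one_le_exp (p : ℝ)⁻¹]) _
      _ = Real.exp 1 := by rw [← Real.exp_nat_mul, mul_inv_cancel₀ (by linarith)]
      _ ≤ 3 := Real.exp_one_lt_three.le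
  have h0 : (0 : ℝ) ≤ k / (4 * R) := by positivity
  have h2 := Real.quadratic_le_exp_of_nonneg h0
  rw [Real.exp_neg, inv_mul_lt_iff₀ (Real.exp_pos _), mul_one]
  have h3 : (m : ℝ) * (2 * (1 + (p : ℝ)⁻¹) ^ p) ≤ k * (2 * 3) := by gcongr
  have h4 : 6 * (k : ℝ) ≤ (k / (4 * R)) ^ 2 / 2 := by
    rw [div_pow, div_div, le_div_iff₀ (by positivity)]
    nlinarith [mul_le_mul_of_nonneg_right hk' (show (0 : ℝ) ≤ k by positivity)]
  linarith

lemma avg_UPick {n R : ℕ} (hR : 1 ≤ R) (P : Fin n × Fin (8 * R) → Prop) [DecidablePred P] :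
    ∏ i : Fin n, ((∑ a, if P (i, a) then Real.exp 1 else 1) / ((8 * R : ℕ) : ℝ)) ≤
      Real.exp (#{x | P x} / (4 * R)) := by
  have hR' : (1 : ℝ) ≤ R := by exact_mod_cast hR
  have e : (#{x | P x} : ℝ) / (4 * R) =
      ∑ i : Fin n, (∑ a, if P (i, a) then (1 : ℝ) else 0) / (4 * R) := by
    rw [← sum_div, card_filter, Fintype.sum_prod_type]
    push_cast
    rfl
  rw [e, Real.exp_sum]
  refine prod_le_prod (fun i _ => div_nonneg (sum_nonneg fun a _ => ?_) (by positivity))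
    fun i _ => le_trans ?_ (Real.add_one_le_exp _)
  · split_ifs
    · exact (Real.exp_pos _).le
    · exact zero_le_one
  · have h1 : (∑ a, if P (i, a) then Real.exp 1 else 1) ≤
        ∑ a : Fin (8 * R), (2 * (if P (i, a) then (1 : ℝ) else 0) + 1) :=
      sum_le_sum fun a _ => by
        split_ifs
        · linarith [Real.exp_one_lt_three]
        · linarith
    rw [sum_add_distrib, ← mul_sum, sum_const, card_univ, Fintype.card_fin, nsmul_eq_mul,
      mul_one] at h1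
    rw [div_le_iff₀ (by positivity)]
    refine h1.trans (le_of_eq ?_)
    push_cast
    field_simp
    ring

lemma count_UPick {N : Type} [DecidableEq N] {R k m p : ℕ} (hR : 1 ≤ R) (hk : 192 * R ^ 2 ≤ k)
    (hkm : k ≤ 4 * m) (hm : m ≤ k) (hp : 1 ≤ p) (hl : 32 * R * Real.log p ≤ k) (W : Finset N)
    (hW : #W ≤ p) (l : ℕ → List N) (w : Finset N → ℕ)
    (h1 : ∀ i < m, (l i).Nodup ∧ ∀ v ∈ W, v ∈ l i)
    (h2 : ∀ X, ∑ i ∈ range m, chg X (l i) ≤ 2 * w X) (C : Finset (Finset N))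
    (hC : ∀ X ∈ C, k ≤ w X) (hinj : ∀ X ∈ C, ∀ Y ∈ C, X ∩ W = Y ∩ W → X = Y) :
    ∑ X ∈ C, Real.exp (-(w X / (2 * R))) < 1 := by
  have hk1 : 1 ≤ k := by nlinarith
  have hx : (0 : ℝ) ≤ (p : ℝ)⁻¹ := by positivity
  have g2 : ∀ i < m, ((l i).filter (· ∈ W)).toFinset = W := fun i hi => by
    ext v
    rw [List.mem_toFinset, List.mem_filter, decide_eq_true_iff]
    exact ⟨fun h => h.2, fun h => ⟨(h1 i hi).2 v h, h⟩⟩
  have a1 : ∀ X ∈ C, Real.exp (-(w X / (2 * R))) ≤ Real.exp (-(k / (4 * R))) *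
      ∑ i ∈ range m, (p : ℝ)⁻¹ ^ chg (X ∩ W) ((l i).filter (· ∈ W)) := fun X hX => by
    obtain ⟨i, hi, hmin⟩ := exists_min_image (range m) (fun i => chg X (l i))
      ⟨0, mem_range.2 (by omega)⟩
    have b1 := card_nsmul_le_sum (range m) _ _ hmin
    rw [card_range, smul_eq_mul] at b1
    have b2 : chg (X ∩ W) ((l i).filter (· ∈ W)) ≤ chg X (l i) := by
      refine le_trans (le_of_eq (chg_congr _ fun v hv => ?_)) (chg_sublist X List.filter_sublist)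
      rw [List.mem_filter, decide_eq_true_iff] at hv
      rw [mem_inter]
      exact and_iff_left hv.2
    refine (num_UPick (a := chg (X ∩ W) ((l i).filter (· ∈ W))) hR hk1 hp (hC X hX) ?_ hl).trans
      (mul_le_mul_of_nonneg_left ?_ (Real.exp_pos _).le)
    · calc k * chg (X ∩ W) ((l i).filter (· ∈ W)) ≤ 4 * m * chg X (l i) := Nat.mul_le_mul hkm b2
        _ = 4 * (m * chg X (l i)) := by ring
        _ ≤ 4 * (2 * w X) := Nat.mul_le_mul_left 4 (b1.trans (h2 X))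
        _ = 8 * w X := by ring
    · exact single_le_sum (f := fun i => (p : ℝ)⁻¹ ^ chg (X ∩ W) ((l i).filter (· ∈ W)))
        (fun _ _ => pow_nonneg hx _) hi
  have a2 : ∀ i ∈ range m, ∑ X ∈ C, (p : ℝ)⁻¹ ^ chg (X ∩ W) ((l i).filter (· ∈ W)) ≤
      2 * (1 + (p : ℝ)⁻¹) ^ p := fun i hi => by
    have g1 : ((l i).filter (· ∈ W)).Nodup := (h1 i (mem_range.1 hi)).1.filter _
    have g3 : ((l i).filter (· ∈ W)).length ≤ p := by
      rw [← List.toFinset_card_of_nodup g1, g2 i (mem_range.1 hi)]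
      exact hW
    rw [← sum_image (f := fun Y => (p : ℝ)⁻¹ ^ chg Y ((l i).filter (· ∈ W)))
      (g := fun X => X ∩ W)]
    · refine le_trans (sum_le_sum_of_subset_of_nonneg ?_ fun _ _ _ => pow_nonneg hx _)
        ((sum_chg _ g1 _ hx).trans (mul_le_mul_of_nonneg_left
          (pow_le_pow_right₀ (by linarith) g3) (by norm_num)))
      intro Y hY
      obtain ⟨X, -, rfl⟩ := mem_image.1 hY
      rw [g2 i (mem_range.1 hi)]
      exact mem_powerset.2 inter_subset_right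
    · intro X hX Y hY hXY
      exact hinj X (mem_coe.1 hX) Y (mem_coe.1 hY) hXY
  calc ∑ X ∈ C, Real.exp (-(w X / (2 * R))) ≤ _ := sum_le_sum a1
    _ = Real.exp (-(k / (4 * R))) * ∑ i ∈ range m, ∑ X ∈ C,
          (p : ℝ)⁻¹ ^ chg (X ∩ W) ((l i).filter (· ∈ W)) := by rw [← mul_sum, sum_comm]
    _ ≤ Real.exp (-(k / (4 * R))) * (m * (2 * (1 + (p : ℝ)⁻¹) ^ p)) := by
        refine mul_le_mul_of_nonneg_left ?_ (Real.exp_pos _).le
        have h3 := sum_le_card_nsmul _ _ _ a2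
        rwa [card_range, nsmul_eq_mul] at h3
    _ < 1 := fin_UPick hR hk hm hp

/-- one pair out of every group of `8 R`, thin for all cuts -/
theorem pick_pairs (q R : ℕ) (hR : 1 ≤ R) : ∃ κ₀ : ℕ, ∀ κ m : ℕ, κ₀ ≤ κ → κ ≤ 4 * m → m ≤ κ →
    ∀ (N E : Type) [Fintype N] [DecidableEq N] [DecidableEq E] (en : E → N) (F : Finset (E × E))
    (l : ℕ → List N) (w : Finset N → ℕ), 8 * R * (q * κ) ≤ #F → #F ≤ 32 * q * R * κ →
    (∀ i < m, (l i).Nodup ∧ ∀ p ∈ F, en p.1 ∈ l i ∧ en p.2 ∈ l i) →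
    (∀ X, ∑ i ∈ range m, chg X (l i) ≤ 2 * w X) → (∀ X, pc en F X ≤ 2 * w X) →
    (∀ X, 0 < pc en F X → κ ≤ w X) →
    ∃ Q ⊆ F, #Q = q * κ ∧ ∀ X, R * pc en Q X ≤ w X := by
  rcases Nat.eq_zero_or_pos q with rfl | hq
  · exact ⟨0, fun κ m _ _ _ N E _ _ _ en F l w _ _ _ _ _ _ =>
      ⟨∅, empty_subset _, by simp, fun X => by simp [pc]⟩⟩
  refine ⟨4096 * R ^ 2 * (64 * q * R) + 192 * R ^ 2, ?_⟩
  intro κ m hκ hκm hm N E _ _ _ en F l w hF1 hF2 hl hc hp hw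
  have hk : 192 * R ^ 2 ≤ κ := le_trans (Nat.le_add_left _ _) hκ
  have hk1 : 1 ≤ κ := by nlinarith
  have hA : 1 ≤ 64 * q * R := Nat.mul_pos (by omega) hR
  have hlog := log_UPick hA hR hk1 (le_trans (Nat.le_add_right _ _) hκ)
  have hR' : (1 : ℝ) ≤ R := by exact_mod_cast hR
  obtain ⟨φ⟩ : Nonempty (Fin (q * κ) × Fin (8 * R) ↪ F) :=
    Function.Embedding.nonempty_of_card_le (by
      rw [Fintype.card_prod, Fintype.card_fin, Fintype.card_fin, Fintype.card_coe, mul_comm]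
      exact hF1)
  obtain ⟨W, hW, hW1, hW2⟩ : ∃ W : Finset N, #W ≤ 64 * q * R * κ ∧
      (∀ p ∈ F, en p.1 ∈ W ∧ en p.2 ∈ W) ∧ ∀ i < m, ∀ v ∈ W, v ∈ l i := by
    refine ⟨F.image (fun p => en p.1) ∪ F.image (fun p => en p.2), ?_, fun p hp =>
      ⟨mem_union_left _ (mem_image_of_mem _ hp), mem_union_right _ (mem_image_of_mem _ hp)⟩,
      fun i hi v hv => ?_⟩
    · have h1 := card_image_le (s := F) (f := fun p => en p.1)
      have h2 := card_image_le (s := F) (f := fun p => en p.2)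
      refine (card_union_le _ _).trans ((Nat.add_le_add (h1.trans hF2) (h2.trans hF2)).trans
        (le_of_eq (by ring)))
    · rcases mem_union.1 hv with h | h <;> obtain ⟨p, hp, rfl⟩ := mem_image.1 h
      exacts [((hl i hi).2 p hp).1, ((hl i hi).2 p hp).2]
  obtain ⟨C, hC, hinj, hrep⟩ := exists_reps (univ.filter fun X : Finset N => 0 < pc en F X)
    (fun X => X ∩ W) w
  have hsum := count_UPick hR hk hκm hm (Nat.mul_pos hA hk1) hlog W hW l w
    (fun i hi => ⟨(hl i hi).1, hW2 i hi⟩) hc C (fun X hX => hw X (mem_filter.1 (hC hX)).2) hinj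
  have hg : ∀ (P : Prop) [Decidable P], (0 : ℝ) ≤ if P then Real.exp 1 else 1 := fun P _ => by
    split_ifs
    · exact (Real.exp_pos _).le
    · exact zero_le_one
  obtain ⟨j, hj⟩ := avg_select (univ : Finset (Fin (q * κ))) (8 * R) (by omega) C
    (fun X => Real.exp (-(w X / R))) (fun X => (Real.exp_pos _).le)
    (fun X i a => if ¬ (en (φ (i, a)).1.1 ∈ X ↔ en (φ (i, a)).1.2 ∈ X) then Real.exp 1 else 1)
    fun X i a => hg _
  have hlt : ∑ X ∈ C, Real.exp (-(w X / R)) * ∏ i : Fin (q * κ),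
      (if ¬ (en (φ (i, j i)).1.1 ∈ X ↔ en (φ (i, j i)).1.2 ∈ X) then Real.exp 1 else 1) < 1 := by
    refine hj.trans_lt (lt_of_le_of_lt (sum_le_sum fun X _ => ?_) hsum)
    refine (mul_le_mul_of_nonneg_left (avg_UPick hR
      fun x => ¬ (en (φ x).1.1 ∈ X ↔ en (φ x).1.2 ∈ X)) (Real.exp_pos _).le).trans ?_
    rw [← Real.exp_add, Real.exp_le_exp]
    have h1 : #{x | ¬ (en (φ x).1.1 ∈ X ↔ en (φ x).1.2 ∈ X)} ≤ 2 * w X := by
      refine le_trans ?_ (hp X)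
      refine card_le_card_of_injOn (fun x => (φ x).1) (fun x hx => ?_)
        fun x _ y _ h => φ.injective (Subtype.ext h)
      exact mem_coe.2 (mem_filter.2 ⟨(φ x).2, (mem_filter.1 (mem_coe.1 hx)).2⟩)
    have h2 : (#{x | ¬ (en (φ x).1.1 ∈ X ↔ en (φ x).1.2 ∈ X)} : ℝ) ≤ 2 * w X := by
      exact_mod_cast h1
    have h3 := div_le_div_of_nonneg_right h2 (show (0 : ℝ) ≤ 4 * R by positivity)
    have h4 : -((w X : ℝ) / R) + 2 * w X / (4 * R) = -(w X / (2 * R)) := by field_simp; ring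
    linarith
  have hi : Function.Injective fun i : Fin (q * κ) => (φ (i, j i)).1 := fun i i' h =>
    congrArg Prod.fst (φ.injective (Subtype.ext h))
  have hQ : univ.image (fun i : Fin (q * κ) => (φ (i, j i)).1) ⊆ F := fun p hp => by
    obtain ⟨i, -, rfl⟩ := mem_image.1 hp
    exact (φ _).2
  refine ⟨_, hQ, by rw [card_image_of_injective _ hi, card_univ, Fintype.card_fin], fun X => ?_⟩
  rcases Nat.eq_zero_or_pos (pc en F X) with h0 | h0
  · have h1 : pc en (univ.image fun i : Fin (q * κ) => (φ (i, j i)).1) X ≤ pc en F X :=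
      card_le_card (filter_subset_filter _ hQ)
    rw [h0, Nat.le_zero] at h1
    rw [h1]
    exact Nat.zero_le _
  obtain ⟨Y, hY, hYX, hwY⟩ := hrep X (mem_filter.2 ⟨mem_univ _, h0⟩)
  have hv : ∀ v ∈ W, (v ∈ X ↔ v ∈ Y) := fun v hv => by
    have h1 : v ∈ Y ∩ W ↔ v ∈ X ∩ W := by rw [show Y ∩ W = X ∩ W from hYX]
    rw [mem_inter, mem_inter, and_iff_left hv, and_iff_left hv] at h1
    exact h1.symm
  have h1 : pc en (univ.image fun i : Fin (q * κ) => (φ (i, j i)).1) X =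
      #{i : Fin (q * κ) | ¬ (en (φ (i, j i)).1.1 ∈ Y ↔ en (φ (i, j i)).1.2 ∈ Y)} := by
    rw [pc, filter_image, card_image_of_injective _ hi]
    refine congrArg card (filter_congr fun i _ => ?_)
    rw [hv _ (hW1 _ (φ _).2).1, hv _ (hW1 _ (φ _).2).2]
  have h2 := (single_le_sum (f := fun X => Real.exp (-(w X / R)) * ∏ i : Fin (q * κ),
      (if ¬ (en (φ (i, j i)).1.1 ∈ X ↔ en (φ (i, j i)).1.2 ∈ X) then Real.exp 1 else 1))
    (fun X _ => mul_nonneg (Real.exp_pos _).le (prod_nonneg fun i _ => hg _)) hY).trans_lt hlt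
  rw [prod_ite, prod_const, prod_const_one, mul_one, ← h1, ← Real.exp_nat_mul, mul_one,
    ← Real.exp_add, Real.exp_lt_one_iff, neg_add_lt_iff_lt_add, add_zero,
    lt_div_iff₀ (by positivity)] at h2
  refine le_trans ?_ hwY
  rw [mul_comm]
  exact_mod_cast h2.le

end Pool.Agent.P.MP_e59a69_co
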