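import Pool.Agent.P.MP_e59a69_co.UBlock
import Pool.Agent.P.MP_e59a69_co.UPick
import Pool.Agent.P.MP_e59a69_co.LPack

open Finset

namespace Pool.Agent.P.MP_e59a69_co

lemma sum_ct_UPair {N E : Type} [DecidableEq N] [Fintype E] [DecidableEq E] (s t : E → N)
    (T : ℕ → Finset E) (hT : ∀ i j, i ≠ j → Disjoint (T i) (T j)) (m : ℕ) (X : Finset N) :
    ∑ i ∈ range m, ct s t (T i) X ≤ ct s t univ X := by
  unfold ct
  rw [← card_biUnion fun i _ j _ hij => disjoint_filter_filter (hT i j hij)]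
  refine card_le_card fun e he => ?_
  obtain ⟨i, -, hi⟩ := mem_biUnion.1 he
  exact mem_filter.2 ⟨mem_univ _, (mem_filter.1 hi).2⟩

/-- orders from a packing of trees -/
theorem exists_orders {N : Type} [Fintype N] [DecidableEq N] (Z : Finset N) (W : Multiset (N × N))
    (hW : ∀ p ∈ W, p.1 ∈ Z ∧ p.2 ∈ Z) (m : ℕ) (hm : 3 ≤ m) (h : ∀ X, Sep Z X → 3 * m ≤ mcut W X) :
    ∃ l : ℕ → List N, (∀ i < m, (l i).Nodup ∧ (l i).toFinset = Z) ∧
      ∀ X, ∑ i ∈ range m, chg X (l i) ≤ 2 * mcut W X := by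
  have : DecidableEq W.ToType := Classical.decEq _
  have hc : ∀ X, ct (fun x : W.ToType => x.1.1) (fun x : W.ToType => x.1.2) univ X = mcut W X := by
    intro X
    rw [← mcut_map]
    exact congrArg (fun V => mcut V X) (Multiset.map_univ_coe W)
  have hZ : ∀ x : W.ToType, x.1.1 ∈ Z ∧ x.1.2 ∈ Z := fun x => hW x.1 (Multiset.coe_mem (x := x))
  obtain ⟨T, hT, hT'⟩ := pack (fun x : W.ToType => x.1.1) (fun x : W.ToType => x.1.2) Z hZ m hm
    fun X hX => by rw [hc]; exact h X hX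
  have hl : ∀ i, ∃ l : List N, i < m → l.Nodup ∧ l.toFinset = Z ∧
      ∀ X, chg X l ≤ 2 * ct (fun x : W.ToType => x.1.1) (fun x : W.ToType => x.1.2) (T i) X := by
    intro i
    by_cases hi : i < m
    · obtain ⟨l, hl⟩ := exists_list _ _ Z (T i) (fun e _ => hZ e) (hT' i hi)
      exact ⟨l, fun _ => hl⟩
    · exact ⟨[], fun h => absurd h hi⟩
  choose l hl using hl
  refine ⟨l, fun i hi => ⟨(hl i hi).1, (hl i hi).2.1⟩, fun X => ?_⟩
  refine (sum_le_sum fun i hi => (hl i (mem_range.1 hi)).2.2 X).trans ?_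
  rw [← mul_sum, ← hc]
  exact Nat.mul_le_mul_left _ (sum_ct_UPair _ _ T hT m X)

/-- thin pair lemma -/
theorem thin_pair (q R : ℕ) (hR : 1 ≤ R) : ∃ κ₀ : ℕ, ∀ κ : ℕ, κ₀ ≤ κ →
    ∀ (N ι E : Type) [Fintype N] [DecidableEq N] [DecidableEq ι] [DecidableEq E] (Z : Finset N)
    (W : Multiset (N × N)) (B : Finset E) (en : E → N) (col : E → ι),
    (∀ p ∈ W, p.1 ∈ Z ∧ p.2 ∈ Z) → (∀ X, Sep Z X → κ ≤ mcut W X) → (∀ e ∈ B, en e ∈ Z) →
    (∀ c, #{e ∈ B | col e = c} < κ) → 64 * q * R * κ ≤ #B →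
    ∃ Q : Finset (E × E), Prs B col Q ∧ #Q = q * κ ∧ ∀ X, R * pc en Q X ≤ mcut W X := by
  obtain ⟨κ₁, h₁⟩ := pick_pairs q R hR
  refine ⟨max 12 κ₁, fun κ hκ N ι E _ _ _ _ Z W B en col hW hc hen hcol hB => ?_⟩
  have h12 : 12 ≤ κ := (le_max_left _ _).trans hκ
  obtain ⟨m, hm⟩ : ∃ m, m = κ / 3 := ⟨_, rfl⟩
  obtain ⟨l, hl, hl'⟩ := exists_orders Z W hW m (by omega) fun X hX =>
    le_trans (by omega) (hc X hX)
  have hmem : ∀ i < m, ∀ e ∈ B, en e ∈ l i := fun i hi e he =>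
    List.mem_toFinset.1 ((hl i hi).2 ▸ hen e he)
  obtain ⟨F, hF, hF1, hF2⟩ := round_pairs l B en col κ (32 * q * R) m
    (fun i hi => ⟨(hl i hi).1, hmem i hi⟩) (by omega) hcol (by
      have h2 := Nat.mul_le_mul_left (32 * q * R) (show 2 * m ≤ κ by omega)
      nlinarith)
  obtain ⟨Q, hQ, hQ1, hQ2⟩ := h₁ κ m ((le_max_right _ _).trans hκ) (by omega) (by omega) N E en F l
    (mcut W)
    (by
      have h2 := Nat.mul_le_mul_left (8 * q * R) (show κ ≤ 4 * m by omega)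
      rw [hF1]
      nlinarith)
    (by rw [hF1]; exact Nat.mul_le_mul_left _ (by omega))
    (fun i hi => ⟨(hl i hi).1, fun p hp =>
      ⟨hmem i hi _ (hF.mem p hp).1, hmem i hi _ (hF.mem p hp).2.1⟩⟩)
    hl' (fun X => (hF2 X).trans (hl' X))
    (fun X hX => by
      obtain ⟨p, hp⟩ := card_pos.1 hX
      obtain ⟨hp, hp'⟩ := mem_filter.1 hp
      have a := hen _ (hF.mem p hp).1
      have b := hen _ (hF.mem p hp).2.1
      refine hc X ?_
      by_cases c : en p.1 ∈ X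
      · exact ⟨⟨_, a, c⟩, _, b, fun d => hp' ⟨fun _ => d, fun _ => c⟩⟩
      · exact ⟨⟨_, b, by
          by_contra d
          exact hp' ⟨fun x => (c x).elim, fun x => (d x).elim⟩⟩, _, a, c⟩)
  exact ⟨Q, ⟨fun p hp => hF.mem p (hQ hp), fun p hp p' hp' => hF.dis p (hQ hp) p' (hQ hp')⟩,
    hQ1, hQ2⟩

end Pool.Agent.P.MP_e59a69_co
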