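import Pool.Agent.P.MP_e59a69_co.USel
import Pool.Agent.P.MP_e59a69_co.LList

open Finset

namespace Pool.Agent.P.MP_e59a69_co

lemma ct_sum_URoot {V A B : Type} [DecidableEq V] [Fintype A] [Fintype B] (s t : A ⊕ B → V)
    (X : Finset V) : ct s t univ X =
      ct (fun a => s (.inl a)) (fun a => t (.inl a)) univ X +
        ct (fun b => s (.inr b)) (fun b => t (.inr b)) univ X := by
  simp only [ct, card_filter, Fintype.sum_sum_type]

lemma chg_map_URoot {N I : Type} [DecidableEq N] [DecidableEq I] (X : Finset N)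
    (X' : Finset (N ⊕ I)) (h : ∀ v, Sum.inl v ∈ X' ↔ v ∈ X) (l : List N) :
    chg X' (l.map Sum.inl) = chg X l := by
  induction l with
  | nil => rfl
  | cons a l ih =>
    rcases l with _ | ⟨b, l⟩
    · rfl
    · rw [List.map_cons] at ih
      rw [List.map_cons, List.map_cons, chg_cons_cons, chg_cons_cons, ih]
      simp only [h]

lemma sub_URoot {N I : Type} (l : List (N ⊕ I)) :
    ((l.filterMap Sum.getLeft?).map Sum.inl).Sublist l := by
  induction l with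
  | nil => exact List.Sublist.slnil
  | cons a l ih =>
    rcases a with a | a
    · exact ih.cons_cons (Sum.inl a)
    · exact ih.cons (Sum.inr a)

lemma list_URoot {N I : Type} [Fintype N] [Fintype I] [DecidableEq N] [DecidableEq I]
    (l' : List (N ⊕ I)) (h1 : l'.Nodup) (h2 : l'.toFinset = univ) :
    ∃ l : List N, l.Nodup ∧ l.toFinset = univ ∧ ∀ (X : Finset N) (X' : Finset (N ⊕ I)),
      (∀ v, Sum.inl v ∈ X' ↔ v ∈ X) → chg X l ≤ chg X' l' := by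
  refine ⟨l'.filterMap Sum.getLeft?, (h1.sublist (sub_URoot l')).of_map _, ?_, fun X X' h => ?_⟩
  · refine eq_univ_of_forall fun v => List.mem_toFinset.2 ?_
    have : Sum.inl v ∈ l' := List.mem_toFinset.1 (h2 ▸ mem_univ _)
    exact List.mem_filterMap.2 ⟨_, this, rfl⟩
  · rw [← chg_map_URoot X X' h]
    exact chg_sublist X' (sub_URoot l')

lemma num_URoot {n c T a j x y : ℕ} (hT : 4 * n * c ≤ T) (hT1 : 1 ≤ T)
    (h1 : 4 * n * (1 + c) * a ≤ x + y) (h2 : y + T * j ≤ c * x) : n * (2 * (a + j)) ≤ x := by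
  have h3 : (1 + c) * (4 * n * a) ≤ (1 + c) * x := by nlinarith [Nat.zero_le (T * j)]
  have h4 : 4 * n * a ≤ x := Nat.le_of_mul_le_mul_left h3 (by omega)
  have h5 : 4 * n * j ≤ x := by
    rcases Nat.eq_zero_or_pos c with rfl | hc
    · have : j = 0 := by nlinarith [Nat.zero_le y]
      simp [this]
    · have h6 : 4 * n * c * j ≤ T * j := Nat.mul_le_mul_right _ hT
      have h7 : c * (4 * n * j) ≤ c * x := by nlinarith [Nat.zero_le y]
      exact Nat.le_of_mul_le_mul_left h7 hc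
  nlinarith

section
variable {N E I : Type} [Fintype N] [Fintype E] [Fintype I] [DecidableEq N] [DecidableEq I]
  {κ : ℕ}

/-- tails in the graph with the stars added -/
def sa_URoot (s : E → N) : E ⊕ I × Fin κ → N ⊕ I :=
  Sum.elim (fun e => .inl (s e)) fun p => .inr p.1

/-- heads in the graph with the stars added -/
def ta_URoot (t : E → N) (lf : I → Fin κ → N) : E ⊕ I × Fin κ → N ⊕ I :=
  Sum.elim (fun e => .inl (t e)) fun p => .inl (lf p.1 p.2)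

omit [Fintype N] in
lemma cta_URoot (s t : E → N) (lf : I → Fin κ → N) (X : Finset N) (X' : Finset (N ⊕ I))
    (h : ∀ v, Sum.inl v ∈ X' ↔ v ∈ X) : ct (sa_URoot s) (ta_URoot t lf) univ X' =
      ct s t univ X + ∑ c : I, #{i : Fin κ | ¬ (Sum.inr c ∈ X' ↔ lf c i ∈ X)} := by
  rw [ct_sum_URoot]
  simp only [ct, card_filter, Fintype.sum_prod_type, sa_URoot, ta_URoot, Sum.elim_inl,
    Sum.elim_inr, h]

lemma conn_URoot (s t : E → N) (lf : I → Fin κ → N)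
    (hc : ∀ X : Finset N, X.Nonempty → Xᶜ.Nonempty → κ ≤ ct s t univ X)
    (X' : Finset (N ⊕ I)) (h1 : X'.Nonempty) (h2 : X'ᶜ.Nonempty) :
    κ ≤ ct (sa_URoot s) (ta_URoot t lf) univ X' := by
  rw [cta_URoot s t lf X'.toLeft X' fun v => mem_toLeft.symm]
  have key : ∀ c : I, (∀ v : N, ¬ (Sum.inr c ∈ X' ↔ v ∈ X'.toLeft)) →
      κ ≤ ∑ c : I, #{i : Fin κ | ¬ (Sum.inr c ∈ X' ↔ lf c i ∈ X'.toLeft)} := by
    intro c h
    refine le_trans ?_ (single_le_sum (fun _ _ => Nat.zero_le _) (mem_univ c))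
    rw [filter_true_of_mem fun i _ => h _, card_univ, Fintype.card_fin]
  by_cases a : X'.toLeft.Nonempty
  · by_cases b : X'.toLeftᶜ.Nonempty
    · exact (hc _ a b).trans (Nat.le_add_right _ _)
    · have hb : ∀ v, v ∈ X'.toLeft := fun v => by
        by_contra hv
        exact b ⟨v, mem_compl.2 hv⟩
      obtain ⟨z, hz⟩ := h2
      rw [mem_compl] at hz
      rcases z with v | c
      · exact (hz (mem_toLeft.1 (hb v))).elim
      · exact (key c fun v h => hz (h.2 (hb v))).trans (Nat.le_add_left _ _)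
  · obtain ⟨z, hz⟩ := h1
    rcases z with v | c
    · exact (a ⟨v, mem_toLeft.2 hz⟩).elim
    · exact (key c fun v h => a ⟨v, h.1 hz⟩).trans (Nat.le_add_left _ _)

end

section
variable {N : Type} [Fintype N] [DecidableEq N] {κ c₁ c₂ T : ℕ} {u : Nd N κ}

/-- tails in the joining graph -/
def sb_URoot (h : Good c₁ c₂ T u) :
    {c // c ∈ u.C} ⊕ {p // p ∈ u.J} → N ⊕ {c // c ∈ u.C} :=
  Sum.elim (fun c => .inr c) fun p => .inr ⟨p.1.1, (h.jend _ p.2).1⟩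

/-- heads in the joining graph -/
def tb_URoot (h : Good c₁ c₂ T u) (σ : {c // c ∈ u.C} → Fin κ) :
    {c // c ∈ u.C} ⊕ {p // p ∈ u.J} → N ⊕ {c // c ∈ u.C} :=
  Sum.elim (fun c => .inl (c.1.2 (σ c))) fun p => .inr ⟨p.1.2, (h.jend _ p.2).2⟩

variable [DecidableEq {c // c ∈ u.C}]

lemma tree_URoot (h : Good c₁ c₂ T u) (hu : ∀ v, v ∈ u.vs) (hκ : 0 < κ)
    (σ : {c // c ∈ u.C} → Fin κ) : Conn (sb_URoot h) (tb_URoot h σ) univ univ := by
  intro X' hX
  by_contra hno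
  have h0 : ∀ e, sb_URoot h e ∈ X' ↔ tb_URoot h σ e ∈ X' := fun e => by
    by_contra he
    exact hno (card_pos.2 ⟨e, mem_filter.2 ⟨mem_univ e, he⟩⟩)
  have hY : ∀ (c) (hc : c ∈ u.C), c ∈ X'.toRight.image Subtype.val ↔
      Sum.inr (⟨c, hc⟩ : {c // c ∈ u.C}) ∈ X' := fun c hc => by
    constructor
    · intro a
      obtain ⟨⟨c', hc'⟩, a1, rfl⟩ := mem_image.1 a
      exact mem_toRight.1 a1
    · exact fun a => mem_image.2 ⟨⟨c, hc⟩, mem_toRight.2 a, rfl⟩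
  have hs := h.conn (fun c => if hc : c ∈ u.C then σ ⟨c, hc⟩ else ⟨0, hκ⟩) X'.toLeft
    (X'.toRight.image Subtype.val)
    (fun c hc => by
      rw [hY c hc, dif_pos hc, mem_toLeft]
      exact h0 (.inl ⟨c, hc⟩))
    (fun p hp => by
      rw [hY _ (h.jend p hp).1, hY _ (h.jend p hp).2]
      exact h0 (.inr ⟨p, hp⟩))
  obtain ⟨⟨a, -, ha⟩, b, -, hb⟩ := hX
  refine hs ⟨?_, ?_⟩
  · rcases a with v | c
    · exact ⟨v, hu v, mem_toLeft.2 ha⟩
    · exact ⟨_, hu _, mem_toLeft.2 ((h0 (.inl c)).1 ha)⟩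
  · rcases b with v | c
    · exact ⟨v, hu v, fun a => hb (mem_toLeft.1 a)⟩
    · exact ⟨_, hu _, fun a => hb ((h0 (.inl c)).2 (mem_toLeft.1 a))⟩

omit [Fintype N] in
lemma ctb_URoot (h : Good c₁ c₂ T u) (σ : {c // c ∈ u.C} → Fin κ) (Y : Finset (Ce N κ))
    (X' : Finset (N ⊕ {c // c ∈ u.C})) (hY : ∀ c, Sum.inr c ∈ X' ↔ c.1 ∈ Y) :
    ct (sb_URoot h) (tb_URoot h σ) univ X' =
      #{c : {c // c ∈ u.C} | ¬ (Sum.inr c ∈ X' ↔ Sum.inl (c.1.2 (σ c)) ∈ X')} + jc u.J Y := by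
  rw [ct_sum_URoot]
  congr 1
  rw [jc, card_filter, ← sum_coe_sort u.J, ct, card_filter]
  refine sum_congr rfl fun p _ => ?_
  simp only [sb_URoot, tb_URoot, Sum.elim_inr, hY]

end

/-- from the root node to an order -/
theorem order_of_root (n c : ℕ) : ∃ k₀ : ℕ, ∀ κ : ℕ, k₀ ≤ κ →
    ∀ (N E : Type) [Fintype N] [Fintype E] [DecidableEq N] [DecidableEq E] (s t : E → N)
    (u : Nd N κ) (c₁ c₂ T : ℕ), Good c₁ c₂ T u → (∀ v, v ∈ u.vs) → 4 * n * c ≤ T → 1 ≤ T →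
    (∀ X : Finset N, X.Nonempty → Xᶜ.Nonempty → κ ≤ ct s t univ X) →
    (∀ X, c₁ * mcut u.W X ≤ c * ct s t univ X) →
    ∃ l : List N, l.Nodup ∧ l.toFinset = univ ∧ ∀ X, n * chg X l ≤ ct s t univ X := by
  obtain ⟨k₀, hk⟩ := star_select (4 * n * (1 + c))
  refine ⟨k₀ + 1, fun κ hκ N E _ _ _ _ s t u c₁ c₂ T h hu hT hT1 hc hW => ?_⟩
  have dI : DecidableEq {c // c ∈ u.C} := Classical.decEq _
  have dJ : DecidableEq {p // p ∈ u.J} := Classical.decEq _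
  obtain ⟨σ, hσ⟩ := hk κ (by omega) (N ⊕ {c // c ∈ u.C}) (E ⊕ {c // c ∈ u.C} × Fin κ)
    {c // c ∈ u.C} (sa_URoot s) (ta_URoot t fun c => c.1.2) Sum.inr (fun c i => .inr (c, i))
    (conn_URoot s t _ hc) (fun p q e => Sum.inr_injective e) fun _ _ => rfl
  obtain ⟨l', h1, h2, h3⟩ := exists_list (sb_URoot h) (tb_URoot h σ) univ univ
    (fun _ _ => ⟨mem_univ _, mem_univ _⟩) (tree_URoot h hu (by omega) σ)
  obtain ⟨l, h4, h5, h6⟩ := list_URoot l' h1 h2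
  refine ⟨l, h4, h5, fun X => ?_⟩
  obtain ⟨Y, hY, -⟩ := h.cost X
  obtain ⟨X', hl, hr⟩ : ∃ X' : Finset (N ⊕ {c // c ∈ u.C}), (∀ v, Sum.inl v ∈ X' ↔ v ∈ X) ∧
      ∀ c, Sum.inr c ∈ X' ↔ c.1 ∈ Y :=
    ⟨X.disjSum {c | c.1 ∈ Y}, fun v => inl_mem_disjSum, fun c => by simp⟩
  have e1 := hσ X'
  rw [cta_URoot s t _ X X' hl] at e1
  have e2 : ∑ c : {c // c ∈ u.C}, #{i : Fin κ | ¬ (Sum.inr c ∈ X' ↔ c.1.2 i ∈ X)} =
      stc u.C X Y := by
    rw [stc, ← sum_coe_sort u.C]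
    simp only [hr]
  rw [e2] at e1
  have e3 := (h6 X X' hl).trans (h3 X')
  rw [ctb_URoot h σ Y X' hr] at e3
  exact (Nat.mul_le_mul_left n e3).trans (num_URoot hT hT1 e1 (hY.trans (hW X)))

end Pool.Agent.P.MP_e59a69_co
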