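import Pool.Agent.P.MP_e59a69_co.UStar
import Pool.Agent.P.MP_e59a69_co.UThin

open Finset

namespace Pool.Agent.P.MP_e59a69_co

theorem markov_USel {k n : ℕ} {η : ℝ} (hη : 0 < η) (r : Fin k → ℝ) (h0 : ∀ a, 0 ≤ r a)
    (hs : ∑ a, r a ≤ η * k) (hn : 0 < n) (hk : 2 * n ≤ k) :
    ∃ φ : ℕ → Fin k, (∀ a, r (φ a) ≤ 2 * η) ∧ ∀ a < n, ∀ b < n, φ a = φ b → a = b := by
  classical
  have h1 := card_filter_add_card_filter_not (s := (univ : Finset (Fin k))) fun a => r a ≤ 2 * η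
  rw [card_univ, Fintype.card_fin] at h1
  have h2 : (#{a | ¬ r a ≤ 2 * η} : ℝ) * (2 * η) ≤ η * k := by
    refine le_trans ?_ ((sum_le_sum_of_subset_of_nonneg (filter_subset (fun a => ¬ r a ≤ 2 * η) _)
      fun a _ _ => h0 a).trans hs)
    rw [← nsmul_eq_mul]
    exact card_nsmul_le_sum _ _ _ fun a ha => (not_le.1 (mem_filter.1 ha).2).le
  have h3 : 2 * #{a | ¬ r a ≤ 2 * η} ≤ k := by
    have : (2 * #{a | ¬ r a ≤ 2 * η} : ℝ) ≤ k := le_of_mul_le_mul_left (by linarith) hη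
    exact_mod_cast this
  have h4 : n ≤ #{a | r a ≤ 2 * η} := by omega
  refine ⟨fun a => orderEmbOfCardLe _ h4 ⟨a % n, Nat.mod_lt _ hn⟩,
    fun a => (mem_filter.1 (orderEmbOfCardLe_mem _ h4 _)).2, fun a ha b hb e => ?_⟩
  have := congrArg Fin.val ((orderEmbOfCardLe _ h4).injective e)
  simpa [Nat.mod_eq_of_lt ha, Nat.mod_eq_of_lt hb] using this

theorem ind_USel {V : Type} [DecidableEq V] (X : Finset V) (u v : V) :
    ((if u ∈ X then (1 : ℝ) else 0) - if v ∈ X then 1 else 0) ^ 2 =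
      if ¬ (u ∈ X ↔ v ∈ X) then 1 else 0 := by
  by_cases hu : u ∈ X <;> by_cases hv : v ∈ X <;> simp [hu, hv]

/-- one thin edge out of every star -/
theorem star_select (M : ℕ) : ∃ k₀ : ℕ, ∀ k : ℕ, k₀ ≤ k →
    ∀ (V E I : Type) [Fintype V] [Fintype E] [Fintype I] [DecidableEq V] [DecidableEq E]
    [DecidableEq I] (s t : E → V) (c : I → V) (g : I → Fin k → E),
    (∀ X : Finset V, X.Nonempty → Xᶜ.Nonempty → k ≤ ct s t univ X) →
    (Function.Injective fun p : I × Fin k => g p.1 p.2) → (∀ i a, s (g i a) = c i) →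
    ∃ σ : I → Fin k, ∀ X : Finset V,
      M * #{i | ¬ (s (g i (σ i)) ∈ X ↔ t (g i (σ i)) ∈ X)} ≤ ct s t univ X := by
  obtain ⟨j, hj⟩ := exists_pow_lt_of_lt_one (x := 1 / (2 * (M : ℝ) + 1)) (y := 9 / 10)
    (by positivity) (by norm_num)
  have hη : (0 : ℝ) < (9 / 10) ^ j / 200 := by positivity
  obtain ⟨k₁, H⟩ := star_lemma _ hη
  refine ⟨max k₁ (2 * 2 ^ j), fun k hk V E I _ _ _ _ _ _ s t c g hcut hg hs => ?_⟩
  obtain ⟨D, r, hD, hr, hX, hsum, hy⟩ := H k ((le_max_left _ _).trans hk) V E I s t c g hcut hg hs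
  choose φ hφ hφi using fun i => markov_USel hη (r i) (hr i) (hsum i) (Nat.two_pow_pos j)
    ((le_max_right _ _).trans hk)
  let dl : V → V → (V → ℝ) →ₗ[ℝ] ℝ := fun u v =>
    (LinearMap.proj u : (V → ℝ) →ₗ[ℝ] ℝ) - (LinearMap.proj v : (V → ℝ) →ₗ[ℝ] ℝ)
  have hdl : ∀ u v w, dl u v w = w u - w v := fun _ _ _ => rfl
  let γ : (V → ℝ) →ₗ[ℝ] E ⊕ V × V → ℝ := LinearMap.pi
    (Sum.elim (fun e => dl (s e) (t e)) fun p => √(D p.1 p.2) • dl p.1 p.2)
  have hγ : ∀ w, ∑ x, γ w x ^ 2 =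
      ∑ e, (w (s e) - w (t e)) ^ 2 + ∑ u, ∑ v, D u v * (w u - w v) ^ 2 := fun w => by
    rw [Fintype.sum_sum_type, Fintype.sum_prod_type]
    congr 1
    refine sum_congr rfl fun u _ => sum_congr rfl fun v _ => ?_
    change (√(D u v) * (w u - w v)) ^ 2 = _
    rw [mul_pow, Real.sq_sqrt (hD u v)]
  have hQ : ∀ w : V → ℝ, 0 ≤ ∑ u, ∑ v, D u v * (w u - w v) ^ 2 := fun w =>
    sum_nonneg fun u _ => sum_nonneg fun v _ => mul_nonneg (hD u v) (sq_nonneg _)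
  refine (sel_iter γ j (fun i a => dl (s (g i (φ i a))) (t (g i (φ i a)))) 1
    zero_le_one (fun w => ?_) (fun i a w => ?_)).elim fun σ hσ' => ?_
  rotate_left 2
  · have hσ := hσ'.2
    refine ⟨fun i => φ i (σ i), fun X => ?_⟩
    have h1 := hσ fun u => if u ∈ X then 1 else 0
    have h2 := hX X
    simp only [hγ, hdl, ind_USel, sum_boole, mul_one] at h1
    simp only [← ite_not (α := ℝ) (p := ¬ _), not_not] at h1
    have h3 : (0 : ℝ) ≤ ct s t univ X := Nat.cast_nonneg _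
    have h4 : (2 * (M : ℝ) + 1) * (9 / 10) ^ j ≤ 1 := by
      rw [lt_div_iff₀ (by positivity)] at hj
      linarith
    have h5 : (0 : ℝ) ≤ (9 / 10) ^ j := by positivity
    have h6 : (#{i | ¬ (s (g i (φ i (σ i))) ∈ X ↔ t (g i (φ i (σ i))) ∈ X)} : ℝ) ≤
        (9 / 10) ^ j * (2 * ct s t univ X) := by
      refine h1.trans (mul_le_mul_of_nonneg_left ?_ h5)
      rw [two_mul]
      exact add_le_add le_rfl h2
    have h7 : (M : ℝ) * #{i | ¬ (s (g i (φ i (σ i))) ∈ X ↔ t (g i (φ i (σ i))) ∈ X)} ≤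
        ct s t univ X := by
      refine (mul_le_mul_of_nonneg_left h6 (Nat.cast_nonneg M)).trans ?_
      nlinarith
    exact_mod_cast h7
  · rw [one_mul, hγ, ← sum_product']
    refine le_trans ?_ (le_add_of_nonneg_right (hQ w))
    simp only [hdl]
    rw [← sum_image (s := univ ×ˢ range (2 ^ j)) (g := fun p : I × ℕ => g p.1 (φ p.1 p.2))
      (f := fun e => (w (s e) - w (t e)) ^ 2)]
    · exact sum_le_sum_of_subset_of_nonneg (subset_univ _) fun _ _ _ => sq_nonneg _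
    · rintro ⟨i, a⟩ ha ⟨i', b⟩ hb e
      have e' := @hg (i, φ i a) (i', φ i' b) e
      obtain ⟨rfl, e2⟩ := Prod.ext_iff.1 e'
      simp only [coe_product, Set.mem_prod, mem_coe, mem_range] at ha hb
      rw [hφi i a ha.2 b hb.2 e2]
  · rw [mul_one, hγ, hdl]
    have h1 := hy i (φ i a) w
    have h2 := hφ i a
    have h3 : 0 ≤ ∑ e, (w (s e) - w (t e)) ^ 2 + ∑ u, ∑ v, D u v * (w u - w v) ^ 2 :=
      add_nonneg (sum_nonneg fun _ _ => sq_nonneg _) (hQ w)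
    have h4 := mul_le_mul_of_nonneg_right h2 h3
    linarith

end Pool.Agent.P.MP_e59a69_co
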