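import Pool.Agent.P.MP_e59a69_co.UDefs
import Pool.Agent.P.MP_e59a69_co.KStar

open Finset

namespace Pool.Agent.P.MP_e59a69_co

/-- star lemma -/
theorem star_lemma (η : ℝ) (hη : 0 < η) : ∃ k₀ : ℕ, ∀ k : ℕ, k₀ ≤ k →
    ∀ (V E I : Type) [Fintype V] [Fintype E] [Fintype I] [DecidableEq V] [DecidableEq E]
    (s t : E → V) (c : I → V) (g : I → Fin k → E),
    (∀ X : Finset V, X.Nonempty → Xᶜ.Nonempty → k ≤ ct s t univ X) →
    (Function.Injective fun p : I × Fin k => g p.1 p.2) → (∀ i a, s (g i a) = c i) →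
    ∃ (D : V → V → ℝ) (r : I → Fin k → ℝ), (∀ u v, 0 ≤ D u v) ∧ (∀ i a, 0 ≤ r i a) ∧
      (∀ X : Finset V, ∑ u, ∑ v, D u v * (if (u ∈ X ↔ v ∈ X) then 0 else 1) ≤ ct s t univ X) ∧
      (∀ i, ∑ a, r i a ≤ η * k) ∧ ∀ i a (y : V → ℝ), (y (s (g i a)) - y (t (g i a))) ^ 2 ≤
        r i a * (∑ e, (y (s e) - y (t e)) ^ 2 + ∑ u, ∑ v, D u v * (y u - y v) ^ 2) := by
  obtain ⟨k₀, h⟩ := kstar η hη
  refine ⟨k₀, fun k hk V E I _ _ _ _ _ s t c g h1 h2 h3 => ?_⟩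
  obtain ⟨D, r, ⟨d1, d2⟩, r1, r2, r3⟩ := h k hk V E I s t g h2
    (fun i j j' => by rw [h3, h3]) h1
  refine ⟨fun u v => D (u, v), r, fun u v => d1 _, r1, fun X => ?_, r3, fun i a y => ?_⟩
  · refine le_trans (le_of_eq ?_) (d2 X)
    rw [ED, Fintype.sum_prod_type]
    refine sum_congr rfl fun u _ => sum_congr rfl fun v _ => ?_
    by_cases a : u ∈ X <;> by_cases b : v ∈ X <;> simp [ind1, a, b]
  · have := r2 i a y
    rwa [En, ED, Fintype.sum_prod_type] at this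

end Pool.Agent.P.MP_e59a69_co
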