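import Pool.Agent.P.MP_e59a69_co.UDefs
import Pool.Agent.P.MP_e59a69_co.TLow

open Finset

namespace Pool.Agent.P.MP_e59a69_co

lemma ins_ent_UStart {N E : Type} [DecidableEq N] (s t : E → N) (A : Finset E)
    (hl : ∀ e ∈ A, s e ≠ t e) (S : Finset N) :
    #(ins s t A S) + ent s t A S = ∑ v ∈ S, ent s t A {v} := by
  unfold ins ent
  simp only [card_filter]
  rw [← sum_add_distrib, sum_comm]
  refine sum_congr rfl fun e he => ?_
  have h1 : ∀ v, (t e ∈ ({v} : Finset N) ∧ s e ∉ ({v} : Finset N)) ↔ t e = v := fun v => by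
    simp only [mem_singleton]
    exact ⟨fun h => h.1, fun h => ⟨h, fun h' => hl e he (h'.trans h.symm)⟩⟩
  simp only [h1, sum_ite_eq]
  by_cases a : s e ∈ S <;> by_cases b : t e ∈ S <;> simp [a, b]

/-- the first state -/
theorem exists_start {N E : Type} [Fintype N] [Fintype E] [DecidableEq N] [DecidableEq E]
    [Nonempty N] (s t : E → N) (K b : ℕ)
    (h : ∀ X : Finset N, X.Nonempty → Xᶜ.Nonempty → 3 * K + 7 ≤ ct s t univ X) :
    ∃ A : Finset E, St K b s t A univ := by
  obtain ⟨r⟩ := ‹Nonempty N›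
  obtain ⟨s', t', hst, h3⟩ := third s t univ fun X a b => le_trans (by omega) (h X a b)
  obtain ⟨B, -, hB, hloop, hent⟩ := minimal_rooted s' t' univ r K fun X hX hr => by
    have a := h X hX ⟨r, mem_compl.2 hr⟩
    have b := h3 X
    omega
  obtain ⟨A, hA⟩ : ∃ A : Finset E, A = {e ∈ B | t' e ≠ r} := ⟨_, rfl⟩
  have hl : ∀ e ∈ A, s' e ≠ t' e := fun e he => hloop e (mem_filter.1 (hA ▸ he)).1
  have e1 : ∀ X : Finset N, r ∉ X → ent s' t' A X = ent s' t' B X := fun X hX => by
    unfold ent
    rw [hA, filter_filter]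
    exact congrArg card (filter_congr fun e _ =>
      ⟨fun a => a.2, fun a => ⟨fun c => hX (c ▸ a.1), a⟩⟩)
  have e2 : ent s' t' A {r} = 0 := by
    unfold ent
    rw [card_eq_zero, filter_eq_empty_iff, hA]
    exact fun e he a => absurd (mem_singleton.1 a.1) (mem_filter.1 he).2
  have e3 : ∀ v, v ≠ r → ent s' t' A {v} = K := fun v hv => by
    have a : r ∉ ({v} : Finset N) := fun c => hv (mem_singleton.1 c).symm
    rw [e1 _ a]
    exact le_antisymm (hent v) (hB _ (singleton_nonempty v) a)
  have e4 : ∀ S : Finset N, ins s t A S = ins s' t' A S := fun S => by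
    unfold ins
    refine filter_congr fun e _ => ?_
    rcases hst e with ⟨a, b⟩ | ⟨a, b⟩
    · rw [a, b]
    · rw [a, b, and_comm]
  have e5 : ∀ S : Finset N, r ∉ S → ∑ v ∈ S, ent s' t' A {v} = K * #S := fun S hS => by
    rw [sum_congr rfl fun v hv => e3 v fun c => hS (c ▸ hv), sum_const, smul_eq_mul, mul_comm]
  have e6 : ∀ S : Finset N, r ∈ S → ∑ v ∈ S, ent s' t' A {v} + K = K * #S := fun S hS => by
    rw [← add_sum_erase S _ hS, e2, e5 _ (notMem_erase r S), ← card_erase_add_one hS]
    ring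
  refine ⟨A, fun e _ => ⟨mem_univ _, mem_univ _⟩, fun S _ hS => ?_, ?_⟩
  · have a := ins_ent_UStart s' t' A hl S
    rw [e4]
    by_cases hr : r ∈ S
    · have b := e6 S hr
      omega
    · have b := e5 S hr
      have c := hB S hS hr
      have d := e1 S hr
      omega
  · have a := ins_ent_UStart s' t' A hl univ
    have b := e6 univ (mem_univ r)
    have c : ins s' t' A univ = A := filter_true_of_mem fun e _ => ⟨mem_univ _, mem_univ _⟩
    have d : ent s' t' A univ = 0 := by
      unfold ent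
      rw [card_eq_zero, filter_eq_empty_iff]
      exact fun e _ a => a.2 (mem_univ _)
    rw [c, d] at a
    omega

end Pool.Agent.P.MP_e59a69_co
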