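import Pool.Agent.P.MP_e59a69_co.UBuild
import Pool.Agent.P.MP_e59a69_co.UStart
import Pool.Agent.P.MP_e59a69_co.UPair
import Pool.Agent.P.MP_e59a69_co.URoot

open Finset

namespace Pool.Agent.P.MP_e59a69_co

lemma par_UTop (k δ T Λ κ : ℕ) (hk : 1281 ≤ k) (hδ : δ = 4 * (k + 640) * k) (h1 : 1 ≤ κ)
    (hT : T ≤ κ) (hΛ : 1536 * δ * Λ ≤ κ) :
    Par 640 κ (k * κ) (640 * κ) (δ * κ) T (2 * δ + 3) (2 * (δ * κ + κ)) Λ := by
  have hδ' : 1 ≤ δ := by rw [hδ]; nlinarith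
  refine ⟨by norm_num, h1, rfl, by nlinarith, by nlinarith, hT, rfl, le_of_eq (by ring), ?_,
    le_rfl, ?_⟩
  · calc 4 * (k * κ + 640 * κ) * (k * κ) = δ * κ * (1 * κ) := by rw [hδ]; ring
      _ ≤ δ * κ * (640 * κ) := by gcongr; norm_num
  · calc 1536 * (δ * κ) * Λ = 1536 * δ * Λ * κ := by ring
      _ ≤ κ * κ := Nat.mul_le_mul_right _ hΛ
      _ ≤ (320 * κ) ^ 2 := by nlinarith

lemma good_UTop {N : Type} [DecidableEq N] (κ c₁ c₂ T : ℕ) (v : N) :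
    Good c₁ c₂ T (⟨{v}, 0, ∅, ∅⟩ : Nd N κ) := by
  have h : ∀ X, ¬ Sep ({v} : Finset N) X := by
    rintro X ⟨⟨a, a1, a2⟩, b, b1, b2⟩
    rw [mem_singleton] at a1 b1
    exact b2 (b1 ▸ a1 ▸ a2)
  refine ⟨singleton_nonempty _, by simp, fun X c => (h X c).elim, by simp, by simp,
    fun _ X _ _ _ => h X, fun X => ⟨∅, by simp [stc, jc], fun c => (h X c).elim⟩⟩

/-- thin orders, all vertices -/
theorem thin_order_univ (n : ℕ) : ∃ k : ℕ, ∀ (N E : Type) [Fintype N] [Fintype E]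
    [DecidableEq N] [DecidableEq E] (s t : E → N),
    (∀ X : Finset N, X.Nonempty → Xᶜ.Nonempty → k ≤ ct s t univ X) →
    ∃ l : List N, l.Nodup ∧ l.toFinset = univ ∧ ∀ X, n * chg X l ≤ ct s t univ X := by
  obtain ⟨k, hk⟩ : ∃ k : ℕ, k = 64 * 640 * (7 * 640) := ⟨_, rfl⟩
  obtain ⟨δ, hδ⟩ : ∃ δ : ℕ, δ = 4 * (k + 640) * k := ⟨_, rfl⟩
  obtain ⟨c, hc⟩ : ∃ c : ℕ, c = (2 * δ + 3) * (7 * 640) := ⟨_, rfl⟩
  obtain ⟨Λ, hΛ⟩ := thin_join (4 * n * c + 1)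
  obtain ⟨k₁, h₁⟩ := thin_pair 640 (7 * 640) (by norm_num)
  obtain ⟨k₂, h₂⟩ := order_of_root n c
  obtain ⟨κ, hκ⟩ : ∃ κ : ℕ, κ = k₁ + k₂ + (4 * n * c + 1) + 1536 * δ * Λ := ⟨_, rfl⟩
  have P := par_UTop k δ (4 * n * c + 1) Λ κ (by omega) hδ (by omega) (by omega) (by omega)
  refine ⟨3 * (k * κ) + 7, fun N E _ _ _ _ s t h => ?_⟩
  rcases isEmpty_or_nonempty N with hN | hN
  · exact ⟨[], List.nodup_nil, Subsingleton.elim _ _, fun X => by simp [chg_nil]⟩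
  obtain ⟨A, hA⟩ := exists_start s t (k * κ) (640 * κ) h
  obtain ⟨u, g1, g2, g3⟩ := build (N := N) (ι := N) (E := E) P
    (fun Z W B en col a1 a2 a3 a4 a5 => h₁ κ (by omega) N N E Z W B en col a1 a2 a3 a4
      (by rw [← hk]; exact a5)) (hΛ N E) (#(univ : Finset N) + 1) univ (fun v => v)
    (fun v => ⟨{v}, 0, ∅, ∅⟩) s t A (Nat.lt_succ_self _) univ_nonempty hA
    (fun v _ => ⟨good_UTop _ _ _ _ v, fun w => mem_singleton⟩)
  refine h₂ κ (by omega) N E s t u _ _ _ g1 (fun v => (g2 v).2 (mem_univ _)) (by omega) (by omega)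
    (fun X a b => ?_) fun X => ?_
  · have := h X a b
    have := P.hK
    omega
  · have a1 := (le_Th _).trans (g3 X)
    simp only [mcut_zero, Th_zero, sum_const_zero, zero_add] at a1
    rw [hc, mul_assoc]
    exact Nat.mul_le_mul_left _ (a1.trans (Nat.mul_le_mul_left _ (ct_mono s t (subset_univ _) X)))

lemma chg_map_UTop {M N : Type} [DecidableEq M] [DecidableEq N] (g : M → N) (X : Finset N)
    (Y : Finset M) (h : ∀ a, g a ∈ X ↔ a ∈ Y) : ∀ l : List M, chg X (l.map g) = chg Y l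
  | [] => rfl
  | [_] => rfl
  | a :: b :: l => by
    have := chg_map_UTop g X Y h (b :: l)
    rw [List.map_cons] at this
    rw [List.map_cons, List.map_cons, chg_cons_cons, chg_cons_cons, this]
    simp only [h]

/-- thin orders -/
theorem thin_order (n : ℕ) : ∃ k : ℕ, ∀ (N E : Type) [Fintype N] [Fintype E]
    [DecidableEq N] [DecidableEq E] (s t : E → N) (Z : Finset N), (∀ e, s e ∈ Z ∧ t e ∈ Z) →
    (∀ X, Sep Z X → k ≤ ct s t univ X) →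
    ∃ l : List N, l.Nodup ∧ l.toFinset = Z ∧ ∀ X, n * chg X l ≤ ct s t univ X := by
  obtain ⟨k, hk⟩ := thin_order_univ n
  refine ⟨k, fun N E _ _ _ _ s t Z hZ h => ?_⟩
  have key : ∀ (X : Finset N) (Y : Finset {x // x ∈ Z}), (∀ a, a.1 ∈ X ↔ a ∈ Y) →
      ct (fun e => (⟨s e, (hZ e).1⟩ : {x // x ∈ Z})) (fun e => ⟨t e, (hZ e).2⟩) univ Y =
        ct s t univ X := fun X Y a =>
    congrArg _ (filter_congr fun e _ => by rw [← a, ← a])
  obtain ⟨l, l1, l2, l3⟩ := hk {x // x ∈ Z} E (fun e => ⟨s e, (hZ e).1⟩)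
    (fun e => ⟨t e, (hZ e).2⟩) (fun Y ⟨a, ha⟩ ⟨b, hb⟩ => by
      have a1 : ∀ x : {x // x ∈ Z}, x.1 ∈ Y.map (Function.Embedding.subtype _) ↔ x ∈ Y :=
        fun x => mem_map' (Function.Embedding.subtype _)
      rw [key _ Y a1]
      exact h _ ⟨⟨a.1, a.2, (a1 a).2 ha⟩, b.1, b.2, fun c => mem_compl.1 hb ((a1 b).1 c)⟩)
  refine ⟨l.map Subtype.val, l1.map Subtype.val_injective, ?_, fun X => ?_⟩
  · ext x
    rw [List.mem_toFinset, List.mem_map]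
    refine ⟨fun ⟨a, _, c⟩ => c ▸ a.2, fun c => ⟨⟨x, c⟩, ?_, rfl⟩⟩
    rw [← List.mem_toFinset, l2]
    exact mem_univ _
  · have a1 : ∀ a : {x // x ∈ Z}, a.1 ∈ X ↔ a ∈ X.subtype (· ∈ Z) := fun a => mem_subtype.symm
    rw [chg_map_UTop _ X _ a1, ← key X _ a1]
    exact l3 _

end Pool.Agent.P.MP_e59a69_co
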