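import Pool.Agent.P.MP_e59a69_co.SRBase
import Pool.Agent.P.MP_e59a69_co.LDefs

/-! Far apart candidates near the good vertices. -/

open Finset Function

namespace Pool.Agent.P.MP_e59a69_co

variable {V : Type} [Fintype V] [DecidableEq V] {π μ : Equiv.Perm V} {c : ℕ}

lemma wd_fin (π μ : Equiv.Perm V) (r : ℕ) :
    ∃ T : Finset (Equiv.Perm V), #T ≤ 4 ^ r ∧ ∀ w, Wd π μ r w → w ∈ T := by
  induction r with
  | zero =>
    refine ⟨{1}, by simp, ?_⟩
    rintro w ⟨l, h1, rfl⟩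
    rw [List.length_eq_zero_iff.1 (Nat.le_zero.1 h1)]
    simp
  | succ r ih =>
    obtain ⟨T, h1, h2⟩ := ih
    refine ⟨T ∪ ((univ : Finset (Fin 3)) ×ˢ T).image fun p => Lt π μ p.1 * p.2, ?_, ?_⟩
    · refine (card_union_le _ _).trans ?_
      have := card_image_le (s := (univ : Finset (Fin 3)) ×ˢ T) (f := fun p => Lt π μ p.1 * p.2)
      rw [card_product, card_univ, Fintype.card_fin] at this
      rw [pow_succ]
      omega
    · rintro w ⟨l, h3, rfl⟩
      cases l with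
      | nil => exact mem_union_left _ (h2 _ ⟨[], Nat.zero_le _, rfl⟩)
      | cons a l =>
        refine mem_union_right _ (mem_image.2 ⟨(a, (l.map (Lt π μ)).prod),
          mem_product.2 ⟨mem_univ _, h2 _ ⟨l, by simpa using h3, rfl⟩⟩, by simp⟩)

/-- the balls of radius `r` around `a` and `b` meet -/
def Nr (π μ : Equiv.Perm V) (r : ℕ) (a b : V) : Prop :=
  ∃ w w', Wd π μ r w ∧ Wd π μ r w' ∧ w a = w' b

lemma nr_card (π μ : Equiv.Perm V) (r : ℕ) (a : V) [DecidablePred (Nr π μ r a)] :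
    #{b | Nr π μ r a b} ≤ 16 ^ r := by
  obtain ⟨T, h1, h2⟩ := wd_fin π μ r
  have e : 16 ^ r = 4 ^ r * 4 ^ r := (mul_pow 4 4 r :)
  refine le_trans (card_le_card fun b hb => ?_)
    ((card_image_le (s := T ×ˢ T) (f := fun p => p.2.symm (p.1 a))).trans ?_)
  · obtain ⟨w, w', p1, p2, p3⟩ := (mem_filter.1 hb).2
    exact mem_image.2 ⟨(w, w'), mem_product.2 ⟨h2 _ p1, h2 _ p2⟩, by
      rw [Equiv.symm_apply_eq]; exact p3⟩
  · rw [card_product, e]
    exact Nat.mul_le_mul h1 h1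

theorem far_cand (H : Hyp π μ c) {ι Ω : Type} [Fintype ι] [DecidableEq ι] [Fintype Ω]
    [DecidableEq Ω] (u : ι → V) (hu : ∀ i i', π.SameCycle (u i) (u i') → i = i') (r : ℕ)
    (hc : 4 * 16 ^ r * Fintype.card Ω ≤ c) (hc0 : 0 < c) :
    ∃ y : ι → Ω → V, (∀ i a, ∃ t : ℕ, t ≤ 4 * 16 ^ r * Fintype.card Ω ∧ y i a = (π ^ (t : ℤ)) (u i)) ∧
      ∀ i i' a a', (i, a) ≠ (i', a') → ¬ Nr π μ r (y i a) (y i' a') := by
  classical
  have hne : Nonempty V := Fintype.card_pos_iff.1 (by have := H.card; omega)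
  obtain ⟨D, hD⟩ : ∃ D, D = 16 ^ r := ⟨_, rfl⟩
  have hD0 : 0 < D := by rw [hD]; positivity
  rw [← hD] at hc ⊢
  obtain ⟨q, hq⟩ : ∃ q, q = Fintype.card Ω := ⟨_, rfl⟩
  let e : Ω → ℕ := fun a => Fintype.equivFin Ω a
  have he : ∀ a, e a < q := fun a => hq ▸ (Fintype.equivFin Ω a).2
  have he2 : ∀ a a', e a = e a' → a = a' := fun a a' h =>
    (Fintype.equivFin Ω).injective (Fin.ext h)
  rw [← hq] at hc ⊢
  obtain ⟨n, hn⟩ : ∃ n : ℤ, n = 4 * D := ⟨_, rfl⟩
  have hn0 : 0 < n := by omega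
  have hnq : n * q ≤ c := by rw [hn]; exact_mod_cast hc
  have b1 : ∀ a, ((e a : ℤ) + 1) * n ≤ q * n := fun a =>
    mul_le_mul_of_nonneg_right (by have := he a; omega) hn0.le
  have b3 : ∀ a, 0 ≤ (e a : ℤ) * n := fun a => by positivity
  let A : ι × Ω → Finset V := fun i => Iv π (u i.1) (e i.2 * n) ((e i.2 + 1) * n - 1)
  have hA : ∀ i, #(A i) = 4 * D := fun i => by
    have e1 : ((e i.2 : ℤ) + 1) * n - 1 + 1 - e i.2 * n = n := by ring
    rw [H.card_Iv _ (by have := b1 i.2; have := b3 i.2; linarith), e1]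
    omega
  have hdis : ∀ i j, i ≠ j → Disjoint (A i) (A j) := by
    rintro ⟨r, a⟩ ⟨r', a'⟩ hne
    refine Finset.disjoint_left.2 fun v h1 h2 => hne ?_
    have e0 : r = r' := hu r r' ((sameCycle_of_mem_Iv h1).trans (sameCycle_of_mem_Iv h2).symm)
    subst e0
    obtain ⟨t, t1, t2, e1⟩ := mem_Iv.1 h1
    obtain ⟨t', t3, t4, e2⟩ := mem_Iv.1 h2
    simp only at t1 t2 t3 t4 e1 e2
    have := b1 a
    have := b1 a'
    have := b3 a
    have := b3 a'
    have e3 : t = t' := H.inj (u r) (abs_lt.2 ⟨by linarith, by linarith⟩) (e1.trans e2.symm)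
    subst e3
    have c1 : (e a : ℤ) < e a' + 1 := lt_of_mul_lt_mul_right (by linarith) hn0.le
    have c2 : (e a' : ℤ) < e a + 1 := lt_of_mul_lt_mul_right (by linarith) hn0.le
    rw [he2 a a' (by omega)]
  obtain ⟨s, hs1, hs2⟩ := exists_IT (univ : Finset (ι × Ω)) A (Nr π μ r)
    (fun a b ⟨w, w', p1, p2, p3⟩ => ⟨w', w, p2, p1, p3.symm⟩) D hD0 (fun i _ => by rw [hA])
    (fun i _ x _ => by
      rw [← card_biUnion]
      · refine le_trans (card_le_card fun y hy => ?_) (hD ▸ nr_card π μ r x)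
        obtain ⟨j, -, hj⟩ := mem_biUnion.1 hy
        exact mem_filter.2 ⟨mem_univ _, (mem_filter.1 hj).2⟩
      · intro j _ k _ hjk
        exact (hdis j k hjk).mono (filter_subset _ _) (filter_subset _ _))
  refine ⟨fun i a => s (i, a), fun i a => ?_, fun i i' a a' hne =>
    hs2 _ (mem_univ _) _ (mem_univ _) hne⟩
  obtain ⟨t, t1, t2, e1⟩ := mem_Iv.1 (hs1 (i, a) (mem_univ _))
  simp only at t1 t2 e1
  have := b1 a
  have := b3 a
  refine ⟨t.toNat, ?_, by rw [Int.toNat_of_nonneg (by linarith), e1]⟩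
  have e2 : (q : ℤ) * n = ((4 * D * q : ℕ) : ℤ) := by rw [hn]; push_cast; ring
  omega

end Pool.Agent.P.MP_e59a69_co
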