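import Pool.Agent.P.MP_e59a69_co.VRound
import Pool.Agent.P.MP_e59a69_co.VCand
import Pool.Agent.P.MP_e59a69_co.SRThin
import Pool.Agent.P.MP_e59a69_co.LSplit
import Pool.Agent.P.MP_e59a69_co.LList2

/-! From far apart sites with small tests to a thin pairing. -/

open Finset Function

namespace Pool.Agent.P.MP_e59a69_co

/-- thin orders exist at connectivity `k` -/
def TPst (d k : ℕ) : Prop :=
  ∀ (N E : Type) [Fintype N] [Fintype E] [DecidableEq N] [DecidableEq E] (s t : E → N)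
    (Z : Finset N), (∀ e, s e ∈ Z ∧ t e ∈ Z) → (∀ X, Sep Z X → k ≤ ct s t univ X) →
    ∃ l : List N, l.Nodup ∧ l.toFinset = Z ∧ ∀ X, d * chg X l ≤ ct s t univ X

variable {V : Type} [Fintype V] [DecidableEq V] {π μ : Equiv.Perm V} {c : ℕ}

lemma Hyp.hy (H : Hyp π μ c) : Hy π μ c := ⟨H.inv, H.ne, H.len, fun h1 h2 => H.small h1 h2⟩

lemma ct_double_V (hμ : ∀ v, μ (μ v) = v) (g : V → V) (X : Finset V) :
    ct (fun e : (V × Bool) × Bool => g (es e.1)) (fun e => g (et π μ e.1)) univ X =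
      2 * dc π μ {v | g v ∈ X} := by
  rw [← ct_et π hμ]
  unfold ct
  rw [card_filter, card_filter, Fintype.sum_prod_type, Finset.mul_sum]
  refine Finset.sum_congr rfl fun e _ => ?_
  rw [Fintype.sum_bool]
  simp only [mem_filter, mem_univ, true_and]
  ring

omit [Fintype V] [DecidableEq V] in
lemma wd_cen (j : ℤ) (h1 : -2 ≤ j) (h2 : j ≤ 3) : Wd π μ 4 (Cen π μ j) := by
  unfold Cen
  split_ifs
  · exact wd_one.mono (by omega)
  · exact (wd_mu.mul (wd_zpow _)).mono (by omega)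

omit [Fintype V] [DecidableEq V] in
lemma wd_hbase (L : ℕ) (i : Fin 6 × Bool) : Wd π μ (L + 5) (hbase π μ L i) := by
  have h1 : Wd π μ (L + 1) (π ^ (if i.2 then (0 : ℤ) else -(L + 1))) :=
    (wd_zpow _).mono (by split_ifs <;> omega)
  exact h1.mul (wd_cen _ (by omega) (by have := i.1.2; omega))

/-- contraction of the cores, splitting off and the thin order -/
lemma core_order (H : Hyp π μ c) {d K : ℕ} (hTP : TPst d K) (hK1 : 1 ≤ K) (hK : K ≤ c)
    (S : Finset V) (hS : Even #S)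
    (hfar : ∀ s ∈ S, ∀ s' ∈ S, ∀ a b : ℤ, 0 ≤ a → a < K → 0 ≤ b → b < K →
      (π ^ a) s = (π ^ b) s' → s = s') :
    ∃ Q : V → V, (∀ t ∈ S, Q t ∈ S ∧ Q t ≠ t ∧ Q (Q t) = t) ∧
      ∀ (X : Finset V) (b : V → Prop), ∃ X' : Finset V,
        (∀ s ∈ S, ∀ a : ℤ, 0 ≤ a → a < K → ((π ^ a) s ∈ X' ↔ b s)) ∧
        (∀ v, (∀ s ∈ S, ∀ a : ℤ, 0 ≤ a → a < K → (π ^ a) s ≠ v) → (v ∈ X' ↔ v ∈ X)) ∧
        d * dQ S Q X' ≤ 2 * dc π μ X' := by
  classical
  rcases S.eq_empty_or_nonempty with rfl | ⟨z0, hz0⟩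
  · exact ⟨id, fun t ht => absurd ht (notMem_empty t), fun X _ => ⟨X, by simp, by simp, by simp [dQ]⟩⟩
  let co : V → V → Prop := fun s v => s ∈ S ∧ ∃ a : ℤ, 0 ≤ a ∧ a < K ∧ (π ^ a) s = v
  let g : V → V := fun v => if h : ∃ s, co s v then h.choose else v
  have hg1 : ∀ s ∈ S, ∀ a : ℤ, 0 ≤ a → a < K → g ((π ^ a) s) = s := fun s hs a a1 a2 => by
    have h : ∃ s', co s' ((π ^ a) s) := ⟨s, hs, a, a1, a2, rfl⟩
    simp only [g, dif_pos h]
    obtain ⟨p1, b, b1, b2, e⟩ := h.choose_spec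
    exact hfar _ p1 s hs b a b1 b2 a1 a2 e
  have hg0 : ∀ s ∈ S, g s = s := fun s hs => by simpa using hg1 s hs 0 le_rfl (by omega)
  have hct := ct_double_V (π := π) H.inv g
  have hsep : ∀ X, Sep S X → 2 * K ≤
      ct (fun e : (V × Bool) × Bool => g (es e.1)) (fun e => g (et π μ e.1)) univ X := by
    rintro X ⟨⟨a, ha, haX⟩, b, hb, hbX⟩
    rw [hct]
    have h1 : Iv π a 0 (K - 1) ⊆ ({v | g v ∈ X} : Finset V) := fun v hv => by
      obtain ⟨t, t1, t2, rfl⟩ := mem_Iv.1 hv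
      simp only [mem_filter, mem_univ, true_and]
      rw [hg1 a ha t t1 (by omega)]; exact haX
    have h2 : Iv π b 0 (K - 1) ⊆ ({v | g v ∈ X} : Finset V)ᶜ := fun v hv => by
      obtain ⟨t, t1, t2, rfl⟩ := mem_Iv.1 hv
      simp only [mem_compl, mem_filter, mem_univ, true_and]
      rw [hg1 b hb t t1 (by omega)]; exact hbX
    have c1 := card_le_card h1
    have c2 := card_le_card h2
    rw [H.card_Iv _ (by omega)] at c1 c2
    have := H.cut _ (card_pos.1 (lt_of_lt_of_le (by omega) c1))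
      (card_pos.1 (lt_of_lt_of_le (by omega) c2))
    unfold dc
    omega
  obtain ⟨s', t', hZ, hle, hge⟩ := split_off _ _ S z0 hz0 K
    (fun X => by rw [hct]; exact even_two_mul _) hsep
  obtain ⟨l, hl1, hl2, hl3⟩ := hTP V _ s' t' S hZ fun X hX => le_trans (by omega) (hge X hX)
  have hlen : Even l.length := by rw [← List.toFinset_card_of_nodup hl1, hl2]; exact hS
  obtain ⟨Q, hQ1, hQ2⟩ := pair_of_list l hl1 hlen
  rw [hl2] at hQ1 hQ2
  refine ⟨Q, hQ1, fun X b => ?_⟩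
  let Y : Finset V := {v | if v ∈ S then b v else v ∈ X}
  refine ⟨univ.filter fun v => g v ∈ Y, fun s hs a a1 a2 => ?_, fun v hv => ?_, ?_⟩
  · simp only [mem_filter, mem_univ, true_and, hg1 s hs a a1 a2, Y, hs, if_true]
  · have h : ¬ ∃ s, co s v := fun ⟨s, hs, a, a1, a2, e⟩ => hv s hs a a1 a2 e
    have h' : v ∉ S := fun h2 => hv v h2 0 le_rfl (by omega) (by simp)
    simp only [mem_filter, mem_univ, true_and, g, dif_neg h, Y, h', if_false]
  · have a1 : dQ S Q (univ.filter fun v => g v ∈ Y) = dQ S Q Y := by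
      unfold dQ
      refine congrArg _ (filter_congr fun s hs => ?_)
      simp only [mem_filter, mem_univ, true_and, hg0 s hs, hg0 _ (hQ1 s hs).1]
    rw [a1, ← hct]
    exact (Nat.mul_le_mul_left _ (hQ2 Y)).trans ((hl3 Y).trans (hle Y))

theorem sites_pair (H : Hyp π μ c) {K m : ℕ} (hTP : TPst 1000 K) (hK1 : 1 ≤ K) (hm : 2 ≤ m)
    (hc : 2 * (K + m) + 10 ≤ c) (S : Finset V) (hS : Even #S)
    (hfar : ∀ s ∈ S, ∀ s' ∈ S, s ≠ s' → ¬ Nr π μ (K + m + 5) s s') (τ : ℝ)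
    (hτ : 10000 * (K + 12) * τ ≤ 1) (hτ0 : 0 ≤ τ)
    (ht : ∀ w, ((∃ a : Fin K, w = μ * π ^ ((a : ℕ) : ℤ)) ∨ w = π ^ (K : ℤ) ∨ w = π ^ (-1 : ℤ) ∨
      ∃ i, w = hbase π μ m i) → ∀ X : Finset V,
      ∑ s ∈ S, (seg π m (w s) (ind X) - seg π m s (ind X)) ^ 2 ≤ τ * (fc π X + mc μ X : ℕ)) :
    ∃ Q : V → V, (∀ t ∈ S, Q t ∈ S ∧ Q t ≠ t ∧ Q (Q t) = t) ∧
      ∀ X, 5 * dQ S Q X ≤ fc π X + mc μ X + 5 * lam π S X := by
  classical
  have far : ∀ s ∈ S, ∀ s' ∈ S, ∀ w w', Wd π μ (K + m + 5) w → Wd π μ (K + m + 5) w' →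
      w s = w' s' → s = s' := fun s hs s' hs' w w' p1 p2 e =>
    by_contra fun hn => hfar s hs s' hs' hn ⟨w, w', p1, p2, e⟩
  have wz : ∀ a : ℤ, -(K + m + 5 : ℤ) ≤ a → a ≤ K + m + 5 → Wd π μ (K + m + 5) (π ^ a) :=
    fun a a1 a2 => (wd_zpow a).mono (by omega)
  obtain ⟨Q, hQ, hQd⟩ := core_order H hTP hK1 (by omega) S hS fun s hs s' hs' a b a1 a2 b1 b2 e =>
    far s hs s' hs' _ _ (wz a (by omega) (by omega)) (wz b (by omega) (by omega)) e
  refine ⟨Q, hQ, sr_thin H.hy hm (by omega) S Q (fun t ht => ⟨(hQ t ht).1, (hQ t ht).2.2⟩)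
    (fun s hs s' hs' hn => Finset.disjoint_left.2 fun v v1 v2 => hn ?_) fun X B hB h => ?_⟩
  · obtain ⟨j, hj, v1⟩ := mem_biUnion.1 v1
    obtain ⟨j', hj', v2⟩ := mem_biUnion.1 v2
    obtain ⟨t, t1, t2, e⟩ := mem_Iv.1 v1
    obtain ⟨t', t3, t4, e'⟩ := mem_Iv.1 v2
    rw [mem_Icc] at hj hj'
    exact far s hs s' hs' (π ^ t * Cen π μ j) (π ^ t' * Cen π μ j')
      (((wd_zpow t).mul (wd_cen j hj.1 hj.2)).mono (by omega))
      (((wd_zpow t').mul (wd_cen j' hj'.1 hj'.2)).mono (by omega)) (e.trans e'.symm)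
  obtain ⟨X', x1, x2, x3⟩ := hQd X (side π m X)
  have r := round_dc H.inv m K S X X' (fun s hs s' hs' a b a1 a2 b1 b2 e => by
    rcases e with e | e
    · exact far s hs s' hs' (μ * π ^ a) _ ((wd_mu.mul (wd_zpow a)).mono (by omega))
        (wz b (by omega) (by omega)) e
    · rw [zp_succ] at e
      exact far s hs s' hs' _ _ (wz _ (by omega) (by omega)) (wz b (by omega) (by omega)) e) x1 x2
  obtain ⟨δ, hδ⟩ : ∃ δ : ℝ, δ = (fc π X + mc μ X : ℕ) := ⟨_, rfl⟩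
  have c0 := charge (π := π) (by omega : 1 ≤ m) S X (fun a : Fin K => μ * π ^ ((a : ℕ) : ℤ)) (τ * δ)
    (fun s hs s' hs' i i' t t' t1 t2 t3 t4 e => by
      have i1 := i.2
      have i2 := i'.2
      obtain rfl := far s hs s' hs' (π ^ t * (μ * π ^ ((i : ℕ) : ℤ))) (π ^ t' * (μ * π ^ ((i' : ℕ) : ℤ)))
        (((wd_zpow t).mul (wd_mu.mul (wd_zpow _))).mono (by omega))
        (((wd_zpow t').mul (wd_mu.mul (wd_zpow _))).mono (by omega)) e
      refine ⟨rfl, by_contra fun hn => ?_⟩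
      have hn' : ((i : ℕ) : ℤ) - (i' : ℕ) ≠ 0 := fun h => hn (Fin.ext (by omega))
      refine H.hy.g2 ((π ^ ((i' : ℕ) : ℤ)) s) (t := t' - t) hn' (by
        have : |t' - t| ≤ m := abs_le.2 ⟨by omega, by omega⟩
        have : |((i : ℕ) : ℤ) - (i' : ℕ)| ≤ K := abs_le.2 ⟨by omega, by omega⟩
        omega) ?_
      apply (π ^ t).injective
      rw [zp_add, zp_add, sub_add_cancel, add_sub_cancel]
      exact e) fun a => hδ ▸ ht _ (Or.inl ⟨a, rfl⟩) X
  have cz : ∀ a : ℤ, -1 ≤ a → a ≤ K → (∑ s ∈ S, (seg π m ((π ^ a) s) (ind X) -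
      seg π m s (ind X)) ^ 2 ≤ τ * δ) →
      (#(wrong π m S X fun _ : Unit => π ^ a) : ℝ) ≤ fc π X + 4 * (τ * δ) := fun a a1 a2 h => by
    have := charge (π := π) (by omega : 1 ≤ m) S X (fun _ : Unit => π ^ a) (τ * δ)
      (fun s hs s' hs' i i' t t' t1 t2 t3 t4 e => by
        rw [zp_add, zp_add] at e
        exact ⟨far s hs s' hs' _ _ (wz _ (by omega) (by omega)) (wz _ (by omega) (by omega)) e,
          rfl⟩) fun _ => h
    simpa using this
  have c1 := cz K (by omega) le_rfl (hδ ▸ ht _ (Or.inr (Or.inl rfl)) X)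
  have c2 := cz (-1) le_rfl (by omega) (hδ ▸ ht _ (Or.inr (Or.inr (Or.inl rfl))) X)
  let f : V → ℝ := fun s => ∑ i, (seg π m (hbase π μ m i s) (ind X) - seg π m s (ind X)) ^ 2
  have f0 : ∀ s, 0 ≤ f s := fun s => Finset.sum_nonneg fun _ _ => sq_nonneg _
  have f1 : ∑ s ∈ S, f s ≤ 12 * (τ * δ) := by
    rw [Finset.sum_comm]
    have := Finset.sum_le_sum fun i (_ : i ∈ univ) =>
      hδ ▸ ht _ (Or.inr (Or.inr (Or.inr ⟨i, rfl⟩))) X
    rw [Finset.sum_const, card_univ, nsmul_eq_mul] at this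
    simpa using this
  have f2 : ∀ s i, 1 / 4 ≤ (seg π m (hbase π μ m i s) (ind X) - seg π m s (ind X)) ^ 2 →
      1 / 4 ≤ f s := fun s i h => h.trans (Finset.single_le_sum
    (f := fun i => (seg π m (hbase π μ m i s) (ind X) - seg π m s (ind X)) ^ 2)
    (fun _ _ => sq_nonneg _) (mem_univ i))
  have b1 := cnt_tests {s ∈ B | ¬ side π m X s} S f f0 (fun s hs => hB (mem_filter.1 hs).1)
    fun s hs => by
      obtain ⟨i, hi⟩ := (h s (mem_filter.1 hs).1).2.2.1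
      exact f2 s i (test_big (by omega) X _ s True (fun t ht => iff_true_intro (hi t ht))
        fun h => (mem_filter.1 hs).2 (h.1 trivial))
  have b2 := cnt_tests (({s ∈ B | side π m X (Q s)} : Finset V).image Q) S f f0
    (fun s0 hs0 => by
      obtain ⟨s, hs, rfl⟩ := mem_image.1 hs0
      exact (hQ s (hB (mem_filter.1 hs).1)).1) fun s0 hs0 => by
      obtain ⟨s, hs, rfl⟩ := mem_image.1 hs0
      obtain ⟨i, hi⟩ := (h s (mem_filter.1 hs).1).2.2.2
      exact f2 _ i (test_big (by omega) X _ _ False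
        (fun t ht => iff_false_intro (mem_compl.1 (hi t ht))) fun h => h.2 (mem_filter.1 hs).2)
  rw [card_image_of_injOn fun s hs s' hs' e => by
    rw [← (hQ s (hB (mem_filter.1 hs).1)).2.2, e, (hQ s' (hB (mem_filter.1 hs').1)).2.2]] at b2
  have b3 : #B ≤ dQ S Q X' + #{s ∈ B | ¬ side π m X s} + #{s ∈ B | side π m X (Q s)} := by
    refine le_trans (card_le_card fun s hs => ?_)
      ((card_union_le _ _).trans (Nat.add_le_add_right (card_union_le _ _) _))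
    by_cases p1 : side π m X s
    · by_cases p2 : side π m X (Q s)
      · exact mem_union_right _ (mem_filter.2 ⟨hs, p2⟩)
      · have q1 := x1 s (hB hs) 0 le_rfl (by omega)
        have q2 := x1 _ (hQ s (hB hs)).1 0 le_rfl (by omega)
        rw [zpow_zero, Equiv.Perm.one_apply] at q1 q2
        exact mem_union_left _ (mem_union_left _ (mem_filter.2 ⟨hB hs, q1.2 p1,
          fun h => p2 (q2.1 h)⟩))
    · exact mem_union_left _ (mem_union_right _ (mem_filter.2 ⟨hs, p1⟩))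
  rw [Fintype.card_fin] at c0
  have r' : (dc π μ X' : ℝ) ≤ dc π μ X +
      2 * #(wrong π m S X fun a : Fin K => μ * π ^ ((a : ℕ) : ℤ)) +
      #(wrong π m S X fun _ : Unit => π ^ (K : ℤ)) +
      #(wrong π m S X fun _ : Unit => π ^ (-1 : ℤ)) := by exact_mod_cast r
  have x3' : 1000 * (dQ S Q X' : ℝ) ≤ 2 * dc π μ X' := by exact_mod_cast x3
  have b3' : (#B : ℝ) ≤ dQ S Q X' + #{s ∈ B | ¬ side π m X s} + #{s ∈ B | side π m X (Q s)} := by
    exact_mod_cast b3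
  have d1 : (dc π μ X : ℝ) = fc π X + 2 * mc μ X := by simp [dc]
  have d2 : δ = fc π X + mc μ X := by rw [hδ]; push_cast; rfl
  have d3 : (0 : ℝ) ≤ fc π X := Nat.cast_nonneg _
  have d4 : (0 : ℝ) ≤ mc μ X := Nat.cast_nonneg _
  have d5 := mul_le_mul_of_nonneg_right hτ (show 0 ≤ δ by linarith)
  have d6 : 0 ≤ τ * δ := mul_nonneg hτ0 (by linarith)
  have d7 : 0 ≤ K * (τ * δ) := mul_nonneg (Nat.cast_nonneg _) d6
  have : ((30 * #B : ℕ) : ℝ) ≤ δ := by
    push_cast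
    nlinarith
  rw [hδ] at this
  exact_mod_cast this

end Pool.Agent.P.MP_e59a69_co
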