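import Pool.Agent.P.MP_e59a69_co.SRBase
import Pool.Agent.P.MP_e59a69_co.LDefs

/-! Moving the cores to their side costs a bounded factor. -/

open Finset Function

namespace Pool.Agent.P.MP_e59a69_co

variable {V : Type} [Fintype V] [DecidableEq V] {π μ : Equiv.Perm V}

/-- indicator function -/
def ind (X : Finset V) : V → ℝ := fun v => if v ∈ X then 1 else 0

/-- the side of a site -/
def side (π : Equiv.Perm V) (m : ℕ) (X : Finset V) (s : V) : Prop := 1 / 2 ≤ seg π m s (ind X)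

omit [Fintype V] in
lemma test_big {m : ℕ} (hm : 1 ≤ m) (X : Finset V) (z s : V) (b : Prop)
    (h : ∀ t : ℕ, t < m → ((π ^ (t + 1)) z ∈ X ↔ b)) (hb : ¬ (b ↔ side π m X s)) :
    1 / 4 ≤ (seg π m z (ind X) - seg π m s (ind X)) ^ 2 := by
  have hm0 : (m : ℝ) ≠ 0 := by positivity
  by_cases h1 : b
  · have e : seg π m z (ind X) = 1 := by
      rw [seg_apply, Finset.sum_congr rfl (f := fun t => ind X ((π ^ (t + 1)) z))
        (g := fun _ => 1) fun t ht =>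
        if_pos ((h t (mem_range.1 ht)).2 h1)]
      simp [hm0]
    have : seg π m s (ind X) < 1 / 2 := not_le.1 fun h2 => hb (iff_of_true h1 h2)
    rw [e]; nlinarith
  · have e : seg π m z (ind X) = 0 := by
      rw [seg_apply, Finset.sum_congr rfl (f := fun t => ind X ((π ^ (t + 1)) z))
        (g := fun _ => 0) fun t ht =>
        if_neg fun h2 => h1 ((h t (mem_range.1 ht)).1 h2)]
      simp
    have : 1 / 2 ≤ seg π m s (ind X) := by_contra fun h2 => hb (iff_of_false h1 h2)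
    rw [e]; nlinarith

lemma cnt_tests {ι : Type} (P T : Finset ι) (f : ι → ℝ) (hf : ∀ p, 0 ≤ f p) (hP : P ⊆ T)
    (h : ∀ p ∈ P, 1 / 4 ≤ f p) : (#P : ℝ) ≤ 4 * ∑ p ∈ T, f p := by
  have h1 := Finset.sum_le_sum h
  have h2 := Finset.sum_le_sum_of_subset_of_nonneg hP fun p _ _ => hf p
  rw [Finset.sum_const, nsmul_eq_mul] at h1
  linarith

open Classical in
/-- pairs (site, test) whose test point lies on the wrong side -/
noncomputable def wrong {I : Type} [Fintype I] (π : Equiv.Perm V) (m : ℕ) (S X : Finset V)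
    (w : I → Equiv.Perm V) : Finset (V × I) :=
  {p ∈ S ×ˢ (univ : Finset I) | ¬ (w p.2 p.1 ∈ X ↔ side π m X p.1)}

omit [Fintype V] in
lemma mem_wrong {I : Type} [Fintype I] {m : ℕ} {S X : Finset V} {w : I → Equiv.Perm V}
    {s : V} {i : I} : (s, i) ∈ wrong π m S X w ↔ s ∈ S ∧ ¬ (w i s ∈ X ↔ side π m X s) := by
  simp [wrong]

lemma charge {I : Type} [Fintype I] {m : ℕ} (hm : 1 ≤ m) (S X : Finset V)
    (w : I → Equiv.Perm V) (β : ℝ)
    (hd : ∀ s ∈ S, ∀ s' ∈ S, ∀ i i', ∀ t t' : ℤ, 0 ≤ t → t < m → 0 ≤ t' → t' < m →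
      (π ^ t) (w i s) = (π ^ t') (w i' s') → s = s' ∧ i = i')
    (hβ : ∀ i, ∑ s ∈ S, (seg π m (w i s) (ind X) - seg π m s (ind X)) ^ 2 ≤ β) :
    (#(wrong π m S X w) : ℝ) ≤ fc π X + 4 * (Fintype.card I * β) := by
  classical
  let c : V × I → Prop := fun p => ∃ t : ℤ, 0 ≤ t ∧ t < m ∧
    ¬ ((π ^ t) (w p.2 p.1) ∈ X ↔ π ((π ^ t) (w p.2 p.1)) ∈ X)
  have e0 := card_filter_add_card_filter_not (s := wrong π m S X w) c
  have e1 : #{p ∈ wrong π m S X w | c p} ≤ fc π X := by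
    have : ∀ p, ∃ t : ℤ, c p → 0 ≤ t ∧ t < m ∧
        ¬ ((π ^ t) (w p.2 p.1) ∈ X ↔ π ((π ^ t) (w p.2 p.1)) ∈ X) := fun p => by
      by_cases h : c p
      · obtain ⟨t, ht⟩ := h
        exact ⟨t, fun _ => ht⟩
      · exact ⟨0, fun h' => absurd h' h⟩
    choose t ht using this
    refine card_le_card_of_injOn (fun p => (π ^ t p) (w p.2 p.1)) (fun p hp => ?_) ?_
    · exact mem_coe.2 (mem_filter.2 ⟨mem_univ _, (ht p (mem_filter.1 hp).2).2.2⟩)
    · rintro ⟨s, i⟩ hp ⟨s', i'⟩ hp' e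
      obtain ⟨a1, a2⟩ := mem_filter.1 (mem_coe.1 hp)
      obtain ⟨b1, b2⟩ := mem_filter.1 (mem_coe.1 hp')
      obtain ⟨rfl, rfl⟩ := hd s (mem_wrong.1 a1).1 s' (mem_wrong.1 b1).1 i i' _ _ (ht _ a2).1
        (ht _ a2).2.1 (ht _ b2).1 (ht _ b2).2.1 e
      rfl
  have e2 := cnt_tests {p ∈ wrong π m S X w | ¬ c p} (S ×ˢ univ)
    (fun p => (seg π m (w p.2 p.1) (ind X) - seg π m p.1 (ind X)) ^ 2) (fun _ => sq_nonneg _)
    (fun p hp => (mem_filter.1 (mem_filter.1 hp).1).1) (by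
      rintro ⟨s, i⟩ hp
      obtain ⟨a1, a2⟩ := mem_filter.1 hp
      refine test_big hm X _ s (w i s ∈ X) (fun t ht => ?_) (mem_wrong.1 a1).2
      by_contra hc
      obtain ⟨t', t1, t2, t3⟩ := ivt π X (w i s) 0 (t + 1) (by
        rw [zpow_zero, zero_add, zpow_natCast]
        exact fun h => hc h.symm)
      exact a2 ⟨t', t1, by omega, t3⟩)
  rw [Finset.sum_product_right] at e2
  have e3 := Finset.sum_le_sum fun i (_ : i ∈ univ) => hβ i
  rw [Finset.sum_const, card_univ, nsmul_eq_mul] at e3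
  have e4 : (#(wrong π m S X w) : ℝ) =
      #{p ∈ wrong π m S X w | c p} + #{p ∈ wrong π m S X w | ¬ c p} := by exact_mod_cast e0.symm
  have e5 : (#{p ∈ wrong π m S X w | c p} : ℝ) ≤ fc π X := by exact_mod_cast e1
  linarith

lemma round_dc (hμ : ∀ v, μ (μ v) = v) (m K : ℕ) (S X X' : Finset V)
    (hfar : ∀ s ∈ S, ∀ s' ∈ S, ∀ a b : ℤ, 0 ≤ a → a < K → 0 ≤ b → b < K →
      (μ ((π ^ a) s) = (π ^ b) s' ∨ π ((π ^ a) s) = (π ^ b) s') → s = s')
    (h1 : ∀ s ∈ S, ∀ a : ℤ, 0 ≤ a → a < K → ((π ^ a) s ∈ X' ↔ side π m X s))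
    (h2 : ∀ v, (∀ s ∈ S, ∀ a : ℤ, 0 ≤ a → a < K → (π ^ a) s ≠ v) → (v ∈ X' ↔ v ∈ X)) :
    dc π μ X' ≤ dc π μ X + 2 * #(wrong π m S X fun a : Fin K => μ * π ^ ((a : ℕ) : ℤ)) +
      #(wrong π m S X fun _ : Unit => π ^ (K : ℤ)) +
      #(wrong π m S X fun _ : Unit => π ^ (-1 : ℤ)) := by
  classical
  let co : V → Prop := fun v => ∃ s ∈ S, ∃ a : ℤ, 0 ≤ a ∧ a < K ∧ (π ^ a) s = v
  have h3 : ∀ v, ¬ co v → (v ∈ X' ↔ v ∈ X) := fun v hv =>
    h2 v fun s hs a a1 a2 e => hv ⟨s, hs, a, a1, a2, e⟩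
  set W0 := wrong π m S X fun a : Fin K => μ * π ^ ((a : ℕ) : ℤ)
  set W1 := wrong π m S X fun _ : Unit => π ^ (K : ℤ)
  set W2 := wrong π m S X fun _ : Unit => π ^ (-1 : ℤ)
  have e1 : ({v | ¬ (v ∈ X' ↔ π v ∈ X')} : Finset V) ⊆ ({v | ¬ (v ∈ X ↔ π v ∈ X)} : Finset V) ∪
      (W1.image fun p => (π ^ ((K : ℤ) - 1)) p.1) ∪ W2.image fun p => (π ^ (-1 : ℤ)) p.1 := by
    intro v hv
    have hv := (mem_filter.1 hv).2
    by_cases c1 : co v <;> by_cases c2 : co (π v)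
    · obtain ⟨s, hs, a, a1, a2, rfl⟩ := c1
      obtain ⟨s', hs', b, b1, b2, e⟩ := c2
      obtain rfl := hfar s hs s' hs' a b a1 a2 b1 b2 (Or.inr e.symm)
      exact absurd (by rw [← e, h1 s hs a a1 a2, h1 s hs b b1 b2]) hv
    · obtain ⟨s, hs, a, a1, a2, rfl⟩ := c1
      have ha : a = K - 1 := by
        by_contra hn
        exact c2 ⟨s, hs, a + 1, by omega, by omega, (zp_succ _ _ _).symm⟩
      rw [h1 s hs a a1 a2, h3 _ c2, zp_succ, ha, sub_add_cancel] at hv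
      exact mem_union_left _ (mem_union_right _ (mem_image.2
        ⟨(s, ()), mem_wrong.2 ⟨hs, fun h => hv h.symm⟩, by rw [ha]⟩))
    · obtain ⟨s, hs, a, a1, a2, e⟩ := c2
      have e' : (π ^ (a - 1)) s = v := π.injective (by rw [zp_succ, sub_add_cancel, e])
      have ha : a = 0 := by
        by_contra hn
        exact c1 ⟨s, hs, a - 1, by omega, by omega, e'⟩
      rw [← e, h1 s hs a a1 a2, h3 _ c1, ← e', ha, zero_sub] at hv
      exact mem_union_right _ (mem_image.2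
        ⟨(s, ()), mem_wrong.2 ⟨hs, hv⟩, by rw [← e', ha, zero_sub]⟩)
    · rw [h3 _ c1, h3 _ c2] at hv
      exact mem_union_left _ (mem_union_left _ (mem_filter.2 ⟨mem_univ _, hv⟩))
  have key : ∀ v, co v → ¬ co (μ v) → ¬ (v ∈ X' ↔ μ v ∈ X') →
      ∃ p ∈ W0, (π ^ ((p.2 : ℕ) : ℤ)) p.1 = v := by
    rintro v ⟨s, hs, a, a1, a2, rfl⟩ c2 hv
    obtain ⟨n, rfl⟩ := Int.eq_ofNat_of_zero_le a1
    rw [h1 s hs n a1 a2, h3 _ c2] at hv
    exact ⟨(s, ⟨n, by omega⟩), mem_wrong.2 ⟨hs, fun h => hv h.symm⟩, rfl⟩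
  have e2 : ({v | ¬ (v ∈ X' ↔ μ v ∈ X')} : Finset V) ⊆ ({v | ¬ (v ∈ X ↔ μ v ∈ X)} : Finset V) ∪
      (W0.image fun p => (π ^ ((p.2 : ℕ) : ℤ)) p.1) ∪
        W0.image fun p => μ ((π ^ ((p.2 : ℕ) : ℤ)) p.1) := by
    intro v hv
    have hv := (mem_filter.1 hv).2
    by_cases c1 : co v <;> by_cases c2 : co (μ v)
    · obtain ⟨s, hs, a, a1, a2, rfl⟩ := c1
      obtain ⟨s', hs', b, b1, b2, e⟩ := c2
      obtain rfl := hfar s hs s' hs' a b a1 a2 b1 b2 (Or.inl e.symm)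
      exact absurd (by rw [← e, h1 s hs a a1 a2, h1 s hs b b1 b2]) hv
    · exact mem_union_left _ (mem_union_right _ (mem_image.2 (key v c1 c2 hv)))
    · obtain ⟨p, p1, p2⟩ := key (μ v) c2 (by rwa [hμ]) (by rw [hμ]; exact fun h => hv h.symm)
      exact mem_union_right _ (mem_image.2 ⟨p, p1, by rw [p2, hμ]⟩)
    · rw [h3 _ c1, h3 _ c2] at hv
      exact mem_union_left _ (mem_union_left _ (mem_filter.2 ⟨mem_univ _, hv⟩))
  have f1 := (card_le_card e1).trans ((card_union_le _ _).trans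
    (Nat.add_le_add ((card_union_le _ _).trans (Nat.add_le_add_left card_image_le _))
      card_image_le))
  have f2 := (card_le_card e2).trans ((card_union_le _ _).trans
    (Nat.add_le_add ((card_union_le _ _).trans (Nat.add_le_add_left card_image_le _))
      card_image_le))
  rw [card_mucut hμ, card_mucut hμ] at f2
  unfold dc fc
  omega

end Pool.Agent.P.MP_e59a69_co
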